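import Pool.Agent.Lib.MP_ef18bd_co.P.Gig
import Pool.Agent.Lib.MP_ef18bd_co.P.Idx2

/-!
# The joint rows and the filter for girth five

`Dj5`: the chain of `P/JntS.lean` for graphs without cycles of length three and four. `Dj5.rawP`: one phase in pieces,
with the filter `flt ok4` around the step. `finalJ_g5`: cubic graphs of girth at least five.
-/

namespace EF18

open Finset

/-- every connected state without the pieces `PL` which contains a pattern of the list is good, for the graphs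
without cycles of length three and four -/
def Dj5 (CA CB : List CPc) (PL dn : List (ℕ × ℕ)) : Prop :=
  ∀ (V : Type) [Fintype V] [DecidableEq V] (G : SimpleGraph V) [DecidableRel G.Adj],
    G.IsRegularOfDegree 3 → G.Connected → TF3 G → C4F G → ∀ U : Finset V, Inv G U → U ≠ univ →
    U.Nonempty → iso G U = ∅ → NoP G PL U → (∃ q ∈ dn, ∃ φ ν : ℕ → V, Emb G U q.1 q.2 φ ν) →
    ∃ k, k ≠ 0 ∧ GoodJ fw 12 84 6 6 CA CB G U k

/-- the start -/
theorem dj5_nil (CA CB : List CPc) (PL : List (ℕ × ℕ)) : Dj5 CA CB PL [] :=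
  fun _ _ _ _ _ _ _ _ _ _ _ _ _ _ _ ⟨_, hq, _⟩ => absurd hq List.not_mem_nil

/-- the patterns may be permuted -/
theorem Dj5.mono {CA CB : List CPc} {PL dn dn' : List (ℕ × ℕ)}
    (h : Dj5 CA CB PL dn) (hs : ∀ q ∈ dn', q ∈ dn) : Dj5 CA CB PL dn' :=
  fun V _ _ G _ hG hc htf h4 U hI hU hne hiso hcl ⟨q, hq, he⟩ =>
    h V G hG hc htf h4 U hI hU hne hiso hcl ⟨q, hs q hq, he⟩

/-- **one phase from the fast checker**, in pieces -/
theorem Dj5.rawP {CA CB : List CPc} (hCA : vok CA) (hCB : vok CB) {ML : List MPc} (hMA : ML = mcl CA)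
    (hMB : ML = mcl CB) (hML : ML.all mkok = true) {PL Ps : List (ℕ × ℕ)}
    (hPL : PL.all wfp = true) (h : Dj5 CA CB PL (dnL Ps)) {D hA hB : ℕ}
    (h1 : (Nat.ble 2 D || memI Ps hA 1 257) = true) (h0 : (Nat.ble 1 D || memI Ps hB 1 1) = true)
    {g : ℕ} (hg : 0 < g) {TJ : List (List (List ℕ))} (hTJ : (TJ.all okJ) = true) {m : ℕ}
    (hK : PpI Ps g TJ CA CB m) (hm : CA.length = m) {ne : Bool} {HN : ℕ}
    (hne : (!ne || allK Ps (fun _ => true) (nzq CB) HN) = true) {RB NR : ℕ}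
    (hR : RtI (ok5 (okB D true)) (stD (dnL Ps) (flt ok4 (stJ ne CA CB g TJ true ML PL D))) RB NR) :
    Dj5 CA CB PL (dnL ((RB, NR) :: Ps)) := by
  intro V _ _ G _ hG hc htf h4 U hI hU hne' hiso hcl hq
  by_cases hd : ∃ q ∈ dnL Ps, ∃ φ ν : ℕ → V, Emb G U q.1 q.2 φ ν
  · exact h V G hG hc htf h4 U hI hU hne' hiso hcl hd
  obtain ⟨q, hq, φ, ν, he⟩ := hq
  have hno : ∀ q ∈ dnL Ps, ∀ φ ν : ℕ → V, ¬ Emb G U q.1 q.2 φ ν := fun q hq φ ν he => hd ⟨q, hq, φ, ν, he⟩
  rcases List.mem_append.1 hq with hq | hq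
  swap
  · exact absurd he (hno q hq φ ν)
  have h2 := n1_le_two hG hI hiso
  have hD : ∀ x ∈ U, n1 G U x ≤ D := by
    by_cases hD2 : 2 ≤ D
    · exact fun x hx => (h2 x hx).trans hD2
    intro x hx
    by_contra hc
    push Not at hc
    by_cases hD1 : D = 1
    · obtain ⟨φ, ν, e⟩ := root2 hG hx (show 2 ≤ n1 G U x by omega)
      rw [Bool.or_eq_true] at h1
      rcases h1 with h1 | h1
      · have := Nat.le_of_ble_eq_true h1
        omega
      · exact hno _ (memI_of h1) φ ν e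
    · obtain ⟨φ, ν, e⟩ := root1 hG hx (show 1 ≤ n1 G U x by omega)
      rw [Bool.or_eq_true] at h0
      rcases h0 with h0 | h0
      · have := Nat.le_of_ble_eq_true h0
        omega
      · exact hno _ (memI_of h0) φ ν e
  have hNX : NoE G U (dnL Ps) := hno
  have hz : ne = true → exv CB G U = 0 := fun e => by
    rw [e, Bool.not_true, Bool.false_or] at hne
    exact nzk_of hG hCB.1 (nzq_of (allK_of hne).1) hNX
  have hk4 : ∀ n p (φ ν : ℕ → V), Emb G U n p φ ν → ok4 n p = true := fun n p φ ν he => by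
    have e := sq4_of (q := (n, p)) h4 he
    show (!sq4 (n, p)) = true
    rw [Bool.not_eq_true']
    exact Bool.eq_false_iff.2 e
  have hst := ((snd_stJ (tf := true) hG hc hI hU hCA hCB hTJ hMA hMB hML
    (tabJ_ofI hG hI hCA.1 hg hTJ (fun i hi => hK i (hm ▸ hi)) hNX) hz hPL hD hiso (fun _ => htf) hcl).flt4
    hk4).stD (dn := dnL Ps) fun q hq φ ν he => absurd he (hno q hq φ ν)
  obtain ⟨j, -, j2, rfl⟩ := unp_mem hq
  refine clO_of (hR j (by omega)) V G U _ (fun n p φ ν he => ?_) hst φ ν he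
  show (okB D true n p && ok4 n p) = true
  rw [he.okB hG hD (fun _ => htf), hk4 n p φ ν he]
  rfl

variable {V : Type} [Fintype V] [DecidableEq V] {G : SimpleGraph V} [DecidableRel G.Adj]

/-- **every state is good** if the boundary patterns are in the list -/
theorem Dj5.good {CA CB : List CPc} {PL dn : List (ℕ × ℕ)} (h : Dj5 CA CB PL dn)
    (hB : (1, 1) ∈ dn) (hC : (2, 9 + 3 * 256 ^ 3) ∈ dn) (hG : G.IsRegularOfDegree 3) (hc : G.Connected)
    (htf : TF3 G) (h4 : C4F G) {U : Finset V} (hI : Inv G U) (hU : U ≠ univ) (hne : U.Nonempty)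
    (hiso : iso G U = ∅) (hcl : NoP G PL U) :
    ∃ k, k ≠ 0 ∧ GoodJ fw 12 84 6 6 CA CB G U k := by
  by_cases h1 : ∃ x ∈ U, 1 ≤ n1 G U x
  · obtain ⟨x, hx, hn⟩ := h1
    obtain ⟨φ, ν, e⟩ := root1 hG hx hn
    exact h V G hG hc htf h4 U hI hU hne hiso hcl ⟨_, hB, φ, ν, e⟩
  · push Not at h1
    obtain ⟨φ, ν, e⟩ := root3 hG hc hU hne fun x hx => by
      have := h1 x hx
      omega
    exact h V G hG hc htf h4 U hI hU hne hiso hcl ⟨_, hC, φ, ν, e⟩

/-- **the bound from the chain** -/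
theorem Dj5.bnd {CA CB : List CPc} {PL dn : List (ℕ × ℕ)} (h : Dj5 CA CB PL dn)
    (hB : (1, 1) ∈ dn) (hC : (2, 9 + 3 * 256 ^ 3) ∈ dn) (hG : G.IsRegularOfDegree 3) (hc : G.Connected)
    (htf : TF3 G) (h4 : C4F G) : BndJ CA CB PL G :=
  frameJ hG CA CB (by decide) (NoP G PL) (fun _ _ h hB => hB.mono h)
    fun _ hI hU hne _ hi hcl => h.good hB hC hG hc htf h4 hI hU hne hi hcl

/-- the conditions on the chain for girth five -/
def Chj5 : Prop :=
  ∃ (CA CB : List CPc) (PL dn : List (ℕ × ℕ)), f13 CA = true ∧ (PL.all sq4) = true ∧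
    Dj5 CA CB PL dn ∧ (1, 1) ∈ dn ∧ (2, 9 + 3 * 256 ^ 3) ∈ dn

/-- **cubic graphs of girth at least five** -/
theorem finalJ_g5 (h : Chj5) (V : Type) [Fintype V] [DecidableEq V] (G : SimpleGraph V)
    [DecidableRel G.Adj] (hG : G.IsRegularOfDegree 3) (hg : 5 ≤ G.egirth) :
    upperMinus G ≤ upperSigned G := by
  obtain ⟨CA, CB, PL, dn, h1, h2, h3, h4, h5⟩ := h
  obtain ⟨g3, g4⟩ := tf3_c4f hg
  refine compare_Q (bo := false) (fun {W} (H : SimpleGraph W) => TF3 H ∧ C4F H) h1 (fun W _ _ H _ a1 a2 a3 => ?_) V G hG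
    fun k => ⟨fun a b c hab hbc hac => g3 _ _ _ hab hbc hac, fun a b c d e1 e2 e3 e4 => ?_⟩
  · intro U b1 b2 _
    exact (h3.bnd h4 h5 a1 a2 a3.1 a3.2).flat U b1 b2 (noP_c4 a3.2 h2 U)
  · rcases g4 _ _ _ _ e1 e2 e3 e4 with e | e
    · exact Or.inl (Subtype.ext e)
    · exact Or.inr (Subtype.ext e)

end EF18
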