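import Pool.Agent.Lib.MP_ef18bd_co.P.WdV

/-!
# The fast tests in small steps

The same tests as in `WdV`, as chains of small definitions with unevaluated arguments, the picks read from the
number. `tokVu`: they are correct.
-/

namespace EF18

namespace W

/-! ### the words -/

def wdu6 (u : ℕ) (k : ℕ → ℕ → ℕ → ℕ → ℕ → ℕ → ℕ → ℕ → ℕ → ℕ → ℕ → ℕ → Bool)
    (f0 f1 tkd tkl sd mp sv on f0i e1 sf ns : ℕ) : Bool :=
  k f0 f1 tkl sd mp sv on f0i e1 sf ns (Nat.land (nf u (Nat.lor tkd tkl)) ns)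

def wdu5 (u : ℕ) (k : ℕ → ℕ → ℕ → ℕ → ℕ → ℕ → ℕ → ℕ → ℕ → ℕ → ℕ → ℕ → Bool)
    (f0 f1 tkd tkl sd mp sv on f0i e1 sf : ℕ) : Bool :=
  wdu6 u k f0 f1 tkd tkl sd mp sv on f0i e1 sf (wo sv sf)

def wdu4 (c u : ℕ) (k : ℕ → ℕ → ℕ → ℕ → ℕ → ℕ → ℕ → ℕ → ℕ → ℕ → ℕ → ℕ → Bool)
    (f0 f1 tkd tkl sd sl mp sv on f0i A2 : ℕ) : Bool :=
  wdu5 u k f0 f1 tkd tkl sd mp sv on f0i (Nat.land (Nat.shiftRight A2 8) c)
    (Nat.land (nf u (Nat.lor (Nat.lor sd sl) (Nat.land (Nat.shiftRight A2 9) c))) sv)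

def wdu3 (n p c u IN : ℕ) (k : ℕ → ℕ → ℕ → ℕ → ℕ → ℕ → ℕ → ℕ → ℕ → ℕ → ℕ → ℕ → Bool)
    (f0 f1 tkd tkl sd sl mp sv : ℕ) : Bool :=
  wdu4 c u k f0 f1 tkd tkl sd sl mp sv (nf u f0) (Nat.land f0 (Nat.mul IN 65793)) (t2 p (Nat.land sd mp) f0 n)

def wdu2 (n p c u M IN : ℕ) (k : ℕ → ℕ → ℕ → ℕ → ℕ → ℕ → ℕ → ℕ → ℕ → ℕ → ℕ → ℕ → Bool)
    (f0 f1 nz od tkd tkl : ℕ) : Bool :=
  wdu3 n p c u IN k f0 f1 tkd tkl (wo (Nat.xor nz od) tkd) (wo (Nat.xor od f1) tkl) (Nat.mul M 65793) (wo u M)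

def wdu1 (n p c u M IN : ℕ) (k : ℕ → ℕ → ℕ → ℕ → ℕ → ℕ → ℕ → ℕ → ℕ → ℕ → ℕ → ℕ → Bool)
    (A nz n1 od : ℕ) : Bool :=
  wdu2 n p c u M IN k (Nat.xor c nz) (Nat.xor c n1) nz od (Nat.land (Nat.shiftRight A 8) c)
    (Nat.land (Nat.shiftRight A 12) c)

/-- all words -/
def wdu (n p c u M IN : ℕ) (k : ℕ → ℕ → ℕ → ℕ → ℕ → ℕ → ℕ → ℕ → ℕ → ℕ → ℕ → ℕ → Bool) : Bool :=
  wdu1 n p c u M IN k (tk p M n) (nzf c p) (nzf c (Nat.xor p c)) (Nat.land p c)

theorem wdu_eq (n p c u M IN : ℕ) (k : ℕ → ℕ → ℕ → ℕ → ℕ → ℕ → ℕ → ℕ → ℕ → ℕ → ℕ → ℕ → Bool) :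
    wdu n p c u M IN k = wds n p c u M IN k := by
  unfold wdu wdu1 wdu2 wdu3 wdu4 wdu5 wdu6 wds
  simp only [fz_val]

/-! ### the test -/

/-- the minimum -/
def mq (a b : ℕ) : ℕ := bc (Nat.ble a b) b a

theorem mq_eq (a b : ℕ) : mq a b = mn a b := by
  unfold mq mn
  cases Nat.ble a b <;> rfl

def nu0 (att opm q q1 : ℕ) : ℕ :=
  mq opm (mq (Nat.div (Nat.add opm (ct (Nat.land att (wo q q1)))) 2)
    (Nat.div (Nat.add (Nat.add opm (Nat.mul 2 (ct (Nat.land att (wo q q1))))) (ct (Nat.land att (wo q1 q)))) 3))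

def nu1 (on att opm q q1 : ℕ) : ℕ :=
  Nat.add (ct (Nat.land att (wo on q1)))
    (zc opm 0 (mq opm (Nat.div (Nat.add opm (ct (Nat.land att (wo q1 q)))) 2)))

def nuq0 (att opm q : ℕ) : ℕ := nu0 att opm q (Nat.shiftRight q 1)

def nuq1 (on att opm q : ℕ) : ℕ := nu1 on att opm q (Nat.shiftRight q 1)

/-- the possibly isolated nodes -/
def nu (D u f0 f1 on att opm : ℕ) : ℕ :=
  zc D (zc opm 0 (nuq0 att opm (q3 u (Nat.lor f0 f1))))
    (zc (Nat.sub D 1) (nuq1 on att opm (q3 u (Nat.lor f0 f1))) (Nat.add (ct (Nat.land att on)) opm))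

theorem nu_eq (D u f0 f1 on att opm : ℕ) : nu D u f0 f1 on att opm = nn D u f0 f1 on att opm := by
  unfold nu nn nuq0 nuq1 nu0 nu1
  simp only [fz_val, mq_eq]

def bou (D ka kt : ℕ) : ℕ := mq (zc D ka (mq ka kt)) 2

theorem bou_eq (D ka kt : ℕ) : bou D ka kt = bon D ka kt := by
  unfold bou bon
  rw [mq_eq, mq_eq, zc_eq]
  by_cases h : D = 0
  · rw [h]; rfl
  · rw [if_neg h, show Nat.beq D 0 = false by rw [← Bool.not_eq_true, nbeq]; exact h]
    rfl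

def tsu1 (cc D l n0 N dk lk ka m z kt : ℕ) : Bool :=
  Nat.ble (Nat.add (Nat.add (Nat.add (Nat.mul 84 l) cc) (Nat.mul 12 (Nat.add n0 N)))
      (Nat.add (Nat.mul 6 (mq kt 2)) (Nat.mul 18 z)))
    (Nat.add (Nat.add (Nat.mul 18 m) (Nat.mul 9 lk)) (Nat.add (Nat.mul 18 dk) (Nat.mul 6 (bou D ka kt))))

/-- the test -/
def tsu (cc D l n0 N t1 dk lk ka m z : ℕ) : Bool := tsu1 cc D l n0 N dk lk ka m z (Nat.add t1 (Nat.mul D N))

theorem tsu_eq (cc D l n0 N t1 dk lk ka m z : ℕ) :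
    tsu cc D l n0 N t1 dk lk ka m z = tsv cc D l n0 N t1 dk lk ka m z := by
  unfold tsu tsu1 tsv
  simp only [fz_val, mq_eq, bou_eq]

/-- the worst case -/
def kwu (C : ℕ → ℕ) (lf : Bool) (D l u M IN f0 f1 tkl sd mp sv on f0i e1 sf ns att : ℕ) : Bool :=
  bc (bc lf true (bc (Nat.beq f0i 0) (Nat.beq (Nat.land on sv) 0) true)) false
    (tsu (C (outw u f0 sd M IN)) D l (ct (wo ns on))
      (nu D u f0 f1 on att (Nat.add (ct (Nat.land f0 mp)) (ct f0i))) (ct f1) (ct (Nat.land f1 mp))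
      (ct (Nat.land tkl mp)) (ct (Nat.land (Nat.lor (Nat.lor f1 tkl) e1) (Nat.mul sf 65793))) (ct M)
      (ct (wo (nf u (Nat.land (Nat.lor sd f0) mp)) IN)))

theorem kwu_eq (C : ℕ → ℕ) (lf : Bool) (D l u M IN f0 f1 tkl sd mp sv on f0i e1 sf ns att : ℕ) :
    kwu C lf D l u M IN f0 f1 tkl sd mp sv on f0i e1 sf ns att =
      kwc C lf D l u M IN f0 f1 tkl sd mp sv on f0i e1 sf ns att := by
  unfold kwu kwc
  simp only [fz_val, tsu_eq, nu_eq]
  have h1 : bc (Nat.beq f0i 0) (Nat.beq (Nat.land on sv) 0) true =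
      (Nat.beq f0i 0 || Nat.beq (Nat.land on sv) 0) := by cases Nat.beq f0i 0 <;> rfl
  rw [h1]
  cases bc lf true (Nat.beq f0i 0 || Nat.beq (Nat.land on sv) 0) <;> rfl

def keu1 (C : ℕ → ℕ) (D l u M IN f0 f1 tkl sd mp sv e1 nf0 : ℕ) : Bool :=
  tsu (C (outw u f0 sd M IN)) D l (ct nf0) 0 (ct f1) (ct (Nat.land f1 mp)) (ct (Nat.land tkl mp))
    (ct (Nat.land (Nat.lor (Nat.lor f1 tkl) e1) (Nat.mul (wo sv nf0) 65793))) (ct M)
    (ct (wo (nf u (Nat.land (Nat.lor sd f0) mp)) IN))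

/-- all completions -/
def keu (C : ℕ → ℕ) (D l u M IN f0 f1 tkl sd mp sv on _f0i e1 _sf ns _att : ℕ) : Bool :=
  keu1 C D l u M IN f0 f1 tkl sd mp sv e1 (wo ns on)

theorem keu_eq (C : ℕ → ℕ) (D l u M IN f0 f1 tkl sd mp sv on f0i e1 sf ns att : ℕ) :
    keu C D l u M IN f0 f1 tkl sd mp sv on f0i e1 sf ns att =
      kec C D l u M IN f0 f1 tkl sd mp sv on f0i e1 sf ns att := by
  unfold keu keu1 kec
  simp only [fz_val, tsu_eq]

/-! ### the picks -/

def pku3 (c u : ℕ) (r : ℕ → ℕ → ℕ → Bool) (x z M IN a1 a2 : ℕ) : Bool :=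
  r z (Nat.lor M (bl c u x a1 a2)) (Nat.lor IN (inn c u x a1))

def pku2 (p c u : ℕ) (r : ℕ → ℕ → ℕ → Bool) (x z M IN w : ℕ) : Bool :=
  bc (Nat.beq (nzf 65793 w) 65793) false (bc (Nat.beq (bt M x) 0) false (pku3 c u r x z M IN (pf w) (pn p w)))

def pku1 (n p c u : ℕ) (r : ℕ → ℕ → ℕ → Bool) (x z M IN : ℕ) : Bool :=
  bc (Nat.ble (Nat.succ x) n) false (pku2 p c u r x z M IN (wd p x))

/-- the picks from the number `z` -/
def pku (n p c u : ℕ) (k : ℕ → ℕ → Bool) (m : ℕ) : ℕ → ℕ → ℕ → Bool :=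
  Nat.rec (motive := fun _ => ℕ → ℕ → ℕ → Bool) (fun _ M IN => k M IN)
    (fun _ r z M IN => pku1 n p c u r (Nat.mod z 64) (Nat.div z 64) M IN) m

theorem pku_eq (n p c u : ℕ) (k : ℕ → ℕ → Bool) : ∀ (m z M IN : ℕ),
    pku n p c u k m z M IN = pk n p c u k (pkz m z) M IN := by
  intro m
  induction m with
  | zero => intro z M IN; rfl
  | succ m ih =>
    intro z M IN
    rw [pkz, pk_cons, ← ih]
    have e : pku n p c u k (m + 1) z M IN =
      bc (Nat.ble (Nat.succ (Nat.mod z 64)) n) false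
        (bc (Nat.beq (nzf 65793 (wd p (Nat.mod z 64))) 65793) false
          (bc (Nat.beq (bt M (Nat.mod z 64)) 0) false
            (pku n p c u k m (Nat.div z 64) (Nat.lor M (bl c u (Nat.mod z 64) (pf (wd p (Nat.mod z 64)))
              (pn p (wd p (Nat.mod z 64))))) (Nat.lor IN (inn c u (Nat.mod z 64)
                (pf (wd p (Nat.mod z 64)))))))) := rfl
    rw [e]
    generalize pku n p c u k m (Nat.div z 64) _ _ = b
    cases Nat.ble (Nat.succ (Nat.mod z 64)) n <;>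
      cases Nat.beq (nzf 65793 (wd p (Nat.mod z 64))) 65793 <;>
      cases Nat.beq (bt M (Nat.mod z 64)) 0 <;> rfl

/-! ### the tables -/

/-- the table number `j` -/
def tbl (Ts : List (List ℕ)) : ℕ → List ℕ :=
  List.rec (motive := fun _ => ℕ → List ℕ) (fun _ => []) (fun a _ r j => zc j a (r (Nat.pred j))) Ts

/-- the value of a table -/
def ctu (T : List ℕ) : ℕ → ℕ → ℕ :=
  List.rec (motive := fun _ => ℕ → ℕ → ℕ) (fun _ o => Nat.mul 1000 o) (fun a _ r j o => zc j a (r (Nat.pred j) o)) T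

theorem tbl_eq (Ts : List (List ℕ)) : ∀ j, tbl Ts j = Ts.getD j [] := by
  induction Ts with
  | nil => intro j; rfl
  | cons T Ts ih =>
    intro j
    have e : tbl (T :: Ts) j = zc j T (tbl Ts (Nat.pred j)) := rfl
    rw [e, zc_eq]
    cases j with
    | zero => rfl
    | succ j =>
      rw [if_neg (Nat.succ_ne_zero j), ih]
      rfl

theorem ctu_eq' (o : ℕ) : ∀ (T : List ℕ) (j : ℕ), ctu T j o =
    if j < T.length then T.getD j 0 else 1000 * o := by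
  intro T
  induction T with
  | nil => intro j; rfl
  | cons a T ih =>
    intro j
    have e : ctu (a :: T) j o = zc j a (ctu T (Nat.pred j) o) := rfl
    rw [e, zc_eq]
    cases j with
    | zero => rfl
    | succ j =>
      rw [if_neg (Nat.succ_ne_zero j), show Nat.pred (j + 1) = j from rfl, ih, List.length_cons]
      by_cases h : j < T.length
      · rw [if_pos h, if_pos (by omega)]
        rfl
      · rw [if_neg h, if_neg (by omega)]

theorem ctu_eq (T : List ℕ) (o : ℕ) : ctu T o o = ctf T o := by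
  rw [ctu_eq']
  unfold ctf
  by_cases h : o < T.length
  · rw [if_pos h, show Nat.ble (Nat.succ o) T.length = true from Nat.ble_eq_true_of_le h]
    rfl
  · rw [if_neg h, show Nat.ble (Nat.succ o) T.length = false by
      rw [← Bool.not_eq_true, Nat.ble_eq]
      change ¬ o < T.length
      exact h]
    rfl

/-! ### the tests -/

def lwU1 (C : ℕ → ℕ) (lf : Bool) (D n p m z c u : ℕ) : Bool :=
  pku n p c u (fun M IN => wdu n p c u M IN (kwu C lf D m u M IN)) m z 0 0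

/-- the worst case -/
def lwU (C : ℕ → ℕ) (lf : Bool) (D n p m z : ℕ) : Bool :=
  bc (Nat.ble (Nat.succ n) 40) false
    (lwU1 C lf D n p m z (Nat.div (Nat.pow 16777216 n) 255) (Nat.div (Nat.pow 16777216 n) 16777215))

def leU1 (C : ℕ → ℕ) (D n p m z c u : ℕ) : Bool :=
  pku n p c u (fun M IN => wdu n p c u M IN (keu C D m u M IN)) m z 0 0

/-- all completions -/
def leU (C : ℕ → ℕ) (D n p m z : ℕ) : Bool :=
  bc (Nat.ble (Nat.add n 5) 40) false
    (leU1 C D n p m z (Nat.div (Nat.pow 16777216 n) 255) (Nat.div (Nat.pow 16777216 n) 16777215))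

theorem lwU_eq (C : ℕ → ℕ) (lf : Bool) (D n p m z : ℕ) :
    lwU C lf D n p m z = lwW C lf D n p (pkz m z) := by
  unfold lwU lwU1 lwW
  simp only [fz_val]
  rw [pku_eq, pkz_length]
  have e : (fun M IN => wdu n p (Nat.div (Nat.pow 16777216 n) 255) (Nat.div (Nat.pow 16777216 n) 16777215) M IN
      (kwu C lf D m (Nat.div (Nat.pow 16777216 n) 16777215) M IN)) =
    (fun M IN => wds n p (Nat.div (Nat.pow 16777216 n) 255) (Nat.div (Nat.pow 16777216 n) 16777215) M IN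
      (kwc C lf D m (Nat.div (Nat.pow 16777216 n) 16777215) M IN)) := by
    funext M IN
    rw [wdu_eq]
    congr 1
    funext f0 f1 tkl sd mp sv on f0i e1 sf ns att
    exact kwu_eq _ _ _ _ _ _ _ _ _ _ _ _ _ _ _ _ _ _ _
  rw [e]
  cases Nat.ble (Nat.succ n) 40 <;> rfl

theorem leU_eq (C : ℕ → ℕ) (D n p m z : ℕ) : leU C D n p m z = leW C D n p (pkz m z) := by
  unfold leU leU1 leW
  simp only [fz_val]
  rw [pku_eq, pkz_length]
  have e : (fun M IN => wdu n p (Nat.div (Nat.pow 16777216 n) 255) (Nat.div (Nat.pow 16777216 n) 16777215) M IN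
      (keu C D m (Nat.div (Nat.pow 16777216 n) 16777215) M IN)) =
    (fun M IN => wds n p (Nat.div (Nat.pow 16777216 n) 255) (Nat.div (Nat.pow 16777216 n) 16777215) M IN
      (kec C D m (Nat.div (Nat.pow 16777216 n) 16777215) M IN)) := by
    funext M IN
    rw [wdu_eq]
    congr 1
    funext f0 f1 tkl sd mp sv on f0i e1 sf ns att
    exact keu_eq _ _ _ _ _ _ _ _ _ _ _ _ _ _ _ _ _ _
  rw [e]
  cases Nat.ble (Nat.add n 5) 40 <;> rfl

/-- a token without flags, matched nodes and credit: `k` of the picks, else `s` -/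
def tku (y : ℕ) (k : ℕ → ℕ → Bool) (s : Bool) : Bool :=
  bc (bc (Nat.beq (Nat.mod y 8) 0) (bc (Nat.ble (Nat.pow 2 48) y)
    (Nat.beq (Nat.mod (Nat.div y 8) 2) 1) true) true) (k (Nat.mod y 8) (Nat.div y 64)) s

theorem tku_eq (y : ℕ) (k : List ℕ → Bool) (s : Bool) : tku y (fun m z => k (pkz m z)) s = tkw y k s := by
  unfold tku tkw
  cases Nat.beq (Nat.mod y 8) 0 <;> cases Nat.ble (Nat.pow 2 48) y <;>
    cases Nat.beq (Nat.mod (Nat.div y 8) 2) 1 <;> rfl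

/-- the costs -/
def csu (Ts : List (List ℕ)) (m : ℕ) : ℕ → ℕ := fun o => ctu (tbl Ts (Nat.pred m)) o o

theorem csu_eq (Ts : List (List ℕ)) (m z : ℕ) : csu Ts m = cst Ts (pkz m z) := by
  funext o
  unfold csu cst
  rw [ctu_eq, tbl_eq, pkz_length]

end W

/-- the fast test of an event with all completions -/
def tEu (Ts : List (List ℕ)) (D : ℕ) (CL : List CPc) (ML : List MPc) (n p y : ℕ) : Bool :=
  W.tku y (fun m z => W.leU (W.csu Ts m) D n p m z) (iss (oE true CL Ts D true ML n p y))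

/-- the fast test of an event in the worst case -/
def tWu (Ts : List (List ℕ)) (D : ℕ) (CL : List CPc) (ML : List MPc) (n p y : ℕ) : Bool :=
  W.tku y (fun m z => W.lwU (W.csu Ts m) false D n p m z) (iss (oW true CL Ts D true ML n p y))

/-- the fast test of a leaf -/
def lwu (Ts : List (List ℕ)) (D : ℕ) (CL : List CPc) (ML : List MPc) (n p y : ℕ) : Bool :=
  W.tku y (fun m z => W.lwU (W.csu Ts m) true D n p m z) (isn (oW true CL Ts D true ML n p y))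

theorem tEu_eq (Ts : List (List ℕ)) (D : ℕ) (CL : List CPc) (ML : List MPc) :
    tEu Ts D CL ML = tEw Ts D CL ML := by
  funext n p y
  unfold tEu tEw
  rw [← W.tku_eq]
  congr 1
  funext m z
  rw [W.leU_eq, W.csu_eq Ts m z]

theorem tWu_eq (Ts : List (List ℕ)) (D : ℕ) (CL : List CPc) (ML : List MPc) :
    tWu Ts D CL ML = tWw Ts D CL ML := by
  funext n p y
  unfold tWu tWw
  rw [← W.tku_eq]
  congr 1
  funext m z
  rw [W.lwU_eq, W.csu_eq Ts m z]

theorem lwu_eq (Ts : List (List ℕ)) (D : ℕ) (CL : List CPc) (ML : List MPc) :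
    lwu Ts D CL ML = lww Ts D CL ML := by
  funext n p y
  unfold lwu lww
  rw [← W.tku_eq]
  congr 1
  funext m z
  rw [W.lwU_eq, W.csu_eq Ts m z]

/-- **the fast tests are correct** -/
theorem tokVu (CL : List CPc) (Ts : List (List ℕ)) {D : ℕ} (hD : D < 3) (ML : List MPc) :
    TokV true CL Ts D true ML (tEu Ts D CL ML) (tWu Ts D CL ML) (lwu Ts D CL ML) := by
  rw [tEu_eq, tWu_eq, lwu_eq]
  exact tokVw CL Ts hD ML

end EF18
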