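import Pool.Agent.Lib.MP_ef18bd_co.P.WdL
import Pool.Agent.Lib.MP_ef18bd_co.P.Wu

/-!
# The fast tests for all cubic graphs in small steps

The same tests as in `WdL`, as chains of small definitions with unevaluated arguments. `tokVm`: they are correct.
-/

namespace EF18

namespace W

/-! ### the nodes which are certainly in no triangle -/

def nbu1 (p M b t : ℕ) : ℕ := bc (Nat.beq (bt M t) b) 0 (pf (wd p t))

/-- the partner flags of the node behind a direct digit, if it is (`b = 0`: not) removed -/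
def nbu (p M b d : ℕ) : ℕ := zc (Nat.mod d 2) (zc d 0 (nbu1 p M b (Nat.div (Nat.sub d 2) 6))) 0

theorem nbu_eq (p M b d : ℕ) : nbu p M b d = nbm p M b d := by
  unfold nbu nbu1 nbm
  simp only [fz_val]

/-- the nodes behind the direct neighbours which are (not) removed -/
def s2u (p c u M b i : ℕ) : ℕ :=
  nf u (Nat.land (Nat.shiftRight (Nat.lor (Nat.lor (nbu p M b (Nat.mod (wd p i) 256))
    (nbu p M b (Nat.mod (Nat.shiftRight (wd p i) 8) 256))) (nbu p M b (Nat.shiftRight (wd p i) 16))) 8) c)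

theorem s2u_eq (p c u M b i : ℕ) : s2u p c u M b i = s2w p c u M b i := by
  unfold s2u s2w n2m
  rw [nbu_eq, nbu_eq, nbu_eq]

def ntu3 (p c u M i : ℕ) (on' : ℕ) : Bool :=
  bc (Nat.beq (Nat.land (s2u p c u M 0 i) on') 0) false
    (Nat.beq (wo (Nat.land (s2u p c u M 1 i) on') M) 0)

/-- the part for an open node -/
def ntu1 (p c u on M i : ℕ) : Bool :=
  bc (Nat.beq (ct (nzf 65793 (wd p i))) 2) false (bc (Nat.beq (Nat.land (dmw p c u i) on) 0) false
    (bc (Nat.beq (wo (Nat.land (lmw p c u i) on) M) 0) false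
      (ntu3 p c u M i (wo on (Nat.lor (Nat.shiftLeft 1 (Nat.mul 24 i)) (dmw p c u i))))))

/-- `ntr false` with masks -/
def ntu (p c u on M i : ℕ) : Bool :=
  bc (bc (Nat.beq (wo (Nat.land (dmw p c u i) on) M) 0)
      (Nat.ble (ct (Nat.land (dmw p c u i) on)) 1) true) false
    (bc (zc (bt on i) true (ntu1 p c u on M i)) false
      (bc (Nat.beq (Nat.land (lmw p c u i) (wo (dmw p c u i) M)) 0) false
        (Nat.beq (Nat.land (s2u p c u M 0 i) (dmw p c u i)) 0)))

theorem ntu_eq (p c u on M i : ℕ) : ntu p c u on M i = ntv p c u on M i := by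
  unfold ntu ntu1 ntu3 ntv ntv1
  rw [s2u_eq, s2u_eq]

/-- `tpc` with masks -/
def tpu (p c u i : ℕ) : Bool :=
  bc (Nat.beq (Nat.land (Nat.lor (lmw p c u i) (s2u p c u 0 0 i)) (dmw p c u i)) 0) true false

theorem tpu_eq (p c u i : ℕ) : tpu p c u i = tpw p c u i := by
  unfold tpu tpw
  rw [s2u_eq]

/-! ### the test -/

def kkm3 (cc D l n0 N dk lk m z n p c u f1 MN ka : ℕ) : Bool :=
  bc (tsu cc D l n0 N (ct (Nat.land f1 (Nat.mul MN 65793))) dk lk ka m z)
    (tsu cc D l n0 N (ct (Nat.land f1 (Nat.mul (wo MN (lpm (Nat.land (nf u f1) MN) (tpu p c u) n)) 65793)))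
      dk lk ka m z) true

def kkm2 (cc D l n0 N dk lk m z n p c u M S f1 g NT : ℕ) : Bool :=
  kkm3 cc D l n0 N dk lk m z n p c u f1 (Nat.lor M NT) (ct (Nat.land g (Nat.mul (Nat.land S NT) 65793)))

/-- the test with the triangles; `S` the survivors which count -/
def kkm (cc D l n0 N dk lk m z n p c u on M S f1 g sv : ℕ) : Bool :=
  kkm2 cc D l n0 N dk lk m z n p c u M S f1 g
    (lpm (Nat.land (nf u (Nat.lor f1 (Nat.land g (Nat.mul S 65793)))) sv) (ntu p c u on M) n)

theorem kkm_eq (cc D l n0 N dk lk m z n p c u on M S f1 g sv : ℕ) :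
    kkm cc D l n0 N dk lk m z n p c u on M S f1 g sv = kk2 cc D l n0 N dk lk m z n p c u on M S f1 g sv := by
  have e1 : ntu p c u on M = ntv p c u on M := funext fun i => ntu_eq p c u on M i
  have e2 : tpu p c u = tpw p c u := funext fun i => tpu_eq p c u i
  unfold kkm kkm2 kkm3 kk2
  simp only [fz_val, tsu_eq]
  rw [e1, e2]

/-- the test -/
def kks (D l n p c u on M S f1 g sv cc n0 N dk lk m z : ℕ) : Bool :=
  bc (tsu cc D l n0 N (ct f1) dk lk 0 m z) (kkm cc D l n0 N dk lk m z n p c u on M S f1 g sv) true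

/-- the worst case -/
def kwm (C : ℕ → ℕ) (lf : Bool) (D l n p c u M IN f0 f1 tkl sd mp sv on f0i e1 sf ns att : ℕ) : Bool :=
  bc (bc lf true (bc (Nat.beq f0i 0) (Nat.beq (Nat.land on sv) 0) true)) false
    (kks D l n p c u on M sf f1 (Nat.lor (Nat.lor f1 tkl) e1) sv (C (outw u f0 sd M IN)) (ct (wo ns on))
      (nu D u f0 f1 on att (Nat.add (ct (Nat.land f0 mp)) (ct f0i))) (ct (Nat.land f1 mp))
      (ct (Nat.land tkl mp)) (ct M) (ct (wo (nf u (Nat.land (Nat.lor sd f0) mp)) IN)))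

theorem kwm_eq (C : ℕ → ℕ) (lf : Bool) (D l n p c u M IN f0 f1 tkl sd mp sv on f0i e1 sf ns att : ℕ) :
    kwm C lf D l n p c u M IN f0 f1 tkl sd mp sv on f0i e1 sf ns att =
      kwk C lf D l n p c u M IN f0 f1 tkl sd mp sv on f0i e1 sf ns att := by
  unfold kwm kks kwk
  simp only [fz_val, tsu_eq, nu_eq, kkm_eq]
  have h1 : bc (Nat.beq f0i 0) (Nat.beq (Nat.land on sv) 0) true =
      (Nat.beq f0i 0 || Nat.beq (Nat.land on sv) 0) := by cases Nat.beq f0i 0 <;> rfl
  rw [h1]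
  cases bc lf true (Nat.beq f0i 0 || Nat.beq (Nat.land on sv) 0) <;> rfl

def kem1 (C : ℕ → ℕ) (D l n p c u M IN f0 f1 tkl sd mp sv on e1 nf0 : ℕ) : Bool :=
  kks D l n p c u on M (wo sv nf0) f1 (Nat.lor (Nat.lor f1 tkl) e1) sv (C (outw u f0 sd M IN)) (ct nf0) 0
    (ct (Nat.land f1 mp)) (ct (Nat.land tkl mp)) (ct M) (ct (wo (nf u (Nat.land (Nat.lor sd f0) mp)) IN))

/-- all completions -/
def kem (C : ℕ → ℕ) (D l n p c u M IN f0 f1 tkl sd mp sv on _f0i e1 _sf ns _att : ℕ) : Bool :=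
  kem1 C D l n p c u M IN f0 f1 tkl sd mp sv on e1 (wo ns on)

theorem kem_eq (C : ℕ → ℕ) (D l n p c u M IN f0 f1 tkl sd mp sv on f0i e1 sf ns att : ℕ) :
    kem C D l n p c u M IN f0 f1 tkl sd mp sv on f0i e1 sf ns att =
      kek C D l n p c u M IN f0 f1 tkl sd mp sv on f0i e1 sf ns att := by
  unfold kem kem1 kks kek
  simp only [fz_val, tsu_eq, kkm_eq]

/-! ### the tests -/

def lwM1 (C : ℕ → ℕ) (lf : Bool) (D n p m z c u : ℕ) : Bool :=
  pku n p c u (fun M IN => wdu n p c u M IN (kwm C lf D m n p c u M IN)) m z 0 0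

/-- the worst case -/
def lwM (C : ℕ → ℕ) (lf : Bool) (D n p m z : ℕ) : Bool :=
  bc (Nat.ble (Nat.succ n) 40) false
    (lwM1 C lf D n p m z (Nat.div (Nat.pow 16777216 n) 255) (Nat.div (Nat.pow 16777216 n) 16777215))

def leM1 (C : ℕ → ℕ) (D n p m z c u : ℕ) : Bool :=
  pku n p c u (fun M IN => wdu n p c u M IN (kem C D m n p c u M IN)) m z 0 0

/-- all completions -/
def leM (C : ℕ → ℕ) (D n p m z : ℕ) : Bool :=
  bc (Nat.ble (Nat.add n 5) 40) false
    (leM1 C D n p m z (Nat.div (Nat.pow 16777216 n) 255) (Nat.div (Nat.pow 16777216 n) 16777215))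

theorem lwM_eq (C : ℕ → ℕ) (lf : Bool) (D n p m z : ℕ) :
    lwM C lf D n p m z = lwK C lf D n p (pkz m z) := by
  unfold lwM lwM1 lwK
  simp only [fz_val]
  rw [pku_eq, pkz_length]
  have e : (fun M IN => wdu n p (Nat.div (Nat.pow 16777216 n) 255) (Nat.div (Nat.pow 16777216 n) 16777215) M IN
      (kwm C lf D m n p (Nat.div (Nat.pow 16777216 n) 255) (Nat.div (Nat.pow 16777216 n) 16777215) M IN)) =
    (fun M IN => wds n p (Nat.div (Nat.pow 16777216 n) 255) (Nat.div (Nat.pow 16777216 n) 16777215) M IN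
      (kwk C lf D m n p (Nat.div (Nat.pow 16777216 n) 255) (Nat.div (Nat.pow 16777216 n) 16777215) M IN)) := by
    funext M IN
    rw [wdu_eq]
    congr 1
    funext f0 f1 tkl sd mp sv on f0i e1 sf ns att
    exact kwm_eq _ _ _ _ _ _ _ _ _ _ _ _ _ _ _ _ _ _ _ _ _ _
  rw [e]
  cases Nat.ble (Nat.succ n) 40 <;> rfl

theorem leM_eq (C : ℕ → ℕ) (D n p m z : ℕ) : leM C D n p m z = leK C D n p (pkz m z) := by
  unfold leM leM1 leK
  simp only [fz_val]
  rw [pku_eq, pkz_length]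
  have e : (fun M IN => wdu n p (Nat.div (Nat.pow 16777216 n) 255) (Nat.div (Nat.pow 16777216 n) 16777215) M IN
      (kem C D m n p (Nat.div (Nat.pow 16777216 n) 255) (Nat.div (Nat.pow 16777216 n) 16777215) M IN)) =
    (fun M IN => wds n p (Nat.div (Nat.pow 16777216 n) 255) (Nat.div (Nat.pow 16777216 n) 16777215) M IN
      (kek C D m n p (Nat.div (Nat.pow 16777216 n) 255) (Nat.div (Nat.pow 16777216 n) 16777215) M IN)) := by
    funext M IN
    rw [wdu_eq]
    congr 1
    funext f0 f1 tkl sd mp sv on f0i e1 sf ns att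
    exact kem_eq _ _ _ _ _ _ _ _ _ _ _ _ _ _ _ _ _ _ _ _ _
  rw [e]
  cases Nat.ble (Nat.add n 5) 40 <;> rfl

/-- a token without flags, matched nodes and credit: `k` of the picks, else `s` -/
def tkm (y : ℕ) (k : ℕ → ℕ → Bool) (s : Bool) : Bool := bc (tku y k s) s true

theorem tkm_eq (y : ℕ) (k : List ℕ → Bool) (s : Bool) : tkm y (fun m z => k (pkz m z)) s = tkk y k s := by
  unfold tkm tkk
  rw [tku_eq]

end W

/-- the fast test of an event with all completions -/
def tEm (Ts : List (List ℕ)) (D : ℕ) (CL : List CPc) (ML : List MPc) (n p y : ℕ) : Bool :=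
  W.tkm y (fun m z => W.leM (W.csu Ts m) D n p m z) (iss (oE true CL Ts D false ML n p y))

/-- the fast test of an event in the worst case -/
def tWm (Ts : List (List ℕ)) (D : ℕ) (CL : List CPc) (ML : List MPc) (n p y : ℕ) : Bool :=
  W.tkm y (fun m z => W.lwM (W.csu Ts m) false D n p m z) (iss (oW true CL Ts D false ML n p y))

/-- the fast test of a leaf -/
def lwm (Ts : List (List ℕ)) (D : ℕ) (CL : List CPc) (ML : List MPc) (n p y : ℕ) : Bool :=
  W.tkm y (fun m z => W.lwM (W.csu Ts m) true D n p m z) (isn (oW true CL Ts D false ML n p y))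

theorem tEm_eq (Ts : List (List ℕ)) (D : ℕ) (CL : List CPc) (ML : List MPc) :
    tEm Ts D CL ML = tEk Ts D CL ML := by
  funext n p y
  unfold tEm tEk
  rw [← W.tkm_eq]
  congr 1
  funext m z
  rw [W.leM_eq, W.csu_eq Ts m z]

theorem tWm_eq (Ts : List (List ℕ)) (D : ℕ) (CL : List CPc) (ML : List MPc) :
    tWm Ts D CL ML = tWk Ts D CL ML := by
  funext n p y
  unfold tWm tWk
  rw [← W.tkm_eq]
  congr 1
  funext m z
  rw [W.lwM_eq, W.csu_eq Ts m z]

theorem lwm_eq (Ts : List (List ℕ)) (D : ℕ) (CL : List CPc) (ML : List MPc) :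
    lwm Ts D CL ML = lwk Ts D CL ML := by
  funext n p y
  unfold lwm lwk
  rw [← W.tkm_eq]
  congr 1
  funext m z
  rw [W.lwM_eq, W.csu_eq Ts m z]

/-- **the fast tests are correct**, all cubic graphs -/
theorem tokVm (CL : List CPc) (Ts : List (List ℕ)) {D : ℕ} (hD : D < 3) (ML : List MPc) :
    TokV true CL Ts D false ML (tEm Ts D CL ML) (tWm Ts D CL ML) (lwm Ts D CL ML) := by
  rw [tEm_eq, tWm_eq, lwm_eq]
  exact tokVk CL Ts hD ML

end EF18
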