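import Pool.Agent.Lib.MP_ef18bd_co.P.RawW
import Pool.Agent.Lib.MP_ef18bd_co.P.Wk

/-!
# The fast tests for the reduced bonus

The tests of `stW` with the words of `Wu` and `Wk`; the inequality is a parameter `T`. `tokWu`: the tests for graphs
without triangles are correct, `tokWm`: the tests for all cubic graphs.
-/

namespace EF18

namespace W

/-- a test with the numbers of the outs, of the full and of the other possibly isolated nodes, of the lonely ports,
of the removed lonely ports, of the removed links, of the new lonely ports, of the removed nodes and the term `z` -/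
abbrev TsN := ℕ → ℕ → ℕ → ℕ → ℕ → ℕ → ℕ → ℕ → ℕ → Bool

/-! ### the tests with the words -/

/-- the worst case -/
def kwg (T : TsN) (lf : Bool) (D u M IN f0 f1 tkl sd mp sv on f0i e1 sf ns att : ℕ) : Bool :=
  bc (bc lf true (bc (Nat.beq f0i 0) (Nat.beq (Nat.land on sv) 0) true)) false
    (T (outw u f0 sd M IN) (ct (wo ns on))
      (nu D u f0 f1 on att (Nat.add (ct (Nat.land f0 mp)) (ct f0i))) (ct f1) (ct (Nat.land f1 mp))
      (ct (Nat.land tkl mp)) (ct (Nat.land (Nat.lor (Nat.lor f1 tkl) e1) (Nat.mul sf 65793))) (ct M)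
      (ct (wo (nf u (Nat.land (Nat.lor sd f0) mp)) IN)))

def keg1 (T : TsN) (u M IN f0 f1 tkl sd mp sv e1 nf0 : ℕ) : Bool :=
  T (outw u f0 sd M IN) (ct nf0) 0 (ct f1) (ct (Nat.land f1 mp)) (ct (Nat.land tkl mp))
    (ct (Nat.land (Nat.lor (Nat.lor f1 tkl) e1) (Nat.mul (wo sv nf0) 65793))) (ct M)
    (ct (wo (nf u (Nat.land (Nat.lor sd f0) mp)) IN))

/-- all completions -/
def keg (T : TsN) (u M IN f0 f1 tkl sd mp sv on _f0i e1 _sf ns _att : ℕ) : Bool :=
  keg1 T u M IN f0 f1 tkl sd mp sv e1 (wo ns on)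

def kkg3 (T : TsN) (o n0 N dk lk m z n p c u f1 MN ka : ℕ) : Bool :=
  bc (T o n0 N (ct (Nat.land f1 (Nat.mul MN 65793))) dk lk ka m z)
    (T o n0 N (ct (Nat.land f1 (Nat.mul (wo MN (lpm (Nat.land (nf u f1) MN) (tpu p c u) n)) 65793)))
      dk lk ka m z) true

def kkg2 (T : TsN) (o n0 N dk lk m z n p c u M S f1 g NT : ℕ) : Bool :=
  kkg3 T o n0 N dk lk m z n p c u f1 (Nat.lor M NT) (ct (Nat.land g (Nat.mul (Nat.land S NT) 65793)))

/-- the test with the triangles; `S` the survivors which count -/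
def kkg (T : TsN) (o n0 N dk lk m z n p c u on M S f1 g sv : ℕ) : Bool :=
  kkg2 T o n0 N dk lk m z n p c u M S f1 g
    (lpm (Nat.land (nf u (Nat.lor f1 (Nat.land g (Nat.mul S 65793)))) sv) (ntu p c u on M) n)

/-- the test -/
def ksg (T : TsN) (n p c u on M S f1 g sv o n0 N dk lk m z : ℕ) : Bool :=
  bc (T o n0 N (ct f1) dk lk 0 m z) (kkg T o n0 N dk lk m z n p c u on M S f1 g sv) true

/-- the worst case, all cubic graphs -/
def kwh (T : TsN) (lf : Bool) (D n p c u M IN f0 f1 tkl sd mp sv on f0i e1 sf ns att : ℕ) : Bool :=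
  bc (bc lf true (bc (Nat.beq f0i 0) (Nat.beq (Nat.land on sv) 0) true)) false
    (ksg T n p c u on M sf f1 (Nat.lor (Nat.lor f1 tkl) e1) sv (outw u f0 sd M IN) (ct (wo ns on))
      (nu D u f0 f1 on att (Nat.add (ct (Nat.land f0 mp)) (ct f0i))) (ct (Nat.land f1 mp))
      (ct (Nat.land tkl mp)) (ct M) (ct (wo (nf u (Nat.land (Nat.lor sd f0) mp)) IN)))

def keh1 (T : TsN) (n p c u M IN f0 f1 tkl sd mp sv on e1 nf0 : ℕ) : Bool :=
  ksg T n p c u on M (wo sv nf0) f1 (Nat.lor (Nat.lor f1 tkl) e1) sv (outw u f0 sd M IN) (ct nf0) 0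
    (ct (Nat.land f1 mp)) (ct (Nat.land tkl mp)) (ct M) (ct (wo (nf u (Nat.land (Nat.lor sd f0) mp)) IN))

/-- all completions, all cubic graphs -/
def keh (T : TsN) (n p c u M IN f0 f1 tkl sd mp sv on _f0i e1 _sf ns _att : ℕ) : Bool :=
  keh1 T n p c u M IN f0 f1 tkl sd mp sv on e1 (wo ns on)

section

variable {T : TsN} {D n p Km Im : ℕ}

theorem kwg_of (hw : Wf n p) (hD : D < 3) (hn : 3 * n < 255) {lf : Bool}
    (h : wdu n p (fl (fun _ => true) (3 * n)) (nl (fun _ => true) n) (nm Km n) (nm Im n)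
      (kwg T lf D (nl (fun _ => true) n) (nm Km n) (nm Im n)) = true) :
    (lf = true → ((∀ i < n, Im.testBit i = true → a3 (g0 p) i = false) ∨
      ∀ i < n, Km.testBit i = false → a3 (g0 p) i = false)) ∧
    ∀ A, A = sm (fun i => c3 (fun k => g0 p k && Km.testBit (k / 3)) i) n +
      sm (fun i => c3 (fun k => g0 p k && Im.testBit (k / 3)) i) n →
    T (outx n p Km Im 0) (n00 D n p Km) (ndr D n p Km + xN D n p Km A) (dnt n p) (dnk n p Km)
      (sm (fun i => c3 (fun k => gkl p Km k && Km.testBit (k / 3)) i) n) (kaW D n p Km)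
      (sm (fun i => (Km.testBit i).toNat) n)
      (sm (fun i => ((a3 (fun k => gsd p Km k || g0 p k) i && Km.testBit i) && !Im.testBit i).toNat) n) =
        true := by
  have d0 : ∀ i, 3 * i / 3 = i := fun i => by omega
  have d1 : ∀ i, (3 * i + 1) / 3 = i := fun i => by omega
  have d2 : ∀ i, (3 * i + 2) / 3 = i := fun i => by omega
  have e17 : ct (Nat.land (fl (g0 p) (3 * n)) (fl (fun k => Km.testBit (k / 3)) (3 * n))) =
      sm (fun i => c3 (fun k => g0 p k && Km.testBit (k / 3)) i) n := by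
    rw [land_fl, ct3 hn]
  have e18 : ct (wo (nl (gns p Km) n) (nl (a3 (g0 p)) n)) = n00 D n p Km := by
    rw [wo_nl, ct_nl hn, n00_W hD]
  have e19 : ct (fl (g1 p) (3 * n)) = dnt n p := by rw [ct3 hn, dnt_W]
  have e20 : ct (Nat.land (fl (g1 p) (3 * n)) (fl (fun k => Km.testBit (k / 3)) (3 * n))) =
      dnk n p Km := by
    rw [land_fl, ct3 hn, dnk_W]
  have e21 : ct (Nat.land (fl (gkl p Km) (3 * n)) (fl (fun k => Km.testBit (k / 3)) (3 * n))) =
      sm (fun i => c3 (fun k => gkl p Km k && Km.testBit (k / 3)) i) n := by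
    rw [land_fl, ct3 hn]
  have e22 : ct (Nat.land (Nat.lor (Nat.lor (fl (g1 p) (3 * n)) (fl (gkl p Km) (3 * n)))
      (fl (ge1 p Km) (3 * n))) (Nat.mul (nl (fun i => a3 (gsf p Km) i && !Km.testBit i) n) 65793)) =
      kaW D n p Km := by
    rw [nl_mul, lor_fl, lor_fl, land_fl, ct3 hn, kaW_W hD]
    rfl
  have e23 : ct (nm Km n) = sm (fun i => (Km.testBit i).toNat) n := ct_nl hn
  have e24 : ct (wo (nf (nl (fun _ => true) n) (Nat.land (Nat.lor (fl (gsd p Km) (3 * n))
      (fl (g0 p) (3 * n))) (fl (fun k => Km.testBit (k / 3)) (3 * n)))) (nm Im n)) =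
      sm (fun i => ((a3 (fun k => gsd p Km k || g0 p k) i && Km.testBit i) && !Im.testBit i).toNat) n := by
    rw [lor_fl, land_fl, nf_fl, wo_nl, ct_nl hn]
    refine sm_cg fun i _ => ?_
    rw [← a3_mask]
    rfl
  have e25 : ct (fl (fun k => g0 p k && Im.testBit (k / 3)) (3 * n)) =
      sm (fun i => c3 (fun k => g0 p k && Im.testBit (k / 3)) i) n := ct3 hn
  have e26 : outw (nl (fun _ => true) n) (fl (g0 p) (3 * n)) (fl (gsd p Km) (3 * n)) (nm Km n) (nm Im n) =
      outx n p Km Im 0 := outw_eq hn hw (fun _ _ => rfl) (fun _ _ => rfl)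
  have hb : ∀ a b : Bool, bc a false b = (a && b) := by decide
  have ho : ∀ a b : Bool, bc a b true = (a || b) := by decide
  rw [wdu_eq, wds_eq hw] at h
  unfold kwg at h
  rw [hb, ho, nu_eq, e17, e18, e19, e20, e21, e22, e23, e24, e25, e26, Bool.and_eq_true, bc_eq] at h
  refine ⟨fun hlf => ?_, fun A hA => ?_⟩
  · have hc := h.1
    rw [if_pos hlf, Bool.or_eq_true, nbeq, nbeq, land_nl] at hc
    rcases hc with hc | hc
    · refine Or.inl fun i hi hI => ?_
      have key : ∀ k, k < 3 * n → k / 3 = i → g0 p k = false := by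
        intro k hk hki
        have h1 := fl_zero hc hk
        beta_reduce at h1
        rw [hki, hI, Bool.and_true] at h1
        exact h1
      unfold a3
      rw [key _ (by omega) (d0 i), key _ (by omega) (d1 i), key _ (by omega) (d2 i)]
      rfl
    · refine Or.inr fun i hi hM => ?_
      have h1 := nl_zero hc hi
      beta_reduce at h1
      rw [hM, Bool.not_false, Bool.and_true] at h1
      exact h1
  · have h2 := h.2
    rw [nn_W hD hn] at h2
    rw [hA]
    exact h2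

theorem keg_of (hw : Wf n p) (hD : D < 3) (hn : 3 * n < 255)
    (h : wdu n p (fl (fun _ => true) (3 * n)) (nl (fun _ => true) n) (nm Km n) (nm Im n)
      (keg T (nl (fun _ => true) n) (nm Km n) (nm Im n)) = true) :
    T (outx n p Km Im 0) (n00 D n p Km) 0 (dnt n p) (dnk n p Km)
      (sm (fun i => c3 (fun k => gkl p Km k && Km.testBit (k / 3)) i) n) (kaE D n p Km)
      (sm (fun i => (Km.testBit i).toNat) n)
      (sm (fun i => ((a3 (fun k => gsd p Km k || g0 p k) i && Km.testBit i) && !Im.testBit i).toNat) n) =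
        true := by
  have e18 : ct (wo (nl (gns p Km) n) (nl (a3 (g0 p)) n)) = n00 D n p Km := by
    rw [wo_nl, ct_nl hn, n00_W hD]
  have e19 : ct (fl (g1 p) (3 * n)) = dnt n p := by rw [ct3 hn, dnt_W]
  have e20 : ct (Nat.land (fl (g1 p) (3 * n)) (fl (fun k => Km.testBit (k / 3)) (3 * n))) =
      dnk n p Km := by
    rw [land_fl, ct3 hn, dnk_W]
  have e21 : ct (Nat.land (fl (gkl p Km) (3 * n)) (fl (fun k => Km.testBit (k / 3)) (3 * n))) =
      sm (fun i => c3 (fun k => gkl p Km k && Km.testBit (k / 3)) i) n := by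
    rw [land_fl, ct3 hn]
  have e22 : ct (Nat.land (Nat.lor (Nat.lor (fl (g1 p) (3 * n)) (fl (gkl p Km) (3 * n)))
      (fl (ge1 p Km) (3 * n))) (Nat.mul (wo (nl (fun i => !Km.testBit i) n)
        (wo (nl (gns p Km) n) (nl (a3 (g0 p)) n))) 65793)) = kaE D n p Km := by
    rw [wo_nl, wo_nl, nl_mul, lor_fl, lor_fl, land_fl, ct3 hn, kaE_W hD]
    rfl
  have e23 : ct (nm Km n) = sm (fun i => (Km.testBit i).toNat) n := ct_nl hn
  have e24 : ct (wo (nf (nl (fun _ => true) n) (Nat.land (Nat.lor (fl (gsd p Km) (3 * n))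
      (fl (g0 p) (3 * n))) (fl (fun k => Km.testBit (k / 3)) (3 * n)))) (nm Im n)) =
      sm (fun i => ((a3 (fun k => gsd p Km k || g0 p k) i && Km.testBit i) && !Im.testBit i).toNat) n := by
    rw [lor_fl, land_fl, nf_fl, wo_nl, ct_nl hn]
    refine sm_cg fun i _ => ?_
    rw [← a3_mask]
    rfl
  have e26 : outw (nl (fun _ => true) n) (fl (g0 p) (3 * n)) (fl (gsd p Km) (3 * n)) (nm Km n) (nm Im n) =
      outx n p Km Im 0 := outw_eq hn hw (fun _ _ => rfl) (fun _ _ => rfl)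
  rw [wdu_eq, wds_eq hw] at h
  unfold keg keg1 at h
  rw [e22, e18, e19, e20, e21, e23, e24, e26] at h
  exact h

/-- the test is monotone -/
structure Mo (T : TsN) : Prop where
  mono : ∀ {o n0 N t1 t2 dk lk ka kb m z : ℕ}, t2 ≤ t1 → ka ≤ kb → T o n0 N t1 dk lk ka m z = true →
    T o n0 N t2 dk lk kb m z = true

theorem kkg_of {o n0 N dk lk m z n p K : ℕ} (hT : Mo T) (hw : Wf n p) (hn : 3 * n < 255) {S : ℕ → Bool}
    (hS : ∀ i < n, S i = true → K.testBit i = false)
    (h : kkg T o n0 N dk lk m z n p (fl (fun _ => true) (3 * n)) (nl (fun _ => true) n) (nl (a3 (g0 p)) n)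
      (nm K n) (nl S n) (fl (g1 p) (3 * n)) (Nat.lor (Nat.lor (fl (g1 p) (3 * n)) (fl (gkl p K) (3 * n)))
        (fl (ge1 p K) (3 * n))) (nl (fun i => !K.testBit i) n) = true) :
    ∃ Q : ℕ → Bool, (∀ i < n, Q i = true → K.testBit i = false ∧ S i = true ∧ ntr false p K i = true) ∧
      T o n0 N (kbK false n p K) dk lk
        (sm (fun i => c3 (fun k => (g1 p k || gkl p K k || ge1 p K k) && Q (k / 3)) i) n) m z = true := by
  obtain ⟨nt, hnt⟩ : ∃ nt : ℕ → Bool, nt = ntv p (fl (fun _ => true) (3 * n)) (nl (fun _ => true) n)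
    (nl (a3 (g0 p)) n) (nm K n) := ⟨_, rfl⟩
  have h1 : ∀ i < n, (nt i = true → ntr false p K i = true) ∧ (tpc p i = false → ntr false p K i = true →
      nt i = true) := fun i hi => by
    rw [hnt]
    exact ntv_imp hn hw hi
  have e1 : Nat.land (nf (nl (fun _ => true) n) (Nat.lor (fl (g1 p) (3 * n)) (Nat.land
      (Nat.lor (Nat.lor (fl (g1 p) (3 * n)) (fl (gkl p K) (3 * n))) (fl (ge1 p K) (3 * n)))
      (Nat.mul (nl S n) 65793)))) (nl (fun i => !K.testBit i) n) = nl (fkk p K S) n := by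
    rw [lor_fl, lor_fl, nl_mul, land_fl, lor_fl, nf_fl, land_nl]
    rfl
  have gN : ntu p (fl (fun _ => true) (3 * n)) (nl (fun _ => true) n) (nl (a3 (g0 p)) n) (nm K n) = nt := by
    rw [hnt]
    exact funext fun i => ntu_eq _ _ _ _ _ i
  have gP : tpu p (fl (fun _ => true) (3 * n)) (nl (fun _ => true) n) =
      tpw p (fl (fun _ => true) (3 * n)) (nl (fun _ => true) n) := funext fun i => tpu_eq _ _ _ i
  unfold kkg kkg2 kkg3 at h
  rw [e1, gN, gP, lpm_eq, land_nl, lor_nl, nl_mul, lor_fl, lor_fl, land_fl, nl_mul, land_fl, nf_fl, land_nl,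
    lpm_eq, wo_nl, nl_mul, land_fl, ct3 hn, ct3 hn, ct3 hn, bc_eq] at h
  refine ⟨fun i => S i && (fkk p K S i && nt i), fun i hi hq => ?_, ?_⟩
  · rw [Bool.and_eq_true, Bool.and_eq_true] at hq
    exact ⟨hS i hi hq.1, hq.1, (h1 i hi).1 hq.2.2⟩
  · have hB : ∀ i < n, c3 (g1 p) i ≠ 0 → tpc p i = false → (K.testBit i = true ∨ ntr false p K i = true) →
        (K.testBit i || (fkk p K S i && nt i)) = true := by
      intro i hi h0 ht hor
      cases hK : K.testBit i
      · rw [hK] at hor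
        have h3 : fkk p K S i = true := by
          unfold fkk a3
          rw [hK]
          unfold c3 at h0
          cases x1 : g1 p (3 * i)
          · cases x2 : g1 p (3 * i + 1)
            · cases x3 : g1 p (3 * i + 2)
              · rw [x1, x2, x3] at h0
                exact absurd rfl h0
              · simp [x3]
            · simp [x2]
          · simp [x1]
        rcases hor with h4 | h4
        · exact absurd h4 (by simp)
        · rw [h3, (h1 i hi).2 ht h4]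
          rfl
      · rfl
    split_ifs at h with hc
    · exact hT.mono (kbK_le hB) le_rfl hc
    · refine hT.mono ?_ le_rfl h
      have h4 := kbK_le (n := n) (p := p) (M := K) (B := fun i => (K.testBit i || (fkk p K S i && nt i)) &&
        !(((g1 p (3 * i) || g1 p (3 * i + 1) || g1 p (3 * i + 2)) &&
          (K.testBit i || (fkk p K S i && nt i))) &&
          tpw p (fl (fun _ => true) (3 * n)) (nl (fun _ => true) n) i)) fun i hi h0 ht hor => by
        rw [tpw_eq hw hi, ht, Bool.and_false, Bool.not_false, Bool.and_true]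
        exact hB i hi h0 ht hor
      exact h4

theorem kwh_of (hT : Mo T) (hw : Wf n p) (hD : D < 3) (hn : 3 * n < 255) {lf : Bool}
    (h : wdu n p (fl (fun _ => true) (3 * n)) (nl (fun _ => true) n) (nm Km n) (nm Im n)
      (kwh T lf D n p (fl (fun _ => true) (3 * n)) (nl (fun _ => true) n) (nm Km n) (nm Im n)) = true) :
    (lf = true → ((∀ i < n, Im.testBit i = true → a3 (g0 p) i = false) ∨
      ∀ i < n, Km.testBit i = false → a3 (g0 p) i = false)) ∧
    ∀ A, A = sm (fun i => c3 (fun k => g0 p k && Km.testBit (k / 3)) i) n +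
      sm (fun i => c3 (fun k => g0 p k && Im.testBit (k / 3)) i) n →
    T (outx n p Km Im 0) (n00 D n p Km) (ndr D n p Km + xN D n p Km A) (kbK false n p Km)
      (dnk n p Km) (sm (fun i => c3 (fun k => gkl p Km k && Km.testBit (k / 3)) i) n) (kaWK false D n p Km)
      (sm (fun i => (Km.testBit i).toNat) n)
      (sm (fun i => ((a3 (fun k => gsd p Km k || g0 p k) i && Km.testBit i) && !Im.testBit i).toNat) n) =
        true := by
  have d0 : ∀ i, 3 * i / 3 = i := fun i => by omega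
  have d1 : ∀ i, (3 * i + 1) / 3 = i := fun i => by omega
  have d2 : ∀ i, (3 * i + 2) / 3 = i := fun i => by omega
  have e17 : ct (Nat.land (fl (g0 p) (3 * n)) (fl (fun k => Km.testBit (k / 3)) (3 * n))) =
      sm (fun i => c3 (fun k => g0 p k && Km.testBit (k / 3)) i) n := by
    rw [land_fl, ct3 hn]
  have e18 : ct (wo (nl (gns p Km) n) (nl (a3 (g0 p)) n)) = n00 D n p Km := by
    rw [wo_nl, ct_nl hn, n00_W hD]
  have e19 : ct (fl (g1 p) (3 * n)) = dnt n p := by rw [ct3 hn, dnt_W]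
  have e20 : ct (Nat.land (fl (g1 p) (3 * n)) (fl (fun k => Km.testBit (k / 3)) (3 * n))) =
      dnk n p Km := by
    rw [land_fl, ct3 hn, dnk_W]
  have e21 : ct (Nat.land (fl (gkl p Km) (3 * n)) (fl (fun k => Km.testBit (k / 3)) (3 * n))) =
      sm (fun i => c3 (fun k => gkl p Km k && Km.testBit (k / 3)) i) n := by
    rw [land_fl, ct3 hn]
  have e23 : ct (nm Km n) = sm (fun i => (Km.testBit i).toNat) n := ct_nl hn
  have e24 : ct (wo (nf (nl (fun _ => true) n) (Nat.land (Nat.lor (fl (gsd p Km) (3 * n))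
      (fl (g0 p) (3 * n))) (fl (fun k => Km.testBit (k / 3)) (3 * n)))) (nm Im n)) =
      sm (fun i => ((a3 (fun k => gsd p Km k || g0 p k) i && Km.testBit i) && !Im.testBit i).toNat) n := by
    rw [lor_fl, land_fl, nf_fl, wo_nl, ct_nl hn]
    refine sm_cg fun i _ => ?_
    rw [← a3_mask]
    rfl
  have e25 : ct (fl (fun k => g0 p k && Im.testBit (k / 3)) (3 * n)) =
      sm (fun i => c3 (fun k => g0 p k && Im.testBit (k / 3)) i) n := ct3 hn
  have e26 : outw (nl (fun _ => true) n) (fl (g0 p) (3 * n)) (fl (gsd p Km) (3 * n)) (nm Km n) (nm Im n) =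
      outx n p Km Im 0 := outw_eq hn hw (fun _ _ => rfl) (fun _ _ => rfl)
  have hb : ∀ a b : Bool, bc a false b = (a && b) := by decide
  have ho : ∀ a b : Bool, bc a b true = (a || b) := by decide
  rw [wdu_eq, wds_eq hw] at h
  unfold kwh ksg at h
  rw [hb, ho, nu_eq, e17, e18, e19, e20, e21, e23, e24, e25, e26, Bool.and_eq_true] at h
  refine ⟨fun hlf => ?_, fun A hA => ?_⟩
  · have hc := h.1
    rw [bc_eq, if_pos hlf, Bool.or_eq_true, nbeq, nbeq, land_nl] at hc
    rcases hc with hc | hc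
    · refine Or.inl fun i hi hI => ?_
      have key : ∀ k, k < 3 * n → k / 3 = i → g0 p k = false := by
        intro k hk hki
        have h1 := fl_zero hc hk
        beta_reduce at h1
        rw [hki, hI, Bool.and_true] at h1
        exact h1
      unfold a3
      rw [key _ (by omega) (d0 i), key _ (by omega) (d1 i), key _ (by omega) (d2 i)]
      rfl
    · refine Or.inr fun i hi hM => ?_
      have h1 := nl_zero hc hi
      beta_reduce at h1
      rw [hM, Bool.not_false, Bool.and_true] at h1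
      exact h1
  · have h2 := h.2
    subst hA
    rw [nn_W hD hn, bc_eq] at h2
    split_ifs at h2 with hc
    · exact hT.mono (kbK_dnt n p Km) (Nat.zero_le _) hc
    · obtain ⟨Q, hQ, h3⟩ := kkg_of hT hw hn (fun i _ hs => by
        rw [Bool.and_eq_true, Bool.not_eq_true'] at hs
        exact hs.2) h2
      refine hT.mono le_rfl (kaWK_ge hD fun i hi hq => ?_) h3
      obtain ⟨q1, q2, q3⟩ := hQ i hi hq
      rw [Bool.and_eq_true] at q2
      exact ⟨q1, q2.1, q3⟩

theorem keh_of (hT : Mo T) (hw : Wf n p) (hD : D < 3) (hn : 3 * n < 255)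
    (h : wdu n p (fl (fun _ => true) (3 * n)) (nl (fun _ => true) n) (nm Km n) (nm Im n)
      (keh T n p (fl (fun _ => true) (3 * n)) (nl (fun _ => true) n) (nm Km n) (nm Im n)) = true) :
    T (outx n p Km Im 0) (n00 D n p Km) 0 (kbK false n p Km) (dnk n p Km)
      (sm (fun i => c3 (fun k => gkl p Km k && Km.testBit (k / 3)) i) n) (kaEK false D n p Km)
      (sm (fun i => (Km.testBit i).toNat) n)
      (sm (fun i => ((a3 (fun k => gsd p Km k || g0 p k) i && Km.testBit i) && !Im.testBit i).toNat) n) =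
        true := by
  have e18 : ct (wo (nl (gns p Km) n) (nl (a3 (g0 p)) n)) = n00 D n p Km := by
    rw [wo_nl, ct_nl hn, n00_W hD]
  have e19 : ct (fl (g1 p) (3 * n)) = dnt n p := by rw [ct3 hn, dnt_W]
  have e20 : ct (Nat.land (fl (g1 p) (3 * n)) (fl (fun k => Km.testBit (k / 3)) (3 * n))) =
      dnk n p Km := by
    rw [land_fl, ct3 hn, dnk_W]
  have e21 : ct (Nat.land (fl (gkl p Km) (3 * n)) (fl (fun k => Km.testBit (k / 3)) (3 * n))) =
      sm (fun i => c3 (fun k => gkl p Km k && Km.testBit (k / 3)) i) n := by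
    rw [land_fl, ct3 hn]
  have e23 : ct (nm Km n) = sm (fun i => (Km.testBit i).toNat) n := ct_nl hn
  have e24 : ct (wo (nf (nl (fun _ => true) n) (Nat.land (Nat.lor (fl (gsd p Km) (3 * n))
      (fl (g0 p) (3 * n))) (fl (fun k => Km.testBit (k / 3)) (3 * n)))) (nm Im n)) =
      sm (fun i => ((a3 (fun k => gsd p Km k || g0 p k) i && Km.testBit i) && !Im.testBit i).toNat) n := by
    rw [lor_fl, land_fl, nf_fl, wo_nl, ct_nl hn]
    refine sm_cg fun i _ => ?_
    rw [← a3_mask]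
    rfl
  have e26 : outw (nl (fun _ => true) n) (fl (g0 p) (3 * n)) (fl (gsd p Km) (3 * n)) (nm Km n) (nm Im n) =
      outx n p Km Im 0 := outw_eq hn hw (fun _ _ => rfl) (fun _ _ => rfl)
  have e27 : wo (nl (fun i => !Km.testBit i) n) (wo (nl (gns p Km) n) (nl (a3 (g0 p)) n)) =
      nl (fun i => !Km.testBit i && !(gns p Km i && !a3 (g0 p) i)) n := by
    rw [wo_nl, wo_nl]
  rw [wdu_eq, wds_eq hw] at h
  unfold keh keh1 ksg at h
  rw [e27, e18, e19, e20, e21, e23, e24, e26, bc_eq] at h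
  split_ifs at h with hc
  · exact hT.mono (kbK_dnt n p Km) (Nat.zero_le _) hc
  · obtain ⟨Q, hQ, h3⟩ := kkg_of hT hw hn (fun i _ hs => by
      rw [Bool.and_eq_true, Bool.not_eq_true'] at hs
      exact hs.1) h
    refine hT.mono le_rfl (kaEK_ge hD fun i hi hq => ?_) h3
    obtain ⟨q1, q2, q3⟩ := hQ i hi hq
    rw [Bool.and_eq_true, Bool.not_eq_true'] at q2
    exact ⟨q1, by rw [← Bool.not_eq_true', q2.2], q3⟩

end

/-! ### the inequality -/

/-- the loss -/
def tcu (D kt ka cB : ℕ) : ℕ :=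
  zc D 0 (mq 12 (Nat.add (Nat.sub (Nat.mul 6 (mq kt 2)) (Nat.mul 6 (mq (mq ka kt) 2))) cB))

/-- the gain -/
def gnu (ne : Bool) (D ka cB : ℕ) : ℕ := bc ne 0 (zc D (Nat.sub (Nat.mul 6 (mq ka 2)) cB) 0)

theorem tcu_eq (D kt ka cB : ℕ) : tcu D kt ka cB = tcH D 6 kt ka 0 cB := by
  unfold tcu tcH
  rw [mq_eq, mq_eq, mq_eq, mq_eq, zc_eq]
  by_cases h : D = 0
  · rw [h]; rfl
  · rw [if_neg h, show Nat.beq D 0 = false by rw [← Bool.not_eq_true, nbeq]; exact h, cond_false,
      show Nat.sub 0 cB = 0 from Nat.zero_sub cB]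
    rfl

theorem gnu_eq (ne : Bool) (D ka cB : ℕ) : gnu ne D ka cB = gnH ne D 6 ka 0 cB := by
  unfold gnu gnH
  rw [mq_eq, zc_eq, bc_eq]
  by_cases h : D = 0
  · rw [h]
    cases ne <;> rfl
  · rw [if_neg h, show Nat.beq D 0 = false by rw [← Bool.not_eq_true, nbeq]; exact h, Bool.false_and,
      cond_false]
    cases ne <;> rfl

theorem tcH_le {D kt kt' ka ka' c c' ct : ℕ} (h1 : kt' ≤ kt) (h2 : ka ≤ ka') (h3 : c ≤ c') :
    tcH D 6 kt' ka' c' ct ≤ tcH D 6 kt ka c ct := by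
  unfold tcH
  cases Nat.beq D 0
  · rw [cond_false, cond_false, mn_eq, mn_eq, mn_eq, mn_eq, mn_eq, mn_eq, mn_eq, mn_eq]
    change min (2 * 6) ((6 * min kt' 2 - (6 * min (min ka' kt') 2 + (c' - ct))) + (ct - c')) ≤
      min (2 * 6) ((6 * min kt 2 - (6 * min (min ka kt) 2 + (c - ct))) + (ct - c))
    omega
  · exact le_rfl

theorem gnH_le {ne : Bool} {D ka ka' c c' ct : ℕ} (h2 : ka ≤ ka') (h3 : c ≤ c') :
    gnH ne D 6 ka c ct ≤ gnH ne D 6 ka' c' ct := by
  unfold gnH
  cases Nat.beq D 0 && ne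
  · exact le_rfl
  · rw [cond_true, cond_true, mn_eq, mn_eq]
    change 6 * min ka 2 - (ct - c) ≤ 6 * min ka' 2 - (ct - c')
    omega

def tsc3 (ne : Bool) (D l cA cB n0 N dk lk ka m z kt : ℕ) : Bool :=
  Nat.ble (Nat.add (Nat.add (Nat.add (Nat.mul 84 l) cA) (Nat.mul 12 (Nat.add n0 N)))
      (Nat.add (tcu D kt ka cB) (Nat.mul 18 z)))
    (Nat.add (Nat.add (Nat.mul 18 m) (Nat.mul 9 lk)) (Nat.add (Nat.mul 18 dk) (gnu ne D ka cB)))

/-- the test, with the tables of the numbers of picks -/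
def tsc (ne : Bool) (D l : ℕ) (A B : List ℕ) : TsN := fun o n0 N t1 dk lk ka m z =>
  tsc3 ne D l (ctu A o o) (ctu B o o) n0 N dk lk ka m z (Nat.add t1 (Nat.mul D N))

theorem tsc_W {ne : Bool} {D l : ℕ} {A B : List ℕ} {o n0 N t1 dk lk ka m z : ℕ} :
    tsc ne D l A B o n0 N t1 dk lk ka m z = true ↔
    84 * l + ctf A o + 12 * (n0 + N) + (tcH D 6 (Nat.add t1 (Nat.mul D N)) ka 0 (ctf B o) + 18 * z) ≤
      18 * m + 9 * lk + (18 * dk + gnH ne D 6 ka 0 (ctf B o)) := by
  unfold tsc tsc3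
  rw [tcu_eq, gnu_eq, ctu_eq, ctu_eq, Nat.ble_eq]
  rfl

theorem tsc_mo (ne : Bool) (D l : ℕ) (A B : List ℕ) : Mo (tsc ne D l A B) := by
  refine ⟨fun {o n0 N t1 t2 dk lk ka kb m z} h1 h2 h => ?_⟩
  rw [tsc_W] at h ⊢
  have h3 : tcH D 6 (Nat.add t2 (Nat.mul D N)) kb 0 (ctf B o) ≤
      tcH D 6 (Nat.add t1 (Nat.mul D N)) ka 0 (ctf B o) := tcH_le (Nat.add_le_add_right h1 _) h2 le_rfl
  have h4 : gnH ne D 6 ka 0 (ctf B o) ≤ gnH ne D 6 kb 0 (ctf B o) := gnH_le h2 le_rfl
  omega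

/-- the inequality of the test -/
theorem ble_H {l cc n0 N tc z m lk dk gn tc' gn' ev cr : ℕ}
    (h : 84 * l + cc + 12 * (n0 + N) + (tc + 18 * z) ≤ 18 * m + 9 * lk + (18 * dk + gn))
    (h2 : 18 * m + 12 * dk + 9 * lk ≤ ev + 18 * z) (h3 : tc' ≤ tc) (h4 : gn ≤ gn') :
    Nat.ble (Nat.add (Nat.add (Nat.add (Nat.mul 84 l) cc) (Nat.mul 12 (Nat.add n0 N))) tc')
      (Nat.add (Nat.add ev cr) (Nat.add (Nat.mul 6 dk) gn')) = true := by
  refine Nat.ble_eq_true_of_le ?_
  show 84 * l + cc + 12 * (n0 + N) + tc' ≤ ev + cr + (6 * dk + gn')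
  omega

theorem evlG_W {ne : Bool} {T TI D n p : ℕ} {L : List ℕ} {cr ct crT ctT : ℕ → ℕ → ℕ} {xs : List (ℕ × ℕ)}
    {N z m lk : ℕ}
    (hN : N = ndr D n p (kms p L 0) + xN D n p (kms p L 0) (opm2 n p (kms p L 0) (ims p L 0)))
    (h1 : Nat.ble (Nat.succ n) 40 = true) (h2 : pks n p L 0 = true)
    (h7 : 84 * L.length + ct (kms p L 0) (ims p L 0) + 12 * (n00 D n p (kms p L 0) + N) +
      (tcH D 6 (Nat.add (dnt n p) (Nat.mul D N)) (kaW D n p (kms p L 0)) 0 (ctT (kms p L 0) (ims p L 0)) +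
        18 * z) ≤ 18 * m + 9 * lk + (18 * dnk n p (kms p L 0) +
        gnH ne D 6 (kaW D n p (kms p L 0)) 0 (ctT (kms p L 0) (ims p L 0))))
    (h8 : 18 * m + 12 * dnk n p (kms p L 0) + 9 * lk ≤ evs T TI n p (kms p L 0) (ims p L 0) + 18 * z) :
    evlG ne 84 T TI D 12 6 n p L cr ct crT ctT xs = some (xs ++ kin n p (kms p L 0) (ims p L 0) n) := by
  change N = Nat.add (ndr D n p (kms p L 0))
    (xN D n p (kms p L 0) (opm2 n p (kms p L 0) (ims p L 0))) at hN
  unfold evlG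
  rw [frc_eq, frc_eq, frc_eq, frc_eq, frc_eq, frc_eq, frc_eq, ← hN, h1, h2]
  have h9 := ble_H (cr := cr (kms p L 0) (ims p L 0)) h7 h8
    (tcH_le le_rfl le_rfl (Nat.zero_le (crT (kms p L 0) (ims p L 0))))
    (gnH_le le_rfl (Nat.zero_le (crT (kms p L 0) (ims p L 0))))
  rw [h9]
  rfl

theorem evbG_W {ne : Bool} {T TI D n p : ℕ} {L : List ℕ} {cr ct crT ctT : ℕ → ℕ → ℕ} {xs : List (ℕ × ℕ)}
    {z m lk : ℕ} (h1 : Nat.ble (Nat.add n 5) 40 = true) (h2 : pks n p L 0 = true)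
    (h7 : 84 * L.length + ct (kms p L 0) (ims p L 0) + 12 * (n00 D n p (kms p L 0) + 0) +
      (tcH D 6 (Nat.add (dnt n p) (Nat.mul D 0)) (kaE D n p (kms p L 0)) 0 (ctT (kms p L 0) (ims p L 0)) +
        18 * z) ≤ 18 * m + 9 * lk + (18 * dnk n p (kms p L 0) +
        gnH ne D 6 (kaE D n p (kms p L 0)) 0 (ctT (kms p L 0) (ims p L 0))))
    (h8 : 18 * m + 12 * dnk n p (kms p L 0) + 9 * lk ≤ evs T TI n p (kms p L 0) (ims p L 0) + 18 * z) :
    iss (evbG ne 84 T TI D 12 6 n p L cr ct crT ctT xs) = true := by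
  unfold evbG
  rw [frc_eq, frc_eq, frc_eq, frc_eq, frc_eq, frc_eq, h1, h2]
  have h9 := ble_H (cr := cr (kms p L 0) (ims p L 0)) h7 h8
    (tcH_le le_rfl le_rfl (Nat.zero_le (crT (kms p L 0) (ims p L 0))))
    (gnH_le le_rfl (Nat.zero_le (crT (kms p L 0) (ims p L 0))))
  change Nat.ble (Nat.add (Nat.add (Nat.add (Nat.mul 84 L.length) (ct (kms p L 0) (ims p L 0)))
      (Nat.mul 12 (n00 D n p (kms p L 0)))) (tcH D 6 (dnt n p) (kaE D n p (kms p L 0))
        (crT (kms p L 0) (ims p L 0)) (ctT (kms p L 0) (ims p L 0))))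
      (Nat.add (Nat.add (evs T TI n p (kms p L 0) (ims p L 0)) (cr (kms p L 0) (ims p L 0)))
        (Nat.add (Nat.mul 6 (dnk n p (kms p L 0))) (gnH ne D 6 (kaE D n p (kms p L 0))
          (crT (kms p L 0) (ims p L 0)) (ctT (kms p L 0) (ims p L 0))))) = true at h9
  rw [h9]
  rfl

theorem evlH_W {ne x : Bool} {T TI D n p : ℕ} {L : List ℕ} {cr ct crT ctT : ℕ → ℕ → ℕ} {xs : List (ℕ × ℕ)}
    {N z m lk : ℕ}
    (hN : N = ndr D n p (kms p L 0) + xN D n p (kms p L 0) (opm2 n p (kms p L 0) (ims p L 0)))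
    (h1 : Nat.ble (Nat.succ n) 40 = true) (h2 : pks n p L 0 = true)
    (h7 : 84 * L.length + ct (kms p L 0) (ims p L 0) + 12 * (n00 D n p (kms p L 0) + N) +
      (tcH D 6 (Nat.add (kbK false n p (kms p L 0)) (Nat.mul D N)) (kaWK false D n p (kms p L 0)) 0
        (ctT (kms p L 0) (ims p L 0)) + 18 * z) ≤ 18 * m + 9 * lk + (18 * dnk n p (kms p L 0) +
        gnH ne D 6 (kaWK false D n p (kms p L 0)) 0 (ctT (kms p L 0) (ims p L 0))))
    (h8 : 18 * m + 12 * dnk n p (kms p L 0) + 9 * lk ≤ evs T TI n p (kms p L 0) (ims p L 0) + 18 * z) :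
    evlH ne false x 84 T TI D 12 6 6 n p L cr ct crT ctT xs =
      some (xs ++ kin n p (kms p L 0) (ims p L 0) n) := by
  change N = Nat.add (ndr D n p (kms p L 0))
    (xN D n p (kms p L 0) (opm2 n p (kms p L 0) (ims p L 0))) at hN
  unfold evlH
  rw [frc_eq, frc_eq, frc_eq, frc_eq, frc_eq, frc_eq, frc_eq, ← hN, h1, h2, tpl_false, List.append_nil]
  have h9 := ble_H (cr := Nat.add (xdc x 6 n p (kms p L 0)) (cr (kms p L 0) (ims p L 0))) h7 h8
    (tcH_le le_rfl le_rfl (Nat.zero_le (crT (kms p L 0) (ims p L 0))))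
    (gnH_le le_rfl (Nat.zero_le (crT (kms p L 0) (ims p L 0))))
  rw [h9]
  rfl

theorem evbH_W {ne x : Bool} {T TI D n p : ℕ} {L : List ℕ} {cr ct crT ctT : ℕ → ℕ → ℕ} {xs : List (ℕ × ℕ)}
    {z m lk : ℕ} (h1 : Nat.ble (Nat.add n 5) 40 = true) (h2 : pks n p L 0 = true)
    (h7 : 84 * L.length + ct (kms p L 0) (ims p L 0) + 12 * (n00 D n p (kms p L 0) + 0) +
      (tcH D 6 (Nat.add (kbK false n p (kms p L 0)) (Nat.mul D 0)) (kaEK false D n p (kms p L 0)) 0
        (ctT (kms p L 0) (ims p L 0)) + 18 * z) ≤ 18 * m + 9 * lk + (18 * dnk n p (kms p L 0) +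
        gnH ne D 6 (kaEK false D n p (kms p L 0)) 0 (ctT (kms p L 0) (ims p L 0))))
    (h8 : 18 * m + 12 * dnk n p (kms p L 0) + 9 * lk ≤ evs T TI n p (kms p L 0) (ims p L 0) + 18 * z) :
    iss (evbH ne false x 84 T TI D 12 6 6 n p L cr ct crT ctT xs) = true := by
  unfold evbH
  rw [frc_eq, frc_eq, frc_eq, frc_eq, frc_eq, frc_eq, h1, h2]
  have h9 := ble_H (cr := Nat.add (xdc x 6 n p (kms p L 0)) (cr (kms p L 0) (ims p L 0))) h7 h8
    (tcH_le le_rfl le_rfl (Nat.zero_le (crT (kms p L 0) (ims p L 0))))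
    (gnH_le le_rfl (Nat.zero_le (crT (kms p L 0) (ims p L 0))))
  change Nat.ble (Nat.add (Nat.add (Nat.add (Nat.mul 84 L.length) (ct (kms p L 0) (ims p L 0)))
      (Nat.mul 12 (n00 D n p (kms p L 0)))) (tcH D 6 (kbK false n p (kms p L 0))
        (kaEK false D n p (kms p L 0)) (crT (kms p L 0) (ims p L 0)) (ctT (kms p L 0) (ims p L 0))))
      (Nat.add (Nat.add (evs T TI n p (kms p L 0) (ims p L 0)) (Nat.add (xdc x 6 n p (kms p L 0))
        (cr (kms p L 0) (ims p L 0))))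
        (Nat.add (Nat.mul 6 (dnk n p (kms p L 0))) (gnH ne D 6 (kaEK false D n p (kms p L 0))
          (crT (kms p L 0) (ims p L 0)) (ctT (kms p L 0) (ims p L 0))))) = true at h9
  rw [h9]
  rfl

/-! ### the picks -/

/-- the words of the picks -/
def pkc (k : ℕ → ℕ → ℕ → ℕ → ℕ → ℕ → ℕ → ℕ → ℕ → ℕ → ℕ → ℕ → ℕ → ℕ → ℕ → ℕ → ℕ → ℕ → Bool)
    (n p m z c u : ℕ) : Bool :=
  pku n p c u (fun M IN => wdu n p c u M IN (k n p c u M IN)) m z 0 0

/-- the words of the picks, at most `b` nodes -/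
def lwC (k : ℕ → ℕ → ℕ → ℕ → ℕ → ℕ → ℕ → ℕ → ℕ → ℕ → ℕ → ℕ → ℕ → ℕ → ℕ → ℕ → ℕ → ℕ → Bool)
    (b n p m z : ℕ) : Bool :=
  bc (Nat.ble (Nat.add n b) 40) false
    (pkc k n p m z (Nat.div (Nat.pow 16777216 n) 255) (Nat.div (Nat.pow 16777216 n) 16777215))

theorem lwC_of {k : ℕ → ℕ → ℕ → ℕ → ℕ → ℕ → ℕ → ℕ → ℕ → ℕ → ℕ → ℕ → ℕ → ℕ → ℕ → ℕ → ℕ → ℕ → Bool}
    {b n p m z : ℕ} (h : lwC k b n p m z = true) : Nat.ble (Nat.add n b) 40 = true ∧ pks n p (pkz m z) 0 = true ∧
      wdu n p (fl (fun _ => true) (3 * n)) (nl (fun _ => true) n) (nm (kms p (pkz m z) 0) n)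
        (nm (ims p (pkz m z) 0) n) (k n p (fl (fun _ => true) (3 * n)) (nl (fun _ => true) n)
          (nm (kms p (pkz m z) 0) n) (nm (ims p (pkz m z) 0) n)) = true := by
  unfold lwC pkc at h
  rw [bc_eq] at h
  split_ifs at h with h1
  rw [ones_eq, nodes_eq, pku_eq] at h
  have e : pk n p (fl (fun _ => true) (3 * n)) (nl (fun _ => true) n) (fun M IN => wdu n p
      (fl (fun _ => true) (3 * n)) (nl (fun _ => true) n) M IN (k n p (fl (fun _ => true) (3 * n))
        (nl (fun _ => true) n) M IN)) (pkz m z) (nm 0 n) (nm 0 n) = true := by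
    rw [nm_zero]
    exact h
  exact ⟨h1, pk_of e⟩

/-- the test of a token -/
def tgc (ne : Bool) (D : ℕ) (TA TB : List (List ℕ)) (m : ℕ) : TsN :=
  tsc ne D m (tbl TA (Nat.pred m)) (tbl TB (Nat.pred m))

/-- all completions, without triangles -/
def leG (ne : Bool) (TA TB : List (List ℕ)) (D n p m z : ℕ) : Bool :=
  lwC (fun _ _ _ u M IN => keg (tgc ne D TA TB m) u M IN) 5 n p m z

/-- the worst case, without triangles -/
def lwG (ne : Bool) (TA TB : List (List ℕ)) (lf : Bool) (D n p m z : ℕ) : Bool :=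
  lwC (fun _ _ _ u M IN => kwg (tgc ne D TA TB m) lf D u M IN) 1 n p m z

/-- all completions, all cubic graphs -/
def leH (ne : Bool) (TA TB : List (List ℕ)) (D n p m z : ℕ) : Bool :=
  lwC (fun n p c u M IN => keh (tgc ne D TA TB m) n p c u M IN) 5 n p m z

/-- the worst case, all cubic graphs -/
def lwH (ne : Bool) (TA TB : List (List ℕ)) (lf : Bool) (D n p m z : ℕ) : Bool :=
  lwC (fun n p c u M IN => kwh (tgc ne D TA TB m) lf D n p c u M IN) 1 n p m z

section

variable {ne lf x : Bool} {TA TB : List (List ℕ)} {D n p m z : ℕ} {cr ct crT ctT : ℕ → ℕ → ℕ}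
  {xs : List (ℕ × ℕ)}

theorem leG_of (hw : Wf n p) (hD : D < 3) (h : leG ne TA TB D n p m z = true) {L : List ℕ}
    (hL : L = pkz m z)
    (hct : ct (kms p L 0) (ims p L 0) = ctf (TA.getD (Nat.pred L.length) []) (outx n p (kms p L 0) (ims p L 0) 0))
    (hctT : ctT (kms p L 0) (ims p L 0) =
      ctf (TB.getD (Nat.pred L.length) []) (outx n p (kms p L 0) (ims p L 0) 0)) :
    iss (evbG ne 84 tK tI D 12 6 n p L cr ct crT ctT xs) = true := by
  obtain ⟨h1, h3, h4⟩ := lwC_of h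
  have hl : m = L.length := by rw [hL, pkz_length]
  rw [← hL] at h3 h4
  have hn : n + 5 ≤ 40 := Nat.le_of_ble_eq_true h1
  have h7 := tsc_W.1 (keg_of hw hD (by omega) h4)
  have h8 := evs_W n p L
  rw [← dnk_W] at h8
  rw [tbl_eq, tbl_eq, hl, ← hct, ← hctT] at h7
  exact evbG_W h1 h3 h7 h8

theorem lwG_of (hw : Wf n p) (hD : D < 3) (h : lwG ne TA TB lf D n p m z = true) {L : List ℕ}
    (hL : L = pkz m z)
    (hct : ct (kms p L 0) (ims p L 0) = ctf (TA.getD (Nat.pred L.length) []) (outx n p (kms p L 0) (ims p L 0) 0))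
    (hctT : ctT (kms p L 0) (ims p L 0) =
      ctf (TB.getD (Nat.pred L.length) []) (outx n p (kms p L 0) (ims p L 0) 0)) :
    evlG ne 84 tK tI D 12 6 n p L cr ct crT ctT xs = some (xs ++ kin n p (kms p L 0) (ims p L 0) n) ∧
      (lf = true → kin n p (kms p L 0) (ims p L 0) n = []) := by
  obtain ⟨h1, h3, h4⟩ := lwC_of h
  have hl : m = L.length := by rw [hL, pkz_length]
  rw [← hL] at h3 h4
  have hn : n + 1 ≤ 40 := Nat.le_of_ble_eq_true h1
  obtain ⟨h5, h6⟩ := kwg_of hw hD (by omega) h4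
  have h7 := tsc_W.1 (h6 (opm2 n p (kms p L 0) (ims p L 0)) (opm2_W n p L))
  have h8 := evs_W n p L
  rw [← dnk_W] at h8
  rw [tbl_eq, tbl_eq, hl, ← hct, ← hctT] at h7
  exact ⟨evlG_W rfl h1 h3 h7 h8, fun hlf => kin_nil (h5 hlf) n le_rfl⟩

theorem leH_of (hw : Wf n p) (hD : D < 3) (h : leH ne TA TB D n p m z = true) {L : List ℕ}
    (hL : L = pkz m z)
    (hct : ct (kms p L 0) (ims p L 0) = ctf (TA.getD (Nat.pred L.length) []) (outx n p (kms p L 0) (ims p L 0) 0))
    (hctT : ctT (kms p L 0) (ims p L 0) =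
      ctf (TB.getD (Nat.pred L.length) []) (outx n p (kms p L 0) (ims p L 0) 0)) :
    iss (evbH ne false x 84 tK tI D 12 6 6 n p L cr ct crT ctT xs) = true := by
  obtain ⟨h1, h3, h4⟩ := lwC_of h
  have hl : m = L.length := by rw [hL, pkz_length]
  rw [← hL] at h3 h4
  have hn : n + 5 ≤ 40 := Nat.le_of_ble_eq_true h1
  have h7 := tsc_W.1 (keh_of (tsc_mo ne D m _ _) hw hD (by omega) h4)
  have h8 := evs_W n p L
  rw [← dnk_W] at h8
  rw [tbl_eq, tbl_eq, hl, ← hct, ← hctT] at h7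
  exact evbH_W h1 h3 h7 h8

theorem lwH_of (hw : Wf n p) (hD : D < 3) (h : lwH ne TA TB lf D n p m z = true) {L : List ℕ}
    (hL : L = pkz m z)
    (hct : ct (kms p L 0) (ims p L 0) = ctf (TA.getD (Nat.pred L.length) []) (outx n p (kms p L 0) (ims p L 0) 0))
    (hctT : ctT (kms p L 0) (ims p L 0) =
      ctf (TB.getD (Nat.pred L.length) []) (outx n p (kms p L 0) (ims p L 0) 0)) :
    evlH ne false x 84 tK tI D 12 6 6 n p L cr ct crT ctT xs = some (xs ++ kin n p (kms p L 0) (ims p L 0) n) ∧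
      (lf = true → kin n p (kms p L 0) (ims p L 0) n = []) := by
  obtain ⟨h1, h3, h4⟩ := lwC_of h
  have hl : m = L.length := by rw [hL, pkz_length]
  rw [← hL] at h3 h4
  have hn : n + 1 ≤ 40 := Nat.le_of_ble_eq_true h1
  obtain ⟨h5, h6⟩ := kwh_of (tsc_mo ne D m _ _) hw hD (by omega) h4
  have h7 := tsc_W.1 (h6 (opm2 n p (kms p L 0) (ims p L 0)) (opm2_W n p L))
  have h8 := evs_W n p L
  rw [← dnk_W] at h8
  rw [tbl_eq, tbl_eq, hl, ← hct, ← hctT] at h7
  exact ⟨evlH_W rfl h1 h3 h7 h8, fun hlf => kin_nil (h5 hlf) n le_rfl⟩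

theorem tku_of {y : ℕ} {k : ℕ → ℕ → Bool} {s : Bool} (h : tku y k s = true) : s = true ∨
    (k (Nat.mod y 8) (Nat.div y 64) = true ∧
      ∀ f : Bool → Bool → List ℕ → ℕ → ℕ → Option (List (ℕ × ℕ)), lfx f y =
        f false (tb y 4) (pkz (Nat.mod y 8) (Nat.div y 64)) 0 0) := by
  have h0 : tkw y (fun _ => k (Nat.mod y 8) (Nat.div y 64)) s = true := by
    rw [← h]
    unfold tku tkw
    cases Nat.beq (Nat.mod y 8) 0 <;> cases Nat.ble (Nat.pow 2 48) y <;>
      cases Nat.beq (Nat.mod (Nat.div y 8) 2) 1 <;> rfl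
  rcases tkw_of h0 with h1 | ⟨h1, h2⟩
  · exact Or.inl h1
  · exact Or.inr ⟨h1, h2⟩

theorem tkm_of {y : ℕ} {k : ℕ → ℕ → Bool} {s : Bool} (h : tkm y k s = true) : s = true ∨
    (k (Nat.mod y 8) (Nat.div y 64) = true ∧
      ∀ f : Bool → Bool → List ℕ → ℕ → ℕ → Option (List (ℕ × ℕ)), lfx f y =
        f false (tb y 4) (pkz (Nat.mod y 8) (Nat.div y 64)) 0 0) := by
  unfold tkm at h
  rw [bc_eq] at h
  split_ifs at h with hc
  · exact tku_of hc
  · exact Or.inl h

end

end W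

theorem evbW_tf (ne x : Bool) (P T TI D dl b c n p : ℕ) (L : List ℕ) (cr ct crT ctT : ℕ → ℕ → ℕ)
    (xs : List (ℕ × ℕ)) : evbW true ne false x P T TI D dl b c n p L cr ct crT ctT xs =
      evbG ne P T TI D dl b n p L cr ct crT ctT xs := rfl

theorem evlW_tf (ne x : Bool) (P T TI D dl b c n p : ℕ) (L : List ℕ) (cr ct crT ctT : ℕ → ℕ → ℕ)
    (xs : List (ℕ × ℕ)) : evlW true ne false x P T TI D dl b c n p L cr ct crT ctT xs =
      evlG ne P T TI D dl b n p L cr ct crT ctT xs := rfl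

theorem evbW_ntf (ne e x : Bool) (P T TI D dl b c n p : ℕ) (L : List ℕ) (cr ct crT ctT : ℕ → ℕ → ℕ)
    (xs : List (ℕ × ℕ)) : evbW false ne e x P T TI D dl b c n p L cr ct crT ctT xs =
      evbH ne e x P T TI D dl b c n p L cr ct crT ctT xs := rfl

theorem evlW_ntf (ne e x : Bool) (P T TI D dl b c n p : ℕ) (L : List ℕ) (cr ct crT ctT : ℕ → ℕ → ℕ)
    (xs : List (ℕ × ℕ)) : evlW false ne e x P T TI D dl b c n p L cr ct crT ctT xs =
      evlH ne e x P T TI D dl b c n p L cr ct crT ctT xs := rfl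

/-- the fast test of an event with all completions, without triangles -/
def tEg (ne : Bool) (CA CB : List CPc) (TA TB : List (List ℕ)) (D : ℕ) (ML : List MPc) (n p y : ℕ) : Bool :=
  W.tku y (fun m z => W.leG ne TA TB D n p m z) (iss (pE ne CA CB TA TB D true ML n p y))

/-- the fast test of an event in the worst case, without triangles -/
def tWg (ne : Bool) (CA CB : List CPc) (TA TB : List (List ℕ)) (D : ℕ) (ML : List MPc) (n p y : ℕ) : Bool :=
  W.tku y (fun m z => W.lwG ne TA TB false D n p m z) (iss (pW ne CA CB TA TB D true ML n p y))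

/-- the fast test of a leaf, without triangles -/
def lwg (ne : Bool) (CA CB : List CPc) (TA TB : List (List ℕ)) (D : ℕ) (ML : List MPc) (n p y : ℕ) : Bool :=
  W.tku y (fun m z => W.lwG ne TA TB true D n p m z) (isn (pW ne CA CB TA TB D true ML n p y))

/-- the fast test of an event with all completions, all cubic graphs -/
def tEh (ne : Bool) (CA CB : List CPc) (TA TB : List (List ℕ)) (D : ℕ) (ML : List MPc) (n p y : ℕ) : Bool :=
  W.tkm y (fun m z => W.leH ne TA TB D n p m z) (iss (pE ne CA CB TA TB D false ML n p y))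

/-- the fast test of an event in the worst case, all cubic graphs -/
def tWh (ne : Bool) (CA CB : List CPc) (TA TB : List (List ℕ)) (D : ℕ) (ML : List MPc) (n p y : ℕ) : Bool :=
  W.tkm y (fun m z => W.lwH ne TA TB false D n p m z) (iss (pW ne CA CB TA TB D false ML n p y))

/-- the fast test of a leaf, all cubic graphs -/
def lwh (ne : Bool) (CA CB : List CPc) (TA TB : List (List ℕ)) (D : ℕ) (ML : List MPc) (n p y : ℕ) : Bool :=
  W.tkm y (fun m z => W.lwH ne TA TB true D n p m z) (isn (pW ne CA CB TA TB D false ML n p y))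

/-- **the fast tests are correct**, without triangles -/
theorem tokWu (ne : Bool) (CA CB : List CPc) (TA TB : List (List ℕ)) {D : ℕ} (hD : D < 3) (ML : List MPc) :
    TokW ne CA CB TA TB D true ML (tEg ne CA CB TA TB D ML) (tWg ne CA CB TA TB D ML)
      (lwg ne CA CB TA TB D ML) := by
  refine ⟨fun n p y hp h => ?_, fun n p y hp h => ?_, ?_⟩
  · rcases W.tku_of h with h | ⟨h, h1⟩
    · exact h
    · unfold pE
      rw [h1, evbW_tf]
      exact W.leG_of (wf_wfp hp) hD h rfl rfl rfl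
  · rcases W.tku_of h with h | ⟨h, h1⟩
    · exact h
    · unfold pW
      rw [h1, evlW_tf, (W.lwG_of (wf_wfp hp) hD h rfl rfl rfl).1]
      rfl
  · intro V _ _ G _ U n p φ ν y he h
    rcases W.tku_of h with h | ⟨h, h1⟩
    · exact isn_iff h
    · unfold pW
      obtain ⟨h2, h3⟩ := W.lwG_of he.wf hD h (cr := fun M _ => crd CA n p M 6 0 0)
        (ct := fun M IN => ctf (TA.getD (Nat.pred (pkz (Nat.mod y 8) (Nat.div y 64)).length) [])
          (outx n p M IN 0)) (crT := fun M _ => crd CB n p M 6 0 0)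
        (ctT := fun M IN => ctf (TB.getD (Nat.pred (pkz (Nat.mod y 8) (Nat.div y 64)).length) [])
          (outx n p M IN 0))
        (xs := ovm (okB D true) (Nat.ble 1 D) ML (pkz (Nat.mod y 8) (Nat.div y 64)) 0 n p n) rfl rfl rfl
      rw [h1, evlW_tf, h2, h3 rfl, ovm_zero]
      rfl

/-- **the fast tests are correct**, all cubic graphs -/
theorem tokWm (ne : Bool) (CA CB : List CPc) (TA TB : List (List ℕ)) {D : ℕ} (hD : D < 3) (ML : List MPc) :
    TokW ne CA CB TA TB D false ML (tEh ne CA CB TA TB D ML) (tWh ne CA CB TA TB D ML)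
      (lwh ne CA CB TA TB D ML) := by
  refine ⟨fun n p y hp h => ?_, fun n p y hp h => ?_, ?_⟩
  · rcases W.tkm_of h with h | ⟨h, h1⟩
    · exact h
    · unfold pE
      rw [h1, evbW_ntf]
      exact W.leH_of (wf_wfp hp) hD h rfl rfl rfl
  · rcases W.tkm_of h with h | ⟨h, h1⟩
    · exact h
    · unfold pW
      rw [h1, evlW_ntf, (W.lwH_of (wf_wfp hp) hD h rfl rfl rfl).1]
      rfl
  · intro V _ _ G _ U n p φ ν y he h
    rcases W.tkm_of h with h | ⟨h, h1⟩
    · exact isn_iff h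
    · unfold pW
      obtain ⟨h2, h3⟩ := W.lwH_of (x := tb y 4) he.wf hD h (cr := fun M _ => crd CA n p M 6 0 0)
        (ct := fun M IN => ctf (TA.getD (Nat.pred (pkz (Nat.mod y 8) (Nat.div y 64)).length) [])
          (outx n p M IN 0)) (crT := fun M _ => crd CB n p M 6 0 0)
        (ctT := fun M IN => ctf (TB.getD (Nat.pred (pkz (Nat.mod y 8) (Nat.div y 64)).length) [])
          (outx n p M IN 0))
        (xs := ovm (okB D false) (Nat.ble 1 D) ML (pkz (Nat.mod y 8) (Nat.div y 64)) 0 n p n) rfl rfl rfl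
      rw [h1, evlW_ntf, h2, h3 rfl, ovm_zero]
      rfl

end EF18
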