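import Pool.Agent.Lib.MP_ef18bd_co.P.Pat

/-!
# A checker for trees of patterns

`Cl G U Q (n, p)`: every embedding of the pattern `(n, p)` gives `Q`. A step maps a pattern and a token to
the list of children; it is sound if a pattern is closed as soon as its children are. `run`: a
depth first traversal, one token for each node. `branch`: all cases for an open port; `rf`: a reference to a
closed pattern, with an embedding map; `Emb.two`: an unknown member of `U` behind two open ports.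
-/

namespace EF18

open Finset

variable {V : Type} [Fintype V] [DecidableEq V] {G : SimpleGraph V} [DecidableRel G.Adj]

/-- every embedding of the pattern gives `Q` -/
def Cl (G : SimpleGraph V) (U : Finset V) (Q : Prop) (q : ℕ × ℕ) : Prop :=
  ∀ φ ν : ℕ → V, Emb G U q.1 q.2 φ ν → Q

/-- steps: number of nodes, pattern, token -/
abbrev Stp := ℕ → ℕ → ℕ → Option (List (ℕ × ℕ))

/-- sound steps -/
def Snd (G : SimpleGraph V) (U : Finset V) (Q : Prop) (st : Stp) : Prop :=
  ∀ n p x L, st n p x = some L → (∀ q ∈ L, Cl G U Q q) → Cl G U Q (n, p)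

/-- the traversal -/
def run (st : Stp) : List ℕ → List (ℕ × ℕ) → Bool
  | [], t => t.isEmpty
  | x :: s, t => match t with
    | [] => false
    | q :: t => match st q.1 q.2 x with
      | none => false
      | some L => run st s (L ++ t)

theorem run_sound {U : Finset V} {Q : Prop} {st : Stp} (h : Snd G U Q st) :
    ∀ (s : List ℕ) (t : List (ℕ × ℕ)), run st s t = true → ∀ q ∈ t, Cl G U Q q := by
  intro s
  induction s with
  | nil =>
    intro t ht q hq
    rw [run, List.isEmpty_iff] at ht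
    rw [ht] at hq
    exact absurd hq List.not_mem_nil
  | cons x s ih =>
    intro t ht
    match t with
    | [] => exact fun q hq => absurd hq List.not_mem_nil
    | q :: t =>
      rw [run] at ht
      match hL : st q.1 q.2 x with
      | none =>
        simp only [hL] at ht
        exact absurd ht (by simp)
      | some L =>
        simp only [hL] at ht
        have h1 := ih _ ht
        intro r hr
        rcases List.mem_cons.1 hr with rfl | hr
        · exact h r.1 r.2 x L hL fun q' hq' => h1 q' (List.mem_append_left _ hq')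
        · exact h1 r (List.mem_append_right _ hr)

/-- sound steps for patterns and references -/
theorem run_one {U : Finset V} {Q : Prop} {st : Stp} (h : Snd G U Q st) (s : List ℕ) (q : ℕ × ℕ)
    (hr : run st s [q] = true) : Cl G U Q q := run_sound h s _ hr q List.mem_cons_self

/-! ### branching -/

/-- the first open port of the node `j`, or the last port -/
def fo (p j : ℕ) : ℕ :=
  bif Nat.beq (dg p (3 * j)) 0 then 3 * j else bif Nat.beq (dg p (3 * j + 1)) 0 then 3 * j + 1 else 3 * j + 2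

theorem fo_div (p j : ℕ) : fo p j / 3 = j := by
  unfold fo
  cases Nat.beq (dg p (3 * j)) 0
  · cases Nat.beq (dg p (3 * j + 1)) 0
    · simp only [cond_false]; omega
    · simp only [cond_false, cond_true]; omega
  · simp only [cond_true]; omega

theorem fo_open {p j l : ℕ} (hl : l / 3 = j) (h : dg p l = 0) : dg p (fo p j) = 0 := by
  unfold fo
  cases h1 : Nat.beq (dg p (3 * j)) 0
  · cases h2 : Nat.beq (dg p (3 * j + 1)) 0
    · simp only [cond_false]
      have h3 : l = 3 * j ∨ l = 3 * j + 1 ∨ l = 3 * j + 2 := by omega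
      rcases h3 with rfl | rfl | rfl
      · rw [h] at h1; exact absurd h1 (by simp)
      · rw [h] at h2; exact absurd h2 (by simp)
      · exact h
    · simp only [cond_false, cond_true]
      exact Nat.eq_of_beq_eq_true h2
  · simp only [cond_true]
    exact Nat.eq_of_beq_eq_true h1

/-- the digit `d` is a direct edge to the node `j` -/
def isd (d j : ℕ) : Bool := Nat.beq d (2 + 6 * j) || Nat.beq d (4 + 6 * j) || Nat.beq d (6 + 6 * j)

theorem isd_iff {d j : ℕ} (h : isd d j = true) : ∃ l, d = 2 + 2 * l ∧ l / 3 = j := by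
  unfold isd at h
  rw [Bool.or_eq_true, Bool.or_eq_true] at h
  rcases h with (h | h) | h
  · exact ⟨3 * j, by have := Nat.eq_of_beq_eq_true h; omega, by omega⟩
  · exact ⟨3 * j + 1, by have := Nat.eq_of_beq_eq_true h; omega, by omega⟩
  · exact ⟨3 * j + 2, by have := Nat.eq_of_beq_eq_true h; omega, by omega⟩

/-- the nodes `i`, `j` are adjacent -/
def adjd (p i j : ℕ) : Bool := isd (dg p (3 * i)) j || isd (dg p (3 * i + 1)) j || isd (dg p (3 * i + 2)) j

theorem adjd_iff {p i j : ℕ} (h : adjd p i j = true) :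
    ∃ a l, a / 3 = i ∧ dg p a = 2 + 2 * l ∧ l / 3 = j := by
  unfold adjd at h
  rw [Bool.or_eq_true, Bool.or_eq_true] at h
  rcases h with (h | h) | h <;> obtain ⟨l, h1, h2⟩ := isd_iff h
  · exact ⟨3 * i, l, by omega, h1, h2⟩
  · exact ⟨3 * i + 1, l, by omega, h1, h2⟩
  · exact ⟨3 * i + 2, l, by omega, h1, h2⟩

/-- the children with the other end at a known node -/
def kids (n p k : ℕ) : ℕ → List (ℕ × ℕ)
  | 0 => []
  | j + 1 => bif Nat.beq j (k / 3) || !Nat.beq (dg p (fo p j)) 0 then kids n p k j else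
      bif adjd p (k / 3) j then
        (n, p + (3 + 2 * fo p j) * 256 ^ k + (3 + 2 * k) * 256 ^ fo p j) :: kids n p k j
      else (n, p + (2 + 2 * fo p j) * 256 ^ k + (2 + 2 * k) * 256 ^ fo p j) ::
        (n, p + (3 + 2 * fo p j) * 256 ^ k + (3 + 2 * k) * 256 ^ fo p j) :: kids n p k j

theorem mem_kids {n p k : ℕ} : ∀ {m j : ℕ}, j < m → j ≠ k / 3 → dg p (fo p j) = 0 →
    (n, p + (3 + 2 * fo p j) * 256 ^ k + (3 + 2 * k) * 256 ^ fo p j) ∈ kids n p k m ∧
    (adjd p (k / 3) j = false →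
      (n, p + (2 + 2 * fo p j) * 256 ^ k + (2 + 2 * k) * 256 ^ fo p j) ∈ kids n p k m) := by
  intro m
  induction m with
  | zero => intro j hj; omega
  | succ m ih =>
    intro j hj h1 h2
    rw [kids]
    rcases Nat.lt_succ_iff_lt_or_eq.1 hj with h3 | rfl
    · obtain ⟨a1, a2⟩ := ih h3 h1 h2
      cases hb : Nat.beq m (k / 3) || !Nat.beq (dg p (fo p m)) 0
      · cases ha : adjd p (k / 3) m
        · simp only [cond_false]
          exact ⟨List.mem_cons_of_mem _ (List.mem_cons_of_mem _ a1),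
            fun h => List.mem_cons_of_mem _ (List.mem_cons_of_mem _ (a2 h))⟩
        · simp only [cond_false, cond_true]
          exact ⟨List.mem_cons_of_mem _ a1, fun h => List.mem_cons_of_mem _ (a2 h)⟩
      · simp only [cond_true]
        exact ⟨a1, a2⟩
    · have hb : (Nat.beq j (k / 3) || !Nat.beq (dg p (fo p j)) 0) = false := by
        rw [h2, Bool.or_eq_false_iff]
        refine ⟨?_, rfl⟩
        rw [← Bool.not_eq_true]
        exact fun h => h1 (Nat.eq_of_beq_eq_true h)
      rw [hb]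
      cases ha : adjd p (k / 3) j
      · simp only [cond_false]
        exact ⟨List.mem_cons_of_mem _ List.mem_cons_self, fun _ => List.mem_cons_self⟩
      · simp only [cond_false, cond_true]
        exact ⟨List.mem_cons_self, fun h => absurd h (by simp)⟩

/-- all cases for the port `k`; with `d = true` the dead end is a case -/
def branch (d : Bool) (n p k : ℕ) : Option (List (ℕ × ℕ)) :=
  bif Nat.ble (3 * n) k || !Nat.beq (dg p k) 0 || Nat.ble 40 n then none else
    some ((bif d then [(n, p + 1 * 256 ^ k)] else []) ++ kids n p k n ++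
      [(n + 1, p + (3 + 2 * (3 * n)) * 256 ^ k + (3 + 2 * k) * 256 ^ (3 * n)),
        (n + 1, p + (2 + 2 * (3 * n)) * 256 ^ k + (2 + 2 * k) * 256 ^ (3 * n))])

/-- the port of a known node towards a given neighbour, moved to the first open port -/
theorem Emb.port (hG : G.IsRegularOfDegree 3) {U : Finset V} {n p : ℕ} {φ ν : ℕ → V}
    (h : Emb G U n p φ ν) {k j : ℕ} (hk : k / 3 ≠ j) (hj : j < n) {z : V} (hz : G.Adj (φ j) z)
    (h0 : ∀ l, l / 3 = j → l < 3 * n → ν l = z → dg p l = 0) :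
    ∃ ν' : ℕ → V, Emb G U n p φ ν' ∧ ν' k = ν k ∧ ν' (fo p j) = z ∧ dg p (fo p j) = 0 ∧
      fo p j < 3 * n := by
  obtain ⟨l, hl1, hl2, hl3⟩ := h.surj hG hj hz
  have h1 := h0 l hl1 hl2 hl3
  have h2 := fo_open hl1 h1
  have h3 := fo_div p j
  refine ⟨_, h.swap (b := fo p j) (c := l) (by omega) hl2 (by omega) h2 h1, ?_, ?_, h2, by omega⟩
  · beta_reduce
    rw [Equiv.swap_apply_of_ne_of_ne (by rintro rfl; exact hk h3) (by rintro rfl; exact hk hl1)]
  · beta_reduce
    rw [Equiv.swap_apply_left, hl3]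

theorem branch_sound (hG : G.IsRegularOfDegree 3) {U : Finset V} (hI : Inv G U) {Q : Prop} {d : Bool}
    (hd : d = true ∨ ∀ y, y ∉ U → ∀ x ∈ U, G.Adj y x → ∃ x' ∈ U, x' ≠ x ∧ G.Adj y x') {n p k : ℕ}
    {L : List (ℕ × ℕ)} (hL : branch d n p k = some L) (hQ : ∀ q ∈ L, Cl G U Q q) : Cl G U Q (n, p) := by
  intro φ ν h
  change Emb G U n p φ ν at h
  unfold branch at hL
  cases hc : Nat.ble (3 * n) k || !Nat.beq (dg p k) 0 || Nat.ble 40 n
  swap
  · rw [hc] at hL
    simp only [cond_true] at hL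
    exact absurd hL (by simp)
  rw [hc] at hL
  simp only [cond_false, Option.some.injEq] at hL
  rw [Bool.or_eq_false_iff, Bool.or_eq_false_iff] at hc
  obtain ⟨⟨c1, c2⟩, c3⟩ := hc
  have hk : k < 3 * n := by
    by_contra hcon
    rw [Nat.ble_eq_true_of_le (by omega : 3 * n ≤ k)] at c1
    exact absurd c1 (by simp)
  have h0 : dg p k = 0 := by
    rw [Bool.not_eq_false'] at c2
    exact Nat.eq_of_beq_eq_true c2
  have hn : n < 40 := by
    by_contra hcon
    rw [Nat.ble_eq_true_of_le (by omega : 40 ≤ n)] at c3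
    exact absurd c3 (by simp)
  have hkn : k / 3 < n := by omega
  have hadj := h.adj k hk
  -- the children
  have e1 : d = true → (n, p + 1 * 256 ^ k) ∈ L := by
    rintro rfl
    rw [← hL]
    exact List.mem_append_left _ (List.mem_append_left _ List.mem_cons_self)
  have e2 : ∀ q ∈ kids n p k n, q ∈ L := fun q hq => by
    rw [← hL]
    exact List.mem_append_left _ (List.mem_append_right _ hq)
  have e3 : (n + 1, p + (3 + 2 * (3 * n)) * 256 ^ k + (3 + 2 * k) * 256 ^ (3 * n)) ∈ L := by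
    rw [← hL]
    exact List.mem_append_right _ List.mem_cons_self
  have e4 : (n + 1, p + (2 + 2 * (3 * n)) * 256 ^ k + (2 + 2 * k) * 256 ^ (3 * n)) ∈ L := by
    rw [← hL]
    exact List.mem_append_right _ (List.mem_cons_of_mem _ List.mem_cons_self)
  by_cases hy : ν k ∈ U
  · by_cases hex : ∃ j < n, φ j = ν k
    · obtain ⟨j, hj, hjy⟩ := hex
      have hjk : k / 3 ≠ j := by
        rintro rfl
        rw [hjy] at hadj
        exact G.loopless.irrefl _ hadj
      obtain ⟨ν', h', f1, f2, f3, f4⟩ := h.port hG hjk hj (z := φ (k / 3)) (by rw [hjy]; exact hadj.symm)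
        (fun l hl hl2 hl3 => by
          by_contra hne
          rcases Nat.lt_or_ge (dg p l) 2 with h1 | h1
          · exact (h.dead l hl2 (by omega)).1 (hl3 ▸ h.mem _ hkn)
          · rcases Nat.even_or_odd' (dg p l) with ⟨c, hc | hc⟩
            · obtain ⟨a1, a2, a3, a4⟩ := h.dir l hl2 (c - 1) (by omega)
              rw [hl3] at a3
              have h2 := h.inj _ hkn _ (by omega) a3
              rw [hl, hjy] at a4
              have h3 := h.pinj _ a1 _ hk h2.symm a4
              rw [h3, h0] at a2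
              omega
            · exact (h.lnk l hl2 (c - 1) (by omega)).2.2.2.1 (hl3 ▸ h.mem _ hkn))
      have hfd := fo_div p j
      have hne : adjd p (k / 3) j = false := by
        rw [← Bool.not_eq_true]
        intro ht
        obtain ⟨a, l, b1, b2, b3⟩ := adjd_iff ht
        have ha : a < 3 * n := by omega
        obtain ⟨a1, a2, a3, a4⟩ := h.dir a ha l b2
        rw [b3, hjy] at a3
        have h3 := h.pinj _ ha _ hk b1 a3
        rw [h3, h0] at b2
        omega
      refine hQ _ (e2 _ ((mem_kids hj hjk.symm f3).2 hne)) φ ν' (h'.set_dir (by omega) hk f4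
        (fun e => hjk (by rw [e, hfd])) h0 f3 ?_ f2)
      rw [f1, hfd, hjy]
    · push Not at hex
      obtain ⟨φ', ν', h', f1, f2, f3, f4⟩ := h.extend hG hy hex hadj.symm
      refine hQ _ e4 φ' ν' (h'.set_dir (by omega) (by omega) (by omega) (by omega) h0
        (h.zero _ le_rfl) ?_ ?_)
      · rw [f2 k hk, show 3 * n / 3 = n by omega, f3]
      · rw [f4, f1 _ hkn]
  · by_cases hone : ∀ x ∈ U, G.Adj (ν k) x → x = φ (k / 3)
    · rcases hd with hd | hd
      · exact hQ _ (e1 hd) φ ν (h.set_dead hk h0 hy hone)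
      · obtain ⟨x', hx', hne, ha⟩ := hd _ hy _ (h.mem _ hkn) hadj.symm
        exact absurd (hone x' hx' ha) hne
    · push Not at hone
      obtain ⟨x, hx, hax, hne⟩ := hone
      -- only the two of them
      have honly : ∀ x' ∈ U, G.Adj (ν k) x' → x' = φ (k / 3) ∨ x' = x := by
        intro x' hx' ha'
        by_contra hcon
        push Not at hcon
        have h1 : ({φ (k / 3), x, x'} : Finset V) ⊆ cn G (ν k) ∩ U := by
          intro w hw
          rw [mem_insert, mem_insert, mem_singleton] at hw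
          rw [mem_inter, mem_cn]
          rcases hw with rfl | rfl | rfl
          · exact ⟨Or.inr hadj.symm, h.mem _ hkn⟩
          · exact ⟨Or.inr hax, hx⟩
          · exact ⟨Or.inr ha', hx'⟩
        have h2 := card_le_card h1
        rw [card_insert_of_notMem, card_pair (Ne.symm hcon.2)] at h2
        · have := hI _ hy
          omega
        · rw [mem_insert, mem_singleton]
          push Not
          exact ⟨hne.symm, hcon.1.symm⟩
      by_cases hex : ∃ j < n, φ j = x
      · obtain ⟨j, hj, rfl⟩ := hex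
        have hjk : k / 3 ≠ j := by
          rintro rfl
          exact hne rfl
        obtain ⟨ν', h', f1, f2, f3, f4⟩ := h.port hG hjk hj (z := ν k) hax.symm
          (fun l hl hl2 hl3 => by
            by_contra hne0
            rcases Nat.lt_or_ge (dg p l) 2 with h1 | h1
            · have h2 := (h.dead l hl2 (by omega)).2 (φ (k / 3)) (h.mem _ hkn)
                (by rw [hl3]; exact hadj.symm)
              rw [hl] at h2
              exact hne h2.symm
            · rcases Nat.even_or_odd' (dg p l) with ⟨c, hc | hc⟩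
              · obtain ⟨a1, a2, a3, a4⟩ := h.dir l hl2 (c - 1) (by omega)
                rw [hl3] at a3
                exact hy (a3 ▸ h.mem _ (by omega))
              · obtain ⟨a1, a2, a3, a4, a5⟩ := h.lnk l hl2 (c - 1) (by omega)
                rw [hl3] at a5
                have h4 := h.adj _ a1
                rw [a5] at h4
                rcases honly _ (h.mem _ (by omega)) h4.symm with h5 | h5
                · have h6 := h.inj _ (by omega) _ hkn h5
                  have h7 := h.pinj _ a1 _ hk h6 a5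
                  rw [h7, h0] at a2
                  omega
                · have h6 := h.inj _ (by omega) _ hj h5
                  exact a3 (by omega))
        have hfd := fo_div p j
        refine hQ _ (e2 _ (mem_kids hj hjk.symm f3).1) φ ν' (h'.set_lnk (by omega) hk f4
          (by rw [hfd]; exact hjk) h0 f3 (by rw [f1]; exact hy) (by rw [f1, f2]))
      · push Not at hex
        obtain ⟨φ', ν', h', f1, f2, f3, f4⟩ := h.extend hG hx hex hax.symm
        refine hQ _ e3 φ' ν' (h'.set_lnk (by omega) (by omega) (by omega) (by omega) h0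
          (h.zero _ le_rfl) ?_ ?_)
        · rw [f2 k hk]; exact hy
        · rw [f4, f2 k hk]

/-! ### references -/

/-- the digit `d` of the reference corresponds to the digit `e` -/
def dgok (m d e : ℕ) : Bool :=
  bif Nat.beq d 0 then true else bif Nat.beq d 1 then Nat.beq e 1 else
    Nat.beq e (2 + d % 2 + 2 * dg m (d / 2 - 1))

theorem dgok_one {m e : ℕ} (h : dgok m 1 e = true) : e = 1 := Nat.eq_of_beq_eq_true h

theorem dgok_two {m e l : ℕ} (h : dgok m (2 + 2 * l) e = true) : e = 2 + 2 * dg m l := by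
  unfold dgok at h
  have h1 : Nat.beq (2 + 2 * l) 0 = false := by
    rw [← Bool.not_eq_true]
    exact fun h => by have := Nat.eq_of_beq_eq_true h; omega
  have h2 : Nat.beq (2 + 2 * l) 1 = false := by
    rw [← Bool.not_eq_true]
    exact fun h => by have := Nat.eq_of_beq_eq_true h; omega
  rw [h1, h2, show (2 + 2 * l) / 2 - 1 = l by omega, show (2 + 2 * l) % 2 = 0 by omega] at h
  exact Nat.eq_of_beq_eq_true h

theorem dgok_three {m e l : ℕ} (h : dgok m (3 + 2 * l) e = true) : e = 3 + 2 * dg m l := by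
  unfold dgok at h
  have h1 : Nat.beq (3 + 2 * l) 0 = false := by
    rw [← Bool.not_eq_true]
    exact fun h => by have := Nat.eq_of_beq_eq_true h; omega
  have h2 : Nat.beq (3 + 2 * l) 1 = false := by
    rw [← Bool.not_eq_true]
    exact fun h => by have := Nat.eq_of_beq_eq_true h; omega
  rw [h1, h2, show (3 + 2 * l) / 2 - 1 = l by omega, show (3 + 2 * l) % 2 = 1 by omega] at h
  exact Nat.eq_of_beq_eq_true h

/-- the digits below `k` -/
def rfd (p r m : ℕ) : ℕ → Bool
  | 0 => true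
  | k + 1 => dgok m (dg r k) (dg p (dg m k)) && rfd p r m k

/-- the nodes below `i` -/
def rfn (n m w : ℕ) : ℕ → Bool
  | 0 => true
  | i + 1 => Nat.ble (dg m (3 * i) / 3 + 1) n && Nat.beq (dg w (dg m (3 * i) / 3)) i &&
      Nat.beq (dg m (3 * i + 1) / 3) (dg m (3 * i) / 3) &&
      Nat.beq (dg m (3 * i + 2) / 3) (dg m (3 * i) / 3) &&
      !Nat.beq (dg m (3 * i)) (dg m (3 * i + 1)) && !Nat.beq (dg m (3 * i)) (dg m (3 * i + 2)) &&
      !Nat.beq (dg m (3 * i + 1)) (dg m (3 * i + 2)) && rfn n m w i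

theorem rfd_of {p r m : ℕ} : ∀ {K k : ℕ}, rfd p r m K = true → k < K →
    dgok m (dg r k) (dg p (dg m k)) = true := by
  intro K
  induction K with
  | zero => intro k _ hk; omega
  | succ K ih =>
    intro k h hk
    rw [rfd, Bool.and_eq_true] at h
    rcases Nat.lt_succ_iff_lt_or_eq.1 hk with h1 | rfl
    · exact ih h.2 h1
    · exact h.1

theorem rfn_of {n m w : ℕ} : ∀ {I i : ℕ}, rfn n m w I = true → i < I →
    dg m (3 * i) / 3 < n ∧ dg w (dg m (3 * i) / 3) = i ∧
    dg m (3 * i + 1) / 3 = dg m (3 * i) / 3 ∧ dg m (3 * i + 2) / 3 = dg m (3 * i) / 3 ∧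
    dg m (3 * i) ≠ dg m (3 * i + 1) ∧ dg m (3 * i) ≠ dg m (3 * i + 2) ∧
    dg m (3 * i + 1) ≠ dg m (3 * i + 2) := by
  intro I
  induction I with
  | zero => intro i _ hi; omega
  | succ I ih =>
    intro i h hi
    rw [rfn] at h
    simp only [Bool.and_eq_true, Bool.not_eq_true'] at h
    obtain ⟨⟨⟨⟨⟨⟨⟨h1, h2⟩, h3⟩, h4⟩, h5⟩, h6⟩, h7⟩, h8⟩ := h
    rcases Nat.lt_succ_iff_lt_or_eq.1 hi with h9 | rfl
    · exact ih h8 h9
    · refine ⟨Nat.le_of_ble_eq_true h1, Nat.eq_of_beq_eq_true h2, Nat.eq_of_beq_eq_true h3,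
        Nat.eq_of_beq_eq_true h4, fun e => ?_, fun e => ?_, fun e => ?_⟩
      · rw [e] at h5; simp at h5
      · rw [e] at h6; simp at h6
      · rw [e] at h7; simp at h7

/-- the reference with the map `m`, whose inverse on nodes is `w` -/
def rfok (n p : ℕ) (q : ℕ × ℕ) (w m : ℕ) : Bool := rfn n m w q.1 && rfd p q.2 m (3 * q.1)

/-- the digits below `k` are consistent -/
def wfd (r K : ℕ) : ℕ → Bool
  | 0 => true
  | k + 1 => (Nat.ble (dg r k) 1 || (Nat.ble (dg r k / 2) K &&
      Nat.beq (dg r (dg r k / 2 - 1)) (2 + dg r k % 2 + 2 * k))) && wfd r K k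

/-- a consistent pattern -/
def wfp (q : ℕ × ℕ) : Bool := Nat.ble (q.2 + 1) (256 ^ (3 * q.1)) && wfd q.2 (3 * q.1) (3 * q.1)

theorem wfd_of {r K : ℕ} : ∀ {M k l c : ℕ}, wfd r K M = true → k < M → c < 2 →
    dg r k = 2 + c + 2 * l → l < K ∧ dg r l = 2 + c + 2 * k := by
  intro M
  induction M with
  | zero => intro k l c _ hk; omega
  | succ M ih =>
    intro k l c h hk hc e
    rw [wfd, Bool.and_eq_true] at h
    rcases Nat.lt_succ_iff_lt_or_eq.1 hk with h1 | rfl
    · exact ih h.2 h1 hc e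
    · have h2 := h.1
      rw [Bool.or_eq_true, Bool.and_eq_true] at h2
      rcases h2 with h2 | ⟨h2, h3⟩
      · have := Nat.le_of_ble_eq_true h2
        omega
      · have h4 := Nat.le_of_ble_eq_true h2
        have h5 := Nat.eq_of_beq_eq_true h3
        rw [show dg r k / 2 - 1 = l by omega] at h5
        exact ⟨by omega, by omega⟩

theorem dg_zero_of_lt {p k K : ℕ} (h : p < 256 ^ K) (hk : K ≤ k) : dg p k = 0 := by
  unfold dg
  rw [Nat.div_eq_of_lt (h.trans_le (Nat.pow_le_pow_right (by norm_num) hk))]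

theorem rf_emb {U : Finset V} {n p : ℕ} {q : ℕ × ℕ} {w m : ℕ} (hw : wfp q = true)
    (hr : rfok n p q w m = true) {φ ν : ℕ → V} (h : Emb G U n p φ ν) :
    Emb G U q.1 q.2 (fun i => φ (dg m (3 * i) / 3)) (fun k => ν (dg m k)) := by
  unfold rfok at hr
  unfold wfp at hw
  rw [Bool.and_eq_true] at hr hw
  obtain ⟨h2, h3⟩ := hr
  obtain ⟨h1, hw⟩ := hw
  have hlt : q.2 < 256 ^ (3 * q.1) := Nat.le_of_ble_eq_true h1
  -- ports go to ports of the image
  have hport : ∀ k < 3 * q.1, dg m k / 3 = dg m (3 * (k / 3)) / 3 ∧ dg m k < 3 * n := by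
    intro k hk
    obtain ⟨a1, a2, a3, a4, a5, a6, a7⟩ := rfn_of h2 (i := k / 3) (by omega)
    have h4 : k = 3 * (k / 3) ∨ k = 3 * (k / 3) + 1 ∨ k = 3 * (k / 3) + 2 := by omega
    rcases h4 with h4 | h4 | h4
    · have h5 : dg m k = dg m (3 * (k / 3)) := by rw [← h4]
      exact ⟨by rw [h5], by omega⟩
    · have h5 : dg m k = dg m (3 * (k / 3) + 1) := by rw [← h4]
      exact ⟨by rw [h5, a3], by omega⟩
    · have h5 : dg m k = dg m (3 * (k / 3) + 2) := by rw [← h4]
      exact ⟨by rw [h5, a4], by omega⟩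
  have hnode : ∀ i < q.1, ∀ j < q.1, dg m (3 * i) / 3 = dg m (3 * j) / 3 → i = j := by
    intro i hi j hj e
    obtain ⟨-, a2, -⟩ := rfn_of h2 hi
    obtain ⟨-, b2, -⟩ := rfn_of h2 hj
    rw [e, b2] at a2
    exact a2.symm
  have hinj : ∀ k < 3 * q.1, ∀ l < 3 * q.1, k / 3 = l / 3 → dg m k = dg m l → k = l := by
    intro k hk l hl e e2
    obtain ⟨a1, a2, a3, a4, a5, a6, a7⟩ := rfn_of h2 (i := k / 3) (by omega)
    have h4 : k = 3 * (k / 3) ∨ k = 3 * (k / 3) + 1 ∨ k = 3 * (k / 3) + 2 := by omega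
    have h5 : l = 3 * (k / 3) ∨ l = 3 * (k / 3) + 1 ∨ l = 3 * (k / 3) + 2 := by omega
    obtain ⟨i, hi⟩ : ∃ i, i = k / 3 := ⟨_, rfl⟩
    rw [← hi] at h4 h5 a1 a2 a3 a4 a5 a6 a7
    rcases h4 with rfl | rfl | rfl <;> rcases h5 with rfl | rfl | rfl
    · rfl
    · exact absurd e2 a5
    · exact absurd e2 a6
    · exact absurd e2.symm a5
    · rfl
    · exact absurd e2 a7
    · exact absurd e2.symm a6
    · exact absurd e2.symm a7
    · rfl
  have hd2 : ∀ k < 3 * q.1, ∀ l, dg q.2 k = 2 + 2 * l → dg p (dg m k) = 2 + 2 * dg m l := by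
    intro k hk l e
    have h4 := rfd_of h3 hk
    rw [e] at h4
    exact dgok_two h4
  have hd3 : ∀ k < 3 * q.1, ∀ l, dg q.2 k = 3 + 2 * l → dg p (dg m k) = 3 + 2 * dg m l := by
    intro k hk l e
    have h4 := rfd_of h3 hk
    rw [e] at h4
    exact dgok_three h4
  refine ⟨fun i hi => h.mem _ (rfn_of h2 hi).1, fun i hi j hj e => ?_, fun k hk => ?_,
    fun k hk l hl e1 e2 => ?_, fun k hk => dg_zero_of_lt hlt hk, fun k hk e => ?_,
    fun k hk l e => ?_, fun k hk l e => ?_⟩
  · exact hnode i hi j hj (h.inj _ (rfn_of h2 hi).1 _ (rfn_of h2 hj).1 e)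
  · beta_reduce
    have h5 := hport k hk
    rw [← h5.1]
    exact h.adj _ h5.2
  · have h5 := hport k hk
    have h6 := hport l hl
    refine hinj k hk l hl e1 (h.pinj _ h5.2 _ h6.2 ?_ e2)
    rw [h5.1, h6.1, e1]
  · have h4 := rfd_of h3 hk
    rw [e] at h4
    have h5 := hport k hk
    have h6 := h.dead _ h5.2 (Nat.eq_of_beq_eq_true h4)
    beta_reduce
    rw [← h5.1]
    exact h6
  · obtain ⟨b1, b2⟩ := wfd_of hw hk (c := 0) (by omega) e
    have h5 := hport k hk
    have h6 := hport l b1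
    obtain ⟨a1, a2, a3, a4⟩ := h.dir _ h5.2 _ (hd2 k hk l e)
    beta_reduce
    rw [← h5.1, ← h6.1]
    exact ⟨b1, b2, a3, a4⟩
  · obtain ⟨b1, b2⟩ := wfd_of hw hk (c := 1) (by omega) (by omega : dg q.2 k = 2 + 1 + 2 * l)
    have h5 := hport k hk
    have h6 := hport l b1
    obtain ⟨a1, a2, a3, a4, a5⟩ := h.lnk _ h5.2 _ (hd3 k hk l e)
    refine ⟨b1, by omega, fun e1 => a3 ?_, a4, a5⟩
    rw [h5.1, h6.1, e1]

/-- the step: a reference -/
def rf (rs : List (ℕ × ℕ)) (n p x : ℕ) : Option (List (ℕ × ℕ)) :=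
  bif rfok n p (rs.getD (x % 4096) (0, 0)) (x / 4096 % 256 ^ 16) (x / 4096 / 256 ^ 16) then some [] else none

theorem rf_sound {U : Finset V} {Q : Prop} {rs : List (ℕ × ℕ)} (hw : rs.all wfp = true)
    (hrs : ∀ q ∈ rs, Cl G U Q q) {n p x : ℕ} {L : List (ℕ × ℕ)} (hx : x % 4096 < rs.length)
    (hL : rf rs n p x = some L) : Cl G U Q (n, p) := by
  intro φ ν h
  change Emb G U n p φ ν at h
  unfold rf at hL
  have hq : rs.getD (x % 4096) (0, 0) ∈ rs := by
    rw [List.getD_eq_getElem _ _ hx]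
    exact List.getElem_mem hx
  cases hc : rfok n p (rs.getD (x % 4096) (0, 0)) (x / 4096 % 256 ^ 16) (x / 4096 / 256 ^ 16)
  · rw [hc] at hL
    exact absurd hL (by simp)
  · exact hrs _ hq _ _ (rf_emb (List.all_eq_true.1 hw _ hq) hc h)

/-! ### an unknown member of `U` behind two ports -/

/-- a new node with two given neighbours -/
theorem Emb.extend2 (hG : G.IsRegularOfDegree 3) {U : Finset V} {n p : ℕ} {φ ν : ℕ → V}
    (h : Emb G U n p φ ν) {x z z' : V} (hx : x ∈ U) (hnew : ∀ i < n, φ i ≠ x) (hz : G.Adj x z)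
    (hz' : G.Adj x z') (hne : z ≠ z') :
    ∃ φ' ν' : ℕ → V, Emb G U (n + 1) p φ' ν' ∧ (∀ i < n, φ' i = φ i) ∧ (∀ k < 3 * n, ν' k = ν k) ∧
      φ' n = x ∧ ν' (3 * n) = z ∧ ν' (3 * n + 1) = z' := by
  obtain ⟨φ', ν', h', f1, f2, f3, f4⟩ := h.extend hG hx hnew hz
  obtain ⟨l, hl1, hl2, hl3⟩ := h'.surj hG (Nat.lt_succ_self n) (y := z') (by rw [f3]; exact hz')
  have hl4 : l ≠ 3 * n := by
    rintro rfl
    exact hne (f4.symm.trans hl3)
  refine ⟨φ', _, h'.swap (b := 3 * n + 1) (c := l) (by omega) hl2 (by omega) (h.zero _ (by omega))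
    (h.zero _ (by omega)), f1, fun k hk => ?_, f3, ?_, ?_⟩
  · beta_reduce
    rw [Equiv.swap_apply_of_ne_of_ne (by omega) (by omega), f2 k hk]
  · beta_reduce
    rw [Equiv.swap_apply_of_ne_of_ne (by omega) (Ne.symm hl4), f4]
  · beta_reduce
    rw [Equiv.swap_apply_left, hl3]

/-- the ports `k` and `l` belong together: `a = 0` direct, `a = 1` by a link -/
def Mtch (U : Finset V) (φ ν : ℕ → V) (a k l : ℕ) : Prop :=
  (a = 0 ∧ ν k = φ (l / 3) ∧ ν l = φ (k / 3)) ∨ (a = 1 ∧ k / 3 ≠ l / 3 ∧ ν k ∉ U ∧ ν l = ν k)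

theorem Emb.set {U : Finset V} {n p : ℕ} {φ ν : ℕ → V} (h : Emb G U n p φ ν) {a k l : ℕ}
    (hn : n ≤ 40) (hk : k < 3 * n) (hl : l < 3 * n) (hkl : k ≠ l) (h0k : dg p k = 0)
    (h0l : dg p l = 0) (hm : Mtch U φ ν a k l) :
    Emb G U n (p + (2 + a + 2 * l) * 256 ^ k + (2 + a + 2 * k) * 256 ^ l) φ ν := by
  rcases hm with ⟨rfl, h1, h2⟩ | ⟨rfl, h1, h2, h3⟩
  · exact h.set_dir hn hk hl hkl h0k h0l h1 h2
  · exact h.set_lnk hn hk hl h1 h0k h0l h2 h3

/-- the member `y` of `U` hangs at the port `k`: `a = 0` direct, `a = 1` by a link -/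
def Hng (G : SimpleGraph V) (U : Finset V) (ν : ℕ → V) (a k : ℕ) (y : V) : Prop :=
  (a = 0 ∧ ν k = y) ∨ (a = 1 ∧ ν k ∉ U ∧ G.Adj (ν k) y)

/-- the pattern with a new node at the ports `k` and `l` -/
def two (n p a k b l : ℕ) : ℕ :=
  p + (2 + a + 2 * (3 * n)) * 256 ^ k + (2 + a + 2 * k) * 256 ^ (3 * n) +
    (2 + b + 2 * (3 * n + 1)) * 256 ^ l + (2 + b + 2 * l) * 256 ^ (3 * n + 1)

theorem Emb.two (hG : G.IsRegularOfDegree 3) {U : Finset V} (hI : Inv G U) {n p : ℕ} {φ ν : ℕ → V}
    (h : Emb G U n p φ ν) (hn : n < 40) {a b k l : ℕ} {y : V} (hy : y ∈ U) (hnew : ∀ i < n, φ i ≠ y)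
    (hk : k < 3 * n) (hl : l < 3 * n) (hkl : k ≠ l) (h0k : dg p k = 0) (h0l : dg p l = 0)
    (hyk : Hng G U ν a k y) (hyl : Hng G U ν b l y) :
    ∃ φ' ν' : ℕ → V, Emb G U (n + 1) (two n p a k b l) φ' ν' ∧ (∀ i < n, φ' i = φ i) ∧
      (∀ k < 3 * n, ν' k = ν k) ∧ φ' n = y := by
  -- the neighbour of `y` towards a port
  have key : ∀ {a k : ℕ}, k < 3 * n → Hng G U ν a k y →
      ∃ z, G.Adj y z ∧ ((a = 0 ∧ ν k = y ∧ z = φ (k / 3)) ∨ (a = 1 ∧ ν k ∉ U ∧ z = ν k)) := by
    intro a k hk hm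
    rcases hm with ⟨rfl, h1⟩ | ⟨rfl, h1, h2⟩
    · exact ⟨φ (k / 3), by rw [← h1]; exact (h.adj k hk).symm, Or.inl ⟨rfl, h1, rfl⟩⟩
    · exact ⟨ν k, h2.symm, Or.inr ⟨rfl, h1, rfl⟩⟩
  obtain ⟨z, hz, hzk⟩ := key hk hyk
  obtain ⟨z', hz', hzl⟩ := key hl hyl
  have hne : z ≠ z' := by
    rintro rfl
    rcases hzk with ⟨-, h1, h2⟩ | ⟨-, h1, h2⟩ <;> rcases hzl with ⟨-, h3, h4⟩ | ⟨-, h3, h4⟩
    · exact hkl (h.pinj k hk l hl (h.inj _ (by omega) _ (by omega) (h2.symm.trans h4))
        (h1.trans h3.symm))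
    · exact h3 (h4 ▸ h2 ▸ h.mem _ (by omega))
    · exact h1 (h2 ▸ h4 ▸ h.mem _ (by omega))
    · have e1 : ν k = ν l := h2.symm.trans h4
      have e2 : φ (k / 3) ≠ φ (l / 3) := fun e => hkl (h.pinj k hk l hl
        (h.inj _ (by omega) _ (by omega) e) e1)
      have h5 : ({φ (k / 3), φ (l / 3), y} : Finset V) ⊆ cn G (ν k) ∩ U := by
        intro w hw
        rw [mem_insert, mem_insert, mem_singleton] at hw
        rw [mem_inter, mem_cn]
        rcases hw with rfl | rfl | rfl
        · exact ⟨Or.inr (h.adj k hk).symm, h.mem _ (by omega)⟩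
        · exact ⟨Or.inr (e1 ▸ (h.adj l hl).symm), h.mem _ (by omega)⟩
        · exact ⟨Or.inr (h2 ▸ hz.symm), hy⟩
      have h6 := card_le_card h5
      rw [card_insert_of_notMem, card_pair (hnew _ (by omega))] at h6
      · have := hI _ h1
        omega
      · rw [mem_insert, mem_singleton]
        push Not
        exact ⟨e2, hnew _ (by omega)⟩
  obtain ⟨φ', ν', h', f1, f2, f3, f4, f5⟩ := h.extend2 hG hy hnew hz hz' hne
  have hm1 : Mtch U φ' ν' a k (3 * n) := by
    rcases hzk with ⟨h0, h1, h2⟩ | ⟨h0, h1, h2⟩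
    · refine Or.inl ⟨h0, ?_, ?_⟩
      · rw [f2 k hk, show 3 * n / 3 = n by omega, f3, h1]
      · rw [f4, f1 _ (by omega), h2]
    · refine Or.inr ⟨h0, by omega, ?_, ?_⟩
      · rw [f2 k hk]; exact h1
      · rw [f4, f2 k hk, h2]
  have hm2 : Mtch U φ' ν' b l (3 * n + 1) := by
    rcases hzl with ⟨h0, h1, h2⟩ | ⟨h0, h1, h2⟩
    · refine Or.inl ⟨h0, ?_, ?_⟩
      · rw [f2 l hl, show (3 * n + 1) / 3 = n by omega, f3, h1]
      · rw [f5, f1 _ (by omega), h2]
    · refine Or.inr ⟨h0, by omega, ?_, ?_⟩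
      · rw [f2 l hl]; exact h1
      · rw [f5, f2 l hl, h2]
  have ha : a < 2 := by rcases hyk with ⟨h0, -⟩ | ⟨h0, -⟩ <;> omega
  have h1 := h'.set (by omega) (by omega) (by omega) (by omega) h0k (h.zero _ le_rfl) hm1
  have hd := dg_pair (c := 2 + a + 2 * (3 * n)) (d := 2 + a + 2 * k) (by omega : k ≠ 3 * n) h0k
    (h.zero _ le_rfl) (by omega) (by omega)
  exact ⟨φ', ν', h1.set (by omega) (by omega) (by omega) (by omega)
    (by rw [hd, if_neg (by omega), if_neg (by omega)]; exact h0l)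
    (by rw [hd, if_neg (by omega), if_neg (by omega)]; exact h.zero _ (by omega)) hm2, f1, f2, f3⟩

/-! ### the composed step -/

/-- token `x`: `x % 4` is the kind -/
def cstp (d : Bool) (rs : List (ℕ × ℕ)) (lf : Stp) : Stp := fun n p x =>
  bif Nat.beq (x % 4) 0 then branch d n p (x / 4) else
    bif Nat.beq (x % 4) 1 then lf n p (x / 4) else
      bif Nat.beq (x % 4) 2 && Nat.ble (x / 4 % 4096 + 1) rs.length then rf rs n p (x / 4) else none

theorem cstp_sound (hG : G.IsRegularOfDegree 3) {U : Finset V} (hI : Inv G U) {Q : Prop} {d : Bool}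
    (hd : d = true ∨ ∀ y, y ∉ U → ∀ x ∈ U, G.Adj y x → ∃ x' ∈ U, x' ≠ x ∧ G.Adj y x')
    {rs : List (ℕ × ℕ)} (hw : rs.all wfp = true) (hrs : ∀ q ∈ rs, Cl G U Q q) {lf : Stp}
    (hlf : Snd G U Q lf) : Snd G U Q (cstp d rs lf) := by
  intro n p x L hL hQ
  unfold cstp at hL
  cases h0 : Nat.beq (x % 4) 0
  · rw [h0, cond_false] at hL
    cases h1 : Nat.beq (x % 4) 1
    · rw [h1, cond_false] at hL
      cases h2 : Nat.beq (x % 4) 2 && Nat.ble (x / 4 % 4096 + 1) rs.length
      · rw [h2, cond_false] at hL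
        exact absurd hL (by simp)
      · rw [h2, cond_true] at hL
        rw [Bool.and_eq_true] at h2
        exact rf_sound hw hrs (Nat.le_of_ble_eq_true h2.2) hL
    · rw [h1, cond_true] at hL
      exact hlf n p _ L hL hQ
  · rw [h0, cond_true] at hL
    exact branch_sound hG hI hd hL hQ

end EF18
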