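import Pool.Agent.Lib.MP_ef18bd_co.P.Pc
import Pool.Agent.Lib.MP_ef18bd_co.P.Run

/-!
# A piece in a pattern

`pcok n p q w m`: the nodes of the pattern `(n, p)` in the image of the map `m` (`w` is its inverse on the
nodes) form the piece `q`.
-/

namespace EF18

open Finset

variable {V : Type} [Fintype V] [DecidableEq V] {G : SimpleGraph V} [DecidableRel G.Adj]

theorem isd_of (l : ℕ) : isd (2 + 2 * l) (l / 3) = true := by
  unfold isd
  have h : 2 + 2 * l = 2 + 6 * (l / 3) ∨ 2 + 2 * l = 4 + 6 * (l / 3) ∨ 2 + 2 * l = 6 + 6 * (l / 3) := by omega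
  rcases h with h | h | h <;> rw [h] <;> simp

theorem adjd_of {p k l : ℕ} (h : dg p k = 2 + 2 * l) : adjd p (k / 3) (l / 3) = true := by
  unfold adjd
  have h1 : k = 3 * (k / 3) ∨ k = 3 * (k / 3) + 1 ∨ k = 3 * (k / 3) + 2 := by omega
  have h2 := isd_of l
  rw [← h] at h2
  rcases h1 with h1 | h1 | h1 <;> rw [← h1, h2] <;> simp

/-- `j` is not in the image -/
def nim (m j : ℕ) : ℕ → Bool
  | 0 => true
  | i + 1 => !Nat.beq (dg m (3 * i) / 3) j && nim m j i

theorem nim_of {m j : ℕ} : ∀ {I i : ℕ}, nim m j I = true → i < I → dg m (3 * i) / 3 ≠ j := by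
  intro I
  induction I with
  | zero => intro i _ hi; omega
  | succ I ih =>
    intro i h hi
    rw [nim, Bool.and_eq_true, Bool.not_eq_true'] at h
    rcases Nat.lt_succ_iff_lt_or_eq.1 hi with h1 | rfl
    · exact ih h.2 h1
    · intro e
      rw [e] at h
      simp at h

/-- `j` is adjacent to the image of `a` only -/
def oad (p m a j : ℕ) : ℕ → Bool
  | 0 => true
  | i + 1 => (Nat.beq i a || !adjd p (dg m (3 * i) / 3) j) && oad p m a j i

theorem oad_of {p m a j : ℕ} : ∀ {I i : ℕ}, oad p m a j I = true → i < I → i ≠ a →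
    adjd p (dg m (3 * i) / 3) j = false := by
  intro I
  induction I with
  | zero => intro i _ hi; omega
  | succ I ih =>
    intro i h hi ha
    rw [oad, Bool.and_eq_true, Bool.or_eq_true, Bool.not_eq_true'] at h
    rcases Nat.lt_succ_iff_lt_or_eq.1 hi with h1 | rfl
    · exact ih h.2 h1 ha
    · rcases h.1 with h1 | h1
      · exact absurd (Nat.eq_of_beq_eq_true h1) ha
      · exact h1

/-- the digit `d` of the piece at the port `k` -/
def pdok (p m N k d : ℕ) : Bool :=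
  frc (dg p (dg m k)) fun e =>
    bif Nat.beq d 0 then false else
    bif Nat.beq d 1 then Nat.beq e 1 || (Nat.ble 2 e && nim m (tg e) N &&
      (Nat.beq (Nat.mod e 2) 1 || oad p m (k / 3) (tg e) N)) else
    bif Nat.beq (Nat.mod d 2) 0 then Nat.beq e (2 + 2 * dg m (d / 2 - 1)) else
      Nat.beq e (3 + 2 * dg m (d / 2 - 1)) || frc (dg p (dg m (d / 2 - 1))) fun e' =>
        Nat.ble 2 e && Nat.beq (Nat.mod e 2) 0 && Nat.ble 2 e' && Nat.beq (Nat.mod e' 2) 0 &&
          Nat.beq (tg e) (tg e') && nim m (tg e) N && !Nat.beq ((d / 2 - 1) / 3) (k / 3)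

/-- the digits below `k` -/
def pds (p r m N : ℕ) : ℕ → Bool
  | 0 => true
  | k + 1 => pdok p m N k (dg r k) && pds p r m N k

theorem pds_of {p r m N : ℕ} : ∀ {K k : ℕ}, pds p r m N K = true → k < K →
    pdok p m N k (dg r k) = true := by
  intro K
  induction K with
  | zero => intro k _ hk; omega
  | succ K ih =>
    intro k h hk
    rw [pds, Bool.and_eq_true] at h
    rcases Nat.lt_succ_iff_lt_or_eq.1 hk with h1 | rfl
    · exact ih h.2 h1
    · exact h.1

/-- the nodes are full -/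
def pfl (p m : ℕ) : ℕ → Bool
  | 0 => true
  | i + 1 => full p (dg m (3 * i) / 3) && pfl p m i

theorem pfl_of {p m : ℕ} : ∀ {I i : ℕ}, pfl p m I = true → i < I → full p (dg m (3 * i) / 3) = true := by
  intro I
  induction I with
  | zero => intro i _ hi; omega
  | succ I ih =>
    intro i h hi
    rw [pfl, Bool.and_eq_true] at h
    rcases Nat.lt_succ_iff_lt_or_eq.1 hi with h1 | rfl
    · exact ih h.2 h1
    · exact h.1

/-- the check -/
def pcok (n p : ℕ) (q : ℕ × ℕ) (w m : ℕ) : Bool :=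
  rfn n m w q.1 && pfl p m q.1 && pds p q.2 m q.1 (3 * q.1)

theorem pdok_one {p m N k : ℕ} (h : pdok p m N k 1 = true) : dg p (dg m k) = 1 ∨
    (2 ≤ dg p (dg m k) ∧ nim m (tg (dg p (dg m k))) N = true ∧
      (dg p (dg m k) % 2 = 1 ∨ oad p m (k / 3) (tg (dg p (dg m k))) N = true)) := by
  unfold pdok at h
  rw [frc_eq] at h
  change (Nat.beq (dg p (dg m k)) 1 || (Nat.ble 2 (dg p (dg m k)) && nim m (tg (dg p (dg m k))) N &&
      (Nat.beq (Nat.mod (dg p (dg m k)) 2) 1 || oad p m (k / 3) (tg (dg p (dg m k))) N))) = true at h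
  rw [Bool.or_eq_true, Bool.and_eq_true, Bool.and_eq_true, Bool.or_eq_true] at h
  rcases h with h | ⟨⟨h1, h2⟩, h3⟩
  · exact Or.inl (Nat.eq_of_beq_eq_true h)
  · refine Or.inr ⟨Nat.le_of_ble_eq_true h1, h2, h3.imp_left fun h => Nat.eq_of_beq_eq_true h⟩

theorem beq_false {a b : ℕ} (h : a ≠ b) : Nat.beq a b = false := by
  rw [← Bool.not_eq_true]
  exact fun e => h (Nat.eq_of_beq_eq_true e)

theorem pdok_two {p m N k l : ℕ} (h : pdok p m N k (2 + 2 * l) = true) :
    dg p (dg m k) = 2 + 2 * dg m l := by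
  unfold pdok at h
  rw [frc_eq, beq_false (show 2 + 2 * l ≠ 0 by omega), beq_false (show 2 + 2 * l ≠ 1 by omega),
    show Nat.mod (2 + 2 * l) 2 = (2 + 2 * l) % 2 from rfl, show (2 + 2 * l) % 2 = 0 by omega,
    show (2 + 2 * l) / 2 - 1 = l by omega] at h
  exact Nat.eq_of_beq_eq_true h

theorem pdok_three {p m N k l : ℕ} (h : pdok p m N k (3 + 2 * l) = true) :
    dg p (dg m k) = 3 + 2 * dg m l ∨ (2 ≤ dg p (dg m k) ∧ dg p (dg m k) % 2 = 0 ∧
      2 ≤ dg p (dg m l) ∧ dg p (dg m l) % 2 = 0 ∧ tg (dg p (dg m k)) = tg (dg p (dg m l)) ∧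
      nim m (tg (dg p (dg m k))) N = true ∧ l / 3 ≠ k / 3) := by
  unfold pdok at h
  rw [frc_eq, beq_false (show 3 + 2 * l ≠ 0 by omega), beq_false (show 3 + 2 * l ≠ 1 by omega),
    show Nat.mod (3 + 2 * l) 2 = (3 + 2 * l) % 2 from rfl, show (3 + 2 * l) % 2 = 1 by omega,
    show (3 + 2 * l) / 2 - 1 = l by omega] at h
  change (Nat.beq (dg p (dg m k)) (3 + 2 * dg m l) || frc (dg p (dg m l)) fun e' =>
        Nat.ble 2 (dg p (dg m k)) && Nat.beq (Nat.mod (dg p (dg m k)) 2) 0 && Nat.ble 2 e' &&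
          Nat.beq (Nat.mod e' 2) 0 && Nat.beq (tg (dg p (dg m k))) (tg e') &&
          nim m (tg (dg p (dg m k))) N && !Nat.beq (l / 3) (k / 3)) = true at h
  rw [frc_eq] at h
  simp only [Bool.or_eq_true, Bool.and_eq_true, Bool.not_eq_true'] at h
  rcases h with h | ⟨⟨⟨⟨⟨⟨h1, h2⟩, h3⟩, h4⟩, h5⟩, h6⟩, h7⟩
  · exact Or.inl (Nat.eq_of_beq_eq_true h)
  · refine Or.inr ⟨Nat.le_of_ble_eq_true h1, Nat.eq_of_beq_eq_true h2, Nat.le_of_ble_eq_true h3,
      Nat.eq_of_beq_eq_true h4, Nat.eq_of_beq_eq_true h5, h6, fun e => ?_⟩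
    rw [e] at h7
    simp at h7

/-- the image of the map -/
def pim (q : ℕ × ℕ) (m : ℕ) (φ : ℕ → V) : Finset V := (range q.1).image fun i => φ (dg m (3 * i) / 3)

/-- **the piece in the pattern** -/
theorem pc_emb (hG : G.IsRegularOfDegree 3) {U : Finset V} (hI : Inv G U) {n p : ℕ} {q : ℕ × ℕ} {w m : ℕ}
    (hw : wfp q = true) (hr : pcok n p q w m = true) {φ ν : ℕ → V} (h : Emb G U n p φ ν) :
    Pc G (pim q m φ) q.1 q.2 ∧ pim q m φ ⊆ U := by
  unfold pcok at hr
  unfold wfp at hw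
  rw [Bool.and_eq_true, Bool.and_eq_true] at hr
  rw [Bool.and_eq_true] at hw
  obtain ⟨⟨h2, hfl⟩, h3⟩ := hr
  obtain ⟨h1, hw⟩ := hw
  have hlt : q.2 < 256 ^ (3 * q.1) := Nat.le_of_ble_eq_true h1
  -- ports go to ports of the image
  have hport : ∀ k < 3 * q.1, dg m k / 3 = dg m (3 * (k / 3)) / 3 ∧ dg m k < 3 * n := by
    intro k hk
    obtain ⟨a1, a2, a3, a4, a5, a6, a7⟩ := rfn_of h2 (i := k / 3) (by omega)
    have h4 : k = 3 * (k / 3) ∨ k = 3 * (k / 3) + 1 ∨ k = 3 * (k / 3) + 2 := by omega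
    rcases h4 with h4 | h4 | h4
    · have h5 : dg m k = dg m (3 * (k / 3)) := by rw [← h4]
      exact ⟨by rw [h5], by omega⟩
    · have h5 : dg m k = dg m (3 * (k / 3) + 1) := by rw [← h4]
      exact ⟨by rw [h5, a3], by omega⟩
    · have h5 : dg m k = dg m (3 * (k / 3) + 2) := by rw [← h4]
      exact ⟨by rw [h5, a4], by omega⟩
  have hnode : ∀ i < q.1, ∀ j < q.1, dg m (3 * i) / 3 = dg m (3 * j) / 3 → i = j := by
    intro i hi j hj e
    obtain ⟨-, a2, -⟩ := rfn_of h2 hi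
    obtain ⟨-, b2, -⟩ := rfn_of h2 hj
    rw [e, b2] at a2
    exact a2.symm
  have hinj : ∀ k < 3 * q.1, ∀ l < 3 * q.1, k / 3 = l / 3 → dg m k = dg m l → k = l := by
    intro k hk l hl e e2
    obtain ⟨a1, a2, a3, a4, a5, a6, a7⟩ := rfn_of h2 (i := k / 3) (by omega)
    have h4 : k = 3 * (k / 3) ∨ k = 3 * (k / 3) + 1 ∨ k = 3 * (k / 3) + 2 := by omega
    have h5 : l = 3 * (k / 3) ∨ l = 3 * (k / 3) + 1 ∨ l = 3 * (k / 3) + 2 := by omega
    obtain ⟨i, hi⟩ : ∃ i, i = k / 3 := ⟨_, rfl⟩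
    rw [← hi] at h4 h5 a1 a2 a3 a4 a5 a6 a7
    rcases h4 with rfl | rfl | rfl <;> rcases h5 with rfl | rfl | rfl
    · rfl
    · exact absurd e2 a5
    · exact absurd e2 a6
    · exact absurd e2.symm a5
    · rfl
    · exact absurd e2 a7
    · exact absurd e2.symm a6
    · exact absurd e2.symm a7
    · rfl
  -- the image
  have him : ∀ x, x ∈ pim q m φ ↔ ∃ i < q.1, φ (dg m (3 * i) / 3) = x := by
    intro x
    unfold pim
    rw [mem_image]
    constructor
    · rintro ⟨i, hi, e⟩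
      exact ⟨i, mem_range.1 hi, e⟩
    · rintro ⟨i, hi, e⟩
      exact ⟨i, mem_range.2 hi, e⟩
  have hsub : pim q m φ ⊆ U := by
    intro x hx
    obtain ⟨i, hi, rfl⟩ := (him x).1 hx
    exact h.mem _ (rfn_of h2 hi).1
  have hnim : ∀ j < n, nim m j q.1 = true → φ j ∉ pim q m φ := by
    intro j hj h4 hc
    obtain ⟨i, hi, e⟩ := (him _).1 hc
    exact nim_of h4 hi (h.inj _ (rfn_of h2 hi).1 _ hj e)
  refine ⟨⟨fun i => φ (dg m (3 * i) / 3), fun k => ν (dg m k), ⟨fun i hi => (him _).2 ⟨i, hi, rfl⟩,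
    fun i hi j hj e => ?_, fun k hk => ?_, fun k hk l hl e1 e2 => ?_, fun k hk => dg_zero_of_lt hlt hk,
    fun k hk e => ?_, fun k hk l e => ?_, fun k hk l e => ?_⟩, fun x hx => (him x).1 hx⟩, hsub⟩
  · exact hnode i hi j hj (h.inj _ (rfn_of h2 hi).1 _ (rfn_of h2 hj).1 e)
  · beta_reduce
    have h5 := hport k hk
    rw [← h5.1]
    exact h.adj _ h5.2
  · have h5 := hport k hk
    have h6 := hport l hl
    refine hinj k hk l hl e1 (h.pinj _ h5.2 _ h6.2 ?_ e2)
    rw [h5.1, h6.1, e1]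
  · -- lonely for the piece
    have h4 := pds_of h3 hk
    rw [e] at h4
    obtain ⟨h5, h5'⟩ := hport k hk
    beta_reduce
    rcases pdok_one h4 with h6 | ⟨h6, h7, h8⟩
    · obtain ⟨b1, b2⟩ := h.dead _ h5' h6
      refine ⟨fun hc => b1 (hsub hc), fun y hy hya => ?_⟩
      rw [← h5]
      exact b2 y (hsub hy) hya
    · rcases digit_cases (dg p (dg m k)) with h0 | h0 | ⟨l, hl⟩ | ⟨l, hl⟩
      · omega
      · omega
      · obtain ⟨a1, a2, a3, a4⟩ := h.dir _ h5' l hl
        rw [hl, tg_dir] at h7 h8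
        have b1 := hnim _ (by omega) h7
        refine ⟨by rw [a3]; exact b1, fun y hy hya => ?_⟩
        obtain ⟨i, hi, rfl⟩ := (him y).1 hy
        by_contra hne
        have hik : i ≠ k / 3 := by
          rintro rfl
          exact hne rfl
        have h9 : oad p m (k / 3) (l / 3) q.1 = true := by
          rcases h8 with h8 | h8
          · omega
          · exact h8
        have h10 := oad_of h9 hi hik
        obtain ⟨c1, -⟩ := rfn_of h2 hi
        obtain ⟨t, t1, t2, t3⟩ := h.surj hG c1 hya.symm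
        rcases digit_cases (dg p t) with d0 | d0 | ⟨l', d0⟩ | ⟨l', d0⟩
        · exact full_iff.1 (pfl_of hfl hi) t t1 d0
        · exact (h.dead t t2 d0).1 (by rw [t3, a3]; exact h.mem _ (by omega))
        · obtain ⟨e1, -, e3, -⟩ := h.dir t t2 l' d0
          rw [t3, a3] at e3
          have e5 := h.inj _ (by omega) _ (by omega) e3
          have e6 : adjd p (dg m (3 * i) / 3) (l / 3) = true := by
            rw [e5, ← t1]
            exact adjd_of d0
          rw [h10] at e6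
          exact absurd e6 (by simp)
        · exact (h.lnk t t2 l' d0).2.2.2.1 (by rw [t3, a3]; exact h.mem _ (by omega))
      · obtain ⟨a1, a2, a3, a4, a5⟩ := h.lnk _ h5' l hl
        rw [hl, tg_lnk] at h7
        have b1 := hnim _ (by omega) h7
        refine ⟨fun hc => a4 (hsub hc), fun y hy hya => ?_⟩
        have c1 := h.adj _ a1
        rw [a5] at c1
        have c2 := h.adj _ h5'
        rcases hI.two a4 (h.mem (dg m k / 3) (by omega)) (h.mem (l / 3) (by omega))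
          (fun e => a3 (h.inj _ (by omega) _ (by omega) e).symm) c2.symm c1.symm (hsub hy) hya with e6 | e6
        · rw [e6, h5]
        · exact absurd (e6 ▸ hy) b1
  · obtain ⟨b1, b2⟩ := wfd_of hw hk (c := 0) (by omega) e
    have h5 := hport k hk
    have h6 := hport l b1
    have h4 := pds_of h3 hk
    rw [e] at h4
    obtain ⟨a1, a2, a3, a4⟩ := h.dir _ h5.2 _ (pdok_two h4)
    beta_reduce
    rw [← h5.1, ← h6.1]
    exact ⟨b1, b2, a3, a4⟩
  · obtain ⟨b1, b2⟩ := wfd_of hw hk (c := 1) (by omega) (by omega : dg q.2 k = 2 + 1 + 2 * l)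
    have h5 := hport k hk
    have h6 := hport l b1
    have h4 := pds_of h3 hk
    rw [e] at h4
    beta_reduce
    rcases pdok_three h4 with h7 | ⟨h7, h8, h9, h10, h11, h12, h13⟩
    · obtain ⟨a1, a2, a3, a4, a5⟩ := h.lnk _ h5.2 _ h7
      refine ⟨b1, by omega, fun e1 => a3 ?_, fun hc => a4 (hsub hc), a5⟩
      rw [h5.1, h6.1, e1]
    · obtain ⟨c, hc⟩ : ∃ c, dg p (dg m k) = 2 + 2 * c := ⟨dg p (dg m k) / 2 - 1, by omega⟩
      obtain ⟨c', hc'⟩ : ∃ c, dg p (dg m l) = 2 + 2 * c := ⟨dg p (dg m l) / 2 - 1, by omega⟩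
      rw [hc, hc', tg_dir, tg_dir] at h11
      rw [hc, tg_dir] at h12
      obtain ⟨a1, a2, a3, a4⟩ := h.dir _ h5.2 _ hc
      obtain ⟨d1, d2, d3, d4⟩ := h.dir _ h6.2 _ hc'
      exact ⟨b1, by omega, h13, by rw [a3]; exact hnim _ (by omega) h12, by rw [a3, d3, h11]⟩

end EF18
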