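import Pool.Agent.Lib.MP_ef18bd_co.P.Gad
import Pool.Agent.Lib.MP_ef18bd_co.P.PcE

/-!
# Dead marked link vertices of pieces

`ML`: a list of pieces with marked ports. `bz ML G U`: the vertices outside `U` behind a marked port of a piece
in `U`. `bz_union`: superadditive. `bz_step`: the change in a step. `Pc.le_bz`: a closed piece. `zms`: the ports
of a pattern with such a vertex, from the pieces in a token. `dst`: the number of those which lose a neighbour.
-/

namespace EF18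

open Finset

variable {V : Type} [Fintype V] [DecidableEq V] {G : SimpleGraph V} [DecidableRel G.Adj]

/-- a piece and its marked ports -/
abbrev MPc := (ℕ × ℕ) × List ℕ

/-- the port `k` is shared, the other end is marked -/
def mkk (q : ℕ × ℕ) (ks : List ℕ) (k : ℕ) : Bool :=
  Nat.ble (k + 1) (3 * q.1) && isL (dg q.2 k) && ks.contains ((dg q.2 k - 3) / 2)

/-- the marked ports are shared, both ends are marked -/
def mkok (e : MPc) : Bool := wfp e.1 && e.2.all fun k => mkk e.1 e.2 k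

theorem mkok_wfp {e : MPc} (h : mkok e = true) : wfp e.1 = true := by
  unfold mkok at h
  rw [Bool.and_eq_true] at h
  exact h.1

theorem mkok_of {e : MPc} (h : mkok e = true) {k : ℕ} (hk : k ∈ e.2) : k < 3 * e.1.1 ∧
    ∃ l ∈ e.2, dg e.1.2 k = 3 + 2 * l := by
  unfold mkok at h
  rw [Bool.and_eq_true] at h
  have h1 := List.all_eq_true.1 h.2 k hk
  unfold mkk at h1
  rw [Bool.and_eq_true, Bool.and_eq_true, isL_iff] at h1
  obtain ⟨⟨h2, l, hl⟩, h3⟩ := h1
  rw [hl, show (3 + 2 * l - 3) / 2 = l by omega] at h3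
  exact ⟨Nat.le_of_ble_eq_true h2, l, List.contains_iff_mem.1 h3, hl⟩

/-- the vertex `z` outside `U` is behind a marked port of a piece in `U` -/
def BZ (ML : List MPc) (G : SimpleGraph V) (U : Finset V) (z : V) : Prop :=
  z ∉ U ∧ ∃ e ∈ ML, ∃ E ⊆ U, ∃ φ ν : ℕ → V, Emb G E e.1.1 e.1.2 φ ν ∧ (∀ x ∈ E, ∃ i < e.1.1, φ i = x) ∧
    ∃ k ∈ e.2, ν k = z

open scoped Classical in
/-- these vertices -/
noncomputable def bz (ML : List MPc) (G : SimpleGraph V) (U : Finset V) : Finset V :=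
  univ.filter (BZ ML G U)

omit [DecidableEq V] [DecidableRel G.Adj] in
theorem mem_bz {ML : List MPc} {U : Finset V} {z : V} : z ∈ bz ML G U ↔ BZ ML G U z := by
  simp [bz]

omit [Fintype V] [DecidableEq V] [DecidableRel G.Adj] in
/-- the two neighbours -/
theorem bz_two {ML : List MPc} (hML : ML.all mkok = true) {U : Finset V} {z : V} (hz : BZ ML G U z) :
    z ∉ U ∧ ∃ x ∈ U, ∃ y ∈ U, x ≠ y ∧ G.Adj z x ∧ G.Adj z y := by
  obtain ⟨h1, e, he, E, hE, φ, ν, h2, -, k, hk, rfl⟩ := hz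
  obtain ⟨a1, l, a2, a3⟩ := mkok_of (List.all_eq_true.1 hML e he) hk
  obtain ⟨b1, b2, b3, b4, b5⟩ := h2.lnk k a1 l a3
  have b6 := (h2.adj l b1).symm
  rw [b5] at b6
  exact ⟨h1, _, hE (h2.mem (k / 3) (by omega)), _, hE (h2.mem (l / 3) (by omega)),
    fun e => b3 (h2.inj _ (by omega) _ (by omega) e).symm, (h2.adj k a1).symm, b6⟩

theorem nU_le_two {U : Finset V} (hI : Inv G U) {z : V} (hz : z ∉ U) : nU G U z ≤ 2 :=
  (card_le_card (inter_subset_inter_right (fun _ hy =>
    mem_cn.2 (Or.inr ((SimpleGraph.mem_neighborFinset _ _ _).1 hy))))).trans (hI z hz)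

theorem two_le_nU {U : Finset V} {x y z : V} (hx : x ∈ U) (hy : y ∈ U) (hxy : x ≠ y) (h1 : G.Adj z x)
    (h2 : G.Adj z y) : 2 ≤ nU G U z := by
  unfold nU
  rw [← card_pair hxy]
  refine card_le_card fun t ht => ?_
  rw [mem_insert, mem_singleton] at ht
  rw [mem_inter, SimpleGraph.mem_neighborFinset]
  rcases ht with rfl | rfl
  · exact ⟨h1, hx⟩
  · exact ⟨h2, hy⟩

theorem bz_two_le {ML : List MPc} (hML : ML.all mkok = true) {U : Finset V} {z : V} (hz : z ∈ bz ML G U) :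
    2 ≤ nU G U z := by
  obtain ⟨-, x, hx, y, hy, h1, h2, h3⟩ := bz_two hML (mem_bz.1 hz)
  exact two_le_nU hx hy h1 h2 h3

theorem bz_nU {ML : List MPc} (hML : ML.all mkok = true) {U : Finset V} (hI : Inv G U) {z : V}
    (hz : z ∈ bz ML G U) : nU G U z = 2 :=
  Nat.le_antisymm (nU_le_two hI (mem_bz.1 hz).1) (bz_two_le hML hz)

theorem bz_empty {ML : List MPc} (hML : ML.all mkok = true) : bz ML G (∅ : Finset V) = ∅ := by
  rw [eq_empty_iff_forall_notMem]
  intro z hz
  have := bz_two_le hML hz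
  rw [nU_empty] at this
  omega

/-- a clean set has no dead marked link vertex -/
theorem bz_clean {ML : List MPc} {U : Finset V} (h : ∀ e ∈ ML, ∀ E ⊆ U, ¬ Pc G E e.1.1 e.1.2) :
    bz ML G U = ∅ := by
  rw [eq_empty_iff_forall_notMem]
  intro z hz
  obtain ⟨-, e, he, E, hE, φ, ν, h1, h2, -⟩ := mem_bz.1 hz
  exact h e he E hE ⟨φ, ν, h1, h2⟩

theorem bz_left {ML : List MPc} (hML : ML.all mkok = true) {A B : Finset V} (h : Sep G A B) {z : V}
    (hz : z ∈ bz ML G A) : z ∈ bz ML G (A ∪ B) := by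
  have h0 := bz_two_le hML hz
  obtain ⟨h1, e, he, E, hE, h2⟩ := mem_bz.1 hz
  refine mem_bz.2 ⟨fun hc => ?_, e, he, E, hE.trans subset_union_left, h2⟩
  rcases mem_union.1 hc with hc | hc
  · exact h1 hc
  · have := nU_eq_zero_of_mem h.symm hc
    omega

/-- the number is superadditive -/
theorem bz_union {ML : List MPc} (hML : ML.all mkok = true) {A B : Finset V} (h : Sep G A B) :
    (bz ML G A).card + (bz ML G B).card ≤ (bz ML G (A ∪ B)).card := by
  rw [← card_union_of_disjoint]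
  · refine card_le_card fun z hz => ?_
    rcases mem_union.1 hz with hz | hz
    · exact bz_left hML h hz
    · rw [union_comm]
      exact bz_left hML h.symm hz
  · rw [disjoint_left]
    intro z hz hz'
    have h1 := bz_two_le hML hz
    have h2 := bz_two_le hML hz'
    rcases h.nU_zero z with h0 | h0 <;> omega

open scoped Classical in
/-- **the change in a step** -/
theorem bz_step {ML : List MPc} (hML : ML.all mkok = true) {U' U : Finset V} (h : U' ⊆ U)
    (hI' : Inv G U') :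
    bz ML G U' ⊆ ((bz ML G U).filter fun z => nU G U' z = 2) ∪ ((cuts2 G U U').filter (BZ ML G U')) := by
  intro z hz
  have h2 := bz_nU hML hI' hz
  have hz' := mem_bz.1 hz
  obtain ⟨h1, e, he, E, hE, h3⟩ := hz'
  by_cases hzU : z ∈ U
  · refine mem_union_right _ (mem_filter.2 ⟨?_, mem_bz.1 hz⟩)
    unfold cuts2
    rw [mem_filter, mem_sdiff]
    exact ⟨⟨hzU, h1⟩, h2⟩
  · exact mem_union_left _ (mem_filter.2 ⟨mem_bz.2 ⟨hzU, e, he, E, hE.trans h, h3⟩, h2⟩)

open scoped Classical in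
/-- the numbers -/
theorem bz_step_card {ML : List MPc} (hML : ML.all mkok = true) {U' U : Finset V} (h : U' ⊆ U)
    (hI' : Inv G U') :
    (bz ML G U').card + ((bz ML G U).filter fun z => nU G U' z ≠ 2).card ≤
      (bz ML G U).card + ((cuts2 G U U').filter (BZ ML G U')).card := by
  have h2 := (card_le_card (bz_step hML h hI')).trans (card_union_le _ _)
  have h3 := card_filter_add_card_filter_not (s := bz ML G U) (fun z => nU G U' z = 2)
  have h4 : ((bz ML G U).filter fun z => ¬ nU G U' z = 2).card =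
      ((bz ML G U).filter fun z => nU G U' z ≠ 2).card := rfl
  omega

/-- the marked link vertices of a closed piece, each of them once -/
def mks (e : MPc) : Finset ℕ :=
  (range (3 * e.1.1)).filter fun k => k ∈ e.2 ∧ isL (dg e.1.2 k) = true ∧ k < (dg e.1.2 k - 3) / 2

/-- different shared ports have different ends -/
theorem Emb.lnk_inj {U : Finset V} (hI : Inv G U) {n p : ℕ} {φ ν : ℕ → V} (h : Emb G U n p φ ν)
    {k l k' l' : ℕ} (hk : k < 3 * n) (hl : dg p k = 3 + 2 * l) (hkl : k < l) (hk' : k' < 3 * n)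
    (hl' : dg p k' = 3 + 2 * l') (hkl' : k' < l') (e : ν k = ν k') : k = k' := by
  obtain ⟨b1, b2, b3, b4, b5⟩ := h.lnk k hk l hl
  have b6 := (h.adj l b1).symm
  rw [b5] at b6
  have t := hI.two b4 (h.mem (k / 3) (by omega)) (h.mem (l / 3) (by omega))
    (fun e => b3 (h.inj _ (by omega) _ (by omega) e).symm) (h.adj k hk).symm b6
    (y := φ (k' / 3)) (h.mem (k' / 3) (by omega))
    (by have := (h.adj k' hk').symm; rwa [← e] at this)
  rcases t with t | t
  · exact (h.pinj k' hk' k hk (h.inj _ (by omega) _ (by omega) t) e.symm).symm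
  · have h3 : k' = l := h.pinj k' hk' l b1 (h.inj _ (by omega) _ (by omega) t) (by rw [← e, b5])
    rw [h3, b2] at hl'
    omega

/-- **a closed piece**: every marked link vertex counts -/
theorem Pc.le_bz (hG : G.IsRegularOfDegree 3) {ML : List MPc} {e : MPc} (he : e ∈ ML) {E : Finset V}
    (hp : full1 e.1.1 e.1.2) (h : Pc G E e.1.1 e.1.2) : (mks e).card ≤ (bz ML G E).card := by
  classical
  have hI := Pc.inv hG hp h
  obtain ⟨φ, ν, h, hE⟩ := h
  have hlk : ∀ k ∈ mks e, k ∈ e.2 ∧ k < 3 * e.1.1 ∧ ∃ l, dg e.1.2 k = 3 + 2 * l ∧ k < l := by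
    intro k hk
    rw [mks, mem_filter, mem_range, isL_iff] at hk
    obtain ⟨hk, hk2, ⟨l, hl⟩, hlt⟩ := hk
    rw [hl] at hlt
    exact ⟨hk2, hk, l, hl, by omega⟩
  refine card_le_card_of_injOn ν (fun k hk => ?_) fun k hk k' hk' e' => ?_
  · rw [mem_coe] at hk ⊢
    obtain ⟨a1, a2, l, a3, a4⟩ := hlk k hk
    exact mem_bz.2 ⟨(h.lnk k a2 l a3).2.2.2.1, e, he, E, Subset.refl E, φ, ν, h, hE, k, a1, rfl⟩
  · rw [mem_coe] at hk hk'
    obtain ⟨-, a2, l, a3, a4⟩ := hlk k hk
    obtain ⟨-, b2, l', b3, b4⟩ := hlk k' hk'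
    exact h.lnk_inj hI a2 a3 a4 b2 b3 b4 e'

/-! ### a piece in a pattern, with the embedding -/

/-- the piece in the pattern, the embedding is given -/
theorem pc_emb' (hG : G.IsRegularOfDegree 3) {U : Finset V} (hI : Inv G U) {n p : ℕ} {q : ℕ × ℕ} {w m : ℕ}
    (hw : wfp q = true) (hr : pcok n p q w m = true) {φ ν : ℕ → V} (h : Emb G U n p φ ν) :
    Emb G (pim q m φ) q.1 q.2 (fun i => φ (dg m (3 * i) / 3)) (fun k => ν (dg m k)) ∧
      (∀ x ∈ pim q m φ, ∃ i < q.1, φ (dg m (3 * i) / 3) = x) ∧ pim q m φ ⊆ U ∧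
      ∀ k < 3 * q.1, dg m k < 3 * n := by
  unfold pcok at hr
  unfold wfp at hw
  rw [Bool.and_eq_true, Bool.and_eq_true] at hr
  rw [Bool.and_eq_true] at hw
  obtain ⟨⟨h2, hfl⟩, h3⟩ := hr
  obtain ⟨h1, hw⟩ := hw
  have hlt : q.2 < 256 ^ (3 * q.1) := Nat.le_of_ble_eq_true h1
  -- ports go to ports of the image
  have hport : ∀ k < 3 * q.1, dg m k / 3 = dg m (3 * (k / 3)) / 3 ∧ dg m k < 3 * n := by
    intro k hk
    obtain ⟨a1, a2, a3, a4, a5, a6, a7⟩ := rfn_of h2 (i := k / 3) (by omega)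
    have h4 : k = 3 * (k / 3) ∨ k = 3 * (k / 3) + 1 ∨ k = 3 * (k / 3) + 2 := by omega
    rcases h4 with h4 | h4 | h4
    · have h5 : dg m k = dg m (3 * (k / 3)) := by rw [← h4]
      exact ⟨by rw [h5], by omega⟩
    · have h5 : dg m k = dg m (3 * (k / 3) + 1) := by rw [← h4]
      exact ⟨by rw [h5, a3], by omega⟩
    · have h5 : dg m k = dg m (3 * (k / 3) + 2) := by rw [← h4]
      exact ⟨by rw [h5, a4], by omega⟩
  have hnode : ∀ i < q.1, ∀ j < q.1, dg m (3 * i) / 3 = dg m (3 * j) / 3 → i = j := by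
    intro i hi j hj e
    obtain ⟨-, a2, -⟩ := rfn_of h2 hi
    obtain ⟨-, b2, -⟩ := rfn_of h2 hj
    rw [e, b2] at a2
    exact a2.symm
  have hinj : ∀ k < 3 * q.1, ∀ l < 3 * q.1, k / 3 = l / 3 → dg m k = dg m l → k = l := by
    intro k hk l hl e e2
    obtain ⟨a1, a2, a3, a4, a5, a6, a7⟩ := rfn_of h2 (i := k / 3) (by omega)
    have h4 : k = 3 * (k / 3) ∨ k = 3 * (k / 3) + 1 ∨ k = 3 * (k / 3) + 2 := by omega
    have h5 : l = 3 * (k / 3) ∨ l = 3 * (k / 3) + 1 ∨ l = 3 * (k / 3) + 2 := by omega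
    obtain ⟨i, hi⟩ : ∃ i, i = k / 3 := ⟨_, rfl⟩
    rw [← hi] at h4 h5 a1 a2 a3 a4 a5 a6 a7
    rcases h4 with rfl | rfl | rfl <;> rcases h5 with rfl | rfl | rfl
    · rfl
    · exact absurd e2 a5
    · exact absurd e2 a6
    · exact absurd e2.symm a5
    · rfl
    · exact absurd e2 a7
    · exact absurd e2.symm a6
    · exact absurd e2.symm a7
    · rfl
  -- the image
  have him : ∀ x, x ∈ pim q m φ ↔ ∃ i < q.1, φ (dg m (3 * i) / 3) = x := by
    intro x
    unfold pim
    rw [mem_image]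
    constructor
    · rintro ⟨i, hi, e⟩
      exact ⟨i, mem_range.1 hi, e⟩
    · rintro ⟨i, hi, e⟩
      exact ⟨i, mem_range.2 hi, e⟩
  have hsub : pim q m φ ⊆ U := by
    intro x hx
    obtain ⟨i, hi, rfl⟩ := (him x).1 hx
    exact h.mem _ (rfn_of h2 hi).1
  have hnim : ∀ j < n, nim m j q.1 = true → φ j ∉ pim q m φ := by
    intro j hj h4 hc
    obtain ⟨i, hi, e⟩ := (him _).1 hc
    exact nim_of h4 hi (h.inj _ (rfn_of h2 hi).1 _ hj e)
  refine ⟨⟨fun i hi => (him _).2 ⟨i, hi, rfl⟩,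
    fun i hi j hj e => ?_, fun k hk => ?_, fun k hk l hl e1 e2 => ?_, fun k hk => dg_zero_of_lt hlt hk,
    fun k hk e => ?_, fun k hk l e => ?_, fun k hk l e => ?_⟩, fun x hx => (him x).1 hx, hsub,
    fun k hk => (hport k hk).2⟩
  · exact hnode i hi j hj (h.inj _ (rfn_of h2 hi).1 _ (rfn_of h2 hj).1 e)
  · beta_reduce
    have h5 := hport k hk
    rw [← h5.1]
    exact h.adj _ h5.2
  · have h5 := hport k hk
    have h6 := hport l hl
    refine hinj k hk l hl e1 (h.pinj _ h5.2 _ h6.2 ?_ e2)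
    rw [h5.1, h6.1, e1]
  · -- lonely for the piece
    have h4 := pds_of h3 hk
    rw [e] at h4
    obtain ⟨h5, h5'⟩ := hport k hk
    beta_reduce
    rcases pdok_one h4 with h6 | ⟨h6, h7, h8⟩
    · obtain ⟨b1, b2⟩ := h.dead _ h5' h6
      refine ⟨fun hc => b1 (hsub hc), fun y hy hya => ?_⟩
      rw [← h5]
      exact b2 y (hsub hy) hya
    · rcases digit_cases (dg p (dg m k)) with h0 | h0 | ⟨l, hl⟩ | ⟨l, hl⟩
      · omega
      · omega
      · obtain ⟨a1, a2, a3, a4⟩ := h.dir _ h5' l hl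
        rw [hl, tg_dir] at h7 h8
        have b1 := hnim _ (by omega) h7
        refine ⟨by rw [a3]; exact b1, fun y hy hya => ?_⟩
        obtain ⟨i, hi, rfl⟩ := (him y).1 hy
        by_contra hne
        have hik : i ≠ k / 3 := by
          rintro rfl
          exact hne rfl
        have h9 : oad p m (k / 3) (l / 3) q.1 = true := by
          rcases h8 with h8 | h8
          · omega
          · exact h8
        have h10 := oad_of h9 hi hik
        obtain ⟨c1, -⟩ := rfn_of h2 hi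
        obtain ⟨t, t1, t2, t3⟩ := h.surj hG c1 hya.symm
        rcases digit_cases (dg p t) with d0 | d0 | ⟨l', d0⟩ | ⟨l', d0⟩
        · exact full_iff.1 (pfl_of hfl hi) t t1 d0
        · exact (h.dead t t2 d0).1 (by rw [t3, a3]; exact h.mem _ (by omega))
        · obtain ⟨e1, -, e3, -⟩ := h.dir t t2 l' d0
          rw [t3, a3] at e3
          have e5 := h.inj _ (by omega) _ (by omega) e3
          have e6 : adjd p (dg m (3 * i) / 3) (l / 3) = true := by
            rw [e5, ← t1]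
            exact adjd_of d0
          rw [h10] at e6
          exact absurd e6 (by simp)
        · exact (h.lnk t t2 l' d0).2.2.2.1 (by rw [t3, a3]; exact h.mem _ (by omega))
      · obtain ⟨a1, a2, a3, a4, a5⟩ := h.lnk _ h5' l hl
        rw [hl, tg_lnk] at h7
        have b1 := hnim _ (by omega) h7
        refine ⟨fun hc => a4 (hsub hc), fun y hy hya => ?_⟩
        have c1 := h.adj _ a1
        rw [a5] at c1
        have c2 := h.adj _ h5'
        rcases hI.two a4 (h.mem (dg m k / 3) (by omega)) (h.mem (l / 3) (by omega))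
          (fun e => a3 (h.inj _ (by omega) _ (by omega) e).symm) c2.symm c1.symm (hsub hy) hya with e6 | e6
        · rw [e6, h5]
        · exact absurd (e6 ▸ hy) b1
  · obtain ⟨b1, b2⟩ := wfd_of hw hk (c := 0) (by omega) e
    have h5 := hport k hk
    have h6 := hport l b1
    have h4 := pds_of h3 hk
    rw [e] at h4
    obtain ⟨a1, a2, a3, a4⟩ := h.dir _ h5.2 _ (pdok_two h4)
    beta_reduce
    rw [← h5.1, ← h6.1]
    exact ⟨b1, b2, a3, a4⟩
  · obtain ⟨b1, b2⟩ := wfd_of hw hk (c := 1) (by omega) (by omega : dg q.2 k = 2 + 1 + 2 * l)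
    have h5 := hport k hk
    have h6 := hport l b1
    have h4 := pds_of h3 hk
    rw [e] at h4
    beta_reduce
    rcases pdok_three h4 with h7 | ⟨h7, h8, h9, h10, h11, h12, h13⟩
    · obtain ⟨a1, a2, a3, a4, a5⟩ := h.lnk _ h5.2 _ h7
      refine ⟨b1, by omega, fun e1 => a3 ?_, fun hc => a4 (hsub hc), a5⟩
      rw [h5.1, h6.1, e1]
    · obtain ⟨c, hc⟩ : ∃ c, dg p (dg m k) = 2 + 2 * c := ⟨dg p (dg m k) / 2 - 1, by omega⟩
      obtain ⟨c', hc'⟩ : ∃ c, dg p (dg m l) = 2 + 2 * c := ⟨dg p (dg m l) / 2 - 1, by omega⟩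
      rw [hc, hc', tg_dir, tg_dir] at h11
      rw [hc, tg_dir] at h12
      obtain ⟨a1, a2, a3, a4⟩ := h.dir _ h5.2 _ hc
      obtain ⟨d1, d2, d3, d4⟩ := h.dir _ h6.2 _ hc'
      exact ⟨b1, by omega, h13, by rw [a3]; exact hnim _ (by omega) h12, by rw [a3, d3, h11]⟩

/-! ### the dead marked link vertices in a pattern -/

/-- shared -/
def isl (d : ℕ) : Bool := Nat.ble 3 d && Nat.beq (Nat.mod d 2) 1

theorem isl_of {d : ℕ} (h : isl d = true) : ∃ l, d = 3 + 2 * l := by
  unfold isl at h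
  rw [Bool.and_eq_true] at h
  have h1 := Nat.le_of_ble_eq_true h.1
  have h2 : d % 2 = 1 := Nat.eq_of_beq_eq_true h.2
  exact ⟨(d - 3) / 2, by omega⟩

/-- the mask of the shared ports `dg m k`, for `k` in the list -/
def zmk (p m : ℕ) : List ℕ → ℕ
  | [] => 0
  | k :: ks => frc (dg m k) fun t => frc (zmk p m ks) fun r => bif isl (dg p t) then Nat.lor (Nat.pow 2 t) r else r

theorem zmk_of {p m t : ℕ} : ∀ {ks : List ℕ}, (zmk p m ks).testBit t = true →
    (∃ k ∈ ks, dg m k = t) ∧ ∃ c, dg p t = 3 + 2 * c := by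
  intro ks
  induction ks with
  | nil =>
    intro h
    rw [zmk, Nat.zero_testBit] at h
    exact absurd h (by simp)
  | cons k ks ih =>
    intro h
    rw [zmk, frc_eq, frc_eq] at h
    cases hc : isl (dg p (dg m k))
    · rw [hc, cond_false] at h
      obtain ⟨⟨j, h1, h2⟩, h3⟩ := ih h
      exact ⟨⟨j, List.mem_cons_of_mem _ h1, h2⟩, h3⟩
    · rw [hc, cond_true] at h
      change (2 ^ dg m k ||| zmk p m ks).testBit t = true at h
      rw [Nat.testBit_or, Bool.or_eq_true, Nat.testBit_two_pow, decide_eq_true_eq] at h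
      rcases h with h | h
      · rw [h] at hc
        exact ⟨⟨k, List.mem_cons_self, h⟩, isl_of hc⟩
      · obtain ⟨⟨j, h1, h2⟩, h3⟩ := ih h
        exact ⟨⟨j, List.mem_cons_of_mem _ h1, h2⟩, h3⟩

/-- the mask of the ports with a dead marked link vertex: the index in `ML` (6 bits), the inverse map on the
nodes (26 digits), the map of the ports (48 digits), the next piece -/
def zms (ML : List MPc) (n p : ℕ) : ℕ → ℕ → ℕ
  | _, 0 => 0
  | y, f + 1 => bif Nat.beq y 0 then 0 else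
      frc (Nat.div y 64) fun x => frc (Nat.div x (256 ^ 26)) fun x' =>
      frc (zms ML n p (Nat.div x' (256 ^ 48)) f) fun r =>
      frc (Nat.mod y 64) fun i => frc (Nat.mod x (256 ^ 26)) fun w => frc (Nat.mod x' (256 ^ 48)) fun m =>
      bif Nat.ble (Nat.succ i) ML.length && pcok n p (ML.getD i ((0, 0), [])).1 w m
      then Nat.lor (zmk p m (ML.getD i ((0, 0), [])).2) r else r

/-- **the mask is sound** -/
theorem zms_of (hG : G.IsRegularOfDegree 3) {ML : List MPc} (hML : ML.all mkok = true) {U : Finset V}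
    (hI : Inv G U) {n p : ℕ} {φ ν : ℕ → V} (h : Emb G U n p φ ν) :
    ∀ (f y t : ℕ), (zms ML n p y f).testBit t = true →
      t < 3 * n ∧ (∃ c, dg p t = 3 + 2 * c) ∧ ν t ∈ bz ML G U := by
  intro f
  induction f with
  | zero =>
    intro y t ht
    rw [zms, Nat.zero_testBit] at ht
    exact absurd ht (by simp)
  | succ f ih =>
    intro y t ht
    rw [zms] at ht
    cases hy : Nat.beq y 0
    swap
    · rw [hy, cond_true, Nat.zero_testBit] at ht
      exact absurd ht (by simp)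
    rw [hy, cond_false, frc_eq, frc_eq, frc_eq, frc_eq, frc_eq, frc_eq] at ht
    cases hc : Nat.ble (Nat.succ (Nat.mod y 64)) ML.length && pcok n p
      (ML.getD (Nat.mod y 64) ((0, 0), [])).1 (Nat.mod (Nat.div y 64) (256 ^ 26))
      (Nat.mod (Nat.div (Nat.div y 64) (256 ^ 26)) (256 ^ 48))
    · rw [hc, cond_false] at ht
      exact ih _ t ht
    rw [hc, cond_true] at ht
    obtain ⟨m, hm⟩ : ∃ m, m = Nat.mod (Nat.div (Nat.div y 64) (256 ^ 26)) (256 ^ 48) := ⟨_, rfl⟩
    obtain ⟨w, hw⟩ : ∃ w, w = Nat.mod (Nat.div y 64) (256 ^ 26) := ⟨_, rfl⟩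
    obtain ⟨e, he⟩ : ∃ e, e = ML.getD (Nat.mod y 64) ((0, 0), []) := ⟨_, rfl⟩
    rw [← hm, ← he] at ht
    rw [← hm, ← hw, ← he, Bool.and_eq_true] at hc
    obtain ⟨c1, c2⟩ := hc
    change (zmk p m e.2 ||| zms ML n p (Nat.div (Nat.div (Nat.div y 64) (256 ^ 26)) (256 ^ 48)) f).testBit t =
      true at ht
    rw [Nat.testBit_or, Bool.or_eq_true] at ht
    rcases ht with ht | ht
    swap
    · exact ih _ t ht
    have hlt : Nat.mod y 64 < ML.length := Nat.le_of_ble_eq_true c1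
    have hq : e ∈ ML := by
      rw [he, List.getD_eq_getElem _ _ hlt]
      exact List.getElem_mem hlt
    have hok := List.all_eq_true.1 hML e hq
    obtain ⟨⟨k, k1, rfl⟩, c, k3⟩ := zmk_of ht
    obtain ⟨d1, d2, d3, d4⟩ := pc_emb' hG hI (mkok_wfp hok) c2 h
    have k4 := (mkok_of hok k1).1
    refine ⟨d4 k k4, ⟨c, k3⟩, mem_bz.2 ⟨(h.lnk _ (d4 k k4) c k3).2.2.2.1, e, hq, _, d3, _, _, d1, d2, k, k1, rfl⟩⟩

/-- the port `t` with the digit `d` -/
def dstp (M t d : ℕ) : ℕ :=
  frc (Nat.div (Nat.sub d 3) 2) fun l =>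
    bif Nat.ble (Nat.succ t) l && (tb M (Nat.div t 3) || tb M (Nat.div l 3)) then 1 else 0

/-- the number of the ports in `MB`, the smaller one of each pair, with an end in `M` -/
def dst (n p M MB : ℕ) : ℕ := sm (fun t => bif tb MB t then dstp M t (dg p t) else 0) (Nat.mul 3 n)

/-- **the dead marked link vertices which lose a neighbour** -/
theorem Emb.dst_le {ML : List MPc} {U U' : Finset V} (hs : U' ⊆ U) (hI : Inv G U)
    {n p M MB : ℕ} {φ ν : ℕ → V} (h : Emb G U n p φ ν) (hM : ∀ i < n, (M.testBit i = true ↔ φ i ∉ U'))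
    (hMB : ∀ t, MB.testBit t = true → t < 3 * n ∧ (∃ c, dg p t = 3 + 2 * c) ∧ ν t ∈ bz ML G U) :
    dst n p M MB ≤ ((bz ML G U).filter fun z => nU G U' z ≠ 2).card := by
  classical
  obtain ⟨A, hA⟩ : ∃ A, A = (range (3 * n)).filter (fun t => MB.testBit t = true ∧
    ∃ l, dg p t = 3 + 2 * l ∧ t < l ∧ (M.testBit (t / 3) = true ∨ M.testBit (l / 3) = true)) := ⟨_, rfl⟩
  have h1 : dst n p M MB ≤ A.card := by
    unfold dst
    rw [sm_eq, hA, Finset.card_filter]
    refine sum_le_sum fun t _ => ?_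
    rw [tb_eq]
    cases hb : MB.testBit t
    · exact Nat.zero_le _
    · rw [cond_true]
      obtain ⟨-, ⟨l, hl⟩, -⟩ := hMB t hb
      unfold dstp
      rw [frc_eq, hl]
      change (bif Nat.ble (t + 1) ((3 + 2 * l - 3) / 2) &&
        (tb M (t / 3) || tb M ((3 + 2 * l - 3) / 2 / 3)) then 1 else 0) ≤ _
      rw [show (3 + 2 * l - 3) / 2 = l by omega, tb_eq, tb_eq]
      cases hc : Nat.ble (t + 1) l && (M.testBit (t / 3) || M.testBit (l / 3))
      · exact Nat.zero_le _
      · rw [Bool.and_eq_true, Bool.or_eq_true] at hc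
        rw [if_pos ⟨rfl, l, rfl, Nat.le_of_ble_eq_true hc.1, hc.2⟩]
        exact le_rfl
  refine h1.trans ?_
  have key : ∀ t ∈ A, t < 3 * n ∧ ν t ∈ bz ML G U ∧ ∃ l, dg p t = 3 + 2 * l ∧ t < l ∧
      (M.testBit (t / 3) = true ∨ M.testBit (l / 3) = true) := by
    intro t ht
    rw [hA, mem_filter, mem_range] at ht
    obtain ⟨ht, h2, l, hl, h3, h4⟩ := ht
    exact ⟨ht, (hMB t h2).2.2, l, hl, h3, h4⟩
  refine card_le_card_of_injOn ν (fun t ht => ?_) fun t ht t' ht' e => ?_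
  · rw [mem_coe] at ht ⊢
    obtain ⟨b1, b2, l, b3, b4, b5⟩ := key t ht
    obtain ⟨a1, a2, a3, a4, a5⟩ := h.lnk t b1 l b3
    have a6 := (h.adj l a1).symm
    rw [a5] at a6
    have a7 := (h.adj t b1).symm
    refine mem_filter.2 ⟨b2, ?_⟩
    have h3 := nU_le_two hI a4
    have h4 : nU G U' (ν t) < nU G U (ν t) := by
      unfold nU
      refine card_lt_card ⟨inter_subset_inter_left hs, fun hc => ?_⟩
      rcases b5 with b5 | b5
      · have h5 := hc (mem_inter.2 ⟨(SimpleGraph.mem_neighborFinset _ _ _).2 a7, h.mem (t / 3) (by omega)⟩)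
        exact (hM _ (by omega)).1 b5 (mem_inter.1 h5).2
      · have h5 := hc (mem_inter.2 ⟨(SimpleGraph.mem_neighborFinset _ _ _).2 a6, h.mem (l / 3) (by omega)⟩)
        exact (hM _ (by omega)).1 b5 (mem_inter.1 h5).2
    omega
  · rw [mem_coe] at ht ht'
    obtain ⟨b1, -, l, b3, b4, -⟩ := key t ht
    obtain ⟨c1, -, l', c3, c4, -⟩ := key t' ht'
    exact h.lnk_inj hI b1 b3 b4 c1 c3 c4 e

end EF18
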