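import Pool.Agent.Lib.MP_ef18bd_co.P.BonD

/-!
# The bonus for components with lonely outside neighbours

`kU`: the number of the lonely outside neighbours, `kS`: the same without the isolated members,
`be`: the bonus of a component, `Xs G (be b G)`: the bonus of a residual set. `kS_le`, `Xs_be`,
`frameB`: the frame with the bonus, `frame3`, `packing3`: the frame with a clean predicate.
-/

namespace EF18

open Finset

variable {V : Type} [Fintype V] [DecidableEq V] {G : SimpleGraph V} [DecidableRel G.Adj]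

theorem kS_ite (U : Finset V) : kS G U = ∑ x ∈ U, if x ∈ iso G U then 0 else n1 G U x := by
  unfold kS
  have h1 : iso G U ⊆ U := fun x hx => (mem_iso.1 hx).1
  rw [← sum_sdiff h1 (f := fun x => if x ∈ iso G U then 0 else n1 G U x)]
  rw [sum_eq_zero (s := iso G U) fun x hx => if_pos hx, add_zero]
  exact sum_congr rfl fun x hx => (if_neg (mem_sdiff.1 hx).2).symm

theorem n1_union {A B : Finset V} (h : Sep G A B) {x : V} (hx : x ∈ A) :
    n1 G (A ∪ B) x = n1 G A x := by
  unfold n1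
  congr 1
  ext y
  rw [mem_filter, mem_filter, mem_sdiff, mem_sdiff, mem_union, SimpleGraph.mem_neighborFinset]
  have h1 : G.Adj x y → y ∉ B := fun hxy hy => h x hx y hy (mem_B2_of_adj hxy)
  have h2 : G.Adj x y → nU G (A ∪ B) y = nU G A y := by
    intro hxy
    rw [nU_union h.disjoint]
    rcases h.nU_zero y with h3 | h3
    · exact absurd h3 (nU_ne_zero.2 ⟨x, hx, hxy.symm⟩)
    · rw [h3, add_zero]
  constructor
  · rintro ⟨⟨a1, a2⟩, a3⟩
    exact ⟨⟨a1, fun a4 => a2 (Or.inl a4)⟩, by rw [← h2 a1]; exact a3⟩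
  · rintro ⟨⟨a1, a2⟩, a3⟩
    exact ⟨⟨a1, fun a4 => a4.elim a2 (h1 a1)⟩, by rw [h2 a1]; exact a3⟩

theorem iso_union_mem {A B : Finset V} (h : Sep G A B) {x : V} (hx : x ∈ A) :
    x ∈ iso G (A ∪ B) ↔ x ∈ iso G A := by
  have e1 : nU G (A ∪ B) x = nU G A x := by
    rw [nU_union h.disjoint, nU_eq_zero_of_mem h hx, add_zero]
  rw [mem_iso, mem_iso, n1_union h hx, e1]
  exact ⟨fun h => ⟨hx, h.2⟩, fun h => ⟨mem_union_left _ hx, h.2⟩⟩

theorem kU_union {A B : Finset V} (h : Sep G A B) : kU G (A ∪ B) = kU G A + kU G B := by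
  unfold kU
  rw [sum_union h.disjoint, sum_congr rfl fun x hx => n1_union h hx]
  congr 1
  refine sum_congr rfl fun x hx => ?_
  rw [union_comm]
  exact n1_union h.symm hx

theorem kS_union {A B : Finset V} (h : Sep G A B) : kS G (A ∪ B) = kS G A + kS G B := by
  have key : ∀ {A B : Finset V}, Sep G A B → ∀ x ∈ A,
      (if x ∈ iso G (A ∪ B) then 0 else n1 G (A ∪ B) x) = if x ∈ iso G A then 0 else n1 G A x := by
    intro A B h x hx
    rw [n1_union h hx]
    by_cases h1 : x ∈ iso G A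
    · rw [if_pos h1, if_pos ((iso_union_mem h hx).2 h1)]
    · rw [if_neg h1, if_neg fun h2 => h1 ((iso_union_mem h hx).1 h2)]
  rw [kS_ite, kS_ite, kS_ite, sum_union h.disjoint, sum_congr rfl (key h)]
  congr 1
  refine sum_congr rfl fun x hx => ?_
  rw [union_comm]
  exact key h.symm x hx

/-- an isolated member is a component -/
theorem iso_sep (hG : G.IsRegularOfDegree 3) {U : Finset V} {x : V} (hx : x ∈ iso G U) :
    Sep G {x} (U \ {x}) := by
  obtain ⟨h1, h2⟩ := (iso_nbr hG).1 hx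
  intro a ha b hb hab
  rw [mem_singleton] at ha
  subst ha
  rw [mem_sdiff, mem_singleton] at hb
  obtain ⟨z, hz, hz2⟩ := mem_B2.1 hab
  rw [mem_cn] at hz hz2
  have e2 : ∀ z, G.Adj a z → G.Adj b z → False := fun z h3 h4 => by
    obtain ⟨c, hc⟩ := card_eq_one.1 (h2 z h3).2
    have m1 : a ∈ G.neighborFinset z ∩ U := mem_inter.2
      ⟨(SimpleGraph.mem_neighborFinset _ _ _).2 h3.symm, h1⟩
    have m2 : b ∈ G.neighborFinset z ∩ U := mem_inter.2
      ⟨(SimpleGraph.mem_neighborFinset _ _ _).2 h4.symm, hb.1⟩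
    rw [hc, mem_singleton] at m1 m2
    exact hb.2 (m2.trans m1.symm)
  rcases hz with rfl | hz
  · rcases hz2 with h3 | h3
    · exact hb.2 h3.symm
    · exact (h2 z h3.symm).1 hb.1
  · rcases hz2 with rfl | h3
    · exact (h2 b hz.symm).1 hb.1
    · exact e2 z h3.symm hz

theorem iso_con (hG : G.IsRegularOfDegree 3) {U : Finset V} (hc : Con G U) {x : V} (hx : x ∈ iso G U) :
    U = {x} :=
  (hc {x} (singleton_subset_iff.2 ((iso_nbr hG).1 hx).1) (singleton_nonempty x) (iso_sep hG hx)).symm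

/-- induction over components -/
theorem sep_induction {p : Finset V → Prop} (h0 : p ∅)
    (h1 : ∀ U : Finset V, U.Nonempty → Con G U → (∀ W, W ⊂ U → p W) → p U)
    (h2 : ∀ A B : Finset V, Sep G A B → p A → p B → p (A ∪ B)) : ∀ U : Finset V, p U := by
  intro U
  induction U using Finset.strongInduction with
  | H U ih =>
    rcases U.eq_empty_or_nonempty with rfl | ⟨v, hv⟩
    · exact h0
    · by_cases hc : cmp G U v = U
      · exact h1 U ⟨v, hv⟩ (hc ▸ cmp_con hv) ih
      · have e1 : cmp G U v ⊂ U := ⟨cmp_subset, fun h => hc (Subset.antisymm cmp_subset h)⟩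
        have e2 : U \ cmp G U v ⊂ U :=
          ⟨sdiff_subset, fun h => (mem_sdiff.1 (h hv)).2 (mem_cmp_self hv)⟩
        have e3 := h2 _ _ cmp_sep (ih _ e1) (ih _ e2)
        rwa [cmp_union] at e3

/-- the bonus of a residual set is at least the bonus of one component with all lonely neighbours -/
theorem kS_le (hG : G.IsRegularOfDegree 3) (b : ℕ) (U : Finset V) :
    b * min (kS G U) 2 ≤ Xs G (be b G) U := by
  induction U using sep_induction (G := G) with
  | h0 => simp [kS_ite]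
  | h1 U hne hc _ =>
    rw [Xs_con _ hne hc]
    unfold be
    split_ifs with h
    · refine Nat.mul_le_mul_left b (min_le_min_right 2 (le_of_eq ?_))
      unfold kS kU
      rw [h, sdiff_empty]
    · obtain ⟨x, hx⟩ := nonempty_iff_ne_empty.2 h
      have e := iso_con hG hc hx
      have e2 : kS G U = 0 := by
        rw [kS_ite]
        refine sum_eq_zero fun y hy => ?_
        rw [e, mem_singleton] at hy
        rw [hy, if_pos hx]
      rw [e2]
      simp
  | h2 A B h hA hB =>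
    rw [kS_union h, Xs_union _ h]
    refine le_trans ?_ (Nat.add_le_add hA hB)
    rw [← mul_add]
    refine Nat.mul_le_mul_left b ?_
    omega

/-- the bonus of a connected set without isolated member -/
theorem Xs_be (b : ℕ) {U : Finset V} (hne : U.Nonempty) (hc : Con G U) (hi : iso G U = ∅) :
    Xs G (be b G) U = b * min (kU G U) 2 := by
  rw [Xs_con _ hne hc]
  unfold be
  rw [if_pos hi]

theorem rem_ssubset {U : Finset V} {X : List V} (h1 : X ≠ []) (h2 : Picks G U X) : rem G U X ⊂ U := by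
  refine ⟨rem_subset, fun h => ?_⟩
  cases X with
  | nil => exact h1 rfl
  | cons v L => exact (mem_rem.1 (h h2.1)).2 v (List.mem_cons_self ..) self_mem_B2

/-- **the frame with the bonus** -/
theorem frameB (hG : G.IsRegularOfDegree 3) (Φ : Finset V → ℕ) (P b : ℕ) (Cl : Finset V → Prop)
    (hCl : ∀ A B, A ⊆ B → Cl B → Cl A)
    (hadd : ∀ A B : Finset V, Sep G A B → Φ A + Φ B ≤ Φ (A ∪ B))
    (h1 : ∀ x, x ∈ iso G {x} → P ≤ Φ {x})
    (hb : ∀ U : Finset V, Inv G U → U ≠ univ → U.Nonempty → Con G U → iso G U = ∅ → Cl U →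
      ∃ X : List V, X ≠ [] ∧ Picks G U X ∧ Φ (rem G U X) + P * X.length + b * min (kU G U) 2 ≤
        Φ U + b * min (kS G (rem G U X)) 2) :
    ∀ U : Finset V, Inv G U → U ≠ univ → Cl U →
      ∃ m, Has G U m ∧ P * m + Xs G (be b G) U ≤ Φ U := by
  intro U
  induction U using Finset.strongInduction with
  | H U ih =>
    intro hI hU hcl
    rcases U.eq_empty_or_nonempty with rfl | ⟨v, hv⟩
    · exact ⟨0, Has.empty, by rw [Xs_empty]; exact Nat.zero_le _⟩
    by_cases hc : cmp G U v = U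
    · have hcon : Con G U := hc ▸ cmp_con hv
      by_cases hi : iso G U = ∅
      · obtain ⟨X, a1, a2, a3⟩ := hb U hI hU ⟨v, hv⟩ hcon hi hcl
        obtain ⟨m, hm, hm2⟩ := ih _ (rem_ssubset a1 a2) (hI.rem hG) (ne_univ_of_subset rem_subset hU)
          (hCl _ _ rem_subset hcl)
        refine ⟨m + X.length, Has.picks a2 hm, ?_⟩
        have h3 := kS_le hG b (rem G U X)
        rw [Xs_be b ⟨v, hv⟩ hcon hi, mul_add]
        omega
      · obtain ⟨x, hx⟩ := nonempty_iff_ne_empty.2 hi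
        have e := iso_con hG hcon hx
        subst e
        refine ⟨1, Has.one (mem_singleton_self x) (singleton_subset_iff.2 self_mem_B2), ?_⟩
        rw [Xs_con _ ⟨v, hv⟩ hcon]
        unfold be
        rw [if_neg (ne_empty_of_mem hx)]
        have := h1 x hx
        omega
    · have e1 : cmp G U v ⊂ U := ⟨cmp_subset, fun h => hc (Subset.antisymm cmp_subset h)⟩
      have e2 : U \ cmp G U v ⊂ U :=
        ⟨sdiff_subset, fun h => (mem_sdiff.1 (h hv)).2 (mem_cmp_self hv)⟩
      have hs : Sep G (cmp G U v) (U \ cmp G U v) := cmp_sep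
      have hI1 : Inv G (cmp G U v) := Inv.of_sep hs (by rw [cmp_union]; exact hI)
      have hI2 : Inv G (U \ cmp G U v) := Inv.of_sep hs.symm (by rw [union_comm, cmp_union]; exact hI)
      obtain ⟨m1, b1, b2⟩ := ih _ e1 hI1 (ne_univ_of_subset e1.1 hU) (hCl _ _ e1.1 hcl)
      obtain ⟨m2, c1, c2⟩ := ih _ e2 hI2 (ne_univ_of_subset e2.1 hU) (hCl _ _ e2.1 hcl)
      refine ⟨m1 + m2, ?_, ?_⟩
      · have := Has.sep hs b1 c1
        rwa [cmp_union] at this
      · have e3 := hadd _ _ hs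
        have e4 := Xs_union (be b G) hs
        rw [cmp_union] at e3 e4
        rw [e4, mul_add]
        omega

theorem PsiT_single {w : TF} {dl : ℕ} {x : V} (hx : x ∈ iso G ({x} : Finset V)) :
    PsiT (w.iso dl) G {x} = w.F 0 3 + dl := by
  obtain ⟨-, h1, h2⟩ := mem_iso.1 hx
  unfold PsiT TF.iso
  rw [sum_singleton, h1, h2]
  simp

/-- the frame with the bonus for the potential by types with a charge for isolated members -/
theorem frameB' (hG : G.IsRegularOfDegree 3) {w : TF} {dl P b : ℕ} (hP : P ≤ w.F 0 3 + dl)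
    (Cl : Finset V → Prop) (hCl : ∀ A B, A ⊆ B → Cl B → Cl A)
    (hb : ∀ U : Finset V, Inv G U → U ≠ univ → U.Nonempty → Con G U → iso G U = ∅ → Cl U →
      ∃ c, c ≠ 0 ∧ GoodB w dl P b G U c) :
    ∀ U : Finset V, Inv G U → U ≠ univ → Cl U →
      ∃ m, Has G U m ∧ P * m + Xs G (be b G) U ≤ PsiT (w.iso dl) G U := by
  refine frameB hG (PsiT (w.iso dl) G) P b Cl hCl (fun A B h => (PsiT_union _ h).ge)
    (fun x hx => hP.trans (PsiT_single hx).ge) fun U a1 a2 a3 a4 a5 a6 => ?_
  obtain ⟨c, hc, X, c1, c2, c3⟩ := hb U a1 a2 a3 a4 a5 a6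
  exact ⟨X, fun e => hc (by rw [← c1, e]; rfl), c2, c3⟩

/-! ### the frame with a clean predicate -/

/-- the frame: clean states are given, `Bad` sets are handled one by one -/
theorem frame3 (hG : G.IsRegularOfDegree 3) (Ψ : Finset V → ℕ) (P : ℕ) (d : Finset V → ℕ)
    (Bad : Finset V → Prop)
    (hadd : ∀ A B : Finset V, Sep G A B → Ψ A + Ψ B ≤ Ψ (A ∪ B))
    (hcl : ∀ U : Finset V, Inv G U → U ≠ univ → (∀ E ⊆ U, ¬ Bad E) → ∃ m, Has G U m ∧ P * m ≤ Ψ U)
    (hd : ∀ E, Bad E → E.Nonempty ∧ Con G E)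
    (hk : ∀ E : Finset V, Inv G E → E ≠ univ → Bad E → ∃ t, Has G E t ∧ P * t ≤ Ψ E + d E)
    (ha : ∀ U E : Finset V, Inv G U → U ≠ univ → E ⊆ U → Bad E → ¬ Sep G E (U \ E) →
      ∃ L : List V, L ≠ [] ∧ Picks G U L ∧
        Ψ (rem G U L) + Xs G d (rem G U L) + P * L.length ≤ Ψ U + Xs G d U) :
    ∀ U : Finset V, Inv G U → U ≠ univ → ∃ m, Has G U m ∧ P * m ≤ Ψ U + Xs G d U := by
  intro U
  induction U using Finset.strongInduction with
  | H U ih =>
    intro hI hU
    by_cases hc : ∀ E ⊆ U, ¬ Bad E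
    · obtain ⟨m, h1, h2⟩ := hcl U hI hU hc
      exact ⟨m, h1, h2.trans (Nat.le_add_right _ _)⟩
    · push Not at hc
      obtain ⟨E, hEU, hE⟩ := hc
      by_cases hs : Sep G E (U \ E)
      · obtain ⟨hne, hcon⟩ := hd E hE
        have hun : E ∪ (U \ E) = U := union_sdiff_of_subset hEU
        have hlt : U \ E ⊂ U := by
          obtain ⟨x, hx⟩ := hne
          exact ⟨sdiff_subset, fun h => (mem_sdiff.1 (h (hEU hx))).2 hx⟩
        have hI1 : Inv G E := Inv.of_sep hs (by rw [hun]; exact hI)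
        have hI2 : Inv G (U \ E) := Inv.of_sep hs.symm (by rw [union_comm, hun]; exact hI)
        obtain ⟨t, ht, ht2⟩ := hk E hI1 (ne_univ_of_subset hEU hU) hE
        obtain ⟨m, hm, hm2⟩ := ih _ hlt hI2 (ne_univ_of_subset sdiff_subset hU)
        refine ⟨t + m, ?_, ?_⟩
        · have := Has.sep hs ht hm
          rwa [hun] at this
        · have e1 := hadd _ _ hs
          have e2 := Xs_union d hs
          rw [hun] at e1 e2
          rw [Xs_con d hne hcon] at e2
          rw [mul_add]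
          omega
      · obtain ⟨L, h1, h2, h3⟩ := ha U E hI hU hEU hE hs
        obtain ⟨m, hm, hm2⟩ := ih _ (rem_ssubset h1 h2) (hI.rem hG) (ne_univ_of_subset rem_subset hU)
        refine ⟨m + L.length, Has.picks h2 hm, ?_⟩
        rw [mul_add]
        omega

/-- **the packing bound**, clean states are given, linear majorant -/
theorem packing3 (hG : G.IsRegularOfDegree 3) [hV : Nonempty V] (w : TF) (K : ℕ)
    (hK : 0 < K) (d : Finset V → ℕ) (Bad : Finset V → Prop) {p2 p1 f2 f1 κ : ℕ} (hκ : 6 * κ ≤ 9 * K)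
    (hF : ∀ a c, a + c ≤ 3 → w.F a c ≤ 3 * K + (3 - a - c) * p2 + c * p1)
    (h2 : 2 * p2 + f2 ≤ 3 * K + κ) (h1 : p1 + f1 ≤ 3 * K + κ)
    (hf : ∀ C : Finset V, d C ≤ ∑ p ∈ univ \ C, ch f2 f1 (nU G C p))
    (hcl : ∀ U : Finset V, Inv G U → U ≠ univ → (∀ E ⊆ U, ¬ Bad E) →
      ∃ m, Has G U m ∧ 14 * K * m ≤ PsiT w G U)
    (hd : ∀ E, Bad E → E.Nonempty ∧ Con G E)
    (hk : ∀ E : Finset V, Inv G E → E ≠ univ → Bad E →
      ∃ t, Has G E t ∧ 14 * K * t ≤ PsiT w G E + d E)
    (ha : ∀ U E : Finset V, Inv G U → U ≠ univ → E ⊆ U → Bad E → ¬ Sep G E (U \ E) →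
      ∃ L : List V, L ≠ [] ∧ Picks G U L ∧
        PsiT w G (rem G U L) + Xs G d (rem G U L) + 14 * K * L.length ≤ PsiT w G U + Xs G d U) :
    ∃ S : Finset V, Pk G S ∧ Mx G univ S ∧ 14 * S.card ≤ 3 * Fintype.card V + 11 := by
  obtain ⟨v⟩ := hV
  have hI : Inv G (univ : Finset V) := fun x hx => absurd (mem_univ x) hx
  have hne : (univ : Finset V) \ B2 G v ≠ univ := fun h => by
    have := mem_univ v
    rw [← h, mem_sdiff] at this
    exact this.2 self_mem_B2
  obtain ⟨m, hm, hm2⟩ := frame3 hG (PsiT w G) (14 * K) d Bad (fun A B h => (PsiT_union w h).ge) hcl hd hk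
    ha _ (hI.pick hG v) hne
  obtain ⟨S, a1, a2, a3⟩ := (Has.pick (mem_univ v) hm).packing
  refine ⟨S, a1, a2, ?_⟩
  have e0 : (linTF (3 * K) p2 p1).F 3 0 = 3 * K := by simp [linTF]
  have h3 := PsiT_first hG (linTF (3 * K) p2 p1) (f2 := f2) (f1 := f1) (κ := κ)
    (by rw [e0]; exact h2) (by rw [e0]; exact h1) v
  have h4 := Xs_out d (G := G) (U := univ \ B2 G v) (f2 := f2) (f1 := f1) (fun C _ => hf C)
  have h5 : PsiT w G (univ \ B2 G v) ≤ PsiT (linTF (3 * K) p2 p1) G (univ \ B2 G v) :=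
    PsiT_le hG hF (hI.pick hG v)
  rw [e0] at h3
  have h6 : K * (14 * (m + 1)) ≤ K * (3 * Fintype.card V + 11) := by
    have e1 : K * (14 * (m + 1)) = 14 * K * m + 14 * K := by ring
    have e2 : K * (3 * Fintype.card V + 11) = 3 * K * Fintype.card V + 11 * K := by ring
    rw [e1, e2]
    omega
  have h7 := Nat.le_of_mul_le_mul_left h6 hK
  omega

end EF18
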