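import Pool.Agent.Lib.MP_ef18bd_co.P.Leaf

/-!
# The frame: clean states, from the local step to the packing bound
-/

namespace EF18

open Finset

variable {V : Type} [Fintype V] [DecidableEq V] {G : SimpleGraph V} [DecidableRel G.Adj]

/-- the live vertices: members of `U` and their neighbours -/
def liveS (G : SimpleGraph V) [DecidableRel G.Adj] (U : Finset V) : Finset V :=
  univ.filter (fun x => x ∈ U ∨ nU G U x ≠ 0)

/-- the live vertices outside `U` -/
def outS (G : SimpleGraph V) [DecidableRel G.Adj] (U : Finset V) : Finset V :=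
  univ.filter (fun x => x ∉ U ∧ nU G U x ≠ 0)

/-- the vertices outside `U` with one neighbour in `U` -/
def oneS (G : SimpleGraph V) [DecidableRel G.Adj] (U : Finset V) : Finset V :=
  univ.filter (fun x => x ∉ U ∧ nU G U x = 1)

theorem mem_liveS {U : Finset V} {x : V} : x ∈ liveS G U ↔ x ∈ U ∨ nU G U x ≠ 0 := by
  simp [liveS]

theorem mem_outS {U : Finset V} {x : V} : x ∈ outS G U ↔ x ∉ U ∧ nU G U x ≠ 0 := by
  simp [outS]

theorem mem_oneS {U : Finset V} {x : V} : x ∈ oneS G U ↔ x ∉ U ∧ nU G U x = 1 := by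
  simp [oneS]

theorem nU_empty (x : V) : nU G (∅ : Finset V) x = 0 := by simp [nU]

theorem nU_ne_zero {U : Finset V} {x : V} : nU G U x ≠ 0 ↔ ∃ y ∈ U, G.Adj x y := by
  unfold nU
  rw [card_ne_zero]
  constructor
  · rintro ⟨y, hy⟩
    rw [mem_inter, SimpleGraph.mem_neighborFinset] at hy
    exact ⟨y, hy.2, hy.1⟩
  · rintro ⟨y, h1, h2⟩
    exact ⟨y, by rw [mem_inter, SimpleGraph.mem_neighborFinset]; exact ⟨h2, h1⟩⟩

/-- three units for every live vertex -/
def w3 : Wts := ⟨3, 3, 3, le_refl _, le_refl _⟩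

theorem Psi_w3 (U : Finset V) : Psi w3 G U = 3 * (liveS G U).card := by
  unfold Psi liveS
  rw [card_filter, mul_sum]
  refine sum_congr rfl fun x _ => ?_
  unfold wt Wts.out w3
  by_cases h1 : x ∈ U
  · simp [h1]
  · by_cases h2 : nU G U x = 0
    · simp [h1, h2]
    · by_cases h3 : nU G U x = 1
      · simp [h1, h3]
      · simp [h1, h2, h3]

theorem liveS_empty : liveS G (∅ : Finset V) = ∅ := by
  rw [eq_empty_iff_forall_notMem]
  intro x hx
  rcases mem_liveS.1 hx with h | h
  · exact notMem_empty x h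
  · exact h (nU_empty x)

theorem oneS_empty : oneS G (∅ : Finset V) = ∅ := by
  rw [eq_empty_iff_forall_notMem]
  intro x hx
  have := (mem_oneS.1 hx).2
  rw [nU_empty] at this
  omega

theorem live_union {A B : Finset V} (h : Sep G A B) :
    (liveS G (A ∪ B)).card = (liveS G A).card + (liveS G B).card := by
  have := Psi_union w3 h
  rw [Psi_w3, Psi_w3, Psi_w3] at this
  omega

theorem out_union {A B : Finset V} (h : Sep G A B) :
    (outS G A).card + (outS G B).card ≤ (outS G (A ∪ B)).card := by
  rw [← card_union_of_disjoint]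
  · refine card_le_card fun x hx => ?_
    rw [mem_outS, nU_union h.disjoint]
    rcases mem_union.1 hx with hx | hx
    · obtain ⟨h1, h2⟩ := mem_outS.1 hx
      refine ⟨fun h3 => ?_, by omega⟩
      rcases mem_union.1 h3 with h3 | h3
      · exact h1 h3
      · exact h2 (nU_eq_zero_of_mem h.symm h3)
    · obtain ⟨h1, h2⟩ := mem_outS.1 hx
      refine ⟨fun h3 => ?_, by omega⟩
      rcases mem_union.1 h3 with h3 | h3
      · exact h2 (nU_eq_zero_of_mem h h3)
      · exact h1 h3
  · rw [disjoint_left]
    intro x hx hx'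
    rcases h.nU_zero x with h0 | h0
    · exact (mem_outS.1 hx).2 h0
    · exact (mem_outS.1 hx').2 h0

omit [DecidableEq V] in
theorem ne_univ_of_subset {U' U : Finset V} (h : U' ⊆ U) (hU : U ≠ univ) : U' ≠ univ := fun e =>
  hU (eq_univ_iff_forall.2 fun x => h (e ▸ mem_univ x))

/-- clean states: the induction with lists of picks -/
theorem clean_bound (hG : G.IsRegularOfDegree 3) (Clean : Finset V → Prop)
    (hstep : ∀ U : Finset V, Inv G U → U ≠ univ → U.Nonempty → Clean U →
      ∃ L : List V, L ≠ [] ∧ Picks G U L ∧ Clean (rem G U L) ∧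
        14 * L.length + 3 * (liveS G (rem G U L)).card + min (oneS G U).card 2 ≤
          3 * (liveS G U).card + min (oneS G (rem G U L)).card 2) :
    ∀ U : Finset V, Inv G U → U ≠ univ → Clean U →
      ∃ m, Has G U m ∧ 14 * m + min (oneS G U).card 2 ≤ 3 * (liveS G U).card := by
  intro U
  induction U using Finset.strongInduction with
  | H U ih =>
    intro hI hU hc
    rcases U.eq_empty_or_nonempty with rfl | hne
    · refine ⟨0, Has.empty, ?_⟩
      rw [oneS_empty]
      simp
    · obtain ⟨L, h1, h2, h3, h4⟩ := hstep U hI hU hne hc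
      have hlt : rem G U L ⊂ U := by
        refine ⟨rem_subset, fun h => ?_⟩
        cases L with
        | nil => exact h1 rfl
        | cons v L => exact (mem_rem.1 (h h2.1)).2 v (List.mem_cons_self ..) self_mem_B2
      obtain ⟨m, hm, hm2⟩ := ih _ hlt (hI.rem hG) (ne_univ_of_subset rem_subset hU) h3
      refine ⟨m + L.length, Has.picks h2 hm, ?_⟩
      omega

/-- arbitrary states: exceptional components are paid by their outer vertices -/
theorem all_bound (Clean : Finset V → Prop)
    (hclean : ∀ U : Finset V, Inv G U → U ≠ univ → Clean U →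
      ∃ m, Has G U m ∧ 14 * m ≤ 3 * (liveS G U).card)
    (hexc : ∀ U : Finset V, Inv G U → U ≠ univ → ¬ Clean U → ∃ C ⊆ U, C.Nonempty ∧ Sep G C (U \ C) ∧
      ∃ t, Has G C t ∧ 14 * t ≤ 3 * (liveS G C).card + (outS G C).card) :
    ∀ U : Finset V, Inv G U → U ≠ univ →
      ∃ m, Has G U m ∧ 14 * m ≤ 3 * (liveS G U).card + (outS G U).card := by
  intro U
  induction U using Finset.strongInduction with
  | H U ih =>
    intro hI hU
    by_cases hc : Clean U
    · obtain ⟨m, h1, h2⟩ := hclean U hI hU hc
      exact ⟨m, h1, by omega⟩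
    · obtain ⟨C, hCU, hne, hs, t, ht, ht2⟩ := hexc U hI hU hc
      have hun : C ∪ (U \ C) = U := union_sdiff_of_subset hCU
      have hlt : U \ C ⊂ U := by
        obtain ⟨x, hx⟩ := hne
        exact ⟨sdiff_subset, fun h => (mem_sdiff.1 (h (hCU hx))).2 hx⟩
      have hI2 : Inv G (U \ C) := Inv.of_sep hs.symm (by rw [union_comm, hun]; exact hI)
      obtain ⟨m, hm, hm2⟩ := ih _ hlt hI2 (ne_univ_of_subset sdiff_subset hU)
      refine ⟨t + m, ?_, ?_⟩
      · have := Has.sep hs ht hm
        rwa [hun] at this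
      · have h1 := live_union hs
        have h2 := out_union hs
        rw [hun] at h1 h2
        omega

theorem live_first (hG : G.IsRegularOfDegree 3) (v : V) :
    (liveS G (univ \ B2 G v)).card + 4 ≤ Fintype.card V := by
  have h1 : liveS G (univ \ B2 G v) ⊆ univ \ cn G v := by
    intro x hx
    rw [mem_sdiff]
    refine ⟨mem_univ _, fun hxv => ?_⟩
    rcases mem_liveS.1 hx with h | h
    · exact (mem_sdiff.1 h).2 (mem_B2.2 ⟨v, self_mem_cn, hxv⟩)
    · obtain ⟨y, hy, hxy⟩ := nU_ne_zero.1 h
      exact (mem_sdiff.1 hy).2 (mem_B2.2 ⟨x, hxv, mem_cn.2 (Or.inr hxy)⟩)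
  have h2 := card_le_card h1
  have h3 := card_sdiff_add_card_eq_card (subset_univ (cn G v))
  rw [cn_card hG, card_univ] at h3
  omega

theorem out_first (hG : G.IsRegularOfDegree 3) (v : V) : (outS G (univ \ B2 G v)).card ≤ 6 := by
  have h1 : outS G (univ \ B2 G v) ⊆ (G.neighborFinset v).biUnion (fun y => (G.neighborFinset y).erase v) := by
    intro x hx
    obtain ⟨h2, h3⟩ := mem_outS.1 hx
    have h4 : x ∈ B2 G v := by
      by_contra h
      exact h2 (mem_sdiff.2 ⟨mem_univ _, h⟩)
    have h5 : x ∉ cn G v := by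
      intro h
      obtain ⟨y, hy, hxy⟩ := nU_ne_zero.1 h3
      exact (mem_sdiff.1 hy).2 (mem_B2.2 ⟨x, h, mem_cn.2 (Or.inr hxy)⟩)
    obtain ⟨y, hy, hyx⟩ := mem_B2.1 h4
    rw [mem_biUnion]
    rw [mem_cn] at hy hyx
    rcases hy with rfl | hy
    · exact absurd (mem_cn.2 hyx) h5
    · rcases hyx with rfl | hyx
      · exact absurd (mem_cn.2 (Or.inr hy)) h5
      · refine ⟨y, by rwa [SimpleGraph.mem_neighborFinset], ?_⟩
        rw [mem_erase, SimpleGraph.mem_neighborFinset]
        exact ⟨fun e => h5 (e ▸ self_mem_cn), hyx⟩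
  refine (card_le_card h1).trans (card_biUnion_le.trans ?_)
  have h2 : ∀ y ∈ G.neighborFinset v, ((G.neighborFinset y).erase v).card = 2 := by
    intro y hy
    rw [SimpleGraph.mem_neighborFinset] at hy
    rw [card_erase_of_mem (by rw [SimpleGraph.mem_neighborFinset]; exact hy.symm), nbr_card hG]
  rw [sum_congr rfl h2, sum_const, nbr_card hG]
  norm_num

/-- from the local step to the packing bound, for one graph -/
theorem packing_of_steps (hG : G.IsRegularOfDegree 3) [hV : Nonempty V] (Clean : Finset V → Prop)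
    (hstep : ∀ U : Finset V, Inv G U → U ≠ univ → U.Nonempty → Clean U →
      ∃ L : List V, L ≠ [] ∧ Picks G U L ∧ Clean (rem G U L) ∧
        14 * L.length + 3 * (liveS G (rem G U L)).card + min (oneS G U).card 2 ≤
          3 * (liveS G U).card + min (oneS G (rem G U L)).card 2)
    (hexc : ∀ U : Finset V, Inv G U → U ≠ univ → ¬ Clean U → ∃ C ⊆ U, C.Nonempty ∧ Sep G C (U \ C) ∧
      ∃ t, Has G C t ∧ 14 * t ≤ 3 * (liveS G C).card + (outS G C).card) :
    ∃ S : Finset V, Pk G S ∧ Mx G univ S ∧ 14 * S.card ≤ 3 * Fintype.card V + 11 := by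
  obtain ⟨v⟩ := hV
  have hI : Inv G (univ : Finset V) := fun x hx => absurd (mem_univ x) hx
  have hne : (univ : Finset V) \ B2 G v ≠ univ := fun h => by
    have := mem_univ v
    rw [← h, mem_sdiff] at this
    exact this.2 self_mem_B2
  obtain ⟨m, hm, hm2⟩ := all_bound Clean (fun U h1 h2 h3 => by
    obtain ⟨m, a, b⟩ := clean_bound hG Clean hstep U h1 h2 h3
    exact ⟨m, a, by omega⟩) hexc _ (hI.pick hG v) hne
  obtain ⟨S, h1, h2, h3⟩ := (Has.pick (mem_univ v) hm).packing
  refine ⟨S, h1, h2, ?_⟩
  have h4 := live_first hG v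
  have h5 := out_first hG v
  omega

/-- the comparison follows from the packing bound for the connected components; `Q` is any property
which the components inherit -/
theorem compare_of_class (Q : ∀ {W : Type}, SimpleGraph W → Prop)
    (h : ∀ (W : Type) [Fintype W] [DecidableEq W] (H : SimpleGraph W) [DecidableRel H.Adj],
      H.IsRegularOfDegree 3 → H.Connected → Q H →
      ∃ S : Finset W, Pk H S ∧ Mx H univ S ∧ 14 * S.card ≤ 3 * Fintype.card W + 11)
    (hG : G.IsRegularOfDegree 3)
    (hQ : ∀ k : G.ConnectedComponent,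
      Q (G.comap (Subtype.val : {v : V // G.connectedComponentMk v = k} → V))) :
    upperMinus G ≤ upperSigned G := by
  classical
  obtain ⟨f, hf, hw⟩ := (attained hG).1
  have hc : ∀ u v, G.Adj u v → G.connectedComponentMk u = G.connectedComponentMk v := fun u v huv =>
    SimpleGraph.ConnectedComponent.connectedComponentMk_eq_of_adj huv
  obtain ⟨S, hp, hm, h1⟩ := glue (c := G.connectedComponentMk) hc (f := f) (fun k => by
    refine packing_le (reg_part hG hc k) (h _ (part G G.connectedComponentMk k) (reg_part hG hc k) ?_ (hQ k))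
      (minus_part hc hf k)
    exact SimpleGraph.ConnectedComponent.connected_toSimpleGraph k)
  have h2 := le_upperSigned hG hp hm
  omega

end EF18
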