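import Pool.Agent.Lib.MP_ef18bd_co.P.Typ
import Pool.Agent.Lib.MP_ef18bd_co.P.Frame

/-!
# The frame with exceptional components

`comps`: the components of a residual set, `Xs`: the sum of the deficits of the components.
`Xs_step`: the creation of exceptional components is paid by the removed vertices with surviving
neighbours. `frameT`: clean states, exceptional components, states which contain an exceptional set
which is not a component. `packingT`: the packing bound.
-/

namespace EF18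

open Finset

variable {V : Type} [Fintype V] [DecidableEq V] {G : SimpleGraph V} [DecidableRel G.Adj]

/-- the components -/
noncomputable def comps (G : SimpleGraph V) [DecidableRel G.Adj] (U : Finset V) : Finset (Finset V) :=
  U.image (cmp G U)

/-- the sum of the deficits of the components -/
noncomputable def Xs (G : SimpleGraph V) [DecidableRel G.Adj] (d : Finset V → ℕ) (U : Finset V) : ℕ :=
  ∑ C ∈ comps G U, d C

theorem mem_comps {U C : Finset V} :
    C ∈ comps G U ↔ C.Nonempty ∧ C ⊆ U ∧ Sep G C (U \ C) ∧ Con G C := by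
  unfold comps
  rw [mem_image]
  constructor
  · rintro ⟨v, hv, rfl⟩
    exact ⟨⟨v, mem_cmp_self hv⟩, cmp_subset, cmp_sep, cmp_con hv⟩
  · rintro ⟨⟨v, hv⟩, h1, h2, h3⟩
    refine ⟨v, h1 hv, ?_⟩
    have h4 : cmp G U v ⊆ C := cmp_min h1 hv h2
    exact h3 _ h4 ⟨v, mem_cmp_self (h1 hv)⟩
      (cmp_sep.mono (Subset.refl _) (sdiff_subset_sdiff h1 (Subset.refl _)))

/-- two members near each other are in the same component -/
theorem comps_near {U C : Finset V} (hC : C ∈ comps G U) {a b : V} (ha : a ∈ C) (hb : b ∈ U)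
    (hab : a ∈ B2 G b) : b ∈ C := by
  by_contra h
  exact (mem_comps.1 hC).2.2.1 a ha b (mem_sdiff.2 ⟨hb, h⟩) hab

theorem comps_eq {U C C' : Finset V} (hC : C ∈ comps G U) (hC' : C' ∈ comps G U) {a : V} (ha : a ∈ C)
    (ha' : a ∈ C') : C = C' := by
  obtain ⟨-, h1, h2, h3⟩ := mem_comps.1 hC
  obtain ⟨-, k1, k2, k3⟩ := mem_comps.1 hC'
  have e1 : C ∩ C' = C := h3 _ inter_subset_left ⟨a, mem_inter.2 ⟨ha, ha'⟩⟩
    (k2.mono inter_subset_right (fun x hx => by
      rw [mem_sdiff, mem_inter] at hx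
      exact mem_sdiff.2 ⟨h1 hx.1, fun h => hx.2 ⟨hx.1, h⟩⟩))
  have e2 : C ∩ C' = C' := k3 _ inter_subset_right ⟨a, mem_inter.2 ⟨ha, ha'⟩⟩
    (h2.mono inter_subset_left (fun x hx => by
      rw [mem_sdiff, mem_inter] at hx
      exact mem_sdiff.2 ⟨k1 hx.1, fun h => hx.2 ⟨h, hx.1⟩⟩))
  rw [← e1, e2]

/-- a vertex has neighbours in one component at most -/
theorem comps_nU {U C C' : Finset V} (hC : C ∈ comps G U) (hC' : C' ∈ comps G U) {y : V}
    (h : nU G C y ≠ 0) (h' : nU G C' y ≠ 0) : C = C' := by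
  obtain ⟨a, ha, hya⟩ := nU_ne_zero.1 h
  obtain ⟨b, hb, hyb⟩ := nU_ne_zero.1 h'
  refine comps_eq hC hC' (comps_near hC ha ((mem_comps.1 hC').2.1 hb) ?_) hb
  exact mem_B2_of_common hya hyb

/-- a vertex next to a component has all its neighbours in this component -/
theorem comps_nU_eq {U C : Finset V} (hC : C ∈ comps G U) {y : V} (h : nU G C y ≠ 0) :
    nU G C y = nU G U y := by
  obtain ⟨a, ha, hya⟩ := nU_ne_zero.1 h
  unfold nU
  congr 1
  ext b
  rw [mem_inter, mem_inter, SimpleGraph.mem_neighborFinset]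
  constructor
  · rintro ⟨h1, h2⟩
    exact ⟨h1, (mem_comps.1 hC).2.1 h2⟩
  · rintro ⟨h1, h2⟩
    exact ⟨h1, comps_near hC ha h2 (mem_B2_of_common hya h1)⟩

theorem comps_union {A B : Finset V} (h : Sep G A B) : comps G (A ∪ B) = comps G A ∪ comps G B := by
  ext C
  rw [mem_union, mem_comps, mem_comps, mem_comps]
  constructor
  · rintro ⟨h1, h2, h3, h4⟩
    by_cases h5 : (C ∩ A).Nonempty
    · left
      have e : C ∩ A = C := h4 _ inter_subset_left h5 (h.mono inter_subset_right (fun x hx => by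
        rw [mem_sdiff, mem_inter] at hx
        rcases mem_union.1 (h2 hx.1) with h6 | h6
        · exact absurd ⟨hx.1, h6⟩ hx.2
        · exact h6))
      exact ⟨h1, fun x hx => (mem_inter.1 (e ▸ hx)).2,
        h3.mono (Subset.refl _) (sdiff_subset_sdiff subset_union_left (Subset.refl _)), h4⟩
    · right
      rw [not_nonempty_iff_eq_empty] at h5
      refine ⟨h1, fun x hx => ?_,
        h3.mono (Subset.refl _) (sdiff_subset_sdiff subset_union_right (Subset.refl _)), h4⟩
      rcases mem_union.1 (h2 hx) with h6 | h6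
      · exact absurd (mem_inter.2 ⟨hx, h6⟩) (by rw [h5]; exact notMem_empty x)
      · exact h6
  · rintro (⟨h1, h2, h3, h4⟩ | ⟨h1, h2, h3, h4⟩)
    · refine ⟨h1, h2.trans subset_union_left, ?_, h4⟩
      intro a ha b hb
      rw [mem_sdiff, mem_union] at hb
      rcases hb.1 with h5 | h5
      · exact h3 a ha b (mem_sdiff.2 ⟨h5, hb.2⟩)
      · exact h a (h2 ha) b h5
    · refine ⟨h1, h2.trans subset_union_right, ?_, h4⟩
      intro a ha b hb
      rw [mem_sdiff, mem_union] at hb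
      rcases hb.1 with h5 | h5
      · exact h.symm a (h2 ha) b h5
      · exact h3 a ha b (mem_sdiff.2 ⟨h5, hb.2⟩)

theorem Xs_union (d : Finset V → ℕ) {A B : Finset V} (h : Sep G A B) :
    Xs G d (A ∪ B) = Xs G d A + Xs G d B := by
  unfold Xs
  rw [comps_union h, sum_union]
  rw [disjoint_left]
  intro C h1 h2
  obtain ⟨⟨x, hx⟩, a2, -, -⟩ := mem_comps.1 h1
  obtain ⟨-, b2, -, -⟩ := mem_comps.1 h2
  exact disjoint_left.1 h.disjoint (a2 hx) (b2 hx)

theorem comps_con {E : Finset V} (h1 : E.Nonempty) (h2 : Con G E) : comps G E = {E} := by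
  ext C
  rw [mem_comps, mem_singleton]
  constructor
  · rintro ⟨a1, a2, a3, -⟩
    exact h2 C a2 a1 a3
  · rintro rfl
    refine ⟨h1, Subset.refl _, ?_, h2⟩
    rw [sdiff_self]
    intro a _ b hb
    exact absurd hb (notMem_empty b)

theorem Xs_con (d : Finset V → ℕ) {E : Finset V} (h1 : E.Nonempty) (h2 : Con G E) : Xs G d E = d E := by
  unfold Xs
  rw [comps_con h1 h2, sum_singleton]

theorem Xs_clean {d : Finset V → ℕ} {U : Finset V} (h : ∀ E ⊆ U, d E = 0) : Xs G d U = 0 :=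
  sum_eq_zero fun C hC => h C (mem_comps.1 hC).2.1

theorem Xs_empty (d : Finset V → ℕ) : Xs G d (∅ : Finset V) = 0 := by
  unfold Xs comps
  rw [image_empty, sum_empty]

/-! ### additivity of the potential -/

theorem PsiT_union (w : TF) {A B : Finset V} (h : Sep G A B) :
    PsiT w G (A ∪ B) = PsiT w G A + PsiT w G B := by
  have key : ∀ {A B : Finset V}, Sep G A B → ∀ x ∈ A,
      w.F (nU G (A ∪ B) x) (n1 G (A ∪ B) x) = w.F (nU G A x) (n1 G A x) := by
    intro A B h x hx
    have e1 : nU G (A ∪ B) x = nU G A x := by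
      rw [nU_union h.disjoint, nU_eq_zero_of_mem h hx, add_zero]
    have e2 : n1 G (A ∪ B) x = n1 G A x := by
      unfold n1
      congr 1
      ext y
      rw [mem_filter, mem_filter, mem_sdiff, mem_sdiff, mem_union, SimpleGraph.mem_neighborFinset]
      have h1 : G.Adj x y → y ∉ B := fun hxy hy => h x hx y hy (mem_B2_of_adj hxy)
      have h2 : G.Adj x y → nU G (A ∪ B) y = nU G A y := by
        intro hxy
        rw [nU_union h.disjoint]
        rcases h.nU_zero y with h3 | h3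
        · exact absurd h3 (nU_ne_zero.2 ⟨x, hx, hxy.symm⟩)
        · rw [h3, add_zero]
      constructor
      · rintro ⟨⟨a1, a2⟩, a3⟩
        exact ⟨⟨a1, fun a4 => a2 (Or.inl a4)⟩, by rw [← h2 a1]; exact a3⟩
      · rintro ⟨⟨a1, a2⟩, a3⟩
        exact ⟨⟨a1, fun a4 => a4.elim a2 (h1 a1)⟩, by rw [h2 a1]; exact a3⟩
    rw [e1, e2]
  unfold PsiT
  rw [sum_union h.disjoint, sum_congr rfl (key h)]
  congr 1
  refine sum_congr rfl fun x hx => ?_
  rw [union_comm]
  exact key h.symm x hx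

/-! ### creation -/

/-- the charge of a removed vertex with `s` surviving neighbours -/
def ch (e2 e1 s : ℕ) : ℕ := if s = 2 then e2 else if s = 1 then e1 else 0

/-- a new component is next to a removed vertex -/
theorem exists_hit {U' U : Finset V} (h : U' ⊆ U) (hI : Inv G U) {C : Finset V} (hC : C ∈ comps G U')
    (hn : C ∉ comps G U) :
    (∃ z ∈ U \ U', nU G C z ≠ 0) ∨
    ∃ z ∈ U \ U', ∃ p, p ∉ U ∧ G.Adj z p ∧ nU G C p = 1 := by
  obtain ⟨h1, h2, h3, h4⟩ := mem_comps.1 hC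
  have h5 : ¬ Sep G C (U \ C) := fun hs => hn (mem_comps.2 ⟨h1, h2.trans h, hs, h4⟩)
  unfold Sep at h5
  push Not at h5
  obtain ⟨c, hc, b, hb, hcb⟩ := h5
  rw [mem_sdiff] at hb
  have hbU' : b ∉ U' := fun hb' => hb.2 (comps_near hC hc hb' hcb)
  have hbd : b ∈ U \ U' := mem_sdiff.2 ⟨hb.1, hbU'⟩
  obtain ⟨x, hx, hcx⟩ := mem_B2.1 hcb
  rw [mem_cn] at hx hcx
  have hadj : ∀ {c : V}, c ∈ C → G.Adj b c → nU G C b ≠ 0 := fun hc hbc => nU_ne_zero.2 ⟨_, hc, hbc⟩
  rcases hx with rfl | hx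
  · rcases hcx with rfl | hcx
    · exact absurd hc hb.2
    · exact Or.inl ⟨x, hbd, hadj hc hcx⟩
  · rcases hcx with rfl | hcx
    · exact Or.inl ⟨b, hbd, hadj hc hx⟩
    · by_cases hxU : x ∈ U
      · by_cases hxU' : x ∈ U'
        · have hxC : x ∈ C := comps_near hC hc hxU' (mem_B2_of_adj hcx.symm)
          exact Or.inl ⟨b, hbd, hadj hxC hx⟩
        · exact Or.inl ⟨x, mem_sdiff.2 ⟨hxU, hxU'⟩, nU_ne_zero.2 ⟨c, hc, hcx⟩⟩
      · right
        refine ⟨b, hbd, x, hxU, hx, ?_⟩
        have hcb' : c ≠ b := fun e => hb.2 (e ▸ hc)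
        have h6 : nU G C x + 1 ≤ (cn G x ∩ U).card := by
          have h7 : insert b (G.neighborFinset x ∩ C) ⊆ cn G x ∩ U := by
            intro y hy
            rw [mem_insert] at hy
            rcases hy with rfl | hy
            · exact mem_inter.2 ⟨mem_cn.2 (Or.inr hx.symm), hb.1⟩
            · rw [mem_inter, SimpleGraph.mem_neighborFinset] at hy
              exact mem_inter.2 ⟨mem_cn.2 (Or.inr hy.1), h (h2 hy.2)⟩
          have h8 := card_le_card h7
          rw [card_insert_of_notMem (fun hy => hb.2 (mem_inter.1 hy).2)] at h8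
          exact h8
        have h7 := hI x hxU
        have h8 : nU G C x ≠ 0 := nU_ne_zero.2 ⟨c, hc, hcx⟩
        omega

/-- **creation of exceptional components** -/
theorem Xs_step (d : Finset V → ℕ) {e2 e1 : ℕ} {U' U : Finset V} (h : U' ⊆ U) (hI : Inv G U)
    (hI' : Inv G U')
    (h2 : ∀ C ∈ comps G U', ∀ p, p ∉ C → nU G C p = 2 → d C ≤ e2)
    (h1 : ∀ C ∈ comps G U', ∀ p, p ∉ C → nU G C p = 1 → d C ≤ e1) :
    Xs G d U' ≤ Xs G d U + ∑ z ∈ U \ U', (ch e2 e1 (nU G U' z) +
      ((G.neighborFinset z \ U).filter fun p => (G.neighborFinset p ∩ U').Nonempty).card * e1) := by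
  classical
  have a1 : Xs G d U' = ∑ C ∈ (comps G U').filter (· ∈ comps G U), d C +
      ∑ C ∈ (comps G U').filter (· ∉ comps G U), d C := by
    unfold Xs
    exact (sum_filter_add_sum_filter_not _ _ _).symm
  have a2 : ∑ C ∈ (comps G U').filter (· ∈ comps G U), d C ≤ Xs G d U :=
    sum_le_sum_of_subset fun C hC => (mem_filter.1 hC).2
  have a3 : ∀ C ∈ (comps G U').filter (· ∉ comps G U), d C ≤ ∑ z ∈ U \ U',
      ((if nU G C z = 0 then 0 else ch e2 e1 (nU G U' z)) +
        ((G.neighborFinset z \ U).filter fun p => nU G C p ≠ 0).card * e1) := by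
    intro C hC
    rw [mem_filter] at hC
    obtain ⟨hC, hn⟩ := hC
    rcases exists_hit h hI hC hn with ⟨z, hz, hz0⟩ | ⟨z, hz, p, hp, hzp, hp1⟩
    · refine le_trans ?_ (single_le_sum (fun _ _ => Nat.zero_le _) hz)
      refine le_trans ?_ (Nat.le_add_right _ _)
      rw [if_neg hz0]
      have e := comps_nU_eq hC hz0
      have hzU' : z ∉ U' := (mem_sdiff.1 hz).2
      have hzC : z ∉ C := fun hh => hzU' ((mem_comps.1 hC).2.1 hh)
      have hle : nU G U' z ≤ 2 := (card_le_card (inter_subset_inter_right (fun y hy =>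
        mem_cn.2 (Or.inr ((SimpleGraph.mem_neighborFinset _ _ _).1 hy))))).trans (hI' z hzU')
      unfold ch
      rw [← e] at hle ⊢
      by_cases h3 : nU G C z = 2
      · rw [if_pos h3]
        exact h2 C hC z hzC h3
      · have h4 : nU G C z = 1 := by omega
        rw [if_neg h3, if_pos h4]
        exact h1 C hC z hzC h4
    · refine le_trans ?_ (single_le_sum (fun _ _ => Nat.zero_le _) hz)
      refine le_trans ?_ (Nat.le_add_left _ _)
      have h5 : d C ≤ e1 := h1 C hC p (fun hh => hp (h ((mem_comps.1 hC).2.1 hh))) hp1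
      have h6 : 0 < ((G.neighborFinset z \ U).filter fun p => nU G C p ≠ 0).card :=
        card_pos.2 ⟨p, mem_filter.2 ⟨mem_sdiff.2 ⟨by rwa [SimpleGraph.mem_neighborFinset], hp⟩, by omega⟩⟩
      exact h5.trans (Nat.le_mul_of_pos_left _ h6)
  have a4 := sum_le_sum a3
  rw [sum_comm] at a4
  rw [a1]
  refine add_le_add a2 (a4.trans (sum_le_sum fun z _ => ?_))
  rw [sum_add_distrib]
  refine add_le_add ?_ ?_
  · -- one component at most is next to `z`
    by_cases h3 : ∃ C ∈ (comps G U').filter (· ∉ comps G U), nU G C z ≠ 0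
    · obtain ⟨C, hC, hC0⟩ := h3
      rw [sum_eq_single_of_mem C hC, if_neg hC0]
      intro C' hC' hne
      rw [if_pos]
      by_contra h4
      exact hne (comps_nU (mem_filter.1 hC').1 (mem_filter.1 hC).1 h4 hC0)
    · push Not at h3
      rw [sum_eq_zero]
      · exact Nat.zero_le _
      · intro C hC
        rw [if_pos (h3 C hC)]
  · rw [← sum_mul]
    refine Nat.mul_le_mul_right _ ?_
    rw [← card_biUnion]
    · refine card_le_card fun p hp => ?_
      rw [mem_biUnion] at hp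
      obtain ⟨C, hC, hp⟩ := hp
      rw [mem_filter] at hp ⊢
      refine ⟨hp.1, ?_⟩
      obtain ⟨y, hy, hpy⟩ := nU_ne_zero.1 hp.2
      exact ⟨y, mem_inter.2 ⟨by rwa [SimpleGraph.mem_neighborFinset],
        (mem_comps.1 (mem_filter.1 hC).1).2.1 hy⟩⟩
    · intro C hC C' hC' hne
      rw [Function.onFun, disjoint_left]
      intro p hp hp'
      rw [mem_filter] at hp hp'
      exact hne (comps_nU (mem_filter.1 hC).1 (mem_filter.1 hC').1 hp.2 hp'.2)

/-- the drop of the potential and the surcharge together -/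
theorem drop_exc (w : TF) (hG : G.IsRegularOfDegree 3) (d : Finset V → ℕ) {e2 e1 : ℕ} {U' U : Finset V}
    (h : U' ⊆ U) (hI : Inv G U) (hI' : Inv G U')
    (h2 : ∀ C ∈ comps G U', ∀ p, p ∉ C → nU G C p = 2 → d C ≤ e2)
    (h1 : ∀ C ∈ comps G U', ∀ p, p ∉ C → nU G C p = 1 → d C ≤ e1)
    {E : Finset V} (hE : E ⊆ U') (g m : V → ℕ)
    (hg : ∀ x ∈ E, w.F (nU G U' x) (n1 G U' x) + m x ≤ w.F (nU G U x) (n1 G U x) + g x) :
    PsiT w G U' + Xs G d U' + ∑ z ∈ U \ U', w.F (nU G U z) (n1 G U z) + ∑ x ∈ E, m x ≤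
      PsiT w G U + Xs G d U +
      ∑ z ∈ U \ U', ((G.neighborFinset z ∩ (U' \ E)).card * w.hh (nU G U' z) +
        ((G.neighborFinset z \ U).filter fun p => (G.neighborFinset p ∩ (U' \ E)).Nonempty).card * w.h0 +
        (ch e2 e1 (nU G U' z) +
          ((G.neighborFinset z \ U).filter fun p => (G.neighborFinset p ∩ U').Nonempty).card * e1)) +
      ∑ x ∈ E, g x := by
  have a1 := drop_typ w hG h hI' hE g m hg
  have a2 := Xs_step d h hI hI' h2 h1
  rw [sum_add_distrib (s := U \ U')]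
  omega

/-- the sum of the deficits, paid by the outer vertices -/
theorem Xs_out (d : Finset V → ℕ) {f2 f1 : ℕ} {U : Finset V}
    (hf : ∀ C ∈ comps G U, d C ≤ ∑ p ∈ univ \ C, ch f2 f1 (nU G C p)) :
    Xs G d U ≤ ∑ p ∈ univ \ U, ch f2 f1 (nU G U p) := by
  classical
  have h1 : Xs G d U ≤ ∑ C ∈ comps G U, ∑ p ∈ univ \ U, ch f2 f1 (nU G C p) := by
    refine sum_le_sum fun C hC => (hf C hC).trans ?_
    rw [← sum_sdiff (sdiff_subset_sdiff (Subset.refl univ) (mem_comps.1 hC).2.1)]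
    rw [sum_eq_zero, zero_add]
    intro p hp
    have hpU : p ∈ U := by
      by_contra h
      exact (mem_sdiff.1 hp).2 (mem_sdiff.2 ⟨mem_univ p, h⟩)
    have hpC : p ∉ C := fun h => (mem_sdiff.1 (mem_sdiff.1 hp).1).2 h
    have : nU G C p = 0 := by
      by_contra h
      obtain ⟨y, hy, hpy⟩ := nU_ne_zero.1 h
      exact hpC (comps_near hC hy hpU (mem_B2_of_adj hpy.symm))
    rw [this]
    rfl
  refine h1.trans ?_
  rw [sum_comm]
  refine sum_le_sum fun p _ => ?_
  by_cases h3 : ∃ C ∈ comps G U, nU G C p ≠ 0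
  · obtain ⟨C, hC, hC0⟩ := h3
    rw [sum_eq_single_of_mem C hC, comps_nU_eq hC hC0]
    intro C' hC' hne
    have : nU G C' p = 0 := by
      by_contra h4
      exact hne (comps_nU hC' hC h4 hC0)
    rw [this]
    rfl
  · push Not at h3
    rw [sum_eq_zero]
    · exact Nat.zero_le _
    · intro C hC
      rw [h3 C hC]
      rfl

/-! ### the frame -/

/-- **the frame**: hereditary clean states, exceptional components, exceptional subsets -/
theorem frameT (hG : G.IsRegularOfDegree 3) (w : TF) (P : ℕ) (d : Finset V → ℕ)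
    (hd : ∀ E, d E ≠ 0 → E.Nonempty ∧ Con G E)
    (hb : ∀ U : Finset V, Inv G U → U ≠ univ → U.Nonempty → (∀ E ⊆ U, d E = 0) →
      ∃ L : List V, L ≠ [] ∧ Picks G U L ∧ PsiT w G (rem G U L) + P * L.length ≤ PsiT w G U)
    (hk : ∀ E : Finset V, Inv G E → E ≠ univ → d E ≠ 0 → ∃ t, Has G E t ∧ P * t ≤ PsiT w G E + d E)
    (ha : ∀ U E : Finset V, Inv G U → U ≠ univ → E ⊆ U → d E ≠ 0 → ¬ Sep G E (U \ E) →
      ∃ L : List V, L ≠ [] ∧ Picks G U L ∧
        PsiT w G (rem G U L) + Xs G d (rem G U L) + P * L.length ≤ PsiT w G U + Xs G d U) :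
    ∀ U : Finset V, Inv G U → U ≠ univ → ∃ m, Has G U m ∧ P * m ≤ PsiT w G U + Xs G d U := by
  intro U
  induction U using Finset.strongInduction with
  | H U ih =>
    intro hI hU
    have key : (∃ L : List V, L ≠ [] ∧ Picks G U L ∧
        PsiT w G (rem G U L) + Xs G d (rem G U L) + P * L.length ≤ PsiT w G U + Xs G d U) →
        ∃ m, Has G U m ∧ P * m ≤ PsiT w G U + Xs G d U := by
      rintro ⟨L, h1, h2, h3⟩
      have hlt : rem G U L ⊂ U := by
        refine ⟨rem_subset, fun h => ?_⟩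
        cases L with
        | nil => exact h1 rfl
        | cons v L => exact (mem_rem.1 (h h2.1)).2 v (List.mem_cons_self ..) self_mem_B2
      obtain ⟨m, hm, hm2⟩ := ih _ hlt (hI.rem hG) (ne_univ_of_subset rem_subset hU)
      refine ⟨m + L.length, Has.picks h2 hm, ?_⟩
      rw [mul_add]
      omega
    by_cases hc : ∀ E ⊆ U, d E = 0
    · rcases U.eq_empty_or_nonempty with rfl | hne
      · exact ⟨0, Has.empty, by simp⟩
      · obtain ⟨L, h1, h2, h3⟩ := hb U hI hU hne hc
        refine key ⟨L, h1, h2, ?_⟩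
        rw [Xs_clean (U := rem G U L) (fun E hE => hc E (hE.trans rem_subset)), Xs_clean hc]
        omega
    · push Not at hc
      obtain ⟨E, hEU, hE⟩ := hc
      by_cases hs : Sep G E (U \ E)
      · obtain ⟨hne, hcon⟩ := hd E hE
        have hun : E ∪ (U \ E) = U := union_sdiff_of_subset hEU
        have hlt : U \ E ⊂ U := by
          obtain ⟨x, hx⟩ := hne
          exact ⟨sdiff_subset, fun h => (mem_sdiff.1 (h (hEU hx))).2 hx⟩
        have hI1 : Inv G E := Inv.of_sep hs (by rw [hun]; exact hI)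
        have hI2 : Inv G (U \ E) := Inv.of_sep hs.symm (by rw [union_comm, hun]; exact hI)
        obtain ⟨t, ht, ht2⟩ := hk E hI1 (ne_univ_of_subset hEU hU) hE
        obtain ⟨m, hm, hm2⟩ := ih _ hlt hI2 (ne_univ_of_subset sdiff_subset hU)
        refine ⟨t + m, ?_, ?_⟩
        · have := Has.sep hs ht hm
          rwa [hun] at this
        · have e1 := PsiT_union w hs
          have e2 := Xs_union d hs
          rw [hun] at e1 e2
          rw [Xs_con d hne hcon] at e2
          rw [mul_add]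
          omega
      · exact key (ha U E hI hU hEU hE hs)

/-! ### the first step -/

theorem B2_card (hG : G.IsRegularOfDegree 3) (v : V) : ((B2 G v) \ cn G v).card ≤ 6 := by
  have h1 : (B2 G v) \ cn G v ⊆ (G.neighborFinset v).biUnion (fun y => (G.neighborFinset y).erase v) := by
    intro x hx
    rw [mem_sdiff] at hx
    obtain ⟨y, hy, hyx⟩ := mem_B2.1 hx.1
    rw [mem_biUnion]
    rw [mem_cn] at hy hyx
    rcases hy with rfl | hy
    · exact absurd (mem_cn.2 hyx) hx.2
    · rcases hyx with rfl | hyx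
      · exact absurd (mem_cn.2 (Or.inr hy)) hx.2
      · refine ⟨y, by rwa [SimpleGraph.mem_neighborFinset], ?_⟩
        rw [mem_erase, SimpleGraph.mem_neighborFinset]
        exact ⟨fun e => hx.2 (e ▸ self_mem_cn), hyx⟩
  refine (card_le_card h1).trans (card_biUnion_le.trans ?_)
  have h2 : ∀ y ∈ G.neighborFinset v, ((G.neighborFinset y).erase v).card = 2 := by
    intro y hy
    rw [SimpleGraph.mem_neighborFinset] at hy
    rw [card_erase_of_mem (by rw [SimpleGraph.mem_neighborFinset]; exact hy.symm), nbr_card hG]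
  rw [sum_congr rfl h2, sum_const, nbr_card hG]
  norm_num

theorem cn_sub_B2 (v : V) : cn G v ⊆ B2 G v := fun x hx => mem_B2.2 ⟨v, self_mem_cn, hx⟩

/-- the potential after the first pick -/
theorem PsiT_first (hG : G.IsRegularOfDegree 3) (w : TF) {f2 f1 κ : ℕ}
    (h2 : 2 * w.h2 + f2 ≤ w.F 3 0 + κ) (h1 : w.h1 + f1 ≤ w.F 3 0 + κ) (v : V) :
    PsiT w G (univ \ B2 G v) + ∑ p ∈ univ \ (univ \ B2 G v), ch f2 f1 (nU G (univ \ B2 G v) p) +
      4 * w.F 3 0 ≤ w.F 3 0 * Fintype.card V + 6 * κ := by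
  have hI : Inv G (univ : Finset V) := fun x hx => absurd (mem_univ x) hx
  have hI' := hI.pick hG v
  have e0 : (univ : Finset V) \ (univ \ B2 G v) = B2 G v := Finset.sdiff_sdiff_eq_self (subset_univ _)
  have e1 : ∀ z : V, nU G (univ : Finset V) z = 3 := fun z => by
    unfold nU
    rw [inter_univ, nbr_card hG]
  have e2 : ∀ z : V, G.neighborFinset z \ (univ : Finset V) = ∅ := fun z =>
    sdiff_eq_empty_iff_subset.2 (subset_univ _)
  have e3 : ∀ z : V, n1 G (univ : Finset V) z = 0 := fun z => by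
    unfold n1
    rw [e2 z]
    rfl
  have h3 := drop_typ w hG (subset_univ (univ \ B2 G v)) hI' (empty_subset _) (fun _ => 0) (fun _ => 0)
    (fun x hx => absurd hx (notMem_empty x))
  simp only [sum_empty, e0, add_zero, sdiff_empty] at h3
  have h4 : PsiT w G (univ : Finset V) = w.F 3 0 * Fintype.card V := by
    unfold PsiT
    rw [sum_congr rfl (fun z _ => by rw [e1 z, e3 z]), sum_const, card_univ, smul_eq_mul, mul_comm]
  have h5 : ∑ z ∈ B2 G v, w.F (nU G (univ : Finset V) z) (n1 G (univ : Finset V) z) =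
      w.F 3 0 * (B2 G v).card := by
    rw [sum_congr rfl (fun z _ => by rw [e1 z, e3 z]), sum_const, smul_eq_mul, mul_comm]
  have h6 : ∑ z ∈ B2 G v, ((G.neighborFinset z ∩ (univ \ B2 G v)).card * w.hh (nU G (univ \ B2 G v) z) +
        ((G.neighborFinset z \ univ).filter
          fun p => (G.neighborFinset p ∩ (univ \ B2 G v)).Nonempty).card * w.h0) +
      ∑ z ∈ B2 G v, ch f2 f1 (nU G (univ \ B2 G v) z) ≤
      ((B2 G v) \ cn G v).card * (w.F 3 0 + κ) := by
    rw [← sum_add_distrib, ← sum_sdiff (cn_sub_B2 (G := G) v)]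
    have h7 : ∑ z ∈ cn G v, ((G.neighborFinset z ∩ (univ \ B2 G v)).card * w.hh (nU G (univ \ B2 G v) z) +
        ((G.neighborFinset z \ univ).filter
          fun p => (G.neighborFinset p ∩ (univ \ B2 G v)).Nonempty).card * w.h0 +
        ch f2 f1 (nU G (univ \ B2 G v) z)) = 0 := by
      refine sum_eq_zero fun z hz => ?_
      have h8 : G.neighborFinset z ∩ (univ \ B2 G v) = ∅ := by
        rw [eq_empty_iff_forall_notMem]
        intro y hy
        rw [mem_inter, SimpleGraph.mem_neighborFinset, mem_sdiff] at hy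
        exact hy.2.2 (mem_B2.2 ⟨z, hz, mem_cn.2 (Or.inr hy.1)⟩)
      have h9 : nU G (univ \ B2 G v) z = 0 := by
        unfold nU
        rw [h8]
        rfl
      rw [h8, h9, e2 z, filter_empty, card_empty, zero_mul, zero_mul]
      rfl
    rw [h7, add_zero, ← smul_eq_mul, ← sum_const]
    refine sum_le_sum fun z hz => ?_
    have hzU : z ∉ univ \ B2 G v := fun h => (mem_sdiff.1 h).2 (mem_sdiff.1 hz).1
    have hle : nU G (univ \ B2 G v) z ≤ 2 := (card_le_card (inter_subset_inter_right (fun y hy =>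
        mem_cn.2 (Or.inr ((SimpleGraph.mem_neighborFinset _ _ _).1 hy))))).trans (hI' z hzU)
    rw [e2 z, filter_empty, card_empty, zero_mul, add_zero]
    have h8 : (G.neighborFinset z ∩ (univ \ B2 G v)).card = nU G (univ \ B2 G v) z := rfl
    rw [h8]
    unfold TF.hh ch
    rcases (by omega : nU G (univ \ B2 G v) z = 0 ∨ nU G (univ \ B2 G v) z = 1 ∨
      nU G (univ \ B2 G v) z = 2) with h9 | h9 | h9
    · rw [h9]
      simp
    · rw [h9]
      simp only [OfNat.one_ne_ofNat, if_false, if_true, one_mul]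
      exact h1
    · rw [h9]
      simp only [if_true]
      exact h2
  have h7 := B2_card hG v
  have h8 := card_sdiff_add_card_eq_card (cn_sub_B2 (G := G) v)
  rw [cn_card hG] at h8
  rw [h4, h5] at h3
  rw [e0]
  have h9 : ((B2 G v) \ cn G v).card * (w.F 3 0 + κ) ≤ w.F 3 0 * ((B2 G v) \ cn G v).card + 6 * κ := by
    rw [mul_add, mul_comm _ (w.F 3 0)]
    exact Nat.add_le_add_left (Nat.mul_le_mul_right _ h7) _
  rw [← h8, mul_add] at h3
  omega

/-- **the packing bound** -/
theorem packingT (hG : G.IsRegularOfDegree 3) [hV : Nonempty V] (w : TF) (K : ℕ) (hK : 0 < K)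
    (hF : w.F 3 0 = 3 * K) (d : Finset V → ℕ) {f2 f1 κ : ℕ} (hκ : 6 * κ ≤ 9 * K)
    (h2 : 2 * w.h2 + f2 ≤ w.F 3 0 + κ) (h1 : w.h1 + f1 ≤ w.F 3 0 + κ)
    (hf : ∀ C : Finset V, d C ≤ ∑ p ∈ univ \ C, ch f2 f1 (nU G C p))
    (hd : ∀ E, d E ≠ 0 → E.Nonempty ∧ Con G E)
    (hb : ∀ U : Finset V, Inv G U → U ≠ univ → U.Nonempty → (∀ E ⊆ U, d E = 0) →
      ∃ L : List V, L ≠ [] ∧ Picks G U L ∧ PsiT w G (rem G U L) + 14 * K * L.length ≤ PsiT w G U)
    (hk : ∀ E : Finset V, Inv G E → E ≠ univ → d E ≠ 0 →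
      ∃ t, Has G E t ∧ 14 * K * t ≤ PsiT w G E + d E)
    (ha : ∀ U E : Finset V, Inv G U → U ≠ univ → E ⊆ U → d E ≠ 0 → ¬ Sep G E (U \ E) →
      ∃ L : List V, L ≠ [] ∧ Picks G U L ∧
        PsiT w G (rem G U L) + Xs G d (rem G U L) + 14 * K * L.length ≤ PsiT w G U + Xs G d U) :
    ∃ S : Finset V, Pk G S ∧ Mx G univ S ∧ 14 * S.card ≤ 3 * Fintype.card V + 11 := by
  obtain ⟨v⟩ := hV
  have hI : Inv G (univ : Finset V) := fun x hx => absurd (mem_univ x) hx
  have hne : (univ : Finset V) \ B2 G v ≠ univ := fun h => by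
    have := mem_univ v
    rw [← h, mem_sdiff] at this
    exact this.2 self_mem_B2
  obtain ⟨m, hm, hm2⟩ := frameT hG w (14 * K) d hd hb hk ha _ (hI.pick hG v) hne
  obtain ⟨S, a1, a2, a3⟩ := (Has.pick (mem_univ v) hm).packing
  refine ⟨S, a1, a2, ?_⟩
  have h3 := PsiT_first hG w h2 h1 v
  have h4 := Xs_out d (G := G) (U := univ \ B2 G v) (f2 := f2) (f1 := f1) (fun C _ => hf C)
  rw [hF] at h3
  have h5 : K * (14 * (m + 1)) ≤ K * (3 * Fintype.card V + 11) := by
    have e1 : K * (14 * (m + 1)) = 14 * K * m + 14 * K := by ring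
    have e2 : K * (3 * Fintype.card V + 11) = 3 * K * Fintype.card V + 11 * K := by ring
    rw [e1, e2]
    omega
  have h6 := Nat.le_of_mul_le_mul_left h5 hK
  omega

/-! ### two potentials, linear majorant -/

/-- the frame with a second potential for the clean states -/
theorem frame2 (hG : G.IsRegularOfDegree 3) (Ψc Ψ : Finset V → ℕ) (P : ℕ) (d : Finset V → ℕ)
    (hadd : ∀ A B : Finset V, Sep G A B → Ψ A + Ψ B ≤ Ψ (A ∪ B))
    (hle : ∀ U : Finset V, Inv G U → (∀ E ⊆ U, d E = 0) → Ψc U ≤ Ψ U)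
    (hd : ∀ E, d E ≠ 0 → E.Nonempty ∧ Con G E)
    (hb : ∀ U : Finset V, Inv G U → U ≠ univ → U.Nonempty → (∀ E ⊆ U, d E = 0) →
      ∃ L : List V, L ≠ [] ∧ Picks G U L ∧ Ψc (rem G U L) + P * L.length ≤ Ψc U)
    (hk : ∀ E : Finset V, Inv G E → E ≠ univ → d E ≠ 0 → ∃ t, Has G E t ∧ P * t ≤ Ψ E + d E)
    (ha : ∀ U E : Finset V, Inv G U → U ≠ univ → E ⊆ U → d E ≠ 0 → ¬ Sep G E (U \ E) →
      ∃ L : List V, L ≠ [] ∧ Picks G U L ∧
        Ψ (rem G U L) + Xs G d (rem G U L) + P * L.length ≤ Ψ U + Xs G d U) :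
    ∀ U : Finset V, Inv G U → U ≠ univ → ∃ m, Has G U m ∧ P * m ≤ Ψ U + Xs G d U := by
  have hrem : ∀ {U : Finset V} {L : List V}, L ≠ [] → Picks G U L → rem G U L ⊂ U := by
    intro U L h1 h2
    refine ⟨rem_subset, fun h => ?_⟩
    cases L with
    | nil => exact h1 rfl
    | cons v L => exact (mem_rem.1 (h h2.1)).2 v (List.mem_cons_self ..) self_mem_B2
  -- clean states
  have hcl : ∀ U : Finset V, Inv G U → U ≠ univ → (∀ E ⊆ U, d E = 0) → ∃ m, Has G U m ∧ P * m ≤ Ψc U := by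
    intro U
    induction U using Finset.strongInduction with
    | H U ih =>
      intro hI hU hc
      rcases U.eq_empty_or_nonempty with rfl | hne
      · exact ⟨0, Has.empty, by simp⟩
      · obtain ⟨L, h1, h2, h3⟩ := hb U hI hU hne hc
        obtain ⟨m, hm, hm2⟩ := ih _ (hrem h1 h2) (hI.rem hG) (ne_univ_of_subset rem_subset hU)
          (fun E hE => hc E (hE.trans rem_subset))
        refine ⟨m + L.length, Has.picks h2 hm, ?_⟩
        rw [mul_add]
        omega
  intro U
  induction U using Finset.strongInduction with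
  | H U ih =>
    intro hI hU
    by_cases hc : ∀ E ⊆ U, d E = 0
    · obtain ⟨m, h1, h2⟩ := hcl U hI hU hc
      exact ⟨m, h1, h2.trans ((hle U hI hc).trans (Nat.le_add_right _ _))⟩
    · push Not at hc
      obtain ⟨E, hEU, hE⟩ := hc
      by_cases hs : Sep G E (U \ E)
      · obtain ⟨hne, hcon⟩ := hd E hE
        have hun : E ∪ (U \ E) = U := union_sdiff_of_subset hEU
        have hlt : U \ E ⊂ U := by
          obtain ⟨x, hx⟩ := hne
          exact ⟨sdiff_subset, fun h => (mem_sdiff.1 (h (hEU hx))).2 hx⟩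
        have hI1 : Inv G E := Inv.of_sep hs (by rw [hun]; exact hI)
        have hI2 : Inv G (U \ E) := Inv.of_sep hs.symm (by rw [union_comm, hun]; exact hI)
        obtain ⟨t, ht, ht2⟩ := hk E hI1 (ne_univ_of_subset hEU hU) hE
        obtain ⟨m, hm, hm2⟩ := ih _ hlt hI2 (ne_univ_of_subset sdiff_subset hU)
        refine ⟨t + m, ?_, ?_⟩
        · have := Has.sep hs ht hm
          rwa [hun] at this
        · have e1 := hadd _ _ hs
          have e2 := Xs_union d hs
          rw [hun] at e1 e2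
          rw [Xs_con d hne hcon] at e2
          rw [mul_add]
          omega
      · obtain ⟨L, h1, h2, h3⟩ := ha U E hI hU hEU hE hs
        obtain ⟨m, hm, hm2⟩ := ih _ (hrem h1 h2) (hI.rem hG) (ne_univ_of_subset rem_subset hU)
        refine ⟨m + L.length, Has.picks h2 hm, ?_⟩
        rw [mul_add]
        omega

/-- the linear potential with the values `u`, `p2` for every shared outer vertex, `p1` for every
lonely outer vertex -/
def linTF (u p2 p1 : ℕ) : TF where
  F := fun a c => u + (3 - a - c) * p2 + c * p1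
  h2 := p2
  h1 := p1
  h0 := p1
  s2 := fun a c h => by
    obtain ⟨r, hr⟩ : ∃ r, 3 - (a + 1) - c = r ∧ 3 - a - c = r + 1 := ⟨2 - a - c, by omega, by omega⟩
    rw [hr.1, hr.2, add_mul, one_mul]
    omega
  s1 := fun a c h => by
    rw [show 3 - a - (c + 1) = 3 - (a + 1) - c by omega, add_mul c, one_mul]
    omega
  s0 := fun a c h => by
    have h1 : (3 - a - (c + 1)) * p2 ≤ (3 - a - c) * p2 := Nat.mul_le_mul_right _ (by omega)
    rw [add_mul c, one_mul]
    omega

theorem typ_le (hG : G.IsRegularOfDegree 3) {U : Finset V} (hI : Inv G U) {x : V} (hx : x ∈ U) :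
    nU G U x + n1 G U x ≤ 3 := by
  have := (typ_counts hG (Subset.refl U) hI hx).2.2
  omega

theorem PsiT_le (hG : G.IsRegularOfDegree 3) {w w' : TF} (h : ∀ a c, a + c ≤ 3 → w.F a c ≤ w'.F a c)
    {U : Finset V} (hI : Inv G U) : PsiT w G U ≤ PsiT w' G U :=
  sum_le_sum fun _ hx => h _ _ (typ_le hG hI hx)

/-- **the packing bound**, two potentials and a linear majorant -/
theorem packing2 (hG : G.IsRegularOfDegree 3) [hV : Nonempty V] (Ψc : Finset V → ℕ) (w : TF) (K : ℕ)
    (hK : 0 < K) (d : Finset V → ℕ) {p2 p1 f2 f1 κ : ℕ} (hκ : 6 * κ ≤ 9 * K)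
    (hF : ∀ a c, a + c ≤ 3 → w.F a c ≤ 3 * K + (3 - a - c) * p2 + c * p1)
    (h2 : 2 * p2 + f2 ≤ 3 * K + κ) (h1 : p1 + f1 ≤ 3 * K + κ)
    (hf : ∀ C : Finset V, d C ≤ ∑ p ∈ univ \ C, ch f2 f1 (nU G C p))
    (hle : ∀ U : Finset V, Inv G U → (∀ E ⊆ U, d E = 0) → Ψc U ≤ PsiT w G U)
    (hd : ∀ E, d E ≠ 0 → E.Nonempty ∧ Con G E)
    (hb : ∀ U : Finset V, Inv G U → U ≠ univ → U.Nonempty → (∀ E ⊆ U, d E = 0) →
      ∃ L : List V, L ≠ [] ∧ Picks G U L ∧ Ψc (rem G U L) + 14 * K * L.length ≤ Ψc U)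
    (hk : ∀ E : Finset V, Inv G E → E ≠ univ → d E ≠ 0 →
      ∃ t, Has G E t ∧ 14 * K * t ≤ PsiT w G E + d E)
    (ha : ∀ U E : Finset V, Inv G U → U ≠ univ → E ⊆ U → d E ≠ 0 → ¬ Sep G E (U \ E) →
      ∃ L : List V, L ≠ [] ∧ Picks G U L ∧
        PsiT w G (rem G U L) + Xs G d (rem G U L) + 14 * K * L.length ≤ PsiT w G U + Xs G d U) :
    ∃ S : Finset V, Pk G S ∧ Mx G univ S ∧ 14 * S.card ≤ 3 * Fintype.card V + 11 := by
  obtain ⟨v⟩ := hV
  have hI : Inv G (univ : Finset V) := fun x hx => absurd (mem_univ x) hx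
  have hne : (univ : Finset V) \ B2 G v ≠ univ := fun h => by
    have := mem_univ v
    rw [← h, mem_sdiff] at this
    exact this.2 self_mem_B2
  obtain ⟨m, hm, hm2⟩ := frame2 hG Ψc (PsiT w G) (14 * K) d (fun A B h => (PsiT_union w h).ge) hle hd hb
    hk ha _ (hI.pick hG v) hne
  obtain ⟨S, a1, a2, a3⟩ := (Has.pick (mem_univ v) hm).packing
  refine ⟨S, a1, a2, ?_⟩
  have e0 : (linTF (3 * K) p2 p1).F 3 0 = 3 * K := by simp [linTF]
  have h3 := PsiT_first hG (linTF (3 * K) p2 p1) (f2 := f2) (f1 := f1) (κ := κ)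
    (by rw [e0]; exact h2) (by rw [e0]; exact h1) v
  have h4 := Xs_out d (G := G) (U := univ \ B2 G v) (f2 := f2) (f1 := f1) (fun C _ => hf C)
  have h5 : PsiT w G (univ \ B2 G v) ≤ PsiT (linTF (3 * K) p2 p1) G (univ \ B2 G v) :=
    PsiT_le hG hF (hI.pick hG v)
  rw [e0] at h3
  have h6 : K * (14 * (m + 1)) ≤ K * (3 * Fintype.card V + 11) := by
    have e1 : K * (14 * (m + 1)) = 14 * K * m + 14 * K := by ring
    have e2 : K * (3 * Fintype.card V + 11) = 3 * K * Fintype.card V + 11 * K := by ring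
    rw [e1, e2]
    omega
  have h7 := Nat.le_of_mul_le_mul_left h6 hK
  omega

end EF18
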