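import Pool.Agent.Lib.MP_ef18bd_co.P.Iso
import Pool.Agent.Lib.MP_ef18bd_co.P.Fr2

/-!
# The bonus for lonely outer vertices: definitions

`kU`: the number of lonely outer vertices, `kS`: without those at isolated members, `be b`: the bonus of a
component, `GoodB`: a good set of picks for a connected state.
-/

namespace EF18

open Finset

variable {V : Type} [Fintype V] [DecidableEq V]

/-- the number of lonely outer vertices -/
def kU (G : SimpleGraph V) [DecidableRel G.Adj] (U : Finset V) : ℕ := ∑ x ∈ U, n1 G U x

/-- the number of lonely outer vertices at members which are not isolated -/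
def kS (G : SimpleGraph V) [DecidableRel G.Adj] (U : Finset V) : ℕ := ∑ x ∈ U \ iso G U, n1 G U x

/-- the bonus of a component -/
def be (b : ℕ) (G : SimpleGraph V) [DecidableRel G.Adj] (C : Finset V) : ℕ :=
  if iso G C = ∅ then b * min (kU G C) 2 else 0

/-- a good set of `c` picks in a connected state without isolated members -/
def GoodB (w : TF) (dl P b : ℕ) (G : SimpleGraph V) [DecidableRel G.Adj] (U : Finset V) (c : ℕ) : Prop :=
  ∃ X : List V, X.length = c ∧ Picks G U X ∧
    PsiT (w.iso dl) G (rem G U X) + P * X.length + b * min (kU G U) 2 ≤
      PsiT (w.iso dl) G U + b * min (kS G (rem G U X)) 2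

end EF18
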