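import Pool.Agent.Lib.MP_ef18bd_co.P.Bon

/-!
# The bonus without the triangle vertices

`tri G U x`: the vertex `x` is in a triangle with a member `w` of `U`. `nT`: the number of lonely outer vertices
at `x`, zero if `tri`. `kUT`, `kST`, `beT`: the bonus with `nT`. `frameK`: the frame, with an exceptional
kind `Dn` of components which are handled directly.
-/

namespace EF18

open Finset

variable {V : Type} [Fintype V] [DecidableEq V] {G : SimpleGraph V} [DecidableRel G.Adj]

/-- `x` is in a triangle with a member of `U` -/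
def tri (G : SimpleGraph V) (U : Finset V) (x : V) : Prop :=
  ∃ w ∈ U, G.Adj x w ∧ ∃ z, G.Adj x z ∧ G.Adj w z

open scoped Classical in
/-- the lonely outer vertices at `x` which count -/
noncomputable def nT (G : SimpleGraph V) [DecidableRel G.Adj] (U : Finset V) (x : V) : ℕ :=
  if tri G U x then 0 else n1 G U x

/-- the number for the members -/
noncomputable def kUT (G : SimpleGraph V) [DecidableRel G.Adj] (U : Finset V) : ℕ := ∑ x ∈ U, nT G U x

/-- the number for the members which are not isolated -/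
noncomputable def kST (G : SimpleGraph V) [DecidableRel G.Adj] (U : Finset V) : ℕ :=
  ∑ x ∈ U \ iso G U, nT G U x

/-- the bonus of a component -/
noncomputable def beT (b : ℕ) (G : SimpleGraph V) [DecidableRel G.Adj] (C : Finset V) : ℕ :=
  if iso G C = ∅ then b * min (kUT G C) 2 else 0

omit [Fintype V] [DecidableEq V] [DecidableRel G.Adj] in
theorem tri_mono {U U' : Finset V} (h : U' ⊆ U) {x : V} (hx : tri G U' x) : tri G U x := by
  obtain ⟨w, hw, h1⟩ := hx
  exact ⟨w, h hw, h1⟩

theorem nT_le (U : Finset V) (x : V) : nT G U x ≤ n1 G U x := by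
  unfold nT
  split_ifs
  · exact Nat.zero_le _
  · exact le_rfl

theorem nT_tri {U : Finset V} {x : V} (h : tri G U x) : nT G U x = 0 := if_pos h

theorem nT_not {U : Finset V} {x : V} (h : ¬ tri G U x) : nT G U x = n1 G U x := if_neg h

theorem kUT_le (U : Finset V) : kUT G U ≤ kU G U := sum_le_sum fun x _ => nT_le U x

theorem kST_le_kS (U : Finset V) : kST G U ≤ kS G U := sum_le_sum fun x _ => nT_le U x

/-- the number for a member grows if it is not in a new triangle: it never is -/
theorem nT_mono {U U' : Finset V} (hs : U' ⊆ U) {x : V} (hx : x ∈ U') : nT G U x ≤ nT G U' x := by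
  by_cases h : tri G U x
  · rw [nT_tri h]
    exact Nat.zero_le _
  · rw [nT_not h, nT_not fun h' => h (tri_mono hs h')]
    refine card_le_card fun y hy => ?_
    rw [mem_filter, mem_sdiff] at hy ⊢
    refine ⟨⟨hy.1.1, fun hc => hy.1.2 (hs hc)⟩, le_antisymm ?_ ?_⟩
    · rw [← hy.2]
      exact card_le_card (inter_subset_inter_left hs)
    · exact card_pos.2 ⟨x, mem_inter.2 ⟨(SimpleGraph.mem_neighborFinset _ _ _).2
        ((SimpleGraph.mem_neighborFinset _ _ _).1 hy.1.1).symm, hx⟩⟩

/-- an isolated member is in no triangle with a member -/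
theorem iso_not_tri {U : Finset V} {x : V} (hx : x ∈ iso G U) : ¬ tri G U x := by
  rintro ⟨w, hw, hxw, -⟩
  have h1 := (mem_iso.1 hx).2.1
  exact nU_ne_zero.2 ⟨w, hw, hxw⟩ h1

theorem tri_left {A B : Finset V} (h : Sep G A B) {x : V} (hx : x ∈ A) :
    tri G (A ∪ B) x ↔ tri G A x := by
  constructor
  · rintro ⟨w, hw, hxw, h1⟩
    rcases mem_union.1 hw with hw | hw
    · exact ⟨w, hw, hxw, h1⟩
    · exact absurd (mem_B2_of_adj hxw) (h x hx w hw)
  · exact tri_mono subset_union_left

theorem nT_union {A B : Finset V} (h : Sep G A B) {x : V} (hx : x ∈ A) :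
    nT G (A ∪ B) x = nT G A x := by
  by_cases h1 : tri G A x
  · rw [nT_tri h1, nT_tri ((tri_left h hx).2 h1)]
  · rw [nT_not h1, nT_not fun h2 => h1 ((tri_left h hx).1 h2), n1_union h hx]

theorem kUT_union {A B : Finset V} (h : Sep G A B) : kUT G (A ∪ B) = kUT G A + kUT G B := by
  unfold kUT
  rw [sum_union h.disjoint, sum_congr rfl fun x hx => nT_union h hx]
  refine congrArg _ (sum_congr rfl fun x hx => ?_)
  rw [union_comm]
  exact nT_union h.symm hx

theorem kST_ite (U : Finset V) : kST G U = ∑ x ∈ U, if x ∈ iso G U then 0 else nT G U x := by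
  unfold kST
  have h1 : iso G U ⊆ U := fun x hx => (mem_iso.1 hx).1
  rw [← sum_sdiff h1, sum_eq_zero (s := iso G U) fun x hx => if_pos hx, add_zero]
  exact sum_congr rfl fun x hx => (if_neg (mem_sdiff.1 hx).2).symm

theorem kST_union {A B : Finset V} (h : Sep G A B) : kST G (A ∪ B) = kST G A + kST G B := by
  rw [kST_ite, kST_ite, kST_ite, sum_union h.disjoint]
  refine congrArg₂ _ (sum_congr rfl fun x hx => ?_) (sum_congr rfl fun x hx => ?_)
  · rw [nT_union h hx]
    simp only [iso_union_mem h hx]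
  · rw [union_comm, nT_union h.symm hx]
    simp only [iso_union_mem h.symm hx]

/-- the bonus of a residual set is at least the bonus of one component with all lonely neighbours -/
theorem kST_le (hG : G.IsRegularOfDegree 3) (b : ℕ) (U : Finset V) :
    b * min (kST G U) 2 ≤ Xs G (beT b G) U := by
  induction U using sep_induction (G := G) with
  | h0 => simp [kST_ite]
  | h1 U hne hc _ =>
    rw [Xs_con _ hne hc]
    unfold beT
    split_ifs with h
    · refine Nat.mul_le_mul_left b (min_le_min_right 2 (le_of_eq ?_))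
      unfold kST kUT
      rw [h, sdiff_empty]
    · obtain ⟨x, hx⟩ := nonempty_iff_ne_empty.2 h
      have e := iso_con hG hc hx
      have e2 : kST G U = 0 := by
        rw [kST_ite]
        refine sum_eq_zero fun y hy => ?_
        rw [e, mem_singleton] at hy
        rw [hy, if_pos hx]
      rw [e2]
      simp
  | h2 A B h hA hB =>
    rw [kST_union h, Xs_union _ h]
    refine le_trans ?_ (Nat.add_le_add hA hB)
    rw [← mul_add]
    refine Nat.mul_le_mul_left b ?_
    omega

/-- the bonus of a connected set without isolated member -/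
theorem Xs_beT (b : ℕ) {U : Finset V} (hne : U.Nonempty) (hc : Con G U) (hi : iso G U = ∅) :
    Xs G (beT b G) U = b * min (kUT G U) 2 := by
  rw [Xs_con _ hne hc]
  unfold beT
  rw [if_pos hi]

/-- **the frame with the bonus** -/
theorem frameK (hG : G.IsRegularOfDegree 3) (Φ : Finset V → ℕ) (P b : ℕ) (Cl Dn : Finset V → Prop)
    (hCl : ∀ A B, A ⊆ B → Cl B → Cl A)
    (hadd : ∀ A B : Finset V, Sep G A B → Φ A + Φ B ≤ Φ (A ∪ B))
    (h1 : ∀ x, x ∈ iso G ({x} : Finset V) → P ≤ Φ {x})
    (h2 : ∀ U : Finset V, Inv G U → U.Nonempty → Con G U → iso G U = ∅ → Dn U →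
      ∃ m, Has G U m ∧ P * m + b * min (kUT G U) 2 ≤ Φ U)
    (hb : ∀ U : Finset V, Inv G U → U ≠ univ → U.Nonempty → Con G U → iso G U = ∅ → Cl U → ¬ Dn U →
      ∃ X : List V, X ≠ [] ∧ Picks G U X ∧ Φ (rem G U X) + P * X.length + b * min (kUT G U) 2 ≤
        Φ U + b * min (kST G (rem G U X)) 2) :
    ∀ U : Finset V, Inv G U → U ≠ univ → Cl U →
      ∃ m, Has G U m ∧ P * m + Xs G (beT b G) U ≤ Φ U := by
  intro U
  induction U using Finset.strongInduction with
  | H U ih =>
    intro hI hU hcl
    rcases U.eq_empty_or_nonempty with rfl | ⟨v, hv⟩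
    · exact ⟨0, Has.empty, by rw [Xs_empty]; exact Nat.zero_le _⟩
    by_cases hc : cmp G U v = U
    · have hcon : Con G U := hc ▸ cmp_con hv
      by_cases hi : iso G U = ∅
      · by_cases hdn : Dn U
        · obtain ⟨m, a1, a2⟩ := h2 U hI ⟨v, hv⟩ hcon hi hdn
          exact ⟨m, a1, by rw [Xs_beT b ⟨v, hv⟩ hcon hi]; exact a2⟩
        obtain ⟨X, a1, a2, a3⟩ := hb U hI hU ⟨v, hv⟩ hcon hi hcl hdn
        obtain ⟨m, hm, hm2⟩ := ih _ (rem_ssubset a1 a2) (hI.rem hG) (ne_univ_of_subset rem_subset hU)
          (hCl _ _ rem_subset hcl)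
        refine ⟨m + X.length, Has.picks a2 hm, ?_⟩
        have h3 := kST_le hG b (rem G U X)
        rw [Xs_beT b ⟨v, hv⟩ hcon hi, mul_add]
        omega
      · obtain ⟨x, hx⟩ := nonempty_iff_ne_empty.2 hi
        have e := iso_con hG hcon hx
        subst e
        refine ⟨1, Has.one (mem_singleton_self x) (singleton_subset_iff.2 self_mem_B2), ?_⟩
        rw [Xs_con _ ⟨v, hv⟩ hcon]
        unfold beT
        rw [if_neg (ne_empty_of_mem hx)]
        have := h1 x hx
        omega
    · have e1 : cmp G U v ⊂ U := ⟨cmp_subset, fun h => hc (Subset.antisymm cmp_subset h)⟩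
      have e2 : U \ cmp G U v ⊂ U :=
        ⟨sdiff_subset, fun h => (mem_sdiff.1 (h hv)).2 (mem_cmp_self hv)⟩
      have hs : Sep G (cmp G U v) (U \ cmp G U v) := cmp_sep
      have hI1 : Inv G (cmp G U v) := Inv.of_sep hs (by rw [cmp_union]; exact hI)
      have hI2 : Inv G (U \ cmp G U v) := Inv.of_sep hs.symm (by rw [union_comm, cmp_union]; exact hI)
      obtain ⟨m1, b1, b2⟩ := ih _ e1 hI1 (ne_univ_of_subset e1.1 hU) (hCl _ _ e1.1 hcl)
      obtain ⟨m2, c1, c2⟩ := ih _ e2 hI2 (ne_univ_of_subset e2.1 hU) (hCl _ _ e2.1 hcl)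
      refine ⟨m1 + m2, ?_, ?_⟩
      · have := Has.sep hs b1 c1
        rwa [cmp_union] at this
      · have e3 := hadd _ _ hs
        have e4 := Xs_union (beT b G) hs
        rw [cmp_union] at e3 e4
        rw [e4, mul_add]
        omega

/-! ### the diamond pairs -/

/-- a diamond pair: two adjacent vertices with the same other neighbours -/
def DPr (G : SimpleGraph V) (C : Finset V) : Prop :=
  ∃ a b, G.Adj a b ∧ C = {a, b} ∧ ∀ z, z ≠ b → G.Adj a z → G.Adj b z

open scoped Classical in
/-- the charge for a diamond pair -/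
noncomputable def dDP (e : ℕ) (G : SimpleGraph V) (C : Finset V) : ℕ := if DPr G C then e else 0

theorem dp_nbr (hG : G.IsRegularOfDegree 3) {a b : V} (hab : G.Adj a b)
    (h : ∀ z, z ≠ b → G.Adj a z → G.Adj b z) : (G.neighborFinset a).erase b = (G.neighborFinset b).erase a := by
  have h1 : (G.neighborFinset a).erase b ⊆ (G.neighborFinset b).erase a := by
    intro z hz
    rw [mem_erase, SimpleGraph.mem_neighborFinset] at hz ⊢
    exact ⟨fun e => G.loopless.irrefl _ (e ▸ hz.2), h z hz.1 hz.2⟩
  refine eq_of_subset_of_card_le h1 ?_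
  rw [card_erase_of_mem (by rw [SimpleGraph.mem_neighborFinset]; exact hab.symm),
    card_erase_of_mem (by rwa [SimpleGraph.mem_neighborFinset]), nbr_card hG, nbr_card hG]

/-- a diamond pair is paid -/
theorem dp_has (hG : G.IsRegularOfDegree 3) {w : TF} {C : Finset V} (h : DPr G C) :
    Has G C 1 ∧ PsiT w G C = 2 * w.F 1 0 ∧ kUT G C = 0 ∧ C.Nonempty ∧ iso G C = ∅ := by
  obtain ⟨a, b, hab, rfl, h⟩ := h
  have hne : a ≠ b := hab.ne
  have e1 := dp_nbr hG hab h
  have h' : ∀ z, z ≠ a → G.Adj b z → G.Adj a z := by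
    intro z hz hbz
    have : z ∈ (G.neighborFinset b).erase a := by
      rw [mem_erase, SimpleGraph.mem_neighborFinset]
      exact ⟨hz, hbz⟩
    rw [← e1, mem_erase, SimpleGraph.mem_neighborFinset] at this
    exact this.2
  -- the types
  have key : ∀ x y : V, G.Adj x y → (∀ z, z ≠ y → G.Adj x z → G.Adj y z) →
      nU G ({x, y} : Finset V) x = 1 ∧ n1 G ({x, y} : Finset V) x = 0 := by
    intro x y hxy hx
    constructor
    · unfold nU
      rw [card_eq_one]
      refine ⟨y, ?_⟩
      ext z
      simp only [mem_inter, SimpleGraph.mem_neighborFinset, mem_insert, mem_singleton]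
      constructor
      · rintro ⟨h1, rfl | h2⟩
        · exact absurd h1 (G.loopless.irrefl _)
        · exact h2
      · rintro rfl
        exact ⟨hxy, Or.inr rfl⟩
    · unfold n1
      rw [card_eq_zero, filter_eq_empty_iff]
      intro z hz h1
      rw [mem_sdiff, SimpleGraph.mem_neighborFinset, mem_insert, mem_singleton] at hz
      have h2 : 2 ≤ nU G ({x, y} : Finset V) z := by
        unfold nU
        rw [← card_pair hxy.ne]
        refine card_le_card fun t ht => ?_
        rw [mem_insert, mem_singleton] at ht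
        rw [mem_inter, SimpleGraph.mem_neighborFinset, mem_insert, mem_singleton]
        rcases ht with rfl | rfl
        · exact ⟨hz.1.symm, Or.inl rfl⟩
        · exact ⟨(hx z (fun e => hz.2 (Or.inr e)) hz.1).symm, Or.inr rfl⟩
      omega
  obtain ⟨a1, a2⟩ := key a b hab h
  obtain ⟨b1, b2⟩ := key b a hab.symm h'
  have hC : ({b, a} : Finset V) = {a, b} := pair_comm b a
  rw [hC] at b1 b2
  refine ⟨Has.one (mem_insert_self a _) ?_, ?_, ?_, ⟨a, mem_insert_self a _⟩, ?_⟩
  · intro z hz
    rw [mem_insert, mem_singleton] at hz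
    rcases hz with rfl | rfl
    · exact self_mem_B2
    · exact mem_B2_of_adj hab.symm
  · unfold PsiT
    rw [sum_pair hne, a1, a2, b1, b2]
    ring
  · unfold kUT
    rw [sum_pair hne]
    have := nT_le (G := G) ({a, b} : Finset V) a
    have := nT_le (G := G) ({a, b} : Finset V) b
    omega
  · rw [eq_empty_iff_forall_notMem]
    intro x hx
    obtain ⟨h1, h2, -⟩ := mem_iso.1 hx
    rw [mem_insert, mem_singleton] at h1
    rcases h1 with rfl | rfl
    · rw [a1] at h2
      exact absurd h2 (by norm_num)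
    · rw [b1] at h2
      exact absurd h2 (by norm_num)

omit [Fintype V] [DecidableRel G.Adj] in
theorem dDP_le (e : ℕ) (C : Finset V) : dDP e G C ≤ e := by
  unfold dDP
  split_ifs
  · exact le_rfl
  · exact Nat.zero_le _

/-- a good set of `c` picks in a connected state without isolated members, which is no diamond pair -/
def GoodK (w : TF) (dl P b e : ℕ) (G : SimpleGraph V) [DecidableRel G.Adj] (U : Finset V) (c : ℕ) : Prop :=
  ∃ X : List V, X.length = c ∧ Picks G U X ∧
    PsiT (w.iso dl) G (rem G U X) + Xs G (dDP e G) (rem G U X) + P * X.length + b * min (kUT G U) 2 ≤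
      PsiT (w.iso dl) G U + b * min (kST G (rem G U X)) 2

/-- the frame with the bonus and the diamond pairs, for the potential by types with a charge for isolated members -/
theorem frameK' (hG : G.IsRegularOfDegree 3) {w : TF} {dl P b e : ℕ} (hP : P ≤ w.F 0 3 + dl)
    (hP2 : P ≤ 2 * w.F 1 0 + e) (Cl : Finset V → Prop) (hCl : ∀ A B, A ⊆ B → Cl B → Cl A)
    (hb : ∀ U : Finset V, Inv G U → U ≠ univ → U.Nonempty → Con G U → iso G U = ∅ → Cl U → ¬ DPr G U →
      ∃ c, c ≠ 0 ∧ GoodK w dl P b e G U c) :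
    ∀ U : Finset V, Inv G U → U ≠ univ → Cl U →
      ∃ m, Has G U m ∧ P * m + Xs G (beT b G) U ≤ PsiT (w.iso dl) G U + Xs G (dDP e G) U := by
  refine frameK hG (fun U => PsiT (w.iso dl) G U + Xs G (dDP e G) U) P b Cl (DPr G) hCl (fun A B h => ?_)
    (fun x hx => (hP.trans (PsiT_single hx).ge).trans (Nat.le_add_right _ _)) ?_ fun U a1 a2 a3 a4 a5 a6 a7 => ?_
  · have h1 := PsiT_union (w.iso dl) h
    have h2 := Xs_union (dDP e G) h
    omega
  · intro U _ hne hc _ hdp
    obtain ⟨h1, h2, h3, -, -⟩ := dp_has hG (w := w.iso dl) hdp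
    have e1 : (w.iso dl).F 1 0 = w.F 1 0 := by
      show w.F 1 0 + (if (1 : ℕ) = 0 ∧ (0 : ℕ) = 3 then dl else 0) = w.F 1 0
      rw [if_neg (by omega), add_zero]
    refine ⟨1, h1, ?_⟩
    rw [Xs_con _ hne hc, h3, h2, e1]
    unfold dDP
    rw [if_pos hdp]
    simp only [Nat.zero_min, mul_zero, mul_one, add_zero]
    exact hP2
  · obtain ⟨c, hc, X, c1, c2, c3⟩ := hb U a1 a2 a3 a4 a5 a6 a7
    refine ⟨X, fun e => hc (by rw [← c1, e]; rfl), c2, ?_⟩
    omega

end EF18
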