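import Pool.Agent.Lib.MP_ef18bd_co.P.StpV

/-!
# The bonus reduced by a charge

`GoodH`: a good set of picks for the potential with the extra charge `Ex` and the bonus reduced by the charge `ET`.
`frameC`: one phase. `cap_arith`: the arithmetic of a leaf. `evbH`, `evlH`: the leaves.
-/

namespace EF18

open Finset

variable {V : Type} [Fintype V] [DecidableEq V] {G : SimpleGraph V} [DecidableRel G.Adj]

/-- a good set of `k` picks in a connected state without isolated members -/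
def GoodH (w : TF) (dl P b c : ℕ) (Ex ET : Finset V → ℕ) (G : SimpleGraph V) [DecidableRel G.Adj]
    (U : Finset V) (k : ℕ) : Prop :=
  ∃ X : List V, X.length = k ∧ Picks G U X ∧
    PsiT (w.iso dl) G (rem G U X) + c * dpn G (rem G U X) + Ex (rem G U X) + P * X.length +
      (b * min (kUT G U) 2 - ET U) ≤
      PsiT (w.iso dl) G U + c * dpn G U + Ex U + (b * min (kST G (rem G U X)) 2 - ET (rem G U X))

/-- the reduced bonus of a component -/
noncomputable def beH (b : ℕ) (ET : Finset V → ℕ) (G : SimpleGraph V) [DecidableRel G.Adj]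
    (C : Finset V) : ℕ :=
  if iso G C = ∅ then b * min (kUT G C) 2 - ET C else 0

theorem beT_le_beH (b : ℕ) {ET : Finset V → ℕ} (hT : ∀ A B : Finset V, Sep G A B → ET A + ET B ≤ ET (A ∪ B))
    (U : Finset V) : Xs G (beT b G) U ≤ Xs G (beH b ET G) U + ET U := by
  induction U using sep_induction (G := G) with
  | h0 => rw [Xs_empty, Xs_empty]; exact Nat.zero_le _
  | h1 U hne hc _ =>
    rw [Xs_con _ hne hc, Xs_con _ hne hc]
    unfold beT beH
    split_ifs
    · omega
    · exact Nat.zero_le _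
  | h2 A B h hA hB =>
    rw [Xs_union _ h, Xs_union _ h]
    have := hT A B h
    omega

/-- **one phase**: `Cl` is hereditary, the states with `Bs` are given -/
theorem frameC (hG : G.IsRegularOfDegree 3) {w : TF} {dl P b c : ℕ} (Ex ET : Finset V → ℕ)
    (hsup : ∀ A B : Finset V, Sep G A B → Ex A + Ex B ≤ Ex (A ∪ B))
    (hT : ∀ A B : Finset V, Sep G A B → ET A + ET B ≤ ET (A ∪ B)) (hP : P ≤ w.F 0 3 + dl)
    (Cl Bs : Finset V → Prop) (hCl : ∀ A B, A ⊆ B → Cl B → Cl A)
    (hbs : ∀ U : Finset V, Inv G U → U ≠ univ → Cl U → Bs U →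
      ∃ m, Has G U m ∧ P * m + Xs G (beH b ET G) U ≤ PsiT (w.iso dl) G U + c * dpn G U + Ex U)
    (hst : ∀ U : Finset V, Inv G U → U ≠ univ → U.Nonempty → Con G U → iso G U = ∅ → Cl U → ¬ Bs U →
      ∃ k, k ≠ 0 ∧ GoodH w dl P b c Ex ET G U k) :
    ∀ U : Finset V, Inv G U → U ≠ univ → Cl U →
      ∃ m, Has G U m ∧ P * m + Xs G (beH b ET G) U ≤ PsiT (w.iso dl) G U + c * dpn G U + Ex U := by
  intro U
  induction U using Finset.strongInduction with
  | H U ih =>
    intro hI hU hcl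
    rcases U.eq_empty_or_nonempty with rfl | ⟨v, hv⟩
    · exact ⟨0, Has.empty, by rw [Xs_empty]; exact Nat.zero_le _⟩
    by_cases hbsU : Bs U
    · exact hbs U hI hU hcl hbsU
    by_cases hc : cmp G U v = U
    · have hcon : Con G U := hc ▸ cmp_con hv
      by_cases hi : iso G U = ∅
      · obtain ⟨k, hk, X, a1, a2, a3⟩ := hst U hI hU ⟨v, hv⟩ hcon hi hcl hbsU
        have hX : X ≠ [] := fun e => hk (by rw [← a1, e]; rfl)
        obtain ⟨m, hm, hm2⟩ := ih _ (rem_ssubset hX a2) (hI.rem hG) (ne_univ_of_subset rem_subset hU)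
          (hCl _ _ rem_subset hcl)
        refine ⟨m + X.length, Has.picks a2 hm, ?_⟩
        have h3 := kST_le hG b (rem G U X)
        have h4 := beT_le_beH b hT (rem G U X)
        have h5 : Xs G (beH b ET G) U = b * min (kUT G U) 2 - ET U := by
          rw [Xs_con _ ⟨v, hv⟩ hcon]
          unfold beH
          rw [if_pos hi]
        rw [h5, mul_add]
        omega
      · obtain ⟨x, hx⟩ := nonempty_iff_ne_empty.2 hi
        have e := iso_con hG hcon hx
        subst e
        refine ⟨1, Has.one (mem_singleton_self x) (singleton_subset_iff.2 self_mem_B2), ?_⟩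
        rw [Xs_con _ ⟨v, hv⟩ hcon]
        unfold beH
        rw [if_neg (ne_empty_of_mem hx)]
        have := hP.trans (PsiT_single hx).ge
        omega
    · have e1 : cmp G U v ⊂ U := ⟨cmp_subset, fun h => hc (Subset.antisymm cmp_subset h)⟩
      have e2 : U \ cmp G U v ⊂ U :=
        ⟨sdiff_subset, fun h => (mem_sdiff.1 (h hv)).2 (mem_cmp_self hv)⟩
      have hs : Sep G (cmp G U v) (U \ cmp G U v) := cmp_sep
      have hI1 : Inv G (cmp G U v) := Inv.of_sep hs (by rw [cmp_union]; exact hI)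
      have hI2 : Inv G (U \ cmp G U v) := Inv.of_sep hs.symm (by rw [union_comm, cmp_union]; exact hI)
      obtain ⟨m1, b1, b2⟩ := ih _ e1 hI1 (ne_univ_of_subset e1.1 hU) (hCl _ _ e1.1 hcl)
      obtain ⟨m2, c1, c2⟩ := ih _ e2 hI2 (ne_univ_of_subset e2.1 hU) (hCl _ _ e2.1 hcl)
      refine ⟨m1 + m2, ?_, ?_⟩
      · have := Has.sep hs b1 c1
        rwa [cmp_union] at this
      · have e3 := PsiT_union (w.iso dl) hs
        have e4 := Xs_union (beH b ET G) hs
        have e5 := Nat.mul_le_mul_left c (dpn_add hs)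
        have e6 := hsup _ _ hs
        rw [cmp_union] at e3 e4 e5 e6
        rw [mul_add] at e5
        rw [e4, mul_add]
        omega

/-! ### the arithmetic -/

omit [Fintype V] [DecidableEq V] [DecidableRel G.Adj] in
theorem capB {B B' e e' cr ct : ℕ} (h : e' + cr ≤ e + ct) :
    B - e ≤ (B' - e') + min B ((B - (B' + (cr - ct))) + (ct - cr)) := by
  rw [Nat.min_def]
  split_ifs <;> omega

/-- the loss of the bonus together with the charge -/
def tcH (D b kt ka cr ct : ℕ) : ℕ := bif Nat.beq D 0 then 0 else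
  mn (Nat.mul 2 b) (Nat.add (Nat.sub (Nat.mul b (mn kt 2)) (Nat.add (Nat.mul b (mn (mn ka kt) 2)) (Nat.sub cr ct)))
    (Nat.sub ct cr))

/-- the gain -/
def gnH (ne : Bool) (D b ka cr ct : ℕ) : ℕ :=
  bif Nat.beq D 0 && ne then Nat.sub (Nat.mul b (mn ka 2)) (Nat.sub ct cr) else 0

omit [Fintype V] [DecidableEq V] [DecidableRel G.Adj] in
theorem cap_arith {D b Ps' Ps OC E Z kk ek es k kt ka kS PC dl NI ic e e' cr ct : ℕ} {ne : Bool}
    (ha : Ps' + (E + b * Z) ≤ Ps + OC) (hb : kk + ek ≤ Z) (hc : k ≤ kt + es + ek) (hd : es + ka ≤ kS)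
    (he : ic ≤ NI) (h0 : D = 0 → k = 0) (hT : e' + cr ≤ e + ct) (hne : ne = true → e = 0)
    (hf : PC + OC + dl * NI + tcH D b kt ka cr ct ≤ E + (b * kk + gnH ne D b ka cr ct)) :
    Ps' + dl * ic + PC + (b * min k 2 - e) ≤ Ps + (b * min kS 2 - e') := by
  have h1 := Nat.mul_le_mul_left dl he
  have h2 := Nat.mul_le_mul_left b hb
  rw [mul_add] at h2
  by_cases hD : D = 0
  · rw [h0 hD]
    have h4 : b * min 0 2 = 0 := by simp
    rw [h4, Nat.zero_sub]
    subst hD
    have e1 : tcH 0 b kt ka cr ct = 0 := rfl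
    rw [e1] at hf
    cases ne
    · have e2 : gnH false 0 b ka cr ct = 0 := rfl
      rw [e2] at hf
      omega
    · have e2 : gnH true 0 b ka cr ct = b * min ka 2 - (ct - cr) := by
        change b * mn ka 2 - (ct - cr) = _
        rw [mn_eq]
      rw [e2] at hf
      have h3 := Nat.mul_le_mul_left b (show min ka 2 ≤ min kS 2 by omega)
      have h5 := hne rfl
      omega
  · have e1 : tcH D b kt ka cr ct =
        min (2 * b) ((b * min kt 2 - (b * min (min ka kt) 2 + (cr - ct))) + (ct - cr)) := by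
      unfold tcH
      rw [beq_false hD, cond_false, mn_eq, mn_eq, mn_eq, mn_eq]
      rfl
    have e2 : gnH ne D b ka cr ct = 0 := by
      unfold gnH
      rw [beq_false hD]
      rfl
    rw [e1, e2] at hf
    have h3 := Nat.mul_le_mul_left b
      (show min k 2 + min (min ka kt) 2 ≤ min kt 2 + min kS 2 + ek by omega)
    rw [mul_add, mul_add, mul_add] at h3
    have h4 := capB (B := b * min k 2) (B' := b * min kS 2) hT
    have h5 : b * min k 2 ≤ 2 * b := by
      rw [mul_comm 2 b]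
      exact Nat.mul_le_mul_left b (min_le_right _ _)
    have h6 : min (b * min k 2) ((b * min k 2 - (b * min kS 2 + (cr - ct))) + (ct - cr)) ≤
        min (2 * b) ((b * min kt 2 - (b * min (min ka kt) 2 + (cr - ct))) + (ct - cr)) + b * ek := by
      rw [Nat.min_def, Nat.min_def (n := 2 * b)]
      split_ifs <;> omega
    omega

/-! ### the leaves -/

/-- the test and the children, all completions -/
def evbH (ne e x : Bool) (P T TI D dl b c n p : ℕ) (L : List ℕ) (cr ct crT ctT : ℕ → ℕ → ℕ)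
    (xs : List (ℕ × ℕ)) : Option (List (ℕ × ℕ)) :=
  frc (kms p L 0) fun M => frc (ims p L 0) fun IN => frc (kbK e n p M) fun kt => frc (kaEK e D n p M) fun ka =>
    frc (crT M IN) fun c1 => frc (ctT M IN) fun c2 =>
    bif Nat.ble (Nat.add n 5) 40 && pks n p L 0 &&
      Nat.ble (Nat.add (Nat.add (Nat.add (Nat.mul P L.length) (ct M IN))
        (Nat.mul dl (n00 D n p M))) (tcH D b kt ka c1 c2))
        (Nat.add (Nat.add (evs T TI n p M IN) (Nat.add (xdc x c n p M) (cr M IN)))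
          (Nat.add (Nat.mul b (dnk n p M)) (gnH ne D b ka c1 c2)))
    then some (xs ++ (kin n p M IN n ++ (tpl e n p M n ++ (evc D L n p M n ++ cml D L n 3 (n + 1) p 200))))
    else none

/-- **the step with all completions** -/
theorem evbH_ch (hG : G.IsRegularOfDegree 3) {w w' : TF} {b : ℕ} (hww : Pair w w' b) (hw : w'.Pos)
    {ne e x : Bool} {P T TI D dl c : ℕ} (hT : TabK w' 0 T) (hTI : TabKI w' 0 TI) {U : Finset V} (hI : Inv G U)
    (hD : ∀ x ∈ U, n1 G U x ≤ D) (hiso : iso G U = ∅) {n p : ℕ} {L : List ℕ} {R : List (ℕ × ℕ)}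
    {cr ct crT ctT : ℕ → ℕ → ℕ} {xs : List (ℕ × ℕ)}
    (hR : evbH ne e x P T TI D dl b c n p L cr ct crT ctT xs = some R) {φ ν : ℕ → V} (h : Emb G U n p φ ν)
    {Ex ET : Finset V → ℕ} (hne : ne = true → ET U = 0) (hex : (∀ y ∈ L, y < n ∧ full p y = true) →
      Stn G U (rem G U (L.map φ)) n p (kms p L 0) (ims p L 0) φ ν → (∃ q ∈ xs, Ch G U n φ q) ∨
        (Ex (rem G U (L.map φ)) + cr (kms p L 0) (ims p L 0) ≤ Ex U + ct (kms p L 0) (ims p L 0) ∧
          ET (rem G U (L.map φ)) + crT (kms p L 0) (ims p L 0) ≤ ET U + ctT (kms p L 0) (ims p L 0))) :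
    GoodH w dl P b c Ex ET G U L.length ∨ ∃ q ∈ R, Ch G U n φ q := by
  classical
  unfold evbH at hR
  rw [frc_eq, frc_eq, frc_eq, frc_eq, frc_eq, frc_eq] at hR
  obtain ⟨kt, hkt⟩ : ∃ kt, kt = kbK e n p (kms p L 0) := ⟨_, rfl⟩
  obtain ⟨ka, hka⟩ : ∃ ka, ka = kaEK e D n p (kms p L 0) := ⟨_, rfl⟩
  rw [← hkt, ← hka] at hR
  cases hc : Nat.ble (Nat.add n 5) 40 && pks n p L 0 &&
      Nat.ble (Nat.add (Nat.add (Nat.add (Nat.mul P L.length) (ct (kms p L 0) (ims p L 0)))
        (Nat.mul dl (n00 D n p (kms p L 0)))) (tcH D b kt ka (crT (kms p L 0) (ims p L 0))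
          (ctT (kms p L 0) (ims p L 0))))
        (Nat.add (Nat.add (evs T TI n p (kms p L 0) (ims p L 0))
          (Nat.add (xdc x c n p (kms p L 0)) (cr (kms p L 0) (ims p L 0))))
          (Nat.add (Nat.mul b (dnk n p (kms p L 0))) (gnH ne D b ka (crT (kms p L 0) (ims p L 0))
            (ctT (kms p L 0) (ims p L 0)))))
  · rw [hc, cond_false] at hR
    exact absurd hR (by simp)
  rw [hc, cond_true, Option.some.injEq] at hR
  simp only [Bool.and_eq_true] at hc
  obtain ⟨⟨c1, c2⟩, c3⟩ := hc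
  have hn : n + 5 ≤ 40 := Nat.le_of_ble_eq_true c1
  have hL := pks_of c2
  have hc3 := Nat.le_of_ble_eq_true c3
  rw [← hR]
  rcases h.stn_or hG hI (by omega) hL with ⟨q, h1, h2⟩ | hS
  · exact Or.inr ⟨q, List.mem_append_right _ (List.mem_append_left _ h1), h2⟩
  by_cases hno : ∃ q ∈ evc D L n p (kms p L 0) n ++ cml D L n 3 (n + 1) p 200, Ch G U n φ q
  · obtain ⟨q, h1, h2⟩ := hno
    exact Or.inr ⟨q, List.mem_append_right _ (List.mem_append_right _ (List.mem_append_right _ h1)), h2⟩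
  by_cases hnt : ∃ q ∈ tpl e n p (kms p L 0) n, Ch G U n φ q
  · obtain ⟨q, h1, h2⟩ := hnt
    exact Or.inr ⟨q, List.mem_append_right _ (List.mem_append_right _ (List.mem_append_left _ h1)), h2⟩
  rcases hex hL hS with ⟨q, h1, h2⟩ | ⟨hxe, hxt⟩
  · exact Or.inr ⟨q, List.mem_append_left _ h1, h2⟩
  left
  have hP := h.pks_picks hG hI (L := L) [] c2 trivial (fun y hy => absurd hy List.not_mem_nil)
  rw [List.nil_append] at hP
  refine ⟨L.map φ, List.length_map _, hP, ?_⟩
  have h1 := h.evsB_le hG hww hw hT hTI hI (hI.rem hG) rem_subset hS.msk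
    (fun i hi hb => (hS.inn i hi hb).2)
  have key : ∀ v ∈ iso G (rem G U (L.map φ)), ∃ i < n, φ i = v ∧
      (kms p L 0).testBit i ≠ true ∧ full p i = true ∧ nd D p (kms p L 0) i ≠ 9 := fun v hv =>
    (h.iso_or hG hI hn hL hS hD hv (by rw [hiso]; exact notMem_empty _)).resolve_left hno
  have h2 : (iso G (rem G U (L.map φ))).card ≤ n00 D n p (kms p L 0) := by
    rw [n00_eq]
    choose! f hf using key
    refine card_le_card_of_injOn f (fun v hv => ?_) fun v hv v' hv' e => ?_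
    · obtain ⟨a1, a2, a3, a4, a5⟩ := hf v hv
      rw [mem_coe, mem_filter, mem_range]
      exact ⟨a1, a3, a4, a5⟩
    · rw [← (hf v hv).2.1, ← (hf v' hv').2.1, e]
  obtain ⟨R', hR'⟩ : ∃ A, A = (range n).filter (fun i => (kms p L 0).testBit i ≠ true ∧
    ¬ (full p i = true ∧ nd D p (kms p L 0) i ≠ 9) ∧ dn p i + exn p (kms p L 0) i ≠ 0 ∧
    ntr e p (kms p L 0) i = true) := ⟨_, rfl⟩
  have hN : (isr G (rem G U (L.map φ)) n p φ).card ≤ 0 := by
    rw [Nat.le_zero, card_eq_zero, eq_empty_iff_forall_notMem]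
    intro v hv
    obtain ⟨h3, h4⟩ := mem_filter.1 hv
    obtain ⟨i, a1, a2, -, a4, -⟩ := key v h3
    exact h4 ⟨i, a1, a2, a4⟩
  obtain ⟨es, ek, k1, k2, k3⟩ := h.bon_coreK hG hI rem_subset hS.msk hD (S := skb e n p (kms p L 0))
    (R := R') (fun i hi => mem_range.1 (mem_filter.1 hi).1) (fun i hi hno => skb_out h hS.msk hi hno)
    (fun i hi => by
    rw [hR', mem_filter, mem_range] at hi
    obtain ⟨i1, i2, i3, i4, i5⟩ := hi
    refine ⟨i1, mem_sdiff.2 ⟨?_, fun hc => ?_⟩, ?_, ?_⟩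
    · by_contra hc
      exact i2 ((hS.msk i i1).2 hc)
    · obtain ⟨j, a1, a2, -, a4, a5⟩ := key _ hc
      rw [h.inj j a1 i i1 a2] at a4 a5
      exact i3 ⟨a4, a5⟩
    · exact (h.tp_or hG hI rem_subset (by omega) hS.msk i1 i2 i4 i5).resolve_right hnt
    · by_cases ht : tpc p i = true
      · exact Or.inr (h.tpc_tri i1 ht)
      · exact Or.inl (mem_filter.2 ⟨mem_range.2 i1, ht, Or.inr i5⟩)) hN
  rw [mul_zero, add_zero, ← kbK_eq, ← hkt] at k1
  have h3 : kaEK e D n p (kms p L 0) = ∑ i ∈ R', (dn p i + exn p (kms p L 0) i) := by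
    unfold kaEK
    rw [sm_eq, hR', sum_filter]
    refine sum_congr rfl fun i _ => ?_
    rw [frc_eq, tb_eq]
    change (bif Nat.beq (dn p i + exn p (kms p L 0) i) 0 || _ || _ || _ then 0 else
      dn p i + exn p (kms p L 0) i) = _
    by_cases h0 : dn p i + exn p (kms p L 0) i = 0
    · rw [h0, ite_self]
      rfl
    · rw [beq_false h0]
      by_cases h4 : nd D p (kms p L 0) i = 9
      · rw [h4]
        cases (kms p L 0).testBit i <;> cases full p i <;> cases ntr e p (kms p L 0) i <;> simp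
      · rw [beq_false h4]
        cases (kms p L 0).testBit i <;> cases full p i <;> cases ntr e p (kms p L 0) i <;> simp [h4]
  rw [← h3] at k2
  have hx := h.xdc_le hG (rem_subset (L := L.map φ)) hS.msk x c
  rw [PsiT_iso, PsiT_iso, List.length_map]
  unfold PsiI
  rw [hiso, card_empty, mul_zero, add_zero]
  rw [← hka] at k2
  have h4 : P * L.length + ct (kms p L 0) (ims p L 0) + dl * n00 D n p (kms p L 0) +
      tcH D b kt ka (crT (kms p L 0) (ims p L 0)) (ctT (kms p L 0) (ims p L 0)) ≤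
      evs T TI n p (kms p L 0) (ims p L 0) + (xdc x c n p (kms p L 0) + cr (kms p L 0) (ims p L 0)) +
        (b * dnk n p (kms p L 0) + gnH ne D b ka (crT (kms p L 0) (ims p L 0))
          (ctT (kms p L 0) (ims p L 0))) := hc3
  have h5 := cap_arith (D := D) (b := b) (dl := dl) (Ps' := PsiT w G (rem G U (L.map φ)))
    (Ps := PsiT w G U + (xdc x c n p (kms p L 0) + cr (kms p L 0) (ims p L 0)))
    (OC := 0) (E := evs T TI n p (kms p L 0) (ims p L 0) +
      (xdc x c n p (kms p L 0) + cr (kms p L 0) (ims p L 0)))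
    (PC := P * L.length + ct (kms p L 0) (ims p L 0))
    (Z := ∑ z ∈ U \ rem G U (L.map φ), n1 G U z) (ne := ne) (by omega) k3 k1 k2 h2 (kUT_zero hD) hxt hne
    (by omega)
  omega

/-- the test and the children, the worst case for isolated vertices -/
def evlH (ne e x : Bool) (P T TI D dl b c n p : ℕ) (L : List ℕ) (cr ct crT ctT : ℕ → ℕ → ℕ)
    (xs : List (ℕ × ℕ)) : Option (List (ℕ × ℕ)) :=
  frc (kms p L 0) fun M => frc (ims p L 0) fun IN =>
    frc (Nat.add (ndr D n p M) (xN D n p M (opm2 n p M IN))) fun N =>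
    frc (Nat.add (kbK e n p M) (Nat.mul D N)) fun kt => frc (kaWK e D n p M) fun ka =>
    frc (crT M IN) fun c1 => frc (ctT M IN) fun c2 =>
    bif Nat.ble (Nat.succ n) 40 && pks n p L 0 &&
      Nat.ble (Nat.add (Nat.add (Nat.add (Nat.mul P L.length) (ct M IN))
        (Nat.mul dl (Nat.add (n00 D n p M) N))) (tcH D b kt ka c1 c2))
        (Nat.add (Nat.add (evs T TI n p M IN) (Nat.add (xdc x c n p M) (cr M IN)))
          (Nat.add (Nat.mul b (dnk n p M)) (gnH ne D b ka c1 c2)))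
    then some (xs ++ (kin n p M IN n ++ tpl e n p M n)) else none

/-- **the step with the worst case for isolated vertices** -/
theorem evlH_ch (hG : G.IsRegularOfDegree 3) {w w' : TF} {b : ℕ} (hww : Pair w w' b) (hw : w'.Pos)
    {ne e x : Bool} {P T TI D dl c : ℕ} (hT : TabK w' 0 T) (hTI : TabKI w' 0 TI) {U : Finset V} (hI : Inv G U)
    (hD : ∀ x ∈ U, n1 G U x ≤ D) (hiso : iso G U = ∅) {n p : ℕ} {L : List ℕ} {R : List (ℕ × ℕ)}
    {cr ct crT ctT : ℕ → ℕ → ℕ} {xs : List (ℕ × ℕ)}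
    (hR : evlH ne e x P T TI D dl b c n p L cr ct crT ctT xs = some R) {φ ν : ℕ → V} (h : Emb G U n p φ ν)
    {Ex ET : Finset V → ℕ} (hne : ne = true → ET U = 0) (hex : (∀ y ∈ L, y < n ∧ full p y = true) →
      Stn G U (rem G U (L.map φ)) n p (kms p L 0) (ims p L 0) φ ν → (∃ q ∈ xs, Ch G U n φ q) ∨
        (Ex (rem G U (L.map φ)) + cr (kms p L 0) (ims p L 0) ≤ Ex U + ct (kms p L 0) (ims p L 0) ∧
          ET (rem G U (L.map φ)) + crT (kms p L 0) (ims p L 0) ≤ ET U + ctT (kms p L 0) (ims p L 0))) :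
    GoodH w dl P b c Ex ET G U L.length ∨ ∃ q ∈ R, Ch G U n φ q := by
  classical
  unfold evlH at hR
  rw [frc_eq, frc_eq, frc_eq, frc_eq, frc_eq, frc_eq, frc_eq] at hR
  obtain ⟨N, hNd⟩ : ∃ N, N = Nat.add (ndr D n p (kms p L 0))
    (xN D n p (kms p L 0) (opm2 n p (kms p L 0) (ims p L 0))) := ⟨_, rfl⟩
  rw [← hNd] at hR
  obtain ⟨kt, hkt⟩ : ∃ kt, kt = Nat.add (kbK e n p (kms p L 0)) (Nat.mul D N) := ⟨_, rfl⟩
  obtain ⟨ka, hka⟩ : ∃ ka, ka = kaWK e D n p (kms p L 0) := ⟨_, rfl⟩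
  rw [← hkt, ← hka] at hR
  cases hc : Nat.ble (Nat.succ n) 40 && pks n p L 0 &&
      Nat.ble (Nat.add (Nat.add (Nat.add (Nat.mul P L.length) (ct (kms p L 0) (ims p L 0)))
        (Nat.mul dl (Nat.add (n00 D n p (kms p L 0)) N))) (tcH D b kt ka (crT (kms p L 0) (ims p L 0))
          (ctT (kms p L 0) (ims p L 0))))
        (Nat.add (Nat.add (evs T TI n p (kms p L 0) (ims p L 0))
          (Nat.add (xdc x c n p (kms p L 0)) (cr (kms p L 0) (ims p L 0))))
          (Nat.add (Nat.mul b (dnk n p (kms p L 0))) (gnH ne D b ka (crT (kms p L 0) (ims p L 0))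
            (ctT (kms p L 0) (ims p L 0)))))
  · rw [hc, cond_false] at hR
    exact absurd hR (by simp)
  rw [hc, cond_true, Option.some.injEq] at hR
  simp only [Bool.and_eq_true] at hc
  obtain ⟨⟨c1, c2⟩, c3⟩ := hc
  have hn : n < 40 := Nat.le_of_ble_eq_true c1
  have hL := pks_of c2
  have hc3 := Nat.le_of_ble_eq_true c3
  rw [← hR]
  rcases h.stn_or hG hI hn hL with ⟨q, h1, h2⟩ | hS
  · exact Or.inr ⟨q, List.mem_append_right _ (List.mem_append_left _ h1), h2⟩
  by_cases hnt : ∃ q ∈ tpl e n p (kms p L 0) n, Ch G U n φ q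
  · obtain ⟨q, h1, h2⟩ := hnt
    exact Or.inr ⟨q, List.mem_append_right _ (List.mem_append_right _ h1), h2⟩
  rcases hex hL hS with ⟨q, h1, h2⟩ | ⟨hxe, hxt⟩
  · exact Or.inr ⟨q, List.mem_append_left _ h1, h2⟩
  left
  have hP := h.pks_picks hG hI (L := L) [] c2 trivial (fun y hy => absurd hy List.not_mem_nil)
  rw [List.nil_append] at hP
  refine ⟨L.map φ, List.length_map _, hP, ?_⟩
  have h1 := h.evsB_le hG hww hw hT hTI hI (hI.rem hG) rem_subset hS.msk
    (fun i hi hb => (hS.inn i hi hb).2)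
  have hN : (isr G (rem G U (L.map φ)) n p φ).card ≤ N := by
    rw [hNd]
    exact h.isr_le hG hI hS hD hiso
  have hnd : ∀ i < n, φ i ∈ iso G (rem G U (L.map φ)) → nd D p (kms p L 0) i ≠ 9 := fun i hi hv => by
    have h3 := (h.nd_le hG hS.sub hS.msk hi hv (by rw [hiso]; exact notMem_empty _)
      (hD _ (h.mem i hi))).trans (fro_card hG)
    omega
  have h2 : (iso G (rem G U (L.map φ))).card ≤ n00 D n p (kms p L 0) + N := by
    rw [← card_filter_add_card_filter_not (s := iso G (rem G U (L.map φ)))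
      (fun v => ∃ i, i < n ∧ φ i = v ∧ full p i = true)]
    refine Nat.add_le_add ?_ hN
    rw [n00_eq]
    have key : ∀ v ∈ (iso G (rem G U (L.map φ))).filter (fun v => ∃ i, i < n ∧ φ i = v ∧ full p i = true),
        ∃ i < n, φ i = v ∧ (kms p L 0).testBit i ≠ true ∧ full p i = true ∧
          nd D p (kms p L 0) i ≠ 9 := fun v hv => by
      obtain ⟨h3, i, i1, i2, i3⟩ := mem_filter.1 hv
      refine ⟨i, i1, i2, fun hb => (hS.msk i i1).1 hb ?_, i3, hnd i i1 (by rw [i2]; exact h3)⟩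
      rw [i2]
      exact (mem_iso.1 h3).1
    choose! f hf using key
    refine card_le_card_of_injOn f (fun v hv => ?_) fun v hv v' hv' e => ?_
    · obtain ⟨a1, a2, a3, a4, a5⟩ := hf v hv
      rw [mem_coe, mem_filter, mem_range]
      exact ⟨a1, a3, a4, a5⟩
    · rw [← (hf v hv).2.1, ← (hf v' hv').2.1, e]
  obtain ⟨R', hR'⟩ : ∃ A, A = (range n).filter (fun i => (kms p L 0).testBit i ≠ true ∧
    nd D p (kms p L 0) i = 9 ∧ dn p i + exn p (kms p L 0) i ≠ 0 ∧
    ntr e p (kms p L 0) i = true) := ⟨_, rfl⟩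
  obtain ⟨es, ek, k1, k2, k3⟩ := h.bon_coreK hG hI rem_subset hS.msk hD (S := skb e n p (kms p L 0))
    (R := R') (fun i hi => mem_range.1 (mem_filter.1 hi).1) (fun i hi hno => skb_out h hS.msk hi hno)
    (fun i hi => by
    rw [hR', mem_filter, mem_range] at hi
    obtain ⟨i1, i2, i3, i4, i5⟩ := hi
    refine ⟨i1, mem_sdiff.2 ⟨?_, fun hc => hnd i i1 hc i3⟩, ?_, ?_⟩
    · by_contra hc
      exact i2 ((hS.msk i i1).2 hc)
    · exact (h.tp_or hG hI rem_subset hn hS.msk i1 i2 i4 i5).resolve_right hnt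
    · by_cases ht : tpc p i = true
      · exact Or.inr (h.tpc_tri i1 ht)
      · exact Or.inl (mem_filter.2 ⟨mem_range.2 i1, ht, Or.inr i5⟩)) hN
  rw [← kbK_eq] at k1
  change _ ≤ kbK e n p (kms p L 0) + D * N + _ + _ at k1
  have h3 : kaWK e D n p (kms p L 0) = ∑ i ∈ R', (dn p i + exn p (kms p L 0) i) := by
    unfold kaWK
    rw [sm_eq, hR', sum_filter]
    refine sum_congr rfl fun i _ => ?_
    rw [frc_eq, tb_eq]
    change (bif Nat.beq (dn p i + exn p (kms p L 0) i) 0 || _ || _ || _ then 0 else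
      dn p i + exn p (kms p L 0) i) = _
    by_cases h0 : dn p i + exn p (kms p L 0) i = 0
    · rw [h0, ite_self]
      rfl
    · rw [beq_false h0]
      by_cases h4 : nd D p (kms p L 0) i = 9
      · rw [h4]
        cases (kms p L 0).testBit i <;> cases ntr e p (kms p L 0) i <;> simp
      · rw [beq_false h4]
        simp [h4]
  rw [← h3] at k2
  have hx := h.xdc_le hG (rem_subset (L := L.map φ)) hS.msk x c
  rw [PsiT_iso, PsiT_iso, List.length_map]
  unfold PsiI
  rw [hiso, card_empty, mul_zero, add_zero]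
  rw [← hka] at k2
  have hkt' : kt = kbK e n p (kms p L 0) + D * N := hkt
  rw [← hkt'] at k1
  have h4 : P * L.length + ct (kms p L 0) (ims p L 0) + dl * (n00 D n p (kms p L 0) + N) +
      tcH D b kt ka (crT (kms p L 0) (ims p L 0)) (ctT (kms p L 0) (ims p L 0)) ≤
      evs T TI n p (kms p L 0) (ims p L 0) + (xdc x c n p (kms p L 0) + cr (kms p L 0) (ims p L 0)) +
        (b * dnk n p (kms p L 0) + gnH ne D b ka (crT (kms p L 0) (ims p L 0))
          (ctT (kms p L 0) (ims p L 0))) := hc3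
  have h5 := cap_arith (D := D) (b := b) (dl := dl) (Ps' := PsiT w G (rem G U (L.map φ)))
    (Ps := PsiT w G U + (xdc x c n p (kms p L 0) + cr (kms p L 0) (ims p L 0)))
    (OC := 0) (E := evs T TI n p (kms p L 0) (ims p L 0) +
      (xdc x c n p (kms p L 0) + cr (kms p L 0) (ims p L 0)))
    (PC := P * L.length + ct (kms p L 0) (ims p L 0))
    (Z := ∑ z ∈ U \ rem G U (L.map φ), n1 G U z) (ne := ne) (by omega) k3 k1 k2 h2 (kUT_zero hD) hxt hne
    (by omega)
  omega

end EF18
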