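import Pool.Agent.Lib.MP_ef18bd_co.P.Ev

/-!
# The completions of a new isolated vertex

`cml`: all ways to complete the open ports of a node which is isolated after the removal of the balls of the
picks. `evb`: the step whose children reveal one new isolated vertex.
-/

namespace EF18

open Finset

variable {V : Type} [Fintype V] [DecidableEq V] {G : SimpleGraph V} [DecidableRel G.Adj]

/-! ### extensions -/

/-- known digits are kept -/
def Ext (p p' : ℕ) : Prop := ∀ k, dg p k ≠ 0 → dg p' k = dg p k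

theorem Ext.dmask {p p' : ℕ} (h : Ext p p') {j t : ℕ} (ht : (dmask p j).testBit t = true) :
    (EF18.dmask p' j).testBit t = true := by
  obtain ⟨k, l, h1, h2, h3⟩ := dmask_iff.1 ht
  exact dmask_iff.2 ⟨k, l, h1, (h k (by omega)).trans h2, h3⟩

theorem Ext.ball {p p' : ℕ} (h : Ext p p') {x t : ℕ} (ht : (ball p x).testBit t = true) :
    (EF18.ball p' x).testBit t = true := by
  rcases ball_iff.1 ht with rfl | ⟨k, hk, ⟨l, hl, hlt⟩ | ⟨l, hl, hlt⟩⟩
  · exact ball_iff.2 (Or.inl rfl)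
  · refine ball_iff.2 (Or.inr ⟨k, hk, Or.inl ⟨l, (h k (by omega)).trans hl, ?_⟩⟩)
    rcases hlt with hlt | ⟨k', l', h1, h2, h3⟩
    · exact Or.inl hlt
    · exact Or.inr ⟨k', l', h1, (h k' (by omega)).trans h2, h3⟩
  · exact ball_iff.2 (Or.inr ⟨k, hk, Or.inr ⟨l, (h k (by omega)).trans hl, hlt⟩⟩)

theorem Ext.kms {p p' : ℕ} (h : Ext p p') {L : List ℕ} {t : ℕ} (ht : (kms p L 0).testBit t = true) :
    (EF18.kms p' L 0).testBit t = true := by
  rcases kms_iff.1 ht with h0 | ⟨x, hx, hb⟩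
  · exact kms_iff.2 (Or.inl h0)
  · exact kms_iff.2 (Or.inr ⟨x, hx, h.ball hb⟩)

theorem Ext.ims {p p' : ℕ} (h : Ext p p') {L : List ℕ} {t : ℕ} (ht : (ims p L 0).testBit t = true) :
    (EF18.ims p' L 0).testBit t = true := by
  rcases ims_iff.1 ht with h0 | ⟨x, hx, hb⟩
  · exact ims_iff.2 (Or.inl h0)
  · exact ims_iff.2 (Or.inr ⟨x, hx, hb.imp id fun hb => h.dmask hb⟩)

theorem Ext.full {p p' : ℕ} (h : Ext p p') {x : ℕ} (hx : full p x = true) : EF18.full p' x = true :=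
  full_iff.2 fun k hk => by
    have := full_iff.1 hx k hk
    rwa [h k this]

theorem Ext.refl (p : ℕ) : Ext p p := fun _ _ => rfl

theorem Ext.trans {p q r : ℕ} (h : Ext p q) (h' : Ext q r) : Ext p r := fun k hk => by
  rw [h' k (by rw [h k hk]; exact hk), h k hk]

theorem ext_one {p k c : ℕ} (h0 : dg p k = 0) (hc : c < 256) : Ext p (p + c * 256 ^ k) := fun j hj => by
  rw [dg_add h0 hc, if_neg (by rintro rfl; exact hj h0)]

theorem ext_pair {p k l c d : ℕ} (hkl : k ≠ l) (h0k : dg p k = 0) (h0l : dg p l = 0) (hc : c < 256)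
    (hd : d < 256) : Ext p (p + c * 256 ^ k + d * 256 ^ l) := fun j hj => by
  rw [dg_pair hkl h0k h0l hc hd, if_neg (by rintro rfl; exact hj h0l), if_neg (by rintro rfl; exact hj h0k)]

/-! ### the end of a port, the other ports are kept -/

/-- the port of a known node towards a given neighbour, moved to the first open port -/
theorem Emb.port' (hG : G.IsRegularOfDegree 3) {U : Finset V} {n p : ℕ} {φ ν : ℕ → V}
    (h : Emb G U n p φ ν) {j : ℕ} (hj : j < n) {z : V} (hz : G.Adj (φ j) z)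
    (h0 : ∀ l, l / 3 = j → l < 3 * n → ν l = z → dg p l = 0) :
    ∃ ν' : ℕ → V, Emb G U n p φ ν' ∧ (∀ κ, κ / 3 ≠ j → ν' κ = ν κ) ∧ ν' (fo p j) = z ∧
      dg p (fo p j) = 0 ∧ fo p j < 3 * n ∧
      ∀ k, k / 3 = j → dg p k = 0 → ∃ k', k' / 3 = j ∧ dg p k' = 0 ∧ ν' k' = ν k := by
  obtain ⟨l, hl1, hl2, hl3⟩ := h.surj hG hj hz
  have h1 := h0 l hl1 hl2 hl3
  have h2 := fo_open hl1 h1
  have h3 := fo_div p j
  refine ⟨_, h.swap (b := fo p j) (c := l) (by omega) hl2 (by omega) h2 h1, fun κ hκ => ?_, ?_, h2,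
    by omega, fun k hk hk0 => ⟨Equiv.swap (fo p j) l k, ?_, ?_, ?_⟩⟩
  · rw [Equiv.swap_apply_of_ne_of_ne (by rintro rfl; exact hκ h3) (by rintro rfl; exact hκ hl1)]
  · rw [Equiv.swap_apply_left, hl3]
  · rcases eq_or_ne k (fo p j) with rfl | h4
    · rw [Equiv.swap_apply_left]; exact hl1
    · rcases eq_or_ne k l with rfl | h5
      · rw [Equiv.swap_apply_right]; exact h3
      · rw [Equiv.swap_apply_of_ne_of_ne h4 h5]; exact hk
  · rcases eq_or_ne k (fo p j) with rfl | h4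
    · rw [Equiv.swap_apply_left]; exact h1
    · rcases eq_or_ne k l with rfl | h5
      · rw [Equiv.swap_apply_right]; exact h2
      · rw [Equiv.swap_apply_of_ne_of_ne h4 h5]; exact hk0
  · rw [Equiv.swap_apply_self]

/-- a direct connection to a known node -/
theorem Emb.dirq (hG : G.IsRegularOfDegree 3) {U : Finset V} {n p : ℕ} {φ ν : ℕ → V}
    (h : Emb G U n p φ ν) (hn : n < 40) {k : ℕ} (hk : k < 3 * n) (h0 : dg p k = 0) {j : ℕ} (hj : j < n)
    (hjy : φ j = ν k) : j ≠ k / 3 ∧ dg p (fo p j) = 0 ∧ adjd p (k / 3) j = false ∧ ∃ ν' : ℕ → V,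
      Emb G U n (p + (2 + 2 * fo p j) * 256 ^ k + (2 + 2 * k) * 256 ^ fo p j) φ ν' ∧
      ∀ κ, κ / 3 ≠ j → ν' κ = ν κ := by
  have hkn : k / 3 < n := by omega
  have hadj := h.adj k hk
  have hjk : k / 3 ≠ j := by
    rintro rfl
    rw [hjy] at hadj
    exact G.loopless.irrefl _ hadj
  obtain ⟨ν', h', f1, f2, f3, f4, -⟩ := h.port' hG hj (z := φ (k / 3)) (by rw [hjy]; exact hadj.symm)
    (fun l hl hl2 hl3 => by
      by_contra hne
      rcases Nat.lt_or_ge (dg p l) 2 with h1 | h1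
      · exact (h.dead l hl2 (by omega)).1 (hl3 ▸ h.mem _ hkn)
      · rcases Nat.even_or_odd' (dg p l) with ⟨c, hc | hc⟩
        · obtain ⟨a1, a2, a3, a4⟩ := h.dir l hl2 (c - 1) (by omega)
          rw [hl3] at a3
          have h2 := h.inj _ hkn _ (by omega) a3
          rw [hl, hjy] at a4
          have h3 := h.pinj _ a1 _ hk h2.symm a4
          rw [h3, h0] at a2
          omega
        · exact (h.lnk l hl2 (c - 1) (by omega)).2.2.2.1 (hl3 ▸ h.mem _ hkn))
  have hfd := fo_div p j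
  have hne : adjd p (k / 3) j = false := by
    rw [← Bool.not_eq_true]
    intro ht
    obtain ⟨a, l, b1, b2, b3⟩ := adjd_iff ht
    have ha : a < 3 * n := by omega
    obtain ⟨a1, a2, a3, a4⟩ := h.dir a ha l b2
    rw [b3, hjy] at a3
    have h3 := h.pinj _ ha _ hk b1 a3
    rw [h3, h0] at b2
    omega
  refine ⟨hjk.symm, f3, hne, ν', h'.set_dir (by omega) hk f4
    (fun e => hjk (by rw [e, hfd])) h0 f3 ?_ f2, f1⟩
  rw [f1 k hjk, hfd, hjy]

/-- a link to a known node -/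
theorem Emb.lnkq (hG : G.IsRegularOfDegree 3) {U : Finset V} (hI : Inv G U) {n p : ℕ} {φ ν : ℕ → V}
    (h : Emb G U n p φ ν) (hn : n < 40) {k : ℕ} (hk : k < 3 * n) (h0 : dg p k = 0) (hy : ν k ∉ U) {j : ℕ}
    (hj : j < n) (hax : G.Adj (ν k) (φ j)) (hjk : j ≠ k / 3) : dg p (fo p j) = 0 ∧ ∃ ν' : ℕ → V,
      Emb G U n (p + (3 + 2 * fo p j) * 256 ^ k + (3 + 2 * k) * 256 ^ fo p j) φ ν' ∧
      ∀ κ, κ / 3 ≠ j → ν' κ = ν κ := by
  have hkn : k / 3 < n := by omega
  have hadj := h.adj k hk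
  have hne : φ j ≠ φ (k / 3) := fun e => hjk (h.inj _ hj _ hkn e)
  obtain ⟨ν', h', f1, f2, f3, f4, -⟩ := h.port' hG hj (z := ν k) hax.symm
    (fun l hl hl2 hl3 => by
      by_contra hne0
      rcases Nat.lt_or_ge (dg p l) 2 with h1 | h1
      · have h2 := (h.dead l hl2 (by omega)).2 (φ (k / 3)) (h.mem _ hkn)
          (by rw [hl3]; exact hadj.symm)
        rw [hl] at h2
        exact hne h2.symm
      · rcases Nat.even_or_odd' (dg p l) with ⟨c, hc | hc⟩
        · obtain ⟨a1, a2, a3, a4⟩ := h.dir l hl2 (c - 1) (by omega)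
          rw [hl3] at a3
          exact hy (a3 ▸ h.mem _ (by omega))
        · obtain ⟨a1, a2, a3, a4, a5⟩ := h.lnk l hl2 (c - 1) (by omega)
          rw [hl3] at a5
          have h4 := h.adj _ a1
          rw [a5] at h4
          rcases hI.two hy (h.mem _ hkn) (h.mem _ hj) hne.symm hadj.symm hax (h.mem _ (by omega)) h4.symm
            with h5 | h5
          · have h6 := h.inj _ (by omega) _ hkn h5
            have h7 := h.pinj _ a1 _ hk h6 a5
            rw [h7, h0] at a2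
            omega
          · have h6 := h.inj _ (by omega) _ hj h5
            exact a3 (by omega))
  have hfd := fo_div p j
  exact ⟨f3, ν', h'.set_lnk (by omega) hk f4 (by rw [hfd]; exact hjk.symm) h0 f3
    (by rw [f1 k hjk.symm]; exact hy) (by rw [f1 k hjk.symm, f2]), f1⟩

/-! ### the keys of the open ports -/

/-- the state of the computation: `i` is isolated after the step -/
structure Cst (G : SimpleGraph V) [DecidableRel G.Adj] (U : Finset V) (n p : ℕ) (L : List ℕ) (i : ℕ)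
    (φ ν : ℕ → V) : Prop where
  emb : Emb G U n p φ ν
  inn : i < n
  iso : φ i ∈ iso G (rem G U (L.map φ))
  pick : ∀ x ∈ L, x < n ∧ full p x = true
  msk : ∀ j < n, φ j ∉ rem G U (L.map φ) → (kms p L 0).testBit j = true

/-- the kind of a port -/
def Key (G : SimpleGraph V) [DecidableRel G.Adj] (U : Finset V) (n p : ℕ) (L : List ℕ) (φ ν : ℕ → V)
    (y : V) (m : ℕ) : Prop :=
  (m = 0 ∧ y ∉ U ∧ nU G U y = 1) ∨
  (∃ j < n, (kms p L 0).testBit j = true ∧ m = j + 1 ∧ (y = φ j ∨ y ∉ U ∧ G.Adj y (φ j))) ∨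
  ∃ t < n, ∃ k < 3 * n, (ims p L 0).testBit t = true ∧ k / 3 = t ∧ dg p k = 0 ∧ m = 65 + t ∧ ν k ∈ U ∧
    (∀ j < n, φ j ≠ ν k) ∧ (y = ν k ∨ y ∉ U ∧ G.Adj y (ν k))

/-- all open ports of `i` have keys at most `b` -/
def Bd (G : SimpleGraph V) [DecidableRel G.Adj] (U : Finset V) (n p : ℕ) (L : List ℕ) (i : ℕ)
    (φ ν : ℕ → V) (b : ℕ) : Prop :=
  ∀ κ < 3 * n, κ / 3 = i → dg p κ = 0 → ∃ m ≤ b, Key G U n p L φ ν (ν κ) m

/-- the node `i` is not removed -/
theorem Cst.nk {U : Finset V} {n p : ℕ} {L : List ℕ} {i : ℕ} {φ ν : ℕ → V}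
    (h : Cst G U n p L i φ ν) : (kms p L 0).testBit i ≠ true := fun hb =>
  (h.emb.kms_out (fun x hx => (h.pick x hx).1) hb).2 (mem_iso.1 h.iso).1

theorem Key.mono {U : Finset V} {n p n' p' : ℕ} {L : List ℕ} {φ ν φ' ν' : ℕ → V} {y : V} {m : ℕ}
    (h : Key G U n p L φ ν y m) (hn : n ≤ n') (hp : Ext p p') (hφ : ∀ j < n, φ' j = φ j)
    (h3 : ∀ k < 3 * n, (ims p L 0).testBit (k / 3) = true → dg p k = 0 → (∀ j < n, φ j ≠ ν k) →
      ν k ∈ U → m = 65 + k / 3 → (y = ν k ∨ y ∉ U ∧ G.Adj y (ν k)) →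
      ∃ m' ≤ m, Key G U n' p' L φ' ν' y m') : ∃ m' ≤ m, Key G U n' p' L φ' ν' y m' := by
  rcases h with h | ⟨j, hj, h1, h2, h4⟩ | ⟨t, ht, k, hk, h1, h2, h4, h5, h6, h7, h8⟩
  · exact ⟨m, le_rfl, Or.inl h⟩
  · refine ⟨m, le_rfl, Or.inr (Or.inl ⟨j, by omega, hp.kms h1, h2, ?_⟩)⟩
    rw [hφ j hj]
    exact h4
  · exact h3 k hk (by rw [h2]; exact h1) h4 h7 h6 (by rw [h2]; exact h5) h8

/-- the port with the largest key is moved to the front -/
theorem Cst.front {U : Finset V} {n p : ℕ} {L : List ℕ} {i : ℕ} {φ ν : ℕ → V}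
    (h : Cst G U n p L i φ ν) {b : ℕ} (hb : Bd G U n p L i φ ν b) (hf : full p i ≠ true) :
    ∃ ν' : ℕ → V, Cst G U n p L i φ ν' ∧ dg p (fo p i) = 0 ∧ ∃ m ≤ b, Key G U n p L φ ν' (ν' (fo p i)) m ∧
      Bd G U n p L i φ ν' m := by
  classical
  -- an open port
  have h1 : ∃ κ, κ / 3 = i ∧ dg p κ = 0 := by
    by_contra hc
    push Not at hc
    exact hf (full_iff.2 hc)
  obtain ⟨κ0, h2, h3⟩ := h1
  have hi := h.inn
  obtain ⟨K, hK⟩ : ∃ K, K = (range (3 * n)).filter fun κ => κ / 3 = i ∧ dg p κ = 0 := ⟨_, rfl⟩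
  have mK : ∀ κ, κ ∈ K ↔ κ < 3 * n ∧ κ / 3 = i ∧ dg p κ = 0 := fun κ => by
    rw [hK, mem_filter, mem_range]
  have hbK : ∀ κ ∈ K, ∃ m, m ≤ b ∧ Key G U n p L φ ν (ν κ) m := fun κ hκ => by
    obtain ⟨a1, a2, a3⟩ := (mK κ).1 hκ
    obtain ⟨m, b1, b2⟩ := hb κ a1 a2 a3
    exact ⟨m, b1, b2⟩
  choose! f hf1 hf2 using hbK
  obtain ⟨κ, hκ, hmax⟩ := exists_max_image K f ⟨κ0, (mK κ0).2 ⟨by omega, h2, h3⟩⟩
  obtain ⟨a1, a2, a3⟩ := (mK κ).1 hκ
  have hf0 : dg p (fo p i) = 0 := fo_open h2 h3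
  have hfd := fo_div p i
  have hsw : ∀ k, k / 3 ≠ i → Equiv.swap (fo p i) κ k = k := fun k hk =>
    Equiv.swap_apply_of_ne_of_ne (by rintro rfl; exact hk hfd) (by rintro rfl; exact hk a2)
  have hE := h.emb.swap (b := fo p i) (c := κ) (by omega) a1 (by omega) hf0 a3
  -- the keys for the new numbering
  have key : ∀ y m, Key G U n p L φ ν y m → Key G U n p L φ (fun k => ν (Equiv.swap (fo p i) κ k)) y m := by
    intro y m hk
    rcases hk with hk | hk | ⟨t, ht, k, hk, k1, k2, k3, k4, k5, k6, k7⟩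
    · exact Or.inl hk
    · exact Or.inr (Or.inl hk)
    · have hti : k / 3 ≠ i := by
        rintro rfl
        rw [k2] at h
        exact h.nk (h.emb.ims_nbr (fun x hx => (h.pick x hx).1) k1).2.1
      refine Or.inr (Or.inr ⟨t, ht, k, hk, k1, k2, k3, k4, ?_⟩)
      beta_reduce
      rw [hsw k hti]
      exact ⟨k5, k6, k7⟩
  refine ⟨_, ⟨hE, hi, h.iso, h.pick, h.msk⟩, hf0, f κ, hf1 κ hκ, key _ _ ?_, fun κ' b1 b2 b3 => ?_⟩
  · rw [Equiv.swap_apply_left]
    exact hf2 κ hκ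
  · have hσ : Equiv.swap (fo p i) κ κ' ∈ K := by
      refine (mK _).2 ?_
      rcases eq_or_ne κ' (fo p i) with rfl | h4
      · rw [Equiv.swap_apply_left]; exact ⟨a1, a2, a3⟩
      · rcases eq_or_ne κ' κ with rfl | h5
        · rw [Equiv.swap_apply_right]; exact ⟨by omega, hfd, hf0⟩
        · rw [Equiv.swap_apply_of_ne_of_ne h4 h5]; exact ⟨b1, b2, b3⟩
    exact ⟨_, hmax _ hσ, key _ _ (hf2 _ hσ)⟩

/-! ### one step -/

/-- the number of digits `1` -/
def dn (p i : ℕ) : ℕ :=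
  frc (Nat.mul 3 i) fun k => Nat.add (Nat.add (bif Nat.beq (dg p k) 1 then 1 else 0)
    (bif Nat.beq (dg p (Nat.add k 1)) 1 then 1 else 0)) (bif Nat.beq (dg p (Nat.add k 2)) 1 then 1 else 0)

/-- the partner is a removed node -/
def optK (M IN n p i b : ℕ) : ℕ → List (ℕ × ℕ × ℕ)
  | 0 => []
  | j + 1 => bif tb M j && Nat.beq (dg p (fo p j)) 0 && Nat.ble (j + 1) b then
      (bif tb IN j || !Nat.beq (sdn p M j) 0 || adjd p i j then [] else
        [(n, p + (2 + 2 * fo p j) * 256 ^ fo p i + (2 + 2 * fo p i) * 256 ^ fo p j, j + 1)]) ++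
      (n, p + (3 + 2 * fo p j) * 256 ^ fo p i + (3 + 2 * fo p i) * 256 ^ fo p j, j + 1) ::
        optK M IN n p i b j else optK M IN n p i b j

/-- the partner is an unknown removed vertex behind an inner port -/
def optY (IN n p i b : ℕ) : ℕ → List (ℕ × ℕ × ℕ)
  | 0 => []
  | t + 1 => bif tb IN t && Nat.beq (dg p (fo p t)) 0 && Nat.ble (65 + t) b then
      (n + 1, two n p 0 (fo p t) 0 (fo p i), 65 + t) :: (n + 1, two n p 0 (fo p t) 1 (fo p i), 65 + t) ::
        optY IN n p i b t else optY IN n p i b t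

/-- all options for the first open port of `i` -/
def opts (D n p : ℕ) (L : List ℕ) (i b : ℕ) : List (ℕ × ℕ × ℕ) :=
  frc (kms p L 0) fun M => frc (ims p L 0) fun IN =>
    (bif Nat.ble (Nat.succ (dn p i)) D then [(n, p + 1 * 256 ^ fo p i, 0)] else []) ++
      (optK M IN n p i b n ++ optY IN n p i b n)

theorem mem_optK {M IN n p i b : ℕ} : ∀ {m j : ℕ}, j < m → M.testBit j = true → dg p (fo p j) = 0 →
    j + 1 ≤ b → (n, p + (3 + 2 * fo p j) * 256 ^ fo p i + (3 + 2 * fo p i) * 256 ^ fo p j, j + 1) ∈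
      optK M IN n p i b m ∧ (IN.testBit j ≠ true → sdn p M j = 0 → adjd p i j = false →
      (n, p + (2 + 2 * fo p j) * 256 ^ fo p i + (2 + 2 * fo p i) * 256 ^ fo p j, j + 1) ∈
        optK M IN n p i b m) := by
  intro m
  induction m with
  | zero => intro j hj; omega
  | succ m ih =>
    intro j hj h1 h2 h3
    rw [optK]
    rcases Nat.lt_succ_iff_lt_or_eq.1 hj with h4 | rfl
    · obtain ⟨a1, a2⟩ := ih h4 h1 h2 h3
      cases tb M m && Nat.beq (dg p (fo p m)) 0 && Nat.ble (m + 1) b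
      · exact ⟨a1, a2⟩
      · refine ⟨List.mem_append_right _ (List.mem_cons_of_mem _ a1), fun x y z =>
          List.mem_append_right _ (List.mem_cons_of_mem _ (a2 x y z))⟩
    · rw [tb_eq M, h1, h2, Nat.ble_eq_true_of_le h3]
      refine ⟨List.mem_append_right _ List.mem_cons_self, fun x y z => List.mem_append_left _ ?_⟩
      rw [tb_false x, y, z]
      exact List.mem_cons_self

theorem mem_optY {IN n p i b : ℕ} : ∀ {m t : ℕ}, t < m → IN.testBit t = true → dg p (fo p t) = 0 →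
    65 + t ≤ b → (n + 1, two n p 0 (fo p t) 0 (fo p i), 65 + t) ∈ optY IN n p i b m ∧
      (n + 1, two n p 0 (fo p t) 1 (fo p i), 65 + t) ∈ optY IN n p i b m := by
  intro m
  induction m with
  | zero => intro t ht; omega
  | succ m ih =>
    intro t ht h1 h2 h3
    rw [optY]
    rcases Nat.lt_succ_iff_lt_or_eq.1 ht with h4 | rfl
    · obtain ⟨a1, a2⟩ := ih h4 h1 h2 h3
      cases tb IN m && Nat.beq (dg p (fo p m)) 0 && Nat.ble (65 + m) b
      · exact ⟨a1, a2⟩
      · exact ⟨List.mem_cons_of_mem _ (List.mem_cons_of_mem _ a1),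
          List.mem_cons_of_mem _ (List.mem_cons_of_mem _ a2)⟩
    · rw [tb_eq, h1, h2, Nat.ble_eq_true_of_le h3]
      exact ⟨List.mem_cons_self, List.mem_cons_of_mem _ List.mem_cons_self⟩

theorem dg_two {n p a k b l : ℕ} (hn : n < 40) (ha : a < 2) (hb : b < 2) (hk : k < 3 * n) (hl : l < 3 * n)
    (hkl : k ≠ l) (h0k : dg p k = 0) (h0l : dg p l = 0) (hz : ∀ k, 3 * n ≤ k → dg p k = 0) (j : ℕ) :
    dg (two n p a k b l) j = if j = 3 * n + 1 then 2 + b + 2 * l else
      if j = l then 2 + b + 2 * (3 * n + 1) else if j = 3 * n then 2 + a + 2 * k else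
      if j = k then 2 + a + 2 * (3 * n) else dg p j := by
  unfold two
  have h1 := dg_pair (c := 2 + a + 2 * (3 * n)) (d := 2 + a + 2 * k) (p := p) (k := k) (l := 3 * n)
    (by omega) h0k (hz _ le_rfl) (by omega) (by omega)
  rw [dg_pair (by omega) (by rw [h1, if_neg (by omega), if_neg (by omega)]; exact h0l)
    (by rw [h1, if_neg (by omega), if_neg (by omega)]; exact hz _ (by omega)) (by omega) (by omega), h1]

theorem Cst.dn_lt (hG : G.IsRegularOfDegree 3) {U : Finset V} {n p : ℕ} {L : List ℕ} {i : ℕ} {φ ν : ℕ → V}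
    (h : Cst G U n p L i φ ν) {D : ℕ} (hD : n1 G U (φ i) ≤ D) (h0 : dg p (fo p i) = 0)
    (hy : ν (fo p i) ∉ U ∧ nU G U (ν (fo p i)) = 1) : dn p i < D := by
  have hi := h.inn
  have e1 : n1 G U (φ i) = (if ν (3 * i) ∉ U ∧ nU G U (ν (3 * i)) = 1 then 1 else 0) +
      (if ν (3 * i + 1) ∉ U ∧ nU G U (ν (3 * i + 1)) = 1 then 1 else 0) +
      (if ν (3 * i + 2) ∉ U ∧ nU G U (ν (3 * i + 2)) = 1 then 1 else 0) := by
    unfold n1
    rw [sdiff_eq_filter', filter_filter, h.emb.card_filter hG hi]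
  have e2 : dn p i = (bif Nat.beq (dg p (3 * i)) 1 then 1 else 0) +
      (bif Nat.beq (dg p (3 * i + 1)) 1 then 1 else 0) + (bif Nat.beq (dg p (3 * i + 2)) 1 then 1 else 0) := by
    unfold dn
    rw [frc_eq]
    rfl
  have key : ∀ k, k / 3 = i → (bif Nat.beq (dg p k) 1 then 1 else 0) + (if k = fo p i then 1 else 0) ≤
      if ν k ∉ U ∧ nU G U (ν k) = 1 then 1 else 0 := by
    intro k hk
    by_cases hkf : k = fo p i
    · subst hkf
      rw [h0, if_pos hy, if_pos rfl]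
      exact le_rfl
    · rw [if_neg hkf, add_zero]
      by_cases h1 : dg p k = 1
      · rw [if_pos (nU_one_of_dead h.emb (by omega) h1), h1]
        exact le_rfl
      · rw [show Nat.beq (dg p k) 1 = false by
          rw [← Bool.not_eq_true]; exact fun e => h1 (Nat.eq_of_beq_eq_true e), cond_false]
        exact Nat.zero_le _
  have k0 := key (3 * i) (by omega)
  have k1 := key (3 * i + 1) (by omega)
  have k2 := key (3 * i + 2) (by omega)
  have hfd := fo_div p i
  have e3 : 1 ≤ (if 3 * i = fo p i then 1 else 0) + (if 3 * i + 1 = fo p i then 1 else 0) +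
      (if 3 * i + 2 = fo p i then 1 else 0) := by
    split_ifs <;> omega
  omega

/-- the partner has no other known surviving neighbour -/
theorem Cst.sdn_zero (hG : G.IsRegularOfDegree 3) {U : Finset V} {n p : ℕ} {L : List ℕ} {i : ℕ}
    {φ ν : ℕ → V} (h : Cst G U n p L i φ ν) {j b0 : ℕ} (hj : j < n) (hb : b0 < 3 * n) (hbi : b0 / 3 = i)
    (h0 : dg p b0 = 0) (hy : ν b0 = φ j) : sdn p (kms p L 0) j = 0 := by
  by_contra hc
  have hx : ∃ k, k / 3 = j ∧ sdp (kms p L 0) (dg p k) ≠ 0 := by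
    by_contra hno
    push Not at hno
    refine hc ?_
    unfold sdn
    have a0 := hno (3 * j) (by omega)
    have a1 := hno (3 * j + 1) (by omega)
    have a2 := hno (3 * j + 2) (by omega)
    change sdp (kms p L 0) (dg p (3 * j)) + sdp (kms p L 0) (dg p (3 * j + 1)) +
      sdp (kms p L 0) (dg p (3 * j + 2)) = 0
    omega
  obtain ⟨k, hk, hk0⟩ := hx
  obtain ⟨l, hl, hlb⟩ := sdp_pos hk0
  obtain ⟨a1, a2, a3, a4⟩ := h.emb.dir k (by omega) l hl
  have hi := h.inn
  obtain ⟨hvU', hv2⟩ := (iso_nbr hG).1 h.iso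
  have hadj : G.Adj (φ i) (φ j) := by
    have := h.emb.adj b0 hb
    rwa [hbi, hy] at this
  obtain ⟨z, hz⟩ := card_eq_one.1 (hv2 _ hadj).2
  have m1 : φ i ∈ G.neighborFinset (φ j) ∩ rem G U (L.map φ) :=
    mem_inter.2 ⟨(SimpleGraph.mem_neighborFinset _ _ _).2 hadj.symm, hvU'⟩
  have m2 : φ (l / 3) ∈ G.neighborFinset (φ j) ∩ rem G U (L.map φ) := by
    refine mem_inter.2 ⟨(SimpleGraph.mem_neighborFinset _ _ _).2 ?_, ?_⟩
    · have := h.emb.adj k (by omega)
      rwa [hk, a3] at this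
    · by_contra hr
      exact hlb (h.msk _ (by omega) hr)
  rw [hz, mem_singleton] at m1 m2
  have e1 := h.emb.inj _ (by omega) _ hi (m2.trans m1.symm)
  have e2 := h.emb.pinj l a1 b0 hb (by omega) (by rw [a4, hk, hy])
  rw [e2, h0] at a2
  omega

/-- the new state after an extension without a new node -/
theorem Cst.keep {U : Finset V} {n p p' : ℕ} {L : List ℕ} {i : ℕ} {φ ν ν' : ℕ → V}
    (h : Cst G U n p L i φ ν) (hp : Ext p p') (he : Emb G U n p' φ ν') : Cst G U n p' L i φ ν' :=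
  ⟨he, h.inn, h.iso, fun x hx => ⟨(h.pick x hx).1, hp.full (h.pick x hx).2⟩,
    fun j hj hr => hp.kms (h.msk j hj hr)⟩

theorem Bd.keep {U : Finset V} {n p p' : ℕ} {L : List ℕ} {i : ℕ} {φ ν ν' : ℕ → V} {m : ℕ} (hm : m < 65)
    (h : Bd G U n p L i φ ν m) (hp : Ext p p') (hν : ∀ κ, κ / 3 = i → dg p κ = 0 → dg p' κ = 0 → ν' κ = ν κ) :
    Bd G U n p' L i φ ν' m := by
  intro κ h1 h2 h3
  have h4 : dg p κ = 0 := by
    by_contra hc
    rw [hp κ hc] at h3
    exact hc h3
  obtain ⟨m', b1, b2⟩ := h κ h1 h2 h4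
  obtain ⟨m'', c1, c2⟩ := b2.mono (φ' := φ) (ν' := ν') le_rfl hp (fun _ _ => rfl)
    (fun k _ _ _ _ _ e _ => by omega)
  rw [hν κ h2 h4 h3]
  exact ⟨m'', c1.trans b1, c2⟩

/-- **one step of the completion** -/
theorem Cst.step (hG : G.IsRegularOfDegree 3) {U : Finset V} (hI : Inv G U) {n p : ℕ} {L : List ℕ} {i : ℕ}
    {φ ν : ℕ → V} {D : ℕ} (hD : n1 G U (φ i) ≤ D) (h : Cst G U n p L i φ ν) (hn : n < 40)
    (hf : full p i ≠ true) {b : ℕ} (hb : Bd G U n p L i φ ν b) :
    ∃ q ∈ opts D n p L i b, n ≤ q.1 ∧ q.1 ≤ n + 1 ∧ ∃ φ' ν' : ℕ → V, (∀ j < n, φ' j = φ j) ∧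
      Cst G U q.1 q.2.1 L i φ' ν' ∧ Bd G U q.1 q.2.1 L i φ' ν' q.2.2 := by
  obtain ⟨ν₁, h₁, h0, m, hmb, hkey, hB⟩ := h.front hb hf
  obtain ⟨b0, hb0⟩ : ∃ b0, b0 = fo p i := ⟨_, rfl⟩
  rw [← hb0] at h0 hkey
  have hi := h.inn
  have hb3 : b0 / 3 = i := by rw [hb0]; exact fo_div p i
  have hbn : b0 < 3 * n := by omega
  have hpos : dg p b0 = 0 := h0
  have hrm : φ i ∈ rem G U (L.map φ) := (mem_iso.1 h.iso).1
  have hadj : G.Adj (φ i) (ν₁ b0) := by
    have := h₁.emb.adj b0 hbn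
    rwa [hb3] at this
  unfold opts
  rw [frc_eq, frc_eq, ← hb0]
  rcases hkey with ⟨k1, k2⟩ | ⟨j, hj, k1, k2, k3⟩ | ⟨t, ht, k, hk, k1, k2, k3, k4, k5, k6, k7⟩
  · -- dead
    subst k1
    have hlt := h₁.dn_lt hG hD (by rw [← hb0]; exact h0) (by rw [← hb0]; exact k2)
    have he : Emb G U n (p + 1 * 256 ^ b0) φ ν₁ := h₁.emb.set_dead hbn h0 k2.1 fun y hy hay => by
      obtain ⟨z, hz⟩ := card_eq_one.1 k2.2
      have m1 : φ i ∈ G.neighborFinset (ν₁ b0) ∩ U :=
        mem_inter.2 ⟨(SimpleGraph.mem_neighborFinset _ _ _).2 hadj.symm, h₁.emb.mem i hi⟩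
      have m2 : y ∈ G.neighborFinset (ν₁ b0) ∩ U :=
        mem_inter.2 ⟨(SimpleGraph.mem_neighborFinset _ _ _).2 hay, hy⟩
      rw [hz, mem_singleton] at m1 m2
      rw [hb3, m1, m2]
    have hx := ext_one h0 (show 1 < 256 by norm_num)
    refine ⟨(n, p + 1 * 256 ^ b0, 0), ?_, le_rfl, Nat.le_succ n, φ, ν₁, fun _ _ => rfl, h₁.keep hx he,
      hB.keep (show (0 : ℕ) < 65 by omega) hx fun _ _ _ _ => rfl⟩
    rw [show Nat.ble (Nat.succ (dn p i)) D = true from Nat.ble_eq_true_of_le hlt]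
    exact List.mem_append_left _ List.mem_cons_self
  · -- a removed node
    have hji : j ≠ i := by
      rintro rfl
      exact h.nk k1
    have hfj := fo_div p j
    have hr := (h.emb.kms_out (fun x hx => (h.pick x hx).1) k1).2
    rcases k3 with k3 | ⟨k3, k3'⟩
    · obtain ⟨a1, a2, a3, ν', a4, a5⟩ := h₁.emb.dirq hG hn hbn h0 hj k3.symm
      have hx := ext_pair (c := 2 + 2 * fo p j) (d := 2 + 2 * b0) (p := p) (k := b0) (l := fo p j)
        (by omega) h0 a2 (by omega) (by omega)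
      refine ⟨(n, p + (2 + 2 * fo p j) * 256 ^ b0 + (2 + 2 * b0) * 256 ^ fo p j, j + 1), ?_, le_rfl,
        Nat.le_succ n, φ, ν', fun _ _ => rfl, h₁.keep hx a4, ?_⟩
      · refine List.mem_append_right _ (List.mem_append_left _ ?_)
        have := (mem_optK (i := i) (IN := ims p L 0) (n := n) (b := b) hj k1 a2 (show j + 1 ≤ b by omega)).2 (fun hc =>
          (h.emb.ims_nbr (fun x hx => (h.pick x hx).1) hc).2.2 (φ i) (by rw [← k3]; exact hadj.symm) hrm)
          (h₁.sdn_zero hG hj hbn hb3 h0 k3) (by rw [← hb3]; exact a3)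
        rwa [← hb0] at this
      · rw [← k2]
        exact hB.keep (show m < 65 by omega) hx fun κ hκ _ _ => a5 κ (by omega)
    · obtain ⟨a2, ν', a4, a5⟩ := h₁.emb.lnkq hG hI hn hbn h0 k3 hj k3' (by omega)
      have hx := ext_pair (c := 3 + 2 * fo p j) (d := 3 + 2 * b0) (p := p) (k := b0) (l := fo p j)
        (by omega) h0 a2 (by omega) (by omega)
      refine ⟨(n, p + (3 + 2 * fo p j) * 256 ^ b0 + (3 + 2 * b0) * 256 ^ fo p j, j + 1), ?_, le_rfl,
        Nat.le_succ n, φ, ν', fun _ _ => rfl, h₁.keep hx a4, ?_⟩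
      · refine List.mem_append_right _ (List.mem_append_left _ ?_)
        have := (mem_optK (i := i) (IN := ims p L 0) (n := n) hj k1 a2 (show j + 1 ≤ b by omega)).1
        rwa [← hb0] at this
      · rw [← k2]
        exact hB.keep (show m < 65 by omega) hx fun κ hκ _ _ => a5 κ (by omega)
  · -- a new removed node
    obtain ⟨-, hkt, hnb⟩ := h.emb.ims_nbr (fun x hx => (h.pick x hx).1) k1
    have hti : t ≠ i := by
      rintro rfl
      exact h.nk hkt
    have hft := fo_div p t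
    have hadk : G.Adj (φ t) (ν₁ k) := by
      have := h₁.emb.adj k hk
      rwa [k2] at this
    obtain ⟨ν₂, h₂, c1, c2, c3, c4, c5⟩ := h₁.emb.port' hG ht hadk (fun l hl hl2 hl3 => by
      rw [h₁.emb.pinj l hl2 k hk (by omega) hl3]; exact k3)
    -- the second kind
    obtain ⟨β, hβ, hH⟩ : ∃ β, β < 2 ∧ Hng G U ν₂ β b0 (ν₁ k) := by
      rcases k7 with k7 | ⟨k7, k8⟩
      · exact ⟨0, by omega, Or.inl ⟨rfl, by rw [c1 b0 (by omega), k7]⟩⟩
      · exact ⟨1, by omega, Or.inr ⟨rfl, by rw [c1 b0 (by omega)]; exact k7, by rw [c1 b0 (by omega)]; exact k8⟩⟩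
    obtain ⟨φ', ν', d1, d2, d3, d4⟩ := h₂.two hG hI hn (a := 0) (k := fo p t) (b := β) (l := b0) (y := ν₁ k)
      k5 k6 c4 hbn (by omega) c3 h0 (Or.inl ⟨rfl, c2⟩) hH
    have hdg := dg_two (a := 0) (k := fo p t) (b := β) (l := b0) hn (by omega) hβ c4 hbn (by omega) c3 h0
      h₂.zero
    have hx : Ext p (two n p 0 (fo p t) β b0) := fun κ hκ => by
      rw [hdg, if_neg (by rintro rfl; exact hκ (h₂.zero _ (by omega))), if_neg (by rintro rfl; exact hκ h0),
        if_neg (by rintro rfl; exact hκ (h₂.zero _ (by omega))), if_neg (by rintro rfl; exact hκ c3)]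
    have hmap : L.map φ' = L.map φ := List.map_congr_left fun x hx => d2 x (h.pick x hx).1
    refine ⟨(n + 1, two n p 0 (fo p t) β b0, 65 + t), ?_, Nat.le_succ n, le_rfl, φ', ν', d2, ?_, ?_⟩
    · refine List.mem_append_right _ (List.mem_append_right _ ?_)
      obtain ⟨m1, m2⟩ := mem_optY (i := i) (n := n) ht k1 c3 (by omega : 65 + t ≤ b)
      rw [← hb0] at m1 m2
      have hβ' : β = 0 ∨ β = 1 := by omega
      rcases hβ' with rfl | rfl
      · exact m1
      · exact m2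
    · refine ⟨d1, by omega, ?_, fun x hx' => ⟨by have := (h.pick x hx').1; omega, hx.full (h.pick x hx').2⟩, ?_⟩
      · rw [hmap, d2 i hi]
        exact h.iso
      · rw [hmap]
        intro j hj hr
        rcases Nat.lt_succ_iff_lt_or_eq.1 hj with hj | rfl
        · rw [d2 j hj] at hr
          exact hx.kms (h.msk j hj hr)
        · rcases ims_iff.1 k1 with z0 | ⟨x, hxL, z0⟩
          · rw [Nat.zero_testBit] at z0
            exact absurd z0 (by simp)
          · rcases z0 with rfl | z0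
            · exact absurd k3 (full_iff.1 (h.pick _ hxL).2 k k2)
            · obtain ⟨k', l', e1, e2, e3⟩ := dmask_iff.1 z0
              refine kms_iff.2 (Or.inr ⟨x, hxL, ball_iff.2 (Or.inr ⟨k', e1, Or.inl ⟨l',
                (hx k' (by omega)).trans e2, Or.inr ⟨fo p t, 3 * j, by omega, ?_, by omega⟩⟩⟩)⟩)
              rw [hdg, if_neg (by omega), if_neg (by omega), if_neg (by omega), if_pos rfl]
    · intro κ z1 z2 z3
      have z4 : dg p κ = 0 := by
        by_contra hc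
        rw [hx κ hc] at z3
        exact hc z3
      have z5 : κ < 3 * n := by omega
      obtain ⟨m', w1, w2⟩ := hB κ z5 z2 z4
      have e1 : ν' κ = ν₁ κ := by rw [d3 κ z5, c1 κ (by omega)]
      rw [e1]
      obtain ⟨m'', w3, w4⟩ := w2.mono (n' := n + 1) (φ' := φ') (ν' := ν') (Nat.le_succ n) hx d2
        (fun k' hk' g1 g2 g3 g4 g5 g6 => by
          by_cases hz : ν₁ k' = ν₁ k
          · refine ⟨n + 1, by omega, Or.inr (Or.inl ⟨n, by omega, ?_, rfl, ?_⟩)⟩
            · -- the new node is removed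
              rcases ims_iff.1 k1 with z0 | ⟨x, hxL, z0⟩
              · rw [Nat.zero_testBit] at z0
                exact absurd z0 (by simp)
              · rcases z0 with rfl | z0
                · exact absurd k3 (full_iff.1 (h.pick _ hxL).2 k k2)
                · obtain ⟨k', l', e1, e2, e3⟩ := dmask_iff.1 z0
                  refine kms_iff.2 (Or.inr ⟨x, hxL, ball_iff.2 (Or.inr ⟨k', e1, Or.inl ⟨l',
                    (hx k' (by omega)).trans e2, Or.inr ⟨fo p t, 3 * n, by omega, ?_, by omega⟩⟩⟩)⟩)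
                  rw [hdg, if_neg (by omega), if_neg (by omega), if_neg (by omega), if_pos rfl]
            · rw [d4, ← hz]
              exact g6
          · obtain ⟨k'', f1, f2, f3, f4⟩ : ∃ k'', k'' / 3 = k' / 3 ∧ dg p k'' = 0 ∧ ν₂ k'' = ν₁ k' ∧
                k'' ≠ fo p t := by
              by_cases ht' : k' / 3 = t
              · obtain ⟨k'', f1, f2, f3⟩ := c5 k' ht' g2
                exact ⟨k'', by omega, f2, f3, by rintro rfl; exact hz (f3.symm.trans c2)⟩
              · exact ⟨k', rfl, g2, c1 k' ht', by rintro rfl; exact ht' hft⟩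
            have hik : k' / 3 ≠ i := by
              intro e
              rw [e] at g1
              exact h.nk (h.emb.ims_nbr (fun x hx => (h.pick x hx).1) g1).2.1
            have f5 : k'' < 3 * n := by omega
            have f6 : ν' k'' = ν₁ k' := by rw [d3 k'' f5, f3]
            refine ⟨m', le_rfl, Or.inr (Or.inr ⟨k' / 3, by omega, k'', by omega, hx.ims g1, f1, ?_, g5, ?_⟩)⟩
            · rw [hdg, if_neg (by omega), if_neg (by omega), if_neg (by omega), if_neg f4]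
              exact f2
            · rw [f6]
              refine ⟨g4, fun j hj => ?_, g6⟩
              rcases Nat.lt_succ_iff_lt_or_eq.1 hj with hj | rfl
              · rw [d2 j hj]; exact g3 j hj
              · rw [d4]; exact fun e => hz e.symm)
      exact ⟨m'', show m'' ≤ 65 + t by omega, w4⟩

/-! ### all completions -/

/-- all completions of the node `i` -/
def cml (D : ℕ) (L : List ℕ) (i : ℕ) : ℕ → ℕ → ℕ → ℕ → List (ℕ × ℕ)
  | 0, n, p, _ => [(n, p)]
  | f + 1, n, p, b => bif full p i then [(n, p)] else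
      (opts D n p L i b).flatMap fun q => cml D L i f q.1 q.2.1 q.2.2

theorem Cst.cml (hG : G.IsRegularOfDegree 3) {U : Finset V} (hI : Inv G U) {L : List ℕ} {i D : ℕ} :
    ∀ {f n p b : ℕ} {φ ν : ℕ → V}, Cst G U n p L i φ ν → Bd G U n p L i φ ν b → n1 G U (φ i) ≤ D →
      n + f ≤ 40 → ∃ q ∈ EF18.cml D L i f n p b, Ch G U n φ q := by
  intro f
  induction f with
  | zero =>
    intro n p b φ ν h _ _ _
    exact ⟨(n, p), List.mem_singleton.2 rfl, le_rfl, φ, ν, h.emb, fun _ _ => rfl⟩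
  | succ f ih =>
    intro n p b φ ν h hb hD hn
    rw [EF18.cml]
    by_cases hf : full p i = true
    · rw [hf, cond_true]
      exact ⟨(n, p), List.mem_singleton.2 rfl, le_rfl, φ, ν, h.emb, fun _ _ => rfl⟩
    · obtain ⟨q, hq, h1, h2, φ', ν', h3, h4, h5⟩ := h.step hG hI hD (by omega) hf hb
      obtain ⟨q', hq', h6, φ'', ν'', h7, h8⟩ := ih h4 h5 (by rw [h3 i h.inn]; exact hD) (by omega)
      rw [show full p i = false from Bool.not_eq_true _ ▸ hf, cond_false]
      exact ⟨q', List.mem_flatMap.2 ⟨q, hq, hq'⟩, h1.trans h6, φ'', ν'', h7, fun j hj => by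
        rw [h8 j (by omega), h3 j hj]⟩

/-- the keys at the start -/
theorem Emb.bd (hG : G.IsRegularOfDegree 3) {U : Finset V} {n p : ℕ} {L : List ℕ}
    {φ ν : ℕ → V} (h : Emb G U n p φ ν) (hn : n ≤ 40)
    (hS : Stn G U (rem G U (L.map φ)) n p (kms p L 0) (ims p L 0) φ ν) {i : ℕ}
    (hv : φ i ∈ iso G (rem G U (L.map φ))) : Bd G U n p L i φ ν 200 := by
  intro κ hκ hκi hκ0
  have hadj := h.adj κ hκ
  rw [hκi] at hadj
  have k1 : ∀ k < 3 * n, (kms p L 0).testBit (k / 3) = true →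
      (ν k = φ i ∧ φ (k / 3) = ν κ ∨ ν k = ν κ ∧ ν κ ∉ U) → ∃ m ≤ 200, Key G U n p L φ ν (ν κ) m := by
    intro k hk h1 h2
    refine ⟨k / 3 + 1, by omega, Or.inr (Or.inl ⟨k / 3, by omega, h1, rfl, ?_⟩)⟩
    rcases h2 with ⟨-, h2⟩ | ⟨h2, h3⟩
    · exact Or.inl h2.symm
    · refine Or.inr ⟨h3, ?_⟩
      rw [← h2]
      exact (h.adj k hk).symm
  rcases h.att' hG hS hv hadj with h1 | ⟨k, hk, h1, h2⟩ | ⟨k, hk, h0, h1, h2⟩
  · exact ⟨0, by omega, Or.inl ⟨rfl, h1⟩⟩
  · exact k1 k hk h1 h2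
  · rcases h2 with h2 | h2 | ⟨h2, h3, h4, h5⟩
    · exact k1 k hk h1 (Or.inl h2)
    · exact k1 k hk h1 (Or.inr h2)
    · refine ⟨65 + k / 3, by omega, Or.inr (Or.inr ⟨k / 3, by omega, k, hk, h2, rfl, h0, rfl, h3, h4, ?_⟩)⟩
      rcases h5 with h5 | ⟨h5, h6⟩
      · exact Or.inl h5.symm
      · exact Or.inr ⟨h5, h6.symm⟩

/-- the known part for one more node -/
theorem Stn.extend {U : Finset V} {n p : ℕ} {L : List ℕ} {φ ν φ' ν' : ℕ → V} (h' : Emb G U (n + 1) p φ' ν')
    (hL : ∀ x ∈ L, x < n) (hφ : ∀ i < n, φ' i = φ i) (hν : ∀ k < 3 * n, ν' k = ν k)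
    (hS : Stn G U (rem G U (L.map φ)) n p (kms p L 0) (ims p L 0) φ ν)
    (hv : φ' n ∈ rem G U (L.map φ')) :
    Stn G U (rem G U (L.map φ')) (n + 1) p (kms p L 0) (ims p L 0) φ' ν' := by
  have hmap : L.map φ' = L.map φ := List.map_congr_left fun x hx => hφ x (hL x hx)
  have hL' : ∀ x ∈ L, x < n + 1 := fun x hx => (hL x hx).trans (Nat.lt_succ_self n)
  refine ⟨rem_subset, fun i hi => ?_, fun y hy hyr => ?_, fun i _ hb => (h'.ims_nbr hL' hb).2⟩
  · rcases Nat.lt_succ_iff_lt_or_eq.1 hi with h1 | rfl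
    · rw [hmap, hφ i h1]
      exact hS.msk i h1
    · exact ⟨fun hb => (h'.kms_out hL' hb).2, fun hr => absurd hv hr⟩
  · rw [hmap] at hyr
    rcases hS.out y hy hyr with ⟨t, t1, t2, t3⟩ | ⟨k, k1, k2, k3, k4⟩
    · exact Or.inl ⟨t, by omega, t2, by rw [hφ t t1, t3]⟩
    · exact Or.inr ⟨k, by omega, k2, k3, by rw [hν k k1, k4]⟩

/-! ### the step -/

/-- the number of known full nodes which may become isolated -/
def n00 (D n p M : ℕ) : ℕ :=
  sm (fun i => bif tb M i || !full p i || Nat.beq (nd D p M i) 9 then 0 else 1) n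

/-- the completions of the known nodes with an open port -/
def evc (D : ℕ) (L : List ℕ) (n p M : ℕ) : ℕ → List (ℕ × ℕ)
  | 0 => []
  | i + 1 => bif tb M i || full p i || Nat.beq (nd D p M i) 9 then evc D L n p M i else
      cml D L i 3 n p 200 ++ evc D L n p M i

theorem mem_evc {D : ℕ} {L : List ℕ} {n p M : ℕ} {q : ℕ × ℕ} : ∀ {m i : ℕ}, i < m → M.testBit i ≠ true →
    full p i ≠ true → nd D p M i ≠ 9 → q ∈ cml D L i 3 n p 200 → q ∈ evc D L n p M m := by
  intro m
  induction m with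
  | zero => intro i hi; omega
  | succ m ih =>
    intro i hi h1 h2 h3 h4
    rw [evc]
    rcases Nat.lt_succ_iff_lt_or_eq.1 hi with h5 | rfl
    · have h6 := ih h5 h1 h2 h3 h4
      cases tb M m || full p m || Nat.beq (nd D p M m) 9
      · exact List.mem_append_right _ h6
      · exact h6
    · rw [tb_false h1, show full p i = false from Bool.not_eq_true _ ▸ h2,
        show Nat.beq (nd D p M i) 9 = false by
          rw [← Bool.not_eq_true]; exact fun e => h3 (Nat.eq_of_beq_eq_true e)]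
      exact List.mem_append_left _ h4

/-- the test and the children -/
def evb (P O T TI D dl n p : ℕ) (L : List ℕ) : Option (List (ℕ × ℕ)) :=
  frc (kms p L 0) fun M => frc (ims p L 0) fun IN =>
    bif Nat.ble (Nat.add n 5) 40 && pks n p L 0 &&
      Nat.ble (Nat.add (Nat.add (Nat.mul P L.length) (Nat.mul O (cnt n M)))
        (Nat.mul dl (n00 D n p M))) (evs T TI n p M IN)
    then some (kin n p M IN n ++ (evc D L n p M n ++ cml D L n 3 (n + 1) p 200)) else none

theorem fro_card {U : Finset V} (hG : G.IsRegularOfDegree 3) {n p i : ℕ} {φ ν : ℕ → V} :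
    (fro G U n p φ ν i).card ≤ 3 := by
  have h : fro G U n p φ ν i ⊆ G.neighborFinset (φ i) := fun y hy =>
    (SimpleGraph.mem_neighborFinset _ _ _).2 (mem_fro.1 hy).1
  have h2 := card_le_card h
  rwa [nbr_card hG] at h2

/-- a new isolated vertex is a known full node, or there is a child -/
theorem Emb.iso_or (hG : G.IsRegularOfDegree 3) {U : Finset V} (hI : Inv G U) {n p D : ℕ} {L : List ℕ}
    {φ ν : ℕ → V} (h : Emb G U n p φ ν) (hn : n + 5 ≤ 40) (hL : ∀ x ∈ L, x < n ∧ full p x = true)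
    (hS : Stn G U (rem G U (L.map φ)) n p (kms p L 0) (ims p L 0) φ ν) (hD : ∀ x ∈ U, n1 G U x ≤ D)
    {v : V} (hv : v ∈ iso G (rem G U (L.map φ))) (hv2 : v ∉ iso G U) :
    (∃ q ∈ evc D L n p (kms p L 0) n ++ cml D L n 3 (n + 1) p 200, Ch G U n φ q) ∨
      ∃ i < n, φ i = v ∧ (kms p L 0).testBit i ≠ true ∧ full p i = true ∧ nd D p (kms p L 0) i ≠ 9 := by
  have hvr := ((iso_nbr hG).1 hv).1
  have hvU := hS.sub hvr
  have hC : ∀ j < n, φ j ∉ rem G U (L.map φ) → (kms p L 0).testBit j = true := fun j hj hr =>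
    (hS.msk j hj).2 hr
  by_cases hx : ∃ i, i < n ∧ φ i = v
  · obtain ⟨i, hi, rfl⟩ := hx
    have h1 : (kms p L 0).testBit i ≠ true := fun hb => (hS.msk i hi).1 hb hvr
    have h2 : nd D p (kms p L 0) i ≠ 9 := by
      have h3 := (h.nd_le hG hS.sub hS.msk hi hv hv2 (hD _ hvU)).trans (fro_card hG)
      omega
    by_cases hf : full p i = true
    · exact Or.inr ⟨i, hi, rfl, h1, hf, h2⟩
    · left
      obtain ⟨q, hq, hq2⟩ := Cst.cml hG hI (f := 3) (D := D) ⟨h, hi, hv, hL, hC⟩ (h.bd hG (by omega) hS hv)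
        (hD _ hvU) (by omega)
      exact ⟨q, List.mem_append_left _ (mem_evc hi h1 hf h2 hq), hq2⟩
  · left
    push Not at hx
    obtain ⟨z, hz⟩ : ∃ z, G.Adj v z := by
      have : (G.neighborFinset v).Nonempty := by
        rw [← card_pos, nbr_card hG]
        omega
      obtain ⟨z, hz⟩ := this
      exact ⟨z, (SimpleGraph.mem_neighborFinset _ _ _).1 hz⟩
    obtain ⟨φ', ν', h', f1, f2, f3, -⟩ := h.extend hG hvU hx hz
    have hmap : L.map φ' = L.map φ := List.map_congr_left fun x hx => f1 x (hL x hx).1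
    have hvr' : φ' n ∈ rem G U (L.map φ') := by rw [hmap, f3]; exact hvr
    have hS' := Stn.extend h' (fun x hx => (hL x hx).1) f1 f2 hS hvr'
    have hv' : φ' n ∈ iso G (rem G U (L.map φ')) := by rw [hmap, f3]; exact hv
    obtain ⟨q, hq, hq2, φ'', ν'', hq3, hq4⟩ := Cst.cml hG hI (f := 3) (D := D) (i := n) (n := n + 1)
      ⟨h', Nat.lt_succ_self n, hv', fun x hx => ⟨(hL x hx).1.trans (Nat.lt_succ_self n), (hL x hx).2⟩,
        fun j hj hr => (hS'.msk j hj).2 hr⟩ (h'.bd hG (by omega) hS' hv')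
      (by rw [f3]; exact hD _ hvU) (by omega)
    exact ⟨q, List.mem_append_right _ hq, (Nat.le_succ n).trans hq2, φ'', ν'', hq3, fun j hj => by
      rw [hq4 j (by omega), f1 j hj]⟩

theorem n00_eq (D n p M : ℕ) : n00 D n p M =
    ((range n).filter fun i => M.testBit i ≠ true ∧ full p i = true ∧ nd D p M i ≠ 9).card := by
  unfold n00
  rw [sm_eq, Finset.card_filter]
  refine sum_congr rfl fun i _ => ?_
  by_cases h1 : M.testBit i = true
  · rw [tb_eq, h1, if_neg (fun h => h.1 rfl)]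
    rfl
  · rw [tb_false h1]
    by_cases h2 : full p i = true
    · rw [h2]
      by_cases h3 : nd D p M i = 9
      · rw [h3, if_neg (fun h => h.2.2 rfl)]
        rfl
      · rw [if_pos ⟨h1, rfl, h3⟩, show Nat.beq (nd D p M i) 9 = false by
          rw [← Bool.not_eq_true]; exact fun e => h3 (Nat.eq_of_beq_eq_true e)]
        rfl
    · rw [show full p i = false from Bool.not_eq_true _ ▸ h2, if_neg (fun h => absurd h.2.1 (by simp))]
      rfl

/-- **the step with open inner ports and exact isolated vertices** -/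
theorem evb_ch (hG : G.IsRegularOfDegree 3) {w : TF} (hw : w.Pos) {P O T TI D dl : ℕ} (hT : TabK w O T)
    (hTI : TabKI w O TI) {U : Finset V} (hI : Inv G U) (hD : ∀ x ∈ U, n1 G U x ≤ D) {n p : ℕ}
    {L : List ℕ} {R : List (ℕ × ℕ)} (hR : evb P O T TI D dl n p L = some R) {φ ν : ℕ → V}
    (h : Emb G U n p φ ν) : GoodT (w.iso dl) P G U L.length ∨ ∃ q ∈ R, Ch G U n φ q := by
  classical
  unfold evb at hR
  rw [frc_eq, frc_eq] at hR
  cases hc : Nat.ble (Nat.add n 5) 40 && pks n p L 0 &&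
      Nat.ble (Nat.add (Nat.add (Nat.mul P L.length) (Nat.mul O (cnt n (kms p L 0))))
        (Nat.mul dl (n00 D n p (kms p L 0)))) (evs T TI n p (kms p L 0) (ims p L 0))
  · rw [hc, cond_false] at hR
    exact absurd hR (by simp)
  rw [hc, cond_true, Option.some.injEq] at hR
  simp only [Bool.and_eq_true] at hc
  obtain ⟨⟨c1, c2⟩, c3⟩ := hc
  have hn : n + 5 ≤ 40 := Nat.le_of_ble_eq_true c1
  have hL := pks_of c2
  have hc3 := Nat.le_of_ble_eq_true c3
  rw [← hR]
  rcases h.stn_or hG hI (by omega) hL with ⟨q, h1, h2⟩ | hS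
  · exact Or.inr ⟨q, List.mem_append_left _ h1, h2⟩
  by_cases hno : ∃ q ∈ evc D L n p (kms p L 0) n ++ cml D L n 3 (n + 1) p 200, Ch G U n φ q
  · obtain ⟨q, h1, h2⟩ := hno
    exact Or.inr ⟨q, List.mem_append_right _ h1, h2⟩
  left
  have hP := h.pks_picks hG hI (L := L) [] c2 trivial (fun y hy => absurd hy List.not_mem_nil)
  rw [List.nil_append] at hP
  refine ⟨L.map φ, List.length_map _, hP, ?_⟩
  have h1 := h.evs_le hG hw hT hTI hI (hI.rem hG) rem_subset hS.msk (fun i hi hb => (hS.inn i hi hb).2)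
  have h2 : (iso G (rem G U (L.map φ))).card ≤ (iso G U).card + n00 D n p (kms p L 0) := by
    have e := card_filter_add_card_filter_not (s := iso G (rem G U (L.map φ))) (· ∈ iso G U)
    have e2 : ((iso G (rem G U (L.map φ))).filter (· ∈ iso G U)).card ≤ (iso G U).card :=
      card_le_card fun x hx => (mem_filter.1 hx).2
    have e3 : ((iso G (rem G U (L.map φ))).filter (· ∉ iso G U)).card ≤ n00 D n p (kms p L 0) := by
      rw [n00_eq]
      have key : ∀ v ∈ (iso G (rem G U (L.map φ))).filter (· ∉ iso G U), ∃ i < n, φ i = v ∧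
          (kms p L 0).testBit i ≠ true ∧ full p i = true ∧ nd D p (kms p L 0) i ≠ 9 := fun v hv => by
        rw [mem_filter] at hv
        exact (h.iso_or hG hI hn hL hS hD hv.1 hv.2).resolve_left hno
      choose! f hf using key
      refine card_le_card_of_injOn f (fun v hv => ?_) fun v hv v' hv' e => ?_
      · obtain ⟨a1, a2, a3, a4, a5⟩ := hf v hv
        rw [mem_coe, mem_filter, mem_range]
        exact ⟨a1, a3, a4, a5⟩
      · rw [← (hf v hv).2.1, ← (hf v' hv').2.1, e]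
    omega
  rw [PsiT_iso, PsiT_iso, List.length_map]
  unfold PsiI
  have h3 := Nat.mul_le_mul_left dl h2
  rw [mul_add] at h3
  have h4 : P * L.length + O * cnt n (kms p L 0) + dl * n00 D n p (kms p L 0) ≤
      evs T TI n p (kms p L 0) (ims p L 0) := hc3
  omega

end EF18
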