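import Pool.Agent.Lib.MP_ef18bd_co.P.Game

/-!
# Reduction of the comparison to connected graphs
-/

namespace EF18

open Finset

section

variable {V : Type} [Fintype V] [DecidableEq V] {G : SimpleGraph V} [DecidableRel G.Adj]

/-- one graph: a small maximal packing is enough -/
theorem packing_le (hG : G.IsRegularOfDegree 3)
    (h : ∃ S : Finset V, Pk G S ∧ Mx G univ S ∧ 14 * S.card ≤ 3 * Fintype.card V + 11)
    {f : V → ℤ} (hf : MinimalMinus G f) :
    ∃ S : Finset V, Pk G S ∧ Mx G univ S ∧ 2 * (S.card : ℤ) ≤ Fintype.card V - ∑ v, f v := by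
  obtain ⟨S, hp, hm, h1⟩ := h
  obtain ⟨T, hp2, hm2, -, h2⟩ := exists_packing hG hf
  rcases le_total S.card T.card with hle | hle
  · exact ⟨S, hp, hm, by omega⟩
  · exact ⟨T, hp2, hm2, by omega⟩

variable {ι : Type} [Fintype ι] [DecidableEq ι] (c : V → ι)

/-- the subgraph on one class -/
abbrev part (G : SimpleGraph V) (c : V → ι) (k : ι) : SimpleGraph {v : V // c v = k} :=
  G.comap (Subtype.val : {v : V // c v = k} → V)

instance (k : ι) : DecidableRel (part G c k).Adj := fun a b =>
  inferInstanceAs (Decidable (G.Adj a.1 b.1))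

variable {c}

theorem cn_part (hc : ∀ u v, G.Adj u v → c u = c v) {k : ι} (w : {v : V // c v = k}) :
    (cn (part G c k) w).map (Function.Embedding.subtype _) = cn G w.1 := by
  ext x
  rw [mem_map]
  constructor
  · rintro ⟨y, hy, rfl⟩
    rw [mem_cn] at hy ⊢
    rcases hy with rfl | hy
    · exact Or.inl rfl
    · exact Or.inr hy
  · intro hx
    rw [mem_cn] at hx
    have hcx : c x = k := by
      rcases hx with rfl | hx
      · exact w.2
      · rw [← hc _ _ hx]; exact w.2
    refine ⟨⟨x, hcx⟩, ?_, rfl⟩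
    rw [mem_cn]
    rcases hx with hx | hx
    · exact Or.inl (Subtype.ext hx)
    · exact Or.inr hx

theorem mem_cn_part (hc : ∀ u v, G.Adj u v → c u = c v) {k : ι} (w x : {v : V // c v = k}) :
    x ∈ cn (part G c k) w ↔ x.1 ∈ cn G w.1 := by
  rw [← cn_part hc w, mem_map]
  constructor
  · intro h; exact ⟨x, h, rfl⟩
  · rintro ⟨y, hy, hyx⟩
    have : y = x := Subtype.ext hyx
    exact this ▸ hy

theorem sum_cn_part (hc : ∀ u v, G.Adj u v → c u = c v) {k : ι} (w : {v : V // c v = k}) (f : V → ℤ) :
    ∑ u ∈ cn (part G c k) w, f u.1 = ∑ u ∈ cn G w.1, f u := by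
  rw [← cn_part hc w, sum_map]
  rfl

theorem reg_part (hG : G.IsRegularOfDegree 3) (hc : ∀ u v, G.Adj u v → c u = c v) (k : ι) :
    (part G c k).IsRegularOfDegree 3 := by
  intro w
  have h1 : (cn (part G c k) w).card = 4 := by
    rw [← cn_card hG w.1, ← cn_part hc w, card_map]
  unfold cn at h1
  rw [card_insert_of_notMem (by simp), SimpleGraph.card_neighborFinset_eq_degree] at h1
  omega

theorem minus_part (hc : ∀ u v, G.Adj u v → c u = c v) {f : V → ℤ} (hf : MinimalMinus G f) (k : ι) :
    MinimalMinus (part G c k) (fun w => f w.1) := by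
  refine ⟨⟨fun w => hf.1.1 w.1, fun w => ?_⟩, fun g hg hle => ?_⟩
  · rw [sum_cn_part hc w f]
    exact hf.1.2 w.1
  · have key := hf.2 (fun v => if h : c v = k then g ⟨v, h⟩ else f v) ?_ ?_
    · funext w
      have h1 := congrFun key w.1
      have h2 : c w.1 = k := w.2
      simp only [h2, dif_pos] at h1
      exact h1
    · refine ⟨fun v => ?_, fun v => ?_⟩
      · by_cases h : c v = k
        · simp only [h, dif_pos]; exact hg.1 ⟨v, h⟩
        · simp only [h, dif_neg, not_false_eq_true]; exact hf.1.1 v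
      · by_cases h : c v = k
        · have h1 := hg.2 ⟨v, h⟩
          have h2 := sum_cn_part hc (⟨v, h⟩ : {v : V // c v = k})
            (fun v => if h : c v = k then g ⟨v, h⟩ else f v)
          rw [← h2]
          refine h1.trans (le_of_eq (sum_congr rfl fun u _ => ?_))
          have h3 : c u.1 = k := u.2
          simp only [h3, dif_pos]
        · refine (hf.1.2 v).trans (le_of_eq (sum_congr rfl fun u hu => ?_))
          have h3 : c u ≠ k := by
            rw [mem_cn] at hu
            rcases hu with rfl | hu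
            · exact h
            · rw [← hc _ _ hu]; exact h
          simp only [h3, dif_neg, not_false_eq_true]
    · intro v
      by_cases h : c v = k
      · simp only [h, dif_pos]; exact hle ⟨v, h⟩
      · simp only [h, dif_neg, not_false_eq_true]; exact le_rfl

/-- gluing of maximal packings -/
theorem glue (hc : ∀ u v, G.Adj u v → c u = c v) {f : V → ℤ}
    (h : ∀ k, ∃ S : Finset {v : V // c v = k}, Pk (part G c k) S ∧ Mx (part G c k) univ S ∧
      2 * (S.card : ℤ) ≤ Fintype.card {v : V // c v = k} - ∑ w : {v : V // c v = k}, f w.1) :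
    ∃ S : Finset V, Pk G S ∧ Mx G univ S ∧ 2 * (S.card : ℤ) ≤ Fintype.card V - ∑ v, f v := by
  choose S hS using h
  have hmem : ∀ (k : ι) (w : {v : V // c v = k}),
      w ∈ S k ↔ (⟨w.1, rfl⟩ : {v : V // c v = c w.1}) ∈ S (c w.1) := by
    rintro k ⟨w, rfl⟩
    rfl
  set T : Finset V := univ.filter (fun v => (⟨v, rfl⟩ : {x : V // c x = c v}) ∈ S (c v)) with hT
  have hmT : ∀ (k : ι) (w : {v : V // c v = k}), w.1 ∈ T ↔ w ∈ S k := fun k w => by
    rw [hT, mem_filter, hmem k w]
    simp
  refine ⟨T, ?_, ?_, ?_⟩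
  · intro v
    have h1 := (hS (c v)).1 ⟨v, rfl⟩
    rw [card_le_one] at h1 ⊢
    intro a ha b hb
    rw [mem_inter] at ha hb
    have hca : c a = c v := by
      rcases mem_cn.1 ha.1 with rfl | h
      · rfl
      · exact (hc _ _ h).symm
    have hcb : c b = c v := by
      rcases mem_cn.1 hb.1 with rfl | h
      · rfl
      · exact (hc _ _ h).symm
    have h2 := h1 ⟨a, hca⟩ (mem_inter.2 ⟨(mem_cn_part hc _ _).2 ha.1, (hmT _ ⟨a, hca⟩).1 ha.2⟩)
      ⟨b, hcb⟩ (mem_inter.2 ⟨(mem_cn_part hc _ _).2 hb.1, (hmT _ ⟨b, hcb⟩).1 hb.2⟩)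
    exact congrArg Subtype.val h2
  · intro v _
    obtain ⟨u, hu, x, hx⟩ := (hS (c v)).2.1 ⟨v, rfl⟩ (mem_univ _)
    rw [mem_inter] at hx
    exact ⟨u.1, (mem_cn_part hc _ _).1 hu, x.1, mem_inter.2 ⟨(mem_cn_part hc _ _).1 hx.1, (hmT _ x).2 hx.2⟩⟩
  · have h1 : T.card = ∑ k : ι, (S k).card := by
      rw [card_eq_sum_card_fiberwise (f := c) (t := univ) (fun _ _ => by simp)]
      refine sum_congr rfl fun k _ => ?_
      rw [← card_map (Function.Embedding.subtype _)]
      congr 1
      ext x
      rw [mem_filter, mem_map]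
      constructor
      · rintro ⟨hx, hk⟩
        exact ⟨⟨x, hk⟩, (hmT k ⟨x, hk⟩).1 hx, rfl⟩
      · rintro ⟨y, hy, rfl⟩
        exact ⟨(hmT k y).2 hy, y.2⟩
    have h2 : (Fintype.card V : ℤ) = ∑ k : ι, (Fintype.card {v : V // c v = k} : ℤ) := by
      rw [← Nat.cast_sum]
      congr 1
      rw [← card_univ, card_eq_sum_card_fiberwise (f := c) (t := univ) (fun _ _ => by simp)]
      refine sum_congr rfl fun k _ => ?_
      rw [Fintype.card_subtype]
    have h3 : ∑ v, f v = ∑ k : ι, ∑ w : {v : V // c v = k}, f w.1 := by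
      rw [← sum_fiberwise_of_maps_to (g := c) (t := univ) (fun _ _ => by simp)]
      refine sum_congr rfl fun k _ => ?_
      rw [← sum_subtype_eq_sum_filter]
      simp
    rw [h1, h2, h3, Nat.cast_sum, mul_sum, ← sum_sub_distrib]
    exact sum_le_sum fun k _ => (hS k).2.2

end

/-- the comparison follows from the packing bound for connected graphs -/
theorem compare_of_connected
    (h : ∀ (W : Type) [Fintype W] [DecidableEq W] (H : SimpleGraph W) [DecidableRel H.Adj],
      H.IsRegularOfDegree 3 → H.Connected →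
      ∃ S : Finset W, Pk H S ∧ Mx H univ S ∧ 14 * S.card ≤ 3 * Fintype.card W + 11)
    (V : Type) [Fintype V] [DecidableEq V] (G : SimpleGraph V) [DecidableRel G.Adj]
    (hG : G.IsRegularOfDegree 3) : upperMinus G ≤ upperSigned G := by
  classical
  obtain ⟨f, hf, hw⟩ := (attained hG).1
  have hc : ∀ u v, G.Adj u v → G.connectedComponentMk u = G.connectedComponentMk v := fun u v huv =>
    SimpleGraph.ConnectedComponent.connectedComponentMk_eq_of_adj huv
  obtain ⟨S, hp, hm, h1⟩ := glue (c := G.connectedComponentMk) hc (f := f) (fun k => by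
    refine packing_le (reg_part hG hc k) (h _ (part G G.connectedComponentMk k) (reg_part hG hc k) ?_)
      (minus_part hc hf k)
    exact SimpleGraph.ConnectedComponent.connected_toSimpleGraph k)
  have h2 := le_upperSigned hG hp hm
  omega

end EF18
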