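import Pool.Agent.Lib.MP_ef18bd_co.P.StpX

/-!
# The charge of disjoint families of pieces

`CPc`: a piece and the list of its values, one for every number of dead vertices with two neighbours in the piece.
`exv CL G U`: the maximum over the families of disjoint pieces in `U` of the sum of the values. `exv_sup`:
superadditive. `exv_out`: paid by the outer vertices. `exv_step`: the change in a step.
-/

namespace EF18

open Finset

variable {V : Type} [Fintype V] [DecidableEq V] {G : SimpleGraph V} [DecidableRel G.Adj]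

/-- a piece and its values -/
abbrev CPc := (ℕ × ℕ) × List ℕ

/-- the value for `d` dead vertices -/
def cfv (e : CPc) (d : ℕ) : ℕ := e.2.getD d 0

/-- the vertices outside `U` with two neighbours in `E` -/
def dds (G : SimpleGraph V) [DecidableRel G.Adj] (U E : Finset V) : Finset V :=
  (univ \ U).filter fun z => 2 ≤ nU G E z

/-- the vertices of `U` outside `U'` with two neighbours in `E` -/
def hit (G : SimpleGraph V) [DecidableRel G.Adj] (U U' E : Finset V) : Finset V :=
  (U \ U').filter fun z => 2 ≤ nU G E z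

theorem mem_dds {U E : Finset V} {z : V} : z ∈ dds G U E ↔ z ∉ U ∧ 2 ≤ nU G E z := by
  unfold dds
  rw [mem_filter, mem_sdiff]
  simp

theorem mem_hit {U U' E : Finset V} {z : V} : z ∈ hit G U U' E ↔ (z ∈ U ∧ z ∉ U') ∧ 2 ≤ nU G E z := by
  unfold hit
  rw [mem_filter, mem_sdiff]

theorem dds_step {U U' : Finset V} (h : U' ⊆ U) (E : Finset V) :
    (dds G U' E).card = (dds G U E).card + (hit G U U' E).card := by
  rw [← card_union_of_disjoint]
  · congr 1
    ext z
    rw [mem_union, mem_dds, mem_dds, mem_hit]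
    constructor
    · rintro ⟨h1, h2⟩
      by_cases hz : z ∈ U
      · exact Or.inr ⟨⟨hz, h1⟩, h2⟩
      · exact Or.inl ⟨hz, h2⟩
    · rintro (⟨h1, h2⟩ | ⟨⟨h1, h2⟩, h3⟩)
      · exact ⟨fun hc => h1 (h hc), h2⟩
      · exact ⟨h2, h3⟩
  · rw [disjoint_left]
    intro z h1 h2
    exact (mem_dds.1 h1).1 (mem_hit.1 h2).1.1

/-- a family of disjoint sets in `U` -/
structure Fam (U : Finset V) (F : Finset (Finset V)) : Prop where
  sub : ∀ E ∈ F, E ⊆ U
  ne : ∀ E ∈ F, E.Nonempty
  dj : ∀ A ∈ F, ∀ B ∈ F, A ≠ B → Disjoint A B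

open scoped Classical in
/-- the value of the set `E` -/
noncomputable def fE (CL : List CPc) (G : SimpleGraph V) [DecidableRel G.Adj] (U E : Finset V) : ℕ :=
  CL.foldr (fun e s => if Pc G E e.1.1 e.1.2 then max (cfv e (dds G U E).card) s else s) 0

open scoped Classical in
/-- the maximum over the families -/
noncomputable def exv (CL : List CPc) (G : SimpleGraph V) [DecidableRel G.Adj] (U : Finset V) : ℕ :=
  ((univ : Finset (Finset (Finset V))).filter (Fam U)).sup fun F => ∑ E ∈ F, fE CL G U E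

theorem le_fE {CL : List CPc} {U E : Finset V} {e : CPc} (he : e ∈ CL) (h : Pc G E e.1.1 e.1.2) :
    cfv e (dds G U E).card ≤ fE CL G U E := by
  induction CL with
  | nil => exact absurd he List.not_mem_nil
  | cons a CL ih =>
    unfold fE
    rw [List.foldr_cons]
    rcases List.mem_cons.1 he with rfl | he
    · rw [if_pos h]
      exact le_max_left _ _
    · have h1 := ih he
      unfold fE at h1
      split_ifs
      · exact h1.trans (le_max_right _ _)
      · exact h1

theorem fE_cases (CL : List CPc) (U E : Finset V) :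
    fE CL G U E = 0 ∨ ∃ e ∈ CL, Pc G E e.1.1 e.1.2 ∧ fE CL G U E = cfv e (dds G U E).card := by
  classical
  induction CL with
  | nil => exact Or.inl rfl
  | cons a CL ih =>
    have h0 : fE (a :: CL) G U E = if Pc G E a.1.1 a.1.2 then max (cfv a (dds G U E).card) (fE CL G U E)
      else fE CL G U E := by
      unfold fE
      rw [List.foldr_cons]
    rw [h0]
    split_ifs with hp
    · rcases le_total (fE CL G U E) (cfv a (dds G U E).card) with h1 | h1
      · rw [max_eq_left h1]
        exact Or.inr ⟨a, List.mem_cons_self, hp, rfl⟩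
      · rw [max_eq_right h1]
        rcases ih with h2 | ⟨e, h2, h3, h4⟩
        · exact Or.inl h2
        · exact Or.inr ⟨e, List.mem_cons_of_mem _ h2, h3, h4⟩
    · rcases ih with h2 | ⟨e, h2, h3, h4⟩
      · exact Or.inl h2
      · exact Or.inr ⟨e, List.mem_cons_of_mem _ h2, h3, h4⟩

theorem le_exv {CL : List CPc} {U : Finset V} {F : Finset (Finset V)} (h : Fam U F) :
    ∑ E ∈ F, fE CL G U E ≤ exv CL G U := by
  classical
  unfold exv
  exact Finset.le_sup (f := fun F => ∑ E ∈ F, fE CL G U E) (mem_filter.2 ⟨mem_univ F, h⟩)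

omit [Fintype V] [DecidableEq V] in
theorem fam_empty (U : Finset V) : Fam U (∅ : Finset (Finset V)) :=
  ⟨fun _ h => absurd h (notMem_empty _), fun _ h => absurd h (notMem_empty _),
    fun _ h => absurd h (notMem_empty _)⟩

theorem exv_eq (CL : List CPc) (U : Finset V) :
    ∃ F : Finset (Finset V), Fam U F ∧ exv CL G U = ∑ E ∈ F, fE CL G U E := by
  classical
  unfold exv
  obtain ⟨F, h1, h2⟩ := Finset.exists_mem_eq_sup
    ((univ : Finset (Finset (Finset V))).filter (Fam U)) ⟨∅, mem_filter.2 ⟨mem_univ _, fam_empty U⟩⟩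
    (fun F => ∑ E ∈ F, fE CL G U E)
  exact ⟨F, (mem_filter.1 h1).2, h2⟩

/-- families in separated sets -/
theorem dds_left {A B E : Finset V} (h : Sep G A B) (hE : E ⊆ A) : dds G (A ∪ B) E = dds G A E := by
  ext z
  rw [mem_dds, mem_dds, mem_union, not_or]
  constructor
  · rintro ⟨⟨h1, -⟩, h3⟩
    exact ⟨h1, h3⟩
  · rintro ⟨h1, h3⟩
    refine ⟨⟨h1, fun h2 => ?_⟩, h3⟩
    have h4 := nU_mono (G := G) hE z
    have h5 := nU_eq_zero_of_mem h.symm h2
    omega

theorem fE_left {CL : List CPc} {A B E : Finset V} (h : Sep G A B) (hE : E ⊆ A) :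
    fE CL G (A ∪ B) E = fE CL G A E := by
  unfold fE
  rw [dds_left h hE]

/-- **superadditive** -/
theorem exv_sup {CL : List CPc} {A B : Finset V} (h : Sep G A B) :
    exv CL G A + exv CL G B ≤ exv CL G (A ∪ B) := by
  classical
  obtain ⟨F1, a1, a2⟩ := exv_eq (G := G) CL A
  obtain ⟨F2, b1, b2⟩ := exv_eq (G := G) CL B
  have hAB : ∀ x ∈ A, x ∉ B := fun x h1 h2 => h x h1 x h2 self_mem_B2
  have hd : Disjoint F1 F2 := by
    rw [disjoint_left]
    intro E h1 h2
    obtain ⟨x, hx⟩ := a1.ne E h1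
    exact hAB x (a1.sub E h1 hx) (b1.sub E h2 hx)
  have hF : Fam (A ∪ B) (F1 ∪ F2) := by
    refine ⟨fun E hE => ?_, fun E hE => ?_, fun E hE E' hE' hne => ?_⟩
    · rcases mem_union.1 hE with h1 | h1
      · exact (a1.sub E h1).trans subset_union_left
      · exact (b1.sub E h1).trans subset_union_right
    · rcases mem_union.1 hE with h1 | h1
      · exact a1.ne E h1
      · exact b1.ne E h1
    · rcases mem_union.1 hE with h1 | h1 <;> rcases mem_union.1 hE' with h2 | h2
      · exact a1.dj E h1 E' h2 hne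
      · rw [disjoint_left]
        exact fun x h3 h4 => hAB x (a1.sub E h1 h3) (b1.sub E' h2 h4)
      · rw [disjoint_left]
        exact fun x h3 h4 => hAB x (a1.sub E' h2 h4) (b1.sub E h1 h3)
      · exact b1.dj E h1 E' h2 hne
  have h3 := le_exv (G := G) (CL := CL) hF
  rw [sum_union hd] at h3
  have h4 : ∑ E ∈ F1, fE CL G (A ∪ B) E = ∑ E ∈ F1, fE CL G A E :=
    sum_congr rfl fun E hE => fE_left h (a1.sub E hE)
  have h5 : ∑ E ∈ F2, fE CL G (A ∪ B) E = ∑ E ∈ F2, fE CL G B E :=
    sum_congr rfl fun E hE => by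
      rw [union_comm]
      exact fE_left h.symm (b1.sub E hE)
  omega

/-- two disjoint sets have no common vertex with two neighbours in each -/
theorem two_two {U A B : Finset V} (hA : A ⊆ U) (hB : B ⊆ U) (h : Disjoint A B) {z : V}
    (h2 : nU G U z ≤ 2) (h3 : 2 ≤ nU G A z) (h4 : 2 ≤ nU G B z) : False := by
  have h5 := nU_union (G := G) h z
  have h6 := nU_mono (G := G) (union_subset hA hB) z
  omega

/-- **the bound by the outer vertices** -/
theorem exv_out {CL : List CPc} (hf : ∀ e ∈ CL, ∀ d, cfv e d ≤ 9 * d) {U : Finset V} (hI : Inv G U) :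
    exv CL G U ≤ ∑ p ∈ univ \ U, ch 9 5 (nU G U p) := by
  classical
  obtain ⟨F, a1, a2⟩ := exv_eq (G := G) CL U
  rw [a2]
  have h1 : ∑ E ∈ F, fE CL G U E ≤ ∑ E ∈ F, 9 * (dds G U E).card := sum_le_sum fun E _ => by
    rcases fE_cases (G := G) CL U E with h | ⟨e, h2, -, h3⟩
    · rw [h]; exact Nat.zero_le _
    · rw [h3]; exact hf e h2 _
  refine h1.trans ?_
  have h2 : (F.biUnion fun E => dds G U E).card = ∑ E ∈ F, (dds G U E).card := by
    refine card_biUnion fun A hA B hB hne => disjoint_left.2 ?_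
    intro z h3 h4
    exact two_two (a1.sub A hA) (a1.sub B hB) (a1.dj A hA B hB hne)
      (nU_le_two hI (mem_dds.1 h3).1) (mem_dds.1 h3).2 (mem_dds.1 h4).2
  rw [← mul_sum, ← h2]
  have h3 : (F.biUnion fun E => dds G U E) ⊆ univ \ U := by
    intro z hz
    obtain ⟨E, -, h4⟩ := mem_biUnion.1 hz
    exact mem_sdiff.2 ⟨mem_univ _, (mem_dds.1 h4).1⟩
  refine le_trans ?_ (sum_le_sum_of_subset h3)
  have h4 : ∀ z ∈ F.biUnion fun E => dds G U E, 9 ≤ ch 9 5 (nU G U z) := fun z hz => by
    obtain ⟨E, h5, h6⟩ := mem_biUnion.1 hz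
    have h7 := nU_mono (G := G) (a1.sub E h5) z
    have h8 := nU_le_two hI (mem_dds.1 h6).1
    have h9 := (mem_dds.1 h6).2
    rw [show nU G U z = 2 by omega]
    exact le_rfl
  have h5 := sum_le_sum h4
  rw [sum_const, smul_eq_mul, mul_comm] at h5
  exact h5

/-- more pieces or larger values -/
theorem exv_mono {CL CL' : List CPc} (h : ∀ e ∈ CL, ∃ e' ∈ CL', e'.1 = e.1 ∧ ∀ d, cfv e d ≤ cfv e' d)
    (U : Finset V) : exv CL G U ≤ exv CL' G U := by
  obtain ⟨F, a1, a2⟩ := exv_eq (G := G) CL U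
  rw [a2]
  refine le_trans (sum_le_sum fun E _ => ?_) (le_exv (CL := CL') a1)
  rcases fE_cases (G := G) CL U E with h1 | ⟨e, h2, h3, h4⟩
  · rw [h1]; exact Nat.zero_le _
  · rw [h4]
    obtain ⟨e', b1, b2, b3⟩ := h e h2
    exact (b3 _).trans (le_fE b1 (by rw [b2]; exact h3))

/-- the vertex `z` has two neighbours in a piece in `U` -/
def BC (CL : List CPc) (G : SimpleGraph V) [DecidableRel G.Adj] (U : Finset V) (z : V) : Prop :=
  ∃ e ∈ CL, ∃ E ⊆ U, Pc G E e.1.1 e.1.2 ∧ 2 ≤ nU G E z

open scoped Classical in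
/-- **the change in a step**: `o` bounds the number of the killed vertices with two neighbours in a piece; `K`:
disjoint killed sets -/
theorem exv_step {CL : List CPc} {U' U : Finset V} (hs : U' ⊆ U) (hI' : Inv G U') {CT : ℕ → ℕ} {o : ℕ}
    (hm : ∀ s ≤ o, CT s ≤ CT o)
    (h1 : ∀ e ∈ CL, ∀ E ⊆ U', Pc G E e.1.1 e.1.2 → ∀ s, s + (hit G U U' E).card ≤ o →
      cfv e (dds G U' E).card + CT s ≤ cfv e (dds G U E).card + CT (s + (hit G U U' E).card))
    (ho : ((cuts2 G U U').filter (BC CL G U')).card ≤ o)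
    {K : Finset (Finset V)} (hK : Fam (U \ U') K) :
    exv CL G U' + ∑ C ∈ K, fE CL G U C ≤ exv CL G U + CT o := by
  obtain ⟨F, a1, a2⟩ := exv_eq (G := G) CL U'
  obtain ⟨W, hW⟩ : ∃ W, W = F.filter fun E => ∃ e ∈ CL, Pc G E e.1.1 e.1.2 := ⟨_, rfl⟩
  have b1 : ∀ E ∈ W, E ∈ F ∧ ∃ e ∈ CL, Pc G E e.1.1 e.1.2 := fun E hE => by
    rw [hW] at hE
    exact mem_filter.1 hE
  have b2 : ∑ E ∈ F, fE CL G U' E = ∑ E ∈ W, fE CL G U' E := by
    rw [hW, sum_filter]
    refine sum_congr rfl fun E _ => ?_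
    split_ifs with h
    · rfl
    · rcases fE_cases (G := G) CL U' E with h2 | ⟨e, h2, h3, -⟩
      · exact h2
      · exact absurd ⟨e, h2, h3⟩ h
  -- the number of the hits
  have b3 : ∑ E ∈ W, (hit G U U' E).card ≤ o := by
    refine le_trans ?_ ho
    rw [← card_biUnion]
    · refine card_le_card fun z hz => ?_
      obtain ⟨E, h2, h3⟩ := mem_biUnion.1 hz
      obtain ⟨h4, e, h5, h6⟩ := b1 E h2
      obtain ⟨h7, h8⟩ := mem_hit.1 h3
      have h9 := nU_mono (G := G) (a1.sub E h4) z
      have h10 := nU_le_two hI' h7.2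
      refine mem_filter.2 ⟨?_, e, h5, E, a1.sub E h4, h6, h8⟩
      unfold cuts2
      rw [mem_filter, mem_sdiff]
      exact ⟨h7, by omega⟩
    · refine fun A hA B hB hne => disjoint_left.2 ?_
      intro z h3 h4
      exact two_two (a1.sub A (b1 A hA).1) (a1.sub B (b1 B hB).1) (a1.dj A (b1 A hA).1 B (b1 B hB).1 hne)
        (nU_le_two hI' (mem_hit.1 h3).1.2) (mem_hit.1 h3).2 (mem_hit.1 h4).2
  -- the induction over the pieces
  have b4 : ∀ S : Finset (Finset V), S ⊆ W → ∑ E ∈ S, fE CL G U' E + CT 0 ≤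
      ∑ E ∈ S, fE CL G U E + CT (∑ E ∈ S, (hit G U U' E).card) := by
    intro S
    induction S using Finset.induction_on with
    | empty => intro _; simp
    | insert E S hE ih =>
      intro hS
      rw [sum_insert hE, sum_insert hE, sum_insert hE]
      have h2 := ih ((subset_insert E S).trans hS)
      have h3 : ∑ E ∈ insert E S, (hit G U U' E).card ≤ ∑ E ∈ W, (hit G U U' E).card :=
        sum_le_sum_of_subset hS
      rw [sum_insert hE] at h3
      have h4 := hS (mem_insert_self E S)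
      rcases fE_cases (G := G) CL U' E with h5 | ⟨e, h5, h6, h7⟩
      · obtain ⟨h8, e, h9, h10⟩ := b1 E h4
        have h11 := h1 e h9 E (a1.sub E h8) h10 (∑ E ∈ S, (hit G U U' E).card) (by omega)
        have h12 := le_fE (U := U) h9 h10
        have h13 : CT (∑ E ∈ S, (hit G U U' E).card) ≤
            fE CL G U E + CT (∑ E ∈ S, (hit G U U' E).card + (hit G U U' E).card) := by omega
        rw [h5, add_comm (hit G U U' E).card]
        omega
      · have h11 := h1 e h5 E (a1.sub E (b1 E h4).1) h6 (∑ E ∈ S, (hit G U U' E).card) (by omega)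
        have h12 := le_fE (U := U) h5 h6
        rw [h7, add_comm (hit G U U' E).card]
        omega
  -- the family in `U`
  have hd : Disjoint W K := by
    rw [disjoint_left]
    intro E h2 h3
    obtain ⟨x, hx⟩ := hK.ne E h3
    exact (mem_sdiff.1 (hK.sub E h3 hx)).2 (a1.sub E (b1 E h2).1 hx)
  have hF : Fam U (W ∪ K) := by
    refine ⟨fun E hE => ?_, fun E hE => ?_, fun E hE E' hE' hne => ?_⟩
    · rcases mem_union.1 hE with h2 | h2
      · exact (a1.sub E (b1 E h2).1).trans hs
      · exact (hK.sub E h2).trans sdiff_subset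
    · rcases mem_union.1 hE with h2 | h2
      · exact a1.ne E (b1 E h2).1
      · exact hK.ne E h2
    · rcases mem_union.1 hE with h2 | h2 <;> rcases mem_union.1 hE' with h3 | h3
      · exact a1.dj E (b1 E h2).1 E' (b1 E' h3).1 hne
      · rw [disjoint_left]
        exact fun x h4 h5 => (mem_sdiff.1 (hK.sub E' h3 h5)).2 (a1.sub E (b1 E h2).1 h4)
      · rw [disjoint_left]
        exact fun x h4 h5 => (mem_sdiff.1 (hK.sub E h2 h4)).2 (a1.sub E' (b1 E' h3).1 h5)
      · exact hK.dj E h2 E' h3 hne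
  have h3 := le_exv (G := G) (CL := CL) hF
  rw [sum_union hd] at h3
  have h4 := b4 W (Subset.refl W)
  have h5 := hm _ b3
  rw [a2, b2]
  omega

end EF18
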