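import Pool.Agent.Lib.MP_ef18bd_co.P.Frame

/-!
# Diamonds in the comparison

`MidV G x`: the vertex `x` has a partner `y`: adjacent, with the same other neighbours. In a graph without complete graph on four vertices
(`NoK4`) the four stars of a diamond have together at least the slack `9` in the second local inequality, so the number of the vertices
`x` can be added: `20 |S| + 6 n + 3 #mids ≤ 24 Σ g` (`Dat.totalD`). `compare_of_classD`: the comparison from packings with
`28 |S| ≤ 6 n + 3 #mids + 22` in the connected components without `K4`.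
-/

namespace EF18

open Finset

/-- the largest value of `potB c e` for the third neighbours `e` of a vertex with the neighbours `a`, `b` -/
def mxD (c a b : ℕ) : List ℕ → ℕ
  | [] => 0
  | e :: L => bif legal (F c) (F a + F b + F e) then
      (bif Nat.ble (mxD c a b L) (potB c e) then potB c e else mxD c a b L) else mxD c a b L

/-- the inequality for the four stars of a diamond with the labels `a`, `b` (adjacent), `c`, `d` -/
def chkD (a : ℕ) : Bool :=
  (nb a).all fun b => Nat.blt b a || (nb a).all fun c => !((nb b).contains c) || (nb a).all fun d =>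
    Nat.blt d c || !((nb b).contains d) || !(legal (F a) (F b + F c + F d)) ||
    !(legal (F b) (F a + F c + F d)) ||
    Nat.ble (potB a b + potB a c + potB a d + (potB b a + potB b c + potB b d) +
      (potB c a + potB c b + mxD c a b (nb c)) + (potB d a + potB d b + mxD d a b (nb d)) +
      30 * (fld (F a) 2 + fld (F b) 2 + fld (F c) 2 + fld (F d) 2) + 45)
      (786432 + 36 * (fld (F a) 0 + fld (F b) 0 + fld (F c) 0 + fld (F d) 0))

theorem chkD_all : (List.range 42).all chkD = true := by decide +kernel

theorem le_mxD {c a b e : ℕ} {L : List ℕ} (he : e ∈ L) (hl : legal (F c) (F a + F b + F e) = true) :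
    potB c e ≤ mxD c a b L := by
  induction L with
  | nil => exact absurd he (List.not_mem_nil)
  | cons x L ih =>
    rw [mxD]
    rcases List.mem_cons.1 he with rfl | he
    · rw [hl, cond_true]
      rcases hb : Nat.ble (mxD c a b L) (potB c e) with _ | _
      · rw [cond_false]
        by_contra hc
        rw [Bool.eq_false_iff, Ne, Nat.ble_eq] at hb
        omega
      · rw [cond_true]
    · have h1 := ih he
      rcases legal (F c) (F a + F b + F x) with _ | _
      · rw [cond_false]; exact h1
      · rw [cond_true]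
        rcases hb : Nat.ble (mxD c a b L) (potB c x) with _ | _
        · rw [cond_false]; exact h1
        · rw [cond_true]
          rw [Nat.ble_eq] at hb
          exact h1.trans hb

/-- the sum of the four stars -/
theorem chkD_sorted {a b c d e f : ℕ} (ha : a < 42) (hb : (nb a).contains b = true)
    (hc : (nb a).contains c = true) (hd : (nb a).contains d = true) (hbc : (nb b).contains c = true)
    (hbd : (nb b).contains d = true) (hce : (nb c).contains e = true) (hdf : (nb d).contains f = true)
    (hab : a ≤ b) (hcd : c ≤ d) (h1 : legal (F a) (F b + F c + F d) = true)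
    (h2 : legal (F b) (F a + F c + F d) = true) (h3 : legal (F c) (F a + F b + F e) = true)
    (h4 : legal (F d) (F a + F b + F f) = true) :
    potB a b + potB a c + potB a d + (potB b a + potB b c + potB b d) +
      (potB c a + potB c b + potB c e) + (potB d a + potB d b + potB d f) +
      30 * (fld (F a) 2 + fld (F b) 2 + fld (F c) 2 + fld (F d) 2) + 45 ≤
      786432 + 36 * (fld (F a) 0 + fld (F b) 0 + fld (F c) 0 + fld (F d) 0) := by
  have h := chkD_all
  rw [List.all_eq_true] at h
  have k1 := h a (List.mem_range.2 ha)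
  unfold chkD at k1
  rw [List.all_eq_true] at k1
  have k2 := k1 b (by simpa using hb)
  rw [blt_false hab, Bool.false_or, List.all_eq_true] at k2
  have k3 := k2 c (by simpa using hc)
  rw [hbc, Bool.not_true, Bool.false_or, List.all_eq_true] at k3
  have k4 := k3 d (by simpa using hd)
  rw [blt_false hcd, Bool.false_or, hbd, Bool.not_true, Bool.false_or, h1, Bool.not_true, Bool.false_or, h2,
    Bool.not_true, Bool.false_or, Nat.ble_eq] at k4
  have k5 := le_mxD (L := nb c) (by simpa using hce) h3
  have k6 := le_mxD (L := nb d) (by simpa using hdf) h4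
  omega

/-- the sum of the four stars, any order -/
theorem chkD_any {a b c d e f : ℕ} (ha : a < 42) (hb' : b < 42) (hb : (nb a).contains b = true)
    (hba : (nb b).contains a = true)
    (hc : (nb a).contains c = true) (hd : (nb a).contains d = true) (hbc : (nb b).contains c = true)
    (hbd : (nb b).contains d = true) (hce : (nb c).contains e = true) (hdf : (nb d).contains f = true)
    (h1 : legal (F a) (F b + F c + F d) = true)
    (h2 : legal (F b) (F a + F c + F d) = true) (h3 : legal (F c) (F a + F b + F e) = true)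
    (h4 : legal (F d) (F a + F b + F f) = true) :
    potB a b + potB a c + potB a d + (potB b a + potB b c + potB b d) +
      (potB c a + potB c b + potB c e) + (potB d a + potB d b + potB d f) +
      30 * (fld (F a) 2 + fld (F b) 2 + fld (F c) 2 + fld (F d) 2) + 45 ≤
      786432 + 36 * (fld (F a) 0 + fld (F b) 0 + fld (F c) 0 + fld (F d) 0) := by
  rcases le_total a b with hab | hab <;> rcases le_total c d with hcd | hcd
  · exact chkD_sorted ha hb hc hd hbc hbd hce hdf hab hcd h1 h2 h3 h4
  · have := chkD_sorted ha hb hd hc hbd hbc hdf hce hab hcd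
      (by rw [show F b + F d + F c = F b + F c + F d by ring]; exact h1)
      (by rw [show F a + F d + F c = F a + F c + F d by ring]; exact h2) h4 h3
    omega
  · have := chkD_sorted hb' hba hbc hbd hc hd hce hdf hab hcd h2 h1
      (by rw [show F b + F a + F e = F a + F b + F e by ring]; exact h3)
      (by rw [show F b + F a + F f = F a + F b + F f by ring]; exact h4)
    omega
  · have := chkD_sorted hb' hba hbd hbc hd hc hdf hce hab hcd
      (by rw [show F a + F d + F c = F a + F c + F d by ring]; exact h2)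
      (by rw [show F b + F d + F c = F b + F c + F d by ring]; exact h1)
      (by rw [show F b + F a + F f = F a + F b + F f by ring]; exact h4)
      (by rw [show F b + F a + F e = F a + F b + F e by ring]; exact h3)
    omega

section

variable {V : Type} [Fintype V] [DecidableEq V] {G : SimpleGraph V} [DecidableRel G.Adj]

/-- `x` and `y` are adjacent and have the same other neighbours -/
def Prt (G : SimpleGraph V) (x y : V) : Prop := G.Adj x y ∧ ∀ z, z ≠ y → G.Adj x z → G.Adj y z

/-- a vertex with a partner -/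
def MidV (G : SimpleGraph V) (x : V) : Prop := ∃ y, Prt G x y

open scoped Classical in
/-- the vertices with a partner -/
noncomputable def mids (G : SimpleGraph V) : Finset V := univ.filter fun x => MidV G x

/-- no complete graph on four vertices -/
def NoK4 (G : SimpleGraph V) : Prop := ∀ a b c d, G.Adj a b → G.Adj a c → G.Adj a d → G.Adj b c →
  G.Adj b d → ¬ G.Adj c d

theorem Prt.symm (hG : G.IsRegularOfDegree 3) {x y : V} (h : Prt G x y) : Prt G y x := by
  have h1 : (G.neighborFinset x).erase y ⊆ (G.neighborFinset y).erase x := by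
    intro z hz
    rw [mem_erase, SimpleGraph.mem_neighborFinset] at hz ⊢
    exact ⟨fun e => G.loopless.irrefl _ (e ▸ hz.2), h.2 z hz.1 hz.2⟩
  have h2 : (G.neighborFinset x).erase y = (G.neighborFinset y).erase x := by
    refine eq_of_subset_of_card_le h1 ?_
    rw [card_erase_of_mem (by rw [SimpleGraph.mem_neighborFinset]; exact h.1.symm),
      card_erase_of_mem (by rw [SimpleGraph.mem_neighborFinset]; exact h.1), nbr_card hG, nbr_card hG]
  refine ⟨h.1.symm, fun z hz hyz => ?_⟩
  have : z ∈ (G.neighborFinset y).erase x := by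
    rw [mem_erase, SimpleGraph.mem_neighborFinset]
    exact ⟨hz, hyz⟩
  rw [← h2, mem_erase, SimpleGraph.mem_neighborFinset] at this
  exact this.2

/-- a third neighbour -/
theorem exists_third (hG : G.IsRegularOfDegree 3) (x y z : V) : ∃ d, G.Adj x d ∧ d ≠ y ∧ d ≠ z := by
  have h1 : 0 < ((G.neighborFinset x) \ {y, z}).card := by
    have h2 := le_card_sdiff ({y, z} : Finset V) (G.neighborFinset x)
    have h3 : ({y, z} : Finset V).card ≤ 2 := card_le_two
    rw [nbr_card hG] at h2
    omega
  obtain ⟨d, hd⟩ := card_pos.1 h1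
  rw [mem_sdiff, SimpleGraph.mem_neighborFinset, mem_insert, mem_singleton, not_or] at hd
  exact ⟨d, hd.1, hd.2.1, hd.2.2⟩

/-- the vertices with a partner in one closed neighbourhood -/
theorem mid_unique (hG : G.IsRegularOfDegree 3) (hK : NoK4 G) {x y x' y' z : V} (h : Prt G x y)
    (h' : Prt G x' y') (hz : z ∈ cn G x) (hz' : z ∈ cn G x') : x' = x ∨ x' = y := by
  by_contra hc
  rw [not_or] at hc
  obtain ⟨n1, n2⟩ := hc
  have hs := h.symm hG
  have hs' := h'.symm hG
  rw [mem_cn] at hz hz'
  -- `x` and `x'` are adjacent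
  have key : G.Adj x x' := by
    rcases hz with rfl | hxz
    · rcases hz' with rfl | h1
      · exact absurd rfl n1
      · exact h1.symm
    rcases hz' with rfl | hx'z
    · exact hxz
    by_cases e1 : z = y
    · subst e1
      exact hs.2 x' n1 hx'z.symm
    by_cases e2 : z = y'
    · subst e2
      exact (hs'.2 x (Ne.symm n1) hxz.symm).symm
    -- `z` has the neighbours `x`, `y`, `x'`, `y'`
    have z1 := h.2 z e1 hxz
    have z2 := h'.2 z e2 hx'z
    have h3 : ({x, y, x'} : Finset V) = G.neighborFinset z := by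
      refine eq_of_subset_of_card_le ?_ ?_
      · intro t ht
        rw [mem_insert, mem_insert, mem_singleton] at ht
        rw [SimpleGraph.mem_neighborFinset]
        rcases ht with rfl | rfl | rfl
        · exact hxz.symm
        · exact z1.symm
        · exact hx'z.symm
      · rw [nbr_card hG, card_insert_of_notMem, card_pair (Ne.symm n2)]
        rw [mem_insert, mem_singleton, not_or]
        exact ⟨h.1.ne, Ne.symm n1⟩
    have h4 : y' ∈ G.neighborFinset z := by
      rw [SimpleGraph.mem_neighborFinset]
      exact z2.symm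
    rw [← h3, mem_insert, mem_insert, mem_singleton] at h4
    rcases h4 with e | e | e
    · exact (e ▸ h'.1).symm
    · exact hs.2 x' n1 (e ▸ h'.1).symm
    · exact absurd e h'.1.ne'
  have key2 : G.Adj y x' := h.2 x' n2 key
  by_cases e1 : y' = x
  · obtain ⟨d, d1, d2, d3⟩ := exists_third hG x y x'
    have d4 : G.Adj x' d := by
      have := hs'.2 d d3 (by rw [e1]; exact d1)
      exact this
    exact hK x y x' d h.1 key d1 key2 (h.2 d d2 d1) d4
  by_cases e2 : y' = y
  · obtain ⟨d, d1, d2, d3⟩ := exists_third hG y x x'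
    have d4 : G.Adj x' d := hs'.2 d d3 (by rw [e2]; exact d1)
    exact hK y x x' d h.1.symm key2 d1 key (hs.2 d d2 d1) d4
  · have d1 : G.Adj y' x := h'.2 x (Ne.symm e1) key.symm
    have d2 : G.Adj y' y := h'.2 y (Ne.symm e2) key2.symm
    exact hK x y x' y' h.1 key d1.symm key2 d2.symm h'.1

theorem mids_cn (hG : G.IsRegularOfDegree 3) (hK : NoK4 G) (z : V) : (cn G z ∩ mids G).card ≤ 2 := by
  classical
  rcases (cn G z ∩ mids G).eq_empty_or_nonempty with h | ⟨x, hx⟩
  · rw [h]; simp
  · rw [mem_inter, mids, mem_filter] at hx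
    obtain ⟨hx1, -, y, hy⟩ := hx
    refine (card_le_card (t := {x, y}) fun x' hx' => ?_).trans card_le_two
    rw [mem_inter, mids, mem_filter] at hx'
    obtain ⟨hx1', -, y', hy'⟩ := hx'
    rw [mem_insert, mem_singleton]
    exact mid_unique hG hK hy hy' (mem_cn_comm.1 hx1) (mem_cn_comm.1 hx1')

variable {g : V → ℕ} {S1 S : Finset V}

/-- the slack of a star -/
noncomputable def slB (G : SimpleGraph V) [DecidableRel G.Adj] (g : V → ℕ) (S1 S : Finset V) (v : V) : ℕ :=
  196608 + 36 * g v - ((∑ u ∈ G.neighborFinset v, potB (lab G g S1 S v) (lab G g S1 S u)) +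
    30 * ι (v ∈ S) + 9)

theorem Dat.slB_eq (D : Dat G g S1 S) (v : V) :
    (∑ u ∈ G.neighborFinset v, potB (lab G g S1 S v) (lab G g S1 S u)) + 30 * ι (v ∈ S) + 9 +
      slB G g S1 S v = 196608 + 36 * g v := by
  have h := (D.loc v).2
  unfold slB
  omega

theorem Dat.nbl (D : Dat G g S1 S) {v u : V} (h : G.Adj v u) :
    (nb (lab G g S1 S v)).contains (lab G g S1 S u) = true :=
  edge_nb _ (List.mem_range.2 (D.lab_lt v)) _ (List.mem_range.2 (D.lab_lt u)) (D.edge h)

/-- the slack of a diamond -/
theorem Dat.dia (D : Dat G g S1 S) (hG : G.IsRegularOfDegree 3) {x y : V} (h : Prt G x y) :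
    9 ≤ ∑ z ∈ cn G x, slB G g S1 S z := by
  have hs := h.symm hG
  -- the vertices
  obtain ⟨c, c1, c2, -⟩ := exists_third hG x y y
  obtain ⟨d, d1, d2, d3⟩ := exists_third hG x y c
  have hcy := h.2 c c2 c1
  have hdy := h.2 d d2 d1
  obtain ⟨e, e1, e2, e3⟩ := exists_third hG c x y
  obtain ⟨f, f1, f2, f3⟩ := exists_third hG d x y
  have tri : ∀ {a b1 b2 b3 : V}, G.Adj a b1 → G.Adj a b2 → G.Adj a b3 → b1 ≠ b2 → b1 ≠ b3 → b2 ≠ b3 →
      G.neighborFinset a = {b1, b2, b3} := by
    intro a b1 b2 b3 a1 a2 a3 n12 n13 n23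
    symm
    refine eq_of_subset_of_card_le ?_ ?_
    · intro t ht
      rw [mem_insert, mem_insert, mem_singleton] at ht
      rw [SimpleGraph.mem_neighborFinset]
      rcases ht with rfl | rfl | rfl
      · exact a1
      · exact a2
      · exact a3
    · rw [nbr_card hG, card_insert_of_notMem, card_pair n23]
      rw [mem_insert, mem_singleton, not_or]
      exact ⟨n12, n13⟩
  have hxy := h.1.ne
  have Nx := tri h.1 c1 d1 (Ne.symm c2) (Ne.symm d2) (Ne.symm d3)
  have Ny := tri h.1.symm hcy hdy c1.ne d1.ne (Ne.symm d3)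
  have Nc := tri c1.symm hcy.symm e1 hxy (Ne.symm e2) (Ne.symm e3)
  have Nd := tri d1.symm hdy.symm f1 hxy (Ne.symm f2) (Ne.symm f3)
  rw [sum_cn Nx (Ne.symm c2) (Ne.symm d2) (Ne.symm d3)]
  have qx := D.slB_eq x
  have qy := D.slB_eq y
  have qc := D.slB_eq c
  have qd := D.slB_eq d
  rw [sum_nbr Nx (Ne.symm c2) (Ne.symm d2) (Ne.symm d3)] at qx
  rw [sum_nbr Ny c1.ne d1.ne (Ne.symm d3)] at qy
  rw [sum_nbr Nc hxy (Ne.symm e2) (Ne.symm e3)] at qc
  rw [sum_nbr Nd hxy (Ne.symm f2) (Ne.symm f3)] at qd
  have lx := D.legal Nx (Ne.symm c2) (Ne.symm d2) (Ne.symm d3)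
  have ly := D.legal Ny c1.ne d1.ne (Ne.symm d3)
  have lc := D.legal Nc hxy (Ne.symm e2) (Ne.symm e3)
  have ld := D.legal Nd hxy (Ne.symm f2) (Ne.symm f3)
  have key := chkD_any (D.lab_lt x) (D.lab_lt y) (D.nbl h.1) (D.nbl h.1.symm) (D.nbl c1) (D.nbl d1)
    (D.nbl hcy) (D.nbl hdy) (D.nbl e1) (D.nbl f1) lx ly lc ld
  obtain ⟨x0, -, x2, -⟩ := D.fields x
  obtain ⟨y0, -, y2, -⟩ := D.fields y
  obtain ⟨c0, -, c2', -⟩ := D.fields c
  obtain ⟨d0, -, d2', -⟩ := D.fields d
  rw [x0, x2, y0, y2, c0, c2', d0, d2'] at key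
  omega

/-- **the second inequality with the diamonds** -/
theorem Dat.totalD (D : Dat G g S1 S) (hG : G.IsRegularOfDegree 3) (hK : NoK4 G) :
    20 * S.card + 6 * Fintype.card V + 3 * (mids G).card ≤ 24 * ∑ v, g v := by
  classical
  have hS : ∑ v, ι (v ∈ S) = S.card := by
    have h1 : S.card = ∑ v, if v ∈ S then 1 else 0 := by
      rw [← card_filter]; congr 1; ext x; simp
    rw [h1]
    refine sum_congr rfl fun x _ => ?_
    unfold ι
    by_cases h : x ∈ S <;> simp [h]
  have sB := sum_symm D.card (fun v u => potB (lab G g S1 S v) (lab G g S1 S u)) (fun u v =>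
    (pot_symm _ (List.mem_range.2 (D.lab_lt u)) _ (List.mem_range.2 (D.lab_lt v))).2)
  have h2 := sum_congr (s₁ := (univ : Finset V)) rfl fun v _ => D.slB_eq v
  simp only [sum_add_distrib, ← mul_sum, sum_const, card_univ, smul_eq_mul] at h2
  rw [sB, hS] at h2
  -- the slack
  have h3 : 9 * (mids G).card ≤ ∑ x ∈ mids G, ∑ z ∈ cn G x, slB G g S1 S z := by
    rw [mul_comm, ← smul_eq_mul, ← sum_const]
    refine sum_le_sum fun x hx => ?_
    rw [mids, mem_filter] at hx
    obtain ⟨-, y, hy⟩ := hx
    exact D.dia hG hy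
  have h4 : ∑ x ∈ mids G, ∑ z ∈ cn G x, slB G g S1 S z =
      ∑ z, ∑ x ∈ cn G z ∩ mids G, slB G g S1 S z := by
    refine sum_comm' fun x z => ?_
    rw [mem_inter, mem_cn_comm]
    simp only [mem_univ, and_true]
    tauto
  have h5 : ∑ z, ∑ x ∈ cn G z ∩ mids G, slB G g S1 S z ≤ ∑ z, 2 * slB G g S1 S z := by
    refine sum_le_sum fun z _ => ?_
    rw [sum_const, smul_eq_mul]
    exact Nat.mul_le_mul_right _ (mids_cn hG hK z)
  rw [h4] at h3
  have h6 := h3.trans h5
  rw [← mul_sum] at h6
  omega

/-- the data of a minimal function -/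
theorem exists_dat (hG : G.IsRegularOfDegree 3) {f : V → ℤ} (hf : MinimalMinus G f) :
    ∃ (g : V → ℕ) (S1 S : Finset V), Dat G g S1 S ∧ ((∑ v, g v : ℕ) : ℤ) = Fintype.card V - ∑ v, f v := by
  classical
  obtain ⟨g, hg⟩ : ∃ g : V → ℕ, g = fun v => (1 - f v).toNat := ⟨_, rfl⟩
  have hle := minus_le_one hf.1
  have hgs : ∀ v, ((∑ u ∈ cn G v, g u : ℕ) : ℤ) = 4 - ∑ u ∈ cn G v, f u := fun v => by
    rw [hg, toNat_sum hle, cn_card hG v]; norm_num
  have hgf : ∀ v, (g v : ℤ) = 1 - f v := fun v => by
    rw [hg]; exact Int.toNat_of_nonneg (by have := hle v; omega)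
  obtain ⟨A, hA⟩ : ∃ A : Finset V, A = univ.filter (fun v => g v = 2 ∨ (g v = 1 ∧ ∑ x ∈ cn G v, g x = 3 ∧
      (∃ u, G.Adj v u ∧ g u = 1 ∧ ∑ x ∈ cn G u, g x = 3) ∧
      (∃ u, G.Adj v u ∧ g u = 0 ∧ ∑ x ∈ cn G u, g x ≠ 3))) := ⟨_, rfl⟩
  obtain ⟨S1, p1, -, s1, m1⟩ := exists_max G A ∅ (fun v => by simp) (empty_subset _)
  obtain ⟨S, p2, s2, -, m2⟩ := exists_max G univ S1 p1 (subset_univ _)
  refine ⟨g, S1, S, {
    card := nbr_card hG
    h2 := fun v => by
      have h1 := hf.1.2 v
      have h2 := hgs v
      omega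
    h3 := fun v hv => by
      have h1 := hgf v
      obtain ⟨u, hu, h2⟩ := minus_crit hf (v := v) (by omega)
      refine ⟨u, hu, ?_⟩
      have h3 := hgs u
      omega
    g2 := fun v => by
      have h1 := hgf v
      rcases hf.1.1 v with h | h | h <;> omega
    sub := s2
    pk := p2
    mx := m2
    mxA := fun v hv => m1 v (by rw [hA]; simpa using hv)
    sA := fun v hv => by
      have := s1 hv
      rw [hA] at this
      simpa using this }, ?_⟩
  rw [hg, toNat_sum hle, card_univ]

/-- one graph without `K4`: a small maximal packing is enough -/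
theorem packing_leD (hG : G.IsRegularOfDegree 3) (hK : NoK4 G)
    (h : ∃ S : Finset V, Pk G S ∧ Mx G univ S ∧
      28 * S.card ≤ 6 * Fintype.card V + 3 * (mids G).card + 22)
    {f : V → ℤ} (hf : MinimalMinus G f) :
    ∃ S : Finset V, Pk G S ∧ Mx G univ S ∧ 2 * (S.card : ℤ) ≤ Fintype.card V - ∑ v, f v := by
  obtain ⟨S, hp, hm, h1⟩ := h
  obtain ⟨g, T1, T, D, hs⟩ := exists_dat hG hf
  obtain ⟨t1, t2⟩ := D.total
  have t3 := D.totalD hG hK
  have hg := pk_card hG D.pk
  rcases le_total S.card T.card with hle | hle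
  · refine ⟨S, hp, hm, ?_⟩
    rw [← hs]
    omega
  · refine ⟨T, D.pk, D.mx, ?_⟩
    rw [← hs]
    omega

/-- a connected graph with `K4` has four vertices -/
theorem card_of_K4 (hG : G.IsRegularOfDegree 3) (hc : G.Connected) (hK : ¬ NoK4 G) :
    Fintype.card V = 4 := by
  unfold NoK4 at hK
  push Not at hK
  obtain ⟨a, b, c, d, hab, hac, had, hbc, hbd, hcd⟩ := hK
  have key : ∀ {x y z w : V}, G.Adj x y → G.Adj x z → G.Adj x w → G.Adj y z → G.Adj y w → G.Adj z w →
      cn G x = {x, y, z, w} := by
    intro x y z w h1 h2 h3 h4 h5 h6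
    symm
    refine eq_of_subset_of_card_le ?_ ?_
    · intro t ht
      rw [mem_insert, mem_insert, mem_insert, mem_singleton] at ht
      rw [mem_cn]
      rcases ht with rfl | rfl | rfl | rfl
      · exact Or.inl rfl
      · exact Or.inr h1
      · exact Or.inr h2
      · exact Or.inr h3
    · rw [cn_card hG, card_insert_of_notMem, card_insert_of_notMem, card_pair h6.ne]
      · rw [mem_insert, mem_singleton, not_or]
        exact ⟨h4.ne, h5.ne⟩
      · rw [mem_insert, mem_insert, mem_singleton, not_or, not_or]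
        exact ⟨h1.ne, h2.ne, h3.ne⟩
  have ca := key hab hac had hbc hbd hcd
  have cb := key hab.symm hbc hbd hac had hcd
  have cc := key hac.symm hbc.symm hcd hab had hbd
  have cd := key had.symm hbd.symm hcd.symm hab hac hbc
  have hun : cn G a = univ := by
    by_contra hne
    obtain ⟨z, hz⟩ : ∃ z, z ∉ cn G a := by
      by_contra h
      push Not at h
      exact hne (eq_univ_of_forall h)
    obtain ⟨p⟩ := hc.preconnected a z
    obtain ⟨e, -, h1, h2⟩ := p.exists_boundary_dart (cn G a : Set V) (mem_coe.2 self_mem_cn)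
      (fun h => hz (mem_coe.1 h))
    have h3 : e.snd ∈ cn G e.fst := mem_cn.2 (Or.inr e.adj)
    have h4 := mem_coe.1 h1
    refine h2 (mem_coe.2 ?_)
    rw [ca, mem_insert, mem_insert, mem_insert, mem_singleton] at h4 ⊢
    rcases h4 with h4 | h4 | h4 | h4 <;> rw [h4] at h3
    · rw [ca, mem_insert, mem_insert, mem_insert, mem_singleton] at h3; tauto
    · rw [cb, mem_insert, mem_insert, mem_insert, mem_singleton] at h3; tauto
    · rw [cc, mem_insert, mem_insert, mem_insert, mem_singleton] at h3; tauto
    · rw [cd, mem_insert, mem_insert, mem_insert, mem_singleton] at h3; tauto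
  rw [← card_univ, ← hun, cn_card hG]

/-- **the comparison from the packing bound with the diamonds** for the connected components without `K4`; `Q` is any property which the
components inherit -/
theorem compare_of_classD (Q : ∀ {W : Type}, SimpleGraph W → Prop)
    (h : ∀ (W : Type) [Fintype W] [DecidableEq W] (H : SimpleGraph W) [DecidableRel H.Adj],
      H.IsRegularOfDegree 3 → H.Connected → NoK4 H → Q H →
      ∃ S : Finset W, Pk H S ∧ Mx H univ S ∧
        28 * S.card ≤ 6 * Fintype.card W + 3 * (mids H).card + 22)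
    (hG : G.IsRegularOfDegree 3)
    (hQ : ∀ k : G.ConnectedComponent,
      Q (G.comap (Subtype.val : {v : V // G.connectedComponentMk v = k} → V))) :
    upperMinus G ≤ upperSigned G := by
  classical
  obtain ⟨f, hf, hw⟩ := (attained hG).1
  have hc : ∀ u v, G.Adj u v → G.connectedComponentMk u = G.connectedComponentMk v := fun u v huv =>
    SimpleGraph.ConnectedComponent.connectedComponentMk_eq_of_adj huv
  obtain ⟨S, hp, hm, h1⟩ := glue (c := G.connectedComponentMk) hc (f := f) (fun k => by
    have hr := reg_part hG hc k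
    have hcon : (part G G.connectedComponentMk k).Connected :=
      SimpleGraph.ConnectedComponent.connected_toSimpleGraph k
    by_cases hK : NoK4 (part G G.connectedComponentMk k)
    · exact packing_leD hr hK (h _ (part G G.connectedComponentMk k) hr hcon hK (hQ k))
        (minus_part hc hf k)
    · refine packing_le hr ?_ (minus_part hc hf k)
      obtain ⟨S, a1, -, -, a2⟩ := exists_max (part G G.connectedComponentMk k) univ ∅
        (fun v => by simp) (empty_subset _)
      have a3 := pk_card hr a1
      have a4 := card_of_K4 hr hcon hK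
      exact ⟨S, a1, a2, by omega⟩)
  have h2 := le_upperSigned hG hp hm
  omega

end

end EF18
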