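import Pool.Agent.Lib.MP_ef18bd_co.P.BonK

/-!
# The extra charge for the diamond pairs

`DPp G x y`: `x` and `y` are adjacent and the other neighbours of `x` are neighbours of `y`. `dpn G U`: the
number of ordered diamond pairs in `U`. `GoodU`: a good set of picks, bonus without triangle vertices, charge `e`
for every ordered diamond pair. `frameU`: the frame.
-/

namespace EF18

open Finset

variable {V : Type} [Fintype V] [DecidableEq V] {G : SimpleGraph V} [DecidableRel G.Adj]

/-- a diamond pair -/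
def DPp (G : SimpleGraph V) (x y : V) : Prop := G.Adj x y ∧ ∀ z, z ≠ y → G.Adj x z → G.Adj y z

open scoped Classical in
/-- the ordered diamond pairs in `U` -/
noncomputable def dps (G : SimpleGraph V) (U : Finset V) : Finset (V × V) :=
  (U ×ˢ U).filter fun q => DPp G q.1 q.2

/-- the number of ordered diamond pairs in `U` -/
noncomputable def dpn (G : SimpleGraph V) (U : Finset V) : ℕ := (dps G U).card

open scoped Classical in
omit [Fintype V] [DecidableEq V] [DecidableRel G.Adj] in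
theorem mem_dps {U : Finset V} {q : V × V} : q ∈ dps G U ↔ (q.1 ∈ U ∧ q.2 ∈ U) ∧ DPp G q.1 q.2 := by
  unfold dps
  rw [mem_filter, mem_product]

omit [Fintype V] [DecidableEq V] [DecidableRel G.Adj] in
theorem dpn_mono {A B : Finset V} (h : A ⊆ B) : dpn G A ≤ dpn G B := by
  refine card_le_card fun q hq => ?_
  rw [mem_dps] at hq ⊢
  exact ⟨⟨h hq.1.1, h hq.1.2⟩, hq.2⟩

theorem dpn_add {A B : Finset V} (h : Sep G A B) : dpn G A + dpn G B ≤ dpn G (A ∪ B) := by
  unfold dpn
  rw [← card_union_of_disjoint]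
  · refine card_le_card fun q hq => ?_
    rw [mem_union, mem_dps, mem_dps] at hq
    rw [mem_dps, mem_union, mem_union]
    rcases hq with hq | hq
    · exact ⟨⟨Or.inl hq.1.1, Or.inl hq.1.2⟩, hq.2⟩
    · exact ⟨⟨Or.inr hq.1.1, Or.inr hq.1.2⟩, hq.2⟩
  · rw [disjoint_left]
    intro q hq hq'
    rw [mem_dps] at hq hq'
    exact disjoint_left.1 h.disjoint hq.1.1 hq'.1.1

theorem DPp.symm (hG : G.IsRegularOfDegree 3) {x y : V} (h : DPp G x y) : DPp G y x := by
  refine ⟨h.1.symm, fun z hz hyz => ?_⟩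
  have h1 : z ∈ (G.neighborFinset y).erase x := by
    rw [mem_erase, SimpleGraph.mem_neighborFinset]
    exact ⟨hz, hyz⟩
  rw [← dp_nbr hG h.1 h.2, mem_erase, SimpleGraph.mem_neighborFinset] at h1
  exact h1.2

theorem dpn_pair (hG : G.IsRegularOfDegree 3) {C : Finset V} (h : DPr G C) : 2 ≤ dpn G C := by
  obtain ⟨a, b, hab, rfl, h⟩ := h
  have h1 : DPp G a b := ⟨hab, h⟩
  have h2 := h1.symm hG
  unfold dpn
  rw [← card_pair (show (a, b) ≠ (b, a) from fun e => hab.ne (Prod.ext_iff.1 e).1)]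
  refine card_le_card fun q hq => ?_
  rw [mem_insert, mem_singleton] at hq
  rw [mem_dps]
  rcases hq with rfl | rfl
  · exact ⟨⟨mem_insert_self _ _, mem_insert_of_mem (mem_singleton_self _)⟩, h1⟩
  · exact ⟨⟨mem_insert_of_mem (mem_singleton_self _), mem_insert_self _ _⟩, h2⟩

/-- a good set of `c` picks in a connected state without isolated members, which is no diamond pair -/
def GoodU (w : TF) (dl P b e : ℕ) (G : SimpleGraph V) [DecidableRel G.Adj] (U : Finset V) (c : ℕ) : Prop :=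
  ∃ X : List V, X.length = c ∧ Picks G U X ∧
    PsiT (w.iso dl) G (rem G U X) + e * dpn G (rem G U X) + P * X.length + b * min (kUT G U) 2 ≤
      PsiT (w.iso dl) G U + e * dpn G U + b * min (kST G (rem G U X)) 2

/-- the frame with the bonus and the charge for diamond pairs -/
theorem frameU (hG : G.IsRegularOfDegree 3) {w : TF} {dl P b e : ℕ} (hP : P ≤ w.F 0 3 + dl)
    (hP2 : P ≤ 2 * w.F 1 0 + 2 * e) (Cl : Finset V → Prop) (hCl : ∀ A B, A ⊆ B → Cl B → Cl A)
    (hb : ∀ U : Finset V, Inv G U → U ≠ univ → U.Nonempty → Con G U → iso G U = ∅ → Cl U → ¬ DPr G U →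
      ∃ c, c ≠ 0 ∧ GoodU w dl P b e G U c) :
    ∀ U : Finset V, Inv G U → U ≠ univ → Cl U →
      ∃ m, Has G U m ∧ P * m + Xs G (beT b G) U ≤ PsiT (w.iso dl) G U + e * dpn G U := by
  refine frameK hG (fun U => PsiT (w.iso dl) G U + e * dpn G U) P b Cl (DPr G) hCl (fun A B h => ?_)
    (fun x hx => (hP.trans (PsiT_single hx).ge).trans (Nat.le_add_right _ _)) ?_ fun U a1 a2 a3 a4 a5 a6 a7 => ?_
  · have h1 := PsiT_union (w.iso dl) h
    have h2 := Nat.mul_le_mul_left e (dpn_add h)
    rw [mul_add] at h2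
    omega
  · intro U _ hne hc _ hdp
    obtain ⟨h1, h2, h3, -, -⟩ := dp_has hG (w := w.iso dl) hdp
    have e1 : (w.iso dl).F 1 0 = w.F 1 0 := by
      show w.F 1 0 + (if (1 : ℕ) = 0 ∧ (0 : ℕ) = 3 then dl else 0) = w.F 1 0
      rw [if_neg (by omega), add_zero]
    have h4 := Nat.mul_le_mul_left e (dpn_pair hG hdp)
    refine ⟨1, h1, ?_⟩
    rw [h3, h2, e1]
    simp only [Nat.zero_min, mul_zero, mul_one, add_zero]
    omega
  · obtain ⟨c, hc, X, c1, c2, c3⟩ := hb U a1 a2 a3 a4 a5 a6 a7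
    refine ⟨X, fun e => hc (by rw [← c1, e]; rfl), c2, ?_⟩
    omega

end EF18
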