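import Pool.Agent.Lib.MP_ef18bd_co.P.Dia
import Pool.Agent.Lib.MP_ef18bd_co.P.Dpn

/-!
# Diamonds in the comparison, with the ordered pairs

`dpn_mids`: without `K4` there are as many ordered diamond pairs as vertices with a partner. `exists_packingN`: the second inequality with
`dpn G univ`. `compare_of_classN`: the comparison from packings with `14 |S| ≤ 3 n + dpn G univ + 11` (or
`28 |S| ≤ 6 n + 3 dpn G univ + 22`) in the connected components without `K4`.
-/

namespace EF18

open Finset

variable {V : Type} [Fintype V] [DecidableEq V] {G : SimpleGraph V} [DecidableRel G.Adj]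

theorem dpn_mids (hG : G.IsRegularOfDegree 3) (hK : NoK4 G) : dpn G univ = (mids G).card := by
  classical
  unfold dpn
  refine card_bij (fun q _ => q.1) (fun q hq => ?_) (fun q hq q' hq' e => ?_) (fun x hx => ?_)
  · rw [mem_dps] at hq
    rw [mids, mem_filter]
    exact ⟨mem_univ _, q.2, hq.2⟩
  · rw [mem_dps] at hq hq'
    have h1 : Prt G q.1 q.2 := hq.2
    have h2 : Prt G q'.1 q'.2 := hq'.2
    rw [← e] at h2
    have h3 := h2.symm hG
    refine Prod.ext e ?_
    rcases mid_unique hG hK h1 h3 (z := q.1) self_mem_cn (mem_cn.2 (Or.inr h3.1)) with h4 | h4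
    · exact absurd h4.symm h2.1.ne
    · exact h4.symm
  · rw [mids, mem_filter] at hx
    obtain ⟨-, y, hy⟩ := hx
    exact ⟨(x, y), mem_dps.2 ⟨⟨mem_univ _, mem_univ _⟩, hy⟩, rfl⟩

/-- the packing of a minimal function, with the diamonds -/
theorem exists_packingN (hG : G.IsRegularOfDegree 3) (hK : NoK4 G) {f : V → ℤ} (hf : MinimalMinus G f) :
    ∃ S : Finset V, Pk G S ∧ Mx G univ S ∧
      10 * (S.card : ℤ) + 3 * Fintype.card V + dpn G univ ≤ 12 * (Fintype.card V - ∑ v, f v) ∧
      20 * (S.card : ℤ) + 6 * Fintype.card V + 3 * dpn G univ ≤ 24 * (Fintype.card V - ∑ v, f v) := by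
  obtain ⟨g, T1, T, D, hs⟩ := exists_dat hG hf
  have t3 := D.totalD hG hK
  refine ⟨T, D.pk, D.mx, ?_, ?_⟩
  · rw [← hs, dpn_mids hG hK]
    omega
  · rw [← hs, dpn_mids hG hK]
    omega

/-- **the comparison from the packing bound with the diamond pairs** for the connected components without `K4`, the strongest form -/
theorem compare_of_classN (Q : ∀ {W : Type}, SimpleGraph W → Prop)
    (h : ∀ (W : Type) [Fintype W] [DecidableEq W] (H : SimpleGraph W) [DecidableRel H.Adj],
      H.IsRegularOfDegree 3 → H.Connected → NoK4 H → Q H →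
      ∃ S : Finset W, Pk H S ∧ Mx H univ S ∧ 28 * S.card ≤ 6 * Fintype.card W + 3 * dpn H univ + 22)
    (hG : G.IsRegularOfDegree 3)
    (hQ : ∀ k : G.ConnectedComponent,
      Q (G.comap (Subtype.val : {v : V // G.connectedComponentMk v = k} → V))) :
    upperMinus G ≤ upperSigned G := by
  refine compare_of_classD Q (fun W _ _ H _ h1 h2 h3 h4 => ?_) hG hQ
  rw [← dpn_mids h1 h3]
  exact h W H h1 h2 h3 h4

/-- **the comparison from the packing bound with the diamond pairs**: `14 |S| ≤ 3 n + dpn + 11` -/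
theorem compare_of_class14 (Q : ∀ {W : Type}, SimpleGraph W → Prop)
    (h : ∀ (W : Type) [Fintype W] [DecidableEq W] (H : SimpleGraph W) [DecidableRel H.Adj],
      H.IsRegularOfDegree 3 → H.Connected → NoK4 H → Q H →
      ∃ S : Finset W, Pk H S ∧ Mx H univ S ∧ 14 * S.card ≤ 3 * Fintype.card W + dpn H univ + 11)
    (hG : G.IsRegularOfDegree 3)
    (hQ : ∀ k : G.ConnectedComponent,
      Q (G.comap (Subtype.val : {v : V // G.connectedComponentMk v = k} → V))) :
    upperMinus G ≤ upperSigned G := by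
  refine compare_of_classN Q (fun W _ _ H _ h1 h2 h3 h4 => ?_) hG hQ
  obtain ⟨S, a1, a2, a3⟩ := h W H h1 h2 h3 h4
  exact ⟨S, a1, a2, by omega⟩

/-- the comparison for all cubic graphs -/
theorem compare_allN
    (h : ∀ (W : Type) [Fintype W] [DecidableEq W] (H : SimpleGraph W) [DecidableRel H.Adj],
      H.IsRegularOfDegree 3 → H.Connected → NoK4 H →
      ∃ S : Finset W, Pk H S ∧ Mx H univ S ∧ 28 * S.card ≤ 6 * Fintype.card W + 3 * dpn H univ + 22)
    (V : Type) [Fintype V] [DecidableEq V] (G : SimpleGraph V) [DecidableRel G.Adj]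
    (hG : G.IsRegularOfDegree 3) : upperMinus G ≤ upperSigned G :=
  compare_of_classN (fun {_} _ => True) (fun W _ _ H _ h1 h2 h3 _ => h W H h1 h2 h3) hG
    fun _ => trivial

end EF18
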