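import Pool.Agent.Lib.MP_ef18bd_co.P.TypC

/-!
# The leaf test with a charge for created isolated vertices

`iso G U`: the members of `U` without another member of `U` within distance two. `PsiI`: the potential by
types with `dl` for each isolated vertex. `isoN`: an upper bound for the number of new isolated vertices
after the removal of the nodes of the mask `M`, where every vertex of `U` has at most `D` outside
neighbours without another neighbour in `U`.
-/

namespace EF18

open Finset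

variable {V : Type} [Fintype V] [DecidableEq V] {G : SimpleGraph V} [DecidableRel G.Adj]

/-- the isolated members of `U` -/
def iso (G : SimpleGraph V) [DecidableRel G.Adj] (U : Finset V) : Finset V :=
  U.filter fun x => nU G U x = 0 ∧ n1 G U x = 3

/-- the potential with the charge -/
def PsiI (w : TF) (dl : ℕ) (G : SimpleGraph V) [DecidableRel G.Adj] (U : Finset V) : ℕ :=
  PsiT w G U + dl * (iso G U).card

/-- the same as a function of the type -/
def TF.iso (w : TF) (dl : ℕ) : TF where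
  F := fun a c => w.F a c + if a = 0 ∧ c = 3 then dl else 0
  h2 := w.h2
  h1 := w.h1 + dl
  h0 := w.h0 + dl
  s2 := fun a c h => by
    have := w.s2 a c h
    rw [if_neg (by omega), if_neg (by omega)]
    omega
  s1 := fun a c h => by
    have := w.s1 a c h
    split_ifs <;> omega
  s0 := fun a c h => by
    have := w.s0 a c h
    split_ifs <;> omega

theorem PsiT_iso (w : TF) (dl : ℕ) (U : Finset V) : PsiT (w.iso dl) G U = PsiI w dl G U := by
  unfold PsiI PsiT TF.iso iso
  rw [sum_add_distrib, Finset.card_filter, Finset.mul_sum]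
  refine congrArg _ (sum_congr rfl fun x _ => ?_)
  split_ifs <;> omega

/-! ### the neighbours of an isolated vertex -/

theorem mem_iso {U : Finset V} {x : V} : x ∈ iso G U ↔ x ∈ U ∧ nU G U x = 0 ∧ n1 G U x = 3 := by
  unfold iso
  rw [mem_filter]

theorem iso_nbr (hG : G.IsRegularOfDegree 3) {U : Finset V} {x : V} :
    x ∈ iso G U ↔ x ∈ U ∧ ∀ y, G.Adj x y → y ∉ U ∧ nU G U y = 1 := by
  rw [mem_iso]
  constructor
  · rintro ⟨h1, h2, h3⟩
    refine ⟨h1, fun y hy => ?_⟩
    have e1 : (G.neighborFinset x \ U).filter (fun y => nU G U y = 1) = G.neighborFinset x := by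
      refine eq_of_subset_of_card_le ((filter_subset _ _).trans sdiff_subset) ?_
      rw [nbr_card hG]
      exact h3.ge
    have h4 : y ∈ (G.neighborFinset x \ U).filter (fun y => nU G U y = 1) := by
      rw [e1, SimpleGraph.mem_neighborFinset]
      exact hy
    rw [mem_filter, mem_sdiff] at h4
    exact ⟨h4.1.2, h4.2⟩
  · rintro ⟨h1, h2⟩
    refine ⟨h1, ?_, ?_⟩
    · unfold nU
      rw [card_eq_zero, eq_empty_iff_forall_notMem]
      intro y hy
      rw [mem_inter, SimpleGraph.mem_neighborFinset] at hy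
      exact (h2 y hy.1).1 hy.2
    · unfold n1
      rw [← nbr_card hG x]
      congr 1
      ext y
      rw [mem_filter, mem_sdiff, SimpleGraph.mem_neighborFinset]
      exact ⟨fun h => h.1.1, fun h => ⟨⟨h, (h2 y h).1⟩, (h2 y h).2⟩⟩

/-! ### the count -/

/-- direct to a node outside the mask -/
def sdp (M d : ℕ) : ℕ :=
  bif Nat.ble 2 d && Nat.beq (Nat.mod d 2) 0 && !tb M (tg d) then 1 else 0

/-- the number of known surviving neighbours -/
def sdn (p M j : ℕ) : ℕ :=
  Nat.add (Nat.add (sdp M (dg p (Nat.mul 3 j))) (sdp M (dg p (Nat.add (Nat.mul 3 j) 1))))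
    (sdp M (dg p (Nat.add (Nat.mul 3 j) 2)))

/-- the code of a port of a survivor: `0` open, `1` nothing behind it, `2` attached to a removed node,
`3` a survivor behind it -/
def pc (p M d : ℕ) : ℕ :=
  bif Nat.beq d 0 then 0 else bif Nat.beq d 1 then 1 else
    bif tb M (tg d) then (bif Nat.beq (Nat.mod d 2) 0 && Nat.ble 2 (sdn p M (tg d)) then 3 else 2) else 3

/-- the number of attachments which are necessary, from the codes -/
def ndc (D a b c : ℕ) : ℕ :=
  bif Nat.beq a 3 || Nat.beq b 3 || Nat.beq c 3 then 9 else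
    bif Nat.beq a 2 || Nat.beq b 2 || Nat.beq c 2 then
      Nat.sub (Nat.add (Nat.add (bif Nat.ble a 1 then 1 else 0) (bif Nat.ble b 1 then 1 else 0))
        (bif Nat.ble c 1 then 1 else 0)) D
    else bif Nat.ble 2 D then 1 else Nat.sub 3 D

/-- the number of attachments which are necessary for a node -/
def nd (D p M i : ℕ) : ℕ :=
  frc (Nat.mul 3 i) fun k => ndc D (pc p M (dg p k)) (pc p M (dg p (Nat.add k 1)))
    (pc p M (dg p (Nat.add k 2)))

/-- the number of open ports -/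
def opn (p i : ℕ) : ℕ :=
  frc (Nat.mul 3 i) fun k => Nat.add (Nat.add (bif Nat.beq (dg p k) 0 then 1 else 0)
    (bif Nat.beq (dg p (Nat.add k 1)) 0 then 1 else 0)) (bif Nat.beq (dg p (Nat.add k 2)) 0 then 1 else 0)

/-- the number of survivors which need `j` attachments -/
def ndn (D n p M j : ℕ) : ℕ := sm (fun i => bif tb M i then 0 else bif Nat.beq (nd D p M i) j then 1 else 0) n

/-- the number of open ports of the removed nodes -/
def opm (n p M : ℕ) : ℕ := sm (fun i => bif tb M i then opn p i else 0) n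

/-- the minimum -/
def mn (a b : ℕ) : ℕ := bif Nat.ble a b then a else b

/-- the bound for the number of new isolated vertices -/
def isoN (D n p M : ℕ) : ℕ :=
  frc (opm n p M) fun A => Nat.add (ndn D n p M 0)
    (bif Nat.beq A 0 then 0 else bif Nat.ble 2 D then A else
      frc (ndn D n p M 1) fun a => bif Nat.beq D 1 then mn A (Nat.div (Nat.add A a) 2) else
        mn A (mn (Nat.div (Nat.add A a) 2)
          (Nat.div (Nat.add (Nat.add A (Nat.mul 2 a)) (ndn D n p M 2)) 3)))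

/-! ### the proof -/

/-- a neighbour of a new isolated vertex -/
theorem Emb.att (hG : G.IsRegularOfDegree 3) {U U' : Finset V} (hs : U' ⊆ U) {n p M : ℕ}
    {φ ν : ℕ → V} (h : Emb G U n p φ ν) (hM : ∀ i < n, (M.testBit i = true ↔ φ i ∉ U'))
    (hK : ∀ y ∈ U, y ∉ U' → ∃ i < n, φ i = y) {v y : V} (hv : v ∈ iso G U') (hy : G.Adj v y) :
    (y ∉ U ∧ nU G U y = 1) ∨ ∃ k < 3 * n, M.testBit (k / 3) = true ∧
      (ν k = v ∧ φ (k / 3) = y ∨ ν k = y ∧ y ∉ U) := by
  obtain ⟨hvU', hv2⟩ := (iso_nbr hG).1 hv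
  obtain ⟨hyU', hy1⟩ := hv2 y hy
  have hvU := hs hvU'
  by_cases hyU : y ∈ U
  · obtain ⟨j, hj, rfl⟩ := hK y hyU hyU'
    obtain ⟨k, hk, hkn, hkv⟩ := h.surj hG hj hy.symm
    exact Or.inr ⟨k, hkn, by rw [hk]; exact (hM j hj).2 hyU', Or.inl ⟨hkv, by rw [hk]⟩⟩
  · by_cases h1 : nU G U y = 1
    · exact Or.inl ⟨hyU, h1⟩
    · right
      have h2 : (G.neighborFinset y ∩ U') ⊂ (G.neighborFinset y ∩ U) := by
        refine ssubset_of_subset_of_ne (inter_subset_inter_left hs) fun e => h1 ?_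
        unfold nU at hy1 ⊢
        rw [← e]
        exact hy1
      obtain ⟨z, hz, hz'⟩ := exists_of_ssubset h2
      rw [mem_inter, SimpleGraph.mem_neighborFinset] at hz
      have hzU' : z ∉ U' := fun e => hz' (mem_inter.2 ⟨(SimpleGraph.mem_neighborFinset _ _ _).2 hz.1, e⟩)
      obtain ⟨j, hj, rfl⟩ := hK z hz.2 hzU'
      obtain ⟨k, hk, hkn, hkv⟩ := h.surj hG hj hz.1.symm
      exact ⟨k, hkn, by rw [hk]; exact (hM j hj).2 hzU', Or.inr ⟨hkv, hyU⟩⟩

/-- the open ports of the removed nodes which are attached to `v` -/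
def atp (G : SimpleGraph V) [DecidableRel G.Adj] (U : Finset V) (n p M : ℕ) (ν : ℕ → V) (v : V) : Finset ℕ :=
  (range (3 * n)).filter fun k => (dg p k = 0 ∧ M.testBit (k / 3) = true) ∧ (ν k = v ∨ ν k ∉ U ∧ G.Adj (ν k) v)

omit [Fintype V] in
/-- a set of neighbours behind attached open ports -/
theorem atp_card {U : Finset V} {n p M : ℕ} {φ ν : ℕ → V} {v : V} (hv : v ∈ U) {Y : Finset V}
    (hY : ∀ y ∈ Y, G.Adj v y ∧ ∃ k < 3 * n, (dg p k = 0 ∧ M.testBit (k / 3) = true) ∧
      (ν k = v ∧ φ (k / 3) = y ∨ ν k = y ∧ y ∉ U)) : Y.card ≤ (atp G U n p M ν v).card := by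
  classical
  choose! f hf using fun y (hy : y ∈ Y) => (hY y hy).2
  refine card_le_card_of_injOn f (fun y hy => ?_) fun y hy y' hy' e => ?_
  · obtain ⟨a1, a2, a3⟩ := hf y hy
    have ha := (hY y hy).1
    unfold atp
    rw [mem_coe, mem_filter, mem_range]
    refine ⟨a1, a2, ?_⟩
    rcases a3 with ⟨a3, -⟩ | ⟨a3, a4⟩
    · exact Or.inl a3
    · right
      rw [a3]
      exact ⟨a4, ha.symm⟩
  · obtain ⟨-, -, a3⟩ := hf y hy
    obtain ⟨-, -, b3⟩ := hf y' hy'
    rw [e] at a3
    rcases a3 with ⟨a3, a4⟩ | ⟨a3, a4⟩ <;> rcases b3 with ⟨b3, b4⟩ | ⟨b3, b4⟩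
    · exact a4.symm.trans b4
    · exact absurd hv (by rw [← a3, b3]; exact b4)
    · exact absurd hv (by rw [← b3, a3]; exact a4)
    · exact a3.symm.trans b3

/-- the neighbours of `v` which are not old outside neighbours -/
def fr (G : SimpleGraph V) [DecidableRel G.Adj] (U : Finset V) (v : V) : Finset V :=
  (G.neighborFinset v).filter fun y => ¬ (y ∉ U ∧ nU G U y = 1)

theorem fr_card (hG : G.IsRegularOfDegree 3) {U : Finset V} {v : V} {D : ℕ} (hv : n1 G U v ≤ D) :
    3 - D ≤ (fr G U v).card := by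
  have h1 : (fr G U v).card + ((G.neighborFinset v).filter fun y => y ∉ U ∧ nU G U y = 1).card = 3 := by
    rw [← nbr_card hG v, add_comm]
    exact card_filter_add_card_filter_not _
  have h2 : ((G.neighborFinset v).filter fun y => y ∉ U ∧ nU G U y = 1).card = n1 G U v := by
    unfold n1
    rw [sdiff_eq_filter', filter_filter]
  omega

theorem fr_pos (hG : G.IsRegularOfDegree 3) {U : Finset V} {v : V} (hv : v ∈ U) (hn : v ∉ iso G U) :
    (fr G U v).Nonempty := by
  by_contra hc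
  rw [not_nonempty_iff_eq_empty] at hc
  refine hn ((iso_nbr hG).2 ⟨hv, fun y hy => ?_⟩)
  by_contra h
  have : y ∈ fr G U v := by
    unfold fr
    rw [mem_filter, SimpleGraph.mem_neighborFinset]
    exact ⟨hy, h⟩
  rw [hc] at this
  exact absurd this (notMem_empty y)

theorem need_le (hG : G.IsRegularOfDegree 3) {U : Finset V} {v : V} (hvU : v ∈ U) (hn : v ∉ iso G U)
    {D : ℕ} (hv : n1 G U v ≤ D) : (if 2 ≤ D then 1 else 3 - D) ≤ (fr G U v).card := by
  have h1 := fr_card hG hv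
  have h2 := card_pos.2 (fr_pos hG hvU hn)
  split_ifs <;> omega

/-- an unknown new isolated vertex -/
theorem Emb.need_out (hG : G.IsRegularOfDegree 3) {U U' : Finset V} (hI : Inv G U) (hs : U' ⊆ U)
    {n p M D : ℕ} {φ ν : ℕ → V} (h : Emb G U n p φ ν) (hM : ∀ i < n, (M.testBit i = true ↔ φ i ∉ U'))
    (hK : ∀ y ∈ U, y ∉ U' → ∃ i < n, φ i = y) {v : V} (hv : v ∈ iso G U') (hn : v ∉ iso G U)
    (hD : n1 G U v ≤ D) (hu : ∀ i < n, φ i ≠ v) :
    (if 2 ≤ D then 1 else 3 - D) ≤ (atp G U n p M ν v).card := by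
  have hvU := hs ((iso_nbr hG).1 hv).1
  refine (need_le hG hvU hn hD).trans (atp_card (φ := φ) hvU fun y hy => ?_)
  unfold fr at hy
  rw [mem_filter, SimpleGraph.mem_neighborFinset] at hy
  obtain ⟨hy, hno⟩ := hy
  refine ⟨hy, ?_⟩
  rcases h.att hG hs hM hK hv hy with h1 | ⟨k, hk, h1, h2⟩
  · exact absurd h1 hno
  · refine ⟨k, hk, ⟨?_, h1⟩, h2⟩
    rcases digit_cases (dg p k) with h0 | h0 | ⟨l, hl⟩ | ⟨l, hl⟩
    · exact h0
    · obtain ⟨a1, a2⟩ := h.dead k hk h0
      rcases h2 with ⟨h2, -⟩ | ⟨h2, h3⟩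
      · exact absurd hvU (h2 ▸ a1)
      · exact absurd (a2 v hvU (h2 ▸ hy.symm)).symm (hu _ (by omega))
    · obtain ⟨a1, -, a3, -⟩ := h.dir k hk l hl
      rcases h2 with ⟨h2, -⟩ | ⟨h2, h3⟩
      · exact absurd (a3.symm.trans h2) (hu _ (by omega))
      · exact absurd (h2 ▸ a3 ▸ h.mem _ (by omega)) h3
    · obtain ⟨a1, -, a3, a4, a5⟩ := h.lnk k hk l hl
      rcases h2 with ⟨h2, -⟩ | ⟨h2, h3⟩
      · exact absurd hvU (h2 ▸ a4)
      · have b1 := h.adj l a1
        rw [a5, h2] at b1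
        have b2 := h.adj k hk
        rw [h2] at b2
        rcases hI.two h3 (h.mem (k / 3) (by omega)) (h.mem (l / 3) (by omega))
          (fun e => a3 (h.inj _ (by omega) _ (by omega) e).symm) b2.symm b1.symm hvU hy.symm with e | e
        · exact absurd e.symm (hu _ (by omega))
        · exact absurd e.symm (hu _ (by omega))

/-! ### a known new isolated vertex -/

theorem tb_false {M i : ℕ} (h : M.testBit i ≠ true) : tb M i = false := by
  rw [tb_eq]
  exact Bool.not_eq_true _ ▸ h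

theorem sdp_dir {M l : ℕ} (h : M.testBit (l / 3) ≠ true) : sdp M (2 + 2 * l) = 1 := by
  unfold sdp
  rw [tg_dir, tb_false h]
  have h1 : Nat.ble 2 (2 + 2 * l) = true := Nat.ble_eq_true_of_le (by omega)
  have h2 : Nat.beq (Nat.mod (2 + 2 * l) 2) 0 = true := by
    rw [show Nat.mod (2 + 2 * l) 2 = (2 + 2 * l) % 2 from rfl, show (2 + 2 * l) % 2 = 0 by omega]
    rfl
  rw [h1, h2]
  rfl

theorem sdp_pos {M d : ℕ} (h : sdp M d ≠ 0) : ∃ l, d = 2 + 2 * l ∧ M.testBit (l / 3) ≠ true := by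
  unfold sdp at h
  cases h1 : Nat.ble 2 d && Nat.beq (Nat.mod d 2) 0 && !tb M (tg d)
  · rw [h1] at h; exact absurd rfl h
  rw [Bool.and_eq_true, Bool.and_eq_true, Nat.ble_eq, Bool.not_eq_true'] at h1
  obtain ⟨⟨h2, h3⟩, h4⟩ := h1
  have h5 : d % 2 = 0 := Nat.eq_of_beq_eq_true h3
  obtain ⟨l, hl⟩ : ∃ l, d = 2 + 2 * l := ⟨d / 2 - 1, by omega⟩
  refine ⟨l, hl, ?_⟩
  rw [hl, tg_dir, tb_eq] at h4
  rw [h4]
  simp

theorem sdp_le (M d : ℕ) : sdp M d ≤ 1 := by
  unfold sdp
  cases Nat.ble 2 d && Nat.beq (Nat.mod d 2) 0 && !tb M (tg d) <;> simp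

/-- the known surviving neighbours -/
theorem Emb.sdn_le (hG : G.IsRegularOfDegree 3) {U U' : Finset V} {n p M : ℕ}
    {φ ν : ℕ → V} (h : Emb G U n p φ ν) (hM : ∀ i < n, (M.testBit i = true ↔ φ i ∉ U')) {j : ℕ}
    (hj : j < n) : sdn p M j ≤ nU G U' (φ j) := by
  have key : ∀ k, k / 3 = j → sdp M (dg p k) ≤ if ν k ∈ U' then 1 else 0 := by
    intro k hk
    by_cases h0 : sdp M (dg p k) = 0
    · rw [h0]; exact Nat.zero_le _
    · obtain ⟨l, hl, hb⟩ := sdp_pos h0
      obtain ⟨a1, -, a3, -⟩ := h.dir k (by omega) l hl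
      have h1 : ν k ∈ U' := by
        by_contra hc
        rw [a3] at hc
        exact hb ((hM _ (by omega)).2 hc)
      rw [if_pos h1]
      exact sdp_le _ _
  have e1 : nU G U' (φ j) = (if ν (3 * j) ∈ U' then 1 else 0) + (if ν (3 * j + 1) ∈ U' then 1 else 0) +
      (if ν (3 * j + 2) ∈ U' then 1 else 0) := by
    unfold nU
    rw [inter_eq_filter', h.card_filter hG hj]
  rw [e1]
  have k0 := key (3 * j) (by omega)
  have k1 := key (3 * j + 1) (by omega)
  have k2 := key (3 * j + 2) (by omega)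
  unfold sdn
  change sdp M (dg p (3 * j)) + sdp M (dg p (3 * j + 1)) + sdp M (dg p (3 * j + 2)) ≤ _
  omega

/-- the code of a port of a new isolated vertex -/
theorem Emb.pc_ne (hG : G.IsRegularOfDegree 3) {U U' : Finset V}
    {n p M : ℕ} {φ ν : ℕ → V} (h : Emb G U n p φ ν) (hM : ∀ i < n, (M.testBit i = true ↔ φ i ∉ U'))
    {i : ℕ} (hi : i < n) (hv : φ i ∈ iso G U') {k : ℕ} (hk : k / 3 = i) :
    (pc p M (dg p k) = 0 ∧ dg p k = 0) ∨ (pc p M (dg p k) = 1 ∧ dg p k = 1) ∨
      (pc p M (dg p k) = 2 ∧ 2 ≤ dg p k) := by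
  obtain ⟨hvU', hv2⟩ := (iso_nbr hG).1 hv
  have hkn : k < 3 * n := by omega
  have hadj := h.adj k hkn
  rw [hk] at hadj
  obtain ⟨hyU', hy1⟩ := hv2 _ hadj
  rcases digit_cases (dg p k) with h0 | h0 | ⟨l, hl⟩ | ⟨l, hl⟩
  · rw [h0]; exact Or.inl ⟨rfl, rfl⟩
  · rw [h0]; exact Or.inr (Or.inl ⟨rfl, rfl⟩)
  · obtain ⟨a1, -, a3, -⟩ := h.dir k hkn l hl
    have h1 : M.testBit (l / 3) = true := (hM _ (by omega)).2 (a3 ▸ hyU')
    have h2 := h.sdn_le hG hM (j := l / 3) (by omega)
    rw [← a3, hy1] at h2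
    right; right
    rw [hl]
    refine ⟨?_, by omega⟩
    unfold pc
    have e1 : Nat.beq (2 + 2 * l) 0 = false := by
      rw [← Bool.not_eq_true]; exact fun e => by have := Nat.eq_of_beq_eq_true e; omega
    have e2 : Nat.beq (2 + 2 * l) 1 = false := by
      rw [← Bool.not_eq_true]; exact fun e => by have := Nat.eq_of_beq_eq_true e; omega
    have e3 : Nat.ble 2 (sdn p M (l / 3)) = false := by
      rw [← Bool.not_eq_true, Nat.ble_eq]; omega
    rw [e1, e2, tg_dir, tb_eq, h1, e3, Bool.and_false]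
    rfl
  · obtain ⟨a1, -, a3, a4, a5⟩ := h.lnk k hkn l hl
    have h1 : M.testBit (l / 3) = true := by
      refine (hM _ (by omega)).2 fun hc => ?_
      have b1 := h.adj l a1
      rw [a5] at b1
      have b2 : ({φ i, φ (l / 3)} : Finset V) ⊆ G.neighborFinset (ν k) ∩ U' := by
        intro w hw
        rw [mem_insert, mem_singleton] at hw
        rw [mem_inter, SimpleGraph.mem_neighborFinset]
        rcases hw with rfl | rfl
        · exact ⟨hadj.symm, hvU'⟩
        · exact ⟨b1.symm, hc⟩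
      have b3 := card_le_card b2
      rw [card_pair (fun e => a3 (by rw [← h.inj _ hi _ (by omega) e, hk]))] at b3
      unfold nU at hy1
      omega
    right; right
    rw [hl]
    refine ⟨?_, by omega⟩
    unfold pc
    have e1 : Nat.beq (3 + 2 * l) 0 = false := by
      rw [← Bool.not_eq_true]; exact fun e => by have := Nat.eq_of_beq_eq_true e; omega
    have e2 : Nat.beq (3 + 2 * l) 1 = false := by
      rw [← Bool.not_eq_true]; exact fun e => by have := Nat.eq_of_beq_eq_true e; omega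
    have e3 : Nat.beq (Nat.mod (3 + 2 * l) 2) 0 = false := by
      rw [← Bool.not_eq_true]
      exact fun e => by
        have : (3 + 2 * l) % 2 = 0 := Nat.eq_of_beq_eq_true e
        omega
    rw [e1, e2, tg_lnk, tb_eq, h1, e3, Bool.false_and]
    rfl

theorem nU_one_of_dead {U : Finset V} {n p : ℕ} {φ ν : ℕ → V} (h : Emb G U n p φ ν) {k : ℕ}
    (hk : k < 3 * n) (hd : dg p k = 1) : ν k ∉ U ∧ nU G U (ν k) = 1 := by
  obtain ⟨a1, a2⟩ := h.dead k hk hd
  refine ⟨a1, ?_⟩
  have e : G.neighborFinset (ν k) ∩ U = {φ (k / 3)} := by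
    ext y
    rw [mem_inter, SimpleGraph.mem_neighborFinset, mem_singleton]
    exact ⟨fun hh => a2 y hh.2 hh.1, fun hh => by rw [hh]; exact ⟨(h.adj k hk).symm, h.mem _ (by omega)⟩⟩
  unfold nU
  rw [e, card_singleton]

/-- the neighbours of `v = φ i` behind an open port which are not old outside neighbours -/
noncomputable def fro (G : SimpleGraph V) [DecidableRel G.Adj] (U : Finset V) (n p : ℕ) (φ ν : ℕ → V)
    (i : ℕ) : Finset V :=
  @Finset.filter _ (fun y => ¬ (y ∉ U ∧ nU G U y = 1) ∧ ∃ κ < 3 * n, κ / 3 = i ∧ dg p κ = 0 ∧ ν κ = y)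
    (Classical.decPred _) (G.neighborFinset (φ i))

theorem mem_fro {U : Finset V} {n p : ℕ} {φ ν : ℕ → V} {i : ℕ} {y : V} :
    y ∈ fro G U n p φ ν i ↔ G.Adj (φ i) y ∧ ¬ (y ∉ U ∧ nU G U y = 1) ∧
      ∃ κ < 3 * n, κ / 3 = i ∧ dg p κ = 0 ∧ ν κ = y := by
  unfold fro
  rw [@Finset.mem_filter _ _ (Classical.decPred _), SimpleGraph.mem_neighborFinset]

/-- the number of attachments which a known new isolated vertex needs -/
theorem Emb.nd_le (hG : G.IsRegularOfDegree 3) {U U' : Finset V} (hs : U' ⊆ U)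
    {n p M D : ℕ} {φ ν : ℕ → V} (h : Emb G U n p φ ν) (hM : ∀ i < n, (M.testBit i = true ↔ φ i ∉ U'))
    {i : ℕ} (hi : i < n) (hv : φ i ∈ iso G U')
    (hn : φ i ∉ iso G U) (hD : n1 G U (φ i) ≤ D) : nd D p M i ≤ (fro G U n p φ ν i).card := by
  classical
  have hvU' := ((iso_nbr hG).1 hv).1
  have hvU := hs hvU'
  have hfr : (fro G U n p φ ν i) = (G.neighborFinset (φ i)).filter fun y => ¬ (y ∉ U ∧ nU G U y = 1) ∧
      ∃ κ < 3 * n, κ / 3 = i ∧ dg p κ = 0 ∧ ν κ = y := by
    ext y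
    rw [mem_fro, mem_filter, SimpleGraph.mem_neighborFinset]
  rw [hfr]
  rw [h.card_filter hG hi]
  have c1 : n1 G U (φ i) = (if ν (3 * i) ∉ U ∧ nU G U (ν (3 * i)) = 1 then 1 else 0) +
      (if ν (3 * i + 1) ∉ U ∧ nU G U (ν (3 * i + 1)) = 1 then 1 else 0) +
      (if ν (3 * i + 2) ∉ U ∧ nU G U (ν (3 * i + 2)) = 1 then 1 else 0) := by
    unfold n1
    rw [sdiff_eq_filter', filter_filter, h.card_filter hG hi]
  have c2 := need_le hG hvU hn hD
  unfold fr at c2
  rw [h.card_filter hG hi] at c2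
  -- a port
  have key : ∀ k, k / 3 = i →
      (pc p M (dg p k) = 0 ∧
        (if ¬ (ν k ∉ U ∧ nU G U (ν k) = 1) ∧ ∃ κ < 3 * n, κ / 3 = i ∧ dg p κ = 0 ∧ ν κ = ν k then 1 else 0) +
          (if ν k ∉ U ∧ nU G U (ν k) = 1 then 1 else 0) = 1 ∧
        (if ¬ (ν k ∉ U ∧ nU G U (ν k) = 1) then 1 else 0) =
          (if ¬ (ν k ∉ U ∧ nU G U (ν k) = 1) ∧ ∃ κ < 3 * n, κ / 3 = i ∧ dg p κ = 0 ∧ ν κ = ν k then 1 else 0)) ∨
      (pc p M (dg p k) = 1 ∧ (if ν k ∉ U ∧ nU G U (ν k) = 1 then 1 else 0) = 1 ∧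
        (if ¬ (ν k ∉ U ∧ nU G U (ν k) = 1) then 1 else 0) = 0) ∨
      pc p M (dg p k) = 2 := by
    intro k hk
    have hkn : k < 3 * n := by omega
    rcases h.pc_ne hG hM hi hv hk with h1 | h1 | h1
    · left
      have h2 : ∃ κ < 3 * n, κ / 3 = i ∧ dg p κ = 0 ∧ ν κ = ν k := ⟨k, hkn, hk, h1.2, rfl⟩
      refine ⟨h1.1, ?_⟩
      by_cases h3 : ν k ∉ U ∧ nU G U (ν k) = 1
      · rw [if_neg (fun h => h.1 h3), if_pos h3, if_neg (not_not.2 h3)]
        exact ⟨rfl, rfl⟩
      · rw [if_pos ⟨h3, h2⟩, if_neg h3, if_pos h3]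
        exact ⟨rfl, rfl⟩
    · right; left
      have h3 := nU_one_of_dead h hkn h1.2
      rw [if_pos h3, if_neg (not_not.2 h3)]
      exact ⟨h1.1, rfl, rfl⟩
    · exact Or.inr (Or.inr h1.1)
  have k0 := key (3 * i) (by omega)
  have k1 := key (3 * i + 1) (by omega)
  have k2 := key (3 * i + 2) (by omega)
  have e0 : nd D p M i = ndc D (pc p M (dg p (3 * i))) (pc p M (dg p (3 * i + 1)))
      (pc p M (dg p (3 * i + 2))) := by
    unfold nd
    rw [frc_eq]
    rfl
  rw [e0]
  rw [c1] at hD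
  have hge : ∀ (P : Prop) [Decidable P], (if P then 1 else 0 : ℕ) ≤ 1 := fun P _ => by split_ifs <;> omega
  generalize (if ¬ (ν (3 * i) ∉ U ∧ nU G U (ν (3 * i)) = 1) ∧
    ∃ κ < 3 * n, κ / 3 = i ∧ dg p κ = 0 ∧ ν κ = ν (3 * i) then 1 else 0 : ℕ) = f0 at *
  generalize (if ¬ (ν (3 * i + 1) ∉ U ∧ nU G U (ν (3 * i + 1)) = 1) ∧
    ∃ κ < 3 * n, κ / 3 = i ∧ dg p κ = 0 ∧ ν κ = ν (3 * i + 1) then 1 else 0 : ℕ) = f1 at *
  generalize (if ¬ (ν (3 * i + 2) ∉ U ∧ nU G U (ν (3 * i + 2)) = 1) ∧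
    ∃ κ < 3 * n, κ / 3 = i ∧ dg p κ = 0 ∧ ν κ = ν (3 * i + 2) then 1 else 0 : ℕ) = f2 at *
  generalize (if ν (3 * i) ∉ U ∧ nU G U (ν (3 * i)) = 1 then 1 else 0 : ℕ) = o0 at *
  generalize (if ν (3 * i + 1) ∉ U ∧ nU G U (ν (3 * i + 1)) = 1 then 1 else 0 : ℕ) = o1 at *
  generalize (if ν (3 * i + 2) ∉ U ∧ nU G U (ν (3 * i + 2)) = 1 then 1 else 0 : ℕ) = o2 at *
  generalize (if ¬ (ν (3 * i) ∉ U ∧ nU G U (ν (3 * i)) = 1) then 1 else 0 : ℕ) = u0 at *
  generalize (if ¬ (ν (3 * i + 1) ∉ U ∧ nU G U (ν (3 * i + 1)) = 1) then 1 else 0 : ℕ) = u1 at *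
  generalize (if ¬ (ν (3 * i + 2) ∉ U ∧ nU G U (ν (3 * i + 2)) = 1) then 1 else 0 : ℕ) = u2 at *
  have d1 : ∀ a b c : ℕ, a ≤ 1 → b ≤ 1 → c ≤ 1 → ndc D a b c = if 2 ≤ D then 1 else 3 - D := by
    intro a b c ha hb hc
    have e : ndc D a b c = bif Nat.ble 2 D then 1 else Nat.sub 3 D := by
      interval_cases a <;> interval_cases b <;> interval_cases c <;> rfl
    rw [e]
    by_cases h2 : 2 ≤ D
    · rw [if_pos h2, Nat.ble_eq_true_of_le h2]
      rfl
    · rw [if_neg h2, show Nat.ble 2 D = false by rw [← Bool.not_eq_true, Nat.ble_eq]; exact h2]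
      rfl
  have d2 : ∀ a b c : ℕ, a ≤ 2 → b ≤ 2 → c ≤ 2 → (a = 2 ∨ b = 2 ∨ c = 2) →
      ndc D a b c = (1 - a / 2) + (1 - b / 2) + (1 - c / 2) - D := by
    intro a b c ha hb hc h
    interval_cases a <;> interval_cases b <;> interval_cases c <;>
      first
      | rfl
      | (exfalso; omega)
  rcases k0 with ⟨x0, y0, z0⟩ | ⟨x0, y0, z0⟩ | x0 <;>
    rcases k1 with ⟨x1, y1, z1⟩ | ⟨x1, y1, z1⟩ | x1 <;>
    rcases k2 with ⟨x2, y2, z2⟩ | ⟨x2, y2, z2⟩ | x2 <;>
    rw [x0, x1, x2] <;>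
    first
    | (rw [d1 _ _ _ (by omega) (by omega) (by omega)]; omega)
    | (rw [d2 _ _ _ (by omega) (by omega) (by omega) (by omega)]; omega)

/-- the numbers of attachments of a known new isolated vertex -/
theorem Emb.need_in (hG : G.IsRegularOfDegree 3) {U U' : Finset V} (hI : Inv G U) (hs : U' ⊆ U)
    {n p M D : ℕ} {φ ν : ℕ → V} (h : Emb G U n p φ ν) (hM : ∀ i < n, (M.testBit i = true ↔ φ i ∉ U'))
    (hK : ∀ y ∈ U, y ∉ U' → ∃ i < n, φ i = y) {i : ℕ} (hi : i < n) (hv : φ i ∈ iso G U')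
    (hn : φ i ∉ iso G U) (hD : n1 G U (φ i) ≤ D) : nd D p M i ≤ (atp G U n p M ν (φ i)).card := by
  classical
  have hvU' := ((iso_nbr hG).1 hv).1
  have hvU := hs hvU'
  -- the set
  have hY : (fro G U n p φ ν i).card ≤ (atp G U n p M ν (φ i)).card := by
    refine atp_card (φ := φ) hvU fun y hy => ?_
    obtain ⟨hy, hno, κ, hκn, hκi, hκ0, hκy⟩ := mem_fro.1 hy
    refine ⟨hy, ?_⟩
    have hcon : ∀ l c, l < 3 * n → l / 3 = i → ν l = y → dg p l = c + 2 → False := by
      intro l c hl hli hly hlc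
      have e := h.pinj l hl κ hκn (by omega) (hly.trans hκy.symm)
      rw [e, hκ0] at hlc
      omega
    rcases h.att hG hs hM hK hv hy with h1 | ⟨k, hk, h1, h2⟩
    · exact absurd h1 hno
    · refine ⟨k, hk, ⟨?_, h1⟩, h2⟩
      have hki : k / 3 ≠ i := by
        intro e
        rw [e] at h1
        exact (hM i hi).1 h1 hvU'
      rcases digit_cases (dg p k) with h0 | h0 | ⟨l, hl⟩ | ⟨l, hl⟩
      · exact h0
      · obtain ⟨a1, a2⟩ := h.dead k hk h0
        rcases h2 with ⟨h2, -⟩ | ⟨h2, h3⟩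
        · exact absurd hvU (h2 ▸ a1)
        · exact absurd (h.inj _ hi _ (by omega) (a2 _ hvU (h2 ▸ hy.symm))).symm hki
      · obtain ⟨a1, a2, a3, a4⟩ := h.dir k hk l hl
        rcases h2 with ⟨h2, h3⟩ | ⟨h2, h3⟩
        · have e := h.inj _ (by omega) _ hi (a3.symm.trans h2)
          exact (hcon l (2 * k) a1 e (a4.trans h3) (by omega)).elim
        · exact absurd (h2 ▸ a3 ▸ h.mem _ (by omega)) h3
      · obtain ⟨a1, a2, a3, a4, a5⟩ := h.lnk k hk l hl
        rcases h2 with ⟨h2, -⟩ | ⟨h2, h3⟩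
        · exact absurd hvU (h2 ▸ a4)
        · have b1 := h.adj l a1
          rw [a5, h2] at b1
          have b2 := h.adj k hk
          rw [h2] at b2
          rcases hI.two h3 (h.mem (k / 3) (by omega)) (h.mem (l / 3) (by omega))
            (fun e => a3 (h.inj _ (by omega) _ (by omega) e).symm) b2.symm b1.symm hvU hy.symm with e | e
          · exact absurd (h.inj _ hi _ (by omega) e).symm hki
          · have e' := h.inj _ hi _ (by omega) e
            exact (hcon l (2 * k + 1) a1 e'.symm (a5.trans h2) (by omega)).elim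
  exact (h.nd_le hG hs hM hi hv hn hD).trans hY

/-! ### the number of new isolated vertices -/

theorem ndn_eq (D n p M j : ℕ) :
    ndn D n p M j = ((range n).filter fun i => M.testBit i ≠ true ∧ nd D p M i = j).card := by
  unfold ndn
  rw [sm_eq, Finset.card_filter]
  refine sum_congr rfl fun i _ => ?_
  rw [tb_eq]
  by_cases h1 : M.testBit i = true
  · rw [h1, if_neg (fun h => h.1 rfl)]
    rfl
  · rw [Bool.not_eq_true] at h1
    rw [h1, cond_false]
    by_cases h2 : nd D p M i = j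
    · rw [if_pos ⟨by simp, h2⟩, h2, show Nat.beq j j = true from Nat.beq_refl j]
      rfl
    · rw [if_neg (fun h => h2 h.2), show Nat.beq (nd D p M i) j = false by
        rw [← Bool.not_eq_true]; exact fun e => h2 (Nat.eq_of_beq_eq_true e)]
      rfl

theorem opm_eq (n p M : ℕ) :
    opm n p M = ((range (3 * n)).filter fun k => dg p k = 0 ∧ M.testBit (k / 3) = true).card := by
  unfold opm
  rw [sm_eq]
  induction n with
  | zero => simp
  | succ n ih =>
    rw [sum_range_succ, ih, show 3 * (n + 1) = 3 * n + 1 + 1 + 1 by ring, range_add_one, range_add_one,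
      range_add_one]
    have hc : ∀ k, (if dg p k = 0 ∧ M.testBit (k / 3) = true then 1 else 0 : ℕ) =
        bif M.testBit (k / 3) then (bif Nat.beq (dg p k) 0 then 1 else 0) else 0 := by
      intro k
      cases h1 : M.testBit (k / 3)
      · simp
      · by_cases h2 : dg p k = 0
        · rw [h2]; simp
        · rw [if_neg (fun h => h2 h.1), show Nat.beq (dg p k) 0 = false by
            rw [← Bool.not_eq_true]; exact fun e => h2 (Nat.eq_of_beq_eq_true e)]
          rfl
    rw [Finset.card_filter, Finset.card_filter, sum_insert (by simp), sum_insert (by simp),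
      sum_insert (by simp), hc, hc, hc, show 3 * n / 3 = n by omega, show (3 * n + 1) / 3 = n by omega,
      show (3 * n + 1 + 1) / 3 = n by omega, tb_eq]
    have e : opn p n = (bif Nat.beq (dg p (3 * n)) 0 then 1 else 0) +
        (bif Nat.beq (dg p (3 * n + 1)) 0 then 1 else 0) + (bif Nat.beq (dg p (3 * n + 2)) 0 then 1 else 0) := by
      unfold opn
      rw [frc_eq]
      rfl
    cases M.testBit n
    · simp
    · simp only [cond_true]
      rw [e, show 3 * n + 1 + 1 = 3 * n + 2 from rfl]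
      ring

theorem mn_eq (a b : ℕ) : mn a b = min a b := by
  unfold mn
  by_cases h : a ≤ b
  · rw [Nat.ble_eq_true_of_le h, cond_true, min_eq_left h]
  · rw [show Nat.ble a b = false by rw [← Bool.not_eq_true, Nat.ble_eq]; exact h, cond_false,
      min_eq_right (by omega)]

/-- **the number of new isolated vertices** -/
theorem Emb.iso_le (hG : G.IsRegularOfDegree 3) {U U' : Finset V} (hI : Inv G U) (hs : U' ⊆ U)
    {n p M D : ℕ} {φ ν : ℕ → V} (h : Emb G U n p φ ν) (hM : ∀ i < n, (M.testBit i = true ↔ φ i ∉ U'))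
    (hK : ∀ y ∈ U, y ∉ U' → ∃ i < n, φ i = y) (hD : ∀ x ∈ U, n1 G U x ≤ D) :
    (iso G U').card ≤ (iso G U).card + isoN D n p M := by
  classical
  obtain ⟨S, hS⟩ : ∃ S, S = (iso G U').filter (· ∉ iso G U) := ⟨_, rfl⟩
  have mS : ∀ v, v ∈ S ↔ v ∈ iso G U' ∧ v ∉ iso G U := fun v => by rw [hS, mem_filter]
  have h1 : (iso G U').card ≤ (iso G U).card + S.card := by
    rw [hS]
    have e := card_filter_add_card_filter_not (s := iso G U') (· ∈ iso G U)
    have e2 : ((iso G U').filter (· ∈ iso G U)).card ≤ (iso G U).card :=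
      card_le_card fun x hx => (mem_filter.1 hx).2
    omega
  refine h1.trans (Nat.add_le_add_left ?_ _)
  -- the needs
  obtain ⟨g, hg⟩ : ∃ g : V → ℕ, (∀ v ∈ S, g v ≤ (atp G U n p M ν v).card) ∧
      ∀ v ∈ S, (∃ i < n, φ i = v ∧ M.testBit i ≠ true ∧ g v = nd D p M i) ∨
        g v = if 2 ≤ D then 1 else 3 - D := by
    refine ⟨fun v => if hv : ∃ i, i < n ∧ φ i = v then nd D p M (Classical.choose hv) else
      if 2 ≤ D then 1 else 3 - D, fun v hv => ?_, fun v hv => ?_⟩
    · obtain ⟨hv1, hv2⟩ := (mS v).1 hv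
      have hvU := hs ((iso_nbr hG).1 hv1).1
      beta_reduce
      by_cases hx : ∃ i, i < n ∧ φ i = v
      · rw [dif_pos hx]
        obtain ⟨i1, i2⟩ := Classical.choose_spec hx
        generalize Classical.choose hx = i at *
        subst i2
        exact h.need_in hG hI hs hM hK i1 hv1 hv2 (hD _ hvU)
      · rw [dif_neg hx]
        push Not at hx
        exact h.need_out hG hI hs hM hK hv1 hv2 (hD _ hvU) hx
    · beta_reduce
      by_cases hx : ∃ i, i < n ∧ φ i = v
      · rw [dif_pos hx]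
        obtain ⟨i1, i2⟩ := Classical.choose_spec hx
        refine Or.inl ⟨_, i1, i2, fun hc => ?_, rfl⟩
        refine (hM _ i1).1 hc ?_
        rw [i2]
        exact ((iso_nbr hG).1 ((mS v).1 hv).1).1
      · rw [dif_neg hx]
        exact Or.inr rfl
  obtain ⟨hg1, hg2⟩ := hg
  -- the sum of the needs
  have hA : ∑ v ∈ S, g v ≤ opm n p M := by
    refine (sum_le_sum hg1).trans ?_
    rw [opm_eq, ← card_biUnion]
    · refine card_le_card fun k hk => ?_
      rw [mem_biUnion] at hk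
      obtain ⟨v, -, hk⟩ := hk
      unfold atp at hk
      rw [mem_filter] at hk ⊢
      exact ⟨hk.1, hk.2.1⟩
    · intro v hv v' hv' hne
      rw [Function.onFun, disjoint_left]
      intro k hk hk'
      unfold atp at hk hk'
      rw [mem_filter, mem_range] at hk hk'
      obtain ⟨k1, ⟨-, k3⟩, k4⟩ := hk
      obtain ⟨-, -, k5⟩ := hk'
      have m1 := ((iso_nbr hG).1 ((mS v).1 hv).1).1
      have m2 := ((iso_nbr hG).1 ((mS v').1 hv').1).1
      rcases k4 with k4 | ⟨k4, k6⟩ <;> rcases k5 with k5 | ⟨k5, k7⟩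
      · exact hne (k4.symm.trans k5)
      · exact k5 (k4 ▸ hs m1)
      · exact k4 (k5 ▸ hs m2)
      · have hkk : φ (k / 3) ∉ U' := (hM _ (by omega)).1 k3
        rcases hI.two k4 (hs m1) (hs m2) hne k6 k7 (h.mem (k / 3) (by omega)) (h.adj k k1).symm with e | e
        · exact hkk (e ▸ m1)
        · exact hkk (e ▸ m2)
  -- the numbers of survivors with small need
  have hcn : ∀ j, (j = 0 ∨ D ≤ 1 ∧ j = 1 ∨ D = 0 ∧ j = 2) → (S.filter fun v => g v = j).card ≤
      ndn D n p M j := by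
    intro j hj
    rw [ndn_eq]
    have key : ∀ v ∈ S.filter (fun v => g v = j), ∃ i < n, φ i = v ∧ M.testBit i ≠ true ∧ nd D p M i = j := by
      intro v hv
      rw [mem_filter] at hv
      rcases hg2 v hv.1 with ⟨i, i1, i2, i3, i4⟩ | h2
      · exact ⟨i, i1, i2, i3, i4 ▸ hv.2⟩
      · rw [hv.2] at h2
        split_ifs at h2 <;> omega
    choose! f hf using key
    refine card_le_card_of_injOn f (fun v hv => ?_) fun v hv v' hv' e => ?_
    · obtain ⟨a1, a2, a3, a4⟩ := hf v hv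
      rw [mem_coe, mem_filter, mem_range]
      exact ⟨a1, a3, a4⟩
    · rw [← (hf v hv).2.1, ← (hf v' hv').2.1, e]
  have c0 := hcn 0 (Or.inl rfl)
  have hcard : S.card = ∑ v ∈ S, 1 := by rw [sum_const, smul_eq_mul, mul_one]
  have cs : ∀ j, (S.filter fun v => g v = j).card = ∑ v ∈ S, if g v = j then 1 else 0 := fun j =>
    Finset.card_filter _ _
  rw [cs] at c0
  have t1 : S.card ≤ (∑ v ∈ S, if g v = 0 then 1 else 0) + ∑ v ∈ S, g v := by
    rw [hcard, ← sum_add_distrib]
    exact sum_le_sum fun v _ => by split_ifs <;> omega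
  have t2 : 2 * S.card ≤ 2 * (∑ v ∈ S, if g v = 0 then 1 else 0) + ∑ v ∈ S, g v +
      ∑ v ∈ S, if g v = 1 then 1 else 0 := by
    rw [hcard, mul_sum, mul_sum, ← sum_add_distrib, ← sum_add_distrib]
    exact sum_le_sum fun v _ => by split_ifs <;> omega
  have t3 : 3 * S.card ≤ 3 * (∑ v ∈ S, if g v = 0 then 1 else 0) + ∑ v ∈ S, g v +
      2 * (∑ v ∈ S, if g v = 1 then 1 else 0) + ∑ v ∈ S, if g v = 2 then 1 else 0 := by
    rw [hcard, mul_sum, mul_sum, mul_sum, ← sum_add_distrib, ← sum_add_distrib, ← sum_add_distrib]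
    exact sum_le_sum fun v _ => by split_ifs <;> omega
  unfold isoN
  rw [frc_eq]
  change S.card ≤ ndn D n p M 0 + _
  by_cases hA0 : opm n p M = 0
  · rw [hA0] at hA ⊢
    rw [show Nat.beq 0 0 = true from rfl, cond_true]
    omega
  · rw [show Nat.beq (opm n p M) 0 = false by
      rw [← Bool.not_eq_true]; exact fun e => hA0 (Nat.eq_of_beq_eq_true e), cond_false]
    by_cases hD2 : 2 ≤ D
    · rw [Nat.ble_eq_true_of_le hD2, cond_true]
      omega
    · rw [show Nat.ble 2 D = false by rw [← Bool.not_eq_true, Nat.ble_eq]; exact hD2, cond_false, frc_eq]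
      have c1 := hcn 1 (Or.inr (Or.inl ⟨by omega, rfl⟩))
      rw [cs] at c1
      by_cases hD1 : D = 1
      · subst hD1
        rw [show Nat.beq 1 1 = true from rfl, cond_true, mn_eq]
        change S.card ≤ _ + min _ ((opm n p M + ndn 1 n p M 1) / 2)
        omega
      · have c2 := hcn 2 (Or.inr (Or.inr ⟨by omega, rfl⟩))
        rw [cs] at c2
        rw [show Nat.beq D 1 = false by
          rw [← Bool.not_eq_true]; exact fun e => hD1 (Nat.eq_of_beq_eq_true e), cond_false, mn_eq, mn_eq]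
        change S.card ≤ _ + min _ (min ((opm n p M + ndn D n p M 1) / 2)
          ((opm n p M + 2 * ndn D n p M 1 + ndn D n p M 2) / 3))
        omega

/-! ### the leaf -/

/-- the test: picks still to do, mask of the removed nodes, number of picks -/
def tli (P O T TE D dl n p E : ℕ) : List ℕ → ℕ → ℕ → Bool
  | [], M, c => frc (Nat.add (Nat.mul P c) (Nat.mul dl (isoN D n p M))) fun R => fin' R O T TE n p M E 1
  | x :: L, M, c => Nat.ble (Nat.succ x) n && closed p x && !tb M x &&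
      frc (Nat.lor M (ball p x)) fun M' => tli P O T TE D dl n p E L M' (Nat.succ c)

theorem Emb.tli_good (hG : G.IsRegularOfDegree 3) {w : TF} {P O T TE D dl : ℕ} (hT : TabK w O T)
    (hTE : TabE w O TE) {U : Finset V} (hI : Inv G U) (hD : ∀ x ∈ U, n1 G U x ≤ D) {n p E : ℕ}
    {φ ν : ℕ → V} (h : Emb G U n p φ ν) :
    ∀ (L : List ℕ) (M : ℕ) (X : List V), Picks G U X →
      (∀ i < n, (M.testBit i = true ↔ φ i ∉ rem G U X)) →
      (∀ y ∈ U, y ∉ rem G U X → ∃ i < n, φ i = y) → tli P O T TE D dl n p E L M X.length = true →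
      GoodT (w.iso dl) P G U (X.length + L.length) := by
  intro L
  induction L with
  | nil =>
    intro M X hP hM hK ht
    refine ⟨X, rfl, hP, ?_⟩
    rw [tli, frc_eq] at ht
    have h1 := h.fin_le hG hT hTE hI (hI.rem hG) rem_subset hM hK ht
    have h2 := h.iso_le hG hI rem_subset hM hK hD
    rw [PsiT_iso, PsiT_iso]
    unfold PsiI
    have h3 := Nat.mul_le_mul_left dl h2
    rw [mul_add] at h3
    have h4 : Nat.add (Nat.mul P X.length) (Nat.mul dl (isoN D n p M)) = P * X.length + dl * isoN D n p M := rfl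
    rw [h4, mul_one] at h1
    omega
  | cons x L ih =>
    intro M X hP hM hK ht
    rw [tli, frc_eq, Bool.and_eq_true, Bool.and_eq_true, Bool.and_eq_true, Nat.ble_eq, tb_eq,
      Bool.not_eq_true'] at ht
    obtain ⟨⟨⟨t1, t2⟩, t3⟩, t4⟩ := ht
    have hxn : x < n := t1
    have hxU : φ x ∈ rem G U X := by
      by_contra hc
      rw [(hM x hxn).2 hc] at t3
      exact absurd t3 (by simp)
    have e0 : rem G U (X ++ [φ x]) = rem G U X \ B2 G (φ x) := by
      rw [rem_append]
      rfl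
    have key : ∀ y ∈ U, y ∉ rem G U (X ++ [φ x]) ↔ y ∉ rem G U X ∨ y ∈ B2 G (φ x) := by
      intro y _
      rw [e0, mem_sdiff]
      tauto
    have e1 : X.length + (x :: L).length = (X ++ [φ x]).length + L.length := by
      simp only [List.length_cons, List.length_append, List.length_nil]
      omega
    rw [e1]
    refine ih (Nat.lor M (ball p x)) (X ++ [φ x]) (picks_append hP ⟨hxU, trivial⟩) ?_ ?_ ?_
    · intro i hi
      rw [key _ (h.mem i hi), show Nat.lor M (ball p x) = M ||| ball p x from rfl, Nat.testBit_or,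
        Bool.or_eq_true, hM i hi, h.mem_ball hG hI hxn t2 (h.mem i hi)]
      constructor
      · rintro (h1 | h1)
        · exact Or.inl h1
        · exact Or.inr ⟨i, hi, rfl, h1⟩
      · rintro (h1 | ⟨t, ht, he, hb⟩)
        · exact Or.inl h1
        · rw [h.inj t ht i hi he] at hb
          exact Or.inr hb
    · intro y hy hyn
      rcases (key y hy).1 hyn with h1 | h1
      · exact hK y hy h1
      · obtain ⟨t, ht, he, -⟩ := (h.mem_ball hG hI hxn t2 hy).1 h1
        exact ⟨t, ht, he⟩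
    · rw [List.length_append, List.length_singleton]
      exact t4

/-- **the leaf test with the charge for new isolated vertices** -/
theorem Emb.iso_leaf (hG : G.IsRegularOfDegree 3) {w : TF} {P O T TE D dl : ℕ} (hT : TabK w O T)
    (hTE : TabE w O TE) {U : Finset V} (hI : Inv G U) (hD : ∀ x ∈ U, n1 G U x ≤ D) {n p E : ℕ}
    {φ ν : ℕ → V} (h : Emb G U n p φ ν) {L : List ℕ} (ht : tli P O T TE D dl n p E L 0 0 = true) :
    GoodT (w.iso dl) P G U L.length := by
  have h1 := h.tli_good hG hT hTE hI hD (E := E) L 0 [] trivial (fun i hi => by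
    rw [Nat.zero_testBit]
    constructor
    · intro e; exact absurd e (by simp)
    · intro e; exact absurd (h.mem i hi) e) (fun y hy hyn => absurd hy hyn) ht
  rwa [List.length_nil, Nat.zero_add] at h1

end EF18
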