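import Pool.Agent.Lib.MP_ef18bd_co.P.Pat

/-!
# Picks inside a pattern: the killed nodes and the loss of the linear potential
-/

namespace EF18

open Finset

variable {V : Type} [Fintype V] [DecidableEq V] {G : SimpleGraph V} [DecidableRel G.Adj]

/-! ### several picks -/

/-- what remains after a list of picks -/
def rem (G : SimpleGraph V) [DecidableRel G.Adj] : Finset V → List V → Finset V
  | U, [] => U
  | U, v :: L => rem G (U \ B2 G v) L

/-- the picks are possible in this order -/
def Picks (G : SimpleGraph V) [DecidableRel G.Adj] : Finset V → List V → Prop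
  | _, [] => True
  | U, v :: L => v ∈ U ∧ Picks G (U \ B2 G v) L

theorem mem_rem {L : List V} : ∀ {U : Finset V} {y : V},
    y ∈ rem G U L ↔ y ∈ U ∧ ∀ v ∈ L, y ∉ B2 G v := by
  induction L with
  | nil => intro U y; simp [rem]
  | cons v L ih =>
    intro U y
    rw [rem, ih, mem_sdiff]
    simp only [List.mem_cons, forall_eq_or_imp]
    tauto

theorem rem_subset {L : List V} {U : Finset V} : rem G U L ⊆ U := fun _ h => (mem_rem.1 h).1

theorem Has.picks {L : List V} : ∀ {U : Finset V} {m : ℕ}, Picks G U L → Has G (rem G U L) m →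
    Has G U (m + L.length) := by
  induction L with
  | nil => intro U m _ h; exact h
  | cons v L ih =>
    intro U m hp h
    have := Has.pick hp.1 (ih hp.2 h)
    rwa [List.length_cons, ← add_assoc]

theorem Inv.rem (hG : G.IsRegularOfDegree 3) {L : List V} : ∀ {U : Finset V}, Inv G U →
    Inv G (EF18.rem G U L) := by
  induction L with
  | nil => intro U h; exact h
  | cons v L ih => intro U h; exact ih (h.pick hG v)

/-! ### the ball of a node -/

/-- the node at the other end of a connected port -/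
def tg (d : ℕ) : ℕ := (d - 2) / 6

theorem tg_dir (l : ℕ) : tg (2 + 2 * l) = l / 3 := by unfold tg; omega

theorem tg_lnk (l : ℕ) : tg (3 + 2 * l) = l / 3 := by unfold tg; omega

/-- directly connected ports -/
def isD (d : ℕ) : Bool := Nat.ble 2 d && Nat.beq (d % 2) 0

/-- linked ports -/
def isL (d : ℕ) : Bool := Nat.ble 2 d && Nat.beq (d % 2) 1

theorem isD_iff {d : ℕ} : isD d = true ↔ ∃ l, d = 2 + 2 * l := by
  unfold isD
  rw [Bool.and_eq_true, Nat.ble_eq, Nat.beq_eq]
  constructor
  · rintro ⟨h1, h2⟩; exact ⟨(d - 2) / 2, by omega⟩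
  · rintro ⟨l, rfl⟩; omega

theorem isL_iff {d : ℕ} : isL d = true ↔ ∃ l, d = 3 + 2 * l := by
  unfold isL
  rw [Bool.and_eq_true, Nat.ble_eq, Nat.beq_eq]
  constructor
  · rintro ⟨h1, h2⟩; exact ⟨(d - 2) / 2, by omega⟩
  · rintro ⟨l, rfl⟩; omega

theorem digit_cases (d : ℕ) : d = 0 ∨ d = 1 ∨ (∃ l, d = 2 + 2 * l) ∨ ∃ l, d = 3 + 2 * l := by
  rcases Nat.lt_or_ge d 2 with h | h
  · omega
  · rcases Nat.even_or_odd d with ⟨m, hm⟩ | ⟨m, hm⟩
    · exact Or.inr (Or.inr (Or.inl ⟨m - 1, by omega⟩))
    · exact Or.inr (Or.inr (Or.inr ⟨m - 1, by omega⟩))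

/-- all ports of a node are known -/
def full (p i : ℕ) : Bool :=
  !Nat.beq (dg p (3 * i)) 0 && !Nat.beq (dg p (3 * i + 1)) 0 && !Nat.beq (dg p (3 * i + 2)) 0

theorem port_cases {k i : ℕ} (h : k / 3 = i) : k = 3 * i ∨ k = 3 * i + 1 ∨ k = 3 * i + 2 := by omega

private theorem not_beq_zero_iff {a : ℕ} : (!Nat.beq a 0) = true ↔ a ≠ 0 := by
  rw [Bool.not_eq_true', Bool.eq_false_iff, Ne, Nat.beq_eq]

theorem full_iff {p i : ℕ} : full p i = true ↔ ∀ k, k / 3 = i → dg p k ≠ 0 := by
  unfold full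
  rw [Bool.and_eq_true, Bool.and_eq_true, not_beq_zero_iff, not_beq_zero_iff, not_beq_zero_iff]
  constructor
  · rintro ⟨⟨h1, h2⟩, h3⟩ k hk
    rcases port_cases hk with rfl | rfl | rfl
    · exact h1
    · exact h2
    · exact h3
  · intro h
    exact ⟨⟨h _ (by omega), h _ (by omega)⟩, h _ (by omega)⟩

/-- the mask of a direct connection -/
def dbit (d : ℕ) : ℕ := bif isD d then 2 ^ tg d else 0

/-- the mask of the nodes directly connected to a node -/
def dmask (p j : ℕ) : ℕ := dbit (dg p (3 * j)) ||| dbit (dg p (3 * j + 1)) ||| dbit (dg p (3 * j + 2))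

theorem dbit_iff {d t : ℕ} : (dbit d).testBit t = true ↔ ∃ l, d = 2 + 2 * l ∧ l / 3 = t := by
  unfold dbit
  cases h : isD d with
  | true =>
    obtain ⟨l, rfl⟩ := isD_iff.1 h
    rw [cond_true, tg_dir, Nat.testBit_two_pow, decide_eq_true_iff]
    constructor
    · intro e; exact ⟨l, rfl, e⟩
    · rintro ⟨l', h1, h2⟩
      have : l' = l := by omega
      rwa [← this]
  | false =>
    rw [cond_false, Nat.zero_testBit]
    constructor
    · intro e; exact absurd e (by simp)
    · rintro ⟨l, h1, -⟩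
      have := isD_iff.2 ⟨l, h1⟩
      rw [h] at this
      exact absurd this (by simp)

theorem dmask_iff {p j t : ℕ} : (dmask p j).testBit t = true ↔
    ∃ k l, k / 3 = j ∧ dg p k = 2 + 2 * l ∧ l / 3 = t := by
  unfold dmask
  rw [Nat.testBit_or, Nat.testBit_or, Bool.or_eq_true, Bool.or_eq_true, dbit_iff, dbit_iff, dbit_iff]
  constructor
  · rintro ((⟨l, h1, h2⟩ | ⟨l, h1, h2⟩) | ⟨l, h1, h2⟩)
    · exact ⟨3 * j, l, by omega, h1, h2⟩
    · exact ⟨3 * j + 1, l, by omega, h1, h2⟩
    · exact ⟨3 * j + 2, l, by omega, h1, h2⟩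
  · rintro ⟨k, l, hk, h1, h2⟩
    rcases port_cases hk with rfl | rfl | rfl
    · exact Or.inl (Or.inl ⟨l, h1, h2⟩)
    · exact Or.inl (Or.inr ⟨l, h1, h2⟩)
    · exact Or.inr ⟨l, h1, h2⟩

/-- the mask of the nodes reached through a port -/
def pball (p d : ℕ) : ℕ :=
  bif isD d then 2 ^ tg d ||| dmask p (tg d) else bif isL d then 2 ^ tg d else 0

/-- the mask of the nodes within distance two of a node -/
def ball (p x : ℕ) : ℕ :=
  2 ^ x ||| pball p (dg p (3 * x)) ||| pball p (dg p (3 * x + 1)) ||| pball p (dg p (3 * x + 2))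

theorem pball_iff {p d t : ℕ} : (pball p d).testBit t = true ↔
    (∃ l, d = 2 + 2 * l ∧ (l / 3 = t ∨ ∃ k' l', k' / 3 = l / 3 ∧ dg p k' = 2 + 2 * l' ∧ l' / 3 = t)) ∨
      ∃ l, d = 3 + 2 * l ∧ l / 3 = t := by
  unfold pball
  rcases digit_cases d with rfl | rfl | ⟨l, rfl⟩ | ⟨l, rfl⟩
  · have h1 : isD 0 = false := by decide
    have h2 : isL 0 = false := by decide
    rw [h1, h2, cond_false, cond_false, Nat.zero_testBit]
    constructor
    · intro e; exact absurd e (by simp)
    · rintro (⟨l, h, -⟩ | ⟨l, h, -⟩) <;> omega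
  · have h1 : isD 1 = false := by decide
    have h2 : isL 1 = false := by decide
    rw [h1, h2, cond_false, cond_false, Nat.zero_testBit]
    constructor
    · intro e; exact absurd e (by simp)
    · rintro (⟨l, h, -⟩ | ⟨l, h, -⟩) <;> omega
  · rw [isD_iff.2 ⟨l, rfl⟩, cond_true, tg_dir, Nat.testBit_or, Bool.or_eq_true, Nat.testBit_two_pow,
      decide_eq_true_iff, dmask_iff]
    constructor
    · intro e; exact Or.inl ⟨l, rfl, e⟩
    · rintro (⟨l', h1, h2⟩ | ⟨l', h1, h2⟩)
      · have : l' = l := by omega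
        rwa [this] at h2
      · omega
  · have h1 : isD (3 + 2 * l) = false := by
      rw [Bool.eq_false_iff]
      intro h
      obtain ⟨l', h'⟩ := isD_iff.1 h
      omega
    rw [h1, isL_iff.2 ⟨l, rfl⟩, cond_false, cond_true, tg_lnk, Nat.testBit_two_pow, decide_eq_true_iff]
    constructor
    · intro e; exact Or.inr ⟨l, rfl, e⟩
    · rintro (⟨l', h1, h2⟩ | ⟨l', h1, h2⟩)
      · omega
      · have : l' = l := by omega
        rwa [this] at h2

theorem ball_iff {p x t : ℕ} : (ball p x).testBit t = true ↔ t = x ∨ ∃ k, k / 3 = x ∧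
    ((∃ l, dg p k = 2 + 2 * l ∧
      (l / 3 = t ∨ ∃ k' l', k' / 3 = l / 3 ∧ dg p k' = 2 + 2 * l' ∧ l' / 3 = t)) ∨
      ∃ l, dg p k = 3 + 2 * l ∧ l / 3 = t) := by
  unfold ball
  rw [Nat.testBit_or, Nat.testBit_or, Nat.testBit_or, Bool.or_eq_true, Bool.or_eq_true, Bool.or_eq_true,
    pball_iff, pball_iff, pball_iff, Nat.testBit_two_pow, decide_eq_true_iff]
  constructor
  · rintro (((h | h) | h) | h)
    · exact Or.inl h.symm
    · exact Or.inr ⟨3 * x, by omega, h⟩
    · exact Or.inr ⟨3 * x + 1, by omega, h⟩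
    · exact Or.inr ⟨3 * x + 2, by omega, h⟩
  · rintro (h | ⟨k, hk, h⟩)
    · exact Or.inl (Or.inl (Or.inl h.symm))
    · rcases port_cases hk with rfl | rfl | rfl
      · exact Or.inl (Or.inl (Or.inr h))
      · exact Or.inl (Or.inr h)
      · exact Or.inr h

/-- the node behind a direct port is full -/
def fbh (p d : ℕ) : Bool := bif isD d then full p (tg d) else true

/-- all ports of a node and of its direct neighbours are known -/
def closed (p x : ℕ) : Bool :=
  full p x && fbh p (dg p (3 * x)) && fbh p (dg p (3 * x + 1)) && fbh p (dg p (3 * x + 2))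

theorem fbh_iff {p d : ℕ} : fbh p d = true ↔ ∀ l, d = 2 + 2 * l → full p (l / 3) = true := by
  unfold fbh
  cases h : isD d with
  | true =>
    obtain ⟨l, rfl⟩ := isD_iff.1 h
    rw [cond_true, tg_dir]
    constructor
    · intro e l' h'
      have : l' = l := by omega
      rwa [this]
    · intro e; exact e l rfl
  | false =>
    rw [cond_false]
    refine ⟨fun _ l hl => ?_, fun _ => rfl⟩
    have := isD_iff.2 ⟨l, hl⟩
    rw [h] at this
    exact absurd this (by simp)

theorem closed_iff {p x : ℕ} : closed p x = true ↔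
    full p x = true ∧ ∀ k l, k / 3 = x → dg p k = 2 + 2 * l → full p (l / 3) = true := by
  unfold closed
  rw [Bool.and_eq_true, Bool.and_eq_true, Bool.and_eq_true, fbh_iff, fbh_iff, fbh_iff]
  constructor
  · rintro ⟨⟨⟨h0, h1⟩, h2⟩, h3⟩
    refine ⟨h0, fun k l hk hd => ?_⟩
    rcases port_cases hk with rfl | rfl | rfl
    · exact h1 l hd
    · exact h2 l hd
    · exact h3 l hd
  · rintro ⟨h0, h⟩
    exact ⟨⟨⟨h0, fun l hl => h _ l (by omega) hl⟩, fun l hl => h _ l (by omega) hl⟩,
      fun l hl => h _ l (by omega) hl⟩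

/-- the neighbours of a full node inside `U` are nodes -/
theorem Emb.full_nbr (hG : G.IsRegularOfDegree 3) {U : Finset V} {n p : ℕ} {φ ν : ℕ → V}
    (h : Emb G U n p φ ν) {i : ℕ} (hi : i < n) (hf : full p i = true) {y : V} (hy : y ∈ U)
    (hadj : G.Adj (φ i) y) : ∃ k l, k / 3 = i ∧ dg p k = 2 + 2 * l ∧ l < 3 * n ∧ φ (l / 3) = y := by
  obtain ⟨k, hk, hkn, hky⟩ := h.surj hG hi hadj
  rcases digit_cases (dg p k) with h0 | h1 | ⟨l, hl⟩ | ⟨l, hl⟩
  · exact absurd h0 (full_iff.1 hf k hk)
  · exact absurd (hky ▸ hy) (h.dead k hkn h1).1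
  · obtain ⟨a1, -, a3, -⟩ := h.dir k hkn l hl
    exact ⟨k, l, hk, hl, a1, by rw [← a3, hky]⟩
  · exact absurd (hky ▸ hy) (h.lnk k hkn l hl).2.2.2.1

/-- the members of `U` next to a vertex outside `U` -/
theorem Inv.two {U : Finset V} (hI : Inv G U) {z a b y : V} (hz : z ∉ U) (ha : a ∈ U) (hb : b ∈ U)
    (hab : a ≠ b) (haz : G.Adj z a) (hbz : G.Adj z b) (hy : y ∈ U) (hyz : G.Adj z y) : y = a ∨ y = b := by
  by_contra hc
  push Not at hc
  have h1 : ({a, b, y} : Finset V) ⊆ cn G z ∩ U := by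
    intro w hw
    simp only [mem_insert, mem_singleton] at hw
    rw [mem_inter, mem_cn]
    rcases hw with rfl | rfl | rfl
    · exact ⟨Or.inr haz, ha⟩
    · exact ⟨Or.inr hbz, hb⟩
    · exact ⟨Or.inr hyz, hy⟩
  have h2 := card_le_card h1
  have h3 : ({a, b, y} : Finset V).card = 3 := by
    rw [card_insert_of_notMem, card_insert_of_notMem, card_singleton]
    · rw [mem_singleton]; exact hc.2.symm
    · simp only [mem_insert, mem_singleton, not_or]
      exact ⟨hab, hc.1.symm⟩
  have := hI z hz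
  omega

/-- the members of `U` in the ball of a closed node are the nodes of the mask -/
theorem Emb.mem_ball (hG : G.IsRegularOfDegree 3) {U : Finset V} (hI : Inv G U) {n p : ℕ} {φ ν : ℕ → V}
    (h : Emb G U n p φ ν) {x : ℕ} (hx : x < n) (hc : closed p x = true) {y : V} (hy : y ∈ U) :
    y ∈ B2 G (φ x) ↔ ∃ t < n, φ t = y ∧ (ball p x).testBit t = true := by
  obtain ⟨hf, hf2⟩ := closed_iff.1 hc
  constructor
  · intro hB
    obtain ⟨z, hz, hyz⟩ := mem_B2.1 hB
    rw [mem_cn] at hz hyz
    rcases hz with rfl | hz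
    · rcases hyz with rfl | hyz
      · exact ⟨x, hx, rfl, ball_iff.2 (Or.inl rfl)⟩
      · obtain ⟨k, l, hk, hl, hln, he⟩ := h.full_nbr hG hx hf hy hyz
        exact ⟨l / 3, by omega, he, ball_iff.2 (Or.inr ⟨k, hk, Or.inl ⟨l, hl, Or.inl rfl⟩⟩)⟩
    · obtain ⟨k, hk, hkn, hkz⟩ := h.surj hG hx hz
      rcases digit_cases (dg p k) with h0 | h1 | ⟨l, hl⟩ | ⟨l, hl⟩
      · exact absurd h0 (full_iff.1 hf k hk)
      · obtain ⟨a1, a2⟩ := h.dead k hkn h1
        rw [hkz] at a1 a2
        rcases hyz with rfl | hyz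
        · exact absurd hy a1
        · refine ⟨x, hx, ?_, ball_iff.2 (Or.inl rfl)⟩
          rw [a2 y hy hyz, hk]
      · obtain ⟨a1, -, a3, -⟩ := h.dir k hkn l hl
        rw [hkz] at a3
        rcases hyz with rfl | hyz
        · exact ⟨l / 3, by omega, a3.symm, ball_iff.2 (Or.inr ⟨k, hk, Or.inl ⟨l, hl, Or.inl rfl⟩⟩)⟩
        · rw [a3] at hyz
          obtain ⟨k', l', hk', hl', hln', he'⟩ := h.full_nbr hG (by omega) (hf2 k l hk hl) hy hyz
          exact ⟨l' / 3, by omega, he',
            ball_iff.2 (Or.inr ⟨k, hk, Or.inl ⟨l, hl, Or.inr ⟨k', l', hk', hl', rfl⟩⟩⟩)⟩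
      · obtain ⟨a1, -, a3, a4, a5⟩ := h.lnk k hkn l hl
        have b1 := h.adj l a1
        rw [a5, hkz] at b1
        rw [hkz] at a4
        rcases hyz with rfl | hyz
        · exact absurd hy a4
        · have b2 : φ (l / 3) ≠ φ x := fun e => a3 (by
            have := h.inj _ (by omega) _ hx e
            omega)
          rcases hI.two a4 (h.mem _ hx) (h.mem (l / 3) (by omega)) b2.symm hz.symm b1.symm hy hyz with e | e
          · exact ⟨x, hx, e.symm, ball_iff.2 (Or.inl rfl)⟩
          · exact ⟨l / 3, by omega, e.symm, ball_iff.2 (Or.inr ⟨k, hk, Or.inr ⟨l, hl, rfl⟩⟩)⟩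
  · rintro ⟨t, ht, rfl, hb⟩
    rcases ball_iff.1 hb with rfl | ⟨k, hk, ⟨l, hl, hlt⟩ | ⟨l, hl, hlt⟩⟩
    · exact self_mem_B2
    · have hkn : k < 3 * n := by omega
      obtain ⟨a1, -, a3, -⟩ := h.dir k hkn l hl
      have b1 := h.adj k hkn
      rw [a3, hk] at b1
      rcases hlt with rfl | ⟨k', l', hk', hl', rfl⟩
      · exact mem_B2_of_adj b1.symm
      · have hkn' : k' < 3 * n := by omega
        obtain ⟨c1, -, c3, -⟩ := h.dir k' hkn' l' hl'
        have b2 := h.adj k' hkn'
        rw [c3, hk'] at b2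
        exact mem_B2_of_common b2 b1.symm
    · have hkn : k < 3 * n := by omega
      obtain ⟨a1, -, a3, a4, a5⟩ := h.lnk k hkn l hl
      have b1 := h.adj l a1
      rw [a5, hlt] at b1
      have b2 := h.adj k hkn
      rw [hk] at b2
      exact mem_B2_of_common b1.symm b2.symm

/-! ### the linear potential -/

/-- is the other end of this port possibly a survivor? -/
def sv (M d : ℕ) : ℕ :=
  bif Nat.beq d 0 then 1 else bif isD d then (bif M.testBit (tg d) then 0 else 1) else 0

/-- what the port of a killed node contributes -/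
def pg (w : Wts) (p M k : ℕ) : ℕ :=
  bif Nat.beq (dg p k) 1 then w.c else
    bif isL (dg p k) then
      (bif M.testBit (tg (dg p k)) then (bif Nat.blt k ((dg p k - 3) / 2) then w.b else 0) else w.b - w.c)
    else 0

/-- what a killed node contributes -/
def ng (w : Wts) (p M i : ℕ) : ℕ :=
  w.u - w.out (sv M (dg p (3 * i)) + sv M (dg p (3 * i + 1)) + sv M (dg p (3 * i + 2))) +
    (pg w p M (3 * i) + pg w p M (3 * i + 1) + pg w p M (3 * i + 2))

/-- the certified loss -/
def lin (w : Wts) (p M : ℕ) : ℕ → ℕ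
  | 0 => 0
  | n + 1 => (bif M.testBit n then ng w p M n else 0) + lin w p M n

theorem lin_eq (w : Wts) (p M n : ℕ) :
    lin w p M n = ∑ i ∈ range n, if M.testBit i = true then ng w p M i else 0 := by
  induction n with
  | zero => rfl
  | succ n ih =>
    rw [lin, ih, sum_range_succ, add_comm]
    cases M.testBit n <;> simp

private theorem sum_triple (F : ℕ → ℕ) (n : ℕ) :
    ∑ k ∈ range (3 * n), F k = ∑ i ∈ range n, (F (3 * i) + F (3 * i + 1) + F (3 * i + 2)) := by
  induction n with
  | zero => rfl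
  | succ n ih =>
    rw [sum_range_succ, ← ih, show 3 * (n + 1) = 3 * n + 1 + 1 + 1 by ring, sum_range_succ,
      sum_range_succ, sum_range_succ]
    ring

/-- the number of surviving neighbours of a node -/
theorem Emb.nU_le (hG : G.IsRegularOfDegree 3) {U U' : Finset V} (hs : U' ⊆ U) {n p M : ℕ} {φ ν : ℕ → V}
    (h : Emb G U n p φ ν) (hM : ∀ i < n, (M.testBit i = true ↔ φ i ∉ U')) {i : ℕ} (hi : i < n) :
    nU G U' (φ i) ≤ sv M (dg p (3 * i)) + sv M (dg p (3 * i + 1)) + sv M (dg p (3 * i + 2)) := by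
  have key : ∀ k < 3 * n, (if ν k ∈ U' then 1 else 0) ≤ sv M (dg p k) := by
    intro k hk
    split_ifs with hk'
    · rcases digit_cases (dg p k) with h0 | h1 | ⟨l, hl⟩ | ⟨l, hl⟩
      · rw [h0]; exact le_refl _
      · exact absurd (hs hk') (h.dead k hk h1).1
      · obtain ⟨a1, -, a3, -⟩ := h.dir k hk l hl
        have h2 : M.testBit (l / 3) = false := by
          rw [Bool.eq_false_iff]
          intro e
          exact (hM _ (by omega)).1 e (a3 ▸ hk')
        have h3 : Nat.beq (dg p k) 0 = false := by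
          rw [Bool.eq_false_iff, Ne, Nat.beq_eq]; omega
        unfold sv
        rw [h3, cond_false, isD_iff.2 ⟨l, hl⟩, cond_true, hl, tg_dir, h2, cond_false]
      · exact absurd (hs hk') (h.lnk k hk l hl).2.2.2.1
    · exact Nat.zero_le _
  have h1 : G.neighborFinset (φ i) ∩ U' ⊆
      (({3 * i, 3 * i + 1, 3 * i + 2} : Finset ℕ).filter (fun k => ν k ∈ U')).image ν := by
    intro y hy
    rw [mem_inter, SimpleGraph.mem_neighborFinset] at hy
    obtain ⟨k, hk, hkn, hky⟩ := h.surj hG hi hy.1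
    rw [mem_image]
    refine ⟨k, ?_, hky⟩
    rw [mem_filter]
    refine ⟨?_, by rw [hky]; exact hy.2⟩
    simp only [mem_insert, mem_singleton]
    omega
  have h2 : nU G U' (φ i) ≤ (({3 * i, 3 * i + 1, 3 * i + 2} : Finset ℕ).filter (fun k => ν k ∈ U')).card :=
    (card_le_card h1).trans card_image_le
  rw [card_filter, sum_insert (by simp), sum_insert (by simp), sum_singleton] at h2
  have e0 := key (3 * i) (by omega)
  have e1 := key (3 * i + 1) (by omega)
  have e2 := key (3 * i + 2) (by omega)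
  omega

/-- the nature of a contributing port -/
private theorem pg_cases {w : Wts} {p M k : ℕ} (h : pg w p M k ≠ 0) :
    (dg p k = 1 ∧ pg w p M k = w.c) ∨ ∃ l, dg p k = 3 + 2 * l ∧
      ((M.testBit (l / 3) = true ∧ k < l ∧ pg w p M k = w.b) ∨
        (M.testBit (l / 3) = false ∧ pg w p M k = w.b - w.c)) := by
  rcases digit_cases (dg p k) with h0 | h1 | ⟨l, hl⟩ | ⟨l, hl⟩
  · exfalso
    unfold pg at h
    rw [h0] at h
    exact h rfl
  · left
    unfold pg
    rw [h1]
    exact ⟨rfl, rfl⟩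
  · exfalso
    have h3 : Nat.beq (dg p k) 1 = false := by
      rw [Bool.eq_false_iff, Ne, Nat.beq_eq]; omega
    have h4 : isL (dg p k) = false := by
      rw [Bool.eq_false_iff]
      intro e
      obtain ⟨l', h'⟩ := isL_iff.1 e
      omega
    unfold pg at h
    rw [h3, h4] at h
    exact h rfl
  · right
    refine ⟨l, hl, ?_⟩
    have h3 : Nat.beq (dg p k) 1 = false := by
      rw [Bool.eq_false_iff, Ne, Nat.beq_eq]; omega
    have e : pg w p M k = bif M.testBit (l / 3) then (bif Nat.blt k l then w.b else 0) else w.b - w.c := by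
      unfold pg
      rw [h3, cond_false, isL_iff.2 ⟨l, hl⟩, cond_true, hl, tg_lnk, show (3 + 2 * l - 3) / 2 = l by omega]
    rw [e] at h
    rw [e]
    cases hb : M.testBit (l / 3) with
    | true =>
      rw [hb, cond_true] at h
      rw [cond_true]
      left
      cases hkl : Nat.blt k l with
      | true =>
        refine ⟨rfl, ?_, by rw [cond_true]⟩
        simpa [Nat.blt] using hkl
      | false => rw [hkl, cond_false] at h; exact absurd rfl h
    | false => right; exact ⟨rfl, by rw [cond_false]⟩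

/-- the certified loss is a lower bound of the true loss -/
theorem Emb.lin_le (hG : G.IsRegularOfDegree 3) (w : Wts) {U U' : Finset V} (hI : Inv G U) (hs : U' ⊆ U)
    {n p M : ℕ} {φ ν : ℕ → V} (h : Emb G U n p φ ν) (hM : ∀ i < n, (M.testBit i = true ↔ φ i ∉ U')) :
    Psi w G U' + lin w p M n ≤ Psi w G U := by
  classical
  obtain ⟨A, hA⟩ : ∃ A, A = (range n).filter (fun i => M.testBit i = true) := ⟨_, rfl⟩
  obtain ⟨B, hB⟩ : ∃ B, B = (range (3 * n)).filter (fun k => M.testBit (k / 3) = true ∧ pg w p M k ≠ 0) :=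
    ⟨_, rfl⟩
  have mA : ∀ i, i ∈ A ↔ i < n ∧ M.testBit i = true := fun i => by rw [hA, mem_filter, mem_range]
  have mB : ∀ k, k ∈ B ↔ k < 3 * n ∧ M.testBit (k / 3) = true ∧ pg w p M k ≠ 0 := fun k => by
    rw [hB, mem_filter, mem_range]
  -- the outside vertices
  have out : ∀ k ∈ B, ν k ∉ U := by
    intro k hk
    obtain ⟨h1, h2, h3⟩ := (mB k).1 hk
    rcases pg_cases h3 with ⟨h4, -⟩ | ⟨l, h4, -⟩
    · exact (h.dead k h1 h4).1
    · exact (h.lnk k h1 l h4).2.2.2.1
  have injB : ∀ k ∈ B, ∀ k' ∈ B, ν k = ν k' → k = k' := by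
    intro k hk k' hk' he
    obtain ⟨h1, h2, h3⟩ := (mB k).1 hk
    obtain ⟨h1', h2', h3'⟩ := (mB k').1 hk'
    have ad := (h.adj k h1).symm
    have ad' := (h.adj k' h1').symm
    rcases pg_cases h3 with ⟨h4, -⟩ | ⟨l, h4, h5⟩
    · have := (h.dead k h1 h4).2 _ (h.mem (k' / 3) (by omega)) (he ▸ ad')
      exact h.pinj k h1 k' h1' (h.inj _ (by omega) _ (by omega) this).symm he
    · rcases pg_cases h3' with ⟨h4', -⟩ | ⟨l', h4', h5'⟩
      · have := (h.dead k' h1' h4').2 _ (h.mem (k / 3) (by omega)) (he ▸ ad)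
        exact h.pinj k h1 k' h1' (h.inj _ (by omega) _ (by omega) this) he
      · obtain ⟨a1, a2, a3, a4, a5⟩ := h.lnk k h1 l h4
        have b1 := (h.adj l a1).symm
        rw [a5] at b1
        have b2 : φ (k / 3) ≠ φ (l / 3) := fun e => a3 (h.inj _ (by omega) _ (by omega) e).symm
        rcases hI.two a4 (h.mem (k / 3) (by omega)) (h.mem (l / 3) (by omega)) b2 ad b1
          (h.mem (k' / 3) (by omega)) (he ▸ ad') with e | e
        · exact h.pinj k h1 k' h1' (h.inj _ (by omega) _ (by omega) e).symm he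
        · have e1 : l = k' := h.pinj l a1 k' h1' (h.inj _ (by omega) _ (by omega) e).symm (by rw [a5, he])
          subst e1
          have e2 : l' = k := by rw [a2] at h4'; omega
          subst e2
          exfalso
          rcases h5 with ⟨-, c1, -⟩ | ⟨c1, -⟩
          · rcases h5' with ⟨-, c2, -⟩ | ⟨c2, -⟩
            · omega
            · rw [h2] at c2; exact absurd c2 (by simp)
          · rw [h2'] at c1; exact absurd c1 (by simp)
  -- the losses
  obtain ⟨f, hf⟩ : ∃ f : V → ℕ, f = fun x => wt w G U x - wt w G U' x := ⟨_, rfl⟩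
  have f1 : ∀ i ∈ A, w.u - w.out (sv M (dg p (3 * i)) + sv M (dg p (3 * i + 1)) + sv M (dg p (3 * i + 2))) ≤
      f (φ i) := by
    intro i hi
    obtain ⟨h1, h2⟩ := (mA i).1 hi
    rw [hf]
    beta_reduce
    rw [wt_mem (h.mem i h1), wt_notMem ((hM i h1).1 h2)]
    exact Nat.sub_le_sub_left (w.out_mono (h.nU_le hG hs hM h1)) _
  have f2 : ∀ k ∈ B, pg w p M k ≤ f (ν k) := by
    intro k hk
    obtain ⟨h1, h2, h3⟩ := (mB k).1 hk
    have ad := (h.adj k h1).symm
    have hkU : φ (k / 3) ∉ U' := (hM _ (by omega)).1 h2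
    have hnu := out k hk
    rw [hf]
    beta_reduce
    rw [wt_notMem hnu, wt_notMem (fun e => hnu (hs e))]
    rcases pg_cases h3 with ⟨h4, h5⟩ | ⟨l, h4, h5⟩
    · have c1 : nU G U' (ν k) = 0 := by
        unfold nU
        rw [card_eq_zero, eq_empty_iff_forall_notMem]
        intro y hy
        rw [mem_inter, SimpleGraph.mem_neighborFinset] at hy
        exact hkU ((h.dead k h1 h4).2 y (hs hy.2) hy.1 ▸ hy.2)
      have c2 : 1 ≤ nU G U (ν k) := by
        unfold nU
        rw [Nat.succ_le_iff, card_pos]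
        exact ⟨φ (k / 3), by
          rw [mem_inter, SimpleGraph.mem_neighborFinset]
          exact ⟨ad, h.mem _ (by omega)⟩⟩
      rw [h5, c1]
      have c3 := w.out_mono c2
      have c4 : w.out 1 = w.c := rfl
      have c5 : w.out 0 = 0 := rfl
      omega
    · obtain ⟨a1, a2, a3, a4, a5⟩ := h.lnk k h1 l h4
      have b1 := (h.adj l a1).symm
      rw [a5] at b1
      have b2 : φ (k / 3) ≠ φ (l / 3) := fun e => a3 (h.inj _ (by omega) _ (by omega) e).symm
      have c2 : 2 ≤ nU G U (ν k) := by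
        unfold nU
        have : ({φ (k / 3), φ (l / 3)} : Finset V) ⊆ G.neighborFinset (ν k) ∩ U := by
          intro y hy
          rw [mem_insert, mem_singleton] at hy
          rw [mem_inter, SimpleGraph.mem_neighborFinset]
          rcases hy with rfl | rfl
          · exact ⟨ad, h.mem _ (by omega)⟩
          · exact ⟨b1, h.mem _ (by omega)⟩
        have := card_le_card this
        rwa [card_pair b2] at this
      have c3 := w.out_mono c2
      have c4 : w.out 2 = w.b := rfl
      have c6 : G.neighborFinset (ν k) ∩ U' ⊆ {φ (l / 3)} := by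
        intro y hy
        rw [mem_inter, SimpleGraph.mem_neighborFinset] at hy
        rw [mem_singleton]
        rcases hI.two a4 (h.mem (k / 3) (by omega)) (h.mem (l / 3) (by omega)) b2 ad b1 (hs hy.2) hy.1
          with e | e
        · exact absurd (e ▸ hy.2) hkU
        · exact e
      rcases h5 with ⟨d1, -, d3⟩ | ⟨d1, d3⟩
      · have c1 : nU G U' (ν k) = 0 := by
          unfold nU
          rw [card_eq_zero, eq_empty_iff_forall_notMem]
          intro y hy
          have := c6 hy
          rw [mem_singleton] at this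
          rw [this, mem_inter] at hy
          exact (hM _ (by omega)).1 d1 hy.2
        rw [d3, c1]
        have c5 : w.out 0 = 0 := rfl
        omega
      · have c1 : nU G U' (ν k) ≤ 1 := (card_le_card c6).trans (by rw [card_singleton])
        have c5 := w.out_mono c1
        have c7 : w.out 1 = w.c := rfl
        rw [d3]
        omega
  -- the sum
  have hdrop := drop_ge_of (G := G) w hs (A.image φ ∪ B.image ν) f (fun x _ => by
    have := wt_mono (G := G) w hs x
    rw [hf]
    beta_reduce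
    omega)
  have hdis : Disjoint (A.image φ) (B.image ν) := by
    rw [disjoint_left]
    intro x hx hx'
    rw [mem_image] at hx hx'
    obtain ⟨i, hi, rfl⟩ := hx
    obtain ⟨k, hk, hki⟩ := hx'
    exact out k hk (hki ▸ h.mem i ((mA i).1 hi).1)
  rw [sum_union hdis, sum_image (fun i hi j hj e => h.inj i ((mA i).1 hi).1 j ((mA j).1 hj).1 e),
    sum_image (fun k hk l hl e => injB k hk l hl e)] at hdrop
  have s1 := sum_le_sum f1
  have s2 := sum_le_sum f2
  have e1 : lin w p M n =
      (∑ i ∈ A, (w.u - w.out (sv M (dg p (3 * i)) + sv M (dg p (3 * i + 1)) + sv M (dg p (3 * i + 2))))) +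
        ∑ k ∈ B, pg w p M k := by
    have e2 : ∑ k ∈ B, pg w p M k = ∑ k ∈ range (3 * n), if M.testBit (k / 3) = true then pg w p M k else 0 := by
      rw [hB, sum_filter]
      refine sum_congr rfl fun k _ => ?_
      by_cases h1 : M.testBit (k / 3) = true
      · by_cases h2 : pg w p M k = 0
        · simp [h1, h2]
        · simp [h1, h2]
      · simp [h1]
    rw [lin_eq, e2, sum_triple, hA, sum_filter, ← sum_add_distrib]
    refine sum_congr rfl fun i _ => ?_
    rw [show 3 * i / 3 = i by omega, show (3 * i + 1) / 3 = i by omega, show (3 * i + 2) / 3 = i by omega]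
    by_cases h1 : M.testBit i = true
    · simp only [h1, if_true]
      rfl
    · simp [h1]
  omega

end EF18
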