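import Pool.Agent.Lib.MP_ef18bd_co.P.Run
import Pool.Agent.Lib.MP_ef18bd_co.P.Leaf

/-!
# Steps under a side condition on the first nodes

`ClT G U N T Q (n, p)`: every embedding of `(n, p)` with the property `T`, which depends only on the first `N` nodes, gives `Q`.
`SndT`: sound steps. Steps: `branch` (all cases for an open port), `nst` (all cases in which an open port of a node of a mask does
not lead to a survivor of the pick at a closed node, and a test), `nearT` (all cases for `u` in the ball of `w`), `conT` (contradiction),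
`rfT` (references), `flt` (a filter for children without embedding).
-/

namespace EF18

open Finset

variable {V : Type} [Fintype V] [DecidableEq V] {G : SimpleGraph V} [DecidableRel G.Adj]

/-- the child `q` of an embedding with `n` nodes -/
def Ch (G : SimpleGraph V) (U : Finset V) (n : ℕ) (φ : ℕ → V) (q : ℕ × ℕ) : Prop :=
  n ≤ q.1 ∧ ∃ φ' ν' : ℕ → V, Emb G U q.1 q.2 φ' ν' ∧ ∀ i < n, φ' i = φ i

/-- every embedding with the property `T` gives `Q` -/
def ClT (G : SimpleGraph V) (U : Finset V) (N : ℕ) (T : (ℕ → V) → Prop) (Q : Prop) (q : ℕ × ℕ) : Prop :=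
  N ≤ q.1 → ∀ φ ν : ℕ → V, Emb G U q.1 q.2 φ ν → T φ → Q

/-- `T` depends only on the first `N` nodes -/
def Loc (N : ℕ) (T : (ℕ → V) → Prop) : Prop :=
  ∀ φ φ' : ℕ → V, (∀ i < N, φ' i = φ i) → T φ → T φ'

omit [Fintype V] [DecidableEq V] in
theorem loc_true (N : ℕ) : Loc N (fun _ : ℕ → V => True) := fun _ _ _ h => h

/-- sound steps -/
def SndT (G : SimpleGraph V) (U : Finset V) (N : ℕ) (T : (ℕ → V) → Prop) (Q : Prop) (st : Stp) : Prop :=
  ∀ n p x L, st n p x = some L → (∀ q ∈ L, ClT G U N T Q q) → ClT G U N T Q (n, p)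

omit [Fintype V] [DecidableEq V] [DecidableRel G.Adj] in
theorem runT_sound {U : Finset V} {N : ℕ} {T : (ℕ → V) → Prop} {Q : Prop} {st : Stp}
    (h : SndT G U N T Q st) :
    ∀ (s : List ℕ) (t : List (ℕ × ℕ)), run st s t = true → ∀ q ∈ t, ClT G U N T Q q := by
  intro s
  induction s with
  | nil =>
    intro t ht q hq
    rw [run, List.isEmpty_iff] at ht
    rw [ht] at hq
    exact absurd hq List.not_mem_nil
  | cons x s ih =>
    intro t ht
    match t with
    | [] => exact fun q hq => absurd hq List.not_mem_nil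
    | q :: t =>
      rw [run] at ht
      match hL : st q.1 q.2 x with
      | none =>
        simp only [hL] at ht
        exact absurd ht (by simp)
      | some L =>
        simp only [hL] at ht
        have h1 := ih _ ht
        intro r hr
        rcases List.mem_cons.1 hr with rfl | hr
        · exact h r.1 r.2 x L hL fun q' hq' => h1 q' (List.mem_append_left _ hq')
        · exact h1 r (List.mem_append_right _ hr)

omit [Fintype V] [DecidableEq V] [DecidableRel G.Adj] in
theorem runT_one {U : Finset V} {N : ℕ} {T : (ℕ → V) → Prop} {Q : Prop} {st : Stp}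
    (h : SndT G U N T Q st) (s : List ℕ) (q : ℕ × ℕ) (hr : run st s [q] = true) : ClT G U N T Q q :=
  runT_sound h s _ hr q List.mem_cons_self

omit [Fintype V] [DecidableEq V] [DecidableRel G.Adj] in
/-- a step is sound if every embedding gives a child or `Q` -/
theorem clT_of_ch {U : Finset V} {N : ℕ} {T : (ℕ → V) → Prop} (hT : Loc N T) {Q : Prop} {n p : ℕ}
    {L : List (ℕ × ℕ)} (hQ : ∀ q ∈ L, ClT G U N T Q q)
    (h : N ≤ n → ∀ φ ν : ℕ → V, Emb G U n p φ ν → T φ → Q ∨ ∃ q ∈ L, Ch G U n φ q) :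
    ClT G U N T Q (n, p) := by
  intro hN φ ν he ht
  change N ≤ n at hN
  rcases h hN φ ν he ht with h1 | ⟨q, hq, h2, φ', ν', h3, h4⟩
  · exact h1
  · exact hQ q hq (hN.trans h2) φ' ν' h3 (hT φ φ' (fun i hi => h4 i (by omega)) ht)

/-- a filter for children without embedding -/
def flt (ok : ℕ → ℕ → Bool) (st : Stp) : Stp := fun n p x =>
  match st n p x with
  | none => none
  | some L => some (L.filter fun q => ok q.1 q.2)

omit [Fintype V] [DecidableEq V] [DecidableRel G.Adj] in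
theorem flt_sound {U : Finset V} {N : ℕ} {T : (ℕ → V) → Prop} {Q : Prop} {st : Stp}
    {ok : ℕ → ℕ → Bool} (hok : ∀ n p φ ν, Emb G U n p φ ν → ok n p = true)
    (h : SndT G U N T Q st) : SndT G U N T Q (flt ok st) := by
  intro n p x L hL hQ
  unfold flt at hL
  match hs : st n p x with
  | none =>
    simp only [hs] at hL
    exact absurd hL (by simp)
  | some L' =>
    simp only [hs, Option.some.injEq] at hL
    refine h n p x L' hs fun q hq hN φ ν he ht => ?_
    exact hQ q (by rw [← hL]; exact List.mem_filter.2 ⟨hq, hok q.1 q.2 φ ν he⟩) hN φ ν he ht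

/-! ### the end of a port -/

/-- a port which leads to the common neighbour outside `U` with a known node -/
theorem Emb.lnkp (hG : G.IsRegularOfDegree 3) {U : Finset V} (hI : Inv G U) {n p : ℕ} {φ ν : ℕ → V}
    (h : Emb G U n p φ ν) (hn : n < 40) {k : ℕ} (hk : k < 3 * n) (h0 : dg p k = 0) (hy : ν k ∉ U) {j : ℕ}
    (hj : j < n) (hax : G.Adj (ν k) (φ j)) (hjk : j ≠ k / 3) : dg p (fo p j) = 0 ∧ ∃ ν' : ℕ → V,
      Emb G U n (p + (3 + 2 * fo p j) * 256 ^ k + (3 + 2 * k) * 256 ^ fo p j) φ ν' := by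
  have hkn : k / 3 < n := by omega
  have hadj := h.adj k hk
  have hne : φ j ≠ φ (k / 3) := fun e => hjk (h.inj _ hj _ hkn e)
  obtain ⟨ν', h', f1, f2, f3, f4⟩ := h.port hG hjk.symm hj (z := ν k) hax.symm
    (fun l hl hl2 hl3 => by
      by_contra hne0
      rcases Nat.lt_or_ge (dg p l) 2 with h1 | h1
      · have h2 := (h.dead l hl2 (by omega)).2 (φ (k / 3)) (h.mem _ hkn)
          (by rw [hl3]; exact hadj.symm)
        rw [hl] at h2
        exact hne h2.symm
      · rcases Nat.even_or_odd' (dg p l) with ⟨c, hc | hc⟩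
        · obtain ⟨a1, a2, a3, a4⟩ := h.dir l hl2 (c - 1) (by omega)
          rw [hl3] at a3
          exact hy (a3 ▸ h.mem _ (by omega))
        · obtain ⟨a1, a2, a3, a4, a5⟩ := h.lnk l hl2 (c - 1) (by omega)
          rw [hl3] at a5
          have h4 := h.adj _ a1
          rw [a5] at h4
          rcases hI.two hy (h.mem _ hkn) (h.mem _ hj) hne.symm hadj.symm hax (h.mem _ (by omega)) h4.symm
            with h5 | h5
          · have h6 := h.inj _ (by omega) _ hkn h5
            have h7 := h.pinj _ a1 _ hk h6 a5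
            rw [h7, h0] at a2
            omega
          · have h6 := h.inj _ (by omega) _ hj h5
            exact a3 (by omega))
  have hfd := fo_div p j
  exact ⟨f3, ν', h'.set_lnk (by omega) hk f4 (by rw [hfd]; exact hjk.symm) h0 f3
    (by rw [f1]; exact hy) (by rw [f1, f2])⟩

/-- a port which leads out of `U` -/
theorem Emb.outp (hG : G.IsRegularOfDegree 3) {U : Finset V} (hI : Inv G U) {n p : ℕ} {φ ν : ℕ → V}
    (h : Emb G U n p φ ν) (hn : n < 40) {k : ℕ} (hk : k < 3 * n) (h0 : dg p k = 0) (hy : ν k ∉ U) :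
    ((∀ x ∈ U, G.Adj (ν k) x → x = φ (k / 3)) ∧ Ch G U n φ (n, p + 1 * 256 ^ k)) ∨
      (∃ j < n, j ≠ k / 3 ∧ dg p (fo p j) = 0 ∧
        Ch G U n φ (n, p + (3 + 2 * fo p j) * 256 ^ k + (3 + 2 * k) * 256 ^ fo p j)) ∨
      Ch G U n φ (n + 1, p + (3 + 2 * (3 * n)) * 256 ^ k + (3 + 2 * k) * 256 ^ (3 * n)) := by
  have hkn : k / 3 < n := by omega
  have hadj := h.adj k hk
  by_cases hone : ∀ x ∈ U, G.Adj (ν k) x → x = φ (k / 3)
  · exact Or.inl ⟨hone, le_rfl, φ, ν, h.set_dead hk h0 hy hone, fun _ _ => rfl⟩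
  · right
    push Not at hone
    obtain ⟨x, hx, hax, hne⟩ := hone
    by_cases hex : ∃ j < n, φ j = x
    · left
      obtain ⟨j, hj, rfl⟩ := hex
      have hjk : j ≠ k / 3 := by
        rintro rfl
        exact hne rfl
      obtain ⟨f3, ν', f4⟩ := h.lnkp hG hI hn hk h0 hy hj hax hjk
      exact ⟨j, hj, hjk, f3, le_rfl, φ, ν', f4, fun _ _ => rfl⟩
    · right
      push Not at hex
      obtain ⟨φ', ν', h', f1, f2, f3, f4⟩ := h.extend hG hx hex hax.symm
      refine ⟨Nat.le_succ n, φ', ν', h'.set_lnk (by omega) (by omega) (by omega) (by omega) h0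
        (h.zero _ le_rfl) ?_ ?_, f1⟩
      · rw [f2 k hk]; exact hy
      · rw [f4, f2 k hk]

/-- a port which leads to a known node -/
theorem Emb.dirp (hG : G.IsRegularOfDegree 3) {U : Finset V} {n p : ℕ} {φ ν : ℕ → V}
    (h : Emb G U n p φ ν) (hn : n < 40) {k : ℕ} (hk : k < 3 * n) (h0 : dg p k = 0) {j : ℕ} (hj : j < n)
    (hjy : φ j = ν k) : j ≠ k / 3 ∧ dg p (fo p j) = 0 ∧ adjd p (k / 3) j = false ∧ ∃ ν' : ℕ → V,
      Emb G U n (p + (2 + 2 * fo p j) * 256 ^ k + (2 + 2 * k) * 256 ^ fo p j) φ ν' := by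
  have hkn : k / 3 < n := by omega
  have hadj := h.adj k hk
  have hjk : k / 3 ≠ j := by
    rintro rfl
    rw [hjy] at hadj
    exact G.loopless.irrefl _ hadj
  obtain ⟨ν', h', f1, f2, f3, f4⟩ := h.port hG hjk hj (z := φ (k / 3)) (by rw [hjy]; exact hadj.symm)
    (fun l hl hl2 hl3 => by
      by_contra hne
      rcases Nat.lt_or_ge (dg p l) 2 with h1 | h1
      · exact (h.dead l hl2 (by omega)).1 (hl3 ▸ h.mem _ hkn)
      · rcases Nat.even_or_odd' (dg p l) with ⟨c, hc | hc⟩
        · obtain ⟨a1, a2, a3, a4⟩ := h.dir l hl2 (c - 1) (by omega)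
          rw [hl3] at a3
          have h2 := h.inj _ hkn _ (by omega) a3
          rw [hl, hjy] at a4
          have h3 := h.pinj _ a1 _ hk h2.symm a4
          rw [h3, h0] at a2
          omega
        · exact (h.lnk l hl2 (c - 1) (by omega)).2.2.2.1 (hl3 ▸ h.mem _ hkn))
  have hfd := fo_div p j
  have hne : adjd p (k / 3) j = false := by
    rw [← Bool.not_eq_true]
    intro ht
    obtain ⟨a, l, b1, b2, b3⟩ := adjd_iff ht
    have ha : a < 3 * n := by omega
    obtain ⟨a1, a2, a3, a4⟩ := h.dir a ha l b2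
    rw [b3, hjy] at a3
    have h3 := h.pinj _ ha _ hk b1 a3
    rw [h3, h0] at b2
    omega
  refine ⟨hjk.symm, f3, hne, ν', h'.set_dir (by omega) hk f4
    (fun e => hjk (by rw [e, hfd])) h0 f3 ?_ f2⟩
  rw [f1, hfd, hjy]

/-! ### branching -/

/-- all cases for an open port -/
theorem branch_ch (hG : G.IsRegularOfDegree 3) {U : Finset V} (hI : Inv G U) {d : Bool}
    (hd : d = true ∨ ∀ y, y ∉ U → ∀ x ∈ U, G.Adj y x → ∃ x' ∈ U, x' ≠ x ∧ G.Adj y x') {n p k : ℕ}
    {L : List (ℕ × ℕ)} (hL : branch d n p k = some L) {φ ν : ℕ → V} (h : Emb G U n p φ ν) :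
    ∃ q ∈ L, Ch G U n φ q := by
  unfold branch at hL
  cases hc : Nat.ble (3 * n) k || !Nat.beq (dg p k) 0 || Nat.ble 40 n
  swap
  · rw [hc] at hL
    simp only [cond_true] at hL
    exact absurd hL (by simp)
  rw [hc] at hL
  simp only [cond_false, Option.some.injEq] at hL
  rw [Bool.or_eq_false_iff, Bool.or_eq_false_iff] at hc
  obtain ⟨⟨c1, c2⟩, c3⟩ := hc
  have hk : k < 3 * n := by
    by_contra hcon
    rw [Nat.ble_eq_true_of_le (by omega : 3 * n ≤ k)] at c1
    exact absurd c1 (by simp)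
  have h0 : dg p k = 0 := by
    rw [Bool.not_eq_false'] at c2
    exact Nat.eq_of_beq_eq_true c2
  have hn : n < 40 := by
    by_contra hcon
    rw [Nat.ble_eq_true_of_le (by omega : 40 ≤ n)] at c3
    exact absurd c3 (by simp)
  have hkn : k / 3 < n := by omega
  have hadj := h.adj k hk
  -- the children
  have e1 : d = true → (n, p + 1 * 256 ^ k) ∈ L := by
    rintro rfl
    rw [← hL]
    exact List.mem_append_left _ (List.mem_append_left _ List.mem_cons_self)
  have e2 : ∀ q ∈ kids n p k n, q ∈ L := fun q hq => by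
    rw [← hL]
    exact List.mem_append_left _ (List.mem_append_right _ hq)
  have e3 : (n + 1, p + (3 + 2 * (3 * n)) * 256 ^ k + (3 + 2 * k) * 256 ^ (3 * n)) ∈ L := by
    rw [← hL]
    exact List.mem_append_right _ List.mem_cons_self
  have e4 : (n + 1, p + (2 + 2 * (3 * n)) * 256 ^ k + (2 + 2 * k) * 256 ^ (3 * n)) ∈ L := by
    rw [← hL]
    exact List.mem_append_right _ (List.mem_cons_of_mem _ List.mem_cons_self)
  by_cases hy : ν k ∈ U
  · by_cases hex : ∃ j < n, φ j = ν k
    · obtain ⟨j, hj, hjy⟩ := hex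
      obtain ⟨a1, a2, a3, ν', a4⟩ := h.dirp hG hn hk h0 hj hjy
      exact ⟨_, e2 _ ((mem_kids hj a1 a2).2 a3), le_rfl, φ, ν', a4, fun _ _ => rfl⟩
    · push Not at hex
      obtain ⟨φ', ν', h', f1, f2, f3, f4⟩ := h.extend hG hy hex hadj.symm
      refine ⟨_, e4, Nat.le_succ n, φ', ν', h'.set_dir (by omega) (by omega) (by omega) (by omega) h0
        (h.zero _ le_rfl) ?_ ?_, f1⟩
      · rw [f2 k hk, show 3 * n / 3 = n by omega, f3]
      · rw [f4, f1 _ hkn]
  · rcases h.outp hG hI hn hk h0 hy with ⟨a1, a2⟩ | ⟨j, hj, a1, a2, a3⟩ | a1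
    · rcases hd with hd | hd
      · exact ⟨_, e1 hd, a2⟩
      · obtain ⟨x', hx', hne, ha⟩ := hd _ hy _ (h.mem _ hkn) hadj.symm
        exact absurd (a1 x' hx' ha) hne
    · exact ⟨_, e2 _ (mem_kids hj a1 a2).1, a3⟩
    · exact ⟨_, e3, a1⟩

/-! ### ports which do not lead to a survivor -/

/-- the children with the other end at a known node, direct only for the nodes of the mask `M` -/
def kidm (M n p k : ℕ) : ℕ → List (ℕ × ℕ)
  | 0 => []
  | j + 1 => bif Nat.beq j (k / 3) || !Nat.beq (dg p (fo p j)) 0 then kidm M n p k j else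
      bif adjd p (k / 3) j || !M.testBit j then
        (n, p + (3 + 2 * fo p j) * 256 ^ k + (3 + 2 * k) * 256 ^ fo p j) :: kidm M n p k j
      else (n, p + (2 + 2 * fo p j) * 256 ^ k + (2 + 2 * k) * 256 ^ fo p j) ::
        (n, p + (3 + 2 * fo p j) * 256 ^ k + (3 + 2 * k) * 256 ^ fo p j) :: kidm M n p k j

theorem mem_kidm {M n p k : ℕ} : ∀ {m j : ℕ}, j < m → j ≠ k / 3 → dg p (fo p j) = 0 →
    (n, p + (3 + 2 * fo p j) * 256 ^ k + (3 + 2 * k) * 256 ^ fo p j) ∈ kidm M n p k m ∧
    (adjd p (k / 3) j = false → M.testBit j = true →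
      (n, p + (2 + 2 * fo p j) * 256 ^ k + (2 + 2 * k) * 256 ^ fo p j) ∈ kidm M n p k m) := by
  intro m
  induction m with
  | zero => intro j hj; omega
  | succ m ih =>
    intro j hj h1 h2
    rw [kidm]
    rcases Nat.lt_succ_iff_lt_or_eq.1 hj with h3 | rfl
    · obtain ⟨a1, a2⟩ := ih h3 h1 h2
      cases hb : Nat.beq m (k / 3) || !Nat.beq (dg p (fo p m)) 0
      · cases ha : adjd p (k / 3) m || !M.testBit m
        · simp only [cond_false]
          exact ⟨List.mem_cons_of_mem _ (List.mem_cons_of_mem _ a1),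
            fun h h' => List.mem_cons_of_mem _ (List.mem_cons_of_mem _ (a2 h h'))⟩
        · simp only [cond_false, cond_true]
          exact ⟨List.mem_cons_of_mem _ a1, fun h h' => List.mem_cons_of_mem _ (a2 h h')⟩
      · simp only [cond_true]
        exact ⟨a1, a2⟩
    · have hb : (Nat.beq j (k / 3) || !Nat.beq (dg p (fo p j)) 0) = false := by
        rw [h2, Bool.or_eq_false_iff]
        refine ⟨?_, rfl⟩
        rw [← Bool.not_eq_true]
        exact fun h => h1 (Nat.eq_of_beq_eq_true h)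
      rw [hb]
      cases ha : adjd p (k / 3) j || !M.testBit j
      · simp only [cond_false]
        exact ⟨List.mem_cons_of_mem _ List.mem_cons_self, fun _ _ => List.mem_cons_self⟩
      · simp only [cond_false, cond_true]
        refine ⟨List.mem_cons_self, fun h h' => ?_⟩
        rw [h, h'] at ha
        exact absurd ha (by simp)

/-- the children where the first open port of `y` leads to no survivor -/
def nsk (d : Bool) (n p M y : ℕ) : List (ℕ × ℕ) :=
  (bif d then [(n, p + 1 * 256 ^ fo p y)] else []) ++ kidm M n p (fo p y) n ++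
    [(n + 1, p + (3 + 2 * (3 * n)) * 256 ^ fo p y + (3 + 2 * fo p y) * 256 ^ (3 * n))]

/-- the children for the nodes of the mask `Y` -/
def nsl (d : Bool) (n p M Y : ℕ) : ℕ → List (ℕ × ℕ)
  | 0 => []
  | y + 1 => bif Y.testBit y && Nat.beq (dg p (fo p y)) 0 then nsk d n p M y ++ nsl d n p M Y y
      else nsl d n p M Y y

theorem mem_nsl {d : Bool} {n p M Y : ℕ} {q : ℕ × ℕ} : ∀ {m y : ℕ}, y < m → Y.testBit y = true →
    dg p (fo p y) = 0 → q ∈ nsk d n p M y → q ∈ nsl d n p M Y m := by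
  intro m
  induction m with
  | zero => intro y hy; omega
  | succ m ih =>
    intro y hy h1 h2 h3
    rw [nsl]
    rcases Nat.lt_succ_iff_lt_or_eq.1 hy with h4 | rfl
    · have := ih h4 h1 h2 h3
      cases Y.testBit m && Nat.beq (dg p (fo p m)) 0
      · simp only [cond_false]
        exact this
      · simp only [cond_true]
        exact List.mem_append_right _ this
    · rw [h1, h2]
      exact List.mem_append_left _ h3

/-- an open port of `y` which leads to no survivor gives a child -/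
theorem nsk_ch (hG : G.IsRegularOfDegree 3) {U : Finset V} (hI : Inv G U) {d : Bool}
    (hd : d = true ∨ ∀ y, y ∉ U → ∀ x ∈ U, G.Adj y x → ∃ x' ∈ U, x' ≠ x ∧ G.Adj y x') {n p w : ℕ}
    {φ ν : ℕ → V} (h : Emb G U n p φ ν) (hn : n < 40) (hw : w < n) (hc : closed p w = true) {k : ℕ}
    (hk : k < 3 * n) (h0 : dg p k = 0) (hns : ν k ∉ U ∨ ν k ∈ B2 G (φ w)) :
    ∃ q ∈ nsk d n p (ball p w) (k / 3), Ch G U n φ q := by
  -- move the port to the front
  obtain ⟨b, hb⟩ : ∃ b, b = fo p (k / 3) := ⟨_, rfl⟩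
  have hb0 : dg p b = 0 := by rw [hb]; exact fo_open rfl h0
  have hb3 : b / 3 = k / 3 := by rw [hb]; exact fo_div p (k / 3)
  have hbn : b < 3 * n := by omega
  obtain ⟨ν₁, h₁, hν⟩ : ∃ ν₁ : ℕ → V, Emb G U n p φ ν₁ ∧ ν₁ b = ν k :=
    ⟨_, h.swap (b := b) (c := k) hbn hk hb3 hb0 h0, by
      beta_reduce
      rw [Equiv.swap_apply_left]⟩
  have m1 : ∀ q ∈ kidm (ball p w) n p b n, q ∈ nsk d n p (ball p w) (k / 3) := fun q hq => by
    unfold nsk
    rw [← hb]
    exact List.mem_append_left _ (List.mem_append_right _ hq)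
  by_cases hU : ν k ∈ U
  · have hB := hns.resolve_left (fun h => h hU)
    obtain ⟨t, ht, ht2, ht3⟩ := (h.mem_ball hG hI hw hc hU).1 hB
    obtain ⟨a1, a2, a3, ν', a4⟩ := h₁.dirp hG hn hbn hb0 ht (ht2.trans hν.symm)
    exact ⟨_, m1 _ ((mem_kidm ht a1 a2).2 a3 ht3), le_rfl, φ, ν', a4, fun _ _ => rfl⟩
  · rcases h₁.outp hG hI hn hbn hb0 (by rw [hν]; exact hU) with ⟨a1, a2⟩ | ⟨j, hj, a1, a2, a3⟩ | a1
    · rcases hd with rfl | hd
      · refine ⟨(n, p + 1 * 256 ^ b), ?_, a2⟩
        unfold nsk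
        rw [← hb]
        exact List.mem_append_left _ (List.mem_append_left _ List.mem_cons_self)
      · exfalso
        have hkn : k / 3 < n := by omega
        obtain ⟨x', hx', hne, ha⟩ := hd _ hU _ (h.mem _ hkn) (h.adj k hk).symm
        rw [hν, hb3] at a1
        exact hne (a1 x' hx' ha)
    · exact ⟨_, m1 _ (mem_kidm hj a1 a2).1, a3⟩
    · refine ⟨(n + 1, p + (3 + 2 * (3 * n)) * 256 ^ b + (3 + 2 * b) * 256 ^ (3 * n)), ?_, a1⟩
      unfold nsk
      rw [← hb]
      exact List.mem_append_right _ List.mem_cons_self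

/-- the step: the closed node `w = x % 64`, the mask `x / 64 % 2 ^ 40`, and a test -/
def nst (d : Bool) (lt : ℕ → ℕ → ℕ → Bool) (n p x : ℕ) : Option (List (ℕ × ℕ)) :=
  bif Nat.ble (x % 64 + 1) n && Nat.ble (n + 1) 40 && closed p (x % 64) && lt n p x then
    some (nsl d n p (ball p (x % 64)) (x / 64 % 2 ^ 40) n) else none

/-- what the test has to guarantee -/
def Tst (G : SimpleGraph V) [DecidableRel G.Adj] (U : Finset V) (Q : Prop) (lt : ℕ → ℕ → ℕ → Bool) : Prop :=
  ∀ (n p x : ℕ) (φ ν : ℕ → V), lt n p x = true → x % 64 < n → n < 40 → closed p (x % 64) = true →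
    Emb G U n p φ ν →
    (∀ k < 3 * n, (x / 64 % 2 ^ 40).testBit (k / 3) = true → dg p k = 0 →
      ν k ∈ U ∧ ν k ∉ B2 G (φ (x % 64))) → Q

theorem nst_ch (hG : G.IsRegularOfDegree 3) {U : Finset V} (hI : Inv G U) {Q : Prop} {d : Bool}
    (hd : d = true ∨ ∀ y, y ∉ U → ∀ x ∈ U, G.Adj y x → ∃ x' ∈ U, x' ≠ x ∧ G.Adj y x')
    {lt : ℕ → ℕ → ℕ → Bool} (hlt : Tst G U Q lt) {n p x : ℕ} {L : List (ℕ × ℕ)}
    (hL : nst d lt n p x = some L) {φ ν : ℕ → V} (h : Emb G U n p φ ν) :
    Q ∨ ∃ q ∈ L, Ch G U n φ q := by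
  unfold nst at hL
  cases hc : Nat.ble (x % 64 + 1) n && Nat.ble (n + 1) 40 && closed p (x % 64) && lt n p x
  · rw [hc, cond_false] at hL
    exact absurd hL (by simp)
  rw [hc, cond_true, Option.some.injEq] at hL
  simp only [Bool.and_eq_true] at hc
  obtain ⟨⟨⟨c1, c2⟩, c3⟩, c4⟩ := hc
  have hw : x % 64 < n := Nat.le_of_ble_eq_true c1
  have hn : n < 40 := Nat.le_of_ble_eq_true c2
  by_cases hno : ∃ q ∈ L, Ch G U n φ q
  · exact Or.inr hno
  refine Or.inl (hlt n p x φ ν c4 hw hn c3 h fun k hk hY h0 => ?_)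
  by_contra hcon
  have hns : ν k ∉ U ∨ ν k ∈ B2 G (φ (x % 64)) := by
    by_cases h1 : ν k ∈ U
    · right
      by_contra h2
      exact hcon ⟨h1, h2⟩
    · exact Or.inl h1
  obtain ⟨q, hq, hq'⟩ := nsk_ch hG hI hd h hn hw c3 hk h0 hns
  have hb0 : dg p (fo p (k / 3)) = 0 := fo_open rfl h0
  exact hno ⟨q, by rw [← hL]; exact mem_nsl (by omega) hY hb0 hq, hq'⟩

end EF18
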