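import Pool.Agent.Lib.MP_ef18bd_co.P.Open
import Pool.Agent.Lib.MP_ef18bd_co.P.Iso
import Pool.Agent.Lib.MP_ef18bd_co.P.Step

/-!
# Picks with open inner ports and the charge for new isolated vertices

`kms`, `ims`: the masks of the removed nodes and of the inner nodes for a list of full picks.
-/

namespace EF18

open Finset

variable {V : Type} [Fintype V] [DecidableEq V] {G : SimpleGraph V} [DecidableRel G.Adj]

/-- the mask of the known removed nodes -/
def kms (p : ℕ) : List ℕ → ℕ → ℕ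
  | [], M => M
  | x :: L, M => frc (Nat.lor M (ball p x)) fun M' => kms p L M'

/-- the mask of the inner nodes -/
def ims (p : ℕ) : List ℕ → ℕ → ℕ
  | [], M => M
  | x :: L, M => frc (Nat.lor M (Nat.lor (Nat.pow 2 x) (dmask p x))) fun M' => ims p L M'

/-- the picks are full and far from each other -/
def pks (n p : ℕ) : List ℕ → ℕ → Bool
  | [], _ => true
  | x :: L, M => Nat.ble (Nat.succ x) n && full p x && !tb M x &&
      frc (Nat.lor M (ball p x)) fun M' => pks n p L M'

theorem kms_iff {p t : ℕ} : ∀ {L : List ℕ} {M : ℕ}, (kms p L M).testBit t = true ↔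
    M.testBit t = true ∨ ∃ x ∈ L, (ball p x).testBit t = true := by
  intro L
  induction L with
  | nil => intro M; simp [kms]
  | cons x L ih =>
    intro M
    rw [kms, frc_eq, ih, show Nat.lor M (ball p x) = M ||| ball p x from rfl, Nat.testBit_or,
      Bool.or_eq_true]
    simp only [List.mem_cons, exists_eq_or_imp]
    tauto

theorem ims_iff {p t : ℕ} : ∀ {L : List ℕ} {M : ℕ}, (ims p L M).testBit t = true ↔
    M.testBit t = true ∨ ∃ x ∈ L, x = t ∨ (dmask p x).testBit t = true := by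
  intro L
  induction L with
  | nil => intro M; simp [ims]
  | cons x L ih =>
    intro M
    rw [ims, frc_eq, ih, show Nat.lor M (Nat.lor (Nat.pow 2 x) (dmask p x)) = M ||| (2 ^ x ||| dmask p x)
      from rfl, Nat.testBit_or, Nat.testBit_or, Bool.or_eq_true, Bool.or_eq_true, Nat.testBit_two_pow,
      decide_eq_true_iff]
    simp only [List.mem_cons, exists_eq_or_imp]
    exact or_assoc

theorem pks_of {n p : ℕ} : ∀ {L : List ℕ} {M : ℕ}, pks n p L M = true →
    ∀ x ∈ L, x < n ∧ full p x = true := by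
  intro L
  induction L with
  | nil => intro M _ x hx; exact absurd hx List.not_mem_nil
  | cons x L ih =>
    intro M h y hy
    rw [pks, frc_eq] at h
    simp only [Bool.and_eq_true] at h
    obtain ⟨⟨⟨h1, h2⟩, h3⟩, h4⟩ := h
    rcases List.mem_cons.1 hy with rfl | hy
    · exact ⟨Nat.le_of_ble_eq_true h1, h2⟩
    · exact ih h4 y hy

theorem Emb.pks_picks (hG : G.IsRegularOfDegree 3) {U : Finset V} (hI : Inv G U) {n p : ℕ} {φ ν : ℕ → V}
    (h : Emb G U n p φ ν) : ∀ {L : List ℕ} {M : ℕ} (Y : List ℕ), pks n p L M = true →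
      Picks G U (Y.map φ) → (∀ y ∈ Y, y < n ∧ full p y = true ∧
        ∀ t, (ball p y).testBit t = true → M.testBit t = true) → Picks G U ((Y ++ L).map φ) := by
  intro L
  induction L with
  | nil => intro M Y _ hP _; rwa [List.append_nil]
  | cons x L ih =>
    intro M Y ht hP hY
    rw [pks, frc_eq] at ht
    simp only [Bool.and_eq_true] at ht
    obtain ⟨⟨⟨t1, t2⟩, t3⟩, t4⟩ := ht
    have hxn : x < n := Nat.le_of_ble_eq_true t1
    have e0 : (Y ++ [x]).map φ = Y.map φ ++ [φ x] := by rw [List.map_append]; rfl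
    have h1 := ih (Y ++ [x]) t4 (by
      rw [e0]
      refine picks_append hP ⟨?_, trivial⟩
      rw [mem_rem]
      refine ⟨h.mem x hxn, fun v hv hb => ?_⟩
      obtain ⟨y, hy, rfl⟩ := List.mem_map.1 hv
      obtain ⟨a1, a2, a3⟩ := hY y hy
      have h1 := a3 _ (h.full_ball hG hI a1 a2 hxn t2 hb)
      rw [tb_eq, h1] at t3
      exact absurd t3 (by simp)) (fun y hy => by
      rcases List.mem_append.1 hy with hy | hy
      · obtain ⟨a1, a2, a3⟩ := hY y hy
        exact ⟨a1, a2, fun t ht => by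
          rw [show Nat.lor M (ball p x) = M ||| ball p x from rfl, Nat.testBit_or, a3 t ht, Bool.true_or]⟩
      · rw [List.mem_singleton] at hy
        subst hy
        exact ⟨hxn, t2, fun t ht => by
          rw [show Nat.lor M (ball p y) = M ||| ball p y from rfl, Nat.testBit_or, ht, Bool.or_true]⟩)
    rwa [List.append_assoc, List.singleton_append] at h1

/-- the known removed nodes are removed -/
theorem Emb.kms_out {U : Finset V} {n p : ℕ} {φ ν : ℕ → V} (h : Emb G U n p φ ν) {L : List ℕ}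
    (hL : ∀ x ∈ L, x < n) {t : ℕ} (ht : (kms p L 0).testBit t = true) :
    t < n ∧ φ t ∉ rem G U (L.map φ) := by
  rcases kms_iff.1 ht with h0 | ⟨x, hx, hb⟩
  · rw [Nat.zero_testBit] at h0
    exact absurd h0 (by simp)
  · obtain ⟨a1, a2⟩ := h.ball_sub (hL x hx) hb
    refine ⟨a1, fun e => (mem_rem.1 e).2 (φ x) (List.mem_map_of_mem hx) a2⟩

/-- the inner nodes have no surviving neighbour -/
theorem Emb.ims_nbr {U : Finset V} {n p : ℕ} {φ ν : ℕ → V} (h : Emb G U n p φ ν) {L : List ℕ}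
    (hL : ∀ x ∈ L, x < n) {t : ℕ} (ht : (ims p L 0).testBit t = true) :
    t < n ∧ (kms p L 0).testBit t = true ∧ ∀ y, G.Adj (φ t) y → y ∉ rem G U (L.map φ) := by
  rcases ims_iff.1 ht with h0 | ⟨x, hx, hb⟩
  · rw [Nat.zero_testBit] at h0
    exact absurd h0 (by simp)
  · rcases hb with rfl | hb
    · refine ⟨hL x hx, kms_iff.2 (Or.inr ⟨x, hx, ball_iff.2 (Or.inl rfl)⟩), fun y hy e => ?_⟩
      exact (mem_rem.1 e).2 (φ x) (List.mem_map_of_mem hx) (mem_B2_of_adj hy.symm)
    · obtain ⟨k, l, hk, hl, hlt⟩ := dmask_iff.1 hb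
      have hxn := hL x hx
      obtain ⟨a1, -, a3, -⟩ := h.dir k (by omega) l hl
      have b1 := h.adj k (by omega)
      rw [a3, hk, hlt] at b1
      refine ⟨by omega, kms_iff.2 (Or.inr ⟨x, hx, ball_iff.2 (Or.inr ⟨k, hk, Or.inl ⟨l, hl, Or.inl hlt⟩⟩)⟩),
        fun y hy e => ?_⟩
      exact (mem_rem.1 e).2 (φ x) (List.mem_map_of_mem hx) (mem_B2_of_common hy b1.symm)

/-- a removed member of `U` is a known removed node or it is directly behind an open inner port -/
theorem Emb.kms_or (hG : G.IsRegularOfDegree 3) {U : Finset V} (hI : Inv G U) {n p : ℕ} {φ ν : ℕ → V}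
    (h : Emb G U n p φ ν) {L : List ℕ} (hL : ∀ x ∈ L, x < n ∧ full p x = true) {y : V} (hy : y ∈ U)
    (hyr : y ∉ rem G U (L.map φ)) : (∃ t < n, (kms p L 0).testBit t = true ∧ φ t = y) ∨
      ∃ k < 3 * n, (ims p L 0).testBit (k / 3) = true ∧ dg p k = 0 ∧ ν k = y := by
  have h1 : ∃ x ∈ L, y ∈ B2 G (φ x) := by
    by_contra hc
    push Not at hc
    refine hyr (mem_rem.2 ⟨hy, fun v hv => ?_⟩)
    obtain ⟨x, hx, rfl⟩ := List.mem_map.1 hv
    exact hc x hx
  obtain ⟨x, hx, hB⟩ := h1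
  obtain ⟨hxn, hf⟩ := hL x hx
  have hb : ∀ t, (ball p x).testBit t = true → φ t = y → t < n →
      ∃ t < n, (kms p L 0).testBit t = true ∧ φ t = y := fun t ht e htn =>
    ⟨t, htn, kms_iff.2 (Or.inr ⟨x, hx, ht⟩), e⟩
  obtain ⟨z, hz, hyz⟩ := mem_B2.1 hB
  rw [mem_cn] at hz hyz
  rcases hz with rfl | hz
  · rcases hyz with rfl | hyz
    · exact Or.inl (hb x (ball_iff.2 (Or.inl rfl)) rfl hxn)
    · obtain ⟨k, l, hk, hl, hln, he⟩ := h.full_nbr hG hxn hf hy hyz
      exact Or.inl (hb (l / 3) (ball_iff.2 (Or.inr ⟨k, hk, Or.inl ⟨l, hl, Or.inl rfl⟩⟩)) he (by omega))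
  · obtain ⟨k, hk, hkn, hkz⟩ := h.surj hG hxn hz
    rcases digit_cases (dg p k) with h0 | h1 | ⟨l, hl⟩ | ⟨l, hl⟩
    · exact absurd h0 (full_iff.1 hf k hk)
    · obtain ⟨a1, a2⟩ := h.dead k hkn h1
      rw [hkz] at a1 a2
      rcases hyz with rfl | hyz
      · exact absurd hy a1
      · have e := a2 _ hy hyz
        rw [hk] at e
        exact Or.inl (hb x (ball_iff.2 (Or.inl rfl)) e.symm hxn)
    · obtain ⟨a1, -, a3, -⟩ := h.dir k hkn l hl
      rw [hkz] at a3
      rcases hyz with rfl | hyz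
      · exact Or.inl (hb (l / 3) (ball_iff.2 (Or.inr ⟨k, hk, Or.inl ⟨l, hl, Or.inl rfl⟩⟩)) a3.symm (by omega))
      · obtain ⟨k', hk', hkn', hkz'⟩ := h.surj hG (i := l / 3) (by omega) (by rw [← a3]; exact hyz)
        rcases digit_cases (dg p k') with h0 | h0 | ⟨l', hl'⟩ | ⟨l', hl'⟩
        · right
          refine ⟨k', hkn', ?_, h0, hkz'⟩
          rw [hk']
          exact ims_iff.2 (Or.inr ⟨x, hx, Or.inr (dmask_iff.2 ⟨k, l, hk, hl, rfl⟩)⟩)
        · exact absurd (hkz' ▸ hy) (h.dead k' hkn' h0).1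
        · obtain ⟨b1, -, b3, -⟩ := h.dir k' hkn' l' hl'
          exact Or.inl (hb (l' / 3) (ball_iff.2 (Or.inr ⟨k, hk, Or.inl ⟨l, hl, Or.inr ⟨k', l', hk', hl',
            rfl⟩⟩⟩)) (b3.symm.trans hkz') (by omega))
        · exact absurd (hkz' ▸ hy) (h.lnk k' hkn' l' hl').2.2.2.1
    · obtain ⟨a1, -, a3, a4, a5⟩ := h.lnk k hkn l hl
      have b1 := h.adj l a1
      rw [a5, hkz] at b1
      rw [hkz] at a4
      rcases hyz with rfl | hyz
      · exact absurd hy a4
      · have b2 : φ (l / 3) ≠ φ x := fun e => a3 (by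
          have := h.inj _ (by omega) _ hxn e
          omega)
        rcases hI.two a4 (h.mem _ hxn) (h.mem (l / 3) (by omega)) b2.symm hz.symm b1.symm hy hyz with e | e
        · exact Or.inl (hb x (ball_iff.2 (Or.inl rfl)) e.symm hxn)
        · exact Or.inl (hb (l / 3) (ball_iff.2 (Or.inr ⟨k, hk, Or.inr ⟨l, hl, rfl⟩⟩)) e.symm (by omega))

/-! ### the drop -/

/-- a removed vertex never costs more than its value -/
structure TF.Pos (w : TF) : Prop where
  pos : ∀ a c s q, s ≤ a → s ≤ 2 → a + c + q ≤ 3 → s * w.hh s + q * w.h0 ≤ w.F a c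

/-- the table of the inner nodes -/
def TabKI (w : TF) (OFF T : ℕ) : Prop :=
  ∀ x < 7, ∀ y < 7, ∀ z < 7, ∀ x' ∈ opt x, ∀ y' ∈ opt y, ∀ z' ∈ opt z,
    cs x' + cs y' + cs z' = 0 → ent T (x + 7 * y + 49 * z) + (cq x' + cq y' + cq z') * w.h0 ≤
      w.F (ca x' + ca y' + ca z') (cc x' + cc y' + cc z') + OFF

theorem Emb.kvalI_le (hG : G.IsRegularOfDegree 3) {w : TF} {OFF T : ℕ} (hT : TabKI w OFF T)
    {U U' : Finset V} (hI : Inv G U) (hs : U' ⊆ U) {n p M : ℕ} {φ ν : ℕ → V}
    (h : Emb G U n p φ ν) (hM : ∀ i < n, (M.testBit i = true ↔ φ i ∉ U')) {i : ℕ} (hi : i < n)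
    (hiM : φ i ∉ U') (hin : ∀ y, G.Adj (φ i) y → y ∉ U') :
    kval T p M 0 i + ((G.neighborFinset (φ i) ∩ (U' \ ∅)).card * w.hh (nU G U' (φ i)) +
      ((G.neighborFinset (φ i) \ U).filter
        fun q => (G.neighborFinset q ∩ (U' \ ∅)).Nonempty).card * w.h0) ≤
      w.F (nU G U (φ i)) (n1 G U (φ i)) + OFF := by
  classical
  have hE : ∀ i < n, (0 : ℕ).testBit i = true → M.testBit i = false → φ i ∈ (∅ : Finset V) := by
    intro i _ h0
    rw [Nat.zero_testBit] at h0
    exact absurd h0 (by simp)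
  have q0 : 3 * i / 3 = i := by omega
  have q1 : (3 * i + 1) / 3 = i := by omega
  have q2 : (3 * i + 2) / 3 = i := by omega
  obtain ⟨x, hx, x1, x2, x3, x4, x5⟩ := h.kstat hI hs hM hE (k := 3 * i) (by omega) (by rw [q0]; exact hiM)
  obtain ⟨y, hy, y1, y2, y3, y4, y5⟩ := h.kstat hI hs hM hE (k := 3 * i + 1) (by omega)
    (by rw [q1]; exact hiM)
  obtain ⟨z, hz, z1, z2, z3, z4, z5⟩ := h.kstat hI hs hM hE (k := 3 * i + 2) (by omega)
    (by rw [q2]; exact hiM)
  have e1 : nU G U (φ i) = ca x + ca y + ca z := by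
    unfold nU
    rw [inter_eq_filter', h.card_filter hG hi, x1, y1, z1]
  have e2 : n1 G U (φ i) = cc x + cc y + cc z := by
    unfold n1
    rw [sdiff_eq_filter', filter_filter, h.card_filter hG hi, x2, y2, z2]
  have e3 : nU G U' (φ i) = cs x + cs y + cs z := by
    unfold nU
    rw [inter_eq_filter', h.card_filter hG hi, x3, y3, z3]
  have e6 : nU G U' (φ i) = 0 := by
    unfold nU
    rw [card_eq_zero, eq_empty_iff_forall_notMem]
    intro y hy
    rw [mem_inter, SimpleGraph.mem_neighborFinset] at hy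
    exact hin y hy.1 hy.2
  have e5 : ((G.neighborFinset (φ i) \ U).filter
      fun q => (G.neighborFinset q ∩ (U' \ ∅)).Nonempty).card ≤ cq x + cq y + cq z := by
    rw [sdiff_eq_filter' (G.neighborFinset (φ i)) U, filter_filter, h.card_filter hG hi]
    omega
  have h1 := hT _ (kc_lt M 0 (dg p (3 * i))) _ (kc_lt M 0 (dg p (3 * i + 1))) _
    (kc_lt M 0 (dg p (3 * i + 2))) x hx y hy z hz (by rw [← e3, e6])
  have h2 := Nat.mul_le_mul_right w.h0 e5
  have h3 : w.hh (nU G U' (φ i)) = 0 := by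
    rw [e6]
    rfl
  rw [kval_eq, e1, e2, h3, mul_zero]
  omega

/-- the sum of the values -/
def evs (T TI n p M IN : ℕ) : ℕ :=
  sm (fun i => bif tb M i then (bif tb IN i then kval TI p M 0 i else kval T p M 0 i) else 0) n

/-- the number of nodes of the mask -/
def cnt (n M : ℕ) : ℕ := sm (fun i => bif tb M i then 1 else 0) n

theorem Emb.evs_le (hG : G.IsRegularOfDegree 3) {w : TF} (hw : w.Pos) {O T TI : ℕ} (hT : TabK w O T)
    (hTI : TabKI w O TI) {U U' : Finset V} (hI : Inv G U) (hI' : Inv G U') (hs : U' ⊆ U) {n p M IN : ℕ}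
    {φ ν : ℕ → V} (h : Emb G U n p φ ν) (hM : ∀ i < n, (M.testBit i = true ↔ φ i ∉ U'))
    (hin : ∀ i < n, IN.testBit i = true → ∀ y, G.Adj (φ i) y → y ∉ U') :
    PsiT w G U' + evs T TI n p M IN ≤ PsiT w G U + O * cnt n M := by
  classical
  obtain ⟨A, hA⟩ : ∃ A, A = (range n).filter (fun i => M.testBit i = true) := ⟨_, rfl⟩
  have mA : ∀ i, i ∈ A ↔ i < n ∧ M.testBit i = true := fun i => by rw [hA, mem_filter, mem_range]
  have injA : ∀ i ∈ A, ∀ j ∈ A, φ i = φ j → i = j := fun i hi j hj e =>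
    h.inj i ((mA i).1 hi).1 j ((mA j).1 hj).1 e
  have hsub : A.image φ ⊆ U \ U' := by
    intro y hy
    obtain ⟨i, hi, rfl⟩ := mem_image.1 hy
    obtain ⟨h1, h2⟩ := (mA i).1 hi
    exact mem_sdiff.2 ⟨h.mem i h1, (hM i h1).1 h2⟩
  have h1 := drop_typ w hG hs hI' (empty_subset U') (fun _ => 0) (fun _ => 0)
    (fun x hx => absurd hx (notMem_empty x))
  simp only [sum_empty, add_zero] at h1
  rw [← sum_sdiff hsub, ← sum_sdiff (s₁ := A.image φ) (s₂ := U \ U') hsub, sum_image injA,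
    sum_image injA] at h1
  have h2 : ∑ z ∈ (U \ U') \ A.image φ, ((G.neighborFinset z ∩ (U' \ ∅)).card * w.hh (nU G U' z) +
      ((G.neighborFinset z \ U).filter fun p => (G.neighborFinset p ∩ (U' \ ∅)).Nonempty).card * w.h0) ≤
      ∑ z ∈ (U \ U') \ A.image φ, w.F (nU G U z) (n1 G U z) := by
    refine sum_le_sum fun z hz => ?_
    obtain ⟨hz1, -⟩ := mem_sdiff.1 hz
    obtain ⟨hzU, hzU'⟩ := mem_sdiff.1 hz1
    rw [sdiff_empty]
    have e1 : (G.neighborFinset z ∩ U').card = nU G U' z := rfl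
    rw [e1]
    refine hw.pos _ _ _ _ (card_le_card (inter_subset_inter_left hs)) ?_ ?_
    · exact (card_le_card (inter_subset_inter_right (fun y hy => mem_cn.2 (Or.inr
        ((SimpleGraph.mem_neighborFinset _ _ _).1 hy))))).trans (hI' z hzU')
    · have e2 : nU G U z + (G.neighborFinset z \ U).card = 3 := by
        rw [← nbr_card hG z]
        exact card_inter_add_card_sdiff _ _
      have e3 : n1 G U z + ((G.neighborFinset z \ U).filter
          fun p => (G.neighborFinset p ∩ U').Nonempty).card ≤ (G.neighborFinset z \ U).card := by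
        unfold n1
        rw [← card_union_of_disjoint]
        · exact card_le_card (union_subset (filter_subset _ _) (filter_subset _ _))
        · rw [disjoint_left]
          intro q hq hq'
          rw [mem_filter] at hq hq'
          obtain ⟨a, ha⟩ := card_eq_one.1 hq.2
          obtain ⟨y, hy⟩ := hq'.2
          have m1 : z ∈ G.neighborFinset q ∩ U := mem_inter.2
            ⟨(SimpleGraph.mem_neighborFinset _ _ _).2 ((SimpleGraph.mem_neighborFinset _ _ _).1
              (mem_sdiff.1 hq.1).1).symm, hzU⟩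
          have m2 : y ∈ G.neighborFinset q ∩ U := mem_inter.2 ⟨(mem_inter.1 hy).1, hs (mem_inter.1 hy).2⟩
          rw [ha, mem_singleton] at m1 m2
          rw [m2, ← m1] at hy
          exact hzU' (mem_inter.1 hy).2
      omega
  have h3 := sum_le_sum (s := A) (f := fun i => (bif tb IN i then kval TI p M 0 i else kval T p M 0 i) +
      ((G.neighborFinset (φ i) ∩ (U' \ ∅)).card * w.hh (nU G U' (φ i)) +
      ((G.neighborFinset (φ i) \ U).filter
        fun q => (G.neighborFinset q ∩ (U' \ ∅)).Nonempty).card * w.h0))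
      (g := fun i => w.F (nU G U (φ i)) (n1 G U (φ i)) + O) fun i hi => by
    obtain ⟨i1, i2⟩ := (mA i).1 hi
    have i3 := (hM i i1).1 i2
    rw [tb_eq]
    cases hb : IN.testBit i
    · rw [cond_false]
      exact h.kval_le hG hT hI hs hM (E := 0) (EE := ∅) (fun i _ h0 => by
        rw [Nat.zero_testBit] at h0
        exact absurd h0 (by simp)) i1 i3
    · rw [cond_true]
      exact h.kvalI_le hG hTI hI hs hM i1 i3 (hin i i1 hb)
  have h4 : evs T TI n p M IN = ∑ i ∈ A, (bif tb IN i then kval TI p M 0 i else kval T p M 0 i) := by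
    unfold evs
    rw [sm_eq, hA, sum_filter]
    refine sum_congr rfl fun i _ => ?_
    rw [tb_eq M]
    cases M.testBit i <;> simp
  have h5 : cnt n M = A.card := by
    unfold cnt
    rw [sm_eq, hA, Finset.card_filter]
    refine sum_congr rfl fun i _ => ?_
    rw [tb_eq M]
    cases M.testBit i <;> simp
  rw [h4, h5]
  simp only [sum_add_distrib, sum_const, smul_eq_mul] at h1 h2 h3
  rw [mul_comm O]
  omega

/-! ### the neighbours of a new isolated vertex -/

/-- the known part of the step: masks of the removed nodes and of the inner nodes -/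
structure Stn (G : SimpleGraph V) (U U' : Finset V) (n p M IN : ℕ) (φ ν : ℕ → V) : Prop where
  sub : U' ⊆ U
  msk : ∀ i < n, (M.testBit i = true ↔ φ i ∉ U')
  out : ∀ y ∈ U, y ∉ U' → (∃ t < n, M.testBit t = true ∧ φ t = y) ∨
      ∃ k < 3 * n, IN.testBit (k / 3) = true ∧ dg p k = 0 ∧ ν k = y
  inn : ∀ i < n, IN.testBit i = true → M.testBit i = true ∧ ∀ y, G.Adj (φ i) y → y ∉ U'

/-- the pair `(v, y)` is attached to the open port `k` -/
def Chg (G : SimpleGraph V) (U : Finset V) (n p M IN : ℕ) (φ ν : ℕ → V) (v y : V) (k : ℕ) : Prop :=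
  k < 3 * n ∧ dg p k = 0 ∧ M.testBit (k / 3) = true ∧ (ν k = v ∧ φ (k / 3) = y ∨ ν k = y ∧ y ∉ U ∨
    IN.testBit (k / 3) = true ∧ ν k ∈ U ∧ (∀ i < n, φ i ≠ ν k) ∧ (ν k = y ∨ y ∉ U ∧ G.Adj (ν k) y))

theorem Emb.att' (hG : G.IsRegularOfDegree 3) {U U' : Finset V} {n p M IN : ℕ}
    {φ ν : ℕ → V} (h : Emb G U n p φ ν) (hS : Stn G U U' n p M IN φ ν) {v y : V}
    (hv : v ∈ iso G U') (hy : G.Adj v y) :
    (y ∉ U ∧ nU G U y = 1) ∨ (∃ k < 3 * n, M.testBit (k / 3) = true ∧
      (ν k = v ∧ φ (k / 3) = y ∨ ν k = y ∧ y ∉ U)) ∨ ∃ k, Chg G U n p M IN φ ν v y k := by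
  obtain ⟨hvU', hv2⟩ := (iso_nbr hG).1 hv
  obtain ⟨hyU', hy1⟩ := hv2 y hy
  -- a removed member of `U` which is no node
  have key : ∀ z ∈ U, z ∉ U' → (∃ t < n, M.testBit t = true ∧ φ t = z) ∨
      ∃ k < 3 * n, IN.testBit (k / 3) = true ∧ dg p k = 0 ∧ ν k = z ∧ ∀ i < n, φ i ≠ z := by
    intro z hz hz'
    rcases hS.out z hz hz' with h1 | ⟨k, k1, k2, k3, k4⟩
    · exact Or.inl h1
    · by_cases hx : ∃ i < n, φ i = z
      · obtain ⟨i, hi, rfl⟩ := hx
        exact Or.inl ⟨i, hi, (hS.msk i hi).2 hz', rfl⟩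
      · push Not at hx
        exact Or.inr ⟨k, k1, k2, k3, k4, hx⟩
  by_cases hyU : y ∈ U
  · rcases key y hyU hyU' with ⟨j, hj, hjM, rfl⟩ | ⟨k, k1, k2, k3, rfl, k5⟩
    · obtain ⟨k, hk, hkn, hkv⟩ := h.surj hG hj hy.symm
      exact Or.inr (Or.inl ⟨k, hkn, by rw [hk]; exact hjM, Or.inl ⟨hkv, by rw [hk]⟩⟩)
    · exact Or.inr (Or.inr ⟨k, k1, k3, (hS.inn _ (by omega) k2).1, Or.inr (Or.inr ⟨k2, hyU, k5, Or.inl rfl⟩)⟩)
  · by_cases h1 : nU G U y = 1
    · exact Or.inl ⟨hyU, h1⟩
    · right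
      have h2 : (G.neighborFinset y ∩ U') ⊂ (G.neighborFinset y ∩ U) := by
        refine ssubset_of_subset_of_ne (inter_subset_inter_left hS.sub) fun e => h1 ?_
        unfold nU at hy1 ⊢
        rw [← e]
        exact hy1
      obtain ⟨z, hz, hz'⟩ := exists_of_ssubset h2
      rw [mem_inter, SimpleGraph.mem_neighborFinset] at hz
      have hzU' : z ∉ U' := fun e => hz' (mem_inter.2 ⟨(SimpleGraph.mem_neighborFinset _ _ _).2 hz.1, e⟩)
      rcases key z hz.2 hzU' with ⟨j, hj, hjM, rfl⟩ | ⟨k, k1, k2, k3, rfl, k5⟩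
      · obtain ⟨k, hk, hkn, hkv⟩ := h.surj hG hj hz.1.symm
        exact Or.inl ⟨k, hkn, by rw [hk]; exact hjM, Or.inr ⟨hkv, hyU⟩⟩
      · exact Or.inr ⟨k, k1, k3, (hS.inn _ (by omega) k2).1,
          Or.inr (Or.inr ⟨k2, hz.2, k5, Or.inr ⟨hyU, hz.1.symm⟩⟩)⟩

/-- a neighbour of an unknown new isolated vertex -/
theorem Emb.chg_out (hG : G.IsRegularOfDegree 3) {U U' : Finset V} (hI : Inv G U) {n p M IN : ℕ}
    {φ ν : ℕ → V} (h : Emb G U n p φ ν) (hS : Stn G U U' n p M IN φ ν) {v y : V}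
    (hv : v ∈ iso G U') (hu : ∀ i < n, φ i ≠ v) (hy : G.Adj v y) (hno : ¬ (y ∉ U ∧ nU G U y = 1)) :
    ∃ k, Chg G U n p M IN φ ν v y k := by
  have hvU := hS.sub ((iso_nbr hG).1 hv).1
  rcases h.att' hG hS hv hy with h1 | ⟨k, hk, h1, h2⟩ | h1
  · exact absurd h1 hno
  · refine ⟨k, hk, ?_, h1, by tauto⟩
    rcases digit_cases (dg p k) with h0 | h0 | ⟨l, hl⟩ | ⟨l, hl⟩
    · exact h0
    · obtain ⟨a1, a2⟩ := h.dead k hk h0
      rcases h2 with ⟨h2, -⟩ | ⟨h2, h3⟩
      · exact absurd hvU (h2 ▸ a1)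
      · exact absurd (a2 v hvU (h2 ▸ hy.symm)).symm (hu _ (by omega))
    · obtain ⟨a1, -, a3, -⟩ := h.dir k hk l hl
      rcases h2 with ⟨h2, -⟩ | ⟨h2, h3⟩
      · exact absurd (a3.symm.trans h2) (hu _ (by omega))
      · exact absurd (h2 ▸ a3 ▸ h.mem _ (by omega)) h3
    · obtain ⟨a1, -, a3, a4, a5⟩ := h.lnk k hk l hl
      rcases h2 with ⟨h2, -⟩ | ⟨h2, h3⟩
      · exact absurd hvU (h2 ▸ a4)
      · have b1 := h.adj l a1
        rw [a5, h2] at b1
        have b2 := h.adj k hk
        rw [h2] at b2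
        rcases hI.two h3 (h.mem (k / 3) (by omega)) (h.mem (l / 3) (by omega))
          (fun e => a3 (h.inj _ (by omega) _ (by omega) e).symm) b2.symm b1.symm hvU hy.symm with e | e
        · exact absurd e.symm (hu _ (by omega))
        · exact absurd e.symm (hu _ (by omega))
  · exact h1

/-- a neighbour behind an open port of a known new isolated vertex -/
theorem Emb.chg_in (hG : G.IsRegularOfDegree 3) {U U' : Finset V} (hI : Inv G U) {n p M IN : ℕ}
    {φ ν : ℕ → V} (h : Emb G U n p φ ν) (hS : Stn G U U' n p M IN φ ν) {i κ : ℕ}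
    (hi : i < n) (hv : φ i ∈ iso G U') (hκn : κ < 3 * n) (hκi : κ / 3 = i) (hκ0 : dg p κ = 0)
    (hno : ¬ (ν κ ∉ U ∧ nU G U (ν κ) = 1)) : ∃ k, Chg G U n p M IN φ ν (φ i) (ν κ) k := by
  have hvU' := ((iso_nbr hG).1 hv).1
  have hvU := hS.sub hvU'
  have hy : G.Adj (φ i) (ν κ) := by
    have := h.adj κ hκn
    rwa [hκi] at this
  have hcon : ∀ l c, l < 3 * n → l / 3 = i → ν l = ν κ → dg p l = c + 2 → False := by
    intro l c hl hli hly hlc
    have e := h.pinj l hl κ hκn (by omega) hly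
    rw [e, hκ0] at hlc
    omega
  rcases h.att' hG hS hv hy with h1 | ⟨k, hk, h1, h2⟩ | h1
  · exact absurd h1 hno
  · refine ⟨k, hk, ?_, h1, by tauto⟩
    have hki : k / 3 ≠ i := by
      intro e
      rw [e] at h1
      exact (hS.msk i hi).1 h1 hvU'
    rcases digit_cases (dg p k) with h0 | h0 | ⟨l, hl⟩ | ⟨l, hl⟩
    · exact h0
    · obtain ⟨a1, a2⟩ := h.dead k hk h0
      rcases h2 with ⟨h2, -⟩ | ⟨h2, h3⟩
      · exact absurd hvU (h2 ▸ a1)
      · exact absurd (h.inj _ hi _ (by omega) (a2 _ hvU (h2 ▸ hy.symm))).symm hki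
    · obtain ⟨a1, a2, a3, a4⟩ := h.dir k hk l hl
      rcases h2 with ⟨h2, h3⟩ | ⟨h2, h3⟩
      · have e := h.inj _ (by omega) _ hi (a3.symm.trans h2)
        exact (hcon l (2 * k) a1 e (a4.trans h3) (by omega)).elim
      · exact absurd (h2 ▸ a3 ▸ h.mem _ (by omega)) h3
    · obtain ⟨a1, a2, a3, a4, a5⟩ := h.lnk k hk l hl
      rcases h2 with ⟨h2, -⟩ | ⟨h2, h3⟩
      · exact absurd hvU (h2 ▸ a4)
      · have b1 := h.adj l a1
        rw [a5, h2] at b1
        have b2 := h.adj k hk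
        rw [h2] at b2
        rcases hI.two h3 (h.mem (k / 3) (by omega)) (h.mem (l / 3) (by omega))
          (fun e => a3 (h.inj _ (by omega) _ (by omega) e).symm) b2.symm b1.symm hvU hy.symm with e | e
        · exact absurd (h.inj _ hi _ (by omega) e).symm hki
        · have e' := h.inj _ hi _ (by omega) e
          exact (hcon l (2 * k + 1) a1 e'.symm (a5.trans h2) (by omega)).elim
  · exact h1

/-! ### the count of the attachments -/

/-- the number of possible attachments -/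
def opm2 (n p M IN : ℕ) : ℕ :=
  sm (fun i => bif tb M i then (bif tb IN i then Nat.mul 2 (opn p i) else opn p i) else 0) n

theorem opm2_eq (n p M IN : ℕ) : opm2 n p M IN =
    ∑ k ∈ (range (3 * n)).filter (fun k => dg p k = 0 ∧ M.testBit (k / 3) = true),
      (1 + if IN.testBit (k / 3) = true then 1 else 0) := by
  unfold opm2
  rw [sm_eq]
  induction n with
  | zero => simp
  | succ n ih =>
    rw [sum_range_succ, ih, show 3 * (n + 1) = 3 * n + 1 + 1 + 1 by ring, range_add_one, range_add_one,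
      range_add_one]
    have hc : ∀ k, (if dg p k = 0 ∧ M.testBit (k / 3) = true then
        (1 + if IN.testBit (k / 3) = true then 1 else 0) else 0 : ℕ) =
        bif M.testBit (k / 3) then (bif Nat.beq (dg p k) 0 then
          (bif IN.testBit (k / 3) then 2 else 1) else 0) else 0 := by
      intro k
      cases h1 : M.testBit (k / 3)
      · simp
      · by_cases h2 : dg p k = 0
        · rw [h2]
          cases IN.testBit (k / 3) <;> simp
        · rw [if_neg (fun h => h2 h.1), show Nat.beq (dg p k) 0 = false by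
            rw [← Bool.not_eq_true]; exact fun e => h2 (Nat.eq_of_beq_eq_true e)]
          rfl
    rw [sum_filter, sum_filter, sum_insert (by simp), sum_insert (by simp),
      sum_insert (by simp), hc, hc, hc, show 3 * n / 3 = n by omega, show (3 * n + 1) / 3 = n by omega,
      show (3 * n + 1 + 1) / 3 = n by omega, tb_eq, tb_eq]
    have e : opn p n = (bif Nat.beq (dg p (3 * n)) 0 then 1 else 0) +
        (bif Nat.beq (dg p (3 * n + 1)) 0 then 1 else 0) + (bif Nat.beq (dg p (3 * n + 2)) 0 then 1 else 0) := by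
      unfold opn
      rw [frc_eq]
      rfl
    cases M.testBit n
    · simp
    · cases IN.testBit n
      · simp only [cond_true, cond_false]
        rw [e, show 3 * n + 1 + 1 = 3 * n + 2 from rfl]
        ring
      · simp only [cond_true]
        rw [show Nat.mul 2 (opn p n) = 2 * opn p n from rfl, e, show 3 * n + 1 + 1 = 3 * n + 2 from rfl]
        cases Nat.beq (dg p (3 * n)) 0 <;> cases Nat.beq (dg p (3 * n + 1)) 0 <;>
          cases Nat.beq (dg p (3 * n + 2)) 0 <;> simp <;> ring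

/-- the attached neighbours -/
noncomputable def ays (G : SimpleGraph V) [DecidableRel G.Adj] (U : Finset V) (n p M IN : ℕ)
    (φ ν : ℕ → V) (v : V) : Finset V :=
  @Finset.filter _ (fun y => ∃ k, Chg G U n p M IN φ ν v y k) (Classical.decPred _) (G.neighborFinset v)

omit [DecidableEq V] in
theorem mem_ays {U : Finset V} {n p M IN : ℕ} {φ ν : ℕ → V} {v y : V} :
    y ∈ ays G U n p M IN φ ν v ↔ G.Adj v y ∧ ∃ k, Chg G U n p M IN φ ν v y k := by
  unfold ays
  rw [@Finset.mem_filter _ _ (Classical.decPred _), SimpleGraph.mem_neighborFinset]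

theorem Emb.sum_ays (hG : G.IsRegularOfDegree 3) {U U' : Finset V} {n p M IN : ℕ}
    {φ ν : ℕ → V} (h : Emb G U n p φ ν) (hS : Stn G U U' n p M IN φ ν) {S : Finset V}
    (hSi : ∀ v ∈ S, v ∈ iso G U') : ∑ v ∈ S, (ays G U n p M IN φ ν v).card ≤ opm2 n p M IN := by
  classical
  obtain ⟨P, hP⟩ : ∃ P : Finset (V × V), P = (S ×ˢ (univ : Finset V)).filter
      fun q => q.2 ∈ ays G U n p M IN φ ν q.1 := ⟨_, rfl⟩
  have mP : ∀ q : V × V, q ∈ P ↔ q.1 ∈ S ∧ q.2 ∈ ays G U n p M IN φ ν q.1 := fun q => by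
    rw [hP, mem_filter, mem_product]
    simp
  have h1 : ∑ v ∈ S, (ays G U n p M IN φ ν v).card = P.card := by
    rw [hP, Finset.card_filter, sum_product]
    refine sum_congr rfl fun v _ => ?_
    rw [← Finset.card_filter]
    congr 1
    ext y
    simp
  have hk : ∀ q ∈ P, ∃ k, Chg G U n p M IN φ ν q.1 q.2 k := fun q hq => (mem_ays.1 ((mP q).1 hq).2).2
  choose! f hf using hk
  have h2 : ∀ q ∈ P, f q ∈ (range (3 * n)).filter (fun k => dg p k = 0 ∧ M.testBit (k / 3) = true) := by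
    intro q hq
    obtain ⟨a1, a2, a3, -⟩ := hf q hq
    rw [mem_filter, mem_range]
    exact ⟨a1, a2, a3⟩
  rw [h1, card_eq_sum_card_fiberwise h2, opm2_eq]
  refine sum_le_sum fun k hk => ?_
  rw [mem_filter, mem_range] at hk
  obtain ⟨k1, k2, k3⟩ := hk
  have hkn : k / 3 < n := by omega
  have hkU' : φ (k / 3) ∉ U' := (hS.msk _ hkn).1 k3
  -- the two neighbours in `U'` of the same outside vertex
  have huniq : ∀ q ∈ P, ∀ q' ∈ P, q.2 = q'.2 → q.1 = q'.1 := by
    intro q hq q' hq' e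
    obtain ⟨a1, a2⟩ := (mP q).1 hq
    obtain ⟨b1, b2⟩ := (mP q').1 hq'
    have a3 := (mem_ays.1 a2).1
    have b3 := (mem_ays.1 b2).1
    obtain ⟨c1, c2⟩ := (iso_nbr hG).1 (hSi _ a1)
    obtain ⟨d1, -⟩ := (iso_nbr hG).1 (hSi _ b1)
    obtain ⟨z, hz⟩ := card_eq_one.1 (c2 _ a3).2
    have m1 : q.1 ∈ G.neighborFinset q.2 ∩ U' :=
      mem_inter.2 ⟨(SimpleGraph.mem_neighborFinset _ _ _).2 a3.symm, c1⟩
    have m2 : q'.1 ∈ G.neighborFinset q.2 ∩ U' :=
      mem_inter.2 ⟨(SimpleGraph.mem_neighborFinset _ _ _).2 (e ▸ b3.symm), d1⟩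
    rw [hz, mem_singleton] at m1 m2
    rw [m1, m2]
  have hq1 : ∀ q ∈ P, q.1 ∈ U' := fun q hq => ((iso_nbr hG).1 (hSi _ ((mP q).1 hq).1)).1
  by_cases hνU : ν k ∈ U
  · by_cases hνU' : ν k ∈ U'
    · -- a survivor
      refine le_trans ?_ (Nat.le_add_right _ _)
      rw [card_le_one]
      have key : ∀ q ∈ P.filter (fun q => f q = k), q = (ν k, φ (k / 3)) := by
        intro q hq0
        obtain ⟨hq, hqk⟩ := mem_filter.1 hq0
        obtain ⟨-, -, -, a4⟩ := hf q hq
        rw [hqk] at a4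
        rcases a4 with ⟨a4, a5⟩ | ⟨a4, a5⟩ | ⟨a4, -⟩
        · exact Prod.ext a4.symm a5.symm
        · exact absurd (a4 ▸ hνU) a5
        · exact absurd hνU' ((hS.inn _ hkn a4).2 _ (h.adj _ k1))
      intro q hq q' hq'
      rw [key q hq, key q' hq']
    · -- a removed vertex
      have key : ∀ q ∈ P.filter (fun q => f q = k), IN.testBit (k / 3) = true ∧ q ∈ P ∧
          (ν k = q.2 ∨ q.2 ∉ U ∧ G.Adj (ν k) q.2) := by
        intro q hq0
        obtain ⟨hq, hqk⟩ := mem_filter.1 hq0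
        obtain ⟨-, -, -, a4⟩ := hf q hq
        rw [hqk] at a4
        rcases a4 with ⟨a4, a5⟩ | ⟨a4, a5⟩ | ⟨a4, -, -, a5⟩
        · exact absurd (a4 ▸ hq1 q hq) hνU'
        · exact absurd (a4 ▸ hνU) a5
        · exact ⟨a4, hq, a5⟩
      by_cases hin : IN.testBit (k / 3) = true
      · rw [if_pos hin]
        have h3 : ((G.neighborFinset (ν k)).erase (φ (k / 3))).card = 2 := by
          rw [card_erase_of_mem ((SimpleGraph.mem_neighborFinset _ _ _).2 (h.adj k k1).symm), nbr_card hG]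
        rw [← one_add_one_eq_two] at h3
        rw [← h3]
        refine card_le_card_of_injOn (fun q => if ν k = q.2 then q.1 else q.2) (fun q hq => ?_)
          fun q hq q' hq' e => ?_
        · obtain ⟨-, b1, b2⟩ := key q hq
          have b3 := (mem_ays.1 ((mP q).1 b1).2).1
          beta_reduce
          rw [mem_coe, mem_erase, SimpleGraph.mem_neighborFinset]
          by_cases hc : ν k = q.2
          · rw [if_pos hc]
            exact ⟨fun e => hkU' (e ▸ hq1 q b1), by rw [hc]; exact b3.symm⟩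
          · rw [if_neg hc]
            have b4 := b2.resolve_left hc
            exact ⟨fun e => b4.1 (by rw [e]; exact h.mem _ hkn), b4.2⟩
        · obtain ⟨-, b1, b2⟩ := key q hq
          obtain ⟨-, c1, c2⟩ := key q' hq'
          beta_reduce at e
          by_cases hc : ν k = q.2 <;> by_cases hc' : ν k = q'.2
          · rw [if_pos hc, if_pos hc'] at e
            exact Prod.ext e (hc.symm.trans hc')
          · rw [if_pos hc, if_neg hc'] at e
            have c4 := c2.resolve_left hc'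
            exact absurd (hS.sub (hq1 q b1)) (by rw [e]; exact c4.1)
          · rw [if_neg hc, if_pos hc'] at e
            have b4 := b2.resolve_left hc
            exact absurd (hS.sub (hq1 q' c1)) (by rw [← e]; exact b4.1)
          · rw [if_neg hc, if_neg hc'] at e
            exact Prod.ext (huniq q b1 q' c1 e) e
      · rw [if_neg hin]
        have : P.filter (fun q => f q = k) = ∅ := by
          rw [eq_empty_iff_forall_notMem]
          exact fun q hq => hin (key q hq).1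
        rw [this, card_empty]
        exact Nat.zero_le _
  · -- an outside vertex
    refine le_trans ?_ (Nat.le_add_right _ _)
    rw [card_le_one]
    have key : ∀ q ∈ P.filter (fun q => f q = k), q ∈ P ∧ q.2 = ν k := by
      intro q hq0
      obtain ⟨hq, hqk⟩ := mem_filter.1 hq0
      obtain ⟨-, -, -, a4⟩ := hf q hq
      rw [hqk] at a4
      rcases a4 with ⟨a4, a5⟩ | ⟨a4, a5⟩ | ⟨a4, a5, -⟩
      · exact absurd (a4 ▸ hS.sub (hq1 q hq)) hνU
      · exact ⟨hq, a4.symm⟩
      · exact absurd a5 hνU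
    intro q hq q' hq'
    obtain ⟨a1, a2⟩ := key q hq
    obtain ⟨b1, b2⟩ := key q' hq'
    exact Prod.ext (huniq q a1 q' b1 (a2.trans b2.symm)) (a2.trans b2.symm)

/-! ### the number of new isolated vertices -/

/-- the bound from the number of attachments -/
def xN (D n p M A : ℕ) : ℕ :=
  bif Nat.beq A 0 then 0 else bif Nat.ble 2 D then A else
    frc (ndn D n p M 1) fun a => bif Nat.beq D 1 then mn A (Nat.div (Nat.add A a) 2) else
      mn A (mn (Nat.div (Nat.add A a) 2)
        (Nat.div (Nat.add (Nat.add A (Nat.mul 2 a)) (ndn D n p M 2)) 3))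

theorem Emb.iso_le2 (hG : G.IsRegularOfDegree 3) {U U' : Finset V} (hI : Inv G U) {n p M IN D : ℕ}
    {φ ν : ℕ → V} (h : Emb G U n p φ ν) (hS : Stn G U U' n p M IN φ ν) (hD : ∀ x ∈ U, n1 G U x ≤ D) :
    (iso G U').card ≤ (iso G U).card + (ndn D n p M 0 + xN D n p M (opm2 n p M IN)) := by
  classical
  obtain ⟨S, hSS⟩ : ∃ S, S = (iso G U').filter (· ∉ iso G U) := ⟨_, rfl⟩
  have mS : ∀ v, v ∈ S ↔ v ∈ iso G U' ∧ v ∉ iso G U := fun v => by rw [hSS, mem_filter]
  have h1 : (iso G U').card ≤ (iso G U).card + S.card := by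
    rw [hSS]
    have e := card_filter_add_card_filter_not (s := iso G U') (· ∈ iso G U)
    have e2 : ((iso G U').filter (· ∈ iso G U)).card ≤ (iso G U).card :=
      card_le_card fun x hx => (mem_filter.1 hx).2
    omega
  refine h1.trans (Nat.add_le_add_left ?_ _)
  -- the needs
  obtain ⟨g, hg⟩ : ∃ g : V → ℕ, (∀ v ∈ S, g v ≤ (ays G U n p M IN φ ν v).card) ∧
      ∀ v ∈ S, (∃ i < n, φ i = v ∧ M.testBit i ≠ true ∧ g v = nd D p M i) ∨
        g v = if 2 ≤ D then 1 else 3 - D := by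
    refine ⟨fun v => if hv : ∃ i, i < n ∧ φ i = v then nd D p M (Classical.choose hv) else
      if 2 ≤ D then 1 else 3 - D, fun v hv => ?_, fun v hv => ?_⟩
    · obtain ⟨hv1, hv2⟩ := (mS v).1 hv
      have hvU := hS.sub ((iso_nbr hG).1 hv1).1
      beta_reduce
      by_cases hx : ∃ i, i < n ∧ φ i = v
      · rw [dif_pos hx]
        obtain ⟨i1, i2⟩ := Classical.choose_spec hx
        generalize Classical.choose hx = i at *
        subst i2
        refine (h.nd_le hG hS.sub hS.msk i1 hv1 hv2 (hD _ hvU)).trans (card_le_card fun y hy => ?_)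
        obtain ⟨hy, hno, κ, hκn, hκi, hκ0, rfl⟩ := mem_fro.1 hy
        exact mem_ays.2 ⟨hy, h.chg_in hG hI hS i1 hv1 hκn hκi hκ0 hno⟩
      · rw [dif_neg hx]
        push Not at hx
        refine (need_le hG hvU hv2 (hD _ hvU)).trans (card_le_card fun y hy => ?_)
        unfold fr at hy
        rw [mem_filter, SimpleGraph.mem_neighborFinset] at hy
        exact mem_ays.2 ⟨hy.1, h.chg_out hG hI hS hv1 hx hy.1 hy.2⟩
    · beta_reduce
      by_cases hx : ∃ i, i < n ∧ φ i = v
      · rw [dif_pos hx]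
        obtain ⟨i1, i2⟩ := Classical.choose_spec hx
        refine Or.inl ⟨_, i1, i2, fun hc => ?_, rfl⟩
        refine (hS.msk _ i1).1 hc ?_
        rw [i2]
        exact ((iso_nbr hG).1 ((mS v).1 hv).1).1
      · rw [dif_neg hx]
        exact Or.inr rfl
  obtain ⟨hg1, hg2⟩ := hg
  -- the sum of the needs
  have hA : ∑ v ∈ S, g v ≤ opm2 n p M IN :=
    (sum_le_sum hg1).trans (h.sum_ays hG hS fun v hv => ((mS v).1 hv).1)
  -- the numbers of survivors with small need
  have hcn : ∀ j, (j = 0 ∨ D ≤ 1 ∧ j = 1 ∨ D = 0 ∧ j = 2) → (S.filter fun v => g v = j).card ≤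
      ndn D n p M j := by
    intro j hj
    rw [ndn_eq]
    have key : ∀ v ∈ S.filter (fun v => g v = j), ∃ i < n, φ i = v ∧ M.testBit i ≠ true ∧ nd D p M i = j := by
      intro v hv
      rw [mem_filter] at hv
      rcases hg2 v hv.1 with ⟨i, i1, i2, i3, i4⟩ | h2
      · exact ⟨i, i1, i2, i3, i4 ▸ hv.2⟩
      · rw [hv.2] at h2
        split_ifs at h2 <;> omega
    choose! f hf using key
    refine card_le_card_of_injOn f (fun v hv => ?_) fun v hv v' hv' e => ?_
    · obtain ⟨a1, a2, a3, a4⟩ := hf v hv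
      rw [mem_coe, mem_filter, mem_range]
      exact ⟨a1, a3, a4⟩
    · rw [← (hf v hv).2.1, ← (hf v' hv').2.1, e]
  have c0 := hcn 0 (Or.inl rfl)
  have hcard : S.card = ∑ v ∈ S, 1 := by rw [sum_const, smul_eq_mul, mul_one]
  have cs : ∀ j, (S.filter fun v => g v = j).card = ∑ v ∈ S, if g v = j then 1 else 0 := fun j =>
    Finset.card_filter _ _
  rw [cs] at c0
  have t1 : S.card ≤ (∑ v ∈ S, if g v = 0 then 1 else 0) + ∑ v ∈ S, g v := by
    rw [hcard, ← sum_add_distrib]
    exact sum_le_sum fun v _ => by split_ifs <;> omega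
  have t2 : 2 * S.card ≤ 2 * (∑ v ∈ S, if g v = 0 then 1 else 0) + ∑ v ∈ S, g v +
      ∑ v ∈ S, if g v = 1 then 1 else 0 := by
    rw [hcard, mul_sum, mul_sum, ← sum_add_distrib, ← sum_add_distrib]
    exact sum_le_sum fun v _ => by split_ifs <;> omega
  have t3 : 3 * S.card ≤ 3 * (∑ v ∈ S, if g v = 0 then 1 else 0) + ∑ v ∈ S, g v +
      2 * (∑ v ∈ S, if g v = 1 then 1 else 0) + ∑ v ∈ S, if g v = 2 then 1 else 0 := by
    rw [hcard, mul_sum, mul_sum, mul_sum, ← sum_add_distrib, ← sum_add_distrib, ← sum_add_distrib]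
    exact sum_le_sum fun v _ => by split_ifs <;> omega
  unfold xN
  generalize opm2 n p M IN = A at *
  by_cases hA0 : A = 0
  · rw [hA0] at hA ⊢
    rw [show Nat.beq 0 0 = true from rfl, cond_true]
    omega
  · rw [show Nat.beq A 0 = false by
      rw [← Bool.not_eq_true]; exact fun e => hA0 (Nat.eq_of_beq_eq_true e), cond_false]
    by_cases hD2 : 2 ≤ D
    · rw [Nat.ble_eq_true_of_le hD2, cond_true]
      omega
    · rw [show Nat.ble 2 D = false by rw [← Bool.not_eq_true, Nat.ble_eq]; exact hD2, cond_false, frc_eq]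
      have c1 := hcn 1 (Or.inr (Or.inl ⟨by omega, rfl⟩))
      rw [cs] at c1
      by_cases hD1 : D = 1
      · subst hD1
        rw [show Nat.beq 1 1 = true from rfl, cond_true, mn_eq]
        change S.card ≤ _ + min _ ((A + ndn 1 n p M 1) / 2)
        omega
      · have c2 := hcn 2 (Or.inr (Or.inr ⟨by omega, rfl⟩))
        rw [cs] at c2
        rw [show Nat.beq D 1 = false by
          rw [← Bool.not_eq_true]; exact fun e => hD1 (Nat.eq_of_beq_eq_true e), cond_false, mn_eq, mn_eq]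
        change S.card ≤ _ + min _ (min ((A + ndn D n p M 1) / 2)
          ((A + 2 * ndn D n p M 1 + ndn D n p M 2) / 3))
        omega

/-! ### the children of the first kind -/

/-- the direct connections of the inner node `t` and a survivor -/
def kia (n p M t : ℕ) : ℕ → List (ℕ × ℕ)
  | 0 => []
  | s + 1 => bif tb M s || !Nat.beq (dg p (fo p s)) 0 || adjd p t s then kia n p M t s else
      (n, p + (2 + 2 * fo p s) * 256 ^ fo p t + (2 + 2 * fo p t) * 256 ^ fo p s) :: kia n p M t s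

theorem mem_kia {n p M t : ℕ} : ∀ {m s : ℕ}, s < m → M.testBit s ≠ true → dg p (fo p s) = 0 →
    adjd p t s = false →
    (n, p + (2 + 2 * fo p s) * 256 ^ fo p t + (2 + 2 * fo p t) * 256 ^ fo p s) ∈ kia n p M t m := by
  intro m
  induction m with
  | zero => intro s hs; omega
  | succ m ih =>
    intro s hs h1 h2 h3
    rw [kia]
    rcases Nat.lt_succ_iff_lt_or_eq.1 hs with h4 | rfl
    · have h5 := ih h4 h1 h2 h3
      cases tb M m || !Nat.beq (dg p (fo p m)) 0 || adjd p t m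
      · exact List.mem_cons_of_mem _ h5
      · exact h5
    · rw [tb_false h1, h2, h3]
      exact List.mem_cons_self

/-- for all inner nodes with an open port -/
def kin (n p M IN : ℕ) : ℕ → List (ℕ × ℕ)
  | 0 => []
  | t + 1 => bif tb IN t && Nat.beq (dg p (fo p t)) 0 then kia n p M t n ++ kin n p M IN t else kin n p M IN t

theorem mem_kin {n p M IN : ℕ} {q : ℕ × ℕ} : ∀ {m t : ℕ}, t < m → IN.testBit t = true →
    dg p (fo p t) = 0 → q ∈ kia n p M t n → q ∈ kin n p M IN m := by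
  intro m
  induction m with
  | zero => intro t ht; omega
  | succ m ih =>
    intro t ht h1 h2 h3
    rw [kin]
    rcases Nat.lt_succ_iff_lt_or_eq.1 ht with h4 | rfl
    · have h5 := ih h4 h1 h2 h3
      cases tb IN m && Nat.beq (dg p (fo p m)) 0
      · exact h5
      · exact List.mem_append_right _ h5
    · rw [tb_eq, h1, h2]
      exact List.mem_append_left _ h3

/-- an open inner port does not lead to a known survivor, or there is a child -/
theorem Emb.stn_or (hG : G.IsRegularOfDegree 3) {U : Finset V} (hI : Inv G U) {n p : ℕ} {φ ν : ℕ → V}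
    (h : Emb G U n p φ ν) (hn : n < 40) {L : List ℕ} (hL : ∀ x ∈ L, x < n ∧ full p x = true) :
    (∃ q ∈ kin n p (kms p L 0) (ims p L 0) n, Ch G U n φ q) ∨
      Stn G U (rem G U (L.map φ)) n p (kms p L 0) (ims p L 0) φ ν := by
  have hL' : ∀ x ∈ L, x < n := fun x hx => (hL x hx).1
  by_cases hno : ∃ k < 3 * n, (ims p L 0).testBit (k / 3) = true ∧ dg p k = 0 ∧
      ∃ s < n, (kms p L 0).testBit s ≠ true ∧ φ s = ν k
  · left
    obtain ⟨k, hk, h1, h2, s, hs, h3, h4⟩ := hno
    obtain ⟨b, hb⟩ : ∃ b, b = fo p (k / 3) := ⟨_, rfl⟩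
    have hb0 : dg p b = 0 := by rw [hb]; exact fo_open rfl h2
    have hb3 : b / 3 = k / 3 := by rw [hb]; exact fo_div p (k / 3)
    have hbn : b < 3 * n := by omega
    obtain ⟨ν₁, h₁, hν⟩ : ∃ ν₁ : ℕ → V, Emb G U n p φ ν₁ ∧ ν₁ b = ν k :=
      ⟨_, h.swap (b := b) (c := k) hbn hk hb3 hb0 h2, by
        beta_reduce
        rw [Equiv.swap_apply_left]⟩
    obtain ⟨a1, a2, a3, ν', a4⟩ := h₁.dirp hG hn hbn hb0 hs (h4.trans hν.symm)
    refine ⟨_, mem_kin (t := k / 3) (by omega) h1 (by rw [← hb]; exact hb0)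
      (mem_kia hs h3 a2 (by rw [← hb3]; exact a3)), le_rfl, φ, ν', ?_, fun _ _ => rfl⟩
    rw [← hb]
    exact a4
  · right
    push Not at hno
    refine ⟨rem_subset, fun i hi => ⟨fun hb => (h.kms_out hL' hb).2, fun hr => ?_⟩, fun y hy hyr => ?_,
      fun i _ hb => (h.ims_nbr hL' hb).2⟩
    · rcases h.kms_or hG hI hL (h.mem i hi) hr with ⟨t, ht, hb, e⟩ | ⟨k, hk, h1, h2, h3⟩
      · rwa [← h.inj _ ht _ hi e]
      · by_contra hc
        exact hno k hk h1 h2 i hi hc h3.symm
    · rcases h.kms_or hG hI hL hy hyr with h1 | h1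
      · exact Or.inl h1
      · exact Or.inr h1

/-- the leaf test: no isolated vertex is revealed -/
def evl (P O T TI D dl n p : ℕ) (L : List ℕ) : Option (List (ℕ × ℕ)) :=
  frc (kms p L 0) fun M => frc (ims p L 0) fun IN =>
    bif Nat.ble (Nat.succ n) 40 && pks n p L 0 &&
      Nat.ble (Nat.add (Nat.add (Nat.mul P L.length) (Nat.mul O (cnt n M)))
        (Nat.mul dl (Nat.add (ndn D n p M 0) (xN D n p M (opm2 n p M IN))))) (evs T TI n p M IN)
    then some (kin n p M IN n) else none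

/-- **the step with open inner ports**, no isolated vertex is revealed -/
theorem evl_ch (hG : G.IsRegularOfDegree 3) {w : TF} (hw : w.Pos) {P O T TI D dl : ℕ} (hT : TabK w O T)
    (hTI : TabKI w O TI) {U : Finset V} (hI : Inv G U) (hD : ∀ x ∈ U, n1 G U x ≤ D) {n p : ℕ}
    {L : List ℕ} {R : List (ℕ × ℕ)} (hR : evl P O T TI D dl n p L = some R) {φ ν : ℕ → V}
    (h : Emb G U n p φ ν) : GoodT (w.iso dl) P G U L.length ∨ ∃ q ∈ R, Ch G U n φ q := by
  unfold evl at hR
  rw [frc_eq, frc_eq] at hR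
  cases hc : Nat.ble (Nat.succ n) 40 && pks n p L 0 &&
      Nat.ble (Nat.add (Nat.add (Nat.mul P L.length) (Nat.mul O (cnt n (kms p L 0))))
        (Nat.mul dl (Nat.add (ndn D n p (kms p L 0) 0)
          (xN D n p (kms p L 0) (opm2 n p (kms p L 0) (ims p L 0)))))) (evs T TI n p (kms p L 0) (ims p L 0))
  · rw [hc, cond_false] at hR
    exact absurd hR (by simp)
  rw [hc, cond_true, Option.some.injEq] at hR
  simp only [Bool.and_eq_true] at hc
  obtain ⟨⟨c1, c2⟩, c3⟩ := hc
  have hn : n < 40 := Nat.le_of_ble_eq_true c1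
  have hL := pks_of c2
  have hc3 := Nat.le_of_ble_eq_true c3
  rw [← hR]
  rcases h.stn_or hG hI hn hL with h1 | hS
  · exact Or.inr h1
  · left
    have hP := h.pks_picks hG hI (L := L) [] c2 trivial (fun y hy => absurd hy List.not_mem_nil)
    rw [List.nil_append] at hP
    refine ⟨L.map φ, List.length_map _, hP, ?_⟩
    have h1 := h.evs_le hG hw hT hTI hI (hI.rem hG) rem_subset hS.msk (fun i hi hb => (hS.inn i hi hb).2)
    have h2 := h.iso_le2 hG hI hS hD
    rw [PsiT_iso, PsiT_iso, List.length_map]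
    unfold PsiI
    have h3 := Nat.mul_le_mul_left dl h2
    rw [mul_add] at h3
    have h4 : P * L.length + O * cnt n (kms p L 0) + dl * (ndn D n p (kms p L 0) 0 +
        xN D n p (kms p L 0) (opm2 n p (kms p L 0) (ims p L 0))) ≤
        evs T TI n p (kms p L 0) (ims p L 0) := hc3
    omega

end EF18
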