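import Pool.Agent.Lib.MP_ef18bd_co.P.TypX

/-!
# Pieces: the patterns of the exceptional sets

`Pc G E n p`: the set `E` has the pattern `(n, p)`. A list of pieces (pattern, deficit, picks) gives the
function `dOf` of the deficits; `Pce.ok` is the Boolean check of a piece.
-/

namespace EF18

open Finset

variable {V : Type} [Fintype V] [DecidableEq V] {G : SimpleGraph V} [DecidableRel G.Adj]

/-- the set `E` has the pattern `(n, p)` -/
def Pc (G : SimpleGraph V) (E : Finset V) (n p : ℕ) : Prop :=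
  ∃ φ ν : ℕ → V, Emb G E n p φ ν ∧ ∀ x ∈ E, ∃ i < n, φ i = x

/-- a piece: number of nodes, pattern, deficit, picks -/
structure Pce where
  (n p δ : ℕ)
  X : List ℕ

/-- all ports are known -/
def full1 (n p : ℕ) : Prop := ∀ k < 3 * n, 1 ≤ dg p k

instance (n p : ℕ) : Decidable (full1 n p) := by unfold full1; infer_instance

/-- every node but the first is near an earlier one -/
def ord2 (n p : ℕ) : Prop := ∀ j < n, 0 < j → ∃ a < 3, 2 ≤ dg p (3 * j + a) ∧ tg (dg p (3 * j + a)) < j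

instance (n p : ℕ) : Decidable (ord2 n p) := by unfold ord2; infer_instance

/-- the picks clear all the nodes -/
def clr (n p : ℕ) : List ℕ → ℕ → Bool
  | [], M => decide (∀ i < n, M.testBit i = true)
  | x :: L, M => decide (x < n) && closed p x && !M.testBit x && clr n p L (M ||| ball p x)

/-- the number of direct ports of the node `i` -/
def na (p i : ℕ) : ℕ := (if isD (dg p (3 * i)) = true then 1 else 0) +
  (if isD (dg p (3 * i + 1)) = true then 1 else 0) + (if isD (dg p (3 * i + 2)) = true then 1 else 0)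

/-- the number of lonely ports of the node `i` -/
def nc (p i : ℕ) : ℕ := (if dg p (3 * i) = 1 then 1 else 0) +
  (if dg p (3 * i + 1) = 1 then 1 else 0) + (if dg p (3 * i + 2) = 1 then 1 else 0)

/-- the shared outer vertices -/
def lks (n p : ℕ) : Finset ℕ := (range (3 * n)).filter fun k => isL (dg p k) = true ∧ k < (dg p k - 3) / 2

/-- the lonely outer vertices -/
def ons (n p : ℕ) : Finset ℕ := (range (3 * n)).filter fun k => dg p k = 1

/-- the check of a piece -/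
def Pce.ok (w : TF) (P f2 f1 e2 e1 : ℕ) (q : Pce) : Prop :=
  0 < q.n ∧ full1 q.n q.p ∧ ord2 q.n q.p ∧ clr q.n q.p q.X 0 = true ∧
    P * q.X.length ≤ ∑ i ∈ range q.n, w.F (na q.p i) (nc q.p i) + q.δ ∧
    q.δ ≤ f2 * (lks q.n q.p).card + f1 * (ons q.n q.p).card ∧ q.δ ≤ e2 ∧
    ((ons q.n q.p).card = 0 ∨ q.δ ≤ e1)

instance (w : TF) (P f2 f1 e2 e1 : ℕ) (q : Pce) : Decidable (q.ok w P f2 f1 e2 e1) := by
  unfold Pce.ok; infer_instance

/-- the neighbours outside are shared or lonely -/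
theorem Emb.port1 {E : Finset V} {n p : ℕ} {φ ν : ℕ → V}
    (h : Emb G E n p φ ν) (hp : full1 n p) {k : ℕ} (hk : k < 3 * n) (hν : ν k ∉ E) :
    dg p k = 1 ∨
    ∃ l, dg p k = 3 + 2 * l ∧ l < 3 * n ∧ dg p l = 3 + 2 * k ∧ l / 3 ≠ k / 3 ∧ ν l = ν k := by
  have h2 := hp k hk
  rcases digit_cases (dg p k) with h0 | h1 | ⟨l, hl⟩ | ⟨l, hl⟩
  · omega
  · exact Or.inl h1
  · obtain ⟨a1, -, a3, -⟩ := h.dir k hk l hl
    exact absurd (a3 ▸ h.mem _ (by omega)) hν
  · obtain ⟨a1, a2, a3, -, a5⟩ := h.lnk k hk l hl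
    exact Or.inr ⟨l, hl, a1, a2, a3, a5⟩

/-- the port of a node of the piece to an outside vertex -/
theorem Pc.port (hG : G.IsRegularOfDegree 3) {E : Finset V} {n p : ℕ} {φ ν : ℕ → V}
    (h : Emb G E n p φ ν) (hE : ∀ x ∈ E, ∃ i < n, φ i = x) {x y : V} (hy : y ∈ E) (hxy : G.Adj x y) :
    ∃ k < 3 * n, φ (k / 3) = y ∧ ν k = x := by
  obtain ⟨i, hi, rfl⟩ := hE y hy
  obtain ⟨k, h1, h2, h3⟩ := h.surj hG hi hxy.symm
  exact ⟨k, h2, by rw [h1], h3⟩

theorem Pc.inv (hG : G.IsRegularOfDegree 3) {E : Finset V} {n p : ℕ} (hp : full1 n p)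
    (h : Pc G E n p) : Inv G E := by
  classical
  obtain ⟨φ, ν, h, hE⟩ := h
  intro x hx
  by_contra hc
  have h1 : cn G x ∩ E ⊆ G.neighborFinset x := by
    intro y hy
    rw [mem_inter, mem_cn] at hy
    rcases hy.1 with rfl | h2
    · exact absurd hy.2 hx
    · rwa [SimpleGraph.mem_neighborFinset]
  have h2 : cn G x ∩ E = G.neighborFinset x := eq_of_subset_of_card_le h1 (by rw [nbr_card hG]; omega)
  obtain ⟨y1, y2, y3, h12, h13, h23, he⟩ := card_eq_three.1 (nbr_card hG x)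
  have hm : ∀ y, G.Adj x y ↔ y = y1 ∨ y = y2 ∨ y = y3 := by
    intro y
    rw [← SimpleGraph.mem_neighborFinset, he]
    simp
  have hmE : ∀ y, G.Adj x y → y ∈ E := by
    intro y hy
    have : y ∈ cn G x ∩ E := by rw [h2, SimpleGraph.mem_neighborFinset]; exact hy
    exact (mem_inter.1 this).2
  have a1 := (hm y1).2 (Or.inl rfl)
  have a2 := (hm y2).2 (Or.inr (Or.inl rfl))
  have a3 := (hm y3).2 (Or.inr (Or.inr rfl))
  obtain ⟨k1, b1, c1, d1⟩ := Pc.port hG h hE (hmE _ a1) a1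
  obtain ⟨k2, b2, c2, d2⟩ := Pc.port hG h hE (hmE _ a2) a2
  obtain ⟨k3, b3, c3, d3⟩ := Pc.port hG h hE (hmE _ a3) a3
  -- the partner of a port is another of the three ports
  have key : ∀ k < 3 * n, ν k = x → ∃ l, dg p k = 3 + 2 * l ∧ dg p l = 3 + 2 * k ∧ l ≠ k ∧
      (l = k1 ∨ l = k2 ∨ l = k3) := by
    intro k hk hkx
    rcases h.port1 hp hk (by rw [hkx]; exact hx) with h0 | ⟨l, e1, e2, e3, e4, e5⟩
    · obtain ⟨-, g2⟩ := h.dead k hk h0
      rw [hkx] at g2
      exact absurd ((g2 y1 (hmE _ a1) a1).trans (g2 y2 (hmE _ a2) a2).symm) h12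
    refine ⟨l, e1, e3, fun e => e4 (by rw [e]), ?_⟩
    have h3 : G.Adj x (φ (l / 3)) := by
      have := (h.adj l e2).symm
      rwa [e5, hkx] at this
    have hlx : ν l = x := by rw [e5, hkx]
    have h4 : ∀ j < 3 * n, ν j = x → φ (l / 3) = φ (j / 3) → l = j := fun j hj hjx e =>
      h.pinj l e2 j hj (h.inj _ (by omega) _ (by omega) e) (by rw [hlx, hjx])
    rcases (hm _).1 h3 with e | e | e
    · exact Or.inl (h4 k1 b1 d1 (by rw [e, c1]))
    · exact Or.inr (Or.inl (h4 k2 b2 d2 (by rw [e, c2])))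
    · exact Or.inr (Or.inr (h4 k3 b3 d3 (by rw [e, c3])))
  have n12 : k1 ≠ k2 := fun e => h12 (by rw [← c1, ← c2, e])
  have n13 : k1 ≠ k3 := fun e => h13 (by rw [← c1, ← c3, e])
  have n23 : k2 ≠ k3 := fun e => h23 (by rw [← c2, ← c3, e])
  obtain ⟨l1, e1, f1, g1, o1⟩ := key k1 b1 d1
  obtain ⟨l2, e2, f2, g2, o2⟩ := key k2 b2 d2
  obtain ⟨l3, e3, f3, g3, o3⟩ := key k3 b3 d3
  rcases o1 with rfl | rfl | rfl
  · exact g1 rfl
  · rcases o3 with rfl | rfl | rfl
    · omega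
    · omega
    · exact g3 rfl
  · rcases o2 with rfl | rfl | rfl
    · omega
    · exact g2 rfl
    · omega

theorem Pc.nU_le2 (hG : G.IsRegularOfDegree 3) {E : Finset V} {n p : ℕ} (hp : full1 n p)
    (h : Pc G E n p) {x : V} (hx : x ∉ E) : nU G E x ≤ 2 :=
  (card_le_card (inter_subset_inter_right (fun _ hy =>
    mem_cn.2 (Or.inr ((SimpleGraph.mem_neighborFinset _ _ _).1 hy))))).trans (Pc.inv hG hp h x hx)

/-- a lonely port -/
theorem Emb.nU_dead {E : Finset V} {n p : ℕ} {φ ν : ℕ → V} (h : Emb G E n p φ ν) {k : ℕ}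
    (hk : k < 3 * n) (h1 : dg p k = 1) : nU G E (ν k) = 1 := by
  obtain ⟨a1, a2⟩ := h.dead k hk h1
  refine card_eq_one.2 ⟨φ (k / 3), ?_⟩
  rw [eq_singleton_iff_unique_mem]
  refine ⟨mem_inter.2 ⟨(SimpleGraph.mem_neighborFinset _ _ _).2 (h.adj k hk).symm, h.mem _ (by omega)⟩,
    fun y hy => ?_⟩
  rw [mem_inter, SimpleGraph.mem_neighborFinset] at hy
  exact a2 y hy.2 hy.1

/-- a shared port -/
theorem Emb.nU_lnk {E : Finset V} {n p : ℕ} {φ ν : ℕ → V} (h : Emb G E n p φ ν) {k l : ℕ}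
    (hk : k < 3 * n) (h1 : dg p k = 3 + 2 * l) : 2 ≤ nU G E (ν k) := by
  obtain ⟨a1, a2, a3, a4, a5⟩ := h.lnk k hk l h1
  have h3 : G.Adj (ν k) (φ (l / 3)) := by
    have := (h.adj l a1).symm
    rwa [a5] at this
  have h4 : φ (k / 3) ≠ φ (l / 3) := fun e' => a3 (h.inj _ (by omega) _ (by omega) e').symm
  have h5 : ({φ (k / 3), φ (l / 3)} : Finset V) ⊆ G.neighborFinset (ν k) ∩ E := by
    intro z hz
    rw [mem_insert, mem_singleton] at hz
    rw [mem_inter, SimpleGraph.mem_neighborFinset]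
    rcases hz with rfl | rfl
    · exact ⟨(h.adj k hk).symm, h.mem _ (by omega)⟩
    · exact ⟨h3, h.mem _ (by omega)⟩
  have h6 := card_le_card h5
  rw [card_pair h4] at h6
  exact h6

/-- an outside vertex with one neighbour in a piece is behind a lonely port -/
theorem Pc.lone (hG : G.IsRegularOfDegree 3) {E : Finset V} {n p : ℕ} (hp : full1 n p)
    (h : Pc G E n p) {x : V} (hx : x ∉ E) (h1 : nU G E x = 1) : (ons n p).card ≠ 0 := by
  obtain ⟨φ, ν, h, hE⟩ := h
  obtain ⟨y, hy, hxy⟩ := nU_ne_zero.1 (show nU G E x ≠ 0 by omega)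
  obtain ⟨k, b, c, e⟩ := Pc.port hG h hE hy hxy
  rcases h.port1 hp b (by rw [e]; exact hx) with h0 | ⟨l, e1, -⟩
  · exact (card_pos.2 ⟨k, mem_filter.2 ⟨mem_range.2 b, h0⟩⟩).ne'
  · have := h.nU_lnk b e1
    rw [e] at this
    omega

theorem Pc.con {E : Finset V} {n p : ℕ} (hn : 0 < n)
    (ho : ord2 n p) (h : Pc G E n p) : E.Nonempty ∧ Con G E := by
  obtain ⟨φ, ν, h, hE⟩ := h
  have hnear : ∀ k < 3 * n, 2 ≤ dg p k → tg (dg p k) < n ∧ φ (k / 3) ∈ B2 G (φ (tg (dg p k))) := by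
    intro k hk h2
    rcases digit_cases (dg p k) with h0 | h1 | ⟨l, hl⟩ | ⟨l, hl⟩
    · omega
    · omega
    · obtain ⟨a1, -, a3, -⟩ := h.dir k hk l hl
      rw [hl, tg_dir]
      refine ⟨by omega, mem_B2_of_adj ?_⟩
      have := h.adj k hk
      rwa [a3] at this
    · obtain ⟨a1, -, -, -, a5⟩ := h.lnk k hk l hl
      rw [hl, tg_lnk]
      refine ⟨by omega, mem_B2_of_common (h.adj k hk).symm ?_⟩
      have := (h.adj l a1).symm
      rwa [a5] at this
  refine ⟨⟨φ 0, h.mem 0 hn⟩, ?_⟩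
  -- every node is reached from the node 0
  have key : ∀ A ⊆ E, Sep G A (E \ A) → ∀ j < n, (φ j ∈ A ↔ φ 0 ∈ A) := by
    intro A hA hs j
    induction j using Nat.strongRecOn with
    | ind j ih =>
      intro hj
      rcases Nat.eq_zero_or_pos j with rfl | hj0
      · rfl
      · obtain ⟨a, ha, hge, hlt⟩ := ho j hj hj0
        obtain ⟨b1, b2⟩ := hnear (3 * j + a) (by omega) hge
        rw [show (3 * j + a) / 3 = j by omega] at b2
        rw [← ih _ hlt b1]
        have hside : ∀ {x y : V}, x ∈ A → y ∈ E → x ∈ B2 G y → y ∈ A := by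
          intro x y hx hy hxy
          by_contra hc
          exact hs x hx y (mem_sdiff.2 ⟨hy, hc⟩) hxy
        exact ⟨fun hx => hside hx (h.mem _ b1) b2, fun hx => hside hx (h.mem _ hj) (mem_B2_comm.1 b2)⟩
  intro A hA hne hs
  refine Subset.antisymm hA fun x hx => ?_
  obtain ⟨y, hy⟩ := hne
  obtain ⟨i, hi, rfl⟩ := hE y (hA hy)
  obtain ⟨j, hj, rfl⟩ := hE x hx
  rw [key A hA hs j hj, ← key A hA hs i hi]
  exact hy

theorem Emb.clr_has (hG : G.IsRegularOfDegree 3) {E : Finset V} (hI : Inv G E) {n p : ℕ} {φ ν : ℕ → V}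
    (h : Emb G E n p φ ν) (hE : ∀ x ∈ E, ∃ i < n, φ i = x) :
    ∀ (L : List ℕ) (M : ℕ) (U : Finset V), U ⊆ E → (∀ i < n, (M.testBit i = true ↔ φ i ∉ U)) →
      clr n p L M = true → Has G U L.length := by
  intro L
  induction L with
  | nil =>
    intro M U hU hM ht
    have h1 : U = ∅ := by
      rw [eq_empty_iff_forall_notMem]
      intro x hx
      obtain ⟨i, hi, rfl⟩ := hE x (hU hx)
      exact (hM i hi).1 (of_decide_eq_true ht i hi) hx
    rw [h1]
    exact Has.empty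
  | cons x L ih =>
    intro M U hU hM ht
    rw [clr, Bool.and_eq_true, Bool.and_eq_true, Bool.and_eq_true, decide_eq_true_eq,
      Bool.not_eq_true'] at ht
    obtain ⟨⟨⟨hxn, t2⟩, t3⟩, t4⟩ := ht
    have hxU : φ x ∈ U := by
      by_contra hc
      rw [(hM x hxn).2 hc] at t3
      exact absurd t3 (by simp)
    refine Has.pick hxU (ih (M ||| ball p x) (U \ B2 G (φ x)) (sdiff_subset.trans hU) ?_ t4)
    intro i hi
    rw [Nat.testBit_or, Bool.or_eq_true, hM i hi, mem_sdiff, h.mem_ball hG hI hxn t2 (h.mem i hi)]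
    constructor
    · rintro (h1 | h1)
      · exact fun h2 => h1 h2.1
      · exact fun h2 => h2.2 ⟨i, hi, rfl, h1⟩
    · intro h1
      by_cases h2 : φ i ∈ U
      · right
        by_contra h3
        refine h1 ⟨h2, ?_⟩
        rintro ⟨t, ht, he, hb⟩
        rw [h.inj t ht i hi he] at hb
        exact h3 hb
      · exact Or.inl h2

/-- the potential of a piece -/
theorem Pc.psi (hG : G.IsRegularOfDegree 3) (w : TF) {E : Finset V} {n p : ℕ} (hp : full1 n p)
    (h : Pc G E n p) : PsiT w G E = ∑ i ∈ range n, w.F (na p i) (nc p i) := by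
  classical
  obtain ⟨φ, ν, h, hE⟩ := h
  have e1 : E = (range n).image φ := by
    ext x
    rw [mem_image]
    constructor
    · intro hx
      obtain ⟨i, hi, he⟩ := hE x hx
      exact ⟨i, mem_range.2 hi, he⟩
    · rintro ⟨i, hi, rfl⟩
      exact h.mem i (mem_range.1 hi)
  have hport : ∀ k < 3 * n, (ν k ∈ E ↔ isD (dg p k) = true) := by
    intro k hk
    rw [isD_iff]
    constructor
    · intro hν
      have h3 := hp k hk
      rcases digit_cases (dg p k) with h0 | h1 | ⟨l, hl⟩ | ⟨l, hl⟩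
      · omega
      · exact absurd hν (h.dead k hk h1).1
      · exact ⟨l, hl⟩
      · exact absurd hν (h.lnk k hk l hl).2.2.2.1
    · rintro ⟨l, hl⟩
      obtain ⟨a1, -, a3, -⟩ := h.dir k hk l hl
      rw [a3]
      exact h.mem _ (by omega)
  have hlone : ∀ k < 3 * n, (ν k ∉ E ∧ nU G E (ν k) = 1 ↔ dg p k = 1) := by
    intro k hk
    constructor
    · rintro ⟨h1, h2⟩
      rcases h.port1 hp hk h1 with h3 | ⟨l, hl, -⟩
      · exact h3
      · have := h.nU_lnk hk hl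
        omega
    · intro h1
      exact ⟨(h.dead k hk h1).1, h.nU_dead hk h1⟩
  unfold PsiT
  have e2 : ∑ x ∈ E, w.F (nU G E x) (n1 G E x) = ∑ i ∈ range n, w.F (nU G E (φ i)) (n1 G E (φ i)) := by
    conv_lhs => rw [e1]
    rw [sum_image fun i hi j hj e => h.inj i (mem_range.1 hi) j (mem_range.1 hj) e, ← e1]
  rw [e2]
  refine sum_congr rfl fun i hi => ?_
  rw [mem_range] at hi
  have f1 : nU G E (φ i) = na p i := by
    unfold nU na
    rw [inter_eq_filter', h.card_filter hG hi]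
    have f : ∀ k, k < 3 * n → (if ν k ∈ E then 1 else 0) = if isD (dg p k) = true then 1 else 0 := by
      intro k hk
      simp only [hport k hk]
    rw [f _ (by omega), f _ (by omega), f _ (by omega)]
  have f2 : n1 G E (φ i) = nc p i := by
    unfold n1 nc
    rw [sdiff_eq_filter', filter_filter, h.card_filter hG hi]
    have f : ∀ k, k < 3 * n → (if ν k ∉ E ∧ nU G E (ν k) = 1 then 1 else 0) =
        if dg p k = 1 then 1 else 0 := by
      intro k hk
      simp only [hlone k hk]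
    rw [f _ (by omega), f _ (by omega), f _ (by omega)]
  rw [f1, f2]

/-- the number of outer vertices of a piece -/
theorem Pc.lks_le (hG : G.IsRegularOfDegree 3) {E : Finset V} {n p : ℕ} (hp : full1 n p)
    (h : Pc G E n p) (f2 f1 : ℕ) :
    f2 * (lks n p).card + f1 * (ons n p).card ≤ ∑ x ∈ univ \ E, ch f2 f1 (nU G E x) := by
  classical
  have hI := Pc.inv hG hp h
  have h2 := fun x => Pc.nU_le2 hG hp h (x := x)
  obtain ⟨φ, ν, h, hE⟩ := h
  have hlk : ∀ k ∈ lks n p, ∃ l, k < 3 * n ∧ dg p k = 3 + 2 * l ∧ k < l ∧ l < 3 * n ∧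
      dg p l = 3 + 2 * k ∧ l / 3 ≠ k / 3 ∧ ν k ∉ E ∧ ν l = ν k := by
    intro k hk
    rw [lks, mem_filter, mem_range, isL_iff] at hk
    obtain ⟨hk, ⟨l, hl⟩, hlt⟩ := hk
    obtain ⟨a1, a2, a3, a4, a5⟩ := h.lnk k hk l hl
    rw [hl] at hlt
    exact ⟨l, hk, hl, by omega, a1, a2, a3, a4, a5⟩
  have hinj : Set.InjOn ν (lks n p : Set ℕ) := by
    intro k hk k' hk' e
    rw [mem_coe] at hk hk'
    obtain ⟨l, b1, b2, b3, b4, b5, b6, b7, b8⟩ := hlk k hk
    obtain ⟨l', c1, c2, c3, c4, c5, c6, c7, c8⟩ := hlk k' hk'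
    have t := hI.two b7 (h.mem (k / 3) (by omega)) (h.mem (l / 3) (by omega))
      (fun e => b6 (h.inj _ (by omega) _ (by omega) e).symm) (h.adj k b1).symm
      (by have := (h.adj l b4).symm; rwa [b8] at this) (y := φ (k' / 3)) (h.mem (k' / 3) (by omega))
      (by have := (h.adj k' c1).symm; rwa [← e] at this)
    rcases t with t | t
    · exact (h.pinj k' c1 k b1 (h.inj _ (by omega) _ (by omega) t) e.symm).symm
    · have h3 : k' = l := h.pinj k' c1 l b4 (h.inj _ (by omega) _ (by omega) t) (by rw [← e, b8])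
      rw [h3, b5] at c2
      omega
  have hon : ∀ k ∈ ons n p, k < 3 * n ∧ dg p k = 1 := fun k hk => by
    rw [ons, mem_filter, mem_range] at hk
    exact hk
  have hinj1 : Set.InjOn ν (ons n p : Set ℕ) := by
    intro k hk k' hk' e
    rw [mem_coe] at hk hk'
    obtain ⟨b1, b2⟩ := hon k hk
    obtain ⟨c1, c2⟩ := hon k' hk'
    have t := (h.dead k b1 b2).2 (φ (k' / 3)) (h.mem _ (by omega))
      (by have := (h.adj k' c1).symm; rwa [← e] at this)
    exact (h.pinj k' c1 k b1 (h.inj _ (by omega) _ (by omega) t) e.symm).symm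
  have v2 : ∀ k ∈ lks n p, ν k ∈ univ \ E ∧ nU G E (ν k) = 2 := by
    intro k hk
    obtain ⟨l, b1, b2, b3, b4, b5, b6, b7, b8⟩ := hlk k hk
    have := h.nU_lnk b1 b2
    have := h2 _ b7
    exact ⟨mem_sdiff.2 ⟨mem_univ _, b7⟩, by omega⟩
  have v1 : ∀ k ∈ ons n p, ν k ∈ univ \ E ∧ nU G E (ν k) = 1 := by
    intro k hk
    obtain ⟨b1, b2⟩ := hon k hk
    exact ⟨mem_sdiff.2 ⟨mem_univ _, (h.dead k b1 b2).1⟩, h.nU_dead b1 b2⟩
  have hdis : Disjoint ((lks n p).image ν) ((ons n p).image ν) := by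
    rw [disjoint_left]
    intro x hx hx'
    obtain ⟨k, hk, rfl⟩ := mem_image.1 hx
    obtain ⟨k', hk', e⟩ := mem_image.1 hx'
    have := (v2 k hk).2
    have := (v1 k' hk').2
    rw [e] at this
    omega
  have h3 : (lks n p).image ν ∪ (ons n p).image ν ⊆ univ \ E := by
    intro x hx
    rcases mem_union.1 hx with hx | hx
    · obtain ⟨k, hk, rfl⟩ := mem_image.1 hx
      exact (v2 k hk).1
    · obtain ⟨k, hk, rfl⟩ := mem_image.1 hx
      exact (v1 k hk).1
  refine le_trans ?_ (sum_le_sum_of_subset h3)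
  rw [sum_union hdis, sum_image hinj, sum_image hinj1,
    sum_congr rfl (g := fun _ => f2) (fun k hk => by rw [(v2 k hk).2]; rfl),
    sum_congr rfl (s₁ := ons n p) (g := fun _ => f1) (fun k hk => by rw [(v1 k hk).2]; rfl),
    sum_const, sum_const, smul_eq_mul, smul_eq_mul, mul_comm f2, mul_comm f1]

/-! ### the deficits of a list of pieces -/

open scoped Classical in
/-- the deficit of a set -/
noncomputable def dOf (G : SimpleGraph V) : List Pce → Finset V → ℕ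
  | [], _ => 0
  | q :: PL, E => max (if Pc G E q.n q.p then q.δ else 0) (dOf G PL E)

theorem dOf_mem {PL : List Pce} {E : Finset V} (h : dOf G PL E ≠ 0) :
    ∃ q ∈ PL, Pc G E q.n q.p ∧ dOf G PL E = q.δ := by
  classical
  induction PL with
  | nil => exact absurd rfl h
  | cons q PL ih =>
    rw [dOf] at h ⊢
    rcases le_total (if Pc G E q.n q.p then q.δ else 0) (dOf G PL E) with h1 | h1
    · rw [max_eq_right h1] at h ⊢
      obtain ⟨q', a1, a2, a3⟩ := ih h
      exact ⟨q', List.mem_cons_of_mem _ a1, a2, a3⟩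
    · rw [max_eq_left h1] at h ⊢
      by_cases h2 : Pc G E q.n q.p
      · exact ⟨q, List.mem_cons_self .., h2, if_pos h2⟩
      · rw [if_neg h2] at h
        exact absurd rfl h

theorem le_dOf {PL : List Pce} {E : Finset V} {q : Pce} (hq : q ∈ PL) (h : Pc G E q.n q.p) :
    q.δ ≤ dOf G PL E := by
  induction PL with
  | nil => exact absurd hq (List.not_mem_nil)
  | cons q' PL ih =>
    rw [dOf]
    rcases List.mem_cons.1 hq with rfl | hq
    · rw [if_pos h]
      exact le_max_left _ _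
    · exact (ih hq).trans (le_max_right _ _)

section

variable {w : TF} {P f2 f1 e2 e1 : ℕ} {PL : List Pce}

theorem dOf_con (hok : ∀ q ∈ PL, q.ok w P f2 f1 e2 e1) (E : Finset V) (h : dOf G PL E ≠ 0) :
    E.Nonempty ∧ Con G E := by
  obtain ⟨q, hq, h1, -⟩ := dOf_mem h
  obtain ⟨a1, a2, a3, -⟩ := hok q hq
  exact Pc.con a1 a3 h1

theorem dOf_has (hG : G.IsRegularOfDegree 3) (hok : ∀ q ∈ PL, q.ok w P f2 f1 e2 e1) (E : Finset V)
    (h : dOf G PL E ≠ 0) : ∃ t, Has G E t ∧ P * t ≤ PsiT w G E + dOf G PL E := by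
  obtain ⟨q, hq, h1, h2⟩ := dOf_mem h
  obtain ⟨a1, a2, a3, a4, a5, -⟩ := hok q hq
  refine ⟨q.X.length, ?_, ?_⟩
  · have hI := Pc.inv hG a2 h1
    obtain ⟨φ, ν, h3, hE⟩ := h1
    exact h3.clr_has hG hI hE q.X 0 E (Subset.refl _) (fun i hi => by
      rw [Nat.zero_testBit]
      constructor
      · intro e; exact absurd e (by simp)
      · intro e; exact absurd (h3.mem i hi) e) a4
  · rw [Pc.psi hG w a2 h1, h2]
    exact a5

theorem dOf_ok (hG : G.IsRegularOfDegree 3) (hok : ∀ q ∈ PL, q.ok w P f2 f1 e2 e1) :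
    DefOK G (dOf G PL) e2 e1 := by
  refine ⟨fun C p _ _ => ?_, fun C p hp h1 => ?_⟩
  · by_cases h : dOf G PL C = 0
    · rw [h]; exact Nat.zero_le _
    · obtain ⟨q, hq, -, h2⟩ := dOf_mem h
      rw [h2]
      exact (hok q hq).2.2.2.2.2.2.1
  · by_cases h : dOf G PL C = 0
    · rw [h]; exact Nat.zero_le _
    · obtain ⟨q, hq, h3, h2⟩ := dOf_mem h
      rw [h2]
      rcases (hok q hq).2.2.2.2.2.2.2 with h4 | h4
      · exact absurd h4 (Pc.lone hG (hok q hq).2.1 h3 hp h1)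
      · exact h4

theorem dOf_out (hG : G.IsRegularOfDegree 3) (hok : ∀ q ∈ PL, q.ok w P f2 f1 e2 e1) (C : Finset V) :
    dOf G PL C ≤ ∑ p ∈ univ \ C, ch f2 f1 (nU G C p) := by
  by_cases h : dOf G PL C = 0
  · rw [h]; exact Nat.zero_le _
  · obtain ⟨q, hq, h1, h2⟩ := dOf_mem h
    obtain ⟨-, a2, -, -, -, a6, -⟩ := hok q hq
    rw [h2]
    exact a6.trans (Pc.lks_le hG a2 h1 f2 f1)

/-- a clean set contains no piece -/
theorem clean_no {U E : Finset V} (hc : ∀ E ⊆ U, dOf G PL E = 0) (hE : E ⊆ U) {q : Pce} (hq : q ∈ PL)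
    (hδ : 0 < q.δ) : ¬ Pc G E q.n q.p := by
  intro h
  have h1 := le_dOf (G := G) hq h
  rw [hc E hE] at h1
  omega

/-- **the packing bound from the two kinds of trees** -/
theorem packingP (hG : G.IsRegularOfDegree 3) [Nonempty V] (Ψc : Finset V → ℕ) (K : ℕ)
    (hK : 0 < K) (hok : ∀ q ∈ PL, q.ok w (14 * K) f2 f1 e2 e1) {p2 p1 κ : ℕ} (hκ : 6 * κ ≤ 9 * K)
    (hF : ∀ a c, a + c ≤ 3 → w.F a c ≤ 3 * K + (3 - a - c) * p2 + c * p1)
    (h2 : 2 * p2 + f2 ≤ 3 * K + κ) (h1 : p1 + f1 ≤ 3 * K + κ)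
    (hle : ∀ U : Finset V, Inv G U → (∀ E ⊆ U, dOf G PL E = 0) → Ψc U ≤ PsiT w G U)
    (hb : ∀ U : Finset V, Inv G U → U ≠ univ → U.Nonempty → (∀ E ⊆ U, dOf G PL E = 0) →
      ∃ L : List V, L ≠ [] ∧ Picks G U L ∧ Ψc (rem G U L) + 14 * K * L.length ≤ Ψc U)
    (ha : ∀ (U E : Finset V) (q : Pce), Inv G U → U ≠ univ → E ⊆ U → q ∈ PL → Pc G E q.n q.p →
      ¬ Sep G E (U \ E) → ∃ c, c ≠ 0 ∧ GoodX w (14 * K) (dOf G PL) G U c) :
    ∃ S : Finset V, Pk G S ∧ Mx G univ S ∧ 14 * S.card ≤ 3 * Fintype.card V + 11 := by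
  refine packing2 hG Ψc w K hK (dOf G PL) (f2 := f2) (f1 := f1) hκ hF h2 h1 (dOf_out hG hok) hle
    (dOf_con hok) hb (fun E _ _ => dOf_has hG hok E) ?_
  intro U E hI hU hE hd hs
  obtain ⟨q, hq, h3, -⟩ := dOf_mem hd
  obtain ⟨c, hc, X, a1, a2, a3⟩ := ha U E q hI hU hE hq h3 hs
  refine ⟨X, fun e => hc ?_, a2, a3⟩
  rw [← a1, e]
  rfl

end

end EF18
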