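import Pool.Agent.Lib.MP_ef18bd_co.P.Cmp
import Pool.Agent.Lib.MP_ef18bd_co.P.BonD
import Pool.Agent.Lib.MP_ef18bd_co.P.Pc

/-!
# The steps with the bonus for lonely outer vertices

`evsB_le`: the drop of the potential with `b` for every removed lonely outer vertex. `bon_core`: the numbers
of lonely outer vertices before and after the step.
-/

namespace EF18

open Finset

variable {V : Type} [Fintype V] [DecidableEq V] {G : SimpleGraph V} [DecidableRel G.Adj]

/-- two weights with the same costs -/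
structure Pair (w w' : TF) (b : ℕ) : Prop where
  e2 : w'.h2 = w.h2
  e1 : w'.h1 = w.h1
  e0 : w'.h0 = w.h0
  F : ∀ a c, a + c ≤ 3 → w'.F a c + b * c ≤ w.F a c

theorem Pair.hh {w w' : TF} {b : ℕ} (h : Pair w w' b) (s : ℕ) : w'.hh s = w.hh s := by
  unfold TF.hh
  rw [h.e2, h.e1]

theorem Emb.evsB_le (hG : G.IsRegularOfDegree 3) {w w' : TF} {b : ℕ} (hww : Pair w w' b) (hw : w'.Pos)
    {O T TI : ℕ} (hT : TabK w' O T) (hTI : TabKI w' O TI) {U U' : Finset V} (hI : Inv G U)
    (hI' : Inv G U') (hs : U' ⊆ U) {n p M IN : ℕ} {φ ν : ℕ → V} (h : Emb G U n p φ ν)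
    (hM : ∀ i < n, (M.testBit i = true ↔ φ i ∉ U'))
    (hin : ∀ i < n, IN.testBit i = true → ∀ y, G.Adj (φ i) y → y ∉ U') :
    PsiT w G U' + (evs T TI n p M IN + b * ∑ z ∈ U \ U', n1 G U z) ≤ PsiT w G U + O * cnt n M := by
  classical
  obtain ⟨A, hA⟩ : ∃ A, A = (range n).filter (fun i => M.testBit i = true) := ⟨_, rfl⟩
  have mA : ∀ i, i ∈ A ↔ i < n ∧ M.testBit i = true := fun i => by rw [hA, mem_filter, mem_range]
  have injA : ∀ i ∈ A, ∀ j ∈ A, φ i = φ j → i = j := fun i hi j hj e =>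
    h.inj i ((mA i).1 hi).1 j ((mA j).1 hj).1 e
  have hsub : A.image φ ⊆ U \ U' := by
    intro y hy
    obtain ⟨i, hi, rfl⟩ := mem_image.1 hy
    obtain ⟨h1, h2⟩ := (mA i).1 hi
    exact mem_sdiff.2 ⟨h.mem i h1, (hM i h1).1 h2⟩
  have h1 := drop_typ w hG hs hI' (empty_subset U') (fun _ => 0) (fun _ => 0)
    (fun x hx => absurd hx (notMem_empty x))
  simp only [sum_empty, add_zero] at h1
  rw [← sum_sdiff hsub, ← sum_sdiff (s₁ := A.image φ) (s₂ := U \ U') hsub, sum_image injA,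
    sum_image injA] at h1
  rw [← sum_sdiff (s₁ := A.image φ) (s₂ := U \ U') (f := fun z => n1 G U z) hsub, sum_image injA]
  have h2 : ∑ z ∈ (U \ U') \ A.image φ, (((G.neighborFinset z ∩ (U' \ ∅)).card * w.hh (nU G U' z) +
      ((G.neighborFinset z \ U).filter fun p => (G.neighborFinset p ∩ (U' \ ∅)).Nonempty).card * w.h0) +
      b * n1 G U z) ≤
      ∑ z ∈ (U \ U') \ A.image φ, w.F (nU G U z) (n1 G U z) := by
    refine sum_le_sum fun z hz => ?_
    obtain ⟨hz1, -⟩ := mem_sdiff.1 hz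
    obtain ⟨hzU, hzU'⟩ := mem_sdiff.1 hz1
    rw [sdiff_empty]
    have e1 : (G.neighborFinset z ∩ U').card = nU G U' z := rfl
    rw [e1, ← hww.hh, ← hww.e0]
    refine le_trans (Nat.add_le_add_right ?_ _) (hww.F _ _ (typ_le hG hI hzU))
    refine hw.pos _ _ _ _ (card_le_card (inter_subset_inter_left hs)) ?_ ?_
    · exact (card_le_card (inter_subset_inter_right (fun y hy => mem_cn.2 (Or.inr
        ((SimpleGraph.mem_neighborFinset _ _ _).1 hy))))).trans (hI' z hzU')
    · have e2 : nU G U z + (G.neighborFinset z \ U).card = 3 := by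
        rw [← nbr_card hG z]
        exact card_inter_add_card_sdiff _ _
      have e3 : n1 G U z + ((G.neighborFinset z \ U).filter
          fun p => (G.neighborFinset p ∩ U').Nonempty).card ≤ (G.neighborFinset z \ U).card := by
        unfold n1
        rw [← card_union_of_disjoint]
        · exact card_le_card (union_subset (filter_subset _ _) (filter_subset _ _))
        · rw [disjoint_left]
          intro q hq hq'
          rw [mem_filter] at hq hq'
          obtain ⟨a, ha⟩ := card_eq_one.1 hq.2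
          obtain ⟨y, hy⟩ := hq'.2
          have m1 : z ∈ G.neighborFinset q ∩ U := mem_inter.2
            ⟨(SimpleGraph.mem_neighborFinset _ _ _).2 ((SimpleGraph.mem_neighborFinset _ _ _).1
              (mem_sdiff.1 hq.1).1).symm, hzU⟩
          have m2 : y ∈ G.neighborFinset q ∩ U := mem_inter.2 ⟨(mem_inter.1 hy).1, hs (mem_inter.1 hy).2⟩
          rw [ha, mem_singleton] at m1 m2
          rw [m2, ← m1] at hy
          exact hzU' (mem_inter.1 hy).2
      omega
  have h3 := sum_le_sum (s := A) (f := fun i => (bif tb IN i then kval TI p M 0 i else kval T p M 0 i) +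
      (((G.neighborFinset (φ i) ∩ (U' \ ∅)).card * w.hh (nU G U' (φ i)) +
      ((G.neighborFinset (φ i) \ U).filter
        fun q => (G.neighborFinset q ∩ (U' \ ∅)).Nonempty).card * w.h0) + b * n1 G U (φ i)))
      (g := fun i => w.F (nU G U (φ i)) (n1 G U (φ i)) + O) fun i hi => by
    obtain ⟨i1, i2⟩ := (mA i).1 hi
    have i3 := (hM i i1).1 i2
    have i4 := hww.F _ _ (typ_le hG hI (h.mem i i1))
    have i5 : (bif tb IN i then kval TI p M 0 i else kval T p M 0 i) +
        ((G.neighborFinset (φ i) ∩ (U' \ ∅)).card * w'.hh (nU G U' (φ i)) +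
        ((G.neighborFinset (φ i) \ U).filter
          fun q => (G.neighborFinset q ∩ (U' \ ∅)).Nonempty).card * w'.h0) ≤
        w'.F (nU G U (φ i)) (n1 G U (φ i)) + O := by
      rw [tb_eq]
      cases hb : IN.testBit i
      · rw [cond_false]
        exact h.kval_le hG hT hI hs hM (E := 0) (EE := ∅) (fun i _ h0 => by
          rw [Nat.zero_testBit] at h0
          exact absurd h0 (by simp)) i1 i3
      · rw [cond_true]
        exact h.kvalI_le hG hTI hI hs hM i1 i3 (hin i i1 hb)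
    rw [hww.hh, hww.e0] at i5
    omega
  have h4 : evs T TI n p M IN = ∑ i ∈ A, (bif tb IN i then kval TI p M 0 i else kval T p M 0 i) := by
    unfold evs
    rw [sm_eq, hA, sum_filter]
    refine sum_congr rfl fun i _ => ?_
    rw [tb_eq M]
    cases M.testBit i <;> simp
  have h5 : cnt n M = A.card := by
    unfold cnt
    rw [sm_eq, hA, Finset.card_filter]
    refine sum_congr rfl fun i _ => ?_
    rw [tb_eq M]
    cases M.testBit i <;> simp
  rw [h4, h5]
  simp only [sum_add_distrib, sum_const, smul_eq_mul, ← mul_sum] at h1 h2 h3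
  rw [mul_comm O, mul_add]
  omega

/-! ### lonely outer vertices at nodes -/

theorem dn_eq (p i : ℕ) : dn p i = (bif Nat.beq (dg p (3 * i)) 1 then 1 else 0) +
    (bif Nat.beq (dg p (3 * i + 1)) 1 then 1 else 0) + (bif Nat.beq (dg p (3 * i + 2)) 1 then 1 else 0) := by
  unfold dn
  rw [frc_eq]
  rfl

theorem Emb.n1_ports (hG : G.IsRegularOfDegree 3) {U U' : Finset V} {n p : ℕ} {φ ν : ℕ → V}
    (h : Emb G U n p φ ν) {i : ℕ} (hi : i < n) :
    n1 G U' (φ i) = (if ν (3 * i) ∉ U' ∧ nU G U' (ν (3 * i)) = 1 then 1 else 0) +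
      (if ν (3 * i + 1) ∉ U' ∧ nU G U' (ν (3 * i + 1)) = 1 then 1 else 0) +
      (if ν (3 * i + 2) ∉ U' ∧ nU G U' (ν (3 * i + 2)) = 1 then 1 else 0) := by
  unfold n1
  rw [sdiff_eq_filter', filter_filter, h.card_filter hG hi]

theorem Emb.dn_le (hG : G.IsRegularOfDegree 3) {U : Finset V} {n p : ℕ} {φ ν : ℕ → V}
    (h : Emb G U n p φ ν) {i : ℕ} (hi : i < n) : dn p i ≤ n1 G U (φ i) := by
  rw [dn_eq, h.n1_ports hG hi]
  have key : ∀ k, k / 3 = i → (bif Nat.beq (dg p k) 1 then 1 else 0) ≤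
      if ν k ∉ U ∧ nU G U (ν k) = 1 then 1 else 0 := by
    intro k hk
    by_cases h1 : dg p k = 1
    · rw [if_pos (nU_one_of_dead h (by omega) h1), h1]
      exact le_rfl
    · rw [show Nat.beq (dg p k) 1 = false by
        rw [← Bool.not_eq_true]; exact fun e => h1 (Nat.eq_of_beq_eq_true e), cond_false]
      exact Nat.zero_le _
  have k0 := key (3 * i) (by omega)
  have k1 := key (3 * i + 1) (by omega)
  have k2 := key (3 * i + 2) (by omega)
  omega

theorem Emb.dn_full (hG : G.IsRegularOfDegree 3) {U : Finset V} {n p : ℕ} {φ ν : ℕ → V}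
    (h : Emb G U n p φ ν) {i : ℕ} (hi : i < n) (hf : full p i = true) : n1 G U (φ i) ≤ dn p i := by
  rw [dn_eq, h.n1_ports hG hi]
  have key : ∀ k, k / 3 = i → (if ν k ∉ U ∧ nU G U (ν k) = 1 then 1 else 0) ≤
      (bif Nat.beq (dg p k) 1 then 1 else 0) := by
    intro k hk
    have hkn : k < 3 * n := by omega
    split_ifs with h1
    · rcases digit_cases (dg p k) with h0 | h0 | ⟨l, hl⟩ | ⟨l, hl⟩
      · exact absurd h0 (full_iff.1 hf k hk)
      · rw [h0]
        exact le_rfl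
      · obtain ⟨a1, -, a3, -⟩ := h.dir k hkn l hl
        exact absurd (a3 ▸ h.mem _ (by omega)) h1.1
      · have := h.nU_lnk hkn hl
        omega
    · exact Nat.zero_le _
  have k0 := key (3 * i) (by omega)
  have k1 := key (3 * i + 1) (by omega)
  have k2 := key (3 * i + 2) (by omega)
  omega

/-- the surviving neighbours of a full node are known -/
theorem Emb.nU_full (hG : G.IsRegularOfDegree 3) {U U' : Finset V} (hs : U' ⊆ U) {n p M : ℕ}
    {φ ν : ℕ → V} (h : Emb G U n p φ ν) (hM : ∀ i < n, (M.testBit i = true ↔ φ i ∉ U')) {j : ℕ}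
    (hj : j < n) (hf : full p j = true) : nU G U' (φ j) = sdn p M j := by
  refine le_antisymm ?_ (h.sdn_le hG hM hj)
  have key : ∀ k, k / 3 = j → (if ν k ∈ U' then 1 else 0) ≤ sdp M (dg p k) := by
    intro k hk
    have hkn : k < 3 * n := by omega
    split_ifs with h1
    · rcases digit_cases (dg p k) with h0 | h0 | ⟨l, hl⟩ | ⟨l, hl⟩
      · exact absurd h0 (full_iff.1 hf k hk)
      · exact absurd (hs h1) (h.dead k hkn h0).1
      · obtain ⟨a1, -, a3, -⟩ := h.dir k hkn l hl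
        rw [hl, sdp_dir fun hb => (hM _ (by omega)).1 hb (a3 ▸ h1)]
      · exact absurd (hs h1) (h.lnk k hkn l hl).2.2.2.1
    · exact Nat.zero_le _
  have e1 : nU G U' (φ j) = (if ν (3 * j) ∈ U' then 1 else 0) + (if ν (3 * j + 1) ∈ U' then 1 else 0) +
      (if ν (3 * j + 2) ∈ U' then 1 else 0) := by
    unfold nU
    rw [inter_eq_filter', h.card_filter hG hj]
  have k0 := key (3 * j) (by omega)
  have k1 := key (3 * j + 1) (by omega)
  have k2 := key (3 * j + 2) (by omega)
  rw [e1]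
  unfold sdn
  change _ ≤ sdp M (dg p (3 * j)) + sdp M (dg p (3 * j + 1)) + sdp M (dg p (3 * j + 2))
  omega

/-- a new lonely outer vertex behind a port of a survivor -/
def exd (p M d : ℕ) : ℕ :=
  bif Nat.ble 2 d && tb M (tg d) && (Nat.beq (Nat.mod d 2) 1 ||
    (full p (tg d) && Nat.beq (sdn p M (tg d)) 1)) then 1 else 0

/-- the number of them -/
def exn (p M i : ℕ) : ℕ :=
  frc (Nat.mul 3 i) fun k => Nat.add (Nat.add (exd p M (dg p k)) (exd p M (dg p (Nat.add k 1))))
    (exd p M (dg p (Nat.add k 2)))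

theorem exd_pos {p M d : ℕ} (h : exd p M d ≠ 0) : exd p M d = 1 ∧ ((∃ l, d = 2 + 2 * l ∧
    M.testBit (l / 3) = true ∧ full p (l / 3) = true ∧ sdn p M (l / 3) = 1) ∨
    ∃ l, d = 3 + 2 * l ∧ M.testBit (l / 3) = true) := by
  unfold exd at h ⊢
  cases h1 : Nat.ble 2 d && tb M (tg d) && (Nat.beq (Nat.mod d 2) 1 ||
    (full p (tg d) && Nat.beq (sdn p M (tg d)) 1))
  · rw [h1] at h
    exact absurd rfl h
  refine ⟨rfl, ?_⟩
  rw [Bool.and_eq_true, Bool.and_eq_true, Nat.ble_eq, Bool.or_eq_true, Bool.and_eq_true] at h1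
  obtain ⟨⟨h2, h3⟩, h4⟩ := h1
  rw [tb_eq] at h3
  rcases Nat.even_or_odd' d with ⟨c, hc | hc⟩
  · left
    obtain ⟨l, hl⟩ : ∃ l, d = 2 + 2 * l := ⟨c - 1, by omega⟩
    rw [hl, tg_dir] at h3 h4
    rcases h4 with h4 | ⟨h4, h5⟩
    · have : (2 + 2 * l) % 2 = 1 := Nat.eq_of_beq_eq_true h4
      omega
    · exact ⟨l, hl, h3, h4, Nat.eq_of_beq_eq_true h5⟩
  · right
    obtain ⟨l, hl⟩ : ∃ l, d = 3 + 2 * l := ⟨c - 1, by omega⟩
    rw [hl, tg_lnk] at h3
    exact ⟨l, hl, h3⟩

theorem Emb.ex_le (hG : G.IsRegularOfDegree 3) {U U' : Finset V} (hI : Inv G U) (hs : U' ⊆ U)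
    {n p M : ℕ} {φ ν : ℕ → V} (h : Emb G U n p φ ν) (hM : ∀ i < n, (M.testBit i = true ↔ φ i ∉ U'))
    {i : ℕ} (hi : i < n) (hiU : φ i ∈ U') : n1 G U (φ i) + exn p M i ≤ n1 G U' (φ i) := by
  rw [h.n1_ports hG (U' := U) hi, h.n1_ports hG (U' := U') hi]
  have key : ∀ k, k / 3 = i → (if ν k ∉ U ∧ nU G U (ν k) = 1 then 1 else 0) + exd p M (dg p k) ≤
      if ν k ∉ U' ∧ nU G U' (ν k) = 1 then 1 else 0 := by
    intro k hk
    have hkn : k < 3 * n := by omega
    have hadj := h.adj k hkn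
    rw [hk] at hadj
    by_cases h0 : exd p M (dg p k) = 0
    · rw [h0, add_zero]
      split_ifs with h1 h2
      · exact le_rfl
      · refine absurd ⟨fun hc => h1.1 (hs hc), le_antisymm ?_ ?_⟩ h2
        · rw [← h1.2]
          exact card_le_card (inter_subset_inter_left hs)
        · refine card_pos.2 ⟨φ i, mem_inter.2 ⟨(SimpleGraph.mem_neighborFinset _ _ _).2 hadj.symm, hiU⟩⟩
      · exact Nat.zero_le _
      · exact le_rfl
    · obtain ⟨e1, h2⟩ := exd_pos h0
      rw [e1]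
      rcases h2 with ⟨l, hl, h3, h4, h5⟩ | ⟨l, hl, h3⟩
      · obtain ⟨a1, -, a3, -⟩ := h.dir k hkn l hl
        have b1 := (hM (l / 3) (by omega)).1 h3
        rw [if_neg (fun hc => hc.1 (a3 ▸ h.mem _ (by omega))), if_pos ⟨by rw [a3]; exact b1, by
          rw [a3, h.nU_full hG hs hM (by omega) h4, h5]⟩]
      · obtain ⟨a1, -, a3, a4, a5⟩ := h.lnk k hkn l hl
        have b1 := (hM (l / 3) (by omega)).1 h3
        have b2 := h.nU_lnk hkn hl
        have c0 : nU G U' (ν k) = 1 := by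
          refine card_eq_one.2 ⟨φ i, ?_⟩
          rw [eq_singleton_iff_unique_mem]
          refine ⟨mem_inter.2 ⟨(SimpleGraph.mem_neighborFinset _ _ _).2 hadj.symm, hiU⟩, fun y hy => ?_⟩
          rw [mem_inter, SimpleGraph.mem_neighborFinset] at hy
          have c1 : G.Adj (ν k) (φ (l / 3)) := by
            have := (h.adj l a1).symm
            rwa [a5] at this
          rcases hI.two a4 (h.mem i hi) (h.mem (l / 3) (by omega))
            (fun e => a3 (by rw [← h.inj _ hi _ (by omega) e, hk])) hadj.symm c1 (hs hy.2) hy.1 with e | e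
          · exact e
          · exact absurd (e ▸ hy.2) b1
        rw [if_neg (fun hc => by omega), if_pos ⟨fun hc => a4 (hs hc), c0⟩]
  have k0 := key (3 * i) (by omega)
  have k1 := key (3 * i + 1) (by omega)
  have k2 := key (3 * i + 2) (by omega)
  have e : exn p M i = exd p M (dg p (3 * i)) + exd p M (dg p (3 * i + 1)) +
      exd p M (dg p (3 * i + 2)) := by
    unfold exn
    rw [frc_eq]
    rfl
  rw [e]
  omega

/-! ### the numbers before and after -/

/-- the number of digits `1` -/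
def dnt (n p : ℕ) : ℕ := sm (fun i => dn p i) n

/-- the number of digits `1` of the removed nodes -/
def dnk (n p M : ℕ) : ℕ := sm (fun i => bif tb M i then dn p i else 0) n

theorem n1_mono {U U' : Finset V} (hs : U' ⊆ U) {x : V} (hx : x ∈ U') : n1 G U x ≤ n1 G U' x := by
  refine card_le_card fun y hy => ?_
  rw [mem_filter, mem_sdiff] at hy ⊢
  refine ⟨⟨hy.1.1, fun hc => hy.1.2 (hs hc)⟩, le_antisymm ?_ ?_⟩
  · rw [← hy.2]
    exact card_le_card (inter_subset_inter_left hs)
  · exact card_pos.2 ⟨x, mem_inter.2 ⟨(SimpleGraph.mem_neighborFinset _ _ _).2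
      ((SimpleGraph.mem_neighborFinset _ _ _).1 hy.1.1).symm, hx⟩⟩

open scoped Classical in
/-- the isolated members which are not known full nodes -/
noncomputable def isr (G : SimpleGraph V) [DecidableRel G.Adj] (U' : Finset V) (n p : ℕ) (φ : ℕ → V) :
    Finset V := (iso G U').filter fun v => ¬ ∃ i, i < n ∧ φ i = v ∧ full p i = true

theorem Emb.bon_core (hG : G.IsRegularOfDegree 3) {U U' : Finset V} (hI : Inv G U) (hs : U' ⊆ U)
    {n p M D N : ℕ} {φ ν : ℕ → V} (h : Emb G U n p φ ν)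
    (hM : ∀ i < n, (M.testBit i = true ↔ φ i ∉ U')) (hD : ∀ x ∈ U, n1 G U x ≤ D) {R : Finset ℕ}
    (hR : ∀ i ∈ R, i < n ∧ φ i ∈ U' \ iso G U') (hN : (isr G U' n p φ).card ≤ N) :
    ∃ es ek, kU G U ≤ dnt n p + D * N + es + ek ∧
      es + ∑ i ∈ R, (dn p i + exn p M i) ≤ kS G U' ∧ dnk n p M + ek ≤ ∑ z ∈ U \ U', n1 G U z := by
  classical
  have hII : iso G U' ⊆ U' := fun x hx => (mem_iso.1 hx).1
  obtain ⟨Ka, hKa⟩ : ∃ A, A = (range n).filter (fun i => M.testBit i = true) := ⟨_, rfl⟩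
  obtain ⟨S1, hS1⟩ : ∃ A, A = (range n).filter (fun i => φ i ∈ U' \ iso G U') := ⟨_, rfl⟩
  obtain ⟨S2, hS2⟩ : ∃ A, A = (range n).filter (fun i => φ i ∈ iso G U') := ⟨_, rfl⟩
  have mKa : ∀ i, i ∈ Ka ↔ i < n ∧ M.testBit i = true := fun i => by rw [hKa, mem_filter, mem_range]
  have mS1 : ∀ i, i ∈ S1 ↔ i < n ∧ φ i ∈ U' \ iso G U' := fun i => by rw [hS1, mem_filter, mem_range]
  have mS2 : ∀ i, i ∈ S2 ↔ i < n ∧ φ i ∈ iso G U' := fun i => by rw [hS2, mem_filter, mem_range]
  have inj : ∀ {A : Finset ℕ}, (∀ i ∈ A, i < n) → ∀ i ∈ A, ∀ j ∈ A, φ i = φ j → i = j :=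
    fun hA i hi j hj e => h.inj i (hA i hi) j (hA j hj) e
  have iKa := inj (A := Ka) fun i hi => ((mKa i).1 hi).1
  have iS1 := inj (A := S1) fun i hi => ((mS1 i).1 hi).1
  have iS2 := inj (A := S2) fun i hi => ((mS2 i).1 hi).1
  have iR := inj (A := R) fun i hi => (hR i hi).1
  -- removed
  have a1 : ∑ i ∈ Ka, dn p i ≤ ∑ z ∈ U \ U', n1 G U z := by
    refine (sum_le_sum fun i hi => h.dn_le hG ((mKa i).1 hi).1).trans ?_
    rw [← sum_image (f := fun z => n1 G U z) iKa]
    refine sum_le_sum_of_subset fun y hy => ?_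
    obtain ⟨i, hi, rfl⟩ := mem_image.1 hy
    obtain ⟨i1, i2⟩ := (mKa i).1 hi
    exact mem_sdiff.2 ⟨h.mem i i1, (hM i i1).1 i2⟩
  have a2 : ∑ i ∈ S1, dn p i ≤ ∑ z ∈ U' \ iso G U', n1 G U z := by
    refine (sum_le_sum fun i hi => h.dn_le hG ((mS1 i).1 hi).1).trans ?_
    rw [← sum_image (f := fun z => n1 G U z) iS1]
    refine sum_le_sum_of_subset fun y hy => ?_
    obtain ⟨i, hi, rfl⟩ := mem_image.1 hy
    exact ((mS1 i).1 hi).2
  have a3 : ∑ z ∈ iso G U', n1 G U z ≤ ∑ i ∈ S2, dn p i + D * N := by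
    rw [← sum_filter_add_sum_filter_not (iso G U') (fun v => ∃ i, i < n ∧ φ i = v ∧ full p i = true)]
    refine Nat.add_le_add ?_ ?_
    · have e : (iso G U').filter (fun v => ∃ i, i < n ∧ φ i = v ∧ full p i = true) ⊆
          (S2.filter fun i => full p i = true).image φ := by
        intro v hv
        obtain ⟨h1, i, h2, h3, h4⟩ := mem_filter.1 hv
        exact mem_image.2 ⟨i, mem_filter.2 ⟨(mS2 i).2 ⟨h2, by rw [h3]; exact h1⟩, h4⟩, h3⟩
      refine (sum_le_sum_of_subset e).trans ?_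
      rw [sum_image fun i hi j hj e => iS2 i (mem_filter.1 hi).1 j (mem_filter.1 hj).1 e]
      refine (sum_le_sum fun i hi => h.dn_full hG ((mS2 i).1 (mem_filter.1 hi).1).1
        (mem_filter.1 hi).2).trans ?_
      exact sum_le_sum_of_subset (filter_subset _ _)
    · refine (sum_le_sum fun v hv => hD v (hs (hII (mem_filter.1 hv).1))).trans ?_
      rw [sum_const, smul_eq_mul, mul_comm]
      refine Nat.mul_le_mul_left D ?_
      exact hN
  -- the total
  have a4 : kU G U = ∑ z ∈ U \ U', n1 G U z + (∑ z ∈ U' \ iso G U', n1 G U z + ∑ z ∈ iso G U', n1 G U z) := by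
    unfold kU
    rw [sum_sdiff hII, sum_sdiff hs]
  have a5 : dnt n p = ∑ i ∈ Ka, dn p i + (∑ i ∈ S1, dn p i + ∑ i ∈ S2, dn p i) := by
    unfold dnt
    have d1 : Disjoint S1 S2 := by
      rw [disjoint_left]
      intro i h1 h2
      exact (mem_sdiff.1 ((mS1 i).1 h1).2).2 ((mS2 i).1 h2).2
    have d2 : Disjoint Ka (S1 ∪ S2) := by
      rw [disjoint_left]
      intro i h1 h2
      obtain ⟨i1, i2⟩ := (mKa i).1 h1
      refine (hM i i1).1 i2 ?_
      rcases mem_union.1 h2 with h2 | h2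
      · exact (mem_sdiff.1 ((mS1 i).1 h2).2).1
      · exact hII ((mS2 i).1 h2).2
    rw [sm_eq, ← sum_union d1, ← sum_union d2]
    refine sum_congr ?_ fun _ _ => rfl
    ext i
    rw [mem_union, mem_union, mKa, mS1, mS2, mem_range, mem_sdiff]
    constructor
    · intro hi
      by_cases h1 : M.testBit i = true
      · exact Or.inl ⟨hi, h1⟩
      · right
        have h2 : φ i ∈ U' := by
          by_contra hc
          exact h1 ((hM i hi).2 hc)
        by_cases h3 : φ i ∈ iso G U'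
        · exact Or.inr ⟨hi, h3⟩
        · exact Or.inl ⟨hi, h2, h3⟩
    · rintro (h1 | h1 | h1)
      · exact h1.1
      · exact h1.1
      · exact h1.1
  have a6 : dnk n p M = ∑ i ∈ Ka, dn p i := by
    unfold dnk
    rw [sm_eq, hKa, sum_filter]
    refine sum_congr rfl fun i _ => ?_
    rw [tb_eq]
    cases M.testBit i <;> simp
  -- after the step
  have hRS : R ⊆ S1 := fun i hi => (mS1 i).2 (hR i hi)
  have a7 : ∑ i ∈ R, dn p i ≤ ∑ i ∈ S1, dn p i := sum_le_sum_of_subset hRS
  have a8 : ∑ z ∈ U' \ iso G U', n1 G U z + ∑ i ∈ R, exn p M i ≤ kS G U' := by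
    have hRi : R.image φ ⊆ U' \ iso G U' := fun y hy => by
      obtain ⟨i, hi, rfl⟩ := mem_image.1 hy
      exact (hR i hi).2
    unfold kS
    rw [← sum_sdiff hRi, ← sum_sdiff (f := fun x => n1 G U' x) hRi, sum_image iR, sum_image iR, add_assoc,
      ← sum_add_distrib]
    refine Nat.add_le_add (sum_le_sum fun x hx => n1_mono hs ?_) (sum_le_sum fun i hi => ?_)
    · exact (mem_sdiff.1 (mem_sdiff.1 hx).1).1
    · obtain ⟨i1, i2⟩ := hR i hi
      exact h.ex_le hG hI hs hM i1 (mem_sdiff.1 i2).1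
  refine ⟨∑ z ∈ U' \ iso G U', n1 G U z - ∑ i ∈ S1, dn p i, ∑ z ∈ U \ U', n1 G U z - ∑ i ∈ Ka, dn p i,
    ?_, ?_, ?_⟩
  · rw [a4, a5]
    omega
  · rw [sum_add_distrib]
    omega
  · rw [a6]
    omega

/-! ### the arithmetic -/

theorem good_arith {D b Ps' Ps OC E Z kk ek es k kt ka kS PC dl NI ic : ℕ}
    (ha : Ps' + (E + b * Z) ≤ Ps + OC) (hb : kk + ek ≤ Z) (hc : k ≤ kt + es + ek) (hd : es + ka ≤ kS)
    (he : ic ≤ NI) (h0 : D = 0 → k = 0)
    (hf : PC + OC + dl * NI + b * min kt 2 ≤ E + b * (kk + min (if D = 0 then ka else min ka kt) 2)) :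
    Ps' + dl * ic + PC + b * min k 2 ≤ Ps + b * min kS 2 := by
  have h1 := Nat.mul_le_mul_left dl he
  have h2 := Nat.mul_le_mul_left b hb
  rw [mul_add] at h2 hf
  by_cases hD : D = 0
  · rw [if_pos hD] at hf
    rw [h0 hD]
    have h3 := Nat.mul_le_mul_left b (show min ka 2 ≤ min kS 2 by omega)
    have h4 : b * min 0 2 = 0 := by simp
    have h5 : 0 ≤ b * ek := Nat.zero_le _
    have h6 : 0 ≤ b * min kt 2 := Nat.zero_le _
    omega
  · rw [if_neg hD] at hf
    have h3 := Nat.mul_le_mul_left b (show min k 2 + min (min ka kt) 2 ≤ min kt 2 + min kS 2 + ek by omega)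
    rw [mul_add, mul_add, mul_add] at h3
    omega

/-! ### the step with all completions -/

/-- the certain lonely outer vertices after the step, all isolated members are known full nodes -/
def kaE (D n p M : ℕ) : ℕ :=
  sm (fun i => bif tb M i || (full p i && !Nat.beq (nd D p M i) 9) then 0 else Nat.add (dn p i) (exn p M i)) n

/-- the certain lonely outer vertices after the step -/
def kaW (D n p M : ℕ) : ℕ :=
  sm (fun i => bif tb M i || !Nat.beq (nd D p M i) 9 then 0 else Nat.add (dn p i) (exn p M i)) n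

/-- the bonus after the step -/
def bon (D ka kt : ℕ) : ℕ := mn (bif Nat.beq D 0 then ka else mn ka kt) 2

theorem bon_eq (D ka kt : ℕ) : bon D ka kt = min (if D = 0 then ka else min ka kt) 2 := by
  unfold bon
  rw [mn_eq, mn_eq]
  by_cases h : D = 0
  · rw [h, if_pos rfl]
    rfl
  · rw [if_neg h, show Nat.beq D 0 = false by
      rw [← Bool.not_eq_true]; exact fun e => h (Nat.eq_of_beq_eq_true e)]
    rfl

/-- the test and the children -/
def evbB (P O T TI D dl b n p : ℕ) (L : List ℕ) : Option (List (ℕ × ℕ)) :=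
  frc (kms p L 0) fun M => frc (ims p L 0) fun IN => frc (dnt n p) fun kt =>
    bif Nat.ble (Nat.add n 5) 40 && pks n p L 0 &&
      Nat.ble (Nat.add (Nat.add (Nat.add (Nat.mul P L.length) (Nat.mul O (cnt n M)))
        (Nat.mul dl (n00 D n p M))) (Nat.mul b (mn kt 2)))
        (Nat.add (evs T TI n p M IN) (Nat.mul b (Nat.add (dnk n p M) (bon D (kaE D n p M) kt))))
    then some (kin n p M IN n ++ (evc D L n p M n ++ cml D L n 3 (n + 1) p 200)) else none

theorem kU_zero {U : Finset V} {D : ℕ} (hD : ∀ x ∈ U, n1 G U x ≤ D) (h : D = 0) : kU G U = 0 :=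
  sum_eq_zero fun x hx => by
    have := hD x hx
    omega

/-- **the step with all completions and the bonus** -/
theorem evbB_ch (hG : G.IsRegularOfDegree 3) {w w' : TF} {b : ℕ} (hww : Pair w w' b) (hw : w'.Pos)
    {P O T TI D dl : ℕ} (hT : TabK w' O T) (hTI : TabKI w' O TI) {U : Finset V} (hI : Inv G U)
    (hD : ∀ x ∈ U, n1 G U x ≤ D) (hiso : iso G U = ∅) {n p : ℕ} {L : List ℕ} {R : List (ℕ × ℕ)}
    (hR : evbB P O T TI D dl b n p L = some R) {φ ν : ℕ → V} (h : Emb G U n p φ ν) :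
    GoodB w dl P b G U L.length ∨ ∃ q ∈ R, Ch G U n φ q := by
  classical
  unfold evbB at hR
  rw [frc_eq, frc_eq, frc_eq] at hR
  cases hc : Nat.ble (Nat.add n 5) 40 && pks n p L 0 &&
      Nat.ble (Nat.add (Nat.add (Nat.add (Nat.mul P L.length) (Nat.mul O (cnt n (kms p L 0))))
        (Nat.mul dl (n00 D n p (kms p L 0)))) (Nat.mul b (mn (dnt n p) 2)))
        (Nat.add (evs T TI n p (kms p L 0) (ims p L 0)) (Nat.mul b (Nat.add (dnk n p (kms p L 0))
          (bon D (kaE D n p (kms p L 0)) (dnt n p)))))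
  · rw [hc, cond_false] at hR
    exact absurd hR (by simp)
  rw [hc, cond_true, Option.some.injEq] at hR
  simp only [Bool.and_eq_true] at hc
  obtain ⟨⟨c1, c2⟩, c3⟩ := hc
  have hn : n + 5 ≤ 40 := Nat.le_of_ble_eq_true c1
  have hL := pks_of c2
  have hc3 := Nat.le_of_ble_eq_true c3
  rw [← hR]
  rcases h.stn_or hG hI (by omega) hL with ⟨q, h1, h2⟩ | hS
  · exact Or.inr ⟨q, List.mem_append_left _ h1, h2⟩
  by_cases hno : ∃ q ∈ evc D L n p (kms p L 0) n ++ cml D L n 3 (n + 1) p 200, Ch G U n φ q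
  · obtain ⟨q, h1, h2⟩ := hno
    exact Or.inr ⟨q, List.mem_append_right _ h1, h2⟩
  left
  have hP := h.pks_picks hG hI (L := L) [] c2 trivial (fun y hy => absurd hy List.not_mem_nil)
  rw [List.nil_append] at hP
  refine ⟨L.map φ, List.length_map _, hP, ?_⟩
  have h1 := h.evsB_le hG hww hw hT hTI hI (hI.rem hG) rem_subset hS.msk
    (fun i hi hb => (hS.inn i hi hb).2)
  have key : ∀ v ∈ iso G (rem G U (L.map φ)), ∃ i < n, φ i = v ∧
      (kms p L 0).testBit i ≠ true ∧ full p i = true ∧ nd D p (kms p L 0) i ≠ 9 := fun v hv =>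
    (h.iso_or hG hI hn hL hS hD hv (by rw [hiso]; exact notMem_empty _)).resolve_left hno
  have h2 : (iso G (rem G U (L.map φ))).card ≤ n00 D n p (kms p L 0) := by
    rw [n00_eq]
    choose! f hf using key
    refine card_le_card_of_injOn f (fun v hv => ?_) fun v hv v' hv' e => ?_
    · obtain ⟨a1, a2, a3, a4, a5⟩ := hf v hv
      rw [mem_coe, mem_filter, mem_range]
      exact ⟨a1, a3, a4, a5⟩
    · rw [← (hf v hv).2.1, ← (hf v' hv').2.1, e]
  obtain ⟨R', hR'⟩ : ∃ A, A = (range n).filter (fun i => (kms p L 0).testBit i ≠ true ∧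
    ¬ (full p i = true ∧ nd D p (kms p L 0) i ≠ 9)) := ⟨_, rfl⟩
  have hN : (isr G (rem G U (L.map φ)) n p φ).card ≤ 0 := by
    rw [Nat.le_zero, card_eq_zero, eq_empty_iff_forall_notMem]
    intro v hv
    obtain ⟨h3, h4⟩ := mem_filter.1 hv
    obtain ⟨i, a1, a2, -, a4, -⟩ := key v h3
    exact h4 ⟨i, a1, a2, a4⟩
  obtain ⟨es, ek, k1, k2, k3⟩ := h.bon_core hG hI rem_subset hS.msk hD (R := R') (fun i hi => by
    rw [hR', mem_filter, mem_range] at hi
    obtain ⟨i1, i2, i3⟩ := hi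
    refine ⟨i1, mem_sdiff.2 ⟨?_, fun hc => ?_⟩⟩
    · by_contra hc
      exact i2 ((hS.msk i i1).2 hc)
    · obtain ⟨j, a1, a2, -, a4, a5⟩ := key _ hc
      rw [h.inj j a1 i i1 a2] at a4 a5
      exact i3 ⟨a4, a5⟩) hN
  rw [mul_zero, add_zero] at k1
  have h3 : kaE D n p (kms p L 0) = ∑ i ∈ R', (dn p i + exn p (kms p L 0) i) := by
    unfold kaE
    rw [sm_eq, hR', sum_filter]
    refine sum_congr rfl fun i _ => ?_
    by_cases h1 : (kms p L 0).testBit i = true
    · rw [tb_eq, h1, if_neg (fun h => h.1 rfl)]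
      rfl
    · rw [tb_false h1]
      by_cases h2 : full p i = true
      · rw [h2]
        by_cases h3 : nd D p (kms p L 0) i = 9
        · rw [h3, if_pos ⟨h1, fun h => h.2 rfl⟩]
          rfl
        · rw [if_neg (fun h => h.2 ⟨rfl, h3⟩), show Nat.beq (nd D p (kms p L 0) i) 9 = false by
            rw [← Bool.not_eq_true]; exact fun e => h3 (Nat.eq_of_beq_eq_true e)]
          rfl
      · rw [show full p i = false from Bool.not_eq_true _ ▸ h2,
          if_pos ⟨h1, fun h => absurd h.1 (by simp)⟩]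
        rfl
  rw [← h3] at k2
  rw [PsiT_iso, PsiT_iso, List.length_map]
  unfold PsiI
  rw [hiso, card_empty, mul_zero, add_zero]
  have h4 : P * L.length + O * cnt n (kms p L 0) + dl * n00 D n p (kms p L 0) + b * mn (dnt n p) 2 ≤
      evs T TI n p (kms p L 0) (ims p L 0) + b * (dnk n p (kms p L 0) +
        bon D (kaE D n p (kms p L 0)) (dnt n p)) := hc3
  rw [mn_eq, bon_eq] at h4
  exact good_arith h1 k3 k1 k2 h2 (kU_zero hD) h4

/-! ### the step with the worst case for isolated vertices -/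

/-- the known survivors with an open port which need no attachment -/
def ndr (D n p M : ℕ) : ℕ :=
  sm (fun i => bif tb M i || full p i || !Nat.beq (nd D p M i) 0 then 0 else 1) n

theorem ndr_eq (D n p M : ℕ) : ndr D n p M =
    ((range n).filter fun i => M.testBit i ≠ true ∧ full p i ≠ true ∧ nd D p M i = 0).card := by
  unfold ndr
  rw [sm_eq, Finset.card_filter]
  refine sum_congr rfl fun i _ => ?_
  by_cases h1 : M.testBit i = true
  · rw [tb_eq, h1, if_neg (fun h => h.1 rfl)]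
    rfl
  · rw [tb_false h1]
    by_cases h2 : full p i = true
    · rw [h2, if_neg (fun h => h.2.1 rfl)]
      rfl
    · rw [show full p i = false from Bool.not_eq_true _ ▸ h2]
      by_cases h3 : nd D p M i = 0
      · rw [h3, if_pos ⟨h1, by simp, rfl⟩]
        rfl
      · rw [if_neg (fun h => h3 h.2.2), show Nat.beq (nd D p M i) 0 = false by
          rw [← Bool.not_eq_true]; exact fun e => h3 (Nat.eq_of_beq_eq_true e)]
        rfl

theorem Emb.isr_le (hG : G.IsRegularOfDegree 3) {U U' : Finset V} (hI : Inv G U) {n p M IN D : ℕ}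
    {φ ν : ℕ → V} (h : Emb G U n p φ ν) (hS : Stn G U U' n p M IN φ ν) (hD : ∀ x ∈ U, n1 G U x ≤ D)
    (hiso : iso G U = ∅) :
    (isr G U' n p φ).card ≤ ndr D n p M + xN D n p M (opm2 n p M IN) := by
  classical
  obtain ⟨S, hSS⟩ : ∃ S, S = isr G U' n p φ := ⟨_, rfl⟩
  have mS : ∀ v, v ∈ S ↔ v ∈ iso G U' ∧ ¬ ∃ i, i < n ∧ φ i = v ∧ full p i = true := fun v => by
    rw [hSS]
    unfold isr
    rw [mem_filter]
  rw [← hSS]
  have hni : ∀ v, v ∉ iso G U := fun v => by rw [hiso]; exact notMem_empty _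
  -- the needs
  obtain ⟨g, hg⟩ : ∃ g : V → ℕ, (∀ v ∈ S, g v ≤ (ays G U n p M IN φ ν v).card) ∧
      ∀ v ∈ S, (∃ i < n, φ i = v ∧ M.testBit i ≠ true ∧ full p i ≠ true ∧ g v = nd D p M i) ∨
        g v = if 2 ≤ D then 1 else 3 - D := by
    refine ⟨fun v => if hv : ∃ i, i < n ∧ φ i = v then nd D p M (Classical.choose hv) else
      if 2 ≤ D then 1 else 3 - D, fun v hv => ?_, fun v hv => ?_⟩
    · obtain ⟨hv1, hv2⟩ := (mS v).1 hv
      have hvU := hS.sub ((iso_nbr hG).1 hv1).1
      beta_reduce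
      by_cases hx : ∃ i, i < n ∧ φ i = v
      · rw [dif_pos hx]
        obtain ⟨i1, i2⟩ := Classical.choose_spec hx
        generalize Classical.choose hx = i at *
        subst i2
        refine (h.nd_le hG hS.sub hS.msk i1 hv1 (hni _) (hD _ hvU)).trans (card_le_card fun y hy => ?_)
        obtain ⟨hy, hno, κ, hκn, hκi, hκ0, rfl⟩ := mem_fro.1 hy
        exact mem_ays.2 ⟨hy, h.chg_in hG hI hS i1 hv1 hκn hκi hκ0 hno⟩
      · rw [dif_neg hx]
        push Not at hx
        refine (need_le hG hvU (hni _) (hD _ hvU)).trans (card_le_card fun y hy => ?_)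
        unfold fr at hy
        rw [mem_filter, SimpleGraph.mem_neighborFinset] at hy
        exact mem_ays.2 ⟨hy.1, h.chg_out hG hI hS hv1 hx hy.1 hy.2⟩
    · beta_reduce
      by_cases hx : ∃ i, i < n ∧ φ i = v
      · rw [dif_pos hx]
        obtain ⟨i1, i2⟩ := Classical.choose_spec hx
        refine Or.inl ⟨_, i1, i2, fun hc => ?_, fun hc => ((mS v).1 hv).2 ⟨_, i1, i2, hc⟩, rfl⟩
        refine (hS.msk _ i1).1 hc ?_
        rw [i2]
        exact ((iso_nbr hG).1 ((mS v).1 hv).1).1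
      · rw [dif_neg hx]
        exact Or.inr rfl
  obtain ⟨hg1, hg2⟩ := hg
  -- the sum of the needs
  have hA : ∑ v ∈ S, g v ≤ opm2 n p M IN :=
    (sum_le_sum hg1).trans (h.sum_ays hG hS fun v hv => ((mS v).1 hv).1)
  -- the numbers of survivors with small need
  have hcn0 : (S.filter fun v => g v = 0).card ≤ ndr D n p M := by
    rw [ndr_eq]
    have key : ∀ v ∈ S.filter (fun v => g v = 0), ∃ i < n, φ i = v ∧ M.testBit i ≠ true ∧
        full p i ≠ true ∧ nd D p M i = 0 := by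
      intro v hv
      rw [mem_filter] at hv
      rcases hg2 v hv.1 with ⟨i, i1, i2, i3, i4, i5⟩ | h2
      · exact ⟨i, i1, i2, i3, i4, i5 ▸ hv.2⟩
      · rw [hv.2] at h2
        split_ifs at h2 <;> omega
    choose! f hf using key
    refine card_le_card_of_injOn f (fun v hv => ?_) fun v hv v' hv' e => ?_
    · obtain ⟨a1, a2, a3, a4, a5⟩ := hf v hv
      rw [mem_coe, mem_filter, mem_range]
      exact ⟨a1, a3, a4, a5⟩
    · rw [← (hf v hv).2.1, ← (hf v' hv').2.1, e]
  have hcn : ∀ j, (D ≤ 1 ∧ j = 1 ∨ D = 0 ∧ j = 2) → (S.filter fun v => g v = j).card ≤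
      ndn D n p M j := by
    intro j hj
    rw [ndn_eq]
    have key : ∀ v ∈ S.filter (fun v => g v = j), ∃ i < n, φ i = v ∧ M.testBit i ≠ true ∧ nd D p M i = j := by
      intro v hv
      rw [mem_filter] at hv
      rcases hg2 v hv.1 with ⟨i, i1, i2, i3, -, i4⟩ | h2
      · exact ⟨i, i1, i2, i3, i4 ▸ hv.2⟩
      · rw [hv.2] at h2
        split_ifs at h2 <;> omega
    choose! f hf using key
    refine card_le_card_of_injOn f (fun v hv => ?_) fun v hv v' hv' e => ?_
    · obtain ⟨a1, a2, a3, a4⟩ := hf v hv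
      rw [mem_coe, mem_filter, mem_range]
      exact ⟨a1, a3, a4⟩
    · rw [← (hf v hv).2.1, ← (hf v' hv').2.1, e]
  have c0 := hcn0
  have hcard : S.card = ∑ v ∈ S, 1 := by rw [sum_const, smul_eq_mul, mul_one]
  have cs : ∀ j, (S.filter fun v => g v = j).card = ∑ v ∈ S, if g v = j then 1 else 0 := fun j =>
    Finset.card_filter _ _
  rw [cs] at c0
  have t1 : S.card ≤ (∑ v ∈ S, if g v = 0 then 1 else 0) + ∑ v ∈ S, g v := by
    rw [hcard, ← sum_add_distrib]
    exact sum_le_sum fun v _ => by split_ifs <;> omega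
  have t2 : 2 * S.card ≤ 2 * (∑ v ∈ S, if g v = 0 then 1 else 0) + ∑ v ∈ S, g v +
      ∑ v ∈ S, if g v = 1 then 1 else 0 := by
    rw [hcard, mul_sum, mul_sum, ← sum_add_distrib, ← sum_add_distrib]
    exact sum_le_sum fun v _ => by split_ifs <;> omega
  have t3 : 3 * S.card ≤ 3 * (∑ v ∈ S, if g v = 0 then 1 else 0) + ∑ v ∈ S, g v +
      2 * (∑ v ∈ S, if g v = 1 then 1 else 0) + ∑ v ∈ S, if g v = 2 then 1 else 0 := by
    rw [hcard, mul_sum, mul_sum, mul_sum, ← sum_add_distrib, ← sum_add_distrib, ← sum_add_distrib]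
    exact sum_le_sum fun v _ => by split_ifs <;> omega
  unfold xN
  generalize opm2 n p M IN = A at *
  by_cases hA0 : A = 0
  · rw [hA0] at hA ⊢
    rw [show Nat.beq 0 0 = true from rfl, cond_true]
    omega
  · rw [show Nat.beq A 0 = false by
      rw [← Bool.not_eq_true]; exact fun e => hA0 (Nat.eq_of_beq_eq_true e), cond_false]
    by_cases hD2 : 2 ≤ D
    · rw [Nat.ble_eq_true_of_le hD2, cond_true]
      omega
    · rw [show Nat.ble 2 D = false by rw [← Bool.not_eq_true, Nat.ble_eq]; exact hD2, cond_false, frc_eq]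
      have c1 := hcn 1 (Or.inl ⟨by omega, rfl⟩)
      rw [cs] at c1
      by_cases hD1 : D = 1
      · subst hD1
        rw [show Nat.beq 1 1 = true from rfl, cond_true, mn_eq]
        change S.card ≤ _ + min _ ((A + ndn 1 n p M 1) / 2)
        omega
      · have c2 := hcn 2 (Or.inr ⟨by omega, rfl⟩)
        rw [cs] at c2
        rw [show Nat.beq D 1 = false by
          rw [← Bool.not_eq_true]; exact fun e => hD1 (Nat.eq_of_beq_eq_true e), cond_false, mn_eq, mn_eq]
        change S.card ≤ _ + min _ (min ((A + ndn D n p M 1) / 2)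
          ((A + 2 * ndn D n p M 1 + ndn D n p M 2) / 3))
        omega

/-- the test and the children -/
def evlB (P O T TI D dl b n p : ℕ) (L : List ℕ) : Option (List (ℕ × ℕ)) :=
  frc (kms p L 0) fun M => frc (ims p L 0) fun IN =>
    frc (Nat.add (ndr D n p M) (xN D n p M (opm2 n p M IN))) fun N =>
    frc (Nat.add (dnt n p) (Nat.mul D N)) fun kt =>
    bif Nat.ble (Nat.succ n) 40 && pks n p L 0 &&
      Nat.ble (Nat.add (Nat.add (Nat.add (Nat.mul P L.length) (Nat.mul O (cnt n M)))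
        (Nat.mul dl (Nat.add (n00 D n p M) N))) (Nat.mul b (mn kt 2)))
        (Nat.add (evs T TI n p M IN) (Nat.mul b (Nat.add (dnk n p M) (bon D (kaW D n p M) kt))))
    then some (kin n p M IN n) else none

/-- **the step with the worst case for isolated vertices and the bonus** -/
theorem evlB_ch (hG : G.IsRegularOfDegree 3) {w w' : TF} {b : ℕ} (hww : Pair w w' b) (hw : w'.Pos)
    {P O T TI D dl : ℕ} (hT : TabK w' O T) (hTI : TabKI w' O TI) {U : Finset V} (hI : Inv G U)
    (hD : ∀ x ∈ U, n1 G U x ≤ D) (hiso : iso G U = ∅) {n p : ℕ} {L : List ℕ} {R : List (ℕ × ℕ)}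
    (hR : evlB P O T TI D dl b n p L = some R) {φ ν : ℕ → V} (h : Emb G U n p φ ν) :
    GoodB w dl P b G U L.length ∨ ∃ q ∈ R, Ch G U n φ q := by
  classical
  unfold evlB at hR
  rw [frc_eq, frc_eq, frc_eq, frc_eq] at hR
  obtain ⟨N, hNd⟩ : ∃ N, N = Nat.add (ndr D n p (kms p L 0))
    (xN D n p (kms p L 0) (opm2 n p (kms p L 0) (ims p L 0))) := ⟨_, rfl⟩
  rw [← hNd] at hR
  cases hc : Nat.ble (Nat.succ n) 40 && pks n p L 0 &&
      Nat.ble (Nat.add (Nat.add (Nat.add (Nat.mul P L.length) (Nat.mul O (cnt n (kms p L 0))))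
        (Nat.mul dl (Nat.add (n00 D n p (kms p L 0)) N))) (Nat.mul b (mn (Nat.add (dnt n p) (Nat.mul D N)) 2)))
        (Nat.add (evs T TI n p (kms p L 0) (ims p L 0)) (Nat.mul b (Nat.add (dnk n p (kms p L 0))
          (bon D (kaW D n p (kms p L 0)) (Nat.add (dnt n p) (Nat.mul D N))))))
  · rw [hc, cond_false] at hR
    exact absurd hR (by simp)
  rw [hc, cond_true, Option.some.injEq] at hR
  simp only [Bool.and_eq_true] at hc
  obtain ⟨⟨c1, c2⟩, c3⟩ := hc
  have hn : n < 40 := Nat.le_of_ble_eq_true c1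
  have hL := pks_of c2
  have hc3 := Nat.le_of_ble_eq_true c3
  rw [← hR]
  rcases h.stn_or hG hI hn hL with h1 | hS
  · exact Or.inr h1
  left
  have hP := h.pks_picks hG hI (L := L) [] c2 trivial (fun y hy => absurd hy List.not_mem_nil)
  rw [List.nil_append] at hP
  refine ⟨L.map φ, List.length_map _, hP, ?_⟩
  have h1 := h.evsB_le hG hww hw hT hTI hI (hI.rem hG) rem_subset hS.msk
    (fun i hi hb => (hS.inn i hi hb).2)
  have hN : (isr G (rem G U (L.map φ)) n p φ).card ≤ N := by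
    rw [hNd]
    exact h.isr_le hG hI hS hD hiso
  have hnd : ∀ i < n, φ i ∈ iso G (rem G U (L.map φ)) → nd D p (kms p L 0) i ≠ 9 := fun i hi hv => by
    have h3 := (h.nd_le hG hS.sub hS.msk hi hv (by rw [hiso]; exact notMem_empty _)
      (hD _ (h.mem i hi))).trans (fro_card hG)
    omega
  have h2 : (iso G (rem G U (L.map φ))).card ≤ n00 D n p (kms p L 0) + N := by
    rw [← card_filter_add_card_filter_not (s := iso G (rem G U (L.map φ)))
      (fun v => ∃ i, i < n ∧ φ i = v ∧ full p i = true)]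
    refine Nat.add_le_add ?_ hN
    rw [n00_eq]
    have key : ∀ v ∈ (iso G (rem G U (L.map φ))).filter (fun v => ∃ i, i < n ∧ φ i = v ∧ full p i = true),
        ∃ i < n, φ i = v ∧ (kms p L 0).testBit i ≠ true ∧ full p i = true ∧
          nd D p (kms p L 0) i ≠ 9 := fun v hv => by
      obtain ⟨h3, i, i1, i2, i3⟩ := mem_filter.1 hv
      refine ⟨i, i1, i2, fun hb => (hS.msk i i1).1 hb ?_, i3, hnd i i1 (by rw [i2]; exact h3)⟩
      rw [i2]
      exact (mem_iso.1 h3).1
    choose! f hf using key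
    refine card_le_card_of_injOn f (fun v hv => ?_) fun v hv v' hv' e => ?_
    · obtain ⟨a1, a2, a3, a4, a5⟩ := hf v hv
      rw [mem_coe, mem_filter, mem_range]
      exact ⟨a1, a3, a4, a5⟩
    · rw [← (hf v hv).2.1, ← (hf v' hv').2.1, e]
  obtain ⟨R', hR'⟩ : ∃ A, A = (range n).filter (fun i => (kms p L 0).testBit i ≠ true ∧
    nd D p (kms p L 0) i = 9) := ⟨_, rfl⟩
  obtain ⟨es, ek, k1, k2, k3⟩ := h.bon_core hG hI rem_subset hS.msk hD (R := R') (fun i hi => by
    rw [hR', mem_filter, mem_range] at hi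
    obtain ⟨i1, i2, i3⟩ := hi
    refine ⟨i1, mem_sdiff.2 ⟨?_, fun hc => hnd i i1 hc i3⟩⟩
    by_contra hc
    exact i2 ((hS.msk i i1).2 hc)) hN
  have h3 : kaW D n p (kms p L 0) = ∑ i ∈ R', (dn p i + exn p (kms p L 0) i) := by
    unfold kaW
    rw [sm_eq, hR', sum_filter]
    refine sum_congr rfl fun i _ => ?_
    by_cases h1 : (kms p L 0).testBit i = true
    · rw [tb_eq, h1, if_neg (fun h => h.1 rfl)]
      rfl
    · rw [tb_false h1]
      by_cases h3 : nd D p (kms p L 0) i = 9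
      · rw [h3, if_pos ⟨h1, rfl⟩]
        rfl
      · rw [if_neg (fun h => h3 h.2), show Nat.beq (nd D p (kms p L 0) i) 9 = false by
          rw [← Bool.not_eq_true]; exact fun e => h3 (Nat.eq_of_beq_eq_true e)]
        rfl
  rw [← h3] at k2
  rw [PsiT_iso, PsiT_iso, List.length_map]
  unfold PsiI
  rw [hiso, card_empty, mul_zero, add_zero]
  have h4 : P * L.length + O * cnt n (kms p L 0) + dl * (n00 D n p (kms p L 0) + N) +
      b * mn (dnt n p + D * N) 2 ≤ evs T TI n p (kms p L 0) (ims p L 0) + b * (dnk n p (kms p L 0) +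
        bon D (kaW D n p (kms p L 0)) (dnt n p + D * N)) := hc3
  rw [mn_eq, bon_eq] at h4
  exact good_arith h1 k3 k1 k2 h2 (kU_zero hD) h4

end EF18
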