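import Pool.Agent.Lib.MP_ef18bd_co.P.EvB
import Pool.Agent.Lib.MP_ef18bd_co.P.Dpn
import Pool.Agent.Lib.MP_ef18bd_co.P.PcE

/-!
# The steps with the bonus without the triangle vertices

`tpc`: a node is certainly in a triangle before the step. `ntr`: a survivor is certainly in no triangle with a
survivor; with `e = true` the full nodes with two open direct neighbours are allowed, the children `tpl` are the
patterns in which these are adjacent. `evbK`, `evlK`: the steps.
-/

namespace EF18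

open Finset

variable {V : Type} [Fintype V] [DecidableEq V] {G : SimpleGraph V} [DecidableRel G.Adj]

/-! ### the numbers before and after -/

theorem Emb.bon_coreK (hG : G.IsRegularOfDegree 3) {U U' : Finset V} (hI : Inv G U) (hs : U' ⊆ U)
    {n p M D N : ℕ} {φ ν : ℕ → V} (h : Emb G U n p φ ν)
    (hM : ∀ i < n, (M.testBit i = true ↔ φ i ∉ U')) (hD : ∀ x ∈ U, n1 G U x ≤ D) {S R : Finset ℕ}
    (hS : ∀ i ∈ S, i < n)
    (hC : ∀ i < n, i ∉ S → tri G U (φ i) ∨ (φ i ∈ U' ∧ (full p i = true → φ i ∉ iso G U')))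
    (hR : ∀ i ∈ R, i < n ∧ φ i ∈ U' \ iso G U' ∧ ¬ tri G U' (φ i) ∧ (i ∈ S ∨ tri G U (φ i)))
    (hN : (isr G U' n p φ).card ≤ N) :
    ∃ es ek, kUT G U ≤ ∑ i ∈ S, dn p i + D * N + es + ek ∧
      es + ∑ i ∈ R, (dn p i + exn p M i) ≤ kST G U' ∧ dnk n p M + ek ≤ ∑ z ∈ U \ U', n1 G U z := by
  classical
  have hII : iso G U' ⊆ U' := fun x hx => (mem_iso.1 hx).1
  obtain ⟨Ka, hKa⟩ : ∃ A, A = (range n).filter (fun i => M.testBit i = true) := ⟨_, rfl⟩
  obtain ⟨S1, hS1⟩ : ∃ A, A = S.filter (fun i => φ i ∈ U' \ iso G U') := ⟨_, rfl⟩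
  obtain ⟨S2, hS2⟩ : ∃ A, A = S.filter (fun i => φ i ∈ iso G U') := ⟨_, rfl⟩
  have mKa : ∀ i, i ∈ Ka ↔ i < n ∧ M.testBit i = true := fun i => by rw [hKa, mem_filter, mem_range]
  have mS1 : ∀ i, i ∈ S1 ↔ i ∈ S ∧ φ i ∈ U' \ iso G U' := fun i => by rw [hS1, mem_filter]
  have mS2 : ∀ i, i ∈ S2 ↔ i ∈ S ∧ φ i ∈ iso G U' := fun i => by rw [hS2, mem_filter]
  have inj : ∀ {A : Finset ℕ}, (∀ i ∈ A, i < n) → ∀ i ∈ A, ∀ j ∈ A, φ i = φ j → i = j :=
    fun hA i hi j hj e => h.inj i (hA i hi) j (hA j hj) e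
  have iKa := inj (A := Ka) fun i hi => ((mKa i).1 hi).1
  have iS1 := inj (A := S1) fun i hi => hS i ((mS1 i).1 hi).1
  have iS2 := inj (A := S2) fun i hi => hS i ((mS2 i).1 hi).1
  have iR := inj (A := R) fun i hi => (hR i hi).1
  -- removed
  have hKi : Ka.image φ ⊆ U \ U' := by
    intro y hy
    obtain ⟨i, hi, rfl⟩ := mem_image.1 hy
    obtain ⟨i1, i2⟩ := (mKa i).1 hi
    exact mem_sdiff.2 ⟨h.mem i i1, (hM i i1).1 i2⟩
  have a1 : ∑ i ∈ Ka, dn p i ≤ ∑ z ∈ U \ U', n1 G U z := by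
    refine (sum_le_sum fun i hi => h.dn_le hG ((mKa i).1 hi).1).trans ?_
    rw [← sum_image (f := fun z => n1 G U z) iKa]
    exact sum_le_sum_of_subset hKi
  have a1' : ∑ z ∈ U \ U', nT G U z + ∑ i ∈ Ka \ S, dn p i ≤ ∑ z ∈ U \ U', n1 G U z := by
    have e1 : ∑ z ∈ (U \ U') \ Ka.image φ, nT G U z ≤ ∑ z ∈ (U \ U') \ Ka.image φ, n1 G U z :=
      sum_le_sum fun z _ => nT_le U z
    have e2 : ∑ i ∈ Ka, nT G U (φ i) + ∑ i ∈ Ka \ S, dn p i ≤ ∑ i ∈ Ka, n1 G U (φ i) := by
      rw [← sum_sdiff (sdiff_subset (s := Ka) (t := S)) (f := fun i => nT G U (φ i)),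
        ← sum_sdiff (sdiff_subset (s := Ka) (t := S)) (f := fun i => n1 G U (φ i))]
      have e3 : ∑ i ∈ Ka \ (Ka \ S), nT G U (φ i) ≤ ∑ i ∈ Ka \ (Ka \ S), n1 G U (φ i) :=
        sum_le_sum fun i _ => nT_le U _
      have e4 : ∑ i ∈ Ka \ S, nT G U (φ i) = 0 := by
        refine sum_eq_zero fun i hi => ?_
        obtain ⟨i1, i2⟩ := mem_sdiff.1 hi
        obtain ⟨i3, i4⟩ := (mKa i).1 i1
        rcases hC i i3 i2 with h1 | ⟨h1, -⟩
        · exact nT_tri h1
        · exact absurd h1 ((hM i i3).1 i4)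
      have e5 : ∑ i ∈ Ka \ S, dn p i ≤ ∑ i ∈ Ka \ S, n1 G U (φ i) :=
        sum_le_sum fun i hi => h.dn_le hG ((mKa i).1 (mem_sdiff.1 hi).1).1
      omega
    rw [← sum_sdiff hKi, ← sum_sdiff hKi (f := fun z => n1 G U z), sum_image iKa, sum_image iKa]
    omega
  have a2 : ∑ i ∈ Ka, dn p i = ∑ i ∈ Ka \ S, dn p i + ∑ i ∈ Ka ∩ S, dn p i := by
    rw [← sum_sdiff (sdiff_subset (s := Ka) (t := S)), add_comm]
    congr 1
    rw [sdiff_sdiff_right_self]
    rfl
  -- isolated
  have a3 : ∑ z ∈ iso G U', nT G U z ≤ ∑ i ∈ S2, dn p i + D * N := by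
    rw [← sum_filter_add_sum_filter_not (iso G U') (fun v => ∃ i, i < n ∧ φ i = v ∧ full p i = true)]
    refine Nat.add_le_add ?_ ?_
    · have e : ∑ z ∈ (iso G U').filter (fun v => ∃ i, i < n ∧ φ i = v ∧ full p i = true), nT G U z ≤
          ∑ z ∈ (S2.filter fun i => full p i = true).image φ, nT G U z := by
        refine sum_le_sum_of_ne_zero fun v hv hne => ?_
        obtain ⟨h1, i, h2, h3, h4⟩ := mem_filter.1 hv
        refine mem_image.2 ⟨i, mem_filter.2 ⟨(mS2 i).2 ⟨?_, by rw [h3]; exact h1⟩, h4⟩, h3⟩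
        by_contra hc
        rcases hC i h2 hc with h5 | ⟨-, h5⟩
        · exact hne (by rw [← h3]; exact nT_tri h5)
        · exact h5 h4 (by rw [h3]; exact h1)
      refine e.trans ?_
      rw [sum_image fun i hi j hj e => iS2 i (mem_filter.1 hi).1 j (mem_filter.1 hj).1 e]
      refine (sum_le_sum fun i hi => (nT_le U _).trans
        (h.dn_full hG (hS i ((mS2 i).1 (mem_filter.1 hi).1).1) (mem_filter.1 hi).2)).trans ?_
      exact sum_le_sum_of_subset (filter_subset _ _)
    · refine (sum_le_sum fun v hv => (nT_le U v).trans (hD v (hs (hII (mem_filter.1 hv).1)))).trans ?_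
      rw [sum_const, smul_eq_mul, mul_comm]
      exact Nat.mul_le_mul_left D hN
  -- the total
  have a4 : kUT G U = ∑ z ∈ U \ U', nT G U z + (∑ z ∈ U' \ iso G U', nT G U z + ∑ z ∈ iso G U', nT G U z) := by
    unfold kUT
    rw [sum_sdiff hII, sum_sdiff hs]
  have a5 : ∑ i ∈ Ka ∩ S, dn p i + (∑ i ∈ S1, dn p i + ∑ i ∈ S2, dn p i) ≤ ∑ i ∈ S, dn p i := by
    have d1 : Disjoint S1 S2 := by
      rw [disjoint_left]
      intro i h1 h2
      exact (mem_sdiff.1 ((mS1 i).1 h1).2).2 ((mS2 i).1 h2).2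
    have d2 : Disjoint (Ka ∩ S) (S1 ∪ S2) := by
      rw [disjoint_left]
      intro i h1 h2
      obtain ⟨i1, i2⟩ := (mKa i).1 (mem_inter.1 h1).1
      refine (hM i i1).1 i2 ?_
      rcases mem_union.1 h2 with h2 | h2
      · exact (mem_sdiff.1 ((mS1 i).1 h2).2).1
      · exact hII ((mS2 i).1 h2).2
    rw [← sum_union d1, ← sum_union d2]
    refine sum_le_sum_of_subset fun i hi => ?_
    rcases mem_union.1 hi with h1 | h1
    · exact (mem_inter.1 h1).2
    · rcases mem_union.1 h1 with h1 | h1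
      · exact ((mS1 i).1 h1).1
      · exact ((mS2 i).1 h1).1
  have a6 : dnk n p M = ∑ i ∈ Ka, dn p i := by
    unfold dnk
    rw [sm_eq, hKa, sum_filter]
    refine sum_congr rfl fun i _ => ?_
    rw [tb_eq]
    cases M.testBit i <;> simp
  -- after the step
  have b0 : ∀ i ∈ R, dn p i + exn p M i ≤ nT G U' (φ i) := fun i hi => by
    obtain ⟨i1, i2, i3, -⟩ := hR i hi
    have e1 := h.ex_le hG hI hs hM i1 (mem_sdiff.1 i2).1
    have e2 := h.dn_le hG i1
    rw [nT_not i3]
    omega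
  have hRi : R.image φ ⊆ U' \ iso G U' := fun y hy => by
    obtain ⟨i, hi, rfl⟩ := mem_image.1 hy
    exact (hR i hi).2.1
  have a7 : ∑ i ∈ R, (dn p i + exn p M i) ≤ kST G U' := by
    refine (sum_le_sum b0).trans ?_
    rw [← sum_image (f := fun z => nT G U' z) iR]
    exact sum_le_sum_of_subset hRi
  have a8 : ∑ z ∈ U' \ iso G U', nT G U z + ∑ i ∈ R, (dn p i + exn p M i) ≤
      ∑ i ∈ S1, dn p i + kST G U' := by
    have e1 : ∑ i ∈ R, nT G U (φ i) + ∑ i ∈ R, (dn p i + exn p M i) ≤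
        ∑ i ∈ R ∩ S, dn p i + ∑ i ∈ R, nT G U' (φ i) := by
      have e2 : ∑ i ∈ R ∩ S, dn p i = ∑ i ∈ R, if i ∈ S then dn p i else 0 := by
        rw [← sum_filter, filter_mem_eq_inter]
      rw [e2, ← sum_add_distrib, ← sum_add_distrib]
      refine sum_le_sum fun i hi => ?_
      obtain ⟨i1, i2, i3, i4⟩ := hR i hi
      have f1 := h.ex_le hG hI hs hM i1 (mem_sdiff.1 i2).1
      have f2 := h.dn_le hG i1
      have f3 := nT_le (G := G) U (φ i)
      rw [nT_not i3]
      split_ifs with h1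
      · omega
      · rw [nT_tri (i4.resolve_left h1)]
        omega
    have e3 : ∑ i ∈ R ∩ S, dn p i ≤ ∑ i ∈ S1, dn p i := by
      refine sum_le_sum_of_subset fun i hi => ?_
      obtain ⟨i1, i2⟩ := mem_inter.1 hi
      exact (mS1 i).2 ⟨i2, (hR i i1).2.1⟩
    have e4 : ∑ z ∈ (U' \ iso G U') \ R.image φ, nT G U z ≤
        ∑ z ∈ (U' \ iso G U') \ R.image φ, nT G U' z :=
      sum_le_sum fun z hz => nT_mono hs (mem_sdiff.1 (mem_sdiff.1 hz).1).1
    unfold kST
    rw [← sum_sdiff hRi, ← sum_sdiff hRi (f := fun x => nT G U' x), sum_image iR, sum_image iR]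
    omega
  refine ⟨kST G U' - ∑ i ∈ R, (dn p i + exn p M i), ∑ z ∈ U \ U', n1 G U z - ∑ i ∈ Ka, dn p i, ?_, ?_, ?_⟩
  · rw [a4]
    omega
  · omega
  · rw [a6]
    omega

/-! ### triangles -/

/-- some port of the node `i` -/
def anp (p i : ℕ) (f : ℕ → Bool) : Bool :=
  frc (Nat.mul 3 i) fun k => f (dg p k) || f (dg p (Nat.add k 1)) || f (dg p (Nat.add k 2))

theorem anp_iff {p i : ℕ} {f : ℕ → Bool} : anp p i f = true ↔ ∃ k, k / 3 = i ∧ f (dg p k) = true := by
  unfold anp
  rw [frc_eq, Bool.or_eq_true, Bool.or_eq_true]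
  constructor
  · rintro ((h | h) | h)
    · exact ⟨3 * i, by omega, h⟩
    · exact ⟨3 * i + 1, by omega, h⟩
    · exact ⟨3 * i + 2, by omega, h⟩
  · rintro ⟨k, hk, h⟩
    rcases port_cases hk with rfl | rfl | rfl
    · exact Or.inl (Or.inl h)
    · exact Or.inl (Or.inr h)
    · exact Or.inr h

/-- the node `i` is certainly in a triangle with a member -/
def tpc (p i : ℕ) : Bool :=
  anp p i fun d => isD d && anp p i fun d' =>
    (isL d' && Nat.beq (tg d') (tg d)) || (isD d' && adjd p (tg d) (tg d'))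

omit [Fintype V] [DecidableEq V] [DecidableRel G.Adj] in
theorem Emb.tpc_tri {U : Finset V} {n p : ℕ} {φ ν : ℕ → V} (h : Emb G U n p φ ν) {i : ℕ} (hi : i < n)
    (ht : tpc p i = true) : tri G U (φ i) := by
  unfold tpc at ht
  obtain ⟨k, hk, h1⟩ := anp_iff.1 ht
  rw [Bool.and_eq_true] at h1
  obtain ⟨l, hl⟩ := isD_iff.1 h1.1
  obtain ⟨k', hk', h2⟩ := anp_iff.1 h1.2
  rw [hl, tg_dir] at h2
  obtain ⟨a1, a2, a3, a4⟩ := h.dir k (by omega) l hl
  have b1 := h.adj k (by omega)
  rw [a3, hk] at b1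
  have b2 := h.adj k' (by omega)
  rw [hk'] at b2
  refine ⟨φ (l / 3), h.mem _ (by omega), b1, ν k', b2, ?_⟩
  rw [Bool.or_eq_true, Bool.and_eq_true, Bool.and_eq_true] at h2
  rcases h2 with ⟨h2, h3⟩ | ⟨h2, h3⟩
  · obtain ⟨l', hl'⟩ := isL_iff.1 h2
    rw [hl', tg_lnk] at h3
    obtain ⟨c1, c2, c3, c4, c5⟩ := h.lnk k' (by omega) l' hl'
    have d1 := h.adj l' c1
    rwa [c5, Nat.eq_of_beq_eq_true h3] at d1
  · obtain ⟨l', hl'⟩ := isD_iff.1 h2
    rw [hl', tg_dir] at h3
    obtain ⟨c1, c2, c3, c4⟩ := h.dir k' (by omega) l' hl'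
    obtain ⟨a, m, d1, d2, d3⟩ := adjd_iff h3
    obtain ⟨e1, e2, e3, e4⟩ := h.dir a (by omega) m d2
    have f1 := h.adj a (by omega)
    rwa [d1, e3, d3, ← c3] at f1

/-- exactly one open port -/
def op1 (p i : ℕ) : Bool :=
  frc (Nat.mul 3 i) fun k => frc (dg p k) fun a => frc (dg p (Nat.add k 1)) fun b =>
    frc (dg p (Nat.add k 2)) fun c =>
      bif Nat.beq a 0 then !Nat.beq b 0 && !Nat.beq c 0 else
        bif Nat.beq b 0 then !Nat.beq c 0 else Nat.beq c 0

/-- the survivor `i` is certainly in no triangle with a survivor; with `e = true` pairs of open direct neighbours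
of a full node are allowed -/
def ntr (e : Bool) (p M i : ℕ) : Bool :=
  !(anp p i fun d => isD d && !tb M (tg d) && anp p i fun d' =>
      (isL d' && Nat.beq (tg d') (tg d)) ||
      (isD d' && !Nat.beq (tg d') (tg d) && (adjd p (tg d) (tg d') ||
        (!(e && full p i) && !full p (tg d) && !full p (tg d'))))) &&
  (full p i || (op1 p i && !(anp p i fun d =>
    (isD d && (!full p (tg d) || anp p (tg d) fun d' => isD d' && !Nat.beq (tg d') i && !adjd p i (tg d') &&
      !full p (tg d') && !(tb M (tg d) && tb M (tg d')))) ||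
    (isL d && !tb M (tg d) && !full p (tg d)))))

theorem not_full {p i k : ℕ} (hk : k / 3 = i) (h : dg p k = 0) : full p i = false := by
  rw [← Bool.not_eq_true]
  exact fun hf => full_iff.1 hf k hk h

theorem op1_uniq {p i k k' : ℕ} (h : op1 p i = true) (hk : k / 3 = i) (hk' : k' / 3 = i) (h0 : dg p k = 0)
    (h0' : dg p k' = 0) : k = k' := by
  unfold op1 at h
  rw [frc_eq, frc_eq, frc_eq, frc_eq] at h
  change (bif Nat.beq (dg p (3 * i)) 0 then !Nat.beq (dg p (3 * i + 1)) 0 && !Nat.beq (dg p (3 * i + 2)) 0 else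
        bif Nat.beq (dg p (3 * i + 1)) 0 then !Nat.beq (dg p (3 * i + 2)) 0 else
          Nat.beq (dg p (3 * i + 2)) 0) = true at h
  rcases port_cases hk with rfl | rfl | rfl <;> rcases port_cases hk' with rfl | rfl | rfl <;>
    first
    | rfl
    | (exfalso; rw [h0] at h; rw [h0'] at h; revert h; cases Nat.beq (dg p (3 * i)) 0 <;> simp)

/-! ### joining two nodes -/

/-- the first open port is open -/
def opk (p a : ℕ) : Bool := Nat.beq (dg p (fo p a)) 0

/-- a direct edge between the first open ports -/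
def pdk (p a b : ℕ) : ℕ :=
  frc (fo p a) fun k => frc (fo p b) fun l => p + (2 + 2 * l) * 256 ^ k + (2 + 2 * k) * 256 ^ l

/-- two adjacent nodes are known to be adjacent, or they may be joined -/
theorem Emb.joink (hG : G.IsRegularOfDegree 3) {U : Finset V} {n p : ℕ} {φ ν : ℕ → V}
    (h : Emb G U n p φ ν) (hn : n < 40) {a b : ℕ} (ha : a < n) (hb : b < n) (hadj : G.Adj (φ a) (φ b)) :
    adjd p a b = true ∨ (opk p a = true ∧ opk p b = true ∧
      ∃ ν' : ℕ → V, Emb G U n (pdk p a b) φ ν') := by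
  obtain ⟨k, hk1, hk2, hk3⟩ := h.surj hG ha hadj
  rcases digit_cases (dg p k) with h0 | h1 | ⟨l, hl⟩ | ⟨l, hl⟩
  · right
    have hb0 : dg p (fo p a) = 0 := fo_open hk1 h0
    have hb3 : fo p a / 3 = a := fo_div p a
    have h₁ := h.swap (b := fo p a) (c := k) (by omega) hk2 (by omega) hb0 h0
    obtain ⟨a1, a2, a3, ν', a4⟩ := h₁.dirp hG hn (k := fo p a) (by omega) hb0 hb (by
      rw [Equiv.swap_apply_left, hk3])
    refine ⟨?_, ?_, ν', ?_⟩
    · unfold opk; rw [hb0]; rfl
    · unfold opk; rw [a2]; rfl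
    · unfold pdk; rw [frc_eq, frc_eq]; exact a4
  · exact absurd (hk3 ▸ h.mem b hb) (h.dead k hk2 h1).1
  · left
    obtain ⟨a1, a2, a3, a4⟩ := h.dir k hk2 l hl
    have e := h.inj _ (by omega) _ hb (a3.symm.trans hk3)
    have := adjd_of hl
    rwa [hk1, e] at this
  · exact absurd (hk3 ▸ h.mem b hb) (h.lnk k hk2 l hl).2.2.2.1

theorem ntr_spec {e : Bool} {p M i : ℕ} (h : ntr e p M i = true) :
    (∀ k l, k / 3 = i → dg p k = 2 + 2 * l → M.testBit (l / 3) ≠ true →
      (∀ k' l', k' / 3 = i → dg p k' = 3 + 2 * l' → l' / 3 ≠ l / 3) ∧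
      ∀ k' l', k' / 3 = i → dg p k' = 2 + 2 * l' → l' / 3 ≠ l / 3 → adjd p (l / 3) (l' / 3) = false ∧
        ((e = true ∧ full p i = true) ∨ full p (l / 3) = true ∨ full p (l' / 3) = true)) ∧
    (full p i = true ∨ op1 p i = true ∧ ∀ k l, k / 3 = i →
      (dg p k = 2 + 2 * l → full p (l / 3) = true ∧ ∀ m l', m / 3 = l / 3 → dg p m = 2 + 2 * l' →
        l' / 3 ≠ i → adjd p i (l' / 3) = false → full p (l' / 3) = true ∨
          M.testBit (l / 3) = true ∧ M.testBit (l' / 3) = true) ∧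
      (dg p k = 3 + 2 * l → M.testBit (l / 3) = true ∨ full p (l / 3) = true)) := by
  unfold ntr at h
  rw [Bool.and_eq_true, Bool.or_eq_true, Bool.and_eq_true, Bool.not_eq_true', Bool.not_eq_true'] at h
  obtain ⟨h1, h2⟩ := h
  refine ⟨fun k l hk hl hb => ⟨fun k' l' hk' hl' he => ?_, fun k' l' hk' hl' hne => ?_⟩,
    h2.imp id fun h3 => ⟨h3.1, fun k l hk => ⟨fun hl => ?_, fun hl => ?_⟩⟩⟩
  · refine absurd (anp_iff.2 ⟨k, hk, ?_⟩) (by rw [h1]; simp)
    rw [hl, tg_dir, tb_false hb, isD_iff.2 ⟨l, rfl⟩, Bool.not_false, Bool.and_self, Bool.true_and]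
    refine anp_iff.2 ⟨k', hk', ?_⟩
    rw [hl', tg_lnk, he, isL_iff.2 ⟨l', rfl⟩, Nat.beq_refl]
    rfl
  · by_contra hcon
    refine absurd (anp_iff.2 ⟨k, hk, ?_⟩) (by rw [h1]; simp)
    rw [hl, tg_dir, tb_false hb, isD_iff.2 ⟨l, rfl⟩, Bool.not_false, Bool.and_self, Bool.true_and]
    refine anp_iff.2 ⟨k', hk', ?_⟩
    rw [hl', tg_dir, isD_iff.2 ⟨l', rfl⟩, beq_false hne]
    revert hcon
    cases adjd p (l / 3) (l' / 3) <;> cases e <;> cases full p i <;> cases full p (l / 3) <;>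
      cases full p (l' / 3) <;> simp
  · have h4 := h3.2
    constructor
    · by_contra hcon
      refine absurd (anp_iff.2 ⟨k, hk, ?_⟩) (by rw [h4]; simp)
      rw [hl, tg_dir, isD_iff.2 ⟨l, rfl⟩, show full p (l / 3) = false from Bool.not_eq_true _ ▸ hcon]
      rfl
    · intro m l' hm hm' hne hadj
      by_contra hcon
      refine absurd (anp_iff.2 ⟨k, hk, ?_⟩) (by rw [h4]; simp)
      rw [hl, tg_dir, isD_iff.2 ⟨l, rfl⟩]
      have h5 : (anp p (l / 3) fun d' => isD d' && !Nat.beq (tg d') i && !adjd p i (tg d') &&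
          !full p (tg d') && !(tb M (l / 3) && tb M (tg d'))) = true := by
        refine anp_iff.2 ⟨m, hm, ?_⟩
        rw [hm', tg_dir, isD_iff.2 ⟨l', rfl⟩, beq_false hne, hadj, tb_eq, tb_eq]
        revert hcon
        cases full p (l' / 3) <;> cases M.testBit (l / 3) <;> cases M.testBit (l' / 3) <;> simp
      rw [h5]
      simp
  · have h4 := h3.2
    by_contra hcon
    refine absurd (anp_iff.2 ⟨k, hk, ?_⟩) (by rw [h4]; simp)
    rw [hl, tg_lnk, isL_iff.2 ⟨l, rfl⟩, tb_eq]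
    revert hcon
    cases full p (l / 3) <;> cases M.testBit (l / 3) <;> simp

/-- a survivor with `ntr` is in no triangle with a survivor, or two open direct neighbours are adjacent -/
theorem Emb.ntr_or (hG : G.IsRegularOfDegree 3) {U U' : Finset V} (hI : Inv G U) (hs : U' ⊆ U)
    {n p M : ℕ} {φ ν : ℕ → V} (h : Emb G U n p φ ν) (hn : n < 40)
    (hM : ∀ i < n, (M.testBit i = true ↔ φ i ∉ U')) {e : Bool} {i : ℕ} (hi : i < n)
    (ht : ntr e p M i = true) :
    ¬ tri G U' (φ i) ∨ (e = true ∧ full p i = true ∧ ∃ k k' l l', k / 3 = i ∧ k' / 3 = i ∧ k ≠ k' ∧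
      dg p k = 2 + 2 * l ∧ dg p k' = 2 + 2 * l' ∧ M.testBit (l / 3) ≠ true ∧
      adjd p (l / 3) (l' / 3) = false ∧ G.Adj (φ (l / 3)) (φ (l' / 3))) := by
  obtain ⟨F1, F2⟩ := ntr_spec ht
  by_cases htr : tri G U' (φ i)
  swap
  · exact Or.inl htr
  obtain ⟨w, hw, hiw, z, hiz, hwz⟩ := htr
  obtain ⟨k, hk, hkn, hkw⟩ := h.surj hG hi hiw
  obtain ⟨k', hk', hkn', hkz⟩ := h.surj hG hi hiz
  have hwU := hs hw
  have hiU := h.mem i hi
  have hkk : k ≠ k' := by
    rintro rfl
    rw [hkw] at hkz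
    rw [hkz] at hwz
    exact G.loopless.irrefl _ hwz
  -- a node behind an open port of `i`
  have back : ∀ k, k / 3 = i → dg p k = 0 → ∀ y < n, ν k = φ y → adjd p i y = false ∧ full p y = false := by
    intro k hk h0 y hy hky
    obtain ⟨c1, c2, c3, -⟩ := h.dirp hG hn (by omega) h0 hy hky.symm
    exact ⟨by rw [← hk]; exact c3, not_full (fo_div p y) c2⟩
  rcases digit_cases (dg p k) with h0 | h1 | ⟨l, hl⟩ | ⟨l, hl⟩
  · -- `w` behind an open port
    have hnf := not_full hk h0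
    rcases F2 with F2 | ⟨F2, F3⟩
    · rw [hnf] at F2
      exact absurd F2 (by simp)
    exfalso
    rcases digit_cases (dg p k') with g0 | g1 | ⟨l', hl'⟩ | ⟨l', hl'⟩
    · exact hkk (op1_uniq F2 hk hk' h0 g0)
    · have := (h.dead k' hkn' g1).2 w hwU (by rw [hkz]; exact hwz.symm)
      rw [hk'] at this
      exact G.loopless.irrefl _ (this ▸ hiw)
    · obtain ⟨a1, a2, a3, a4⟩ := h.dir k' hkn' l' hl'
      obtain ⟨F4, F5⟩ := (F3 k' l' hk').1 hl'
      have hzx : z = φ (l' / 3) := hkz.symm.trans a3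
      obtain ⟨m, hm, hmn, hmw⟩ := h.surj hG (i := l' / 3) (by omega) (y := w) (hzx ▸ hwz.symm)
      rcases digit_cases (dg p m) with m0 | m1 | ⟨q, hq⟩ | ⟨q, hq⟩
      · exact full_iff.1 F4 m hm m0
      · exact (h.dead m hmn m1).1 (hmw ▸ hwU)
      · obtain ⟨b1, b2, b3, b4⟩ := h.dir m hmn q hq
        have hwy : w = φ (q / 3) := hmw.symm.trans b3
        obtain ⟨c1, c2⟩ := back k hk h0 (q / 3) (by omega) (hkw.trans hwy)
        have hqi : q / 3 ≠ i := by
          intro hc
          rw [hwy, hc] at hiw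
          exact G.loopless.irrefl _ hiw
        rcases F5 m q hm hq hqi c1 with F6 | ⟨-, F6⟩
        · rw [c2] at F6
          exact absurd F6 (by simp)
        · exact (hM (q / 3) (by omega)).1 F6 (hwy ▸ hw)
      · exact (h.lnk m hmn q hq).2.2.2.1 (hmw ▸ hwU)
    · obtain ⟨a1, a2, a3, a4, a5⟩ := h.lnk k' hkn' l' hl'
      rw [hkz] at a4 a5
      have b1 := h.adj l' a1
      rw [a5] at b1
      have b2 : φ i ≠ φ (l' / 3) := fun e => a3 (by
        have := h.inj _ hi _ (by omega) e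
        omega)
      rcases hI.two a4 hiU (h.mem (l' / 3) (by omega)) b2 hiz.symm b1.symm hwU hwz.symm with e1 | e1
      · exact G.loopless.irrefl _ (e1 ▸ hiw)
      · obtain ⟨-, c2⟩ := back k hk h0 (l' / 3) (by omega) (hkw.trans e1)
        rcases (F3 k' l' hk').2 hl' with F6 | F6
        · exact (hM (l' / 3) (by omega)).1 F6 (e1 ▸ hw)
        · rw [c2] at F6
          exact absurd F6 (by simp)
  · exact absurd (hkw ▸ hwU) (h.dead k hkn h1).1
  · -- `w` is a direct neighbour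
    obtain ⟨a1, a2, a3, a4⟩ := h.dir k hkn l hl
    have hwx : w = φ (l / 3) := hkw.symm.trans a3
    have hlM : M.testBit (l / 3) ≠ true := fun hb => (hM (l / 3) (by omega)).1 hb (hwx ▸ hw)
    obtain ⟨F3, F4⟩ := F1 k l hk hl hlM
    rcases digit_cases (dg p k') with g0 | g1 | ⟨l', hl'⟩ | ⟨l', hl'⟩
    · exfalso
      have hnf := not_full hk' g0
      rcases F2 with F2 | ⟨F2, F5⟩
      · rw [hnf] at F2
        exact absurd F2 (by simp)
      obtain ⟨F6, F7⟩ := (F5 k l hk).1 hl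
      obtain ⟨m, hm, hmn, hmz⟩ := h.surj hG (i := l / 3) (by omega) (y := z) (hwx ▸ hwz)
      rcases digit_cases (dg p m) with m0 | m1 | ⟨q, hq⟩ | ⟨q, hq⟩
      · exact full_iff.1 F6 m hm m0
      · have := (h.dead m hmn m1).2 (φ i) hiU (by rw [hmz]; exact hiz.symm)
        rw [hm, ← hwx] at this
        exact G.loopless.irrefl _ (this ▸ hiw)
      · obtain ⟨b1, b2, b3, b4⟩ := h.dir m hmn q hq
        have hzy : z = φ (q / 3) := hmz.symm.trans b3
        obtain ⟨c1, c2⟩ := back k' hk' g0 (q / 3) (by omega) (hkz.trans hzy)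
        have hqi : q / 3 ≠ i := by
          intro hc
          rw [hzy, hc] at hiz
          exact G.loopless.irrefl _ hiz
        rcases F7 m q hm hq hqi c1 with F8 | ⟨F8, -⟩
        · rw [c2] at F8
          exact absurd F8 (by simp)
        · exact hlM F8
      · obtain ⟨b1, b2, b3, b4, b5⟩ := h.lnk m hmn q hq
        rw [hmz] at b4 b5
        have c1 := h.adj q b1
        rw [b5] at c1
        have c2 : φ (l / 3) ≠ φ (q / 3) := fun e => b3 (by
          have := h.inj _ (by omega) _ (by omega) e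
          omega)
        rcases hI.two b4 (h.mem (l / 3) (by omega)) (h.mem (q / 3) (by omega)) c2 (hwx ▸ hwz.symm) c1.symm hiU
          hiz.symm with e1 | e1
        · rw [← hwx] at e1
          exact G.loopless.irrefl _ (e1 ▸ hiw)
        · have e2 := h.inj _ hi _ (by omega) e1
          have e3 := h.pinj q b1 k' hkn' (by omega) (b5.trans hkz.symm)
          rw [e3, g0] at b2
          omega
    · exfalso
      have := (h.dead k' hkn' g1).2 w hwU (by rw [hkz]; exact hwz.symm)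
      rw [hk'] at this
      exact G.loopless.irrefl _ (this ▸ hiw)
    · obtain ⟨b1, b2, b3, b4⟩ := h.dir k' hkn' l' hl'
      have hzy : z = φ (l' / 3) := hkz.symm.trans b3
      have hne : l' / 3 ≠ l / 3 := by
        intro hc
        rw [hc, ← hwx] at hzy
        rw [hzy] at hwz
        exact G.loopless.irrefl _ hwz
      obtain ⟨F5, F6⟩ := F4 k' l' hk' hl' hne
      have hadj : G.Adj (φ (l / 3)) (φ (l' / 3)) := by
        rw [← hwx, ← hzy]
        exact hwz
      rcases h.joink hG hn (a := l / 3) (b := l' / 3) (by omega) (by omega) hadj with c1 | ⟨c2, c3, -⟩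
      · rw [F5] at c1
        exact absurd c1 (by simp)
      · right
        have d1 : full p (l / 3) = false := not_full (fo_div p _) (Nat.eq_of_beq_eq_true c2)
        have d2 : full p (l' / 3) = false := not_full (fo_div p _) (Nat.eq_of_beq_eq_true c3)
        rcases F6 with F6 | F6 | F6
        · exact ⟨F6.1, F6.2, k, k', l, l', hk, hk', hkk, hl, hl', hlM, F5, hadj⟩
        · rw [d1] at F6
          exact absurd F6 (by simp)
        · rw [d2] at F6
          exact absurd F6 (by simp)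
    · exfalso
      obtain ⟨b1, b2, b3, b4, b5⟩ := h.lnk k' hkn' l' hl'
      rw [hkz] at b4 b5
      have c1 := h.adj l' b1
      rw [b5] at c1
      have c2 : φ i ≠ φ (l' / 3) := fun e => b3 (by
        have := h.inj _ hi _ (by omega) e
        omega)
      rcases hI.two b4 hiU (h.mem (l' / 3) (by omega)) c2 hiz.symm c1.symm hwU hwz.symm with e1 | e1
      · exact G.loopless.irrefl _ (e1 ▸ hiw)
      · rw [hwx] at e1
        exact F3 k' l' hk' hl' (h.inj _ (by omega) _ (by omega) e1.symm)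
  · exact absurd (hkw ▸ hwU) (h.lnk k hkn l hl).2.2.2.1

/-! ### the children with two adjacent direct neighbours -/

omit [Fintype V] [DecidableEq V] [DecidableRel G.Adj] in
theorem Emb.adjd_symm {U : Finset V} {n p : ℕ} {φ ν : ℕ → V} (h : Emb G U n p φ ν) {a b : ℕ} (ha : a < n)
    (hb : adjd p a b = true) : adjd p b a = true := by
  obtain ⟨k, l, h1, h2, h3⟩ := adjd_iff hb
  obtain ⟨a1, a2, -, -⟩ := h.dir k (by omega) l h2
  have := adjd_of a2
  rwa [h1, h3] at this

/-- the child in which the two direct neighbours behind the digits `d`, `d'` are adjacent -/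
def tpd (n p M d d' : ℕ) : List (ℕ × ℕ) :=
  bif isD d && isD d' && !(tb M (tg d) && tb M (tg d')) && !adjd p (tg d) (tg d') && opk p (tg d) &&
    opk p (tg d') then [(n, pdk p (tg d) (tg d'))] else []

/-- the children for the full nodes which count only without triangle -/
def tpl (e : Bool) (n p M : ℕ) : ℕ → List (ℕ × ℕ)
  | 0 => []
  | i + 1 => bif e && !tb M i && full p i && !Nat.beq (Nat.add (dn p i) (exn p M i)) 0 && ntr true p M i &&
      !ntr false p M i then
      tpd n p M (dg p (3 * i)) (dg p (3 * i + 1)) ++ (tpd n p M (dg p (3 * i)) (dg p (3 * i + 2)) ++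
        (tpd n p M (dg p (3 * i + 1)) (dg p (3 * i + 2)) ++ tpl e n p M i)) else tpl e n p M i

theorem mem_tpl {e : Bool} {n p M : ℕ} {q : ℕ × ℕ} {k k' : ℕ} : ∀ {m i : ℕ}, i < m →
    (e && !tb M i && full p i && !Nat.beq (Nat.add (dn p i) (exn p M i)) 0 && ntr true p M i &&
      !ntr false p M i) = true → k / 3 = i → k' / 3 = i → k < k' →
    q ∈ tpd n p M (dg p k) (dg p k') → q ∈ tpl e n p M m := by
  intro m
  induction m with
  | zero => intro i hi; omega
  | succ m ih =>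
    intro i hi h1 hk hk' hkk hq
    rw [tpl]
    rcases Nat.lt_succ_iff_lt_or_eq.1 hi with h4 | rfl
    · have h5 := ih h4 h1 hk hk' hkk hq
      cases e && !tb M m && full p m && !Nat.beq (Nat.add (dn p m) (exn p M m)) 0 && ntr true p M m &&
        !ntr false p M m
      · exact h5
      · exact List.mem_append_right _ (List.mem_append_right _ (List.mem_append_right _ h5))
    · rw [h1, cond_true]
      have h6 : (k = 3 * i ∧ k' = 3 * i + 1) ∨ (k = 3 * i ∧ k' = 3 * i + 2) ∨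
          (k = 3 * i + 1 ∧ k' = 3 * i + 2) := by
        clear h1 hq ih
        omega
      rcases h6 with ⟨e1, e2⟩ | ⟨e1, e2⟩ | ⟨e1, e2⟩
      · rw [e1, e2] at hq
        exact List.mem_append_left _ hq
      · rw [e1, e2] at hq
        exact List.mem_append_right _ (List.mem_append_left _ hq)
      · rw [e1, e2] at hq
        exact List.mem_append_right _ (List.mem_append_right _ (List.mem_append_left _ hq))

/-- a counted survivor is in no triangle with a survivor, or there is a child -/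
theorem Emb.tp_or (hG : G.IsRegularOfDegree 3) {U U' : Finset V} (hI : Inv G U) (hs : U' ⊆ U)
    {n p M : ℕ} {φ ν : ℕ → V} (h : Emb G U n p φ ν) (hn : n < 40)
    (hM : ∀ i < n, (M.testBit i = true ↔ φ i ∉ U')) {e : Bool} {i : ℕ} (hi : i < n)
    (hiM : M.testBit i ≠ true) (h0 : dn p i + exn p M i ≠ 0) (ht : ntr e p M i = true) :
    ¬ tri G U' (φ i) ∨ ∃ q ∈ tpl e n p M n, Ch G U n φ q := by
  cases hf : ntr false p M i
  swap
  · rcases h.ntr_or hG hI hs hn hM hi hf with h1 | ⟨h1, -⟩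
    · exact Or.inl h1
    · exact absurd h1 (by simp)
  rcases h.ntr_or hG hI hs hn hM hi ht with h1 | ⟨h1, h2, k, k', l, l', hk, hk', hkk, hl, hl', hlM, hna, hadj⟩
  · exact Or.inl h1
  right
  subst h1
  have hc : (true && !tb M i && full p i && !Nat.beq (Nat.add (dn p i) (exn p M i)) 0 && ntr true p M i &&
      !ntr false p M i) = true := by
    rw [tb_false hiM, h2, ht, hf, show Nat.beq (Nat.add (dn p i) (exn p M i)) 0 = false from beq_false h0]
    rfl
  obtain ⟨a1, -, -, -⟩ := h.dir k (by omega) l hl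
  obtain ⟨b1, -, -, -⟩ := h.dir k' (by omega) l' hl'
  rcases Nat.lt_or_ge k k' with hlt | hge
  · rcases h.joink hG hn (a := l / 3) (b := l' / 3) (by omega) (by omega) hadj with
      c1 | ⟨c2, c3, ν', c4⟩
    · rw [hna] at c1
      exact absurd c1 (by simp)
    · refine ⟨(n, pdk p (l / 3) (l' / 3)), mem_tpl hi hc hk hk' hlt ?_, le_rfl, φ, ν', c4, fun _ _ => rfl⟩
      unfold tpd
      rw [hl, hl', tg_dir, tg_dir, isD_iff.2 ⟨l, rfl⟩, isD_iff.2 ⟨l', rfl⟩, tb_false hlM, hna, c2, c3]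
      exact List.mem_singleton_self _
  · have hna' : adjd p (l' / 3) (l / 3) = false := by
      rw [← Bool.not_eq_true]
      intro hc'
      rw [h.adjd_symm (by omega) hc'] at hna
      exact absurd hna (by simp)
    rcases h.joink hG hn (a := l' / 3) (b := l / 3) (by omega) (by omega) hadj.symm with
      c1 | ⟨c2, c3, ν', c4⟩
    · rw [hna'] at c1
      exact absurd c1 (by simp)
    · refine ⟨(n, pdk p (l' / 3) (l / 3)), mem_tpl hi hc hk' hk (by omega) ?_, le_rfl, φ, ν', c4,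
        fun _ _ => rfl⟩
      unfold tpd
      rw [hl, hl', tg_dir, tg_dir, isD_iff.2 ⟨l, rfl⟩, isD_iff.2 ⟨l', rfl⟩, tb_false hlM, hna', c2, c3,
        Bool.and_false]
      exact List.mem_singleton_self _

/-! ### the counts -/

/-- the lonely outer vertices before the step which count -/
def kbK (e : Bool) (n p M : ℕ) : ℕ :=
  sm (fun i => frc (dn p i) fun s =>
    bif Nat.beq s 0 || tpc p i || (!tb M i && !ntr e p M i) then 0 else s) n

/-- the lonely outer vertices after the step which count, all isolated members are known full nodes -/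
def kaEK (e : Bool) (D n p M : ℕ) : ℕ :=
  sm (fun i => frc (Nat.add (dn p i) (exn p M i)) fun s =>
    bif Nat.beq s 0 || tb M i || (full p i && !Nat.beq (nd D p M i) 9) || !ntr e p M i then 0 else s) n

/-- the lonely outer vertices after the step which count -/
def kaWK (e : Bool) (D n p M : ℕ) : ℕ :=
  sm (fun i => frc (Nat.add (dn p i) (exn p M i)) fun s =>
    bif Nat.beq s 0 || tb M i || !Nat.beq (nd D p M i) 9 || !ntr e p M i then 0 else s) n

/-- the nodes which count before the step -/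
def skb (e : Bool) (n p M : ℕ) : Finset ℕ :=
  (range n).filter fun i => tpc p i ≠ true ∧ (M.testBit i = true ∨ ntr e p M i = true)

theorem kbK_eq (e : Bool) (n p M : ℕ) : kbK e n p M = ∑ i ∈ skb e n p M, dn p i := by
  unfold kbK skb
  rw [sm_eq, sum_filter]
  refine sum_congr rfl fun i _ => ?_
  rw [frc_eq, tb_eq]
  by_cases h0 : dn p i = 0
  · rw [h0, ite_self]
    rfl
  · rw [beq_false h0]
    cases tpc p i <;> cases M.testBit i <;> cases ntr e p M i <;> simp

theorem skb_out {U U' : Finset V} {n p M : ℕ} {φ ν : ℕ → V} (h : Emb G U n p φ ν)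
    (hM : ∀ i < n, (M.testBit i = true ↔ φ i ∉ U')) {e : Bool} {i : ℕ} (hi : i < n)
    (hno : i ∉ skb e n p M) : tri G U (φ i) ∨ (φ i ∈ U' ∧ (full p i = true → φ i ∉ iso G U')) := by
  unfold skb at hno
  rw [mem_filter, mem_range] at hno
  by_cases ht : tpc p i = true
  · exact Or.inl (h.tpc_tri hi ht)
  right
  have h1 : M.testBit i ≠ true := fun hb => hno ⟨hi, ht, Or.inl hb⟩
  have h2 : ntr e p M i = false := by
    rw [← Bool.not_eq_true]
    exact fun hb => hno ⟨hi, ht, Or.inr hb⟩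
  refine ⟨?_, fun hf hiso => ?_⟩
  · by_contra hc
    exact h1 ((hM i hi).2 hc)
  · unfold ntr at h2
    rw [hf, Bool.true_or, Bool.and_true, Bool.not_eq_false', anp_iff] at h2
    obtain ⟨k, hk, h3⟩ := h2
    rw [Bool.and_eq_true, Bool.and_eq_true, Bool.not_eq_true', tb_eq] at h3
    obtain ⟨⟨h4, h5⟩, -⟩ := h3
    obtain ⟨l, hl⟩ := isD_iff.1 h4
    rw [hl, tg_dir] at h5
    obtain ⟨a1, a2, a3, a4⟩ := h.dir k (by omega) l hl
    have b1 := h.adj k (by omega)
    rw [a3, hk] at b1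
    have h6 : φ (l / 3) ∈ U' := by
      by_contra hc
      rw [(hM (l / 3) (by omega)).2 hc] at h5
      exact absurd h5 (by simp)
    exact nU_ne_zero.2 ⟨_, h6, b1⟩ (mem_iso.1 hiso).2.1

/-! ### the credit for killed diamond pairs -/

/-- the node `i` and its direct neighbour `j` are a diamond pair -/
def kdp (p i j : ℕ) : Bool :=
  !(anp p i fun d => !((isD d && (Nat.beq (tg d) j || adjd p (tg d) j)) || (isL d && Nat.beq (tg d) j)))

/-- the port with digit `d` of the node `i` leads to the other member of a diamond pair, one of them is removed -/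
def kdd (p M i d : ℕ) : ℕ := bif isD d && (tb M i || tb M (tg d)) && kdp p i (tg d) then 1 else 0

/-- the number of the removed known ordered diamond pairs -/
def kdn (n p M : ℕ) : ℕ :=
  sm (fun i => frc (Nat.mul 3 i) fun k => Nat.add (Nat.add (kdd p M i (dg p k))
    (kdd p M i (dg p (Nat.add k 1)))) (kdd p M i (dg p (Nat.add k 2)))) n

theorem sum_ports (f : ℕ → ℕ) (n : ℕ) :
    ∑ i ∈ range n, (f (3 * i) + f (3 * i + 1) + f (3 * i + 2)) = ∑ k ∈ range (3 * n), f k := by
  induction n with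
  | zero => rfl
  | succ n ih =>
    rw [sum_range_succ, ih, show 3 * (n + 1) = 3 * n + 1 + 1 + 1 by ring, sum_range_succ, sum_range_succ,
      sum_range_succ]
    ring

theorem kdn_eq (n p M : ℕ) : kdn n p M = ((range (3 * n)).filter fun k => isD (dg p k) = true ∧
    (M.testBit (k / 3) = true ∨ M.testBit (tg (dg p k)) = true) ∧ kdp p (k / 3) (tg (dg p k)) = true).card := by
  unfold kdn
  rw [sm_eq, Finset.card_filter, ← sum_ports]
  refine sum_congr rfl fun i _ => ?_
  rw [frc_eq]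
  have key : ∀ k, k / 3 = i → kdd p M i (dg p k) = if isD (dg p k) = true ∧
      (M.testBit (k / 3) = true ∨ M.testBit (tg (dg p k)) = true) ∧
      kdp p (k / 3) (tg (dg p k)) = true then 1 else 0 := by
    rintro k rfl
    unfold kdd
    rw [tb_eq, tb_eq]
    cases isD (dg p k) <;> cases M.testBit (k / 3) <;> cases M.testBit (tg (dg p k)) <;>
      cases kdp p (k / 3) (tg (dg p k)) <;> simp
  rw [← key (3 * i) (by omega), ← key (3 * i + 1) (by omega), ← key (3 * i + 2) (by omega)]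
  rfl

omit [Fintype V] [DecidableEq V] [DecidableRel G.Adj] in
theorem Emb.kdp_of {U : Finset V} {n p : ℕ} {φ ν : ℕ → V} (hs : ∀ {i : ℕ}, i < n → ∀ {y : V}, G.Adj (φ i) y →
    ∃ k, k / 3 = i ∧ k < 3 * n ∧ ν k = y) (h : Emb G U n p φ ν) {i j : ℕ} (hi : i < n)
    (hadj : G.Adj (φ i) (φ j)) (hk : kdp p i j = true) : DPp G (φ i) (φ j) := by
  refine ⟨hadj, fun z hz hiz => ?_⟩
  obtain ⟨k, hk1, hk2, hk3⟩ := hs hi hiz
  unfold kdp at hk
  rw [Bool.not_eq_true'] at hk
  have h1 : ((isD (dg p k) && (Nat.beq (tg (dg p k)) j || adjd p (tg (dg p k)) j)) ||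
      (isL (dg p k) && Nat.beq (tg (dg p k)) j)) = true := by
    by_contra hc
    rw [Bool.not_eq_true] at hc
    refine absurd (anp_iff.2 ⟨k, hk1, ?_⟩) (by rw [hk]; simp)
    rw [hc]
    rfl
  rw [Bool.or_eq_true, Bool.and_eq_true, Bool.and_eq_true, Bool.or_eq_true] at h1
  rcases h1 with ⟨h1, h2⟩ | ⟨h1, h2⟩
  · obtain ⟨l, hl⟩ := isD_iff.1 h1
    rw [hl, tg_dir] at h2
    obtain ⟨a1, a2, a3, a4⟩ := h.dir k hk2 l hl
    rw [hk3] at a3
    rcases h2 with h2 | h2
    · rw [Nat.eq_of_beq_eq_true h2] at a3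
      exact absurd a3 hz
    · obtain ⟨a, m, b1, b2, b3⟩ := adjd_iff h2
      obtain ⟨c1, c2, c3, c4⟩ := h.dir a (by omega) m b2
      have d1 := h.adj a (by omega)
      rw [b1, c3, b3, ← a3] at d1
      exact d1.symm
  · obtain ⟨l, hl⟩ := isL_iff.1 h1
    rw [hl, tg_lnk] at h2
    obtain ⟨a1, a2, a3, a4, a5⟩ := h.lnk k hk2 l hl
    have d1 := h.adj l a1
    rwa [a5, hk3, Nat.eq_of_beq_eq_true h2] at d1

theorem Emb.kdn_le (hG : G.IsRegularOfDegree 3) {U U' : Finset V} (hs : U' ⊆ U) {n p M : ℕ}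
    {φ ν : ℕ → V} (h : Emb G U n p φ ν) (hM : ∀ i < n, (M.testBit i = true ↔ φ i ∉ U')) :
    kdn n p M + dpn G U' ≤ dpn G U := by
  classical
  rw [kdn_eq]
  obtain ⟨T, hT⟩ : ∃ T, T = ((range (3 * n)).filter fun k => isD (dg p k) = true ∧
    (M.testBit (k / 3) = true ∨ M.testBit (tg (dg p k)) = true) ∧ kdp p (k / 3) (tg (dg p k)) = true) :=
    ⟨_, rfl⟩
  rw [← hT]
  have mT : ∀ k ∈ T, k < 3 * n ∧ ∃ l, dg p k = 2 + 2 * l ∧ l < 3 * n ∧ ν k = φ (l / 3) ∧
      (M.testBit (k / 3) = true ∨ M.testBit (l / 3) = true) ∧ kdp p (k / 3) (l / 3) = true := fun k hk => by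
    rw [hT, mem_filter, mem_range] at hk
    obtain ⟨h1, h2, h3, h4⟩ := hk
    obtain ⟨l, hl⟩ := isD_iff.1 h2
    rw [hl, tg_dir] at h3 h4
    obtain ⟨a1, a2, a3, a4⟩ := h.dir k h1 l hl
    exact ⟨h1, l, hl, a1, a3, h3, h4⟩
  have h1 : (T.image fun k => (φ (k / 3), ν k)).card = T.card := by
    refine card_image_of_injOn fun k hk k' hk' e => ?_
    obtain ⟨a1, -⟩ := mT k hk
    obtain ⟨b1, -⟩ := mT k' hk'
    obtain ⟨e1, e2⟩ := Prod.ext_iff.1 e
    exact h.pinj k a1 k' b1 (h.inj _ (by omega) _ (by omega) e1) e2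
  rw [← h1]
  unfold dpn
  rw [← card_union_of_disjoint]
  · refine card_le_card fun q hq => ?_
    rcases mem_union.1 hq with hq | hq
    · obtain ⟨k, hk, rfl⟩ := mem_image.1 hq
      obtain ⟨a1, l, a2, a3, a4, a5, a6⟩ := mT k hk
      have b1 := h.adj k a1
      rw [a4] at b1
      rw [mem_dps]
      exact ⟨⟨h.mem _ (by omega), by rw [a4]; exact h.mem _ (by omega)⟩, by
        rw [a4]
        exact h.kdp_of (fun hi _ hy => h.surj hG hi hy) (by omega) b1 a6⟩
    · rw [mem_dps] at hq ⊢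
      exact ⟨⟨hs hq.1.1, hs hq.1.2⟩, hq.2⟩
  · rw [disjoint_left]
    intro q hq hq'
    obtain ⟨k, hk, rfl⟩ := mem_image.1 hq
    obtain ⟨a1, l, a2, a3, a4, a5, a6⟩ := mT k hk
    rw [mem_dps] at hq'
    obtain ⟨⟨b1, b2⟩, -⟩ := hq'
    rcases a5 with a5 | a5
    · exact (hM _ (by omega)).1 a5 b1
    · rw [a4] at b2
      exact (hM _ (by omega)).1 a5 b2

/-- the credit -/
def xdc (x : Bool) (c n p M : ℕ) : ℕ := bif x then Nat.mul c (kdn n p M) else 0

theorem Emb.xdc_le (hG : G.IsRegularOfDegree 3) {U U' : Finset V} (hs : U' ⊆ U) {n p M : ℕ}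
    {φ ν : ℕ → V} (h : Emb G U n p φ ν) (hM : ∀ i < n, (M.testBit i = true ↔ φ i ∉ U')) (x : Bool) (c : ℕ) :
    xdc x c n p M + c * dpn G U' ≤ c * dpn G U := by
  have h1 := Nat.mul_le_mul_left c (h.kdn_le hG hs hM)
  rw [mul_add] at h1
  cases x
  · change 0 + _ ≤ _
    omega
  · exact h1

/-! ### the steps -/

/-- the test and the children, all completions -/
def evbK (e x : Bool) (P O T TI D dl b c n p : ℕ) (L : List ℕ) : Option (List (ℕ × ℕ)) :=
  frc (kms p L 0) fun M => frc (ims p L 0) fun IN => frc (kbK e n p M) fun kt =>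
    bif Nat.ble (Nat.add n 5) 40 && pks n p L 0 &&
      Nat.ble (Nat.add (Nat.add (Nat.add (Nat.mul P L.length) (Nat.mul O (cnt n M)))
        (Nat.mul dl (n00 D n p M))) (Nat.mul b (mn kt 2)))
        (Nat.add (Nat.add (evs T TI n p M IN) (xdc x c n p M))
          (Nat.mul b (Nat.add (dnk n p M) (bon D (kaEK e D n p M) kt))))
    then some (kin n p M IN n ++ (tpl e n p M n ++ (evc D L n p M n ++ cml D L n 3 (n + 1) p 200))) else none

theorem kUT_zero {U : Finset V} {D : ℕ} (hD : ∀ x ∈ U, n1 G U x ≤ D) (h : D = 0) : kUT G U = 0 := by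
  have h1 := kUT_le (G := G) U
  have h2 := kU_zero hD h
  omega

/-- **the step with all completions** -/
theorem evbK_ch (hG : G.IsRegularOfDegree 3) {w w' : TF} {b : ℕ} (hww : Pair w w' b) (hw : w'.Pos)
    {e x : Bool} {P O T TI D dl c : ℕ} (hT : TabK w' O T) (hTI : TabKI w' O TI) {U : Finset V} (hI : Inv G U)
    (hD : ∀ x ∈ U, n1 G U x ≤ D) (hiso : iso G U = ∅) {n p : ℕ} {L : List ℕ} {R : List (ℕ × ℕ)}
    (hR : evbK e x P O T TI D dl b c n p L = some R) {φ ν : ℕ → V} (h : Emb G U n p φ ν) :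
    GoodU w dl P b c G U L.length ∨ ∃ q ∈ R, Ch G U n φ q := by
  classical
  unfold evbK at hR
  rw [frc_eq, frc_eq, frc_eq] at hR
  cases hc : Nat.ble (Nat.add n 5) 40 && pks n p L 0 &&
      Nat.ble (Nat.add (Nat.add (Nat.add (Nat.mul P L.length) (Nat.mul O (cnt n (kms p L 0))))
        (Nat.mul dl (n00 D n p (kms p L 0)))) (Nat.mul b (mn (kbK e n p (kms p L 0)) 2)))
        (Nat.add (Nat.add (evs T TI n p (kms p L 0) (ims p L 0)) (xdc x c n p (kms p L 0)))
          (Nat.mul b (Nat.add (dnk n p (kms p L 0))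
          (bon D (kaEK e D n p (kms p L 0)) (kbK e n p (kms p L 0))))))
  · rw [hc, cond_false] at hR
    exact absurd hR (by simp)
  rw [hc, cond_true, Option.some.injEq] at hR
  simp only [Bool.and_eq_true] at hc
  obtain ⟨⟨c1, c2⟩, c3⟩ := hc
  have hn : n + 5 ≤ 40 := Nat.le_of_ble_eq_true c1
  have hL := pks_of c2
  have hc3 := Nat.le_of_ble_eq_true c3
  rw [← hR]
  rcases h.stn_or hG hI (by omega) hL with ⟨q, h1, h2⟩ | hS
  · exact Or.inr ⟨q, List.mem_append_left _ h1, h2⟩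
  by_cases hno : ∃ q ∈ evc D L n p (kms p L 0) n ++ cml D L n 3 (n + 1) p 200, Ch G U n φ q
  · obtain ⟨q, h1, h2⟩ := hno
    exact Or.inr ⟨q, List.mem_append_right _ (List.mem_append_right _ h1), h2⟩
  by_cases hnt : ∃ q ∈ tpl e n p (kms p L 0) n, Ch G U n φ q
  · obtain ⟨q, h1, h2⟩ := hnt
    exact Or.inr ⟨q, List.mem_append_right _ (List.mem_append_left _ h1), h2⟩
  left
  have hP := h.pks_picks hG hI (L := L) [] c2 trivial (fun y hy => absurd hy List.not_mem_nil)
  rw [List.nil_append] at hP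
  refine ⟨L.map φ, List.length_map _, hP, ?_⟩
  have h1 := h.evsB_le hG hww hw hT hTI hI (hI.rem hG) rem_subset hS.msk
    (fun i hi hb => (hS.inn i hi hb).2)
  have key : ∀ v ∈ iso G (rem G U (L.map φ)), ∃ i < n, φ i = v ∧
      (kms p L 0).testBit i ≠ true ∧ full p i = true ∧ nd D p (kms p L 0) i ≠ 9 := fun v hv =>
    (h.iso_or hG hI hn hL hS hD hv (by rw [hiso]; exact notMem_empty _)).resolve_left hno
  have h2 : (iso G (rem G U (L.map φ))).card ≤ n00 D n p (kms p L 0) := by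
    rw [n00_eq]
    choose! f hf using key
    refine card_le_card_of_injOn f (fun v hv => ?_) fun v hv v' hv' e => ?_
    · obtain ⟨a1, a2, a3, a4, a5⟩ := hf v hv
      rw [mem_coe, mem_filter, mem_range]
      exact ⟨a1, a3, a4, a5⟩
    · rw [← (hf v hv).2.1, ← (hf v' hv').2.1, e]
  obtain ⟨R', hR'⟩ : ∃ A, A = (range n).filter (fun i => (kms p L 0).testBit i ≠ true ∧
    ¬ (full p i = true ∧ nd D p (kms p L 0) i ≠ 9) ∧ dn p i + exn p (kms p L 0) i ≠ 0 ∧
    ntr e p (kms p L 0) i = true) := ⟨_, rfl⟩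
  have hN : (isr G (rem G U (L.map φ)) n p φ).card ≤ 0 := by
    rw [Nat.le_zero, card_eq_zero, eq_empty_iff_forall_notMem]
    intro v hv
    obtain ⟨h3, h4⟩ := mem_filter.1 hv
    obtain ⟨i, a1, a2, -, a4, -⟩ := key v h3
    exact h4 ⟨i, a1, a2, a4⟩
  obtain ⟨es, ek, k1, k2, k3⟩ := h.bon_coreK hG hI rem_subset hS.msk hD (S := skb e n p (kms p L 0))
    (R := R') (fun i hi => mem_range.1 (mem_filter.1 hi).1) (fun i hi hno => skb_out h hS.msk hi hno)
    (fun i hi => by
    rw [hR', mem_filter, mem_range] at hi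
    obtain ⟨i1, i2, i3, i4, i5⟩ := hi
    refine ⟨i1, mem_sdiff.2 ⟨?_, fun hc => ?_⟩, ?_, ?_⟩
    · by_contra hc
      exact i2 ((hS.msk i i1).2 hc)
    · obtain ⟨j, a1, a2, -, a4, a5⟩ := key _ hc
      rw [h.inj j a1 i i1 a2] at a4 a5
      exact i3 ⟨a4, a5⟩
    · exact (h.tp_or hG hI rem_subset (by omega) hS.msk i1 i2 i4 i5).resolve_right hnt
    · by_cases ht : tpc p i = true
      · exact Or.inr (h.tpc_tri i1 ht)
      · exact Or.inl (mem_filter.2 ⟨mem_range.2 i1, ht, Or.inr i5⟩)) hN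
  rw [mul_zero, add_zero, ← kbK_eq] at k1
  have h3 : kaEK e D n p (kms p L 0) = ∑ i ∈ R', (dn p i + exn p (kms p L 0) i) := by
    unfold kaEK
    rw [sm_eq, hR', sum_filter]
    refine sum_congr rfl fun i _ => ?_
    rw [frc_eq, tb_eq]
    change (bif Nat.beq (dn p i + exn p (kms p L 0) i) 0 || _ || _ || _ then 0 else
      dn p i + exn p (kms p L 0) i) = _
    by_cases h0 : dn p i + exn p (kms p L 0) i = 0
    · rw [h0, ite_self]
      rfl
    · rw [beq_false h0]
      by_cases h4 : nd D p (kms p L 0) i = 9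
      · rw [h4]
        cases (kms p L 0).testBit i <;> cases full p i <;> cases ntr e p (kms p L 0) i <;> simp
      · rw [beq_false h4]
        cases (kms p L 0).testBit i <;> cases full p i <;> cases ntr e p (kms p L 0) i <;> simp [h4]
  rw [← h3] at k2
  have hx := h.xdc_le hG (rem_subset (L := L.map φ)) hS.msk x c
  rw [PsiT_iso, PsiT_iso, List.length_map]
  unfold PsiI
  rw [hiso, card_empty, mul_zero, add_zero]
  have h4 : P * L.length + O * cnt n (kms p L 0) + dl * n00 D n p (kms p L 0) +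
      b * mn (kbK e n p (kms p L 0)) 2 ≤
      evs T TI n p (kms p L 0) (ims p L 0) + xdc x c n p (kms p L 0) + b * (dnk n p (kms p L 0) +
        bon D (kaEK e D n p (kms p L 0)) (kbK e n p (kms p L 0))) := hc3
  rw [mn_eq, bon_eq] at h4
  have h5 := good_arith (Ps' := PsiT w G (rem G U (L.map φ))) (Ps := PsiT w G U + xdc x c n p (kms p L 0))
    (OC := O * cnt n (kms p L 0)) (E := evs T TI n p (kms p L 0) (ims p L 0) + xdc x c n p (kms p L 0))
    (Z := ∑ z ∈ U \ rem G U (L.map φ), n1 G U z) (by omega) k3 k1 k2 h2 (kUT_zero hD) h4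
  omega

/-- the test and the children, the worst case for isolated vertices -/
def evlK (e x : Bool) (P O T TI D dl b c n p : ℕ) (L : List ℕ) : Option (List (ℕ × ℕ)) :=
  frc (kms p L 0) fun M => frc (ims p L 0) fun IN =>
    frc (Nat.add (ndr D n p M) (xN D n p M (opm2 n p M IN))) fun N =>
    frc (Nat.add (kbK e n p M) (Nat.mul D N)) fun kt =>
    bif Nat.ble (Nat.succ n) 40 && pks n p L 0 &&
      Nat.ble (Nat.add (Nat.add (Nat.add (Nat.mul P L.length) (Nat.mul O (cnt n M)))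
        (Nat.mul dl (Nat.add (n00 D n p M) N))) (Nat.mul b (mn kt 2)))
        (Nat.add (Nat.add (evs T TI n p M IN) (xdc x c n p M))
          (Nat.mul b (Nat.add (dnk n p M) (bon D (kaWK e D n p M) kt))))
    then some (kin n p M IN n ++ tpl e n p M n) else none

/-- **the step with the worst case for isolated vertices** -/
theorem evlK_ch (hG : G.IsRegularOfDegree 3) {w w' : TF} {b : ℕ} (hww : Pair w w' b) (hw : w'.Pos)
    {e x : Bool} {P O T TI D dl c : ℕ} (hT : TabK w' O T) (hTI : TabKI w' O TI) {U : Finset V} (hI : Inv G U)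
    (hD : ∀ x ∈ U, n1 G U x ≤ D) (hiso : iso G U = ∅) {n p : ℕ} {L : List ℕ} {R : List (ℕ × ℕ)}
    (hR : evlK e x P O T TI D dl b c n p L = some R) {φ ν : ℕ → V} (h : Emb G U n p φ ν) :
    GoodU w dl P b c G U L.length ∨ ∃ q ∈ R, Ch G U n φ q := by
  classical
  unfold evlK at hR
  rw [frc_eq, frc_eq, frc_eq, frc_eq] at hR
  obtain ⟨N, hNd⟩ : ∃ N, N = Nat.add (ndr D n p (kms p L 0))
    (xN D n p (kms p L 0) (opm2 n p (kms p L 0) (ims p L 0))) := ⟨_, rfl⟩
  rw [← hNd] at hR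
  cases hc : Nat.ble (Nat.succ n) 40 && pks n p L 0 &&
      Nat.ble (Nat.add (Nat.add (Nat.add (Nat.mul P L.length) (Nat.mul O (cnt n (kms p L 0))))
        (Nat.mul dl (Nat.add (n00 D n p (kms p L 0)) N)))
          (Nat.mul b (mn (Nat.add (kbK e n p (kms p L 0)) (Nat.mul D N)) 2)))
        (Nat.add (Nat.add (evs T TI n p (kms p L 0) (ims p L 0)) (xdc x c n p (kms p L 0)))
          (Nat.mul b (Nat.add (dnk n p (kms p L 0))
          (bon D (kaWK e D n p (kms p L 0)) (Nat.add (kbK e n p (kms p L 0)) (Nat.mul D N))))))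
  · rw [hc, cond_false] at hR
    exact absurd hR (by simp)
  rw [hc, cond_true, Option.some.injEq] at hR
  simp only [Bool.and_eq_true] at hc
  obtain ⟨⟨c1, c2⟩, c3⟩ := hc
  have hn : n < 40 := Nat.le_of_ble_eq_true c1
  have hL := pks_of c2
  have hc3 := Nat.le_of_ble_eq_true c3
  rw [← hR]
  rcases h.stn_or hG hI hn hL with ⟨q, h1, h2⟩ | hS
  · exact Or.inr ⟨q, List.mem_append_left _ h1, h2⟩
  by_cases hnt : ∃ q ∈ tpl e n p (kms p L 0) n, Ch G U n φ q
  · obtain ⟨q, h1, h2⟩ := hnt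
    exact Or.inr ⟨q, List.mem_append_right _ h1, h2⟩
  left
  have hP := h.pks_picks hG hI (L := L) [] c2 trivial (fun y hy => absurd hy List.not_mem_nil)
  rw [List.nil_append] at hP
  refine ⟨L.map φ, List.length_map _, hP, ?_⟩
  have h1 := h.evsB_le hG hww hw hT hTI hI (hI.rem hG) rem_subset hS.msk
    (fun i hi hb => (hS.inn i hi hb).2)
  have hN : (isr G (rem G U (L.map φ)) n p φ).card ≤ N := by
    rw [hNd]
    exact h.isr_le hG hI hS hD hiso
  have hnd : ∀ i < n, φ i ∈ iso G (rem G U (L.map φ)) → nd D p (kms p L 0) i ≠ 9 := fun i hi hv => by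
    have h3 := (h.nd_le hG hS.sub hS.msk hi hv (by rw [hiso]; exact notMem_empty _)
      (hD _ (h.mem i hi))).trans (fro_card hG)
    omega
  have h2 : (iso G (rem G U (L.map φ))).card ≤ n00 D n p (kms p L 0) + N := by
    rw [← card_filter_add_card_filter_not (s := iso G (rem G U (L.map φ)))
      (fun v => ∃ i, i < n ∧ φ i = v ∧ full p i = true)]
    refine Nat.add_le_add ?_ hN
    rw [n00_eq]
    have key : ∀ v ∈ (iso G (rem G U (L.map φ))).filter (fun v => ∃ i, i < n ∧ φ i = v ∧ full p i = true),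
        ∃ i < n, φ i = v ∧ (kms p L 0).testBit i ≠ true ∧ full p i = true ∧
          nd D p (kms p L 0) i ≠ 9 := fun v hv => by
      obtain ⟨h3, i, i1, i2, i3⟩ := mem_filter.1 hv
      refine ⟨i, i1, i2, fun hb => (hS.msk i i1).1 hb ?_, i3, hnd i i1 (by rw [i2]; exact h3)⟩
      rw [i2]
      exact (mem_iso.1 h3).1
    choose! f hf using key
    refine card_le_card_of_injOn f (fun v hv => ?_) fun v hv v' hv' e => ?_
    · obtain ⟨a1, a2, a3, a4, a5⟩ := hf v hv
      rw [mem_coe, mem_filter, mem_range]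
      exact ⟨a1, a3, a4, a5⟩
    · rw [← (hf v hv).2.1, ← (hf v' hv').2.1, e]
  obtain ⟨R', hR'⟩ : ∃ A, A = (range n).filter (fun i => (kms p L 0).testBit i ≠ true ∧
    nd D p (kms p L 0) i = 9 ∧ dn p i + exn p (kms p L 0) i ≠ 0 ∧
    ntr e p (kms p L 0) i = true) := ⟨_, rfl⟩
  obtain ⟨es, ek, k1, k2, k3⟩ := h.bon_coreK hG hI rem_subset hS.msk hD (S := skb e n p (kms p L 0))
    (R := R') (fun i hi => mem_range.1 (mem_filter.1 hi).1) (fun i hi hno => skb_out h hS.msk hi hno)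
    (fun i hi => by
    rw [hR', mem_filter, mem_range] at hi
    obtain ⟨i1, i2, i3, i4, i5⟩ := hi
    refine ⟨i1, mem_sdiff.2 ⟨?_, fun hc => hnd i i1 hc i3⟩, ?_, ?_⟩
    · by_contra hc
      exact i2 ((hS.msk i i1).2 hc)
    · exact (h.tp_or hG hI rem_subset hn hS.msk i1 i2 i4 i5).resolve_right hnt
    · by_cases ht : tpc p i = true
      · exact Or.inr (h.tpc_tri i1 ht)
      · exact Or.inl (mem_filter.2 ⟨mem_range.2 i1, ht, Or.inr i5⟩)) hN
  rw [← kbK_eq] at k1
  have h3 : kaWK e D n p (kms p L 0) = ∑ i ∈ R', (dn p i + exn p (kms p L 0) i) := by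
    unfold kaWK
    rw [sm_eq, hR', sum_filter]
    refine sum_congr rfl fun i _ => ?_
    rw [frc_eq, tb_eq]
    change (bif Nat.beq (dn p i + exn p (kms p L 0) i) 0 || _ || _ || _ then 0 else
      dn p i + exn p (kms p L 0) i) = _
    by_cases h0 : dn p i + exn p (kms p L 0) i = 0
    · rw [h0, ite_self]
      rfl
    · rw [beq_false h0]
      by_cases h4 : nd D p (kms p L 0) i = 9
      · rw [h4]
        cases (kms p L 0).testBit i <;> cases ntr e p (kms p L 0) i <;> simp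
      · rw [beq_false h4]
        simp [h4]
  rw [← h3] at k2
  have hx := h.xdc_le hG (rem_subset (L := L.map φ)) hS.msk x c
  rw [PsiT_iso, PsiT_iso, List.length_map]
  unfold PsiI
  rw [hiso, card_empty, mul_zero, add_zero]
  have h4 : P * L.length + O * cnt n (kms p L 0) + dl * (n00 D n p (kms p L 0) + N) +
      b * mn (kbK e n p (kms p L 0) + D * N) 2 ≤
      evs T TI n p (kms p L 0) (ims p L 0) + xdc x c n p (kms p L 0) + b * (dnk n p (kms p L 0) +
        bon D (kaWK e D n p (kms p L 0)) (kbK e n p (kms p L 0) + D * N)) := hc3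
  rw [mn_eq, bon_eq] at h4
  have h5 := good_arith (Ps' := PsiT w G (rem G U (L.map φ))) (Ps := PsiT w G U + xdc x c n p (kms p L 0))
    (OC := O * cnt n (kms p L 0)) (E := evs T TI n p (kms p L 0) (ims p L 0) + xdc x c n p (kms p L 0))
    (Z := ∑ z ∈ U \ rem G U (L.map φ), n1 G U z) (by omega) k3 k1 k2 h2 (kUT_zero hD) h4
  omega

end EF18
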