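import Pool.Agent.Lib.MP_ef18bd_co.P.Bad
import Pool.Agent.Lib.MP_ef18bd_co.P.Bon
import Pool.Agent.Lib.MP_ef18bd_co.P.Flat

/-!
# The frame with a charge for the dead marked link vertices

`frameG`, `packingG`: any superadditive extra charge. `frame4`: the clean states are given, a connected state
with a piece has a step. `packing4`: the packing bound.
-/

namespace EF18

open Finset

variable {V : Type} [Fintype V] [DecidableEq V] {G : SimpleGraph V} [DecidableRel G.Adj]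

/-! ### any superadditive potential -/

/-- **the frame**: the clean states are given, the others have a step if they are connected -/
theorem frameG (hG : G.IsRegularOfDegree 3) (Φ : Finset V → ℕ) (P : ℕ) (Cl : Finset V → Prop)
    (hadd : ∀ A B : Finset V, Sep G A B → Φ A + Φ B ≤ Φ (A ∪ B))
    (h1 : ∀ x, x ∈ iso G ({x} : Finset V) → P ≤ Φ {x})
    (hcl : ∀ U : Finset V, Inv G U → U ≠ univ → Cl U → ∃ m, Has G U m ∧ P * m ≤ Φ U)
    (ha : ∀ U : Finset V, Inv G U → U ≠ univ → U.Nonempty → Con G U → iso G U = ∅ → ¬ Cl U →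
      ∃ X : List V, X ≠ [] ∧ Picks G U X ∧ Φ (rem G U X) + P * X.length ≤ Φ U) :
    ∀ U : Finset V, Inv G U → U ≠ univ → ∃ m, Has G U m ∧ P * m ≤ Φ U := by
  intro U
  induction U using Finset.strongInduction with
  | H U ih =>
    intro hI hU
    by_cases hn : Cl U
    · exact hcl U hI hU hn
    rcases U.eq_empty_or_nonempty with rfl | ⟨v, hv⟩
    · exact ⟨0, Has.empty, by rw [mul_zero]; exact Nat.zero_le _⟩
    by_cases hc : cmp G U v = U
    · have hcon : Con G U := hc ▸ cmp_con hv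
      by_cases hi : iso G U = ∅
      · obtain ⟨X, hX, c2, c3⟩ := ha U hI hU ⟨v, hv⟩ hcon hi hn
        obtain ⟨m, hm, hm2⟩ := ih _ (rem_ssubset hX c2) (hI.rem hG) (ne_univ_of_subset rem_subset hU)
        refine ⟨m + X.length, Has.picks c2 hm, ?_⟩
        rw [mul_add]
        omega
      · obtain ⟨x, hx⟩ := nonempty_iff_ne_empty.2 hi
        have e0 := iso_con hG hcon hx
        subst e0
        refine ⟨1, Has.one (mem_singleton_self x) (singleton_subset_iff.2 self_mem_B2), ?_⟩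
        have := h1 x hx
        omega
    · have e1 : cmp G U v ⊂ U := ⟨cmp_subset, fun h => hc (Subset.antisymm cmp_subset h)⟩
      have e2 : U \ cmp G U v ⊂ U :=
        ⟨sdiff_subset, fun h => (mem_sdiff.1 (h hv)).2 (mem_cmp_self hv)⟩
      have hs : Sep G (cmp G U v) (U \ cmp G U v) := cmp_sep
      have hI1 : Inv G (cmp G U v) := Inv.of_sep hs (by rw [cmp_union]; exact hI)
      have hI2 : Inv G (U \ cmp G U v) := Inv.of_sep hs.symm (by rw [union_comm, cmp_union]; exact hI)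
      obtain ⟨m1, b1, b2⟩ := ih _ e1 hI1 (ne_univ_of_subset e1.1 hU)
      obtain ⟨m2, c1, c2⟩ := ih _ e2 hI2 (ne_univ_of_subset e2.1 hU)
      refine ⟨m1 + m2, ?_, ?_⟩
      · have := Has.sep hs b1 c1
        rwa [cmp_union] at this
      · have e3 := hadd _ _ hs
        rw [cmp_union] at e3
        rw [mul_add]
        omega

/-- **the packing bound** with an extra charge `Ex` -/
theorem packingG (hG : G.IsRegularOfDegree 3) [hV : Nonempty V] (w : TF) (K : ℕ) (hK : 0 < K)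
    (Ex : Finset V → ℕ) (Cl : Finset V → Prop) {p2 p1 f2 f1 κ : ℕ}
    (hκ : 6 * κ ≤ 9 * K) (hF : ∀ a c, a + c ≤ 3 → w.F a c ≤ 3 * K + (3 - a - c) * p2 + c * p1)
    (h2 : 2 * p2 + f2 ≤ 3 * K + κ) (h1 : p1 + f1 ≤ 3 * K + κ)
    (hsup : ∀ A B : Finset V, Sep G A B → Ex A + Ex B ≤ Ex (A ∪ B))
    (hex : ∀ U : Finset V, Inv G U → Ex U ≤ ∑ p ∈ univ \ U, ch f2 f1 (nU G U p))
    (hs : ∀ x, x ∈ iso G ({x} : Finset V) → 14 * K ≤ PsiT w G {x})
    (hcl : ∀ U : Finset V, Inv G U → U ≠ univ → Cl U → ∃ m, Has G U m ∧ 14 * K * m ≤ PsiT w G U + Ex U)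
    (ha : ∀ U : Finset V, Inv G U → U ≠ univ → U.Nonempty → Con G U → iso G U = ∅ → ¬ Cl U →
      ∃ X : List V, X ≠ [] ∧ Picks G U X ∧ PsiT w G (rem G U X) + Ex (rem G U X) + 14 * K * X.length ≤
        PsiT w G U + Ex U) :
    ∃ S : Finset V, Pk G S ∧ Mx G univ S ∧ 14 * S.card ≤ 3 * Fintype.card V + 11 := by
  obtain ⟨v⟩ := hV
  have hI : Inv G (univ : Finset V) := fun x hx => absurd (mem_univ x) hx
  have hne : (univ : Finset V) \ B2 G v ≠ univ := fun h => by
    have := mem_univ v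
    rw [← h, mem_sdiff] at this
    exact this.2 self_mem_B2
  obtain ⟨m, hm, hm2⟩ := frameG hG (fun U => PsiT w G U + Ex U) (14 * K) Cl (fun A B h => by
    have a1 := PsiT_union w h
    have a2 := hsup A B h
    omega) (fun x hx => (hs x hx).trans (Nat.le_add_right _ _)) hcl ha _ (hI.pick hG v) hne
  obtain ⟨S, a1, a2, a3⟩ := (Has.pick (mem_univ v) hm).packing
  refine ⟨S, a1, a2, ?_⟩
  have e0 : (linTF (3 * K) p2 p1).F 3 0 = 3 * K := by simp [linTF]
  have h3 := PsiT_first hG (linTF (3 * K) p2 p1) (f2 := f2) (f1 := f1) (κ := κ)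
    (by rw [e0]; exact h2) (by rw [e0]; exact h1) v
  have h4 := hex _ (hI.pick hG v)
  have h5 : PsiT w G (univ \ B2 G v) ≤ PsiT (linTF (3 * K) p2 p1) G (univ \ B2 G v) :=
    PsiT_le hG hF (hI.pick hG v)
  rw [e0] at h3
  have h6 : K * (14 * (m + 1)) ≤ K * (3 * Fintype.card V + 11) := by
    have e1 : K * (14 * (m + 1)) = 14 * K * m + 14 * K := by ring
    have e2 : K * (3 * Fintype.card V + 11) = 3 * K * Fintype.card V + 11 * K := by ring
    rw [e1, e2]
    omega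
  have h7 := Nat.le_of_mul_le_mul_left h6 hK
  omega

/-- the same for the flat potential with the charge for isolated members -/
theorem packingG_flat (hG : G.IsRegularOfDegree 3) [Nonempty V]
    (Ex : Finset V → ℕ) (Cl : Finset V → Prop)
    (hsup : ∀ A B : Finset V, Sep G A B → Ex A + Ex B ≤ Ex (A ∪ B))
    (hex : ∀ U : Finset V, Inv G U → Ex U ≤ ∑ p ∈ univ \ U, ch 9 5 (nU G U p))
    (hcl : ∀ U : Finset V, Inv G U → U ≠ univ → Cl U →
      ∃ m, Has G U m ∧ 84 * m ≤ PsiT (fw.iso 12) G U + Ex U)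
    (ha : ∀ U : Finset V, Inv G U → U ≠ univ → U.Nonempty → Con G U → iso G U = ∅ → ¬ Cl U →
      ∃ X : List V, X ≠ [] ∧ Picks G U X ∧ PsiT (fw.iso 12) G (rem G U X) + Ex (rem G U X) +
        84 * X.length ≤ PsiT (fw.iso 12) G U + Ex U) :
    ∃ S : Finset V, Pk G S ∧ Mx G univ S ∧ 14 * S.card ≤ 3 * Fintype.card V + 11 := by
  refine packingG hG (fw.iso 12) 6 (by norm_num) Ex Cl (p2 := 9) (p1 := 22) (f2 := 9) (f1 := 5)
    (κ := 9) (by norm_num) ?_ (by norm_num) (by norm_num) hsup hex ?_ hcl ha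
  · intro a c h
    show 18 + (3 - a - c) * 9 + c * 18 + (if a = 0 ∧ c = 3 then 12 else 0) ≤
      3 * 6 + (3 - a - c) * 9 + c * 22
    split_ifs with h1
    · rw [h1.1, h1.2]
    · omega
  · intro x hx
    rw [PsiT_single hx]
    decide

/-! ### the charge for the dead marked link vertices -/

/-- the potential with `e` for every dead marked link vertex -/
noncomputable def PhiZ (w : TF) (e : ℕ) (ML : List MPc) (G : SimpleGraph V) [DecidableRel G.Adj]
    (U : Finset V) : ℕ := PsiT w G U + e * (bz ML G U).card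

/-- a good set of picks for this potential -/
def GoodZ (w : TF) (P e : ℕ) (ML : List MPc) (G : SimpleGraph V) [DecidableRel G.Adj] (U : Finset V)
    (c : ℕ) : Prop :=
  ∃ X : List V, X.length = c ∧ Picks G U X ∧ PhiZ w e ML G (rem G U X) + P * X.length ≤ PhiZ w e ML G U

/-- no piece of the list in `U` -/
def NoM (ML : List MPc) (G : SimpleGraph V) (U : Finset V) : Prop :=
  ∀ e ∈ ML, ∀ E ⊆ U, ¬ Pc G E e.1.1 e.1.2

theorem bz_sup {e : ℕ} {ML : List MPc} (hML : ML.all mkok = true) {A B : Finset V}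
    (h : Sep G A B) : e * (bz ML G A).card + e * (bz ML G B).card ≤ e * (bz ML G (A ∪ B)).card := by
  rw [← mul_add]
  exact Nat.mul_le_mul_left e (bz_union hML h)

/-- the dead marked link vertices, paid by the outer vertices -/
theorem bz_out {ML : List MPc} (hML : ML.all mkok = true) {e f2 f1 : ℕ} (he : e ≤ f2) {U : Finset V}
    (hI : Inv G U) : e * (bz ML G U).card ≤ ∑ p ∈ univ \ U, ch f2 f1 (nU G U p) := by
  have h1 : bz ML G U ⊆ univ \ U := fun z hz => mem_sdiff.2 ⟨mem_univ _, (mem_bz.1 hz).1⟩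
  refine le_trans ?_ (sum_le_sum_of_subset h1)
  have h2 : ∀ z ∈ bz ML G U, e ≤ ch f2 f1 (nU G U z) := fun z hz => by
    rw [bz_nU hML hI hz]
    exact he
  have h3 := sum_le_sum h2
  rw [sum_const, smul_eq_mul, mul_comm] at h3
  exact h3

omit [Fintype V] [DecidableEq V] [DecidableRel G.Adj] in
theorem not_noM {ML : List MPc} {U : Finset V} (h : ¬ NoM ML G U) :
    ∃ E ⊆ U, ∃ q ∈ ML, Pc G E q.1.1 q.1.2 := by
  unfold NoM at h
  push Not at h
  obtain ⟨q, hq, E, hE, h⟩ := h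
  exact ⟨E, hE, q, hq, h⟩

/-- **the frame** -/
theorem frame4 (hG : G.IsRegularOfDegree 3) {w : TF} {P e : ℕ} {ML : List MPc} (hML : ML.all mkok = true)
    (h1 : ∀ x, x ∈ iso G ({x} : Finset V) → P ≤ PsiT w G {x})
    (hcl : ∀ U : Finset V, Inv G U → U ≠ univ → NoM ML G U → ∃ m, Has G U m ∧ P * m ≤ PsiT w G U)
    (ha : ∀ U E : Finset V, Inv G U → U ≠ univ → U.Nonempty → Con G U → iso G U = ∅ → E ⊆ U →
      (∃ q ∈ ML, Pc G E q.1.1 q.1.2) → ∃ c, c ≠ 0 ∧ GoodZ w P e ML G U c) :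
    ∀ U : Finset V, Inv G U → U ≠ univ → ∃ m, Has G U m ∧ P * m ≤ PhiZ w e ML G U := by
  refine frameG hG (PhiZ w e ML G) P (NoM ML G) (fun A B h => ?_)
    (fun x hx => (h1 x hx).trans (Nat.le_add_right _ _)) (fun U a b c => ?_) fun U a1 a2 a3 a4 a5 a6 => ?_
  · unfold PhiZ
    have b1 := PsiT_union w h
    have b2 := bz_sup (e := e) hML h
    omega
  · obtain ⟨m, m1, m2⟩ := hcl U a b c
    exact ⟨m, m1, m2.trans (Nat.le_add_right _ _)⟩
  · obtain ⟨E, hE, hq⟩ := not_noM a6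
    obtain ⟨c, c0, X, c1, c2, c3⟩ := ha U E a1 a2 a3 a4 a5 hE hq
    exact ⟨X, fun e => c0 (by rw [← c1, e]; rfl), c2, c3⟩

/-- **the packing bound** -/
theorem packing4 (hG : G.IsRegularOfDegree 3) [Nonempty V] {e : ℕ} {ML : List MPc}
    (hML : ML.all mkok = true) (he : e ≤ 9)
    (hcl : ∀ U : Finset V, Inv G U → U ≠ univ → NoM ML G U →
      ∃ m, Has G U m ∧ 84 * m ≤ PsiT (fw.iso 12) G U)
    (ha : ∀ U E : Finset V, Inv G U → U ≠ univ → U.Nonempty → Con G U → iso G U = ∅ → E ⊆ U →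
      (∃ q ∈ ML, Pc G E q.1.1 q.1.2) → ∃ c, c ≠ 0 ∧ GoodZ (fw.iso 12) 84 e ML G U c) :
    ∃ S : Finset V, Pk G S ∧ Mx G univ S ∧ 14 * S.card ≤ 3 * Fintype.card V + 11 := by
  refine packingG_flat hG (fun U => e * (bz ML G U).card) (NoM ML G) (fun A B h => bz_sup hML h)
    (fun U hU => bz_out hML he hU) (fun U a b c => ?_) fun U a1 a2 a3 a4 a5 a6 => ?_
  · obtain ⟨m, m1, m2⟩ := hcl U a b c
    exact ⟨m, m1, m2.trans (Nat.le_add_right _ _)⟩
  · obtain ⟨E, hE, hq⟩ := not_noM a6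
    obtain ⟨c, c0, X, c1, c2, c3⟩ := ha U E a1 a2 a3 a4 a5 hE hq
    exact ⟨X, fun e => c0 (by rw [← c1, e]; rfl), c2, c3⟩

end EF18
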