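import Pool.Agent.Lib.MP_ef18bd_co.P.Ovl
import Pool.Agent.Lib.MP_ef18bd_co.P.Fr4

/-!
# The step for states with pieces

`evbZ`, `evlZ`: the leaf with the charge `e` for every removed node which may be a new marked link vertex, and
the credit `e` for the known marked link vertices which lose a neighbour. The nodes of the mask `XM` are not
charged, the overlays `ovs` are children. `stZ`: the step, tokens `x % 4 = 0` (all cases for a port), `1` (all
completions), `2` (worst case), `3` (a piece of the list `PL`).
-/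

namespace EF18

open Finset

variable {V : Type} [Fintype V] [DecidableEq V] {G : SimpleGraph V} [DecidableRel G.Adj]

/-- the table of the removed nodes -/
def tKw : ℕ := 310040707034277289975157198673786008463968144816812393204082536998642228115713015693882343910344719289123008179480123452829785082049975411977330371568572471389303942480251025961464722137192558420639561159822174838885473851075869842444369393851445774451216797908480628727533441119937931557435980926706753933614408132898313153754074938891025326246727848215119300320999625521859383147872640642782715283251484440964239647082247382056566873414327023684852911348579406687518221100947936433743093132912549140437569666871059393464460335239185425509739546272903505419139071150592173332668013259454250857654394950972404998727855732711981900757502400146887575969032678799305844915080579196244810748785631824424965879036156266265922821132899250776931609692908614374571382861722780950373451540822006173255540850584217019321189234433290629816958696092637574061903211027818623261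07089630518127443552080973186738903412369505556574861009888084743286608911973511267119793397221165846889392376935740371414141817306321797763976821710977014229198742221810627160060387519261421031463288035516430837776306260940912800696899371557809684516000398808685782695650853548602731877998255767970166078840287317016642766719427176567665555274863193406810336847617623845717392412235834275171984815801300358190680666798366624331399827279342967497603191669241784287166926113855048359936209131967002355689316828934533235013850005684818814312689012564843373279485322093821293689485563542266840234871243337531915973456400641932616625097519825801667673018254646510629835159493363658191005325454890482349120942609294857826448526880586894365611352985483298467137227794546748148959966024302592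

/-- the table of the inner nodes -/
def tIw : ℕ := 3100407069620919648052478113127098464893579257114541190783645923616252348581074367662334417098956974408660338621951144242474606174851732510487284868909383007870383291945220219578248271716351731337989185451890172871878184815926000270713993329287923296967495755903024116165659212290829035597960657110090300616672489980614515360011432096201641533629496653422820178229542824000603246002925389085052115290180298623008152358071859096354027327110472804367018984042008453904683611352223179018674934361265745373628292188081491581528304444183783805767876219773823252918997836829551265311900782196301489302128401852521979828830227127052506953158117476781024629923041072015652606209232732199073686746780460540443289930656804871172949063072248677412939527715577948467629354102030216736154410354899231183361172331025447960759869149103145689674831549501760780694230006855366228512033473331543854669730772447616035108581171335061603918994942201287614997071815187890108235752801964368937972861973562663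9862945967985463479167433603826969411798948928109901267244862435267711380523689200885359586184549166996526058382295410291985541386725857738320838563085052428421637054241808546493082555103170373602607025742473018781054552151175428202009556028666028921405306879008185542565436196389336057124278200085970730723858756345774993350589634060182152105084323340339011458491498855893145934912654735446458612755919561801346958866125811239173828166331453459407480928858331038007275710642277617035443942985893796705108845499785327781942615925091112587782985461742468793760518920310412497501791956344331514837385494846826163679759128991989292438118019840878328092703325723820050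

theorem pos_w : fw.Pos where
  pos := fun a c s q h1 h2 h3 => by
    show s * (if s = 2 then 9 else if s = 1 then 18 else 0) + q * 9 ≤ 18 + (3 - a - c) * 9 + c * 18
    have h4 : s * (if s = 2 then 9 else if s = 1 then 18 else 0) ≤ 18 := by
      have h5 : s = 0 ∨ s = 1 ∨ s = 2 := by omega
      rcases h5 with rfl | rfl | rfl <;> simp
    have h6 : q * 9 ≤ (3 - a - c) * 9 := Nat.mul_le_mul_right _ (by omega)
    omega

theorem tabK_w : TabK fw 0 tKw := by
  have h : tabB false fw tKw = true := by decide +kernel
  intro x hx y hy z hz x' hx' y' hy' z' hz'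
  rw [add_zero]
  exact tabB_of h x hx y hy z hz x' hx' y' hy' z' hz' (fun e => absurd e (by decide))

theorem tabKI_w : TabKI fw 0 tIw := by
  have h : tabB true fw tIw = true := by decide +kernel
  intro x hx y hy z hz x' hx' y' hy' z' hz' h0
  rw [add_zero]
  have h1 := tabB_of h x hx y hy z hz x' hx' y' hy' z' hz' (fun _ => h0)
  omega

/-! ### the new marked link vertices -/

/-- the removed nodes which may be new marked link vertices -/
def outx (n p M IN XM : ℕ) : ℕ :=
  Nat.add (sm (fun i => bif tb M i && !tb IN i && !tb XM i && Nat.ble 2 (Nat.add (sdn p M i) (opn p i))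
    then 1 else 0) n) (opm n p IN)

open scoped Classical in
theorem Emb.new_le (hG : G.IsRegularOfDegree 3) {ML : List MPc} {U U' : Finset V} {n p M IN XM : ℕ}
    {φ ν : ℕ → V} (h : Emb G U n p φ ν) (hS : Stn G U U' n p M IN φ ν)
    (hX : ∀ i < n, XM.testBit i = true → ¬ BZ ML G U' (φ i)) :
    ((cuts2 G U U').filter (BZ ML G U')).card ≤ outx n p M IN XM := by
  obtain ⟨A, hA⟩ : ∃ A, A = (range n).filter (fun i => M.testBit i = true ∧ IN.testBit i ≠ true ∧
    XM.testBit i ≠ true ∧ 2 ≤ sdn p M i + opn p i) := ⟨_, rfl⟩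
  obtain ⟨B, hB⟩ : ∃ B, B = (range (3 * n)).filter (fun k => dg p k = 0 ∧ IN.testBit (k / 3) = true) := ⟨_, rfl⟩
  have h1 : (cuts2 G U U').filter (BZ ML G U') ⊆ A.image φ ∪ B.image ν := by
    intro y hy
    rw [mem_filter] at hy
    obtain ⟨hy, hbz⟩ := hy
    unfold cuts2 at hy
    rw [mem_filter, mem_sdiff] at hy
    obtain ⟨⟨y1, y2⟩, y3⟩ := hy
    rcases hS.out y y1 y2 with ⟨t, t1, t2, rfl⟩ | ⟨k, k1, k2, k3, rfl⟩
    · refine mem_union_left _ (mem_image_of_mem φ ?_)
      rw [hA, mem_filter, mem_range]
      refine ⟨t1, t2, fun hb => ?_, fun hb => hX t t1 hb hbz, ?_⟩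
      · have h3 : nU G U' (φ t) ≠ 0 := by omega
        obtain ⟨a, ha, hya⟩ := nU_ne_zero.1 h3
        exact (hS.inn t t1 hb).2 a hya ha
      · rw [← y3]
        exact h.nU_leo hG hS.sub hS.msk t1
    · refine mem_union_right _ (mem_image_of_mem ν ?_)
      rw [hB, mem_filter, mem_range]
      exact ⟨k1, k3, k2⟩
  refine (card_le_card h1).trans ((card_union_le _ _).trans ?_)
  unfold outx
  rw [opm_eq, ← hB]
  refine Nat.add_le_add (card_image_le.trans ?_) card_image_le
  rw [sm_eq, hA, Finset.card_filter]
  refine sum_le_sum fun i _ => ?_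
  split_ifs with hc
  · rw [tb_eq, hc.1, tb_false hc.2.1, tb_false hc.2.2.1,
      show Nat.ble 2 (Nat.add (sdn p M i) (opn p i)) = true from Nat.ble_eq_true_of_le hc.2.2.2]
    exact le_rfl
  · exact Nat.zero_le _

/-- the overlays for the nodes of the mask -/
def ovm (ok : ℕ → ℕ → Bool) (d : Bool) (ML : List MPc) (L : List ℕ) (XM n p : ℕ) : ℕ → List (ℕ × ℕ)
  | 0 => []
  | i + 1 => bif tb XM i then ovs ok d ML L i 60 n p ++ ovm ok d ML L XM n p i else ovm ok d ML L XM n p i

theorem mem_ovm {ok : ℕ → ℕ → Bool} {d : Bool} {ML : List MPc} {L : List ℕ} {XM n p : ℕ} {q : ℕ × ℕ} :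
    ∀ {m i : ℕ}, i < m → XM.testBit i = true → q ∈ ovs ok d ML L i 60 n p → q ∈ ovm ok d ML L XM n p m := by
  intro m
  induction m with
  | zero => intro i hi; omega
  | succ m ih =>
    intro i hi h1 h2
    rw [ovm]
    rcases Nat.lt_succ_iff_lt_or_eq.1 hi with h3 | rfl
    · have h4 := ih h3 h1 h2
      cases tb XM m
      · exact h4
      · exact List.mem_append_right _ h4
    · rw [tb_eq, h1, cond_true]
      exact List.mem_append_left _ h2

/-- the arithmetic of the leaf -/
theorem goodZ_of (hG : G.IsRegularOfDegree 3) {e : ℕ} {ML : List MPc} (hML : ML.all mkok = true)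
    {U : Finset V} (hI : Inv G U) (hiso : iso G U = ∅) {n p M IN XM MB N : ℕ} {φ ν : ℕ → V}
    (h : Emb G U n p φ ν) {L : List ℕ} (hP : Picks G U (L.map φ))
    (hS : Stn G U (rem G U (L.map φ)) n p M IN φ ν)
    (hX : ∀ i < n, XM.testBit i = true → ¬ BZ ML G (rem G U (L.map φ)) (φ i))
    (hMB : ∀ t, MB.testBit t = true → t < 3 * n ∧ (∃ c, dg p t = 3 + 2 * c) ∧ ν t ∈ bz ML G U)
    (hN : (iso G (rem G U (L.map φ))).card ≤ N)
    (hc : 84 * L.length + 12 * N + e * outx n p M IN XM ≤ evs tKw tIw n p M IN + e * dst n p M MB) :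
    GoodZ (fw.iso 12) 84 e ML G U L.length := by
  classical
  refine ⟨L.map φ, List.length_map _, hP, ?_⟩
  have h1 := h.evs_le hG pos_w tabK_w tabKI_w hI (hI.rem hG) rem_subset hS.msk
    (fun i hi hb => (hS.inn i hi hb).2)
  have h2 := bz_step_card hML (rem_subset (G := G) (U := U) (L := L.map φ)) (hI.rem hG)
  have h3 := h.new_le hG hS hX
  have h4 := h.dst_le rem_subset hI hS.msk hMB
  have h5 := Nat.mul_le_mul_left e (show (bz ML G (rem G U (L.map φ))).card + dst n p M MB ≤
    (bz ML G U).card + outx n p M IN XM by omega)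
  rw [mul_add, mul_add] at h5
  unfold PhiZ
  rw [PsiT_iso, PsiT_iso, List.length_map]
  unfold PsiI
  rw [hiso, card_empty, mul_zero, add_zero]
  have h6 := Nat.mul_le_mul_left 12 hN
  omega

/-- all completions -/
def evbZ (e : ℕ) (ok : ℕ → ℕ → Bool) (ML : List MPc) (D n p : ℕ) (L : List ℕ) (XM y : ℕ) :
    Option (List (ℕ × ℕ)) :=
  frc (kms p L 0) fun M => frc (ims p L 0) fun IN =>
    bif Nat.ble (Nat.add n 5) 40 && pks n p L 0 &&
      Nat.ble (Nat.add (Nat.add (Nat.mul 84 L.length) (Nat.mul 12 (n00 D n p M)))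
        (Nat.mul e (outx n p M IN XM))) (Nat.add (evs tKw tIw n p M IN)
        (Nat.mul e (dst n p M (zms ML n p y 6))))
    then some (ovm ok (Nat.ble 1 D) ML L XM n p n ++
      (kin n p M IN n ++ (evc D L n p M n ++ cml D L n 3 (n + 1) p 200))) else none

theorem evbZ_ch (hG : G.IsRegularOfDegree 3) {e : ℕ} {ok : ℕ → ℕ → Bool} {ML : List MPc}
    (hML : ML.all mkok = true) {D : ℕ} {U : Finset V} (hI : Inv G U)
    (hok : ∀ n p φ ν, Emb G U n p φ ν → ok n p = true)
    (hd : Nat.ble 1 D = true ∨ ∀ y, y ∉ U → ∀ x ∈ U, G.Adj y x → ∃ x' ∈ U, x' ≠ x ∧ G.Adj y x')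
    (hD : ∀ x ∈ U, n1 G U x ≤ D) (hiso : iso G U = ∅) {n p : ℕ}
    {L : List ℕ} {XM y : ℕ} {R : List (ℕ × ℕ)} (hR : evbZ e ok ML D n p L XM y = some R) {φ ν : ℕ → V}
    (h : Emb G U n p φ ν) : GoodZ (fw.iso 12) 84 e ML G U L.length ∨ ∃ q ∈ R, Ch G U n φ q := by
  classical
  unfold evbZ at hR
  rw [frc_eq, frc_eq] at hR
  cases hc : Nat.ble (Nat.add n 5) 40 && pks n p L 0 &&
      Nat.ble (Nat.add (Nat.add (Nat.mul 84 L.length) (Nat.mul 12 (n00 D n p (kms p L 0))))
        (Nat.mul e (outx n p (kms p L 0) (ims p L 0) XM))) (Nat.add (evs tKw tIw n p (kms p L 0) (ims p L 0))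
        (Nat.mul e (dst n p (kms p L 0) (zms ML n p y 6))))
  · rw [hc, cond_false] at hR
    exact absurd hR (by simp)
  rw [hc, cond_true, Option.some.injEq] at hR
  simp only [Bool.and_eq_true] at hc
  obtain ⟨⟨c1, c2⟩, c3⟩ := hc
  have hn : n + 5 ≤ 40 := Nat.le_of_ble_eq_true c1
  have hL := pks_of c2
  have hc3 := Nat.le_of_ble_eq_true c3
  rw [← hR]
  rcases h.stn_or hG hI (by omega) hL with ⟨q, h1, h2⟩ | hS
  · exact Or.inr ⟨q, List.mem_append_right _ (List.mem_append_left _ h1), h2⟩
  by_cases hno : ∃ q ∈ evc D L n p (kms p L 0) n ++ cml D L n 3 (n + 1) p 200, Ch G U n φ q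
  · obtain ⟨q, h1, h2⟩ := hno
    exact Or.inr ⟨q, List.mem_append_right _ (List.mem_append_right _ h1), h2⟩
  by_cases hX : ∃ i < n, XM.testBit i = true ∧ BZ ML G (rem G U (L.map φ)) (φ i)
  · obtain ⟨i, hi, h1, h2⟩ := hX
    obtain ⟨q, h3, h4⟩ := ovs_ch hG hI hok hd hML 60 n p φ ν h (fun x hx => (hL x hx).1) hi h2
    exact Or.inr ⟨q, List.mem_append_left _ (mem_ovm hi h1 h3), h4⟩
  left
  push Not at hX
  have hP := h.pks_picks hG hI (L := L) [] c2 trivial (fun y hy => absurd hy List.not_mem_nil)
  rw [List.nil_append] at hP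
  have h2 : (iso G (rem G U (L.map φ))).card ≤ n00 D n p (kms p L 0) := by
    rw [n00_eq]
    have key : ∀ v ∈ iso G (rem G U (L.map φ)), ∃ i < n, φ i = v ∧
        (kms p L 0).testBit i ≠ true ∧ full p i = true ∧ nd D p (kms p L 0) i ≠ 9 := fun v hv =>
      (h.iso_or hG hI hn hL hS hD hv (by rw [hiso]; exact notMem_empty _)).resolve_left hno
    choose! f hf using key
    refine card_le_card_of_injOn f (fun v hv => ?_) fun v hv v' hv' e => ?_
    · obtain ⟨a1, a2, a3, a4, a5⟩ := hf v hv
      rw [mem_coe, mem_filter, mem_range]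
      exact ⟨a1, a3, a4, a5⟩
    · rw [← (hf v hv).2.1, ← (hf v' hv').2.1, e]
  exact goodZ_of hG hML hI hiso h hP hS hX (zms_of hG hML hI h 6 y) h2 hc3

/-- the worst case for isolated vertices -/
def evlZ (e : ℕ) (ok : ℕ → ℕ → Bool) (ML : List MPc) (D n p : ℕ) (L : List ℕ) (XM y : ℕ) :
    Option (List (ℕ × ℕ)) :=
  frc (kms p L 0) fun M => frc (ims p L 0) fun IN =>
    bif Nat.ble (Nat.succ n) 40 && pks n p L 0 &&
      Nat.ble (Nat.add (Nat.add (Nat.mul 84 L.length)
        (Nat.mul 12 (Nat.add (ndn D n p M 0) (xN D n p M (opm2 n p M IN)))))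
        (Nat.mul e (outx n p M IN XM))) (Nat.add (evs tKw tIw n p M IN)
        (Nat.mul e (dst n p M (zms ML n p y 6))))
    then some (ovm ok (Nat.ble 1 D) ML L XM n p n ++ kin n p M IN n) else none

theorem evlZ_ch (hG : G.IsRegularOfDegree 3) {e : ℕ} {ok : ℕ → ℕ → Bool} {ML : List MPc}
    (hML : ML.all mkok = true) {D : ℕ} {U : Finset V} (hI : Inv G U)
    (hok : ∀ n p φ ν, Emb G U n p φ ν → ok n p = true)
    (hd : Nat.ble 1 D = true ∨ ∀ y, y ∉ U → ∀ x ∈ U, G.Adj y x → ∃ x' ∈ U, x' ≠ x ∧ G.Adj y x')
    (hD : ∀ x ∈ U, n1 G U x ≤ D) (hiso : iso G U = ∅) {n p : ℕ}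
    {L : List ℕ} {XM y : ℕ} {R : List (ℕ × ℕ)} (hR : evlZ e ok ML D n p L XM y = some R) {φ ν : ℕ → V}
    (h : Emb G U n p φ ν) : GoodZ (fw.iso 12) 84 e ML G U L.length ∨ ∃ q ∈ R, Ch G U n φ q := by
  classical
  unfold evlZ at hR
  rw [frc_eq, frc_eq] at hR
  cases hc : Nat.ble (Nat.succ n) 40 && pks n p L 0 &&
      Nat.ble (Nat.add (Nat.add (Nat.mul 84 L.length)
        (Nat.mul 12 (Nat.add (ndn D n p (kms p L 0) 0)
          (xN D n p (kms p L 0) (opm2 n p (kms p L 0) (ims p L 0))))))
        (Nat.mul e (outx n p (kms p L 0) (ims p L 0) XM))) (Nat.add (evs tKw tIw n p (kms p L 0) (ims p L 0))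
        (Nat.mul e (dst n p (kms p L 0) (zms ML n p y 6))))
  · rw [hc, cond_false] at hR
    exact absurd hR (by simp)
  rw [hc, cond_true, Option.some.injEq] at hR
  simp only [Bool.and_eq_true] at hc
  obtain ⟨⟨c1, c2⟩, c3⟩ := hc
  have hn : n < 40 := Nat.le_of_ble_eq_true c1
  have hL := pks_of c2
  have hc3 := Nat.le_of_ble_eq_true c3
  rw [← hR]
  rcases h.stn_or hG hI hn hL with ⟨q, h1, h2⟩ | hS
  · exact Or.inr ⟨q, List.mem_append_right _ h1, h2⟩
  by_cases hX : ∃ i < n, XM.testBit i = true ∧ BZ ML G (rem G U (L.map φ)) (φ i)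
  · obtain ⟨i, hi, h1, h2⟩ := hX
    obtain ⟨q, h3, h4⟩ := ovs_ch hG hI hok hd hML 60 n p φ ν h (fun x hx => (hL x hx).1) hi h2
    exact Or.inr ⟨q, List.mem_append_left _ (mem_ovm hi h1 h3), h4⟩
  left
  push Not at hX
  have hP := h.pks_picks hG hI (L := L) [] c2 trivial (fun y hy => absurd hy List.not_mem_nil)
  rw [List.nil_append] at hP
  have h2 := h.iso_le2 hG hI hS hD
  rw [hiso, card_empty, zero_add] at h2
  exact goodZ_of hG hML hI hiso h hP hS hX (zms_of hG hML hI h 6 y) h2 hc3

/-! ### the step -/

/-- the picks of a token, `c` of them -/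
def pkz : ℕ → ℕ → List ℕ
  | 0, _ => []
  | c + 1, z => Nat.mod z 64 :: pkz c (Nat.div z 64)

theorem pkz_length : ∀ (c z : ℕ), (pkz c z).length = c := by
  intro c
  induction c with
  | zero => intro z; rfl
  | succ c ih => intro z; rw [pkz, List.length_cons, ih]

/-- a leaf: `y % 8` the number of the picks (not `0`), then `6` bits for each (`42` in all), the mask `XM`
(`40` bits) and the pieces -/
def lfz (f : List ℕ → ℕ → ℕ → Option (List (ℕ × ℕ))) (y : ℕ) : Option (List (ℕ × ℕ)) :=
  frc (Nat.mod y 8) fun c => frc (Nat.div y 8) fun z => frc (Nat.div z (2 ^ 42)) fun u =>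
    bif Nat.beq c 0 then none else f (pkz c z) (Nat.mod u (2 ^ 40)) (Nat.div u (2 ^ 40))

theorem lfz_of {f : List ℕ → ℕ → ℕ → Option (List (ℕ × ℕ))} {y : ℕ} {R : List (ℕ × ℕ)}
    (h : lfz f y = some R) : ∃ L XM z, L.length ≠ 0 ∧ f L XM z = some R := by
  unfold lfz at h
  rw [frc_eq, frc_eq, frc_eq] at h
  cases hc : Nat.beq (Nat.mod y 8) 0
  · rw [hc, cond_false] at h
    refine ⟨_, _, _, ?_, h⟩
    rw [pkz_length]
    intro e
    rw [e] at hc
    exact absurd hc (by simp)
  · rw [hc, cond_true] at h
    exact absurd h (by simp)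

/-- the step before the filter -/
def rawZ (e D : ℕ) (tf : Bool) (ML : List MPc) (PL : List (ℕ × ℕ)) (n p x : ℕ) :
    Option (List (ℕ × ℕ)) :=
  frc (Nat.mod x 4) fun r => frc (Nat.div x 4) fun y =>
    bif Nat.beq r 0 then branch (Nat.ble 1 D) n p y else
    bif Nat.beq r 1 then lfz (evbZ e (okB D tf) ML D n p) y else
    bif Nat.beq r 2 then lfz (evlZ e (okB D tf) ML D n p) y else pst PL n p y

/-- the step -/
def stZ (e D : ℕ) (tf : Bool) (ML : List MPc) (PL : List (ℕ × ℕ)) : Stp :=
  flt (okB D tf) (rawZ e D tf ML PL)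

/-- **the step is sound** -/
theorem snd_stZ (hG : G.IsRegularOfDegree 3) {U : Finset V} (hI : Inv G U) {e D : ℕ} {tf : Bool}
    {ML : List MPc} (hML : ML.all mkok = true) {PL : List (ℕ × ℕ)} (hPL : PL.all wfp = true)
    (hD : ∀ x ∈ U, n1 G U x ≤ D) (hiso : iso G U = ∅)
    (htf : tf = true → ∀ a b c, G.Adj a b → G.Adj b c → ¬ G.Adj a c) (hcl : NoP G PL U) :
    Snd G U (∃ c, c ≠ 0 ∧ GoodZ (fw.iso 12) 84 e ML G U c) (stZ e D tf ML PL) := by
  have hok : ∀ n p φ ν, Emb G U n p φ ν → okB D tf n p = true := fun n p φ ν h => by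
    unfold okB
    rw [h.okD hG hD, Bool.true_and]
    cases htf' : tf
    · rfl
    · rw [Bool.not_true, Bool.false_or]
      exact h.okT (htf htf')
  have hd : Nat.ble 1 D = true ∨ ∀ y, y ∉ U → ∀ x ∈ U, G.Adj y x → ∃ x' ∈ U, x' ≠ x ∧ G.Adj y x' := by
    by_cases hD1 : 1 ≤ D
    · exact Or.inl (Nat.ble_eq_true_of_le hD1)
    · right
      intro y hy z hz hyz
      by_contra hno
      push Not at hno
      have h1 : y ∈ (G.neighborFinset z \ U).filter fun y => nU G U y = 1 := by
        rw [mem_filter, mem_sdiff, SimpleGraph.mem_neighborFinset]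
        refine ⟨⟨hyz.symm, hy⟩, card_eq_one.2 ⟨z, ?_⟩⟩
        rw [eq_singleton_iff_unique_mem]
        refine ⟨mem_inter.2 ⟨(SimpleGraph.mem_neighborFinset _ _ _).2 hyz, hz⟩, fun z' hz' => ?_⟩
        rw [mem_inter, SimpleGraph.mem_neighborFinset] at hz'
        by_contra hne
        exact hno z' hz'.2 hne hz'.1
      have h2 : 0 < n1 G U z := card_pos.2 ⟨y, h1⟩
      have := hD z hz
      omega
  refine snd_flt hok fun n p x L hL φ ν h => ?_
  unfold rawZ at hL
  rw [frc_eq, frc_eq] at hL
  cases r0 : Nat.beq (Nat.mod x 4) 0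
  swap
  · rw [r0, cond_true] at hL
    right
    obtain ⟨q, hq, -, φ', ν', h1, -⟩ := branch_ch hG hI hd hL h
    exact ⟨q, hq, φ', ν', h1⟩
  rw [r0, cond_false] at hL
  cases r1 : Nat.beq (Nat.mod x 4) 1
  swap
  · rw [r1, cond_true] at hL
    obtain ⟨L', XM, z, a1, a2⟩ := lfz_of hL
    rcases evbZ_ch hG hML hI hok hd hD hiso a2 h with h1 | ⟨q, hq, -, φ', ν', h1, -⟩
    · exact Or.inl ⟨_, a1, h1⟩
    · exact Or.inr ⟨q, hq, φ', ν', h1⟩
  rw [r1, cond_false] at hL
  cases r2 : Nat.beq (Nat.mod x 4) 2
  swap
  · rw [r2, cond_true] at hL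
    obtain ⟨L', XM, z, a1, a2⟩ := lfz_of hL
    rcases evlZ_ch hG hML hI hok hd hD hiso a2 h with h1 | ⟨q, hq, -, φ', ν', h1, -⟩
    · exact Or.inl ⟨_, a1, h1⟩
    · exact Or.inr ⟨q, hq, φ', ν', h1⟩
  rw [r2, cond_false] at hL
  exfalso
  unfold pst at hL
  rw [frc_eq, frc_eq] at hL
  cases hc : Nat.ble (Nat.succ (Nat.mod (Nat.div x 4) 64)) PL.length &&
    pcok n p (PL.getD (Nat.mod (Nat.div x 4) 64) (0, 0)) (Nat.mod (Nat.div (Nat.div x 4) 64) (256 ^ 26))
      (Nat.div (Nat.div (Nat.div x 4) 64) (256 ^ 26))
  · rw [hc, cond_false] at hL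
    exact absurd hL (by simp)
  rw [Bool.and_eq_true] at hc
  obtain ⟨c1, c2⟩ := hc
  have hlt : Nat.mod (Nat.div x 4) 64 < PL.length := Nat.le_of_ble_eq_true c1
  have hq : PL.getD (Nat.mod (Nat.div x 4) 64) (0, 0) ∈ PL := by
    rw [List.getD_eq_getElem _ _ hlt]
    exact List.getElem_mem hlt
  obtain ⟨d1, d2⟩ := pc_emb hG hI (List.all_eq_true.1 hPL _ hq) c2 h
  exact hcl _ hq _ d2 d1

end EF18
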