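import Pool.Agent.Lib.MP_ef18bd_co.P.FrX
import Pool.Agent.Lib.MP_ef18bd_co.P.StpZ

/-!
# The leaves with an extra charge

`evbX`, `evlX`: the leaves `evbK`, `evlK` with a credit `cr` and a cost `ct` for an extra charge `Ex` and with
additional children `xs`; with `b = 0` the bonus is not computed. `stX`: the step with the charge `m` for the dead
marked link vertices.
-/

namespace EF18

open Finset

variable {V : Type} [Fintype V] [DecidableEq V] {G : SimpleGraph V} [DecidableRel G.Adj]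

/-- `b` times a value, which is not computed for `b = 0` -/
def bx (b : ℕ) (v : ℕ) : ℕ := bif Nat.beq b 0 then 0 else Nat.mul b v

theorem bx_eq (b v : ℕ) : bx b v = b * v := by
  unfold bx
  by_cases h : b = 0
  · rw [h, zero_mul]
    rfl
  · rw [beq_false h]
    rfl

/-- the test and the children, all completions -/
def evbX (e x : Bool) (P T TI D dl b c n p : ℕ) (L : List ℕ) (cr ct : ℕ → ℕ → ℕ) (xs : List (ℕ × ℕ)) :
    Option (List (ℕ × ℕ)) :=
  frc (kms p L 0) fun M => frc (ims p L 0) fun IN => frc (bif Nat.beq b 0 then 0 else kbK e n p M) fun kt =>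
    bif Nat.ble (Nat.add n 5) 40 && pks n p L 0 &&
      Nat.ble (Nat.add (Nat.add (Nat.add (Nat.mul P L.length) (ct M IN))
        (Nat.mul dl (n00 D n p M))) (bx b (mn kt 2)))
        (Nat.add (Nat.add (evs T TI n p M IN) (Nat.add (xdc x c n p M) (cr M IN)))
          (bx b (Nat.add (dnk n p M) (bon D (kaEK e D n p M) kt))))
    then some (xs ++ (kin n p M IN n ++ (tpl e n p M n ++ (evc D L n p M n ++ cml D L n 3 (n + 1) p 200))))
    else none

/-- **the step with all completions** -/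
theorem evbX_ch (hG : G.IsRegularOfDegree 3) {w w' : TF} {b : ℕ} (hww : Pair w w' b) (hw : w'.Pos)
    {e x : Bool} {P T TI D dl c : ℕ} (hT : TabK w' 0 T) (hTI : TabKI w' 0 TI) {U : Finset V} (hI : Inv G U)
    (hD : ∀ x ∈ U, n1 G U x ≤ D) (hiso : iso G U = ∅) {n p : ℕ} {L : List ℕ} {R : List (ℕ × ℕ)}
    {cr ct : ℕ → ℕ → ℕ} {xs : List (ℕ × ℕ)} (hR : evbX e x P T TI D dl b c n p L cr ct xs = some R) {φ ν : ℕ → V} (h : Emb G U n p φ ν)
    {Ex : Finset V → ℕ} (hex : (∀ y ∈ L, y < n ∧ full p y = true) →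
      Stn G U (rem G U (L.map φ)) n p (kms p L 0) (ims p L 0) φ ν → (∃ q ∈ xs, Ch G U n φ q) ∨
        Ex (rem G U (L.map φ)) + cr (kms p L 0) (ims p L 0) ≤ Ex U + ct (kms p L 0) (ims p L 0)) :
    GoodE w dl P b c Ex G U L.length ∨ ∃ q ∈ R, Ch G U n φ q := by
  classical
  unfold evbX at hR
  rw [frc_eq, frc_eq, frc_eq] at hR
  obtain ⟨kt, hkt⟩ : ∃ kt, kt = (bif Nat.beq b 0 then 0 else kbK e n p (kms p L 0)) := ⟨_, rfl⟩
  rw [← hkt] at hR
  cases hc : Nat.ble (Nat.add n 5) 40 && pks n p L 0 &&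
      Nat.ble (Nat.add (Nat.add (Nat.add (Nat.mul P L.length) (ct (kms p L 0) (ims p L 0)))
        (Nat.mul dl (n00 D n p (kms p L 0)))) (bx b (mn kt 2)))
        (Nat.add (Nat.add (evs T TI n p (kms p L 0) (ims p L 0))
          (Nat.add (xdc x c n p (kms p L 0)) (cr (kms p L 0) (ims p L 0))))
          (bx b (Nat.add (dnk n p (kms p L 0)) (bon D (kaEK e D n p (kms p L 0)) kt))))
  · rw [hc, cond_false] at hR
    exact absurd hR (by simp)
  rw [hc, cond_true, Option.some.injEq] at hR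
  simp only [Bool.and_eq_true] at hc
  obtain ⟨⟨c1, c2⟩, c3⟩ := hc
  have hn : n + 5 ≤ 40 := Nat.le_of_ble_eq_true c1
  have hL := pks_of c2
  have hc3 := Nat.le_of_ble_eq_true c3
  rw [← hR]
  rcases h.stn_or hG hI (by omega) hL with ⟨q, h1, h2⟩ | hS
  · exact Or.inr ⟨q, List.mem_append_right _ (List.mem_append_left _ h1), h2⟩
  by_cases hno : ∃ q ∈ evc D L n p (kms p L 0) n ++ cml D L n 3 (n + 1) p 200, Ch G U n φ q
  · obtain ⟨q, h1, h2⟩ := hno
    exact Or.inr ⟨q, List.mem_append_right _ (List.mem_append_right _ (List.mem_append_right _ h1)), h2⟩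
  by_cases hnt : ∃ q ∈ tpl e n p (kms p L 0) n, Ch G U n φ q
  · obtain ⟨q, h1, h2⟩ := hnt
    exact Or.inr ⟨q, List.mem_append_right _ (List.mem_append_right _ (List.mem_append_left _ h1)), h2⟩
  rcases hex hL hS with ⟨q, h1, h2⟩ | hxe
  · exact Or.inr ⟨q, List.mem_append_left _ h1, h2⟩
  left
  have hP := h.pks_picks hG hI (L := L) [] c2 trivial (fun y hy => absurd hy List.not_mem_nil)
  rw [List.nil_append] at hP
  refine ⟨L.map φ, List.length_map _, hP, ?_⟩
  have h1 := h.evsB_le hG hww hw hT hTI hI (hI.rem hG) rem_subset hS.msk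
    (fun i hi hb => (hS.inn i hi hb).2)
  have key : ∀ v ∈ iso G (rem G U (L.map φ)), ∃ i < n, φ i = v ∧
      (kms p L 0).testBit i ≠ true ∧ full p i = true ∧ nd D p (kms p L 0) i ≠ 9 := fun v hv =>
    (h.iso_or hG hI hn hL hS hD hv (by rw [hiso]; exact notMem_empty _)).resolve_left hno
  have h2 : (iso G (rem G U (L.map φ))).card ≤ n00 D n p (kms p L 0) := by
    rw [n00_eq]
    choose! f hf using key
    refine card_le_card_of_injOn f (fun v hv => ?_) fun v hv v' hv' e => ?_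
    · obtain ⟨a1, a2, a3, a4, a5⟩ := hf v hv
      rw [mem_coe, mem_filter, mem_range]
      exact ⟨a1, a3, a4, a5⟩
    · rw [← (hf v hv).2.1, ← (hf v' hv').2.1, e]
  obtain ⟨R', hR'⟩ : ∃ A, A = (range n).filter (fun i => (kms p L 0).testBit i ≠ true ∧
    ¬ (full p i = true ∧ nd D p (kms p L 0) i ≠ 9) ∧ dn p i + exn p (kms p L 0) i ≠ 0 ∧
    ntr e p (kms p L 0) i = true) := ⟨_, rfl⟩
  have hN : (isr G (rem G U (L.map φ)) n p φ).card ≤ 0 := by
    rw [Nat.le_zero, card_eq_zero, eq_empty_iff_forall_notMem]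
    intro v hv
    obtain ⟨h3, h4⟩ := mem_filter.1 hv
    obtain ⟨i, a1, a2, -, a4, -⟩ := key v h3
    exact h4 ⟨i, a1, a2, a4⟩
  obtain ⟨es, ek, k1, k2, k3⟩ := h.bon_coreK hG hI rem_subset hS.msk hD (S := skb e n p (kms p L 0))
    (R := R') (fun i hi => mem_range.1 (mem_filter.1 hi).1) (fun i hi hno => skb_out h hS.msk hi hno)
    (fun i hi => by
    rw [hR', mem_filter, mem_range] at hi
    obtain ⟨i1, i2, i3, i4, i5⟩ := hi
    refine ⟨i1, mem_sdiff.2 ⟨?_, fun hc => ?_⟩, ?_, ?_⟩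
    · by_contra hc
      exact i2 ((hS.msk i i1).2 hc)
    · obtain ⟨j, a1, a2, -, a4, a5⟩ := key _ hc
      rw [h.inj j a1 i i1 a2] at a4 a5
      exact i3 ⟨a4, a5⟩
    · exact (h.tp_or hG hI rem_subset (by omega) hS.msk i1 i2 i4 i5).resolve_right hnt
    · by_cases ht : tpc p i = true
      · exact Or.inr (h.tpc_tri i1 ht)
      · exact Or.inl (mem_filter.2 ⟨mem_range.2 i1, ht, Or.inr i5⟩)) hN
  rw [mul_zero, add_zero, ← kbK_eq] at k1
  have h3 : kaEK e D n p (kms p L 0) = ∑ i ∈ R', (dn p i + exn p (kms p L 0) i) := by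
    unfold kaEK
    rw [sm_eq, hR', sum_filter]
    refine sum_congr rfl fun i _ => ?_
    rw [frc_eq, tb_eq]
    change (bif Nat.beq (dn p i + exn p (kms p L 0) i) 0 || _ || _ || _ then 0 else
      dn p i + exn p (kms p L 0) i) = _
    by_cases h0 : dn p i + exn p (kms p L 0) i = 0
    · rw [h0, ite_self]
      rfl
    · rw [beq_false h0]
      by_cases h4 : nd D p (kms p L 0) i = 9
      · rw [h4]
        cases (kms p L 0).testBit i <;> cases full p i <;> cases ntr e p (kms p L 0) i <;> simp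
      · rw [beq_false h4]
        cases (kms p L 0).testBit i <;> cases full p i <;> cases ntr e p (kms p L 0) i <;> simp [h4]
  rw [← h3] at k2
  have hx := h.xdc_le hG (rem_subset (L := L.map φ)) hS.msk x c
  rw [PsiT_iso, PsiT_iso, List.length_map]
  unfold PsiI
  rw [hiso, card_empty, mul_zero, add_zero]
  have h4 : P * L.length + ct (kms p L 0) (ims p L 0) + dl * n00 D n p (kms p L 0) + bx b (mn kt 2) ≤
      evs T TI n p (kms p L 0) (ims p L 0) + (xdc x c n p (kms p L 0) + cr (kms p L 0) (ims p L 0)) +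
        bx b (dnk n p (kms p L 0) + bon D (kaEK e D n p (kms p L 0)) kt) := hc3
  rw [bx_eq, bx_eq, mn_eq, bon_eq] at h4
  by_cases hb : b = 0
  · rw [hb] at h4 h1 ⊢
    simp only [zero_mul, add_zero] at h4 h1 ⊢
    have h6 := Nat.mul_le_mul_left dl h2
    omega
  · rw [beq_false hb, cond_false] at hkt
    rw [hkt] at h4
    have h5 := good_arith (D := D) (b := b) (dl := dl) (Ps' := PsiT w G (rem G U (L.map φ)))
      (Ps := PsiT w G U + (xdc x c n p (kms p L 0) + cr (kms p L 0) (ims p L 0)))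
      (OC := 0) (E := evs T TI n p (kms p L 0) (ims p L 0) +
        (xdc x c n p (kms p L 0) + cr (kms p L 0) (ims p L 0)))
      (PC := P * L.length + ct (kms p L 0) (ims p L 0))
      (Z := ∑ z ∈ U \ rem G U (L.map φ), n1 G U z) (by omega) k3 k1 k2 h2 (kUT_zero hD) (by omega)
    omega

/-- the test and the children, the worst case for isolated vertices -/
def evlX (e x : Bool) (P T TI D dl b c n p : ℕ) (L : List ℕ) (cr ct : ℕ → ℕ → ℕ) (xs : List (ℕ × ℕ)) :
    Option (List (ℕ × ℕ)) :=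
  frc (kms p L 0) fun M => frc (ims p L 0) fun IN =>
    frc (Nat.add (ndr D n p M) (xN D n p M (opm2 n p M IN))) fun N =>
    frc (bif Nat.beq b 0 then 0 else Nat.add (kbK e n p M) (Nat.mul D N)) fun kt =>
    bif Nat.ble (Nat.succ n) 40 && pks n p L 0 &&
      Nat.ble (Nat.add (Nat.add (Nat.add (Nat.mul P L.length) (ct M IN))
        (Nat.mul dl (Nat.add (n00 D n p M) N))) (bx b (mn kt 2)))
        (Nat.add (Nat.add (evs T TI n p M IN) (Nat.add (xdc x c n p M) (cr M IN)))
          (bx b (Nat.add (dnk n p M) (bon D (kaWK e D n p M) kt))))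
    then some (xs ++ (kin n p M IN n ++ tpl e n p M n)) else none

/-- **the step with the worst case for isolated vertices** -/
theorem evlX_ch (hG : G.IsRegularOfDegree 3) {w w' : TF} {b : ℕ} (hww : Pair w w' b) (hw : w'.Pos)
    {e x : Bool} {P T TI D dl c : ℕ} (hT : TabK w' 0 T) (hTI : TabKI w' 0 TI) {U : Finset V} (hI : Inv G U)
    (hD : ∀ x ∈ U, n1 G U x ≤ D) (hiso : iso G U = ∅) {n p : ℕ} {L : List ℕ} {R : List (ℕ × ℕ)}
    {cr ct : ℕ → ℕ → ℕ} {xs : List (ℕ × ℕ)} (hR : evlX e x P T TI D dl b c n p L cr ct xs = some R) {φ ν : ℕ → V} (h : Emb G U n p φ ν)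
    {Ex : Finset V → ℕ} (hex : (∀ y ∈ L, y < n ∧ full p y = true) →
      Stn G U (rem G U (L.map φ)) n p (kms p L 0) (ims p L 0) φ ν → (∃ q ∈ xs, Ch G U n φ q) ∨
        Ex (rem G U (L.map φ)) + cr (kms p L 0) (ims p L 0) ≤ Ex U + ct (kms p L 0) (ims p L 0)) :
    GoodE w dl P b c Ex G U L.length ∨ ∃ q ∈ R, Ch G U n φ q := by
  classical
  unfold evlX at hR
  rw [frc_eq, frc_eq, frc_eq, frc_eq] at hR
  obtain ⟨N, hNd⟩ : ∃ N, N = Nat.add (ndr D n p (kms p L 0))
    (xN D n p (kms p L 0) (opm2 n p (kms p L 0) (ims p L 0))) := ⟨_, rfl⟩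
  rw [← hNd] at hR
  obtain ⟨kt, hkt⟩ : ∃ kt, kt = (bif Nat.beq b 0 then 0 else
    Nat.add (kbK e n p (kms p L 0)) (Nat.mul D N)) := ⟨_, rfl⟩
  rw [← hkt] at hR
  cases hc : Nat.ble (Nat.succ n) 40 && pks n p L 0 &&
      Nat.ble (Nat.add (Nat.add (Nat.add (Nat.mul P L.length) (ct (kms p L 0) (ims p L 0)))
        (Nat.mul dl (Nat.add (n00 D n p (kms p L 0)) N))) (bx b (mn kt 2)))
        (Nat.add (Nat.add (evs T TI n p (kms p L 0) (ims p L 0))
          (Nat.add (xdc x c n p (kms p L 0)) (cr (kms p L 0) (ims p L 0))))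
          (bx b (Nat.add (dnk n p (kms p L 0)) (bon D (kaWK e D n p (kms p L 0)) kt))))
  · rw [hc, cond_false] at hR
    exact absurd hR (by simp)
  rw [hc, cond_true, Option.some.injEq] at hR
  simp only [Bool.and_eq_true] at hc
  obtain ⟨⟨c1, c2⟩, c3⟩ := hc
  have hn : n < 40 := Nat.le_of_ble_eq_true c1
  have hL := pks_of c2
  have hc3 := Nat.le_of_ble_eq_true c3
  rw [← hR]
  rcases h.stn_or hG hI hn hL with ⟨q, h1, h2⟩ | hS
  · exact Or.inr ⟨q, List.mem_append_right _ (List.mem_append_left _ h1), h2⟩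
  by_cases hnt : ∃ q ∈ tpl e n p (kms p L 0) n, Ch G U n φ q
  · obtain ⟨q, h1, h2⟩ := hnt
    exact Or.inr ⟨q, List.mem_append_right _ (List.mem_append_right _ h1), h2⟩
  rcases hex hL hS with ⟨q, h1, h2⟩ | hxe
  · exact Or.inr ⟨q, List.mem_append_left _ h1, h2⟩
  left
  have hP := h.pks_picks hG hI (L := L) [] c2 trivial (fun y hy => absurd hy List.not_mem_nil)
  rw [List.nil_append] at hP
  refine ⟨L.map φ, List.length_map _, hP, ?_⟩
  have h1 := h.evsB_le hG hww hw hT hTI hI (hI.rem hG) rem_subset hS.msk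
    (fun i hi hb => (hS.inn i hi hb).2)
  have hN : (isr G (rem G U (L.map φ)) n p φ).card ≤ N := by
    rw [hNd]
    exact h.isr_le hG hI hS hD hiso
  have hnd : ∀ i < n, φ i ∈ iso G (rem G U (L.map φ)) → nd D p (kms p L 0) i ≠ 9 := fun i hi hv => by
    have h3 := (h.nd_le hG hS.sub hS.msk hi hv (by rw [hiso]; exact notMem_empty _)
      (hD _ (h.mem i hi))).trans (fro_card hG)
    omega
  have h2 : (iso G (rem G U (L.map φ))).card ≤ n00 D n p (kms p L 0) + N := by
    rw [← card_filter_add_card_filter_not (s := iso G (rem G U (L.map φ)))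
      (fun v => ∃ i, i < n ∧ φ i = v ∧ full p i = true)]
    refine Nat.add_le_add ?_ hN
    rw [n00_eq]
    have key : ∀ v ∈ (iso G (rem G U (L.map φ))).filter (fun v => ∃ i, i < n ∧ φ i = v ∧ full p i = true),
        ∃ i < n, φ i = v ∧ (kms p L 0).testBit i ≠ true ∧ full p i = true ∧
          nd D p (kms p L 0) i ≠ 9 := fun v hv => by
      obtain ⟨h3, i, i1, i2, i3⟩ := mem_filter.1 hv
      refine ⟨i, i1, i2, fun hb => (hS.msk i i1).1 hb ?_, i3, hnd i i1 (by rw [i2]; exact h3)⟩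
      rw [i2]
      exact (mem_iso.1 h3).1
    choose! f hf using key
    refine card_le_card_of_injOn f (fun v hv => ?_) fun v hv v' hv' e => ?_
    · obtain ⟨a1, a2, a3, a4, a5⟩ := hf v hv
      rw [mem_coe, mem_filter, mem_range]
      exact ⟨a1, a3, a4, a5⟩
    · rw [← (hf v hv).2.1, ← (hf v' hv').2.1, e]
  obtain ⟨R', hR'⟩ : ∃ A, A = (range n).filter (fun i => (kms p L 0).testBit i ≠ true ∧
    nd D p (kms p L 0) i = 9 ∧ dn p i + exn p (kms p L 0) i ≠ 0 ∧
    ntr e p (kms p L 0) i = true) := ⟨_, rfl⟩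
  obtain ⟨es, ek, k1, k2, k3⟩ := h.bon_coreK hG hI rem_subset hS.msk hD (S := skb e n p (kms p L 0))
    (R := R') (fun i hi => mem_range.1 (mem_filter.1 hi).1) (fun i hi hno => skb_out h hS.msk hi hno)
    (fun i hi => by
    rw [hR', mem_filter, mem_range] at hi
    obtain ⟨i1, i2, i3, i4, i5⟩ := hi
    refine ⟨i1, mem_sdiff.2 ⟨?_, fun hc => hnd i i1 hc i3⟩, ?_, ?_⟩
    · by_contra hc
      exact i2 ((hS.msk i i1).2 hc)
    · exact (h.tp_or hG hI rem_subset hn hS.msk i1 i2 i4 i5).resolve_right hnt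
    · by_cases ht : tpc p i = true
      · exact Or.inr (h.tpc_tri i1 ht)
      · exact Or.inl (mem_filter.2 ⟨mem_range.2 i1, ht, Or.inr i5⟩)) hN
  rw [← kbK_eq] at k1
  have h3 : kaWK e D n p (kms p L 0) = ∑ i ∈ R', (dn p i + exn p (kms p L 0) i) := by
    unfold kaWK
    rw [sm_eq, hR', sum_filter]
    refine sum_congr rfl fun i _ => ?_
    rw [frc_eq, tb_eq]
    change (bif Nat.beq (dn p i + exn p (kms p L 0) i) 0 || _ || _ || _ then 0 else
      dn p i + exn p (kms p L 0) i) = _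
    by_cases h0 : dn p i + exn p (kms p L 0) i = 0
    · rw [h0, ite_self]
      rfl
    · rw [beq_false h0]
      by_cases h4 : nd D p (kms p L 0) i = 9
      · rw [h4]
        cases (kms p L 0).testBit i <;> cases ntr e p (kms p L 0) i <;> simp
      · rw [beq_false h4]
        simp [h4]
  rw [← h3] at k2
  have hx := h.xdc_le hG (rem_subset (L := L.map φ)) hS.msk x c
  rw [PsiT_iso, PsiT_iso, List.length_map]
  unfold PsiI
  rw [hiso, card_empty, mul_zero, add_zero]
  have h4 : P * L.length + ct (kms p L 0) (ims p L 0) + dl * (n00 D n p (kms p L 0) + N) +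
      bx b (mn kt 2) ≤
      evs T TI n p (kms p L 0) (ims p L 0) + (xdc x c n p (kms p L 0) + cr (kms p L 0) (ims p L 0)) +
        bx b (dnk n p (kms p L 0) + bon D (kaWK e D n p (kms p L 0)) kt) := hc3
  rw [bx_eq, bx_eq, mn_eq, bon_eq] at h4
  by_cases hb : b = 0
  · rw [hb] at h4 h1 ⊢
    simp only [zero_mul, add_zero] at h4 h1 ⊢
    have h6 := Nat.mul_le_mul_left dl h2
    omega
  · rw [beq_false hb, cond_false] at hkt
    change kt = kbK e n p (kms p L 0) + D * N at hkt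
    rw [hkt] at h4
    have h5 := good_arith (D := D) (b := b) (dl := dl) (Ps' := PsiT w G (rem G U (L.map φ)))
      (Ps := PsiT w G U + (xdc x c n p (kms p L 0) + cr (kms p L 0) (ims p L 0)))
      (OC := 0) (E := evs T TI n p (kms p L 0) (ims p L 0) +
        (xdc x c n p (kms p L 0) + cr (kms p L 0) (ims p L 0)))
      (PC := P * L.length + ct (kms p L 0) (ims p L 0))
      (Z := ∑ z ∈ U \ rem G U (L.map φ), n1 G U z) (by omega) k3 k1 k2 h2 (kUT_zero hD) (by omega)
    omega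

end EF18
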