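import Pool.Agent.Lib.MP_ef18bd_co.P.EvB

/-!
# Children lists for the kernel

The functions `branch`, `kin`, `evc`, `cml` with raw operations on natural numbers, with the theorems that
they are equal to the original ones.
-/

namespace EF18

theorem ifc {α : Type} (c : Bool) (a b : α) : @Bool.rec (fun _ => α) b a c = cond c a b := by
  cases c <;> rfl

theorem wd0 (p j : ℕ) : (Nat.mod (Nat.mod (Nat.div p (Nat.pow 256 (Nat.mul 3 j))) 16777216) 256) = dg p (3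
  * j) := by
  show p / 256 ^ (3 * j) % 16777216 % 256 = p / 256 ^ (3 * j) % 256
  omega

theorem wd1 (p j : ℕ) : (Nat.mod (Nat.div (Nat.mod (Nat.div p (Nat.pow 256 (Nat.mul 3 j))) 16777216) 256)
  256) = dg p (3 * j + 1) := by
  show p / 256 ^ (3 * j) % 16777216 / 256 % 256 = p / 256 ^ (3 * j + 1) % 256
  rw [pow_succ, ← Nat.div_div_eq_div_mul]
  omega

theorem wd2 (p j : ℕ) : (Nat.div (Nat.mod (Nat.div p (Nat.pow 256 (Nat.mul 3 j))) 16777216) 65536) = dg p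
  (3 * j + 2) := by
  show p / 256 ^ (3 * j) % 16777216 / 65536 = p / 256 ^ (3 * j + 2) % 256
  rw [pow_add, ← Nat.div_div_eq_div_mul]
  omega

/-- the bit of the node behind a direct digit -/
def dbF (d : ℕ) : ℕ :=
  (@Bool.rec (fun _ => ℕ) 0 (@Bool.rec (fun _ => ℕ) 0 (Nat.pow 2 (Nat.div (Nat.sub d 2) 6)) (Nat.beq
    (Nat.mod d 2) 0)) (Nat.ble 2 d))

theorem dbF_eq (d : ℕ) : dbF d = dbit d := by
  unfold dbF dbit isD tg
  rw [ifc, ifc]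
  show (bif Nat.ble 2 d then bif Nat.beq (d % 2) 0 then 2 ^ ((d - 2) / 6) else 0 else 0) = _
  cases Nat.ble 2 d <;> rfl

/-- the mask of the nodes directly connected to a node -/
def dmF (p j : ℕ) : ℕ :=
  (@Nat.rec (fun _ => ℕ) 0 (fun w _ => (Nat.lor (Nat.lor (dbF (Nat.mod w 256)) (dbF (Nat.mod (Nat.div w
    256) 256))) (dbF (Nat.div w 65536)))) (Nat.succ (Nat.mod (Nat.div p (Nat.pow 256 (Nat.mul 3 j)))
    16777216)))

theorem dmF_eq (p j : ℕ) : dmF p j = dmask p j := by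
  show Nat.lor (Nat.lor (dbF (Nat.mod (Nat.mod (Nat.div p (Nat.pow 256 (Nat.mul 3 j))) 16777216) 256)) (dbF
    (Nat.mod (Nat.div (Nat.mod (Nat.div p (Nat.pow 256 (Nat.mul 3 j))) 16777216) 256) 256))) (dbF (Nat.div
    (Nat.mod (Nat.div p (Nat.pow 256 (Nat.mul 3 j))) 16777216) 65536)) = _
  rw [wd0, wd1, wd2, dbF_eq, dbF_eq, dbF_eq]
  rfl

/-- the mask of the nodes reached through a port -/
def pbF (p d : ℕ) : ℕ :=
  (@Bool.rec (fun _ => ℕ) 0 (@Nat.rec (fun _ => ℕ) 0 (fun t _ => (@Bool.rec (fun _ => ℕ) (Nat.pow 2 t)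
    (Nat.lor (Nat.pow 2 t) (dmF p t)) (Nat.beq (Nat.mod d 2) 0))) (Nat.succ (Nat.div (Nat.sub d 2) 6)))
    (Nat.ble 2 d))

theorem pbF_eq (p d : ℕ) : pbF p d = pball p d := by
  unfold pbF pball isD isL tg
  rw [ifc]
  show (bif Nat.ble 2 d then @Bool.rec (fun _ => ℕ) (2 ^ ((d - 2) / 6))
    (Nat.lor (2 ^ ((d - 2) / 6)) (dmF p ((d - 2) / 6))) (Nat.beq (d % 2) 0) else 0) = _
  rw [ifc, dmF_eq]
  rcases Nat.mod_two_eq_zero_or_one d with h | h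
  · rw [h]
    cases Nat.ble 2 d <;> rfl
  · rw [h]
    cases Nat.ble 2 d <;> rfl

/-- the ball -/
def baF (p x : ℕ) : ℕ :=
  (@Nat.rec (fun _ => ℕ) 0 (fun w _ => (Nat.lor (Nat.lor (Nat.lor (Nat.pow 2 x) (pbF p (Nat.mod w 256)))
    (pbF p (Nat.mod (Nat.div w 256) 256))) (pbF p (Nat.div w 65536)))) (Nat.succ (Nat.mod (Nat.div p
    (Nat.pow 256 (Nat.mul 3 x))) 16777216)))

theorem baF_eq (p x : ℕ) : baF p x = ball p x := by
  show Nat.lor (Nat.lor (Nat.lor (Nat.pow 2 x) (pbF p (Nat.mod (Nat.mod (Nat.div p (Nat.pow 256 (Nat.mul 3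
    x))) 16777216) 256))) (pbF p (Nat.mod (Nat.div (Nat.mod (Nat.div p (Nat.pow 256 (Nat.mul 3 x)))
    16777216) 256) 256)))
    (pbF p (Nat.div (Nat.mod (Nat.div p (Nat.pow 256 (Nat.mul 3 x))) 16777216) 65536)) = _
  rw [wd0, wd1, wd2, pbF_eq, pbF_eq, pbF_eq]
  rfl

/-- the mask of the removed nodes -/
def kmF (p : ℕ) (L : List ℕ) : ℕ → ℕ :=
  @List.rec ℕ (fun _ => ℕ → ℕ) (fun M => M) (fun x _ r M => (@Nat.rec (fun _ => ℕ) 0 (fun m _ => (r m))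
    (Nat.succ (Nat.lor M (baF p x))))) L

theorem kmF_eq (p : ℕ) (L : List ℕ) : ∀ M, kmF p L M = kms p L M := by
  induction L with
  | nil => intro M; rfl
  | cons x L ih =>
    intro M
    rw [kms, frc_eq, ← baF_eq]
    exact ih (Nat.lor M (baF p x))

/-- the mask of the inner nodes -/
def imF (p : ℕ) (L : List ℕ) : ℕ → ℕ :=
  @List.rec ℕ (fun _ => ℕ → ℕ) (fun M => M)
    (fun x _ r M => (@Nat.rec (fun _ => ℕ) 0 (fun m _ => (r m)) (Nat.succ (Nat.lor M (Nat.lor (Nat.pow 2 x)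
      (dmF p x)))))) L

theorem imF_eq (p : ℕ) (L : List ℕ) : ∀ M, imF p L M = ims p L M := by
  induction L with
  | nil => intro M; rfl
  | cons x L ih =>
    intro M
    rw [ims, frc_eq, ← dmF_eq]
    exact ih (Nat.lor M (Nat.lor (Nat.pow 2 x) (dmF p x)))

/-! ### the children of a port -/

theorem adjd_mask (p i j : ℕ) : adjd p i j = !Nat.beq (Nat.land (dmask p i) (Nat.pow 2 j)) 0 := by
  have h1 : Nat.land (dmask p i) (Nat.pow 2 j) = dmask p i &&& 2 ^ j := rfl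
  have h2 : ∀ d, isd d j = (dbit d).testBit j := by
    intro d
    rw [Bool.eq_iff_iff, dbit_iff]
    constructor
    · exact isd_iff
    · rintro ⟨l, rfl, h⟩
      unfold isd
      rw [Bool.or_eq_true, Bool.or_eq_true, Nat.beq_eq, Nat.beq_eq, Nat.beq_eq]
      omega
  have h3 : adjd p i j = (dmask p i).testBit j := by
    unfold adjd dmask
    rw [h2, h2, h2, Nat.testBit_or, Nat.testBit_or]
  rw [h1, h3, Nat.and_two_pow]
  cases (dmask p i).testBit j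
  · simp
  · have h4 : (2 ^ j : ℕ) ≠ 0 := by positivity
    have h5 : Nat.beq ((true : Bool).toNat <<< j) 0 = false := by
      rw [Bool.eq_false_iff, Ne, Nat.beq_eq]
      simp [Nat.shiftLeft_eq]
    first
      | exact (by rw [Bool.not_eq_true', h5] : _)
      | (simp only [Bool.toNat_true, Nat.one_mul, mul_one]
         rw [eq_comm, Bool.not_eq_true', Bool.eq_false_iff, Ne, Nat.beq_eq]
         exact h4)

/-- the children with the other end at a known node -/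
def kidF (n p i c kk am : ℕ) (r0 : List (ℕ × ℕ)) (m : ℕ) : List (ℕ × ℕ) :=
  @Nat.rec (fun _ => List (ℕ × ℕ)) r0 (fun j r => (@Bool.rec (fun _ => List (ℕ × ℕ)) (@Nat.rec (fun _ =>
    List (ℕ × ℕ)) [] (fun w _ => (@Bool.rec (fun _ => List (ℕ × ℕ)) (@Bool.rec (fun _ => List (ℕ × ℕ))
    (@Bool.rec (fun _ => List (ℕ × ℕ)) r (@Bool.rec (fun _ => List (ℕ × ℕ)) (@Nat.rec (fun _ => List (ℕ ×
    ℕ)) [] (fun P1 _ => ((n, P1) :: r)) (Nat.succ (Nat.add (Nat.add p (Nat.mul (Nat.add 3 (Nat.mul 2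
    (Nat.add (Nat.mul 3 j) 2))) c)) (Nat.mul (Nat.succ kk) (Nat.pow 256 (Nat.add (Nat.mul 3 j) 2))))))
    (@Nat.rec (fun _ => List (ℕ × ℕ)) [] (fun P0 _ => (@Nat.rec (fun _ => List (ℕ × ℕ)) [] (fun P1 _ =>
    ((n, P0) :: (n, P1) :: r)) (Nat.succ (Nat.add (Nat.add p (Nat.mul (Nat.add 3 (Nat.mul 2 (Nat.add
    (Nat.mul 3 j) 2))) c)) (Nat.mul (Nat.succ kk) (Nat.pow 256 (Nat.add (Nat.mul 3 j) 2))))))) (Nat.succ
    (Nat.add (Nat.add p (Nat.mul (Nat.add 2 (Nat.mul 2 (Nat.add (Nat.mul 3 j) 2))) c)) (Nat.mul kk (Nat.pow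
    256 (Nat.add (Nat.mul 3 j) 2)))))) (Nat.beq (Nat.land am (Nat.pow 2 j)) 0)) (Nat.beq (Nat.div w 65536)
    0)) (@Bool.rec (fun _ => List (ℕ × ℕ)) (@Nat.rec (fun _ => List (ℕ × ℕ)) [] (fun P1 _ => ((n, P1) ::
    r)) (Nat.succ (Nat.add (Nat.add p (Nat.mul (Nat.add 3 (Nat.mul 2 (Nat.add (Nat.mul 3 j) 1))) c))
    (Nat.mul (Nat.succ kk) (Nat.pow 256 (Nat.add (Nat.mul 3 j) 1)))))) (@Nat.rec (fun _ => List (ℕ × ℕ)) []
    (fun P0 _ => (@Nat.rec (fun _ => List (ℕ × ℕ)) [] (fun P1 _ => ((n, P0) :: (n, P1) :: r)) (Nat.succ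
    (Nat.add (Nat.add p (Nat.mul (Nat.add 3 (Nat.mul 2 (Nat.add (Nat.mul 3 j) 1))) c)) (Nat.mul (Nat.succ
    kk) (Nat.pow 256 (Nat.add (Nat.mul 3 j) 1))))))) (Nat.succ (Nat.add (Nat.add p (Nat.mul (Nat.add 2
    (Nat.mul 2 (Nat.add (Nat.mul 3 j) 1))) c)) (Nat.mul kk (Nat.pow 256 (Nat.add (Nat.mul 3 j) 1))))))
    (Nat.beq (Nat.land am (Nat.pow 2 j)) 0)) (Nat.beq (Nat.mod (Nat.div w 256) 256) 0)) (@Bool.rec (fun _
    => List (ℕ × ℕ)) (@Nat.rec (fun _ => List (ℕ × ℕ)) [] (fun P1 _ => ((n, P1) :: r)) (Nat.succ (Nat.add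
    (Nat.add p (Nat.mul (Nat.add 3 (Nat.mul 2 (Nat.mul 3 j))) c)) (Nat.mul (Nat.succ kk) (Nat.pow 256
    (Nat.mul 3 j)))))) (@Nat.rec (fun _ => List (ℕ × ℕ)) [] (fun P0 _ => (@Nat.rec (fun _ => List (ℕ × ℕ))
    [] (fun P1 _ => ((n, P0) :: (n, P1) :: r)) (Nat.succ (Nat.add (Nat.add p (Nat.mul (Nat.add 3 (Nat.mul 2
    (Nat.mul 3 j))) c)) (Nat.mul (Nat.succ kk) (Nat.pow 256 (Nat.mul 3 j))))))) (Nat.succ (Nat.add (Nat.add
    p (Nat.mul (Nat.add 2 (Nat.mul 2 (Nat.mul 3 j))) c)) (Nat.mul kk (Nat.pow 256 (Nat.mul 3 j))))))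
    (Nat.beq (Nat.land am (Nat.pow 2 j)) 0)) (Nat.beq (Nat.mod w 256) 0))) (Nat.succ (Nat.mod (Nat.div p
    (Nat.pow 256 (Nat.mul 3 j))) 16777216))) r (Nat.beq j i))) m

theorem kidF_eq (n p k : ℕ) (r0 : List (ℕ × ℕ)) : ∀ m,
    kidF n p (k / 3) (Nat.pow 256 k) (2 + 2 * k) (dmask p (k / 3)) r0 m = kids n p k m ++ r0 := by
  intro m
  induction m with
  | zero => rfl
  | succ j ih =>
    have e : ∀ o, (@Bool.rec (fun _ => List (ℕ × ℕ)) (@Nat.rec (fun _ => List (ℕ × ℕ)) [] (fun P1 _ => ((n,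
      P1) :: (kids n p k j ++ r0))) (Nat.succ (Nat.add (Nat.add p (Nat.mul (Nat.add 3 (Nat.mul 2 o))
      (Nat.pow 256 k))) (Nat.mul (Nat.succ (2 + 2 * k)) (Nat.pow 256 o))))) (@Nat.rec (fun _ => List (ℕ ×
      ℕ)) [] (fun P0 _ => (@Nat.rec (fun _ => List (ℕ × ℕ)) [] (fun P1 _ => ((n, P0) :: (n, P1) :: (kids n
      p k j ++ r0))) (Nat.succ (Nat.add (Nat.add p (Nat.mul (Nat.add 3 (Nat.mul 2 o)) (Nat.pow 256 k)))
      (Nat.mul (Nat.succ (2 + 2 * k)) (Nat.pow 256 o)))))) (Nat.succ (Nat.add (Nat.add p (Nat.mul (Nat.add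
      2 (Nat.mul 2 o)) (Nat.pow 256 k))) (Nat.mul (2 + 2 * k) (Nat.pow 256 o))))) (Nat.beq (Nat.land (dmask
      p (k / 3)) (Nat.pow 2 j)) 0)) =
        bif adjd p (k / 3) j then (n, p + (3 + 2 * o) * 256 ^ k + (3 + 2 * k) * 256 ^ o) :: (kids n p k j
          ++ r0)
        else (n, p + (2 + 2 * o) * 256 ^ k + (2 + 2 * k) * 256 ^ o) ::
          (n, p + (3 + 2 * o) * 256 ^ k + (3 + 2 * k) * 256 ^ o) :: (kids n p k j ++ r0) := by
      intro o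
      rw [ifc, adjd_mask]
      have e3 : Nat.succ (2 + 2 * k) = 3 + 2 * k := by omega
      cases Nat.beq (Nat.land (dmask p (k / 3)) (Nat.pow 2 j)) 0
      · rw [← e3]
        rfl
      · rw [← e3]
        rfl
    rw [kids]
    show (@Bool.rec (fun _ => List (ℕ × ℕ)) (@Bool.rec (fun _ => List (ℕ × ℕ)) (@Bool.rec (fun _ => List (ℕ
      × ℕ)) (@Bool.rec (fun _ => List (ℕ × ℕ)) (kidF n p (k / 3) (Nat.pow 256 k) (2 + 2 * k) (dmask p (k /
      3)) r0 j) (@Bool.rec (fun _ => List (ℕ × ℕ)) (@Nat.rec (fun _ => List (ℕ × ℕ)) [] (fun P1 _ => ((n,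
      P1) :: (kidF n p (k / 3) (Nat.pow 256 k) (2 + 2 * k) (dmask p (k / 3)) r0 j))) (Nat.succ (Nat.add
      (Nat.add p (Nat.mul (Nat.add 3 (Nat.mul 2 (3 * j + 2))) (Nat.pow 256 k))) (Nat.mul (Nat.succ (2 + 2 *
      k)) (Nat.pow 256 (3 * j + 2)))))) (@Nat.rec (fun _ => List (ℕ × ℕ)) [] (fun P0 _ => (@Nat.rec (fun _
      => List (ℕ × ℕ)) [] (fun P1 _ => ((n, P0) :: (n, P1) :: (kidF n p (k / 3) (Nat.pow 256 k) (2 + 2 * k)
      (dmask p (k / 3)) r0 j))) (Nat.succ (Nat.add (Nat.add p (Nat.mul (Nat.add 3 (Nat.mul 2 (3 * j + 2)))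
      (Nat.pow 256 k))) (Nat.mul (Nat.succ (2 + 2 * k)) (Nat.pow 256 (3 * j + 2))))))) (Nat.succ (Nat.add
      (Nat.add p (Nat.mul (Nat.add 2 (Nat.mul 2 (3 * j + 2))) (Nat.pow 256 k))) (Nat.mul (2 + 2 * k)
      (Nat.pow 256 (3 * j + 2)))))) (Nat.beq (Nat.land (dmask p (k / 3)) (Nat.pow 2 j)) 0)) (Nat.beq
      (Nat.div (Nat.mod (Nat.div p (Nat.pow 256 (Nat.mul 3 j))) 16777216) 65536) 0)) (@Bool.rec (fun _ =>
      List (ℕ × ℕ)) (@Nat.rec (fun _ => List (ℕ × ℕ)) [] (fun P1 _ => ((n, P1) :: (kidF n p (k / 3)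
      (Nat.pow 256 k) (2 + 2 * k) (dmask p (k / 3)) r0 j))) (Nat.succ (Nat.add (Nat.add p (Nat.mul (Nat.add
      3 (Nat.mul 2 (3 * j + 1))) (Nat.pow 256 k))) (Nat.mul (Nat.succ (2 + 2 * k)) (Nat.pow 256 (3 * j +
      1)))))) (@Nat.rec (fun _ => List (ℕ × ℕ)) [] (fun P0 _ => (@Nat.rec (fun _ => List (ℕ × ℕ)) [] (fun
      P1 _ => ((n, P0) :: (n, P1) :: (kidF n p (k / 3) (Nat.pow 256 k) (2 + 2 * k) (dmask p (k / 3)) r0
      j))) (Nat.succ (Nat.add (Nat.add p (Nat.mul (Nat.add 3 (Nat.mul 2 (3 * j + 1))) (Nat.pow 256 k)))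
      (Nat.mul (Nat.succ (2 + 2 * k)) (Nat.pow 256 (3 * j + 1))))))) (Nat.succ (Nat.add (Nat.add p (Nat.mul
      (Nat.add 2 (Nat.mul 2 (3 * j + 1))) (Nat.pow 256 k))) (Nat.mul (2 + 2 * k) (Nat.pow 256 (3 * j +
      1)))))) (Nat.beq (Nat.land (dmask p (k / 3)) (Nat.pow 2 j)) 0)) (Nat.beq (Nat.mod (Nat.div (Nat.mod
      (Nat.div p (Nat.pow 256 (Nat.mul 3 j))) 16777216) 256) 256) 0)) (@Bool.rec (fun _ => List (ℕ × ℕ))
      (@Nat.rec (fun _ => List (ℕ × ℕ)) [] (fun P1 _ => ((n, P1) :: (kidF n p (k / 3) (Nat.pow 256 k) (2 +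
      2 * k) (dmask p (k / 3)) r0 j))) (Nat.succ (Nat.add (Nat.add p (Nat.mul (Nat.add 3 (Nat.mul 2 (3 *
      j))) (Nat.pow 256 k))) (Nat.mul (Nat.succ (2 + 2 * k)) (Nat.pow 256 (3 * j)))))) (@Nat.rec (fun _ =>
      List (ℕ × ℕ)) [] (fun P0 _ => (@Nat.rec (fun _ => List (ℕ × ℕ)) [] (fun P1 _ => ((n, P0) :: (n, P1)
      :: (kidF n p (k / 3) (Nat.pow 256 k) (2 + 2 * k) (dmask p (k / 3)) r0 j))) (Nat.succ (Nat.add
      (Nat.add p (Nat.mul (Nat.add 3 (Nat.mul 2 (3 * j))) (Nat.pow 256 k))) (Nat.mul (Nat.succ (2 + 2 * k))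
      (Nat.pow 256 (3 * j))))))) (Nat.succ (Nat.add (Nat.add p (Nat.mul (Nat.add 2 (Nat.mul 2 (3 * j)))
      (Nat.pow 256 k))) (Nat.mul (2 + 2 * k) (Nat.pow 256 (3 * j)))))) (Nat.beq (Nat.land (dmask p (k / 3))
      (Nat.pow 2 j)) 0)) (Nat.beq (Nat.mod (Nat.mod (Nat.div p (Nat.pow 256 (Nat.mul 3 j))) 16777216) 256)
      0)) (kidF n p (k / 3) (Nat.pow 256 k) (2 + 2 * k) (dmask p (k / 3)) r0 j) (Nat.beq j (k / 3))) = _
    rw [ih, e, e, e, wd0, wd1, wd2, ifc, ifc, ifc, ifc]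
    unfold fo
    cases Nat.beq j (k / 3)
    · cases h0 : Nat.beq (dg p (3 * j)) 0
      · cases h1 : Nat.beq (dg p (3 * j + 1)) 0
        · cases h2 : Nat.beq (dg p (3 * j + 2)) 0
          · simp only [cond_false, h2, Bool.not_false, Bool.or_true, cond_true]
          · simp only [cond_false, h2, Bool.not_true, Bool.or_false, cond_true]
            cases adjd p (k / 3) j <;> rfl
        · simp only [cond_false, h1, Bool.not_true, Bool.or_false, cond_true]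
          cases adjd p (k / 3) j <;> rfl
      · simp only [cond_false, h0, Bool.not_true, Bool.or_false, cond_true]
        cases adjd p (k / 3) j <;> rfl
    · rfl

end EF18
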