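import Pool.Agent.Lib.MP_ef18bd_co.P.FastC

/-!
# Children lists of the events for the kernel
-/

namespace EF18

/-- the first open port, `255` if there is none; `w` are the digits, `k` the first port -/
def fo3 (w k : ℕ) : ℕ :=
  (@Bool.rec (fun _ => ℕ) (@Bool.rec (fun _ => ℕ) (@Bool.rec (fun _ => ℕ) 255 (Nat.add k 2) (Nat.beq
    (Nat.div w 65536) 0)) (Nat.succ k) (Nat.beq (Nat.mod (Nat.div w 256) 256) 0)) k (Nat.beq (Nat.mod w
    256) 0))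

/-- the number of digits `1` -/
def dn3 (w : ℕ) : ℕ :=
  Nat.add (Nat.add ((@Bool.rec (fun _ => ℕ) 0 1 (Nat.beq (Nat.mod w 256) 1))) ((@Bool.rec (fun _ => ℕ) 0 1
    (Nat.beq (Nat.mod (Nat.div w 256) 256) 1))))
    ((@Bool.rec (fun _ => ℕ) 0 1 (Nat.beq (Nat.div w 65536) 1)))

/-- the mask of the direct neighbours from the digits -/
def dm3 (w : ℕ) : ℕ :=
  Nat.lor (Nat.lor (dbF (Nat.mod w 256)) (dbF (Nat.mod (Nat.div w 256) 256))) (dbF (Nat.div w 65536))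

/-- the options with a removed node -/
def kopF (g : ℕ → ℕ → ℕ → ℕ → ℕ → List (ℕ × ℕ) → List (ℕ × ℕ)) (NA n p fi A M Z fuel : ℕ) :
    ℕ → List (ℕ × ℕ) → List (ℕ × ℕ) :=
  @Nat.rec (fun _ => ℕ → List (ℕ × ℕ) → List (ℕ × ℕ)) (fun _ r => r)
    (fun _ next X r => (@Bool.rec (fun _ => List (ℕ × ℕ)) (@Nat.rec (fun _ => List (ℕ × ℕ)) [] (fun j _ =>
      (@Nat.rec (fun _ => List (ℕ × ℕ)) [] (fun w _ => (@Nat.rec (fun _ => List (ℕ × ℕ)) [] (fun fj _ =>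
      (@Nat.rec (fun _ => List (ℕ × ℕ)) [] (fun X1 _ => (@Bool.rec (fun _ => List (ℕ × ℕ)) (@Nat.rec (fun _
      => List (ℕ × ℕ)) [] (fun B _ => (@Nat.rec (fun _ => List (ℕ × ℕ)) [] (fun P0 _ => (@Nat.rec (fun _ =>
      List (ℕ × ℕ)) [] (fun P1 _ => (@Bool.rec (fun _ => List (ℕ × ℕ)) (g M Z n P1 (Nat.succ j) (next X1
      r)) (@Bool.rec (fun _ => List (ℕ × ℕ)) (g M Z n P1 (Nat.succ j) (next X1 r)) (g M Z n P0 (Nat.succ j)
      (g M Z n P1 (Nat.succ j) (next X1 r))) (Nat.beq (Nat.lor (dm3 w) M) M)) (Nat.beq (Nat.land NA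
      (Nat.pow 2 j)) 0))) (Nat.succ (Nat.add P0 (Nat.add A B))))) (Nat.succ (Nat.add (Nat.add p (Nat.mul
      (Nat.add 2 (Nat.mul 2 fj)) A)) (Nat.mul (Nat.add 2 (Nat.mul 2 fi)) B))))) (Nat.succ (Nat.pow 256
      fj))) (next X1 r) (Nat.beq fj 255))) (Nat.succ (Nat.sub X (Nat.pow 2 j))))) (Nat.succ (fo3 w (Nat.mul
      3 j))))) (Nat.succ (Nat.mod (Nat.div p (Nat.pow 256 (Nat.mul 3 j))) 16777216)))) (Nat.succ (Nat.log2
      X))) r (Nat.beq X 0))) fuel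

/-- the options with an unknown removed vertex -/
def yopF (g : ℕ → ℕ → ℕ → ℕ → ℕ → List (ℕ × ℕ) → List (ℕ × ℕ)) (L : List ℕ) (n p fi A fuel : ℕ) :
    ℕ → List (ℕ × ℕ) → List (ℕ × ℕ) :=
  @Nat.rec (fun _ => ℕ → List (ℕ × ℕ) → List (ℕ × ℕ)) (fun _ r => r)
    (fun _ next X r => (@Bool.rec (fun _ => List (ℕ × ℕ)) (@Nat.rec (fun _ => List (ℕ × ℕ)) [] (fun j _ =>
      (@Nat.rec (fun _ => List (ℕ × ℕ)) [] (fun fj _ => (@Nat.rec (fun _ => List (ℕ × ℕ)) [] (fun X1 _ =>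
      (@Bool.rec (fun _ => List (ℕ × ℕ)) (@Nat.rec (fun _ => List (ℕ × ℕ)) [] (fun B _ => (@Nat.rec (fun _
      => List (ℕ × ℕ)) [] (fun P0 _ => (@Nat.rec (fun _ => List (ℕ × ℕ)) [] (fun P1 _ => (@Nat.rec (fun _
      => List (ℕ × ℕ)) [] (fun M0 _ => (@Nat.rec (fun _ => List (ℕ × ℕ)) [] (fun M1 _ => (g M0 M0 (Nat.succ
      n) P0 (Nat.add 65 j) (g M1 M1 (Nat.succ n) P1 (Nat.add 65 j) (next X1 r)))) (Nat.succ (kmF P1 L 0))))
      (Nat.succ (kmF P0 L 0)))) (Nat.succ (Nat.add P0 (Nat.add A (Nat.mul 256 B)))))) (Nat.succ (Nat.add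
      (Nat.add (Nat.add (Nat.add p (Nat.mul (Nat.add 2 (Nat.mul 6 n)) (Nat.pow 256 fj)))
                (Nat.mul (Nat.add 2 (Nat.mul 2 fj)) B)) (Nat.mul (Nat.add 4 (Nat.mul 6 n)) A))
                (Nat.mul (Nat.mul (Nat.add 2 (Nat.mul 2 fi)) 256) B))))) (Nat.succ (Nat.pow 256 (Nat.mul 3
                  n)))) (next X1 r) (Nat.beq fj 255))) (Nat.succ (Nat.sub X (Nat.pow 2 j))))) (Nat.succ
                  (fo3 (Nat.mod (Nat.div p (Nat.pow 256 (Nat.mul 3 j))) 16777216) (Nat.mul 3 j)))))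
                  (Nat.succ (Nat.log2 X))) r (Nat.beq X 0)))
    fuel

/-- all completions of the node `i` -/
def cmlF (D : ℕ) (L : List ℕ) (IN i : ℕ) : ℕ → ℕ → ℕ → ℕ → ℕ → ℕ → List (ℕ × ℕ) → List (ℕ × ℕ) :=
  @Nat.rec (fun _ => ℕ → ℕ → ℕ → ℕ → ℕ → List (ℕ × ℕ) → List (ℕ × ℕ)) (fun _ _ n p _ r => (n, p) :: r)
    (fun _ g M Z n p b r =>
      (@Nat.rec (fun _ => List (ℕ × ℕ)) [] (fun w _ => (@Nat.rec (fun _ => List (ℕ × ℕ)) [] (fun fi _ =>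
        (@Bool.rec (fun _ => List (ℕ × ℕ)) (@Nat.rec (fun _ => List (ℕ × ℕ)) [] (fun A _ => (@Nat.rec (fun
        _ => List (ℕ × ℕ)) [] (fun NA _ => (@Bool.rec (fun _ => List (ℕ × ℕ)) (kopF g NA n p fi A M Z n
        (Nat.land Z (Nat.pred (Nat.pow 2 b)))
              (yopF g L n p fi A n ((@Bool.rec (fun _ => ℕ) 0 (Nat.land (Nat.land Z IN) (Nat.pred (Nat.pow
                2 (Nat.sub b 64)))) (Nat.ble 65 b))) r)) (@Nat.rec (fun _ => List (ℕ × ℕ)) [] (fun P _ =>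
                (g M Z n P 0
              (kopF g NA n p fi A M Z n (Nat.land Z (Nat.pred (Nat.pow 2 b)))
                (yopF g L n p fi A n ((@Bool.rec (fun _ => ℕ) 0 (Nat.land (Nat.land Z IN) (Nat.pred
                  (Nat.pow 2 (Nat.sub b 64)))) (Nat.ble 65 b))) r)))) (Nat.succ (Nat.add p A))) (Nat.ble
                  (Nat.succ (dn3 w)) D))) (Nat.succ (Nat.lor IN (dm3 w))))) (Nat.succ (Nat.pow 256 fi)))
                  ((n, p) :: r) (Nat.beq fi 255))) (Nat.succ (fo3 w (Nat.mul 3 i))))) (Nat.succ (Nat.mod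
                  (Nat.div p (Nat.pow 256 (Nat.mul 3 i))) 16777216))))

/-- direct to a survivor -/
def sdF (M d : ℕ) : ℕ :=
  (@Bool.rec (fun _ => ℕ) 0 (@Bool.rec (fun _ => ℕ) 0 (@Bool.rec (fun _ => ℕ) 0 1 (Nat.beq (Nat.land M
    (Nat.pow 2 (Nat.div (Nat.sub d 2) 6))) 0)) (Nat.beq (Nat.mod d 2) 0)) (Nat.ble 2 d))

/-- the port leads to a survivor -/
def p9F (p M d : ℕ) : Bool :=
  (@Bool.rec (fun _ => Bool) false (@Nat.rec (fun _ => Bool) false (fun t _ => (@Bool.rec (fun _ => Bool)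
    (@Bool.rec (fun _ => Bool) false (@Nat.rec (fun _ => Bool) false (fun w _ => (Nat.ble 2 (Nat.add
    (Nat.add (sdF M (Nat.mod w 256)) (sdF M (Nat.mod (Nat.div w 256) 256)))
          (sdF M (Nat.div w 65536))))) (Nat.succ (Nat.mod (Nat.div p (Nat.pow 256 (Nat.mul 3 t)))
            16777216))) (Nat.beq (Nat.mod d 2) 0)) true (Nat.beq (Nat.land M (Nat.pow 2 t)) 0))) (Nat.succ
            (Nat.div (Nat.sub d 2) 6))) (Nat.ble 2 d))

/-- a survivor is behind some port -/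
def n9F (p M w : ℕ) : Bool :=
  (@Bool.rec (fun _ => Bool) (@Bool.rec (fun _ => Bool) (p9F p M (Nat.div w 65536)) true (p9F p M (Nat.mod
    (Nat.div w 256) 256))) true (p9F p M (Nat.mod w 256)))

/-- the completions of the known nodes with an open port -/
def evcF (D : ℕ) (L : List ℕ) (IN n p M Z : ℕ) (r : List (ℕ × ℕ)) : ℕ → List (ℕ × ℕ) :=
  @Nat.rec (fun _ => List (ℕ × ℕ)) r (fun i rest =>
    (@Bool.rec (fun _ => List (ℕ × ℕ)) rest (@Nat.rec (fun _ => List (ℕ × ℕ)) [] (fun w _ => (@Bool.rec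
      (fun _ => List (ℕ × ℕ)) (@Bool.rec (fun _ => List (ℕ × ℕ)) (cmlF D L IN i 3 M Z n p 200 rest) rest
      (n9F p M w)) rest (Nat.beq (fo3 w 0) 255))) (Nat.succ (Nat.mod (Nat.div p (Nat.pow 256 (Nat.mul 3
      i))) 16777216))) (Nat.beq (Nat.land M (Nat.pow 2 i)) 0)))

/-- the connections of an inner node -/
def kiaF (n p fi A am M : ℕ) (r : List (ℕ × ℕ)) : ℕ → List (ℕ × ℕ) :=
  @Nat.rec (fun _ => List (ℕ × ℕ)) r (fun s rest =>
    (@Bool.rec (fun _ => List (ℕ × ℕ)) rest (@Nat.rec (fun _ => List (ℕ × ℕ)) [] (fun fj _ => (@Bool.rec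
      (fun _ => List (ℕ × ℕ)) (@Nat.rec (fun _ => List (ℕ × ℕ)) [] (fun P _ => ((n, P) :: rest)) (Nat.succ
      (Nat.add (Nat.add p (Nat.mul (Nat.add 2 (Nat.mul 2 fj)) A)) (Nat.mul (Nat.add 2 (Nat.mul 2 fi))
      (Nat.pow 256 fj))))) rest (Nat.beq fj 255))) (Nat.succ (fo3 (Nat.mod (Nat.div p (Nat.pow 256 (Nat.mul
      3 s))) 16777216) (Nat.mul 3 s)))) (Nat.beq (Nat.land (Nat.lor M am) (Nat.pow 2 s)) 0)))

/-- for all inner nodes -/
def kinF (n p M IN : ℕ) (r : List (ℕ × ℕ)) : ℕ → List (ℕ × ℕ) :=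
  @Nat.rec (fun _ => List (ℕ × ℕ)) r (fun t rest =>
    (@Bool.rec (fun _ => List (ℕ × ℕ)) (@Nat.rec (fun _ => List (ℕ × ℕ)) [] (fun w _ => (@Nat.rec (fun _ =>
      List (ℕ × ℕ)) [] (fun fi _ => (@Bool.rec (fun _ => List (ℕ × ℕ)) (@Nat.rec (fun _ => List (ℕ × ℕ)) []
      (fun A _ => (@Nat.rec (fun _ => List (ℕ × ℕ)) [] (fun am _ => (kiaF n p fi A am M rest n)) (Nat.succ
      (dm3 w)))) (Nat.succ (Nat.pow 256 fi))) rest (Nat.beq fi 255))) (Nat.succ (fo3 w (Nat.mul 3 t)))))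
      (Nat.succ (Nat.mod (Nat.div p (Nat.pow 256 (Nat.mul 3 t))) 16777216))) rest (Nat.beq (Nat.land IN
      (Nat.pow 2 t)) 0)))

/-- the children of an event -/
def evF (D : ℕ) (L : List ℕ) (n p : ℕ) : List (ℕ × ℕ) :=
  (@Nat.rec (fun _ => List (ℕ × ℕ)) [] (fun M _ => (@Nat.rec (fun _ => List (ℕ × ℕ)) [] (fun IN _ => (kinF
    n p M IN (evcF D L IN n p M M (cmlF D L IN n 3 M M (Nat.succ n) p 200 []) n) n)) (Nat.succ (imF p L
    0)))) (Nat.succ (kmF p L 0)))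

end EF18
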