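import Pool.Agent.Lib.MP_ef18bd_co.P.FastD

/-!
# The fast children lists are the old ones
-/

namespace EF18

/-! ### digits -/

theorem fo3_eq (p j : ℕ) : fo3 (Nat.mod (Nat.div p (Nat.pow 256 (Nat.mul 3 j))) 16777216) (Nat.mul 3 j) =
  bif full p j then 255 else fo p j := by
  unfold fo3 full fo
  rw [wd0, wd1, wd2]
  simp only [ifc]
  cases Nat.beq (dg p (3 * j)) 0 <;> cases Nat.beq (dg p (3 * j + 1)) 0 <;>
    cases Nat.beq (dg p (3 * j + 2)) 0 <;> rfl

theorem fo3_full (p j k : ℕ) (hk : k + 2 < 255) : Nat.beq (fo3 (Nat.mod (Nat.div p (Nat.pow 256 (Nat.mul 3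
  j))) 16777216) k) 255 = full p j := by
  unfold fo3 full
  rw [wd0, wd1, wd2]
  simp only [ifc]
  cases Nat.beq (dg p (3 * j)) 0 <;> cases Nat.beq (dg p (3 * j + 1)) 0 <;>
    cases Nat.beq (dg p (3 * j + 2)) 0 <;>
    simp only [cond_true, cond_false, Bool.not_true, Bool.not_false, Bool.and_true, Bool.and_false,
      Bool.true_and, Bool.false_and]
  · rfl
  all_goals
    rw [Bool.eq_false_iff, Ne, Nat.beq_eq]
    first
      | (intro h; change k = 255 at h; omega)
      | (intro h; change k + 1 = 255 at h; omega)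
      | (intro h; change k + 2 = 255 at h; omega)

theorem dn3_eq (p j : ℕ) : dn3 (Nat.mod (Nat.div p (Nat.pow 256 (Nat.mul 3 j))) 16777216) = dn p j := by
  unfold dn3 dn
  rw [wd0, wd1, wd2, frc_eq]
  simp only [ifc]
  rfl

theorem dm3_eq (p j : ℕ) : dm3 (Nat.mod (Nat.div p (Nat.pow 256 (Nat.mul 3 j))) 16777216) = dmask p j := by
  unfold dm3
  rw [wd0, wd1, wd2, dbF_eq, dbF_eq, dbF_eq]
  rfl

theorem full_fo {p j : ℕ} (h : full p j = false) : dg p (fo p j) = 0 := by
  have h1 : ¬ ∀ k, k / 3 = j → dg p k ≠ 0 := fun hc => by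
    rw [full_iff.2 hc] at h
    exact absurd h (by simp)
  push Not at h1
  obtain ⟨k, hk, h0⟩ := h1
  exact fo_open hk h0

theorem fo_full {p j : ℕ} : Nat.beq (dg p (fo p j)) 0 = !full p j := by
  cases h : full p j
  · rw [full_fo h]
    rfl
  · rw [Bool.not_true, Bool.eq_false_iff, Ne, Nat.beq_eq]
    exact full_iff.1 h _ (fo_div p j)

theorem sdn_mask (p M j : ℕ) : Nat.beq (sdn p M j) 0 = Nat.beq (Nat.lor (dmask p j) M) M := by
  rw [Bool.eq_iff_iff, Nat.beq_eq, Nat.beq_eq]
  have hs : sdn p M j = sdp M (dg p (3 * j)) + sdp M (dg p (3 * j + 1)) + sdp M (dg p (3 * j + 2)) := rfl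
  have hk : ∀ k, k / 3 = j → (sdp M (dg p k) = 0 ↔ ∀ l, dg p k = 2 + 2 * l → M.testBit (l / 3) = true) := by
    intro k _
    constructor
    · intro h l hl
      by_contra hc
      rw [hl, sdp_dir hc] at h
      exact absurd h (by simp)
    · intro h
      by_contra hc
      obtain ⟨l, hl, hl2⟩ := sdp_pos hc
      exact hl2 (h l hl)
  constructor
  · intro h
    change dmask p j ||| M = M
    apply Nat.eq_of_testBit_eq
    intro t
    rw [Nat.testBit_or]
    cases ht : M.testBit t
    · rw [Bool.or_false, Bool.eq_false_iff]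
      intro hd
      obtain ⟨k, l, h1, h2, h3⟩ := dmask_iff.1 hd
      have h4 : sdp M (dg p k) = 0 := by
        rcases port_cases h1 with rfl | rfl | rfl <;> omega
      have := (hk k h1).1 h4 l h2
      rw [h3, ht] at this
      exact absurd this (by simp)
    · simp
  · intro h
    change dmask p j ||| M = M at h
    have h5 : ∀ k, k / 3 = j → sdp M (dg p k) = 0 := by
      intro k hkj
      refine (hk k hkj).2 fun l hl => ?_
      rw [← h, Nat.testBit_or, dmask_iff.2 ⟨k, l, hkj, hl, rfl⟩, Bool.true_or]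
    rw [hs, h5 _ (by omega), h5 _ (by omega), h5 _ (by omega)]

/-! ### iteration over the bits -/

section

variable {α : Type}

/-- iteration over the bits, the highest first -/
def itr (F : ℕ → List α → List α) : ℕ → ℕ → List α → List α :=
  @Nat.rec (fun _ => ℕ → List α → List α) (fun _ r => r) (fun _ next X r =>
    bif Nat.beq X 0 then r else F (Nat.log2 X) (next (Nat.sub X (Nat.pow 2 (Nat.log2 X))) r))

/-- the same by recursion -/
def dsc (F : ℕ → List α → List α) (X : ℕ) (r : List α) : ℕ → List α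
  | 0 => r
  | m + 1 => bif X.testBit m then F m (dsc F X r m) else dsc F X r m

theorem dsc_congr {F : ℕ → List α → List α} {X Y : ℕ} {r : List α} : ∀ {m : ℕ},
    (∀ j < m, X.testBit j = Y.testBit j) → dsc F X r m = dsc F Y r m := by
  intro m
  induction m with
  | zero => intro _; rfl
  | succ m ih =>
    intro h
    rw [dsc, dsc, h m (by omega), ih fun j hj => h j (by omega)]

theorem itr_eq (F : ℕ → List α → List α) (r : List α) : ∀ (m fuel X : ℕ), m ≤ fuel → X < 2 ^ m →
    itr F fuel X r = dsc F X r m := by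
  intro m
  induction m with
  | zero =>
    intro fuel X _ hX
    have : X = 0 := by omega
    subst this
    cases fuel <;> rfl
  | succ m ih =>
    intro fuel X hf hX
    rw [dsc]
    rcases Nat.lt_or_ge X (2 ^ m) with h | h
    · rw [Nat.testBit_lt_two_pow h, cond_false]
      exact ih fuel X (by omega) h
    · obtain ⟨f, rfl⟩ : ∃ f, fuel = f + 1 := ⟨fuel - 1, by omega⟩
      have h0 : X ≠ 0 := by
        have := Nat.two_pow_pos m
        omega
      have hlog : Nat.log2 X = m := by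
        have h1 := (Nat.log2_lt h0 (k := m + 1)).2 hX
        have h2 := (Nat.le_log2 h0 (k := m)).2 h
        omega
      obtain ⟨Y, rfl⟩ : ∃ Y, X = 2 ^ m + Y := ⟨X - 2 ^ m, by omega⟩
      have hY : Y < 2 ^ m := by rw [pow_succ] at hX; omega
      have hb : (2 ^ m + Y).testBit m = true := by
        rw [Nat.testBit_two_pow_add_eq, Nat.testBit_lt_two_pow hY]
        rfl
      rw [hb, cond_true]
      have e : itr F (f + 1) (2 ^ m + Y) r = F m (itr F f Y r) := by
        change (bif Nat.beq (2 ^ m + Y) 0 then r else F (Nat.log2 (2 ^ m + Y))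
          (itr F f (Nat.sub (2 ^ m + Y) (Nat.pow 2 (Nat.log2 (2 ^ m + Y)))) r)) = _
        have hz : Nat.beq (2 ^ m + Y) 0 = false := by
          rw [Bool.eq_false_iff, Ne, Nat.beq_eq]
          exact h0
        have hs : Nat.sub (2 ^ m + Y) (Nat.pow 2 m) = Y := by
          change 2 ^ m + Y - 2 ^ m = Y
          omega
        rw [hz, cond_false, hlog, hs]
      rw [e, ih f Y (by omega) hY]
      congr 1
      refine dsc_congr fun j hj => ?_
      rw [Nat.testBit_two_pow_add_gt hj]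

end

/-! ### extensions -/

theorem ims_kms {p t : ℕ} {L : List ℕ} (h : (ims p L 0).testBit t = true) : (kms p L 0).testBit t = true := by
  rcases ims_iff.1 h with h0 | ⟨x, hx, h1 | h1⟩
  · exact kms_iff.2 (Or.inl h0)
  · exact kms_iff.2 (Or.inr ⟨x, hx, ball_iff.2 (Or.inl h1.symm)⟩)
  · obtain ⟨k, l, h2, h3, h4⟩ := dmask_iff.1 h1
    exact kms_iff.2 (Or.inr ⟨x, hx, ball_iff.2 (Or.inr ⟨k, h2, Or.inl ⟨l, h3, Or.inl h4⟩⟩)⟩)

theorem ims_keep {p p' : ℕ} {L : List ℕ} (hf : ∀ x ∈ L, full p x = true) (hE : Ext p p') :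
    ims p' L 0 = ims p L 0 := by
  apply Nat.eq_of_testBit_eq
  intro t
  rw [Bool.eq_iff_iff]
  refine ⟨fun h => ?_, hE.ims⟩
  rcases ims_iff.1 h with h0 | ⟨x, hx, h1 | h1⟩
  · exact ims_iff.2 (Or.inl h0)
  · exact ims_iff.2 (Or.inr ⟨x, hx, Or.inl h1⟩)
  · obtain ⟨k, l, h2, h3, h4⟩ := dmask_iff.1 h1
    refine ims_iff.2 (Or.inr ⟨x, hx, Or.inr (dmask_iff.2 ⟨k, l, h2, ?_, h4⟩)⟩)
    rw [← hE k (full_iff.1 (hf x hx) k h2)]
    exact h3

theorem kms_new {p p' t : ℕ} {L : List ℕ} (hf : ∀ x ∈ L, full p x = true) (hE : Ext p p')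
    (h : (kms p' L 0).testBit t = true) : (kms p L 0).testBit t = true ∨
      ∃ k l, (ims p L 0).testBit (k / 3) = true ∧ dg p k = 0 ∧ dg p' k = 2 + 2 * l ∧ l / 3 = t := by
  rcases kms_iff.1 h with h0 | ⟨x, hx, h1⟩
  · exact Or.inl (kms_iff.2 (Or.inl h0))
  have hk : ∀ k, k / 3 = x → dg p' k = dg p k := fun k hk => hE k (full_iff.1 (hf x hx) k hk)
  rcases ball_iff.1 h1 with h2 | ⟨k, h2, ⟨l, h3, h4 | ⟨k', l', h5, h6, h7⟩⟩ | ⟨l, h3, h4⟩⟩
  · exact Or.inl (kms_iff.2 (Or.inr ⟨x, hx, ball_iff.2 (Or.inl h2)⟩))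
  · rw [hk k h2] at h3
    exact Or.inl (kms_iff.2 (Or.inr ⟨x, hx, ball_iff.2 (Or.inr ⟨k, h2, Or.inl ⟨l, h3, Or.inl h4⟩⟩)⟩))
  · rw [hk k h2] at h3
    by_cases h0 : dg p k' = 0
    · refine Or.inr ⟨k', l', ?_, h0, h6, h7⟩
      rw [h5]
      exact ims_iff.2 (Or.inr ⟨x, hx, Or.inr (dmask_iff.2 ⟨k, l, h2, h3, rfl⟩)⟩)
    · rw [hE k' h0] at h6
      exact Or.inl (kms_iff.2 (Or.inr ⟨x, hx, ball_iff.2 (Or.inr ⟨k, h2, Or.inl ⟨l, h3,
        Or.inr ⟨k', l', h5, h6, h7⟩⟩⟩)⟩))
  · rw [hk k h2] at h3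
    exact Or.inl (kms_iff.2 (Or.inr ⟨x, hx, ball_iff.2 (Or.inr ⟨k, h2, Or.inr ⟨l, h3, h4⟩⟩)⟩))

/-- no new direct connection at the inner nodes: the mask is kept -/
theorem kms_keep {p p' : ℕ} {L : List ℕ} (hf : ∀ x ∈ L, full p x = true) (hE : Ext p p')
    (hd : ∀ k l, (ims p L 0).testBit (k / 3) = true → dg p k = 0 → dg p' k ≠ 2 + 2 * l) :
    kms p' L 0 = kms p L 0 := by
  apply Nat.eq_of_testBit_eq
  intro t
  rw [Bool.eq_iff_iff]
  refine ⟨fun h => ?_, hE.kms⟩
  rcases kms_new hf hE h with h1 | ⟨k, l, h1, h2, h3, h4⟩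
  · exact h1
  · exact absurd h3 (hd k l h1 h2)

/-! ### the recursion for the completions -/

/-- the situation in the recursion -/
structure CI (L : List ℕ) (IN i n p M Z : ℕ) : Prop where
  full : ∀ x ∈ L, full p x = true
  hM : M = kms p L 0
  hIN : IN = ims p L 0
  hi : M.testBit i ≠ true
  hin : i < n
  hZM : ∀ j, Z.testBit j = true → M.testBit j = true
  hMZ : ∀ j, M.testBit j = true → EF18.full p j = false → Z.testBit j = true
  hMn : ∀ t, M.testBit t = true → t < n
  hz : ∀ k, 3 * n ≤ k → dg p k = 0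

theorem full_mono {p p' j : ℕ} (hE : Ext p p') (h : full p' j = false) : full p j = false := by
  rw [Bool.eq_false_iff] at h ⊢
  exact fun hc => h (hE.full hc)

theorem CI.keep {L : List ℕ} {IN i n p p' M Z : ℕ} (h : CI L IN i n p M Z) (hE : Ext p p')
    (hd : ∀ k l, IN.testBit (k / 3) = true → dg p k = 0 → dg p' k ≠ 2 + 2 * l)
    (hz : ∀ k, 3 * n ≤ k → dg p' k = 0) : CI L IN i n p' M Z := by
  refine ⟨fun x hx => hE.full (h.full x hx), ?_, ?_, h.hi, h.hin, h.hZM, fun j hj hf =>
    h.hMZ j hj (full_mono hE hf), h.hMn, hz⟩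
  · rw [h.hM]
    refine (kms_keep h.full hE fun k l h1 h2 => hd k l ?_ h2).symm
    rw [h.hIN]
    exact h1
  · rw [h.hIN]
    exact (ims_keep h.full hE).symm

theorem CI.inM {L : List ℕ} {IN i n p M Z t : ℕ} (h : CI L IN i n p M Z) (ht : IN.testBit t = true) :
    M.testBit t = true := by
  rw [h.hM]
  rw [h.hIN] at ht
  exact ims_kms ht

theorem CI.one {L : List ℕ} {IN i n p M Z : ℕ} (h : CI L IN i n p M Z) (hf : EF18.full p i = false) :
    CI L IN i n (p + 1 * 256 ^ fo p i) M Z := by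
  have h0 := full_fo hf
  have hfd := fo_div p i
  have hin := h.hin
  refine h.keep (ext_one h0 (by norm_num)) (fun k l hk hk0 => ?_) fun k hk => ?_
  · rw [dg_add h0 (by norm_num)]
    split_ifs with h1
    · omega
    · rw [hk0]; omega
  · rw [dg_add h0 (by norm_num), if_neg (by omega)]
    exact h.hz k hk

theorem CI.set {L : List ℕ} {IN i n p M Z : ℕ} (h : CI L IN i n p M Z) (hf : EF18.full p i = false)
    (hn : n ≤ 40) {a j : ℕ} (ha : a < 2) (hj : M.testBit j = true) (hjf : EF18.full p j = false)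
    (hd : a = 0 → IN.testBit j ≠ true) :
    CI L IN i n (p + (2 + a + 2 * fo p j) * 256 ^ fo p i + (2 + a + 2 * fo p i) * 256 ^ fo p j) M Z := by
  have h0 := full_fo hf
  have h0' := full_fo hjf
  have hfd := fo_div p i
  have hfd' := fo_div p j
  have hin := h.hin
  have hjn := h.hMn j hj
  have hij : i ≠ j := by
    rintro rfl
    exact h.hi hj
  have hne : fo p i ≠ fo p j := fun e => hij (by rw [← hfd, ← hfd', e])
  have hdg := dg_pair (c := 2 + a + 2 * fo p j) (d := 2 + a + 2 * fo p i) hne h0 h0' (by omega) (by omega)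
  refine h.keep (ext_pair hne h0 h0' (by omega) (by omega)) (fun k l hk hk0 => ?_) fun k hk => ?_
  · rw [hdg]
    split_ifs with h1 h2
    · intro e
      have ha0 : a = 0 := by omega
      rw [h1, hfd'] at hk
      exact hd ha0 hk
    · rw [h2, hfd] at hk
      exact absurd (h.inM hk) h.hi
    · rw [hk0]; omega
  · rw [hdg, if_neg (by omega), if_neg (by omega)]
    exact h.hz k hk

theorem CI.two {L : List ℕ} {IN i n p M Z : ℕ} (h : CI L IN i n p M Z) (hf : EF18.full p i = false)
    (hn : n < 40) {a t : ℕ} (ha : a < 2) (ht : IN.testBit t = true) (htf : EF18.full p t = false) :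
    CI L IN i (n + 1) (EF18.two n p 0 (fo p t) a (fo p i)) (kms (EF18.two n p 0 (fo p t) a (fo p i)) L 0)
      (kms (EF18.two n p 0 (fo p t) a (fo p i)) L 0) := by
  have h0 := full_fo hf
  have h0' := full_fo htf
  have hfd := fo_div p i
  have hfd' := fo_div p t
  have hin := h.hin
  have htn := h.hMn t (h.inM ht)
  have hij : i ≠ t := by
    rintro rfl
    exact h.hi (h.inM ht)
  have hne : fo p t ≠ fo p i := fun e => hij (by rw [← hfd, ← hfd', e])
  have hdg := dg_two (n := n) (p := p) (a := 0) (k := fo p t) (b := a) (l := fo p i) hn (by omega) ha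
    (by omega) (by omega) hne h0' h0 h.hz
  have hE : Ext p (EF18.two n p 0 (fo p t) a (fo p i)) := by
    intro k hk
    rw [hdg]
    split_ifs with h1 h2 h3 h4
    · exact absurd (h.hz k (by omega)) hk
    · rw [h2] at hk; exact absurd h0 hk
    · exact absurd (h.hz k (by omega)) hk
    · rw [h4] at hk; exact absurd h0' hk
    · rfl
  have hnew : ∀ s, (kms (EF18.two n p 0 (fo p t) a (fo p i)) L 0).testBit s = true →
      M.testBit s = true ∨ s = n := by
    intro s hs
    rcases kms_new h.full hE hs with h1 | ⟨k, l, h1, h2, h3, h4⟩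
    · left
      rw [h.hM]
      exact h1
    · right
      rw [← h.hIN] at h1
      have hkM := h.inM h1
      have hkn := h.hMn _ hkM
      rw [hdg] at h3
      split_ifs at h3 with e1 e2 e3 e4
      · omega
      · rw [e2, hfd] at hkM
        exact absurd hkM h.hi
      · omega
      · omega
      · omega
  refine ⟨fun x hx => hE.full (h.full x hx), rfl, ?_, fun hc => ?_, by omega, fun j hj => hj,
    fun j hj _ => hj, fun s hs => ?_, fun k hk => ?_⟩
  · rw [h.hIN]
    exact (ims_keep h.full hE).symm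
  · rcases hnew i hc with h1 | h1
    · exact h.hi h1
    · omega
  · rcases hnew s hs with h1 | h1
    · have := h.hMn s h1
      omega
    · omega
  · rw [hdg, if_neg (by omega), if_neg (by omega), if_neg (by omega), if_neg (by omega)]
    exact h.hz k (by omega)

/-- the options with the node `j` -/
def oK (M IN n p i b j : ℕ) : List (ℕ × ℕ × ℕ) :=
  bif tb M j && Nat.beq (dg p (fo p j)) 0 && Nat.ble (j + 1) b then
    (bif tb IN j || !Nat.beq (sdn p M j) 0 || adjd p i j then [] else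
      [(n, p + (2 + 2 * fo p j) * 256 ^ fo p i + (2 + 2 * fo p i) * 256 ^ fo p j, j + 1)]) ++
    [(n, p + (3 + 2 * fo p j) * 256 ^ fo p i + (3 + 2 * fo p i) * 256 ^ fo p j, j + 1)] else []

theorem optK_succ (M IN n p i b j : ℕ) :
    optK M IN n p i b (j + 1) = oK M IN n p i b j ++ optK M IN n p i b j := by
  rw [optK, oK]
  cases tb M j && Nat.beq (dg p (fo p j)) 0 && Nat.ble (j + 1) b
  · rfl
  · rw [cond_true, cond_true, List.append_assoc]
    rfl

/-- the options with an unknown vertex -/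
def oY (IN n p i b t : ℕ) : List (ℕ × ℕ × ℕ) :=
  bif tb IN t && Nat.beq (dg p (fo p t)) 0 && Nat.ble (65 + t) b then
    [(n + 1, two n p 0 (fo p t) 0 (fo p i), 65 + t), (n + 1, two n p 0 (fo p t) 1 (fo p i), 65 + t)] else []

theorem optY_succ (IN n p i b j : ℕ) :
    optY IN n p i b (j + 1) = oY IN n p i b j ++ optY IN n p i b j := by
  rw [optY, oY]
  cases tb IN j && Nat.beq (dg p (fo p j)) 0 && Nat.ble (65 + j) b <;> rfl

theorem optK_dsc {M IN n p i b X : ℕ} {F : ℕ → List (ℕ × ℕ) → List (ℕ × ℕ)}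
    {g : ℕ × ℕ × ℕ → List (ℕ × ℕ)} {r : List (ℕ × ℕ)} : ∀ {m : ℕ},
    (∀ j < m, ∀ rest, (bif X.testBit j then F j rest else rest) = (oK M IN n p i b j).flatMap g ++ rest) →
    dsc F X r m = (optK M IN n p i b m).flatMap g ++ r := by
  intro m
  induction m with
  | zero => intro _; rfl
  | succ m ih =>
    intro h
    rw [dsc, optK_succ, List.flatMap_append, List.append_assoc, ← ih fun j hj => h j (by omega)]
    exact h m (by omega) _

theorem optY_dsc {IN n p i b X : ℕ} {F : ℕ → List (ℕ × ℕ) → List (ℕ × ℕ)}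
    {g : ℕ × ℕ × ℕ → List (ℕ × ℕ)} {r : List (ℕ × ℕ)} : ∀ {m : ℕ},
    (∀ j < m, ∀ rest, (bif X.testBit j then F j rest else rest) = (oY IN n p i b j).flatMap g ++ rest) →
    dsc F X r m = (optY IN n p i b m).flatMap g ++ r := by
  intro m
  induction m with
  | zero => intro _; rfl
  | succ m ih =>
    intro h
    rw [dsc, optY_succ, List.flatMap_append, List.append_assoc, ← ih fun j hj => h j (by omega)]
    exact h m (by omega) _

end EF18
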