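import Pool.Agent.Lib.MP_ef18bd_co.P.FastE

/-!
# The fast children lists are the old ones: the lists
-/

namespace EF18

/-- the first of the two patterns -/
def pp0 (p fi fj : ℕ) : ℕ :=
  Nat.add (Nat.add p (Nat.mul (Nat.add 2 (Nat.mul 2 fj)) (Nat.pow 256 fi)))
    (Nat.mul (Nat.add 2 (Nat.mul 2 fi)) (Nat.pow 256 fj))

/-- the second of the two patterns -/
def pp1 (p fi fj : ℕ) : ℕ := Nat.add (pp0 p fi fj) (Nat.add (Nat.pow 256 fi) (Nat.pow 256 fj))

theorem pp0_eq (p fi fj : ℕ) : pp0 p fi fj = p + (2 + 0 + 2 * fj) * 256 ^ fi + (2 + 0 + 2 * fi) * 256 ^ fj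
  := rfl

theorem pp1_eq (p fi fj : ℕ) : pp1 p fi fj = p + (2 + 1 + 2 * fj) * 256 ^ fi + (2 + 1 + 2 * fi) * 256 ^ fj
  := by
  change (p + (2 + 2 * fj) * 256 ^ fi + (2 + 2 * fi) * 256 ^ fj) + (256 ^ fi + 256 ^ fj) = _
  ring

/-- one step of `kopF` -/
def kF (g : ℕ → ℕ → ℕ → ℕ → ℕ → List (ℕ × ℕ) → List (ℕ × ℕ)) (NA n p fi M Z j : ℕ)
    (rest : List (ℕ × ℕ)) : List (ℕ × ℕ) :=
  bif Nat.beq (fo3 (Nat.mod (Nat.div p (Nat.pow 256 (Nat.mul 3 j))) 16777216) (Nat.mul 3 j)) 255 then rest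
    else
    bif Nat.beq (Nat.land NA (Nat.pow 2 j)) 0 then
      (bif Nat.beq (Nat.lor (dm3 (Nat.mod (Nat.div p (Nat.pow 256 (Nat.mul 3 j))) 16777216)) M) M then
        g M Z n (pp0 p fi (fo3 (Nat.mod (Nat.div p (Nat.pow 256 (Nat.mul 3 j))) 16777216) (Nat.mul 3 j)))
          (Nat.succ j)
          (g M Z n (pp1 p fi (fo3 (Nat.mod (Nat.div p (Nat.pow 256 (Nat.mul 3 j))) 16777216) (Nat.mul 3
            j))) (Nat.succ j) rest)
      else g M Z n (pp1 p fi (fo3 (Nat.mod (Nat.div p (Nat.pow 256 (Nat.mul 3 j))) 16777216) (Nat.mul 3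
        j))) (Nat.succ j) rest)
    else g M Z n (pp1 p fi (fo3 (Nat.mod (Nat.div p (Nat.pow 256 (Nat.mul 3 j))) 16777216) (Nat.mul 3 j)))
      (Nat.succ j) rest

theorem kopF_eq (g : ℕ → ℕ → ℕ → ℕ → ℕ → List (ℕ × ℕ) → List (ℕ × ℕ)) (NA n p fi M Z fuel : ℕ) :
    kopF g NA n p fi (Nat.pow 256 fi) M Z fuel = itr (kF g NA n p fi M Z) fuel := by
  induction fuel with
  | zero => rfl
  | succ f ih =>
    funext X r
    have e : itr (kF g NA n p fi M Z) (f + 1) X r = bif Nat.beq X 0 then r else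
      kF g NA n p fi M Z (Nat.log2 X) (itr (kF g NA n p fi M Z) f (Nat.sub X (Nat.pow 2 (Nat.log2 X))) r)
        := rfl
    rw [e, ← ih]
    unfold kopF
    dsimp only
    simp only [ifc]
    rfl

/-- the first of the two patterns with a new node -/
def yy0 (n p fi fj : ℕ) : ℕ :=
  Nat.add (Nat.add (Nat.add (Nat.add p (Nat.mul (Nat.add 2 (Nat.mul 6 n)) (Nat.pow 256 fj)))
    (Nat.mul (Nat.add 2 (Nat.mul 2 fj)) (Nat.pow 256 (Nat.mul 3 n))))
    (Nat.mul (Nat.add 4 (Nat.mul 6 n)) (Nat.pow 256 fi)))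
    (Nat.mul (Nat.mul (Nat.add 2 (Nat.mul 2 fi)) 256) (Nat.pow 256 (Nat.mul 3 n)))

/-- the second of the two patterns with a new node -/
def yy1 (n p fi fj : ℕ) : ℕ :=
  Nat.add (yy0 n p fi fj) (Nat.add (Nat.pow 256 fi) (Nat.mul 256 (Nat.pow 256 (Nat.mul 3 n))))

theorem yy0_eq (n p fi fj : ℕ) : yy0 n p fi fj = two n p 0 fj 0 fi := by
  unfold two
  change (((p + (2 + 6 * n) * 256 ^ fj) + (2 + 2 * fj) * 256 ^ (3 * n)) + (4 + 6 * n) * 256 ^ fi) +
    (2 + 2 * fi) * 256 * 256 ^ (3 * n) = _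
  ring

theorem yy1_eq (n p fi fj : ℕ) : yy1 n p fi fj = two n p 0 fj 1 fi := by
  unfold two
  change ((((p + (2 + 6 * n) * 256 ^ fj) + (2 + 2 * fj) * 256 ^ (3 * n)) + (4 + 6 * n) * 256 ^ fi) +
    (2 + 2 * fi) * 256 * 256 ^ (3 * n)) + (256 ^ fi + 256 * 256 ^ (3 * n)) = _
  ring

/-- one step of `yopF` -/
def yF (g : ℕ → ℕ → ℕ → ℕ → ℕ → List (ℕ × ℕ) → List (ℕ × ℕ)) (L : List ℕ) (n p fi j : ℕ)
    (rest : List (ℕ × ℕ)) : List (ℕ × ℕ) :=
  bif Nat.beq (fo3 (Nat.mod (Nat.div p (Nat.pow 256 (Nat.mul 3 j))) 16777216) (Nat.mul 3 j)) 255 then rest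
    else
    g (kmF (yy0 n p fi (fo3 (Nat.mod (Nat.div p (Nat.pow 256 (Nat.mul 3 j))) 16777216) (Nat.mul 3 j))) L 0)
      (kmF (yy0 n p fi (fo3 (Nat.mod (Nat.div p (Nat.pow 256 (Nat.mul 3 j))) 16777216) (Nat.mul 3 j))) L 0)
      (Nat.succ n) (yy0 n p fi (fo3 (Nat.mod (Nat.div p (Nat.pow 256 (Nat.mul 3 j))) 16777216) (Nat.mul 3
        j))) (Nat.add 65 j)
      (g (kmF (yy1 n p fi (fo3 (Nat.mod (Nat.div p (Nat.pow 256 (Nat.mul 3 j))) 16777216) (Nat.mul 3 j))) L
        0) (kmF (yy1 n p fi (fo3 (Nat.mod (Nat.div p (Nat.pow 256 (Nat.mul 3 j))) 16777216) (Nat.mul 3 j)))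
        L 0)
        (Nat.succ n) (yy1 n p fi (fo3 (Nat.mod (Nat.div p (Nat.pow 256 (Nat.mul 3 j))) 16777216) (Nat.mul 3
          j))) (Nat.add 65 j) rest)

theorem yopF_eq (g : ℕ → ℕ → ℕ → ℕ → ℕ → List (ℕ × ℕ) → List (ℕ × ℕ)) (L : List ℕ) (n p fi fuel : ℕ) :
    yopF g L n p fi (Nat.pow 256 fi) fuel = itr (yF g L n p fi) fuel := by
  induction fuel with
  | zero => rfl
  | succ f ih =>
    funext X r
    have e : itr (yF g L n p fi) (f + 1) X r = bif Nat.beq X 0 then r else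
      yF g L n p fi (Nat.log2 X) (itr (yF g L n p fi) f (Nat.sub X (Nat.pow 2 (Nat.log2 X))) r) := rfl
    rw [e, ← ih]
    unfold yopF
    dsimp only
    simp only [ifc]
    rfl

theorem land_bit (x j : ℕ) : Nat.beq (Nat.land x (Nat.pow 2 j)) 0 = !x.testBit j := by
  change Nat.beq (x &&& 2 ^ j) 0 = _
  rw [Nat.and_two_pow]
  cases x.testBit j
  · simp
  · have h4 : (2 ^ j : ℕ) ≠ 0 := by positivity
    rw [Bool.not_true, Bool.eq_false_iff, Ne, Nat.beq_eq]
    simpa using h4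

theorem nbeq {a b : ℕ} (h : a ≠ b) : Nat.beq a b = false := by
  rw [Bool.eq_false_iff, Ne, Nat.beq_eq]
  exact h

theorem lt_of_bits {x n : ℕ} (h : ∀ j, x.testBit j = true → j < n) : x < 2 ^ n := by
  refine Nat.lt_pow_two_of_testBit _ fun i hi => ?_
  rw [Bool.eq_false_iff]
  exact fun hc => absurd (h i hc) (by omega)

theorem bits_pred (Z b j : ℕ) : (Nat.land Z (Nat.pred (Nat.pow 2 b))).testBit j =
    (Z.testBit j && decide (j < b)) := by
  change (Z &&& (2 ^ b - 1)).testBit j = _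
  rw [Nat.testBit_and, Nat.testBit_two_pow_sub_one]

theorem fo_lt {p n i : ℕ} (hn : n ≤ 41) (hi : i < n) : Nat.beq (fo p i) 255 = false := by
  have := fo_div p i
  rw [Bool.eq_false_iff, Ne, Nat.beq_eq]
  omega

/-- the options with the removed nodes -/
theorem CI.kop {L : List ℕ} {IN i n p M Z b : ℕ} (h : CI L IN i n p M Z) (hf : EF18.full p i = false)
    (hn : n ≤ 40) {g : ℕ → ℕ → ℕ → ℕ → ℕ → List (ℕ × ℕ) → List (ℕ × ℕ)} {G : ℕ × ℕ × ℕ → List (ℕ × ℕ)}
    (hg : ∀ p' b' r, CI L IN i n p' M Z → g M Z n p' b' r = G (n, p', b') ++ r) (r : List (ℕ × ℕ)) :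
    kopF g (Nat.lor IN (dm3 (Nat.mod (Nat.div p (Nat.pow 256 (Nat.mul 3 i))) 16777216))) n p (fo p i)
      (Nat.pow 256 (fo p i)) M Z n
      (Nat.land Z (Nat.pred (Nat.pow 2 b))) r = (optK M IN n p i b n).flatMap G ++ r := by
  rw [kopF_eq, itr_eq _ _ n _ _ le_rfl (lt_of_bits fun j hj => ?_)]
  swap
  · rw [bits_pred, Bool.and_eq_true] at hj
    exact h.hMn j (h.hZM j hj.1)
  refine optK_dsc fun j hj rest => ?_
  rw [bits_pred]
  unfold kF oK
  rw [fo3_eq]
  cases hjf : EF18.full p j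
  · -- open
    rw [cond_false, fo_lt (by omega) hj, cond_false, full_fo hjf, land_bit, dm3_eq]
    cases hZ : Z.testBit j
    · -- not in the mask
      have hM : M.testBit j ≠ true := fun hc => by
        rw [h.hMZ j hc hjf] at hZ
        exact absurd hZ (by simp)
      rw [tb_false hM]
      rfl
    · have hM := h.hZM j hZ
      rw [tb_eq M, hM]
      by_cases hjb : j < b
      · rw [show decide (j < b) = true from decide_eq_true hjb, Nat.ble_eq_true_of_le (by omega : j + 1 ≤ b)]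
        have e1 : (Nat.lor IN (dmask p i)).testBit j = (IN.testBit j || (dmask p i).testBit j) :=
          Nat.testBit_or _ _ _
        have e2 : adjd p i j = (dmask p i).testBit j := by
          rw [adjd_mask, land_bit, Bool.not_not]
        have k0 : IN.testBit j ≠ true → CI L IN i n (pp0 p (fo p i) (fo p j)) M Z := fun hIN => by
          rw [pp0_eq]
          exact h.set hf hn (by omega) hM hjf fun _ => hIN
        have k1 : CI L IN i n (pp1 p (fo p i) (fo p j)) M Z := by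
          rw [pp1_eq]
          exact h.set hf hn (by omega) hM hjf fun h0 => absurd h0 (by omega)
        rw [e1, e2, tb_eq IN, sdn_mask, dm3_eq, hg _ _ _ k1]
        cases hI : IN.testBit j
        · cases hD : (dmask p i).testBit j
          · cases hS : Nat.beq (Nat.lor (dmask p j) M) M
            · simp [pp1_eq]
            · have k2 := hg _ (Nat.succ j) (G (n, pp1 p (fo p i) (fo p j), Nat.succ j) ++ rest)
                (k0 (by rw [hI]; simp))
              simp [pp1_eq, pp0_eq] at k2 ⊢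
              exact k2
          · simp [pp1_eq]
        · simp [pp1_eq]
      · rw [show decide (j < b) = false from decide_eq_false hjb]
        have : Nat.ble (j + 1) b = false := by
          rw [Bool.eq_false_iff, Ne, Nat.ble_eq]
          omega
        rw [this]
        rfl
  · -- full
    rw [cond_true, fo_full, hjf]
    cases Z.testBit j && decide (j < b) <;> cases tb M j <;> rfl

theorem bits_pred2 (Z IN b j : ℕ) : (Nat.land (Nat.land Z IN) (Nat.pred (Nat.pow 2 b))).testBit j =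
    (Z.testBit j && IN.testBit j && decide (j < b)) := by
  rw [bits_pred]
  change ((Z &&& IN).testBit j && _) = _
  rw [Nat.testBit_and]

/-- the options with an unknown vertex -/
theorem CI.yop {L : List ℕ} {IN i n p M Z b : ℕ} (h : CI L IN i n p M Z) (hf : EF18.full p i = false)
    (hn : n < 40) {g : ℕ → ℕ → ℕ → ℕ → ℕ → List (ℕ × ℕ) → List (ℕ × ℕ)} {G : ℕ × ℕ × ℕ → List (ℕ × ℕ)}
    (hg : ∀ p' M' b' r, CI L IN i (n + 1) p' M' M' → g M' M' (n + 1) p' b' r = G (n + 1, p', b') ++ r)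
    (r : List (ℕ × ℕ)) :
    yopF g L n p (fo p i) (Nat.pow 256 (fo p i)) n (@Bool.rec (fun _ => ℕ) 0 (Nat.land (Nat.land Z IN)
      (Nat.pred (Nat.pow 2 (Nat.sub b 64)))) (Nat.ble 65 b)) r = (optY IN n p i b n).flatMap G ++ r := by
  have hX : ∀ j, Nat.testBit (@Bool.rec (fun _ => ℕ) 0 (Nat.land (Nat.land Z IN)
      (Nat.pred (Nat.pow 2 (Nat.sub b 64)))) (Nat.ble 65 b)) j =
      (Z.testBit j && IN.testBit j && decide (65 + j ≤ b)) := by
    intro j
    rw [ifc]
    cases hb : Nat.ble 65 b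
    · rw [cond_false, Nat.zero_testBit]
      have h1 : ¬ 65 ≤ b := by
        intro h1
        rw [Nat.ble_eq_true_of_le h1] at hb
        exact absurd hb (by simp)
      rw [show decide (65 + j ≤ b) = false from decide_eq_false (by omega), Bool.and_false]
    · have h1 := Nat.le_of_ble_eq_true hb
      rw [cond_true, bits_pred2]
      have h2 : (decide (j < Nat.sub b 64)) = decide (65 + j ≤ b) := by
        rw [Bool.eq_iff_iff, decide_eq_true_iff, decide_eq_true_iff]
        change j < b - 64 ↔ _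
        omega
      rw [h2]
  rw [yopF_eq, itr_eq _ _ n _ _ le_rfl (lt_of_bits fun j hj => ?_)]
  swap
  · rw [hX, Bool.and_eq_true, Bool.and_eq_true] at hj
    exact h.hMn j (h.hZM j hj.1.1)
  refine optY_dsc fun j hj rest => ?_
  rw [hX]
  unfold yF oY
  rw [fo3_eq]
  cases hjf : EF18.full p j
  · rw [cond_false, fo_lt (by omega) hj, cond_false, full_fo hjf, tb_eq IN, kmF_eq, kmF_eq, yy0_eq, yy1_eq]
    cases hI : IN.testBit j
    · cases Z.testBit j <;> rfl
    · have hM := h.inM hI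
      rw [h.hMZ j hM hjf]
      by_cases hjb : 65 + j ≤ b
      · rw [show decide (65 + j ≤ b) = true from decide_eq_true hjb, Nat.ble_eq_true_of_le hjb]
        have k0 := hg _ _ (Nat.add 65 j) (g (kms (EF18.two n p 0 (fo p j) 1 (fo p i)) L 0)
          (kms (EF18.two n p 0 (fo p j) 1 (fo p i)) L 0) (Nat.succ n) (EF18.two n p 0 (fo p j) 1 (fo p i))
          (Nat.add 65 j) rest) (h.two hf hn (a := 0) (by omega) hI hjf)
        have k1 := hg _ _ (Nat.add 65 j) rest (h.two hf hn (a := 1) (by omega) hI hjf)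
        simp only [Bool.true_and, cond_true, List.flatMap_cons, List.flatMap_nil, List.append_nil,
          List.append_assoc]
        refine k0.trans ?_
        rw [show Nat.succ n = n + 1 from rfl, k1]
        change G (n + 1, EF18.two n p 0 (fo p j) 0 (fo p i), 65 + j) ++
          (G (n + 1, EF18.two n p 0 (fo p j) 1 (fo p i), 65 + j) ++ rest) =
          ([(n + 1, EF18.two n p 0 (fo p j) 0 (fo p i), 65 + j),
            (n + 1, EF18.two n p 0 (fo p j) 1 (fo p i), 65 + j)] : List (ℕ × ℕ × ℕ)).flatMap G ++ rest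
        simp
      · rw [show decide (65 + j ≤ b) = false from decide_eq_false hjb]
        have : Nat.ble (65 + j) b = false := by
          rw [Bool.eq_false_iff, Ne, Nat.ble_eq]
          exact hjb
        rw [this]
        rfl
  · rw [cond_true, fo_full, hjf]
    cases Z.testBit j && IN.testBit j && decide (65 + j ≤ b) <;> cases tb IN j <;> rfl

theorem cmlF_succ (D : ℕ) (L : List ℕ) (IN i f M Z n p b : ℕ) (r : List (ℕ × ℕ)) :
    cmlF D L IN i (f + 1) M Z n p b r = bif Nat.beq (fo3 (Nat.mod (Nat.div p (Nat.pow 256 (Nat.mul 3 i)))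
      16777216) (Nat.mul 3 i)) 255 then (n, p) :: r else
      bif Nat.ble (Nat.succ (dn3 (Nat.mod (Nat.div p (Nat.pow 256 (Nat.mul 3 i))) 16777216))) D then
        cmlF D L IN i f M Z n (Nat.add p (Nat.pow 256 (fo3 (Nat.mod (Nat.div p (Nat.pow 256 (Nat.mul 3 i)))
          16777216) (Nat.mul 3 i)))) 0
          (kopF (cmlF D L IN i f) (Nat.lor IN (dm3 (Nat.mod (Nat.div p (Nat.pow 256 (Nat.mul 3 i)))
            16777216))) n p (fo3 (Nat.mod (Nat.div p (Nat.pow 256 (Nat.mul 3 i))) 16777216) (Nat.mul 3 i))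
            (Nat.pow 256 (fo3 (Nat.mod (Nat.div p (Nat.pow 256 (Nat.mul 3 i))) 16777216) (Nat.mul 3 i))) M
              Z n (Nat.land Z (Nat.pred (Nat.pow 2 b)))
            (yopF (cmlF D L IN i f) L n p (fo3 (Nat.mod (Nat.div p (Nat.pow 256 (Nat.mul 3 i))) 16777216)
              (Nat.mul 3 i))
              (Nat.pow 256 (fo3 (Nat.mod (Nat.div p (Nat.pow 256 (Nat.mul 3 i))) 16777216) (Nat.mul 3 i)))
                n (@Bool.rec (fun _ => ℕ) 0
                (Nat.land (Nat.land Z IN) (Nat.pred (Nat.pow 2 (Nat.sub b 64)))) (Nat.ble 65 b)) r))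
      else (kopF (cmlF D L IN i f) (Nat.lor IN (dm3 (Nat.mod (Nat.div p (Nat.pow 256 (Nat.mul 3 i)))
        16777216))) n p (fo3 (Nat.mod (Nat.div p (Nat.pow 256 (Nat.mul 3 i))) 16777216) (Nat.mul 3 i))
            (Nat.pow 256 (fo3 (Nat.mod (Nat.div p (Nat.pow 256 (Nat.mul 3 i))) 16777216) (Nat.mul 3 i))) M
              Z n (Nat.land Z (Nat.pred (Nat.pow 2 b)))
            (yopF (cmlF D L IN i f) L n p (fo3 (Nat.mod (Nat.div p (Nat.pow 256 (Nat.mul 3 i))) 16777216)
              (Nat.mul 3 i))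
              (Nat.pow 256 (fo3 (Nat.mod (Nat.div p (Nat.pow 256 (Nat.mul 3 i))) 16777216) (Nat.mul 3 i)))
                n (@Bool.rec (fun _ => ℕ) 0
                (Nat.land (Nat.land Z IN) (Nat.pred (Nat.pow 2 (Nat.sub b 64)))) (Nat.ble 65 b)) r)) := by
  unfold cmlF
  dsimp only
  simp only [ifc]

theorem cmlF_eq {D i IN : ℕ} {L : List ℕ} : ∀ (f n p b M Z : ℕ) (r : List (ℕ × ℕ)),
    CI L IN i n p M Z → n + f ≤ 40 → cmlF D L IN i f M Z n p b r = cml D L i f n p b ++ r := by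
  intro f
  induction f with
  | zero => intro n p b M Z r _ _; rfl
  | succ f ih =>
    intro n p b M Z r h hn
    rw [cmlF_succ, fo3_eq, cml]
    cases hf : EF18.full p i
    · rw [cond_false, fo_lt (by omega) h.hin, cond_false, cond_false,
        h.kop hf (by omega) (G := fun q => cml D L i f q.1 q.2.1 q.2.2) (fun p' b' r h' => ih n p' b' M Z r h'
          (by omega)),
        h.yop hf (by omega) (G := fun q => cml D L i f q.1 q.2.1 q.2.2) (fun p' M' b' r h' => ih (n + 1) p' b'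
          M' M' r h' (by omega)), dn3_eq]
      unfold opts
      rw [frc_eq, frc_eq, ← h.hM, ← h.hIN]
      have hone := ih n (p + 1 * 256 ^ fo p i) 0 M Z ((optK M IN n p i b n).flatMap
        (fun q => cml D L i f q.1 q.2.1 q.2.2) ++ ((optY IN n p i b n).flatMap
          (fun q => cml D L i f q.1 q.2.1 q.2.2) ++ r)) (h.one hf) (by omega)
      rw [show Nat.add p (Nat.pow 256 (fo p i)) = p + 1 * 256 ^ fo p i by
        change p + 256 ^ fo p i = _
        rw [one_mul], hone]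
      cases Nat.ble (Nat.succ (dn p i)) D
      · simp
      · simp
    · rfl

/-! ### the other lists -/

theorem sdF_eq (M d : ℕ) : sdF M d = sdp M d := by
  unfold sdF sdp
  rw [ifc, ifc, ifc, land_bit]
  change (bif Nat.ble 2 d then bif Nat.beq (Nat.mod d 2) 0 then bif !M.testBit (tg d) then 1 else 0 else 0
    else 0) = _
  rw [tb_eq]
  cases Nat.ble 2 d <;> cases Nat.beq (Nat.mod d 2) 0 <;> cases M.testBit (tg d) <;> rfl

theorem p9F_eq (p M d : ℕ) : p9F p M d = Nat.beq (pc p M d) 3 := by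
  unfold p9F pc
  change @Bool.rec (fun _ => Bool) false (@Bool.rec (fun _ => Bool) (@Bool.rec (fun _ => Bool) false
    (Nat.ble 2 (Nat.add (Nat.add (sdF M (Nat.mod (Nat.mod (Nat.div p (Nat.pow 256 (Nat.mul 3 (tg d))))
      16777216) 256))
      (sdF M (Nat.mod (Nat.div (Nat.mod (Nat.div p (Nat.pow 256 (Nat.mul 3 (tg d)))) 16777216) 256) 256)))
        (sdF M (Nat.div (Nat.mod (Nat.div p (Nat.pow 256 (Nat.mul 3 (tg d)))) 16777216) 65536))))
    (Nat.beq (Nat.mod d 2) 0)) true (Nat.beq (Nat.land M (Nat.pow 2 (tg d))) 0)) (Nat.ble 2 d) = _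
  rw [wd0, wd1, wd2, sdF_eq, sdF_eq, sdF_eq, ifc, ifc, ifc, land_bit, tb_eq]
  have hs : Nat.add (Nat.add (sdp M (dg p (3 * tg d))) (sdp M (dg p (3 * tg d + 1))))
    (sdp M (dg p (3 * tg d + 2))) = sdn p M (tg d) := rfl
  rw [hs]
  rcases Nat.lt_or_ge d 2 with h | h
  · interval_cases d <;> rfl
  · have h0 : Nat.beq d 0 = false := nbeq (by omega)
    have h1 : Nat.beq d 1 = false := nbeq (by omega)
    rw [h0, h1, Nat.ble_eq_true_of_le h]
    cases M.testBit (tg d) <;> cases Nat.beq (Nat.mod d 2) 0 <;> cases Nat.ble 2 (sdn p M (tg d)) <;> rfl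

theorem ndc_nine (D a b c : ℕ) : Nat.beq (ndc D a b c) 9 = (Nat.beq a 3 || Nat.beq b 3 || Nat.beq c 3) := by
  unfold ndc
  cases h : Nat.beq a 3 || Nat.beq b 3 || Nat.beq c 3
  · rw [cond_false]
    apply nbeq
    cases Nat.beq a 2 || Nat.beq b 2 || Nat.beq c 2
    · rw [cond_false]
      cases Nat.ble 2 D
      · change 3 - D ≠ 9
        omega
      · change 1 ≠ 9
        omega
    · rw [cond_true]
      have h1 : ∀ x : Bool, (bif x then 1 else 0 : ℕ) ≤ 1 := fun x => by cases x <;> simp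
      have h2 := h1 (Nat.ble a 1)
      have h3 := h1 (Nat.ble b 1)
      have h4 := h1 (Nat.ble c 1)
      change (bif Nat.ble a 1 then 1 else 0) + (bif Nat.ble b 1 then 1 else 0) +
        (bif Nat.ble c 1 then 1 else 0) - D ≠ 9
      omega
  · rfl

theorem n9F_eq (D p M i : ℕ) : n9F p M (Nat.mod (Nat.div p (Nat.pow 256 (Nat.mul 3 i))) 16777216) = Nat.beq
  (nd D p M i) 9 := by
  unfold n9F nd
  rw [wd0, wd1, wd2, frc_eq, ndc_nine, p9F_eq, p9F_eq, p9F_eq, ifc, ifc]
  change _ = (Nat.beq (pc p M (dg p (3 * i))) 3 || Nat.beq (pc p M (dg p (3 * i + 1))) 3 ||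
    Nat.beq (pc p M (dg p (3 * i + 2))) 3)
  cases Nat.beq (pc p M (dg p (3 * i))) 3 <;> cases Nat.beq (pc p M (dg p (3 * i + 1))) 3 <;> rfl

theorem evcF_succ (D : ℕ) (L : List ℕ) (IN n p M Z : ℕ) (r : List (ℕ × ℕ)) (m : ℕ) :
    evcF D L IN n p M Z r (m + 1) = bif Nat.beq (Nat.land M (Nat.pow 2 m)) 0 then
      bif Nat.beq (fo3 (Nat.mod (Nat.div p (Nat.pow 256 (Nat.mul 3 m))) 16777216) 0) 255 then evcF D L IN n
        p M Z r m else
        bif n9F p M (Nat.mod (Nat.div p (Nat.pow 256 (Nat.mul 3 m))) 16777216) then evcF D L IN n p M Z r m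
          else
          cmlF D L IN m 3 M Z n p 200 (evcF D L IN n p M Z r m) else evcF D L IN n p M Z r m := by
  unfold evcF
  dsimp only
  simp only [ifc]

theorem evcF_eq {D IN n p M : ℕ} {L : List ℕ} {r : List (ℕ × ℕ)} (hn : n + 3 ≤ 40)
    (h : ∀ i < n, M.testBit i ≠ true → CI L IN i n p M M) : ∀ m ≤ n,
    evcF D L IN n p M M r m = evc D L n p M m ++ r := by
  intro m
  induction m with
  | zero => intro _; rfl
  | succ m ih =>
    intro hm
    rw [evcF_succ, ih (by omega), land_bit, fo3_full p m 0 (by omega), n9F_eq D, evc, tb_eq]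
    cases hb : M.testBit m
    · cases full p m
      · cases Nat.beq (nd D p M m) 9
        · rw [cmlF_eq 3 n p 200 M M _ (h m (by omega) (by rw [hb]; simp)) hn]
          simp
        · rfl
      · rfl
    · rfl

theorem kiaF_succ (n p fi A am M : ℕ) (r : List (ℕ × ℕ)) (s : ℕ) :
    kiaF n p fi A am M r (s + 1) = bif Nat.beq (Nat.land (Nat.lor M am) (Nat.pow 2 s)) 0 then
      bif Nat.beq (fo3 (Nat.mod (Nat.div p (Nat.pow 256 (Nat.mul 3 s))) 16777216) (Nat.mul 3 s)) 255 then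
        kiaF n p fi A am M r s else
        (n, Nat.add (Nat.add p (Nat.mul (Nat.add 2 (Nat.mul 2 (fo3 (Nat.mod (Nat.div p (Nat.pow 256
          (Nat.mul 3 s))) 16777216) (Nat.mul 3 s)))) A))
          (Nat.mul (Nat.add 2 (Nat.mul 2 fi)) (Nat.pow 256 (fo3 (Nat.mod (Nat.div p (Nat.pow 256 (Nat.mul 3
            s))) 16777216) (Nat.mul 3 s))))) ::
          kiaF n p fi A am M r s else kiaF n p fi A am M r s := by
  unfold kiaF
  dsimp only
  simp only [ifc]

theorem kiaF_eq {n p t M : ℕ} {r : List (ℕ × ℕ)} (hn : n ≤ 40) : ∀ m ≤ n,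
    kiaF n p (fo p t) (Nat.pow 256 (fo p t)) (dmask p t) M r m = kia n p M t m ++ r := by
  intro m
  induction m with
  | zero => intro _; rfl
  | succ m ih =>
    intro hm
    have e1 : (Nat.lor M (dmask p t)).testBit m = (M.testBit m || (dmask p t).testBit m) :=
      Nat.testBit_or _ _ _
    have e2 : adjd p t m = (dmask p t).testBit m := by
      rw [adjd_mask, land_bit, Bool.not_not]
    rw [kiaF_succ, ih (by omega), land_bit, e1, kia, e2, tb_eq, fo3_eq, fo_full]
    cases M.testBit m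
    · cases hf : full p m
      · rw [cond_false, fo_lt (by omega) (by omega : m < n)]
        cases (dmask p t).testBit m
        · rfl
        · rfl
      · rw [cond_true]
        cases (dmask p t).testBit m <;> rfl
    · rfl

theorem kinF_succ (n p M IN : ℕ) (r : List (ℕ × ℕ)) (t : ℕ) :
    kinF n p M IN r (t + 1) = bif Nat.beq (Nat.land IN (Nat.pow 2 t)) 0 then kinF n p M IN r t else
      bif Nat.beq (fo3 (Nat.mod (Nat.div p (Nat.pow 256 (Nat.mul 3 t))) 16777216) (Nat.mul 3 t)) 255 then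
        kinF n p M IN r t else
        kiaF n p (fo3 (Nat.mod (Nat.div p (Nat.pow 256 (Nat.mul 3 t))) 16777216) (Nat.mul 3 t)) (Nat.pow
          256 (fo3 (Nat.mod (Nat.div p (Nat.pow 256 (Nat.mul 3 t))) 16777216) (Nat.mul 3 t))) (dm3 (Nat.mod
          (Nat.div p (Nat.pow 256 (Nat.mul 3 t))) 16777216)) M
          (kinF n p M IN r t) n := by
  unfold kinF
  dsimp only
  simp only [ifc]

theorem kinF_eq {n p M IN : ℕ} {r : List (ℕ × ℕ)} (hn : n ≤ 40) : ∀ m ≤ n,
    kinF n p M IN r m = kin n p M IN m ++ r := by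
  intro m
  induction m with
  | zero => intro _; rfl
  | succ m ih =>
    intro hm
    rw [kinF_succ, ih (by omega), land_bit, kin, tb_eq, fo3_eq, fo_full, dm3_eq]
    cases IN.testBit m
    · rfl
    · cases hf : full p m
      · rw [cond_false, fo_lt (by omega) (by omega : m < n), cond_false, kiaF_eq hn n le_rfl]
        simp
      · rfl

/-- **the children of an event** -/
theorem evF_eq {D n p : ℕ} {L : List ℕ} (hn : n + 5 ≤ 40) (hL : ∀ x ∈ L, full p x = true)
    (hM : kms p L 0 < 2 ^ n) (hp : p < 256 ^ (3 * n)) : evF D L n p = kin n p (kms p L 0) (ims p L 0) n ++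
      (evc D L n p (kms p L 0) n ++ cml D L n 3 (n + 1) p 200) := by
  have hMn : ∀ t, (kms p L 0).testBit t = true → t < n := by
    intro t ht
    by_contra hc
    have h1 : kms p L 0 < 2 ^ t := hM.trans_le (Nat.pow_le_pow_right (by norm_num) (by omega))
    rw [Nat.testBit_lt_two_pow h1] at ht
    exact absurd ht (by simp)
  have hz : ∀ k, 3 * n ≤ k → dg p k = 0 := fun k hk => dg_zero_of_lt hp hk
  change kinF n p (kmF p L 0) (imF p L 0) (evcF D L (imF p L 0) n p (kmF p L 0) (kmF p L 0)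
    (cmlF D L (imF p L 0) n 3 (kmF p L 0) (kmF p L 0) (Nat.succ n) p 200 []) n) n = _
  rw [kmF_eq, imF_eq, kinF_eq (by omega) n le_rfl, evcF_eq (by omega) (fun i hi hb => ⟨hL, rfl, rfl, hb, hi,
    fun j hj => hj, fun j hj _ => hj, hMn, hz⟩) n le_rfl,
    cmlF_eq 3 (Nat.succ n) p 200 _ _ [] ⟨hL, rfl, rfl, fun hb => absurd (hMn n hb) (by omega),
      Nat.lt_succ_self n, fun j hj => hj, fun j hj _ => hj, fun t ht => (hMn t ht).trans (Nat.lt_succ_self n),
      fun k hk => hz k (by rw [Nat.succ_eq_add_one] at hk; omega)⟩ (by rw [Nat.succ_eq_add_one]; omega),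
        List.append_nil]

end EF18
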