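import Pool.Agent.Lib.MP_ef18bd_co.P.FastG
import Pool.Agent.Lib.MP_ef18bd_co.P.PcE

/-!
# References and pieces for the kernel
-/

namespace EF18

/-- a port of the reference: the digit `d`, the image `a` -/
def rpF (p m d a : ℕ) : Bool :=
  (@Bool.rec (fun _ => Bool) (@Nat.rec (fun _ => Bool) false (fun e _ => (@Bool.rec (fun _ => Bool)
    (Nat.beq e (Nat.add (Nat.add 2 (Nat.mod d 2))
      (Nat.mul 2 (Nat.mod (Nat.div m (Nat.pow 256 (Nat.pred (Nat.div d 2)))) 256)))) (Nat.beq e 1) (Nat.beq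
        d 1))) (Nat.succ (Nat.mod (Nat.div p (Nat.pow 256 a)) 256))) true (Nat.beq d 0))

/-- the loop over the nodes of the reference -/
def rfL (p r m n : ℕ) : ℕ → ℕ → Bool :=
  @Nat.rec (fun _ => ℕ → Bool) (fun M => Nat.ble (Nat.succ M) (Nat.pow 2 n))
    (fun i next M => (@Nat.rec (fun _ => Bool) false (fun w _ => (@Nat.rec (fun _ => Bool) false (fun a _
      => (@Nat.rec (fun _ => Bool) false (fun b _ => (@Nat.rec (fun _ => Bool) false (fun c _ => (@Nat.rec
      (fun _ => Bool) false (fun f _ => (@Bool.rec (fun _ => Bool) false (@Bool.rec (fun _ => Bool) false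
      (@Bool.rec (fun _ => Bool) (@Bool.rec (fun _ => Bool) (@Bool.rec (fun _ => Bool) (@Nat.rec (fun _ =>
      Bool) false (fun F _ => (@Bool.rec (fun _ => Bool) false (@Nat.rec (fun _ => Bool) false (fun R _ =>
      (@Bool.rec (fun _ => Bool) false (@Bool.rec (fun _ => Bool) false (@Bool.rec (fun _ => Bool) false
      (@Nat.rec (fun _ => Bool) false (fun M1 _ => (next M1)) (Nat.succ (Nat.lor M F))) (rpF p m (Nat.div R
      65536) c)) (rpF p m (Nat.mod (Nat.div R 256) 256) b)) (rpF p m (Nat.mod R 256) a))) (Nat.succ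
      (Nat.mod (Nat.div r (Nat.pow 256 (Nat.mul 3 i))) 16777216))) (Nat.beq (Nat.land M F) 0))) (Nat.succ
      (Nat.pow 2 f))) false (Nat.beq b c)) false (Nat.beq a c)) false (Nat.beq a b)) (Nat.beq (Nat.div c 3)
      f)) (Nat.beq (Nat.div b 3) f))) (Nat.succ (Nat.div a 3)))) (Nat.succ (Nat.div w 65536)))) (Nat.succ
      (Nat.mod (Nat.div w 256) 256)))) (Nat.succ (Nat.mod w 256)))) (Nat.succ (Nat.mod (Nat.div m (Nat.pow
      256 (Nat.mul 3 i))) 16777216))))

/-- a reference to the pattern `(N, r)` -/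
def rfF (n p N r m : ℕ) : Bool := rfL p r m n N 0

theorem rpF_eq (p m d a : ℕ) : rpF p m d a = dgok m d (dg p a) := by
  unfold rpF dgok
  rw [ifc]
  change (bif Nat.beq d 0 then true else @Bool.rec (fun _ => Bool) _ _ (Nat.beq d 1)) = _
  rw [ifc]
  rfl

theorem rfL_succ (p r m n i M : ℕ) : rfL p r m n (i + 1) M =
    (Nat.beq (dg m (3 * i + 1) / 3) (dg m (3 * i) / 3) && (Nat.beq (dg m (3 * i + 2) / 3) (dg m (3 * i) /
      3) &&
    (!Nat.beq (dg m (3 * i)) (dg m (3 * i + 1)) && (!Nat.beq (dg m (3 * i)) (dg m (3 * i + 2)) &&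
    (!Nat.beq (dg m (3 * i + 1)) (dg m (3 * i + 2)) && (Nat.beq (Nat.land M (Nat.pow 2 (dg m (3 * i) / 3)))
      0 &&
    (rpF p m (dg r (3 * i)) (dg m (3 * i)) && (rpF p m (dg r (3 * i + 1)) (dg m (3 * i + 1)) &&
    (rpF p m (dg r (3 * i + 2)) (dg m (3 * i + 2)) &&
      rfL p r m n i (Nat.lor M (Nat.pow 2 (dg m (3 * i) / 3))))))))))))  := by
  have e : rfL p r m n (i + 1) M = @Bool.rec (fun _ => Bool) false (@Bool.rec (fun _ => Bool) false
      (@Bool.rec (fun _ => Bool) (@Bool.rec (fun _ => Bool) (@Bool.rec (fun _ => Bool)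
      (@Bool.rec (fun _ => Bool) false
        (@Bool.rec (fun _ => Bool) false (@Bool.rec (fun _ => Bool) false (@Bool.rec (fun _ => Bool) false
          (rfL p r m n i (Nat.lor M (Nat.pow 2 (Nat.div (Nat.mod (Nat.mod (Nat.div m (Nat.pow 256 (Nat.mul
            3 i))) 16777216) 256) 3))))
          (rpF p m (Nat.div (Nat.mod (Nat.div r (Nat.pow 256 (Nat.mul 3 i))) 16777216) 65536) (Nat.div
            (Nat.mod (Nat.div m (Nat.pow 256 (Nat.mul 3 i))) 16777216) 65536)))
          (rpF p m (Nat.mod (Nat.div (Nat.mod (Nat.div r (Nat.pow 256 (Nat.mul 3 i))) 16777216) 256) 256)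
            (Nat.mod (Nat.div (Nat.mod (Nat.div m (Nat.pow 256 (Nat.mul 3 i))) 16777216) 256) 256)))
          (rpF p m (Nat.mod (Nat.mod (Nat.div r (Nat.pow 256 (Nat.mul 3 i))) 16777216) 256) (Nat.mod
            (Nat.mod (Nat.div m (Nat.pow 256 (Nat.mul 3 i))) 16777216) 256)))
        (Nat.beq (Nat.land M (Nat.pow 2 (Nat.div (Nat.mod (Nat.mod (Nat.div m (Nat.pow 256 (Nat.mul 3 i)))
          16777216) 256) 3))) 0))
      false (Nat.beq (Nat.mod (Nat.div (Nat.mod (Nat.div m (Nat.pow 256 (Nat.mul 3 i))) 16777216) 256) 256)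
        (Nat.div (Nat.mod (Nat.div m (Nat.pow 256 (Nat.mul 3 i))) 16777216) 65536)))
      false (Nat.beq (Nat.mod (Nat.mod (Nat.div m (Nat.pow 256 (Nat.mul 3 i))) 16777216) 256) (Nat.div
        (Nat.mod (Nat.div m (Nat.pow 256 (Nat.mul 3 i))) 16777216) 65536)))
      false (Nat.beq (Nat.mod (Nat.mod (Nat.div m (Nat.pow 256 (Nat.mul 3 i))) 16777216) 256) (Nat.mod
        (Nat.div (Nat.mod (Nat.div m (Nat.pow 256 (Nat.mul 3 i))) 16777216) 256) 256)))
      (Nat.beq (Nat.div (Nat.div (Nat.mod (Nat.div m (Nat.pow 256 (Nat.mul 3 i))) 16777216) 65536) 3)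
        (Nat.div (Nat.mod (Nat.mod (Nat.div m (Nat.pow 256 (Nat.mul 3 i))) 16777216) 256) 3)))
      (Nat.beq (Nat.div (Nat.mod (Nat.div (Nat.mod (Nat.div m (Nat.pow 256 (Nat.mul 3 i))) 16777216) 256)
        256) 3) (Nat.div (Nat.mod (Nat.mod (Nat.div m (Nat.pow 256 (Nat.mul 3 i))) 16777216) 256) 3)) := rfl
  rw [e, wd0, wd1, wd2, wd0, wd1, wd2]
  simp only [ifc]
  change (bif Nat.beq (dg m (3 * i + 1) / 3) (dg m (3 * i) / 3) then _ else false) = _
  cases Nat.beq (dg m (3 * i + 1) / 3) (dg m (3 * i) / 3)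
  · rfl
  change (bif Nat.beq (dg m (3 * i + 2) / 3) (dg m (3 * i) / 3) then _ else false) = _
  cases Nat.beq (dg m (3 * i + 2) / 3) (dg m (3 * i) / 3)
  · rfl
  cases Nat.beq (dg m (3 * i)) (dg m (3 * i + 1))
  swap
  · rfl
  cases Nat.beq (dg m (3 * i)) (dg m (3 * i + 2))
  swap
  · rfl
  cases Nat.beq (dg m (3 * i + 1)) (dg m (3 * i + 2))
  swap
  · rfl
  change (bif Nat.beq (Nat.land M (Nat.pow 2 (dg m (3 * i) / 3))) 0 then _ else false) = _
  cases Nat.beq (Nat.land M (Nat.pow 2 (dg m (3 * i) / 3))) 0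
  · rfl
  cases rpF p m (dg r (3 * i)) (dg m (3 * i))
  · rfl
  cases rpF p m (dg r (3 * i + 1)) (dg m (3 * i + 1))
  · rfl
  cases rpF p m (dg r (3 * i + 2)) (dg m (3 * i + 2))
  · rfl
  rfl

theorem rfL_of {p r m n : ℕ} : ∀ {I M : ℕ}, rfL p r m n I M = true → M < 2 ^ n ∧
    (∀ i < I, dg m (3 * i) / 3 < n ∧ dg m (3 * i + 1) / 3 = dg m (3 * i) / 3 ∧
      dg m (3 * i + 2) / 3 = dg m (3 * i) / 3 ∧ dg m (3 * i) ≠ dg m (3 * i + 1) ∧
      dg m (3 * i) ≠ dg m (3 * i + 2) ∧ dg m (3 * i + 1) ≠ dg m (3 * i + 2) ∧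
      M.testBit (dg m (3 * i) / 3) = false) ∧
    (∀ i < I, ∀ j < I, dg m (3 * i) / 3 = dg m (3 * j) / 3 → i = j) ∧
    ∀ k < 3 * I, dgok m (dg r k) (dg p (dg m k)) = true := by
  intro I
  induction I with
  | zero =>
    intro M h
    have h1 : M + 1 ≤ 2 ^ n := Nat.le_of_ble_eq_true h
    exact ⟨by omega, fun i hi => absurd hi (by omega), fun i hi => absurd hi (by omega),
      fun k hk => absurd hk (by omega)⟩
  | succ I ih =>
    intro M h
    rw [rfL_succ] at h
    simp only [Bool.and_eq_true, Bool.not_eq_true'] at h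
    obtain ⟨h1, h2, h3, h4, h5, h6, h7, h8, h9, h10⟩ := h
    rw [rpF_eq] at h7 h8 h9
    rw [land_bit, Bool.not_eq_true'] at h6
    obtain ⟨a1, a2, a3, a4⟩ := ih h10
    change M ||| 2 ^ (dg m (3 * I) / 3) < 2 ^ n at a1
    have hM : M < 2 ^ n := lt_of_le_of_lt Nat.left_le_or a1
    have hf : dg m (3 * I) / 3 < n := by
      have h11 : 2 ^ (dg m (3 * I) / 3) < 2 ^ n := lt_of_le_of_lt Nat.right_le_or a1
      exact (Nat.pow_lt_pow_iff_right (by norm_num)).1 h11
    have hb : ∀ i < I, M.testBit (dg m (3 * i) / 3) = false ∧ dg m (3 * I) / 3 ≠ dg m (3 * i) / 3 := by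
      intro i hi
      have h12 := (a2 i hi).2.2.2.2.2.2
      change (M ||| 2 ^ (dg m (3 * I) / 3)).testBit _ = false at h12
      rw [Nat.testBit_or, Bool.or_eq_false_iff, Nat.testBit_two_pow, decide_eq_false_iff_not] at h12
      exact h12
    refine ⟨hM, fun i hi => ?_, fun i hi j hj e => ?_, fun k hk => ?_⟩
    · rcases Nat.lt_succ_iff_lt_or_eq.1 hi with h13 | rfl
      · obtain ⟨b1, b2, b3, b4, b5, b6, -⟩ := a2 i h13
        exact ⟨b1, b2, b3, b4, b5, b6, (hb i h13).1⟩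
      · refine ⟨hf, Nat.eq_of_beq_eq_true h1, Nat.eq_of_beq_eq_true h2, fun e => ?_, fun e => ?_,
          fun e => ?_, h6⟩
        · rw [e] at h3; simp at h3
        · rw [e] at h4; simp at h4
        · rw [e] at h5; simp at h5
    · rcases Nat.lt_succ_iff_lt_or_eq.1 hi with h13 | rfl <;> rcases Nat.lt_succ_iff_lt_or_eq.1 hj with h14
      | rfl
      · exact a3 i h13 j h14 e
      · exact absurd e.symm (hb i h13).2
      · exact absurd e (hb j h14).2
      · rfl
    · by_cases h13 : k < 3 * I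
      · exact a4 k h13
      · have h14 : k = 3 * I ∨ k = 3 * I + 1 ∨ k = 3 * I + 2 := by omega
        rcases h14 with rfl | rfl | rfl
        · exact h7
        · exact h8
        · exact h9

/-- the inverse map -/
theorem exists_w (f : ℕ → ℕ) : ∀ {N : ℕ}, N ≤ 256 → (∀ i < N, ∀ j < N, f i = f j → i = j) →
    ∃ w, (∀ i < N, dg w (f i) = i) ∧ ∀ k, (∀ i < N, f i ≠ k) → dg w k = 0 := by
  intro N
  induction N with
  | zero =>
    intro _ _
    refine ⟨0, fun i hi => absurd hi (by omega), fun k _ => ?_⟩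
    unfold dg
    simp
  | succ N ih =>
    intro hN h
    obtain ⟨w, h1, h2⟩ := ih (by omega) fun i hi j hj => h i (by omega) j (by omega)
    have h0 : dg w (f N) = 0 := h2 _ fun i hi e => by
      have := h i (by omega) N (by omega) e
      omega
    refine ⟨w + N * 256 ^ f N, fun i hi => ?_, fun k hk => ?_⟩
    · rw [dg_add h0 (by omega)]
      split_ifs with h3
      · exact (h i hi N (by omega) h3).symm
      · rcases Nat.lt_succ_iff_lt_or_eq.1 hi with h4 | rfl
        · exact h1 i h4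
        · exact absurd rfl h3
    · rw [dg_add h0 (by omega), if_neg (fun e => hk N (by omega) e.symm)]
      exact h2 k fun i hi => hk i (by omega)

theorem rfn_mk {n m w : ℕ} : ∀ {I : ℕ}, (∀ i < I, dg m (3 * i) / 3 < n ∧ dg w (dg m (3 * i) / 3) = i ∧
    dg m (3 * i + 1) / 3 = dg m (3 * i) / 3 ∧ dg m (3 * i + 2) / 3 = dg m (3 * i) / 3 ∧
    dg m (3 * i) ≠ dg m (3 * i + 1) ∧ dg m (3 * i) ≠ dg m (3 * i + 2) ∧
    dg m (3 * i + 1) ≠ dg m (3 * i + 2)) → rfn n m w I = true := by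
  intro I
  induction I with
  | zero => intro _; rfl
  | succ I ih =>
    intro h
    obtain ⟨h1, h2, h3, h4, h5, h6, h7⟩ := h I (by omega)
    rw [rfn, ih fun i hi => h i (by omega), Nat.ble_eq_true_of_le (by omega : dg m (3 * I) / 3 + 1 ≤ n),
      h2, h3,
      h4, nbeq h5, nbeq h6, nbeq h7]
    simp

theorem rfd_mk {p r m : ℕ} : ∀ {K : ℕ}, (∀ k < K, dgok m (dg r k) (dg p (dg m k)) = true) →
    rfd p r m K = true := by
  intro K
  induction K with
  | zero => intro _; rfl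
  | succ K ih =>
    intro h
    rw [rfd, h K (by omega), ih fun k hk => h k (by omega)]
    rfl

theorem dg_zero_all : ∀ {w : ℕ}, (∀ k, dg w k = 0) → w = 0 := by
  intro w
  induction w using Nat.strong_induction_on with
  | _ w ih =>
    intro h
    by_contra hne
    have h1 : w / 256 = 0 := by
      refine ih (w / 256) (by omega) fun k => ?_
      have h2 := h (k + 1)
      unfold dg at h2 ⊢
      rw [Nat.div_div_eq_div_mul, ← pow_succ']
      exact h2
    have h3 := h 0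
    unfold dg at h3
    rw [pow_zero, Nat.div_one] at h3
    omega

theorem lt_of_dg {w K : ℕ} (h : ∀ k, K ≤ k → dg w k = 0) : w < 256 ^ K := by
  have h1 : w / 256 ^ K = 0 := dg_zero_all fun k => by
    have h2 := h (K + k) (by omega)
    unfold dg at h2 ⊢
    rw [Nat.div_div_eq_div_mul, ← pow_add]
    exact h2
  exact (Nat.div_eq_zero_iff_lt (by positivity)).1 h1

theorem rfL_w {n p N r m : ℕ} (hN : N ≤ 256) (h : rfL p r m n N 0 = true) :
    ∃ w, w < 256 ^ n ∧ rfn n m w N = true := by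
  obtain ⟨-, h2, h3, h4⟩ := rfL_of h
  obtain ⟨w, hw, hw2⟩ := exists_w (fun i => dg m (3 * i) / 3) hN h3
  refine ⟨w, lt_of_dg fun k hk => hw2 k fun i hi => ?_, rfn_mk fun i hi => ?_⟩
  · have := (h2 i hi).1
    omega
  · obtain ⟨b1, b2, b3, b4, b5, b6, -⟩ := h2 i hi
    exact ⟨b1, hw i hi, b2, b3, b4, b5, b6⟩

theorem rfF_ok {n p N r m : ℕ} (hN : N ≤ 256) (h : rfF n p N r m = true) :
    ∃ w, rfok n p (N, r) w m = true := by
  obtain ⟨-, h2, h3, h4⟩ := rfL_of h
  obtain ⟨w, -, hw⟩ := rfL_w hN h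
  refine ⟨w, ?_⟩
  unfold rfok
  rw [hw, rfd_mk h4]
  rfl

/-! ### pieces -/

/-- `j` is not in the image -/
def nimF (m j : ℕ) : ℕ → Bool :=
  @Nat.rec (fun _ => Bool) true (fun i r => (@Bool.rec (fun _ => Bool) r false (Nat.beq (Nat.div (Nat.mod
    (Nat.div m (Nat.pow 256 (Nat.mul 3 i))) 256) 3) j)))

/-- `j` is adjacent to the image of `a` only -/
def oadF (p m a j : ℕ) : ℕ → Bool :=
  @Nat.rec (fun _ => Bool) true (fun i r => (@Bool.rec (fun _ => Bool) (@Nat.rec (fun _ => Bool) false (fun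
    t _ => (@Bool.rec (fun _ => Bool) false r (Nat.beq (Nat.land (dmF p t) (Nat.pow 2 j)) 0))) (Nat.succ
    (Nat.div (Nat.mod (Nat.div m (Nat.pow 256 (Nat.mul 3 i))) 256) 3))) r (Nat.beq i a)))

/-- the digit `d` of the piece at the port `k` -/
def pdokF (p m N k d : ℕ) : Bool :=
  (@Nat.rec (fun _ => Bool) false (fun a _ => (@Nat.rec (fun _ => Bool) false (fun e _ => (@Bool.rec (fun _
    => Bool) (@Bool.rec (fun _ => Bool) (@Nat.rec (fun _ => Bool) false (fun l _ => (@Nat.rec (fun _ =>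
    Bool) false (fun x _ => (@Bool.rec (fun _ => Bool) (@Bool.rec (fun _ => Bool) (@Nat.rec (fun _ => Bool)
    false (fun e1 _ => (@Bool.rec (fun _ => Bool) false (@Bool.rec (fun _ => Bool) false (@Bool.rec (fun _
    => Bool) false (@Bool.rec (fun _ => Bool) false (@Bool.rec (fun _ => Bool) false (@Bool.rec (fun _ =>
    Bool) false (@Bool.rec (fun _ => Bool) true false (Nat.beq (Nat.div l 3) (Nat.div k 3))) (nimF m
    (Nat.div (Nat.sub e 2) 6) N)) (Nat.beq (Nat.div (Nat.sub e 2) 6) (Nat.div (Nat.sub e1 2) 6))) (Nat.beq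
    (Nat.mod e1 2) 0)) (Nat.ble 2 e1)) (Nat.beq (Nat.mod e 2) 0)) (Nat.ble 2 e))) (Nat.succ (Nat.mod
    (Nat.div p (Nat.pow 256 x)) 256))) true (Nat.beq e (Nat.add 3 (Nat.mul 2 x)))) (Nat.beq e (Nat.add 2
    (Nat.mul 2 x))) (Nat.beq (Nat.mod d 2) 0))) (Nat.succ (Nat.mod (Nat.div m (Nat.pow 256 l)) 256))))
    (Nat.succ (Nat.sub (Nat.div d 2) 1))) (@Bool.rec (fun _ => Bool) (@Bool.rec (fun _ => Bool) false
    (@Nat.rec (fun _ => Bool) false (fun t _ => (@Bool.rec (fun _ => Bool) false (@Bool.rec (fun _ => Bool)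
    (oadF p m (Nat.div k 3) t N) true (Nat.beq (Nat.mod e 2) 1)) (nimF m t N))) (Nat.succ (Nat.div (Nat.sub
    e 2) 6))) (Nat.ble 2 e)) true (Nat.beq e 1)) (Nat.beq d 1)) false (Nat.beq d 0))) (Nat.succ (Nat.mod
    (Nat.div p (Nat.pow 256 a)) 256)))) (Nat.succ (Nat.mod (Nat.div m (Nat.pow 256 k)) 256)))

/-- the ports of the piece -/
def pdsF (p r m N : ℕ) : ℕ → Bool :=
  @Nat.rec (fun _ => Bool) true (fun k rest => (@Nat.rec (fun _ => Bool) false (fun d _ => (@Bool.rec (fun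
    _ => Bool) false rest (pdokF p m N k d))) (Nat.succ (Nat.mod (Nat.div r (Nat.pow 256 k)) 256))))

/-- the nodes are full -/
def pflF (p m : ℕ) : ℕ → Bool :=
  @Nat.rec (fun _ => Bool) true (fun i r => (@Nat.rec (fun _ => Bool) false (fun t _ => (@Bool.rec (fun _
    => Bool) false r (Nat.beq (fo3 (Nat.mod (Nat.div p (Nat.pow 256 (Nat.mul 3 t))) 16777216) 0) 255)))
    (Nat.succ (Nat.div (Nat.mod (Nat.div m (Nat.pow 256 (Nat.mul 3 i))) 256) 3))))

/-- the piece -/
def pcF (n p N r m : ℕ) : Bool :=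
  (@Bool.rec (fun _ => Bool) false (@Bool.rec (fun _ => Bool) false (pdsF p r m N (Nat.mul 3 N)) (pflF p m
    N)) (rfL p 0 m n N 0))

theorem nimF_eq (m j N : ℕ) : nimF m j N = nim m j N := by
  induction N with
  | zero => rfl
  | succ N ih =>
    have e : nimF m j (N + 1) = @Bool.rec (fun _ => Bool) (nimF m j N) false
      (Nat.beq (dg m (3 * N) / 3) j) := rfl
    rw [e, ifc, ih, nim]
    cases Nat.beq (dg m (3 * N) / 3) j <;> rfl

theorem oadF_eq (p m a j N : ℕ) : oadF p m a j N = oad p m a j N := by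
  induction N with
  | zero => rfl
  | succ N ih =>
    have e : oadF p m a j (N + 1) = @Bool.rec (fun _ => Bool) (@Bool.rec (fun _ => Bool) false (oadF p m a
      j N)
      (Nat.beq (Nat.land (dmF p (dg m (3 * N) / 3)) (Nat.pow 2 j)) 0)) (oadF p m a j N)
      (Nat.beq N a) := rfl
    rw [e, ifc, ifc, ih, oad, dmF_eq, adjd_mask]
    cases Nat.beq N a <;> cases Nat.beq (Nat.land (dmask p (dg m (3 * N) / 3)) (Nat.pow 2 j)) 0 <;> rfl

theorem pdokF_eq (p m N k d : ℕ) : pdokF p m N k d = pdok p m N k d := by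
  have e : pdokF p m N k d = @Bool.rec (fun _ => Bool) (@Bool.rec (fun _ => Bool)
      (@Bool.rec (fun _ => Bool) (@Bool.rec (fun _ => Bool) (@Bool.rec (fun _ => Bool) false
        (@Bool.rec (fun _ => Bool) false (@Bool.rec (fun _ => Bool) false (@Bool.rec (fun _ => Bool) false
          (@Bool.rec (fun _ => Bool) false (@Bool.rec (fun _ => Bool) false
            (@Bool.rec (fun _ => Bool) true false (Nat.beq ((d / 2 - 1) / 3) (k / 3)))
            (nimF m (tg (dg p (dg m k))) N))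
            (Nat.beq (tg (dg p (dg m k))) (tg (dg p (dg m (d / 2 - 1))))))
          (Nat.beq (Nat.mod (dg p (dg m (d / 2 - 1))) 2) 0)) (Nat.ble 2 (dg p (dg m (d / 2 - 1)))))
          (Nat.beq (Nat.mod (dg p (dg m k)) 2) 0)) (Nat.ble 2 (dg p (dg m k))))
        true (Nat.beq (dg p (dg m k)) (3 + 2 * dg m (d / 2 - 1))))
        (Nat.beq (dg p (dg m k)) (2 + 2 * dg m (d / 2 - 1))) (Nat.beq (Nat.mod d 2) 0))
      (@Bool.rec (fun _ => Bool) (@Bool.rec (fun _ => Bool) false
        (@Bool.rec (fun _ => Bool) false (@Bool.rec (fun _ => Bool) (oadF p m (k / 3) (tg (dg p (dg m k)))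
          N) true
          (Nat.beq (Nat.mod (dg p (dg m k)) 2) 1)) (nimF m (tg (dg p (dg m k))) N))
        (Nat.ble 2 (dg p (dg m k)))) true (Nat.beq (dg p (dg m k)) 1)) (Nat.beq d 1)) false (Nat.beq d 0)
          := rfl
  rw [e]
  unfold pdok
  rw [frc_eq, frc_eq]
  simp only [ifc, nimF_eq, oadF_eq]
  cases Nat.beq d 0
  swap
  · rfl
  cases Nat.beq d 1
  · simp only [cond_false]
    cases Nat.beq (Nat.mod d 2) 0
    · simp only [cond_false]
      cases Nat.beq (dg p (dg m k)) (3 + 2 * dg m (d / 2 - 1))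
      · simp only [cond_false, Bool.false_or]
        cases Nat.ble 2 (dg p (dg m k))
        · rfl
        cases Nat.beq (Nat.mod (dg p (dg m k)) 2) 0
        · rfl
        cases Nat.ble 2 (dg p (dg m (d / 2 - 1)))
        · rfl
        cases Nat.beq (Nat.mod (dg p (dg m (d / 2 - 1))) 2) 0
        · rfl
        cases Nat.beq (tg (dg p (dg m k))) (tg (dg p (dg m (d / 2 - 1))))
        · rfl
        cases nim m (tg (dg p (dg m k))) N
        · rfl
        cases Nat.beq ((d / 2 - 1) / 3) (k / 3) <;> rfl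
      · rfl
    · rfl
  · simp only [cond_false, cond_true]
    cases Nat.beq (dg p (dg m k)) 1
    · cases Nat.ble 2 (dg p (dg m k))
      · rfl
      cases nim m (tg (dg p (dg m k))) N
      · rfl
      cases Nat.beq (Nat.mod (dg p (dg m k)) 2) 1 <;> rfl
    · rfl

theorem pdsF_eq (p r m N K : ℕ) : pdsF p r m N K = pds p r m N K := by
  induction K with
  | zero => rfl
  | succ K ih =>
    have e : pdsF p r m N (K + 1) = @Bool.rec (fun _ => Bool) false (pdsF p r m N K)
      (pdokF p m N K (dg r K)) := rfl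
    rw [e, ifc, ih, pds, pdokF_eq]
    cases pdok p m N K (dg r K) <;> rfl

theorem pflF_eq (p m N : ℕ) : pflF p m N = pfl p m N := by
  induction N with
  | zero => rfl
  | succ N ih =>
    have e : pflF p m (N + 1) = @Bool.rec (fun _ => Bool) false (pflF p m N)
      (Nat.beq (fo3 (Nat.mod (Nat.div p (Nat.pow 256 (Nat.mul 3 (dg m (3 * N) / 3)))) 16777216) 0) 255) := rfl
    rw [e, ifc, ih, pfl, fo3_full _ _ _ (by omega)]
    cases full p (dg m (3 * N) / 3) <;> rfl

theorem pcF_ok {n p N r m : ℕ} (hN : N ≤ 256) (h : pcF n p N r m = true) :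
    ∃ w, w < 256 ^ n ∧ pcok n p (N, r) w m = true := by
  unfold pcF at h
  rw [ifc, ifc] at h
  cases h1 : rfL p 0 m n N 0
  · rw [h1] at h
    exact absurd h (by simp)
  cases h2 : pflF p m N
  · rw [h1, h2] at h
    exact absurd h (by simp)
  rw [h1, h2] at h
  have h3 : pdsF p r m N (Nat.mul 3 N) = true := h
  rw [pflF_eq] at h2
  rw [pdsF_eq] at h3
  obtain ⟨w, hw1, hw⟩ := rfL_w hN h1
  refine ⟨w, hw1, ?_⟩
  unfold pcok
  rw [hw, h2]
  exact h3

/-! ### well formed patterns -/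

/-- the ports below `k` -/
def wfL (r K : ℕ) : ℕ → Bool :=
  @Nat.rec (fun _ => Bool) true (fun k rest => (@Nat.rec (fun _ => Bool) false (fun d _ => (@Bool.rec (fun
    _ => Bool) (@Nat.rec (fun _ => Bool) false (fun l _ => (@Bool.rec (fun _ => Bool) false (@Bool.rec (fun
    _ => Bool) false rest (Nat.beq (Nat.mod (Nat.div r (Nat.pow 256 (Nat.sub l 1))) 256) (Nat.add (Nat.add
    2 (Nat.mod d 2))
      (Nat.mul 2 k)))) (Nat.ble l K))) (Nat.succ (Nat.div d 2))) rest (Nat.ble d 1))) (Nat.succ (Nat.mod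
        (Nat.div r (Nat.pow 256 k)) 256))))

/-- the fast test -/
def wfF (n p : ℕ) : Bool :=
  (@Nat.rec (fun _ => Bool) false (fun K _ => (@Bool.rec (fun _ => Bool) false (wfL p K K) (Nat.ble
    (Nat.succ p) (Nat.pow 256 K)))) (Nat.succ (Nat.mul 3 n)))

theorem wfL_eq (r K k : ℕ) : wfL r K k = wfd r K k := by
  induction k with
  | zero => rfl
  | succ k ih =>
    have e : wfL r K (k + 1) = @Bool.rec (fun _ => Bool) (@Bool.rec (fun _ => Bool) false
      (@Bool.rec (fun _ => Bool) false (wfL r K k) (Nat.beq (dg r (dg r k / 2 - 1)) (2 + dg r k % 2 + 2 * k)))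
      (Nat.ble (dg r k / 2) K)) (wfL r K k) (Nat.ble (dg r k) 1) := rfl
    rw [e, ifc, ifc, ifc, ih, wfd]
    cases Nat.ble (dg r k) 1 <;> cases Nat.ble (dg r k / 2) K <;>
      cases Nat.beq (dg r (dg r k / 2 - 1)) (2 + dg r k % 2 + 2 * k) <;> rfl

theorem wfF_eq (n p : ℕ) : wfF n p = wfp (n, p) := by
  have e : wfF n p = @Bool.rec (fun _ => Bool) false (wfL p (3 * n) (3 * n)) (Nat.ble (p + 1) (256 ^ (3 *
    n))) := rfl
  rw [e, ifc, wfL_eq, wfp]
  cases Nat.ble (p + 1) (256 ^ (3 * n)) <;> rfl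

/-! ### the same loop with small terms -/

/-- a port of the reference -/
def rpY (p m d e : ℕ) : Bool :=
  (@Bool.rec (fun _ => Bool) (Nat.beq e (Nat.add (Nat.add 2 (Nat.mod d 2))
    (Nat.mul 2 (Nat.mod (Nat.div m (Nat.pow 256 (Nat.pred (Nat.div d 2)))) 256)))) (Nat.beq e 1) (Nat.beq d
      1))

/-- a port of the reference -/
def rpX (p m d a : ℕ) : Bool := (@Bool.rec (fun _ => Bool) (rpY p m d (Nat.mod (Nat.div p (Nat.pow 256 a))
  256)) true (Nat.beq d 0))

/-- a node of the reference -/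
def rnZ (p m M : ℕ) (next : ℕ → Bool) (a b c R F : ℕ) : Bool :=
  (@Bool.rec (fun _ => Bool) false (@Bool.rec (fun _ => Bool) false (@Bool.rec (fun _ => Bool) false
    (@Bool.rec (fun _ => Bool) false (next (Nat.lor M F)) (rpX p m (Nat.div R 65536) c)) (rpX p m (Nat.mod
    (Nat.div R 256) 256) b)) (rpX p m (Nat.mod R 256) a)) (Nat.beq (Nat.land M F) 0))

/-- a node of the reference -/
def rnY (p m M : ℕ) (next : ℕ → Bool) (a b c R f : ℕ) : Bool :=
  (@Bool.rec (fun _ => Bool) false (@Bool.rec (fun _ => Bool) false (@Bool.rec (fun _ => Bool) (@Bool.rec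
    (fun _ => Bool) (@Bool.rec (fun _ => Bool) (rnZ p m M next a b c R (Nat.pow 2 f)) false (Nat.beq b c))
    false (Nat.beq a c)) false (Nat.beq a b)) (Nat.beq (Nat.div c 3) f)) (Nat.beq (Nat.div b 3) f))

/-- a node of the reference -/
def rnX (p m M : ℕ) (next : ℕ → Bool) (w R : ℕ) : Bool :=
  rnY p m M next (Nat.mod w 256) (Nat.mod (Nat.div w 256) 256) (Nat.div w 65536) R (Nat.div (Nat.mod w 256) 3)

/-- the loop over the nodes of the reference -/
def rfX (p r m n : ℕ) : ℕ → ℕ → Bool :=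
  @Nat.rec (fun _ => ℕ → Bool) (fun M => Nat.ble (Nat.succ M) (Nat.pow 2 n))
    (fun i next M => rnX p m M next (Nat.mod (Nat.div m (Nat.pow 256 (Nat.mul 3 i))) 16777216) (Nat.mod
      (Nat.div r (Nat.pow 256 (Nat.mul 3 i))) 16777216))

theorem rfX_eq (p r m n : ℕ) : ∀ N M : ℕ, rfX p r m n N M = rfL p r m n N M := by
  intro N
  induction N with
  | zero => intro M; rfl
  | succ N ih =>
    intro M
    have h : (fun M => rfX p r m n N M) = fun M => rfL p r m n N M := funext ih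
    have e1 : rfX p r m n (N + 1) M = rnX p m M (fun M => rfX p r m n N M) (Nat.mod (Nat.div m (Nat.pow 256
      (Nat.mul 3 N))) 16777216) (Nat.mod (Nat.div r (Nat.pow 256 (Nat.mul 3 N))) 16777216) := rfl
    have e2 : rfL p r m n (N + 1) M = rnX p m M (fun M => rfL p r m n N M) (Nat.mod (Nat.div m (Nat.pow 256
      (Nat.mul 3 N))) 16777216) (Nat.mod (Nat.div r (Nat.pow 256 (Nat.mul 3 N))) 16777216) := rfl
    rw [e1, e2, h]

end EF18
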