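import Pool.Agent.Lib.MP_ef18bd_co.P.RunB
import Pool.Agent.Lib.MP_ef18bd_co.P.Bon

/-!
# The three worlds

A state without isolated member has a member with two lonely outside neighbours, or no such member but one
with a lonely outside neighbour, or no lonely outside neighbours but two members with a common outside
neighbour. `worlds`: the three lists of patterns give the property `Q`; `cleanB`: the frame.
-/

namespace EF18

open Finset

variable {V : Type} [Fintype V] [DecidableEq V] {G : SimpleGraph V} [DecidableRel G.Adj]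

omit [Fintype V] [DecidableEq V] [DecidableRel G.Adj] in
/-- the empty pattern -/
theorem emb_nil (U : Finset V) (x : V) : Emb G U 0 0 (fun _ => x) (fun _ => x) :=
  ⟨fun i hi => absurd hi (Nat.not_lt_zero i), fun i hi => absurd hi (Nat.not_lt_zero i),
    fun k hk => absurd hk (by omega), fun k hk => absurd hk (by omega),
    fun k _ => by unfold dg; simp, fun k hk => absurd hk (by omega), fun k hk => absurd hk (by omega),
    fun k hk => absurd hk (by omega)⟩

/-- a lonely outside neighbour -/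
theorem lonely {U : Finset V} {x y : V} (hx : x ∈ U)
    (hy : y ∈ (G.neighborFinset x \ U).filter fun y => nU G U y = 1) :
    G.Adj x y ∧ y ∉ U ∧ ∀ z ∈ U, G.Adj y z → z = x := by
  rw [mem_filter, mem_sdiff, SimpleGraph.mem_neighborFinset] at hy
  obtain ⟨⟨h1, h2⟩, h3⟩ := hy
  refine ⟨h1, h2, fun z hz hyz => ?_⟩
  obtain ⟨a, ha⟩ := card_eq_one.1 h3
  have m1 : x ∈ G.neighborFinset y ∩ U := mem_inter.2
    ⟨(SimpleGraph.mem_neighborFinset _ _ _).2 h1.symm, hx⟩
  have m2 : z ∈ G.neighborFinset y ∩ U := mem_inter.2 ⟨(SimpleGraph.mem_neighborFinset _ _ _).2 hyz, hz⟩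
  rw [ha, mem_singleton] at m1 m2
  rw [m1, m2]

/-- the root with one lonely neighbour, the neighbour is given -/
theorem root1' (hG : G.IsRegularOfDegree 3) {U : Finset V} {x y : V} (hx : x ∈ U)
    (hy : y ∈ (G.neighborFinset x \ U).filter fun y => nU G U y = 1) :
    ∃ φ ν : ℕ → V, Emb G U 1 1 φ ν ∧ φ 0 = x ∧ ν 0 = y := by
  obtain ⟨h1, h2, h3⟩ := lonely hx hy
  obtain ⟨φ, ν, e, -, -, e1, e2⟩ := (emb_nil (G := G) U x).extend hG hx
    (fun i hi => absurd hi (Nat.not_lt_zero i)) h1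
  change φ 0 = x at e1
  change ν 0 = y at e2
  have h4 := e.set_dead (k := 0) (by omega) (by unfold dg; simp) (by rw [e2]; exact h2)
    (fun z hz hz2 => by
      rw [e2] at hz2
      rw [show 0 / 3 = 0 from rfl, e1]
      exact h3 z hz hz2)
  exact ⟨φ, ν, h4, e1, e2⟩

theorem root1 (hG : G.IsRegularOfDegree 3) {U : Finset V} {x : V} (hx : x ∈ U) (hn : 1 ≤ n1 G U x) :
    ∃ φ ν : ℕ → V, Emb G U 1 1 φ ν := by
  unfold n1 at hn
  obtain ⟨y, hy⟩ := card_pos.1 hn
  obtain ⟨φ, ν, h, -, -⟩ := root1' hG hx hy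
  exact ⟨φ, ν, h⟩

theorem root2 (hG : G.IsRegularOfDegree 3) {U : Finset V} {x : V} (hx : x ∈ U) (hn : 2 ≤ n1 G U x) :
    ∃ φ ν : ℕ → V, Emb G U 1 257 φ ν := by
  unfold n1 at hn
  obtain ⟨y, hy, z, hz, hyz⟩ := one_lt_card.1 hn
  obtain ⟨φ, ν, h, e1, e2⟩ := root1' hG hx hy
  obtain ⟨h1, h2, h3⟩ := lonely hx hz
  obtain ⟨k, k1, k2, k3⟩ := h.surj hG (i := 0) (by omega) (y := z) (by rw [e1]; exact h1)
  have hk0 : k ≠ 0 := fun e => hyz (by rw [← e2, ← k3, e])
  have d1 : dg 1 k = 0 := by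
    have h4 : k = 1 ∨ k = 2 := by omega
    rcases h4 with rfl | rfl <;> decide
  have h4 := h.swap (b := 1) (c := k) (by omega) k2 (by omega) (by decide) d1
  have h5 := h4.set_dead (k := 1) (by omega) (by decide) (by
      beta_reduce
      rw [Equiv.swap_apply_left, k3]
      exact h2) (fun w hw hw2 => by
      beta_reduce at hw2
      rw [Equiv.swap_apply_left, k3] at hw2
      rw [show 1 / 3 = 0 from rfl, e1]
      exact h3 w hw hw2)
  exact ⟨_, _, h5⟩

/-- an outside neighbour -/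
theorem exists_out (hc : G.Connected) {U : Finset V} (hU : U ≠ univ) (hne : U.Nonempty) :
    ∃ x ∈ U, ∃ y, y ∉ U ∧ G.Adj x y := by
  obtain ⟨a, ha⟩ := hne
  obtain ⟨b, hb⟩ : ∃ b, b ∉ U := by
    by_contra h
    push Not at h
    exact hU (eq_univ_of_forall h)
  obtain ⟨p⟩ := hc.preconnected a b
  obtain ⟨d, -, h1, h2⟩ := p.exists_boundary_dart (U : Set V) (mem_coe.2 ha) (fun h => hb (mem_coe.1 h))
  exact ⟨d.fst, mem_coe.1 h1, d.snd, fun h => h2 (mem_coe.2 h), d.adj⟩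

theorem root3 (hG : G.IsRegularOfDegree 3) (hc : G.Connected) {U : Finset V} (hU : U ≠ univ)
    (hne : U.Nonempty) (h0 : ∀ x ∈ U, n1 G U x = 0) :
    ∃ φ ν : ℕ → V, Emb G U 2 (9 + 3 * 256 ^ 3) φ ν := by
  obtain ⟨x, hx, y, hy, hxy⟩ := exists_out hc hU hne
  have m1 : x ∈ G.neighborFinset y ∩ U := mem_inter.2
    ⟨(SimpleGraph.mem_neighborFinset _ _ _).2 hxy.symm, hx⟩
  have h1 : 1 < (G.neighborFinset y ∩ U).card := by
    have h2 : 0 < (G.neighborFinset y ∩ U).card := card_pos.2 ⟨x, m1⟩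
    have h3 : (G.neighborFinset y ∩ U).card ≠ 1 := fun h4 => by
      have h5 := h0 x hx
      unfold n1 at h5
      rw [card_eq_zero] at h5
      have : y ∈ (G.neighborFinset x \ U).filter fun y => nU G U y = 1 := by
        rw [mem_filter, mem_sdiff, SimpleGraph.mem_neighborFinset]
        exact ⟨⟨hxy, hy⟩, h4⟩
      rw [h5] at this
      exact absurd this (notMem_empty y)
    omega
  obtain ⟨x', hx', hne'⟩ := exists_mem_ne h1 x
  rw [mem_inter, SimpleGraph.mem_neighborFinset] at hx'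
  obtain ⟨φ, ν, e, -, -, e1, e2⟩ := (emb_nil (G := G) U x).extend hG hx
    (fun i hi => absurd hi (Nat.not_lt_zero i)) hxy
  change φ 0 = x at e1
  change ν 0 = y at e2
  obtain ⟨φ', ν', e', f1, f2, f3, f4⟩ := e.extend hG hx'.2 (fun i hi => by
    have : i = 0 := by omega
    rw [this, e1]
    exact hne'.symm) hx'.1.symm
  have g2 : ν' 0 = y := (f2 0 (by omega)).trans e2
  change ν' 3 = y at f4
  have h5 := e'.set_lnk (k := 0) (l := 3) (by omega) (by omega) (by omega) (by omega)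
    (by unfold dg; simp) (by unfold dg; simp) (by rw [g2]; exact hy) (by rw [g2, f4])
  exact ⟨φ', ν', h5⟩

/-- **the three worlds** -/
theorem worlds (hG : G.IsRegularOfDegree 3) (hc : G.Connected) {U : Finset V} (hI : Inv G U)
    (hU : U ≠ univ) (hne : U.Nonempty) (hi : iso G U = ∅) {Q : Prop} {sA sB sC : Stp}
    (hA : (∀ x ∈ U, n1 G U x ≤ 2) → Snd G U Q sA) (hB : (∀ x ∈ U, n1 G U x ≤ 1) → Snd G U Q sB)
    (hC : (∀ x ∈ U, n1 G U x ≤ 0) → Snd G U Q sC) (vA : Val sA (1, 257)) (vB : Val sB (1, 1))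
    (vC : Val sC (2, 9 + 3 * 256 ^ 3)) : Q := by
  have h2 : ∀ x ∈ U, n1 G U x ≤ 2 := fun x hx => by
    have h3 := typ_le hG hI hx
    by_contra h4
    have : x ∈ iso G U := mem_iso.2 ⟨hx, by omega, by omega⟩
    rw [hi] at this
    exact absurd this (notMem_empty x)
  by_cases h3 : ∃ x ∈ U, 2 ≤ n1 G U x
  · obtain ⟨x, hx, hn⟩ := h3
    obtain ⟨φ, ν, h⟩ := root2 hG hx hn
    exact vA.2 G U Q (hA h2) φ ν h
  push Not at h3
  by_cases h4 : ∃ x ∈ U, 1 ≤ n1 G U x
  · obtain ⟨x, hx, hn⟩ := h4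
    obtain ⟨φ, ν, h⟩ := root1 hG hx hn
    exact vB.2 G U Q (hB fun x hx => by have := h3 x hx; omega) φ ν h
  push Not at h4
  obtain ⟨φ, ν, h⟩ := root3 hG hc hU hne fun x hx => by have := h4 x hx; omega
  exact vC.2 G U Q (hC fun x hx => by have := h4 x hx; omega) φ ν h

/-- **the clean states**, from the three lists of patterns -/
theorem cleanB (hG : G.IsRegularOfDegree 3) (hc : G.Connected) {w : TF} {dl P b : ℕ}
    (hP : P ≤ w.F 0 3 + dl) (Cl' : Finset V → Prop) (hCl : ∀ A B, A ⊆ B → Cl' B → Cl' A)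
    {sA sB sC : Stp} (vA : Val sA (1, 257)) (vB : Val sB (1, 1)) (vC : Val sC (2, 9 + 3 * 256 ^ 3))
    (hs : ∀ U : Finset V, Inv G U → U ≠ univ → U.Nonempty → Con G U → iso G U = ∅ → Cl' U →
      ((∀ x ∈ U, n1 G U x ≤ 2) → Snd G U (∃ c, c ≠ 0 ∧ GoodB w dl P b G U c) sA) ∧
      ((∀ x ∈ U, n1 G U x ≤ 1) → Snd G U (∃ c, c ≠ 0 ∧ GoodB w dl P b G U c) sB) ∧
      ((∀ x ∈ U, n1 G U x ≤ 0) → Snd G U (∃ c, c ≠ 0 ∧ GoodB w dl P b G U c) sC)) :
    ∀ U : Finset V, Inv G U → U ≠ univ → Cl' U →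
      ∃ m, Has G U m ∧ P * m + Xs G (be b G) U ≤ PsiT (w.iso dl) G U :=
  frameB' hG hP Cl' hCl fun U a1 a2 a3 a4 a5 a6 => by
    obtain ⟨c1, c2, c3⟩ := hs U a1 a2 a3 a4 a5 a6
    exact worlds hG hc a1 a2 a3 a5 c1 c2 c3 vA vB vC

end EF18
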