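import Pool.Agent.Lib.MP_ef18bd_co.P.Flat
import Pool.Agent.Lib.MP_ef18bd_co.P.PcE
import Pool.Agent.Lib.MP_ef18bd_co.P.RootB

/-!
# The step of the clean phase

`stB D tf PL`: the step with the tokens `x % 4 = 0` (all cases for a port), `1` (picks with all
completions), `2` (picks with the worst case), `3` (a piece of the list `PL`); the children with more than
`D` lonely outer vertices at a node, and for `tf` those with a triangle, are deleted.
-/

namespace EF18

open Finset

variable {V : Type} [Fintype V] [DecidableEq V] {G : SimpleGraph V} [DecidableRel G.Adj]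

/-! ### the filter for triangles -/

/-- the port with the digit `d` gives a triangle with the adjacent node `j` -/
def tbd (p j d : ℕ) : Bool :=
  Nat.ble 2 d && bif Nat.beq (Nat.mod d 2) 1 then Nat.beq (tg d) j else adjd p (tg d) j

/-- no triangle at the port `k` -/
def okT1 (p k : ℕ) : Bool :=
  frc (dg p k) fun d => bif Nat.ble 2 d && Nat.beq (Nat.mod d 2) 0 then
    frc (Nat.mul 3 (Nat.div k 3)) fun i => frc (tg d) fun j =>
      !(tbd p j (dg p i) || tbd p j (dg p (Nat.add i 1)) || tbd p j (dg p (Nat.add i 2))) else true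

/-- no triangle at the ports below `k` -/
def okT (p : ℕ) : ℕ → Bool
  | 0 => true
  | k + 1 => okT1 p k && okT p k

theorem tbd_iff {p j d : ℕ} (h : tbd p j d = true) : (∃ l, d = 3 + 2 * l ∧ l / 3 = j) ∨
    ∃ l, d = 2 + 2 * l ∧ adjd p (l / 3) j = true := by
  unfold tbd at h
  rw [Bool.and_eq_true, Nat.ble_eq] at h
  obtain ⟨h1, h2⟩ := h
  rcases Nat.even_or_odd' d with ⟨c, hc | hc⟩
  · right
    obtain ⟨l, hl⟩ : ∃ l, d = 2 + 2 * l := ⟨c - 1, by omega⟩
    refine ⟨l, hl, ?_⟩
    rw [hl, tg_dir, show Nat.mod (2 + 2 * l) 2 = (2 + 2 * l) % 2 from rfl,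
      show (2 + 2 * l) % 2 = 0 by omega] at h2
    exact h2
  · left
    obtain ⟨l, hl⟩ : ∃ l, d = 3 + 2 * l := ⟨c - 1, by omega⟩
    refine ⟨l, hl, ?_⟩
    rw [hl, tg_lnk, show Nat.mod (3 + 2 * l) 2 = (3 + 2 * l) % 2 from rfl,
      show (3 + 2 * l) % 2 = 1 by omega] at h2
    exact Nat.eq_of_beq_eq_true h2

omit [Fintype V] [DecidableEq V] [DecidableRel G.Adj] in
theorem Emb.okT {U : Finset V} {n p : ℕ} {φ ν : ℕ → V} (h : Emb G U n p φ ν)
    (htf : ∀ a b c, G.Adj a b → G.Adj b c → ¬ G.Adj a c) : EF18.okT p (3 * n) = true := by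
  have key : ∀ k < 3 * n, okT1 p k = true := by
    intro k hk
    unfold okT1
    rw [frc_eq, frc_eq, frc_eq]
    cases hc : Nat.ble 2 (dg p k) && Nat.beq (Nat.mod (dg p k) 2) 0
    · rfl
    rw [cond_true, Bool.not_eq_true']
    rw [Bool.and_eq_true, Nat.ble_eq] at hc
    obtain ⟨c1, c2⟩ := hc
    have c3 : dg p k % 2 = 0 := Nat.eq_of_beq_eq_true c2
    obtain ⟨l, hl⟩ : ∃ l, dg p k = 2 + 2 * l := ⟨dg p k / 2 - 1, by omega⟩
    rw [hl, tg_dir]
    obtain ⟨a1, a2, a3, a4⟩ := h.dir k hk l hl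
    have hadj := h.adj k hk
    rw [a3] at hadj
    have key2 : ∀ a, a / 3 = k / 3 → tbd p (l / 3) (dg p a) ≠ true := by
      intro a ha ht
      have han : a < 3 * n := by omega
      have hadj2 := h.adj a han
      rw [ha] at hadj2
      rcases tbd_iff ht with ⟨l', b1, b2⟩ | ⟨l', b1, b2⟩
      · obtain ⟨d1, d2, d3, d4, d5⟩ := h.lnk a han l' b1
        have e1 := h.adj l' d1
        rw [d5, b2] at e1
        exact htf _ _ _ hadj e1 hadj2
      · obtain ⟨d1, d2, d3, d4⟩ := h.dir a han l' b1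
        obtain ⟨a', l'', e1, e2, e3⟩ := adjd_iff b2
        obtain ⟨f1, f2, f3, f4⟩ := h.dir a' (by omega) l'' e2
        have g1 := h.adj a' (by omega)
        rw [e1, f3, e3] at g1
        rw [d3] at hadj2
        exact htf _ _ _ hadj2 g1 hadj
    have k0 := Bool.eq_false_iff.2 (key2 (3 * (k / 3)) (by omega))
    have k1 := Bool.eq_false_iff.2 (key2 (3 * (k / 3) + 1) (by omega))
    have k2 := Bool.eq_false_iff.2 (key2 (3 * (k / 3) + 2) (by omega))
    change (tbd p (l / 3) (dg p (3 * (k / 3))) || tbd p (l / 3) (dg p (3 * (k / 3) + 1)) ||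
      tbd p (l / 3) (dg p (3 * (k / 3) + 2))) = false
    rw [k0, k1, k2]
    rfl
  have key3 : ∀ m ≤ 3 * n, EF18.okT p m = true := by
    intro m
    induction m with
    | zero => intro _; rfl
    | succ m ih =>
      intro hm
      rw [EF18.okT, ih (by omega), Bool.and_true]
      exact key m (by omega)
  exact key3 _ le_rfl

/-! ### the step -/

/-- the picks of a token -/
def pkl (y : ℕ) : List ℕ :=
  frc (Nat.div y 4) fun z => bif Nat.beq (Nat.mod y 4) 1 then [Nat.mod z 64] else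
    bif Nat.beq (Nat.mod y 4) 2 then [Nat.mod z 64, Nat.mod (Nat.div z 64) 64] else
      [Nat.mod z 64, Nat.mod (Nat.div z 64) 64, Nat.mod (Nat.div z 4096) 64]

theorem pkl_ne (y : ℕ) : (pkl y).length ≠ 0 := by
  unfold pkl
  rw [frc_eq]
  cases Nat.beq (Nat.mod y 4) 1
  · cases Nat.beq (Nat.mod y 4) 2 <;> simp
  · simp

/-- a piece: `y % 64` the index, then the inverse map on the nodes and the map of the ports -/
def pst (PL : List (ℕ × ℕ)) (n p y : ℕ) : Option (List (ℕ × ℕ)) :=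
  frc (Nat.mod y 64) fun i => frc (Nat.div y 64) fun x =>
    bif Nat.ble (Nat.succ i) PL.length &&
      pcok n p (PL.getD i (0, 0)) (Nat.mod x (256 ^ 26)) (Nat.div x (256 ^ 26)) then some [] else none

/-- the filter -/
def okB (D : ℕ) (tf : Bool) (n p : ℕ) : Bool := okD D p n && (!tf || okT p (Nat.mul 3 n))

/-- the step before the filter -/
def raw (D : ℕ) (PL : List (ℕ × ℕ)) (n p x : ℕ) : Option (List (ℕ × ℕ)) :=
  frc (Nat.mod x 4) fun r => frc (Nat.div x 4) fun y =>
    bif Nat.beq r 0 then branch (Nat.ble 1 D) n p y else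
    bif Nat.beq r 1 then evbB 84 0 tK tI D 12 6 n p (pkl y) else
    bif Nat.beq r 2 then evlB 84 0 tK tI D 12 6 n p (pkl y) else pst PL n p y

/-- the step -/
def stB (D : ℕ) (tf : Bool) (PL : List (ℕ × ℕ)) : Stp := flt (okB D tf) (raw D PL)

/-- no piece of the list in `U` -/
def NoP (G : SimpleGraph V) (PL : List (ℕ × ℕ)) (U : Finset V) : Prop :=
  ∀ q ∈ PL, ∀ E ⊆ U, ¬ Pc G E q.1 q.2

omit [Fintype V] [DecidableEq V] [DecidableRel G.Adj] in
theorem snd_flt {U : Finset V} {Q : Prop} {st : Stp} {ok : ℕ → ℕ → Bool}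
    (hok : ∀ n p φ ν, Emb G U n p φ ν → ok n p = true)
    (h : ∀ n p x L, st n p x = some L → ∀ φ ν : ℕ → V, Emb G U n p φ ν →
      Q ∨ ∃ q ∈ L, ∃ φ' ν' : ℕ → V, Emb G U q.1 q.2 φ' ν') : Snd G U Q (flt ok st) := by
  intro n p x L hL hQ φ ν he
  unfold flt at hL
  match hs : st n p x with
  | none =>
    simp only [hs] at hL
    exact absurd hL (by simp)
  | some L' =>
    simp only [hs, Option.some.injEq] at hL
    rcases h n p x L' hs φ ν he with h1 | ⟨q, hq, φ', ν', h2⟩
    · exact h1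
    · exact hQ q (by rw [← hL]; exact List.mem_filter.2 ⟨hq, hok _ _ φ' ν' h2⟩) φ' ν' h2

/-- **the step is sound** -/
theorem snd_stB (hG : G.IsRegularOfDegree 3) {U : Finset V} (hI : Inv G U) {D : ℕ} {tf : Bool}
    {PL : List (ℕ × ℕ)} (hPL : PL.all wfp = true) (hD : ∀ x ∈ U, n1 G U x ≤ D) (hiso : iso G U = ∅)
    (htf : tf = true → ∀ a b c, G.Adj a b → G.Adj b c → ¬ G.Adj a c) (hcl : NoP G PL U) :
    Snd G U (∃ c, c ≠ 0 ∧ GoodB fw 12 84 6 G U c) (stB D tf PL) := by
  refine snd_flt (fun n p φ ν h => ?_) fun n p x L hL φ ν h => ?_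
  · unfold okB
    rw [h.okD hG hD, Bool.true_and]
    cases htf' : tf
    · rfl
    · rw [Bool.not_true, Bool.false_or]
      exact h.okT (htf htf')
  · unfold raw at hL
    rw [frc_eq, frc_eq] at hL
    cases r0 : Nat.beq (Nat.mod x 4) 0
    swap
    · rw [r0, cond_true] at hL
      right
      obtain ⟨q, hq, -, φ', ν', h1, -⟩ := branch_ch hG hI (d := Nat.ble 1 D) (by
        by_cases hD1 : 1 ≤ D
        · exact Or.inl (Nat.ble_eq_true_of_le hD1)
        · right
          intro y hy z hz hyz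
          by_contra hno
          push Not at hno
          have h1 : y ∈ (G.neighborFinset z \ U).filter fun y => nU G U y = 1 := by
            rw [mem_filter, mem_sdiff, SimpleGraph.mem_neighborFinset]
            refine ⟨⟨hyz.symm, hy⟩, card_eq_one.2 ⟨z, ?_⟩⟩
            rw [eq_singleton_iff_unique_mem]
            refine ⟨mem_inter.2 ⟨(SimpleGraph.mem_neighborFinset _ _ _).2 hyz, hz⟩, fun z' hz' => ?_⟩
            rw [mem_inter, SimpleGraph.mem_neighborFinset] at hz'
            by_contra hne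
            exact hno z' hz'.2 hne hz'.1
          have h2 : 0 < n1 G U z := card_pos.2 ⟨y, h1⟩
          have := hD z hz
          omega) hL h
      exact ⟨q, hq, φ', ν', h1⟩
    rw [r0, cond_false] at hL
    cases r1 : Nat.beq (Nat.mod x 4) 1
    swap
    · rw [r1, cond_true] at hL
      rcases evbB_ch hG pair_flat pos_flat tabK_flat tabKI_flat hI hD hiso hL h with
        h1 | ⟨q, hq, -, φ', ν', h1, -⟩
      · exact Or.inl ⟨_, pkl_ne _, h1⟩
      · exact Or.inr ⟨q, hq, φ', ν', h1⟩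
    rw [r1, cond_false] at hL
    cases r2 : Nat.beq (Nat.mod x 4) 2
    swap
    · rw [r2, cond_true] at hL
      rcases evlB_ch hG pair_flat pos_flat tabK_flat tabKI_flat hI hD hiso hL h with
        h1 | ⟨q, hq, -, φ', ν', h1, -⟩
      · exact Or.inl ⟨_, pkl_ne _, h1⟩
      · exact Or.inr ⟨q, hq, φ', ν', h1⟩
    rw [r2, cond_false] at hL
    exfalso
    unfold pst at hL
    rw [frc_eq, frc_eq] at hL
    cases hc : Nat.ble (Nat.succ (Nat.mod (Nat.div x 4) 64)) PL.length &&
      pcok n p (PL.getD (Nat.mod (Nat.div x 4) 64) (0, 0)) (Nat.mod (Nat.div (Nat.div x 4) 64) (256 ^ 26))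
        (Nat.div (Nat.div (Nat.div x 4) 64) (256 ^ 26))
    · rw [hc, cond_false] at hL
      exact absurd hL (by simp)
    rw [Bool.and_eq_true] at hc
    obtain ⟨c1, c2⟩ := hc
    have hlt : Nat.mod (Nat.div x 4) 64 < PL.length := Nat.le_of_ble_eq_true c1
    have hq : PL.getD (Nat.mod (Nat.div x 4) 64) (0, 0) ∈ PL := by
      rw [List.getD_eq_getElem _ _ hlt]
      exact List.getElem_mem hlt
    obtain ⟨d1, d2⟩ := pc_emb hG hI (List.all_eq_true.1 hPL _ hq) c2 h
    exact hcl _ hq _ d2 d1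

omit [Fintype V] [DecidableEq V] [DecidableRel G.Adj] in
theorem NoP.mono {PL : List (ℕ × ℕ)} {A B : Finset V} (h : A ⊆ B) (hB : NoP G PL B) : NoP G PL A :=
  fun q hq E hE => hB q hq E (hE.trans h)

/-- **the clean states** -/
theorem clean_phase (hG : G.IsRegularOfDegree 3) (hc : G.Connected) {tf : Bool} {PL : List (ℕ × ℕ)}
    (hPL : PL.all wfp = true) (htf : tf = true → ∀ a b c, G.Adj a b → G.Adj b c → ¬ G.Adj a c)
    (vA : Val (stB 2 tf PL) (1, 257)) (vB : Val (stB 1 tf PL) (1, 1))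
    (vC : Val (stB 0 tf PL) (2, 9 + 3 * 256 ^ 3)) :
    ∀ U : Finset V, Inv G U → U ≠ univ → NoP G PL U →
      ∃ m, Has G U m ∧ 84 * m + Xs G (be 6 G) U ≤ PsiT (fw.iso 12) G U :=
  cleanB hG hc (w := fw) (dl := 12) (P := 84) (b := 6) (by decide) (NoP G PL)
    (fun _ _ h hB => hB.mono h) vA vB vC fun _ hI _ _ _ hiso hcl =>
      ⟨fun hD => snd_stB hG hI hPL hD hiso htf hcl, fun hD => snd_stB hG hI hPL hD hiso htf hcl,
        fun hD => snd_stB hG hI hPL hD hiso htf hcl⟩

end EF18
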