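import Pool.Agent.Lib.MP_ef18bd_co.P.Fr4
import Pool.Agent.Lib.MP_ef18bd_co.P.StpB

/-!
# The comparison from the clean phase and the step for the states with a piece
-/

namespace EF18

open Finset

/-- no triangle -/
def TF3 {V : Type} (G : SimpleGraph V) : Prop := ∀ a b c, G.Adj a b → G.Adj b c → ¬ G.Adj a c

/-- the list `PL` without marks is part of `ML` -/
def subM (PL : List (ℕ × ℕ)) (ML : List MPc) : Bool := sub2 PL (ML.map fun e => e.1)

theorem noP_of_noM {V : Type} {G : SimpleGraph V} {PL : List (ℕ × ℕ)} {ML : List MPc}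
    (h : subM PL ML = true) {U : Finset V} (hM : NoM ML G U) : NoP G PL U := by
  intro q hq E hE hp
  have h1 := List.all_eq_true.1 h q hq
  obtain ⟨e, he, rfl⟩ := List.mem_map.1 (mem2_of h1)
  exact hM e he E hE hp

/-- **the packing bound for connected graphs**: the clean phase by the patterns `(1, 257)`, `(1, 1)`,
`(2, 9 + 3 * 256 ^ 3)`, a step for every connected state with a piece -/
theorem pack_tf {V : Type} [Fintype V] [DecidableEq V] {G : SimpleGraph V} [DecidableRel G.Adj]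
    (hG : G.IsRegularOfDegree 3) (hc : G.Connected) {tf : Bool} (htf : tf = true → TF3 G)
    {PL : List (ℕ × ℕ)} (hPL : PL.all wfp = true)
    (vA : Val (stB 2 tf PL) (1, 257)) (vB : Val (stB 1 tf PL) (1, 1))
    (vC : Val (stB 0 tf PL) (2, 9 + 3 * 256 ^ 3)) {e : ℕ} (he : e ≤ 9) {ML : List MPc}
    (hML : ML.all mkok = true) (hsub : subM PL ML = true)
    (ha : ∀ U E : Finset V, Inv G U → U ≠ univ → U.Nonempty → Con G U → iso G U = ∅ → E ⊆ U →
      (∃ q ∈ ML, Pc G E q.1.1 q.1.2) → ∃ c, c ≠ 0 ∧ GoodZ (fw.iso 12) 84 e ML G U c) :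
    ∃ S : Finset V, Pk G S ∧ Mx G univ S ∧ 14 * S.card ≤ 3 * Fintype.card V + 11 := by
  have := hc.nonempty
  refine packing4 hG hML he (fun U hI hU hn => ?_) ha
  obtain ⟨m, h1, h2⟩ := clean_phase hG hc hPL htf vA vB vC U hI hU (noP_of_noM hsub hn)
  exact ⟨m, h1, by omega⟩

/-- **the comparison** -/
theorem compare_tf {tf : Bool} {PL : List (ℕ × ℕ)} (hPL : PL.all wfp = true)
    (vA : Val (stB 2 tf PL) (1, 257)) (vB : Val (stB 1 tf PL) (1, 1))
    (vC : Val (stB 0 tf PL) (2, 9 + 3 * 256 ^ 3)) {e : ℕ} (he : e ≤ 9) {ML : List MPc}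
    (hML : ML.all mkok = true) (hsub : subM PL ML = true)
    (ha : ∀ (W : Type) [Fintype W] [DecidableEq W] (H : SimpleGraph W) [DecidableRel H.Adj],
      H.IsRegularOfDegree 3 → H.Connected → (tf = true → TF3 H) →
      ∀ U E : Finset W, Inv H U → U ≠ univ → U.Nonempty → Con H U → iso H U = ∅ → E ⊆ U →
      (∃ q ∈ ML, Pc H E q.1.1 q.1.2) → ∃ c, c ≠ 0 ∧ GoodZ (fw.iso 12) 84 e ML H U c)
    (V : Type) [Fintype V] [DecidableEq V] (G : SimpleGraph V) [DecidableRel G.Adj]
    (hG : G.IsRegularOfDegree 3) (htf : tf = true → TF3 G) : upperMinus G ≤ upperSigned G := by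
  refine compare_of_class (fun {W} (H : SimpleGraph W) => tf = true → TF3 H)
    (fun W _ _ H _ h1 h2 h3 => pack_tf h1 h2 h3 hPL vA vB vC he hML hsub (ha W H h1 h2 h3)) hG ?_
  intro k h a b c hab hbc hac
  exact htf h _ _ _ hab hbc hac

end EF18
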