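import Pool.Agent.Lib.MP_ef18bd_co.P.Fir
import Pool.Agent.Lib.MP_ef18bd_co.X.Kfour

/-!
# The final statements from one chain
-/

namespace EF18

/-- the conditions on the chain: triangle-free if `tf = true` -/
def Chn (tf : Bool) : Prop :=
  ∃ (bo : Bool) (CL : List CPc) (dn : List (ℕ × ℕ)), f13 CL = true ∧ Dn bo CL tf [] dn ∧ (1, 1) ∈ dn ∧
    (2, 9 + 3 * 256 ^ 3) ∈ dn

theorem tf3_of {V : Type} {G : SimpleGraph V} (h : G.CliqueFree 3) : TF3 G := by
  classical
  intro a b c h1 h2 h3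
  exact h {a, b, c} (SimpleGraph.is3Clique_triple_iff.2 ⟨h1, h3, h2⟩)

/-- **triangle-free cubic graphs** -/
theorem final_tf (h : Chn true) (V : Type) [Fintype V] [DecidableEq V] (G : SimpleGraph V)
    [DecidableRel G.Adj] (hG : G.IsRegularOfDegree 3) (ht : G.CliqueFree 3) :
    upperMinus G ≤ upperSigned G := by
  obtain ⟨bo, CL, dn, h1, h2, h3, h4⟩ := h
  exact compare_W h1 h2 h3 h4 V G hG fun _ => tf3_of ht

/-- **all cubic graphs** -/
theorem final_all (h : Chn false) :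
    (∀ (V : Type) [Fintype V] [DecidableEq V] (G : SimpleGraph V) [DecidableRel G.Adj],
      G.IsRegularOfDegree 3 → upperMinus G ≤ upperSigned G) ∧
    (⊤ : SimpleGraph (Fin 4)).IsRegularOfDegree 3 ∧
      upperMinus (⊤ : SimpleGraph (Fin 4)) < upperSigned (⊤ : SimpleGraph (Fin 4)) := by
  obtain ⟨bo, CL, dn, h1, h2, h3, h4⟩ := h
  exact ⟨fun V _ _ G _ hG => compare_W h1 h2 h3 h4 V G hG fun h => Bool.noConfusion h, k4_cubic, k4_lt⟩

end EF18
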