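import Pool.Agent.Lib.MP_ef18bd_co.P.StpX
import Pool.Agent.Lib.MP_ef18bd_co.P.Dia
import Pool.Agent.Lib.MP_ef18bd_co.P.Fin4

/-!
# The comparison from the phases, with the diamonds
-/

namespace EF18

open Finset

variable {V : Type} [Fintype V] [DecidableEq V] {G : SimpleGraph V} [DecidableRel G.Adj]

/-! ### the patterns which are the whole graph -/

/-- such a pattern is not in a state -/
theorem noP_unv (hG : G.IsRegularOfDegree 3) (hc : G.Connected) {KL : List (ℕ × ℕ)}
    (hK : (KL.all fun q => unv q.1 q.2) = true) {U : Finset V} (hU : U ≠ univ) : NoP G KL U := by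
  rintro q hq E hE ⟨φ, ν, h, -⟩
  exact h.unv_no hG hc (ne_univ_of_subset hE hU) (List.all_eq_true.1 hK q hq)

/-! ### the diamond pairs and the vertices with a partner -/

theorem dpn_le_mids (hG : G.IsRegularOfDegree 3) (hK : NoK4 G) (U : Finset V) :
    dpn G U ≤ (mids G).card := by
  classical
  unfold dpn
  refine card_le_card_of_injOn (fun q => q.1) (fun q hq => ?_) fun q hq q' hq' h => ?_
  · rw [mem_coe, mem_dps] at hq
    exact mem_coe.2 (mem_filter.2 ⟨mem_univ _, q.2, hq.2.1, fun z hz hxz => hq.2.2 z hz hxz⟩)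
  · rw [mem_coe, mem_dps] at hq hq'
    obtain ⟨x, y⟩ := q
    obtain ⟨x', y'⟩ := q'
    simp only at h
    subst h
    by_contra hne
    have hyy : y' ≠ y := fun e => hne (by rw [e])
    obtain ⟨-, h1, h2⟩ := hq
    obtain ⟨-, h3, h4⟩ := hq'
    simp only at h1 h2 h3 h4
    obtain ⟨z, z1, z2, z3⟩ := exists_third hG x y y'
    exact hK x y y' z h1 h3 z1 (h2 y' hyy h3) (h2 z z2 z1) (h4 z z3 z1)

/-! ### the packing bound -/

/-- **the packing bound** from the last phase, with any charge for the diamond pairs -/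
theorem packC (hG : G.IsRegularOfDegree 3) [hV : Nonempty V] {c : ℕ} (Ex : Finset V → ℕ)
    (hex : ∀ U : Finset V, Inv G U → Ex U ≤ ∑ p ∈ univ \ U, ch 9 5 (nU G U p))
    (hall : ∀ U : Finset V, Inv G U → U ≠ univ →
      ∃ m, Has G U m ∧ 84 * m ≤ PsiT (fw.iso 12) G U + c * dpn G U + Ex U) :
    ∃ S : Finset V, Pk G S ∧ Mx G univ S ∧
      84 * S.card ≤ 18 * Fintype.card V + c * dpn G univ + 66 := by
  obtain ⟨v⟩ := hV
  have hI : Inv G (univ : Finset V) := fun x hx => absurd (mem_univ x) hx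
  have hne : (univ : Finset V) \ B2 G v ≠ univ := fun h => by
    have := mem_univ v
    rw [← h, mem_sdiff] at this
    exact this.2 self_mem_B2
  obtain ⟨m, hm, hm2⟩ := hall _ (hI.pick hG v) hne
  obtain ⟨S, a1, a2, a3⟩ := (Has.pick (mem_univ v) hm).packing
  refine ⟨S, a1, a2, ?_⟩
  have e0 : (linTF (3 * 6) 9 22).F 3 0 = 3 * 6 := by simp [linTF]
  have h3 := PsiT_first hG (linTF (3 * 6) 9 22) (f2 := 9) (f1 := 5) (κ := 9)
    (by rw [e0]; exact (by norm_num : 2 * 9 + 9 ≤ 3 * 6 + 9))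
    (by rw [e0]; exact (by norm_num : 22 + 5 ≤ 3 * 6 + 9)) v
  have h4 := hex _ (hI.pick hG v)
  have h5 : PsiT (fw.iso 12) G (univ \ B2 G v) ≤ PsiT (linTF (3 * 6) 9 22) G (univ \ B2 G v) := by
    refine PsiT_le hG (fun a c h => ?_) (hI.pick hG v)
    show 18 + (3 - a - c) * 9 + c * 18 + (if a = 0 ∧ c = 3 then 12 else 0) ≤
      3 * 6 + (3 - a - c) * 9 + c * 22
    split_ifs with h1
    · rw [h1.1, h1.2]
    · omega
  have h6 := Nat.mul_le_mul_left c (dpn_mono (G := G) (subset_univ (univ \ B2 G v)))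
  rw [e0] at h3
  omega

/-- the charge of the marked link vertices is at most the sum over the outer vertices -/
theorem exz_le {m : ℕ} (hm : m ≤ 9) {ML : List MPc} (hML : ML.all mkok = true)
    (U : Finset V) (hI : Inv G U) : exz m ML G U ≤ ∑ p ∈ univ \ U, ch 9 5 (nU G U p) := bz_out hML hm hI

omit [DecidableEq V] in
theorem exz_mono {m m' : ℕ} (hm : m ≤ m') {ML ML' : List MPc} (h : ∀ e ∈ ML, e ∈ ML') (U : Finset V) :
    exz m ML G U ≤ exz m' ML' G U := by
  refine Nat.mul_le_mul hm (card_le_card fun z hz => ?_)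
  rw [mem_bz] at hz ⊢
  obtain ⟨h1, e, he, h2⟩ := hz
  exact ⟨h1, e, h e he, h2⟩

/-! ### the phases -/

/-- the bound for the states without the pieces `PL`, with the bonus if `bo = true`, the charge `m` for the
marked link vertices of the pieces `ML` and the charge `6` for the ordered diamond pairs -/
def Phs (bo : Bool) (m : ℕ) (ML : List MPc) (PL : List (ℕ × ℕ)) (G : SimpleGraph V) [DecidableRel G.Adj] :
    Prop :=
  ∀ U : Finset V, Inv G U → U ≠ univ → NoP G PL U →
    ∃ k, Has G U k ∧ 84 * k + Xs G (beT (bnx bo) G) U ≤ PsiT (fw.iso 12) G U + 6 * dpn G U + exz m ML G U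

/-- the clean phase -/
theorem phs_clean (hG : G.IsRegularOfDegree 3) (hc : G.Connected) {tf : Bool} (htf : tf = true → TF3 G)
    {PL : List (ℕ × ℕ)} (hPL : PL.all wfp = true)
    (vA : Val (stK 2 tf PL) (1, 257)) (vB : Val (stK 1 tf PL) (1, 1))
    (vC : Val (stK 0 tf PL) (2, 9 + 3 * 256 ^ 3)) : Phs true 0 [] PL G := fun U h1 h2 h3 => by
  obtain ⟨m, a, b⟩ := clean_phaseK hG hc hPL htf vA vB vC U h1 h2 h3
  exact ⟨m, a, le_trans b (Nat.le_add_right _ _)⟩

/-- a weaker bound -/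
theorem Phs.mono {bo bo' : Bool} {m m' : ℕ} {ML ML' : List MPc} {PL : List (ℕ × ℕ)}
    (h : Phs bo m ML PL G) (hbo : bo' = true → bo = true) (hm : m ≤ m') (hML : ∀ e ∈ ML, e ∈ ML') :
    Phs bo' m' ML' PL G := fun U h1 h2 h3 => by
  obtain ⟨k, a, b⟩ := h U h1 h2 h3
  have c1 := exz_mono (G := G) hm hML U
  have c2 : Xs G (beT (bnx bo') G) U ≤ Xs G (beT (bnx bo) G) U := by
    refine Xs_beT_mono ?_ U
    cases bo'
    · exact Nat.zero_le _
    · rw [hbo rfl]
  exact ⟨k, a, by omega⟩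

/-- more states: patterns which are the whole graph -/
theorem Phs.sub (hG : G.IsRegularOfDegree 3) (hc : G.Connected) {bo : Bool} {m : ℕ} {ML : List MPc}
    {PL PL' KL : List (ℕ × ℕ)} (h : Phs bo m ML PL G) (hK : (KL.all fun q => unv q.1 q.2) = true)
    (hs : sub2 PL (PL' ++ KL) = true) : Phs bo m ML PL' G := fun U h1 h2 h3 => by
  refine h U h1 h2 fun q hq E hE => ?_
  rcases List.mem_append.1 (mem2_of (List.all_eq_true.1 hs q hq)) with hq | hq
  · exact h3 q hq E hE
  · exact noP_unv hG hc hK h2 q hq E hE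

omit [Fintype V] [DecidableEq V] [DecidableRel G.Adj] in
theorem sub2_mem {PL' PL QL : List (ℕ × ℕ)} (hs : sub2 PL' (PL ++ QL) = true) :
    ∀ q ∈ PL', q ∈ PL ∨ q ∈ QL := fun q hq =>
  List.mem_append.1 (mem2_of (List.all_eq_true.1 hs q hq))

/-- **the next phase**: the earlier phase gives the states without `PL'`, the roots at the pieces `QL` -/
theorem Phs.next (hG : G.IsRegularOfDegree 3) (hc : G.Connected) {tf : Bool} (htf : tf = true → TF3 G)
    {bo : Bool} {m : ℕ} {ML : List MPc} {PL' PL QL : List (ℕ × ℕ)} (h : Phs bo m ML PL' G)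
    (hs : ∀ q ∈ PL', q ∈ PL ∨ q ∈ QL) (hML : ML.all mkok = true) (hPL : PL.all wfp = true) (hQL : pcl QL)
    {D0 : ℕ} (hA : D0 ≤ 1 → Val (stX bo m tf ML PL 2) (1, 257))
    (hB : D0 = 0 → Val (stX bo m tf ML PL 1) (1, 1))
    (hr : ∀ r ∈ rtu QL, ClO (okB D0 tf) (stX bo m tf ML PL D0) r) : Phs bo m ML PL G :=
  phaseX hG hc htf hML hPL hQL (fun U h1 h2 h3 h4 => h U h1 h2 fun q hq E hE => by
    rcases hs q hq with hq | hq
    · exact h3 q hq E hE
    · exact h4 q hq E hE) hA hB hr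

/-- **the comparison from a bound for all the states**, with a charge at most `9` for the ordered diamond
pairs -/
theorem compare_X {tf : Bool} {c : ℕ} (hc9 : c ≤ 9)
    (h : ∀ (W : Type) [Fintype W] [DecidableEq W] (H : SimpleGraph W) [DecidableRel H.Adj],
      H.IsRegularOfDegree 3 → H.Connected → NoK4 H → (tf = true → TF3 H) →
      ∃ Ex : Finset W → ℕ, (∀ U : Finset W, Inv H U → Ex U ≤ ∑ p ∈ univ \ U, ch 9 5 (nU H U p)) ∧
        ∀ U : Finset W, Inv H U → U ≠ univ →
          ∃ m, Has H U m ∧ 84 * m ≤ PsiT (fw.iso 12) H U + c * dpn H U + Ex U)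
    (V : Type) [Fintype V] [DecidableEq V] (G : SimpleGraph V) [DecidableRel G.Adj]
    (hG : G.IsRegularOfDegree 3) (htf : tf = true → TF3 G) : upperMinus G ≤ upperSigned G := by
  refine compare_of_classD (fun {W} (H : SimpleGraph W) => tf = true → TF3 H)
    (fun W _ _ H _ h1 h2 h3 h4 => ?_) hG ?_
  · have := h2.nonempty
    obtain ⟨Ex, b1, b2⟩ := h W H h1 h2 h3 h4
    obtain ⟨S, a1, a2, a3⟩ := packC h1 Ex b1 b2
    refine ⟨S, a1, a2, ?_⟩
    have h5 := dpn_le_mids h1 h3 univ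
    have h6 := Nat.mul_le_mul_right (dpn H univ) hc9
    omega
  · intro k h a b c hab hbc hac
    exact htf h _ _ _ hab hbc hac

/-- **the comparison from the last phase** -/
theorem compare_Phs {tf : Bool} {bo : Bool} {m : ℕ} (hm : m ≤ 9) {ML : List MPc} (hML : ML.all mkok = true)
    (h : ∀ (W : Type) [Fintype W] [DecidableEq W] (H : SimpleGraph W) [DecidableRel H.Adj],
      H.IsRegularOfDegree 3 → H.Connected → (tf = true → TF3 H) → Phs bo m ML [] H)
    (V : Type) [Fintype V] [DecidableEq V] (G : SimpleGraph V) [DecidableRel G.Adj]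
    (hG : G.IsRegularOfDegree 3) (htf : tf = true → TF3 G) : upperMinus G ≤ upperSigned G := by
  refine compare_X (c := 6) (by norm_num) (fun W _ _ H _ h1 h2 _ h4 => ⟨exz m ML H, exz_le hm hML,
    fun U a b => ?_⟩) V G hG htf
  obtain ⟨k, c1, c2⟩ := h W H h1 h2 h4 U a b fun q hq => absurd hq (List.not_mem_nil)
  exact ⟨k, c1, by omega⟩

/-- **the comparison from the clean phase and one phase for the pieces**, `tf = false`: for all cubic graphs -/
theorem compare_one {tf : Bool} {PL QL KL : List (ℕ × ℕ)} (hPL : PL.all wfp = true)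
    (vA : Val (stK 2 tf PL) (1, 257)) (vB : Val (stK 1 tf PL) (1, 1))
    (vC : Val (stK 0 tf PL) (2, 9 + 3 * 256 ^ 3)) (hK : (KL.all fun q => unv q.1 q.2) = true)
    (hs : sub2 PL (QL ++ KL) = true) (hQL : pcl QL) {bo : Bool} {m : ℕ} (hm : m ≤ 9) {ML : List MPc}
    (hML : ML.all mkok = true) {D0 : ℕ} (hA : D0 ≤ 1 → Val (stX bo m tf ML [] 2) (1, 257))
    (hB : D0 = 0 → Val (stX bo m tf ML [] 1) (1, 1))
    (hr : ∀ r ∈ rtu QL, ClO (okB D0 tf) (stX bo m tf ML [] D0) r)
    (V : Type) [Fintype V] [DecidableEq V] (G : SimpleGraph V) [DecidableRel G.Adj]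
    (hG : G.IsRegularOfDegree 3) (htf : tf = true → TF3 G) : upperMinus G ≤ upperSigned G := by
  refine compare_Phs (bo := bo) hm hML (fun W _ _ H _ h1 h2 h3 => ?_) V G hG htf
  have p1 : Phs true 0 [] PL H := phs_clean h1 h2 h3 hPL vA vB vC
  have p2 : Phs true 0 [] QL H := p1.sub h1 h2 hK hs
  have p3 : Phs bo m ML QL H := p2.mono (fun _ => rfl) (Nat.zero_le _) fun e he =>
    absurd he (List.not_mem_nil)
  exact p3.next h1 h2 h3 (PL := []) (QL := QL)
    (fun _ hq => Or.inr hq) hML rfl hQL hA hB hr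

end EF18
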