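import Pool.Agent.Lib.MP_ef18bd_co.P.Flat15
import Pool.Agent.Lib.MP_ef18bd_co.P.StpZ

/-!
# The final assembly with the step `stZ`

`ha_of`: the step for the states with a piece of `ML`, from the closed roots. `compareZ2`: two phases (clean
phase, pieces), `compareZ3`: three phases (clean phase, flat phase, pieces). `tf = true`: graphs without
triangles, `tf = false`: all cubic graphs.
-/

namespace EF18

open Finset

/-- the pieces without marks -/
def upl (ML : List MPc) : List (ℕ × ℕ) := ML.map fun e => e.1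

section

variable {V : Type} [Fintype V] [DecidableEq V] {G : SimpleGraph V} [DecidableRel G.Adj]

omit [Fintype V] [DecidableEq V] [DecidableRel G.Adj] in
theorem noP_nil (U : Finset V) : NoP G [] U := fun _ hq => absurd hq List.not_mem_nil

/-- **a step for every state with a piece**, from the closed roots -/
theorem ha_of (hG : G.IsRegularOfDegree 3) {tf : Bool} (htf : tf = true → TF3 G) {e : ℕ}
    {ML : List MPc} (hML : ML.all mkok = true) (hp : pcl (upl ML))
    (hr : ∀ r ∈ rtu (upl ML), ClO (okB 2 tf) (stZ e 2 tf ML []) r) :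
    ∀ U E : Finset V, Inv G U → U ≠ univ → U.Nonempty → Con G U → iso G U = ∅ → E ⊆ U →
      (∃ q ∈ ML, Pc G E q.1.1 q.1.2) → ∃ c, c ≠ 0 ∧ GoodZ (fw.iso 12) 84 e ML G U c := by
  rintro U E hI - - - hi hE ⟨q, hq, h⟩
  have hD := n1_le_two hG hI hi
  exact rtu_use hG hE hD htf hp (List.mem_map.2 ⟨q, hq, rfl⟩) h
    (snd_stZ hG hI hML (by rfl) hD hi htf (noP_nil U)) hr

/-- two phases, one connected graph -/
theorem packZ2 (hG : G.IsRegularOfDegree 3) (hc : G.Connected) {tf : Bool} (htf : tf = true → TF3 G)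
    {PL : List (ℕ × ℕ)} (hPL : PL.all wfp = true)
    (vA : Val (stB 2 tf PL) (1, 257)) (vB : Val (stB 1 tf PL) (1, 1))
    (vC : Val (stB 0 tf PL) (2, 9 + 3 * 256 ^ 3)) {e : ℕ} (he : e ≤ 9) {ML : List MPc}
    (hML : ML.all mkok = true) (hsub : subM PL ML = true) (hp : pcl (upl ML))
    (hr : ∀ r ∈ rtu (upl ML), ClO (okB 2 tf) (stZ e 2 tf ML []) r) :
    ∃ S : Finset V, Pk G S ∧ Mx G univ S ∧ 14 * S.card ≤ 3 * Fintype.card V + 11 :=
  pack_tf hG hc htf hPL vA vB vC he hML hsub (ha_of hG htf hML hp hr)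

/-- three phases, one connected graph: `PL` the clean list, `P5` the flat pieces (the pieces of `ML`), `P3` the
others -/
theorem packZ3 (hG : G.IsRegularOfDegree 3) (hc : G.Connected) {tf : Bool} (htf : tf = true → TF3 G)
    {P5 P3 PL : List (ℕ × ℕ)} (hPL : PL.all wfp = true)
    (vA : Val (stB 2 tf PL) (1, 257)) (vB : Val (stB 1 tf PL) (1, 1))
    (vC : Val (stB 0 tf PL) (2, 9 + 3 * 256 ^ 3)) (h5 : P5.all wfp = true) (h3 : pcl P3)
    (h53 : sub2 PL (P5 ++ P3) = true)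
    (wA : Val (st0 2 tf P5) (1, 257)) (wB : Val (st0 1 tf P5) (1, 1))
    (wC : ∀ r ∈ rtu P3, ClO (okB 0 tf) (st0 0 tf P5) r) {e : ℕ} (he : e ≤ 9) {ML : List MPc}
    (hML : ML.all mkok = true) (hsub : subM P5 ML = true) (hp : pcl (upl ML))
    (hr : ∀ r ∈ rtu (upl ML), ClO (okB 2 tf) (stZ e 2 tf ML []) r) :
    ∃ S : Finset V, Pk G S ∧ Mx G univ S ∧ 14 * S.card ≤ 3 * Fintype.card V + 11 := by
  have := hc.nonempty
  refine packing4 hG hML he (fun U hI hU hn => ?_) (ha_of hG htf hML hp hr)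
  refine mid15 hG htf h5 h3 h53 (fun U a b c => ?_) wA wB wC U hI hU (noP_of_noM hsub hn)
  obtain ⟨m, h1, h2⟩ := clean_phase hG hc hPL htf vA vB vC U a b c
  exact ⟨m, h1, by omega⟩

/-- **the comparison, two phases** -/
theorem compareZ2 {tf : Bool} {PL : List (ℕ × ℕ)} (hPL : PL.all wfp = true)
    (vA : Val (stB 2 tf PL) (1, 257)) (vB : Val (stB 1 tf PL) (1, 1))
    (vC : Val (stB 0 tf PL) (2, 9 + 3 * 256 ^ 3)) {e : ℕ} (he : e ≤ 9) {ML : List MPc}
    (hML : ML.all mkok = true) (hsub : subM PL ML = true) (hp : pcl (upl ML))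
    (hr : ∀ r ∈ rtu (upl ML), ClO (okB 2 tf) (stZ e 2 tf ML []) r)
    (hG : G.IsRegularOfDegree 3) (htf : tf = true → TF3 G) : upperMinus G ≤ upperSigned G := by
  refine compare_of_class (fun {W} (H : SimpleGraph W) => tf = true → TF3 H)
    (fun W _ _ H _ h1 h2 h3 => packZ2 h1 h2 h3 hPL vA vB vC he hML hsub hp hr) hG ?_
  intro k h a b c hab hbc hac
  exact htf h _ _ _ hab hbc hac

/-- **the comparison, three phases** -/
theorem compareZ3 {tf : Bool} {P5 P3 PL : List (ℕ × ℕ)} (hPL : PL.all wfp = true)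
    (vA : Val (stB 2 tf PL) (1, 257)) (vB : Val (stB 1 tf PL) (1, 1))
    (vC : Val (stB 0 tf PL) (2, 9 + 3 * 256 ^ 3)) (h5 : P5.all wfp = true) (h3 : pcl P3)
    (h53 : sub2 PL (P5 ++ P3) = true)
    (wA : Val (st0 2 tf P5) (1, 257)) (wB : Val (st0 1 tf P5) (1, 1))
    (wC : ∀ r ∈ rtu P3, ClO (okB 0 tf) (st0 0 tf P5) r) {e : ℕ} (he : e ≤ 9) {ML : List MPc}
    (hML : ML.all mkok = true) (hsub : subM P5 ML = true) (hp : pcl (upl ML))
    (hr : ∀ r ∈ rtu (upl ML), ClO (okB 2 tf) (stZ e 2 tf ML []) r)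
    (hG : G.IsRegularOfDegree 3) (htf : tf = true → TF3 G) : upperMinus G ≤ upperSigned G := by
  refine compare_of_class (fun {W} (H : SimpleGraph W) => tf = true → TF3 H)
    (fun W _ _ H _ h1 h2 h3' => packZ3 h1 h2 h3' hPL vA vB vC h5 h3 h53 wA wB wC he hML hsub hp hr) hG ?_
  intro k h a b c hab hbc hac
  exact htf h _ _ _ hab hbc hac

end

end EF18
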