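import Pool.Agent.Lib.MP_ef18bd_co.P.PhV

/-!
# The first pick in a triangle

A vertex of a triangle has at most four vertices at distance two. So the values of the pieces may be up to `13` for
every dead link vertex if the graph contains a triangle; a piece without a triangle needs `9`.
-/

namespace EF18

open Finset

variable {V : Type} [Fintype V] [DecidableEq V] {G : SimpleGraph V} [DecidableRel G.Adj]

theorem B2_card_tri (hG : G.IsRegularOfDegree 3) {v a b : V} (h1 : G.Adj v a) (h2 : G.Adj a b)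
    (h3 : G.Adj v b) : ((B2 G v) \ cn G v).card ≤ 4 := by
  have h0 : (B2 G v) \ cn G v ⊆ (G.neighborFinset v).biUnion (fun y => (G.neighborFinset y) \ cn G v) := by
    intro x hx
    rw [mem_sdiff] at hx
    obtain ⟨y, hy, hyx⟩ := mem_B2.1 hx.1
    rw [mem_biUnion]
    rw [mem_cn] at hy hyx
    rcases hy with rfl | hy
    · exact absurd (mem_cn.2 hyx) hx.2
    · rcases hyx with rfl | hyx
      · exact absurd (mem_cn.2 (Or.inr hy)) hx.2
      · refine ⟨y, by rwa [SimpleGraph.mem_neighborFinset], ?_⟩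
        rw [mem_sdiff, SimpleGraph.mem_neighborFinset]
        exact ⟨hyx, hx.2⟩
  refine (card_le_card h0).trans (card_biUnion_le.trans ?_)
  have k1 : ∀ y ∈ G.neighborFinset v, ((G.neighborFinset y) \ cn G v).card ≤ 2 := by
    intro y hy
    rw [SimpleGraph.mem_neighborFinset] at hy
    have h4 : (G.neighborFinset y) \ cn G v ⊆ (G.neighborFinset y).erase v := by
      intro z hz
      rw [mem_sdiff] at hz
      exact mem_erase.2 ⟨fun e => hz.2 (e ▸ self_mem_cn), hz.1⟩
    refine (card_le_card h4).trans ?_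
    rw [card_erase_of_mem (by rw [SimpleGraph.mem_neighborFinset]; exact hy.symm), nbr_card hG]
  have k2 : ∀ y z, G.Adj v y → G.Adj v z → G.Adj y z → ((G.neighborFinset y) \ cn G v).card ≤ 1 := by
    intro y z hy hz hyz
    have h4 : (G.neighborFinset y) \ cn G v ⊆ ((G.neighborFinset y).erase v).erase z := by
      intro w hw
      rw [mem_sdiff] at hw
      refine mem_erase.2 ⟨fun e => hw.2 (e ▸ mem_cn.2 (Or.inr hz)), mem_erase.2 ⟨fun e => hw.2 (e ▸ self_mem_cn), hw.1⟩⟩
    refine (card_le_card h4).trans ?_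
    rw [card_erase_of_mem, card_erase_of_mem (by rw [SimpleGraph.mem_neighborFinset]; exact hy.symm),
      nbr_card hG]
    rw [mem_erase, SimpleGraph.mem_neighborFinset]
    exact ⟨hz.ne', hyz⟩
  have hab : a ≠ b := h2.ne
  have ha : a ∈ G.neighborFinset v := by rwa [SimpleGraph.mem_neighborFinset]
  have hb : b ∈ G.neighborFinset v := by rwa [SimpleGraph.mem_neighborFinset]
  have k3 : ∑ y ∈ G.neighborFinset v, (((G.neighborFinset y) \ cn G v).card + (if y = a then 1 else 0) +
      (if y = b then 1 else 0)) ≤ ∑ y ∈ G.neighborFinset v, 2 := by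
    refine sum_le_sum fun y hy => ?_
    rcases eq_or_ne y a with rfl | hya
    · have := k2 y b h1 h3 h2
      rw [if_pos rfl, if_neg hab]
      omega
    · rcases eq_or_ne y b with rfl | hyb
      · have := k2 y a h3 h1 h2.symm
        rw [if_pos rfl, if_neg hya]
        omega
      · have := k1 y hy
        rw [if_neg hya, if_neg hyb]
        omega
  rw [sum_add_distrib, sum_add_distrib, sum_const, nbr_card hG, sum_ite_eq' _ a, if_pos ha,
    sum_ite_eq' _ b, if_pos hb, smul_eq_mul] at k3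
  omega

/-- the potential after the first pick, with at most `N` vertices at distance two -/
theorem PsiT_firstN (hG : G.IsRegularOfDegree 3) (w : TF) {f2 f1 κ N : ℕ}
    (h2 : 2 * w.h2 + f2 ≤ w.F 3 0 + κ) (h1 : w.h1 + f1 ≤ w.F 3 0 + κ) (v : V)
    (hN : ((B2 G v) \ cn G v).card ≤ N) :
    PsiT w G (univ \ B2 G v) + ∑ p ∈ univ \ (univ \ B2 G v), ch f2 f1 (nU G (univ \ B2 G v) p) +
      4 * w.F 3 0 ≤ w.F 3 0 * Fintype.card V + N * κ := by
  have hI : Inv G (univ : Finset V) := fun x hx => absurd (mem_univ x) hx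
  have hI' := hI.pick hG v
  have e0 : (univ : Finset V) \ (univ \ B2 G v) = B2 G v := Finset.sdiff_sdiff_eq_self (subset_univ _)
  have e1 : ∀ z : V, nU G (univ : Finset V) z = 3 := fun z => by
    unfold nU
    rw [inter_univ, nbr_card hG]
  have e2 : ∀ z : V, G.neighborFinset z \ (univ : Finset V) = ∅ := fun z =>
    sdiff_eq_empty_iff_subset.2 (subset_univ _)
  have e3 : ∀ z : V, n1 G (univ : Finset V) z = 0 := fun z => by
    unfold n1
    rw [e2 z]
    rfl
  have h3 := drop_typ w hG (subset_univ (univ \ B2 G v)) hI' (empty_subset _) (fun _ => 0) (fun _ => 0)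
    (fun x hx => absurd hx (notMem_empty x))
  simp only [sum_empty, e0, add_zero, sdiff_empty] at h3
  have h4 : PsiT w G (univ : Finset V) = w.F 3 0 * Fintype.card V := by
    unfold PsiT
    rw [sum_congr rfl (fun z _ => by rw [e1 z, e3 z]), sum_const, card_univ, smul_eq_mul, mul_comm]
  have h5 : ∑ z ∈ B2 G v, w.F (nU G (univ : Finset V) z) (n1 G (univ : Finset V) z) =
      w.F 3 0 * (B2 G v).card := by
    rw [sum_congr rfl (fun z _ => by rw [e1 z, e3 z]), sum_const, smul_eq_mul, mul_comm]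
  have h6 : ∑ z ∈ B2 G v, ((G.neighborFinset z ∩ (univ \ B2 G v)).card * w.hh (nU G (univ \ B2 G v) z) +
        ((G.neighborFinset z \ univ).filter
          fun p => (G.neighborFinset p ∩ (univ \ B2 G v)).Nonempty).card * w.h0) +
      ∑ z ∈ B2 G v, ch f2 f1 (nU G (univ \ B2 G v) z) ≤
      ((B2 G v) \ cn G v).card * (w.F 3 0 + κ) := by
    rw [← sum_add_distrib, ← sum_sdiff (cn_sub_B2 (G := G) v)]
    have h7 : ∑ z ∈ cn G v, ((G.neighborFinset z ∩ (univ \ B2 G v)).card * w.hh (nU G (univ \ B2 G v) z) +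
        ((G.neighborFinset z \ univ).filter
          fun p => (G.neighborFinset p ∩ (univ \ B2 G v)).Nonempty).card * w.h0 +
        ch f2 f1 (nU G (univ \ B2 G v) z)) = 0 := by
      refine sum_eq_zero fun z hz => ?_
      have h8 : G.neighborFinset z ∩ (univ \ B2 G v) = ∅ := by
        rw [eq_empty_iff_forall_notMem]
        intro y hy
        rw [mem_inter, SimpleGraph.mem_neighborFinset, mem_sdiff] at hy
        exact hy.2.2 (mem_B2.2 ⟨z, hz, mem_cn.2 (Or.inr hy.1)⟩)
      have h9 : nU G (univ \ B2 G v) z = 0 := by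
        unfold nU
        rw [h8]
        rfl
      rw [h8, h9, e2 z, filter_empty, card_empty, zero_mul, zero_mul]
      rfl
    rw [h7, add_zero, ← smul_eq_mul, ← sum_const]
    refine sum_le_sum fun z hz => ?_
    have hzU : z ∉ univ \ B2 G v := fun h => (mem_sdiff.1 h).2 (mem_sdiff.1 hz).1
    have hle : nU G (univ \ B2 G v) z ≤ 2 := (card_le_card (inter_subset_inter_right (fun y hy =>
        mem_cn.2 (Or.inr ((SimpleGraph.mem_neighborFinset _ _ _).1 hy))))).trans (hI' z hzU)
    rw [e2 z, filter_empty, card_empty, zero_mul, add_zero]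
    have h8 : (G.neighborFinset z ∩ (univ \ B2 G v)).card = nU G (univ \ B2 G v) z := rfl
    rw [h8]
    unfold TF.hh ch
    rcases (by omega : nU G (univ \ B2 G v) z = 0 ∨ nU G (univ \ B2 G v) z = 1 ∨
      nU G (univ \ B2 G v) z = 2) with h9 | h9 | h9
    · rw [h9]
      simp
    · rw [h9]
      simp only [OfNat.one_ne_ofNat, if_false, if_true, one_mul]
      exact h1
    · rw [h9]
      simp only [if_true]
      exact h2
  have h8 := card_sdiff_add_card_eq_card (cn_sub_B2 (G := G) v)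
  rw [cn_card hG] at h8
  rw [h4, h5] at h3
  rw [e0]
  have h9 : ((B2 G v) \ cn G v).card * (w.F 3 0 + κ) ≤ w.F 3 0 * ((B2 G v) \ cn G v).card + N * κ := by
    rw [mul_add, mul_comm _ (w.F 3 0)]
    exact Nat.add_le_add_left (Nat.mul_le_mul_right _ hN) _
  rw [← h8, mul_add] at h3
  omega

/-- **the packing bound**, with the first pick `v` -/
theorem packN (hG : G.IsRegularOfDegree 3) {c f2 f1 κ N : ℕ} (v : V) (hN : ((B2 G v) \ cn G v).card ≤ N)
    (hκ : N * κ ≤ 54) (g2 : f2 ≤ κ) (g1 : 4 + f1 ≤ κ) (Ex : Finset V → ℕ)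
    (hex : ∀ U : Finset V, Inv G U → Ex U ≤ ∑ p ∈ univ \ U, ch f2 f1 (nU G U p))
    (hall : ∀ U : Finset V, Inv G U → U ≠ univ →
      ∃ m, Has G U m ∧ 84 * m ≤ PsiT (fw.iso 12) G U + c * dpn G U + Ex U) :
    ∃ S : Finset V, Pk G S ∧ Mx G univ S ∧
      84 * S.card ≤ 18 * Fintype.card V + c * dpn G univ + 66 := by
  have hI : Inv G (univ : Finset V) := fun x hx => absurd (mem_univ x) hx
  have hne : (univ : Finset V) \ B2 G v ≠ univ := fun h => by
    have := mem_univ v
    rw [← h, mem_sdiff] at this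
    exact this.2 self_mem_B2
  obtain ⟨m, hm, hm2⟩ := hall _ (hI.pick hG v) hne
  obtain ⟨S, a1, a2, a3⟩ := (Has.pick (mem_univ v) hm).packing
  refine ⟨S, a1, a2, ?_⟩
  have e0 : (linTF (3 * 6) 9 22).F 3 0 = 3 * 6 := by simp [linTF]
  have h3 := PsiT_firstN hG (linTF (3 * 6) 9 22) (f2 := f2) (f1 := f1) (κ := κ)
    (by rw [e0]; change 2 * 9 + f2 ≤ 3 * 6 + κ; omega)
    (by rw [e0]; change 22 + f1 ≤ 3 * 6 + κ; omega) v hN
  have h4 := hex _ (hI.pick hG v)
  have h5 : PsiT (fw.iso 12) G (univ \ B2 G v) ≤ PsiT (linTF (3 * 6) 9 22) G (univ \ B2 G v) := by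
    refine PsiT_le hG (fun a c h => ?_) (hI.pick hG v)
    show 18 + (3 - a - c) * 9 + c * 18 + (if a = 0 ∧ c = 3 then 12 else 0) ≤
      3 * 6 + (3 - a - c) * 9 + c * 22
    split_ifs with h1
    · rw [h1.1, h1.2]
    · omega
  have h6 := Nat.mul_le_mul_left c (dpn_mono (G := G) (subset_univ (univ \ B2 G v)))
  rw [e0] at h3
  omega

/-! ### the charge -/

/-- the charge is at most the sum over the outer vertices -/
theorem exv_outN {CL : List CPc} {f2 f1 : ℕ}
    (hf : ∀ e ∈ CL, ∀ E, Pc G E e.1.1 e.1.2 → ∀ d, cfv e d ≤ f2 * d) {U : Finset V} (hI : Inv G U) :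
    exv CL G U ≤ ∑ p ∈ univ \ U, ch f2 f1 (nU G U p) := by
  classical
  obtain ⟨F, a1, a2⟩ := exv_eq (G := G) CL U
  rw [a2]
  have h1 : ∑ E ∈ F, fE CL G U E ≤ ∑ E ∈ F, f2 * (dds G U E).card := sum_le_sum fun E _ => by
    rcases fE_cases (G := G) CL U E with h | ⟨e, h2, h4, h3⟩
    · rw [h]; exact Nat.zero_le _
    · rw [h3]; exact hf e h2 E h4 _
  refine h1.trans ?_
  have h2 : (F.biUnion fun E => dds G U E).card = ∑ E ∈ F, (dds G U E).card := by
    refine card_biUnion fun A hA B hB hne => disjoint_left.2 ?_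
    intro z h3 h4
    exact two_two (a1.sub A hA) (a1.sub B hB) (a1.dj A hA B hB hne)
      (nU_le_two hI (mem_dds.1 h3).1) (mem_dds.1 h3).2 (mem_dds.1 h4).2
  rw [← mul_sum, ← h2]
  have h3 : (F.biUnion fun E => dds G U E) ⊆ univ \ U := by
    intro z hz
    obtain ⟨E, -, h4⟩ := mem_biUnion.1 hz
    exact mem_sdiff.2 ⟨mem_univ _, (mem_dds.1 h4).1⟩
  refine le_trans ?_ (sum_le_sum_of_subset h3)
  have h4 : ∀ z ∈ F.biUnion fun E => dds G U E, f2 ≤ ch f2 f1 (nU G U z) := fun z hz => by
    obtain ⟨E, h5, h6⟩ := mem_biUnion.1 hz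
    have h7 := nU_mono (G := G) (a1.sub E h5) z
    have h8 := nU_le_two hI (mem_dds.1 h6).1
    have h9 := (mem_dds.1 h6).2
    rw [show nU G U z = 2 by omega]
    exact le_rfl
  have h5 := sum_le_sum h4
  rw [sum_const, smul_eq_mul, mul_comm] at h5
  exact h5

/-! ### the patterns with a triangle -/

/-- the partner of a port -/
def prt (p k : ℕ) : ℕ := Nat.div (Nat.sub (dg p k) 2) 2

/-- two adjacent nodes with a common neighbour: behind a shared port or a node -/
def trp (q : ℕ × ℕ) : Bool :=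
  (List.range (3 * q.1)).any fun k => (List.range (3 * q.1)).any fun k' =>
    isD (dg q.2 k) && Nat.beq (Nat.div k 3) (Nat.div k' 3) &&
      (isL (dg q.2 k') && Nat.beq (Nat.div (prt q.2 k') 3) (Nat.div (prt q.2 k) 3) ||
        isD (dg q.2 k') && (List.range (3 * q.1)).any fun j =>
          Nat.beq (Nat.div j 3) (Nat.div (prt q.2 k) 3) && isD (dg q.2 j) &&
            Nat.beq (Nat.div (prt q.2 j) 3) (Nat.div (prt q.2 k') 3))

omit [Fintype V] [DecidableEq V] [DecidableRel G.Adj] in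
/-- such a pattern has a triangle -/
theorem trp_of (htf : TF3 G) {q : ℕ × ℕ} {U : Finset V} {φ ν : ℕ → V} (h : Emb G U q.1 q.2 φ ν) :
    trp q ≠ true := by
  intro ht
  unfold trp at ht
  obtain ⟨k, hk, ht⟩ := List.any_eq_true.1 ht
  obtain ⟨k', hk', ht⟩ := List.any_eq_true.1 ht
  rw [List.mem_range] at hk hk'
  simp only [Bool.and_eq_true, Bool.or_eq_true] at ht
  obtain ⟨⟨t1, t2⟩, t3⟩ := ht
  have e1 : k / 3 = k' / 3 := Nat.eq_of_beq_eq_true t2
  obtain ⟨l, hl⟩ := isD_iff.1 t1
  obtain ⟨a1, a2, a3, a4⟩ := h.dir k hk l hl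
  have e2 : prt q.2 k = l := by
    unfold prt
    rw [hl]
    change (2 + 2 * l - 2) / 2 = l
    omega
  have b1 := h.adj k hk
  rw [a3] at b1
  have b2 := h.adj k' hk'
  rw [← e1] at b2
  rcases t3 with ⟨t4, t5⟩ | ⟨t4, t5⟩
  · obtain ⟨m, hm⟩ := isL_iff.1 t4
    obtain ⟨c1, c2, c3, c4, c5⟩ := h.lnk k' hk' m hm
    have e3 : prt q.2 k' = m := by
      unfold prt
      rw [hm]
      change (3 + 2 * m - 2) / 2 = m
      omega
    rw [e2, e3] at t5
    have e4 : m / 3 = l / 3 := Nat.eq_of_beq_eq_true t5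
    have b3 := h.adj m c1
    rw [e4, c5] at b3
    exact htf _ _ _ b1 b3 b2
  · obtain ⟨m, hm⟩ := isD_iff.1 t4
    obtain ⟨c1, c2, c3, c4⟩ := h.dir k' hk' m hm
    have e3 : prt q.2 k' = m := by
      unfold prt
      rw [hm]
      change (2 + 2 * m - 2) / 2 = m
      omega
    obtain ⟨j, hj, t6⟩ := List.any_eq_true.1 t5
    rw [List.mem_range] at hj
    simp only [Bool.and_eq_true] at t6
    obtain ⟨⟨t7, t8⟩, t9⟩ := t6
    rw [e2] at t7
    have e4 : j / 3 = l / 3 := Nat.eq_of_beq_eq_true t7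
    obtain ⟨i, hi⟩ := isD_iff.1 t8
    obtain ⟨d1, d2, d3, d4⟩ := h.dir j hj i hi
    have e5 : prt q.2 j = i := by
      unfold prt
      rw [hi]
      change (2 + 2 * i - 2) / 2 = i
      omega
    rw [e3, e5] at t9
    have e6 : i / 3 = m / 3 := Nat.eq_of_beq_eq_true t9
    have b3 := h.adj j hj
    rw [e4, d3, e6] at b3
    rw [c3] at b2
    exact htf _ _ _ b1 b3 b2

/-- the values are at most `13` for every dead link vertex, and `9` for a piece without a triangle -/
def f13 (CL : List CPc) : Bool := CL.all fun e =>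
  ((List.range e.2.length).all fun d => Nat.ble (e.2.getD d 0) (13 * d)) &&
    (trp e.1 || (List.range e.2.length).all fun d => Nat.ble (e.2.getD d 0) (9 * d))

theorem cfv_le {e : CPc} {m : ℕ} (h : ((List.range e.2.length).all fun d => Nat.ble (e.2.getD d 0) (m * d)) = true) :
    ∀ d, cfv e d ≤ m * d := by
  intro d
  unfold cfv
  rcases Nat.lt_or_ge d e.2.length with h1 | h1
  · exact Nat.le_of_ble_eq_true (List.all_eq_true.1 h d (List.mem_range.2 h1))
  · rw [List.getD_eq_default _ _ h1]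
    exact Nat.zero_le _

/-- **the comparison from the bound** -/
theorem compare_T {tf : Bool} {bo : Bool} {CL : List CPc} (h9 : f13 CL = true)
    (h : ∀ (W : Type) [Fintype W] [DecidableEq W] (H : SimpleGraph W) [DecidableRel H.Adj],
      H.IsRegularOfDegree 3 → H.Connected → (tf = true → TF3 H) → Bnd bo CL [] H)
    (V : Type) [Fintype V] [DecidableEq V] (G : SimpleGraph V) [DecidableRel G.Adj]
    (hG : G.IsRegularOfDegree 3) (htf : tf = true → TF3 G) : upperMinus G ≤ upperSigned G := by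
  refine compare_of_classD (fun {W} (H : SimpleGraph W) => tf = true → TF3 H)
    (fun W _ _ H _ h1 h2 h3 h4 => ?_) hG ?_
  · have := h2.nonempty
    have b2 : ∀ U : Finset W, Inv H U → U ≠ univ →
        ∃ m, Has H U m ∧ 84 * m ≤ PsiT (fw.iso 12) H U + 6 * dpn H U + exv CL H U := fun U a b => by
      obtain ⟨k, c1, c2⟩ := h W H h1 h2 h4 U a b fun q hq => absurd hq List.not_mem_nil
      exact ⟨k, c1, by omega⟩
    have key : ∃ S : Finset W, Pk H S ∧ Mx H univ S ∧
        84 * S.card ≤ 18 * Fintype.card W + 6 * dpn H univ + 66 := by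
      by_cases ht : ∃ v a b, H.Adj v a ∧ H.Adj a b ∧ H.Adj v b
      · obtain ⟨v, a, b, t1, t2, t3⟩ := ht
        refine packN h1 (f2 := 13) (f1 := 9) (κ := 13) v (B2_card_tri h1 t1 t2 t3) (by norm_num) le_rfl
          le_rfl (exv CL H) (fun U hI => exv_outN (fun e he E _ => ?_) hI) b2
        have h5 := List.all_eq_true.1 h9 e he
        rw [Bool.and_eq_true] at h5
        exact cfv_le h5.1
      · obtain ⟨v⟩ := this
        have htf' : TF3 H := fun a b c x y z => ht ⟨a, b, c, x, y, z⟩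
        refine packN h1 (f2 := 9) (f1 := 5) (κ := 9) v (B2_card h1 v) (by norm_num) le_rfl
          le_rfl (exv CL H) (fun U hI => exv_outN (fun e he E hp => ?_) hI) b2
        have h5 := List.all_eq_true.1 h9 e he
        rw [Bool.and_eq_true, Bool.or_eq_true] at h5
        rcases h5.2 with h6 | h6
        · obtain ⟨φ, ν, h7, -⟩ := hp
          exact absurd h6 (trp_of htf' h7)
        · exact cfv_le h6
    obtain ⟨S, a1, a2, a3⟩ := key
    refine ⟨S, a1, a2, ?_⟩
    have h5 := dpn_le_mids h1 h3 univ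
    have h6 := Nat.mul_le_mul_right (dpn H univ) (show 6 ≤ 9 by norm_num)
    omega
  · intro k h a b c hab hbc hac
    exact htf h _ _ _ hab hbc hac

/-- **the comparison from one chain**, `tf = false`: for all cubic graphs -/
theorem compare_W {tf : Bool} {bo : Bool} {CL : List CPc} (h9 : f13 CL = true) {dn : List (ℕ × ℕ)}
    (h : Dn bo CL tf [] dn) (hB : (1, 1) ∈ dn) (hC : (2, 9 + 3 * 256 ^ 3) ∈ dn)
    (V : Type) [Fintype V] [DecidableEq V] (G : SimpleGraph V) [DecidableRel G.Adj]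
    (hG : G.IsRegularOfDegree 3) (htf : tf = true → TF3 G) : upperMinus G ≤ upperSigned G :=
  compare_T h9 (fun _ _ _ _ _ h1 h2 h3 => h.bnd hB hC h1 h2 h3) V G hG htf

end EF18
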