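import Pool.Agent.Lib.MP_ef18bd_co.P.Pc

/-!
# The roots at the pieces

A piece `(n, p)` of the set `E ⊆ U`. In `U` the lonely ports of the piece are open, and every link vertex is either outside `U` (the
link is dead, the digit stays) or in `U` (the link is live: a new node with two direct ports and one open port). `rt q S`: the pattern
with the live links `S`; `root4`: one of these patterns is embedded in `U`.
-/

namespace EF18

open Finset

variable {V : Type} [Fintype V] [DecidableEq V] {G : SimpleGraph V} [DecidableRel G.Adj]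

/-- the number with the digits `f` -/
def mkd (f : ℕ → ℕ) : ℕ → ℕ
  | 0 => 0
  | n + 1 => mkd f n + f n * 256 ^ n

theorem dg_mkd {f : ℕ → ℕ} (hf : ∀ k, f k < 256) (n k : ℕ) :
    dg (mkd f n) k = if k < n then f k else 0 := by
  induction n generalizing k with
  | zero => simp [mkd, dg]
  | succ n ih =>
    rw [mkd, dg_add (by rw [ih, if_neg (lt_irrefl _)]) (hf n)]
    by_cases h : k = n
    · subst h
      rw [if_pos rfl, if_pos (Nat.lt_succ_self _)]
    · rw [if_neg h, ih]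
      by_cases h2 : k < n
      · rw [if_pos h2, if_pos (by omega)]
      · rw [if_neg h2, if_neg (by omega)]

/-- the smaller ports of the links -/
def lkp (q : ℕ × ℕ) : List ℕ :=
  (List.range (3 * q.1)).filter fun k => isL (dg q.2 k) && decide (k < (dg q.2 k - 3) / 2)

/-- the digits of the root without the new nodes -/
def rtd (p : ℕ) (S : List ℕ) (k : ℕ) : ℕ :=
  if isD (dg p k) = true then dg p k else
  if isL (dg p k) = true ∧ min k ((dg p k - 3) / 2) ∉ S then dg p k else 0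

/-- the new nodes -/
def rtA (p : ℕ) : List ℕ → ℕ × ℕ → ℕ × ℕ
  | [], s => s
  | k :: L, s => rtA p L (s.1 + 1, s.2 + (2 + 2 * (3 * s.1)) * 256 ^ k + (2 + 2 * k) * 256 ^ (3 * s.1) +
      (2 + 2 * (3 * s.1 + 1)) * 256 ^ ((dg p k - 3) / 2) +
      (2 + 2 * ((dg p k - 3) / 2)) * 256 ^ (3 * s.1 + 1))

/-- the root at the piece `q` with the live links `S` -/
def rt (q : ℕ × ℕ) (S : List ℕ) : ℕ × ℕ := rtA q.2 S (q.1, mkd (rtd q.2 S) (3 * q.1))

theorem rtd_lt (p : ℕ) (S : List ℕ) (k : ℕ) : rtd p S k < 256 := by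
  unfold rtd
  split_ifs
  · exact dg_lt p k
  · exact dg_lt p k
  · norm_num

theorem mem_lkp {q : ℕ × ℕ} {k : ℕ} :
    k ∈ lkp q ↔ k < 3 * q.1 ∧ ∃ l, dg q.2 k = 3 + 2 * l ∧ k < l := by
  rw [lkp, List.mem_filter, List.mem_range, Bool.and_eq_true, decide_eq_true_eq, isL_iff]
  constructor
  · rintro ⟨h1, ⟨l, hl⟩, h2⟩
    exact ⟨h1, l, hl, by rw [hl] at h2; omega⟩
  · rintro ⟨h1, l, hl, h2⟩
    exact ⟨h1, ⟨l, hl⟩, by rw [hl]; omega⟩

theorem nodup_lkp (q : ℕ × ℕ) : (lkp q).Nodup := List.nodup_range.filter _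

theorem not_isD (k : ℕ) : ¬ isD (3 + 2 * k) = true := fun h => by
  obtain ⟨l, hl⟩ := isD_iff.1 h
  omega

/-- the new nodes are embedded -/
theorem rtA_emb (hG : G.IsRegularOfDegree 3) {U : Finset V} {n p : ℕ} {φ ν : ℕ → V}
    (hinj : ∀ i < n, ∀ j < n, φ i = φ j → i = j) (hadj : ∀ k < 3 * n, G.Adj (φ (k / 3)) (ν k)) :
    ∀ (L : List ℕ) (m r : ℕ) (φ' ν' : ℕ → V), Emb G U m r φ' ν' → n ≤ m → m + L.length ≤ 40 →
      (∀ i < n, φ' i = φ i) → (∀ k < 3 * n, ν' k = ν k) → L.Nodup →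
      (∀ k ∈ L, k < 3 * n ∧ ν k ∈ U ∧ (∀ i < m, φ' i ≠ ν k) ∧ dg r k = 0 ∧
        ∃ l, dg p k = 3 + 2 * l ∧ k < l ∧ l < 3 * n ∧ dg p l = 3 + 2 * k ∧ l / 3 ≠ k / 3 ∧ ν l = ν k ∧
          dg r l = 0) → (∀ k ∈ L, ∀ k' ∈ L, ν k = ν k' → k = k') →
      ∃ φ'' ν'' : ℕ → V, Emb G U (rtA p L (m, r)).1 (rtA p L (m, r)).2 φ'' ν'' ∧
        (∀ i < n, φ'' i = φ i) ∧ ∀ k < 3 * n, ν'' k = ν k := by
  intro L
  induction L with
  | nil =>
    intro m r φ' ν' h _ _ hφ hν _ _ _
    exact ⟨φ', ν', h, hφ, hν⟩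
  | cons k L ih =>
    intro m r φ' ν' h hnm h40 hφ hν hnd hL hνi
    obtain ⟨hk, hkU, hknew, hk0, l, hkl, hlt, hl, hlk, hne, hνl, hl0⟩ := hL k (List.mem_cons_self ..)
    rw [List.length_cons] at h40
    have hadjk : G.Adj (ν k) (φ (k / 3)) := (hadj k hk).symm
    have hadjl : G.Adj (ν k) (φ (l / 3)) := by
      have := (hadj l hl).symm
      rwa [hνl] at this
    obtain ⟨φ1, ν1, e1, a1, a2, a3, a4⟩ := h.extend hG hkU hknew hadjk
    have b1 : ∀ i < n, φ1 i = φ i := fun i hi => by rw [a1 i (by omega), hφ i hi]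
    have b2 : ∀ j < 3 * n, ν1 j = ν j := fun j hj => by rw [a2 j (by omega), hν j hj]
    have c1 : k ≠ 3 * m := by omega
    have z0 : dg r (3 * m) = 0 := h.zero _ (by omega)
    have e2 := e1.set_dir (k := k) (l := 3 * m) (by omega) (by omega) (by omega) c1 hk0 z0
      (by rw [show 3 * m / 3 = m by omega, a3, b2 k hk]) (by rw [a4, b1 _ (by omega)])
    obtain ⟨k2, d1, d2, d3⟩ := e2.surj hG (i := m) (y := φ (l / 3)) (by omega) (by rw [a3]; exact hadjl)
    have hk2 : k2 ≠ 3 * m := by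
      rintro rfl
      rw [a4] at d3
      exact hne (hinj _ (by omega) _ (by omega) d3).symm
    have hdg2 : ∀ j, dg (r + (2 + 2 * (3 * m)) * 256 ^ k + (2 + 2 * k) * 256 ^ (3 * m)) j =
        if j = 3 * m then 2 + 2 * k else if j = k then 2 + 2 * (3 * m) else dg r j :=
      dg_pair c1 hk0 z0 (by omega) (by omega)
    have z1 : ∀ j, 3 * m < j → dg (r + (2 + 2 * (3 * m)) * 256 ^ k + (2 + 2 * k) * 256 ^ (3 * m)) j = 0 := by
      intro j hj
      rw [hdg2, if_neg (by omega), if_neg (by omega)]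
      exact h.zero _ (by omega)
    have z2 : dg (r + (2 + 2 * (3 * m)) * 256 ^ k + (2 + 2 * k) * 256 ^ (3 * m)) l = 0 := by
      rw [hdg2, if_neg (by omega), if_neg (by omega)]
      exact hl0
    have e3 := e2.swap (b := 3 * m + 1) (c := k2) (by omega) d2 (by omega) (z1 _ (by omega))
      (z1 _ (by omega))
    have s1 : ∀ j < 3 * m, Equiv.swap (3 * m + 1) k2 j = j := fun j hj =>
      Equiv.swap_apply_of_ne_of_ne (by omega) (by omega)
    have e4 := e3.set_dir (k := l) (l := 3 * m + 1) (by omega) (by omega) (by omega) (by omega) z2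
      (z1 _ (by omega))
      (by rw [s1 l (by omega), show (3 * m + 1) / 3 = m by omega, a3, b2 l hl, hνl])
      (by rw [Equiv.swap_apply_left, d3, b1 _ (by omega)])
    have hL2 : (dg p k - 3) / 2 = l := by omega
    have hdg4 := dg_pair (p := r + (2 + 2 * (3 * m)) * 256 ^ k + (2 + 2 * k) * 256 ^ (3 * m)) (k := l)
      (l := 3 * m + 1) (c := 2 + 2 * (3 * m + 1)) (d := 2 + 2 * l) (by omega) z2 (z1 _ (by omega))
      (by omega) (by omega)
    have hnd' := List.nodup_cons.1 hnd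
    have key := ih (m + 1) _ φ1 _ e4 (by omega) (by omega) b1 (fun j hj => by
        rw [s1 j (by omega), b2 j hj]) hnd'.2
      (fun k' hk' => by
        obtain ⟨f1, f2, f3, f4, l', f5, f6, f7, f8, f9, f10, f11⟩ := hL k' (List.mem_cons_of_mem _ hk')
        have g1 : k' ≠ k := fun e => hnd'.1 (e ▸ hk')
        have g2 : k' ≠ l := by
          rintro rfl
          rw [hlk] at f5
          omega
        have g3 : l' ≠ k := by
          rintro rfl
          rw [hkl] at f8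
          omega
        have g4 : l' ≠ l := by
          rintro rfl
          rw [hlk] at f8
          omega
        refine ⟨f1, f2, fun i hi => ?_, ?_, l', f5, f6, f7, f8, f9, f10, ?_⟩
        · rcases Nat.lt_succ_iff_lt_or_eq.1 hi with h1 | rfl
          · rw [a1 i h1]
            exact f3 i h1
          · rw [a3]
            exact fun e => g1 (hνi k (List.mem_cons_self ..) k' (List.mem_cons_of_mem _ hk') e).symm
        · rw [hdg4, if_neg (by omega), if_neg g2, hdg2, if_neg (by omega), if_neg g1]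
          exact f4
        · rw [hdg4, if_neg (by omega), if_neg g4, hdg2, if_neg (by omega), if_neg g3]
          exact f11)
      (fun x hx y hy => hνi x (List.mem_cons_of_mem _ hx) y (List.mem_cons_of_mem _ hy))
    rw [rtA, hL2]
    exact key

/-- **the root at an embedded piece** -/
theorem Emb.root4 (hG : G.IsRegularOfDegree 3) {E U : Finset V} (hEU : E ⊆ U) {q : ℕ × ℕ}
    (hp : full1 q.1 q.2) (h40 : q.1 + (lkp q).length ≤ 40) {φ ν : ℕ → V} (h : Emb G E q.1 q.2 φ ν)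
    (hE : ∀ x ∈ E, ∃ i < q.1, φ i = x) :
    ∃ φ' ν' : ℕ → V, Emb G U (rt q ((lkp q).filter fun k => ν k ∈ U)).1
      (rt q ((lkp q).filter fun k => ν k ∈ U)).2 φ' ν' ∧
      (∀ i < q.1, φ' i = φ i) ∧ ∀ k < 3 * q.1, ν' k = ν k := by
  classical
  obtain ⟨n, p⟩ := q
  dsimp only at *
  have hI : Inv G E := Pc.inv hG hp ⟨φ, ν, h, hE⟩
  obtain ⟨S, hS⟩ : ∃ S, S = (lkp (n, p)).filter fun k => ν k ∈ U := ⟨_, rfl⟩
  rw [← hS]
  have hmS : ∀ k, k ∈ S ↔ (k < 3 * n ∧ ∃ l, dg p k = 3 + 2 * l ∧ k < l) ∧ ν k ∈ U := by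
    intro k
    rw [hS, List.mem_filter, mem_lkp, decide_eq_true_eq]
  have hd : ∀ k, dg (mkd (rtd p S) (3 * n)) k = if k < 3 * n then rtd p S k else 0 :=
    dg_mkd (rtd_lt p S) _
  -- the embedding without the new nodes
  have hb : Emb G U n (mkd (rtd p S) (3 * n)) φ ν := by
    refine ⟨fun i hi => hEU (h.mem i hi), h.inj, h.adj, h.pinj, fun k hk => ?_, fun k hk e => ?_,
      fun k hk l e => ?_, fun k hk l e => ?_⟩
    · rw [hd, if_neg (by omega)]
    · rw [hd, if_pos hk] at e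
      unfold rtd at e
      split_ifs at e with h1 h2
      · obtain ⟨l, hl⟩ := isD_iff.1 h1
        omega
      · obtain ⟨l, hl⟩ := isL_iff.1 h2.1
        omega
    · rw [hd, if_pos hk] at e
      unfold rtd at e
      split_ifs at e with h1 h2
      · obtain ⟨a1, a2, a3, a4⟩ := h.dir k hk l e
        refine ⟨a1, ?_, a3, a4⟩
        rw [hd, if_pos a1, rtd, a2, if_pos (isD_iff.2 ⟨k, rfl⟩)]
      · obtain ⟨l', hl'⟩ := isL_iff.1 h2.1
        omega
      · omega
    · rw [hd, if_pos hk] at e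
      unfold rtd at e
      split_ifs at e with h1 h2
      · obtain ⟨l', hl'⟩ := isD_iff.1 h1
        omega
      · obtain ⟨a1, a2, a3, a4, a5⟩ := h.lnk k hk l e
        have hm : min k l ∉ S := by
          have := h2.2
          rwa [e, show (3 + 2 * l - 3) / 2 = l by omega] at this
        refine ⟨a1, ?_, a3, fun hU => hm ?_, a5⟩
        · have h4 : min l ((3 + 2 * k - 3) / 2) ∉ S := by
            rw [show (3 + 2 * k - 3) / 2 = k by omega, min_comm]
            exact hm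
          rw [hd, if_pos a1, rtd, a2, if_neg (not_isD k), if_pos ⟨isL_iff.2 ⟨k, rfl⟩, h4⟩]
        · rw [hmS]
          rcases Nat.lt_or_ge k l with h3 | h3
          · rw [min_eq_left h3.le]
            exact ⟨⟨hk, l, e, h3⟩, hU⟩
          · rw [min_eq_right h3]
            refine ⟨⟨a1, k, a2, lt_of_le_of_ne h3 fun e' => a3 (by rw [e'])⟩, by rw [a5]; exact hU⟩
      · omega
  have hlen : n + S.length ≤ 40 := by
    have := List.length_filter_le (fun k => decide (ν k ∈ U)) (lkp (n, p))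
    rw [← hS] at this
    omega
  have hL : ∀ k ∈ S, k < 3 * n ∧ ν k ∈ U ∧ (∀ i < n, φ i ≠ ν k) ∧ dg (mkd (rtd p S) (3 * n)) k = 0 ∧
        ∃ l, dg p k = 3 + 2 * l ∧ k < l ∧ l < 3 * n ∧ dg p l = 3 + 2 * k ∧ l / 3 ≠ k / 3 ∧ ν l = ν k ∧
          dg (mkd (rtd p S) (3 * n)) l = 0 := by
    intro k hkS
    obtain ⟨⟨hk, l, e, hlt⟩, hU⟩ := (hmS k).1 hkS
    obtain ⟨a1, a2, a3, a4, a5⟩ := h.lnk k hk l e
    refine ⟨hk, hU, fun i hi e' => a4 (by rw [← e']; exact h.mem i hi), ?_, l, e, hlt, a1, a2, a3, a5, ?_⟩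
    · have h4 : min k ((3 + 2 * l - 3) / 2) ∈ S := by
        rw [show (3 + 2 * l - 3) / 2 = l by omega, min_eq_left hlt.le]
        exact hkS
      rw [hd, if_pos hk, rtd, e, if_neg (not_isD l), if_neg (fun h3 => h3.2 h4)]
    · have h4 : min l ((3 + 2 * k - 3) / 2) ∈ S := by
        rw [show (3 + 2 * k - 3) / 2 = k by omega, min_eq_right hlt.le]
        exact hkS
      rw [hd, if_pos a1, rtd, a2, if_neg (not_isD k), if_neg (fun h3 => h3.2 h4)]
  have hνi : ∀ k ∈ S, ∀ k' ∈ S, ν k = ν k' → k = k' := by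
    intro k hk k' hk' e
    obtain ⟨b1, -, -, -, l, b2, b3, b4, b5, b6, b8, -⟩ := hL k hk
    obtain ⟨c1, -, -, -, l', c2, c3, c4, c5, c6, c8, -⟩ := hL k' hk'
    have b7 : ν k ∉ E := (h.lnk k b1 l b2).2.2.2.1
    have t := hI.two b7 (h.mem (k / 3) (by omega)) (h.mem (l / 3) (by omega))
      (fun e => b6 (h.inj _ (by omega) _ (by omega) e).symm) (h.adj k b1).symm
      (by have := (h.adj l b4).symm; rwa [b8] at this) (y := φ (k' / 3)) (h.mem (k' / 3) (by omega))
      (by have := (h.adj k' c1).symm; rwa [← e] at this)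
    rcases t with t | t
    · exact (h.pinj k' c1 k b1 (h.inj _ (by omega) _ (by omega) t) e.symm).symm
    · have h3 : k' = l := h.pinj k' c1 l b4 (h.inj _ (by omega) _ (by omega) t) (by rw [← e, b8])
      rw [h3, b5] at c2
      omega
  exact rtA_emb hG h.inj h.adj S n _ φ ν hb le_rfl hlen (fun _ _ => rfl) (fun _ _ => rfl)
    (by rw [hS]; exact (nodup_lkp _).filter _) hL hνi

/-- **the roots at a piece** -/
theorem root4 (hG : G.IsRegularOfDegree 3) {E U : Finset V} (hEU : E ⊆ U) {q : ℕ × ℕ}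
    (hp : full1 q.1 q.2) (h40 : q.1 + (lkp q).length ≤ 40) (h : Pc G E q.1 q.2) :
    ∃ S ∈ (lkp q).sublists, ∃ φ ν : ℕ → V, Emb G U (rt q S).1 (rt q S).2 φ ν := by
  classical
  obtain ⟨φ, ν, h, hE⟩ := h
  obtain ⟨φ', ν', h', -, -⟩ := h.root4 hG hEU hp h40 hE
  exact ⟨_, List.mem_sublists.2 List.filter_sublist, φ', ν', h'⟩

end EF18
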