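import Pool.Agent.Lib.MP_ef18bd_co.P.Fr5
import Pool.Agent.Lib.MP_ef18bd_co.P.Root4

/-!
# The flat step and the closing of the roots at the pieces

`st0`: the step for the flat potential `fw.iso 12` without bonus, `snd_st0`. `ClV`: a pattern is closed whenever
the step is sound. `rtl`: the roots at a list of pieces; `rtl_close`: they are closed by a list of closed
patterns and tokens. `mid15`: the middle phase.
-/

namespace EF18

open Finset

variable {V : Type} [Fintype V] [DecidableEq V] {G : SimpleGraph V} [DecidableRel G.Adj]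

/-! ### the flat step -/

theorem pos_f : fw.Pos where
  pos := fun a c s q h1 h2 h3 => by
    show s * (if s = 2 then 9 else if s = 1 then 18 else 0) + q * 9 ≤ 18 + (3 - a - c) * 9 + c * 18
    have h4 : s * (if s = 2 then 9 else if s = 1 then 18 else 0) ≤ 18 := by
      have h5 : s = 0 ∨ s = 1 ∨ s = 2 := by omega
      rcases h5 with rfl | rfl | rfl <;> simp
    have h6 : q * 9 ≤ (3 - a - c) * 9 := Nat.mul_le_mul_right _ (by omega)
    omega

/-- the table of the removed nodes -/
def tKf : ℕ := 31004070703427728997515719867378600846396814481681239320408253699864222811571301569388234391034471928912300817948012345282978508204997541197733037156857247138930394248025102596146472213719255842063956115982217483888547385107586984244436939385144577445121679790848062872753344111993793155743598092670675393361440813289831315375407493889102532624672784821511930032099962552185938314787264064278271528325148444096423964708224738205656687341432702368485291134857940668751822110094793643374309313291254914043756966687105939346446033523918542550973954627290350541913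907115059217333266801325945425085765439495097240499872785573271198190075750240014688757596903267879930584491508057919624481074878563182442496587903615626626592282113289925077693160969290861437457138286172278095037345154082200617325554085058421701932118923443329062981695869609263757406190321102781862326107089630518127443552080973186738903412369505556574861009888084743286608911973511267119793397221165846889392376935740371414141817306321797763976821710977014229198742221810627160060387519261421031463288035516430837776306260940912800696899371557809684516000398808685782695650853548602731877998255767970166078840287317016642766719427176567665555274863193406810336847617623845717392412235834275171984815801300358190680666798366624331399827279342967497603191669241784287166926113855048359936209131967002355689316828934533235013850005684818814312689012564843373279485322093821293689485563542266840234871243337531915973456400641932616625097519825801667673018254646510629835159493363658191005325454890482349120942609294857826448526880586894365611352985483298467137227794546748148959966024302592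

/-- the table of the inner nodes -/
def tIf : ℕ := 310040706962091964805247811312709846489357925711454119078364592361625234858107436766233441709895697440866033862195114424247460617485173251048728486890938300787038329194522021957824827171635173133798918545189017287187818481592600027071399332928792329696749575590302411616565921229082903559796065711009030061667248998061451536001143209620164153362949665342282017822954282400060324600292538908505211529018029862300815235807185909635402732711047280436701898404200845390468361135222317901867493436126574537362829218808149158152830444418378380576787621977382325291899783682955126531190078219630148930212840185252197982883022712705250695315811747678102462992304107201565260620923273219907368674678046054044328993065680487117294906307224867741293952771557794846762935410203021673615441035489923118336117233102544796075986914910314568967483154950176078069423000685536622851203347333154385466973077244761603510858117133506160391899494220128761499707181518789010823575280196436893797286197356266398629459679854634791674336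03826969411798948928109901267244862435267711380523689200885359586184549166996526058382295410291985541386725857738320838563085052428421637054241808546493082555103170373602607025742473018781054552151175428202009556028666028921405306879008185542565436196389336057124278200085970730723858756345774993350589634060182152105084323340339011458491498855893145934912654735446458612755919561801346958866125811239173828166331453459407480928858331038007275710642277617035443942985893796705108845499785327781942615925091112587782985461742468793760518920310412497501791956344331514837385494846826163679759128991989292438118019840878328092703325723820050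

theorem tabK_f : TabK fw 0 tKf := by
  have h : tabB false fw tKf = true := by decide +kernel
  intro x hx y hy z hz x' hx' y' hy' z' hz'
  rw [add_zero]
  exact tabB_of h x hx y hy z hz x' hx' y' hy' z' hz' (fun e => absurd e (by decide))

theorem tabKI_f : TabKI fw 0 tIf := by
  have h : tabB true fw tIf = true := by decide +kernel
  intro x hx y hy z hz x' hx' y' hy' z' hz' h0
  rw [add_zero]
  have h1 := tabB_of h x hx y hy z hz x' hx' y' hy' z' hz' (fun _ => h0)
  omega

/-- the step before the filter -/
def raw0 (D : ℕ) (PL : List (ℕ × ℕ)) (n p x : ℕ) : Option (List (ℕ × ℕ)) :=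
  frc (Nat.mod x 4) fun r => frc (Nat.div x 4) fun y =>
    bif Nat.beq r 0 then branch (Nat.ble 1 D) n p y else
    bif Nat.beq r 1 then evb 84 0 tKf tIf D 12 n p (pkl y) else
    bif Nat.beq r 2 then evl 84 0 tKf tIf D 12 n p (pkl y) else pst PL n p y

/-- the step -/
def st0 (D : ℕ) (tf : Bool) (PL : List (ℕ × ℕ)) : Stp := flt (okB D tf) (raw0 D PL)

/-- a port branching -/
theorem branch_D (hG : G.IsRegularOfDegree 3) {U : Finset V} (hI : Inv G U) {D : ℕ}
    (hD : ∀ x ∈ U, n1 G U x ≤ D) {n p k : ℕ} {L : List (ℕ × ℕ)} (hL : branch (Nat.ble 1 D) n p k = some L)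
    {φ ν : ℕ → V} (h : Emb G U n p φ ν) : ∃ q ∈ L, Ch G U n φ q := by
  refine branch_ch hG hI (d := Nat.ble 1 D) ?_ hL h
  by_cases hD1 : 1 ≤ D
  · exact Or.inl (Nat.ble_eq_true_of_le hD1)
  · right
    intro y hy z hz hyz
    by_contra hno
    push Not at hno
    have h1 : y ∈ (G.neighborFinset z \ U).filter fun y => nU G U y = 1 := by
      rw [mem_filter, mem_sdiff, SimpleGraph.mem_neighborFinset]
      refine ⟨⟨hyz.symm, hy⟩, card_eq_one.2 ⟨z, ?_⟩⟩
      rw [eq_singleton_iff_unique_mem]
      refine ⟨mem_inter.2 ⟨(SimpleGraph.mem_neighborFinset _ _ _).2 hyz, hz⟩, fun z' hz' => ?_⟩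
      rw [mem_inter, SimpleGraph.mem_neighborFinset] at hz'
      by_contra hne
      exact hno z' hz'.2 hne hz'.1
    have h2 : 0 < n1 G U z := card_pos.2 ⟨y, h1⟩
    have := hD z hz
    omega

/-- a piece of the list gives a contradiction -/
theorem pst_no (hG : G.IsRegularOfDegree 3) {U : Finset V} (hI : Inv G U) {PL : List (ℕ × ℕ)}
    (hPL : PL.all wfp = true) (hcl : NoP G PL U) {n p y : ℕ} {L : List (ℕ × ℕ)}
    (hL : pst PL n p y = some L) {φ ν : ℕ → V} (h : Emb G U n p φ ν) : False := by
  unfold pst at hL
  rw [frc_eq, frc_eq] at hL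
  cases hc : Nat.ble (Nat.succ (Nat.mod y 64)) PL.length &&
    pcok n p (PL.getD (Nat.mod y 64) (0, 0)) (Nat.mod (Nat.div y 64) (256 ^ 26))
      (Nat.div (Nat.div y 64) (256 ^ 26))
  · rw [hc, cond_false] at hL
    exact absurd hL (by simp)
  rw [Bool.and_eq_true] at hc
  obtain ⟨c1, c2⟩ := hc
  have hlt : Nat.mod y 64 < PL.length := Nat.le_of_ble_eq_true c1
  have hq : PL.getD (Nat.mod y 64) (0, 0) ∈ PL := by
    rw [List.getD_eq_getElem _ _ hlt]
    exact List.getElem_mem hlt
  obtain ⟨d1, d2⟩ := pc_emb hG hI (List.all_eq_true.1 hPL _ hq) c2 h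
  exact hcl _ hq _ d2 d1

/-- the filter is sound -/
theorem Emb.okB (hG : G.IsRegularOfDegree 3) {U : Finset V} {D : ℕ} {tf : Bool}
    (hD : ∀ x ∈ U, n1 G U x ≤ D) (htf : tf = true → TF3 G) {n p : ℕ} {φ ν : ℕ → V}
    (h : Emb G U n p φ ν) : EF18.okB D tf n p = true := by
  unfold EF18.okB
  rw [h.okD hG hD, Bool.true_and]
  cases htf' : tf
  · rfl
  · rw [Bool.not_true, Bool.false_or]
    exact h.okT (htf htf')

/-- **the flat step is sound** -/
theorem snd_st0 (hG : G.IsRegularOfDegree 3) {U : Finset V} (hI : Inv G U) {D : ℕ} {tf : Bool}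
    {PL : List (ℕ × ℕ)} (hPL : PL.all wfp = true) (hD : ∀ x ∈ U, n1 G U x ≤ D)
    (htf : tf = true → TF3 G) (hcl : NoP G PL U) :
    Snd G U (∃ c, c ≠ 0 ∧ GoodT (fw.iso 12) 84 G U c) (st0 D tf PL) := by
  refine snd_flt (fun n p φ ν h => h.okB hG hD htf) fun n p x L hL φ ν h => ?_
  unfold raw0 at hL
  rw [frc_eq, frc_eq] at hL
  cases r0 : Nat.beq (Nat.mod x 4) 0
  swap
  · rw [r0, cond_true] at hL
    obtain ⟨q, hq, -, φ', ν', h1, -⟩ := branch_D hG hI hD hL h
    exact Or.inr ⟨q, hq, φ', ν', h1⟩
  rw [r0, cond_false] at hL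
  cases r1 : Nat.beq (Nat.mod x 4) 1
  swap
  · rw [r1, cond_true] at hL
    rcases evb_ch hG pos_f tabK_f tabKI_f hI hD hL h with h1 | ⟨q, hq, -, φ', ν', h1, -⟩
    · exact Or.inl ⟨_, pkl_ne _, h1⟩
    · exact Or.inr ⟨q, hq, φ', ν', h1⟩
  rw [r1, cond_false] at hL
  cases r2 : Nat.beq (Nat.mod x 4) 2
  swap
  · rw [r2, cond_true] at hL
    rcases evl_ch hG pos_f tabK_f tabKI_f hI hD hL h with h1 | ⟨q, hq, -, φ', ν', h1, -⟩
    · exact Or.inl ⟨_, pkl_ne _, h1⟩
    · exact Or.inr ⟨q, hq, φ', ν', h1⟩
  rw [r2, cond_false] at hL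
  exact absurd (pst_no hG hI hPL hcl hL h) not_false

/-! ### the roots at the pieces -/

/-- the pattern is closed whenever the step is sound -/
def ClV (st : Stp) (q : ℕ × ℕ) : Prop :=
  ∀ {V : Type} [Fintype V] [DecidableEq V] (G : SimpleGraph V) [DecidableRel G.Adj]
    (U : Finset V) (Q : Prop), Snd G U Q st → Cl G U Q q

/-- the roots at the piece `q`, all sets of live links -/
def rtq (q : ℕ × ℕ) : List (ℕ × ℕ) := (lkp q).sublists.map fun S => rt q S

/-- the roots at the pieces of a list which pass the filter -/
def rtl (D : ℕ) (tf : Bool) (PL : List (ℕ × ℕ)) : List (ℕ × ℕ) :=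
  (PL.flatMap rtq).filter fun q => okB D tf q.1 q.2

/-- the check of a list of pieces for the roots -/
def pcl (PL : List (ℕ × ℕ)) : Prop := ∀ q ∈ PL, full1 q.1 q.2 ∧ q.1 + (lkp q).length ≤ 40

instance (PL : List (ℕ × ℕ)) : Decidable (pcl PL) := by unfold pcl; infer_instance

/-- a piece gives an embedded root -/
theorem rtl_emb (hG : G.IsRegularOfDegree 3) {U E : Finset V} (hE : E ⊆ U) {D : ℕ} {tf : Bool}
    (hD : ∀ x ∈ U, n1 G U x ≤ D) (htf : tf = true → TF3 G) {PL : List (ℕ × ℕ)} (hPL : pcl PL)
    {q : ℕ × ℕ} (hq : q ∈ PL) (h : Pc G E q.1 q.2) :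
    ∃ r ∈ rtl D tf PL, ∃ φ ν : ℕ → V, Emb G U r.1 r.2 φ ν := by
  obtain ⟨S, hS, φ, ν, h1⟩ := root4 hG hE (hPL q hq).1 (hPL q hq).2 h
  refine ⟨rt q S, List.mem_filter.2 ⟨List.mem_flatMap.2 ⟨q, hq, List.mem_map.2 ⟨S, hS, rfl⟩⟩, ?_⟩, φ, ν, h1⟩
  exact h1.okB hG hD htf

/-- the roots are closed by the list `rs` of closed patterns and the tokens `ts` -/
theorem rts_close {st : Stp} {rs : List (ℕ × ℕ)} (hrs : ∀ q ∈ rs, Val st q) {L : List (ℕ × ℕ)} {ts : List ℕ}
    (h : clsL st rs L ts = true) : ∀ q ∈ L, ClV st q :=
  fun q hq _ _ _ _ _ _ _ hst => clsL_sound hrs hst h q hq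

/-- the conclusion at a state with a piece -/
theorem rts_use (hG : G.IsRegularOfDegree 3) {U E : Finset V} (hE : E ⊆ U) {D : ℕ} {tf : Bool}
    (hD : ∀ x ∈ U, n1 G U x ≤ D) (htf : tf = true → TF3 G) {PL : List (ℕ × ℕ)} (hPL : pcl PL)
    {q : ℕ × ℕ} (hq : q ∈ PL) (h : Pc G E q.1 q.2) {st : Stp} {Q : Prop} (hst : Snd G U Q st)
    (hr : ∀ r ∈ rtl D tf PL, ClV st r) : Q := by
  obtain ⟨r, hr', φ, ν, h1⟩ := rtl_emb hG hE hD htf hPL hq h
  exact hr r hr' G U Q hst φ ν h1

/-! ### the roots without filter -/

/-- the pattern is closed whenever the filter and the step are sound -/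
def ClO (ok : ℕ → ℕ → Bool) (st : Stp) (q : ℕ × ℕ) : Prop :=
  ∀ (V : Type) [Fintype V] [DecidableEq V] (G : SimpleGraph V) [DecidableRel G.Adj]
    (U : Finset V) (Q : Prop), (∀ n p φ ν, Emb G U n p φ ν → ok n p = true) → Snd G U Q st → Cl G U Q q

/-- the roots at the pieces of a list -/
def rtu (PL : List (ℕ × ℕ)) : List (ℕ × ℕ) := PL.flatMap rtq

/-- the roots are closed: the token `0` deletes a root by the filter, `t + 1` is the token `t` of a child -/
def clsO (ok : ℕ → ℕ → Bool) (st : Stp) (rs : List (ℕ × ℕ)) : List (ℕ × ℕ) → List ℕ → Bool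
  | [], ts => ts.isEmpty
  | q :: L, ts => match ts with
    | [] => false
    | t :: ts => (bif Nat.beq t 0 then !(ok q.1 q.2) else cls st rs q (Nat.pred t)) && clsO ok st rs L ts

/-- **the roots are closed** by the list `rs` of closed patterns and the tokens -/
theorem clsO_close {ok : ℕ → ℕ → Bool} {st : Stp} {rs : List (ℕ × ℕ)} (hrs : ∀ q ∈ rs, Val st q) :
    ∀ {L : List (ℕ × ℕ)} {ts : List ℕ}, clsO ok st rs L ts = true → ∀ q ∈ L, ClO ok st q := by
  intro L
  induction L with
  | nil => intro ts _ q hq; exact absurd hq List.not_mem_nil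
  | cons r L ih =>
    intro ts h q hq
    match ts with
    | [] => exact absurd h (by simp [clsO])
    | t :: ts =>
      rw [clsO, Bool.and_eq_true] at h
      rcases List.mem_cons.1 hq with rfl | hq
      · intro V _ _ G _ U Q hok hst
        cases ht : Nat.beq t 0
        · rw [ht, cond_false] at h
          exact cls_sound hrs h.1 (G := G) hst
        · rw [ht, cond_true, Bool.not_eq_true'] at h
          intro φ ν he
          have h1 := hok _ _ φ ν he
          rw [h.1] at h1
          exact absurd h1 (by simp)
      · exact ih h.2 q hq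

/-- the filtered roots suffice -/
theorem clO_of_rtl {D : ℕ} {tf : Bool} {PL : List (ℕ × ℕ)} {st : Stp}
    (h : ∀ r ∈ rtl D tf PL, ClV st r) : ∀ r ∈ rtu PL, ClO (okB D tf) st r := by
  intro r hr
  by_cases hc : okB D tf r.1 r.2 = true
  · intro V _ _ G _ U Q _ hst
    exact h r (List.mem_filter.2 ⟨hr, hc⟩) G U Q hst
  · intro V _ _ G _ U Q hok _ φ ν he
    exact absurd (hok _ _ φ ν he) hc

/-- the conclusion at a state with a piece -/
theorem rtu_use (hG : G.IsRegularOfDegree 3) {U E : Finset V} (hE : E ⊆ U) {D : ℕ} {tf : Bool}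
    (hD : ∀ x ∈ U, n1 G U x ≤ D) (htf : tf = true → TF3 G) {PL : List (ℕ × ℕ)} (hPL : pcl PL)
    {q : ℕ × ℕ} (hq : q ∈ PL) (h : Pc G E q.1 q.2) {st : Stp} {Q : Prop} (hst : Snd G U Q st)
    (hr : ∀ r ∈ rtu PL, ClO (okB D tf) st r) : Q := by
  obtain ⟨S, hS, φ, ν, h1⟩ := root4 hG hE (hPL q hq).1 (hPL q hq).2 h
  exact hr (rt q S) (List.mem_flatMap.2 ⟨q, hq, List.mem_map.2 ⟨S, hS, rfl⟩⟩) V G U Q
    (fun _ _ _ _ he => he.okB hG hD htf) hst φ ν h1

/-- the number of lonely outer vertices at a member, without isolated members -/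
theorem n1_le_two (hG : G.IsRegularOfDegree 3) {U : Finset V} (hI : Inv G U) (hi : iso G U = ∅) :
    ∀ x ∈ U, n1 G U x ≤ 2 := fun x hx => by
  have h3 := typ_le hG hI hx
  by_contra h4
  have : x ∈ iso G U := mem_iso.2 ⟨hx, by omega, by omega⟩
  rw [hi] at this
  exact absurd this (notMem_empty x)

/-- **the middle phase**: `P5` the flat pieces, `P3` the others of the clean list `PL` -/
theorem mid15 (hG : G.IsRegularOfDegree 3) {tf : Bool} (htf : tf = true → TF3 G)
    {P5 P3 PL : List (ℕ × ℕ)} (h5 : P5.all wfp = true) (h3 : pcl P3)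
    (hsub : sub2 PL (P5 ++ P3) = true)
    (hcl : ∀ U : Finset V, Inv G U → U ≠ univ → NoP G PL U →
      ∃ m, Has G U m ∧ 84 * m ≤ PsiT (fw.iso 12) G U)
    (wA : Val (st0 2 tf P5) (1, 257)) (wB : Val (st0 1 tf P5) (1, 1))
    (wC : ∀ r ∈ rtu P3, ClO (okB 0 tf) (st0 0 tf P5) r) :
    ∀ U : Finset V, Inv G U → U ≠ univ → NoP G P5 U → ∃ m, Has G U m ∧ 84 * m ≤ PsiT (fw.iso 12) G U := by
  have hst : ∀ (U : Finset V) (D : ℕ), Inv G U → NoP G P5 U → (∀ x ∈ U, n1 G U x ≤ D) →
      Snd G U (∃ c, c ≠ 0 ∧ GoodT (fw.iso 12) 84 G U c) (st0 D tf P5) := fun U D a b c =>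
    snd_st0 hG a h5 c htf b
  refine mid_phase hG hcl wA wB (fun U a1 a2 a3 a4 a5 a6 => ⟨hst U 2 a1 a6, hst U 1 a1 a6⟩) ?_
  intro U E a1 a2 a3 a4 a5 a6 hE hq
  obtain ⟨q, hq, hp⟩ := hq
  rcases List.mem_append.1 (mem2_of (List.all_eq_true.1 hsub q hq)) with hq | hq
  · exact absurd hp (a5 q hq E hE)
  · exact rtu_use hG hE a6 htf h3 hq hp (hst U 0 a1 a5 a6) wC

end EF18
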