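import Pool.Agent.Lib.MP_ef18bd_co.P.Fin4

/-!
# The middle phase: hereditary states, the clean ones among them are given

`frameH`: the frame for a hereditary class of states. `worlds2`: the three worlds, any argument in the last one.
`mid_phase`: no piece of the list `FL`; the worlds with a lonely outer vertex by patterns, in the last world a
step for the states with a piece of the list `PL`.
-/

namespace EF18

open Finset

variable {V : Type} [Fintype V] [DecidableEq V] {G : SimpleGraph V} [DecidableRel G.Adj]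

/-- **the frame** for a hereditary class `He` -/
theorem frameH (hG : G.IsRegularOfDegree 3) (Φ : Finset V → ℕ) (P : ℕ) (He Cl : Finset V → Prop)
    (hHe : ∀ A B, A ⊆ B → He B → He A)
    (hadd : ∀ A B : Finset V, Sep G A B → Φ A + Φ B ≤ Φ (A ∪ B))
    (h1 : ∀ x, x ∈ iso G ({x} : Finset V) → P ≤ Φ {x})
    (hcl : ∀ U : Finset V, Inv G U → U ≠ univ → He U → Cl U → ∃ m, Has G U m ∧ P * m ≤ Φ U)
    (ha : ∀ U : Finset V, Inv G U → U ≠ univ → U.Nonempty → Con G U → iso G U = ∅ → He U → ¬ Cl U →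
      ∃ X : List V, X ≠ [] ∧ Picks G U X ∧ Φ (rem G U X) + P * X.length ≤ Φ U) :
    ∀ U : Finset V, Inv G U → U ≠ univ → He U → ∃ m, Has G U m ∧ P * m ≤ Φ U := by
  intro U
  induction U using Finset.strongInduction with
  | H U ih =>
    intro hI hU hh
    by_cases hn : Cl U
    · exact hcl U hI hU hh hn
    rcases U.eq_empty_or_nonempty with rfl | ⟨v, hv⟩
    · exact ⟨0, Has.empty, by rw [mul_zero]; exact Nat.zero_le _⟩
    by_cases hc : cmp G U v = U
    · have hcon : Con G U := hc ▸ cmp_con hv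
      by_cases hi : iso G U = ∅
      · obtain ⟨X, hX, c2, c3⟩ := ha U hI hU ⟨v, hv⟩ hcon hi hh hn
        obtain ⟨m, hm, hm2⟩ := ih _ (rem_ssubset hX c2) (hI.rem hG) (ne_univ_of_subset rem_subset hU)
          (hHe _ _ rem_subset hh)
        refine ⟨m + X.length, Has.picks c2 hm, ?_⟩
        rw [mul_add]
        omega
      · obtain ⟨x, hx⟩ := nonempty_iff_ne_empty.2 hi
        have e0 := iso_con hG hcon hx
        subst e0
        refine ⟨1, Has.one (mem_singleton_self x) (singleton_subset_iff.2 self_mem_B2), ?_⟩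
        have := h1 x hx
        omega
    · have e1 : cmp G U v ⊂ U := ⟨cmp_subset, fun h => hc (Subset.antisymm cmp_subset h)⟩
      have e2 : U \ cmp G U v ⊂ U :=
        ⟨sdiff_subset, fun h => (mem_sdiff.1 (h hv)).2 (mem_cmp_self hv)⟩
      have hs : Sep G (cmp G U v) (U \ cmp G U v) := cmp_sep
      have hI1 : Inv G (cmp G U v) := Inv.of_sep hs (by rw [cmp_union]; exact hI)
      have hI2 : Inv G (U \ cmp G U v) := Inv.of_sep hs.symm (by rw [union_comm, cmp_union]; exact hI)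
      obtain ⟨m1, b1, b2⟩ := ih _ e1 hI1 (ne_univ_of_subset e1.1 hU) (hHe _ _ e1.1 hh)
      obtain ⟨m2, c1, c2⟩ := ih _ e2 hI2 (ne_univ_of_subset e2.1 hU) (hHe _ _ e2.1 hh)
      refine ⟨m1 + m2, ?_, ?_⟩
      · have := Has.sep hs b1 c1
        rwa [cmp_union] at this
      · have e3 := hadd _ _ hs
        rw [cmp_union] at e3
        rw [mul_add]
        omega

/-- the three worlds, any argument in the last one -/
theorem worlds2 (hG : G.IsRegularOfDegree 3) {U : Finset V} (hI : Inv G U) (hi : iso G U = ∅)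
    {Q : Prop} {sA sB : Stp} (hA : (∀ x ∈ U, n1 G U x ≤ 2) → Snd G U Q sA)
    (hB : (∀ x ∈ U, n1 G U x ≤ 1) → Snd G U Q sB)
    (hC : (∀ x ∈ U, n1 G U x ≤ 0) → Q) (vA : Val sA (1, 257)) (vB : Val sB (1, 1)) : Q := by
  have h2 : ∀ x ∈ U, n1 G U x ≤ 2 := fun x hx => by
    have h3 := typ_le hG hI hx
    by_contra h4
    have : x ∈ iso G U := mem_iso.2 ⟨hx, by omega, by omega⟩
    rw [hi] at this
    exact absurd this (notMem_empty x)
  by_cases h3 : ∃ x ∈ U, 2 ≤ n1 G U x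
  · obtain ⟨x, hx, hn⟩ := h3
    obtain ⟨φ, ν, h⟩ := root2 hG hx hn
    exact vA.2 G U Q (hA h2) φ ν h
  push Not at h3
  by_cases h4 : ∃ x ∈ U, 1 ≤ n1 G U x
  · obtain ⟨x, hx, hn⟩ := h4
    obtain ⟨φ, ν, h⟩ := root1 hG hx hn
    exact vB.2 G U Q (hB fun x hx => by have := h3 x hx; omega) φ ν h
  push Not at h4
  exact hC fun x hx => by have := h4 x hx; omega

omit [DecidableEq V] [DecidableRel G.Adj] in
theorem bz_nil (U : Finset V) : bz [] G U = ∅ := by
  rw [eq_empty_iff_forall_notMem]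
  intro z hz
  obtain ⟨-, e, he, -⟩ := mem_bz.1 hz
  exact absurd he List.not_mem_nil

theorem GoodZ.flat {w : TF} {P e : ℕ} {ML : List MPc} {U : Finset V} {c : ℕ} (h0 : e = 0 ∨ ML = [])
    (h : GoodZ w P e ML G U c) : GoodT w P G U c := by
  obtain ⟨X, h1, h2, h3⟩ := h
  refine ⟨X, h1, h2, ?_⟩
  unfold PhiZ at h3
  rcases h0 with rfl | rfl
  · rw [zero_mul, zero_mul] at h3
    exact h3
  · rw [bz_nil, bz_nil, card_empty, mul_zero] at h3
    exact h3

/-- **the middle phase** -/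
theorem mid_phase (hG : G.IsRegularOfDegree 3) {FL PL : List (ℕ × ℕ)}
    (hcl : ∀ U : Finset V, Inv G U → U ≠ univ → NoP G PL U →
      ∃ m, Has G U m ∧ 84 * m ≤ PsiT (fw.iso 12) G U)
    {sA sB : Stp} (vA : Val sA (1, 257)) (vB : Val sB (1, 1))
    (hs : ∀ U : Finset V, Inv G U → U ≠ univ → U.Nonempty → Con G U → iso G U = ∅ → NoP G FL U →
      ((∀ x ∈ U, n1 G U x ≤ 2) → Snd G U (∃ c, c ≠ 0 ∧ GoodT (fw.iso 12) 84 G U c) sA) ∧
      ((∀ x ∈ U, n1 G U x ≤ 1) → Snd G U (∃ c, c ≠ 0 ∧ GoodT (fw.iso 12) 84 G U c) sB))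
    (hC : ∀ U E : Finset V, Inv G U → U ≠ univ → Con G U → iso G U = ∅ → NoP G FL U →
      (∀ x ∈ U, n1 G U x ≤ 0) → E ⊆ U → (∃ q ∈ PL, Pc G E q.1 q.2) →
      ∃ c, c ≠ 0 ∧ GoodT (fw.iso 12) 84 G U c) :
    ∀ U : Finset V, Inv G U → U ≠ univ → NoP G FL U → ∃ m, Has G U m ∧ 84 * m ≤ PsiT (fw.iso 12) G U := by
  refine frameH hG (PsiT (fw.iso 12) G) 84 (NoP G FL) (NoP G PL) (fun _ _ h hB => hB.mono h)
    (fun A B h => (PsiT_union _ h).ge) (fun x hx => ?_) (fun U a b _ c => hcl U a b c) ?_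
  · rw [PsiT_single hx]
    decide
  · intro U a1 a2 a3 a4 a5 a6 a7
    obtain ⟨c1, c2⟩ := hs U a1 a2 a3 a4 a5 a6
    obtain ⟨c, c0, X, d1, d2, d3⟩ := worlds2 hG a1 a5 c1 c2 (fun h0 => by
      unfold NoP at a7
      push Not at a7
      obtain ⟨q, hq, E, hE, hp⟩ := a7
      exact hC U E a1 a2 a4 a5 a6 h0 hE ⟨q, hq, hp⟩) vA vB
    exact ⟨X, fun e => c0 (by rw [← d1, e]; rfl), d2, d3⟩

/-- **the packing bound for connected graphs, three phases**: `PL` clean list, `FL` the flat pieces, `ML` the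
pieces `FL` with marks -/
theorem pack3p (hG : G.IsRegularOfDegree 3) (hc : G.Connected) {tf : Bool} (htf : tf = true → TF3 G)
    {FL PL : List (ℕ × ℕ)} (hPL : PL.all wfp = true)
    (vA : Val (stB 2 tf PL) (1, 257)) (vB : Val (stB 1 tf PL) (1, 1))
    (vC : Val (stB 0 tf PL) (2, 9 + 3 * 256 ^ 3))
    {sA sB : Stp} (wA : Val sA (1, 257)) (wB : Val sB (1, 1))
    (hs : ∀ U : Finset V, Inv G U → U ≠ univ → U.Nonempty → Con G U → iso G U = ∅ → NoP G FL U →
      ((∀ x ∈ U, n1 G U x ≤ 2) → Snd G U (∃ c, c ≠ 0 ∧ GoodT (fw.iso 12) 84 G U c) sA) ∧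
      ((∀ x ∈ U, n1 G U x ≤ 1) → Snd G U (∃ c, c ≠ 0 ∧ GoodT (fw.iso 12) 84 G U c) sB))
    (hC : ∀ U E : Finset V, Inv G U → U ≠ univ → Con G U → iso G U = ∅ → NoP G FL U →
      (∀ x ∈ U, n1 G U x ≤ 0) → E ⊆ U → (∃ q ∈ PL, Pc G E q.1 q.2) →
      ∃ c, c ≠ 0 ∧ GoodT (fw.iso 12) 84 G U c) {e : ℕ} (he : e ≤ 9) {ML : List MPc}
    (hML : ML.all mkok = true) (hsub : subM FL ML = true)
    (ha : ∀ U E : Finset V, Inv G U → U ≠ univ → U.Nonempty → Con G U → iso G U = ∅ → E ⊆ U →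
      (∃ q ∈ ML, Pc G E q.1.1 q.1.2) → ∃ c, c ≠ 0 ∧ GoodZ (fw.iso 12) 84 e ML G U c) :
    ∃ S : Finset V, Pk G S ∧ Mx G univ S ∧ 14 * S.card ≤ 3 * Fintype.card V + 11 := by
  have := hc.nonempty
  refine packing4 hG hML he (fun U hI hU hn => ?_) ha
  refine mid_phase hG (fun U a b c => ?_) wA wB hs hC U hI hU (noP_of_noM hsub hn)
  obtain ⟨m, h1, h2⟩ := clean_phase hG hc hPL htf vA vB vC U a b c
  exact ⟨m, h1, by omega⟩

end EF18
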