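import Pool.Agent.Lib.MP_ef18bd_co.P.StpK

/-!
# The frame with the bonus, the diamond pairs and any extra charge

`GoodE`: a good set of picks for the potential with the charge `c` for the ordered diamond pairs, the extra charge
`Ex` and the bonus `b`. `frameX`: one phase, the states with `Bs` are given by the earlier phase. `packX`: the
packing bound. `rootsX`: the roots at the lonely outer vertices and at the pieces.
-/

namespace EF18

open Finset

variable {V : Type} [Fintype V] [DecidableEq V] {G : SimpleGraph V} [DecidableRel G.Adj]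

/-- a good set of `k` picks in a connected state without isolated members -/
def GoodE (w : TF) (dl P b c : ℕ) (Ex : Finset V → ℕ) (G : SimpleGraph V) [DecidableRel G.Adj]
    (U : Finset V) (k : ℕ) : Prop :=
  ∃ X : List V, X.length = k ∧ Picks G U X ∧
    PsiT (w.iso dl) G (rem G U X) + c * dpn G (rem G U X) + Ex (rem G U X) + P * X.length +
      b * min (kUT G U) 2 ≤
      PsiT (w.iso dl) G U + c * dpn G U + Ex U + b * min (kST G (rem G U X)) 2

theorem GoodU.toE {w : TF} {dl P b c : ℕ} {U : Finset V} {k : ℕ} {Ex : Finset V → ℕ}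
    (hE : ∀ A B : Finset V, A ⊆ B → Ex A ≤ Ex B) (h : GoodU w dl P b c G U k) :
    GoodE w dl P b c Ex G U k := by
  obtain ⟨X, h1, h2, h3⟩ := h
  have := hE (rem G U X) U rem_subset
  exact ⟨X, h1, h2, by omega⟩

/-- **one phase**: `Cl` is hereditary, the states with `Bs` are given -/
theorem frameX (hG : G.IsRegularOfDegree 3) {w : TF} {dl P b c : ℕ} (Ex : Finset V → ℕ)
    (hsup : ∀ A B : Finset V, Sep G A B → Ex A + Ex B ≤ Ex (A ∪ B)) (hP : P ≤ w.F 0 3 + dl)
    (Cl Bs : Finset V → Prop) (hCl : ∀ A B, A ⊆ B → Cl B → Cl A)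
    (hbs : ∀ U : Finset V, Inv G U → U ≠ univ → Cl U → Bs U →
      ∃ m, Has G U m ∧ P * m + Xs G (beT b G) U ≤ PsiT (w.iso dl) G U + c * dpn G U + Ex U)
    (hst : ∀ U : Finset V, Inv G U → U ≠ univ → U.Nonempty → Con G U → iso G U = ∅ → Cl U → ¬ Bs U →
      ∃ k, k ≠ 0 ∧ GoodE w dl P b c Ex G U k) :
    ∀ U : Finset V, Inv G U → U ≠ univ → Cl U →
      ∃ m, Has G U m ∧ P * m + Xs G (beT b G) U ≤ PsiT (w.iso dl) G U + c * dpn G U + Ex U := by
  intro U
  induction U using Finset.strongInduction with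
  | H U ih =>
    intro hI hU hcl
    rcases U.eq_empty_or_nonempty with rfl | ⟨v, hv⟩
    · exact ⟨0, Has.empty, by rw [Xs_empty]; exact Nat.zero_le _⟩
    by_cases hbsU : Bs U
    · exact hbs U hI hU hcl hbsU
    by_cases hc : cmp G U v = U
    · have hcon : Con G U := hc ▸ cmp_con hv
      by_cases hi : iso G U = ∅
      · obtain ⟨k, hk, X, a1, a2, a3⟩ := hst U hI hU ⟨v, hv⟩ hcon hi hcl hbsU
        have hX : X ≠ [] := fun e => hk (by rw [← a1, e]; rfl)
        obtain ⟨m, hm, hm2⟩ := ih _ (rem_ssubset hX a2) (hI.rem hG) (ne_univ_of_subset rem_subset hU)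
          (hCl _ _ rem_subset hcl)
        refine ⟨m + X.length, Has.picks a2 hm, ?_⟩
        have h3 := kST_le hG b (rem G U X)
        rw [Xs_beT b ⟨v, hv⟩ hcon hi, mul_add]
        omega
      · obtain ⟨x, hx⟩ := nonempty_iff_ne_empty.2 hi
        have e := iso_con hG hcon hx
        subst e
        refine ⟨1, Has.one (mem_singleton_self x) (singleton_subset_iff.2 self_mem_B2), ?_⟩
        rw [Xs_con _ ⟨v, hv⟩ hcon]
        unfold beT
        rw [if_neg (ne_empty_of_mem hx)]
        have := hP.trans (PsiT_single hx).ge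
        omega
    · have e1 : cmp G U v ⊂ U := ⟨cmp_subset, fun h => hc (Subset.antisymm cmp_subset h)⟩
      have e2 : U \ cmp G U v ⊂ U :=
        ⟨sdiff_subset, fun h => (mem_sdiff.1 (h hv)).2 (mem_cmp_self hv)⟩
      have hs : Sep G (cmp G U v) (U \ cmp G U v) := cmp_sep
      have hI1 : Inv G (cmp G U v) := Inv.of_sep hs (by rw [cmp_union]; exact hI)
      have hI2 : Inv G (U \ cmp G U v) := Inv.of_sep hs.symm (by rw [union_comm, cmp_union]; exact hI)
      obtain ⟨m1, b1, b2⟩ := ih _ e1 hI1 (ne_univ_of_subset e1.1 hU) (hCl _ _ e1.1 hcl)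
      obtain ⟨m2, c1, c2⟩ := ih _ e2 hI2 (ne_univ_of_subset e2.1 hU) (hCl _ _ e2.1 hcl)
      refine ⟨m1 + m2, ?_, ?_⟩
      · have := Has.sep hs b1 c1
        rwa [cmp_union] at this
      · have e3 := PsiT_union (w.iso dl) hs
        have e4 := Xs_union (beT b G) hs
        have e5 := Nat.mul_le_mul_left c (dpn_add hs)
        have e6 := hsup _ _ hs
        rw [cmp_union] at e3 e4 e5 e6
        rw [mul_add] at e5
        rw [e4, mul_add]
        omega

/-- a smaller bonus -/
theorem Xs_beT_mono {b b' : ℕ} (h : b ≤ b') (U : Finset V) : Xs G (beT b G) U ≤ Xs G (beT b' G) U := by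
  induction U using sep_induction (G := G) with
  | h0 => rw [Xs_empty, Xs_empty]
  | h1 U hne hc _ =>
    rw [Xs_con _ hne hc, Xs_con _ hne hc]
    unfold beT
    split_ifs
    · exact Nat.mul_le_mul_right _ h
    · exact le_rfl
  | h2 A B h hA hB =>
    rw [Xs_union _ h, Xs_union _ h]
    exact Nat.add_le_add hA hB

/-- **the packing bound** from the last phase -/
theorem packX (hG : G.IsRegularOfDegree 3) [hV : Nonempty V] (Ex : Finset V → ℕ)
    (hex : ∀ U : Finset V, Inv G U → Ex U ≤ ∑ p ∈ univ \ U, ch 9 5 (nU G U p))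
    (hall : ∀ U : Finset V, Inv G U → U ≠ univ →
      ∃ m, Has G U m ∧ 84 * m ≤ PsiT (fw.iso 12) G U + 6 * dpn G U + Ex U) :
    ∃ S : Finset V, Pk G S ∧ Mx G univ S ∧ 14 * S.card ≤ 3 * Fintype.card V + dpn G univ + 11 := by
  obtain ⟨v⟩ := hV
  have hI : Inv G (univ : Finset V) := fun x hx => absurd (mem_univ x) hx
  have hne : (univ : Finset V) \ B2 G v ≠ univ := fun h => by
    have := mem_univ v
    rw [← h, mem_sdiff] at this
    exact this.2 self_mem_B2
  obtain ⟨m, hm, hm2⟩ := hall _ (hI.pick hG v) hne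
  obtain ⟨S, a1, a2, a3⟩ := (Has.pick (mem_univ v) hm).packing
  refine ⟨S, a1, a2, ?_⟩
  have e0 : (linTF (3 * 6) 9 22).F 3 0 = 3 * 6 := by simp [linTF]
  have h3 := PsiT_first hG (linTF (3 * 6) 9 22) (f2 := 9) (f1 := 5) (κ := 9)
    (by rw [e0]; exact (by norm_num : 2 * 9 + 9 ≤ 3 * 6 + 9))
    (by rw [e0]; exact (by norm_num : 22 + 5 ≤ 3 * 6 + 9)) v
  have h4 := hex _ (hI.pick hG v)
  have h5 : PsiT (fw.iso 12) G (univ \ B2 G v) ≤ PsiT (linTF (3 * 6) 9 22) G (univ \ B2 G v) := by
    refine PsiT_le hG (fun a c h => ?_) (hI.pick hG v)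
    show 18 + (3 - a - c) * 9 + c * 18 + (if a = 0 ∧ c = 3 then 12 else 0) ≤
      3 * 6 + (3 - a - c) * 9 + c * 22
    split_ifs with h1
    · rw [h1.1, h1.2]
    · omega
  have h6 := dpn_mono (G := G) (subset_univ (univ \ B2 G v))
  rw [e0] at h3
  omega

/-- the same without the charge for the diamond pairs, in a graph without triangles -/
theorem dpn_tf (htf : TF3 G) (hG : G.IsRegularOfDegree 3) (U : Finset V) : dpn G U = 0 := by
  unfold dpn
  rw [card_eq_zero, eq_empty_iff_forall_notMem]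
  intro q hq
  rw [mem_dps] at hq
  obtain ⟨-, h1, h2⟩ := hq
  have h3 : 1 < (G.neighborFinset q.1).card := by
    rw [nbr_card hG]
    norm_num
  obtain ⟨z, hz, hne⟩ := exists_mem_ne h3 q.2
  rw [SimpleGraph.mem_neighborFinset] at hz
  exact htf _ _ _ h1 (h2 z hne hz) hz

end EF18
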