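import Pool.Agent.Lib.MP_ef18bd_co.P.EvB
import Pool.Agent.Lib.MP_ef18bd_co.P.Bon

/-!
# New exceptional components

`Xs_new`: the deficits of the new components are paid by the outer vertices which are cut off. `out2`,
`out1`: upper bounds for their number.
-/

namespace EF18

open Finset

variable {V : Type} [Fintype V] [DecidableEq V] {G : SimpleGraph V} [DecidableRel G.Adj]

/-- at most `|O| / j` new components have a deficit -/
theorem Xs_new (d : Finset V → ℕ) {U U' : Finset V} {O : Finset V} {j m : ℕ} (hj : 0 < j)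
    (hm : ∀ C ∈ comps G U', d C ≤ m)
    (h : ∀ C ∈ comps G U', d C ≠ 0 → C ∉ comps G U → j ≤ (O.filter fun y => nU G C y ≠ 0).card) :
    Xs G d U' ≤ Xs G d U + m * (O.card / j) := by
  classical
  obtain ⟨N, hN⟩ : ∃ N, N = (comps G U').filter (fun C => d C ≠ 0 ∧ C ∉ comps G U) := ⟨_, rfl⟩
  have mN : ∀ C, C ∈ N ↔ C ∈ comps G U' ∧ d C ≠ 0 ∧ C ∉ comps G U := fun C => by rw [hN, mem_filter]
  have h1 : j * N.card ≤ O.card := by
    have e1 : ∑ C ∈ N, j ≤ ∑ C ∈ N, (O.filter fun y => nU G C y ≠ 0).card :=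
      sum_le_sum fun C hC => h C ((mN C).1 hC).1 ((mN C).1 hC).2.1 ((mN C).1 hC).2.2
    rw [sum_const, smul_eq_mul, mul_comm, ← card_biUnion] at e1
    · exact e1.trans (card_le_card (biUnion_subset.2 fun C _ => filter_subset _ _))
    · intro C hC C' hC' hne
      rw [Function.onFun, disjoint_left]
      intro y hy hy'
      exact hne (comps_nU ((mN C).1 hC).1 ((mN C').1 hC').1 (mem_filter.1 hy).2 (mem_filter.1 hy').2)
  have h2 : N.card ≤ O.card / j := by
    rw [Nat.le_div_iff_mul_le hj, mul_comm]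
    exact h1
  have h3 : Xs G d U' ≤ ∑ C ∈ comps G U' ∩ comps G U, d C + ∑ C ∈ N, d C := by
    unfold Xs
    rw [← sum_filter_add_sum_filter_not (comps G U') (fun C => C ∈ comps G U)]
    refine Nat.add_le_add ?_ ?_
    · refine (sum_le_sum_of_subset fun C hC => ?_)
      rw [mem_filter] at hC
      exact mem_inter.2 hC
    · rw [← sum_filter_add_sum_filter_not ((comps G U').filter fun C => C ∉ comps G U) (fun C => d C ≠ 0)]
      have e2 : ∑ C ∈ ((comps G U').filter fun C => C ∉ comps G U).filter (fun C => ¬ d C ≠ 0), d C = 0 :=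
        sum_eq_zero fun C hC => by
          have := (mem_filter.1 hC).2
          rwa [not_not] at this
      rw [e2, add_zero]
      refine sum_le_sum_of_subset fun C hC => ?_
      rw [mem_filter, mem_filter] at hC
      exact (mN C).2 ⟨hC.1.1, hC.2, hC.1.2⟩
  have h4 : ∑ C ∈ comps G U' ∩ comps G U, d C ≤ Xs G d U := sum_le_sum_of_subset inter_subset_right
  have h5 : ∑ C ∈ N, d C ≤ m * N.card := by
    rw [mul_comm, ← smul_eq_mul, ← sum_const]
    exact sum_le_sum fun C hC => hm C ((mN C).1 hC).1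
  have h6 := Nat.mul_le_mul_left m h2
  omega

/-- the cut outer vertices -/
def cuts (G : SimpleGraph V) [DecidableRel G.Adj] (U U' : Finset V) : Finset V :=
  univ.filter fun y => y ∉ U' ∧ nU G U' y ≠ 0 ∧ (y ∈ U ∨ nU G U' y < nU G U y)

/-- the cut outer vertices with two neighbours -/
def cuts2 (G : SimpleGraph V) [DecidableRel G.Adj] (U U' : Finset V) : Finset V :=
  (U \ U').filter fun y => nU G U' y = 2

/-- the outer vertices of `C` which have to be cut -/
def lv (G : SimpleGraph V) [DecidableRel G.Adj] (U C : Finset V) : Finset V :=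
  univ.filter fun y => y ∉ C ∧ nU G C y ≠ 0 ∧ (y ∈ U ∨ nU G C y < nU G U y)

/-- the outer vertices of `C` in `U` with two neighbours in `C` -/
def lv2 (G : SimpleGraph V) [DecidableRel G.Adj] (U C : Finset V) : Finset V :=
  (U \ C).filter fun y => nU G C y = 2

theorem lv_cut {U U' C : Finset V} (hC : C ∈ comps G U') :
    lv G U C ⊆ (cuts G U U').filter fun y => nU G C y ≠ 0 := by
  intro y hy
  unfold lv at hy
  rw [mem_filter] at hy
  obtain ⟨-, h1, h2, h3⟩ := hy
  have e := comps_nU_eq hC h2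
  unfold cuts
  rw [mem_filter, mem_filter]
  refine ⟨⟨mem_univ _, fun hc => h1 ?_, by rw [← e]; exact h2, ?_⟩, h2⟩
  · obtain ⟨a, ha, hya⟩ := nU_ne_zero.1 h2
    exact comps_near hC ha hc (mem_B2_of_adj hya.symm)
  · rw [← e]
    exact h3

theorem lv2_cut {U U' C : Finset V} (hC : C ∈ comps G U') :
    lv2 G U C ⊆ (cuts2 G U U').filter fun y => nU G C y ≠ 0 := by
  intro y hy
  unfold lv2 at hy
  rw [mem_filter, mem_sdiff] at hy
  obtain ⟨⟨h0, h1⟩, h2⟩ := hy
  have h3 : nU G C y ≠ 0 := by omega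
  have e := comps_nU_eq hC h3
  unfold cuts2
  rw [mem_filter, mem_filter, mem_sdiff]
  refine ⟨⟨⟨h0, fun hc => h1 ?_⟩, by rw [← e]; exact h2⟩, h3⟩
  obtain ⟨a, ha, hya⟩ := nU_ne_zero.1 h3
  exact comps_near hC ha hc (mem_B2_of_adj hya.symm)

/-! ### the number of cut vertices in a pattern -/

theorem Emb.nU_leo (hG : G.IsRegularOfDegree 3) {U U' : Finset V} (hs : U' ⊆ U) {n p M : ℕ}
    {φ ν : ℕ → V} (h : Emb G U n p φ ν) (hM : ∀ i < n, (M.testBit i = true ↔ φ i ∉ U')) {j : ℕ}
    (hj : j < n) : nU G U' (φ j) ≤ sdn p M j + opn p j := by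
  have key : ∀ k, k / 3 = j → (if ν k ∈ U' then 1 else 0) ≤ sdp M (dg p k) +
      bif Nat.beq (dg p k) 0 then 1 else 0 := by
    intro k hk
    have hkn : k < 3 * n := by omega
    split_ifs with h1
    · rcases digit_cases (dg p k) with h0 | h0 | ⟨l, hl⟩ | ⟨l, hl⟩
      · rw [h0]
        exact Nat.le_add_left _ _
      · exact absurd (hs h1) (h.dead k hkn h0).1
      · obtain ⟨a1, -, a3, -⟩ := h.dir k hkn l hl
        rw [hl, sdp_dir fun hb => (hM _ (by omega)).1 hb (a3 ▸ h1)]
        exact Nat.le_add_right _ _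
      · exact absurd (hs h1) (h.lnk k hkn l hl).2.2.2.1
    · exact Nat.zero_le _
  have e1 : nU G U' (φ j) = (if ν (3 * j) ∈ U' then 1 else 0) + (if ν (3 * j + 1) ∈ U' then 1 else 0) +
      (if ν (3 * j + 2) ∈ U' then 1 else 0) := by
    unfold nU
    rw [inter_eq_filter', h.card_filter hG hj]
  have e : opn p j = (bif Nat.beq (dg p (3 * j)) 0 then 1 else 0) +
      (bif Nat.beq (dg p (3 * j + 1)) 0 then 1 else 0) + (bif Nat.beq (dg p (3 * j + 2)) 0 then 1 else 0) := by
    unfold opn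
    rw [frc_eq]
    rfl
  have k0 := key (3 * j) (by omega)
  have k1 := key (3 * j + 1) (by omega)
  have k2 := key (3 * j + 2) (by omega)
  rw [e1, e]
  unfold sdn
  change _ ≤ sdp M (dg p (3 * j)) + sdp M (dg p (3 * j + 1)) + sdp M (dg p (3 * j + 2)) + _
  omega

/-- the removed nodes which may have two surviving neighbours, the unknown ones -/
def out2 (n p M IN : ℕ) : ℕ :=
  Nat.add (sm (fun i => bif tb M i && !tb IN i && Nat.ble 2 (Nat.add (sdn p M i) (opn p i)) then 1 else 0) n)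
    (opm n p IN)

theorem Emb.cuts2_le (hG : G.IsRegularOfDegree 3) {U U' : Finset V} {n p M IN : ℕ}
    {φ ν : ℕ → V} (h : Emb G U n p φ ν) (hS : Stn G U U' n p M IN φ ν) :
    (cuts2 G U U').card ≤ out2 n p M IN := by
  classical
  obtain ⟨A, hA⟩ : ∃ A, A = (range n).filter (fun i => M.testBit i = true ∧ IN.testBit i ≠ true ∧
    2 ≤ sdn p M i + opn p i) := ⟨_, rfl⟩
  obtain ⟨B, hB⟩ : ∃ B, B = (range (3 * n)).filter (fun k => dg p k = 0 ∧ IN.testBit (k / 3) = true) := ⟨_, rfl⟩
  have h1 : cuts2 G U U' ⊆ A.image φ ∪ B.image ν := by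
    intro y hy
    unfold cuts2 at hy
    rw [mem_filter, mem_sdiff] at hy
    obtain ⟨⟨y1, y2⟩, y3⟩ := hy
    rcases hS.out y y1 y2 with ⟨t, t1, t2, rfl⟩ | ⟨k, k1, k2, k3, rfl⟩
    · refine mem_union_left _ (mem_image_of_mem φ ?_)
      rw [hA, mem_filter, mem_range]
      refine ⟨t1, t2, fun hb => ?_, ?_⟩
      · have h3 : nU G U' (φ t) ≠ 0 := by omega
        obtain ⟨a, ha, hya⟩ := nU_ne_zero.1 h3
        exact (hS.inn t t1 hb).2 a hya ha
      · rw [← y3]
        exact h.nU_leo hG hS.sub hS.msk t1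
    · refine mem_union_right _ (mem_image_of_mem ν ?_)
      rw [hB, mem_filter, mem_range]
      exact ⟨k1, k3, k2⟩
  refine (card_le_card h1).trans ((card_union_le _ _).trans ?_)
  unfold out2
  rw [opm_eq, ← hB]
  refine Nat.add_le_add (card_image_le.trans ?_) card_image_le
  rw [sm_eq, hA, Finset.card_filter]
  refine sum_le_sum fun i _ => ?_
  split_ifs with hc
  · rw [tb_eq, hc.1, tb_false hc.2.1, show Nat.ble 2 (Nat.add (sdn p M i) (opn p i)) = true from
      Nat.ble_eq_true_of_le hc.2.2]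
    exact le_rfl
  · exact Nat.zero_le _

/-! ### the steps with a charge for cut vertices -/

/-- a good set of picks with a charge `m` for every `j` cut vertices -/
def GoodC (w : TF) (dl P m j : ℕ) (G : SimpleGraph V) [DecidableRel G.Adj] (U : Finset V) (c : ℕ) : Prop :=
  ∃ X : List V, X.length = c ∧ Picks G U X ∧ PsiT (w.iso dl) G (rem G U X) + P * X.length +
    m * ((cuts2 G U (rem G U X)).card / j) ≤ PsiT (w.iso dl) G U

/-- all completions -/
def evbC (P O T TI D dl m j n p : ℕ) (L : List ℕ) : Option (List (ℕ × ℕ)) :=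
  frc (kms p L 0) fun M => frc (ims p L 0) fun IN =>
    bif Nat.ble (Nat.add n 5) 40 && pks n p L 0 &&
      Nat.ble (Nat.add (Nat.add (Nat.add (Nat.mul P L.length) (Nat.mul O (cnt n M)))
        (Nat.mul dl (n00 D n p M))) (Nat.mul m (Nat.div (out2 n p M IN) j))) (evs T TI n p M IN)
    then some (kin n p M IN n ++ (evc D L n p M n ++ cml D L n 3 (n + 1) p 200)) else none

theorem evbC_ch (hG : G.IsRegularOfDegree 3) {w : TF} (hw : w.Pos) {P O T TI D dl m j : ℕ}
    (hT : TabK w O T) (hTI : TabKI w O TI) {U : Finset V} (hI : Inv G U)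
    (hD : ∀ x ∈ U, n1 G U x ≤ D) (hiso : iso G U = ∅) {n p : ℕ}
    {L : List ℕ} {R : List (ℕ × ℕ)} (hR : evbC P O T TI D dl m j n p L = some R) {φ ν : ℕ → V}
    (h : Emb G U n p φ ν) : GoodC w dl P m j G U L.length ∨ ∃ q ∈ R, Ch G U n φ q := by
  classical
  unfold evbC at hR
  rw [frc_eq, frc_eq] at hR
  cases hc : Nat.ble (Nat.add n 5) 40 && pks n p L 0 &&
      Nat.ble (Nat.add (Nat.add (Nat.add (Nat.mul P L.length) (Nat.mul O (cnt n (kms p L 0))))
        (Nat.mul dl (n00 D n p (kms p L 0)))) (Nat.mul m (Nat.div (out2 n p (kms p L 0) (ims p L 0)) j)))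
        (evs T TI n p (kms p L 0) (ims p L 0))
  · rw [hc, cond_false] at hR
    exact absurd hR (by simp)
  rw [hc, cond_true, Option.some.injEq] at hR
  simp only [Bool.and_eq_true] at hc
  obtain ⟨⟨c1, c2⟩, c3⟩ := hc
  have hn : n + 5 ≤ 40 := Nat.le_of_ble_eq_true c1
  have hL := pks_of c2
  have hc3 := Nat.le_of_ble_eq_true c3
  rw [← hR]
  rcases h.stn_or hG hI (by omega) hL with ⟨q, h1, h2⟩ | hS
  · exact Or.inr ⟨q, List.mem_append_left _ h1, h2⟩
  by_cases hno : ∃ q ∈ evc D L n p (kms p L 0) n ++ cml D L n 3 (n + 1) p 200, Ch G U n φ q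
  · obtain ⟨q, h1, h2⟩ := hno
    exact Or.inr ⟨q, List.mem_append_right _ h1, h2⟩
  left
  have hP := h.pks_picks hG hI (L := L) [] c2 trivial (fun y hy => absurd hy List.not_mem_nil)
  rw [List.nil_append] at hP
  refine ⟨L.map φ, List.length_map _, hP, ?_⟩
  have h1 := h.evs_le hG hw hT hTI hI (hI.rem hG) rem_subset hS.msk (fun i hi hb => (hS.inn i hi hb).2)
  have h2 : (iso G (rem G U (L.map φ))).card ≤ n00 D n p (kms p L 0) := by
    rw [n00_eq]
    have key : ∀ v ∈ iso G (rem G U (L.map φ)), ∃ i < n, φ i = v ∧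
        (kms p L 0).testBit i ≠ true ∧ full p i = true ∧ nd D p (kms p L 0) i ≠ 9 := fun v hv =>
      (h.iso_or hG hI hn hL hS hD hv (by rw [hiso]; exact notMem_empty _)).resolve_left hno
    choose! f hf using key
    refine card_le_card_of_injOn f (fun v hv => ?_) fun v hv v' hv' e => ?_
    · obtain ⟨a1, a2, a3, a4, a5⟩ := hf v hv
      rw [mem_coe, mem_filter, mem_range]
      exact ⟨a1, a3, a4, a5⟩
    · rw [← (hf v hv).2.1, ← (hf v' hv').2.1, e]
  have h5 := Nat.mul_le_mul_left m (Nat.div_le_div_right (c := j) (h.cuts2_le hG hS))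
  rw [PsiT_iso, PsiT_iso, List.length_map]
  unfold PsiI
  rw [hiso, card_empty, mul_zero, add_zero]
  have h3 := Nat.mul_le_mul_left dl h2
  have h4 : P * L.length + O * cnt n (kms p L 0) + dl * n00 D n p (kms p L 0) +
      m * (out2 n p (kms p L 0) (ims p L 0) / j) ≤ evs T TI n p (kms p L 0) (ims p L 0) := hc3
  omega

/-- the worst case for isolated vertices -/
def evlC (P O T TI D dl m j n p : ℕ) (L : List ℕ) : Option (List (ℕ × ℕ)) :=
  frc (kms p L 0) fun M => frc (ims p L 0) fun IN =>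
    bif Nat.ble (Nat.succ n) 40 && pks n p L 0 &&
      Nat.ble (Nat.add (Nat.add (Nat.add (Nat.mul P L.length) (Nat.mul O (cnt n M)))
        (Nat.mul dl (Nat.add (ndn D n p M 0) (xN D n p M (opm2 n p M IN)))))
        (Nat.mul m (Nat.div (out2 n p M IN) j))) (evs T TI n p M IN)
    then some (kin n p M IN n) else none

theorem evlC_ch (hG : G.IsRegularOfDegree 3) {w : TF} (hw : w.Pos) {P O T TI D dl m j : ℕ}
    (hT : TabK w O T) (hTI : TabKI w O TI) {U : Finset V} (hI : Inv G U)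
    (hD : ∀ x ∈ U, n1 G U x ≤ D) (hiso : iso G U = ∅) {n p : ℕ}
    {L : List ℕ} {R : List (ℕ × ℕ)} (hR : evlC P O T TI D dl m j n p L = some R) {φ ν : ℕ → V}
    (h : Emb G U n p φ ν) : GoodC w dl P m j G U L.length ∨ ∃ q ∈ R, Ch G U n φ q := by
  unfold evlC at hR
  rw [frc_eq, frc_eq] at hR
  cases hc : Nat.ble (Nat.succ n) 40 && pks n p L 0 &&
      Nat.ble (Nat.add (Nat.add (Nat.add (Nat.mul P L.length) (Nat.mul O (cnt n (kms p L 0))))
        (Nat.mul dl (Nat.add (ndn D n p (kms p L 0) 0)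
          (xN D n p (kms p L 0) (opm2 n p (kms p L 0) (ims p L 0))))))
        (Nat.mul m (Nat.div (out2 n p (kms p L 0) (ims p L 0)) j))) (evs T TI n p (kms p L 0) (ims p L 0))
  · rw [hc, cond_false] at hR
    exact absurd hR (by simp)
  rw [hc, cond_true, Option.some.injEq] at hR
  simp only [Bool.and_eq_true] at hc
  obtain ⟨⟨c1, c2⟩, c3⟩ := hc
  have hn : n < 40 := Nat.le_of_ble_eq_true c1
  have hL := pks_of c2
  have hc3 := Nat.le_of_ble_eq_true c3
  rw [← hR]
  rcases h.stn_or hG hI hn hL with h1 | hS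
  · exact Or.inr h1
  left
  have hP := h.pks_picks hG hI (L := L) [] c2 trivial (fun y hy => absurd hy List.not_mem_nil)
  rw [List.nil_append] at hP
  refine ⟨L.map φ, List.length_map _, hP, ?_⟩
  have h1 := h.evs_le hG hw hT hTI hI (hI.rem hG) rem_subset hS.msk (fun i hi hb => (hS.inn i hi hb).2)
  have h2 := h.iso_le2 hG hI hS hD
  rw [hiso, card_empty, zero_add] at h2
  have h5 := Nat.mul_le_mul_left m (Nat.div_le_div_right (c := j) (h.cuts2_le hG hS))
  rw [PsiT_iso, PsiT_iso, List.length_map]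
  unfold PsiI
  rw [hiso, card_empty, mul_zero, add_zero]
  have h3 := Nat.mul_le_mul_left dl h2
  have h4 : P * L.length + O * cnt n (kms p L 0) + dl * (ndn D n p (kms p L 0) 0 +
      xN D n p (kms p L 0) (opm2 n p (kms p L 0) (ims p L 0))) +
      m * (out2 n p (kms p L 0) (ims p L 0) / j) ≤ evs T TI n p (kms p L 0) (ims p L 0) := hc3
  omega

end EF18
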