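import Pool.Agent.Lib.MP_ef18bd_co.Trans

/-!
# The residual game: sets of undominated vertices
-/

namespace EF18

open Finset

variable {V : Type} [Fintype V] [DecidableEq V] {G : SimpleGraph V} [DecidableRel G.Adj]

/-- the ball of radius two -/
def B2 (G : SimpleGraph V) [DecidableRel G.Adj] (v : V) : Finset V := (cn G v).biUnion (cn G)

theorem mem_B2 {u v : V} : u ∈ B2 G v ↔ ∃ x ∈ cn G v, u ∈ cn G x := by
  unfold B2
  rw [mem_biUnion]

theorem mem_B2_comm {u v : V} : u ∈ B2 G v ↔ v ∈ B2 G u := by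
  rw [mem_B2, mem_B2]
  constructor
  · rintro ⟨x, hx, hu⟩
    exact ⟨x, mem_cn_comm.1 hu, mem_cn_comm.1 hx⟩
  · rintro ⟨x, hx, hu⟩
    exact ⟨x, mem_cn_comm.1 hu, mem_cn_comm.1 hx⟩

theorem self_mem_B2 {v : V} : v ∈ B2 G v := mem_B2.2 ⟨v, self_mem_cn, self_mem_cn⟩

/-- every vertex outside `U` has at most two neighbours in `U` -/
def Inv (G : SimpleGraph V) [DecidableRel G.Adj] (U : Finset V) : Prop :=
  ∀ x, x ∉ U → (cn G x ∩ U).card ≤ 2

theorem Inv.pick (hG : G.IsRegularOfDegree 3) {U : Finset V} (hU : Inv G U) (v : V) :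
    Inv G (U \ B2 G v) := by
  intro x hx
  by_cases hxU : x ∈ U
  · have hxB : x ∈ B2 G v := by
      by_contra h
      exact hx (mem_sdiff.2 ⟨hxU, h⟩)
    obtain ⟨y, hy, hyx⟩ := mem_B2.1 hxB
    -- `y` is in the closed neighbourhood of `x`, and in the ball
    have h1 : cn G x ∩ (U \ B2 G v) ⊆ ((cn G x).erase x).erase y := by
      intro z hz
      rw [mem_inter, mem_sdiff] at hz
      rw [mem_erase, mem_erase]
      refine ⟨?_, ?_, hz.1⟩
      · rintro rfl
        exact hz.2.2 (mem_B2.2 ⟨z, hy, self_mem_cn⟩)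
      · rintro rfl
        exact hz.2.2 hxB
    by_cases hyx2 : y = x
    · -- then everything near `x` is in the ball
      subst hyx2
      have : cn G y ∩ (U \ B2 G v) = ∅ := by
        rw [eq_empty_iff_forall_notMem]
        intro z hz
        rw [mem_inter, mem_sdiff] at hz
        exact hz.2.2 (mem_B2.2 ⟨y, hy, hz.1⟩)
      rw [this]
      simp
    · refine (card_le_card h1).trans ?_
      rw [card_erase_of_mem, card_erase_of_mem self_mem_cn, cn_card hG x]
      exact mem_erase.2 ⟨hyx2, mem_cn_comm.1 hyx⟩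
  · exact (card_le_card (inter_subset_inter_left sdiff_subset)).trans (hU x hxU)

/-- the greedy procedure -/
theorem game (hG : G.IsRegularOfDegree 3) (Ψ : Finset V → ℕ) (K : ℕ)
    (hstep : ∀ U : Finset V, Inv G U → U.Nonempty → U ≠ univ → ∃ v ∈ U, Ψ (U \ B2 G v) + 42 * K ≤ Ψ U) :
    ∀ (n : ℕ) (U : Finset V), U.card ≤ n → Inv G U → U ≠ univ →
      ∃ S ⊆ U, (∀ s ∈ S, ∀ t ∈ S, s ∈ B2 G t → s = t) ∧ (∀ x ∈ U, ∃ s ∈ S, x ∈ B2 G s) ∧
        42 * K * S.card ≤ Ψ U := by
  intro n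
  induction n with
  | zero =>
    intro U hn _ _
    refine ⟨∅, empty_subset _, by simp, fun x hx => ?_, by simp⟩
    have : U = ∅ := card_eq_zero.1 (by omega)
    rw [this] at hx
    exact absurd hx (notMem_empty x)
  | succ n ih =>
    intro U hn hI hU
    rcases U.eq_empty_or_nonempty with rfl | hne
    · exact ⟨∅, empty_subset _, by simp, fun x hx => absurd hx (notMem_empty x), by simp⟩
    obtain ⟨v, hv, hd⟩ := hstep U hI hne hU
    have hlt : (U \ B2 G v).card < U.card :=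
      card_lt_card ⟨sdiff_subset, fun h => (mem_sdiff.1 (h hv)).2 self_mem_B2⟩
    have hne2 : U \ B2 G v ≠ univ := fun h => by
      have := mem_univ v
      rw [← h, mem_sdiff] at this
      exact this.2 self_mem_B2
    obtain ⟨S, h1, h2, h3, h4⟩ := ih (U \ B2 G v) (by omega) (hI.pick hG v) hne2
    have hvS : v ∉ S := fun h => (mem_sdiff.1 (h1 h)).2 self_mem_B2
    refine ⟨insert v S, insert_subset hv (h1.trans sdiff_subset), ?_, ?_, ?_⟩
    · intro s hs t ht hst
      rw [mem_insert] at hs ht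
      rcases hs with rfl | hs <;> rcases ht with rfl | ht
      · rfl
      · exact absurd (mem_B2_comm.1 hst) (mem_sdiff.1 (h1 ht)).2
      · exact absurd hst (mem_sdiff.1 (h1 hs)).2
      · exact h2 s hs t ht hst
    · intro x hx
      by_cases hxv : x ∈ B2 G v
      · exact ⟨v, mem_insert_self _ _, hxv⟩
      · obtain ⟨s, hs, hxs⟩ := h3 x (mem_sdiff.2 ⟨hx, hxv⟩)
        exact ⟨s, mem_insert_of_mem hs, hxs⟩
    · rw [card_insert_of_notMem hvS]
      calc 42 * K * (S.card + 1) = 42 * K * S.card + 42 * K := by ring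
        _ ≤ Ψ U := by omega

/-- scattered dominating sets are maximal packings -/
theorem pk_of_scattered {S : Finset V} (h : ∀ s ∈ S, ∀ t ∈ S, s ∈ B2 G t → s = t) : Pk G S := by
  intro v
  rw [card_le_one]
  intro a ha b hb
  rw [mem_inter] at ha hb
  exact h a ha.2 b hb.2 (mem_B2.2 ⟨v, mem_cn_comm.1 hb.1, ha.1⟩)

theorem mx_of_dominating {S : Finset V} (h : ∀ x, ∃ s ∈ S, x ∈ B2 G s) : Mx G univ S := by
  intro v _
  obtain ⟨s, hs, hv⟩ := h v
  obtain ⟨x, hx, hvx⟩ := mem_B2.1 hv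
  exact ⟨x, mem_cn_comm.1 hvx, s, mem_inter.2 ⟨mem_cn_comm.1 hx, hs⟩⟩

/-- a small maximal packing from a potential -/
theorem packing_of_potential (hG : G.IsRegularOfDegree 3) (Ψ : Finset V → ℕ) (K : ℕ) (hK : 0 < K)
    (hstep : ∀ U : Finset V, Inv G U → U.Nonempty → U ≠ univ → ∃ v ∈ U, Ψ (U \ B2 G v) + 42 * K ≤ Ψ U)
    (hfirst : ∃ v : V, Ψ (univ \ B2 G v) + 9 * K ≤ 9 * K * Fintype.card V) :
    ∃ S : Finset V, Pk G S ∧ Mx G univ S ∧ 14 * S.card ≤ 3 * Fintype.card V + 11 := by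
  obtain ⟨v, hv⟩ := hfirst
  have hI : Inv G (univ : Finset V) := fun x hx => absurd (mem_univ x) hx
  have hne2 : (univ : Finset V) \ B2 G v ≠ univ := fun h => by
    have := mem_univ v
    rw [← h, mem_sdiff] at this
    exact this.2 self_mem_B2
  obtain ⟨S, h1, h2, h3, h4⟩ := game hG Ψ K hstep _ (univ \ B2 G v) le_rfl (hI.pick hG v) hne2
  have hvS : v ∉ S := fun h => (mem_sdiff.1 (h1 h)).2 self_mem_B2
  refine ⟨insert v S, pk_of_scattered ?_, mx_of_dominating ?_, ?_⟩
  · intro s hs t ht hst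
    rw [mem_insert] at hs ht
    rcases hs with rfl | hs <;> rcases ht with rfl | ht
    · rfl
    · exact absurd (mem_B2_comm.1 hst) (mem_sdiff.1 (h1 ht)).2
    · exact absurd hst (mem_sdiff.1 (h1 hs)).2
    · exact h2 s hs t ht hst
  · intro x
    by_cases hxv : x ∈ B2 G v
    · exact ⟨v, mem_insert_self _ _, hxv⟩
    · obtain ⟨s, hs, hxs⟩ := h3 x (mem_sdiff.2 ⟨mem_univ x, hxv⟩)
      exact ⟨s, mem_insert_of_mem hs, hxs⟩
  · rw [card_insert_of_notMem hvS]
    have h5 : K * (42 * S.card + 9) ≤ K * (9 * Fintype.card V) := by nlinarith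
    have h6 := Nat.le_of_mul_le_mul_left h5 hK
    omega

end EF18
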