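import Pool.Agent.Lib.MP_ef18bd_co.P.Hit3

/-!
# The link vertices of a piece killed by one pick: all patterns

`kpx`: the list of the patterns in which given ports are next to the ports of a new node, one after the other: a
port is joined to an earlier node, to the new node by an outer vertex, or by a new node.
-/

namespace EF18

open Finset

variable {V : Type} [Fintype V] [DecidableEq V] {G : SimpleGraph V} [DecidableRel G.Adj]

/-- the patterns: `n` the node of the pick, `u` the number of its used ports, `W` the nodes with a free port -/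
def kpx (n : ℕ) : List ℕ → ℕ → ℕ → ℕ → List ℕ → List (ℕ × ℕ)
  | [], M, q, _, _ => [(M, q)]
  | a :: as, M, q, u, W =>
    (W.flatMap fun w => kpx n as M (cdd a (3 * w + 2) q) u (W.filter fun w' => !Nat.beq w' w)) ++
      (bif Nat.ble 3 u then [] else
        kpx n as M (cll a (3 * n + u) q) (u + 1) W ++
          kpx n as (M + 1) (cdd (3 * n + u) (3 * M + 1) (cdd a (3 * M) q)) (u + 1) (M :: W))

theorem dg_cll {p k l : ℕ} (hkl : k ≠ l) (h0k : dg p k = 0) (h0l : dg p l = 0) (hk : k < 126)
    (hl : l < 126) (j : ℕ) :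
    dg (cll k l p) j = if j = l then 3 + 2 * k else if j = k then 3 + 2 * l else dg p j :=
  dg_pair hkl h0k h0l (by omega) (by omega) j


theorem in_of_three {U : Finset V} (hI : Inv G U) {y a b x : V} (ha : G.Adj y a) (hb : G.Adj y b)
    (hx : G.Adj y x) (ma : a ∈ U) (mb : b ∈ U) (mx : x ∈ U) (hab : a ≠ b) (hax : a ≠ x) (hbx : b ≠ x) :
    y ∈ U := by
  by_contra hno
  have h2 := nU_le_two hI hno
  have h3 : ({a, b, x} : Finset V) ⊆ G.neighborFinset y ∩ U := by
    intro z hz
    rw [mem_insert, mem_insert, mem_singleton] at hz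
    rw [mem_inter, SimpleGraph.mem_neighborFinset]
    rcases hz with rfl | rfl | rfl
    · exact ⟨ha, ma⟩
    · exact ⟨hb, mb⟩
    · exact ⟨hx, mx⟩
  have h4 : ({a, b, x} : Finset V).card = 3 := by
    rw [card_insert_of_notMem, card_insert_of_notMem, card_singleton]
    · rw [mem_singleton]; exact hbx
    · rw [mem_insert, mem_singleton]
      rintro (e | e)
      · exact hab e
      · exact hax e
  have h5 := card_le_card h3
  unfold nU at h2
  omega

theorem no_four (hG : G.IsRegularOfDegree 3) {y a b c x : V} (ha : G.Adj y a) (hb : G.Adj y b)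
    (hc : G.Adj y c) (hx : G.Adj y x) (hab : a ≠ b) (hac : a ≠ c) (hax : a ≠ x) (hbc : b ≠ c)
    (hbx : b ≠ x) (hcx : c ≠ x) : False := by
  have h3 : ({a, b, c, x} : Finset V) ⊆ G.neighborFinset y := by
    intro z hz
    rw [mem_insert, mem_insert, mem_insert, mem_singleton] at hz
    rw [SimpleGraph.mem_neighborFinset]
    rcases hz with rfl | rfl | rfl | rfl
    · exact ha
    · exact hb
    · exact hc
    · exact hx
  have h4 : ({a, b, c, x} : Finset V).card = 4 := by
    rw [card_insert_of_notMem, card_insert_of_notMem, card_insert_of_notMem, card_singleton]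
    · rw [mem_singleton]; exact hcx
    · rw [mem_insert, mem_singleton]
      rintro (e | e)
      · exact hbc e
      · exact hbx e
    · rw [mem_insert, mem_insert, mem_singleton]
      rintro (e | e | e)
      · exact hab e
      · exact hac e
      · exact hax e
  have h5 := card_le_card h3
  rw [h4, nbr_card hG] at h5
  omega

/-- **one of the patterns is in `U`** -/
theorem kpx_ex (hG : G.IsRegularOfDegree 3) {U : Finset V} (hI : Inv G U) {n : ℕ} {x : V} (hx : x ∈ U)
    {y z : ℕ → V} {A : List ℕ}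
    (F1 : ∀ a ∈ A, z a ∈ U ∧ G.Adj (y a) (z a) ∧ G.Adj x (y a) ∧ z a ≠ x)
    (F2 : ∀ a ∈ A, ∀ b ∈ A, a ≠ b → z a ≠ z b) :
    ∀ (as : List ℕ) (M q u : ℕ) (W done : List ℕ) (φ ν : ℕ → V), Emb G U M q φ ν →
      M + as.length ≤ 40 → n < M → φ n = x → u ≤ 3 → (∀ i, u ≤ i → i < 3 → dg q (3 * n + i) = 0) →
      (∀ i < u, ∃ b ∈ done, ν (3 * n + i) = y b) →
      (∀ i < M, i < n ∨ i = n ∨ ∃ b ∈ done, φ i = y b) →
      (∀ b ∈ done, y b ∉ U ∨ (∃ w ∈ W, φ w = y b) ∨ ∃ b' ∈ done, b' ≠ b ∧ y b' = y b) →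
      (∀ w ∈ W, n < w ∧ w < M ∧ dg q (3 * w + 2) = 0 ∧ ν (3 * w + 1) = x ∧
        ∃ b ∈ done, ν (3 * w) = z b) →
      as.Nodup → (∀ a ∈ as, a ∉ done) → (∀ a ∈ as, a ∈ A) → (∀ a ∈ done, a ∈ A) →
      (∀ a ∈ as, a < 3 * n ∧ dg q a = 0 ∧ ν a = y a ∧ φ (a / 3) = z a) →
      (∀ a ∈ as, ∀ i < n, φ i ≠ y a) →
      ∃ s ∈ kpx n as M q u W, ∃ φ' ν' : ℕ → V, Emb G U s.1 s.2 φ' ν' := by
  intro as
  induction as with
  | nil =>
    intro M q u W done φ ν h _ _ _ _ _ _ _ _ _ _ _ _ _ _ _
    exact ⟨(M, q), by rw [kpx]; exact List.mem_singleton.2 rfl, φ, ν, h⟩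
  | cons a as ih =>
    intro M q u W done φ ν h hM hn hφ hu hop p2 p1 p3 p4 hnd hds hA hdA hpo hno
    have hM' : M + (as.length + 1) ≤ 40 := by rwa [List.length_cons] at hM
    have haA : a ∈ A := hA a List.mem_cons_self
    obtain ⟨q1, q2, q3, q4⟩ := hpo a List.mem_cons_self
    obtain ⟨r1, r2, r3, r4⟩ := F1 a haA
    have hnd' := List.nodup_cons.1 hnd
    have had : a ∉ done := hds a List.mem_cons_self
    have hca : ∀ c ∈ as, c ≠ a := fun c hc e => hnd'.1 (by rw [← e]; exact hc)
    have hsub : ∀ b ∈ done, b ∈ a :: done := fun b hb => List.mem_cons_of_mem _ hb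
    have hds' : ∀ b ∈ as, b ∉ a :: done := fun b hb hc => by
      rcases List.mem_cons.1 hc with rfl | hc
      · exact hnd'.1 hb
      · exact hds b (List.mem_cons_of_mem _ hb) hc
    have hdA' : ∀ b ∈ a :: done, b ∈ A := fun b hb => by
      rcases List.mem_cons.1 hb with rfl | hb
      · exact haA
      · exact hdA b hb
    by_cases hy : ∃ b ∈ done, y a = y b
    · obtain ⟨b, hb, hyb⟩ := hy
      have hab : a ≠ b := fun e => had (e ▸ hb)
      obtain ⟨s1, s2, s3, s4⟩ := F1 b (hdA b hb)
      have hzz := F2 a haA b (hdA b hb) hab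
      have hyU : y a ∈ U := in_of_three hI r2 (by rw [hyb]; exact s2) r3.symm r1 s1 hx hzz r4 s4
      rcases p3 b hb with h1 | ⟨w, hw, h1⟩ | ⟨b', hb', h1, h2⟩
      · exact absurd (hyb ▸ hyU) h1
      · -- a second port of the node `w`
        obtain ⟨w1, w2, w3, w4, b0, hb0, w5⟩ := p4 w hw
        have hzb0 : z b0 ≠ z a := (F2 a haA b0 (hdA b0 hb0) fun e => had (e ▸ hb0)).symm
        have e1 : ν (3 * w + 2) = z a := by
          obtain ⟨k, k1, k2, k3⟩ := h.surj hG w2 (y := z a) (by rw [h1, ← hyb]; exact r2)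
          rcases (by omega : k = 3 * w ∨ k = 3 * w + 1 ∨ k = 3 * w + 2) with rfl | rfl | rfl
          · exact absurd (w5.symm.trans k3) hzb0
          · exact absurd (w4.symm.trans k3) r4.symm
          · exact k3
        have e2 : Emb G U M (cdd a (3 * w + 2) q) φ ν := h.set_dir (by omega) (by omega) (by omega)
          (by omega) q2 w3 (by rw [show (3 * w + 2) / 3 = w by omega, h1, ← hyb, q3]) (by rw [e1, q4])
        have hd := dg_cdd (p := q) (k := a) (l := 3 * w + 2) (by omega) q2 w3 (by omega) (by omega)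
        obtain ⟨s, hs, hs'⟩ := ih M (cdd a (3 * w + 2) q) u (W.filter fun w' => !Nat.beq w' w) (a :: done)
          φ ν e2 (by omega) hn hφ hu
          (fun i h2 h3 => by rw [hd, if_neg (by omega), if_neg (by omega)]; exact hop i h2 h3)
          (fun i hi => by
            obtain ⟨c, c1, c2⟩ := p2 i hi
            exact ⟨c, hsub c c1, c2⟩)
          (fun i hi => by
            rcases p1 i hi with c | c | ⟨c, c1, c2⟩
            · exact Or.inl c
            · exact Or.inr (Or.inl c)
            · exact Or.inr (Or.inr ⟨c, hsub c c1, c2⟩))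
          (fun c hc => by
            rcases List.mem_cons.1 hc with rfl | hc
            · exact Or.inr (Or.inr ⟨b, hsub b hb, hab.symm, hyb.symm⟩)
            · rcases p3 c hc with c1 | ⟨w', c1, c2⟩ | ⟨c', c1, c2, c3⟩
              · exact Or.inl c1
              · by_cases hww : w' = w
                · right; right
                  refine ⟨a, List.mem_cons_self, fun e => had (e ▸ hc), ?_⟩
                  rw [hyb, ← h1, ← hww, c2]
                · refine Or.inr (Or.inl ⟨w', List.mem_filter.2 ⟨c1, ?_⟩, c2⟩)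
                  rw [Bool.not_eq_true']
                  cases hbq : Nat.beq w' w
                  · rfl
                  · exact absurd (Nat.eq_of_beq_eq_true hbq) hww
              · exact Or.inr (Or.inr ⟨c', hsub c' c1, c2, c3⟩))
          (fun w' hw' => by
            obtain ⟨hw1, hw2⟩ := List.mem_filter.1 hw'
            have hww : w' ≠ w := fun e => by
              rw [e, Nat.beq_refl] at hw2
              exact absurd hw2 (by simp)
            obtain ⟨c1, c2, c3, c4, c, hc, c5⟩ := p4 w' hw1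
            refine ⟨c1, c2, ?_, c4, c, hsub c hc, c5⟩
            rw [hd, if_neg (by omega), if_neg (by omega)]
            exact c3)
          hnd'.2 hds' (fun c hc => hA c (List.mem_cons_of_mem _ hc)) hdA'
          (fun c hc => by
            obtain ⟨c1, c2, c3, c4⟩ := hpo c (List.mem_cons_of_mem _ hc)
            refine ⟨c1, ?_, c3, c4⟩
            rw [hd, if_neg (by omega), if_neg (hca c hc)]
            exact c2)
          (fun c hc => hno c (List.mem_cons_of_mem _ hc))
        refine ⟨s, ?_, hs'⟩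
        rw [kpx]
        exact List.mem_append_left _ (List.mem_flatMap.2 ⟨w, hw, hs⟩)
      · obtain ⟨t1, t2, t3, t4⟩ := F1 b' (hdA b' hb')
        have h3 : z a ≠ z b' := F2 a haA b' (hdA b' hb') fun e => had (by rw [e]; exact hb')
        have h4 : z b ≠ z b' := F2 b (hdA b hb) b' (hdA b' hb') h1.symm
        exact (no_four hG (y := y a) r2 (by rw [hyb]; exact s2) (by rw [hyb, ← h2]; exact t2) r3.symm
          hzz h3 r4 h4 s4 t4).elim
    · -- a new neighbour of the pick
      push Not at hy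
      obtain ⟨k, k1, k2, k3⟩ := h.surj hG hn (y := y a) (by rw [hφ]; exact r3)
      have hku : 3 * n + u ≤ k := by
        by_contra hc
        push Not at hc
        obtain ⟨b, hb, hb2⟩ := p2 (k - 3 * n) (by omega)
        rw [show 3 * n + (k - 3 * n) = k by omega, k3] at hb2
        exact hy b hb hb2
      have hu3 : u < 3 := by omega
      have hk0 : dg q k = 0 := by
        have := hop (k - 3 * n) (by omega) (by omega)
        rwa [show 3 * n + (k - 3 * n) = k by omega] at this
      have hu0 : dg q (3 * n + u) = 0 := hop u le_rfl hu3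
      have e1 := h.swap (b := 3 * n + u) (c := k) (by omega) k2 (by omega) hu0 hk0
      obtain ⟨ν1, hν1⟩ : ∃ f : ℕ → V, f = fun j => ν (Equiv.swap (3 * n + u) k j) := ⟨_, rfl⟩
      rw [← hν1] at e1
      have v1 : ν1 (3 * n + u) = y a := by
        rw [hν1]
        beta_reduce
        rw [Equiv.swap_apply_left, k3]
      have v2 : ∀ j, j ≠ 3 * n + u → j ≠ k → ν1 j = ν j := by
        intro j h1 h2
        rw [hν1]
        beta_reduce
        rw [Equiv.swap_apply_of_ne_of_ne h1 h2]
      have v3 : ∀ j, j < 3 * n + u → ν1 j = ν j := fun j hj => v2 j (by omega) (by omega)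
      have v4 : ∀ j, 3 * (n + 1) ≤ j → ν1 j = ν j := fun j hj => v2 j (by omega) (by omega)
      have hkx : kpx n (a :: as) M q u W =
          (W.flatMap fun w => kpx n as M (cdd a (3 * w + 2) q) u (W.filter fun w' => !Nat.beq w' w)) ++
          (kpx n as M (cll a (3 * n + u) q) (u + 1) W ++
            kpx n as (M + 1) (cdd (3 * n + u) (3 * M + 1) (cdd a (3 * M) q)) (u + 1) (M :: W)) := by
        rw [kpx]
        cases hb3 : Nat.ble 3 u
        · rfl
        · have : 3 ≤ u := Nat.le_of_ble_eq_true hb3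
          omega
      by_cases hyU : y a ∈ U
      · -- a new node
        have hnew : ∀ i < M, φ i ≠ y a := by
          intro i hi
          rcases p1 i hi with c | c | ⟨c, c1, c2⟩
          · exact hno a List.mem_cons_self i c
          · rw [c, hφ]; exact r3.ne
          · rw [c2]; exact (hy c c1).symm
        obtain ⟨φ2, ν2, e2, g1, g2, g3⟩ := e1.two hG hI (by omega) (a := 0) (b := 0) (k := a)
          (l := 3 * n + u) (y := y a) hyU hnew (by omega) (by omega) (by omega) q2 hu0
          (Or.inl ⟨rfl, by rw [v3 a (by omega), q3]⟩) (Or.inl ⟨rfl, v1⟩)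
        have e2' : Emb G U (M + 1) (cdd (3 * n + u) (3 * M + 1) (cdd a (3 * M) q)) φ2 ν2 := e2
        have z0 : dg q (3 * M) = 0 := h.zero _ le_rfl
        have d1 := dg_cdd (p := q) (k := a) (l := 3 * M) (by omega) q2 z0 (by omega) (by omega)
        have z1 : dg (cdd a (3 * M) q) (3 * n + u) = 0 := by
          rw [d1, if_neg (by omega), if_neg (by omega), hu0]
        have z2 : dg (cdd a (3 * M) q) (3 * M + 1) = 0 := by
          rw [d1, if_neg (by omega), if_neg (by omega)]
          exact h.zero _ (by omega)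
        have d2 := dg_cdd (p := cdd a (3 * M) q) (k := 3 * n + u) (l := 3 * M + 1) (by omega) z1 z2
          (by omega) (by omega)
        have hd : ∀ j, j < 3 * M → j ≠ a → j ≠ 3 * n + u →
            dg (cdd (3 * n + u) (3 * M + 1) (cdd a (3 * M) q)) j = dg q j := by
          intro j j1 j2 j3
          rw [d2, if_neg (by omega), if_neg j3, d1, if_neg (by omega), if_neg j2]
        have w5 : ν2 (3 * M) = z a := by
          have := e2'.dir (3 * M) (by omega) a (by
            rw [d2, if_neg (by omega), if_neg (by omega), d1, if_pos rfl])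
          rw [this.2.2.1, g1 _ (by omega), q4]
        have w4 : ν2 (3 * M + 1) = x := by
          have := e2'.dir (3 * M + 1) (by omega) (3 * n + u) (by rw [d2, if_pos rfl])
          rw [this.2.2.1, show (3 * n + u) / 3 = n by omega, g1 _ hn, hφ]
        obtain ⟨s, hs, hs'⟩ := ih (M + 1) (cdd (3 * n + u) (3 * M + 1) (cdd a (3 * M) q)) (u + 1) (M :: W)
          (a :: done) φ2 ν2 e2' (by omega) (by omega) (by rw [g1 n hn, hφ]) (by omega)
          (fun i h2 h3 => by rw [hd _ (by omega) (by omega) (by omega)]; exact hop i (by omega) h3)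
          (fun i hi => by
            rcases Nat.lt_succ_iff_lt_or_eq.1 hi with hi | rfl
            · obtain ⟨c, c1, c2⟩ := p2 i hi
              exact ⟨c, hsub c c1, by rw [g2 _ (by omega), v3 _ (by omega), c2]⟩
            · exact ⟨a, List.mem_cons_self, by rw [g2 _ (by omega), v1]⟩)
          (fun i hi => by
            rcases Nat.lt_succ_iff_lt_or_eq.1 hi with hi | rfl
            · rcases p1 i hi with c | c | ⟨c, c1, c2⟩
              · exact Or.inl c
              · exact Or.inr (Or.inl c)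
              · exact Or.inr (Or.inr ⟨c, hsub c c1, by rw [g1 i hi, c2]⟩)
            · exact Or.inr (Or.inr ⟨a, List.mem_cons_self, g3⟩))
          (fun c hc => by
            rcases List.mem_cons.1 hc with rfl | hc
            · exact Or.inr (Or.inl ⟨M, List.mem_cons_self, g3⟩)
            · rcases p3 c hc with c1 | ⟨w', c1, c2⟩ | ⟨c', c1, c2, c3⟩
              · exact Or.inl c1
              · exact Or.inr (Or.inl ⟨w', List.mem_cons_of_mem _ c1, by rw [g1 _ (p4 w' c1).2.1, c2]⟩)
              · exact Or.inr (Or.inr ⟨c', hsub c' c1, c2, c3⟩))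
          (fun w' hw' => by
            rcases List.mem_cons.1 hw' with rfl | hw'
            · refine ⟨hn, Nat.lt_succ_self _, ?_, w4, a, List.mem_cons_self, w5⟩
              rw [d2, if_neg (by omega), if_neg (by omega), d1, if_neg (by omega), if_neg (by omega)]
              exact h.zero _ (by omega)
            · obtain ⟨c1, c2, c3, c4, c, hc, c5⟩ := p4 w' hw'
              refine ⟨c1, by omega, ?_, ?_, c, hsub c hc, ?_⟩
              · rw [hd _ (by omega) (by omega) (by omega)]
                exact c3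
              · rw [g2 _ (by omega), v4 _ (by omega), c4]
              · rw [g2 _ (by omega), v4 _ (by omega), c5])
          hnd'.2 hds' (fun c hc => hA c (List.mem_cons_of_mem _ hc)) hdA'
          (fun c hc => by
            obtain ⟨c1, c2, c3, c4⟩ := hpo c (List.mem_cons_of_mem _ hc)
            refine ⟨c1, ?_, ?_, ?_⟩
            · rw [hd _ (by omega) (hca c hc) (by omega)]
              exact c2
            · rw [g2 _ (by omega), v3 _ (by omega), c3]
            · rw [g1 _ (by omega), c4])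
          (fun c hc i hi => by rw [g1 _ (by omega)]; exact hno c (List.mem_cons_of_mem _ hc) i hi)
        refine ⟨s, ?_, hs'⟩
        rw [hkx]
        exact List.mem_append_right _ (List.mem_append_right _ hs)
      · -- an outer vertex
        have e2 : Emb G U M (cll a (3 * n + u) q) φ ν1 := e1.set_lnk (by omega) (by omega) (by omega)
          (by omega) q2 hu0 (by rw [v3 a (by omega), q3]; exact hyU) (by rw [v1, v3 a (by omega), q3])
        have d1 := dg_cll (p := q) (k := a) (l := 3 * n + u) (by omega) q2 hu0 (by omega) (by omega)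
        have hd : ∀ j, j ≠ a → j ≠ 3 * n + u → dg (cll a (3 * n + u) q) j = dg q j := by
          intro j j2 j3
          rw [d1, if_neg j3, if_neg j2]
        obtain ⟨s, hs, hs'⟩ := ih M (cll a (3 * n + u) q) (u + 1) W (a :: done) φ ν1 e2 (by omega) hn hφ
          (by omega) (fun i h2 h3 => by rw [hd _ (by omega) (by omega)]; exact hop i (by omega) h3)
          (fun i hi => by
            rcases Nat.lt_succ_iff_lt_or_eq.1 hi with hi | rfl
            · obtain ⟨c, c1, c2⟩ := p2 i hi
              exact ⟨c, hsub c c1, by rw [v3 _ (by omega), c2]⟩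
            · exact ⟨a, List.mem_cons_self, v1⟩)
          (fun i hi => by
            rcases p1 i hi with c | c | ⟨c, c1, c2⟩
            · exact Or.inl c
            · exact Or.inr (Or.inl c)
            · exact Or.inr (Or.inr ⟨c, hsub c c1, c2⟩))
          (fun c hc => by
            rcases List.mem_cons.1 hc with rfl | hc
            · exact Or.inl hyU
            · rcases p3 c hc with c1 | ⟨w', c1, c2⟩ | ⟨c', c1, c2, c3⟩
              · exact Or.inl c1
              · exact Or.inr (Or.inl ⟨w', c1, c2⟩)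
              · exact Or.inr (Or.inr ⟨c', hsub c' c1, c2, c3⟩))
          (fun w' hw' => by
            obtain ⟨c1, c2, c3, c4, c, hc, c5⟩ := p4 w' hw'
            refine ⟨c1, c2, ?_, ?_, c, hsub c hc, ?_⟩
            · rw [hd _ (by omega) (by omega)]
              exact c3
            · rw [v4 _ (by omega), c4]
            · rw [v4 _ (by omega), c5])
          hnd'.2 hds' (fun c hc => hA c (List.mem_cons_of_mem _ hc)) hdA'
          (fun c hc => by
            obtain ⟨c1, c2, c3, c4⟩ := hpo c (List.mem_cons_of_mem _ hc)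
            refine ⟨c1, ?_, ?_, c4⟩
            · rw [hd _ (hca c hc) (by omega)]
              exact c2
            · rw [v3 _ (by omega), c3])
          (fun c hc => hno c (List.mem_cons_of_mem _ hc))
        refine ⟨s, ?_, hs'⟩
        rw [hkx]
        exact List.mem_append_right _ (List.mem_append_left _ hs)

/-- **the patterns of the ports which are next to the ports of one pick** -/
theorem kpx_start (hG : G.IsRegularOfDegree 3) {U : Finset V} (hI : Inv G U) {n p : ℕ} {φ ν : ℕ → V}
    (h : Emb G U n p φ ν) {x : V} (hx : x ∈ U) (hxn : ∀ i < n, φ i ≠ x) {as : List ℕ} (hnd : as.Nodup)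
    (hn : n + 1 + as.length ≤ 40)
    (hp : ∀ a ∈ as, a < 3 * n ∧ dg p a = 0 ∧ G.Adj x (ν a) ∧ ∀ i < n, φ i ≠ ν a)
    (hi : ∀ a ∈ as, ∀ b ∈ as, a ≠ b → φ (a / 3) ≠ φ (b / 3)) :
    ∃ s ∈ kpx n as (n + 1) p 0 [], ∃ φ' ν' : ℕ → V, Emb G U s.1 s.2 φ' ν' := by
  have hne : (G.neighborFinset x).Nonempty := by
    rw [← card_pos, nbr_card hG]
    norm_num
  obtain ⟨t, ht⟩ := hne
  rw [SimpleGraph.mem_neighborFinset] at ht
  obtain ⟨φ0, ν0, e0, f1, f2, f3, -⟩ := h.extend hG hx hxn ht
  refine kpx_ex hG hI hx (y := ν) (z := fun a => φ (a / 3)) (A := as) (fun a ha => ?_) hi as (n + 1) p 0 []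
    [] φ0 ν0 e0 hn (Nat.lt_succ_self _) f3 (by norm_num) (fun i _ _ => h.zero _ (by omega))
    (fun i hi => absurd hi (Nat.not_lt_zero _)) (fun i hi => ?_) (fun b hb => absurd hb List.not_mem_nil)
    (fun b hb => absurd hb List.not_mem_nil) hnd (fun _ _ => List.not_mem_nil) (fun _ h => h)
    (fun b hb => absurd hb List.not_mem_nil) (fun a ha => ?_) (fun a ha i hi => ?_)
  · obtain ⟨a1, a2, a3, a4⟩ := hp a ha
    exact ⟨h.mem _ (by omega), (h.adj a a1).symm, a3, hxn _ (by omega)⟩
  · rcases Nat.lt_succ_iff_lt_or_eq.1 hi with h1 | h1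
    · exact Or.inl h1
    · exact Or.inr (Or.inl h1)
  · obtain ⟨a1, a2, a3, a4⟩ := hp a ha
    exact ⟨a1, a2, f2 a a1, f1 _ (by omega)⟩
  · rw [f1 i hi]
    exact (hp a ha).2.2.2 i hi

/-! ### the checks -/

/-- all the patterns of the killed link vertices `Z` are excluded -/
def kqf (XL : List (ℕ × ℕ)) (r : ℕ × ℕ) (Z : List ℕ) : Bool :=
  (kpx r.1 (Z.map (thp r)) (r.1 + 1) r.2 0 []).all fun s => mem2 s XL

/-- for a pair of the list -/
def anyp (f : ℕ → ℕ → Bool) : List ℕ → Bool
  | [] => false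
  | x :: L => L.any (f x) || anyp f L

theorem anyp_of {f : ℕ → ℕ → Bool} : ∀ {L : List ℕ}, anyp f L = true → ∃ x y, [x, y].Sublist L ∧
    f x y = true := by
  intro L
  induction L with
  | nil => intro h; exact absurd h (by simp [anyp])
  | cons a L ih =>
    intro h
    rw [anyp, Bool.or_eq_true] at h
    rcases h with h | h
    · obtain ⟨y, hy, hf⟩ := List.any_eq_true.1 h
      exact ⟨a, y, List.Sublist.cons_cons _ (List.singleton_sublist.2 hy), hf⟩
    · obtain ⟨x, y, h1, h2⟩ := ih h
      exact ⟨x, y, List.Sublist.cons _ h1, h2⟩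

/-- the bound `κ` from the lists of the patterns -/
def kpq (XL : List (ℕ × ℕ)) (r : ℕ × ℕ) (n : ℕ) (S : List ℕ) (κ : ℕ) : Bool :=
  Nat.ble (r.1 + κ + 2) 40 && nwi r n && S.all (nwk r n) &&
    S.sublists.all fun Z => !Nat.beq Z.length (Nat.succ κ) || (kqf XL r Z || anyp (fbp XL r) Z)

/-- no pick kills more than `κ` of the live link vertices `S` of the piece `q` -/
def kpc4 (XL : List (ℕ × ℕ)) (q : ℕ × ℕ) (S : List ℕ) (κ : ℕ) : Bool :=
  kpc3 XL q S κ || frc (rt q S).1 fun N => frc (rt q S).2 fun p => kpq XL (N, p) q.1 S κ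

/-- **the number of the live link vertices killed by one pick, from the lists of the patterns** -/
theorem kpq_le (hG : G.IsRegularOfDegree 3) {U E : Finset V} (hI : Inv G U) (hEU : E ⊆ U) {n p : ℕ}
    {φ ν : ℕ → V} (h : Emb G E n p φ ν) (hE : ∀ x ∈ E, ∃ i < n, φ i = x) (hp : full1 n p)
    (h40 : n + (lkp (n, p)).length ≤ 40) {S : List ℕ} (hS : S = (lkp (n, p)).filter fun k => ν k ∈ U)
    {XL : List (ℕ × ℕ)} (hX : NoE G U XL) {κ : ℕ} (hκ : kpq XL (rt (n, p) S) n S κ = true) {x : V}
    (hx : Far G U E x) : (S.filter fun k => ν k ∈ B2 G x).length ≤ κ := by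
  obtain ⟨r, hr⟩ : ∃ r, r = rt (n, p) S := ⟨_, rfl⟩
  rw [← hr] at hκ
  unfold kpq at hκ
  simp only [Bool.and_eq_true] at hκ
  obtain ⟨⟨⟨c1, c2⟩, c3⟩, c4⟩ := hκ
  have c1' : r.1 + κ + 2 ≤ 40 := Nat.le_of_ble_eq_true c1
  have hIE : Inv G E := Pc.inv hG hp ⟨φ, ν, h, hE⟩
  have hSl : ∀ k ∈ S, k ∈ lkp (n, p) := fun k hk => (List.mem_filter.1 (hS ▸ hk)).1
  have hnd : S.Nodup := by
    rw [hS]
    exact (nodup_lkp _).filter _
  by_contra hc
  push Not at hc
  obtain ⟨H, hH⟩ : ∃ H, H = (S.filter fun k => ν k ∈ B2 G x).take (Nat.succ κ) := ⟨_, rfl⟩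
  have hHS : H.Sublist S := by
    rw [hH]
    exact (List.take_sublist _ _).trans List.filter_sublist
  have hHl : H.length = Nat.succ κ := by
    rw [hH, List.length_take]
    exact min_eq_left hc
  have hHk : ∀ k ∈ H, k ∈ S ∧ ν k ∈ B2 G x := fun k hk => by
    rw [hH] at hk
    have := List.mem_filter.1 (List.mem_of_mem_take hk)
    exact ⟨this.1, of_decide_eq_true this.2⟩
  have hHn : H.Nodup := List.Sublist.nodup hHS hnd
  have c5 := List.all_eq_true.1 c4 H (List.mem_sublists.2 hHS)
  rw [hHl, Nat.beq_refl, Bool.not_true, Bool.false_or, Bool.or_eq_true] at c5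
  rcases c5 with c5 | c5
  · obtain ⟨φ', ν', e1, hxn, key⟩ := near_port hG hEU h hE hp h40 hS hr c2 hx
    have key' : ∀ k ∈ H, thp r k < 3 * r.1 ∧ dg r.2 (thp r k) = 0 ∧ φ' (thp r k / 3) = ν k ∧
        G.Adj x (ν' (thp r k)) ∧ ∀ i < r.1, φ' i ≠ ν' (thp r k) := fun k hk =>
      key k (hHk k hk).1 (List.all_eq_true.1 c3 k (hHk k hk).1) (hHk k hk).2
    have hinj : ∀ k ∈ H, ∀ k' ∈ H, φ' (thp r k / 3) = φ' (thp r k' / 3) → k = k' := by
      intro k hk k' hk' e
      rw [(key' k hk).2.2.1, (key' k' hk').2.2.1] at e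
      exact lk_inj hIE h (hSl _ (hHk k hk).1) (hSl _ (hHk k' hk').1) e
    obtain ⟨s, s1, φ2, ν2, s2⟩ := kpx_start hG hI e1 hx.mem hxn (as := H.map (thp r))
      ((List.nodup_map_iff_inj_on hHn).2 fun k hk k' hk' e => hinj k hk k' hk' (by rw [e]))
      (by rw [List.length_map, hHl]; omega) (fun a ha => by
        obtain ⟨k, hk, rfl⟩ := List.mem_map.1 ha
        obtain ⟨a1, a2, a3, a4, a5⟩ := key' k hk
        exact ⟨a1, a2, a4, a5⟩) (fun a ha b hb hab e => by
        obtain ⟨k, hk, rfl⟩ := List.mem_map.1 ha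
        obtain ⟨k', hk', rfl⟩ := List.mem_map.1 hb
        exact hab (by rw [hinj k hk k' hk' e]))
    exact hX s (mem2_of (List.all_eq_true.1 c5 s s1)) φ2 ν2 s2
  · obtain ⟨k, k', h1, h2⟩ := anyp_of c5
    have hk : k ∈ H := h1.subset List.mem_cons_self
    have hk' : k' ∈ H := h1.subset (List.mem_cons_of_mem _ List.mem_cons_self)
    have hne : k ≠ k' := fun e => by
      have := List.Sublist.nodup h1 hHn
      rw [e] at this
      simp at this
    have hl := h1.length_le
    rw [hHl] at hl
    simp only [List.length_cons, List.length_nil] at hl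
    exact fbp_no hG hI hEU h hE hp h40 hS hr (by omega) c2 hX hx (hHk k hk).1 (hHk k' hk').1 hne
      (List.all_eq_true.1 c3 k (hHk k hk).1) (List.all_eq_true.1 c3 k' (hHk k' hk').1) (hHk k hk).2
      (hHk k' hk').2 h2

/-- **the number of the live link vertices killed by one pick** -/
theorem kap4_le (hG : G.IsRegularOfDegree 3) {U E : Finset V} (hI : Inv G U) (hEU : E ⊆ U) {n p : ℕ}
    {φ ν : ℕ → V} (h : Emb G E n p φ ν) (hE : ∀ x ∈ E, ∃ i < n, φ i = x) (hp : full1 n p)
    (h40 : n + (lkp (n, p)).length ≤ 40) {S : List ℕ} (hS : S = (lkp (n, p)).filter fun k => ν k ∈ U)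
    {XL : List (ℕ × ℕ)} (hX : NoE G U XL) {κ : ℕ} (hκ : kpc4 XL (n, p) S κ = true) {x : V}
    (hx : Far G U E x) : (S.filter fun k => ν k ∈ B2 G x).length ≤ κ := by
  unfold kpc4 at hκ
  rw [Bool.or_eq_true, frc_eq, frc_eq] at hκ
  rcases hκ with hκ | hκ
  · exact kap3_le hG hI hEU h hE hp h40 hS hX hκ hx
  · exact kpq_le hG hI hEU h hE hp h40 hS hX hκ hx

/-- **the number of the hits of a piece** -/
theorem hit_le4 (hG : G.IsRegularOfDegree 3) {U E : Finset V} (hI : Inv G U) {X : List V}
    (hPk : ∀ x ∈ X, x ∈ U) (hEU : E ⊆ rem G U X) {n p : ℕ} {φ ν : ℕ → V} (h : Emb G E n p φ ν)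
    (hE : ∀ x ∈ E, ∃ i < n, φ i = x) (hp : full1 n p) (h40 : n + (lkp (n, p)).length ≤ 40) {S : List ℕ}
    (hS : S = (lkp (n, p)).filter fun k => ν k ∈ U) {XL : List (ℕ × ℕ)} (hX : NoE G U XL) {κ : ℕ}
    (hκ : kpc4 XL (n, p) S κ = true) :
    (hit G U (rem G U X) E).card ≤ S.length ∧ (hit G U (rem G U X) E).card ≤ X.length * κ := by
  classical
  have hnd : S.Nodup := by
    rw [hS]
    exact (nodup_lkp _).filter _
  rw [hit_card hG hEU h hE hp]
  obtain ⟨T, hT⟩ : ∃ T, T = (lkp (n, p)).filter fun k => ν k ∈ U ∧ ν k ∉ rem G U X := ⟨_, rfl⟩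
  rw [← hT]
  have hTn : T.Nodup := by
    rw [hT]
    exact (nodup_lkp _).filter _
  have hTS : ∀ k ∈ T, k ∈ S ∧ ∃ x ∈ X, ν k ∈ B2 G x := by
    intro k hk
    rw [hT, List.mem_filter] at hk
    obtain ⟨h1, h2⟩ := hk
    have h2 := of_decide_eq_true h2
    refine ⟨by rw [hS]; exact List.mem_filter.2 ⟨h1, decide_eq_true h2.1⟩, ?_⟩
    by_contra hc
    push Not at hc
    exact h2.2 (mem_rem.2 ⟨h2.1, hc⟩)
  constructor
  · exact (List.subperm_of_subset hTn fun k hk => (hTS k hk).1).length_le
  · have h1 : T.toFinset ⊆ X.toFinset.biUnion fun x => (S.filter fun k => ν k ∈ B2 G x).toFinset := by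
      intro k hk
      obtain ⟨h2, x, h3, h4⟩ := hTS k (List.mem_toFinset.1 hk)
      exact mem_biUnion.2 ⟨x, List.mem_toFinset.2 h3, List.mem_toFinset.2
        (List.mem_filter.2 ⟨h2, decide_eq_true h4⟩)⟩
    have h2 := card_le_card h1
    rw [List.toFinset_card_of_nodup hTn] at h2
    refine h2.trans (card_biUnion_le.trans ?_)
    have h3 : ∀ x ∈ X.toFinset, ((S.filter fun k => ν k ∈ B2 G x).toFinset).card ≤ κ := fun x hx => by
      rw [List.toFinset_card_of_nodup (hnd.filter _)]
      have hx := List.mem_toFinset.1 hx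
      exact kap4_le hG hI (hEU.trans rem_subset) h hE hp h40 hS hX hκ
        ⟨hPk x hx, fun y hy => (mem_rem.1 (hEU hy)).2 x hx⟩
    refine (sum_le_sum h3).trans ?_
    rw [sum_const, smul_eq_mul]
    exact Nat.mul_le_mul_right κ X.toFinset_card_le

/-! ### the tables -/

/-- the check for a piece: `KD`: the bounds `κ`, by the number of the dead link vertices -/
def pck4 (XL : List (ℕ × ℕ)) (Ts : List (List ℕ)) (e : CPc) (KD : List ℕ) : Bool :=
  (e.2.all fun x => Nat.ble x 1000) &&
  ((lkp e.1).sublists.all fun S => kpc4 XL e.1 S (KD.getD ((lkp e.1).length - S.length) 0) ||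
    mem2 (rt e.1 S) XL) &&
  (List.range ((lkp e.1).length + 1)).all fun d => (List.range Ts.length).all fun i =>
    tkd (Ts.getD i []) e.2 d (Nat.min ((lkp e.1).length - d) ((i + 1) * KD.getD d 0))

/-- the check for all pieces -/
def pcks4 (XL : List (ℕ × ℕ)) (Ts : List (List ℕ)) : List CPc → List (List ℕ) → Bool
  | [], _ => true
  | e :: CL, Ks => match Ks with
    | [] => false
    | K :: Ks => pck4 XL Ts e K && pcks4 XL Ts CL Ks

theorem pcks4_of {XL : List (ℕ × ℕ)} {Ts : List (List ℕ)} : ∀ {CL : List CPc} {Ks : List (List ℕ)},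
    pcks4 XL Ts CL Ks = true → ∀ e ∈ CL, ∃ K, pck4 XL Ts e K = true := by
  intro CL
  induction CL with
  | nil => intro Ks _ e he; exact absurd he List.not_mem_nil
  | cons a CL ih =>
    intro Ks h e he
    match Ks with
    | [] => exact absurd h (by simp [pcks4])
    | K :: Ks =>
      rw [pcks4, Bool.and_eq_true] at h
      rcases List.mem_cons.1 he with rfl | he
      · exact ⟨K, h.1⟩
      · exact ih h.2 e he

/-- **the tables are valid by the check** -/
theorem tabOK_of4 (hG : G.IsRegularOfDegree 3) {U : Finset V} (hI : Inv G U) {CL : List CPc} (hCL : cok CL)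
    {XL : List (ℕ × ℕ)} {Ts : List (List ℕ)} (hTs : (Ts.all tok) = true) {Ks : List (List ℕ)}
    (hc : pcks4 XL Ts CL Ks = true) (hX : NoE G U XL) : TabOK CL Ts G U := by
  intro X hPk e he E hE hp s
  obtain ⟨K, hK⟩ := pcks4_of hc e he
  obtain ⟨f1, f2⟩ := hCL e he
  obtain ⟨⟨n, p⟩, f⟩ := e
  dsimp only at hp f1 f2
  obtain ⟨φ, ν, h, hEs⟩ := hp
  have hs := dds_step (G := G) (rem_subset (G := G) (U := U) (L := X)) E
  obtain ⟨S, hS⟩ : ∃ S, S = (lkp (n, p)).filter fun k => ν k ∈ U := ⟨_, rfl⟩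
  have hEU : E ⊆ U := hE.trans rem_subset
  unfold pck4 at hK
  simp only [Bool.and_eq_true] at hK
  obtain ⟨⟨k1, k2⟩, k3⟩ := hK
  have hd : (dds G U E).card + S.length = (lkp (n, p)).length := by
    rw [dds_card hG hEU h hEs f1, hS, add_comm]
    exact length_split (lkp (n, p)) fun k => ν k ∈ U
  have hSs : S ∈ (lkp (n, p)).sublists := by
    rw [hS]
    exact List.mem_sublists.2 List.filter_sublist
  have k4 := List.all_eq_true.1 k2 S hSs
  rw [Bool.or_eq_true] at k4
  have hkp : kpc4 XL (n, p) S (K.getD ((lkp (n, p)).length - S.length) 0) = true := by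
    rcases k4 with k4 | k4
    · exact k4
    · exfalso
      obtain ⟨φ', ν', e1, -, -⟩ := h.root4 hG hEU (q := (n, p)) f1 f2 hEs
      rw [← hS] at e1
      exact hX _ (mem2_of k4) φ' ν' e1
  rw [show (lkp (n, p)).length - S.length = (dds G U E).card by omega] at hkp
  obtain ⟨b1, b2⟩ := hit_le4 hG hI hPk hE h hEs f1 f2 hS hX hkp
  rw [hs]
  have hval : ∀ d, f.getD d 0 ≤ 1000 := by
    intro d
    rcases Nat.lt_or_ge d f.length with h1 | h1
    · rw [List.getD_eq_getElem _ _ h1]
      exact Nat.le_of_ble_eq_true (List.all_eq_true.1 k1 _ (List.getElem_mem h1))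
    · rw [List.getD_eq_default _ _ h1]
      exact Nat.zero_le _
  unfold cfv
  dsimp only
  rcases Nat.eq_zero_or_pos (hit G U (rem G U X) E).card with h0 | h0
  · rw [h0]
    exact le_rfl
  have hX0 : X.length ≠ 0 := fun e => by
    rw [e, zero_mul] at b2
    omega
  obtain ⟨i, hi⟩ : ∃ i, i = X.length - 1 := ⟨_, rfl⟩
  rw [← hi]
  rcases Nat.lt_or_ge i Ts.length with h1 | h1
  · have h2 : Ts.getD i [] ∈ Ts := by
      rw [List.getD_eq_getElem _ _ h1]
      exact List.getElem_mem h1
    have h3 := List.all_eq_true.1 (List.all_eq_true.1 k3 (dds G U E).card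
      (List.mem_range.2 (by omega))) i (List.mem_range.2 h1)
    refine ctf_step (List.all_eq_true.1 hTs _ h2) h0 (hval _) (tkd_of h3 _ h0 ?_) s
    refine le_min (by omega) ?_
    rw [show i + 1 = X.length by omega]
    exact b2
  · rw [List.getD_eq_default _ _ h1]
    exact ctf_step (T := []) rfl h0 (hval _) (by simp [thk]) s

/-! ### the phase -/

theorem tbl_of4 {XL : List (ℕ × ℕ)} {Ts : List (List ℕ)} {CL : List CPc} (hCL : cok CL)
    (hTs : (Ts.all tok) = true) {Ks : List (List ℕ)} (hc : pcks4 XL Ts CL Ks = true) : Tbl XL Ts CL :=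
  fun _ _ _ _ _ hG _ hI hX => tabOK_of4 hG hI hCL hTs hc hX

/-- **one phase from the fast checker**, with the bounds from the lists of the patterns -/
theorem Dn.rawZ {bo : Bool} {CL : List CPc} (hCL : vok CL) {ML : List MPc} (hMC : ML = mcl CL)
    (hML : ML.all mkok = true) {tf : Bool} {PL dn : List (ℕ × ℕ)} (hPL : PL.all wfp = true)
    (h : Dn bo CL tf PL dn) {XL : List (ℕ × ℕ)} (hX : ∀ q ∈ XL, q ∈ dn) {D : ℕ}
    (hA : D ≤ 1 → (1, 257) ∈ dn) (hB : D = 0 → (1, 1) ∈ dn) {Ts : List (List ℕ)}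
    (hTs : (Ts.all tok) = true) {Ks : List (List ℕ)} (hK : pcks4 XL Ts CL Ks = true)
    {sf : ℕ → ℕ → ℕ → Option (List (ℕ × ℕ))} {lf dl : ℕ → ℕ → ℕ → Bool}
    (hs : Sfn (okB D tf) (stV bo CL Ts tf ML PL D) sf lf dl) {B N : ℕ}
    (hV : ∀ i < N, Val (stD dn (stV bo CL Ts tf ML PL D)) (prc B i)) {R : List (ℕ × ℕ)} {z : ℕ}
    (hR : clsM lf dl B N R z = true) : Dn bo CL tf PL (R ++ dn) :=
  Dn.rawT hCL hMC hML hPL h hX hA hB hTs (tbl_of4 hCL.1 hTs hK) hs hV hR

end EF18
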