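import Pool.Agent.Lib.MP_ef18bd_co.P.Gir
import Pool.Agent.Lib.MP_ef18bd_co.P.Hit4

/-!
# The filter for girth five

`flt ok4 st`: the children with a cycle of length four are deleted. `dl5 dl`: the witnesses for a deletion: the
old ones `k < 1024`, or the four ports of `sqt`, `k = 1024 * (k0 + 128 * (k1 + 128 * (l0 + 128 * l1)))`.
`Dn5`, `Dn5.rawT`, `Dn5.rawZ`: the chain of the phases for graphs without cycles of length three and four.
-/

namespace EF18

open Finset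

/-- no cycle of length four in the pattern -/
def ok4 (n p : ℕ) : Bool := !sq4 (n, p)

/-- the two filters -/
def ok5 (ok : ℕ → ℕ → Bool) (n p : ℕ) : Bool := ok n p && ok4 n p

/-- the four ports -/
def dl5z (n p z : ℕ) : Bool :=
  sqt n p (Nat.mod z 128) (Nat.mod (Nat.div z 128) 128) (Nat.mod (Nat.div z 16384) 128)
    (Nat.mod (Nat.div z 2097152) 128)

/-- the witnesses for a deletion -/
def dl5 (dl : ℕ → ℕ → ℕ → Bool) (n p k : ℕ) : Bool :=
  @Bool.rec (fun _ => Bool) (dl5z n p (Nat.div k 1024)) (dl n p k) (Nat.ble k 1023)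

theorem sq4_of_sqt {n p k k' l l' : ℕ} (h : sqt n p k k' l l' = true) : sq4 (n, p) = true := by
  have h0 := h
  unfold sqt at h
  simp only [Bool.and_eq_true, Bool.not_eq_true'] at h
  obtain ⟨⟨⟨⟨⟨⟨⟨⟨⟨b1, b2⟩, b3⟩, b4⟩, c1⟩, c2⟩, c3⟩, c4⟩, c5⟩, c6⟩ := h
  have k1 : k < 3 * n := Nat.le_of_ble_eq_true b1
  have k3 : l < 3 * n := Nat.le_of_ble_eq_true b3
  have d1 : k / 3 = k' / 3 := Nat.eq_of_beq_eq_true c1
  have d2 : l / 3 = l' / 3 := Nat.eq_of_beq_eq_true c2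
  unfold sq4
  refine List.any_eq_true.2 ⟨k, List.mem_range.2 k1, List.any_eq_true.2 ⟨l, List.mem_range.2 k3, ?_⟩⟩
  rw [Bool.and_eq_true, Bool.and_eq_true]
  refine ⟨⟨c5, ?_⟩, ?_⟩
  · rw [Bool.not_eq_true']
    exact c3
  · refine List.any_eq_true.2 ⟨k' % 3, List.mem_range.2 (Nat.mod_lt _ (by norm_num)),
      List.any_eq_true.2 ⟨l' % 3, List.mem_range.2 (Nat.mod_lt _ (by norm_num)), ?_⟩⟩
    have e1 : 3 * (k / 3) + k' % 3 = k' := by
      rw [d1]
      exact Nat.div_add_mod k' 3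
    have e2 : 3 * (l / 3) + l' % 3 = l' := by
      rw [d2]
      exact Nat.div_add_mod l' 3
    rw [e1, e2]
    exact h0

theorem dl5_ok {dl : ℕ → ℕ → ℕ → Bool} {ok : ℕ → ℕ → Bool} (hd : ∀ n p k, dl n p k = true → ok n p = false)
    {n p k : ℕ} (h : dl5 dl n p k = true) : ok5 ok n p = false := by
  unfold dl5 at h
  unfold ok5
  cases h1 : Nat.ble k 1023
  · rw [h1] at h
    have h2 : sq4 (n, p) = true := sq4_of_sqt h
    have h3 : ok4 n p = false := by
      show (!sq4 (n, p)) = false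
      rw [h2]
      rfl
    rw [h3, Bool.and_false]
  · rw [h1] at h
    rw [hd n p k h, Bool.false_and]

theorem flt_some {ok : ℕ → ℕ → Bool} {st : Stp} {n p x : ℕ} {L : List (ℕ × ℕ)} (h : st n p x = some L) :
    flt ok st n p x = some (L.filter fun q => ok q.1 q.2) := by
  unfold flt
  rw [h]

section

variable {V : Type} [Fintype V] [DecidableEq V] {G : SimpleGraph V} [DecidableRel G.Adj]

omit [Fintype V] [DecidableEq V] [DecidableRel G.Adj] in
/-- the filter is sound -/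
theorem Snd.flt4 {U : Finset V} {Q : Prop} {st : Stp} (h : Snd G U Q st) {ok : ℕ → ℕ → Bool}
    (hok : ∀ n p φ ν, Emb G U n p φ ν → ok n p = true) : Snd G U Q (flt ok st) := by
  intro n p x L hL hQ
  unfold flt at hL
  cases hs : st n p x with
  | none =>
    rw [hs] at hL
    exact absurd hL (by simp)
  | some L' =>
    rw [hs] at hL
    have e : L = L'.filter fun q => ok q.1 q.2 := (Option.some.inj hL).symm
    refine h n p x L' hs fun q hq => ?_
    by_cases hq2 : ok q.1 q.2 = true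
    · refine hQ q ?_
      rw [e]
      exact List.mem_filter.2 ⟨hq, hq2⟩
    · exact fun φ ν he => absurd (hok _ _ φ ν he) hq2

omit [Fintype V] [DecidableEq V] [DecidableRel G.Adj] in
/-- without the filter -/
theorem Snd.of_flt4 {U : Finset V} {Q : Prop} {st : Stp} {ok : ℕ → ℕ → Bool} (h : Snd G U Q (flt ok st)) :
    Snd G U Q st := by
  intro n p x L hL hQ
  exact h n p x _ (flt_some hL) fun q hq => hQ q (List.mem_filter.1 hq).1

end

theorem ClV.flt4 {st : Stp} {q : ℕ × ℕ} (h : ClV st q) (ok : ℕ → ℕ → Bool) : ClV (flt ok st) q :=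
  fun G _ U Q hs => h G U Q hs.of_flt4

/-- the checker for the filtered step -/
theorem Sfn.flt4 {ok : ℕ → ℕ → Bool} {st : Stp} {sf : ℕ → ℕ → ℕ → Option (List (ℕ × ℕ))}
    {lf dl : ℕ → ℕ → ℕ → Bool} (h : Sfn ok st sf lf dl) : Sfn (ok5 ok) (flt ok4 st) sf lf (dl5 dl) where
  step := by
    intro n p x L hw h1
    obtain ⟨x', L', h2, h3⟩ := h.step n p x L hw h1
    refine ⟨x', _, flt_some h2, fun q hq => ?_⟩
    obtain ⟨a1, a2⟩ := List.mem_filter.1 hq
    obtain ⟨b1, b2⟩ := h3 q a1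
    refine ⟨b1, ?_⟩
    show (ok q.1 q.2 && ok4 q.1 q.2) = true
    rw [b2, Bool.true_and]
    exact a2
  leaf := fun n p t h1 => ClV.flt4 (h.leaf n p t h1) ok4
  del := fun n p k h1 => dl5_ok h.del h1

/-- every connected state without the pieces `PL` which contains a pattern of the list is good, for the graphs
without cycles of length three and four -/
def Dn5 (bo : Bool) (CL : List CPc) (PL dn : List (ℕ × ℕ)) : Prop :=
  ∀ (V : Type) [Fintype V] [DecidableEq V] (G : SimpleGraph V) [DecidableRel G.Adj],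
    G.IsRegularOfDegree 3 → G.Connected → TF3 G → C4F G → ∀ U : Finset V, Inv G U → U ≠ univ →
    U.Nonempty → iso G U = ∅ → NoP G PL U → (∃ q ∈ dn, ∃ φ ν : ℕ → V, Emb G U q.1 q.2 φ ν) →
    ∃ k, k ≠ 0 ∧ GoodE fw 12 84 (bnx bo) 6 (exv CL G) G U k

/-- the start -/
theorem dn5_nil (bo : Bool) (CL : List CPc) (PL : List (ℕ × ℕ)) : Dn5 bo CL PL [] :=
  fun _ _ _ _ _ _ _ _ _ _ _ _ _ _ _ ⟨_, hq, _⟩ => absurd hq List.not_mem_nil

/-- **one phase from the fast checker**, with any valid tables -/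
theorem Dn5.rawT {bo : Bool} {CL : List CPc} (hCL : vok CL) {ML : List MPc} (hMC : ML = mcl CL)
    (hML : ML.all mkok = true) {PL dn : List (ℕ × ℕ)} (hPL : PL.all wfp = true)
    (h : Dn5 bo CL PL dn) {XL : List (ℕ × ℕ)} (hX : ∀ q ∈ XL, q ∈ dn) {D : ℕ}
    (hA : D ≤ 1 → (1, 257) ∈ dn) (hB : D = 0 → (1, 1) ∈ dn) {Ts : List (List ℕ)}
    (hTs : (Ts.all tok) = true) (hT : Tbl XL Ts CL)
    {sf : ℕ → ℕ → ℕ → Option (List (ℕ × ℕ))} {lf dl : ℕ → ℕ → ℕ → Bool}
    (hs : Sfn (okB D true) (stV bo CL Ts true ML PL D) sf lf dl) {B N : ℕ}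
    (hV : ∀ i < N, Val (stD dn (flt ok4 (stV bo CL Ts true ML PL D))) (prc B i)) {R : List (ℕ × ℕ)} {z : ℕ}
    (hR : clsM lf (dl5 dl) B N R z = true) : Dn5 bo CL PL (R ++ dn) := by
  intro V _ _ G _ hG hc htf h4 U hI hU hne hiso hcl hq
  by_cases hd : ∃ q ∈ dn, ∃ φ ν : ℕ → V, Emb G U q.1 q.2 φ ν
  · exact h V G hG hc htf h4 U hI hU hne hiso hcl hd
  obtain ⟨q, hq, φ, ν, he⟩ := hq
  have hno : ∀ q ∈ dn, ∀ φ ν : ℕ → V, ¬ Emb G U q.1 q.2 φ ν := fun q hq φ ν he => hd ⟨q, hq, φ, ν, he⟩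
  rcases List.mem_append.1 hq with hq | hq
  swap
  · exact absurd he (hno q hq φ ν)
  have h2 := n1_le_two hG hI hiso
  have hD : ∀ x ∈ U, n1 G U x ≤ D := by
    by_cases hD2 : 2 ≤ D
    · exact fun x hx => (h2 x hx).trans hD2
    intro x hx
    by_contra hc
    push Not at hc
    by_cases hD1 : D = 1
    · obtain ⟨φ, ν, e⟩ := root2 hG hx (show 2 ≤ n1 G U x by omega)
      exact hno _ (hA (by omega)) φ ν e
    · obtain ⟨φ, ν, e⟩ := root1 hG hx (show 1 ≤ n1 G U x by omega)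
      exact hno _ (hB (by omega)) φ ν e
  have hT' : TabOK CL Ts G U := hT V G hG U hI fun q hq => hno q (hX q hq)
  have hk4 : ∀ n p (φ ν : ℕ → V), Emb G U n p φ ν → ok4 n p = true := fun n p φ ν he => by
    have e := sq4_of (q := (n, p)) h4 he
    show (!sq4 (n, p)) = true
    rw [Bool.not_eq_true']
    exact Bool.eq_false_iff.2 e
  have hst := ((snd_stV (bo := bo) (tf := true) hG hc hI hU hCL hTs hMC hML hT' hPL hD hiso (fun _ => htf) hcl).flt4
    hk4).stD (dn := dn) fun q hq φ ν he => absurd he (hno q hq φ ν)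
  refine clO_of (clsM_sound (hs.flt4.stD dn) hV hR _ hq) V G U _ (fun n p φ ν he => ?_) hst φ ν he
  show (okB D true n p && ok4 n p) = true
  rw [he.okB hG hD (fun _ => htf), hk4 n p φ ν he]
  rfl

/-- **one phase from the fast checker**, with the bounds from the lists of the patterns -/
theorem Dn5.rawZ {bo : Bool} {CL : List CPc} (hCL : vok CL) {ML : List MPc} (hMC : ML = mcl CL)
    (hML : ML.all mkok = true) {PL dn : List (ℕ × ℕ)} (hPL : PL.all wfp = true)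
    (h : Dn5 bo CL PL dn) {XL : List (ℕ × ℕ)} (hX : ∀ q ∈ XL, q ∈ dn) {D : ℕ}
    (hA : D ≤ 1 → (1, 257) ∈ dn) (hB : D = 0 → (1, 1) ∈ dn) {Ts : List (List ℕ)}
    (hTs : (Ts.all tok) = true) {Ks : List (List ℕ)} (hK : pcks4 XL Ts CL Ks = true)
    {sf : ℕ → ℕ → ℕ → Option (List (ℕ × ℕ))} {lf dl : ℕ → ℕ → ℕ → Bool}
    (hs : Sfn (okB D true) (stV bo CL Ts true ML PL D) sf lf dl) {B N : ℕ}
    (hV : ∀ i < N, Val (stD dn (flt ok4 (stV bo CL Ts true ML PL D))) (prc B i)) {R : List (ℕ × ℕ)} {z : ℕ}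
    (hR : clsM lf (dl5 dl) B N R z = true) : Dn5 bo CL PL (R ++ dn) :=
  Dn5.rawT hCL hMC hML hPL h hX hA hB hTs (tbl_of4 hCL.1 hTs hK) hs hV hR

variable {V : Type} [Fintype V] [DecidableEq V] {G : SimpleGraph V} [DecidableRel G.Adj]

/-- **every state is good** if the boundary patterns are in the list -/
theorem Dn5.good {bo : Bool} {CL : List CPc} {PL dn : List (ℕ × ℕ)} (h : Dn5 bo CL PL dn)
    (hB : (1, 1) ∈ dn) (hC : (2, 9 + 3 * 256 ^ 3) ∈ dn) (hG : G.IsRegularOfDegree 3) (hc : G.Connected)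
    (htf : TF3 G) (h4 : C4F G) {U : Finset V} (hI : Inv G U) (hU : U ≠ univ) (hne : U.Nonempty)
    (hiso : iso G U = ∅) (hcl : NoP G PL U) :
    ∃ k, k ≠ 0 ∧ GoodE fw 12 84 (bnx bo) 6 (exv CL G) G U k := by
  by_cases h1 : ∃ x ∈ U, 1 ≤ n1 G U x
  · obtain ⟨x, hx, hn⟩ := h1
    obtain ⟨φ, ν, e⟩ := root1 hG hx hn
    exact h V G hG hc htf h4 U hI hU hne hiso hcl ⟨_, hB, φ, ν, e⟩
  · push Not at h1
    obtain ⟨φ, ν, e⟩ := root3 hG hc hU hne fun x hx => by
      have := h1 x hx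
      omega
    exact h V G hG hc htf h4 U hI hU hne hiso hcl ⟨_, hC, φ, ν, e⟩

/-- **the bound from the chain** -/
theorem Dn5.bnd {bo : Bool} {CL : List CPc} {PL dn : List (ℕ × ℕ)} (h : Dn5 bo CL PL dn)
    (hB : (1, 1) ∈ dn) (hC : (2, 9 + 3 * 256 ^ 3) ∈ dn) (hG : G.IsRegularOfDegree 3) (hc : G.Connected)
    (htf : TF3 G) (h4 : C4F G) : Bnd bo CL PL G :=
  frameX hG (exv CL G) (fun _ _ h => exv_sup h) (by decide) (NoP G PL) (fun _ => False)
    (fun _ _ h hB => hB.mono h) (fun _ _ _ _ h => absurd h not_false)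
    fun _ hI hU hne _ hi hcl _ => h.good hB hC hG hc htf h4 hI hU hne hi hcl

/-- the conditions on the chain with the filter -/
def Chn5f : Prop :=
  ∃ (bo : Bool) (CL : List CPc) (PL dn : List (ℕ × ℕ)), f13 CL = true ∧ (PL.all sq4) = true ∧
    Dn5 bo CL PL dn ∧ (1, 1) ∈ dn ∧ (2, 9 + 3 * 256 ^ 3) ∈ dn

/-- **cubic graphs of girth at least five** -/
theorem final_g5f (h : Chn5f) (V : Type) [Fintype V] [DecidableEq V] (G : SimpleGraph V)
    [DecidableRel G.Adj] (hG : G.IsRegularOfDegree 3) (hg : 5 ≤ G.egirth) :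
    upperMinus G ≤ upperSigned G := by
  obtain ⟨bo, CL, PL, dn, h1, h2, h3, h4, h5⟩ := h
  obtain ⟨g3, g4⟩ := tf3_c4f hg
  refine compare_Q (bo := bo) (fun {W} (H : SimpleGraph W) => TF3 H ∧ C4F H) h1 (fun W _ _ H _ a1 a2 a3 => ?_) V G hG
    fun k => ⟨fun a b c hab hbc hac => g3 _ _ _ hab hbc hac, fun a b c d e1 e2 e3 e4 => ?_⟩
  · intro U b1 b2 _
    exact h3.bnd h4 h5 a1 a2 a3.1 a3.2 U b1 b2 (noP_c4 a3.2 h2 U)
  · rcases g4 _ _ _ _ e1 e2 e3 e4 with e | e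
    · exact Or.inl (Subtype.ext e)
    · exact Or.inr (Subtype.ext e)

end EF18
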