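import Pool.Agent.Lib.MP_ef18bd_co.P.FinV

/-!
# Graphs without cycles of length four

`C4F`: no cycle of length four. `sq4`: the pattern contains a cycle of length four. `final_g5`: the comparison for
cubic graphs of girth at least five from one chain, all the pieces of which contain a cycle of length four.
-/

namespace EF18

open Finset

/-- no cycle of length four -/
def C4F {V : Type} (G : SimpleGraph V) : Prop := ∀ a b c d, G.Adj a b → G.Adj b c → G.Adj c d → G.Adj d a →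
  a = c ∨ b = d

/-- the same vertex is behind the two ports -/
def smv (p k l : ℕ) : Bool :=
  isL (dg p k) && Nat.beq (prt p k) l ||
    isD (dg p k) && isD (dg p l) && Nat.beq (Nat.div (prt p k) 3) (Nat.div (prt p l) 3)

/-- the ports `k` and `k'` of a node and the ports `l` and `l'` of another node lead to the same two vertices -/
def sqt (n p k k' l l' : ℕ) : Bool :=
  Nat.ble (Nat.succ k) (Nat.mul 3 n) && Nat.ble (Nat.succ k') (Nat.mul 3 n) && Nat.ble (Nat.succ l) (Nat.mul 3 n) &&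
    Nat.ble (Nat.succ l') (Nat.mul 3 n) && Nat.beq (Nat.div k 3) (Nat.div k' 3) &&
    Nat.beq (Nat.div l 3) (Nat.div l' 3) && !Nat.beq (Nat.div k 3) (Nat.div l 3) && !Nat.beq k k' &&
    smv p k l && smv p k' l'

variable {V : Type} [Fintype V] [DecidableEq V] {G : SimpleGraph V} [DecidableRel G.Adj]

omit [Fintype V] [DecidableEq V] [DecidableRel G.Adj] in
theorem prt_D {p k l : ℕ} (h : dg p k = 2 + 2 * l) : prt p k = l := by
  unfold prt
  rw [h]
  change (2 + 2 * l - 2) / 2 = l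
  omega

omit [Fintype V] [DecidableEq V] [DecidableRel G.Adj] in
theorem prt_L {p k l : ℕ} (h : dg p k = 3 + 2 * l) : prt p k = l := by
  unfold prt
  rw [h]
  change (3 + 2 * l - 2) / 2 = l
  omega

omit [Fintype V] [DecidableEq V] [DecidableRel G.Adj] in
theorem smv_of {U : Finset V} {n p : ℕ} {φ ν : ℕ → V} (h : Emb G U n p φ ν) {k l : ℕ} (hk : k < 3 * n)
    (hl : l < 3 * n) (hs : smv p k l = true) : ν k = ν l := by
  unfold smv at hs
  rw [Bool.or_eq_true] at hs
  rcases hs with hs | hs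
  · rw [Bool.and_eq_true] at hs
    obtain ⟨m, hm⟩ := isL_iff.1 hs.1
    obtain ⟨-, -, -, -, a5⟩ := h.lnk k hk m hm
    have e : prt p k = l := Nat.eq_of_beq_eq_true hs.2
    rw [prt_L hm] at e
    rw [← e, a5]
  · simp only [Bool.and_eq_true] at hs
    obtain ⟨⟨h1, h2⟩, h3⟩ := hs
    obtain ⟨m, hm⟩ := isD_iff.1 h1
    obtain ⟨m', hm'⟩ := isD_iff.1 h2
    have e : prt p k / 3 = prt p l / 3 := Nat.eq_of_beq_eq_true h3
    rw [prt_D hm, prt_D hm'] at e
    obtain ⟨-, -, a3, -⟩ := h.dir k hk m hm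
    obtain ⟨-, -, b3, -⟩ := h.dir l hl m' hm'
    rw [a3, b3, e]

omit [Fintype V] [DecidableEq V] [DecidableRel G.Adj] in
/-- such ports give a cycle of length four -/
theorem sqt_of (h4 : C4F G) {U : Finset V} {n p : ℕ} {φ ν : ℕ → V} (h : Emb G U n p φ ν) {k k' l l' : ℕ} :
    sqt n p k k' l l' ≠ true := by
  intro hs
  unfold sqt at hs
  simp only [Bool.and_eq_true, Bool.not_eq_true'] at hs
  obtain ⟨⟨⟨⟨⟨⟨⟨⟨⟨b1, b2⟩, b3⟩, b4⟩, c1⟩, c2⟩, c3⟩, c4⟩, c5⟩, c6⟩ := hs
  have k1 : k < 3 * n := Nat.le_of_ble_eq_true b1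
  have k2 : k' < 3 * n := Nat.le_of_ble_eq_true b2
  have k3 : l < 3 * n := Nat.le_of_ble_eq_true b3
  have k4 : l' < 3 * n := Nat.le_of_ble_eq_true b4
  have d1 : k / 3 = k' / 3 := Nat.eq_of_beq_eq_true c1
  have d2 : l / 3 = l' / 3 := Nat.eq_of_beq_eq_true c2
  have d3 : k / 3 ≠ l / 3 := Nat.ne_of_beq_eq_false c3
  have d4 : k ≠ k' := Nat.ne_of_beq_eq_false c4
  have e1 := smv_of h k1 k3 c5
  have e2 := smv_of h k2 k4 c6
  have a1 := h.adj k k1
  have a2 := h.adj k' k2
  have a3 := h.adj l k3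
  have a4 := h.adj l' k4
  rw [← d1] at a2
  rw [← e1] at a3
  rw [← d2, ← e2] at a4
  rcases h4 (φ (k / 3)) (ν k) (φ (l / 3)) (ν k') a1 a3.symm a4 a2.symm with e | e
  · exact d3 (h.inj _ (by omega) _ (by omega) e)
  · exact d4 (h.pinj k k1 k' k2 d1 e)

/-- the pattern contains a cycle of length four -/
def sq4 (q : ℕ × ℕ) : Bool :=
  (List.range (3 * q.1)).any fun k => (List.range (3 * q.1)).any fun l => smv q.2 k l &&
    !Nat.beq (Nat.div k 3) (Nat.div l 3) && (List.range 3).any fun a => (List.range 3).any fun b =>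
      sqt q.1 q.2 k (3 * (k / 3) + a) l (3 * (l / 3) + b)

omit [Fintype V] [DecidableEq V] [DecidableRel G.Adj] in
theorem sq4_of (h4 : C4F G) {q : ℕ × ℕ} {U : Finset V} {φ ν : ℕ → V} (h : Emb G U q.1 q.2 φ ν) :
    sq4 q ≠ true := by
  intro hs
  unfold sq4 at hs
  obtain ⟨k, -, hs⟩ := List.any_eq_true.1 hs
  obtain ⟨l, -, hs⟩ := List.any_eq_true.1 hs
  rw [Bool.and_eq_true] at hs
  obtain ⟨a, -, ha⟩ := List.any_eq_true.1 hs.2
  obtain ⟨b, -, hb⟩ := List.any_eq_true.1 ha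
  exact sqt_of h4 h hb

omit [Fintype V] [DecidableEq V] in
theorem noP_c4 (h4 : C4F G) {PL : List (ℕ × ℕ)} (hPL : (PL.all sq4) = true) (U : Finset V) : NoP G PL U := by
  rintro q hq E - ⟨φ, ν, h, -⟩
  exact sq4_of h4 h (List.all_eq_true.1 hPL q hq)

/-- **the comparison from the bound**, for a class which the components inherit -/
theorem compare_Q (Q : ∀ {W : Type}, SimpleGraph W → Prop) {bo : Bool} {CL : List CPc} (h9 : f13 CL = true)
    (h : ∀ (W : Type) [Fintype W] [DecidableEq W] (H : SimpleGraph W) [DecidableRel H.Adj],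
      H.IsRegularOfDegree 3 → H.Connected → Q H → Bnd bo CL [] H)
    (V : Type) [Fintype V] [DecidableEq V] (G : SimpleGraph V) [DecidableRel G.Adj]
    (hG : G.IsRegularOfDegree 3)
    (hQ : ∀ k : G.ConnectedComponent,
      Q (G.comap (Subtype.val : {v : V // G.connectedComponentMk v = k} → V))) :
    upperMinus G ≤ upperSigned G := by
  refine compare_of_classD Q (fun W _ _ H _ h1 h2 h3 h4 => ?_) hG hQ
  have := h2.nonempty
  have b2 : ∀ U : Finset W, Inv H U → U ≠ univ →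
      ∃ m, Has H U m ∧ 84 * m ≤ PsiT (fw.iso 12) H U + 6 * dpn H U + exv CL H U := fun U a b => by
    obtain ⟨k, c1, c2⟩ := h W H h1 h2 h4 U a b fun q hq => absurd hq List.not_mem_nil
    exact ⟨k, c1, by omega⟩
  have key : ∃ S : Finset W, Pk H S ∧ Mx H univ S ∧
      84 * S.card ≤ 18 * Fintype.card W + 6 * dpn H univ + 66 := by
    by_cases ht : ∃ v a b, H.Adj v a ∧ H.Adj a b ∧ H.Adj v b
    · obtain ⟨v, a, b, t1, t2, t3⟩ := ht
      refine packN h1 (f2 := 13) (f1 := 9) (κ := 13) v (B2_card_tri h1 t1 t2 t3) (by norm_num) le_rfl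
        le_rfl (exv CL H) (fun U hI => exv_outN (fun e he E _ => ?_) hI) b2
      have h5 := List.all_eq_true.1 h9 e he
      rw [Bool.and_eq_true] at h5
      exact cfv_le h5.1
    · obtain ⟨v⟩ := this
      have htf' : TF3 H := fun a b c x y z => ht ⟨a, b, c, x, y, z⟩
      refine packN h1 (f2 := 9) (f1 := 5) (κ := 9) v (B2_card h1 v) (by norm_num) le_rfl
        le_rfl (exv CL H) (fun U hI => exv_outN (fun e he E hp => ?_) hI) b2
      have h5 := List.all_eq_true.1 h9 e he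
      rw [Bool.and_eq_true, Bool.or_eq_true] at h5
      rcases h5.2 with h6 | h6
      · obtain ⟨φ, ν, h7, -⟩ := hp
        exact absurd h6 (trp_of htf' h7)
      · exact cfv_le h6
  obtain ⟨S, a1, a2, a3⟩ := key
  refine ⟨S, a1, a2, ?_⟩
  have h5 := dpn_le_mids h1 h3 univ
  have h6 := Nat.mul_le_mul_right (dpn H univ) (show 6 ≤ 9 by norm_num)
  omega

omit [Fintype V] [DecidableEq V] [DecidableRel G.Adj] in
/-- girth at least five -/
theorem tf3_c4f (hg : 5 ≤ G.egirth) : TF3 G ∧ C4F G := by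
  rw [SimpleGraph.le_egirth] at hg
  have t3 : ∀ a b c, G.Adj a b → G.Adj b c → G.Adj c a → False := by
    intro a b c h1 h2 h3
    have := hg a (.cons h1 (.cons h2 (.cons h3 .nil))) (by
      simp [SimpleGraph.Walk.cons_isCycle_iff, h1.ne, h1.ne', h2.ne, h2.ne', h3.ne, h3.ne'])
    simp at this
    exact absurd this (by decide)
  refine ⟨fun a b c h1 h2 h3 => t3 a b c h1 h2 h3.symm, ?_⟩
  intro a b c d h1 h2 h3 h4
  by_contra hc
  push Not at hc
  obtain ⟨h5, h6⟩ := hc
  have := hg a (.cons h1 (.cons h2 (.cons h3 (.cons h4 .nil)))) (by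
    simp [SimpleGraph.Walk.cons_isCycle_iff, h1.ne, h1.ne', h2.ne, h2.ne', h3.ne, h3.ne', h4.ne, h4.ne', h5,
      h5.symm, h6, h6.symm])
  simp at this
  exact absurd this (by decide)

/-- the conditions on the chain: all the pieces contain a cycle of length four -/
def Chn5 : Prop :=
  ∃ (bo : Bool) (CL : List CPc) (PL dn : List (ℕ × ℕ)), f13 CL = true ∧ (PL.all sq4) = true ∧
    Dn bo CL true PL dn ∧ (1, 1) ∈ dn ∧ (2, 9 + 3 * 256 ^ 3) ∈ dn

/-- **cubic graphs of girth at least five** -/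
theorem final_g5 (h : Chn5) (V : Type) [Fintype V] [DecidableEq V] (G : SimpleGraph V)
    [DecidableRel G.Adj] (hG : G.IsRegularOfDegree 3) (hg : 5 ≤ G.egirth) :
    upperMinus G ≤ upperSigned G := by
  obtain ⟨bo, CL, PL, dn, h1, h2, h3, h4, h5⟩ := h
  obtain ⟨g3, g4⟩ := tf3_c4f hg
  refine compare_Q (bo := bo) (fun {W} (H : SimpleGraph W) => TF3 H ∧ C4F H) h1 (fun W _ _ H _ a1 a2 a3 => ?_) V G hG
    fun k => ⟨fun a b c hab hbc hac => g3 _ _ _ hab hbc hac, fun a b c d e1 e2 e3 e4 => ?_⟩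
  · intro U b1 b2 _
    exact h3.bnd h4 h5 a1 a2 (fun _ => a3.1) U b1 b2 (noP_c4 a3.2 h2 U)
  · rcases g4 _ _ _ _ e1 e2 e3 e4 with e | e
    · exact Or.inl (Subtype.ext e)
    · exact Or.inr (Subtype.ext e)

end EF18
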