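import Pool.Agent.Lib.MP_ef18bd_co.P.FastR
import Pool.Agent.Lib.MP_ef18bd_co.P.Flat15

/-!
# The fast checker

All patterns of a game are in one number `B`. An entry is the token of a step and one token for each child
of the unfiltered list of children, packed into one number; the pattern of the entry `j` is `prc B j`.
Tokens `t` of a child: `t % 4 = 0`: deleted by the filter, with a witness; `1`: a reference to an earlier
entry; `2`, `3`: a leaf.
-/

namespace EF18

/-- the record `i` of the number `B`: first the block of 512 records, then the record -/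
def rcd (B i : ℕ) : ℕ := (@Nat.rec (fun _ => ℕ) 0 (fun c _ => (Nat.land (Nat.shiftRight (Nat.land
  (Nat.shiftRight B
  (Nat.mul 393216 c)) (Nat.pred (Nat.pow 2 393216))) (Nat.mul 768 (Nat.mod i 512))) (Nat.pred (Nat.pow 2
    768)))) (Nat.succ (Nat.div i 512)))

/-- the pattern `i` -/
def prc (B i : ℕ) : ℕ × ℕ := (Nat.mod (rcd B i) 256, Nat.div (rcd B i) 256)

/-- a reference to one of the first `j` patterns -/
def reX (j n p i m R : ℕ) : Bool := (@Bool.rec (fun _ => Bool) false (rfX p (Nat.div R 256) m n (Nat.mod R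
  256) 0) (Nat.ble (Nat.succ i) j))

/-- a reference to one of the first `j` patterns -/
def refR (B j n p y : ℕ) : Bool := reX j n p (Nat.mod y 4096) (Nat.div y 4096) (rcd B (Nat.mod y 4096))

/-- a child -/
def clsX (lf dl : ℕ → ℕ → ℕ → Bool) (B j n p t k : ℕ) : Bool :=
  (@Bool.rec (fun _ => Bool) (@Bool.rec (fun _ => Bool) (dl n p (Nat.div t 4)) (refR B j n p (Nat.div t 4))
    (Nat.beq k 1)) (lf n p t) (Nat.ble 2 k))

/-- the number with another hash value: the kernel hashes a number by its last 64 bits, and the patterns of a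
game have the same last bits; so we pass the number as `Nat.shiftRight (slt p) 64` -/
def slt (p : ℕ) : ℕ := Nat.add (Nat.shiftLeft p 64) (Nat.mod p 2305843009213693951)

theorem slt_eq (p : ℕ) : Nat.shiftRight (slt p) 64 = p := by
  unfold slt
  change (p <<< 64 + p % 2305843009213693951) >>> 64 = p
  rw [Nat.shiftLeft_eq, Nat.shiftRight_eq_div_pow]
  have h : p % 2305843009213693951 < 2305843009213693951 := Nat.mod_lt _ (by norm_num)
  omega

/-- a child -/
def clsR (lf dl : ℕ → ℕ → ℕ → Bool) (B j : ℕ) (q : ℕ × ℕ) (t : ℕ) : Bool :=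
  (@Nat.rec (fun _ => Bool) false (fun n _ => (@Nat.rec (fun _ => Bool) false (fun P _ => (clsX lf dl B j n
    (Nat.shiftRight P 64) t (Nat.mod t 4))) (Nat.succ (slt q.2)))) (Nat.succ q.1))

/-- the first token of a packed list: the number of bytes, the token -/
def tkn (z : ℕ) : ℕ := Nat.land (Nat.shiftRight z 8) (Nat.pred (Nat.pow 256 (Nat.land z 255)))

/-- the other tokens -/
def tkr (z : ℕ) : ℕ := Nat.shiftRight z (Nat.mul 8 (Nat.succ (Nat.land z 255)))

/-- a child and the others -/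
def clsS (lf dl : ℕ → ℕ → ℕ → Bool) (B j : ℕ) (q : ℕ × ℕ) (next : ℕ → Bool) (t r : ℕ) : Bool :=
  (@Bool.rec (fun _ => Bool) false (@Nat.rec (fun _ => Bool) false (fun z _ => (next z)) (Nat.succ r))
    (clsR lf dl B j q t))

/-- the children -/
def clsM (lf dl : ℕ → ℕ → ℕ → Bool) (B j : ℕ) : List (ℕ × ℕ) → ℕ → Bool :=
  @List.rec (ℕ × ℕ) (fun _ => ℕ → Bool) (fun z => Nat.beq z 0)
    (fun q _ next z => clsS lf dl B j q next (tkn z) (tkr z))

/-- the children of an entry -/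
def entO (lf dl : ℕ → ℕ → ℕ → Bool) (B j z : ℕ) (o : Option (List (ℕ × ℕ))) : Bool :=
  @Option.rec (List (ℕ × ℕ)) (fun _ => Bool) false (fun L => clsM lf dl B j L z) o

/-- an entry with its pattern -/
def entT (sf : ℕ → ℕ → ℕ → Option (List (ℕ × ℕ))) (lf dl : ℕ → ℕ → ℕ → Bool) (B j z n p x : ℕ) : Bool :=
  (@Bool.rec (fun _ => Bool) false (entO lf dl B j z (sf n p x)) (wfF n p))

/-- an entry -/
def entR (sf : ℕ → ℕ → ℕ → Option (List (ℕ × ℕ))) (lf dl : ℕ → ℕ → ℕ → Bool) (B j x z : ℕ) : Bool :=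
  (@Nat.rec (fun _ => Bool) false (fun R _ => (@Nat.rec (fun _ => Bool) false (fun n _ => (@Nat.rec (fun _
    => Bool) false (fun P _ => (entT sf lf dl B j z n (Nat.shiftRight P 64) x)) (Nat.succ (slt (Nat.div R
    256))))) (Nat.succ (Nat.mod R 256)))) (Nat.succ (rcd B j)))

/-- the entries from `j` on -/
def entsR (sf : ℕ → ℕ → ℕ → Option (List (ℕ × ℕ))) (lf dl : ℕ → ℕ → ℕ → Bool) (B : ℕ) :
    List (ℕ × ℕ) → ℕ → Bool :=
  @List.rec (ℕ × ℕ) (fun _ => ℕ → Bool) (fun _ => true)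
    (fun e _ next j => (@Bool.rec (fun _ => Bool) false (@Nat.rec (fun _ => Bool) false (fun j1 _ => (next
      j1)) (Nat.succ (Nat.succ j))) (entR sf lf dl B j e.1 e.2)))

/-- what we need to know about the step -/
structure Sfn (ok : ℕ → ℕ → Bool) (st : Stp) (sf : ℕ → ℕ → ℕ → Option (List (ℕ × ℕ)))
    (lf dl : ℕ → ℕ → ℕ → Bool) : Prop where
  step : ∀ n p x L, wfp (n, p) = true → sf n p x = some L →
    ∃ x' L', st n p x' = some L' ∧ ∀ q ∈ L', q ∈ L ∧ ok q.1 q.2 = true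
  leaf : ∀ n p t, lf n p t = true → ClV st (n, p)
  del : ∀ n p k, dl n p k = true → ok n p = false

theorem refR_sound {st : Stp} {B j n p y : ℕ} (hB : ∀ i < j, Val st (prc B i)) (h : refR B j n p y = true) :
    ClV st (n, p) := by
  intro V _ _ G _ U Q hst φ ν he
  have e : refR B j n p y = @Bool.rec (fun _ => Bool) false
    (rfX p (Nat.div (rcd B (Nat.mod y 4096)) 256) (Nat.div y 4096) n (Nat.mod (rcd B (Nat.mod y 4096)) 256) 0)
    (Nat.ble (Nat.succ (Nat.mod y 4096)) j) := rfl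
  rw [e, ifc, rfX_eq] at h
  cases h1 : Nat.ble (Nat.succ (Nat.mod y 4096)) j
  · rw [h1] at h
    exact absurd h (by simp)
  rw [h1, cond_true] at h
  have h2 : Nat.mod y 4096 < j := Nat.le_of_ble_eq_true h1
  have hN : Nat.mod (rcd B (Nat.mod y 4096)) 256 ≤ 256 := (Nat.mod_lt _ (by norm_num)).le
  obtain ⟨w, hw⟩ := rfF_ok hN h
  obtain ⟨a1, a2⟩ := hB _ h2
  exact a2 G U Q hst _ _ (rf_emb a1 hw he)

theorem clsR_sound {ok : ℕ → ℕ → Bool} {st : Stp} {sf : ℕ → ℕ → ℕ → Option (List (ℕ × ℕ))}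
    {lf dl : ℕ → ℕ → ℕ → Bool} (hs : Sfn ok st sf lf dl) {B j : ℕ} (hB : ∀ i < j, Val st (prc B i))
    {q : ℕ × ℕ} {t : ℕ} (h : clsR lf dl B j q t = true) : ClV st q ∨ ok q.1 q.2 = false := by
  have e0 : clsR lf dl B j q t = clsX lf dl B j q.1 (Nat.shiftRight (slt q.2) 64) t (Nat.mod t 4) := rfl
  have e : clsX lf dl B j q.1 q.2 t (Nat.mod t 4) = @Bool.rec (fun _ => Bool) (@Bool.rec (fun _ => Bool)
    (dl q.1 q.2 (Nat.div t 4)) (refR B j q.1 q.2 (Nat.div t 4)) (Nat.beq (Nat.mod t 4) 1)) (lf q.1 q.2 t)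
    (Nat.ble 2 (Nat.mod t 4)) := rfl
  rw [e0, slt_eq, e, ifc, ifc] at h
  cases h1 : Nat.ble 2 (Nat.mod t 4)
  · rw [h1, cond_false] at h
    cases h2 : Nat.beq (Nat.mod t 4) 1
    · rw [h2, cond_false] at h
      exact Or.inr (hs.del _ _ _ h)
    · rw [h2, cond_true] at h
      exact Or.inl (refR_sound hB h)
  · rw [h1, cond_true] at h
    exact Or.inl (hs.leaf _ _ _ h)

theorem clsM_sound {ok : ℕ → ℕ → Bool} {st : Stp} {sf : ℕ → ℕ → ℕ → Option (List (ℕ × ℕ))}
    {lf dl : ℕ → ℕ → ℕ → Bool} (hs : Sfn ok st sf lf dl) {B j : ℕ} (hB : ∀ i < j, Val st (prc B i)) :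
    ∀ {L : List (ℕ × ℕ)} {z : ℕ}, clsM lf dl B j L z = true → ∀ q ∈ L, ClV st q ∨ ok q.1 q.2 = false := by
  intro L
  induction L with
  | nil => intro z _ q hq; exact absurd hq List.not_mem_nil
  | cons q' L ih =>
    intro z h q hq
    have e : clsM lf dl B j (q' :: L) z = @Bool.rec (fun _ => Bool) false (clsM lf dl B j L (tkr z))
      (clsR lf dl B j q' (tkn z)) := rfl
    rw [e, ifc] at h
    cases h1 : clsR lf dl B j q' (tkn z)
    · rw [h1] at h
      exact absurd h (by simp)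
    rw [h1, cond_true] at h
    rcases List.mem_cons.1 hq with rfl | hq
    · exact clsR_sound hs hB h1
    · exact ih h q hq

theorem entR_sound {ok : ℕ → ℕ → Bool} {st : Stp} {sf : ℕ → ℕ → ℕ → Option (List (ℕ × ℕ))}
    {lf dl : ℕ → ℕ → ℕ → Bool} (hs : Sfn ok st sf lf dl) {B j x z : ℕ}
    (hB : ∀ i < j, Val st (prc B i)) (h : entR sf lf dl B j x z = true) : Val st (prc B j) := by
  have e0 : entR sf lf dl B j x z = entT sf lf dl B j z (prc B j).1
    (Nat.shiftRight (slt (prc B j).2) 64) x := rfl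
  have e : entT sf lf dl B j z (prc B j).1 (prc B j).2 x = @Bool.rec (fun _ => Bool) false
    (entO lf dl B j z (sf (prc B j).1 (prc B j).2 x)) (wfF (prc B j).1 (prc B j).2) := rfl
  rw [e0, slt_eq, e, ifc, wfF_eq] at h
  cases h1 : wfp ((prc B j).1, (prc B j).2)
  · rw [h1] at h
    exact absurd h (by simp)
  rw [h1, cond_true] at h
  refine ⟨h1, ?_⟩
  intro V _ _ G _ U Q hst
  match h2 : sf (prc B j).1 (prc B j).2 x with
  | none =>
    rw [h2] at h
    exact absurd h (by intro hc; exact Bool.noConfusion hc)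
  | some L =>
    rw [h2] at h
    obtain ⟨x', L', a1, a2⟩ := hs.step _ _ x L h1 h2
    refine hst _ _ x' L' a1 fun q hq => ?_
    obtain ⟨b1, b2⟩ := a2 q hq
    rcases clsM_sound hs hB h q b1 with h3 | h3
    · exact h3 G U Q hst
    · rw [h3] at b2
      exact absurd b2 (by simp)

/-- **the checker is sound** -/
theorem entsR_sound {ok : ℕ → ℕ → Bool} {st : Stp} {sf : ℕ → ℕ → ℕ → Option (List (ℕ × ℕ))}
    {lf dl : ℕ → ℕ → ℕ → Bool} (hs : Sfn ok st sf lf dl) {B : ℕ} : ∀ {es : List (ℕ × ℕ)} {j : ℕ},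
    (∀ i < j, Val st (prc B i)) → entsR sf lf dl B es j = true → ∀ i < j + es.length, Val st (prc B i) := by
  intro es
  induction es with
  | nil => intro j hB _ i hi; exact hB i hi
  | cons a es ih =>
    intro j hB h i hi
    have e : entsR sf lf dl B (a :: es) j = @Bool.rec (fun _ => Bool) false (entsR sf lf dl B es (j + 1))
      (entR sf lf dl B j a.1 a.2) := rfl
    rw [e, ifc] at h
    cases h1 : entR sf lf dl B j a.1 a.2
    · rw [h1] at h
      exact absurd h (by simp)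
    rw [h1, cond_true] at h
    refine ih (j := j + 1) (fun i hi => ?_) h i (by rw [List.length_cons] at hi; omega)
    rcases Nat.lt_succ_iff_lt_or_eq.1 hi with h2 | rfl
    · exact hB i h2
    · exact entR_sound hs hB h1

/-! ### the port step -/

/-- all cases for a port -/
def braF (d : Bool) (n p k : ℕ) : Option (List (ℕ × ℕ)) :=
  @Bool.rec (fun _ => Option (List (ℕ × ℕ))) (some
    (@Nat.rec (fun _ => List (ℕ × ℕ)) [] (fun c _ => (@Nat.rec (fun _ => List (ℕ × ℕ)) [] (fun b _ =>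
      (@Nat.rec (fun _ => List (ℕ × ℕ)) [] (fun D _ => (@Nat.rec (fun _ => List (ℕ × ℕ)) [] (fun A _ =>
      (@Nat.rec (fun _ => List (ℕ × ℕ)) [] (fun E _ => (@Nat.rec (fun _ => List (ℕ × ℕ)) [] (fun i _ =>
      (@Nat.rec (fun _ => List (ℕ × ℕ)) [] (fun a _ => (@Nat.rec (fun _ => List (ℕ × ℕ)) [] (fun g _ =>
      (@Bool.rec (fun _ => List (ℕ × ℕ))
            (kidF n p i c g a [(Nat.succ n, E), (Nat.succ n, A)] n)
            ((n, D) :: kidF n p i c g a [(Nat.succ n, E), (Nat.succ n, A)] n) d)) (Nat.succ (Nat.add 2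
              (Nat.mul 2 k))))) (Nat.succ (dmF p i)))) (Nat.succ (Nat.div k 3)))) (Nat.succ (Nat.add A
              (Nat.add c b))))) (Nat.succ (Nat.add (Nat.add p (Nat.mul (Nat.add 2 (Nat.mul 6 n)) c))
          (Nat.mul (Nat.add 2 (Nat.mul 2 k)) b))))) (Nat.succ (Nat.add p c)))) (Nat.succ (Nat.pow 256
            (Nat.mul 3 n))))) (Nat.succ (Nat.pow 256 k))))
    none (@Bool.rec (fun _ => Bool) (@Bool.rec (fun _ => Bool) (Nat.ble 40 n) true
      (!Nat.beq (Nat.mod (Nat.div p (Nat.pow 256 k)) 256) 0)) true (Nat.ble (Nat.mul 3 n) k))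

theorem braF_eq (d : Bool) (n p k : ℕ) : braF d n p k = branch d n p k := by
  have e : braF d n p k = @Bool.rec (fun _ => Option (List (ℕ × ℕ))) (some (@Bool.rec (fun _ => List (ℕ × ℕ))
      (kidF n p (k / 3) (Nat.pow 256 k) (2 + 2 * k) (dmF p (k / 3)) [(n + 1, (p + (2 + 6 * n) * 256 ^ k +
        (2 + 2 * k) * 256 ^ (3 * n)) + (256 ^ k + 256 ^ (3 * n))), (n + 1, p + (2 + 6 * n) * 256 ^ k +
        (2 + 2 * k) * 256 ^ (3 * n))] n)
      ((n, p + 256 ^ k) :: kidF n p (k / 3) (Nat.pow 256 k) (2 + 2 * k) (dmF p (k / 3)) [(n + 1,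
        (p + (2 + 6 * n) * 256 ^ k + (2 + 2 * k) * 256 ^ (3 * n)) + (256 ^ k + 256 ^ (3 * n))), (n + 1,
        p + (2 + 6 * n) * 256 ^ k + (2 + 2 * k) * 256 ^ (3 * n))] n) d)) none (@Bool.rec (fun _ => Bool)
      (@Bool.rec (fun _ => Bool) (Nat.ble 40 n) true (!Nat.beq (dg p k) 0)) true (Nat.ble (3 * n) k)) := rfl
  have e1 : (p + (2 + 6 * n) * 256 ^ k + (2 + 2 * k) * 256 ^ (3 * n)) + (256 ^ k + 256 ^ (3 * n)) =
    p + (3 + 2 * (3 * n)) * 256 ^ k + (3 + 2 * k) * 256 ^ (3 * n) := by ring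
  have e2 : p + (2 + 6 * n) * 256 ^ k + (2 + 2 * k) * 256 ^ (3 * n) =
    p + (2 + 2 * (3 * n)) * 256 ^ k + (2 + 2 * k) * 256 ^ (3 * n) := by ring
  rw [e, e1, e2, dmF_eq, kidF_eq, ifc, ifc, ifc, ifc, branch]
  cases Nat.ble (3 * n) k
  · cases Nat.beq (dg p k) 0
    · rfl
    · cases Nat.ble 40 n
      · cases d
        · simp
        · simp
      · rfl
  · rfl

end EF18
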