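import Pool.Agent.Lib.MP_ef18bd_co.P.PhV
import Pool.Agent.Lib.MP_ef18bd_co.P.Raw

/-!
# One phase from the fast checker
-/

namespace EF18

open Finset

theorem clO_of {ok : ℕ → ℕ → Bool} {st : Stp} {q : ℕ × ℕ} (h : ClV st q ∨ ok q.1 q.2 = false) :
    ClO ok st q := by
  intro V _ _ G _ U Q hok hst
  rcases h with h | h
  · exact h G U Q hst
  · intro φ ν he
    have h1 := hok _ _ φ ν he
    rw [h] at h1
    exact absurd h1 (by simp)

/-- the next module -/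
theorem ents_next {ok : ℕ → ℕ → Bool} {st : Stp} {sf : ℕ → ℕ → ℕ → Option (List (ℕ × ℕ))}
    {lf dl : ℕ → ℕ → ℕ → Bool} (hs : Sfn ok st sf lf dl) {B j k : ℕ} {es : List (ℕ × ℕ)}
    (hB : ∀ i < j, Val st (prc B i)) (h : entsR sf lf dl B es j = true)
    (hk : Nat.beq k (j + es.length) = true) : ∀ i < k, Val st (prc B i) := by
  rw [Nat.eq_of_beq_eq_true hk]
  exact entsR_sound hs hB h

theorem ents_zero (st : Stp) (B : ℕ) : ∀ i < 0, Val st (prc B i) := fun _ hi => absurd hi (Nat.not_lt_zero _)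

/-- **one phase from the fast checker** -/
theorem Dn.raw {bo : Bool} {CL : List CPc} (hCL : vok CL) {ML : List MPc} (hMC : ML = mcl CL)
    (hML : ML.all mkok = true) {tf : Bool} {PL dn : List (ℕ × ℕ)} (hPL : PL.all wfp = true)
    (h : Dn bo CL tf PL dn) {XL : List (ℕ × ℕ)} (hX : ∀ q ∈ XL, q ∈ dn) {D : ℕ}
    (hA : D ≤ 1 → (1, 257) ∈ dn) (hB : D = 0 → (1, 1) ∈ dn) {Ts : List (List ℕ)}
    (hTs : (Ts.all tok) = true) {Ks : List (List ℕ)} (hK : pcks XL Ts CL Ks = true)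
    {sf : ℕ → ℕ → ℕ → Option (List (ℕ × ℕ))} {lf dl : ℕ → ℕ → ℕ → Bool}
    (hs : Sfn (okB D tf) (stV bo CL Ts tf ML PL D) sf lf dl) {B N : ℕ}
    (hV : ∀ i < N, Val (stV bo CL Ts tf ML PL D) (prc B i)) {R : List (ℕ × ℕ)} {z : ℕ}
    (hR : clsM lf dl B N R z = true) : Dn bo CL tf PL (R ++ dn) :=
  h.next hCL hMC hML hPL hX hA hB hTs hK fun _ hr => clO_of (clsM_sound hs hV hR _ hr)

end EF18
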