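import Pool.Agent.Lib.MP_ef18bd_co.P.Step

/-!
# Two nodes which are killed by the same pick

`lpx n p a b`: the five patterns in which the ends of the open ports `a`, `b` of two nodes are adjacent to the same vertex of `U`
which is no node. `lpx_ex`: one of them is embedded.
-/

namespace EF18

open Finset

variable {V : Type} [Fintype V] [DecidableEq V] {G : SimpleGraph V} [DecidableRel G.Adj]

/-- connect two open ports directly -/
def cdd (k l p : ℕ) : ℕ := p + (2 + 2 * l) * 256 ^ k + (2 + 2 * k) * 256 ^ l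

/-- connect two open ports by an outer vertex -/
def cll (k l p : ℕ) : ℕ := p + (3 + 2 * l) * 256 ^ k + (3 + 2 * k) * 256 ^ l

/-- the five patterns of two nodes which are killed by the same pick; `a`, `b`: open ports -/
def lpx (n p a b : ℕ) : List (ℕ × ℕ) :=
  [(n + 1, cdd b (3 * n + 1) (cdd a (3 * n) p)),
   (n + 3, cdd (3 * (n + 1) + 1) (3 * (n + 2) + 1)
      (cdd (3 * n + 1) (3 * (n + 2)) (cdd b (3 * (n + 1)) (cdd a (3 * n) p)))),
   (n + 2, cll b (3 * (n + 1) + 1) (cdd (3 * n + 1) (3 * (n + 1)) (cdd a (3 * n) p))),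
   (n + 2, cll a (3 * (n + 1) + 1) (cdd (3 * n + 1) (3 * (n + 1)) (cdd b (3 * n) p))),
   (n + 1, cll b (3 * n + 1) (cll a (3 * n) p))]

theorem two_dd (n p k l : ℕ) : two n p 0 k 0 l = cdd l (3 * n + 1) (cdd k (3 * n) p) := rfl

theorem two_dl (n p k l : ℕ) : two n p 0 k 1 l = cll l (3 * n + 1) (cdd k (3 * n) p) := rfl

theorem two_ll (n p k l : ℕ) : two n p 1 k 1 l = cll l (3 * n + 1) (cll k (3 * n) p) := rfl

theorem dg_cdd {p k l : ℕ} (hkl : k ≠ l) (h0k : dg p k = 0) (h0l : dg p l = 0) (hk : k < 127)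
    (hl : l < 127) (j : ℕ) :
    dg (cdd k l p) j = if j = l then 2 + 2 * k else if j = k then 2 + 2 * l else dg p j :=
  dg_pair hkl h0k h0l (by omega) (by omega) j

/-- the end of an open port as a new node, with a given further neighbour at its second port -/
theorem Emb.hang (hG : G.IsRegularOfDegree 3) {U : Finset V} {n p : ℕ} {φ ν : ℕ → V}
    (h : Emb G U n p φ ν) (hn : n < 40) {a : ℕ} (ha : a < 3 * n) (h0 : dg p a = 0) (hU : ν a ∈ U)
    (hnew : ∀ i < n, φ i ≠ ν a) {x : V} (hx : G.Adj (ν a) x) (hxa : φ (a / 3) ≠ x) :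
    ∃ φ' ν' : ℕ → V, Emb G U (n + 1) (cdd a (3 * n) p) φ' ν' ∧ (∀ i < n, φ' i = φ i) ∧
      (∀ k < 3 * n, ν' k = ν k) ∧ φ' n = ν a ∧ ν' (3 * n + 1) = x := by
  obtain ⟨φ', ν', h', f1, f2, f3, f4, f5⟩ := h.extend2 hG hU hnew (h.adj a ha).symm hx hxa
  refine ⟨φ', ν', ?_, f1, f2, f3, f5⟩
  exact h'.set_dir (by omega) (by omega) (by omega) (by omega) h0 (h.zero _ le_rfl)
    (by rw [f2 a ha, show 3 * n / 3 = n by omega, f3]) (by rw [f4, f1 _ (by omega)])

/-- **the patterns of two nodes which are killed by the same pick** -/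
theorem lpx_ex (hG : G.IsRegularOfDegree 3) {U : Finset V} (hI : Inv G U) {n p : ℕ} {φ ν : ℕ → V}
    (h : Emb G U n p φ ν) (hn : n + 3 ≤ 40) {a b : ℕ} (ha : a < 3 * n) (hb : b < 3 * n)
    (hab : a / 3 ≠ b / 3) (h0a : dg p a = 0) (h0b : dg p b = 0) {x : V} (hx : x ∈ U)
    (hxn : ∀ i < n, φ i ≠ x) (hna : ∀ i < n, φ i ≠ ν a) (hnb : ∀ i < n, φ i ≠ ν b)
    (h1 : G.Adj (ν a) x) (h2 : G.Adj (ν b) x) :
    ∃ q ∈ lpx n p a b, ∃ φ' ν' : ℕ → V, Emb G U q.1 q.2 φ' ν' := by
  have hab' : a ≠ b := fun e => hab (by rw [e])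
  by_cases hU1 : ν a ∈ U
  · obtain ⟨φ1, ν1, e1, f1, f2, f3, f4⟩ := h.hang hG (by omega) ha h0a hU1 hna h1 (hxn _ (by omega))
    have hd1 := dg_cdd (p := p) (k := a) (l := 3 * n) (by omega) h0a (h.zero _ le_rfl) (by omega)
      (by omega)
    have hx1 : ∀ i < n + 1, φ1 i ≠ x := by
      intro i hi
      rcases Nat.lt_succ_iff_lt_or_eq.1 hi with h3 | rfl
      · rw [f1 i h3]; exact hxn i h3
      · rw [f3]; exact h1.ne
    have hb0 : dg (cdd a (3 * n) p) b = 0 := by
      rw [hd1, if_neg (by omega), if_neg (by omega), h0b]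
    have hn1 : dg (cdd a (3 * n) p) (3 * n + 1) = 0 := by
      rw [hd1, if_neg (by omega), if_neg (by omega)]
      exact h.zero _ (by omega)
    by_cases hU2 : ν b ∈ U
    · by_cases he : ν a = ν b
      · obtain ⟨φ', ν', e2, -, -, -⟩ := h.two hG hI (by omega) (a := 0) (b := 0) (k := a) (l := b)
          hU1 hna ha hb hab' h0a h0b (Or.inl ⟨rfl, rfl⟩) (Or.inl ⟨rfl, he.symm⟩)
        exact ⟨_, List.mem_cons_self .., φ', ν', e2⟩
      · obtain ⟨φ2, ν2, e2, g1, g2, g3, g4⟩ := e1.hang hG (by omega) (a := b) (by omega) hb0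
          (by rw [f2 b hb]; exact hU2) (fun i hi => by
            rw [f2 b hb]
            rcases Nat.lt_succ_iff_lt_or_eq.1 hi with h3 | rfl
            · rw [f1 i h3]; exact hnb i h3
            · rw [f3]; exact he) (x := x) (by rw [f2 b hb]; exact h2) (hx1 _ (by omega))
        have hz1 : dg (cdd a (3 * n) p) (3 * (n + 1)) = 0 := e1.zero _ le_rfl
        have hd2 := dg_cdd (p := cdd a (3 * n) p) (k := b) (l := 3 * (n + 1)) (by omega) hb0 hz1
          (by omega) (by omega)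
        obtain ⟨φ', ν', e3, -, -, -⟩ := e2.two hG hI (by omega) (a := 0) (b := 0) (k := 3 * n + 1)
          (l := 3 * (n + 1) + 1) (y := x) hx (fun i hi => by
            rcases Nat.lt_succ_iff_lt_or_eq.1 hi with h3 | rfl
            · rw [g1 i h3]; exact hx1 i h3
            · rw [g3, f2 b hb]; exact h2.ne) (by omega) (by omega) (by omega)
          (by rw [hd2, if_neg (by omega), if_neg (by omega), hn1])
          (by rw [hd2, if_neg (by omega), if_neg (by omega)]; exact e1.zero _ (by omega))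
          (Or.inl ⟨rfl, by rw [g2 _ (by omega), f4]⟩) (Or.inl ⟨rfl, g4⟩)
        exact ⟨_, List.mem_cons_of_mem _ (List.mem_cons_self ..), φ', ν', e3⟩
    · obtain ⟨φ', ν', e3, -, -, -⟩ := e1.two hG hI (by omega) (a := 0) (b := 1) (k := 3 * n + 1)
        (l := b) (y := x) hx hx1 (by omega) (by omega) (by omega) hn1 hb0
        (Or.inl ⟨rfl, f4⟩) (Or.inr ⟨rfl, by rw [f2 b hb]; exact hU2, by rw [f2 b hb]; exact h2⟩)
      exact ⟨_, List.mem_cons_of_mem _ (List.mem_cons_of_mem _ (List.mem_cons_self ..)), φ', ν', e3⟩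
  · by_cases hU2 : ν b ∈ U
    · obtain ⟨φ1, ν1, e1, f1, f2, f3, f4⟩ := h.hang hG (by omega) hb h0b hU2 hnb h2
        (hxn _ (by omega))
      have hd1 := dg_cdd (p := p) (k := b) (l := 3 * n) (by omega) h0b (h.zero _ le_rfl) (by omega)
        (by omega)
      have hx1 : ∀ i < n + 1, φ1 i ≠ x := by
        intro i hi
        rcases Nat.lt_succ_iff_lt_or_eq.1 hi with h3 | rfl
        · rw [f1 i h3]; exact hxn i h3
        · rw [f3]; exact h2.ne
      have ha0 : dg (cdd b (3 * n) p) a = 0 := by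
        rw [hd1, if_neg (by omega), if_neg hab', h0a]
      have hn1 : dg (cdd b (3 * n) p) (3 * n + 1) = 0 := by
        rw [hd1, if_neg (by omega), if_neg (by omega)]
        exact h.zero _ (by omega)
      obtain ⟨φ', ν', e3, -, -, -⟩ := e1.two hG hI (by omega) (a := 0) (b := 1) (k := 3 * n + 1)
        (l := a) (y := x) hx hx1 (by omega) (by omega) (by omega) hn1 ha0
        (Or.inl ⟨rfl, f4⟩) (Or.inr ⟨rfl, by rw [f2 a ha]; exact hU1, by rw [f2 a ha]; exact h1⟩)
      exact ⟨_, List.mem_cons_of_mem _ (List.mem_cons_of_mem _ (List.mem_cons_of_mem _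
        (List.mem_cons_self ..))), φ', ν', e3⟩
    · obtain ⟨φ', ν', e3, -, -, -⟩ := h.two hG hI (by omega) (a := 1) (b := 1) (k := a) (l := b)
        (y := x) hx hxn ha hb hab' h0a h0b (Or.inr ⟨rfl, hU1, h1⟩) (Or.inr ⟨rfl, hU2, h2⟩)
      exact ⟨_, List.mem_cons_of_mem _ (List.mem_cons_of_mem _ (List.mem_cons_of_mem _
        (List.mem_cons_of_mem _ (List.mem_cons_self ..)))), φ', ν', e3⟩

end EF18
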