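import Pool.Agent.Lib.MP_ef18bd_co.P.Cvx
import Pool.Agent.Lib.MP_ef18bd_co.P.Lpx

/-!
# The number of the hits of a piece

The class of the states without the patterns of a list `XL`. `kpc`: no pick kills more than `κ` of the link
vertices of a piece with the live links `S`. `TabOK`: the tables of the costs are valid; `tabOK_of`: by a check.
-/

namespace EF18

open Finset

variable {V : Type} [Fintype V] [DecidableEq V] {G : SimpleGraph V} [DecidableRel G.Adj]

/-- no pattern of the list is in `U` -/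
def NoE (G : SimpleGraph V) (U : Finset V) (XL : List (ℕ × ℕ)) : Prop :=
  ∀ q ∈ XL, ∀ φ ν : ℕ → V, ¬ Emb G U q.1 q.2 φ ν

/-! ### the link vertices -/

theorem lk_ex (hG : G.IsRegularOfDegree 3) {E : Finset V} {n p : ℕ} {φ ν : ℕ → V} (h : Emb G E n p φ ν)
    (hE : ∀ x ∈ E, ∃ i < n, φ i = x) (hp : full1 n p) {z : V} (hz : z ∉ E) (h2 : 2 ≤ nU G E z) :
    ∃ k ∈ lkp (n, p), ν k = z := by
  obtain ⟨y, hy, hzy⟩ := nU_ne_zero.1 (show nU G E z ≠ 0 by omega)
  obtain ⟨k, b, c, e⟩ := Pc.port hG h hE hy hzy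
  rcases h.port1 hp b (by rw [e]; exact hz) with h0 | ⟨l, e1, e2, e3, e4, e5⟩
  · have := h.nU_dead b h0
    rw [e] at this
    omega
  · rcases Nat.lt_or_ge k l with h3 | h3
    · exact ⟨k, mem_lkp.2 ⟨b, l, e1, h3⟩, e⟩
    · have h4 : l < k := lt_of_le_of_ne h3 fun e' => e4 (by rw [e'])
      exact ⟨l, mem_lkp.2 ⟨e2, k, e3, h4⟩, by rw [e5, e]⟩

theorem lk_two {E : Finset V} {n p : ℕ} {φ ν : ℕ → V} (h : Emb G E n p φ ν) {k : ℕ}
    (hk : k ∈ lkp (n, p)) : ν k ∉ E ∧ 2 ≤ nU G E (ν k) := by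
  obtain ⟨h1, l, h2, -⟩ := mem_lkp.1 hk
  exact ⟨(h.lnk k h1 l h2).2.2.2.1, h.nU_lnk h1 h2⟩

theorem lk_inj {E : Finset V} (hI : Inv G E) {n p : ℕ} {φ ν : ℕ → V} (h : Emb G E n p φ ν) {k k' : ℕ}
    (hk : k ∈ lkp (n, p)) (hk' : k' ∈ lkp (n, p)) (e : ν k = ν k') : k = k' := by
  obtain ⟨h1, l, h2, h3⟩ := mem_lkp.1 hk
  obtain ⟨h1', l', h2', h3'⟩ := mem_lkp.1 hk'
  exact h.lnk_inj hI h1 h2 h3 h1' h2' h3' e

/-- counting the link vertices with a property -/
theorem lk_card (hG : G.IsRegularOfDegree 3) {E : Finset V} {n p : ℕ} {φ ν : ℕ → V} (h : Emb G E n p φ ν)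
    (hE : ∀ x ∈ E, ∃ i < n, φ i = x) (hp : full1 n p) {P : V → Prop} [DecidablePred P] (W : Finset V)
    (hW : ∀ z, z ∈ W ↔ z ∉ E ∧ 2 ≤ nU G E z ∧ P z) :
    W.card = ((lkp (n, p)).filter fun k => P (ν k)).length := by
  have hI : Inv G E := Pc.inv hG hp ⟨φ, ν, h, hE⟩
  have h1 : W = ((lkp (n, p)).filter fun k => P (ν k)).toFinset.image ν := by
    ext z
    rw [hW, mem_image]
    constructor
    · rintro ⟨a1, a2, a3⟩
      obtain ⟨k, b1, b2⟩ := lk_ex hG h hE hp a1 a2
      exact ⟨k, List.mem_toFinset.2 (List.mem_filter.2 ⟨b1, by rw [b2]; exact decide_eq_true a3⟩), b2⟩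
    · rintro ⟨k, b1, rfl⟩
      obtain ⟨b2, b3⟩ := List.mem_filter.1 (List.mem_toFinset.1 b1)
      obtain ⟨c1, c2⟩ := lk_two h b2
      exact ⟨c1, c2, of_decide_eq_true b3⟩
  rw [h1, card_image_of_injOn, List.toFinset_card_of_nodup ((nodup_lkp _).filter _)]
  intro k hk k' hk' e
  rw [mem_coe, List.mem_toFinset, List.mem_filter] at hk hk'
  exact lk_inj hI h hk.1 hk'.1 e

theorem dds_card (hG : G.IsRegularOfDegree 3) {U E : Finset V} (hEU : E ⊆ U) {n p : ℕ} {φ ν : ℕ → V}
    (h : Emb G E n p φ ν) (hE : ∀ x ∈ E, ∃ i < n, φ i = x) (hp : full1 n p) :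
    (dds G U E).card = ((lkp (n, p)).filter fun k => ν k ∉ U).length := by
  refine lk_card hG h hE hp (P := fun z => z ∉ U) (dds G U E) fun z => ?_
  rw [mem_dds]
  constructor
  · rintro ⟨a, b⟩
    exact ⟨fun hc => a (hEU hc), b, a⟩
  · rintro ⟨-, b, a⟩
    exact ⟨a, b⟩

theorem hit_card (hG : G.IsRegularOfDegree 3) {U U' E : Finset V} (hEU : E ⊆ U') {n p : ℕ}
    {φ ν : ℕ → V} (h : Emb G E n p φ ν) (hE : ∀ x ∈ E, ∃ i < n, φ i = x) (hp : full1 n p) :
    (hit G U U' E).card = ((lkp (n, p)).filter fun k => ν k ∈ U ∧ ν k ∉ U').length := by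
  refine lk_card hG h hE hp (P := fun z => z ∈ U ∧ z ∉ U') (hit G U U' E) fun z => ?_
  rw [mem_hit]
  constructor
  · rintro ⟨a, b⟩
    exact ⟨fun hc => a.2 (hEU hc), b, a⟩
  · rintro ⟨-, b, a⟩
    exact ⟨a, b⟩

theorem length_split (L : List ℕ) (P : ℕ → Prop) [DecidablePred P] :
    (L.filter fun k => P k).length + (L.filter fun k => ¬ P k).length = L.length := by
  induction L with
  | nil => rfl
  | cons a L ih =>
    by_cases h : P a
    · rw [List.filter_cons_of_pos (by simpa using h), List.filter_cons_of_neg (by simpa using h),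
        List.length_cons, List.length_cons]
      omega
    · rw [List.filter_cons_of_neg (by simpa using h), List.filter_cons_of_pos (by simpa using h),
        List.length_cons, List.length_cons]
      omega

/-! ### two link vertices killed by the same pick -/

/-- the new node of the port `k` of the root `r` -/
def nwk (r : ℕ × ℕ) (n k : ℕ) : Bool :=
  isD (dg r.2 k) && Nat.ble n (tg (dg r.2 k)) && Nat.ble (Nat.succ (tg (dg r.2 k))) r.1 &&
    Nat.beq (dg r.2 (3 * tg (dg r.2 k) + 2)) 0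

/-- the new nodes of the root `r` have two ports at the piece -/
def nwi (r : ℕ × ℕ) (n : ℕ) : Bool :=
  (List.range r.1).all fun i => Nat.ble (Nat.succ i) n ||
    (isD (dg r.2 (3 * i)) && Nat.ble (Nat.succ (tg (dg r.2 (3 * i)))) n &&
      isD (dg r.2 (3 * i + 1)) && Nat.ble (Nat.succ (tg (dg r.2 (3 * i + 1)))) n)

/-- all the patterns of the two live links `k`, `k'` are excluded -/
def fbp (XL : List (ℕ × ℕ)) (r : ℕ × ℕ) (k k' : ℕ) : Bool :=
  (lpx r.1 r.2 (3 * tg (dg r.2 k) + 2) (3 * tg (dg r.2 k') + 2)).all fun s => mem2 s XL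

/-- the pick `x` does not kill a vertex of `E` -/
structure Far (G : SimpleGraph V) [DecidableRel G.Adj] (U E : Finset V) (x : V) : Prop where
  mem : x ∈ U
  far : ∀ y ∈ E, y ∉ B2 G x

/-- **two link vertices are not killed by the same pick** -/
theorem fbp_no (hG : G.IsRegularOfDegree 3) {U E : Finset V} (hI : Inv G U) (hEU : E ⊆ U) {n p : ℕ}
    {φ ν : ℕ → V} (h : Emb G E n p φ ν) (hE : ∀ x ∈ E, ∃ i < n, φ i = x) (hp : full1 n p)
    (h40 : n + (lkp (n, p)).length ≤ 40) {S : List ℕ} (hS : S = (lkp (n, p)).filter fun k => ν k ∈ U)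
    {r : ℕ × ℕ} (hr : r = rt (n, p) S) (hr40 : r.1 + 3 ≤ 40) (hi : nwi r n = true) {XL : List (ℕ × ℕ)}
    (hX : NoE G U XL) {x : V} (hx : Far G U E x) {k k' : ℕ} (hk : k ∈ S) (hk' : k' ∈ S) (hne : k ≠ k')
    (w : nwk r n k = true) (w' : nwk r n k' = true) (hz : ν k ∈ B2 G x) (hz' : ν k' ∈ B2 G x) :
    fbp XL r k k' ≠ true := by
  intro hf
  obtain ⟨φ', ν', e1, e2, e3⟩ := h.root4 hG hEU (q := (n, p)) hp h40 hE
  rw [← hS, ← hr] at e1
  have hIE : Inv G E := Pc.inv hG hp ⟨φ, ν, h, hE⟩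
  have hkl := fun (k : ℕ) (hk : k ∈ S) => List.mem_filter.1 (hS ▸ hk : k ∈ (lkp (n, p)).filter fun k => ν k ∈ U)
  -- a vertex near `x` is not adjacent to the piece
  have key : ∀ k ∈ S, nwk r n k = true → ν k ∈ B2 G x → ∃ t, t = 3 * tg (dg r.2 k) + 2 ∧ t < 3 * r.1 ∧
      dg r.2 t = 0 ∧ φ' (t / 3) = ν k ∧ G.Adj (ν' t) x ∧ ∀ i < r.1, φ' i ≠ ν' t := by
    intro k hk w hz
    obtain ⟨c1, c2⟩ := hkl k hk
    obtain ⟨c3, l, c4, c5⟩ := mem_lkp.1 c1
    dsimp only at c3 c4
    unfold nwk at w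
    simp only [Bool.and_eq_true] at w
    obtain ⟨⟨⟨w1, w2⟩, w3⟩, w4⟩ := w
    obtain ⟨m, hm⟩ := isD_iff.1 w1
    have w2' : n ≤ tg (dg r.2 k) := Nat.le_of_ble_eq_true w2
    have w3' : tg (dg r.2 k) < r.1 := Nat.le_of_ble_eq_true w3
    have w4' : dg r.2 (3 * tg (dg r.2 k) + 2) = 0 := Nat.eq_of_beq_eq_true w4
    have hnr : n ≤ r.1 := by omega
    obtain ⟨d1, d2, d3, d4⟩ := e1.dir k (by omega) m hm
    have hj : tg (dg r.2 k) = m / 3 := by rw [hm, tg_dir]
    rw [hj] at w2' w3' w4' ⊢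
    rw [e3 k c3] at d3
    refine ⟨3 * (m / 3) + 2, rfl, by omega, w4', by rw [show (3 * (m / 3) + 2) / 3 = m / 3 by omega, d3], ?_⟩
    -- the common neighbour
    have f1 : ∃ y ∈ E, G.Adj (ν k) y := nU_ne_zero.1 (show nU G E (ν k) ≠ 0 by
      have := (lk_two h c1).2
      omega)
    obtain ⟨y, hy, hzy⟩ := f1
    obtain ⟨v, hv1, hv2⟩ := mem_B2.1 hz
    rw [mem_cn] at hv1 hv2
    have f2 : ∀ y ∈ E, ∀ v, (v = x ∨ G.Adj x v) → ¬ (y = v ∨ G.Adj v y) := fun y hy v h1 h2 =>
      hx.far y hy (mem_B2.2 ⟨v, mem_cn.2 h1, mem_cn.2 h2⟩)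
    have hzx : ν k ≠ x := fun e => f2 y hy x (Or.inl rfl) (Or.inr (e ▸ hzy))
    have hzx2 : ¬ G.Adj x (ν k) := fun e => f2 y hy (ν k) (Or.inr e) (Or.inr hzy)
    have hvx : G.Adj x v := by
      rcases hv1 with rfl | h1
      · rcases hv2 with h2 | h2
        · exact absurd h2 hzx
        · exact absurd h2 hzx2
      · exact h1
    have hvz : G.Adj v (ν k) := by
      rcases hv2 with h2 | h2
      · exact absurd (h2 ▸ hvx) hzx2
      · exact h2
    have hvE : v ∉ E := fun hc => f2 v hc v (Or.inr hvx) (Or.inl rfl)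
    -- the port of the new node to `v`
    have f3 : ∀ t, t / 3 = m / 3 → t < 3 * r.1 → isD (dg r.2 t) = true → tg (dg r.2 t) < n → ν' t ∈ E := by
      intro t h1 h2 h3 h4
      obtain ⟨m', hm'⟩ := isD_iff.1 h3
      obtain ⟨a1, a2, a3, a4⟩ := e1.dir t h2 m' hm'
      rw [hm', tg_dir] at h4
      rw [a3, e2 _ h4]
      exact h.mem _ h4
    have f4 : G.Adj (φ' (m / 3)) v := by
      rw [← d3]
      exact hvz.symm
    obtain ⟨t, t1, t2, t3⟩ := e1.surj hG (i := m / 3) w3' f4
    have hi' := List.all_eq_true.1 hi (m / 3) (List.mem_range.2 w3')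
    rw [Bool.or_eq_true] at hi'
    have hi2 : (isD (dg r.2 (3 * (m / 3))) && Nat.ble (Nat.succ (tg (dg r.2 (3 * (m / 3))))) n &&
      isD (dg r.2 (3 * (m / 3) + 1)) && Nat.ble (Nat.succ (tg (dg r.2 (3 * (m / 3) + 1)))) n) = true := by
      rcases hi' with h1 | h1
      · have : m / 3 + 1 ≤ n := Nat.le_of_ble_eq_true h1
        omega
      · exact h1
    simp only [Bool.and_eq_true] at hi2
    obtain ⟨⟨⟨g1, g2⟩, g3⟩, g4⟩ := hi2
    have ht : t = 3 * (m / 3) + 2 := by
      have h1 : t = 3 * (m / 3) ∨ t = 3 * (m / 3) + 1 ∨ t = 3 * (m / 3) + 2 := by omega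
      rcases h1 with h1 | h1 | h1
      · exfalso
        have := f3 t t1 t2 (by rw [h1]; exact g1) (by rw [h1]; exact Nat.le_of_ble_eq_true g2)
        rw [t3] at this
        exact hvE this
      · exfalso
        have := f3 t t1 t2 (by rw [h1]; exact g3) (by rw [h1]; exact Nat.le_of_ble_eq_true g4)
        rw [t3] at this
        exact hvE this
      · exact h1
    rw [← ht, t3]
    refine ⟨hvx.symm, fun i hi1 hc => ?_⟩
    rcases Nat.lt_or_ge i n with h1 | h1
    · rw [e2 i h1] at hc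
      exact hvE (hc ▸ h.mem i h1)
    · have hi3 := List.all_eq_true.1 hi i (List.mem_range.2 hi1)
      rw [Bool.or_eq_true] at hi3
      rcases hi3 with h2 | h2
      · have : i + 1 ≤ n := Nat.le_of_ble_eq_true h2
        omega
      · simp only [Bool.and_eq_true] at h2
        obtain ⟨⟨⟨g1, g2⟩, -⟩, -⟩ := h2
        obtain ⟨m', hm'⟩ := isD_iff.1 g1
        obtain ⟨a1, a2, a3, a4⟩ := e1.dir (3 * i) (by omega) m' hm'
        have g2' : tg (dg r.2 (3 * i)) < n := Nat.le_of_ble_eq_true g2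
        rw [hm', tg_dir] at g2'
        have a5 := e1.adj (3 * i) (by omega)
        rw [show 3 * i / 3 = i by omega, hc, a3, e2 _ g2'] at a5
        exact f2 _ (h.mem _ g2') v (Or.inr hvx) (Or.inr a5)
  obtain ⟨a, a1, a2, a3, a4, a5, a6⟩ := key k hk w hz
  obtain ⟨b, b1, b2, b3, b4, b5, b6⟩ := key k' hk' w' hz'
  have hab : a / 3 ≠ b / 3 := by
    intro e
    rw [e, b4] at a4
    exact hne (lk_inj hIE h (hkl k hk).1 (hkl k' hk').1 a4.symm)
  have hxn : ∀ i < r.1, φ' i ≠ x := by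
    intro i hi1 hc
    rcases Nat.lt_or_ge i n with h1 | h1
    · rw [e2 i h1] at hc
      exact hx.far _ (h.mem i h1) (hc ▸ self_mem_B2)
    · have hi3 := List.all_eq_true.1 hi i (List.mem_range.2 hi1)
      rw [Bool.or_eq_true] at hi3
      rcases hi3 with h2 | h2
      · have : i + 1 ≤ n := Nat.le_of_ble_eq_true h2
        omega
      · simp only [Bool.and_eq_true] at h2
        obtain ⟨⟨⟨g1, g2⟩, -⟩, -⟩ := h2
        obtain ⟨m', hm'⟩ := isD_iff.1 g1
        obtain ⟨c1, c2, c3, c4⟩ := e1.dir (3 * i) (by omega) m' hm'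
        have g2' : tg (dg r.2 (3 * i)) < n := Nat.le_of_ble_eq_true g2
        rw [hm', tg_dir] at g2'
        have a5 := e1.adj (3 * i) (by omega)
        rw [show 3 * i / 3 = i by omega, hc, c3, e2 _ g2'] at a5
        exact hx.far _ (h.mem _ g2') (mem_B2_of_adj a5.symm)
  obtain ⟨q, q1, φ2, ν2, q2⟩ := lpx_ex hG hI e1 hr40 a2 b2 hab a3 b3 hx.mem hxn a6 b6 a5 b5
  unfold fbp at hf
  rw [a1, b1] at q1
  exact hX q (mem2_of (List.all_eq_true.1 hf q q1)) φ2 ν2 q2

/-! ### the number of the link vertices killed by one pick -/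

/-- every way to choose `m` elements of the list gives, with the elements of `A`, a forbidden pair -/
def clq (f : ℕ → ℕ → Bool) : List ℕ → ℕ → List ℕ → Bool
  | [], m, _ => !Nat.beq m 0
  | x :: L, m, A => bif Nat.beq m 0 then false else
      clq f L m A && (A.any (fun y => f y x) || clq f L (Nat.pred m) (x :: A))

theorem clq_of {f : ℕ → ℕ → Bool} : ∀ {L : List ℕ} {m : ℕ} {A : List ℕ}, clq f L m A = true → L.Nodup →
    (∀ y ∈ A, y ∉ L) → ∀ H : List ℕ, H.Sublist L → H.length = m →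
    ∃ y, ∃ x ∈ H, (y ∈ A ∨ y ∈ H) ∧ y ≠ x ∧ f y x = true := by
  intro L
  induction L with
  | nil =>
    intro m A h _ _ H hH hm
    rw [List.sublist_nil.1 hH] at hm
    rw [clq, ← hm] at h
    exact absurd h (by simp)
  | cons x L ih =>
    intro m A h hn hA H hH hm
    rw [clq] at h
    cases hm0 : Nat.beq m 0
    swap
    · rw [hm0, cond_true] at h
      exact absurd h (by simp)
    rw [hm0, cond_false, Bool.and_eq_true, Bool.or_eq_true] at h
    obtain ⟨h1, h2⟩ := h
    have hn' := List.nodup_cons.1 hn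
    rcases List.sublist_cons_iff.1 hH with h3 | ⟨H', rfl, h3⟩
    · exact ih h1 hn'.2 (fun y hy hc => hA y hy (List.mem_cons_of_mem _ hc)) H h3 hm
    · rcases h2 with h2 | h2
      · obtain ⟨y, hy, hf⟩ := List.any_eq_true.1 h2
        exact ⟨y, x, List.mem_cons_self, Or.inl hy, fun e => hA y hy (e ▸ List.mem_cons_self), hf⟩
      · rw [List.length_cons] at hm
        obtain ⟨y, x', a1, a2, a3, a4⟩ := ih h2 hn'.2 (fun y hy hc => by
          rcases List.mem_cons.1 hy with rfl | hy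
          · exact hn'.1 hc
          · exact hA y hy (List.mem_cons_of_mem _ hc)) H' h3 (by rw [← hm]; rfl)
        refine ⟨y, x', List.mem_cons_of_mem _ a1, ?_, a3, a4⟩
        rcases a2 with a2 | a2
        · rcases List.mem_cons.1 a2 with rfl | a2
          · exact Or.inr List.mem_cons_self
          · exact Or.inl a2
        · exact Or.inr (List.mem_cons_of_mem _ a2)

/-- no pick kills more than `κ` of the live link vertices `S`, if the patterns of `XL` are excluded -/
def kpr (XL : List (ℕ × ℕ)) (N p n : ℕ) (S : List ℕ) (κ : ℕ) : Bool :=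
  nwi (N, p) n && S.all (nwk (N, p) n) && Nat.ble (N + 3) 40 && clq (fbp XL (N, p)) S (Nat.succ κ) []

/-- no pick kills more than `κ` of the live link vertices `S` of the piece `q` -/
def kpc (XL : List (ℕ × ℕ)) (q : ℕ × ℕ) (S : List ℕ) (κ : ℕ) : Bool :=
  Nat.ble S.length κ || frc (rt q S).1 fun N => frc (rt q S).2 fun p => kpr XL N p q.1 S κ

/-- **the number of the live link vertices killed by one pick** -/
theorem kap_le (hG : G.IsRegularOfDegree 3) {U E : Finset V} (hI : Inv G U) (hEU : E ⊆ U) {n p : ℕ}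
    {φ ν : ℕ → V} (h : Emb G E n p φ ν) (hE : ∀ x ∈ E, ∃ i < n, φ i = x) (hp : full1 n p)
    (h40 : n + (lkp (n, p)).length ≤ 40) {S : List ℕ} (hS : S = (lkp (n, p)).filter fun k => ν k ∈ U)
    {XL : List (ℕ × ℕ)} (hX : NoE G U XL) {κ : ℕ} (hκ : kpc XL (n, p) S κ = true) {x : V}
    (hx : Far G U E x) : (S.filter fun k => ν k ∈ B2 G x).length ≤ κ := by
  unfold kpc at hκ
  rw [Bool.or_eq_true, frc_eq, frc_eq] at hκ
  rcases hκ with hκ | hκ
  · have h1 : S.length ≤ κ := Nat.le_of_ble_eq_true hκ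
    exact (List.length_filter_le _ _).trans h1
  unfold kpr at hκ
  simp only [Bool.and_eq_true] at hκ
  obtain ⟨⟨⟨c1, c2⟩, c3⟩, c4⟩ := hκ
  by_contra hc
  push Not at hc
  have hnd : S.Nodup := by
    rw [hS]
    exact (nodup_lkp _).filter _
  obtain ⟨k, k', a1, a2, a3, a4⟩ := clq_of c4 hnd (fun _ h => absurd h List.not_mem_nil)
    ((S.filter fun k => ν k ∈ B2 G x).take (Nat.succ κ))
    ((List.take_sublist _ _).trans List.filter_sublist) (by
      rw [List.length_take]
      exact min_eq_left hc)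
  have b1 := List.mem_filter.1 (List.mem_of_mem_take a1)
  have a5 : k ∈ (S.filter fun k => ν k ∈ B2 G x).take (Nat.succ κ) := by
    rcases a2 with a2 | a2
    · exact absurd a2 List.not_mem_nil
    · exact a2
  have b2 := List.mem_filter.1 (List.mem_of_mem_take a5)
  exact fbp_no hG hI hEU h hE hp h40 hS rfl (Nat.le_of_ble_eq_true c3) c1 hX hx b2.1 b1.1 a3
    (List.all_eq_true.1 c2 k b2.1) (List.all_eq_true.1 c2 k' b1.1) (of_decide_eq_true b2.2)
    (of_decide_eq_true b1.2) a4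

/-- **the number of the hits of a piece** -/
theorem hit_le (hG : G.IsRegularOfDegree 3) {U E : Finset V} (hI : Inv G U) {X : List V}
    (hPk : ∀ x ∈ X, x ∈ U) (hEU : E ⊆ rem G U X) {n p : ℕ} {φ ν : ℕ → V} (h : Emb G E n p φ ν)
    (hE : ∀ x ∈ E, ∃ i < n, φ i = x) (hp : full1 n p) (h40 : n + (lkp (n, p)).length ≤ 40) {S : List ℕ}
    (hS : S = (lkp (n, p)).filter fun k => ν k ∈ U) {XL : List (ℕ × ℕ)} (hX : NoE G U XL) {κ : ℕ}
    (hκ : kpc XL (n, p) S κ = true) :
    (hit G U (rem G U X) E).card ≤ S.length ∧ (hit G U (rem G U X) E).card ≤ X.length * κ := by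
  classical
  have hnd : S.Nodup := by
    rw [hS]
    exact (nodup_lkp _).filter _
  rw [hit_card hG hEU h hE hp]
  obtain ⟨T, hT⟩ : ∃ T, T = (lkp (n, p)).filter fun k => ν k ∈ U ∧ ν k ∉ rem G U X := ⟨_, rfl⟩
  rw [← hT]
  have hTn : T.Nodup := by
    rw [hT]
    exact (nodup_lkp _).filter _
  have hTS : ∀ k ∈ T, k ∈ S ∧ ∃ x ∈ X, ν k ∈ B2 G x := by
    intro k hk
    rw [hT, List.mem_filter] at hk
    obtain ⟨h1, h2⟩ := hk
    have h2 := of_decide_eq_true h2
    refine ⟨by rw [hS]; exact List.mem_filter.2 ⟨h1, decide_eq_true h2.1⟩, ?_⟩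
    by_contra hc
    push Not at hc
    exact h2.2 (mem_rem.2 ⟨h2.1, hc⟩)
  constructor
  · exact (List.subperm_of_subset hTn fun k hk => (hTS k hk).1).length_le
  · have h1 : T.toFinset ⊆ X.toFinset.biUnion fun x => (S.filter fun k => ν k ∈ B2 G x).toFinset := by
      intro k hk
      obtain ⟨h2, x, h3, h4⟩ := hTS k (List.mem_toFinset.1 hk)
      exact mem_biUnion.2 ⟨x, List.mem_toFinset.2 h3, List.mem_toFinset.2
        (List.mem_filter.2 ⟨h2, decide_eq_true h4⟩)⟩
    have h2 := card_le_card h1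
    rw [List.toFinset_card_of_nodup hTn] at h2
    refine h2.trans (card_biUnion_le.trans ?_)
    have h3 : ∀ x ∈ X.toFinset, ((S.filter fun k => ν k ∈ B2 G x).toFinset).card ≤ κ := fun x hx => by
      rw [List.toFinset_card_of_nodup (hnd.filter _)]
      have hx := List.mem_toFinset.1 hx
      exact kap_le hG hI (hEU.trans rem_subset) h hE hp h40 hS hX hκ
        ⟨hPk x hx, fun y hy => (mem_rem.1 (hEU hy)).2 x hx⟩
    refine (sum_le_sum h3).trans ?_
    rw [sum_const, smul_eq_mul]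
    exact Nat.mul_le_mul_right κ X.toFinset_card_le

/-! ### the tables -/

/-- the table of the costs -/
def ctf (T : List ℕ) (o : ℕ) : ℕ := bif Nat.ble (Nat.succ o) T.length then T.getD o 0 else Nat.mul 1000 o

/-- the table is monotone -/
def tok (T : List ℕ) : Bool := (List.range T.length).all fun s =>
  Nat.ble (T.getD s 0) (1000 * s) && (Nat.ble T.length (s + 1) || Nat.ble (T.getD s 0) (T.getD (s + 1) 0))

/-- `h` hits at a piece with `d` dead link vertices -/
def thk (T f : List ℕ) (d h : ℕ) : Bool := (List.range (T.length - h)).all fun s =>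
  Nat.ble (f.getD (d + h) 0 + T.getD s 0) (f.getD d 0 + T.getD (s + h) 0)

/-- at most `m` hits -/
def tkd (T f : List ℕ) (d : ℕ) : ℕ → Bool
  | 0 => true
  | h + 1 => thk T f d (h + 1) && tkd T f d h

theorem tkd_of {T f : List ℕ} {d : ℕ} : ∀ {m : ℕ}, tkd T f d m = true → ∀ h, 1 ≤ h → h ≤ m →
    thk T f d h = true := by
  intro m
  induction m with
  | zero => intro _ h h1 h2; omega
  | succ m ih =>
    intro h0 h h1 h2
    rw [tkd, Bool.and_eq_true] at h0
    rcases Nat.lt_or_ge m h with h3 | h3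
    · rw [show h = m + 1 by omega]
      exact h0.1
    · exact ih h0.2 h h1 h3

theorem tok_le {T : List ℕ} (h : tok T = true) {s : ℕ} (hs : s < T.length) : T.getD s 0 ≤ 1000 * s := by
  have h1 := List.all_eq_true.1 h s (List.mem_range.2 hs)
  rw [Bool.and_eq_true] at h1
  exact Nat.le_of_ble_eq_true h1.1

theorem tok_mono {T : List ℕ} (h : tok T = true) {s t : ℕ} (hst : s ≤ t) (ht : t < T.length) :
    T.getD s 0 ≤ T.getD t 0 := by
  induction t with
  | zero => rw [show s = 0 by omega]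
  | succ t ih =>
    rcases Nat.lt_or_ge t s with h3 | h3
    · rw [show s = t + 1 by omega]
    · have h1 := List.all_eq_true.1 h t (List.mem_range.2 (by omega))
      rw [Bool.and_eq_true, Bool.or_eq_true] at h1
      rcases h1.2 with h2 | h2
      · have := Nat.le_of_ble_eq_true h2
        omega
      · exact (ih h3 (by omega)).trans (Nat.le_of_ble_eq_true h2)

theorem ctf_in {T : List ℕ} {o : ℕ} (h : o < T.length) : ctf T o = T.getD o 0 := by
  unfold ctf
  rw [Nat.ble_eq_true_of_le (show Nat.succ o ≤ T.length from h), cond_true]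

theorem ctf_out {T : List ℕ} {o : ℕ} (h : T.length ≤ o) : ctf T o = 1000 * o := by
  unfold ctf
  cases hb : Nat.ble (Nat.succ o) T.length
  · rfl
  · have : o + 1 ≤ T.length := Nat.le_of_ble_eq_true hb
    omega

theorem ctf_le {T : List ℕ} (h : tok T = true) (s : ℕ) : ctf T s ≤ 1000 * s := by
  rcases Nat.lt_or_ge s T.length with h1 | h1
  · rw [ctf_in h1]
    exact tok_le h h1
  · rw [ctf_out h1]

theorem ctf_mono {T : List ℕ} (h : tok T = true) {s o : ℕ} (hs : s ≤ o) : ctf T s ≤ ctf T o := by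
  rcases Nat.lt_or_ge o T.length with h1 | h1
  · rw [ctf_in h1, ctf_in (by omega)]
    exact tok_mono h hs h1
  · rw [ctf_out h1]
    exact (ctf_le h s).trans (Nat.mul_le_mul_left _ hs)

/-- the inequality for all `s` -/
theorem ctf_step {T f : List ℕ} (hT : tok T = true) {d h : ℕ} (h1 : 1 ≤ h) (hf : f.getD (d + h) 0 ≤ 1000)
    (hk : thk T f d h = true) (s : ℕ) : f.getD (d + h) 0 + ctf T s ≤ f.getD d 0 + ctf T (s + h) := by
  rcases Nat.lt_or_ge (s + h) T.length with h2 | h2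
  · rw [ctf_in h2, ctf_in (by omega)]
    exact Nat.le_of_ble_eq_true (List.all_eq_true.1 hk s (List.mem_range.2 (by omega)))
  · rw [ctf_out h2, mul_add]
    have := ctf_le hT s
    omega

/-- the check for a piece: `KD`: the bounds `κ`, by the number of the dead link vertices -/
def pck (XL : List (ℕ × ℕ)) (Ts : List (List ℕ)) (e : CPc) (KD : List ℕ) : Bool :=
  (e.2.all fun x => Nat.ble x 1000) &&
  ((lkp e.1).sublists.all fun S => mem2 (rt e.1 S) XL ||
    kpc XL e.1 S (KD.getD ((lkp e.1).length - S.length) 0)) &&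
  (List.range ((lkp e.1).length + 1)).all fun d => (List.range Ts.length).all fun i =>
    tkd (Ts.getD i []) e.2 d (Nat.min ((lkp e.1).length - d) ((i + 1) * KD.getD d 0))

/-- the check for all pieces -/
def pcks (XL : List (ℕ × ℕ)) (Ts : List (List ℕ)) : List CPc → List (List ℕ) → Bool
  | [], _ => true
  | e :: CL, Ks => match Ks with
    | [] => false
    | K :: Ks => pck XL Ts e K && pcks XL Ts CL Ks

theorem pcks_of {XL : List (ℕ × ℕ)} {Ts : List (List ℕ)} : ∀ {CL : List CPc} {Ks : List (List ℕ)},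
    pcks XL Ts CL Ks = true → ∀ e ∈ CL, ∃ K, pck XL Ts e K = true := by
  intro CL
  induction CL with
  | nil => intro Ks _ e he; exact absurd he List.not_mem_nil
  | cons a CL ih =>
    intro Ks h e he
    match Ks with
    | [] => exact absurd h (by simp [pcks])
    | K :: Ks =>
      rw [pcks, Bool.and_eq_true] at h
      rcases List.mem_cons.1 he with rfl | he
      · exact ⟨K, h.1⟩
      · exact ih h.2 e he

/-- the tables are valid in `U` -/
def TabOK (CL : List CPc) (Ts : List (List ℕ)) (G : SimpleGraph V) [DecidableRel G.Adj] (U : Finset V) :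
    Prop :=
  ∀ X : List V, (∀ x ∈ X, x ∈ U) → ∀ e ∈ CL, ∀ E ⊆ rem G U X, Pc G E e.1.1 e.1.2 → ∀ s,
    cfv e (dds G (rem G U X) E).card + ctf (Ts.getD (X.length - 1) []) s ≤
      cfv e (dds G U E).card + ctf (Ts.getD (X.length - 1) []) (s + (hit G U (rem G U X) E).card)

/-- the pieces of the list are complete and small -/
def cok (CL : List CPc) : Prop := ∀ e ∈ CL, full1 e.1.1 e.1.2 ∧ e.1.1 + (lkp e.1).length ≤ 40

instance (CL : List CPc) : Decidable (cok CL) := by unfold cok; infer_instance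

/-- **the tables are valid by the check** -/
theorem tabOK_of (hG : G.IsRegularOfDegree 3) {U : Finset V} (hI : Inv G U) {CL : List CPc} (hCL : cok CL)
    {XL : List (ℕ × ℕ)} {Ts : List (List ℕ)} (hTs : (Ts.all tok) = true) {Ks : List (List ℕ)}
    (hc : pcks XL Ts CL Ks = true) (hX : NoE G U XL) : TabOK CL Ts G U := by
  intro X hPk e he E hE hp s
  obtain ⟨K, hK⟩ := pcks_of hc e he
  obtain ⟨f1, f2⟩ := hCL e he
  obtain ⟨⟨n, p⟩, f⟩ := e
  dsimp only at hp f1 f2
  obtain ⟨φ, ν, h, hEs⟩ := hp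
  have hs := dds_step (G := G) (rem_subset (G := G) (U := U) (L := X)) E
  obtain ⟨S, hS⟩ : ∃ S, S = (lkp (n, p)).filter fun k => ν k ∈ U := ⟨_, rfl⟩
  have hEU : E ⊆ U := hE.trans rem_subset
  unfold pck at hK
  simp only [Bool.and_eq_true] at hK
  obtain ⟨⟨k1, k2⟩, k3⟩ := hK
  have hd : (dds G U E).card + S.length = (lkp (n, p)).length := by
    rw [dds_card hG hEU h hEs f1, hS, add_comm]
    exact length_split (lkp (n, p)) fun k => ν k ∈ U
  have hSs : S ∈ (lkp (n, p)).sublists := by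
    rw [hS]
    exact List.mem_sublists.2 List.filter_sublist
  have k4 := List.all_eq_true.1 k2 S hSs
  rw [Bool.or_eq_true] at k4
  have hkp : kpc XL (n, p) S (K.getD ((lkp (n, p)).length - S.length) 0) = true := by
    rcases k4 with k4 | k4
    · exfalso
      obtain ⟨φ', ν', e1, -, -⟩ := h.root4 hG hEU (q := (n, p)) f1 f2 hEs
      rw [← hS] at e1
      exact hX _ (mem2_of k4) φ' ν' e1
    · exact k4
  rw [show (lkp (n, p)).length - S.length = (dds G U E).card by omega] at hkp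
  obtain ⟨b1, b2⟩ := hit_le hG hI hPk hE h hEs f1 f2 hS hX hkp
  rw [hs]
  have hval : ∀ d, f.getD d 0 ≤ 1000 := by
    intro d
    rcases Nat.lt_or_ge d f.length with h1 | h1
    · rw [List.getD_eq_getElem _ _ h1]
      exact Nat.le_of_ble_eq_true (List.all_eq_true.1 k1 _ (List.getElem_mem h1))
    · rw [List.getD_eq_default _ _ h1]
      exact Nat.zero_le _
  unfold cfv
  dsimp only
  rcases Nat.eq_zero_or_pos (hit G U (rem G U X) E).card with h0 | h0
  · rw [h0]
    exact le_rfl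
  have hX0 : X.length ≠ 0 := fun e => by
    rw [e, zero_mul] at b2
    omega
  obtain ⟨i, hi⟩ : ∃ i, i = X.length - 1 := ⟨_, rfl⟩
  rw [← hi]
  rcases Nat.lt_or_ge i Ts.length with h1 | h1
  · have h2 : Ts.getD i [] ∈ Ts := by
      rw [List.getD_eq_getElem _ _ h1]
      exact List.getElem_mem h1
    have h3 := List.all_eq_true.1 (List.all_eq_true.1 k3 (dds G U E).card
      (List.mem_range.2 (by omega))) i (List.mem_range.2 h1)
    refine ctf_step (List.all_eq_true.1 hTs _ h2) h0 (hval _) (tkd_of h3 _ h0 ?_) s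
    refine le_min (by omega) ?_
    rw [show i + 1 = X.length by omega]
    exact b2
  · rw [List.getD_eq_default _ _ h1]
    exact ctf_step (T := []) rfl h0 (hval _) (by simp [thk]) s

end EF18
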