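import Pool.Agent.Lib.MP_ef18bd_co.P.PhX

/-!
# More bounds for the number of the hits of a piece

The three neighbours of a pick: four link vertices killed by the same pick have a pair with a common third
neighbour; three of them have such a pair or are on the three ports of the pick. `kpc3`, `pck3`, `pcks3`: the
checks; `Dn.rawY`: the phase.
-/

namespace EF18

open Finset

variable {V : Type} [Fintype V] [DecidableEq V] {G : SimpleGraph V} [DecidableRel G.Adj]

/-! ### the patterns of three ports -/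

/-- join the open ports `a`, `b`: by a new node, or by an outer vertex -/
def att (a b : ℕ) (c : Bool) (s : ℕ × ℕ) : ℕ × ℕ :=
  bif c then (s.1 + 1, cdd b (3 * s.1 + 1) (cdd a (3 * s.1) s.2)) else (s.1, cll a b s.2)

/-- the eight patterns of three ports which are next to the three ports of one pick -/
def tpx (n p a1 a2 a3 : ℕ) : List (ℕ × ℕ) :=
  [true, false].flatMap fun c1 => [true, false].flatMap fun c2 => [true, false].map fun c3 =>
    att a3 (3 * n + 2) c3 (att a2 (3 * n + 1) c2 (att a1 (3 * n) c1 (n + 1, p)))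

theorem mem_tpx (n p a1 a2 a3 : ℕ) (c1 c2 c3 : Bool) :
    att a3 (3 * n + 2) c3 (att a2 (3 * n + 1) c2 (att a1 (3 * n) c1 (n + 1, p))) ∈ tpx n p a1 a2 a3 := by
  have hb : ∀ c : Bool, c ∈ [true, false] := fun c => by cases c <;> simp
  exact List.mem_flatMap.2 ⟨c1, hb c1, List.mem_flatMap.2 ⟨c2, hb c2, List.mem_map.2 ⟨c3, hb c3, rfl⟩⟩⟩

theorem att_ex (hG : G.IsRegularOfDegree 3) {U : Finset V} (hI : Inv G U) {s : ℕ × ℕ} {φ ν : ℕ → V}
    (h : Emb G U s.1 s.2 φ ν) (hN : s.1 < 40) {a b : ℕ} (ha : a < 3 * s.1) (hb : b < 3 * s.1)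
    (hab : a / 3 ≠ b / 3) (h0a : dg s.2 a = 0) (h0b : dg s.2 b = 0) (e : ν b = ν a)
    (hn : ∀ i < s.1, φ i ≠ ν a) :
    ∃ (c : Bool) (φ' ν' : ℕ → V), Emb G U (att a b c s).1 (att a b c s).2 φ' ν' ∧
      (∀ i < s.1, φ' i = φ i) ∧ (∀ k < 3 * s.1, ν' k = ν k) ∧
      (∀ i < (att a b c s).1, i < s.1 ∨ φ' i = ν a) ∧ s.1 ≤ (att a b c s).1 ∧
      (att a b c s).1 ≤ s.1 + 1 ∧ ∀ j < 3 * s.1, j ≠ a → j ≠ b → dg (att a b c s).2 j = dg s.2 j := by
  have hab' : a ≠ b := fun e => hab (by rw [e])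
  by_cases hU : ν a ∈ U
  · obtain ⟨φ', ν', e2, g1, g2, g3⟩ := h.two hG hI hN (a := 0) (b := 0) (k := a) (l := b) (y := ν a)
      hU hn ha hb hab' h0a h0b (Or.inl ⟨rfl, rfl⟩) (Or.inl ⟨rfl, e⟩)
    refine ⟨true, φ', ν', e2, g1, g2, fun i hi => ?_, Nat.le_succ _, le_rfl, fun j hj h1 h2 => ?_⟩
    · have hi' : i < s.1 + 1 := hi
      rcases Nat.lt_succ_iff_lt_or_eq.1 hi' with h1 | rfl
      · exact Or.inl h1
      · exact Or.inr g3
    · change dg (cdd b (3 * s.1 + 1) (cdd a (3 * s.1) s.2)) j = _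
      have z0 : dg s.2 (3 * s.1) = 0 := h.zero _ le_rfl
      have d1 := dg_cdd (p := s.2) (k := a) (l := 3 * s.1) (by omega) h0a z0 (by omega) (by omega)
      have z1 : dg (cdd a (3 * s.1) s.2) b = 0 := by
        rw [d1, if_neg (by omega), if_neg (by omega), h0b]
      have z2 : dg (cdd a (3 * s.1) s.2) (3 * s.1 + 1) = 0 := by
        rw [d1, if_neg (by omega), if_neg (by omega)]
        exact h.zero _ (by omega)
      rw [dg_cdd (p := cdd a (3 * s.1) s.2) (k := b) (l := 3 * s.1 + 1) (by omega) z1 z2 (by omega)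
        (by omega), if_neg (by omega), if_neg h2, d1, if_neg (by omega), if_neg h1]
  · refine ⟨false, φ, ν, h.set_lnk (by omega) ha hb hab h0a h0b hU e, fun _ _ => rfl, fun _ _ => rfl,
      fun i hi => Or.inl hi, le_rfl, Nat.le_succ _, fun j hj h1 h2 => ?_⟩
    change dg (s.2 + (3 + 2 * b) * 256 ^ a + (3 + 2 * a) * 256 ^ b) j = _
    rw [dg_pair hab' h0a h0b (by omega) (by omega), if_neg h2, if_neg h1]

/-- **the patterns of three ports which are next to the three ports of one pick** -/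
theorem tpx_ex (hG : G.IsRegularOfDegree 3) {U : Finset V} (hI : Inv G U) {n p : ℕ} {φ ν : ℕ → V}
    (h : Emb G U n p φ ν) (hn : n + 4 ≤ 40) {a b c : ℕ} (ha : a < 3 * n) (hb : b < 3 * n)
    (hc : c < 3 * n) (hab : a ≠ b) (hac : a ≠ c) (hbc : b ≠ c) (h0a : dg p a = 0) (h0b : dg p b = 0)
    (h0c : dg p c = 0) {x : V} (hx : x ∈ U) (hxn : ∀ i < n, φ i ≠ x) (hna : ∀ i < n, φ i ≠ ν a)
    (hnb : ∀ i < n, φ i ≠ ν b) (hnc : ∀ i < n, φ i ≠ ν c) (h1 : G.Adj x (ν a)) (h2 : G.Adj x (ν b))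
    (h3 : G.Adj x (ν c)) (nab : ν a ≠ ν b) (nac : ν a ≠ ν c) (nbc : ν b ≠ ν c) :
    ∃ q ∈ tpx n p a b c, ∃ φ' ν' : ℕ → V, Emb G U q.1 q.2 φ' ν' := by
  obtain ⟨φ0, ν0, e0, f1, f2, f3, f4, f5⟩ := h.extend2 hG hx hxn h1 h2 nab
  have f6 : ν0 (3 * n + 2) = ν c := by
    obtain ⟨k, k1, k2, k3⟩ := e0.surj hG (Nat.lt_succ_self n) (y := ν c) (by rw [f3]; exact h3)
    rcases (by omega : k = 3 * n ∨ k = 3 * n + 1 ∨ k = 3 * n + 2) with rfl | rfl | rfl
    · exact absurd (f4.symm.trans k3) nac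
    · exact absurd (f5.symm.trans k3) nbc
    · exact k3
  have z : ∀ j, 3 * n ≤ j → dg p j = 0 := fun j hj => h.zero j hj
  have hxn0 : ∀ y, (∀ i < n, φ i ≠ y) → G.Adj x y → ∀ i < n + 1, φ0 i ≠ y := by
    intro y hy hxy i hi
    rcases Nat.lt_succ_iff_lt_or_eq.1 hi with h4 | rfl
    · rw [f1 i h4]; exact hy i h4
    · rw [f3]; exact hxy.ne
  obtain ⟨c1, φ1, ν1, e1, g1, g2, g3, g4, g5, g6⟩ := att_ex hG hI (s := (n + 1, p)) e0
    (show n + 1 < 40 by omega) (a := a) (b := 3 * n) (show a < 3 * (n + 1) by omega)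
    (show 3 * n < 3 * (n + 1) by omega) (by omega) h0a (z _ le_rfl)
    (by rw [f4, f2 a ha]) (by rw [f2 a ha]; exact hxn0 _ hna h1)
  dsimp only at g1 g2 g3 g4 g5 g6
  obtain ⟨s1, hs1⟩ : ∃ s, s = att a (3 * n) c1 (n + 1, p) := ⟨_, rfl⟩
  rw [← hs1] at e1 g3 g4 g5 g6
  obtain ⟨c2, φ2, ν2, e2, k1, k2, k3, k4, k5, k6⟩ := att_ex hG hI (s := s1) e1
    (by omega) (a := b) (b := 3 * n + 1) (by omega) (by omega) (by omega)
    (by rw [g6 b (by omega) (by omega) (by omega), h0b])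
    (by rw [g6 (3 * n + 1) (by omega) (by omega) (by omega)]; exact z _ (by omega))
    (by rw [g2 _ (by omega), g2 _ (by omega), f5, f2 b hb]) (fun i hi => by
      rw [g2 b (by omega), f2 b hb]
      rcases g3 i hi with h4 | h4
      · rw [g1 i h4]; exact hxn0 _ hnb h2 i h4
      · rw [h4, f2 a ha]; exact nab)
  obtain ⟨s2, hs2⟩ : ∃ s, s = att b (3 * n + 1) c2 s1 := ⟨_, rfl⟩
  rw [← hs2] at e2 k3 k4 k5 k6
  obtain ⟨c3, φ3, ν3, e3, -, -, -, -, -, -⟩ := att_ex hG hI (s := s2) e2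
    (by omega) (a := c) (b := 3 * n + 2) (by omega) (by omega) (by omega)
    (by rw [k6 c (by omega) (by omega) (by omega), g6 c (by omega) (by omega) (by omega), h0c])
    (by rw [k6 (3 * n + 2) (by omega) (by omega) (by omega), g6 (3 * n + 2) (by omega) (by omega) (by omega)]
        exact z _ (by omega))
    (by rw [k2 _ (by omega), k2 _ (by omega), g2 _ (by omega), g2 _ (by omega), f6, f2 c hc]) (fun i hi => by
      rw [k2 c (by omega), g2 c (by omega), f2 c hc]
      rcases k3 i hi with h4 | h4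
      · rw [k1 i h4]
        rcases g3 i h4 with h5 | h5
        · rw [g1 i h5]; exact hxn0 _ hnc h3 i h5
        · rw [h5, f2 a ha]; exact nac
      · rw [h4, g2 b (by omega), f2 b hb]; exact nbc)
  rw [hs2, hs1] at e3
  exact ⟨_, mem_tpx n p a b c c1 c2 c3, φ3, ν3, e3⟩

/-! ### the checks -/

/-- the third port of the new node of the link `k` -/
def thp (r : ℕ × ℕ) (k : ℕ) : ℕ := 3 * tg (dg r.2 k) + 2

/-- the pattern of a common third neighbour is excluded -/
def f1p (XL : List (ℕ × ℕ)) (r : ℕ × ℕ) (k k' : ℕ) : Bool :=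
  mem2 (r.1 + 1, cdd (thp r k') (3 * r.1 + 1) (cdd (thp r k) (3 * r.1) r.2)) XL

/-- the eight patterns of three links are excluded -/
def t8p (XL : List (ℕ × ℕ)) (r : ℕ × ℕ) (k k' k'' : ℕ) : Bool :=
  (tpx r.1 r.2 (thp r k) (thp r k') (thp r k'')).all fun s => mem2 s XL

/-- for all pairs of the list, in the order of the list -/
def allp (f : ℕ → ℕ → Bool) : List ℕ → Bool
  | [] => true
  | x :: L => L.all (f x) && allp f L

/-- for all triples of the list, in the order of the list -/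
def allt (f : ℕ → ℕ → ℕ → Bool) : List ℕ → Bool
  | [] => true
  | x :: L => allp (f x) L && allt f L

theorem allp_of {f : ℕ → ℕ → Bool} : ∀ {L : List ℕ}, allp f L = true → ∀ {x y : ℕ}, [x, y].Sublist L →
    f x y = true := by
  intro L
  induction L with
  | nil =>
    intro _ x y h
    exact absurd (List.sublist_nil.1 h) (by simp)
  | cons a L ih =>
    intro h x y hs
    rw [allp, Bool.and_eq_true] at h
    rcases List.sublist_cons_iff.1 hs with h1 | ⟨r, h1, h2⟩
    · exact ih h.2 h1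
    · rw [List.cons.injEq] at h1
      obtain ⟨rfl, rfl⟩ := h1
      exact List.all_eq_true.1 h.1 y (List.singleton_sublist.1 h2)

theorem allt_of {f : ℕ → ℕ → ℕ → Bool} : ∀ {L : List ℕ}, allt f L = true → ∀ {x y z : ℕ},
    [x, y, z].Sublist L → f x y z = true := by
  intro L
  induction L with
  | nil =>
    intro _ x y z h
    exact absurd (List.sublist_nil.1 h) (by simp)
  | cons a L ih =>
    intro h x y z hs
    rw [allt, Bool.and_eq_true] at h
    rcases List.sublist_cons_iff.1 hs with h1 | ⟨r, h1, h2⟩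
    · exact ih h.2 h1
    · rw [List.cons.injEq] at h1
      obtain ⟨rfl, rfl⟩ := h1
      exact allp_of h.1 h2

/-- the bound `κ` from the three ports of the pick -/
def kpt (XL : List (ℕ × ℕ)) (r : ℕ × ℕ) (n : ℕ) (S : List ℕ) (κ : ℕ) : Bool :=
  Nat.ble 2 κ && Nat.ble (r.1 + 4) 40 && nwi r n && S.all (nwk r n) && allp (f1p XL r) S &&
    (Nat.ble 3 κ || allt (t8p XL r) S)

/-- no pick kills more than `κ` of the live link vertices `S` of the piece `q` -/
def kpc3 (XL : List (ℕ × ℕ)) (q : ℕ × ℕ) (S : List ℕ) (κ : ℕ) : Bool :=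
  Nat.ble S.length κ || frc (rt q S).1 fun N => frc (rt q S).2 fun p =>
    kpr XL N p q.1 S κ || kpt XL (N, p) q.1 S κ

/-- **the ports of the killed link vertices** -/
theorem near_port (hG : G.IsRegularOfDegree 3) {U E : Finset V} (hEU : E ⊆ U) {n p : ℕ}
    {φ ν : ℕ → V} (h : Emb G E n p φ ν) (hE : ∀ x ∈ E, ∃ i < n, φ i = x) (hp : full1 n p)
    (h40 : n + (lkp (n, p)).length ≤ 40) {S : List ℕ} (hS : S = (lkp (n, p)).filter fun k => ν k ∈ U)
    {r : ℕ × ℕ} (hr : r = rt (n, p) S) (hi : nwi r n = true) {x : V} (hx : Far G U E x) :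
    ∃ φ' ν' : ℕ → V, Emb G U r.1 r.2 φ' ν' ∧ (∀ i < r.1, φ' i ≠ x) ∧
      ∀ k ∈ S, nwk r n k = true → ν k ∈ B2 G x → thp r k < 3 * r.1 ∧ dg r.2 (thp r k) = 0 ∧
        φ' (thp r k / 3) = ν k ∧ G.Adj x (ν' (thp r k)) ∧ ∀ i < r.1, φ' i ≠ ν' (thp r k) := by
  obtain ⟨φ', ν', e1, e2, e3⟩ := h.root4 hG hEU (q := (n, p)) hp h40 hE
  rw [← hS, ← hr] at e1
  have hkl := fun (k : ℕ) (hk : k ∈ S) => List.mem_filter.1 (hS ▸ hk : k ∈ (lkp (n, p)).filter fun k => ν k ∈ U)
  have hxn : ∀ i < r.1, φ' i ≠ x := by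
    intro i hi1 hc
    rcases Nat.lt_or_ge i n with h1 | h1
    · rw [e2 i h1] at hc
      exact hx.far _ (h.mem i h1) (hc ▸ self_mem_B2)
    · have hi3 := List.all_eq_true.1 hi i (List.mem_range.2 hi1)
      rw [Bool.or_eq_true] at hi3
      rcases hi3 with h2 | h2
      · have : i + 1 ≤ n := Nat.le_of_ble_eq_true h2
        omega
      · simp only [Bool.and_eq_true] at h2
        obtain ⟨⟨⟨g1, g2⟩, -⟩, -⟩ := h2
        obtain ⟨m', hm'⟩ := isD_iff.1 g1
        obtain ⟨c1, c2, c3, c4⟩ := e1.dir (3 * i) (by omega) m' hm'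
        have g2' : tg (dg r.2 (3 * i)) < n := Nat.le_of_ble_eq_true g2
        rw [hm', tg_dir] at g2'
        have a5 := e1.adj (3 * i) (by omega)
        rw [show 3 * i / 3 = i by omega, hc, c3, e2 _ g2'] at a5
        exact hx.far _ (h.mem _ g2') (mem_B2_of_adj a5.symm)
  refine ⟨φ', ν', e1, hxn, ?_⟩
  intro k hk w hz
  obtain ⟨c1, c2⟩ := hkl k hk
  obtain ⟨c3, l, c4, c5⟩ := mem_lkp.1 c1
  dsimp only at c3 c4
  unfold nwk at w
  simp only [Bool.and_eq_true] at w
  obtain ⟨⟨⟨w1, w2⟩, w3⟩, w4⟩ := w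
  obtain ⟨m, hm⟩ := isD_iff.1 w1
  have w2' : n ≤ tg (dg r.2 k) := Nat.le_of_ble_eq_true w2
  have w3' : tg (dg r.2 k) < r.1 := Nat.le_of_ble_eq_true w3
  have w4' : dg r.2 (3 * tg (dg r.2 k) + 2) = 0 := Nat.eq_of_beq_eq_true w4
  obtain ⟨d1, d2, d3, d4⟩ := e1.dir k (by omega) m hm
  have hj : tg (dg r.2 k) = m / 3 := by rw [hm, tg_dir]
  unfold thp
  rw [hj] at w2' w3' w4' ⊢
  rw [e3 k c3] at d3
  refine ⟨by omega, w4', by rw [show (3 * (m / 3) + 2) / 3 = m / 3 by omega, d3], ?_⟩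
  -- the common neighbour
  have f1 : ∃ y ∈ E, G.Adj (ν k) y := nU_ne_zero.1 (show nU G E (ν k) ≠ 0 by
    have := (lk_two h c1).2
    omega)
  obtain ⟨y, hy, hzy⟩ := f1
  obtain ⟨v, hv1, hv2⟩ := mem_B2.1 hz
  rw [mem_cn] at hv1 hv2
  have f2 : ∀ y ∈ E, ∀ v, (v = x ∨ G.Adj x v) → ¬ (y = v ∨ G.Adj v y) := fun y hy v h1 h2 =>
    hx.far y hy (mem_B2.2 ⟨v, mem_cn.2 h1, mem_cn.2 h2⟩)
  have hzx : ν k ≠ x := fun e => f2 y hy x (Or.inl rfl) (Or.inr (e ▸ hzy))
  have hzx2 : ¬ G.Adj x (ν k) := fun e => f2 y hy (ν k) (Or.inr e) (Or.inr hzy)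
  have hvx : G.Adj x v := by
    rcases hv1 with rfl | h1
    · rcases hv2 with h2 | h2
      · exact absurd h2 hzx
      · exact absurd h2 hzx2
    · exact h1
  have hvz : G.Adj v (ν k) := by
    rcases hv2 with h2 | h2
    · exact absurd (h2 ▸ hvx) hzx2
    · exact h2
  have hvE : v ∉ E := fun hc => f2 v hc v (Or.inr hvx) (Or.inl rfl)
  -- the port of the new node to `v`
  have f3 : ∀ t, t / 3 = m / 3 → t < 3 * r.1 → isD (dg r.2 t) = true → tg (dg r.2 t) < n → ν' t ∈ E := by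
    intro t h1 h2 h3 h4
    obtain ⟨m', hm'⟩ := isD_iff.1 h3
    obtain ⟨a1, a2, a3, a4⟩ := e1.dir t h2 m' hm'
    rw [hm', tg_dir] at h4
    rw [a3, e2 _ h4]
    exact h.mem _ h4
  have f4 : G.Adj (φ' (m / 3)) v := by
    rw [← d3]
    exact hvz.symm
  obtain ⟨t, t1, t2, t3⟩ := e1.surj hG (i := m / 3) w3' f4
  have hi' := List.all_eq_true.1 hi (m / 3) (List.mem_range.2 w3')
  rw [Bool.or_eq_true] at hi'
  have hi2 : (isD (dg r.2 (3 * (m / 3))) && Nat.ble (Nat.succ (tg (dg r.2 (3 * (m / 3))))) n &&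
    isD (dg r.2 (3 * (m / 3) + 1)) && Nat.ble (Nat.succ (tg (dg r.2 (3 * (m / 3) + 1)))) n) = true := by
    rcases hi' with h1 | h1
    · have : m / 3 + 1 ≤ n := Nat.le_of_ble_eq_true h1
      omega
    · exact h1
  simp only [Bool.and_eq_true] at hi2
  obtain ⟨⟨⟨g1, g2⟩, g3⟩, g4⟩ := hi2
  have ht : t = 3 * (m / 3) + 2 := by
    have h1 : t = 3 * (m / 3) ∨ t = 3 * (m / 3) + 1 ∨ t = 3 * (m / 3) + 2 := by omega
    rcases h1 with h1 | h1 | h1
    · exfalso
      have := f3 t t1 t2 (by rw [h1]; exact g1) (by rw [h1]; exact Nat.le_of_ble_eq_true g2)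
      rw [t3] at this
      exact hvE this
    · exfalso
      have := f3 t t1 t2 (by rw [h1]; exact g3) (by rw [h1]; exact Nat.le_of_ble_eq_true g4)
      rw [t3] at this
      exact hvE this
    · exact h1
  rw [← ht, t3]
  refine ⟨hvx, fun i hi1 hc => ?_⟩
  rcases Nat.lt_or_ge i n with h1 | h1
  · rw [e2 i h1] at hc
    exact hvE (hc ▸ h.mem i h1)
  · have hi3 := List.all_eq_true.1 hi i (List.mem_range.2 hi1)
    rw [Bool.or_eq_true] at hi3
    rcases hi3 with h2 | h2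
    · have : i + 1 ≤ n := Nat.le_of_ble_eq_true h2
      omega
    · simp only [Bool.and_eq_true] at h2
      obtain ⟨⟨⟨g1, g2⟩, -⟩, -⟩ := h2
      obtain ⟨m', hm'⟩ := isD_iff.1 g1
      obtain ⟨a1, a2, a3, a4⟩ := e1.dir (3 * i) (by omega) m' hm'
      have g2' : tg (dg r.2 (3 * i)) < n := Nat.le_of_ble_eq_true g2
      rw [hm', tg_dir] at g2'
      have a5 := e1.adj (3 * i) (by omega)
      rw [show 3 * i / 3 = i by omega, hc, a3, e2 _ g2'] at a5
      exact f2 _ (h.mem _ g2') v (Or.inr hvx) (Or.inr a5)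

/-- **the number of the live link vertices killed by one pick, from its three ports** -/
theorem kpt_le (hG : G.IsRegularOfDegree 3) {U E : Finset V} (hI : Inv G U) (hEU : E ⊆ U) {n p : ℕ}
    {φ ν : ℕ → V} (h : Emb G E n p φ ν) (hE : ∀ x ∈ E, ∃ i < n, φ i = x) (hp : full1 n p)
    (h40 : n + (lkp (n, p)).length ≤ 40) {S : List ℕ} (hS : S = (lkp (n, p)).filter fun k => ν k ∈ U)
    {XL : List (ℕ × ℕ)} (hX : NoE G U XL) {κ : ℕ} (hκ : kpt XL (rt (n, p) S) n S κ = true) {x : V}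
    (hx : Far G U E x) : (S.filter fun k => ν k ∈ B2 G x).length ≤ κ := by
  obtain ⟨r, hr⟩ : ∃ r, r = rt (n, p) S := ⟨_, rfl⟩
  rw [← hr] at hκ
  unfold kpt at hκ
  simp only [Bool.and_eq_true] at hκ
  obtain ⟨⟨⟨⟨⟨c1, c2⟩, c3⟩, c4⟩, c5⟩, c6⟩ := hκ
  have c1' : 2 ≤ κ := Nat.le_of_ble_eq_true c1
  have c2' : r.1 + 4 ≤ 40 := Nat.le_of_ble_eq_true c2
  obtain ⟨φ', ν', e1, hxn, key⟩ := near_port hG hEU h hE hp h40 hS hr c3 hx
  have hIE : Inv G E := Pc.inv hG hp ⟨φ, ν, h, hE⟩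
  have hSl : ∀ k ∈ S, k ∈ lkp (n, p) := fun k hk => (List.mem_filter.1 (hS ▸ hk)).1
  have hnd : S.Nodup := by
    rw [hS]
    exact (nodup_lkp _).filter _
  obtain ⟨H, hH⟩ : ∃ H, H = S.filter fun k => ν k ∈ B2 G x := ⟨_, rfl⟩
  have hHS : H.Sublist S := by rw [hH]; exact List.filter_sublist
  have hHn : H.Nodup := by rw [hH]; exact hnd.filter _
  have keyH : ∀ k ∈ H, thp r k < 3 * r.1 ∧ dg r.2 (thp r k) = 0 ∧ φ' (thp r k / 3) = ν k ∧
      G.Adj x (ν' (thp r k)) ∧ ∀ i < r.1, φ' i ≠ ν' (thp r k) := by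
    intro k hk
    rw [hH] at hk
    obtain ⟨a1, a2⟩ := List.mem_filter.1 hk
    exact key k a1 (List.all_eq_true.1 c4 k a1) (of_decide_eq_true a2)
  -- two killed link vertices have different third neighbours
  have two : ∀ k k', [k, k'].Sublist H → ν' (thp r k) ≠ ν' (thp r k') := by
    intro k k' hs he
    have hk : k ∈ H := hs.subset List.mem_cons_self
    have hk' : k' ∈ H := hs.subset (List.mem_cons_of_mem _ List.mem_cons_self)
    have hne : k ≠ k' := fun e => by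
      have := (List.Sublist.nodup hs hHn)
      rw [e] at this
      simp at this
    obtain ⟨a1, a2, a3, a4, a5⟩ := keyH k hk
    obtain ⟨b1, b2, b3, b4, b5⟩ := keyH k' hk'
    have hkk : ν k ≠ ν k' := fun e => hne (lk_inj hIE h (hSl _ (hHS.subset hk)) (hSl _ (hHS.subset hk')) e)
    have hab : thp r k / 3 ≠ thp r k' / 3 := fun e => hkk (by rw [← a3, ← b3, e])
    have hyU : ν' (thp r k) ∈ U := by
      by_contra hno
      have h2 := nU_le_two hI hno
      have h3 : ({ν k, ν k', x} : Finset V) ⊆ G.neighborFinset (ν' (thp r k)) ∩ U := by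
        intro z hz
        rw [mem_insert, mem_insert, mem_singleton] at hz
        rw [mem_inter, SimpleGraph.mem_neighborFinset]
        rcases hz with rfl | rfl | rfl
        · have := e1.adj _ a1
          rw [a3] at this
          exact ⟨this.symm, by rw [← a3]; exact e1.mem _ (by omega)⟩
        · have := e1.adj _ b1
          rw [b3, ← he] at this
          exact ⟨this.symm, by rw [← b3]; exact e1.mem _ (by omega)⟩
        · exact ⟨a4.symm, hx.mem⟩
      have h4 : ({ν k, ν k', x} : Finset V).card = 3 := by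
        rw [card_insert_of_notMem, card_insert_of_notMem, card_singleton]
        · rw [mem_singleton, ← b3]
          exact hxn _ (by omega)
        · rw [mem_insert, mem_singleton]
          rintro (e | e)
          · exact hkk e
          · rw [← a3] at e
            exact hxn _ (by omega) e
      have h5 := card_le_card h3
      unfold nU at h2
      omega
    obtain ⟨φ2, ν2, e2, -, -, -⟩ := e1.two hG hI (by omega) (a := 0) (b := 0) (k := thp r k)
      (l := thp r k') (y := ν' (thp r k)) hyU a5 a1 b1 (fun e => hab (by rw [e])) a2 b2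
      (Or.inl ⟨rfl, rfl⟩) (Or.inl ⟨rfl, he.symm⟩)
    exact hX _ (mem2_of (allp_of c5 (hs.trans hHS))) φ2 ν2 e2
  by_contra hc
  rw [← hH] at hc
  push Not at hc
  rw [Bool.or_eq_true] at c6
  rcases H with _ | ⟨k1, _ | ⟨k2, _ | ⟨k3, H⟩⟩⟩
  · simp at hc
  · simp only [List.length_cons, List.length_nil] at hc; omega
  · simp only [List.length_cons, List.length_nil] at hc; omega
  have s12 : [k1, k2].Sublist (k1 :: k2 :: k3 :: H) := by simp
  have s13 : [k1, k3].Sublist (k1 :: k2 :: k3 :: H) :=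
    List.Sublist.cons_cons _ (List.Sublist.cons _ (List.Sublist.cons_cons _ (List.nil_sublist _)))
  have s23 : [k2, k3].Sublist (k1 :: k2 :: k3 :: H) :=
    List.Sublist.cons _ (List.Sublist.cons_cons _ (List.Sublist.cons_cons _ (List.nil_sublist _)))
  have n12 := two _ _ s12
  have n13 := two _ _ s13
  have n23 := two _ _ s23
  obtain ⟨a1, a2, a3, a4, a5⟩ := keyH k1 (s12.subset List.mem_cons_self)
  obtain ⟨b1, b2, b3, b4, b5⟩ := keyH k2 (s23.subset List.mem_cons_self)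
  obtain ⟨d1, d2, d3, d4, d5⟩ := keyH k3 (s23.subset (List.mem_cons_of_mem _ List.mem_cons_self))
  rcases c6 with c6 | c6
  · -- four of them
    have c6' : 3 ≤ κ := Nat.le_of_ble_eq_true c6
    rcases H with _ | ⟨k4, H⟩
    · simp only [List.length_cons, List.length_nil] at hc; omega
    have s14 : [k1, k4].Sublist (k1 :: k2 :: k3 :: k4 :: H) :=
      List.Sublist.cons_cons _ (List.Sublist.cons _ (List.Sublist.cons _ (List.Sublist.cons_cons _ (List.nil_sublist _))))
    have s24 : [k2, k4].Sublist (k1 :: k2 :: k3 :: k4 :: H) :=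
      List.Sublist.cons _ (List.Sublist.cons_cons _ (List.Sublist.cons _ (List.Sublist.cons_cons _ (List.nil_sublist _))))
    have s34 : [k3, k4].Sublist (k1 :: k2 :: k3 :: k4 :: H) :=
      List.Sublist.cons _ (List.Sublist.cons _ (List.Sublist.cons_cons _ (List.Sublist.cons_cons _ (List.nil_sublist _))))
    have n14 := two _ _ s14
    have n24 := two _ _ s24
    have n34 := two _ _ s34
    obtain ⟨g1, g2, g3, g4, g5⟩ := keyH k4 (s34.subset (List.mem_cons_of_mem _ List.mem_cons_self))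
    have h3 : ({ν' (thp r k1), ν' (thp r k2), ν' (thp r k3), ν' (thp r k4)} : Finset V) ⊆
        G.neighborFinset x := by
      intro z hz
      rw [mem_insert, mem_insert, mem_insert, mem_singleton] at hz
      rw [SimpleGraph.mem_neighborFinset]
      rcases hz with rfl | rfl | rfl | rfl
      · exact a4
      · exact b4
      · exact d4
      · exact g4
    have h4 : ({ν' (thp r k1), ν' (thp r k2), ν' (thp r k3), ν' (thp r k4)} : Finset V).card = 4 := by
      rw [card_insert_of_notMem, card_insert_of_notMem, card_insert_of_notMem, card_singleton]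
      · rw [mem_singleton]; exact n34
      · rw [mem_insert, mem_singleton]
        rintro (e | e)
        · exact n23 e
        · exact n24 e
      · rw [mem_insert, mem_insert, mem_singleton]
        rintro (e | e | e)
        · exact n12 e
        · exact n13 e
        · exact n14 e
    have h5 := card_le_card h3
    rw [h4, nbr_card hG] at h5
    omega
  · -- three of them
    have s123 : [k1, k2, k3].Sublist (k1 :: k2 :: k3 :: H) := by simp
    have c7 := allt_of c6 (s123.trans hHS)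
    obtain ⟨q, q1, φ2, ν2, q2⟩ := tpx_ex hG hI e1 c2' a1 b1 d1 (fun e => n12 (by rw [e]))
      (fun e => n13 (by rw [e])) (fun e => n23 (by rw [e])) a2 b2 d2 hx.mem hxn a5 b5 d5 a4 b4 d4 n12 n13 n23
    exact hX q (mem2_of (List.all_eq_true.1 c7 q q1)) φ2 ν2 q2

/-- **the number of the live link vertices killed by one pick** -/
theorem kap3_le (hG : G.IsRegularOfDegree 3) {U E : Finset V} (hI : Inv G U) (hEU : E ⊆ U) {n p : ℕ}
    {φ ν : ℕ → V} (h : Emb G E n p φ ν) (hE : ∀ x ∈ E, ∃ i < n, φ i = x) (hp : full1 n p)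
    (h40 : n + (lkp (n, p)).length ≤ 40) {S : List ℕ} (hS : S = (lkp (n, p)).filter fun k => ν k ∈ U)
    {XL : List (ℕ × ℕ)} (hX : NoE G U XL) {κ : ℕ} (hκ : kpc3 XL (n, p) S κ = true) {x : V}
    (hx : Far G U E x) : (S.filter fun k => ν k ∈ B2 G x).length ≤ κ := by
  unfold kpc3 at hκ
  rw [Bool.or_eq_true, frc_eq, frc_eq, Bool.or_eq_true] at hκ
  rcases hκ with hκ | hκ | hκ
  · exact kap_le hG hI hEU h hE hp h40 hS hX (by unfold kpc; rw [hκ]; rfl) hx
  · exact kap_le hG hI hEU h hE hp h40 hS hX (by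
      unfold kpc
      rw [frc_eq, frc_eq, hκ, Bool.or_true]) hx
  · exact kpt_le hG hI hEU h hE hp h40 hS hX hκ hx

/-- **the number of the hits of a piece** -/
theorem hit_le3 (hG : G.IsRegularOfDegree 3) {U E : Finset V} (hI : Inv G U) {X : List V}
    (hPk : ∀ x ∈ X, x ∈ U) (hEU : E ⊆ rem G U X) {n p : ℕ} {φ ν : ℕ → V} (h : Emb G E n p φ ν)
    (hE : ∀ x ∈ E, ∃ i < n, φ i = x) (hp : full1 n p) (h40 : n + (lkp (n, p)).length ≤ 40) {S : List ℕ}
    (hS : S = (lkp (n, p)).filter fun k => ν k ∈ U) {XL : List (ℕ × ℕ)} (hX : NoE G U XL) {κ : ℕ}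
    (hκ : kpc3 XL (n, p) S κ = true) :
    (hit G U (rem G U X) E).card ≤ S.length ∧ (hit G U (rem G U X) E).card ≤ X.length * κ := by
  classical
  have hnd : S.Nodup := by
    rw [hS]
    exact (nodup_lkp _).filter _
  rw [hit_card hG hEU h hE hp]
  obtain ⟨T, hT⟩ : ∃ T, T = (lkp (n, p)).filter fun k => ν k ∈ U ∧ ν k ∉ rem G U X := ⟨_, rfl⟩
  rw [← hT]
  have hTn : T.Nodup := by
    rw [hT]
    exact (nodup_lkp _).filter _
  have hTS : ∀ k ∈ T, k ∈ S ∧ ∃ x ∈ X, ν k ∈ B2 G x := by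
    intro k hk
    rw [hT, List.mem_filter] at hk
    obtain ⟨h1, h2⟩ := hk
    have h2 := of_decide_eq_true h2
    refine ⟨by rw [hS]; exact List.mem_filter.2 ⟨h1, decide_eq_true h2.1⟩, ?_⟩
    by_contra hc
    push Not at hc
    exact h2.2 (mem_rem.2 ⟨h2.1, hc⟩)
  constructor
  · exact (List.subperm_of_subset hTn fun k hk => (hTS k hk).1).length_le
  · have h1 : T.toFinset ⊆ X.toFinset.biUnion fun x => (S.filter fun k => ν k ∈ B2 G x).toFinset := by
      intro k hk
      obtain ⟨h2, x, h3, h4⟩ := hTS k (List.mem_toFinset.1 hk)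
      exact mem_biUnion.2 ⟨x, List.mem_toFinset.2 h3, List.mem_toFinset.2
        (List.mem_filter.2 ⟨h2, decide_eq_true h4⟩)⟩
    have h2 := card_le_card h1
    rw [List.toFinset_card_of_nodup hTn] at h2
    refine h2.trans (card_biUnion_le.trans ?_)
    have h3 : ∀ x ∈ X.toFinset, ((S.filter fun k => ν k ∈ B2 G x).toFinset).card ≤ κ := fun x hx => by
      rw [List.toFinset_card_of_nodup (hnd.filter _)]
      have hx := List.mem_toFinset.1 hx
      exact kap3_le hG hI (hEU.trans rem_subset) h hE hp h40 hS hX hκ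
        ⟨hPk x hx, fun y hy => (mem_rem.1 (hEU hy)).2 x hx⟩
    refine (sum_le_sum h3).trans ?_
    rw [sum_const, smul_eq_mul]
    exact Nat.mul_le_mul_right κ X.toFinset_card_le

/-! ### the tables -/

/-- the check for a piece: `KD`: the bounds `κ`, by the number of the dead link vertices -/
def pck3 (XL : List (ℕ × ℕ)) (Ts : List (List ℕ)) (e : CPc) (KD : List ℕ) : Bool :=
  (e.2.all fun x => Nat.ble x 1000) &&
  ((lkp e.1).sublists.all fun S => kpc3 XL e.1 S (KD.getD ((lkp e.1).length - S.length) 0) ||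
    mem2 (rt e.1 S) XL) &&
  (List.range ((lkp e.1).length + 1)).all fun d => (List.range Ts.length).all fun i =>
    tkd (Ts.getD i []) e.2 d (Nat.min ((lkp e.1).length - d) ((i + 1) * KD.getD d 0))

/-- the check for all pieces -/
def pcks3 (XL : List (ℕ × ℕ)) (Ts : List (List ℕ)) : List CPc → List (List ℕ) → Bool
  | [], _ => true
  | e :: CL, Ks => match Ks with
    | [] => false
    | K :: Ks => pck3 XL Ts e K && pcks3 XL Ts CL Ks

theorem pcks3_of {XL : List (ℕ × ℕ)} {Ts : List (List ℕ)} : ∀ {CL : List CPc} {Ks : List (List ℕ)},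
    pcks3 XL Ts CL Ks = true → ∀ e ∈ CL, ∃ K, pck3 XL Ts e K = true := by
  intro CL
  induction CL with
  | nil => intro Ks _ e he; exact absurd he List.not_mem_nil
  | cons a CL ih =>
    intro Ks h e he
    match Ks with
    | [] => exact absurd h (by simp [pcks3])
    | K :: Ks =>
      rw [pcks3, Bool.and_eq_true] at h
      rcases List.mem_cons.1 he with rfl | he
      · exact ⟨K, h.1⟩
      · exact ih h.2 e he

/-- **the tables are valid by the check** -/
theorem tabOK_of3 (hG : G.IsRegularOfDegree 3) {U : Finset V} (hI : Inv G U) {CL : List CPc} (hCL : cok CL)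
    {XL : List (ℕ × ℕ)} {Ts : List (List ℕ)} (hTs : (Ts.all tok) = true) {Ks : List (List ℕ)}
    (hc : pcks3 XL Ts CL Ks = true) (hX : NoE G U XL) : TabOK CL Ts G U := by
  intro X hPk e he E hE hp s
  obtain ⟨K, hK⟩ := pcks3_of hc e he
  obtain ⟨f1, f2⟩ := hCL e he
  obtain ⟨⟨n, p⟩, f⟩ := e
  dsimp only at hp f1 f2
  obtain ⟨φ, ν, h, hEs⟩ := hp
  have hs := dds_step (G := G) (rem_subset (G := G) (U := U) (L := X)) E
  obtain ⟨S, hS⟩ : ∃ S, S = (lkp (n, p)).filter fun k => ν k ∈ U := ⟨_, rfl⟩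
  have hEU : E ⊆ U := hE.trans rem_subset
  unfold pck3 at hK
  simp only [Bool.and_eq_true] at hK
  obtain ⟨⟨k1, k2⟩, k3⟩ := hK
  have hd : (dds G U E).card + S.length = (lkp (n, p)).length := by
    rw [dds_card hG hEU h hEs f1, hS, add_comm]
    exact length_split (lkp (n, p)) fun k => ν k ∈ U
  have hSs : S ∈ (lkp (n, p)).sublists := by
    rw [hS]
    exact List.mem_sublists.2 List.filter_sublist
  have k4 := List.all_eq_true.1 k2 S hSs
  rw [Bool.or_eq_true] at k4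
  have hkp : kpc3 XL (n, p) S (K.getD ((lkp (n, p)).length - S.length) 0) = true := by
    rcases k4 with k4 | k4
    · exact k4
    · exfalso
      obtain ⟨φ', ν', e1, -, -⟩ := h.root4 hG hEU (q := (n, p)) f1 f2 hEs
      rw [← hS] at e1
      exact hX _ (mem2_of k4) φ' ν' e1
  rw [show (lkp (n, p)).length - S.length = (dds G U E).card by omega] at hkp
  obtain ⟨b1, b2⟩ := hit_le3 hG hI hPk hE h hEs f1 f2 hS hX hkp
  rw [hs]
  have hval : ∀ d, f.getD d 0 ≤ 1000 := by
    intro d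
    rcases Nat.lt_or_ge d f.length with h1 | h1
    · rw [List.getD_eq_getElem _ _ h1]
      exact Nat.le_of_ble_eq_true (List.all_eq_true.1 k1 _ (List.getElem_mem h1))
    · rw [List.getD_eq_default _ _ h1]
      exact Nat.zero_le _
  unfold cfv
  dsimp only
  rcases Nat.eq_zero_or_pos (hit G U (rem G U X) E).card with h0 | h0
  · rw [h0]
    exact le_rfl
  have hX0 : X.length ≠ 0 := fun e => by
    rw [e, zero_mul] at b2
    omega
  obtain ⟨i, hi⟩ : ∃ i, i = X.length - 1 := ⟨_, rfl⟩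
  rw [← hi]
  rcases Nat.lt_or_ge i Ts.length with h1 | h1
  · have h2 : Ts.getD i [] ∈ Ts := by
      rw [List.getD_eq_getElem _ _ h1]
      exact List.getElem_mem h1
    have h3 := List.all_eq_true.1 (List.all_eq_true.1 k3 (dds G U E).card
      (List.mem_range.2 (by omega))) i (List.mem_range.2 h1)
    refine ctf_step (List.all_eq_true.1 hTs _ h2) h0 (hval _) (tkd_of h3 _ h0 ?_) s
    refine le_min (by omega) ?_
    rw [show i + 1 = X.length by omega]
    exact b2
  · rw [List.getD_eq_default _ _ h1]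
    exact ctf_step (T := []) rfl h0 (hval _) (by simp [thk]) s

/-! ### the phase -/

/-- the tables are valid in all states without the patterns `XL` -/
def Tbl (XL : List (ℕ × ℕ)) (Ts : List (List ℕ)) (CL : List CPc) : Prop :=
  ∀ (V : Type) [Fintype V] [DecidableEq V] (G : SimpleGraph V) [DecidableRel G.Adj],
    G.IsRegularOfDegree 3 → ∀ U : Finset V, Inv G U → NoE G U XL → TabOK CL Ts G U

theorem tbl_of {XL : List (ℕ × ℕ)} {Ts : List (List ℕ)} {CL : List CPc} (hCL : cok CL)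
    (hTs : (Ts.all tok) = true) {Ks : List (List ℕ)} (hc : pcks XL Ts CL Ks = true) : Tbl XL Ts CL :=
  fun _ _ _ _ _ hG _ hI hX => tabOK_of hG hI hCL hTs hc hX

theorem tbl_of3 {XL : List (ℕ × ℕ)} {Ts : List (List ℕ)} {CL : List CPc} (hCL : cok CL)
    (hTs : (Ts.all tok) = true) {Ks : List (List ℕ)} (hc : pcks3 XL Ts CL Ks = true) : Tbl XL Ts CL :=
  fun _ _ _ _ _ hG _ hI hX => tabOK_of3 hG hI hCL hTs hc hX

/-- **one phase from the fast checker**, with any valid tables -/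
theorem Dn.rawT {bo : Bool} {CL : List CPc} (hCL : vok CL) {ML : List MPc} (hMC : ML = mcl CL)
    (hML : ML.all mkok = true) {tf : Bool} {PL dn : List (ℕ × ℕ)} (hPL : PL.all wfp = true)
    (h : Dn bo CL tf PL dn) {XL : List (ℕ × ℕ)} (hX : ∀ q ∈ XL, q ∈ dn) {D : ℕ}
    (hA : D ≤ 1 → (1, 257) ∈ dn) (hB : D = 0 → (1, 1) ∈ dn) {Ts : List (List ℕ)}
    (hTs : (Ts.all tok) = true) (hT : Tbl XL Ts CL)
    {sf : ℕ → ℕ → ℕ → Option (List (ℕ × ℕ))} {lf dl : ℕ → ℕ → ℕ → Bool}
    (hs : Sfn (okB D tf) (stV bo CL Ts tf ML PL D) sf lf dl) {B N : ℕ}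
    (hV : ∀ i < N, Val (stD dn (stV bo CL Ts tf ML PL D)) (prc B i)) {R : List (ℕ × ℕ)} {z : ℕ}
    (hR : clsM lf dl B N R z = true) : Dn bo CL tf PL (R ++ dn) := by
  intro V _ _ G _ hG hc htf U hI hU hne hiso hcl hq
  by_cases hd : ∃ q ∈ dn, ∃ φ ν : ℕ → V, Emb G U q.1 q.2 φ ν
  · exact h V G hG hc htf U hI hU hne hiso hcl hd
  obtain ⟨q, hq, φ, ν, he⟩ := hq
  have hno : ∀ q ∈ dn, ∀ φ ν : ℕ → V, ¬ Emb G U q.1 q.2 φ ν := fun q hq φ ν he => hd ⟨q, hq, φ, ν, he⟩
  rcases List.mem_append.1 hq with hq | hq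
  swap
  · exact absurd he (hno q hq φ ν)
  have h2 := n1_le_two hG hI hiso
  have hD : ∀ x ∈ U, n1 G U x ≤ D := by
    by_cases hD2 : 2 ≤ D
    · exact fun x hx => (h2 x hx).trans hD2
    intro x hx
    by_contra hc
    push Not at hc
    by_cases hD1 : D = 1
    · obtain ⟨φ, ν, e⟩ := root2 hG hx (show 2 ≤ n1 G U x by omega)
      exact hno _ (hA (by omega)) φ ν e
    · obtain ⟨φ, ν, e⟩ := root1 hG hx (show 1 ≤ n1 G U x by omega)
      exact hno _ (hB (by omega)) φ ν e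
  have hT' : TabOK CL Ts G U := hT V G hG U hI fun q hq => hno q (hX q hq)
  have hst := (snd_stV (bo := bo) hG hc hI hU hCL hTs hMC hML hT' hPL hD hiso htf hcl).stD (dn := dn)
    fun q hq φ ν he => absurd he (hno q hq φ ν)
  exact clO_of (clsM_sound (hs.stD dn) hV hR _ hq) V G U _ (fun _ _ _ _ he => he.okB hG hD htf) hst φ ν he

/-- **one phase from the fast checker**, with the bounds from the three ports -/
theorem Dn.rawY {bo : Bool} {CL : List CPc} (hCL : vok CL) {ML : List MPc} (hMC : ML = mcl CL)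
    (hML : ML.all mkok = true) {tf : Bool} {PL dn : List (ℕ × ℕ)} (hPL : PL.all wfp = true)
    (h : Dn bo CL tf PL dn) {XL : List (ℕ × ℕ)} (hX : ∀ q ∈ XL, q ∈ dn) {D : ℕ}
    (hA : D ≤ 1 → (1, 257) ∈ dn) (hB : D = 0 → (1, 1) ∈ dn) {Ts : List (List ℕ)}
    (hTs : (Ts.all tok) = true) {Ks : List (List ℕ)} (hK : pcks3 XL Ts CL Ks = true)
    {sf : ℕ → ℕ → ℕ → Option (List (ℕ × ℕ))} {lf dl : ℕ → ℕ → ℕ → Bool}
    (hs : Sfn (okB D tf) (stV bo CL Ts tf ML PL D) sf lf dl) {B N : ℕ}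
    (hV : ∀ i < N, Val (stD dn (stV bo CL Ts tf ML PL D)) (prc B i)) {R : List (ℕ × ℕ)} {z : ℕ}
    (hR : clsM lf dl B N R z = true) : Dn bo CL tf PL (R ++ dn) :=
  Dn.rawT hCL hMC hML hPL h hX hA hB hTs (tbl_of3 hCL.1 hTs hK) hs hV hR

end EF18
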