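import Pool.Agent.Lib.MP_ef18bd_co.P.StpW

/-!
# The bonus reduced by the values of the same family

`FamJ`: a family of disjoint pieces with the indices of their entries, `vJ`: the sum of the values.
`GoodJ`: a good set of picks for the maximum over the families of the charge together with the part of the bonus
which the second values of the same family cancel. `frameJ`: one phase. `jtst`: the test of a leaf.
-/

namespace EF18

open Finset

variable {V : Type} [Fintype V] [DecidableEq V] {G : SimpleGraph V} [DecidableRel G.Adj]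

/-- the entry with the index `i` -/
def gE (CL : List CPc) (i : ℕ) : CPc := CL.getD i ((0, 0), [])

theorem gE_mem {CL : List CPc} {i : ℕ} (h : i < CL.length) : gE CL i ∈ CL := by
  unfold gE
  rw [List.getD_eq_getElem _ _ h]
  exact List.getElem_mem h

/-- the same patterns -/
def SamC (CA CB : List CPc) : Prop := CA.length = CB.length ∧ ∀ i, (gE CA i).1 = (gE CB i).1

theorem samC_of {CA CB : List CPc} (h : mcl CA = mcl CB) : SamC CA CB := by
  induction CA generalizing CB with
  | nil =>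
    cases CB with
    | nil => exact ⟨rfl, fun _ => rfl⟩
    | cons b CB => exact absurd h (by simp [mcl])
  | cons a CA ih =>
    cases CB with
    | nil => exact absurd h (by simp [mcl])
    | cons b CB =>
      unfold mcl at h
      rw [List.map_cons, List.map_cons, List.cons.injEq, Prod.mk.injEq] at h
      obtain ⟨h1, h2⟩ := ih (CB := CB) h.2
      refine ⟨by rw [List.length_cons, List.length_cons, h1], fun i => ?_⟩
      cases i with
      | zero => exact h.1.1
      | succ i => exact h2 i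

/-! ### the families -/

/-- a family of disjoint pieces in `U` with the indices of their entries -/
structure FamJ (CL : List CPc) (G : SimpleGraph V) [DecidableRel G.Adj] (U : Finset V)
    (M : Finset (Finset V × ℕ)) : Prop where
  sub : ∀ x ∈ M, x.1 ⊆ U
  ne : ∀ x ∈ M, x.1.Nonempty
  dj : ∀ x ∈ M, ∀ y ∈ M, x ≠ y → Disjoint x.1 y.1
  lt : ∀ x ∈ M, x.2 < CL.length
  pc : ∀ x ∈ M, Pc G x.1 (gE CL x.2).1.1 (gE CL x.2).1.2

/-- the sum of the values -/
noncomputable def vJ (CL : List CPc) (G : SimpleGraph V) [DecidableRel G.Adj] (U : Finset V)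
    (M : Finset (Finset V × ℕ)) : ℕ :=
  ∑ x ∈ M, cfv (gE CL x.2) (dds G U x.1).card

theorem FamJ.empty (CL : List CPc) (U : Finset V) : FamJ CL G U ∅ :=
  ⟨fun _ h => absurd h (notMem_empty _), fun _ h => absurd h (notMem_empty _),
    fun _ h => absurd h (notMem_empty _), fun _ h => absurd h (notMem_empty _),
    fun _ h => absurd h (notMem_empty _)⟩

theorem FamJ.inj {CL : List CPc} {U : Finset V} {M : Finset (Finset V × ℕ)} (h : FamJ CL G U M)
    {x y : Finset V × ℕ} (hx : x ∈ M) (hy : y ∈ M) (e : x.1 = y.1) : x = y := by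
  by_contra hne
  have h1 := h.dj x hx y hy hne
  rw [← e] at h1
  obtain ⟨z, hz⟩ := h.ne x hx
  exact disjoint_left.1 h1 hz hz

/-- the first values are at most the charge -/
theorem vJ_le {CL : List CPc} {U : Finset V} {M : Finset (Finset V × ℕ)} (h : FamJ CL G U M) :
    vJ CL G U M ≤ exv CL G U := by
  classical
  have hF : Fam U (M.image fun x => x.1) := by
    refine ⟨fun E hE => ?_, fun E hE => ?_, fun E hE E' hE' hne => ?_⟩
    · obtain ⟨x, hx, rfl⟩ := mem_image.1 hE
      exact h.sub x hx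
    · obtain ⟨x, hx, rfl⟩ := mem_image.1 hE
      exact h.ne x hx
    · obtain ⟨x, hx, rfl⟩ := mem_image.1 hE
      obtain ⟨y, hy, rfl⟩ := mem_image.1 hE'
      exact h.dj x hx y hy fun e => hne (by rw [e])
  refine le_trans ?_ (le_exv (CL := CL) hF)
  rw [sum_image fun x hx y hy e => h.inj hx hy e]
  exact sum_le_sum fun x hx => le_fE (gE_mem (h.lt x hx)) (h.pc x hx)

theorem vJ_zero {CL : List CPc} {U : Finset V} {M : Finset (Finset V × ℕ)} (h : FamJ CL G U M)
    (h0 : exv CL G U = 0) : vJ CL G U M = 0 := by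
  have := vJ_le h
  omega

theorem FamJ.sam {CA CB : List CPc} (hs : SamC CA CB) {U : Finset V} {M : Finset (Finset V × ℕ)}
    (h : FamJ CA G U M) : FamJ CB G U M :=
  ⟨h.sub, h.ne, h.dj, fun x hx => hs.1 ▸ h.lt x hx, fun x hx => by
    rw [← hs.2]
    exact h.pc x hx⟩

/-- the union of families in disjoint sets -/
theorem FamJ.union {CL : List CPc} {U A B : Finset V} (hA : A ⊆ U) (hB : B ⊆ U) (hd : Disjoint A B)
    {M K : Finset (Finset V × ℕ)} (h : FamJ CL G A M) (k : FamJ CL G B K) :
    FamJ CL G U (M ∪ K) ∧ Disjoint M K := by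
  refine ⟨⟨fun x hx => ?_, fun x hx => ?_, fun x hx y hy hne => ?_, fun x hx => ?_, fun x hx => ?_⟩, ?_⟩
  · rcases mem_union.1 hx with h1 | h1
    · exact (h.sub x h1).trans hA
    · exact (k.sub x h1).trans hB
  · rcases mem_union.1 hx with h1 | h1
    · exact h.ne x h1
    · exact k.ne x h1
  · rcases mem_union.1 hx with h1 | h1 <;> rcases mem_union.1 hy with h2 | h2
    · exact h.dj x h1 y h2 hne
    · exact disjoint_of_subset_left (h.sub x h1) (disjoint_of_subset_right (k.sub y h2) hd)
    · exact (disjoint_of_subset_left (h.sub y h2) (disjoint_of_subset_right (k.sub x h1) hd)).symm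
    · exact k.dj x h1 y h2 hne
  · rcases mem_union.1 hx with h1 | h1
    · exact h.lt x h1
    · exact k.lt x h1
  · rcases mem_union.1 hx with h1 | h1
    · exact h.pc x h1
    · exact k.pc x h1
  · rw [disjoint_left]
    intro x h1 h2
    obtain ⟨z, hz⟩ := h.ne x h1
    exact disjoint_left.1 hd (h.sub x h1 hz) (k.sub x h2 hz)

/-- families in separated sets -/
theorem FamJ.sep {CL : List CPc} {A B : Finset V} (hs : Sep G A B) {M K : Finset (Finset V × ℕ)}
    (h : FamJ CL G A M) (k : FamJ CL G B K) : FamJ CL G (A ∪ B) (M ∪ K) ∧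
      ∀ CL' : List CPc, vJ CL' G (A ∪ B) (M ∪ K) = vJ CL' G A M + vJ CL' G B K := by
  have hd : Disjoint A B := disjoint_left.2 fun x h1 h2 => hs x h1 x h2 self_mem_B2
  obtain ⟨h1, h2⟩ := h.union subset_union_left subset_union_right hd k
  refine ⟨h1, fun CL' => ?_⟩
  unfold vJ
  rw [sum_union h2]
  congr 1
  · exact sum_congr rfl fun x hx => by rw [dds_left hs (h.sub x hx)]
  · exact sum_congr rfl fun x hx => by rw [union_comm, dds_left hs.symm (k.sub x hx)]

/-! ### the step -/

/-- the shifted value of a row: `0`: not possible -/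
def ctj (T : List ℕ) (o : ℕ) : ℕ := bif Nat.ble (Nat.succ o) T.length then T.getD o 0 else Nat.succ (Nat.mul 1000 o)

/-- the row with the level `j` -/
def rwj (RT : List (List ℕ)) (j : ℕ) : List ℕ := RT.getD (Nat.min (Nat.pred RT.length) j) []

theorem rwj_rwj (RT : List (List ℕ)) (j q : ℕ) :
    rwj RT (Nat.min (Nat.pred RT.length) j + q) = rwj RT (j + q) := by
  unfold rwj
  congr 1
  change min (Nat.pred RT.length) (min (Nat.pred RT.length) j + q) = min (Nat.pred RT.length) (j + q)
  omega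

/-- the change of the sums of the values in a step -/
theorem row_step {U' U : Finset V} {ga gb : ℕ → ℕ → ℕ} {g : ℕ} {RT : List (List ℕ)}
    {M : Finset (Finset V × ℕ)} (h0 : ctj (rwj RT 0) 0 ≠ 0)
    (h1 : ∀ x ∈ M, ∀ j s, ctj (rwj RT j) s ≠ 0 → ∃ q, gb x.2 (dds G U' x.1).card ≤
      gb x.2 (dds G U x.1).card + g * q ∧ ctj (rwj RT j) s ≤ ctj (rwj RT (j + q)) (s + (hit G U U' x.1).card) ∧
      ga x.2 (dds G U' x.1).card + ctj (rwj RT j) s ≤
        ga x.2 (dds G U x.1).card + ctj (rwj RT (j + q)) (s + (hit G U U' x.1).card)) :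
    ∃ q, ctj (rwj RT q) (∑ x ∈ M, (hit G U U' x.1).card) ≠ 0 ∧
      ∑ x ∈ M, gb x.2 (dds G U' x.1).card ≤ ∑ x ∈ M, gb x.2 (dds G U x.1).card + g * q ∧
      ∑ x ∈ M, ga x.2 (dds G U' x.1).card + 1 ≤ ∑ x ∈ M, ga x.2 (dds G U x.1).card +
        ctj (rwj RT q) (∑ x ∈ M, (hit G U U' x.1).card) := by
  classical
  induction M using Finset.induction_on with
  | empty =>
    refine ⟨0, by simpa using h0, by simp, ?_⟩
    rw [sum_empty, sum_empty, sum_empty]
    omega
  | insert x S hx ih =>
    obtain ⟨q, a1, a2, a3⟩ := ih fun y hy => h1 y (mem_insert_of_mem hy)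
    obtain ⟨q', b1, b2, b3⟩ := h1 x (mem_insert_self x S) q _ a1
    rw [sum_insert hx, sum_insert hx, sum_insert hx, sum_insert hx, sum_insert hx,
      add_comm (hit G U U' x.1).card]
    refine ⟨q + q', by omega, ?_, by omega⟩
    rw [mul_add]
    omega

/-- the number of the hits -/
theorem hits_le {CL : List CPc} {U' U : Finset V} (hI' : Inv G U') {o : ℕ} {P : V → Prop} [DecidablePred P]
    (hP : ∀ z, z ∉ U' → BC CL G U' z → P z) (ho : ((cuts2 G U U').filter P).card ≤ o) {M : Finset (Finset V × ℕ)}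
    (hM : FamJ CL G U' M) : ∑ x ∈ M, (hit G U U' x.1).card ≤ o := by
  refine le_trans ?_ ho
  rw [← card_biUnion]
  · refine card_le_card fun z hz => ?_
    obtain ⟨x, h2, h3⟩ := mem_biUnion.1 hz
    obtain ⟨h7, h8⟩ := mem_hit.1 h3
    have h9 := nU_mono (G := G) (hM.sub x h2) z
    have h10 := nU_le_two hI' h7.2
    refine mem_filter.2 ⟨?_, hP z h7.2 ⟨_, gE_mem (hM.lt x h2), x.1, hM.sub x h2, hM.pc x h2, h8⟩⟩
    unfold cuts2
    rw [mem_filter, mem_sdiff]
    exact ⟨h7, by omega⟩
  · refine fun A hA B hB hne => disjoint_left.2 ?_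
    intro z h3 h4
    exact two_two (hM.sub A hA) (hM.sub B hB) (hM.dj A hA B hB hne)
      (nU_le_two hI' (mem_hit.1 h3).1.2) (mem_hit.1 h3).2 (mem_hit.1 h4).2

/-- the change of the families in a step -/
def Jx (CA CB : List CPc) (G : SimpleGraph V) [DecidableRel G.Adj] (U U' : Finset V) (g : ℕ)
    (RT : List (List ℕ)) (o cr cT : ℕ) : Prop :=
  ∀ M', FamJ CA G U' M' → ∃ M, FamJ CA G U M ∧ ∃ q, ctj (rwj RT q) o ≠ 0 ∧
    vJ CB G U' M' + cT ≤ vJ CB G U M + g * q ∧ vJ CA G U' M' + cr + 1 ≤ vJ CA G U M + ctj (rwj RT q) o ∧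
    cT ≤ vJ CB G U M

/-! ### the phases -/

/-- a good set of `k` picks in a connected state without isolated members -/
def GoodJ (w : TF) (dl P b c : ℕ) (CA CB : List CPc) (G : SimpleGraph V) [DecidableRel G.Adj]
    (U : Finset V) (k : ℕ) : Prop :=
  ∃ X : List V, X.length = k ∧ Picks G U X ∧ ∀ M', FamJ CA G (rem G U X) M' → ∃ M, FamJ CA G U M ∧
    PsiT (w.iso dl) G (rem G U X) + c * dpn G (rem G U X) + (vJ CA G (rem G U X) M' +
      min (vJ CB G (rem G U X) M') (b * min (kST G (rem G U X)) 2)) + P * X.length + b * min (kUT G U) 2 ≤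
      PsiT (w.iso dl) G U + c * dpn G U + (vJ CA G U M + min (vJ CB G U M) (b * min (kUT G U) 2)) +
        b * min (kST G (rem G U X)) 2

/-- the bound for the state `U` -/
def ClmJ (w : TF) (dl P b c : ℕ) (CA CB : List CPc) (G : SimpleGraph V) [DecidableRel G.Adj]
    (U : Finset V) : Prop :=
  ∃ m M, Has G U m ∧ FamJ CA G U M ∧ P * m + Xs G (beT b G) U ≤ PsiT (w.iso dl) G U + c * dpn G U +
    (vJ CA G U M + min (vJ CB G U M) (Xs G (beT b G) U))

/-- **one phase**: `Cl` is hereditary -/
theorem frameJ (hG : G.IsRegularOfDegree 3) {w : TF} {dl P b c : ℕ} (CA CB : List CPc)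
    (hP : P ≤ w.F 0 3 + dl) (Cl : Finset V → Prop) (hCl : ∀ A B, A ⊆ B → Cl B → Cl A)
    (hst : ∀ U : Finset V, Inv G U → U ≠ univ → U.Nonempty → Con G U → iso G U = ∅ → Cl U →
      ∃ k, k ≠ 0 ∧ GoodJ w dl P b c CA CB G U k) :
    ∀ U : Finset V, Inv G U → U ≠ univ → Cl U → ClmJ w dl P b c CA CB G U := by
  intro U
  induction U using Finset.strongInduction with
  | H U ih =>
    intro hI hU hcl
    rcases U.eq_empty_or_nonempty with rfl | ⟨v, hv⟩
    · exact ⟨0, ∅, Has.empty, FamJ.empty _ _, by rw [Xs_empty]; exact Nat.zero_le _⟩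
    by_cases hc : cmp G U v = U
    · have hcon : Con G U := hc ▸ cmp_con hv
      by_cases hi : iso G U = ∅
      · obtain ⟨k, hk, X, a1, a2, a3⟩ := hst U hI hU ⟨v, hv⟩ hcon hi hcl
        have hX : X ≠ [] := fun e => hk (by rw [← a1, e]; rfl)
        obtain ⟨m, M', hm, hM', hm2⟩ := ih _ (rem_ssubset hX a2) (hI.rem hG)
          (ne_univ_of_subset rem_subset hU) (hCl _ _ rem_subset hcl)
        obtain ⟨M, hM, a4⟩ := a3 M' hM'
        refine ⟨m + X.length, M, Has.picks a2 hm, hM, ?_⟩
        have h3 := kST_le hG b (rem G U X)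
        have h5 : Xs G (beT b G) U = b * min (kUT G U) 2 := by
          rw [Xs_con _ ⟨v, hv⟩ hcon]
          unfold beT
          rw [if_pos hi]
        rw [h5, mul_add]
        have h6 : min (vJ CB G (rem G U X) M') (Xs G (beT b G) (rem G U X)) + b * min (kST G (rem G U X)) 2 ≤
            min (vJ CB G (rem G U X) M') (b * min (kST G (rem G U X)) 2) + Xs G (beT b G) (rem G U X) := by
          rw [Nat.min_def (n := vJ CB G (rem G U X) M') (m := Xs G (beT b G) (rem G U X)),
            Nat.min_def (n := vJ CB G (rem G U X) M') (m := b * min (kST G (rem G U X)) 2)]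
          split_ifs <;> omega
        omega
      · obtain ⟨x, hx⟩ := nonempty_iff_ne_empty.2 hi
        have e := iso_con hG hcon hx
        subst e
        refine ⟨1, ∅, Has.one (mem_singleton_self x) (singleton_subset_iff.2 self_mem_B2), FamJ.empty _ _, ?_⟩
        rw [Xs_con _ ⟨v, hv⟩ hcon]
        unfold beT
        rw [if_neg (ne_empty_of_mem hx)]
        have := hP.trans (PsiT_single hx).ge
        omega
    · have e1 : cmp G U v ⊂ U := ⟨cmp_subset, fun h => hc (Subset.antisymm cmp_subset h)⟩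
      have e2 : U \ cmp G U v ⊂ U :=
        ⟨sdiff_subset, fun h => (mem_sdiff.1 (h hv)).2 (mem_cmp_self hv)⟩
      have hs : Sep G (cmp G U v) (U \ cmp G U v) := cmp_sep
      have hI1 : Inv G (cmp G U v) := Inv.of_sep hs (by rw [cmp_union]; exact hI)
      have hI2 : Inv G (U \ cmp G U v) := Inv.of_sep hs.symm (by rw [union_comm, cmp_union]; exact hI)
      obtain ⟨m1, M1, b1, c1, d1⟩ := ih _ e1 hI1 (ne_univ_of_subset e1.1 hU) (hCl _ _ e1.1 hcl)
      obtain ⟨m2, M2, b2, c2, d2⟩ := ih _ e2 hI2 (ne_univ_of_subset e2.1 hU) (hCl _ _ e2.1 hcl)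
      obtain ⟨f1, f2⟩ := c1.sep hs c2
      have f3 := f2 CA
      have f4 := f2 CB
      rw [cmp_union] at f1 f3 f4
      refine ⟨m1 + m2, M1 ∪ M2, ?_, f1, ?_⟩
      · have := Has.sep hs b1 b2
        rwa [cmp_union] at this
      · have e3 := PsiT_union (w.iso dl) hs
        have e4 := Xs_union (beT b G) hs
        have e5 := Nat.mul_le_mul_left c (dpn_add hs)
        rw [cmp_union] at e3 e4 e5
        rw [mul_add] at e5
        rw [e4, mul_add, f3, f4]
        have e6 : min (vJ CB G (cmp G U v) M1) (Xs G (beT b G) (cmp G U v)) +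
            min (vJ CB G (U \ cmp G U v) M2) (Xs G (beT b G) (U \ cmp G U v)) ≤
            min (vJ CB G (cmp G U v) M1 + vJ CB G (U \ cmp G U v) M2)
              (Xs G (beT b G) (cmp G U v) + Xs G (beT b G) (U \ cmp G U v)) :=
          le_min (Nat.add_le_add (min_le_left _ _) (min_le_left _ _))
            (Nat.add_le_add (min_le_right _ _) (min_le_right _ _))
        omega

/-! ### the arithmetic -/

/-- all rows -/
def jrw (f : ℕ → ℕ → Bool) (o : ℕ) : List (List ℕ) → ℕ → Bool
  | [], _ => true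
  | T :: RT, j => frc (ctj T o) fun v => (Nat.beq v 0 || f v j) && jrw f o RT (Nat.succ j)

/-- the test: `RT` the rows, `o` the number of the outs, `cT` the credit of the second values -/
def jtsx (ne : Bool) (D b g kt ka : ℕ) (RT : List (List ℕ)) (o cT A R : ℕ) : Bool :=
  Nat.ble (Nat.mul 2 b) (Nat.mul g (Nat.pred RT.length)) &&
  bif Nat.beq D 0 then
    jrw (fun v j => Nat.ble (Nat.add A v) (Nat.add (Nat.succ R)
      (bif ne then Nat.sub (Nat.mul b (mn ka 2)) (Nat.mul g j) else 0))) o RT 0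
  else frc (Nat.sub (Nat.mul b (mn kt 2)) (Nat.mul b (mn (mn ka kt) 2))) fun ls =>
    jrw (fun v j => Nat.ble (Nat.add (Nat.add A v) (mn (Nat.sub (Nat.mul 2 b) cT)
      (Nat.sub (Nat.add ls (Nat.mul g j)) cT))) (Nat.succ R)) o RT 0

omit [Fintype V] [DecidableEq V] [DecidableRel G.Adj] in
theorem jrw_of {f : ℕ → ℕ → Bool} {o : ℕ} : ∀ {RT : List (List ℕ)} {j : ℕ}, jrw f o RT j = true →
    ∀ i < RT.length, ctj (RT.getD i []) o ≠ 0 → f (ctj (RT.getD i []) o) (j + i) = true := by
  intro RT
  induction RT with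
  | nil => intro j _ i hi; exact absurd hi (by simp)
  | cons T RT ih =>
    intro j h i hi hv
    rw [jrw, frc_eq, Bool.and_eq_true, Bool.or_eq_true] at h
    cases i with
    | zero =>
      rcases h.1 with h1 | h1
      · exact absurd (Nat.eq_of_beq_eq_true h1) hv
      · exact h1
    | succ i =>
      have := ih h.2 i (by simpa using hi) hv
      rw [show j + (i + 1) = Nat.succ j + i by omega]
      exact this

omit [Fintype V] [DecidableEq V] [DecidableRel G.Adj] in
theorem jnt_arith {D b Ps' Ps E Z kk ek es k kt ka kS PC dl NI ic a a' t t' g o cr cT q : ℕ}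
    {RT : List (List ℕ)} {ne : Bool} (hb0 : b ≠ 0)
    (ha : Ps' + (E + b * Z) ≤ Ps) (hb : kk + ek ≤ Z) (hc : k ≤ kt + es + ek) (hd : es + ka ≤ kS)
    (he : ic ≤ NI) (h0 : D = 0 → k = 0) (hq : ctj (rwj RT q) o ≠ 0) (h2 : t' + cT ≤ t + g * q)
    (h1 : a' + cr + 1 ≤ a + ctj (rwj RT q) o) (h3 : cT ≤ t) (hne : ne = true → t = 0)
    (hf : jtsx ne D b g kt ka RT o cT (PC + dl * NI) (E + cr + b * kk) = true) :
    Ps' + dl * ic + PC + (a' + min t' (b * min kS 2)) + b * min k 2 ≤
      Ps + (a + min t (b * min k 2)) + b * min kS 2 := by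
  have i1 := Nat.mul_le_mul_left dl he
  have i2 := Nat.mul_le_mul_left b hb
  rw [mul_add] at i2
  have i3 : min t' (b * min kS 2) ≤ t' := min_le_left _ _
  have i4 : min t' (b * min kS 2) ≤ b * min kS 2 := min_le_right _ _
  unfold jtsx at hf
  rw [Bool.and_eq_true] at hf
  obtain ⟨hf0, hf⟩ := hf
  have hm : 2 * b ≤ g * (RT.length - 1) := Nat.le_of_ble_eq_true hf0
  -- the row
  obtain ⟨j, hj⟩ : ∃ j, j = min (RT.length - 1) q := ⟨_, rfl⟩
  have hrow : rwj RT q = RT.getD j [] := by rw [hj]; rfl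
  rw [hrow] at hq h1
  obtain ⟨v, hv⟩ : ∃ v, v = ctj (RT.getD j []) o := ⟨_, rfl⟩
  have hjq : g * j = g * q ∨ (g * j ≤ g * q ∧ 2 * b ≤ g * j) := by
    rcases Nat.lt_or_ge q (RT.length - 1) with h | h
    · left
      rw [hj, min_eq_right h.le]
    · right
      rw [hj, min_eq_left h]
      exact ⟨Nat.mul_le_mul_left g h, hm⟩
  have hgj : g * j ≤ g * q := by
    rcases hjq with h | h
    · exact h.le
    · exact h.1
  have hl : j < RT.length := by
    have h5 : 0 < RT.length - 1 := by
      by_contra hc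
      rw [show RT.length - 1 = 0 by omega, mul_zero] at hm
      omega
    rw [hj]
    omega
  by_cases hD : D = 0
  · rw [h0 hD]
    have h4 : b * min 0 2 = 0 := by simp
    rw [h4]
    rw [hD, show Nat.beq 0 0 = true from rfl, cond_true] at hf
    have h6 := Nat.le_of_ble_eq_true (jrw_of hf j hl hq)
    rw [← hv] at h6 h1
    rw [zero_add] at h6
    cases ne
    · change PC + dl * NI + v ≤ E + cr + b * kk + 1 + 0 at h6
      omega
    · change PC + dl * NI + v ≤ E + cr + b * kk + 1 + (b * mn ka 2 - g * j) at h6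
      have h5 := hne rfl
      rw [mn_eq] at h6
      have h7 := Nat.mul_le_mul_left b (show min ka 2 ≤ min kS 2 by omega)
      have h8 : b * min ka 2 ≤ 2 * b := by
        rw [mul_comm 2 b]
        exact Nat.mul_le_mul_left b (min_le_right _ _)
      omega
  · rw [beq_false hD, cond_false, frc_eq] at hf
    have h6 := Nat.le_of_ble_eq_true (jrw_of hf j hl hq)
    rw [← hv] at h6 h1
    rw [zero_add] at h6
    change PC + dl * NI + v + mn (2 * b - cT) (b * mn kt 2 - b * mn (mn ka kt) 2 + g * j - cT) ≤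
      E + cr + b * kk + 1 at h6
    rw [mn_eq, mn_eq, mn_eq, mn_eq] at h6
    have j3 := Nat.mul_le_mul_left b
      (show min k 2 + min (min ka kt) 2 ≤ min kt 2 + min kS 2 + ek by omega)
    rw [mul_add, mul_add, mul_add] at j3
    have j5 : b * min k 2 ≤ 2 * b := by
      rw [mul_comm 2 b]
      exact Nat.mul_le_mul_left b (min_le_right _ _)
    rw [Nat.min_def (n := 2 * b - cT)] at h6
    rw [Nat.min_def (n := t)]
    split_ifs at h6 ⊢ <;> omega

end EF18
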