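import Pool.Agent.Lib.MP_ef18bd_co.P.Jnt

/-!
# The leaves with the bonus reduced by the values of the same family

`evbI`, `evlI`: with triangles, `evbQ`, `evlQ`: in a graph without triangles; `evbJ`, `evlJ`: both forms.
-/

namespace EF18

open Finset

variable {V : Type} [Fintype V] [DecidableEq V] {G : SimpleGraph V} [DecidableRel G.Adj]

/-! ### the leaves -/

/-- the test and the children, all completions -/
def evbI (ne e x : Bool) (P T TI D dl b c n p : ℕ) (L : List ℕ) (cr crT : ℕ → ℕ → ℕ) (g : ℕ) (RT : List (List ℕ)) (out : ℕ → ℕ → ℕ)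
    (xs : List (ℕ × ℕ)) : Option (List (ℕ × ℕ)) :=
  frc (kms p L 0) fun M => frc (ims p L 0) fun IN => frc (kbK e n p M) fun kt => frc (kaEK e D n p M) fun ka =>
    frc (crT M IN) fun c1 => frc (out M IN) fun o =>
    bif Nat.ble (Nat.add n 5) 40 && pks n p L 0 &&
      jtsx ne D b g kt ka RT o c1 (Nat.add (Nat.mul P L.length) (Nat.mul dl (n00 D n p M)))
        (Nat.add (Nat.add (evs T TI n p M IN) (Nat.add (xdc x c n p M) (cr M IN))) (Nat.mul b (dnk n p M)))
    then some (xs ++ (kin n p M IN n ++ (tpl e n p M n ++ (evc D L n p M n ++ cml D L n 3 (n + 1) p 200))))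
    else none

/-- **the step with all completions** -/
theorem evbI_ch (hG : G.IsRegularOfDegree 3) {w w' : TF} {b : ℕ} (hww : Pair w w' b) (hw : w'.Pos)
    {ne e x : Bool} {P T TI D dl c : ℕ} (hT : TabK w' 0 T) (hTI : TabKI w' 0 TI) {U : Finset V} (hI : Inv G U)
    (hD : ∀ x ∈ U, n1 G U x ≤ D) (hiso : iso G U = ∅) {n p : ℕ} {L : List ℕ} {R : List (ℕ × ℕ)}
    {cr crT : ℕ → ℕ → ℕ} {g : ℕ} {RT : List (List ℕ)} {out : ℕ → ℕ → ℕ} {xs : List (ℕ × ℕ)}
    (hR : evbI ne e x P T TI D dl b c n p L cr crT g RT out xs = some R) {φ ν : ℕ → V} (h : Emb G U n p φ ν)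
    {CA CB : List CPc} (hb0 : b ≠ 0) (hne : ne = true → ∀ M, FamJ CA G U M → vJ CB G U M = 0)
    (hex : (∀ y ∈ L, y < n ∧ full p y = true) →
      Stn G U (rem G U (L.map φ)) n p (kms p L 0) (ims p L 0) φ ν → (∃ q ∈ xs, Ch G U n φ q) ∨
        Jx CA CB G U (rem G U (L.map φ)) g RT (out (kms p L 0) (ims p L 0))
          (cr (kms p L 0) (ims p L 0)) (crT (kms p L 0) (ims p L 0))) :
    GoodJ w dl P b c CA CB G U L.length ∨ ∃ q ∈ R, Ch G U n φ q := by
  classical
  unfold evbI at hR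
  rw [frc_eq, frc_eq, frc_eq, frc_eq, frc_eq, frc_eq] at hR
  obtain ⟨kt, hkt⟩ : ∃ kt, kt = kbK e n p (kms p L 0) := ⟨_, rfl⟩
  obtain ⟨ka, hka⟩ : ∃ ka, ka = kaEK e D n p (kms p L 0) := ⟨_, rfl⟩
  rw [← hkt, ← hka] at hR
  cases hc : Nat.ble (Nat.add n 5) 40 && pks n p L 0 &&
      jtsx ne D b g kt ka RT (out (kms p L 0) (ims p L 0)) (crT (kms p L 0) (ims p L 0))
        (Nat.add (Nat.mul P L.length) (Nat.mul dl (n00 D n p (kms p L 0))))
        (Nat.add (Nat.add (evs T TI n p (kms p L 0) (ims p L 0))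
          (Nat.add (xdc x c n p (kms p L 0)) (cr (kms p L 0) (ims p L 0)))) (Nat.mul b (dnk n p (kms p L 0))))
  · rw [hc, cond_false] at hR
    exact absurd hR (by simp)
  rw [hc, cond_true, Option.some.injEq] at hR
  simp only [Bool.and_eq_true] at hc
  obtain ⟨⟨c1, c2⟩, c3⟩ := hc
  have hn : n + 5 ≤ 40 := Nat.le_of_ble_eq_true c1
  have hL := pks_of c2
  rw [← hR]
  rcases h.stn_or hG hI (by omega) hL with ⟨q, h1, h2⟩ | hS
  · exact Or.inr ⟨q, List.mem_append_right _ (List.mem_append_left _ h1), h2⟩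
  by_cases hno : ∃ q ∈ evc D L n p (kms p L 0) n ++ cml D L n 3 (n + 1) p 200, Ch G U n φ q
  · obtain ⟨q, h1, h2⟩ := hno
    exact Or.inr ⟨q, List.mem_append_right _ (List.mem_append_right _ (List.mem_append_right _ h1)), h2⟩
  by_cases hnt : ∃ q ∈ tpl e n p (kms p L 0) n, Ch G U n φ q
  · obtain ⟨q, h1, h2⟩ := hnt
    exact Or.inr ⟨q, List.mem_append_right _ (List.mem_append_right _ (List.mem_append_left _ h1)), h2⟩
  rcases hex hL hS with ⟨q, h1, h2⟩ | hxj
  · exact Or.inr ⟨q, List.mem_append_left _ h1, h2⟩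
  left
  have hP := h.pks_picks hG hI (L := L) [] c2 trivial (fun y hy => absurd hy List.not_mem_nil)
  rw [List.nil_append] at hP
  refine ⟨L.map φ, List.length_map _, hP, fun M' hM' => ?_⟩
  obtain ⟨M, hM, qq, x0, x2, x1, x3⟩ := hxj M' hM'
  refine ⟨M, hM, ?_⟩
  have h1 := h.evsB_le hG hww hw hT hTI hI (hI.rem hG) rem_subset hS.msk
    (fun i hi hb => (hS.inn i hi hb).2)
  have key : ∀ v ∈ iso G (rem G U (L.map φ)), ∃ i < n, φ i = v ∧
      (kms p L 0).testBit i ≠ true ∧ full p i = true ∧ nd D p (kms p L 0) i ≠ 9 := fun v hv =>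
    (h.iso_or hG hI hn hL hS hD hv (by rw [hiso]; exact notMem_empty _)).resolve_left hno
  have h2 : (iso G (rem G U (L.map φ))).card ≤ n00 D n p (kms p L 0) := by
    rw [n00_eq]
    choose! f hf using key
    refine card_le_card_of_injOn f (fun v hv => ?_) fun v hv v' hv' e => ?_
    · obtain ⟨a1, a2, a3, a4, a5⟩ := hf v hv
      rw [mem_coe, mem_filter, mem_range]
      exact ⟨a1, a3, a4, a5⟩
    · rw [← (hf v hv).2.1, ← (hf v' hv').2.1, e]
  obtain ⟨R', hR'⟩ : ∃ A, A = (range n).filter (fun i => (kms p L 0).testBit i ≠ true ∧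
    ¬ (full p i = true ∧ nd D p (kms p L 0) i ≠ 9) ∧ dn p i + exn p (kms p L 0) i ≠ 0 ∧
    ntr e p (kms p L 0) i = true) := ⟨_, rfl⟩
  have hN : (isr G (rem G U (L.map φ)) n p φ).card ≤ 0 := by
    rw [Nat.le_zero, card_eq_zero, eq_empty_iff_forall_notMem]
    intro v hv
    obtain ⟨h3, h4⟩ := mem_filter.1 hv
    obtain ⟨i, a1, a2, -, a4, -⟩ := key v h3
    exact h4 ⟨i, a1, a2, a4⟩
  obtain ⟨es, ek, k1, k2, k3⟩ := h.bon_coreK hG hI rem_subset hS.msk hD (S := skb e n p (kms p L 0))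
    (R := R') (fun i hi => mem_range.1 (mem_filter.1 hi).1) (fun i hi hno => skb_out h hS.msk hi hno)
    (fun i hi => by
    rw [hR', mem_filter, mem_range] at hi
    obtain ⟨i1, i2, i3, i4, i5⟩ := hi
    refine ⟨i1, mem_sdiff.2 ⟨?_, fun hc => ?_⟩, ?_, ?_⟩
    · by_contra hc
      exact i2 ((hS.msk i i1).2 hc)
    · obtain ⟨j, a1, a2, -, a4, a5⟩ := key _ hc
      rw [h.inj j a1 i i1 a2] at a4 a5
      exact i3 ⟨a4, a5⟩
    · exact (h.tp_or hG hI rem_subset (by omega) hS.msk i1 i2 i4 i5).resolve_right hnt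
    · by_cases ht : tpc p i = true
      · exact Or.inr (h.tpc_tri i1 ht)
      · exact Or.inl (mem_filter.2 ⟨mem_range.2 i1, ht, Or.inr i5⟩)) hN
  rw [mul_zero, add_zero, ← kbK_eq, ← hkt] at k1
  have h3 : kaEK e D n p (kms p L 0) = ∑ i ∈ R', (dn p i + exn p (kms p L 0) i) := by
    unfold kaEK
    rw [sm_eq, hR', sum_filter]
    refine sum_congr rfl fun i _ => ?_
    rw [frc_eq, tb_eq]
    change (bif Nat.beq (dn p i + exn p (kms p L 0) i) 0 || _ || _ || _ then 0 else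
      dn p i + exn p (kms p L 0) i) = _
    by_cases h0 : dn p i + exn p (kms p L 0) i = 0
    · rw [h0, ite_self]
      rfl
    · rw [beq_false h0]
      by_cases h4 : nd D p (kms p L 0) i = 9
      · rw [h4]
        cases (kms p L 0).testBit i <;> cases full p i <;> cases ntr e p (kms p L 0) i <;> simp
      · rw [beq_false h4]
        cases (kms p L 0).testBit i <;> cases full p i <;> cases ntr e p (kms p L 0) i <;> simp [h4]
  rw [← h3] at k2
  have hx := h.xdc_le hG (rem_subset (L := L.map φ)) hS.msk x c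
  rw [PsiT_iso, PsiT_iso, List.length_map]
  unfold PsiI
  rw [hiso, card_empty, mul_zero, add_zero]
  rw [← hka] at k2
  have h5 := jnt_arith (D := D) (b := b) (dl := dl) (Ps' := PsiT w G (rem G U (L.map φ)))
    (Ps := PsiT w G U + xdc x c n p (kms p L 0))
    (E := evs T TI n p (kms p L 0) (ims p L 0) + xdc x c n p (kms p L 0))
    (PC := P * L.length) (Z := ∑ z ∈ U \ rem G U (L.map φ), n1 G U z) (ne := ne) hb0 (by omega) k3 k1 k2 h2
    (kUT_zero hD) x0 x2 x1 x3 (fun e => hne e M hM) (by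
      rw [add_assoc (evs T TI n p (kms p L 0) (ims p L 0))]
      exact c3)
  omega

/-- the test and the children, the worst case for isolated vertices -/
def evlI (ne e x : Bool) (P T TI D dl b c n p : ℕ) (L : List ℕ) (cr crT : ℕ → ℕ → ℕ) (g : ℕ) (RT : List (List ℕ)) (out : ℕ → ℕ → ℕ)
    (xs : List (ℕ × ℕ)) : Option (List (ℕ × ℕ)) :=
  frc (kms p L 0) fun M => frc (ims p L 0) fun IN =>
    frc (Nat.add (ndr D n p M) (xN D n p M (opm2 n p M IN))) fun N =>
    frc (Nat.add (kbK e n p M) (Nat.mul D N)) fun kt => frc (kaWK e D n p M) fun ka =>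
    frc (crT M IN) fun c1 => frc (out M IN) fun o =>
    bif Nat.ble (Nat.succ n) 40 && pks n p L 0 &&
      jtsx ne D b g kt ka RT o c1 (Nat.add (Nat.mul P L.length) (Nat.mul dl (Nat.add (n00 D n p M) N)))
        (Nat.add (Nat.add (evs T TI n p M IN) (Nat.add (xdc x c n p M) (cr M IN))) (Nat.mul b (dnk n p M)))
    then some (xs ++ (kin n p M IN n ++ tpl e n p M n)) else none

/-- **the step with the worst case for isolated vertices** -/
theorem evlI_ch (hG : G.IsRegularOfDegree 3) {w w' : TF} {b : ℕ} (hww : Pair w w' b) (hw : w'.Pos)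
    {ne e x : Bool} {P T TI D dl c : ℕ} (hT : TabK w' 0 T) (hTI : TabKI w' 0 TI) {U : Finset V} (hI : Inv G U)
    (hD : ∀ x ∈ U, n1 G U x ≤ D) (hiso : iso G U = ∅) {n p : ℕ} {L : List ℕ} {R : List (ℕ × ℕ)}
    {cr crT : ℕ → ℕ → ℕ} {g : ℕ} {RT : List (List ℕ)} {out : ℕ → ℕ → ℕ} {xs : List (ℕ × ℕ)}
    (hR : evlI ne e x P T TI D dl b c n p L cr crT g RT out xs = some R) {φ ν : ℕ → V} (h : Emb G U n p φ ν)
    {CA CB : List CPc} (hb0 : b ≠ 0) (hne : ne = true → ∀ M, FamJ CA G U M → vJ CB G U M = 0)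
    (hex : (∀ y ∈ L, y < n ∧ full p y = true) →
      Stn G U (rem G U (L.map φ)) n p (kms p L 0) (ims p L 0) φ ν → (∃ q ∈ xs, Ch G U n φ q) ∨
        Jx CA CB G U (rem G U (L.map φ)) g RT (out (kms p L 0) (ims p L 0))
          (cr (kms p L 0) (ims p L 0)) (crT (kms p L 0) (ims p L 0))) :
    GoodJ w dl P b c CA CB G U L.length ∨ ∃ q ∈ R, Ch G U n φ q := by
  classical
  unfold evlI at hR
  rw [frc_eq, frc_eq, frc_eq, frc_eq, frc_eq, frc_eq, frc_eq] at hR
  obtain ⟨N, hNd⟩ : ∃ N, N = Nat.add (ndr D n p (kms p L 0))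
    (xN D n p (kms p L 0) (opm2 n p (kms p L 0) (ims p L 0))) := ⟨_, rfl⟩
  rw [← hNd] at hR
  obtain ⟨kt, hkt⟩ : ∃ kt, kt = Nat.add (kbK e n p (kms p L 0)) (Nat.mul D N) := ⟨_, rfl⟩
  obtain ⟨ka, hka⟩ : ∃ ka, ka = kaWK e D n p (kms p L 0) := ⟨_, rfl⟩
  rw [← hkt, ← hka] at hR
  cases hc : Nat.ble (Nat.succ n) 40 && pks n p L 0 &&
      jtsx ne D b g kt ka RT (out (kms p L 0) (ims p L 0)) (crT (kms p L 0) (ims p L 0))
        (Nat.add (Nat.mul P L.length) (Nat.mul dl (Nat.add (n00 D n p (kms p L 0)) N)))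
        (Nat.add (Nat.add (evs T TI n p (kms p L 0) (ims p L 0))
          (Nat.add (xdc x c n p (kms p L 0)) (cr (kms p L 0) (ims p L 0)))) (Nat.mul b (dnk n p (kms p L 0))))
  · rw [hc, cond_false] at hR
    exact absurd hR (by simp)
  rw [hc, cond_true, Option.some.injEq] at hR
  simp only [Bool.and_eq_true] at hc
  obtain ⟨⟨c1, c2⟩, c3⟩ := hc
  have hn : n < 40 := Nat.le_of_ble_eq_true c1
  have hL := pks_of c2
  rw [← hR]
  rcases h.stn_or hG hI hn hL with ⟨q, h1, h2⟩ | hS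
  · exact Or.inr ⟨q, List.mem_append_right _ (List.mem_append_left _ h1), h2⟩
  by_cases hnt : ∃ q ∈ tpl e n p (kms p L 0) n, Ch G U n φ q
  · obtain ⟨q, h1, h2⟩ := hnt
    exact Or.inr ⟨q, List.mem_append_right _ (List.mem_append_right _ h1), h2⟩
  rcases hex hL hS with ⟨q, h1, h2⟩ | hxj
  · exact Or.inr ⟨q, List.mem_append_left _ h1, h2⟩
  left
  have hP := h.pks_picks hG hI (L := L) [] c2 trivial (fun y hy => absurd hy List.not_mem_nil)
  rw [List.nil_append] at hP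
  refine ⟨L.map φ, List.length_map _, hP, fun M' hM' => ?_⟩
  obtain ⟨M, hM, qq, x0, x2, x1, x3⟩ := hxj M' hM'
  refine ⟨M, hM, ?_⟩
  have h1 := h.evsB_le hG hww hw hT hTI hI (hI.rem hG) rem_subset hS.msk
    (fun i hi hb => (hS.inn i hi hb).2)
  have hN : (isr G (rem G U (L.map φ)) n p φ).card ≤ N := by
    rw [hNd]
    exact h.isr_le hG hI hS hD hiso
  have hnd : ∀ i < n, φ i ∈ iso G (rem G U (L.map φ)) → nd D p (kms p L 0) i ≠ 9 := fun i hi hv => by
    have h3 := (h.nd_le hG hS.sub hS.msk hi hv (by rw [hiso]; exact notMem_empty _)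
      (hD _ (h.mem i hi))).trans (fro_card hG)
    omega
  have h2 : (iso G (rem G U (L.map φ))).card ≤ n00 D n p (kms p L 0) + N := by
    rw [← card_filter_add_card_filter_not (s := iso G (rem G U (L.map φ)))
      (fun v => ∃ i, i < n ∧ φ i = v ∧ full p i = true)]
    refine Nat.add_le_add ?_ hN
    rw [n00_eq]
    have key : ∀ v ∈ (iso G (rem G U (L.map φ))).filter (fun v => ∃ i, i < n ∧ φ i = v ∧ full p i = true),
        ∃ i < n, φ i = v ∧ (kms p L 0).testBit i ≠ true ∧ full p i = true ∧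
          nd D p (kms p L 0) i ≠ 9 := fun v hv => by
      obtain ⟨h3, i, i1, i2, i3⟩ := mem_filter.1 hv
      refine ⟨i, i1, i2, fun hb => (hS.msk i i1).1 hb ?_, i3, hnd i i1 (by rw [i2]; exact h3)⟩
      rw [i2]
      exact (mem_iso.1 h3).1
    choose! f hf using key
    refine card_le_card_of_injOn f (fun v hv => ?_) fun v hv v' hv' e => ?_
    · obtain ⟨a1, a2, a3, a4, a5⟩ := hf v hv
      rw [mem_coe, mem_filter, mem_range]
      exact ⟨a1, a3, a4, a5⟩
    · rw [← (hf v hv).2.1, ← (hf v' hv').2.1, e]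
  obtain ⟨R', hR'⟩ : ∃ A, A = (range n).filter (fun i => (kms p L 0).testBit i ≠ true ∧
    nd D p (kms p L 0) i = 9 ∧ dn p i + exn p (kms p L 0) i ≠ 0 ∧
    ntr e p (kms p L 0) i = true) := ⟨_, rfl⟩
  obtain ⟨es, ek, k1, k2, k3⟩ := h.bon_coreK hG hI rem_subset hS.msk hD (S := skb e n p (kms p L 0))
    (R := R') (fun i hi => mem_range.1 (mem_filter.1 hi).1) (fun i hi hno => skb_out h hS.msk hi hno)
    (fun i hi => by
    rw [hR', mem_filter, mem_range] at hi
    obtain ⟨i1, i2, i3, i4, i5⟩ := hi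
    refine ⟨i1, mem_sdiff.2 ⟨?_, fun hc => hnd i i1 hc i3⟩, ?_, ?_⟩
    · by_contra hc
      exact i2 ((hS.msk i i1).2 hc)
    · exact (h.tp_or hG hI rem_subset hn hS.msk i1 i2 i4 i5).resolve_right hnt
    · by_cases ht : tpc p i = true
      · exact Or.inr (h.tpc_tri i1 ht)
      · exact Or.inl (mem_filter.2 ⟨mem_range.2 i1, ht, Or.inr i5⟩)) hN
  rw [← kbK_eq] at k1
  change _ ≤ kbK e n p (kms p L 0) + D * N + _ + _ at k1
  have h3 : kaWK e D n p (kms p L 0) = ∑ i ∈ R', (dn p i + exn p (kms p L 0) i) := by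
    unfold kaWK
    rw [sm_eq, hR', sum_filter]
    refine sum_congr rfl fun i _ => ?_
    rw [frc_eq, tb_eq]
    change (bif Nat.beq (dn p i + exn p (kms p L 0) i) 0 || _ || _ || _ then 0 else
      dn p i + exn p (kms p L 0) i) = _
    by_cases h0 : dn p i + exn p (kms p L 0) i = 0
    · rw [h0, ite_self]
      rfl
    · rw [beq_false h0]
      by_cases h4 : nd D p (kms p L 0) i = 9
      · rw [h4]
        cases (kms p L 0).testBit i <;> cases ntr e p (kms p L 0) i <;> simp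
      · rw [beq_false h4]
        simp [h4]
  rw [← h3] at k2
  have hx := h.xdc_le hG (rem_subset (L := L.map φ)) hS.msk x c
  rw [PsiT_iso, PsiT_iso, List.length_map]
  unfold PsiI
  rw [hiso, card_empty, mul_zero, add_zero]
  rw [← hka] at k2
  have hkt' : kt = kbK e n p (kms p L 0) + D * N := hkt
  rw [← hkt'] at k1
  have h5 := jnt_arith (D := D) (b := b) (dl := dl) (Ps' := PsiT w G (rem G U (L.map φ)))
    (Ps := PsiT w G U + xdc x c n p (kms p L 0))
    (E := evs T TI n p (kms p L 0) (ims p L 0) + xdc x c n p (kms p L 0))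
    (PC := P * L.length) (Z := ∑ z ∈ U \ rem G U (L.map φ), n1 G U z) (ne := ne) hb0 (by omega) k3 k1 k2 h2
    (kUT_zero hD) x0 x2 x1 x3 (fun e => hne e M hM) (by
      rw [add_assoc (evs T TI n p (kms p L 0) (ims p L 0))]
      exact c3)
  omega


/-- the test and the children, all completions -/
def evbQ (ne : Bool) (P T TI D dl b n p : ℕ) (L : List ℕ) (cr crT : ℕ → ℕ → ℕ) (g : ℕ) (RT : List (List ℕ)) (out : ℕ → ℕ → ℕ) (xs : List (ℕ × ℕ)) :
    Option (List (ℕ × ℕ)) :=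
  frc (kms p L 0) fun M => frc (ims p L 0) fun IN => frc (dnt n p) fun kt => frc (kaE D n p M) fun ka =>
    frc (crT M IN) fun c1 => frc (out M IN) fun o =>
    bif Nat.ble (Nat.add n 5) 40 && pks n p L 0 &&
      jtsx ne D b g kt ka RT o c1 (Nat.add (Nat.mul P L.length) (Nat.mul dl (n00 D n p M)))
        (Nat.add (Nat.add (evs T TI n p M IN) (cr M IN)) (Nat.mul b (dnk n p M)))
    then some (xs ++ (kin n p M IN n ++ (evc D L n p M n ++ cml D L n 3 (n + 1) p 200))) else none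

/-- the test and the children, worst case -/
def evlQ (ne : Bool) (P T TI D dl b n p : ℕ) (L : List ℕ) (cr crT : ℕ → ℕ → ℕ) (g : ℕ) (RT : List (List ℕ)) (out : ℕ → ℕ → ℕ) (xs : List (ℕ × ℕ)) :
    Option (List (ℕ × ℕ)) :=
  frc (kms p L 0) fun M => frc (ims p L 0) fun IN =>
    frc (Nat.add (ndr D n p M) (xN D n p M (opm2 n p M IN))) fun N =>
    frc (Nat.add (dnt n p) (Nat.mul D N)) fun kt => frc (kaW D n p M) fun ka =>
    frc (crT M IN) fun c1 => frc (out M IN) fun o =>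
    bif Nat.ble (Nat.succ n) 40 && pks n p L 0 &&
      jtsx ne D b g kt ka RT o c1 (Nat.add (Nat.mul P L.length) (Nat.mul dl (Nat.add (n00 D n p M) N)))
        (Nat.add (Nat.add (evs T TI n p M IN) (cr M IN)) (Nat.mul b (dnk n p M)))
    then some (xs ++ kin n p M IN n) else none

/-- **the step with all completions** -/
theorem evbQ_ch (hG : G.IsRegularOfDegree 3) {w w' : TF} {b : ℕ} (hww : Pair w w' b) (hw : w'.Pos)
    {P T TI D dl : ℕ} (hT : TabK w' 0 T) (hTI : TabKI w' 0 TI) {U : Finset V} (hI : Inv G U)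
    (hD : ∀ x ∈ U, n1 G U x ≤ D) (hiso : iso G U = ∅) {n p : ℕ} {L : List ℕ} {R : List (ℕ × ℕ)}
    {cr crT : ℕ → ℕ → ℕ} {g : ℕ} {RT : List (List ℕ)} {out : ℕ → ℕ → ℕ} {xs : List (ℕ × ℕ)} {c : ℕ} {ne : Bool} (htf : TF3 G)
    (hR : evbQ ne P T TI D dl b n p L cr crT g RT out xs = some R) {φ ν : ℕ → V} (h : Emb G U n p φ ν)
    {CA CB : List CPc} (hb0 : b ≠ 0) (hne : ne = true → ∀ M, FamJ CA G U M → vJ CB G U M = 0)
    (hex : (∀ y ∈ L, y < n ∧ full p y = true) →
      Stn G U (rem G U (L.map φ)) n p (kms p L 0) (ims p L 0) φ ν → (∃ q ∈ xs, Ch G U n φ q) ∨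
        Jx CA CB G U (rem G U (L.map φ)) g RT (out (kms p L 0) (ims p L 0))
          (cr (kms p L 0) (ims p L 0)) (crT (kms p L 0) (ims p L 0))) :
    GoodJ w dl P b c CA CB G U L.length ∨ ∃ q ∈ R, Ch G U n φ q := by
  classical
  unfold evbQ at hR
  rw [frc_eq, frc_eq, frc_eq, frc_eq, frc_eq, frc_eq] at hR
  obtain ⟨kt, hkt⟩ : ∃ kt, kt = dnt n p := ⟨_, rfl⟩
  obtain ⟨ka, hka⟩ : ∃ ka, ka = kaE D n p (kms p L 0) := ⟨_, rfl⟩
  rw [← hkt, ← hka] at hR
  cases hc : Nat.ble (Nat.add n 5) 40 && pks n p L 0 &&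
      jtsx ne D b g kt ka RT (out (kms p L 0) (ims p L 0)) (crT (kms p L 0) (ims p L 0))
        (Nat.add (Nat.mul P L.length) (Nat.mul dl (n00 D n p (kms p L 0))))
        (Nat.add (Nat.add (evs T TI n p (kms p L 0) (ims p L 0)) (cr (kms p L 0) (ims p L 0)))
          (Nat.mul b (dnk n p (kms p L 0))))
  · rw [hc, cond_false] at hR
    exact absurd hR (by simp)
  rw [hc, cond_true, Option.some.injEq] at hR
  simp only [Bool.and_eq_true] at hc
  obtain ⟨⟨c1, c2⟩, c3⟩ := hc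
  have hn : n + 5 ≤ 40 := Nat.le_of_ble_eq_true c1
  have hL := pks_of c2
  rw [← hR]
  rcases h.stn_or hG hI (by omega) hL with ⟨q, h1, h2⟩ | hS
  · exact Or.inr ⟨q, List.mem_append_right _ (List.mem_append_left _ h1), h2⟩
  by_cases hno : ∃ q ∈ evc D L n p (kms p L 0) n ++ cml D L n 3 (n + 1) p 200, Ch G U n φ q
  · obtain ⟨q, h1, h2⟩ := hno
    exact Or.inr ⟨q, List.mem_append_right _ (List.mem_append_right _ h1), h2⟩
  rcases hex hL hS with ⟨q, h1, h2⟩ | hxj
  · exact Or.inr ⟨q, List.mem_append_left _ h1, h2⟩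
  left
  have hP := h.pks_picks hG hI (L := L) [] c2 trivial (fun y hy => absurd hy List.not_mem_nil)
  rw [List.nil_append] at hP
  refine ⟨L.map φ, List.length_map _, hP, fun M' hM' => ?_⟩
  obtain ⟨M, hM, qq, x0, x2, x1, x3⟩ := hxj M' hM'
  refine ⟨M, hM, ?_⟩
  have h1 := h.evsB_le hG hww hw hT hTI hI (hI.rem hG) rem_subset hS.msk
    (fun i hi hb => (hS.inn i hi hb).2)
  have key : ∀ v ∈ iso G (rem G U (L.map φ)), ∃ i < n, φ i = v ∧
      (kms p L 0).testBit i ≠ true ∧ full p i = true ∧ nd D p (kms p L 0) i ≠ 9 := fun v hv =>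
    (h.iso_or hG hI hn hL hS hD hv (by rw [hiso]; exact notMem_empty _)).resolve_left hno
  have h2 : (iso G (rem G U (L.map φ))).card ≤ n00 D n p (kms p L 0) := by
    rw [n00_eq]
    choose! f hf using key
    refine card_le_card_of_injOn f (fun v hv => ?_) fun v hv v' hv' e => ?_
    · obtain ⟨a1, a2, a3, a4, a5⟩ := hf v hv
      rw [mem_coe, mem_filter, mem_range]
      exact ⟨a1, a3, a4, a5⟩
    · rw [← (hf v hv).2.1, ← (hf v' hv').2.1, e]
  obtain ⟨R', hR'⟩ : ∃ A, A = (range n).filter (fun i => (kms p L 0).testBit i ≠ true ∧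
    ¬ (full p i = true ∧ nd D p (kms p L 0) i ≠ 9)) := ⟨_, rfl⟩
  have hN : (isr G (rem G U (L.map φ)) n p φ).card ≤ 0 := by
    rw [Nat.le_zero, card_eq_zero, eq_empty_iff_forall_notMem]
    intro v hv
    obtain ⟨h3, h4⟩ := mem_filter.1 hv
    obtain ⟨i, a1, a2, -, a4, -⟩ := key v h3
    exact h4 ⟨i, a1, a2, a4⟩
  obtain ⟨es, ek, k1, k2, k3⟩ := h.bon_core hG hI rem_subset hS.msk hD (R := R') (fun i hi => by
    rw [hR', mem_filter, mem_range] at hi
    obtain ⟨i1, i2, i3⟩ := hi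
    refine ⟨i1, mem_sdiff.2 ⟨?_, fun hc => ?_⟩⟩
    · by_contra hc
      exact i2 ((hS.msk i i1).2 hc)
    · obtain ⟨j, a1, a2, -, a4, a5⟩ := key _ hc
      rw [h.inj j a1 i i1 a2] at a4 a5
      exact i3 ⟨a4, a5⟩) hN
  rw [mul_zero, add_zero] at k1
  have h3 : kaE D n p (kms p L 0) = ∑ i ∈ R', (dn p i + exn p (kms p L 0) i) := by
    unfold kaE
    rw [sm_eq, hR', sum_filter]
    refine sum_congr rfl fun i _ => ?_
    by_cases h1 : (kms p L 0).testBit i = true
    · rw [tb_eq, h1, if_neg (fun h => h.1 rfl)]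
      rfl
    · rw [tb_false h1]
      by_cases h2 : full p i = true
      · rw [h2]
        by_cases h3 : nd D p (kms p L 0) i = 9
        · rw [h3, if_pos ⟨h1, fun h => h.2 rfl⟩]
          rfl
        · rw [if_neg (fun h => h.2 ⟨rfl, h3⟩), show Nat.beq (nd D p (kms p L 0) i) 9 = false by
            rw [← Bool.not_eq_true]; exact fun e => h3 (Nat.eq_of_beq_eq_true e)]
          rfl
      · rw [show full p i = false from Bool.not_eq_true _ ▸ h2,
          if_pos ⟨h1, fun h => absurd h.1 (by simp)⟩]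
        rfl
  rw [← h3] at k2
  rw [PsiT_iso, PsiT_iso, List.length_map, dpn_tf htf hG, dpn_tf htf hG, kUT_tf htf, kST_tf htf]
  unfold PsiI
  rw [hiso, card_empty, mul_zero, mul_zero, add_zero, add_zero, add_zero]
  rw [← hka] at k2
  rw [← hkt] at k1
  have h5 := jnt_arith (D := D) (b := b) (dl := dl) (Ps' := PsiT w G (rem G U (L.map φ)))
    (Ps := PsiT w G U) (E := evs T TI n p (kms p L 0) (ims p L 0))
    (PC := P * L.length) (Z := ∑ z ∈ U \ rem G U (L.map φ), n1 G U z) (ne := ne) hb0 (by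
      rw [zero_mul] at h1
      omega) k3 k1 k2 h2 (kU_zero hD) x0 x2 x1 x3 (fun e => hne e M hM) c3
  omega

/-- **the step with the worst case for isolated vertices** -/
theorem evlQ_ch (hG : G.IsRegularOfDegree 3) {w w' : TF} {b : ℕ} (hww : Pair w w' b) (hw : w'.Pos)
    {P T TI D dl : ℕ} (hT : TabK w' 0 T) (hTI : TabKI w' 0 TI) {U : Finset V} (hI : Inv G U)
    (hD : ∀ x ∈ U, n1 G U x ≤ D) (hiso : iso G U = ∅) {n p : ℕ} {L : List ℕ} {R : List (ℕ × ℕ)}
    {cr crT : ℕ → ℕ → ℕ} {g : ℕ} {RT : List (List ℕ)} {out : ℕ → ℕ → ℕ} {xs : List (ℕ × ℕ)} {c : ℕ} {ne : Bool} (htf : TF3 G)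
    (hR : evlQ ne P T TI D dl b n p L cr crT g RT out xs = some R) {φ ν : ℕ → V} (h : Emb G U n p φ ν)
    {CA CB : List CPc} (hb0 : b ≠ 0) (hne : ne = true → ∀ M, FamJ CA G U M → vJ CB G U M = 0)
    (hex : (∀ y ∈ L, y < n ∧ full p y = true) →
      Stn G U (rem G U (L.map φ)) n p (kms p L 0) (ims p L 0) φ ν → (∃ q ∈ xs, Ch G U n φ q) ∨
        Jx CA CB G U (rem G U (L.map φ)) g RT (out (kms p L 0) (ims p L 0))
          (cr (kms p L 0) (ims p L 0)) (crT (kms p L 0) (ims p L 0))) :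
    GoodJ w dl P b c CA CB G U L.length ∨ ∃ q ∈ R, Ch G U n φ q := by
  classical
  unfold evlQ at hR
  rw [frc_eq, frc_eq, frc_eq, frc_eq, frc_eq, frc_eq, frc_eq] at hR
  obtain ⟨N, hNd⟩ : ∃ N, N = Nat.add (ndr D n p (kms p L 0))
    (xN D n p (kms p L 0) (opm2 n p (kms p L 0) (ims p L 0))) := ⟨_, rfl⟩
  rw [← hNd] at hR
  obtain ⟨kt, hkt⟩ : ∃ kt, kt = Nat.add (dnt n p) (Nat.mul D N) := ⟨_, rfl⟩
  obtain ⟨ka, hka⟩ : ∃ ka, ka = kaW D n p (kms p L 0) := ⟨_, rfl⟩
  rw [← hkt, ← hka] at hR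
  cases hc : Nat.ble (Nat.succ n) 40 && pks n p L 0 &&
      jtsx ne D b g kt ka RT (out (kms p L 0) (ims p L 0)) (crT (kms p L 0) (ims p L 0))
        (Nat.add (Nat.mul P L.length) (Nat.mul dl (Nat.add (n00 D n p (kms p L 0)) N)))
        (Nat.add (Nat.add (evs T TI n p (kms p L 0) (ims p L 0)) (cr (kms p L 0) (ims p L 0)))
          (Nat.mul b (dnk n p (kms p L 0))))
  · rw [hc, cond_false] at hR
    exact absurd hR (by simp)
  rw [hc, cond_true, Option.some.injEq] at hR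
  simp only [Bool.and_eq_true] at hc
  obtain ⟨⟨c1, c2⟩, c3⟩ := hc
  have hn : n < 40 := Nat.le_of_ble_eq_true c1
  have hL := pks_of c2
  rw [← hR]
  rcases h.stn_or hG hI hn hL with ⟨q, h1, h2⟩ | hS
  · exact Or.inr ⟨q, List.mem_append_right _ h1, h2⟩
  rcases hex hL hS with ⟨q, h1, h2⟩ | hxj
  · exact Or.inr ⟨q, List.mem_append_left _ h1, h2⟩
  left
  have hP := h.pks_picks hG hI (L := L) [] c2 trivial (fun y hy => absurd hy List.not_mem_nil)
  rw [List.nil_append] at hP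
  refine ⟨L.map φ, List.length_map _, hP, fun M' hM' => ?_⟩
  obtain ⟨M, hM, qq, x0, x2, x1, x3⟩ := hxj M' hM'
  refine ⟨M, hM, ?_⟩
  have h1 := h.evsB_le hG hww hw hT hTI hI (hI.rem hG) rem_subset hS.msk
    (fun i hi hb => (hS.inn i hi hb).2)
  have hN : (isr G (rem G U (L.map φ)) n p φ).card ≤ N := by
    rw [hNd]
    exact h.isr_le hG hI hS hD hiso
  have hnd : ∀ i < n, φ i ∈ iso G (rem G U (L.map φ)) → nd D p (kms p L 0) i ≠ 9 := fun i hi hv => by
    have h3 := (h.nd_le hG hS.sub hS.msk hi hv (by rw [hiso]; exact notMem_empty _)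
      (hD _ (h.mem i hi))).trans (fro_card hG)
    omega
  have h2 : (iso G (rem G U (L.map φ))).card ≤ n00 D n p (kms p L 0) + N := by
    rw [← card_filter_add_card_filter_not (s := iso G (rem G U (L.map φ)))
      (fun v => ∃ i, i < n ∧ φ i = v ∧ full p i = true)]
    refine Nat.add_le_add ?_ hN
    rw [n00_eq]
    have key : ∀ v ∈ (iso G (rem G U (L.map φ))).filter (fun v => ∃ i, i < n ∧ φ i = v ∧ full p i = true),
        ∃ i < n, φ i = v ∧ (kms p L 0).testBit i ≠ true ∧ full p i = true ∧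
          nd D p (kms p L 0) i ≠ 9 := fun v hv => by
      obtain ⟨h3, i, i1, i2, i3⟩ := mem_filter.1 hv
      refine ⟨i, i1, i2, fun hb => (hS.msk i i1).1 hb ?_, i3, hnd i i1 (by rw [i2]; exact h3)⟩
      rw [i2]
      exact (mem_iso.1 h3).1
    choose! f hf using key
    refine card_le_card_of_injOn f (fun v hv => ?_) fun v hv v' hv' e => ?_
    · obtain ⟨a1, a2, a3, a4, a5⟩ := hf v hv
      rw [mem_coe, mem_filter, mem_range]
      exact ⟨a1, a3, a4, a5⟩
    · rw [← (hf v hv).2.1, ← (hf v' hv').2.1, e]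
  obtain ⟨R', hR'⟩ : ∃ A, A = (range n).filter (fun i => (kms p L 0).testBit i ≠ true ∧
    nd D p (kms p L 0) i = 9) := ⟨_, rfl⟩
  obtain ⟨es, ek, k1, k2, k3⟩ := h.bon_core hG hI rem_subset hS.msk hD (R := R') (fun i hi => by
    rw [hR', mem_filter, mem_range] at hi
    obtain ⟨i1, i2, i3⟩ := hi
    refine ⟨i1, mem_sdiff.2 ⟨?_, fun hc => hnd i i1 hc i3⟩⟩
    by_contra hc
    exact i2 ((hS.msk i i1).2 hc)) hN
  have h3 : kaW D n p (kms p L 0) = ∑ i ∈ R', (dn p i + exn p (kms p L 0) i) := by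
    unfold kaW
    rw [sm_eq, hR', sum_filter]
    refine sum_congr rfl fun i _ => ?_
    by_cases h1 : (kms p L 0).testBit i = true
    · rw [tb_eq, h1, if_neg (fun h => h.1 rfl)]
      rfl
    · rw [tb_false h1]
      by_cases h3 : nd D p (kms p L 0) i = 9
      · rw [h3, if_pos ⟨h1, rfl⟩]
        rfl
      · rw [if_neg (fun h => h3 h.2), show Nat.beq (nd D p (kms p L 0) i) 9 = false by
          rw [← Bool.not_eq_true]; exact fun e => h3 (Nat.eq_of_beq_eq_true e)]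
        rfl
  rw [← h3] at k2
  rw [PsiT_iso, PsiT_iso, List.length_map, dpn_tf htf hG, dpn_tf htf hG, kUT_tf htf, kST_tf htf]
  unfold PsiI
  rw [hiso, card_empty, mul_zero, mul_zero, add_zero, add_zero, add_zero]
  rw [← hka] at k2
  have hkt' : kt = dnt n p + D * N := hkt
  rw [← hkt'] at k1
  have h5 := jnt_arith (D := D) (b := b) (dl := dl) (Ps' := PsiT w G (rem G U (L.map φ)))
    (Ps := PsiT w G U) (E := evs T TI n p (kms p L 0) (ims p L 0))
    (PC := P * L.length) (Z := ∑ z ∈ U \ rem G U (L.map φ), n1 G U z) (ne := ne) hb0 (by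
      rw [zero_mul] at h1
      omega) k3 k1 k2 h2 (kU_zero hD) x0 x2 x1 x3 (fun e => hne e M hM) c3
  omega

/-- without the flag `e` and without triangles: `evbQ` -/
def evbJ (tf ne e x : Bool) (P T TI D dl b c n p : ℕ) (L : List ℕ) (cr crT : ℕ → ℕ → ℕ) (g : ℕ) (RT : List (List ℕ)) (out : ℕ → ℕ → ℕ)
    (xs : List (ℕ × ℕ)) : Option (List (ℕ × ℕ)) :=
  bif tf && !e then evbQ ne P T TI D dl b n p L cr crT g RT out xs
    else evbI ne e x P T TI D dl b c n p L cr crT g RT out xs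

/-- without the flag `e` and without triangles: `evlQ` -/
def evlJ (tf ne e x : Bool) (P T TI D dl b c n p : ℕ) (L : List ℕ) (cr crT : ℕ → ℕ → ℕ) (g : ℕ) (RT : List (List ℕ)) (out : ℕ → ℕ → ℕ)
    (xs : List (ℕ × ℕ)) : Option (List (ℕ × ℕ)) :=
  bif tf && !e then evlQ ne P T TI D dl b n p L cr crT g RT out xs
    else evlI ne e x P T TI D dl b c n p L cr crT g RT out xs

theorem evbJ_ch (hG : G.IsRegularOfDegree 3) {w w' : TF} {b : ℕ} (hww : Pair w w' b) (hw : w'.Pos)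
    {tf e x : Bool} {P T TI D dl c : ℕ} (hT : TabK w' 0 T) (hTI : TabKI w' 0 TI) {U : Finset V} (hI : Inv G U)
    (hD : ∀ x ∈ U, n1 G U x ≤ D) (hiso : iso G U = ∅) (htf : tf = true → TF3 G) {n p : ℕ} {L : List ℕ}
    {R : List (ℕ × ℕ)} {cr crT : ℕ → ℕ → ℕ} {g : ℕ} {RT : List (List ℕ)} {out : ℕ → ℕ → ℕ} {xs : List (ℕ × ℕ)} {ne : Bool}
    (hR : evbJ tf ne e x P T TI D dl b c n p L cr crT g RT out xs = some R) {φ ν : ℕ → V} (h : Emb G U n p φ ν)
    {CA CB : List CPc} (hb0 : b ≠ 0) (hne : ne = true → ∀ M, FamJ CA G U M → vJ CB G U M = 0)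
    (hex : (∀ y ∈ L, y < n ∧ full p y = true) →
      Stn G U (rem G U (L.map φ)) n p (kms p L 0) (ims p L 0) φ ν → (∃ q ∈ xs, Ch G U n φ q) ∨
        Jx CA CB G U (rem G U (L.map φ)) g RT (out (kms p L 0) (ims p L 0))
          (cr (kms p L 0) (ims p L 0)) (crT (kms p L 0) (ims p L 0))) :
    GoodJ w dl P b c CA CB G U L.length ∨ ∃ q ∈ R, Ch G U n φ q := by
  unfold evbJ at hR
  cases hc : tf && !e
  · rw [hc, cond_false] at hR
    exact evbI_ch hG hww hw hT hTI hI hD hiso hR h hb0 hne hex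
  · rw [hc, cond_true] at hR
    rw [Bool.and_eq_true] at hc
    exact evbQ_ch hG hww hw hT hTI hI hD hiso (htf hc.1) hR h hb0 hne hex

theorem evlJ_ch (hG : G.IsRegularOfDegree 3) {w w' : TF} {b : ℕ} (hww : Pair w w' b) (hw : w'.Pos)
    {tf e x : Bool} {P T TI D dl c : ℕ} (hT : TabK w' 0 T) (hTI : TabKI w' 0 TI) {U : Finset V} (hI : Inv G U)
    (hD : ∀ x ∈ U, n1 G U x ≤ D) (hiso : iso G U = ∅) (htf : tf = true → TF3 G) {n p : ℕ} {L : List ℕ}
    {R : List (ℕ × ℕ)} {cr crT : ℕ → ℕ → ℕ} {g : ℕ} {RT : List (List ℕ)} {out : ℕ → ℕ → ℕ} {xs : List (ℕ × ℕ)} {ne : Bool}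
    (hR : evlJ tf ne e x P T TI D dl b c n p L cr crT g RT out xs = some R) {φ ν : ℕ → V} (h : Emb G U n p φ ν)
    {CA CB : List CPc} (hb0 : b ≠ 0) (hne : ne = true → ∀ M, FamJ CA G U M → vJ CB G U M = 0)
    (hex : (∀ y ∈ L, y < n ∧ full p y = true) →
      Stn G U (rem G U (L.map φ)) n p (kms p L 0) (ims p L 0) φ ν → (∃ q ∈ xs, Ch G U n φ q) ∨
        Jx CA CB G U (rem G U (L.map φ)) g RT (out (kms p L 0) (ims p L 0))
          (cr (kms p L 0) (ims p L 0)) (crT (kms p L 0) (ims p L 0))) :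
    GoodJ w dl P b c CA CB G U L.length ∨ ∃ q ∈ R, Ch G U n φ q := by
  unfold evlJ at hR
  cases hc : tf && !e
  · rw [hc, cond_false] at hR
    exact evlI_ch hG hww hw hT hTI hI hD hiso hR h hb0 hne hex
  · rw [hc, cond_true] at hR
    rw [Bool.and_eq_true] at hc
    exact evlQ_ch hG hww hw hT hTI hI hD hiso (htf hc.1) hR h hb0 hne hex



end EF18
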