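import Pool.Agent.Lib.MP_ef18bd_co.P.Glu

/-!
# References to the patterns of earlier phases

`stD dn st`: the step `st`, and the patterns of the list `dn` are closed. In a phase no pattern of `dn` is in
the state, so this step is sound, and the first records of the big number may be patterns of `dn`.
-/

namespace EF18

open Finset

/-- the step with the patterns of the list closed -/
def stD (dn : List (ℕ × ℕ)) (st : Stp) : Stp := fun n p x => bif mem2 (n, p) dn then some [] else st n p x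

theorem mem2_mem {q : ℕ × ℕ} : ∀ {L : List (ℕ × ℕ)}, q ∈ L → mem2 q L = true := by
  intro L
  induction L with
  | nil => intro h; exact absurd h List.not_mem_nil
  | cons r L ih =>
    intro h
    rcases List.mem_cons.1 h with h | h
    · subst h
      simp [mem2]
    · have := ih h
      simp only [mem2, Bool.or_eq_true]
      exact Or.inr this

section

variable {V : Type} [Fintype V] [DecidableEq V] {G : SimpleGraph V} [DecidableRel G.Adj]

omit [Fintype V] [DecidableEq V] [DecidableRel G.Adj] in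
theorem Snd.stD {U : Finset V} {Q : Prop} {st : Stp} (h : Snd G U Q st) {dn : List (ℕ × ℕ)}
    (hno : ∀ q ∈ dn, ∀ φ ν : ℕ → V, Emb G U q.1 q.2 φ ν → Q) : Snd G U Q (stD dn st) := by
  intro n p x L h1 h2
  cases hm : mem2 (n, p) dn
  · have e : EF18.stD dn st n p x = st n p x := by
      show (bif mem2 (n, p) dn then some [] else st n p x) = _
      rw [hm, cond_false]
    rw [e] at h1
    exact h n p x L h1 h2
  · exact fun φ ν he => hno (n, p) (mem2_of hm) φ ν he

omit [Fintype V] [DecidableEq V] [DecidableRel G.Adj] in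
theorem Snd.of_stD {U : Finset V} {Q : Prop} {st : Stp} {dn : List (ℕ × ℕ)} (h : Snd G U Q (EF18.stD dn st)) :
    Snd G U Q st := by
  intro n p x L h1 h2
  cases hm : mem2 (n, p) dn
  · have e : EF18.stD dn st n p x = st n p x := by
      show (bif mem2 (n, p) dn then some [] else st n p x) = _
      rw [hm, cond_false]
    exact h n p x L (e.trans h1) h2
  · have e : EF18.stD dn st n p x = some [] := by
      show (bif mem2 (n, p) dn then some [] else st n p x) = _
      rw [hm, cond_true]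
    exact h n p x [] e fun q hq => absurd hq List.not_mem_nil

end

theorem ClV.stD {st : Stp} {q : ℕ × ℕ} (h : ClV st q) (dn : List (ℕ × ℕ)) : ClV (EF18.stD dn st) q :=
  fun G _ U Q hs => h G U Q hs.of_stD

theorem Val.stD {st : Stp} {q : ℕ × ℕ} (h : Val st q) (dn : List (ℕ × ℕ)) : Val (EF18.stD dn st) q :=
  ⟨h.1, fun G _ U Q hs => h.2 G U Q hs.of_stD⟩

theorem val_mem {dn : List (ℕ × ℕ)} (st : Stp) {q : ℕ × ℕ} (hq : q ∈ dn) (hw : wfp q = true) :
    Val (stD dn st) q := by
  refine ⟨hw, fun G _ U Q hs => ?_⟩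
  have e : EF18.stD dn st q.1 q.2 0 = some [] := by
    show (bif mem2 (q.1, q.2) dn then some [] else st q.1 q.2 0) = _
    rw [mem2_mem (show (q.1, q.2) ∈ dn from hq), cond_true]
  exact hs q.1 q.2 0 [] e fun q hq => absurd hq List.not_mem_nil

theorem Sfn.stD {ok : ℕ → ℕ → Bool} {st : Stp} {sf : ℕ → ℕ → ℕ → Option (List (ℕ × ℕ))}
    {lf dl : ℕ → ℕ → ℕ → Bool} (h : Sfn ok st sf lf dl) (dn : List (ℕ × ℕ)) :
    Sfn ok (EF18.stD dn st) sf lf dl where
  step := by
    intro n p x L hw h1
    cases hm : mem2 (n, p) dn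
    · obtain ⟨x', L', h2, h3⟩ := h.step n p x L hw h1
      refine ⟨x', L', ?_, h3⟩
      show (bif mem2 (n, p) dn then some [] else st n p x') = _
      rw [hm, cond_false]
      exact h2
    · refine ⟨0, [], ?_, fun q hq => absurd hq List.not_mem_nil⟩
      show (bif mem2 (n, p) dn then some [] else st n p 0) = _
      rw [hm, cond_true]
  leaf := fun n p t h1 => ClV.stD (h.leaf n p t h1) dn
  del := h.del

/-- the first records are patterns of the list -/
def j0k (dn : List (ℕ × ℕ)) (B j : ℕ) : Bool :=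
  (List.range j).all fun i => mem2 (prc B i) dn && wfp (prc B i)

theorem ents_dn {dn : List (ℕ × ℕ)} (st : Stp) {B j : ℕ} (h : j0k dn B j = true) :
    ∀ i < j, Val (stD dn st) (prc B i) := by
  intro i hi
  have h1 := List.all_eq_true.1 h i (List.mem_range.2 hi)
  rw [Bool.and_eq_true] at h1
  exact val_mem st (mem2_of h1.1) h1.2

/-- **one phase from the fast checker, with references to the earlier phases** -/
theorem Dn.rawX {bo : Bool} {CL : List CPc} (hCL : vok CL) {ML : List MPc} (hMC : ML = mcl CL)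
    (hML : ML.all mkok = true) {tf : Bool} {PL dn : List (ℕ × ℕ)} (hPL : PL.all wfp = true)
    (h : Dn bo CL tf PL dn) {XL : List (ℕ × ℕ)} (hX : ∀ q ∈ XL, q ∈ dn) {D : ℕ}
    (hA : D ≤ 1 → (1, 257) ∈ dn) (hB : D = 0 → (1, 1) ∈ dn) {Ts : List (List ℕ)}
    (hTs : (Ts.all tok) = true) {Ks : List (List ℕ)} (hK : pcks XL Ts CL Ks = true)
    {sf : ℕ → ℕ → ℕ → Option (List (ℕ × ℕ))} {lf dl : ℕ → ℕ → ℕ → Bool}
    (hs : Sfn (okB D tf) (stV bo CL Ts tf ML PL D) sf lf dl) {B N : ℕ}
    (hV : ∀ i < N, Val (stD dn (stV bo CL Ts tf ML PL D)) (prc B i)) {R : List (ℕ × ℕ)} {z : ℕ}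
    (hR : clsM lf dl B N R z = true) : Dn bo CL tf PL (R ++ dn) := by
  intro V _ _ G _ hG hc htf U hI hU hne hiso hcl hq
  by_cases hd : ∃ q ∈ dn, ∃ φ ν : ℕ → V, Emb G U q.1 q.2 φ ν
  · exact h V G hG hc htf U hI hU hne hiso hcl hd
  obtain ⟨q, hq, φ, ν, he⟩ := hq
  have hno : ∀ q ∈ dn, ∀ φ ν : ℕ → V, ¬ Emb G U q.1 q.2 φ ν := fun q hq φ ν he => hd ⟨q, hq, φ, ν, he⟩
  rcases List.mem_append.1 hq with hq | hq
  swap
  · exact absurd he (hno q hq φ ν)
  have h2 := n1_le_two hG hI hiso
  have hD : ∀ x ∈ U, n1 G U x ≤ D := by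
    by_cases hD2 : 2 ≤ D
    · exact fun x hx => (h2 x hx).trans hD2
    intro x hx
    by_contra hc
    push Not at hc
    by_cases hD1 : D = 1
    · obtain ⟨φ, ν, e⟩ := root2 hG hx (show 2 ≤ n1 G U x by omega)
      exact hno _ (hA (by omega)) φ ν e
    · obtain ⟨φ, ν, e⟩ := root1 hG hx (show 1 ≤ n1 G U x by omega)
      exact hno _ (hB (by omega)) φ ν e
  have hT : TabOK CL Ts G U := tabOK_of hG hI hCL.1 hTs hK fun q hq => hno q (hX q hq)
  have hst := (snd_stV (bo := bo) hG hc hI hU hCL hTs hMC hML hT hPL hD hiso htf hcl).stD (dn := dn)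
    fun q hq φ ν he => absurd he (hno q hq φ ν)
  exact clO_of (clsM_sound (hs.stD dn) hV hR _ hq) V G U _ (fun _ _ _ _ he => he.okB hG hD htf) hst φ ν he

end EF18
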