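import Pool.Agent.Lib.MP_ef18bd_co.P.Raw

/-!
# The fast checker for the step `stB`
-/

namespace EF18

/-! ### the filter -/

/-- the port with the digit `d` gives a triangle with `j` -/
def tbF (p j d : ℕ) : Bool :=
  (@Bool.rec (fun _ => Bool) false (@Nat.rec (fun _ => Bool) false (fun t _ => (@Bool.rec (fun _ => Bool)
    (@Bool.rec (fun _ => Bool) true false (Nat.beq (Nat.land (dmF p t) (Nat.pow 2 j)) 0)) (Nat.beq t j)
    (Nat.beq (Nat.mod d 2) 1))) (Nat.succ (Nat.div (Nat.sub d 2) 6))) (Nat.ble 2 d))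

/-- a triangle at the port `k` -/
def t1F (p k : ℕ) : Bool :=
  (@Nat.rec (fun _ => Bool) false (fun d _ => (@Bool.rec (fun _ => Bool) false (@Bool.rec (fun _ => Bool)
    false (@Nat.rec (fun _ => Bool) false (fun j _ => (@Nat.rec (fun _ => Bool) false (fun w _ =>
    (@Bool.rec (fun _ => Bool) (@Bool.rec (fun _ => Bool) (tbF p j (Nat.div w 65536)) true (tbF p j
    (Nat.mod (Nat.div w 256) 256))) true (tbF p j (Nat.mod w 256)))) (Nat.succ (Nat.mod (Nat.div p (Nat.pow
    256 (Nat.mul 3 (Nat.div k 3)))) 16777216)))) (Nat.succ (Nat.div (Nat.sub d 2) 6))) (Nat.beq (Nat.mod d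
    2) 0)) (Nat.ble 2 d))) (Nat.succ (Nat.mod (Nat.div p (Nat.pow 256 k)) 256)))

theorem tbF_eq (p j d : ℕ) : tbF p j d = tbd p j d := by
  have e : tbF p j d = @Bool.rec (fun _ => Bool) false (@Bool.rec (fun _ => Bool) (@Bool.rec (fun _ => Bool)
    true false (Nat.beq (Nat.land (dmF p (tg d)) (Nat.pow 2 j)) 0)) (Nat.beq (tg d) j)
    (Nat.beq (Nat.mod d 2) 1)) (Nat.ble 2 d) := rfl
  rw [e, ifc, ifc, ifc, dmF_eq, tbd, adjd_mask]
  cases Nat.ble 2 d
  · rfl
  cases Nat.beq (Nat.mod d 2) 1
  · cases Nat.beq (Nat.land (dmask p (tg d)) (Nat.pow 2 j)) 0 <;> rfl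
  · rfl

theorem t1F_eq (p k : ℕ) : t1F p k = !okT1 p k := by
  have e : t1F p k = @Bool.rec (fun _ => Bool) false (@Bool.rec (fun _ => Bool) false
    (@Bool.rec (fun _ => Bool) (@Bool.rec (fun _ => Bool) (tbF p (tg (dg p k)) (Nat.div (Nat.mod (Nat.div p
      (Nat.pow 256 (Nat.mul 3 (k / 3)))) 16777216) 65536))
      true (tbF p (tg (dg p k)) (Nat.mod (Nat.div (Nat.mod (Nat.div p (Nat.pow 256 (Nat.mul 3 (k / 3))))
        16777216) 256) 256)))
      true (tbF p (tg (dg p k)) (Nat.mod (Nat.mod (Nat.div p (Nat.pow 256 (Nat.mul 3 (k / 3)))) 16777216)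
        256)))
    (Nat.beq (Nat.mod (dg p k) 2) 0)) (Nat.ble 2 (dg p k)) := rfl
  rw [e, ifc, ifc, ifc, ifc, wd0, wd1, wd2, tbF_eq, tbF_eq, tbF_eq]
  unfold okT1
  rw [frc_eq, frc_eq, frc_eq]
  change _ = !(bif Nat.ble 2 (dg p k) && Nat.beq (Nat.mod (dg p k) 2) 0 then
    !(tbd p (tg (dg p k)) (dg p (3 * (k / 3))) || tbd p (tg (dg p k)) (dg p (3 * (k / 3) + 1)) ||
      tbd p (tg (dg p k)) (dg p (3 * (k / 3) + 2))) else true)
  cases Nat.ble 2 (dg p k)
  · rfl
  cases Nat.beq (Nat.mod (dg p k) 2) 0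
  · rfl
  cases tbd p (tg (dg p k)) (dg p (3 * (k / 3))) <;> cases tbd p (tg (dg p k)) (dg p (3 * (k / 3) + 1)) <;>
    cases tbd p (tg (dg p k)) (dg p (3 * (k / 3) + 2)) <;> rfl

/-- deleted by the filter, the witness is a port or a node -/
def dlB (D : ℕ) (tf : Bool) (n p k : ℕ) : Bool :=
  (@Nat.rec (fun _ => Bool) false (fun K _ => (@Bool.rec (fun _ => Bool) (@Bool.rec (fun _ => Bool) false
    (t1F p k) tf) (@Nat.rec (fun _ => Bool) false (fun i _ => (@Bool.rec (fun _ => Bool) false (Nat.ble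
    (Nat.succ D) (dn3 (Nat.mod (Nat.div p (Nat.pow 256 (Nat.mul 3 i))) 16777216))) (Nat.ble (Nat.succ i)
    n))) (Nat.succ (Nat.sub k K))) (Nat.ble K k))) (Nat.succ (Nat.mul 3 n)))

theorem okD_false {D p i : ℕ} (h : D < dn p i) : ∀ {n : ℕ}, i < n → okD D p n = false := by
  intro n
  induction n with
  | zero => intro hi; omega
  | succ n ih =>
    intro hi
    rw [okD]
    rcases Nat.lt_succ_iff_lt_or_eq.1 hi with h1 | rfl
    · rw [ih h1, Bool.and_false]
    · have : Nat.ble (dn p i) D = false := by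
        rw [Bool.eq_false_iff, Ne, Nat.ble_eq]
        omega
      rw [this, Bool.false_and]

theorem okT_false {p k : ℕ} (h : okT1 p k = false) : ∀ {m : ℕ}, k < m → okT p m = false := by
  intro m
  induction m with
  | zero => intro hi; omega
  | succ m ih =>
    intro hi
    rw [okT]
    rcases Nat.lt_succ_iff_lt_or_eq.1 hi with h1 | rfl
    · rw [ih h1, Bool.and_false]
    · rw [h, Bool.false_and]

theorem dlB_ok {D : ℕ} {tf : Bool} {n p k : ℕ} (h : dlB D tf n p k = true) : okB D tf n p = false := by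
  have e : dlB D tf n p k = @Bool.rec (fun _ => Bool) (@Bool.rec (fun _ => Bool) false (t1F p k) tf)
    (@Bool.rec (fun _ => Bool) false (Nat.ble (Nat.succ D) (dn3 (Nat.mod (Nat.div p (Nat.pow 256 (Nat.mul 3
      (k - 3 * n)))) 16777216)))
      (Nat.ble (k - 3 * n + 1) n)) (Nat.ble (3 * n) k) := rfl
  rw [e, ifc, ifc, ifc, dn3_eq, t1F_eq] at h
  unfold okB
  cases h1 : Nat.ble (3 * n) k
  · rw [h1, cond_false] at h
    have hk : k < 3 * n := by
      by_contra hc
      rw [Nat.ble_eq_true_of_le (by omega : 3 * n ≤ k)] at h1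
      exact absurd h1 (by simp)
    cases htf : tf
    · rw [htf] at h
      exact absurd h (by simp)
    · rw [htf, cond_true, Bool.not_eq_true'] at h
      have h2 := okT_false h hk
      change (okD D p n && (false || okT p (3 * n))) = false
      rw [h2]
      simp
  · rw [h1, cond_true] at h
    cases h2 : Nat.ble (k - 3 * n + 1) n
    · rw [h2] at h
      exact absurd h (by simp)
    · rw [h2, cond_true] at h
      have h3 : k - 3 * n < n := Nat.le_of_ble_eq_true h2
      have h4 : D < dn p (k - 3 * n) := Nat.le_of_ble_eq_true h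
      rw [okD_false h4 h3, Bool.false_and]

/-! ### the step -/

/-- is there a value? -/
def iss (o : Option (List (ℕ × ℕ))) : Bool := @Option.rec (List (ℕ × ℕ)) (fun _ => Bool) false (fun _ =>
  true) o

/-- is it the empty list? -/
def isn (o : Option (List (ℕ × ℕ))) : Bool :=
  @Option.rec (List (ℕ × ℕ)) (fun _ => Bool) false
    (fun L => @List.rec (ℕ × ℕ) (fun _ => Bool) true (fun _ _ _ => false) L) o

theorem isn_iff {o : Option (List (ℕ × ℕ))} (h : isn o = true) : o = some [] := by
  match o, h with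
  | some [], _ => rfl
  | none, h => exact Bool.noConfusion h
  | some (_ :: _), h => exact Bool.noConfusion h

/-- the step with the tests `tE`, `tW` for the events -/
def sfB (D : ℕ) (tE tW : ℕ → ℕ → List ℕ → Bool) (n p x : ℕ) : Option (List (ℕ × ℕ)) :=
  (@Nat.rec (fun _ => Option (List (ℕ × ℕ))) none (fun r _ => (@Nat.rec (fun _ => Option (List (ℕ × ℕ)))
    none (fun y _ => (@Bool.rec (fun _ => Option (List (ℕ × ℕ))) (@Bool.rec (fun _ => Option (List (ℕ ×
    ℕ))) (@Bool.rec (fun _ => Option (List (ℕ × ℕ))) none (@Bool.rec (fun _ => Option (List (ℕ × ℕ))) none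
    (some (kinF n p (kmF p (pkl y) 0) (imF p (pkl y) 0) [] n)) (tW n p (pkl y))) (Nat.beq r 2)) (@Bool.rec
    (fun _ => Option (List (ℕ × ℕ))) none (@Bool.rec (fun _ => Option (List (ℕ × ℕ))) none (some (evF D
    (pkl y) n p)) (Nat.ble (Nat.succ (kmF p (pkl y) 0)) (Nat.pow 2 n))) (tE n p (pkl y))) (Nat.beq r 1))
    (braF (Nat.ble 1 D) n p y) (Nat.beq r 0))) (Nat.succ (Nat.div x 4)))) (Nat.succ (Nat.mod x 4)))

/-- the leaves: `t % 4 = 3`: fast; `2`: the old step or a piece -/
def lfB (D : ℕ) (tf : Bool) (PL : List (ℕ × ℕ)) (lw : ℕ → ℕ → List ℕ → Bool) (n p t : ℕ) : Bool :=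
  (@Nat.rec (fun _ => Bool) false (fun y _ => (@Bool.rec (fun _ => Bool) (@Nat.rec (fun _ => Bool) false
    (fun z _ => (@Bool.rec (fun _ => Bool) (@Nat.rec (fun _ => Bool) false (fun i _ => (@Nat.rec (fun _ =>
    Bool) false (fun m _ => (@Bool.rec (fun _ => Bool) false (@Bool.rec (fun _ => Bool) false (pcF n p
    (PL.getD i (0, 0)).1 (PL.getD i (0, 0)).2 m) (Nat.ble n 26)) (Nat.ble (Nat.succ i) PL.length)))
    (Nat.succ (Nat.div z 64)))) (Nat.succ (Nat.mod z 64))) (emp (stB D tf PL n p z)) (Nat.beq (Nat.mod y 2)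
    0))) (Nat.succ (Nat.div y 2))) (lw n p (pkl y)) (Nat.beq (Nat.mod t 4) 3))) (Nat.succ (Nat.div t 4)))

/-- the tests with the old functions -/
def tE0 (D n p : ℕ) (L : List ℕ) : Bool := iss (evbB 84 0 tK tI D 12 6 n p L)

/-- the tests with the old functions -/
def tW0 (D n p : ℕ) (L : List ℕ) : Bool := iss (evlB 84 0 tK tI D 12 6 n p L)

/-- the tests with the old functions -/
def lW0 (D n p : ℕ) (L : List ℕ) : Bool := isn (evlB 84 0 tK tI D 12 6 n p L)

/-- the tests are correct -/
structure Tok (D : ℕ) (tE tW : ℕ → ℕ → List ℕ → Bool) (lw : ℕ → ℕ → List ℕ → Bool) : Prop where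
  e : ∀ n p L, wfp (n, p) = true → tE n p L = true → iss (evbB 84 0 tK tI D 12 6 n p L) = true
  w : ∀ n p L, wfp (n, p) = true → tW n p L = true → iss (evlB 84 0 tK tI D 12 6 n p L) = true
  l : ∀ {V : Type} [Fintype V] [DecidableEq V] (G : SimpleGraph V) [DecidableRel G.Adj] (U : Finset V)
    (n p : ℕ) (φ ν : ℕ → V) (L : List ℕ), Emb G U n p φ ν → lw n p L = true →
      evlB 84 0 tK tI D 12 6 n p L = some []

theorem tok0 (D : ℕ) : Tok D (tE0 D) (tW0 D) (lW0 D) := by
  refine ⟨fun _ _ _ _ h => h, fun _ _ _ _ h => h, ?_⟩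
  intro V _ _ G _ U n p φ ν L _ h
  exact isn_iff h

theorem flt_some {ok : ℕ → ℕ → Bool} {st : Stp} {n p x : ℕ} {L : List (ℕ × ℕ)} (h : st n p x = some L) :
    flt ok st n p x = some (L.filter fun q => ok q.1 q.2) := by
  unfold flt
  rw [h]

/-- **the fast step** -/
theorem sfn_stB {D : ℕ} {tf : Bool} {PL : List (ℕ × ℕ)} {tE tW lw : ℕ → ℕ → List ℕ → Bool}
    (hPL : (PL.all fun q => Nat.ble q.1 256) = true) (ht : Tok D tE tW lw) :
    Sfn (okB D tf) (stB D tf PL) (sfB D tE tW) (lfB D tf PL lw) (dlB D tf) := by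
  refine ⟨fun n p x L hw h => ?_, fun n p t h => ?_, fun n p k h => dlB_ok h⟩
  · have key : raw D PL n p x = some L → ∃ x' L', stB D tf PL n p x' = some L' ∧
        ∀ q ∈ L', q ∈ L ∧ okB D tf q.1 q.2 = true := fun h1 => by
      refine ⟨x, _, flt_some h1, fun q hq => ?_⟩
      exact List.mem_filter.1 hq
    apply key
    unfold wfp at hw
    rw [Bool.and_eq_true] at hw
    have hlt : p < 256 ^ (3 * n) := Nat.le_of_ble_eq_true hw.1
    have hw2 : wfp (n, p) = true := by
      unfold wfp
      rw [Bool.and_eq_true]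
      exact hw
    have e : sfB D tE tW n p x = @Bool.rec (fun _ => Option (List (ℕ × ℕ)))
      (@Bool.rec (fun _ => Option (List (ℕ × ℕ))) (@Bool.rec (fun _ => Option (List (ℕ × ℕ))) none
        (@Bool.rec (fun _ => Option (List (ℕ × ℕ))) none (some (kinF n p (kmF p (pkl (Nat.div x 4)) 0)
          (imF p (pkl (Nat.div x 4)) 0) [] n)) (tW n p (pkl (Nat.div x 4)))) (Nat.beq (Nat.mod x 4) 2))
        (@Bool.rec (fun _ => Option (List (ℕ × ℕ))) none (@Bool.rec (fun _ => Option (List (ℕ × ℕ))) none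
          (some (evF D (pkl (Nat.div x 4)) n p)) (Nat.ble (Nat.succ (kmF p (pkl (Nat.div x 4)) 0)) (Nat.pow
            2 n)))
          (tE n p (pkl (Nat.div x 4)))) (Nat.beq (Nat.mod x 4) 1))
      (braF (Nat.ble 1 D) n p (Nat.div x 4)) (Nat.beq (Nat.mod x 4) 0) := rfl
    rw [e] at h
    simp only [ifc] at h
    unfold raw
    rw [frc_eq, frc_eq]
    cases r0 : Nat.beq (Nat.mod x 4) 0
    swap
    · rw [r0, cond_true, braF_eq] at h
      exact h
    rw [r0, cond_false] at h
    rw [cond_false]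
    cases r1 : Nat.beq (Nat.mod x 4) 1
    swap
    · rw [r1, cond_true] at h
      rw [cond_true]
      cases h1 : tE n p (pkl (Nat.div x 4))
      · rw [h1] at h
        exact absurd h (by simp)
      rw [h1, cond_true] at h
      cases h2 : Nat.ble (Nat.succ (kmF p (pkl (Nat.div x 4)) 0)) (Nat.pow 2 n)
      · rw [h2] at h
        exact absurd h (by simp)
      rw [h2, cond_true, Option.some.injEq] at h
      have h3 : kmF p (pkl (Nat.div x 4)) 0 < 2 ^ n := Nat.le_of_ble_eq_true h2
      rw [kmF_eq] at h3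
      have h4 := ht.e n p _ hw2 h1
      have h5 : Nat.ble (Nat.add n 5) 40 = true ∧ pks n p (pkl (Nat.div x 4)) 0 = true ∧
          evbB 84 0 tK tI D 12 6 n p (pkl (Nat.div x 4)) = some (kin n p (kms p (pkl (Nat.div x 4)) 0)
            (ims p (pkl (Nat.div x 4)) 0) n ++ (evc D (pkl (Nat.div x 4)) n p (kms p (pkl (Nat.div x 4)) 0)
              n ++
              cml D (pkl (Nat.div x 4)) n 3 (n + 1) p 200)) := by
        unfold evbB at h4 ⊢
        rw [frc_eq, frc_eq, frc_eq] at h4 ⊢
        revert h4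
        generalize Nat.ble (Nat.add (Nat.add (Nat.add (Nat.mul 84 (pkl (Nat.div x 4)).length) _) _) _) _ = bb
        cases Nat.ble (Nat.add n 5) 40
        · intro h4; exact absurd h4 (by intro hc; exact Bool.noConfusion hc)
        cases pks n p (pkl (Nat.div x 4)) 0
        · intro h4; exact absurd h4 (by intro hc; exact Bool.noConfusion hc)
        cases bb
        · intro h4; exact absurd h4 (by intro hc; exact Bool.noConfusion hc)
        intro _
        exact ⟨rfl, rfl, rfl⟩
      obtain ⟨h6, h7, h8⟩ := h5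
      rw [h8, ← h, evF_eq (Nat.le_of_ble_eq_true h6) (fun x hx => (pks_of h7 x hx).2) h3 hlt]
    rw [r1, cond_false] at h
    rw [cond_false]
    cases r2 : Nat.beq (Nat.mod x 4) 2
    · rw [r2] at h
      exact absurd h (by simp)
    rw [r2, cond_true] at h
    rw [cond_true]
    cases h1 : tW n p (pkl (Nat.div x 4))
    · rw [h1] at h
      exact absurd h (by simp)
    rw [h1, cond_true, Option.some.injEq] at h
    have h4 := ht.w n p _ hw2 h1
    have h5 : Nat.ble (Nat.succ n) 40 = true ∧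
        evlB 84 0 tK tI D 12 6 n p (pkl (Nat.div x 4)) = some (kin n p (kms p (pkl (Nat.div x 4)) 0)
          (ims p (pkl (Nat.div x 4)) 0) n) := by
      unfold evlB at h4 ⊢
      rw [frc_eq, frc_eq, frc_eq, frc_eq] at h4 ⊢
      revert h4
      generalize Nat.ble (Nat.add (Nat.add (Nat.add (Nat.mul 84 (pkl (Nat.div x 4)).length) _) _) _) _ = bb
      cases Nat.ble (Nat.succ n) 40
      · intro h4; exact absurd h4 (by intro hc; exact Bool.noConfusion hc)
      cases pks n p (pkl (Nat.div x 4)) 0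
      · intro h4; exact absurd h4 (by intro hc; exact Bool.noConfusion hc)
      cases bb
      · intro h4; exact absurd h4 (by intro hc; exact Bool.noConfusion hc)
      intro _
      exact ⟨rfl, rfl⟩
    obtain ⟨h6, h8⟩ := h5
    have h9 : n + 1 ≤ 40 := Nat.le_of_ble_eq_true h6
    rw [h8, ← h, kmF_eq, imF_eq, kinF_eq (by omega) n le_rfl, List.append_nil]
  · intro V _ _ G _ U Q hst
    have e : lfB D tf PL lw n p t = @Bool.rec (fun _ => Bool) (@Bool.rec (fun _ => Bool)
      (@Bool.rec (fun _ => Bool) false (@Bool.rec (fun _ => Bool) false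
        (pcF n p (PL.getD (Nat.mod (Nat.div (Nat.div t 4) 2) 64) (0, 0)).1
        (PL.getD (Nat.mod (Nat.div (Nat.div t 4) 2) 64) (0, 0)).2 (Nat.div (Nat.div (Nat.div t 4) 2) 64))
        (Nat.ble n 26)) (Nat.ble (Nat.succ (Nat.mod (Nat.div (Nat.div t 4) 2) 64)) PL.length))
      (emp (stB D tf PL n p (Nat.div (Nat.div t 4) 2))) (Nat.beq (Nat.mod (Nat.div t 4) 2) 0))
      (lw n p (pkl (Nat.div t 4))) (Nat.beq (Nat.mod t 4) 3) := rfl
    rw [e] at h
    simp only [ifc] at h
    obtain ⟨y, hy⟩ : ∃ y, y = Nat.div t 4 := ⟨_, rfl⟩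
    rw [← hy] at h
    cases h1 : Nat.beq (Nat.mod t 4) 3
    · rw [h1, cond_false] at h
      cases h2 : Nat.beq (Nat.mod y 2) 0
      · rw [h2, cond_false] at h
        obtain ⟨i, hi⟩ : ∃ i, i = Nat.mod (Nat.div y 2) 64 := ⟨_, rfl⟩
        rw [← hi] at h
        cases h3 : Nat.ble (Nat.succ i) PL.length
        · rw [h3] at h
          exact absurd h (by simp)
        rw [h3, cond_true] at h
        have hlt : i < PL.length := Nat.le_of_ble_eq_true h3
        have hq : PL.getD i (0, 0) ∈ PL := by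
          rw [List.getD_eq_getElem _ _ hlt]
          exact List.getElem_mem hlt
        have h4 : (PL.getD i (0, 0)).1 ≤ 256 := Nat.le_of_ble_eq_true (List.all_eq_true.1 hPL _ hq)
        have hi64 : i < 64 := by rw [hi]; exact Nat.mod_lt _ (by norm_num)
        cases h26 : Nat.ble n 26
        · rw [h26] at h
          exact absurd h (by simp)
        rw [h26, cond_true] at h
        have hn26 : n ≤ 26 := Nat.le_of_ble_eq_true h26
        obtain ⟨m, hm⟩ : ∃ m, m = Nat.div (Nat.div y 2) 64 := ⟨_, rfl⟩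
        rw [← hm] at h
        obtain ⟨w, hw1, hw⟩ := pcF_ok h4 h
        have hw26 : w < 256 ^ 26 := hw1.trans_le (Nat.pow_le_pow_right (by norm_num) hn26)
        -- the token of the old step
        have h6 : raw D PL n p (4 * (i + 64 * (w + 256 ^ 26 * m)) + 3) = some [] := by
          unfold raw
          rw [frc_eq, frc_eq]
          have e1 : Nat.mod (4 * (i + 64 * (w + 256 ^ 26 * m)) + 3) 4 = 3 := by
            change (4 * (i + 64 * (w + 256 ^ 26 * m)) + 3) % 4 = 3
            omega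
          have e2 : Nat.div (4 * (i + 64 * (w + 256 ^ 26 * m)) + 3) 4 = i + 64 * (w + 256 ^ 26 * m) := by
            change (4 * (i + 64 * (w + 256 ^ 26 * m)) + 3) / 4 = _
            omega
          rw [e1, e2]
          change pst PL n p (i + 64 * (w + 256 ^ 26 * m)) = some []
          unfold pst
          rw [frc_eq, frc_eq]
          have e3 : Nat.mod (i + 64 * (w + 256 ^ 26 * m)) 64 = i := by
            change (i + 64 * (w + 256 ^ 26 * m)) % 64 = i
            omega
          have e4 : Nat.div (i + 64 * (w + 256 ^ 26 * m)) 64 = w + 256 ^ 26 * m := by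
            change (i + 64 * (w + 256 ^ 26 * m)) / 64 = _
            omega
          have e5 : Nat.mod (w + 256 ^ 26 * m) (256 ^ 26) = w := by
            change (w + 256 ^ 26 * m) % 256 ^ 26 = w
            rw [Nat.add_mul_mod_self_left]
            exact Nat.mod_eq_of_lt hw26
          have e6 : Nat.div (w + 256 ^ 26 * m) (256 ^ 26) = m := by
            change (w + 256 ^ 26 * m) / 256 ^ 26 = m
            rw [Nat.add_mul_div_left _ _ (by positivity), Nat.div_eq_of_lt hw26, zero_add]
          rw [e3, e4, e5, e6, h3]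
          have h7 : pcok n p (PL.getD i (0, 0)) w m = true := hw
          rw [h7]
          rfl
        exact hst n p _ [] (flt_some h6) fun q hq => absurd hq List.not_mem_nil
      · rw [h2, cond_true] at h
        exact hst n p _ [] (emp_of h) fun q hq => absurd hq List.not_mem_nil
    · rw [h1, cond_true] at h
      intro φ ν he
      have h2 := ht.l G U n p φ ν _ he h
      have h3 : raw D PL n p (4 * y + 2) = some [] := by
        unfold raw
        rw [frc_eq, frc_eq]
        have e1 : Nat.mod (4 * y + 2) 4 = 2 := by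
          change (4 * y + 2) % 4 = 2
          omega
        have e2 : Nat.div (4 * y + 2) 4 = y := by
          change (4 * y + 2) / 4 = y
          omega
        rw [e1, e2]
        exact h2
      exact hst n p _ [] (flt_some h3) (fun q hq => absurd hq List.not_mem_nil) φ ν he

end EF18
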