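import Pool.Agent.Lib.MP_ef18bd_co.P.PhV
import Pool.Agent.Lib.MP_ef18bd_co.P.RawB

/-!
# The fast checker for the step `stV`

`sfV`: the unfiltered children with the fast lists; the tests `tE`, `tW` (the events are possible) and `lw` (a
leaf) are parameters with the properties `TokV`; `tokV0`: the tests with the old functions.
-/

namespace EF18

open Finset

/-- the old step with all completions -/
def oE (bo : Bool) (CL : List CPc) (Ts : List (List ℕ)) (D : ℕ) (tf : Bool) (ML : List MPc) (n p y : ℕ) :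
    Option (List (ℕ × ℕ)) :=
  lfx (fun e x L XM z => evbV tf e x 84 (tKx bo) (tIx bo) D 12 (bnx bo) 6 n p L
      (fun M _ => crd CL n p M 6 z 0) (fun M IN => ctf (Ts.getD (Nat.pred L.length) []) (outx n p M IN XM))
      (ovm (okB D tf) (Nat.ble 1 D) ML L XM n p n)) y

/-- the old step with the worst case -/
def oW (bo : Bool) (CL : List CPc) (Ts : List (List ℕ)) (D : ℕ) (tf : Bool) (ML : List MPc) (n p y : ℕ) :
    Option (List (ℕ × ℕ)) :=
  lfx (fun e x L XM z => evlV tf e x 84 (tKx bo) (tIx bo) D 12 (bnx bo) 6 n p L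
      (fun M _ => crd CL n p M 6 z 0) (fun M IN => ctf (Ts.getD (Nat.pred L.length) []) (outx n p M IN XM))
      (ovm (okB D tf) (Nat.ble 1 D) ML L XM n p n)) y

/-- the tests are correct -/
structure TokV (bo : Bool) (CL : List CPc) (Ts : List (List ℕ)) (D : ℕ) (tf : Bool) (ML : List MPc)
    (tE tW lw : ℕ → ℕ → ℕ → Bool) : Prop where
  e : ∀ n p y, wfp (n, p) = true → tE n p y = true → iss (oE bo CL Ts D tf ML n p y) = true
  w : ∀ n p y, wfp (n, p) = true → tW n p y = true → iss (oW bo CL Ts D tf ML n p y) = true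
  l : ∀ {V : Type} [Fintype V] [DecidableEq V] (G : SimpleGraph V) [DecidableRel G.Adj] (U : Finset V)
    (n p : ℕ) (φ ν : ℕ → V) (y : ℕ), Emb G U n p φ ν → lw n p y = true →
      oW bo CL Ts D tf ML n p y = some []

theorem tokV0 (bo : Bool) (CL : List CPc) (Ts : List (List ℕ)) (D : ℕ) (tf : Bool) (ML : List MPc) :
    TokV bo CL Ts D tf ML (fun n p y => iss (oE bo CL Ts D tf ML n p y))
      (fun n p y => iss (oW bo CL Ts D tf ML n p y)) (fun n p y => isn (oW bo CL Ts D tf ML n p y)) := by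
  refine ⟨fun _ _ _ _ h => h, fun _ _ _ _ h => h, ?_⟩
  intro V _ _ G _ U n p φ ν y _ h
  exact isn_iff h

/-- the children of the killed nodes in front -/
def ovF (D : ℕ) (tf : Bool) (ML : List MPc) (n p : ℕ) (L : List ℕ) (XM : ℕ) (R : List (ℕ × ℕ)) : List (ℕ × ℕ) :=
  @Bool.rec (fun _ => List (ℕ × ℕ)) (ovm (okB D tf) (Nat.ble 1 D) ML L XM n p n ++ R) R (Nat.beq XM 0)

/-- the children for the triangles in front -/
def tpF (e : Bool) (n p M : ℕ) (R : List (ℕ × ℕ)) : List (ℕ × ℕ) :=
  @Bool.rec (fun _ => List (ℕ × ℕ)) R (tpl true n p M n ++ R) e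

/-- the children, all completions -/
def chE (D : ℕ) (tf : Bool) (ML : List MPc) (n p y : ℕ) : List (ℕ × ℕ) :=
  (@Nat.rec (fun _ => List (ℕ × ℕ)) [] (fun z _ => (@Nat.rec (fun _ => List (ℕ × ℕ)) [] (fun XM _ =>
    (@Nat.rec (fun _ => List (ℕ × ℕ)) [] (fun M _ => (@Nat.rec (fun _ => List (ℕ × ℕ)) [] (fun IN _ =>
    ovF D tf ML n p (pkz (Nat.mod y 8) z) XM (kinF n p M IN (tpF (tb y 3) n p M
      (evcF D (pkz (Nat.mod y 8) z) IN n p M M (cmlF D (pkz (Nat.mod y 8) z) IN n 3 M M (Nat.succ n) p 200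
      []) n)) n)) (Nat.succ (imF p (pkz (Nat.mod y 8) z) 0))))
    (Nat.succ (kmF p (pkz (Nat.mod y 8) z) 0)))) (Nat.succ (Nat.mod (Nat.div z (2 ^ 42)) (2 ^ 40)))))
    (Nat.succ (Nat.div y 64)))

/-- the children, worst case -/
def chW (D : ℕ) (tf : Bool) (ML : List MPc) (n p y : ℕ) : List (ℕ × ℕ) :=
  (@Nat.rec (fun _ => List (ℕ × ℕ)) [] (fun z _ => (@Nat.rec (fun _ => List (ℕ × ℕ)) [] (fun XM _ =>
    (@Nat.rec (fun _ => List (ℕ × ℕ)) [] (fun M _ =>
    ovF D tf ML n p (pkz (Nat.mod y 8) z) XM (kinF n p M (imF p (pkz (Nat.mod y 8) z) 0)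
      (tpF (tb y 3) n p M []) n))
    (Nat.succ (kmF p (pkz (Nat.mod y 8) z) 0)))) (Nat.succ (Nat.mod (Nat.div z (2 ^ 42)) (2 ^ 40)))))
    (Nat.succ (Nat.div y 64)))

/-- the step -/
def sfV (D : ℕ) (tf : Bool) (ML : List MPc) (tE tW : ℕ → ℕ → ℕ → Bool) (n p x : ℕ) :
    Option (List (ℕ × ℕ)) :=
  (@Nat.rec (fun _ => Option (List (ℕ × ℕ))) none (fun r _ => (@Nat.rec (fun _ => Option (List (ℕ × ℕ)))
    none (fun y _ => (@Bool.rec (fun _ => Option (List (ℕ × ℕ))) (@Bool.rec (fun _ => Option (List (ℕ ×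
    ℕ))) (@Bool.rec (fun _ => Option (List (ℕ × ℕ))) none (@Bool.rec (fun _ => Option (List (ℕ × ℕ))) none
    (some (chW D tf ML n p y)) (tW n p y)) (Nat.beq r 2)) (@Bool.rec
    (fun _ => Option (List (ℕ × ℕ))) none (@Bool.rec (fun _ => Option (List (ℕ × ℕ))) none (some (chE D tf
    ML n p y)) (Nat.ble (Nat.succ (kmF p (pkz (Nat.mod y 8) (Nat.div y 64)) 0)) (Nat.pow 2 n)))
    (tE n p y)) (Nat.beq r 1))
    (braF (Nat.ble 1 D) n p y) (Nat.beq r 0))) (Nat.succ (Nat.div x 4)))) (Nat.succ (Nat.mod x 4)))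

/-- the leaves: `t % 4 = 3`: fast; `2`: the old step, a piece or (index `62`) the whole graph -/
def lfV (bo : Bool) (CL : List CPc) (Ts : List (List ℕ)) (D : ℕ) (tf : Bool) (ML : List MPc)
    (PL : List (ℕ × ℕ)) (lw : ℕ → ℕ → ℕ → Bool) (n p t : ℕ) : Bool :=
  (@Nat.rec (fun _ => Bool) false (fun y _ => (@Bool.rec (fun _ => Bool) (@Nat.rec (fun _ => Bool) false
    (fun z _ => (@Bool.rec (fun _ => Bool) (@Nat.rec (fun _ => Bool) false (fun i _ => (@Bool.rec (fun _ =>
    Bool) (@Nat.rec (fun _ =>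
    Bool) false (fun m _ => (@Bool.rec (fun _ => Bool) false (@Bool.rec (fun _ => Bool) false (pcF n p
    (PL.getD i (0, 0)).1 (PL.getD i (0, 0)).2 m) (Nat.ble n 26)) (Nat.ble (Nat.succ i) PL.length)))
    (Nat.succ (Nat.div z 64))) (unv n p) (Nat.beq i 62))) (Nat.succ (Nat.mod z 64)))
    (emp (stV bo CL Ts tf ML PL D n p z)) (Nat.beq (Nat.mod y 2)
    0))) (Nat.succ (Nat.div y 2))) (lw n p y) (Nat.beq (Nat.mod t 4) 3))) (Nat.succ (Nat.div t 4)))

theorem tpl_false (n p M : ℕ) : ∀ m, tpl false n p M m = [] := by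
  intro m
  induction m with
  | zero => rfl
  | succ m ih =>
    rw [tpl]
    exact ih

theorem tpF_eq (e : Bool) (n p M : ℕ) (R : List (ℕ × ℕ)) : tpF e n p M R = tpl e n p M n ++ R := by
  cases e
  · rw [tpl_false]
    rfl
  · rfl

theorem ovm_zero (ok : ℕ → ℕ → Bool) (d : Bool) (ML : List MPc) (L : List ℕ) (n p : ℕ) : ∀ m,
    ovm ok d ML L 0 n p m = [] := by
  intro m
  induction m with
  | zero => rfl
  | succ m ih =>
    rw [ovm, tb_eq, Nat.zero_testBit, cond_false]
    exact ih

theorem ovF_eq (D : ℕ) (tf : Bool) (ML : List MPc) (n p : ℕ) (L : List ℕ) (XM : ℕ) (R : List (ℕ × ℕ)) :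
    ovF D tf ML n p L XM R = ovm (okB D tf) (Nat.ble 1 D) ML L XM n p n ++ R := by
  unfold ovF
  rw [ifc]
  cases h : Nat.beq XM 0
  · rfl
  · rw [Nat.eq_of_beq_eq_true h, ovm_zero]
    rfl

/-- the parts of the token -/
theorem lfx_some {f : Bool → Bool → List ℕ → ℕ → ℕ → Option (List (ℕ × ℕ))} {y : ℕ}
    (h : iss (lfx f y) = true) : Nat.beq (Nat.mod y 8) 0 = false ∧ lfx f y =
      f (tb y 3) (tb y 4) (pkz (Nat.mod y 8) (Nat.div y 64)) (Nat.mod (Nat.div (Nat.div y 64) (2 ^ 42)) (2 ^ 40))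
        (Nat.div (Nat.div (Nat.div y 64) (2 ^ 42)) (2 ^ 40)) := by
  unfold lfx at h ⊢
  rw [frc_eq, frc_eq, frc_eq] at h ⊢
  cases hc : Nat.beq (Nat.mod y 8) 0
  · exact ⟨rfl, rfl⟩
  · rw [hc] at h
    exact absurd h (by intro hc; exact Bool.noConfusion hc)

theorem evbV_some {tf e x : Bool} {P T TI D dl b c n p : ℕ} {L : List ℕ} {cr ct : ℕ → ℕ → ℕ}
    {xs : List (ℕ × ℕ)} (h : iss (evbV tf e x P T TI D dl b c n p L cr ct xs) = true) :
    Nat.ble (Nat.add n 5) 40 = true ∧ pks n p L 0 = true ∧ evbV tf e x P T TI D dl b c n p L cr ct xs =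
      some (xs ++ (kin n p (kms p L 0) (ims p L 0) n ++ (tpl e n p (kms p L 0) n ++
        (evc D L n p (kms p L 0) n ++ cml D L n 3 (n + 1) p 200)))) := by
  unfold evbV at h ⊢
  cases hc : tf && !e
  · rw [hc, cond_false] at h
    rw [cond_false]
    unfold evbX at h ⊢
    rw [frc_eq, frc_eq, frc_eq] at h ⊢
    revert h
    generalize Nat.ble (Nat.add (Nat.add (Nat.add (Nat.mul P L.length) _) _) _) _ = bb
    cases Nat.ble (Nat.add n 5) 40
    · intro h; exact absurd h (by intro hc; exact Bool.noConfusion hc)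
    cases pks n p L 0
    · intro h; exact absurd h (by intro hc; exact Bool.noConfusion hc)
    cases bb
    · intro h; exact absurd h (by intro hc; exact Bool.noConfusion hc)
    intro _
    exact ⟨rfl, rfl, rfl⟩
  · rw [hc, cond_true] at h
    rw [cond_true]
    have he : e = false := by
      rw [Bool.and_eq_true, Bool.not_eq_true'] at hc
      exact hc.2
    rw [he, tpl_false, List.nil_append]
    unfold evbY at h ⊢
    rw [frc_eq, frc_eq, frc_eq] at h ⊢
    revert h
    generalize Nat.ble (Nat.add (Nat.add (Nat.add (Nat.mul P L.length) _) _) _) _ = bb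
    cases Nat.ble (Nat.add n 5) 40
    · intro h; exact absurd h (by intro hc; exact Bool.noConfusion hc)
    cases pks n p L 0
    · intro h; exact absurd h (by intro hc; exact Bool.noConfusion hc)
    cases bb
    · intro h; exact absurd h (by intro hc; exact Bool.noConfusion hc)
    intro _
    exact ⟨rfl, rfl, rfl⟩

theorem evlV_some {tf e x : Bool} {P T TI D dl b c n p : ℕ} {L : List ℕ} {cr ct : ℕ → ℕ → ℕ}
    {xs : List (ℕ × ℕ)} (h : iss (evlV tf e x P T TI D dl b c n p L cr ct xs) = true) :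
    Nat.ble (Nat.succ n) 40 = true ∧ evlV tf e x P T TI D dl b c n p L cr ct xs =
      some (xs ++ (kin n p (kms p L 0) (ims p L 0) n ++ tpl e n p (kms p L 0) n)) := by
  unfold evlV at h ⊢
  cases hc : tf && !e
  · rw [hc, cond_false] at h
    rw [cond_false]
    unfold evlX at h ⊢
    rw [frc_eq, frc_eq, frc_eq, frc_eq] at h ⊢
    revert h
    generalize Nat.ble (Nat.add (Nat.add (Nat.add (Nat.mul P L.length) _) _) _) _ = bb
    cases Nat.ble (Nat.succ n) 40
    · intro h; exact absurd h (by intro hc; exact Bool.noConfusion hc)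
    cases pks n p L 0
    · intro h; exact absurd h (by intro hc; exact Bool.noConfusion hc)
    cases bb
    · intro h; exact absurd h (by intro hc; exact Bool.noConfusion hc)
    intro _
    exact ⟨rfl, rfl⟩
  · rw [hc, cond_true] at h
    rw [cond_true]
    have he : e = false := by
      rw [Bool.and_eq_true, Bool.not_eq_true'] at hc
      exact hc.2
    rw [he, tpl_false, List.append_nil]
    unfold evlY at h ⊢
    rw [frc_eq, frc_eq, frc_eq, frc_eq] at h ⊢
    revert h
    generalize Nat.ble (Nat.add (Nat.add (Nat.add (Nat.mul P L.length) _) _) _) _ = bb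
    cases Nat.ble (Nat.succ n) 40
    · intro h; exact absurd h (by intro hc; exact Bool.noConfusion hc)
    cases pks n p L 0
    · intro h; exact absurd h (by intro hc; exact Bool.noConfusion hc)
    cases bb
    · intro h; exact absurd h (by intro hc; exact Bool.noConfusion hc)
    intro _
    exact ⟨rfl, rfl⟩

/-- **the fast step** -/
theorem sfn_stV {bo : Bool} {CL : List CPc} {Ts : List (List ℕ)} {D : ℕ} {tf : Bool} {ML : List MPc}
    {PL : List (ℕ × ℕ)} {tE tW lw : ℕ → ℕ → ℕ → Bool}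
    (hPL : (PL.all fun q => Nat.ble q.1 256) = true) (ht : TokV bo CL Ts D tf ML tE tW lw) :
    Sfn (okB D tf) (stV bo CL Ts tf ML PL D) (sfV D tf ML tE tW) (lfV bo CL Ts D tf ML PL lw)
      (dlB D tf) := by
  refine ⟨fun n p x L hw h => ?_, fun n p t h => ?_, fun n p k h => dlB_ok h⟩
  · have key : rawV bo CL Ts D tf ML PL n p x = some L → ∃ x' L', stV bo CL Ts tf ML PL D n p x' = some L' ∧
        ∀ q ∈ L', q ∈ L ∧ okB D tf q.1 q.2 = true := fun h1 => by
      refine ⟨x, _, flt_some h1, fun q hq => ?_⟩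
      exact List.mem_filter.1 hq
    apply key
    have hlt : p < 256 ^ (3 * n) := by
      unfold wfp at hw
      rw [Bool.and_eq_true] at hw
      exact Nat.le_of_ble_eq_true hw.1
    have e : sfV D tf ML tE tW n p x = @Bool.rec (fun _ => Option (List (ℕ × ℕ)))
      (@Bool.rec (fun _ => Option (List (ℕ × ℕ))) (@Bool.rec (fun _ => Option (List (ℕ × ℕ))) none
        (@Bool.rec (fun _ => Option (List (ℕ × ℕ))) none (some (chW D tf ML n p (Nat.div x 4)))
          (tW n p (Nat.div x 4))) (Nat.beq (Nat.mod x 4) 2))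
        (@Bool.rec (fun _ => Option (List (ℕ × ℕ))) none (@Bool.rec (fun _ => Option (List (ℕ × ℕ))) none
          (some (chE D tf ML n p (Nat.div x 4))) (Nat.ble (Nat.succ (kmF p (pkz (Nat.mod (Nat.div x 4) 8)
            (Nat.div (Nat.div x 4) 64)) 0)) (Nat.pow 2 n)))
          (tE n p (Nat.div x 4))) (Nat.beq (Nat.mod x 4) 1))
      (braF (Nat.ble 1 D) n p (Nat.div x 4)) (Nat.beq (Nat.mod x 4) 0) := rfl
    rw [e] at h
    simp only [ifc] at h
    unfold rawV
    rw [frc_eq, frc_eq]
    cases r0 : Nat.beq (Nat.mod x 4) 0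
    swap
    · rw [r0, cond_true, braF_eq] at h
      exact h
    rw [r0, cond_false] at h
    rw [cond_false]
    obtain ⟨y, hy⟩ : ∃ y, y = Nat.div x 4 := ⟨_, rfl⟩
    rw [← hy] at h ⊢
    cases r1 : Nat.beq (Nat.mod x 4) 1
    swap
    · rw [r1, cond_true] at h
      rw [cond_true]
      cases h1 : tE n p y
      · rw [h1] at h
        exact absurd h (by simp)
      rw [h1, cond_true] at h
      cases h2 : Nat.ble (Nat.succ (kmF p (pkz (Nat.mod y 8) (Nat.div y 64)) 0)) (Nat.pow 2 n)
      · rw [h2] at h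
        exact absurd h (by simp)
      rw [h2, cond_true, Option.some.injEq] at h
      have h3 : kmF p (pkz (Nat.mod y 8) (Nat.div y 64)) 0 < 2 ^ n := Nat.le_of_ble_eq_true h2
      rw [kmF_eq] at h3
      have h4 := ht.e n p y hw h1
      obtain ⟨-, h5⟩ := lfx_some h4
      have h6 : iss (oE bo CL Ts D tf ML n p y) = true := h4
      change oE bo CL Ts D tf ML n p y = some L
      change oE bo CL Ts D tf ML n p y = _ at h5
      rw [h5] at h6 ⊢
      rw [← h]
      unfold chE
      change _ = some (ovF D tf ML n p (pkz (Nat.mod y 8) (Nat.div y 64)) (Nat.mod (Nat.div (Nat.div y 64)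
        (2 ^ 42)) (2 ^ 40)) (kinF n p (kmF p (pkz (Nat.mod y 8) (Nat.div y 64)) 0)
          (imF p (pkz (Nat.mod y 8) (Nat.div y 64)) 0) (tpF (tb y 3) n p
          (kmF p (pkz (Nat.mod y 8) (Nat.div y 64)) 0)
          (evcF D (pkz (Nat.mod y 8) (Nat.div y 64)) (imF p (pkz (Nat.mod y 8) (Nat.div y 64)) 0) n p
            (kmF p (pkz (Nat.mod y 8) (Nat.div y 64)) 0) (kmF p (pkz (Nat.mod y 8) (Nat.div y 64)) 0)
            (cmlF D (pkz (Nat.mod y 8) (Nat.div y 64)) (imF p (pkz (Nat.mod y 8) (Nat.div y 64)) 0) n 3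
              (kmF p (pkz (Nat.mod y 8) (Nat.div y 64)) 0) (kmF p (pkz (Nat.mod y 8) (Nat.div y 64)) 0)
              (Nat.succ n) p 200 []) n)) n))
      generalize pkz (Nat.mod y 8) (Nat.div y 64) = K at h3 h6 ⊢
      generalize Nat.mod (Nat.div (Nat.div y 64) (2 ^ 42)) (2 ^ 40) = XM at h6 ⊢
      generalize Nat.div (Nat.div (Nat.div y 64) (2 ^ 42)) (2 ^ 40) = z at h6 ⊢
      generalize tb y 3 = e at h6 ⊢
      generalize tb y 4 = x' at h6 ⊢
      obtain ⟨h8, h9, h7⟩ := evbV_some h6
      have h10 := evF_eq (D := D) (Nat.le_of_ble_eq_true h8) (fun x hx => (pks_of h9 x hx).2) h3 hlt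
      have h40 : n ≤ 40 := by
        have := Nat.le_of_ble_eq_true h8
        change n + 5 ≤ 40 at this
        omega
      have h11 : evcF D K (imF p K 0) n p (kmF p K 0) (kmF p K 0) (cmlF D K (imF p K 0) n 3 (kmF p K 0)
          (kmF p K 0) (Nat.succ n) p 200 []) n =
          evc D K n p (kms p K 0) n ++ cml D K n 3 (n + 1) p 200 := by
        have h12 : kin n p (kmF p K 0) (imF p K 0) n ++ evcF D K (imF p K 0) n p (kmF p K 0) (kmF p K 0)
            (cmlF D K (imF p K 0) n 3 (kmF p K 0) (kmF p K 0) (Nat.succ n) p 200 []) n =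
            kin n p (kms p K 0) (ims p K 0) n ++ (evc D K n p (kms p K 0) n ++
              cml D K n 3 (n + 1) p 200) := by
          rw [← h10, ← kinF_eq h40 n le_rfl]
          rfl
        rw [kmF_eq, imF_eq] at h12
        rw [kmF_eq, imF_eq]
        exact List.append_cancel_left h12
      rw [h7, h11, tpF_eq, kinF_eq h40 n le_rfl, ovF_eq, kmF_eq, imF_eq]
    rw [r1, cond_false] at h
    rw [cond_false]
    cases r2 : Nat.beq (Nat.mod x 4) 2
    · rw [r2] at h
      exact absurd h (by simp)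
    rw [r2, cond_true] at h
    rw [cond_true]
    cases h1 : tW n p y
    · rw [h1] at h
      exact absurd h (by simp)
    rw [h1, cond_true, Option.some.injEq] at h
    have h4 := ht.w n p y hw h1
    obtain ⟨-, h5⟩ := lfx_some h4
    have h6 : iss (oW bo CL Ts D tf ML n p y) = true := h4
    change oW bo CL Ts D tf ML n p y = some L
    change oW bo CL Ts D tf ML n p y = _ at h5
    rw [h5] at h6 ⊢
    rw [← h]
    unfold chW
    change _ = some (ovF D tf ML n p (pkz (Nat.mod y 8) (Nat.div y 64)) (Nat.mod (Nat.div (Nat.div y 64)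
        (2 ^ 42)) (2 ^ 40)) (kinF n p (kmF p (pkz (Nat.mod y 8) (Nat.div y 64)) 0)
          (imF p (pkz (Nat.mod y 8) (Nat.div y 64)) 0) (tpF (tb y 3) n p
          (kmF p (pkz (Nat.mod y 8) (Nat.div y 64)) 0) []) n))
    generalize pkz (Nat.mod y 8) (Nat.div y 64) = K at h6 ⊢
    generalize Nat.mod (Nat.div (Nat.div y 64) (2 ^ 42)) (2 ^ 40) = XM at h6 ⊢
    generalize Nat.div (Nat.div (Nat.div y 64) (2 ^ 42)) (2 ^ 40) = z at h6 ⊢
    generalize tb y 3 = e at h6 ⊢
    generalize tb y 4 = x' at h6 ⊢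
    obtain ⟨h8, h7⟩ := evlV_some h6
    have h40 : n ≤ 40 := by
      have := Nat.le_of_ble_eq_true h8
      change n + 1 ≤ 40 at this
      omega
    rw [h7, tpF_eq, List.append_nil, kinF_eq h40 n le_rfl, ovF_eq, kmF_eq, imF_eq]
  · intro V _ _ G _ U Q hst
    have e : lfV bo CL Ts D tf ML PL lw n p t = @Bool.rec (fun _ => Bool) (@Bool.rec (fun _ => Bool)
      (@Bool.rec (fun _ => Bool) (@Bool.rec (fun _ => Bool) false (@Bool.rec (fun _ => Bool) false
        (pcF n p (PL.getD (Nat.mod (Nat.div (Nat.div t 4) 2) 64) (0, 0)).1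
        (PL.getD (Nat.mod (Nat.div (Nat.div t 4) 2) 64) (0, 0)).2 (Nat.div (Nat.div (Nat.div t 4) 2) 64))
        (Nat.ble n 26)) (Nat.ble (Nat.succ (Nat.mod (Nat.div (Nat.div t 4) 2) 64)) PL.length))
        (unv n p) (Nat.beq (Nat.mod (Nat.div (Nat.div t 4) 2) 64) 62))
      (emp (stV bo CL Ts tf ML PL D n p (Nat.div (Nat.div t 4) 2))) (Nat.beq (Nat.mod (Nat.div t 4) 2) 0))
      (lw n p (Nat.div t 4)) (Nat.beq (Nat.mod t 4) 3) := rfl
    rw [e] at h
    simp only [ifc] at h
    obtain ⟨y, hy⟩ : ∃ y, y = Nat.div t 4 := ⟨_, rfl⟩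
    rw [← hy] at h
    cases h1 : Nat.beq (Nat.mod t 4) 3
    · rw [h1, cond_false] at h
      cases h2 : Nat.beq (Nat.mod y 2) 0
      · rw [h2, cond_false] at h
        obtain ⟨i, hi⟩ : ∃ i, i = Nat.mod (Nat.div y 2) 64 := ⟨_, rfl⟩
        rw [← hi] at h
        cases h62 : Nat.beq i 62
        swap
        · rw [h62, cond_true] at h
          have h6 : rawV bo CL Ts D tf ML PL n p 251 = some [] := by
            unfold rawV
            rw [frc_eq, frc_eq]
            change pstU PL n p 62 = some []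
            unfold pstU
            change (bif unv n p then some [] else none) = some []
            rw [h]
            rfl
          exact hst n p _ [] (flt_some h6) fun q hq => absurd hq List.not_mem_nil
        rw [h62, cond_false] at h
        cases h3 : Nat.ble (Nat.succ i) PL.length
        · rw [h3] at h
          exact absurd h (by simp)
        rw [h3, cond_true] at h
        have hlt : i < PL.length := Nat.le_of_ble_eq_true h3
        have hq : PL.getD i (0, 0) ∈ PL := by
          rw [List.getD_eq_getElem _ _ hlt]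
          exact List.getElem_mem hlt
        have h4 : (PL.getD i (0, 0)).1 ≤ 256 := Nat.le_of_ble_eq_true (List.all_eq_true.1 hPL _ hq)
        have hi64 : i < 64 := by rw [hi]; exact Nat.mod_lt _ (by norm_num)
        cases h26 : Nat.ble n 26
        · rw [h26] at h
          exact absurd h (by simp)
        rw [h26, cond_true] at h
        have hn26 : n ≤ 26 := Nat.le_of_ble_eq_true h26
        obtain ⟨m, hm⟩ : ∃ m, m = Nat.div (Nat.div y 2) 64 := ⟨_, rfl⟩
        rw [← hm] at h
        obtain ⟨w, hw1, hw⟩ := pcF_ok h4 h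
        have hw26 : w < 256 ^ 26 := hw1.trans_le (Nat.pow_le_pow_right (by norm_num) hn26)
        -- the token of the old step
        have h6 : rawV bo CL Ts D tf ML PL n p (4 * (i + 64 * (w + 256 ^ 26 * m)) + 3) = some [] := by
          unfold rawV
          rw [frc_eq, frc_eq]
          have e1 : Nat.mod (4 * (i + 64 * (w + 256 ^ 26 * m)) + 3) 4 = 3 := by
            change (4 * (i + 64 * (w + 256 ^ 26 * m)) + 3) % 4 = 3
            omega
          have e2 : Nat.div (4 * (i + 64 * (w + 256 ^ 26 * m)) + 3) 4 = i + 64 * (w + 256 ^ 26 * m) := by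
            change (4 * (i + 64 * (w + 256 ^ 26 * m)) + 3) / 4 = _
            omega
          rw [e1, e2]
          change pstU PL n p (i + 64 * (w + 256 ^ 26 * m)) = some []
          have e3 : Nat.mod (i + 64 * (w + 256 ^ 26 * m)) 64 = i := by
            change (i + 64 * (w + 256 ^ 26 * m)) % 64 = i
            omega
          unfold pstU
          rw [e3, h62, cond_false]
          unfold pst
          rw [frc_eq, frc_eq]
          have e4 : Nat.div (i + 64 * (w + 256 ^ 26 * m)) 64 = w + 256 ^ 26 * m := by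
            change (i + 64 * (w + 256 ^ 26 * m)) / 64 = _
            omega
          have e5 : Nat.mod (w + 256 ^ 26 * m) (256 ^ 26) = w := by
            change (w + 256 ^ 26 * m) % 256 ^ 26 = w
            rw [Nat.add_mul_mod_self_left]
            exact Nat.mod_eq_of_lt hw26
          have e6 : Nat.div (w + 256 ^ 26 * m) (256 ^ 26) = m := by
            change (w + 256 ^ 26 * m) / 256 ^ 26 = m
            rw [Nat.add_mul_div_left _ _ (by positivity), Nat.div_eq_of_lt hw26, zero_add]
          rw [e3, e4, e5, e6, h3]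
          have h7 : pcok n p (PL.getD i (0, 0)) w m = true := hw
          rw [h7]
          rfl
        exact hst n p _ [] (flt_some h6) fun q hq => absurd hq List.not_mem_nil
      · rw [h2, cond_true] at h
        exact hst n p _ [] (emp_of h) fun q hq => absurd hq List.not_mem_nil
    · rw [h1, cond_true] at h
      intro φ ν he
      have h2 := ht.l G U n p φ ν _ he h
      have h3 : rawV bo CL Ts D tf ML PL n p (4 * y + 2) = some [] := by
        unfold rawV
        rw [frc_eq, frc_eq]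
        have e1 : Nat.mod (4 * y + 2) 4 = 2 := by
          change (4 * y + 2) % 4 = 2
          omega
        have e2 : Nat.div (4 * y + 2) 4 = y := by
          change (4 * y + 2) / 4 = y
          omega
        rw [e1, e2]
        exact h2
      exact hst n p _ [] (flt_some h3) (fun q hq => absurd hq List.not_mem_nil) φ ν he

end EF18
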