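import Pool.Agent.Lib.MP_ef18bd_co.P.JntT

/-!
# The step for the bonus reduced by the values of the same family

`stJ ne CA CB g TJ`: the tokens of `stV`; `CA`, `CB` are the same pieces with two lists of values; `TJ`: the rows
of the tables, `g`: the unit of the levels. `Dj`: the chain of the phases.
-/

namespace EF18

open Finset

variable {V : Type} [Fintype V] [DecidableEq V] {G : SimpleGraph V} [DecidableRel G.Adj]

/-- **the credit of both values** -/
theorem crd_ofJ (hG : G.IsRegularOfDegree 3) {CA CB : List CPc} (hCA : vok CA) (hCB : vok CB)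
    (hs : SamC CA CB) {U U' : Finset V} (hI : Inv G U) {n p M : ℕ} {φ ν : ℕ → V} (h : Emb G U n p φ ν)
    (hM : ∀ i < n, (M.testBit i = true ↔ φ i ∉ U')) : ∀ f y A : ℕ, ∃ K : Finset (Finset V × ℕ),
      FamJ CA G (U \ U') K ∧ (∀ C ∈ K, ∀ x ∈ C.1, ∃ i < n, φ i = x ∧ A.testBit i = false) ∧
      crd CA n p M f y A ≤ vJ CA G U K ∧ crd CB n p M f y A ≤ vJ CB G U K := by
  classical
  intro f
  induction f with
  | zero => exact fun y A => ⟨∅, FamJ.empty _ _, fun _ h => absurd h (notMem_empty _), Nat.zero_le _,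
      Nat.zero_le _⟩
  | succ f ih =>
    intro y A
    rw [crd, crd]
    cases hy : Nat.beq y 0
    swap
    · rw [cond_true, cond_true]
      exact ⟨∅, FamJ.empty _ _, fun _ h => absurd h (notMem_empty _), Nat.zero_le _, Nat.zero_le _⟩
    rw [cond_false, cond_false, frc_eq, frc_eq, frc_eq, frc_eq, frc_eq, frc_eq, frc_eq, frc_eq, frc_eq,
      frc_eq, frc_eq, frc_eq, frc_eq, frc_eq]
    obtain ⟨y', hy'⟩ : ∃ y', y' = Nat.div (Nat.div (Nat.div y 64) (256 ^ 26)) (256 ^ 48) := ⟨_, rfl⟩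
    obtain ⟨m, hm⟩ : ∃ m, m = Nat.mod (Nat.div (Nat.div y 64) (256 ^ 26)) (256 ^ 48) := ⟨_, rfl⟩
    obtain ⟨w, hw⟩ : ∃ w, w = Nat.mod (Nat.div y 64) (256 ^ 26) := ⟨_, rfl⟩
    obtain ⟨i0, hi0⟩ : ∃ i0, i0 = Nat.mod y 64 := ⟨_, rfl⟩
    rw [← hy', ← hm, ← hw, ← hi0]
    change ∃ K : Finset (Finset V × ℕ), _ ∧ _ ∧
      (bif Nat.ble (Nat.succ i0) CA.length && pcok n p (gE CA i0).1 w m &&
        Nat.beq (Nat.land (imk m (gE CA i0).1.1) M) (imk m (gE CA i0).1.1) &&
        Nat.beq (Nat.land (imk m (gE CA i0).1.1) A) 0 && !Nat.beq (imk m (gE CA i0).1.1) 0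
        then Nat.add (cfv (gE CA i0) (ndl p m (lkp (gE CA i0).1)))
          (crd CA n p M f y' (Nat.lor A (imk m (gE CA i0).1.1)))
        else crd CA n p M f y' A) ≤ _ ∧
      (bif Nat.ble (Nat.succ i0) CB.length && pcok n p (gE CB i0).1 w m &&
        Nat.beq (Nat.land (imk m (gE CB i0).1.1) M) (imk m (gE CB i0).1.1) &&
        Nat.beq (Nat.land (imk m (gE CB i0).1.1) A) 0 && !Nat.beq (imk m (gE CB i0).1.1) 0
        then Nat.add (cfv (gE CB i0) (ndl p m (lkp (gE CB i0).1)))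
          (crd CB n p M f y' (Nat.lor A (imk m (gE CB i0).1.1)))
        else crd CB n p M f y' A) ≤ _
    rw [← hs.1, ← hs.2]
    obtain ⟨B, hB⟩ : ∃ B, B = imk m (gE CA i0).1.1 := ⟨_, rfl⟩
    rw [← hB]
    cases hc : Nat.ble (Nat.succ i0) CA.length && pcok n p (gE CA i0).1 w m &&
        Nat.beq (Nat.land B M) B && Nat.beq (Nat.land B A) 0 && !Nat.beq B 0
    · rw [cond_false, cond_false]
      exact ih y' A
    rw [cond_true, cond_true]
    simp only [Bool.and_eq_true] at hc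
    obtain ⟨⟨⟨⟨c1, c2⟩, c3⟩, c4⟩, c5⟩ := hc
    obtain ⟨K, a1, a2, a3, a4⟩ := ih y' (Nat.lor A B)
    have hlt : i0 < CA.length := Nat.le_of_ble_eq_true c1
    have hltB : i0 < CB.length := hs.1 ▸ hlt
    have hok := List.all_eq_true.1 hCA.2 _ (gE_mem hlt)
    have hokB := List.all_eq_true.1 hCB.2 _ (gE_mem hltB)
    rw [Bool.and_eq_true] at hok hokB
    obtain ⟨g1, g2⟩ := hCA.1 _ (gE_mem hlt)
    obtain ⟨d1, d2, d3, d4⟩ := pc_emb' hG hI hok.1 c2 h
    have hpc : Pc G (pim (gE CA i0).1 m φ) (gE CA i0).1.1 (gE CA i0).1.2 := ⟨_, _, d1, d2⟩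
    have hbit : ∀ x ∈ pim (gE CA i0).1 m φ, ∃ i < n, φ i = x ∧ B.testBit i = true := by
      intro x hx
      obtain ⟨i, hi, rfl⟩ := d2 x hx
      have h4 := d4 (3 * i) (by omega)
      exact ⟨dg m (3 * i) / 3, by omega, rfl, by rw [hB]; exact imk_iff.2 ⟨i, hi, rfl⟩⟩
    have hBM : ∀ i, B.testBit i = true → M.testBit i = true := by
      intro i hi
      have h5 : Nat.land B M = B := Nat.eq_of_beq_eq_true c3
      have h6 : (B &&& M).testBit i = true := by
        change (Nat.land B M).testBit i = true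
        rw [h5]; exact hi
      rw [Nat.testBit_and, Bool.and_eq_true] at h6
      exact h6.2
    have hBA : ∀ i, B.testBit i = true → A.testBit i = false := by
      intro i hi
      by_contra hA
      rw [Bool.not_eq_false] at hA
      have h5 : Nat.land B A = 0 := Nat.eq_of_beq_eq_true c4
      have h6 : (B &&& A).testBit i = true := by
        rw [Nat.testBit_and, hi, hA]; rfl
      change (Nat.land B A).testBit i = true at h6
      rw [h5, Nat.zero_testBit] at h6
      exact absurd h6 (by simp)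
    have hor : ∀ i, (Nat.lor A B).testBit i = false → A.testBit i = false ∧ B.testBit i = false := by
      intro i hi
      change (A ||| B).testBit i = false at hi
      rwa [Nat.testBit_or, Bool.or_eq_false_iff] at hi
    have hne : (pim (gE CA i0).1 m φ).Nonempty := by
      by_contra hc
      rw [not_nonempty_iff_eq_empty] at hc
      have h5 : B = 0 := by
        apply Nat.eq_of_testBit_eq
        intro i
        rw [Nat.zero_testBit]
        by_contra h6
        rw [Bool.not_eq_false, hB] at h6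
        obtain ⟨j, hj, -⟩ := imk_iff.1 h6
        have h7 := d1.mem j hj
        rw [hc] at h7
        exact notMem_empty _ h7
      rw [h5] at c5
      exact absurd c5 (by simp)
    have hdis : ∀ C ∈ K, Disjoint (pim (gE CA i0).1 m φ) C.1 := by
      intro C hC
      rw [disjoint_left]
      intro x h1 h2
      obtain ⟨i, i1, i2, i3⟩ := hbit x h1
      obtain ⟨j, j1, j2, j3⟩ := a2 C hC x h2
      have h4 := h.inj i i1 j j1 (by rw [i2, j2])
      rw [h4, (hor j j3).2] at i3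
      exact absurd i3 (by simp)
    have hnot : (pim (gE CA i0).1 m φ, i0) ∉ K := by
      intro hC
      obtain ⟨x, hx⟩ := hne
      exact disjoint_left.1 (hdis _ hC) hx hx
    refine ⟨insert (pim (gE CA i0).1 m φ, i0) K, ⟨fun E hE => ?_, fun E hE => ?_,
      fun E hE E' hE' hne' => ?_, fun E hE => ?_, fun E hE => ?_⟩, fun C hC x hx => ?_, ?_, ?_⟩
    · rcases mem_insert.1 hE with rfl | hE
      · intro x hx
        obtain ⟨i, i1, i2, i3⟩ := hbit x hx
        exact mem_sdiff.2 ⟨d3 hx, by rw [← i2]; exact (hM i i1).1 (hBM i i3)⟩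
      · exact a1.sub E hE
    · rcases mem_insert.1 hE with rfl | hE
      · exact hne
      · exact a1.ne E hE
    · rcases mem_insert.1 hE with rfl | hE <;> rcases mem_insert.1 hE' with rfl | hE'
      · exact absurd rfl hne'
      · exact hdis E' hE'
      · exact (hdis E hE).symm
      · exact a1.dj E hE E' hE' hne'
    · rcases mem_insert.1 hE with rfl | hE
      · exact hlt
      · exact a1.lt E hE
    · rcases mem_insert.1 hE with rfl | hE
      · exact hpc
      · exact a1.pc E hE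
    · rcases mem_insert.1 hC with rfl | hC
      · obtain ⟨i, i1, i2, i3⟩ := hbit x hx
        exact ⟨i, i1, i2, hBA i i3⟩
      · obtain ⟨i, i1, i2, i3⟩ := a2 C hC x hx
        exact ⟨i, i1, i2, (hor i i3).1⟩
    · unfold vJ at a3 ⊢
      rw [sum_insert hnot]
      have h5 : cfv (gE CA i0) (ndl p m (lkp (gE CA i0).1)) ≤
          cfv (gE CA i0) (dds G U (pim (gE CA i0).1 m φ)).card := by
        rw [dds_card hG (U := U) d3 d1 d2 g1]
        refine fmo_le hok.2 ?_ (List.length_filter_le _ _)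
        refine ndl_le (P := fun k => ν (dg m k) ∉ U) fun k hk hi => ?_
        obtain ⟨l, hl⟩ := isl_of hi
        obtain ⟨k3, -⟩ := mem_lkp.1 hk
        exact (h.lnk _ (d4 k k3) l hl).2.2.2.1
      exact Nat.add_le_add h5 a3
    · unfold vJ at a4 ⊢
      rw [sum_insert hnot]
      have h5 : cfv (gE CB i0) (ndl p m (lkp (gE CA i0).1)) ≤
          cfv (gE CB i0) (dds G U (pim (gE CA i0).1 m φ)).card := by
        rw [dds_card hG (U := U) d3 d1 d2 g1, hs.2]
        refine fmo_le hokB.2 ?_ (List.length_filter_le _ _)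
        refine ndl_le (P := fun k => ν (dg m k) ∉ U) fun k hk hi => ?_
        rw [← hs.2] at hk
        obtain ⟨l, hl⟩ := isl_of hi
        obtain ⟨k3, -⟩ := mem_lkp.1 hk
        exact (h.lnk _ (d4 k k3) l hl).2.2.2.1
      exact Nat.add_le_add h5 a4

/-- the change of the families -/
theorem jx_step (hG : G.IsRegularOfDegree 3) {ok : ℕ → ℕ → Bool} {d : Bool} {CA CB : List CPc} {g : ℕ}
    {TJ : List (List (List ℕ))} (hCA : vok CA) (hCB : vok CB) (hs : SamC CA CB) (hTJ : (TJ.all okJ) = true)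
    (hML : (mcl CA).all mkok = true) {U : Finset V} (hI : Inv G U) (hA : TabJ CA CB g TJ G U)
    (hok : ∀ n p φ ν, Emb G U n p φ ν → ok n p = true)
    (hd : d = true ∨ ∀ y, y ∉ U → ∀ x ∈ U, G.Adj y x → ∃ x' ∈ U, x' ≠ x ∧ G.Adj y x') {n p : ℕ} {L : List ℕ}
    {φ ν : ℕ → V} (h : Emb G U n p φ ν) (hL : ∀ y ∈ L, y < n ∧ full p y = true)
    (hS : Stn G U (rem G U (L.map φ)) n p (kms p L 0) (ims p L 0) φ ν) (XM y : ℕ) :
    (∃ q ∈ ovm ok d (mcl CA) L XM n p n, Ch G U n φ q) ∨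
      Jx CA CB G U (rem G U (L.map φ)) g (TJ.getD (Nat.pred L.length) [])
        (outx n p (kms p L 0) (ims p L 0) XM) (crd CA n p (kms p L 0) 6 y 0)
        (crd CB n p (kms p L 0) 6 y 0) := by
  classical
  by_cases hX : ∃ i < n, XM.testBit i = true ∧ BZ (mcl CA) G (rem G U (L.map φ)) (φ i)
  · obtain ⟨i, hi, h1, h2⟩ := hX
    obtain ⟨q, h3, h4⟩ := ovs_ch hG hI hok hd hML 60 n p φ ν h (fun x hx => (hL x hx).1) hi h2
    exact Or.inl ⟨q, mem_ovm hi h1 h3, h4⟩
  right
  push Not at hX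
  have hI' := hI.rem hG (L := L.map φ)
  have h3 := h.new_le hG hS hX
  obtain ⟨K, k1, -, k3, k4⟩ := crd_ofJ hG hCA hCB hs hI h hS.msk 6 y 0
  obtain ⟨RT, hRT⟩ : ∃ RT, RT = TJ.getD (Nat.pred L.length) [] := ⟨_, rfl⟩
  have hokR : okJ RT = true := by rw [hRT]; exact okJ_getD hTJ _
  intro M' hM'
  have hd1 : Disjoint (rem G U (L.map φ)) (U \ rem G U (L.map φ)) := disjoint_sdiff
  obtain ⟨f1, f2⟩ := hM'.union (rem_subset (G := G) (U := U) (L := L.map φ)) sdiff_subset hd1 k1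
  have hh : ∑ x ∈ M', (hit G U (rem G U (L.map φ)) x.1).card ≤ outx n p (kms p L 0) (ims p L 0) XM := by
    exact hits_le hI' (P := BZ (mcl CA) G (rem G U (L.map φ))) (fun z hz hb => bz_of_bc hG hCA.1 hz hb) h3 hM'
  have hLx : ∀ x ∈ L.map φ, x ∈ U := fun x hx => by
    obtain ⟨i, hi, rfl⟩ := List.mem_map.1 hx
    exact h.mem i (hL i hi).1
  obtain ⟨q, q1, q2, q3⟩ := row_step (G := G) (U' := rem G U (L.map φ)) (U := U) (M := M')
    (ga := fun i => cfv (gE CA i)) (gb := fun i => cfv (gE CB i)) (g := g) (RT := RT) (okJ_zero hokR)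
    (fun x hx j s hjs => by
      have := hA (L.map φ) hLx _ (hM'.lt x hx) x.1 (hM'.sub x hx) (hM'.pc x hx) j s
      rw [List.length_map] at this
      rw [hRT] at hjs ⊢
      exact this hjs)
  have m1 := ctj_mono (tokj_rwj hokR q) hh
  rw [← hRT]
  refine ⟨M' ∪ K, f1, q, by omega, ?_, ?_, ?_⟩
  · unfold vJ at k4 ⊢
    rw [sum_union f2]
    omega
  · unfold vJ at k3 ⊢
    rw [sum_union f2]
    omega
  · unfold vJ at k4 ⊢
    rw [sum_union f2]
    omega

/-- the step before the filter -/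
def rawJ (ne : Bool) (CA CB : List CPc) (g : ℕ) (TJ : List (List (List ℕ))) (D : ℕ) (tf : Bool) (ML : List MPc)
    (PL : List (ℕ × ℕ)) (n p x : ℕ) : Option (List (ℕ × ℕ)) :=
  frc (Nat.mod x 4) fun r => frc (Nat.div x 4) fun y =>
    bif Nat.beq r 0 then branch (Nat.ble 1 D) n p y else
    bif Nat.beq r 1 then lfx (fun e x L XM z => evbJ tf ne e x 84 tK tI D 12 6 6 n p L
      (fun M _ => crd CA n p M 6 z 0) (fun M _ => crd CB n p M 6 z 0) g (TJ.getD (Nat.pred L.length) [])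
      (fun M IN => outx n p M IN XM)
      (ovm (okB D tf) (Nat.ble 1 D) ML L XM n p n)) y else
    bif Nat.beq r 2 then lfx (fun e x L XM z => evlJ tf ne e x 84 tK tI D 12 6 6 n p L
      (fun M _ => crd CA n p M 6 z 0) (fun M _ => crd CB n p M 6 z 0) g (TJ.getD (Nat.pred L.length) [])
      (fun M IN => outx n p M IN XM)
      (ovm (okB D tf) (Nat.ble 1 D) ML L XM n p n)) y else pstU PL n p y

/-- the step -/
def stJ (ne : Bool) (CA CB : List CPc) (g : ℕ) (TJ : List (List (List ℕ))) (tf : Bool) (ML : List MPc)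
    (PL : List (ℕ × ℕ)) (D : ℕ) : Stp :=
  flt (okB D tf) (rawJ ne CA CB g TJ D tf ML PL)

/-- **the step is sound** -/
theorem snd_stJ (hG : G.IsRegularOfDegree 3) (hc : G.Connected) {U : Finset V} (hI : Inv G U)
    (hU : U ≠ univ) {ne : Bool} {D : ℕ} {tf : Bool} {CA CB : List CPc} {g : ℕ} {TJ : List (List (List ℕ))}
    (hCA : vok CA) (hCB : vok CB) (hTJ : (TJ.all okJ) = true) {ML : List MPc}
    (hMA : ML = mcl CA) (hMB : ML = mcl CB) (hML : ML.all mkok = true)
    (hA : TabJ CA CB g TJ G U) (hne : ne = true → exv CB G U = 0)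
    {PL : List (ℕ × ℕ)} (hPL : PL.all wfp = true)
    (hD : ∀ x ∈ U, n1 G U x ≤ D) (hiso : iso G U = ∅) (htf : tf = true → TF3 G) (hcl : NoP G PL U) :
    Snd G U (∃ k, k ≠ 0 ∧ GoodJ fw 12 84 6 6 CA CB G U k) (stJ ne CA CB g TJ tf ML PL D) := by
  have hok : ∀ n p φ ν, Emb G U n p φ ν → okB D tf n p = true := fun n p φ ν h => h.okB hG hD htf
  have hd : Nat.ble 1 D = true ∨ ∀ y, y ∉ U → ∀ x ∈ U, G.Adj y x → ∃ x' ∈ U, x' ≠ x ∧ G.Adj y x' := by
    by_cases hD1 : 1 ≤ D
    · exact Or.inl (Nat.ble_eq_true_of_le hD1)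
    · right
      intro y hy z hz hyz
      by_contra hno
      push Not at hno
      have h1 : y ∈ (G.neighborFinset z \ U).filter fun y => nU G U y = 1 := by
        rw [mem_filter, mem_sdiff, SimpleGraph.mem_neighborFinset]
        refine ⟨⟨hyz.symm, hy⟩, card_eq_one.2 ⟨z, ?_⟩⟩
        rw [eq_singleton_iff_unique_mem]
        refine ⟨mem_inter.2 ⟨(SimpleGraph.mem_neighborFinset _ _ _).2 hyz, hz⟩, fun z' hz' => ?_⟩
        rw [mem_inter, SimpleGraph.mem_neighborFinset] at hz'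
        by_contra hne
        exact hno z' hz'.2 hne hz'.1
      have h2 : 0 < n1 G U z := card_pos.2 ⟨y, h1⟩
      have := hD z hz
      omega
  have hsm : SamC CA CB := samC_of (by rw [← hMA, ← hMB])
  have hz : ne = true → ∀ M, FamJ CA G U M → vJ CB G U M = 0 := fun e M hM => vJ_zero (hM.sam hsm) (hne e)
  have hex : ∀ {n p : ℕ} {φ ν : ℕ → V} {L : List ℕ}, Emb G U n p φ ν → (∀ y ∈ L, y < n ∧ full p y = true) →
      Stn G U (rem G U (L.map φ)) n p (kms p L 0) (ims p L 0) φ ν → ∀ XM z : ℕ,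
      (∃ q ∈ ovm (okB D tf) (Nat.ble 1 D) ML L XM n p n, Ch G U n φ q) ∨
        Jx CA CB G U (rem G U (L.map φ)) g (TJ.getD (Nat.pred L.length) [])
          (outx n p (kms p L 0) (ims p L 0) XM) (crd CA n p (kms p L 0) 6 z 0)
          (crd CB n p (kms p L 0) 6 z 0) := by
    intro n p φ ν L h hL hS XM z
    rw [hMA]
    exact jx_step hG hCA hCB hsm hTJ (hMA ▸ hML) hI hA hok hd h hL hS XM z
  refine snd_flt hok fun n p x L hL φ ν h => ?_
  unfold rawJ at hL
  rw [frc_eq, frc_eq] at hL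
  cases r0 : Nat.beq (Nat.mod x 4) 0
  swap
  · rw [r0, cond_true] at hL
    obtain ⟨q, hq, -, φ', ν', h1, -⟩ := branch_D hG hI hD hL h
    exact Or.inr ⟨q, hq, φ', ν', h1⟩
  rw [r0, cond_false] at hL
  cases r1 : Nat.beq (Nat.mod x 4) 1
  swap
  · rw [r1, cond_true] at hL
    obtain ⟨e, x', L', XM, z, a1, a2⟩ := lfx_of hL
    rcases evbJ_ch hG pair_flat pos_flat tabK_flat tabKI_flat hI hD hiso htf a2 h (CA := CA) (CB := CB)
      (by decide) hz (fun hL' hS' => hex h hL' hS' XM z) with h1 | ⟨q, hq, -, φ', ν', h1, -⟩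
    · exact Or.inl ⟨_, a1, h1⟩
    · exact Or.inr ⟨q, hq, φ', ν', h1⟩
  rw [r1, cond_false] at hL
  cases r2 : Nat.beq (Nat.mod x 4) 2
  swap
  · rw [r2, cond_true] at hL
    obtain ⟨e, x', L', XM, z, a1, a2⟩ := lfx_of hL
    rcases evlJ_ch hG pair_flat pos_flat tabK_flat tabKI_flat hI hD hiso htf a2 h (CA := CA) (CB := CB)
      (by decide) hz (fun hL' hS' => hex h hL' hS' XM z) with h1 | ⟨q, hq, -, φ', ν', h1, -⟩
    · exact Or.inl ⟨_, a1, h1⟩
    · exact Or.inr ⟨q, hq, φ', ν', h1⟩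
  rw [r2, cond_false] at hL
  exact absurd (pstU_no hG hc hI hU hPL hcl hL h) not_false

/-! ### the chain -/

/-- every connected state without the pieces `PL` which contains a pattern of the list is good -/
def Dj (CA CB : List CPc) (tf : Bool) (PL dn : List (ℕ × ℕ)) : Prop :=
  ∀ (V : Type) [Fintype V] [DecidableEq V] (G : SimpleGraph V) [DecidableRel G.Adj],
    G.IsRegularOfDegree 3 → G.Connected → (tf = true → TF3 G) → ∀ U : Finset V, Inv G U → U ≠ univ →
    U.Nonempty → iso G U = ∅ → NoP G PL U → (∃ q ∈ dn, ∃ φ ν : ℕ → V, Emb G U q.1 q.2 φ ν) →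
    ∃ k, k ≠ 0 ∧ GoodJ fw 12 84 6 6 CA CB G U k

/-- the start -/
theorem dj_nil (CA CB : List CPc) (tf : Bool) (PL : List (ℕ × ℕ)) : Dj CA CB tf PL [] :=
  fun _ _ _ _ _ _ _ _ _ _ _ _ _ _ ⟨_, hq, _⟩ => absurd hq List.not_mem_nil

/-- the patterns may be permuted -/
theorem Dj.mono {CA CB : List CPc} {tf : Bool} {PL dn dn' : List (ℕ × ℕ)}
    (h : Dj CA CB tf PL dn) (hs : ∀ q ∈ dn', q ∈ dn) : Dj CA CB tf PL dn' :=
  fun V _ _ G _ hG hc htf U hI hU hne hiso hcl ⟨q, hq, he⟩ =>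
    h V G hG hc htf U hI hU hne hiso hcl ⟨q, hs q hq, he⟩

/-- **every state is good** if the boundary patterns are in the list -/
theorem Dj.good {CA CB : List CPc} {tf : Bool} {PL dn : List (ℕ × ℕ)} (h : Dj CA CB tf PL dn)
    (hB : (1, 1) ∈ dn) (hC : (2, 9 + 3 * 256 ^ 3) ∈ dn) (hG : G.IsRegularOfDegree 3) (hc : G.Connected)
    (htf : tf = true → TF3 G) {U : Finset V} (hI : Inv G U) (hU : U ≠ univ) (hne : U.Nonempty)
    (hiso : iso G U = ∅) (hcl : NoP G PL U) :
    ∃ k, k ≠ 0 ∧ GoodJ fw 12 84 6 6 CA CB G U k := by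
  by_cases h1 : ∃ x ∈ U, 1 ≤ n1 G U x
  · obtain ⟨x, hx, hn⟩ := h1
    obtain ⟨φ, ν, e⟩ := root1 hG hx hn
    exact h V G hG hc htf U hI hU hne hiso hcl ⟨_, hB, φ, ν, e⟩
  · push Not at h1
    obtain ⟨φ, ν, e⟩ := root3 hG hc hU hne fun x hx => by
      have := h1 x hx
      omega
    exact h V G hG hc htf U hI hU hne hiso hcl ⟨_, hC, φ, ν, e⟩

/-- the bound for the states without the pieces `PL` -/
def BndJ (CA CB : List CPc) (PL : List (ℕ × ℕ)) (G : SimpleGraph V) [DecidableRel G.Adj] : Prop :=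
  ∀ U : Finset V, Inv G U → U ≠ univ → NoP G PL U → ClmJ fw 12 84 6 6 CA CB G U

/-- **the bound from the chain** -/
theorem Dj.bnd {CA CB : List CPc} {tf : Bool} {PL dn : List (ℕ × ℕ)} (h : Dj CA CB tf PL dn)
    (hB : (1, 1) ∈ dn) (hC : (2, 9 + 3 * 256 ^ 3) ∈ dn) (hG : G.IsRegularOfDegree 3) (hc : G.Connected)
    (htf : tf = true → TF3 G) : BndJ CA CB PL G :=
  frameJ hG CA CB (by decide) (NoP G PL) (fun _ _ h hB => hB.mono h)
    fun _ hI hU hne _ hi hcl => h.good hB hC hG hc htf hI hU hne hi hcl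

/-- the bound without the bonus -/
theorem BndJ.flat {CA CB : List CPc} {PL : List (ℕ × ℕ)} (h : BndJ CA CB PL G) : Bnd false CA PL G := by
  intro U h1 h2 h3
  obtain ⟨m, M, a, b, c⟩ := h U h1 h2 h3
  refine ⟨m, a, ?_⟩
  have e : Xs G (beT (bnx false) G) U = 0 := Xs_clean fun E _ => by
    unfold beT
    split_ifs
    · exact Nat.zero_mul _
    · rfl
  have e2 := vJ_le b
  have e3 : min (vJ CB G U M) (Xs G (beT 6 G) U) ≤ Xs G (beT 6 G) U := min_le_right _ _
  omega

/-- **the comparison from one chain**, `tf = false`: for all cubic graphs -/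
theorem compare_Dj {tf : Bool} {CA CB : List CPc} (h9 : f13 CA = true) {dn : List (ℕ × ℕ)}
    (h : Dj CA CB tf [] dn) (hB : (1, 1) ∈ dn) (hC : (2, 9 + 3 * 256 ^ 3) ∈ dn)
    (V : Type) [Fintype V] [DecidableEq V] (G : SimpleGraph V) [DecidableRel G.Adj]
    (hG : G.IsRegularOfDegree 3) (htf : tf = true → TF3 G) : upperMinus G ≤ upperSigned G :=
  compare_T (bo := false) h9 (fun _ _ _ _ _ h1 h2 h3 => (h.bnd hB hC h1 h2 h3).flat) V G hG htf

/-- the conditions on the chain: triangle-free if `tf = true` -/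
def Chj (tf : Bool) : Prop :=
  ∃ (CA CB : List CPc) (dn : List (ℕ × ℕ)), f13 CA = true ∧ Dj CA CB tf [] dn ∧ (1, 1) ∈ dn ∧
    (2, 9 + 3 * 256 ^ 3) ∈ dn

/-- **triangle-free cubic graphs** -/
theorem finalJ_tf (h : Chj true) (V : Type) [Fintype V] [DecidableEq V] (G : SimpleGraph V)
    [DecidableRel G.Adj] (hG : G.IsRegularOfDegree 3) (ht : G.CliqueFree 3) :
    upperMinus G ≤ upperSigned G := by
  obtain ⟨CA, CB, dn, h1, h2, h3, h4⟩ := h
  exact compare_Dj h1 h2 h3 h4 V G hG fun _ => tf3_of ht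

/-- **all cubic graphs** -/
theorem finalJ_all (h : Chj false) :
    (∀ (V : Type) [Fintype V] [DecidableEq V] (G : SimpleGraph V) [DecidableRel G.Adj],
      G.IsRegularOfDegree 3 → upperMinus G ≤ upperSigned G) ∧
    (⊤ : SimpleGraph (Fin 4)).IsRegularOfDegree 3 ∧
      upperMinus (⊤ : SimpleGraph (Fin 4)) < upperSigned (⊤ : SimpleGraph (Fin 4)) := by
  obtain ⟨CA, CB, dn, h1, h2, h3, h4⟩ := h
  exact ⟨fun V _ _ G _ hG => compare_Dj h1 h2 h3 h4 V G hG fun h => Bool.noConfusion h, k4_cubic, k4_lt⟩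

end EF18
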