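import Pool.Agent.Lib.MP_ef18bd_co.P.JntE

/-!
# The rows of the tables

`TabJ`: the rows are valid in a state; `pcksJ`: the check.
-/

namespace EF18

open Finset

variable {V : Type} [Fintype V] [DecidableEq V] {G : SimpleGraph V} [DecidableRel G.Adj]

/-- the row is monotone -/
def tokj (T : List ℕ) : Bool := (List.range T.length).all fun s =>
  Nat.ble (T.getD s 0) (1000 * s + 1) && (Nat.ble T.length (s + 1) || Nat.ble (T.getD s 0) (T.getD (s + 1) 0))

/-- the rows are in order -/
def okJ (RT : List (List ℕ)) : Bool := !Nat.beq (ctj (rwj RT 0) 0) 0 && RT.all tokj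

theorem tokj_le {T : List ℕ} (h : tokj T = true) {s : ℕ} (hs : s < T.length) : T.getD s 0 ≤ 1000 * s + 1 := by
  have h1 := List.all_eq_true.1 h s (List.mem_range.2 hs)
  rw [Bool.and_eq_true] at h1
  exact Nat.le_of_ble_eq_true h1.1

theorem tokj_mono {T : List ℕ} (h : tokj T = true) {s t : ℕ} (hst : s ≤ t) (ht : t < T.length) :
    T.getD s 0 ≤ T.getD t 0 := by
  induction t with
  | zero => rw [show s = 0 by omega]
  | succ t ih =>
    rcases Nat.lt_or_ge t s with h3 | h3
    · rw [show s = t + 1 by omega]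
    · have h1 := List.all_eq_true.1 h t (List.mem_range.2 (by omega))
      rw [Bool.and_eq_true, Bool.or_eq_true] at h1
      rcases h1.2 with h2 | h2
      · have := Nat.le_of_ble_eq_true h2
        omega
      · exact (ih h3 (by omega)).trans (Nat.le_of_ble_eq_true h2)

theorem ctj_in {T : List ℕ} {o : ℕ} (h : o < T.length) : ctj T o = T.getD o 0 := by
  unfold ctj
  rw [Nat.ble_eq_true_of_le (show Nat.succ o ≤ T.length from h), cond_true]

theorem ctj_out {T : List ℕ} {o : ℕ} (h : T.length ≤ o) : ctj T o = 1000 * o + 1 := by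
  unfold ctj
  cases hb : Nat.ble (Nat.succ o) T.length
  · rfl
  · have : o + 1 ≤ T.length := Nat.le_of_ble_eq_true hb
    omega

theorem ctj_le {T : List ℕ} (h : tokj T = true) (s : ℕ) : ctj T s ≤ 1000 * s + 1 := by
  rcases Nat.lt_or_ge s T.length with h1 | h1
  · rw [ctj_in h1]
    exact tokj_le h h1
  · rw [ctj_out h1]

theorem ctj_mono {T : List ℕ} (h : tokj T = true) {s o : ℕ} (hs : s ≤ o) : ctj T s ≤ ctj T o := by
  rcases Nat.lt_or_ge o T.length with h1 | h1
  · rw [ctj_in h1, ctj_in (by omega)]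
    exact tokj_mono h hs h1
  · rw [ctj_out h1]
    exact (ctj_le h s).trans (Nat.add_le_add_right (Nat.mul_le_mul_left _ hs) 1)

theorem tokj_rwj {RT : List (List ℕ)} (h : okJ RT = true) (j : ℕ) : tokj (rwj RT j) = true := by
  unfold okJ at h
  rw [Bool.and_eq_true] at h
  unfold rwj
  rcases Nat.lt_or_ge (Nat.min (Nat.pred RT.length) j) RT.length with h1 | h1
  · rw [List.getD_eq_getElem _ _ h1]
    exact List.all_eq_true.1 h.2 _ (List.getElem_mem h1)
  · rw [List.getD_eq_default _ _ h1]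
    rfl

theorem okJ_zero {RT : List (List ℕ)} (h : okJ RT = true) : ctj (rwj RT 0) 0 ≠ 0 := by
  unfold okJ at h
  rw [Bool.and_eq_true, Bool.not_eq_true'] at h
  intro hc
  rw [hc] at h
  exact absurd h.1 (by simp)

theorem okJ_getD {TJ : List (List (List ℕ))} (h : (TJ.all okJ) = true) (i : ℕ) : okJ (TJ.getD i []) = true := by
  rcases Nat.lt_or_ge i TJ.length with h1 | h1
  · rw [List.getD_eq_getElem _ _ h1]
    exact List.all_eq_true.1 h _ (List.getElem_mem h1)
  · rw [List.getD_eq_default _ _ h1]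
    rfl

/-- the rows are valid in `U` -/
def TabJ (CA CB : List CPc) (g : ℕ) (TJ : List (List (List ℕ))) (G : SimpleGraph V) [DecidableRel G.Adj]
    (U : Finset V) : Prop :=
  ∀ X : List V, (∀ x ∈ X, x ∈ U) → ∀ i < CA.length, ∀ E ⊆ rem G U X,
    Pc G E (gE CA i).1.1 (gE CA i).1.2 → ∀ j s, ctj (rwj (TJ.getD (X.length - 1) []) j) s ≠ 0 → ∃ q,
      cfv (gE CB i) (dds G (rem G U X) E).card ≤ cfv (gE CB i) (dds G U E).card + g * q ∧
      ctj (rwj (TJ.getD (X.length - 1) []) j) s ≤
        ctj (rwj (TJ.getD (X.length - 1) []) (j + q)) (s + (hit G U (rem G U X) E).card) ∧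
      cfv (gE CA i) (dds G (rem G U X) E).card + ctj (rwj (TJ.getD (X.length - 1) []) j) s ≤
        cfv (gE CA i) (dds G U E).card +
          ctj (rwj (TJ.getD (X.length - 1) []) (j + q)) (s + (hit G U (rem G U X) E).card)

/-- the number of the levels, rounded up -/
def qqj (g a b : ℕ) : ℕ := (b - a + (g - 1)) / g

theorem qqj_le {g : ℕ} (hg : 0 < g) (a b : ℕ) : b ≤ a + g * qqj g a b := by
  unfold qqj
  have h1 := Nat.div_add_mod (b - a + (g - 1)) g
  have h2 := Nat.mod_lt (b - a + (g - 1)) hg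
  omega

/-- `h` hits at a piece with `d` dead link vertices, one pair of rows -/
def thr (T T' fa : List ℕ) (d h : ℕ) : Bool := (List.range (T'.length - h)).all fun s =>
  Nat.beq (ctj T s) 0 || (Nat.ble (ctj T s) (T'.getD (s + h) 0) &&
    Nat.ble (fa.getD (d + h) 0 + ctj T s) (fa.getD d 0 + T'.getD (s + h) 0))

/-- `h` hits, all rows -/
def thj (g : ℕ) (RT : List (List ℕ)) (fa fb : List ℕ) (d h : ℕ) : Bool :=
  (List.range RT.length).all fun j =>
    thr (RT.getD j []) (rwj RT (j + qqj g (fb.getD d 0) (fb.getD (d + h) 0))) fa d h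

/-- at most `m` hits -/
def tkj (g : ℕ) (RT : List (List ℕ)) (fa fb : List ℕ) (d : ℕ) : ℕ → Bool
  | 0 => true
  | h + 1 => thj g RT fa fb d (h + 1) && tkj g RT fa fb d h

theorem tkj_of {g : ℕ} {RT : List (List ℕ)} {fa fb : List ℕ} {d : ℕ} : ∀ {m : ℕ},
    tkj g RT fa fb d m = true → ∀ h, 1 ≤ h → h ≤ m → thj g RT fa fb d h = true := by
  intro m
  induction m with
  | zero => intro _ h h1 h2; omega
  | succ m ih =>
    intro h0 h h1 h2
    rw [tkj, Bool.and_eq_true] at h0
    rcases Nat.lt_or_ge m h with h3 | h3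
    · rw [show h = m + 1 by omega]
      exact h0.1
    · exact ih h0.2 h h1 h3

/-- the inequalities for all `s` -/
theorem thr_step {T T' fa : List ℕ} (hT : tokj T = true) {d h : ℕ} (h1 : 1 ≤ h)
    (hf : fa.getD (d + h) 0 ≤ 1000) (hk : thr T T' fa d h = true) {s : ℕ} (hs : ctj T s ≠ 0) :
    ctj T s ≤ ctj T' (s + h) ∧ fa.getD (d + h) 0 + ctj T s ≤ fa.getD d 0 + ctj T' (s + h) := by
  rcases Nat.lt_or_ge (s + h) T'.length with h2 | h2
  · rw [ctj_in (T := T') h2]
    have := List.all_eq_true.1 hk s (List.mem_range.2 (by omega))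
    rw [Bool.or_eq_true, Bool.and_eq_true] at this
    rcases this with h3 | ⟨h3, h4⟩
    · exact absurd (Nat.eq_of_beq_eq_true h3) hs
    · exact ⟨Nat.le_of_ble_eq_true h3, Nat.le_of_ble_eq_true h4⟩
  · rw [ctj_out (T := T') h2, mul_add]
    have := ctj_le hT s
    omega

/-- the check for a piece: `KD`: the bounds `κ`, by the number of the dead link vertices -/
def pckJ (XL : List (ℕ × ℕ)) (g : ℕ) (TJ : List (List (List ℕ))) (a b : CPc) (KD : List ℕ) : Bool :=
  (a.2.all fun x => Nat.ble x 1000) &&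
  ((lkp a.1).sublists.all fun S => kpc4 XL a.1 S (KD.getD ((lkp a.1).length - S.length) 0) ||
    mem2 (rt a.1 S) XL) &&
  (List.range ((lkp a.1).length + 1)).all fun d => (List.range TJ.length).all fun i =>
    tkj g (TJ.getD i []) a.2 b.2 d (Nat.min ((lkp a.1).length - d) ((i + 1) * KD.getD d 0))

/-- the check for all pieces -/
def pcksJ (XL : List (ℕ × ℕ)) (g : ℕ) (TJ : List (List (List ℕ))) : List CPc → List CPc → List (List ℕ) → Bool
  | [], _, _ => true
  | a :: CA, b :: CB, K :: KJ => pckJ XL g TJ a b K && pcksJ XL g TJ CA CB KJ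
  | _ :: _, _, _ => false

theorem pcksJ_of {XL : List (ℕ × ℕ)} {g : ℕ} {TJ : List (List (List ℕ))} : ∀ {CA CB : List CPc}
    {KJ : List (List ℕ)}, pcksJ XL g TJ CA CB KJ = true → ∀ i < CA.length,
    ∃ K, pckJ XL g TJ (gE CA i) (gE CB i) K = true := by
  intro CA
  induction CA with
  | nil => intro CB KJ _ i hi; exact absurd hi (by simp)
  | cons a CA ih =>
    intro CB KJ h i hi
    match CB, KJ with
    | [], [] => exact absurd h (by simp [pcksJ])
    | [], _ :: _ => exact absurd h (by simp [pcksJ])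
    | _ :: _, [] => exact absurd h (by simp [pcksJ])
    | b :: CB, K :: KJ =>
      rw [pcksJ, Bool.and_eq_true] at h
      cases i with
      | zero => exact ⟨K, h.1⟩
      | succ i => exact ih h.2 i (by simpa using hi)

/-- the rows are valid by the check of all pieces -/
theorem tabJ_ofI (hG : G.IsRegularOfDegree 3) {U : Finset V} (hI : Inv G U) {CA CB : List CPc}
    (hCA : cok CA) {XL : List (ℕ × ℕ)} {g : ℕ} (hg : 0 < g) {TJ : List (List (List ℕ))}
    (hTJ : (TJ.all okJ) = true) (hc : ∀ i < CA.length, ∃ K, pckJ XL g TJ (gE CA i) (gE CB i) K = true)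
    (hX : NoE G U XL) : TabJ CA CB g TJ G U := by
  intro X hPk i0 hi0 E hE hp j s hjs
  obtain ⟨K, hK⟩ := hc i0 hi0
  obtain ⟨f1, f2⟩ := hCA _ (gE_mem hi0)
  obtain ⟨e, he⟩ : ∃ e, e = gE CA i0 := ⟨_, rfl⟩
  obtain ⟨eb, heb⟩ : ∃ eb, eb = gE CB i0 := ⟨_, rfl⟩
  rw [← he, ← heb] at hK ⊢
  rw [← he] at hp f1 f2
  obtain ⟨⟨n, p⟩, f⟩ := e
  obtain ⟨qb, fb⟩ := eb
  dsimp only at hp f1 f2
  obtain ⟨φ, ν, h, hEs⟩ := hp
  have hs := dds_step (G := G) (rem_subset (G := G) (U := U) (L := X)) E
  obtain ⟨S, hS⟩ : ∃ S, S = (lkp (n, p)).filter fun k => ν k ∈ U := ⟨_, rfl⟩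
  have hEU : E ⊆ U := hE.trans rem_subset
  unfold pckJ at hK
  simp only [Bool.and_eq_true] at hK
  obtain ⟨⟨k1, k2⟩, k3⟩ := hK
  have hd : (dds G U E).card + S.length = (lkp (n, p)).length := by
    rw [dds_card hG hEU h hEs f1, hS, add_comm]
    exact length_split (lkp (n, p)) fun k => ν k ∈ U
  have hSs : S ∈ (lkp (n, p)).sublists := by
    rw [hS]
    exact List.mem_sublists.2 List.filter_sublist
  have k4 := List.all_eq_true.1 k2 S hSs
  rw [Bool.or_eq_true] at k4
  have hkp : kpc4 XL (n, p) S (K.getD ((lkp (n, p)).length - S.length) 0) = true := by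
    rcases k4 with k4 | k4
    · exact k4
    · exfalso
      obtain ⟨φ', ν', e1, -, -⟩ := h.root4 hG hEU (q := (n, p)) f1 f2 hEs
      rw [← hS] at e1
      exact hX _ (mem2_of k4) φ' ν' e1
  rw [show (lkp (n, p)).length - S.length = (dds G U E).card by omega] at hkp
  obtain ⟨b1, b2⟩ := hit_le4 hG hI hPk hE h hEs f1 f2 hS hX hkp
  rw [hs]
  have hval : ∀ d, f.getD d 0 ≤ 1000 := by
    intro d
    rcases Nat.lt_or_ge d f.length with h1 | h1
    · rw [List.getD_eq_getElem _ _ h1]
      exact Nat.le_of_ble_eq_true (List.all_eq_true.1 k1 _ (List.getElem_mem h1))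
    · rw [List.getD_eq_default _ _ h1]
      exact Nat.zero_le _
  unfold cfv
  dsimp only
  rcases Nat.eq_zero_or_pos (hit G U (rem G U X) E).card with h0 | h0
  · rw [h0]
    exact ⟨0, by simp, le_rfl, le_rfl⟩
  have hX0 : X.length ≠ 0 := fun e => by
    rw [e, zero_mul] at b2
    omega
  obtain ⟨i, hi⟩ : ∃ i, i = X.length - 1 := ⟨_, rfl⟩
  rw [← hi] at hjs ⊢
  rcases Nat.lt_or_ge i TJ.length with h1 | h1
  · have h3 := List.all_eq_true.1 (List.all_eq_true.1 k3 (dds G U E).card
      (List.mem_range.2 (by omega))) i (List.mem_range.2 h1)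
    have h4 := tkj_of h3 _ h0 (by
      refine le_min (by omega) ?_
      rw [show i + 1 = X.length by omega]
      exact b2)
    obtain ⟨RT, hRT⟩ : ∃ RT, RT = TJ.getD i [] := ⟨_, rfl⟩
    have hok : okJ RT = true := by rw [hRT]; exact okJ_getD hTJ i
    rw [← hRT] at h4 hjs ⊢
    refine ⟨qqj g (fb.getD (dds G U E).card 0) (fb.getD ((dds G U E).card +
      (hit G U (rem G U X) E).card) 0), qqj_le hg _ _, ?_⟩
    rcases Nat.eq_zero_or_pos RT.length with hl | hl
    · have e0 : ∀ j, rwj RT j = [] := fun j => by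
        unfold rwj
        exact List.getD_eq_default _ _ (by omega)
      rw [e0, e0]
      exact thr_step (T := []) (T' := []) rfl h0 (hval _) (by simp [thr]) (by rw [ctj_out] <;> simp)
    · have h5 := List.all_eq_true.1 h4 (Nat.min (Nat.pred RT.length) j)
        (List.mem_range.2 (by
          change min (RT.length - 1) j < RT.length
          omega))
      rw [rwj_rwj] at h5
      exact thr_step (tokj_rwj hok j) h0 (hval _) h5 hjs
  · rw [List.getD_eq_default _ _ h1]
    have e0 : ∀ j, rwj [] j = [] := fun j => rfl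
    refine ⟨fb.getD ((dds G U E).card + (hit G U (rem G U X) E).card) 0, ?_, ?_⟩
    · have := Nat.le_mul_of_pos_left (fb.getD ((dds G U E).card + (hit G U (rem G U X) E).card) 0) hg
      omega
    · rw [e0, e0]
      exact thr_step (T := []) (T' := []) rfl h0 (hval _) (by simp [thr]) (by rw [ctj_out] <;> simp)

/-- **the rows are valid by the check** -/
theorem tabJ_of (hG : G.IsRegularOfDegree 3) {U : Finset V} (hI : Inv G U) {CA CB : List CPc}
    (hCA : cok CA) {XL : List (ℕ × ℕ)} {g : ℕ} (hg : 0 < g) {TJ : List (List (List ℕ))}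
    (hTJ : (TJ.all okJ) = true) {KJ : List (List ℕ)} (hc : pcksJ XL g TJ CA CB KJ = true)
    (hX : NoE G U XL) : TabJ CA CB g TJ G U :=
  tabJ_ofI hG hI hCA hg hTJ (pcksJ_of hc) hX

/-- the rows are valid in all states without the patterns -/
def TblJ (XL : List (ℕ × ℕ)) (g : ℕ) (TJ : List (List (List ℕ))) (CA CB : List CPc) : Prop :=
  ∀ (V : Type) [Fintype V] [DecidableEq V] (G : SimpleGraph V) [DecidableRel G.Adj],
    G.IsRegularOfDegree 3 → ∀ U : Finset V, Inv G U → NoE G U XL → TabJ CA CB g TJ G U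

theorem tblJ_of {XL : List (ℕ × ℕ)} {g : ℕ} (hg : 0 < g) {TJ : List (List (List ℕ))} {CA CB : List CPc}
    (hCA : cok CA) (hTJ : (TJ.all okJ) = true) {KJ : List (List ℕ)}
    (hc : pcksJ XL g TJ CA CB KJ = true) : TblJ XL g TJ CA CB :=
  fun _ _ _ _ _ hG _ hI hX => tabJ_of hG hI hCA hg hTJ hc hX

end EF18
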