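import Pool.Agent.Lib.MP_ef18bd_co.P.Wd

/-!
# Word arithmetic on patterns: flags

`fl P K`: the number with the flags `P k` at the bits `8 * k`, `nl P n`: with the flags `P i` at the bits
`24 * i`.
-/

namespace EF18

namespace W

theorem fz_eq {α : Type} (n : ℕ) (f : ℕ → α) : fz n f = f n := rfl

theorem zc_zero {α : Type} (a b : α) : zc 0 a b = a := rfl

theorem zc_succ {α : Type} (n : ℕ) (a b : α) : zc (n + 1) a b = b := rfl

theorem zc_eq {α : Type} (n : ℕ) (a b : α) : zc n a b = if n = 0 then a else b := by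
  cases n <;> simp [zc]

theorem bc_eq {α : Type} (c : Bool) (a b : α) : bc c a b = if c = true then b else a := by
  cases c <;> rfl

theorem lp_zero (f : ℕ → ℕ → ℕ) : lp f 0 = 0 := rfl

theorem lp_succ (f : ℕ → ℕ → ℕ) (n : ℕ) : lp f (n + 1) = f n (lp f n) := rfl

/-- the flags at the bits `8 * k` -/
def fl (P : ℕ → Bool) : ℕ → ℕ
  | 0 => 0
  | k + 1 => fl P k + (P k).toNat * 256 ^ k

theorem fl_lt (P : ℕ → Bool) (K : ℕ) : fl P K < 256 ^ K := by
  induction K with
  | zero => simp [fl]
  | succ K ih =>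
    rw [fl, pow_succ]
    have : (P K).toNat ≤ 1 := Bool.toNat_le (P K)
    have h2 : (P K).toNat * 256 ^ K ≤ 1 * 256 ^ K := Nat.mul_le_mul_right _ this
    omega

theorem pow256 (k : ℕ) : 256 ^ k = 2 ^ (8 * k) := by
  rw [pow_mul]; norm_num

theorem tb_fl (P : ℕ → Bool) (K j : ℕ) :
    (fl P K).testBit j = (decide (j % 8 = 0) && decide (j / 8 < K) && P (j / 8)) := by
  induction K generalizing j with
  | zero => simp [fl]
  | succ K ih =>
    have h := fl_lt P K
    rw [fl, add_comm, mul_comm, pow256]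
    rw [pow256] at h
    rw [Nat.testBit_two_pow_mul_add _ h, ih]
    split_ifs with h1
    · have h2 : j / 8 < K := by omega
      have h3 : j / 8 < K + 1 := by omega
      simp [h2, h3]
    · by_cases h2 : j = 8 * K
      · subst h2
        cases hP : P K <;> simp [hP]
      · have h3 : ¬ (j % 8 = 0 ∧ j / 8 < K + 1) := by omega
        have h4 : j - 8 * K ≠ 0 := by omega
        have h5 : ((P K).toNat).testBit (j - 8 * K) = false := by
          cases P K
          · simp
          · rw [Bool.toNat_true]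
            exact Nat.testBit_one_eq_true_iff_self_eq_zero.not.2 (by omega) |> fun e => by
              cases hh : (1 : ℕ).testBit (j - 8 * K)
              · rfl
              · exact absurd hh e
        rw [h5]
        by_cases h6 : j % 8 = 0
        · have h7 : ¬ j / 8 < K + 1 := fun h8 => h3 ⟨h6, h8⟩
          simp [h7]
        · simp [h6]

theorem fl_congr {P Q : ℕ → Bool} {K : ℕ} (h : ∀ k < K, P k = Q k) : fl P K = fl Q K := by
  induction K with
  | zero => rfl
  | succ K ih => rw [fl, fl, ih fun k hk => h k (by omega), h K (by omega)]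

theorem land_fl (P Q : ℕ → Bool) (K : ℕ) : Nat.land (fl P K) (fl Q K) = fl (fun k => P k && Q k) K := by
  apply Nat.eq_of_testBit_eq
  intro j
  show (fl P K &&& fl Q K).testBit j = _
  rw [Nat.testBit_land, tb_fl, tb_fl, tb_fl]
  cases decide (j % 8 = 0) <;> cases decide (j / 8 < K) <;> simp

theorem lor_fl (P Q : ℕ → Bool) (K : ℕ) : Nat.lor (fl P K) (fl Q K) = fl (fun k => P k || Q k) K := by
  apply Nat.eq_of_testBit_eq
  intro j
  show (fl P K ||| fl Q K).testBit j = _
  rw [Nat.testBit_lor, tb_fl, tb_fl, tb_fl]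
  cases decide (j % 8 = 0) <;> cases decide (j / 8 < K) <;> simp

theorem xor_fl (P Q : ℕ → Bool) (K : ℕ) : Nat.xor (fl P K) (fl Q K) = fl (fun k => P k ^^ Q k) K := by
  apply Nat.eq_of_testBit_eq
  intro j
  show (fl P K ^^^ fl Q K).testBit j = _
  rw [Nat.testBit_xor, tb_fl, tb_fl, tb_fl]
  cases decide (j % 8 = 0) <;> cases decide (j / 8 < K) <;> simp

theorem wo_fl (P Q : ℕ → Bool) (K : ℕ) : wo (fl P K) (fl Q K) = fl (fun k => P k && !Q k) K := by
  unfold wo
  rw [land_fl, xor_fl]
  refine fl_congr fun k _ => ?_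
  cases P k <;> cases Q k <;> rfl

theorem sm_eq' (f : ℕ → ℕ) (n : ℕ) : sm f n = Nat.rec (motive := fun _ => ℕ) 0 (fun i r => Nat.add (f i) r) n :=
  rfl

theorem sm_succ (f : ℕ → ℕ) (n : ℕ) : sm f (n + 1) = f n + sm f n := rfl

theorem sm_zero (f : ℕ → ℕ) : sm f 0 = 0 := rfl

/-- the number of flags -/
theorem ct_fl {P : ℕ → Bool} {K : ℕ} (hK : K < 255) : ct (fl P K) = sm (fun k => (P k).toNat) K := by
  have h1 : ∀ K, fl P K % 255 = sm (fun k => (P k).toNat) K % 255 := by
    intro K
    induction K with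
    | zero => rfl
    | succ K ih =>
      rw [fl, sm_succ, Nat.add_mod, ih, Nat.mul_mod, Nat.pow_mod]
      norm_num
      rw [add_comm]
  have h2 : ∀ K, sm (fun k => (P k).toNat) K ≤ K := by
    intro K
    induction K with
    | zero => exact le_rfl
    | succ K ih =>
      rw [sm_succ]
      have : (P K).toNat ≤ 1 := Bool.toNat_le (P K)
      omega
  show fl P K % 255 = _
  rw [h1, Nat.mod_eq_of_lt (lt_of_le_of_lt (h2 K) hK)]

/-- the flags at the bits `24 * i` -/
def nl (P : ℕ → Bool) (n : ℕ) : ℕ := fl (fun k => decide (k % 3 = 0) && P (k / 3)) (3 * n)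

theorem tb_nl (P : ℕ → Bool) (n j : ℕ) :
    (nl P n).testBit j = (decide (j % 24 = 0) && decide (j / 24 < n) && P (j / 24)) := by
  rw [nl, tb_fl]
  by_cases h : j % 24 = 0
  · have h1 : j % 8 = 0 := by omega
    have h2 : j / 8 % 3 = 0 := by omega
    have h3 : j / 8 / 3 = j / 24 := by omega
    have h4 : (j / 8 < 3 * n) = (j / 24 < n) := by
      apply propext; omega
    simp only [h, h1, h2, h3, h4]
    simp
  · rw [decide_eq_false h]
    by_cases h1 : j % 8 = 0
    · have h2 : ¬ j / 8 % 3 = 0 := by omega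
      simp [h2]
    · simp [h1]

theorem nl_congr {P Q : ℕ → Bool} {n : ℕ} (h : ∀ i < n, P i = Q i) : nl P n = nl Q n := by
  refine fl_congr fun k hk => ?_
  rw [h (k / 3) (by omega)]

theorem land_nl (P Q : ℕ → Bool) (n : ℕ) : Nat.land (nl P n) (nl Q n) = nl (fun i => P i && Q i) n := by
  unfold nl
  rw [land_fl]
  refine fl_congr fun k _ => ?_
  cases decide (k % 3 = 0) <;> simp

theorem lor_nl (P Q : ℕ → Bool) (n : ℕ) : Nat.lor (nl P n) (nl Q n) = nl (fun i => P i || Q i) n := by
  unfold nl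
  rw [lor_fl]
  refine fl_congr fun k _ => ?_
  cases decide (k % 3 = 0) <;> simp

theorem wo_nl (P Q : ℕ → Bool) (n : ℕ) : wo (nl P n) (nl Q n) = nl (fun i => P i && !Q i) n := by
  unfold nl
  rw [wo_fl]
  refine fl_congr fun k _ => ?_
  cases decide (k % 3 = 0) <;> simp

theorem ct_nl {P : ℕ → Bool} {n : ℕ} (hn : 3 * n < 255) : ct (nl P n) = sm (fun i => (P i).toNat) n := by
  rw [nl, ct_fl hn]
  clear hn
  induction n with
  | zero => rfl
  | succ n ih =>
    rw [show 3 * (n + 1) = 3 * n + 1 + 1 + 1 by ring, sm_succ, sm_succ, sm_succ, sm_succ, ih]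
    have h1 : ¬ (3 * n + 1 + 1) % 3 = 0 := by omega
    have h2 : ¬ (3 * n + 1) % 3 = 0 := by omega
    have h3 : 3 * n % 3 = 0 := by omega
    have h4 : 3 * n / 3 = n := by omega
    simp only [h1, h2, h3, h4]
    simp

/-- from ports to nodes -/
theorem nf_fl (P : ℕ → Bool) (n : ℕ) :
    nf (nl (fun _ => true) n) (fl P (3 * n)) = nl (fun i => P (3 * i) || P (3 * i + 1) || P (3 * i + 2)) n := by
  apply Nat.eq_of_testBit_eq
  intro j
  show (((fl P (3 * n) ||| fl P (3 * n) >>> 8) ||| fl P (3 * n) >>> 16) &&& nl (fun _ => true) n).testBit j = _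
  rw [Nat.testBit_land, Nat.testBit_lor, Nat.testBit_lor, Nat.testBit_shiftRight, Nat.testBit_shiftRight,
    tb_fl, tb_fl, tb_fl, tb_nl, tb_nl]
  by_cases h : j % 24 = 0
  · by_cases h1 : j / 24 < n
    · have a1 : j % 8 = 0 := by omega
      have a2 : (8 + j) % 8 = 0 := by omega
      have a3 : (16 + j) % 8 = 0 := by omega
      have b1 : j / 8 = 3 * (j / 24) := by omega
      have b2 : (8 + j) / 8 = 3 * (j / 24) + 1 := by omega
      have b3 : (16 + j) / 8 = 3 * (j / 24) + 2 := by omega
      have c1 : 3 * (j / 24) < 3 * n := by omega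
      have c2 : 3 * (j / 24) + 1 < 3 * n := by omega
      have c3 : 3 * (j / 24) + 2 < 3 * n := by omega
      simp only [h, h1, a1, a2, a3, b1, b2, b3, c1, c2, c3, decide_true, Bool.true_and, Bool.and_true]
    · simp [h1]
  · simp [h]

/-- from nodes to ports -/
theorem nl_mul (P : ℕ → Bool) (n : ℕ) : Nat.mul (nl P n) 65793 = fl (fun k => P (k / 3)) (3 * n) := by
  show nl P n * 65793 = _
  induction n with
  | zero => simp [nl, fl]
  | succ n ih =>
    unfold nl at ih ⊢
    rw [show 3 * (n + 1) = 3 * n + 1 + 1 + 1 by ring]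
    simp only [fl]
    have h1 : ¬ (3 * n + 1 + 1) % 3 = 0 := by omega
    have h2 : ¬ (3 * n + 1) % 3 = 0 := by omega
    have h3 : 3 * n % 3 = 0 := by omega
    have h4 : 3 * n / 3 = n := by omega
    have h5 : (3 * n + 1) / 3 = n := by omega
    have h6 : (3 * n + 1 + 1) / 3 = n := by omega
    simp only [h1, h2, h3, h4, h5, h6, decide_false, decide_true, Bool.false_and, Bool.true_and,
      Bool.toNat_false, zero_mul, add_zero, add_mul, ih, pow_succ]
    ring

/-! ### constants -/

theorem fl_true (K : ℕ) : 255 * fl (fun _ => true) K + 1 = 256 ^ K := by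
  induction K with
  | zero => rfl
  | succ K ih =>
    rw [fl, pow_succ, Bool.toNat_true, one_mul]
    omega

theorem ones_eq (n : ℕ) : Nat.div (Nat.pow 16777216 n) 255 = fl (fun _ => true) (3 * n) := by
  show 16777216 ^ n / 255 = _
  have h := fl_true (3 * n)
  rw [show 16777216 = 256 ^ 3 by norm_num, ← pow_mul]
  omega

theorem nl_true (n : ℕ) : 16777215 * nl (fun _ => true) n + 1 = 16777216 ^ n := by
  have h := nl_mul (fun _ => true) n
  have h2 := fl_true (3 * n)
  change nl (fun _ => true) n * 65793 = _ at h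
  rw [show (16777216 : ℕ) = 256 ^ 3 by norm_num, ← pow_mul, ← h2, ← h]
  ring

theorem nodes_eq (n : ℕ) : Nat.div (Nat.pow 16777216 n) 16777215 = nl (fun _ => true) n := by
  show 16777216 ^ n / 16777215 = _
  have h := nl_true n
  omega

/-! ### numbers with given digits -/

/-- the number with the digits `f k` -/
def ds (f : ℕ → ℕ) : ℕ → ℕ
  | 0 => 0
  | k + 1 => ds f k + f k * 256 ^ k

theorem ds_lt {f : ℕ → ℕ} {K : ℕ} (h : ∀ k < K, f k < 256) : ds f K < 256 ^ K := by
  induction K with
  | zero => simp [ds]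
  | succ K ih =>
    rw [ds, pow_succ]
    have h1 := ih fun k hk => h k (by omega)
    have h2 := h K (by omega)
    have h3 : f K * 256 ^ K ≤ 255 * 256 ^ K := Nat.mul_le_mul_right _ (by omega)
    omega

theorem tb_ds {f : ℕ → ℕ} {K : ℕ} (h : ∀ k < K, f k < 256) (j : ℕ) :
    (ds f K).testBit j = (decide (j / 8 < K) && (f (j / 8)).testBit (j % 8)) := by
  induction K generalizing j with
  | zero => simp [ds]
  | succ K ih =>
    have h1 := ds_lt fun k hk => h k (Nat.lt_succ_of_lt hk)
    rw [ds, add_comm, mul_comm, pow256]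
    rw [pow256] at h1
    rw [Nat.testBit_two_pow_mul_add _ h1, ih fun k hk => h k (Nat.lt_succ_of_lt hk)]
    split_ifs with h2
    · have h3 : j / 8 < K := by omega
      have h4 : j / 8 < K + 1 := by omega
      simp [h3, h4]
    · by_cases h3 : j / 8 = K
      · have h4 : j - 8 * K = j % 8 := by omega
        rw [h4, h3]
        simp
      · have h4 : ¬ j / 8 < K + 1 := by omega
        rw [decide_eq_false h4, Bool.false_and]
        refine Nat.testBit_lt_two_pow (lt_of_lt_of_le (h K (Nat.lt_succ_self K)) ?_)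
        rw [show 256 = 2 ^ 8 by norm_num]
        exact Nat.pow_le_pow_right (by norm_num) (by omega)

theorem ds_add (f g : ℕ → ℕ) (K : ℕ) : ds f K + ds g K = ds (fun k => f k + g k) K := by
  induction K with
  | zero => rfl
  | succ K ih =>
    rw [ds, ds, ds, ← ih]
    ring

theorem ds_mul (f : ℕ → ℕ) (a K : ℕ) : ds f K * a = ds (fun k => f k * a) K := by
  induction K with
  | zero => simp [ds]
  | succ K ih =>
    rw [ds, ds, ← ih]
    ring

theorem fl_ds (P : ℕ → Bool) (K : ℕ) : fl P K = ds (fun k => (P k).toNat) K := by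
  induction K with
  | zero => rfl
  | succ K ih => rw [fl, ds, ih]

theorem dg_lt (p k : ℕ) : dg p k < 256 := Nat.mod_lt _ (by norm_num)

theorem tb_dg (p k r : ℕ) (hr : r < 8) : (dg p k).testBit r = p.testBit (8 * k + r) := by
  unfold dg
  rw [show (256 : ℕ) = 2 ^ 8 by norm_num, ← pow_mul, Nat.testBit_mod_two_pow, Nat.testBit_div_two_pow,
    decide_eq_true hr, Bool.true_and, add_comm]

theorem ds_dg {p K : ℕ} (h : ∀ k, K ≤ k → dg p k = 0) : ds (dg p) K = p := by
  apply Nat.eq_of_testBit_eq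
  intro j
  rw [tb_ds fun k _ => dg_lt p k, tb_dg _ _ _ (Nat.mod_lt _ (by norm_num)), Nat.div_add_mod]
  by_cases h1 : j / 8 < K
  · simp [h1]
  · have h2 := tb_dg p (j / 8) (j % 8) (Nat.mod_lt _ (by norm_num))
    rw [h _ (by omega), Nat.zero_testBit, Nat.div_add_mod] at h2
    rw [← h2]
    simp

/-! ### the digits which are not zero -/

theorem byte_nz : ∀ b < 256, ∀ r < 8, ((((b &&& 127) + 127 ||| b) &&& 128)).testBit r =
    (decide (r = 7) && !Nat.beq b 0) := by decide +kernel

theorem byte_lt : ∀ b < 256, (b &&& 127) + 127 < 256 := by decide +kernel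

theorem nzf_eq (x K : ℕ) :
    nzf (fl (fun _ => true) K) x = fl (fun k => !Nat.beq (dg x k) 0) K := by
  have hc : ∀ a < 256, ∀ k < K, (fun k => (true : Bool).toNat * a) k < 256 := fun a ha k _ => by
    simpa using ha
  have e1 : Nat.land x (Nat.mul (fl (fun _ => true) K) 127) = ds (fun k => dg x k &&& 127) K := by
    show x &&& (fl (fun _ => true) K * 127) = _
    apply Nat.eq_of_testBit_eq
    intro j
    rw [fl_ds, ds_mul, Nat.testBit_land, tb_ds (hc 127 (by norm_num)), tb_ds, Nat.testBit_land,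
      tb_dg _ _ _ (Nat.mod_lt _ (by norm_num)), Nat.div_add_mod]
    · simp only [Bool.toNat_true, one_mul]
      cases decide (j / 8 < K) <;> simp
    · exact fun k _ => lt_of_le_of_lt Nat.and_le_left (dg_lt x k)
  have e2 : Nat.add (Nat.land x (Nat.mul (fl (fun _ => true) K) 127)) (Nat.mul (fl (fun _ => true) K) 127) =
      ds (fun k => (dg x k &&& 127) + 127) K := by
    show Nat.land x (Nat.mul (fl (fun _ => true) K) 127) + fl (fun _ => true) K * 127 = _
    rw [e1, fl_ds, ds_mul, ds_add]
    simp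
  unfold nzf
  rw [e2]
  apply Nat.eq_of_testBit_eq
  intro j
  show (((ds (fun k => (dg x k &&& 127) + 127) K ||| x) &&& (fl (fun _ => true) K * 128)) >>> 7).testBit j = _
  rw [Nat.testBit_shiftRight, tb_fl, Nat.testBit_land, Nat.testBit_lor, fl_ds, ds_mul,
    tb_ds (hc 128 (by norm_num)), tb_ds fun k _ => byte_lt _ (dg_lt x k)]
  have h1 := tb_dg x ((7 + j) / 8) ((7 + j) % 8) (Nat.mod_lt _ (by norm_num))
  rw [Nat.div_add_mod] at h1
  rw [← h1]
  have h2 := byte_nz (dg x ((7 + j) / 8)) (dg_lt _ _) ((7 + j) % 8) (Nat.mod_lt _ (by norm_num))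
  rw [Nat.testBit_land, Nat.testBit_lor] at h2
  simp only [Bool.toNat_true, one_mul]
  by_cases h3 : (7 + j) / 8 < K
  · simp only [h3, decide_true, Bool.true_and]
    rw [h2]
    by_cases h4 : j % 8 = 0
    · have h5 : (7 + j) % 8 = 7 := by omega
      have h6 : (7 + j) / 8 = j / 8 := by omega
      rw [h6] at h3
      rw [h5, h6]
      simp [h4, h3]
    · have h5 : ¬ (7 + j) % 8 = 7 := by omega
      simp [h4, h5]
  · simp only [h3, decide_false, Bool.false_and, Bool.and_false]
    by_cases h4 : j % 8 = 0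
    · have h5 : ¬ j / 8 < K := by omega
      simp [h5]
    · simp [h4]

end W

end EF18
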