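import Pool.Agent.Lib.MP_ef18bd_co.P.JntR
import Pool.Agent.Lib.MP_ef18bd_co.P.WdA

/-!
# Closed patterns in search trees

`XT`: a search tree of patterns, `flA`: its list; `mmt`: the search. `Sub m dn`: what `m` accepts is in the list `dn`.
`pcksM`, `nzkM`, `j0kM`: the checks of the tables with `m` in the place of the list. `Dj.rawM`: one phase, all closed
patterns may be used for the tables.
-/

namespace EF18

open Finset

/-- a search tree of patterns `(a, p)`; the nodes have the numbers `slt p` -/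
inductive XT : Type
  | e : XT
  | n (l : XT) (a s : ℕ) (r : XT) : XT

/-- the list of a tree, in front of a list -/
def flA : XT → List (ℕ × ℕ) → List (ℕ × ℕ)
  | .e, L => L
  | .n l a s r, L => flA l ((a, Nat.shiftRight s 64) :: flA r L)

/-- the search for `a` and the number `s = slt p` -/
noncomputable def mmt (a s : ℕ) (T : XT) : Bool :=
  XT.rec (motive := fun _ => Bool) false (fun _ b t _ l r => W.bc (Nat.beq s t) (W.bc (Nat.ble s t) r l)
    (Nat.beq a b)) T

theorem mem_flA {q : ℕ × ℕ} {T : XT} : ∀ {L : List (ℕ × ℕ)}, q ∈ L → q ∈ flA T L := by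
  induction T with
  | e => intro L h; exact h
  | n l a p r ihl ihr =>
    intro L h
    exact ihl (List.mem_cons_of_mem _ (ihr h))

theorem mmt_of {a p : ℕ} {T : XT} : ∀ {L : List (ℕ × ℕ)}, mmt a (slt p) T = true → (a, p) ∈ flA T L := by
  induction T with
  | e => intro L h; exact absurd h (by simp [mmt])
  | n l b t r ihl ihr =>
    intro L h
    have e1 : mmt a (slt p) (XT.n l b t r) = W.bc (Nat.beq (slt p) t) (W.bc (Nat.ble (slt p) t)
      (mmt a (slt p) r) (mmt a (slt p) l)) (Nat.beq a b) := rfl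
    have e2 : flA (XT.n l b t r) L = flA l ((b, Nat.shiftRight t 64) :: flA r L) := rfl
    rw [e1, W.bc_eq, W.bc_eq] at h
    rw [e2]
    split_ifs at h with h1 h2
    · refine mem_flA ?_
      rw [← Nat.eq_of_beq_eq_true h1, slt_eq, Nat.eq_of_beq_eq_true h]
      exact List.mem_cons_self
    · exact ihl h
    · exact mem_flA (List.mem_cons_of_mem _ (ihr h))

/-- what `m` accepts is in the list -/
def Sub (m : ℕ → ℕ → Bool) (L : List (ℕ × ℕ)) : Prop := ∀ a p, m a p = true → (a, p) ∈ L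

/-- nothing -/
def mnl (_ _ : ℕ) : Bool := false

/-- in the tree or by `m` -/
noncomputable def mcn (T : XT) (m : ℕ → ℕ → Bool) (a p : ℕ) : Bool := W.bc (mmt a (slt p) T) (m a p) true

theorem sub_nil (L : List (ℕ × ℕ)) : Sub mnl L := fun _ _ h => absurd h (by simp [mnl])

theorem sub_cons (T : XT) {m : ℕ → ℕ → Bool} {L : List (ℕ × ℕ)} (h : Sub m L) : Sub (mcn T m) (flA T [] ++ L) := by
  intro a p h1
  unfold mcn at h1
  rw [W.bc_eq] at h1
  split_ifs at h1 with h2
  · exact List.mem_append_left _ (mmt_of h2)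
  · exact List.mem_append_right _ (h a p h1)

theorem mem2_iff {q : ℕ × ℕ} {L : List (ℕ × ℕ)} (h : q ∈ L) : mem2 q L = true := by
  induction L with
  | nil => exact absurd h List.not_mem_nil
  | cons r L ih =>
    rw [mem2, Bool.or_eq_true]
    rcases List.mem_cons.1 h with rfl | h
    · left
      rw [Bool.and_eq_true, Nat.beq_eq, Nat.beq_eq]
      exact ⟨rfl, rfl⟩
    · exact Or.inr (ih h)

/-- all patterns of the list -/
def alm (m : ℕ → ℕ → Bool) (L : List (ℕ × ℕ)) : Bool := L.all fun s => m s.1 s.2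

theorem alm_of {m : ℕ → ℕ → Bool} {XL : List (ℕ × ℕ)} (hm : Sub m XL) {L : List (ℕ × ℕ)} (h : alm m L = true) :
    (L.all fun s => mem2 s XL) = true := by
  rw [List.all_eq_true]
  exact fun s hs => mem2_iff (hm _ _ (List.all_eq_true.1 h s hs))

/-! ### the bounds `κ` -/

/-- `fbp` -/
def fbM (m : ℕ → ℕ → Bool) (r : ℕ × ℕ) (k k' : ℕ) : Bool :=
  alm m (lpx r.1 r.2 (3 * tg (dg r.2 k) + 2) (3 * tg (dg r.2 k') + 2))

/-- `f1p` -/
def f1M (m : ℕ → ℕ → Bool) (r : ℕ × ℕ) (k k' : ℕ) : Bool :=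
  m (r.1 + 1) (cdd (thp r k') (3 * r.1 + 1) (cdd (thp r k) (3 * r.1) r.2))

/-- `t8p` -/
def t8M (m : ℕ → ℕ → Bool) (r : ℕ × ℕ) (k k' k'' : ℕ) : Bool :=
  alm m (tpx r.1 r.2 (thp r k) (thp r k') (thp r k''))

/-- `kqf` -/
def kqM (m : ℕ → ℕ → Bool) (r : ℕ × ℕ) (Z : List ℕ) : Bool :=
  alm m (kpx r.1 (Z.map (thp r)) (r.1 + 1) r.2 0 [])

/-- `kpr` -/
def krM (m : ℕ → ℕ → Bool) (N p n : ℕ) (S : List ℕ) (κ : ℕ) : Bool :=
  nwi (N, p) n && S.all (nwk (N, p) n) && Nat.ble (N + 3) 40 && clq (fbM m (N, p)) S (Nat.succ κ) []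

/-- `kpt` -/
def ktM (m : ℕ → ℕ → Bool) (r : ℕ × ℕ) (n : ℕ) (S : List ℕ) (κ : ℕ) : Bool :=
  Nat.ble 2 κ && Nat.ble (r.1 + 4) 40 && nwi r n && S.all (nwk r n) && allp (f1M m r) S &&
    (Nat.ble 3 κ || allt (t8M m r) S)

/-- `kpq` -/
def kpM (m : ℕ → ℕ → Bool) (r : ℕ × ℕ) (n : ℕ) (S : List ℕ) (κ : ℕ) : Bool :=
  Nat.ble (r.1 + κ + 2) 40 && nwi r n && S.all (nwk r n) &&
    S.sublists.all fun Z => !Nat.beq Z.length (Nat.succ κ) || (anyp (fbM m r) Z || kqM m r Z)

/-- the three rules -/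
def k3M (m : ℕ → ℕ → Bool) (N p n : ℕ) (S : List ℕ) (κ : ℕ) : Bool :=
  krM m N p n S κ || (ktM m (N, p) n S κ || kpM m (N, p) n S κ)

theorem clq_mono {f f' : ℕ → ℕ → Bool} (hf : ∀ x y, f x y = true → f' x y = true) : ∀ {L : List ℕ} {k : ℕ}
    {A : List ℕ}, clq f L k A = true → clq f' L k A = true := by
  intro L
  induction L with
  | nil => intro k A h; exact h
  | cons x L ih =>
    intro k A h
    rw [clq] at h ⊢
    cases hk : Nat.beq k 0
    · rw [hk, cond_false, Bool.and_eq_true, Bool.or_eq_true] at h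
      rw [cond_false, Bool.and_eq_true, Bool.or_eq_true]
      refine ⟨ih h.1, h.2.imp (fun h1 => ?_) ih⟩
      obtain ⟨y, hy, h2⟩ := List.any_eq_true.1 h1
      exact List.any_eq_true.2 ⟨y, hy, hf _ _ h2⟩
    · rw [hk, cond_true] at h
      exact absurd h (by simp)

theorem allp_mono {f f' : ℕ → ℕ → Bool} (hf : ∀ x y, f x y = true → f' x y = true) : ∀ {L : List ℕ},
    allp f L = true → allp f' L = true := by
  intro L
  induction L with
  | nil => intro h; exact h
  | cons x L ih =>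
    intro h
    rw [allp, Bool.and_eq_true] at h ⊢
    exact ⟨List.all_eq_true.2 fun y hy => hf _ _ (List.all_eq_true.1 h.1 y hy), ih h.2⟩

theorem allt_mono {f f' : ℕ → ℕ → ℕ → Bool} (hf : ∀ x y z, f x y z = true → f' x y z = true) : ∀ {L : List ℕ},
    allt f L = true → allt f' L = true := by
  intro L
  induction L with
  | nil => intro h; exact h
  | cons x L ih =>
    intro h
    rw [allt, Bool.and_eq_true] at h ⊢
    exact ⟨allp_mono (hf x) h.1, ih h.2⟩

theorem anyp_mono {f f' : ℕ → ℕ → Bool} (hf : ∀ x y, f x y = true → f' x y = true) : ∀ {L : List ℕ},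
    anyp f L = true → anyp f' L = true := by
  intro L
  induction L with
  | nil => intro h; exact h
  | cons x L ih =>
    intro h
    rw [anyp, Bool.or_eq_true] at h ⊢
    refine h.imp (fun h1 => ?_) ih
    obtain ⟨y, hy, h2⟩ := List.any_eq_true.1 h1
    exact List.any_eq_true.2 ⟨y, hy, hf _ _ h2⟩

section

variable {m : ℕ → ℕ → Bool} {XL : List (ℕ × ℕ)}

theorem fbM_of (hm : Sub m XL) {r : ℕ × ℕ} (k k' : ℕ) (h : fbM m r k k' = true) : fbp XL r k k' = true :=
  alm_of hm h

theorem k3M_of (hm : Sub m XL) {N p n : ℕ} {S : List ℕ} {κ : ℕ} (h : k3M m N p n S κ = true) :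
    (kpr XL N p n S κ || kpt XL (N, p) n S κ) = true ∨ kpq XL (N, p) n S κ = true := by
  unfold k3M at h
  rw [Bool.or_eq_true, Bool.or_eq_true] at h
  rcases h with h | h | h
  · left
    rw [Bool.or_eq_true]
    left
    unfold krM at h
    unfold kpr
    rw [Bool.and_eq_true] at h ⊢
    exact ⟨h.1, clq_mono (fun x y => fbM_of hm x y) h.2⟩
  · left
    rw [Bool.or_eq_true]
    right
    unfold ktM at h
    unfold kpt
    rw [Bool.and_eq_true, Bool.and_eq_true, Bool.or_eq_true] at h ⊢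
    exact ⟨⟨h.1.1, allp_mono (fun x y hxy => mem2_iff (hm _ _ hxy)) h.1.2⟩,
      h.2.imp id (allt_mono fun x y z hxy => alm_of hm hxy)⟩
  · right
    unfold kpM at h
    unfold kpq
    rw [Bool.and_eq_true] at h ⊢
    refine ⟨h.1, List.all_eq_true.2 fun Z hZ => ?_⟩
    have h1 := List.all_eq_true.1 h.2 Z hZ
    rw [Bool.or_eq_true, Bool.or_eq_true] at h1 ⊢
    refine h1.imp id fun h2 => ?_
    rcases h2 with h2 | h2
    · exact Or.inr (anyp_mono (fun x y => fbM_of hm x y) h2)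
    · exact Or.inl (alm_of hm h2)

end

/-! ### the tables -/

/-- no pick kills more than `κ` of the live link vertices `S` of the piece `q`, or the state is closed -/
def kM (m : ℕ → ℕ → Bool) (q : ℕ × ℕ) (S : List ℕ) (κ N p : ℕ) : Bool :=
  W.bc (m N p) (k3M m N p q.1 S κ) true

/-- the state `S` -/
def kSM (m : ℕ → ℕ → Bool) (q : ℕ × ℕ) (S : List ℕ) (κ : ℕ) : Bool :=
  W.bc (Nat.ble S.length κ) (kM m q S κ (rt q S).1 (rt q S).2) true

theorem kSM_of {m : ℕ → ℕ → Bool} {XL : List (ℕ × ℕ)} (hm : Sub m XL) {q : ℕ × ℕ} {S : List ℕ} {κ : ℕ}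
    (h : kSM m q S κ = true) : (kpc4 XL q S κ || mem2 (rt q S) XL) = true := by
  unfold kSM kM at h
  rw [W.bc_eq, W.bc_eq] at h
  rw [Bool.or_eq_true]
  unfold kpc4 kpc3
  rw [frc_eq, frc_eq, frc_eq, frc_eq]
  split_ifs at h with h1 h2
  · left
    rw [h1]
    rfl
  · exact Or.inr (mem2_iff (hm _ _ h2))
  · left
    rcases k3M_of hm h with h3 | h3
    · rw [h3, Bool.or_true]
      rfl
    · rw [h3, Bool.or_true]

/-- one pair of rows -/
def thL (x y : ℕ) : List ℕ → List ℕ → Bool :=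
  List.rec (motive := fun _ => List ℕ → Bool) (List.rec (motive := fun _ => Bool) true fun _ _ _ => false)
    fun v _ r => List.rec (motive := fun _ => Bool) true fun w L _ =>
      W.bc (W.zc v true (W.bc (Nat.ble v w) false (Nat.ble (Nat.add x v) (Nat.add y w)))) false (r L)

theorem thL_of {x y : ℕ} : ∀ {T L : List ℕ}, thL x y T L = true → L.length ≤ T.length ∧
    ∀ s < L.length, T.getD s 0 ≠ 0 → T.getD s 0 ≤ L.getD s 0 ∧ x + T.getD s 0 ≤ y + L.getD s 0 := by
  intro T
  induction T with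
  | nil =>
    intro L h
    cases L with
    | nil => exact ⟨le_rfl, fun s hs => absurd hs (by simp)⟩
    | cons w L => exact absurd h (by simp [thL])
  | cons v T ih =>
    intro L h
    cases L with
    | nil => exact ⟨Nat.zero_le _, fun s hs => absurd hs (by simp)⟩
    | cons w L =>
      have e : thL x y (v :: T) (w :: L) = W.bc (W.zc v true (W.bc (Nat.ble v w) false
        (Nat.ble (Nat.add x v) (Nat.add y w)))) false (thL x y T L) := rfl
      rw [e, W.bc_eq] at h
      split_ifs at h with h1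
      obtain ⟨h2, h3⟩ := ih h
      refine ⟨by simpa using h2, fun s hs hv => ?_⟩
      cases s with
      | zero =>
        have hv' : v ≠ 0 := hv
        rw [W.zc_eq, if_neg hv', W.bc_eq] at h1
        split_ifs at h1 with h4
        exact ⟨Nat.le_of_ble_eq_true h4, Nat.le_of_ble_eq_true h1⟩
      | succ s => exact h3 s (by simpa using hs) hv

theorem thr_of {T T' fa : List ℕ} {d h : ℕ} (h1 : thL (fa.getD (d + h) 0) (fa.getD d 0) T (T'.drop h) = true) :
    thr T T' fa d h = true := by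
  obtain ⟨h2, h3⟩ := thL_of h1
  unfold thr
  rw [List.all_eq_true]
  intro s hs
  rw [List.mem_range] at hs
  rw [List.length_drop] at h2 h3
  have e1 : ctj T s = T.getD s 0 := ctj_in (by omega)
  have e2 : (T'.drop h).getD s 0 = T'.getD (s + h) 0 := by
    rw [List.getD_eq_getElem?_getD, List.getD_eq_getElem?_getD, List.getElem?_drop, add_comm]
  rw [e1]
  by_cases hv : T.getD s 0 = 0
  · rw [hv]
    rfl
  · obtain ⟨h4, h5⟩ := h3 s hs hv
    rw [e2] at h4 h5
    rw [Bool.or_eq_true, Bool.and_eq_true]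
    exact Or.inr ⟨Nat.ble_eq_true_of_le h4, Nat.ble_eq_true_of_le h5⟩

/-- `h` hits, all rows -/
def thM (g : ℕ) (RT : List (List ℕ)) (fa fb : List ℕ) (d h : ℕ) : Bool :=
  (List.range RT.length).all fun j => thL (fa.getD (d + h) 0) (fa.getD d 0) (RT.getD j [])
    ((rwj RT (j + qqj g (fb.getD d 0) (fb.getD (d + h) 0))).drop h)

/-- at most `m` hits -/
def tkM (g : ℕ) (RT : List (List ℕ)) (fa fb : List ℕ) (d : ℕ) : ℕ → Bool
  | 0 => true
  | h + 1 => thM g RT fa fb d (h + 1) && tkM g RT fa fb d h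

theorem tkM_of {g : ℕ} {RT : List (List ℕ)} {fa fb : List ℕ} {d : ℕ} : ∀ {m : ℕ},
    tkM g RT fa fb d m = true → tkj g RT fa fb d m = true := by
  intro m
  induction m with
  | zero => intro _; rfl
  | succ m ih =>
    intro h
    rw [tkM, Bool.and_eq_true] at h
    rw [tkj, Bool.and_eq_true]
    exact ⟨List.all_eq_true.2 fun j hj => thr_of (List.all_eq_true.1 h.1 j hj), ih h.2⟩

/-- the rows of the tables -/
def rwM (g : ℕ) (TJ : List (List (List ℕ))) (a b : List ℕ) (KD : List ℕ) (l : ℕ) : Bool :=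
  (List.range (l + 1)).all fun d => (List.range TJ.length).all fun i =>
    tkM g (TJ.getD i []) a b d (Nat.min (l - d) ((i + 1) * KD.getD d 0))

/-- the check for a piece -/
def pckM (m : ℕ → ℕ → Bool) (g : ℕ) (TJ : List (List (List ℕ))) (a b : CPc) (KD : List ℕ) : Bool :=
  (a.2.all fun x => Nat.ble x 1000) &&
  ((lkp a.1).sublists.all fun S => kSM m a.1 S (KD.getD ((lkp a.1).length - S.length) 0)) &&
  rwM g TJ a.2 b.2 KD (lkp a.1).length

/-- the check for all pieces -/
def pcksM (m : ℕ → ℕ → Bool) (g : ℕ) (TJ : List (List (List ℕ))) : List CPc → List CPc → List (List ℕ) → Bool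
  | [], _, _ => true
  | a :: CA, b :: CB, K :: KJ => pckM m g TJ a b K && pcksM m g TJ CA CB KJ
  | _ :: _, _, _ => false

theorem pcksM_nil (m : ℕ → ℕ → Bool) (g : ℕ) (TJ : List (List (List ℕ))) : pcksM m g TJ [] [] [] = true := rfl

theorem pcksM_cons {m : ℕ → ℕ → Bool} {g : ℕ} {TJ : List (List (List ℕ))} {a b : CPc} {K : List ℕ}
    {CA CB : List CPc} {KJ : List (List ℕ)} (h1 : pckM m g TJ a b K = true) (h2 : pcksM m g TJ CA CB KJ = true) :
    pcksM m g TJ (a :: CA) (b :: CB) (K :: KJ) = true := by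
  rw [pcksM, h1, h2]
  rfl

theorem pckM_of {m : ℕ → ℕ → Bool} {XL : List (ℕ × ℕ)} (hm : Sub m XL) {g : ℕ} {TJ : List (List (List ℕ))}
    {a b : CPc} {KD : List ℕ} (h : pckM m g TJ a b KD = true) : pckJ XL g TJ a b KD = true := by
  unfold pckM rwM at h
  unfold pckJ
  rw [Bool.and_eq_true, Bool.and_eq_true] at h ⊢
  exact ⟨⟨h.1.1, List.all_eq_true.2 fun S hS => kSM_of hm (List.all_eq_true.1 h.1.2 S hS)⟩,
    List.all_eq_true.2 fun d hd => List.all_eq_true.2 fun i hi =>
      tkM_of (List.all_eq_true.1 (List.all_eq_true.1 h.2 d hd) i hi)⟩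

theorem pcksM_of {m : ℕ → ℕ → Bool} {XL : List (ℕ × ℕ)} (hm : Sub m XL) {g : ℕ} {TJ : List (List (List ℕ))} :
    ∀ {CA CB : List CPc} {KJ : List (List ℕ)}, pcksM m g TJ CA CB KJ = true → pcksJ XL g TJ CA CB KJ = true := by
  intro CA
  induction CA with
  | nil => intro CB KJ _; rfl
  | cons a CA ih =>
    intro CB KJ h
    match CB, KJ with
    | [], [] => exact absurd h (by simp [pcksM])
    | [], _ :: _ => exact absurd h (by simp [pcksM])
    | _ :: _, [] => exact absurd h (by simp [pcksM])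
    | b :: CB, K :: KJ =>
      rw [pcksM, Bool.and_eq_true] at h
      rw [pcksJ, Bool.and_eq_true]
      exact ⟨pckM_of hm h.1, ih h.2⟩

/-- the roots at the states with a positive value are closed -/
def nzkM (m : ℕ → ℕ → Bool) (CB : List CPc) : Bool := CB.all fun e =>
  (lkp e.1).sublists.all fun S => Nat.beq (cfv e ((lkp e.1).length - S.length)) 0 || m (rt e.1 S).1 (rt e.1 S).2

theorem nzkM_of {m : ℕ → ℕ → Bool} {XL : List (ℕ × ℕ)} (hm : Sub m XL) {CB : List CPc}
    (h : nzkM m CB = true) : nzk XL CB = true := by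
  refine List.all_eq_true.2 fun e he => List.all_eq_true.2 fun S hS => ?_
  have h1 := List.all_eq_true.1 (List.all_eq_true.1 h e he) S hS
  rw [Bool.or_eq_true] at h1 ⊢
  exact h1.imp id fun h2 => mem2_iff (hm _ _ h2)

/-! ### the records -/

/-- the first records are closed patterns -/
def j0kM (m : ℕ → ℕ → Bool) (B j : ℕ) : Bool :=
  (List.range j).all fun i => m (prc B i).1 (prc B i).2 && wfp (prc B i)

theorem ents_dnM {m : ℕ → ℕ → Bool} {dn : List (ℕ × ℕ)} (hm : Sub m dn) (st : Stp) {B j : ℕ}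
    (h : j0kM m B j = true) : ∀ i < j, Val (stD dn st) (prc B i) := by
  intro i hi
  have h1 := List.all_eq_true.1 h i (List.mem_range.2 hi)
  rw [Bool.and_eq_true] at h1
  exact val_mem st (hm _ _ h1.1) h1.2

/-- **one phase**, with the search for the closed patterns -/
theorem Dj.rawM {CA CB : List CPc} (hCA : vok CA) (hCB : vok CB) {ML : List MPc} (hMA : ML = mcl CA)
    (hMB : ML = mcl CB) (hML : ML.all mkok = true) {tf : Bool} {PL dn : List (ℕ × ℕ)}
    (hPL : PL.all wfp = true) (h : Dj CA CB tf PL dn) {m : ℕ → ℕ → Bool} (hm : Sub m dn) {D : ℕ}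
    (hA : D ≤ 1 → m 1 257 = true) (hB : D = 0 → m 1 1 = true) {g : ℕ} (hg : 0 < g)
    {TJ : List (List (List ℕ))} (hTJ : (TJ.all okJ) = true) {KJ : List (List ℕ)}
    (hKJ : pcksM m g TJ CA CB KJ = true)
    {ne : Bool} (hne : (!ne || nzkM m CB) = true)
    {sf : ℕ → ℕ → ℕ → Option (List (ℕ × ℕ))} {lf dl : ℕ → ℕ → ℕ → Bool}
    (hs : Sfn (okB D tf) (stJ ne CA CB g TJ tf ML PL D) sf lf dl) {B N : ℕ}
    (hV : ∀ i < N, Val (stD dn (stJ ne CA CB g TJ tf ML PL D)) (prc B i)) {R : List (ℕ × ℕ)} {z : ℕ}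
    (hR : clsM lf dl B N R z = true) : Dj CA CB tf PL (R ++ dn) := by
  refine Dj.raw hCA hCB hMA hMB hML hPL h (XL := dn) (fun _ hq => hq) (fun h1 => hm _ _ (hA h1))
    (fun h1 => hm _ _ (hB h1)) hg hTJ (pcksM_of hm hKJ) ?_ hs hV hR
  rw [Bool.or_eq_true] at hne ⊢
  exact hne.imp id fun h1 => nzkM_of hm h1

end EF18
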