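import Pool.Agent.Lib.MP_ef18bd_co.P.Step

/-!
# Isolated by a pick

`Iso G U w s`: the pick at `w` isolates `s`. Steps under the side condition `Iso (φ 0) (φ 1)`: `nearS` (a node in the ball of `s` is in
the ball of `w`), `conS` (contradiction); references `rfS`; the composed step `cst`.
-/

namespace EF18

open Finset

variable {V : Type} [Fintype V] [DecidableEq V] {G : SimpleGraph V} [DecidableRel G.Adj]

/-- the pick at `w` isolates `s` -/
def Iso (G : SimpleGraph V) [DecidableRel G.Adj] (U : Finset V) (w s : V) : Prop :=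
  s ∉ B2 G w ∧ ∀ y ∈ U, y ∈ B2 G s → y = s ∨ y ∈ B2 G w

/-! ### balls -/

/-- the nodes of the mask of the ball are in the ball -/
theorem Emb.ball_sub {U : Finset V} {n p : ℕ} {φ ν : ℕ → V} (h : Emb G U n p φ ν) {x t : ℕ} (hx : x < n)
    (hb : (ball p x).testBit t = true) : φ t ∈ B2 G (φ x) := by
  rcases ball_iff.1 hb with rfl | ⟨k, hk, ⟨l, hl, hlt⟩ | ⟨l, hl, hlt⟩⟩
  · exact self_mem_B2
  · have hkn : k < 3 * n := by omega
    obtain ⟨a1, -, a3, -⟩ := h.dir k hkn l hl
    have b1 := h.adj k hkn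
    rw [a3, hk] at b1
    rcases hlt with rfl | ⟨k', l', hk', hl', rfl⟩
    · exact mem_B2_of_adj b1.symm
    · have hkn' : k' < 3 * n := by omega
      obtain ⟨c1, -, c3, -⟩ := h.dir k' hkn' l' hl'
      have b2 := h.adj k' hkn'
      rw [c3, hk'] at b2
      exact mem_B2_of_common b2 b1.symm
  · have hkn : k < 3 * n := by omega
    obtain ⟨a1, -, a3, a4, a5⟩ := h.lnk k hkn l hl
    have b1 := h.adj l a1
    rw [a5, hlt] at b1
    have b2 := h.adj k hkn
    rw [hk] at b2
    exact mem_B2_of_common b1.symm b2.symm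

/-- `u` is certainly not in the ball of `w` -/
def far1 (p u w : ℕ) : Bool := !(ball p w).testBit u && full p w && (full p u || closed p w)

/-- `u` is certainly not in the ball of `w` -/
def far (p u w : ℕ) : Bool := far1 p u w || far1 p w u

theorem Emb.far1_iff (hG : G.IsRegularOfDegree 3) {U : Finset V} (hI : Inv G U) {n p : ℕ} {φ ν : ℕ → V}
    (h : Emb G U n p φ ν) {u w : ℕ} (hu : u < n) (hw : w < n) (hf : far1 p u w = true) :
    φ u ∉ B2 G (φ w) := by
  unfold far1 at hf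
  rw [Bool.and_eq_true, Bool.and_eq_true, Bool.or_eq_true, Bool.not_eq_true'] at hf
  obtain ⟨⟨hb, hfw⟩, hfu | hcl⟩ := hf
  swap
  · intro hB
    obtain ⟨t, ht, h1, h2⟩ := (h.mem_ball hG hI hw hcl (h.mem u hu)).1 hB
    rw [h.inj t ht u hu h1, hb] at h2
    exact absurd h2 (by simp)
  have hno : ¬ (ball p w).testBit u = true := by rw [hb]; simp
  have huw : u ≠ w := by
    rintro rfl
    exact hno (ball_iff.2 (Or.inl rfl))
  intro hB
  obtain ⟨z, hz, hyz⟩ := mem_B2.1 hB
  rw [mem_cn] at hz hyz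
  have hadj : ¬ G.Adj (φ w) (φ u) := by
    intro ha
    obtain ⟨k, l, hk, hl, hln, he⟩ := h.full_nbr hG hw hfw (h.mem u hu) ha
    have e := h.inj _ (by omega) _ hu he
    exact hno (ball_iff.2 (Or.inr ⟨k, hk, Or.inl ⟨l, hl, Or.inl e⟩⟩))
  rcases hz with rfl | hz
  · rcases hyz with e | ha
    · exact huw (h.inj _ hu _ hw e)
    · exact hadj ha
  rcases hyz with rfl | hyz
  · exact hadj hz
  by_cases hzU : z ∈ U
  · obtain ⟨k, l, hk, hl, hln, he⟩ := h.full_nbr hG hw hfw hzU hz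
    subst he
    obtain ⟨k', l', hk', hl', hln', he'⟩ := h.full_nbr hG hu hfu hzU hyz.symm
    obtain ⟨-, a2, -⟩ := h.dir k' (by omega) l' hl'
    have e := h.inj _ (by omega) _ (by omega) he'
    exact hno (ball_iff.2 (Or.inr ⟨k, hk, Or.inl ⟨l, hl, Or.inr ⟨l', k', e, a2, hk'⟩⟩⟩))
  · obtain ⟨k, hk, hkn, hkz⟩ := h.surj hG hw hz
    rcases digit_cases (dg p k) with h0 | h1 | ⟨l, hl⟩ | ⟨l, hl⟩
    · exact absurd h0 (full_iff.1 hfw k hk)
    · have := (h.dead k hkn h1).2 (φ u) (h.mem u hu) (by rw [hkz]; exact hyz)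
      rw [hk] at this
      exact huw (h.inj _ hu _ hw this)
    · obtain ⟨a1, -, a3, -⟩ := h.dir k hkn l hl
      exact hzU (by rw [← hkz, a3]; exact h.mem _ (by omega))
    · obtain ⟨a1, -, a3, a4, a5⟩ := h.lnk k hkn l hl
      have b1 := h.adj l a1
      rw [a5, hkz] at b1
      have b2 : φ w ≠ φ (l / 3) := fun e => a3 (by
        have := h.inj _ hw _ (by omega) e
        omega)
      rcases hI.two hzU (h.mem w hw) (h.mem (l / 3) (by omega)) b2 hz.symm b1.symm (h.mem u hu) hyz with e | e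
      · exact huw (h.inj _ hu _ hw e)
      · have e' := h.inj _ hu _ (by omega) e
        exact hno (ball_iff.2 (Or.inr ⟨k, hk, Or.inr ⟨l, hl, e'.symm⟩⟩))

theorem Emb.far_iff (hG : G.IsRegularOfDegree 3) {U : Finset V} (hI : Inv G U) {n p : ℕ} {φ ν : ℕ → V}
    (h : Emb G U n p φ ν) {u w : ℕ} (hu : u < n) (hw : w < n) (hf : far p u w = true) :
    φ u ∉ B2 G (φ w) := by
  unfold far at hf
  rw [Bool.or_eq_true] at hf
  rcases hf with hf | hf
  · exact h.far1_iff hG hI hu hw hf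
  · exact fun hB => h.far1_iff hG hI hw hu hf (mem_B2_comm.1 hB)

/-! ### joining two nodes -/

/-- the first open port is open -/
def op (p a : ℕ) : Bool := Nat.beq (dg p (fo p a)) 0

/-- a direct edge between the first open ports -/
def pdir (p a b : ℕ) : ℕ := p + (2 + 2 * fo p b) * 256 ^ fo p a + (2 + 2 * fo p a) * 256 ^ fo p b

/-- a link between the first open ports -/
def plnk (p a b : ℕ) : ℕ := p + (3 + 2 * fo p b) * 256 ^ fo p a + (3 + 2 * fo p a) * 256 ^ fo p b

theorem adjd_of {p a k l b : ℕ} (hk : k / 3 = a) (hd : dg p k = 2 + 2 * l) (hl : l / 3 = b) :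
    adjd p a b = true := by
  have h1 : isd (dg p k) b = true := by
    unfold isd
    rw [Bool.or_eq_true, Bool.or_eq_true, Nat.beq_eq, Nat.beq_eq, Nat.beq_eq]
    omega
  unfold adjd
  rw [Bool.or_eq_true, Bool.or_eq_true]
  rcases port_cases hk with rfl | rfl | rfl
  · exact Or.inl (Or.inl h1)
  · exact Or.inl (Or.inr h1)
  · exact Or.inr h1

/-- move a port to the front -/
theorem Emb.front {U : Finset V} {n p : ℕ} {φ ν : ℕ → V} (h : Emb G U n p φ ν) {k : ℕ} (hk : k < 3 * n)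
    (h0 : dg p k = 0) : dg p (fo p (k / 3)) = 0 ∧ ∃ ν' : ℕ → V, Emb G U n p φ ν' ∧
      ν' (fo p (k / 3)) = ν k := by
  have hb0 : dg p (fo p (k / 3)) = 0 := fo_open rfl h0
  have hb3 : fo p (k / 3) / 3 = k / 3 := fo_div p (k / 3)
  refine ⟨hb0, _, h.swap (b := fo p (k / 3)) (c := k) (by omega) hk hb3 hb0 h0, ?_⟩
  beta_reduce
  rw [Equiv.swap_apply_left]

theorem Emb.join_dir (hG : G.IsRegularOfDegree 3) {U : Finset V} {n p : ℕ} {φ ν : ℕ → V}
    (h : Emb G U n p φ ν) (hn : n < 40) {a b : ℕ} (ha : a < n) (hb : b < n) (hadj : G.Adj (φ a) (φ b)) :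
    adjd p a b = true ∨ (adjd p a b = false ∧ op p a = true ∧ op p b = true ∧
      ∃ ν' : ℕ → V, Emb G U n (pdir p a b) φ ν') := by
  cases hc : adjd p a b
  swap
  · exact Or.inl rfl
  right
  obtain ⟨k, hk1, hk2, hk3⟩ := h.surj hG ha hadj
  rcases digit_cases (dg p k) with h0 | h1 | ⟨l, hl⟩ | ⟨l, hl⟩
  · obtain ⟨f0, ν₁, h₁, hν⟩ := h.front hk2 h0
    rw [hk1] at f0 hν
    have hd := fo_div p a
    obtain ⟨a1, a2, a3, ν', a4⟩ := h₁.dirp hG hn (k := fo p a) (by omega) f0 hb (hν.trans hk3).symm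
    refine ⟨rfl, ?_, ?_, ν', a4⟩
    · unfold op; rw [f0]; rfl
    · unfold op; rw [a2]; rfl
  · exact absurd (hk3 ▸ h.mem b hb) (h.dead k hk2 h1).1
  · obtain ⟨a1, a2, a3, a4⟩ := h.dir k hk2 l hl
    have e := h.inj _ (by omega) _ hb (a3.symm.trans hk3)
    rw [adjd_of hk1 hl e] at hc
    exact absurd hc (by simp)
  · exact absurd (hk3 ▸ h.mem b hb) (h.lnk k hk2 l hl).2.2.2.1

theorem Emb.join_lnk (hG : G.IsRegularOfDegree 3) {U : Finset V} (hI : Inv G U) {n p : ℕ} {φ ν : ℕ → V}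
    (h : Emb G U n p φ ν) (hn : n < 40) {a b : ℕ} (ha : a < n) (hb : b < n) (hab : a ≠ b) {z : V}
    (hz : z ∉ U) (hza : G.Adj (φ a) z) (hzb : G.Adj (φ b) z) :
    (∃ k l, l / 3 = a ∧ dg p l = 3 + 2 * k ∧ k / 3 = b) ∨ (op p a = true ∧ op p b = true ∧
      ∃ ν' : ℕ → V, Emb G U n (plnk p a b) φ ν') := by
  obtain ⟨k, hk1, hk2, hk3⟩ := h.surj hG ha hza
  rcases digit_cases (dg p k) with h0 | h1 | ⟨l, hl⟩ | ⟨l, hl⟩
  · right
    obtain ⟨f0, ν₁, h₁, hν⟩ := h.front hk2 h0
    rw [hk1] at f0 hν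
    have hd := fo_div p a
    have e : ν₁ (fo p a) = z := hν.trans hk3
    obtain ⟨a1, ν', a2⟩ := h₁.lnkp hG hI hn (k := fo p a) (by omega) f0 (by rw [e]; exact hz) hb
      (by rw [e]; exact hzb.symm) (by rw [hd]; exact hab.symm)
    refine ⟨?_, ?_, ν', a2⟩
    · unfold op; rw [f0]; rfl
    · unfold op; rw [a1]; rfl
  · have := (h.dead k hk2 h1).2 (φ b) (h.mem b hb) (by rw [hk3]; exact hzb.symm)
    rw [hk1] at this
    exact absurd (h.inj _ hb _ ha this).symm hab
  · obtain ⟨a1, a2, a3, a4⟩ := h.dir k hk2 l hl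
    exact absurd (by rw [← hk3, a3]; exact h.mem _ (by omega)) hz
  · left
    obtain ⟨a1, a2, a3, a4, a5⟩ := h.lnk k hk2 l hl
    have b1 := h.adj l a1
    rw [a5, hk3] at b1
    have b2 : φ a ≠ φ (l / 3) := fun e => a3 (by
      have := h.inj _ ha _ (by omega) e
      omega)
    rcases hI.two hz (h.mem a ha) (h.mem (l / 3) (by omega)) b2 hza.symm b1.symm (h.mem b hb) hzb.symm
      with e | e
    · exact absurd (h.inj _ hb _ ha e).symm hab
    · exact ⟨l, k, hk1, hl, (h.inj _ hb _ (by omega) e).symm⟩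

/-- the port of a node towards a new member of `U` -/
theorem Emb.newp (hG : G.IsRegularOfDegree 3) {U : Finset V} {n p : ℕ} {φ ν : ℕ → V}
    (h : Emb G U n p φ ν) {a k : ℕ} (ha : a < n) (hk : k / 3 ≠ a) {x : V} (hx : x ∈ U)
    (hnew : ∀ i < n, φ i ≠ x) (hadj : G.Adj (φ a) x) : ∃ ν' : ℕ → V, Emb G U n p φ ν' ∧ ν' k = ν k ∧
      ν' (fo p a) = x ∧ dg p (fo p a) = 0 ∧ fo p a < 3 * n := by
  refine h.port hG hk ha hadj fun l hl hl2 hl3 => ?_
  rcases digit_cases (dg p l) with h0 | h1 | ⟨m, hm⟩ | ⟨m, hm⟩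
  · exact h0
  · exact absurd (hl3 ▸ hx) (h.dead l hl2 h1).1
  · obtain ⟨a1, a2, a3, a4⟩ := h.dir l hl2 m hm
    exact absurd (a3.symm.trans hl3) (hnew _ (by omega))
  · exact absurd (hl3 ▸ hx) (h.lnk l hl2 m hm).2.2.2.1

/-! ### the near step -/

/-- `c` becomes a common neighbour of `u` and `w` -/
def nearP (p u w c : ℕ) : ℕ × Bool :=
  let p1 := bif adjd p c w then p else pdir p c w
  let b1 := adjd p c w || (op p c && op p w)
  let p2 := bif adjd p1 c u then p1 else pdir p1 c u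
  (p2, b1 && (adjd p1 c u || (op p1 c && op p1 u)))

/-- the children with a known common neighbour -/
def nearC (n p u w : ℕ) : ℕ → List (ℕ × ℕ)
  | 0 => []
  | c + 1 => bif (nearP p u w c).2 && !Nat.beq c u && !Nat.beq c w then
      (n, (nearP p u w c).1) :: nearC n p u w c else nearC n p u w c

/-- the children: edge, link, new common neighbour, known common neighbour -/
def nearK (n p u w : ℕ) : List (ℕ × ℕ) :=
  (bif op p u && op p w then
    [(n, pdir p u w), (n, plnk p u w), (n + 1, two n p 0 (fo p w) 0 (fo p u))] else []) ++ nearC n p u w n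

theorem mem_nearC {n p u w : ℕ} : ∀ {m c : ℕ}, c < m → c ≠ u → c ≠ w → (nearP p u w c).2 = true →
    (n, (nearP p u w c).1) ∈ nearC n p u w m := by
  intro m
  induction m with
  | zero => intro c hc; omega
  | succ m ih =>
    intro c hc h1 h2 h3
    rw [nearC]
    rcases Nat.lt_succ_iff_lt_or_eq.1 hc with h4 | rfl
    · have := ih h4 h1 h2 h3
      cases (nearP p u w m).2 && !Nat.beq m u && !Nat.beq m w
      · simp only [cond_false]
        exact this
      · simp only [cond_true]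
        exact List.mem_cons_of_mem _ this
    · have e1 : Nat.beq c u = false := by
        rw [Bool.eq_false_iff, Ne, Nat.beq_eq]; exact h1
      have e2 : Nat.beq c w = false := by
        rw [Bool.eq_false_iff, Ne, Nat.beq_eq]; exact h2
      rw [h3, e1, e2]
      exact List.mem_cons_self

theorem near_ch (hG : G.IsRegularOfDegree 3) {U : Finset V} (hI : Inv G U) {n p : ℕ} {φ ν : ℕ → V}
    (h : Emb G U n p φ ν) (hn : n < 40) {u w : ℕ} (hu : u < n) (hw : w < n)
    (hb : (ball p w).testBit u = false) (hB : φ u ∈ B2 G (φ w)) :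
    ∃ q ∈ nearK n p u w, Ch G U n φ q := by
  have hno : ¬ (ball p w).testBit u = true := by rw [hb]; simp
  have huw : u ≠ w := by
    rintro rfl
    exact hno (ball_iff.2 (Or.inl rfl))
  have nadj : adjd p u w = false := by
    rw [← Bool.not_eq_true]
    intro ht
    obtain ⟨k, l, h1, h2, h3⟩ := adjd_iff ht
    obtain ⟨a1, a2, a3, a4⟩ := h.dir k (by omega) l h2
    exact hno (ball_iff.2 (Or.inr ⟨l, h3, Or.inl ⟨k, a2, Or.inl h1⟩⟩))
  have hm : ∀ q ∈ [(n, pdir p u w), (n, plnk p u w), (n + 1, two n p 0 (fo p w) 0 (fo p u))],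
      op p u = true → op p w = true → q ∈ nearK n p u w := by
    intro q hq h1 h2
    unfold nearK
    rw [h1, h2]
    exact List.mem_append_left _ hq
  have hadj : G.Adj (φ u) (φ w) → ∃ q ∈ nearK n p u w, Ch G U n φ q := by
    intro ha
    rcases h.join_dir hG hn hu hw ha with h1 | ⟨-, h1, h2, ν', h3⟩
    · rw [nadj] at h1
      exact absurd h1 (by simp)
    · exact ⟨_, hm _ List.mem_cons_self h1 h2, le_rfl, φ, ν', h3, fun _ _ => rfl⟩
  obtain ⟨z, hz, hyz⟩ := mem_B2.1 hB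
  rw [mem_cn] at hz hyz
  rcases hz with rfl | hz
  · rcases hyz with e | ha
    · exact absurd (h.inj _ hu _ hw e) huw
    · exact hadj ha.symm
  rcases hyz with rfl | hyz
  · exact hadj hz.symm
  by_cases hzU : z ∈ U
  · by_cases hex : ∃ c < n, φ c = z
    · obtain ⟨c, hc, rfl⟩ := hex
      have hcu : c ≠ u := by
        rintro rfl
        exact G.loopless.irrefl _ hyz
      have hcw : c ≠ w := by
        rintro rfl
        exact G.loopless.irrefl _ hz
      -- first the edge to `w`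
      obtain ⟨p1, hp1⟩ : ∃ p1, p1 = bif adjd p c w then p else pdir p c w := ⟨_, rfl⟩
      obtain ⟨ν₁, h₁, hb1⟩ : ∃ ν₁ : ℕ → V, Emb G U n p1 φ ν₁ ∧
          (adjd p c w || (op p c && op p w)) = true := by
        rcases h.join_dir hG hn hc hw hz.symm with h1 | ⟨h0, h1, h2, ν', h3⟩
        · refine ⟨ν, ?_, by rw [h1]; rfl⟩
          rw [hp1, h1]
          exact h
        · refine ⟨ν', ?_, by rw [h1, h2, h0]; rfl⟩
          rw [hp1, h0]
          exact h3
      -- then the edge to `u`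
      have key : ∃ ν₂ : ℕ → V, Emb G U n (bif adjd p1 c u then p1 else pdir p1 c u) φ ν₂ ∧
          (adjd p1 c u || (op p1 c && op p1 u)) = true := by
        rcases h₁.join_dir hG hn hc hu hyz with h1 | ⟨h0, h1, h2, ν', h3⟩
        · refine ⟨ν₁, ?_, by rw [h1]; rfl⟩
          rw [h1]
          exact h₁
        · refine ⟨ν', ?_, by rw [h1, h2, h0]; rfl⟩
          rw [h0]
          exact h3
      obtain ⟨ν₂, h₂, hb2⟩ := key
      have hP : nearP p u w c = (bif adjd p1 c u then p1 else pdir p1 c u,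
          (adjd p c w || (op p c && op p w)) && (adjd p1 c u || (op p1 c && op p1 u))) := by
        rw [hp1]
        rfl
      have hm2 := mem_nearC (n := n) (p := p) (u := u) (w := w) hc hcu hcw
        (by rw [hP, hb1, hb2]; rfl)
      rw [hP] at hm2
      refine ⟨(n, bif adjd p1 c u then p1 else pdir p1 c u), ?_, le_rfl, φ, ν₂, h₂,
        fun _ _ => rfl⟩
      unfold nearK
      exact List.mem_append_right _ hm2
    · push Not at hex
      obtain ⟨ν₁, h₁, -, f1, f2, f3⟩ := h.newp hG hw (k := 3 * u) (by omega) hzU hex hz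
      have hdw := fo_div p w
      obtain ⟨ν₂, h₂, g0, g1, g2, g3⟩ := h₁.newp hG hu (k := fo p w) (by omega) hzU hex hyz.symm
      have hdu := fo_div p u
      obtain ⟨φ', ν', h', e1, -, -⟩ := h₂.two hG hI hn (a := 0) (b := 0) (k := fo p w) (l := fo p u)
        hzU hex f3 g3 (by omega) f2 g2 (Or.inl ⟨rfl, g0.trans f1⟩) (Or.inl ⟨rfl, g1⟩)
      refine ⟨_, hm (n + 1, two n p 0 (fo p w) 0 (fo p u)) ?_ ?_ ?_, Nat.le_succ n, φ', ν', h', e1⟩
      · exact List.mem_cons_of_mem _ (List.mem_cons_of_mem _ List.mem_cons_self)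
      · unfold op; rw [g2]; rfl
      · unfold op; rw [f2]; rfl
  · rcases h.join_lnk hG hI hn hu hw huw hzU hyz.symm hz with ⟨k, l, h1, h2, h3⟩ | ⟨h1, h2, ν', h3⟩
    · exfalso
      obtain ⟨a1, a2, -⟩ := h.lnk l (by omega) k h2
      exact hno (ball_iff.2 (Or.inr ⟨k, h3, Or.inr ⟨l, a2, h1⟩⟩))
    · exact ⟨_, hm _ (List.mem_cons_of_mem _ List.mem_cons_self) h1 h2, le_rfl, φ, ν', h3,
        fun _ _ => rfl⟩

/-- the near step for the node `u` and the side condition `Iso (φ 0) (φ 1)` -/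
def nearS (n p u : ℕ) : Option (List (ℕ × ℕ)) :=
  bif Nat.ble (u + 1) n && Nat.ble 2 n && Nat.ble (n + 1) 40 && !Nat.beq u 1 && (ball p 1).testBit u &&
    !(ball p 0).testBit u then some (nearK n p u 0) else none

theorem nearS_ch (hG : G.IsRegularOfDegree 3) {U : Finset V} (hI : Inv G U) {n p u : ℕ} {φ ν : ℕ → V}
    (h : Emb G U n p φ ν) (hiso : Iso G U (φ 0) (φ 1)) {L : List (ℕ × ℕ)}
    (hL : nearS n p u = some L) : ∃ q ∈ L, Ch G U n φ q := by
  unfold nearS at hL
  cases hc : Nat.ble (u + 1) n && Nat.ble 2 n && Nat.ble (n + 1) 40 && !Nat.beq u 1 &&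
    (ball p 1).testBit u && !(ball p 0).testBit u
  · rw [hc, cond_false] at hL
    exact absurd hL (by simp)
  rw [hc, cond_true, Option.some.injEq] at hL
  simp only [Bool.and_eq_true, Bool.not_eq_true'] at hc
  obtain ⟨⟨⟨⟨⟨c1, c2⟩, c3⟩, c4⟩, c5⟩, c6⟩ := hc
  have hu : u < n := Nat.le_of_ble_eq_true c1
  have h2 : 2 ≤ n := Nat.le_of_ble_eq_true c2
  have hn : n < 40 := Nat.le_of_ble_eq_true c3
  have hu1 : u ≠ 1 := by
    rintro rfl
    exact absurd c4 (by decide)
  rw [← hL]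
  refine near_ch hG hI h hn hu (by omega) c6 ?_
  rcases hiso.2 (φ u) (h.mem u hu) (h.ball_sub (by omega) c5) with e | e
  · exact absurd (h.inj _ hu _ (by omega) e) hu1
  · exact e

/-- the contradiction: `s` is in the ball of `w` (`u = 1`), or the node `u` of the ball of `s` is certainly
not in the ball of `w` -/
def conS (n p u : ℕ) : Option (List (ℕ × ℕ)) :=
  bif Nat.ble (u + 1) n && Nat.ble 2 n && (ball p 1).testBit u &&
    (bif Nat.beq u 1 then (ball p 0).testBit 1 else far p u 0) then some [] else none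

theorem conS_false (hG : G.IsRegularOfDegree 3) {U : Finset V} (hI : Inv G U) {n p u : ℕ} {φ ν : ℕ → V}
    (h : Emb G U n p φ ν) (hiso : Iso G U (φ 0) (φ 1)) {L : List (ℕ × ℕ)}
    (hL : conS n p u = some L) : False := by
  unfold conS at hL
  cases hc : Nat.ble (u + 1) n && Nat.ble 2 n && (ball p 1).testBit u &&
    (bif Nat.beq u 1 then (ball p 0).testBit 1 else far p u 0)
  · rw [hc, cond_false] at hL
    exact absurd hL (by simp)
  rw [Bool.and_eq_true, Bool.and_eq_true, Bool.and_eq_true] at hc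
  obtain ⟨⟨⟨c1, c2⟩, c3⟩, c4⟩ := hc
  have hu : u < n := Nat.le_of_ble_eq_true c1
  have h2 : 2 ≤ n := Nat.le_of_ble_eq_true c2
  cases hb : Nat.beq u 1
  · rw [hb, cond_false] at c4
    have h3 := h.far_iff hG hI hu (by omega) c4
    rcases hiso.2 (φ u) (h.mem u hu) (h.ball_sub (by omega) c3) with e | e
    · have := h.inj _ hu _ (by omega) e
      rw [this] at hb
      exact absurd hb (by decide)
    · exact h3 e
  · rw [hb, cond_true] at c4
    exact hiso.1 (h.ball_sub (by omega) c4)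

/-! ### references -/

/-- the step: a reference, index `x % 4096`, inverse map on nodes `x / 4096 % 256 ^ 16`, map on ports
`x / 4096 / 256 ^ 16`; with `c = true` the nodes `0` and `1` are fixed -/
def rfS (c : Bool) (rs : List (ℕ × ℕ)) (n p x : ℕ) : Option (List (ℕ × ℕ)) :=
  bif Nat.ble (x % 4096 + 1) rs.length &&
    rfok n p (rs.getD (x % 4096) (0, 0)) (x / 4096 % 256 ^ 16) (x / 4096 / 256 ^ 16) &&
    (!c || (Nat.ble 2 (rs.getD (x % 4096) (0, 0)).1 && Nat.beq (dg (x / 4096 / 256 ^ 16) 0 / 3) 0 &&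
      Nat.beq (dg (x / 4096 / 256 ^ 16) 3 / 3) 1)) then some [] else none

theorem rfS_emb {U : Finset V} {c : Bool} {rs : List (ℕ × ℕ)} (hw : rs.all wfp = true) {n p x : ℕ}
    {φ ν : ℕ → V} (h : Emb G U n p φ ν) {L : List (ℕ × ℕ)} (hL : rfS c rs n p x = some L) :
    ∃ q ∈ rs, ∃ φ' ν' : ℕ → V, Emb G U q.1 q.2 φ' ν' ∧
      (c = true → 2 ≤ q.1 ∧ φ' 0 = φ 0 ∧ φ' 1 = φ 1) := by
  unfold rfS at hL
  cases hc : Nat.ble (x % 4096 + 1) rs.length &&
    rfok n p (rs.getD (x % 4096) (0, 0)) (x / 4096 % 256 ^ 16) (x / 4096 / 256 ^ 16) &&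
    (!c || (Nat.ble 2 (rs.getD (x % 4096) (0, 0)).1 && Nat.beq (dg (x / 4096 / 256 ^ 16) 0 / 3) 0 &&
      Nat.beq (dg (x / 4096 / 256 ^ 16) 3 / 3) 1))
  · rw [hc, cond_false] at hL
    exact absurd hL (by simp)
  rw [Bool.and_eq_true, Bool.and_eq_true, Bool.or_eq_true, Bool.and_eq_true, Bool.and_eq_true] at hc
  obtain ⟨⟨c1, c2⟩, c3⟩ := hc
  have hx : x % 4096 < rs.length := Nat.le_of_ble_eq_true c1
  have hq : rs.getD (x % 4096) (0, 0) ∈ rs := by
    rw [List.getD_eq_getElem _ _ hx]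
    exact List.getElem_mem hx
  refine ⟨_, hq, _, _, rf_emb (List.all_eq_true.1 hw _ hq) c2 h, fun hc => ?_⟩
  rcases c3 with c3 | ⟨⟨c3, c4⟩, c5⟩
  · rw [hc] at c3
    exact absurd c3 (by simp)
  · refine ⟨Nat.le_of_ble_eq_true c3, ?_, ?_⟩
    · beta_reduce
      rw [mul_zero, Nat.eq_of_beq_eq_true c4]
    · beta_reduce
      rw [mul_one, Nat.eq_of_beq_eq_true c5]

/-! ### the composed step -/

/-- token `x`: the kind is `x % 8`; `0` branch, `1` pick with a test, `2` reference, and with the side condition (`c = true`)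
`3` reference, `4` near step, `5` contradiction -/
def cst (c d : Bool) (lt : ℕ → ℕ → ℕ → Bool) (rs rc : List (ℕ × ℕ)) : Stp := fun n p x =>
  bif Nat.beq (x % 8) 0 then branch d n p (x / 8) else
    bif Nat.beq (x % 8) 1 then nst d lt n p (x / 8) else
      bif Nat.beq (x % 8) 2 then rfS false rs n p (x / 8) else
        bif !c then none else
          bif Nat.beq (x % 8) 3 then rfS true rc n p (x / 8) else
            bif Nat.beq (x % 8) 4 then nearS n p (x / 8) else
              bif Nat.beq (x % 8) 5 then conS n p (x / 8) else none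

/-- the side condition -/
def IsoT (G : SimpleGraph V) [DecidableRel G.Adj] (U : Finset V) (φ : ℕ → V) : Prop := Iso G U (φ 0) (φ 1)

theorem loc_iso (U : Finset V) : Loc 2 (IsoT G U) := by
  intro φ φ' h hT
  unfold IsoT at *
  rw [h 0 (by omega), h 1 (by omega)]
  exact hT

/-- the composed step without side condition -/
theorem cst_sound (hG : G.IsRegularOfDegree 3) {U : Finset V} (hI : Inv G U) {Q : Prop} {d : Bool}
    (hd : d = true ∨ ∀ y, y ∉ U → ∀ x ∈ U, G.Adj y x → ∃ x' ∈ U, x' ≠ x ∧ G.Adj y x')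
    {lt : ℕ → ℕ → ℕ → Bool} (hlt : Tst G U Q lt) {rs rc : List (ℕ × ℕ)} (hw : rs.all wfp = true)
    (hrs : ∀ q ∈ rs, ClT G U 0 (fun _ => True) Q q) :
    SndT G U 0 (fun _ => True) Q (cst false d lt rs rc) := by
  intro n p x L hL hQ
  unfold cst at hL
  cases h0 : Nat.beq (x % 8) 0
  swap
  · rw [h0, cond_true] at hL
    exact clT_of_ch (loc_true 0) hQ fun _ φ ν h _ => Or.inr (branch_ch hG hI hd hL h)
  rw [h0, cond_false] at hL
  cases h1 : Nat.beq (x % 8) 1
  swap
  · rw [h1, cond_true] at hL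
    exact clT_of_ch (loc_true 0) hQ fun _ φ ν h _ => nst_ch hG hI hd hlt hL h
  rw [h1, cond_false] at hL
  cases h2 : Nat.beq (x % 8) 2
  swap
  · rw [h2, cond_true] at hL
    intro _ φ ν h _
    obtain ⟨q, hq, φ', ν', h', -⟩ := rfS_emb hw h hL
    exact hrs q hq (Nat.zero_le _) φ' ν' h' trivial
  rw [h2, cond_false] at hL
  exact absurd hL (by simp)

/-- the composed step with the side condition -/
theorem cst_sound_iso (hG : G.IsRegularOfDegree 3) {U : Finset V} (hI : Inv G U) {Q : Prop} {d : Bool}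
    (hd : d = true ∨ ∀ y, y ∉ U → ∀ x ∈ U, G.Adj y x → ∃ x' ∈ U, x' ≠ x ∧ G.Adj y x')
    {lt : ℕ → ℕ → ℕ → Bool} (hlt : Tst G U Q lt) {rs rc : List (ℕ × ℕ)} (hw : rs.all wfp = true)
    (hrs : ∀ q ∈ rs, ClT G U 0 (fun _ => True) Q q) (hwc : rc.all wfp = true)
    (hrc : ∀ q ∈ rc, ClT G U 2 (IsoT G U) Q q) :
    SndT G U 2 (IsoT G U) Q (cst true d lt rs rc) := by
  intro n p x L hL hQ
  unfold cst at hL
  cases h0 : Nat.beq (x % 8) 0
  swap
  · rw [h0, cond_true] at hL
    exact clT_of_ch (loc_iso U) hQ fun _ φ ν h _ => Or.inr (branch_ch hG hI hd hL h)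
  rw [h0, cond_false] at hL
  cases h1 : Nat.beq (x % 8) 1
  swap
  · rw [h1, cond_true] at hL
    exact clT_of_ch (loc_iso U) hQ fun _ φ ν h _ => nst_ch hG hI hd hlt hL h
  rw [h1, cond_false] at hL
  cases h2 : Nat.beq (x % 8) 2
  swap
  · rw [h2, cond_true] at hL
    intro _ φ ν h _
    obtain ⟨q, hq, φ', ν', h', -⟩ := rfS_emb hw h hL
    exact hrs q hq (Nat.zero_le _) φ' ν' h' trivial
  rw [h2, cond_false, Bool.not_true, cond_false] at hL
  cases h3 : Nat.beq (x % 8) 3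
  swap
  · rw [h3, cond_true] at hL
    intro _ φ ν h hT
    obtain ⟨q, hq, φ', ν', h', hf⟩ := rfS_emb hwc h hL
    obtain ⟨f1, f2, f3⟩ := hf rfl
    refine hrc q hq f1 φ' ν' h' ?_
    unfold IsoT at *
    rw [f2, f3]
    exact hT
  rw [h3, cond_false] at hL
  cases h4 : Nat.beq (x % 8) 4
  swap
  · rw [h4, cond_true] at hL
    exact clT_of_ch (loc_iso U) hQ fun _ φ ν h hT => Or.inr (nearS_ch hG hI h hT hL)
  rw [h4, cond_false] at hL
  cases h5 : Nat.beq (x % 8) 5
  swap
  · rw [h5, cond_true] at hL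
    intro _ φ ν h hT
    exact (conS_false hG hI h hT hL).elim
  rw [h5, cond_false] at hL
  exact absurd hL (by simp)

end EF18
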