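import Pool.Agent.Lib.MP_ef18bd_co.P.TypC

/-!
# The leaf test with open ports

`TF.Mono`: conditions on the weights under which the removal of all members of `U` next to a vertex outside
`U` does not increase the potential. Then the unknown part of the ball of a pick may be ignored:
`tlo` is the leaf test in which the picks are full, but their neighbours may have open ports
(one single pick may have open ports itself).
-/

namespace EF18

open Finset

variable {V : Type} [Fintype V] [DecidableEq V] {G : SimpleGraph V} [DecidableRel G.Adj]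

/-- the conditions on the weights -/
structure TF.Mono (w : TF) : Prop where
  l1 : ∀ a e, 1 ≤ e → a + e ≤ 3 → a * w.hh a + (3 - a - e) * w.h0 ≤ w.F a e
  l2 : ∀ a e s, a + e ≤ 2 → s ≤ a → a ≤ s + 1 → s * w.hh s + (2 - a - e) * w.h0 ≤ w.F a e

theorem Inv.sub (hG : G.IsRegularOfDegree 3) {U U' : Finset V} (hI : Inv G U) (hs : U' ⊆ U)
    (h : ∀ y ∈ U, y ∉ U' → ∃ t, G.Adj y t ∧ t ∉ U') : Inv G U' := by
  intro y hy
  by_cases hyU : y ∈ U
  · obtain ⟨t, ht, htU⟩ := h y hyU hy
    have h1 : cn G y ∩ U' ⊆ ((cn G y).erase y).erase t := by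
      intro z hz
      rw [mem_inter] at hz
      rw [mem_erase, mem_erase]
      refine ⟨?_, ?_, hz.1⟩
      · rintro rfl; exact htU hz.2
      · rintro rfl; exact hy hz.2
    refine (card_le_card h1).trans ?_
    rw [card_erase_of_mem, card_erase_of_mem self_mem_cn, cn_card hG y]
    rw [mem_erase, mem_cn]
    exact ⟨fun e => G.loopless.irrefl _ (e ▸ ht), Or.inr ht⟩
  · exact (card_le_card (inter_subset_inter_left hs)).trans (hI y hyU)

theorem Inv.sdiff_nbr (hG : G.IsRegularOfDegree 3) {U : Finset V} (hI : Inv G U) {t : V} (ht : t ∉ U) :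
    Inv G (U \ G.neighborFinset t) := by
  refine hI.sub hG sdiff_subset fun y hy hyn => ⟨t, ?_, fun e => ht (mem_sdiff.1 e).1⟩
  by_contra hc
  exact hyn (mem_sdiff.2 ⟨hy, fun e => hc ((SimpleGraph.mem_neighborFinset _ _ _).1 e).symm⟩)

/-- removing the neighbours of a vertex outside `U` -/
theorem free_nbrs {w : TF} (hw : w.Mono) (hG : G.IsRegularOfDegree 3) {U : Finset V} (hI : Inv G U)
    {t : V} (ht : t ∉ U) : PsiT w G (U \ G.neighborFinset t) ≤ PsiT w G U := by
  classical
  have hI' := hI.sdiff_nbr hG ht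
  obtain ⟨U', hU'⟩ : ∃ U', U' = U \ G.neighborFinset t := ⟨_, rfl⟩
  rw [← hU'] at hI' ⊢
  have hs : U' ⊆ U := by rw [hU']; exact sdiff_subset
  have h1 := drop_typ w hG hs hI' (empty_subset _) (fun _ => 0) (fun _ => 0)
    (fun x hx => absurd hx (notMem_empty x))
  simp only [sum_empty, add_zero, sdiff_empty] at h1
  have h2 : ∑ z ∈ U \ U', ((G.neighborFinset z ∩ U').card * w.hh (nU G U' z) +
      ((G.neighborFinset z \ U).filter fun p => (G.neighborFinset p ∩ U').Nonempty).card * w.h0) ≤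
      ∑ z ∈ U \ U', w.F (nU G U z) (n1 G U z) := by
    refine sum_le_sum fun z hz => ?_
    rw [mem_sdiff] at hz
    obtain ⟨hzU, hzU'⟩ := hz
    have hadj : G.Adj t z := by
      by_contra hc
      rw [hU', mem_sdiff, SimpleGraph.mem_neighborFinset] at hzU'
      exact hzU' ⟨hzU, hc⟩
    have htz : t ∈ G.neighborFinset z \ U :=
      mem_sdiff.2 ⟨(SimpleGraph.mem_neighborFinset _ _ _).2 hadj.symm, ht⟩
    -- the outside neighbours
    obtain ⟨f, hf⟩ : ∃ f, f = (G.neighborFinset z \ U).filter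
      fun p => (G.neighborFinset p ∩ U').Nonempty := ⟨_, rfl⟩
    obtain ⟨e, he⟩ : ∃ e, e = (G.neighborFinset z \ U).filter fun y => nU G U y = 1 := ⟨_, rfl⟩
    have htf : t ∉ f := by
      rw [hf, mem_filter]
      rintro ⟨-, y, hy⟩
      rw [mem_inter, hU', mem_sdiff] at hy
      exact hy.2.2 hy.1
    have hfe : Disjoint f e := by
      rw [disjoint_left]
      intro q hq hq'
      rw [hf, mem_filter] at hq
      rw [he, mem_filter] at hq'
      obtain ⟨a, ha⟩ := card_eq_one.1 hq'.2
      obtain ⟨y, hy⟩ := hq.2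
      have m1 : z ∈ G.neighborFinset q ∩ U := mem_inter.2
        ⟨(SimpleGraph.mem_neighborFinset _ _ _).2 ((SimpleGraph.mem_neighborFinset _ _ _).1
          (mem_sdiff.1 hq.1).1).symm, hzU⟩
      have m2 : y ∈ G.neighborFinset q ∩ U := mem_inter.2 ⟨(mem_inter.1 hy).1, hs (mem_inter.1 hy).2⟩
      rw [ha, mem_singleton] at m1 m2
      rw [m2, ← m1] at hy
      exact hzU' (mem_inter.1 hy).2
    have hc3 : (G.neighborFinset z ∩ U).card + (G.neighborFinset z \ U).card = 3 := by
      rw [← nbr_card hG z]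
      exact card_inter_add_card_sdiff _ _
    have hfe' : (f ∪ e).card = f.card + e.card := card_union_of_disjoint hfe
    have hfesub : f ∪ e ⊆ G.neighborFinset z \ U := by
      rw [hf, he]
      exact union_subset (filter_subset _ _) (filter_subset _ _)
    have hA : (G.neighborFinset z ∩ U').card ≤ (G.neighborFinset z ∩ U).card :=
      card_le_card (inter_subset_inter_left hs)
    have hB : (G.neighborFinset z ∩ U).card ≤ (G.neighborFinset z ∩ U').card + (nU G U t - 1) := by
      have h3 : G.neighborFinset z ∩ U ⊆ (G.neighborFinset z ∩ U') ∪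
          (G.neighborFinset t ∩ U).erase z := by
        intro y hy
        rw [mem_inter] at hy
        by_cases hyU' : y ∈ U'
        · exact mem_union_left _ (mem_inter.2 ⟨hy.1, hyU'⟩)
        · refine mem_union_right _ (mem_erase.2 ⟨?_, mem_inter.2 ⟨?_, hy.2⟩⟩)
          · rintro rfl
            exact G.loopless.irrefl _ ((SimpleGraph.mem_neighborFinset _ _ _).1 hy.1)
          · by_contra hc
            exact hyU' (by rw [hU']; exact mem_sdiff.2 ⟨hy.2, hc⟩)
      refine (card_le_card h3).trans ((card_union_le _ _).trans ?_)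
      rw [card_erase_of_mem (mem_inter.2 ⟨(SimpleGraph.mem_neighborFinset _ _ _).2 hadj, hzU⟩)]
      exact le_refl _
    have hn2 : nU G U t ≤ 2 := (card_le_card (inter_subset_inter_right (fun y hy => mem_cn.2 (Or.inr
      ((SimpleGraph.mem_neighborFinset _ _ _).1 hy))))).trans (hI t ht)
    have hn1 : 1 ≤ nU G U t := card_pos.2 ⟨z, mem_inter.2
      ⟨(SimpleGraph.mem_neighborFinset _ _ _).2 hadj, hzU⟩⟩
    have hnU : nU G U z = (G.neighborFinset z ∩ U).card := rfl
    have hnU' : nU G U' z = (G.neighborFinset z ∩ U').card := rfl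
    have hn1z : n1 G U z = e.card := by rw [he]; rfl
    rw [← hf, hnU, hnU', hn1z]
    rcases (by omega : nU G U t = 1 ∨ nU G U t = 2) with h1t | h2t
    · have hte : t ∈ e := by rw [he]; exact mem_filter.2 ⟨htz, h1t⟩
      have h3 := card_le_card hfesub
      have h4 : 1 ≤ e.card := card_pos.2 ⟨t, hte⟩
      have h5 : (G.neighborFinset z ∩ U').card = (G.neighborFinset z ∩ U).card := by omega
      have h6 := hw.l1 (G.neighborFinset z ∩ U).card e.card h4 (by omega)
      have h7 : f.card * w.h0 ≤ (3 - (G.neighborFinset z ∩ U).card - e.card) * w.h0 :=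
        Nat.mul_le_mul_right _ (by omega)
      rw [h5]
      omega
    · have hte : t ∉ e := by
        rw [he, mem_filter]
        rintro ⟨-, h⟩
        omega
      have h3 : (insert t (f ∪ e)).card ≤ (G.neighborFinset z \ U).card :=
        card_le_card (insert_subset htz hfesub)
      rw [card_insert_of_notMem (by rw [mem_union]; tauto)] at h3
      have h6 := hw.l2 (G.neighborFinset z ∩ U).card e.card (G.neighborFinset z ∩ U').card (by omega)
        hA (by omega)
      have h7 : f.card * w.h0 ≤ (2 - (G.neighborFinset z ∩ U).card - e.card) * w.h0 :=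
        Nat.mul_le_mul_right _ (by omega)
      omega
  omega

/-- removing the ball of a vertex outside `U` -/
theorem free_ball {w : TF} (hw : w.Mono) (hG : G.IsRegularOfDegree 3) {U : Finset V} (hI : Inv G U)
    {v : V} (hv : v ∉ U) : PsiT w G (U \ B2 G v) ≤ PsiT w G U := by
  classical
  have h1 : ∀ S : Finset V, S ⊆ G.neighborFinset v →
      Inv G ((U \ G.neighborFinset v) \ S.biUnion fun t => G.neighborFinset t) ∧
      PsiT w G ((U \ G.neighborFinset v) \ S.biUnion fun t => G.neighborFinset t) ≤ PsiT w G U := by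
    intro S
    induction S using Finset.induction_on with
    | empty =>
      intro _
      rw [biUnion_empty, sdiff_empty]
      exact ⟨hI.sdiff_nbr hG hv, free_nbrs hw hG hI hv⟩
    | insert t S ht ih =>
      intro hS
      obtain ⟨i1, i2⟩ := ih ((subset_insert _ _).trans hS)
      have htn : t ∉ (U \ G.neighborFinset v) \ S.biUnion fun t => G.neighborFinset t := fun e =>
        (mem_sdiff.1 (mem_sdiff.1 e).1).2 (hS (mem_insert_self _ _))
      have e1 : (U \ G.neighborFinset v) \ (insert t S).biUnion (fun t => G.neighborFinset t) =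
          ((U \ G.neighborFinset v) \ S.biUnion fun t => G.neighborFinset t) \ G.neighborFinset t := by
        ext y
        simp only [mem_sdiff, biUnion_insert, mem_union]
        tauto
      rw [e1]
      exact ⟨i1.sdiff_nbr hG htn, (free_nbrs hw hG i1 htn).trans i2⟩
  have h2 : U \ B2 G v = (U \ G.neighborFinset v) \
      (G.neighborFinset v).biUnion fun t => G.neighborFinset t := by
    ext y
    simp only [mem_sdiff, mem_biUnion, SimpleGraph.mem_neighborFinset, not_exists, not_and, mem_B2,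
      mem_cn]
    constructor
    · rintro ⟨a1, a2⟩
      refine ⟨⟨a1, fun h => a2 v (Or.inl rfl) (Or.inr h)⟩, fun t ht h => a2 t (Or.inr ht) (Or.inr h)⟩
    · rintro ⟨⟨a1, a2⟩, a3⟩
      refine ⟨a1, fun t ht h => ?_⟩
      rcases ht with rfl | ht
      · rcases h with rfl | h
        · exact hv a1
        · exact a2 h
      · rcases h with rfl | h
        · exact a2 ht
        · exact a3 t ht h
  rw [h2]
  exact (h1 _ (Subset.refl _)).2

theorem free_rem {w : TF} (hw : w.Mono) (hG : G.IsRegularOfDegree 3) : ∀ {X : List V} {U : Finset V},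
    Inv G U → (∀ v ∈ X, v ∉ U) → PsiT w G (rem G U X) ≤ PsiT w G U := by
  intro X
  induction X with
  | nil => intro U _ _; exact le_refl _
  | cons v X ih =>
    intro U hI hX
    have h1 := ih (hI.pick hG v) (fun v' hv' e => hX v' (List.mem_cons_of_mem _ hv') (mem_sdiff.1 e).1)
    exact h1.trans (free_ball hw hG hI (hX v List.mem_cons_self))

/-! ### the pattern -/

theorem Emb.ball_sub {U : Finset V} {n p : ℕ} {φ ν : ℕ → V} (h : Emb G U n p φ ν) {x : ℕ} (hx : x < n)
    {t : ℕ} (hb : (ball p x).testBit t = true) : t < n ∧ φ t ∈ B2 G (φ x) := by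
  rcases ball_iff.1 hb with rfl | ⟨k, hk, ⟨l, hl, hlt⟩ | ⟨l, hl, hlt⟩⟩
  · exact ⟨hx, self_mem_B2⟩
  · have hkn : k < 3 * n := by omega
    obtain ⟨a1, -, a3, -⟩ := h.dir k hkn l hl
    have b1 := h.adj k hkn
    rw [a3, hk] at b1
    rcases hlt with rfl | ⟨k', l', hk', hl', rfl⟩
    · exact ⟨by omega, mem_B2_of_adj b1.symm⟩
    · have hkn' : k' < 3 * n := by omega
      obtain ⟨c1, -, c3, -⟩ := h.dir k' hkn' l' hl'
      have b2 := h.adj k' hkn'
      rw [c3, hk'] at b2
      exact ⟨by omega, mem_B2_of_common b2 b1.symm⟩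
  · have hkn : k < 3 * n := by omega
    obtain ⟨a1, a2, a3, a4, a5⟩ := h.lnk k hkn l hl
    have b1 := h.adj l a1
    rw [a5, hlt] at b1
    have b2 := h.adj k hkn
    rw [hk] at b2
    exact ⟨by omega, mem_B2_of_common b1.symm b2.symm⟩

/-- two full nodes: the ball is decided -/
theorem Emb.full_ball (hG : G.IsRegularOfDegree 3) {U : Finset V} (hI : Inv G U) {n p : ℕ} {φ ν : ℕ → V}
    (h : Emb G U n p φ ν) {x y : ℕ} (hx : x < n) (hfx : full p x = true) (hy : y < n)
    (hfy : full p y = true) (hB : φ y ∈ B2 G (φ x)) : (ball p x).testBit y = true := by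
  have hyU := h.mem y hy
  obtain ⟨z, hz, hyz⟩ := mem_B2.1 hB
  rw [mem_cn] at hz hyz
  rcases hz with rfl | hz
  · rcases hyz with e | hyz
    · exact ball_iff.2 (Or.inl (h.inj _ hy _ hx e))
    · obtain ⟨k, l, hk, hl, hln, he⟩ := h.full_nbr hG hx hfx hyU hyz
      exact ball_iff.2 (Or.inr ⟨k, hk, Or.inl ⟨l, hl, Or.inl (h.inj _ (by omega) _ hy he)⟩⟩)
  · obtain ⟨k, hk, hkn, hkz⟩ := h.surj hG hx hz
    rcases digit_cases (dg p k) with h0 | h1 | ⟨l, hl⟩ | ⟨l, hl⟩
    · exact absurd h0 (full_iff.1 hfx k hk)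
    · obtain ⟨a1, a2⟩ := h.dead k hkn h1
      rw [hkz] at a1 a2
      rcases hyz with e | hyz
      · rw [e] at hyU; exact absurd hyU a1
      · have e := a2 _ hyU hyz
        rw [hk] at e
        exact ball_iff.2 (Or.inl (h.inj _ hy _ hx e))
    · obtain ⟨a1, -, a3, -⟩ := h.dir k hkn l hl
      rw [hkz] at a3
      rcases hyz with e | hyz
      · exact ball_iff.2 (Or.inr ⟨k, hk, Or.inl ⟨l, hl, Or.inl (h.inj _ (by omega) _ hy (by rw [e, a3]))⟩⟩)
      · obtain ⟨k', hk', hkn', hkz'⟩ := h.surj hG hy hyz.symm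
        have hzU : z ∈ U := a3 ▸ h.mem _ (by omega)
        rcases digit_cases (dg p k') with h0 | h1 | ⟨l', hl'⟩ | ⟨l', hl'⟩
        · exact absurd h0 (full_iff.1 hfy k' hk')
        · exact absurd (hkz' ▸ hzU) (h.dead k' hkn' h1).1
        · obtain ⟨b1, b2, b3, -⟩ := h.dir k' hkn' l' hl'
          rw [hkz', a3] at b3
          have b4 := h.inj _ (by omega) _ (by omega) b3
          exact ball_iff.2 (Or.inr ⟨k, hk, Or.inl ⟨l, hl, Or.inr ⟨l', k', b4.symm, b2, hk'⟩⟩⟩)
        · exact absurd (hkz' ▸ hzU) (h.lnk k' hkn' l' hl').2.2.2.1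
    · obtain ⟨a1, -, a3, a4, a5⟩ := h.lnk k hkn l hl
      have b1 := h.adj l a1
      rw [a5, hkz] at b1
      rw [hkz] at a4
      rcases hyz with e | hyz
      · rw [e] at hyU; exact absurd hyU a4
      · have b2 : φ (l / 3) ≠ φ x := fun e => a3 (by
          have := h.inj _ (by omega) _ hx e
          omega)
        rcases hI.two a4 (h.mem _ hx) (h.mem (l / 3) (by omega)) b2.symm hz.symm b1.symm hyU hyz with e | e
        · exact ball_iff.2 (Or.inl (h.inj _ hy _ hx e))
        · exact ball_iff.2 (Or.inr ⟨k, hk, Or.inr ⟨l, hl, h.inj _ (by omega) _ hy e.symm⟩⟩)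

/-- some port is known -/
def kp (p x : ℕ) : Bool :=
  !(Nat.beq (dg p (3 * x)) 0 && Nat.beq (dg p (3 * x + 1)) 0 && Nat.beq (dg p (3 * x + 2)) 0)

theorem kp_iff {p x : ℕ} (h : kp p x = true) : ∃ k, k / 3 = x ∧ dg p k ≠ 0 := by
  by_contra hc
  push Not at hc
  unfold kp at h
  rw [hc (3 * x) (by omega), hc (3 * x + 1) (by omega), hc (3 * x + 2) (by omega)] at h
  exact absurd h (by decide)

theorem kp_of_full {p x : ℕ} (h : full p x = true) : ∃ k, k / 3 = x ∧ dg p k ≠ 0 :=
  ⟨3 * x, by omega, full_iff.1 h _ (by omega)⟩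

/-- every removed node has a neighbour which is not in the rest -/
def Okm (G : SimpleGraph V) [DecidableRel G.Adj] (U : Finset V) (n M : ℕ) (φ : ℕ → V) : Prop :=
  ∀ i < n, M.testBit i = true → ∃ t, G.Adj (φ i) t ∧ (t ∉ U ∨ ∃ j < n, M.testBit j = true ∧ φ j = t)

theorem Emb.okm {U : Finset V} {n p : ℕ} {φ ν : ℕ → V} (h : Emb G U n p φ ν) {x : ℕ} (hx : x < n)
    (hk : ∃ k, k / 3 = x ∧ dg p k ≠ 0) {M : ℕ} (hM : Okm G U n M φ) :
    Okm G U n (M ||| ball p x) φ := by
  intro i hi hb
  rw [Nat.testBit_or, Bool.or_eq_true] at hb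
  rcases hb with hb | hb
  · obtain ⟨t, ht, h1 | ⟨j, hj, h1, h2⟩⟩ := hM i hi hb
    · exact ⟨t, ht, Or.inl h1⟩
    · exact ⟨t, ht, Or.inr ⟨j, hj, by rw [Nat.testBit_or, h1, Bool.true_or], h2⟩⟩
  have hor : ∀ j, (ball p x).testBit j = true → (M ||| ball p x).testBit j = true := fun j hj => by
    rw [Nat.testBit_or, hj, Bool.or_true]
  rcases ball_iff.1 hb with rfl | ⟨k, hk, ⟨l, hl, hlt⟩ | ⟨l, hl, hlt⟩⟩
  · obtain ⟨k, hk, hk0⟩ := hk
    have hkn : k < 3 * n := by omega
    have hadj := h.adj k hkn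
    rw [hk] at hadj
    refine ⟨ν k, hadj, ?_⟩
    rcases digit_cases (dg p k) with h0 | h1 | ⟨l, hl⟩ | ⟨l, hl⟩
    · exact absurd h0 hk0
    · exact Or.inl (h.dead k hkn h1).1
    · obtain ⟨a1, -, a3, -⟩ := h.dir k hkn l hl
      exact Or.inr ⟨l / 3, by omega, hor _ (ball_iff.2 (Or.inr ⟨k, hk, Or.inl ⟨l, hl, Or.inl rfl⟩⟩)), a3.symm⟩
    · exact Or.inl (h.lnk k hkn l hl).2.2.2.1
  · have hkn : k < 3 * n := by omega
    obtain ⟨a1, -, a3, -⟩ := h.dir k hkn l hl
    have b1 := h.adj k hkn
    rw [a3, hk] at b1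
    rcases hlt with rfl | ⟨k', l', hk', hl', rfl⟩
    · exact ⟨φ x, b1.symm, Or.inr ⟨x, hx, hor _ (ball_iff.2 (Or.inl rfl)), rfl⟩⟩
    · have hkn' : k' < 3 * n := by omega
      obtain ⟨c1, -, c3, -⟩ := h.dir k' hkn' l' hl'
      have b2 := h.adj k' hkn'
      rw [c3, hk'] at b2
      exact ⟨φ (l / 3), b2.symm, Or.inr ⟨l / 3, by omega,
        hor _ (ball_iff.2 (Or.inr ⟨k, hk, Or.inl ⟨l, hl, Or.inl rfl⟩⟩)), rfl⟩⟩
  · have hkn : k < 3 * n := by omega
    obtain ⟨a1, a2, a3, a4, a5⟩ := h.lnk k hkn l hl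
    have b1 := h.adj l a1
    rw [a5, hlt] at b1
    exact ⟨ν k, b1, Or.inl a4⟩

/-- the test: `s`: a single pick, picks still to do, mask of the removed nodes, number of picks -/
def tlo (P O T TE n p E : ℕ) (s : Bool) : List ℕ → ℕ → ℕ → Bool
  | [], M, c => fin' P O T TE n p M E c
  | x :: L, M, c => Nat.ble (Nat.succ x) n && (full p x || (s && kp p x)) && !tb M x &&
      frc (Nat.lor M (ball p x)) fun M' => tlo P O T TE n p E s L M' (Nat.succ c)

theorem rem_eq_of {U U' : Finset V} {X : List V} (hs : U' ⊆ U)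
    (h : ∀ y ∈ U, y ∉ U' → ∃ v ∈ X, y ∈ B2 G v) : rem G U X = rem G U' X := by
  ext y
  rw [mem_rem, mem_rem]
  constructor
  · rintro ⟨a1, a2⟩
    refine ⟨?_, a2⟩
    by_contra hc
    obtain ⟨v, hv, hb⟩ := h y a1 hc
    exact a2 v hv hb
  · rintro ⟨a1, a2⟩
    exact ⟨hs a1, a2⟩

theorem Emb.tlo_good (hG : G.IsRegularOfDegree 3) {w : TF} (hw : w.Mono) {P O T TE : ℕ} (hT : TabK w O T)
    (hTE : TabE w O TE) {U : Finset V} (hI : Inv G U) {n p E : ℕ} {φ ν : ℕ → V} (h : Emb G U n p φ ν)
    {s : Bool} : ∀ (L : List ℕ) (M : ℕ) (Y : List ℕ), (s = true → Y.length + L.length ≤ 1) →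
      Picks G U (Y.map φ) → (∀ x ∈ Y, x < n ∧ (M.testBit x = true) ∧ (s = true ∨ full p x = true) ∧
        ∀ t, (ball p x).testBit t = true → M.testBit t = true) → Okm G U n M φ →
      (∀ i < n, M.testBit i = true → ∃ v ∈ Y.map φ, φ i ∈ B2 G v) →
      tlo P O T TE n p E s L M Y.length = true → GoodT w P G U (Y.length + L.length) := by
  intro L
  induction L with
  | nil =>
    intro M Y _ hP hY hok hM ht
    obtain ⟨U', hU'⟩ : ∃ U', U' = U.filter fun y => ∀ i < n, M.testBit i = true → φ i ≠ y := ⟨_, rfl⟩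
    have mU' : ∀ y, y ∈ U' ↔ y ∈ U ∧ ∀ i < n, M.testBit i = true → φ i ≠ y := fun y => by
      rw [hU', mem_filter]
    have hs : U' ⊆ U := fun y hy => ((mU' y).1 hy).1
    have hnot : ∀ y ∈ U, y ∉ U' → ∃ i < n, M.testBit i = true ∧ φ i = y := by
      intro y hy hyn
      by_contra hc
      push Not at hc
      exact hyn ((mU' y).2 ⟨hy, fun i hi hb => hc i hi hb⟩)
    have hI' : Inv G U' := hI.sub hG hs fun y hy hyn => by
      obtain ⟨i, hi, hb, rfl⟩ := hnot y hy hyn
      obtain ⟨t, ht, h1 | ⟨j, hj, h1, h2⟩⟩ := hok i hi hb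
      · exact ⟨t, ht, fun e => h1 (hs e)⟩
      · exact ⟨t, ht, fun e => ((mU' t).1 e).2 j hj h1 h2⟩
    have h1 := h.fin_le hG hT hTE hI hI' hs (M := M) (E := E) (c := Y.length) (fun i hi => by
      constructor
      · intro hb e
        exact ((mU' _).1 e).2 i hi hb rfl
      · intro e
        obtain ⟨j, hj, hb, he⟩ := hnot _ (h.mem i hi) e
        rwa [← h.inj j hj i hi he]) (fun y hy hyn => by
      obtain ⟨i, hi, -, he⟩ := hnot y hy hyn
      exact ⟨i, hi, he⟩) ht
    have h2 : rem G U (Y.map φ) = rem G U' (Y.map φ) := rem_eq_of hs fun y hy hyn => by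
      obtain ⟨i, hi, hb, rfl⟩ := hnot y hy hyn
      exact hM i hi hb
    have h3 := free_rem hw hG (X := Y.map φ) hI' fun v hv e => by
      obtain ⟨x, hx, rfl⟩ := List.mem_map.1 hv
      obtain ⟨a1, a2, -⟩ := hY x hx
      exact ((mU' _).1 e).2 x a1 a2 rfl
    refine ⟨Y.map φ, by rw [List.length_map]; rfl, hP, ?_⟩
    rw [h2, List.length_map]
    omega
  | cons x L ih =>
    intro M Y hsl hP hY hok hM ht
    rw [tlo, frc_eq, Bool.and_eq_true, Bool.and_eq_true, Bool.and_eq_true, Nat.ble_eq, tb_eq,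
      Bool.not_eq_true', Bool.or_eq_true, Bool.and_eq_true] at ht
    obtain ⟨⟨⟨t1, t2⟩, t3⟩, t4⟩ := ht
    have hxn : x < n := t1
    have hkp : ∃ k, k / 3 = x ∧ dg p k ≠ 0 := by
      rcases t2 with t2 | t2
      · exact kp_of_full t2
      · exact kp_iff t2.2
    have e0 : (Y ++ [x]).map φ = Y.map φ ++ [φ x] := by rw [List.map_append]; rfl
    have e1 : Y.length + (x :: L).length = (Y ++ [x]).length + L.length := by
      simp only [List.length_cons, List.length_append, List.length_nil]
      omega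
    have hor : ∀ j, (ball p x).testBit j = true → (M ||| ball p x).testBit j = true := fun j hj => by
      rw [Nat.testBit_or, hj, Bool.or_true]
    have hor' : ∀ j, M.testBit j = true → (M ||| ball p x).testBit j = true := fun j hj => by
      rw [Nat.testBit_or, hj, Bool.true_or]
    rw [e1]
    refine ih (M ||| ball p x) (Y ++ [x]) ?_ ?_ ?_ (h.okm hxn hkp hok) ?_ ?_
    · intro hs
      have := hsl hs
      rwa [e1] at this
    · rw [e0]
      refine picks_append hP ⟨?_, trivial⟩
      rw [mem_rem]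
      refine ⟨h.mem x hxn, fun v hv hb => ?_⟩
      obtain ⟨y, hy, rfl⟩ := List.mem_map.1 hv
      obtain ⟨a1, a2, a3, a4⟩ := hY y hy
      have hsf : s ≠ true := by
        intro hs
        have h1 := hsl hs
        have h2 : 1 ≤ Y.length := List.length_pos_of_mem hy
        rw [List.length_cons] at h1
        omega
      have hfy : full p y = true := by
        rcases a3 with a3 | a3
        · exact absurd a3 hsf
        · exact a3
      have hfx : full p x = true := by
        rcases t2 with t2 | t2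
        · exact t2
        · exact absurd t2.1 hsf
      have h1 := a4 _ (h.full_ball hG hI a1 hfy hxn hfx hb)
      rw [h1] at t3
      exact absurd t3 (by simp)
    · intro y hy
      rcases List.mem_append.1 hy with hy | hy
      · obtain ⟨a1, a2, a3, a4⟩ := hY y hy
        exact ⟨a1, hor' _ a2, a3, fun t ht => hor' _ (a4 t ht)⟩
      · rw [List.mem_singleton] at hy
        subst hy
        refine ⟨hxn, hor _ (ball_iff.2 (Or.inl rfl)), ?_, fun t ht => hor _ ht⟩
        rcases t2 with t2 | t2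
        · exact Or.inr t2
        · exact Or.inl t2.1
    · intro i hi hb
      rw [Nat.testBit_or, Bool.or_eq_true] at hb
      rcases hb with hb | hb
      · obtain ⟨v, hv, hvb⟩ := hM i hi hb
        exact ⟨v, by rw [e0]; exact List.mem_append_left _ hv, hvb⟩
      · exact ⟨φ x, by rw [e0]; exact List.mem_append_right _ (by simp), (h.ball_sub hxn hb).2⟩
    · rw [List.length_append, List.length_singleton]
      exact t4

/-- **the leaf test with open ports** -/
theorem Emb.open_leaf (hG : G.IsRegularOfDegree 3) {w : TF} (hw : w.Mono) {P O T TE : ℕ}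
    (hT : TabK w O T) (hTE : TabE w O TE) {U : Finset V} (hI : Inv G U) {n p E : ℕ} {φ ν : ℕ → V}
    (h : Emb G U n p φ ν) {L : List ℕ} (ht : tlo P O T TE n p E (Nat.beq L.length 1) L 0 0 = true) :
    GoodT w P G U L.length := by
  have h1 := h.tlo_good hG hw hT hTE hI (E := E) (s := Nat.beq L.length 1) L 0 [] (fun hs => by
    have := Nat.eq_of_beq_eq_true hs
    rw [List.length_nil]
    omega) trivial (fun x hx => absurd hx List.not_mem_nil) (fun i _ hb => by
      rw [Nat.zero_testBit] at hb; exact absurd hb (by simp)) (fun i _ hb => by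
      rw [Nat.zero_testBit] at hb; exact absurd hb (by simp)) ht
  rwa [List.length_nil, Nat.zero_add] at h1

end EF18
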