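import Pool.Agent.Lib.MP_ef18bd_co.P.Bad
import Pool.Agent.Lib.MP_ef18bd_co.P.StpB

/-!
# Pieces at a removed node

`mtc`: the search for a piece `(N, r)` in a pattern `(n, p)`: `0` impossible, `1` complete, `t + 2` the open
port `t` has to be known. `m`: the images of the ports of the piece, digit `t + 1` for the port `t`.
-/

namespace EF18

open Finset

variable {V : Type} [Fintype V] [DecidableEq V] {G : SimpleGraph V} [DecidableRel G.Adj]

/-- the digit -/
def dgf (p k : ℕ) : ℕ := Nat.mod (Nat.div p (Nat.pow (nat_lit 256) k)) (nat_lit 256)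

theorem dgf_eq (p k : ℕ) : dgf p k = dg p k := rfl

/-- one more than the node in which the node `i` is, or `0` -/
def nod (m i : ℕ) : ℕ := frc (Nat.mul 3 i) fun k => frc (dgf m k) fun a =>
  bif Nat.beq a 0 then frc (dgf m (Nat.add k 1)) fun b =>
    bif Nat.beq b 0 then frc (dgf m (Nat.add k 2)) fun c =>
      bif Nat.beq c 0 then 0 else Nat.succ (Nat.div (Nat.pred c) 3)
    else Nat.succ (Nat.div (Nat.pred b) 3)
  else Nat.succ (Nat.div (Nat.pred a) 3)

theorem beq_t {a b : ℕ} (h : a = b) : Nat.beq a b = true := by rw [h]; exact Nat.beq_refl b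

theorem nod_eq (m i : ℕ) : nod m i = if dg m (3 * i) = 0 then (if dg m (3 * i + 1) = 0 then
    (if dg m (3 * i + 2) = 0 then 0 else (dg m (3 * i + 2) - 1) / 3 + 1) else (dg m (3 * i + 1) - 1) / 3 + 1)
    else (dg m (3 * i) - 1) / 3 + 1 := by
  unfold nod
  simp only [frc_eq, dgf_eq]
  change (bif Nat.beq (dg m (3 * i)) 0 then (bif Nat.beq (dg m (3 * i + 1)) 0 then
    (bif Nat.beq (dg m (3 * i + 2)) 0 then 0 else (dg m (3 * i + 2) - 1) / 3 + 1) else
    (dg m (3 * i + 1) - 1) / 3 + 1) else (dg m (3 * i) - 1) / 3 + 1) = _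
  split_ifs with h1 h2 h3
  · rw [h1, h2, h3]; rfl
  · rw [h1, h2, beq_false h3]; rfl
  · rw [h1, beq_false h2]; rfl
  · rw [beq_false h1]; rfl

theorem nod_zero {m i : ℕ} (h : nod m i = 0) {k : ℕ} (hk : k / 3 = i) : dg m k = 0 := by
  rw [nod_eq] at h
  split_ifs at h with h1 h2 h3
  rcases port_cases hk with rfl | rfl | rfl
  · exact h1
  · exact h2
  · exact h3

theorem nod_succ {m i x : ℕ} (h : nod m i = x + 1) : ∃ k t, k / 3 = i ∧ dg m k = t + 1 ∧ t / 3 = x := by
  rw [nod_eq] at h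
  split_ifs at h with h1 h2 h3
  · exact ⟨3 * i + 2, dg m (3 * i + 2) - 1, by omega, by omega, by omega⟩
  · exact ⟨3 * i + 1, dg m (3 * i + 1) - 1, by omega, by omega, by omega⟩
  · exact ⟨3 * i, dg m (3 * i) - 1, by omega, by omega, by omega⟩

/-- the node `y` is not in the image of the nodes below `I` -/
def nin (m y : ℕ) : ℕ → Bool
  | 0 => true
  | i + 1 => !Nat.beq (nod m i) (Nat.succ y) && nin m y i

theorem nin_false {m y : ℕ} : ∀ {I : ℕ}, nin m y I ≠ true → ∃ i < I, nod m i = y + 1 := by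
  intro I
  induction I with
  | zero => intro h; exact absurd rfl h
  | succ I ih =>
    intro h
    rw [nin] at h
    by_cases h1 : nod m I = y + 1
    · exact ⟨I, Nat.lt_succ_self I, h1⟩
    · rw [beq_false h1, Bool.not_false, Bool.true_and] at h
      obtain ⟨i, h2, h3⟩ := ih h
      exact ⟨i, by omega, h3⟩

/-- a port of the node of `k` has the image `t` -/
def sib (m k t : ℕ) : Bool := frc (Nat.mul 3 (Nat.div k 3)) fun a =>
  Nat.beq (dgf m a) (Nat.succ t) || Nat.beq (dgf m (Nat.add a 1)) (Nat.succ t) ||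
    Nat.beq (dgf m (Nat.add a 2)) (Nat.succ t)

theorem sib_iff {m k t : ℕ} (h : sib m k t = true) : ∃ l, l / 3 = k / 3 ∧ dg m l = t + 1 := by
  unfold sib at h
  rw [frc_eq, Bool.or_eq_true, Bool.or_eq_true] at h
  rcases h with (h | h) | h
  · exact ⟨3 * (k / 3), by omega, Nat.eq_of_beq_eq_true h⟩
  · exact ⟨3 * (k / 3) + 1, by omega, Nat.eq_of_beq_eq_true h⟩
  · exact ⟨3 * (k / 3) + 2, by omega, Nat.eq_of_beq_eq_true h⟩

/-- the new images, `0` if this is impossible -/
def asg (N M m k t : ℕ) : ℕ :=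
  frc (Nat.div t 3) fun x => bif tb M x then 0 else frc (dgf m k) fun a =>
    bif Nat.beq a 0 then frc (nod m (Nat.div k 3)) fun y =>
      bif (Nat.beq y 0 && nin m x N) || (Nat.beq y (Nat.succ x) && !sib m k t) then
        Nat.add m (Nat.mul (Nat.succ t) (Nat.pow 256 k)) else 0
    else bif Nat.beq a (Nat.succ t) then m else 0

/-- the images are right -/
def Gd (n N : ℕ) (φ ν φ' ν' : ℕ → V) (m : ℕ) : Prop :=
  ∀ k t, dg m k = t + 1 → k < 3 * N ∧ t < 3 * n ∧ ν t = ν' k ∧ φ (t / 3) = φ' (k / 3)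

omit [Fintype V] [DecidableEq V] [DecidableRel G.Adj] in
theorem asg_ok {U U' E : Finset V} {n p N r M : ℕ} {φ ν φ' ν' : ℕ → V} (h : Emb G U n p φ ν) (hn : n ≤ 40)
    (hE : E ⊆ U') (hM : ∀ t < n, M.testBit t = true → φ t ∉ U') (h' : Emb G E N r φ' ν') {m : ℕ}
    (hm : Gd n N φ ν φ' ν' m) {k t : ℕ} (hk : k < 3 * N) (ht : t < 3 * n) (h1 : ν t = ν' k)
    (h2 : φ (t / 3) = φ' (k / 3)) : asg N M m k t ≠ 0 ∧ Gd n N φ ν φ' ν' (asg N M m k t) := by
  have hxM : tb M (t / 3) = false := tb_false fun hb =>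
    hM _ (by omega) hb (hE (h2 ▸ h'.mem _ (by omega)))
  unfold asg
  simp only [frc_eq, dgf_eq]
  change (bif tb M (t / 3) then 0 else bif Nat.beq (dg m k) 0 then
      bif (Nat.beq (nod m (k / 3)) 0 && nin m (t / 3) N) ||
        (Nat.beq (nod m (k / 3)) (t / 3 + 1) && !sib m k t) then m + (t + 1) * 256 ^ k else 0
    else bif Nat.beq (dg m k) (t + 1) then m else 0) ≠ 0 ∧ Gd n N φ ν φ' ν' (bif tb M (t / 3) then 0 else
    bif Nat.beq (dg m k) 0 then bif (Nat.beq (nod m (k / 3)) 0 && nin m (t / 3) N) ||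
        (Nat.beq (nod m (k / 3)) (t / 3 + 1) && !sib m k t) then m + (t + 1) * 256 ^ k else 0
    else bif Nat.beq (dg m k) (t + 1) then m else 0)
  rw [hxM, cond_false]
  by_cases h0 : dg m k = 0
  · have hc : ((Nat.beq (nod m (k / 3)) 0 && nin m (t / 3) N) ||
        (Nat.beq (nod m (k / 3)) (t / 3 + 1) && !sib m k t)) = true := by
      rcases Nat.eq_zero_or_pos (nod m (k / 3)) with h3 | h3
      · rw [h3]
        have h4 : nin m (t / 3) N = true := by
          by_contra hc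
          obtain ⟨i, hi, hi2⟩ := nin_false hc
          obtain ⟨k', t', a1, a2, a3⟩ := nod_succ hi2
          obtain ⟨b1, b2, b3, b4⟩ := hm k' t' a2
          rw [a3, h2, a1] at b4
          have b5 := h'.inj _ (by omega) _ (by omega) b4
          rw [← a1] at b5
          rw [nod_zero h3 (k := k') b5.symm] at a2
          omega
        rw [h4]
        rfl
      · obtain ⟨x, hx⟩ : ∃ x, nod m (k / 3) = x + 1 := ⟨nod m (k / 3) - 1, by omega⟩
        obtain ⟨k', t', a1, a2, a3⟩ := nod_succ hx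
        obtain ⟨b1, b2, b3, b4⟩ := hm k' t' a2
        rw [a1, ← h2] at b4
        have b5 := h.inj _ (by omega) _ (by omega) b4
        have h6 : sib m k t = false := by
          rw [← Bool.not_eq_true]
          intro hs
          obtain ⟨l, c1, c2⟩ := sib_iff hs
          obtain ⟨d1, d2, d3, d4⟩ := hm l t c2
          have := h'.pinj l d1 k hk c1 (by rw [← d3, h1])
          rw [this, h0] at c2
          omega
        rw [beq_t (show nod m (k / 3) = t / 3 + 1 by rw [hx]; omega), h6]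
        simp
    rw [h0, hc]
    change m + (t + 1) * 256 ^ k ≠ 0 ∧ Gd n N φ ν φ' ν' (m + (t + 1) * 256 ^ k)
    refine ⟨?_, fun k' t' hd => ?_⟩
    · have : 0 < 256 ^ k := by positivity
      have h3 : 0 < (t + 1) * 256 ^ k := by positivity
      omega
    · rw [dg_add h0 (by omega)] at hd
      by_cases hkk : k' = k
      · rw [if_pos hkk] at hd
        have : t' = t := by omega
        subst this
        subst hkk
        exact ⟨hk, ht, h1, h2⟩
      · rw [if_neg hkk] at hd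
        exact hm k' t' hd
  · obtain ⟨s, hs⟩ : ∃ s, dg m k = s + 1 := ⟨dg m k - 1, by omega⟩
    obtain ⟨b1, b2, b3, b4⟩ := hm k s hs
    have b5 := h.inj (s / 3) (by omega) (t / 3) (by omega) (by rw [b4, h2])
    have b6 := h.pinj s b2 t ht b5 (by rw [b3, h1])
    rw [beq_false h0, beq_t (show dg m k = t + 1 by rw [hs, b6])]
    change m ≠ 0 ∧ Gd n N φ ν φ' ν' m
    refine ⟨fun e => h0 ?_, hm⟩
    rw [e]
    unfold dg
    simp

/-- the smaller one of two numbers which are not `0` -/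
def mz (a b : ℕ) : ℕ := bif Nat.beq a 0 then b else bif Nat.beq b 0 then a else bif Nat.ble a b then a else b

theorem mz_ne {a b : ℕ} (h : a ≠ 0 ∨ b ≠ 0) : mz a b ≠ 0 := by
  unfold mz
  by_cases ha : a = 0
  · rw [beq_t ha, cond_true]
    exact h.resolve_left (fun h => h ha)
  · rw [beq_false ha, cond_false]
    by_cases hb : b = 0
    · rw [beq_t hb, cond_true]
      exact ha
    · rw [beq_false hb, cond_false]
      cases Nat.ble a b
      · exact hb
      · exact ha

/-- the best value for the three ports -/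
def m3 (f : ℕ → ℕ) (k : ℕ) : ℕ :=
  frc (f k) fun a => bif Nat.beq a 1 then 1 else frc (f (Nat.add k 1)) fun b => bif Nat.beq b 1 then 1 else
    frc (f (Nat.add k 2)) fun c => mz a (mz b c)

theorem m3_ne {f : ℕ → ℕ} {i t : ℕ} (ht : t / 3 = i) (h : f t ≠ 0) : m3 f (3 * i) ≠ 0 := by
  unfold m3
  rw [frc_eq, frc_eq, frc_eq]
  cases h1 : Nat.beq (f (3 * i)) 1
  swap
  · simp
  cases h2 : Nat.beq (f (Nat.add (3 * i) 1)) 1
  swap
  · simp
  rw [cond_false, cond_false]
  rcases port_cases ht with rfl | rfl | rfl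
  · exact mz_ne (Or.inl h)
  · exact mz_ne (Or.inr (mz_ne (Or.inl h)))
  · exact mz_ne (Or.inr (mz_ne (Or.inr h)))

/-- the member `u` behind the digit `d` is `x` or not in the image -/
def d1x (N m x d : ℕ) : Bool := bif Nat.ble d 1 || Nat.beq (Nat.mod d 2) 1 then true else
  frc (tg d) fun u => Nat.beq u x || nin m u N

/-- the outer vertex behind a lonely port of the piece; `e` is the digit of its image `t` -/
def d1ok (N p m t e : ℕ) : Bool :=
  bif Nat.ble e 1 then true else frc (tg e) fun y => nin m y N && (Nat.beq (Nat.mod e 2) 1 ||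
    frc (Nat.div t 3) fun x => frc (Nat.mul 3 y) fun s =>
      d1x N m x (dgf p s) && d1x N m x (dgf p (Nat.add s 1)) && d1x N m x (dgf p (Nat.add s 2)))

omit [Fintype V] [DecidableEq V] in
theorem Gd.img {n N : ℕ} {φ ν φ' ν' : ℕ → V} {m : ℕ} (hm : Gd n N φ ν φ' ν' m) {y : ℕ}
    (h : nin m y N ≠ true) : ∃ i < N, φ y = φ' i := by
  obtain ⟨i, hi, h1⟩ := nin_false h
  obtain ⟨k, t, a1, a2, a3⟩ := nod_succ h1
  obtain ⟨-, -, -, b4⟩ := hm k t a2
  exact ⟨i, hi, by rw [← a3, b4, a1]⟩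

omit [Fintype V] [DecidableEq V] [DecidableRel G.Adj] in
theorem d1ok_true {U E : Finset V} {n p N r : ℕ} {φ ν φ' ν' : ℕ → V} (h : Emb G U n p φ ν)
    (h' : Emb G E N r φ' ν') {m : ℕ} (hm : Gd n N φ ν φ' ν' m) {k t : ℕ} (hk : k < 3 * N)
    (ht : t < 3 * n) (h1 : ν t = ν' k) (h2 : φ (t / 3) = φ' (k / 3)) (hd : dg r k = 1) :
    d1ok N p m t (dg p t) = true := by
  obtain ⟨c1, c2⟩ := h'.dead k hk hd
  unfold d1ok
  simp only [frc_eq, dgf_eq]
  cases hb : Nat.ble (dg p t) 1
  swap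
  · rfl
  rw [cond_false, Bool.and_eq_true, Bool.or_eq_true]
  rcases digit_cases (dg p t) with h0 | h0 | ⟨c, hc⟩ | ⟨c, hc⟩
  · rw [h0] at hb
    exact absurd hb (by decide)
  · rw [h0] at hb
    exact absurd hb (by decide)
  · obtain ⟨a1, a2, a3, a4⟩ := h.dir t ht c hc
    rw [hc, tg_dir]
    constructor
    · by_contra hni
      obtain ⟨i, hi, e⟩ := hm.img hni
      exact c1 (by rw [← h1, a3, e]; exact h'.mem i hi)
    · right
      have key : ∀ s, s / 3 = c / 3 → d1x N m (t / 3) (dg p s) = true := by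
        intro s hs
        unfold d1x
        rcases digit_cases (dg p s) with h0 | h0 | ⟨l, hl⟩ | ⟨l, hl⟩
        · rw [h0]; rfl
        · rw [h0]; rfl
        · cases (Nat.ble (dg p s) 1 || Nat.beq (Nat.mod (dg p s) 2) 1)
          swap
          · rfl
          rw [cond_false, frc_eq, hl, tg_dir, Bool.or_eq_true]
          by_contra hno
          push Not at hno
          obtain ⟨n1, n2⟩ := hno
          obtain ⟨i, hi, e⟩ := hm.img n2
          obtain ⟨b1, b2, b3, b4⟩ := h.dir s (by omega) l hl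
          have g1 := h.adj s (by omega)
          rw [b3, hs, ← a3, h1] at g1
          have g2 := c2 _ (e ▸ h'.mem i hi) g1
          rw [← h2] at g2
          exact n1 (beq_t (h.inj _ (by omega) _ (by omega) g2))
        · rw [show Nat.beq (Nat.mod (dg p s) 2) 1 = true from beq_t (by
            rw [hl]; change (3 + 2 * l) % 2 = 1; omega), Bool.or_true]
          rfl
      change (d1x N m (t / 3) (dg p (3 * (c / 3))) && d1x N m (t / 3) (dg p (3 * (c / 3) + 1)) &&
        d1x N m (t / 3) (dg p (3 * (c / 3) + 2))) = true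
      rw [key _ (by omega), key _ (by omega), key _ (by omega)]
      rfl
  · obtain ⟨a1, a2, a3, a4, a5⟩ := h.lnk t ht c hc
    rw [hc, tg_lnk]
    constructor
    · by_contra hni
      obtain ⟨i, hi, e⟩ := hm.img hni
      have g1 := h.adj c a1
      rw [a5, h1] at g1
      have g2 := c2 _ (e ▸ h'.mem i hi) g1.symm
      rw [← h2] at g2
      exact a3 (h.inj _ (by omega) _ (by omega) g2)
    · left
      exact beq_t (by change (3 + 2 * c) % 2 = 1; omega)

/-! ### the search -/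

/-- the first port without image at a node with an image, plus one -/
def nxt (m : ℕ) : ℕ → ℕ
  | 0 => 0
  | k + 1 => frc (nxt m k) fun a => bif Nat.beq a 0 then
      (bif Nat.beq (dgf m k) 0 && !Nat.beq (nod m (Nat.div k 3)) 0 then Nat.succ k else 0) else a

theorem nxt_of {m : ℕ} : ∀ {K k : ℕ}, nxt m K = k + 1 → k < K ∧ dg m k = 0 ∧ nod m (k / 3) ≠ 0 := by
  intro K
  induction K with
  | zero => intro k h; exact absurd h (by simp [nxt])
  | succ K ih =>
    intro k h
    rw [nxt, frc_eq] at h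
    cases h1 : Nat.beq (nxt m K) 0
    · rw [h1, cond_false] at h
      obtain ⟨a1, a2, a3⟩ := ih h
      exact ⟨by omega, a2, a3⟩
    · rw [h1, cond_true] at h
      cases h2 : Nat.beq (dgf m K) 0 && !Nat.beq (nod m (Nat.div K 3)) 0
      · rw [h2, cond_false] at h
        omega
      · rw [h2, cond_true] at h
        have e : K = k := by
          have : K + 1 = k + 1 := h
          omega
        rw [Bool.and_eq_true, Bool.not_eq_true'] at h2
        rw [← e]
        refine ⟨Nat.lt_succ_self K, Nat.eq_of_beq_eq_true h2.1, fun h3 => ?_⟩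
        have h4 : Nat.beq (nod m (K / 3)) 0 = false := h2.2
        rw [h3] at h4
        exact absurd h4 (by simp)

/-- the lonely ports are right -/
def fin1 (N r p m : ℕ) : ℕ → Bool
  | 0 => true
  | k + 1 => (!Nat.beq (dgf r k) 1 || frc (dgf m k) fun a => bif Nat.beq a 0 then true else
      d1ok N p m (Nat.pred a) (dgf p (Nat.pred a))) && fin1 N r p m k

omit [Fintype V] [DecidableEq V] [DecidableRel G.Adj] in
theorem fin1_true {U E : Finset V} {n p N r : ℕ} {φ ν φ' ν' : ℕ → V} (h : Emb G U n p φ ν)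
    (h' : Emb G E N r φ' ν') {m : ℕ} (hm : Gd n N φ ν φ' ν' m) (K : ℕ) : fin1 N r p m K = true := by
  induction K with
  | zero => rfl
  | succ K ih =>
    rw [fin1, ih, Bool.and_true, Bool.or_eq_true, frc_eq, dgf_eq, dgf_eq, dgf_eq]
    by_cases hd : dg r K = 1
    · right
      cases ha : Nat.beq (dg m K) 0
      swap
      · rfl
      rw [cond_false]
      have ha' : dg m K ≠ 0 := fun e => by rw [e] at ha; exact absurd ha (by simp)
      obtain ⟨t, ht⟩ : ∃ t, dg m K = t + 1 := ⟨dg m K - 1, by omega⟩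
      obtain ⟨b1, b2, b3, b4⟩ := hm K t ht
      rw [ht]
      exact d1ok_true h h' hm b1 b2 b3 b4 hd
    · left
      rw [beq_false hd]
      rfl

/-- the value after the assignment of the port `l` to the partner of a port with the digit `e` -/
def nx2 (g : ℕ → ℕ) (N M m l e : ℕ) : ℕ :=
  frc (asg N M m l (Nat.pred (Nat.div e 2))) fun m2 => bif Nat.beq m2 0 then 0 else g m2

/-- the port `s` of a live outer vertex leads to the node of the port `l` -/
def lvp (g : ℕ → ℕ) (N p M m l s : ℕ) : ℕ := frc (dgf p s) fun e =>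
  bif Nat.beq e 0 then (bif Nat.beq (g m) 0 then 0 else Nat.add s 2) else
    bif Nat.beq (Nat.mod e 2) 1 then 0 else nx2 g N M m l e

/-- the port `k` has the image `t` -/
def vlp (g : ℕ → ℕ) (N r p M m k t : ℕ) : ℕ :=
  frc (asg N M m k t) fun m1 => bif Nat.beq m1 0 then 0 else frc (dgf r k) fun d => frc (dgf p t) fun e =>
    bif Nat.ble d 1 then (bif Nat.beq d 0 || d1ok N p m1 t e then g m1 else 0) else
    bif Nat.beq e 0 then (bif Nat.beq (g m1) 0 then 0 else Nat.add t 2) else bif Nat.beq e 1 then 0 else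
    frc (Nat.pred (Nat.div d 2)) fun l =>
    bif Nat.beq (Nat.mod d 2) (Nat.mod e 2) then nx2 g N M m1 l e else
    bif Nat.beq (Nat.mod d 2) 0 then 0 else
    frc (tg e) fun y => bif nin m1 y N then m3 (fun s => lvp g N p M m1 l s) (Nat.mul 3 y) else 0

/-- the search -/
def mtc (N r p M : ℕ) : ℕ → ℕ → ℕ
  | 0, _ => 1
  | f + 1, m => frc (nxt m (Nat.mul 3 N)) fun a =>
      bif Nat.beq a 0 then (bif fin1 N r p m (Nat.mul 3 N) then 1 else 0) else
      frc (nod m (Nat.div (Nat.pred a) 3)) fun x =>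
        m3 (fun t => vlp (mtc N r p M f) N r p M m (Nat.pred a) t) (Nat.mul 3 (Nat.pred x))

section

variable {U U' E : Finset V} {n p N r M : ℕ} {φ ν φ' ν' : ℕ → V}

omit [Fintype V] [DecidableEq V] [DecidableRel G.Adj] in
theorem nx2_ne (h : Emb G U n p φ ν) (hn : n ≤ 40)
    (hE : E ⊆ U') (hM : ∀ t < n, M.testBit t = true → φ t ∉ U') (h' : Emb G E N r φ' ν') {g : ℕ → ℕ}
    (hg : ∀ m, Gd n N φ ν φ' ν' m → g m ≠ 0) {m : ℕ} (hm : Gd n N φ ν φ' ν' m) {l c e : ℕ}
    (he : e / 2 - 1 = c) (hl : l < 3 * N) (hc : c < 3 * n) (h1 : ν c = ν' l) (h2 : φ (c / 3) = φ' (l / 3)) :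
    nx2 g N M m l e ≠ 0 := by
  obtain ⟨a1, a2⟩ := asg_ok h hn hE hM h' hm hl hc h1 h2
  unfold nx2
  rw [frc_eq, show Nat.pred (Nat.div e 2) = c from he, beq_false a1, cond_false]
  exact hg _ a2

theorem vlp_ne (hG : G.IsRegularOfDegree 3) (hI : Inv G U) (h : Emb G U n p φ ν) (hn : n ≤ 40) (hU : U' ⊆ U)
    (hE : E ⊆ U') (hM : ∀ t < n, M.testBit t = true → φ t ∉ U') (h' : Emb G E N r φ' ν') {g : ℕ → ℕ}
    (hg : ∀ m, Gd n N φ ν φ' ν' m → g m ≠ 0) {m : ℕ} (hm : Gd n N φ ν φ' ν' m) {k t : ℕ}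
    (hk : k < 3 * N) (ht : t < 3 * n) (h1 : ν t = ν' k) (h2 : φ (t / 3) = φ' (k / 3)) :
    vlp g N r p M m k t ≠ 0 := by
  obtain ⟨a1, a2⟩ := asg_ok h hn hE hM h' hm hk ht h1 h2
  unfold vlp
  simp only [frc_eq, dgf_eq]
  rw [beq_false a1, cond_false]
  have hN : ∀ i < N, φ' i ∈ U := fun i hi => hU (hE (h'.mem i hi))
  rcases digit_cases (dg r k) with h0 | h0 | ⟨l, hl⟩ | ⟨l, hl⟩
  · rw [h0]
    exact hg _ a2
  · rw [d1ok_true h h' a2 hk ht h1 h2 h0, h0]
    exact hg _ a2
  · obtain ⟨b1, b2, b3, b4⟩ := h'.dir k hk l hl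
    rw [hl]
    have e1 : Nat.ble (2 + 2 * l) 1 = false := by
      rw [← Bool.not_eq_true]; intro e; have := Nat.le_of_ble_eq_true e; omega
    have e2 : Nat.pred (Nat.div (2 + 2 * l) 2) = l := by change (2 + 2 * l) / 2 - 1 = l; omega
    rw [e1, cond_false, e2]
    have hU' : ν t ∈ U := by rw [h1, b3]; exact hN _ (by omega)
    rcases digit_cases (dg p t) with g0 | g0 | ⟨c, hc⟩ | ⟨c, hc⟩
    · rw [g0]
      change (bif Nat.beq (g (asg N M m k t)) 0 then 0 else t + 2) ≠ 0
      rw [beq_false (hg _ a2), cond_false]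
      omega
    · exact absurd hU' (h.dead t ht g0).1
    · obtain ⟨d1, d2, d3, d4⟩ := h.dir t ht c hc
      rw [hc, beq_false (show 2 + 2 * c ≠ 0 by omega), beq_false (show 2 + 2 * c ≠ 1 by omega),
        show Nat.mod (2 + 2 * l) 2 = (2 + 2 * l) % 2 from rfl,
        show Nat.mod (2 + 2 * c) 2 = (2 + 2 * c) % 2 from rfl,
        beq_t (show (2 + 2 * l) % 2 = (2 + 2 * c) % 2 by omega), cond_false, cond_false, cond_true]
      refine nx2_ne h hn hE hM h' hg a2 (c := c) (by omega) b1 d1 ?_ ?_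
      · rw [d4, b4, h2]
      · rw [← d3, h1, b3]
    · exact absurd hU' (h.lnk t ht c hc).2.2.2.1
  · obtain ⟨b1, b2, b3, b4, b5⟩ := h'.lnk k hk l hl
    rw [hl]
    have e1 : Nat.ble (3 + 2 * l) 1 = false := by
      rw [← Bool.not_eq_true]; intro e; have := Nat.le_of_ble_eq_true e; omega
    have e2 : Nat.pred (Nat.div (3 + 2 * l) 2) = l := by change (3 + 2 * l) / 2 - 1 = l; omega
    rw [e1, cond_false, e2]
    have hadj : G.Adj (ν t) (φ' (l / 3)) := by
      have := (h'.adj l b1).symm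
      rwa [b5, ← h1] at this
    have hne : φ (t / 3) ≠ φ' (l / 3) := fun e => b3 (by
      rw [h2] at e
      exact (h'.inj _ (by omega) _ (by omega) e).symm)
    rcases digit_cases (dg p t) with g0 | g0 | ⟨c, hc⟩ | ⟨c, hc⟩
    · rw [g0]
      change (bif Nat.beq (g (asg N M m k t)) 0 then 0 else t + 2) ≠ 0
      rw [beq_false (hg _ a2), cond_false]
      omega
    · exact absurd ((h.dead t ht g0).2 _ (hN _ (by omega)) hadj).symm hne
    · obtain ⟨d1, d2, d3, d4⟩ := h.dir t ht c hc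
      rw [hc, beq_false (show 2 + 2 * c ≠ 0 by omega), beq_false (show 2 + 2 * c ≠ 1 by omega),
        show Nat.mod (3 + 2 * l) 2 = (3 + 2 * l) % 2 from rfl,
        show Nat.mod (2 + 2 * c) 2 = (2 + 2 * c) % 2 from rfl,
        beq_false (show (3 + 2 * l) % 2 ≠ (2 + 2 * c) % 2 by omega),
        beq_false (show (3 + 2 * l) % 2 ≠ 0 by omega), cond_false, cond_false, cond_false, cond_false,
        tg_dir]
      have hni : nin (asg N M m k t) (c / 3) N = true := by
        by_contra hni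
        obtain ⟨i, hi, e⟩ := a2.img hni
        exact b4 (by rw [← h1, d3, e]; exact h'.mem i hi)
      rw [hni, cond_true]
      rw [d3] at hadj
      obtain ⟨s, s1, s2, s3⟩ := h.surj hG (i := c / 3) (by omega) hadj
      refine m3_ne s1 ?_
      unfold lvp
      rw [frc_eq, dgf_eq]
      rcases digit_cases (dg p s) with g0 | g0 | ⟨c', hc'⟩ | ⟨c', hc'⟩
      · rw [g0]
        change (bif Nat.beq (g (asg N M m k t)) 0 then 0 else s + 2) ≠ 0
        rw [beq_false (hg _ a2), cond_false]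
        omega
      · exact absurd (s3 ▸ hN _ (by omega)) (h.dead s s2 g0).1
      · obtain ⟨f1, f2, f3, f4⟩ := h.dir s s2 c' hc'
        rw [hc', beq_false (show 2 + 2 * c' ≠ 0 by omega),
          show Nat.mod (2 + 2 * c') 2 = (2 + 2 * c') % 2 from rfl,
          beq_false (show (2 + 2 * c') % 2 ≠ 1 by omega), cond_false, cond_false]
        refine nx2_ne h hn hE hM h' hg a2 (c := c') (by omega) b1 f1 ?_ ?_
        · rw [f4, s1, ← d3, h1, b5]
        · rw [← f3, s3]
      · exact absurd (s3 ▸ hN _ (by omega)) (h.lnk s s2 c' hc').2.2.2.1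
    · obtain ⟨d1, d2, d3, d4, d5⟩ := h.lnk t ht c hc
      rw [hc, beq_false (show 3 + 2 * c ≠ 0 by omega), beq_false (show 3 + 2 * c ≠ 1 by omega),
        show Nat.mod (3 + 2 * l) 2 = (3 + 2 * l) % 2 from rfl,
        show Nat.mod (3 + 2 * c) 2 = (3 + 2 * c) % 2 from rfl,
        beq_t (show (3 + 2 * l) % 2 = (3 + 2 * c) % 2 by omega), cond_false, cond_false, cond_true]
      refine nx2_ne h hn hE hM h' hg a2 (c := c) (by omega) b1 d1 ?_ ?_
      · rw [d5, h1, b5]
      · have g1 := (h.adj c d1).symm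
        rw [d5] at g1
        rcases hI.two d4 (h.mem (t / 3) (by omega)) (h.mem (c / 3) (by omega))
          (fun e => d3 (h.inj _ (by omega) _ (by omega) e).symm) (h.adj t ht).symm g1 (hN _ (by omega)) hadj
          with e | e
        · exact absurd e.symm hne
        · exact e.symm

/-- **the search finds the piece** -/
theorem mtc_ne (hG : G.IsRegularOfDegree 3) (hI : Inv G U) (h : Emb G U n p φ ν) (hn : n ≤ 40)
    (hU : U' ⊆ U) (hE : E ⊆ U') (hM : ∀ t < n, M.testBit t = true → φ t ∉ U')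
    (h' : Emb G E N r φ' ν') : ∀ (f m : ℕ), Gd n N φ ν φ' ν' m → mtc N r p M f m ≠ 0 := by
  intro f
  induction f with
  | zero => intro m _; exact Nat.one_ne_zero
  | succ f ih =>
    intro m hm
    rw [mtc, frc_eq, frc_eq, fin1_true h h' hm]
    cases h1 : Nat.beq (nxt m (Nat.mul 3 N)) 0
    swap
    · exact Nat.one_ne_zero
    rw [cond_false]
    obtain ⟨k, hk⟩ : ∃ k, nxt m (Nat.mul 3 N) = k + 1 := ⟨nxt m (Nat.mul 3 N) - 1, by
      have : nxt m (Nat.mul 3 N) ≠ 0 := fun e => by rw [e] at h1; exact absurd h1 (by simp)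
      omega⟩
    obtain ⟨a1, a2, a3⟩ := nxt_of hk
    change k < 3 * N at a1
    obtain ⟨x, hx⟩ : ∃ x, nod m (k / 3) = x + 1 := ⟨nod m (k / 3) - 1, by omega⟩
    obtain ⟨k', t', b1, b2, b3⟩ := nod_succ hx
    obtain ⟨c1, c2, c3, c4⟩ := hm k' t' b2
    rw [b3, b1] at c4
    have hadj := h'.adj k a1
    rw [← c4] at hadj
    obtain ⟨t, t1, t2, t3⟩ := h.surj hG (i := x) (by omega) hadj
    rw [hk, show Nat.pred (k + 1) = k from rfl, show Nat.div k 3 = k / 3 from rfl, hx,
      show Nat.pred (x + 1) = x from rfl]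
    exact m3_ne t1 (vlp_ne hG hI h hn hU hE hM h' ih hm a1 t2 t3 (by rw [t1, c4]))

end

/-! ### all pieces at a removed node -/

/-- the search for the ports `ks`, the ends have the digits `a`, `b` at the removed node -/
def mk1 (N r p M F a b : ℕ) : List ℕ → ℕ
  | [] => 0
  | k :: ks => frc (nx2 (fun m => nx2 (mtc N r p M F) N M m (Nat.pred (Nat.div (dgf r k) 2)) b) N M 0 k a)
      fun x => bif Nat.beq x 1 then 1 else mz x (mk1 N r p M F a b ks)

/-- the search for all pieces -/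
def mk2 (p M F a b : ℕ) : List MPc → ℕ
  | [] => 0
  | e :: ML => frc (mk1 e.1.1 e.1.2 p M F a b e.2) fun x => bif Nat.beq x 1 then 1 else mz x (mk2 p M F a b ML)

/-- two direct ports -/
def mk3 (ML : List MPc) (p M F a b : ℕ) : ℕ :=
  bif Nat.ble 2 a && Nat.beq (Nat.mod a 2) 0 && (Nat.ble 2 b && Nat.beq (Nat.mod b 2) 0) then mk2 p M F a b ML
  else 0

/-- the search at the removed node `z` -/
def mt (ML : List MPc) (p M F z : ℕ) : ℕ :=
  frc (fo p z) fun b => bif Nat.beq (dgf p b) 0 then Nat.add b 2 else frc (Nat.mul 3 z) fun k =>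
    frc (dgf p k) fun a0 => frc (dgf p (Nat.add k 1)) fun a1 => frc (dgf p (Nat.add k 2)) fun a2 =>
      frc (mk3 ML p M F a0 a1) fun x => frc (mk3 ML p M F a0 a2) fun y => frc (mk3 ML p M F a1 a2) fun t =>
        mz x (mz y t)

section

variable {U U' E : Finset V} {n p N r M : ℕ} {φ ν φ' ν' : ℕ → V}

theorem mk1_ne (hG : G.IsRegularOfDegree 3) (hI : Inv G U) (h : Emb G U n p φ ν) (hn : n ≤ 40)
    (hU : U' ⊆ U) (hE : E ⊆ U') (hM : ∀ t < n, M.testBit t = true → φ t ∉ U')
    (h' : Emb G E N r φ' ν') (F : ℕ) {a b c d k l : ℕ} (ha : a / 2 - 1 = c) (hb : b / 2 - 1 = d)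
    (hk : k < 3 * N) (hl : dg r k = 3 + 2 * l) (hc : c < 3 * n) (hc1 : ν c = ν' k)
    (hc2 : φ (c / 3) = φ' (k / 3)) (hd : d < 3 * n) (hd1 : ν d = ν' l) (hd2 : φ (d / 3) = φ' (l / 3)) :
    ∀ {ks : List ℕ}, k ∈ ks → mk1 N r p M F a b ks ≠ 0 := by
  intro ks
  induction ks with
  | nil => intro hm; exact absurd hm List.not_mem_nil
  | cons j ks ih =>
    intro hm
    rw [mk1, frc_eq]
    cases h1 : Nat.beq (nx2 (fun m => nx2 (mtc N r p M F) N M m (Nat.pred (Nat.div (dgf r j) 2)) b) N M 0 j a) 1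
    swap
    · exact Nat.one_ne_zero
    rw [cond_false]
    rcases List.mem_cons.1 hm with rfl | hm
    · refine mz_ne (Or.inl ?_)
      have hl1 : l < 3 * N := (h'.lnk k hk l hl).1
      have e2 : Nat.pred (Nat.div (dgf r k) 2) = l := by
        rw [dgf_eq, hl]
        change (3 + 2 * l) / 2 - 1 = l
        omega
      rw [e2]
      refine nx2_ne h hn hE hM h' (fun m hm => ?_) (m := 0) (fun k t hd => ?_) ha hk hc hc1 hc2
      · exact nx2_ne h hn hE hM h' (mtc_ne hG hI h hn hU hE hM h' F) hm hb hl1 hd hd1 hd2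
      · unfold dg at hd
        simp at hd
    · exact mz_ne (Or.inr (ih hm))

theorem mk2_ne {F a b : ℕ} {e : MPc} (h : mk1 e.1.1 e.1.2 p M F a b e.2 ≠ 0) :
    ∀ {ML : List MPc}, e ∈ ML → mk2 p M F a b ML ≠ 0 := by
  intro ML
  induction ML with
  | nil => intro hm; exact absurd hm List.not_mem_nil
  | cons j ML ih =>
    intro hm
    rw [mk2, frc_eq]
    cases h1 : Nat.beq (mk1 j.1.1 j.1.2 p M F a b j.2) 1
    swap
    · exact Nat.one_ne_zero
    rw [cond_false]
    rcases List.mem_cons.1 hm with rfl | hm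
    · exact mz_ne (Or.inl h)
    · exact mz_ne (Or.inr (ih hm))

/-- **the search at a removed node is right** -/
theorem mt_ne (hG : G.IsRegularOfDegree 3) (hI : Inv G U) {ML : List MPc} (hML : ML.all mkok = true)
    (h : Emb G U n p φ ν) (hn : n ≤ 40) (hU : U' ⊆ U) (hM : ∀ t < n, M.testBit t = true → φ t ∉ U')
    {z : ℕ} (hz : z < n) (hb : BZ ML G U' (φ z)) (F : ℕ) : mt ML p M F z ≠ 0 := by
  obtain ⟨hzU, e, he, E, hE, φ', ν', h', -, k, hk, hkz⟩ := hb
  obtain ⟨k1, l, l1, l2⟩ := mkok_of (List.all_eq_true.1 hML e he) hk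
  obtain ⟨b1, b2, b3, b4, b5⟩ := h'.lnk k k1 l l2
  have hN : ∀ i < e.1.1, φ' i ∈ U := fun i hi => hU (hE (h'.mem i hi))
  unfold mt
  rw [frc_eq]
  cases ho : Nat.beq (dgf p (fo p z)) 0
  swap
  · simp
  rw [cond_false]
  have hfull : ∀ s, s / 3 = z → dg p s ≠ 0 := fun s hs h0 => by
    rw [show dgf p (fo p z) = dg p (fo p z) from rfl, fo_open hs h0] at ho
    exact absurd ho (by simp)
  -- the two ends
  have key : ∀ j, j < 3 * e.1.1 → ν' j = φ z → ∃ s c, s / 3 = z ∧ s < 3 * n ∧ ν s = φ' (j / 3) ∧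
      dg p s = 2 + 2 * c ∧ c < 3 * n ∧ ν c = ν' j ∧ φ (c / 3) = φ' (j / 3) := by
    intro j hj hjz
    have hadj := (h'.adj j hj).symm
    rw [hjz] at hadj
    obtain ⟨s, s1, s2, s3⟩ := h.surj hG hz hadj
    have hsU : ν s ∈ U := by rw [s3]; exact hN _ (by omega)
    rcases digit_cases (dg p s) with g0 | g0 | ⟨c, hc⟩ | ⟨c, hc⟩
    · exact absurd g0 (hfull s s1)
    · exact absurd hsU (h.dead s s2 g0).1
    · obtain ⟨f1, f2, f3, f4⟩ := h.dir s s2 c hc
      exact ⟨s, c, s1, s2, s3, hc, f1, by rw [f4, s1, hjz], by rw [← f3, s3]⟩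
    · exact absurd hsU (h.lnk s s2 c hc).2.2.2.1
  obtain ⟨s, c, s1, s2, s3, s4, s5, s6, s7⟩ := key k k1 hkz
  obtain ⟨t, d, t1, t2, t3, t4, t5, t6, t7⟩ := key l b1 (b5.trans hkz)
  have hst : s ≠ t := fun e' => by
    rw [e', t3] at s3
    exact b3 (h'.inj _ (by omega) _ (by omega) s3)
  have val : mk3 ML p M F (dg p s) (dg p t) ≠ 0 ∧ mk3 ML p M F (dg p t) (dg p s) ≠ 0 := by
    have c1 : ∀ x, (Nat.ble 2 (2 + 2 * x) && Nat.beq (Nat.mod (2 + 2 * x) 2) 0) = true := fun x => by
      rw [Bool.and_eq_true]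
      exact ⟨Nat.ble_eq_true_of_le (by omega), beq_t (by change (2 + 2 * x) % 2 = 0; omega)⟩
    unfold mk3
    rw [s4, t4, c1, c1]
    constructor
    · exact mk2_ne (mk1_ne hG hI h hn hU hE hM h' F (c := c) (d := d) (by omega) (by omega) k1 l2 s5 s6 s7 t5 t6
        t7 hk) he
    · exact mk2_ne (mk1_ne hG hI h hn hU hE hM h' F (c := d) (d := c) (by omega) (by omega) b1 b2 t5 t6 t7 s5 s6
        s7 l1) he
  simp only [frc_eq]
  change mz (mk3 ML p M F (dg p (3 * z)) (dg p (3 * z + 1))) (mz (mk3 ML p M F (dg p (3 * z)) (dg p (3 * z + 2)))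
    (mk3 ML p M F (dg p (3 * z + 1)) (dg p (3 * z + 2)))) ≠ 0
  rcases port_cases s1 with rfl | rfl | rfl <;> rcases port_cases t1 with rfl | rfl | rfl
  · exact absurd rfl hst
  · exact mz_ne (Or.inl val.1)
  · exact mz_ne (Or.inr (mz_ne (Or.inl val.1)))
  · exact mz_ne (Or.inl val.2)
  · exact absurd rfl hst
  · exact mz_ne (Or.inr (mz_ne (Or.inr val.1)))
  · exact mz_ne (Or.inr (mz_ne (Or.inl val.2)))
  · exact mz_ne (Or.inr (mz_ne (Or.inr val.2)))
  · exact absurd rfl hst

end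

/-! ### the overlays -/

/-- the images of a list -/
def fmp (g : ℕ × ℕ → List (ℕ × ℕ)) : List (ℕ × ℕ) → List (ℕ × ℕ)
  | [] => []
  | q :: L => g q ++ fmp g L

theorem mem_fmp {g : ℕ × ℕ → List (ℕ × ℕ)} {q q' : ℕ × ℕ} : ∀ {L : List (ℕ × ℕ)}, q ∈ L → q' ∈ g q →
    q' ∈ fmp g L := by
  intro L
  induction L with
  | nil => intro h; exact absurd h List.not_mem_nil
  | cons a L ih =>
    intro h h'
    rw [fmp]
    rcases List.mem_cons.1 h with rfl | h
    · exact List.mem_append_left _ h'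
    · exact List.mem_append_right _ (ih h h')

/-- the patterns in which the removed node `z` is a marked link vertex of a surviving piece -/
def ovs (ok : ℕ → ℕ → Bool) (d : Bool) (ML : List MPc) (L : List ℕ) (z : ℕ) : ℕ → ℕ → ℕ → List (ℕ × ℕ)
  | 0, n, p => [(n, p)]
  | f + 1, n, p => bif !Nat.ble n 40 then [(n, p)] else bif ok n p then
      frc (mt ML p (kms p L 0) 40 z) fun x =>
      bif Nat.beq x 0 then [] else bif Nat.beq x 1 then [(n, p)] else
        match branch d n p (Nat.pred (Nat.pred x)) with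
        | none => [(n, p)]
        | some R => fmp (fun q => ovs ok d ML L z f q.1 q.2) R
    else []

omit [Fintype V] [DecidableEq V] [DecidableRel G.Adj] in
theorem Ch.self {U : Finset V} {n p : ℕ} {φ ν : ℕ → V} (h : Emb G U n p φ ν) : Ch G U n φ (n, p) :=
  ⟨le_rfl, φ, ν, h, fun _ _ => rfl⟩

/-- **the overlays are all cases** -/
theorem ovs_ch (hG : G.IsRegularOfDegree 3) {U : Finset V} (hI : Inv G U) {ok : ℕ → ℕ → Bool}
    (hok : ∀ n p φ ν, Emb G U n p φ ν → ok n p = true) {d : Bool}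
    (hd : d = true ∨ ∀ y, y ∉ U → ∀ x ∈ U, G.Adj y x → ∃ x' ∈ U, x' ≠ x ∧ G.Adj y x')
    {ML : List MPc} (hML : ML.all mkok = true) {L : List ℕ} {z : ℕ} : ∀ (f n p : ℕ) (φ ν : ℕ → V),
      Emb G U n p φ ν → (∀ x ∈ L, x < n) → z < n → BZ ML G (rem G U (L.map φ)) (φ z) →
      ∃ q ∈ ovs ok d ML L z f n p, Ch G U n φ q := by
  intro f
  induction f with
  | zero => intro n p φ ν h _ _ _; exact ⟨_, List.mem_cons_self, Ch.self h⟩
  | succ f ih =>
    intro n p φ ν h hL hz hb
    rw [ovs]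
    cases hn' : Nat.ble n 40
    · exact ⟨_, List.mem_cons_self, Ch.self h⟩
    rw [Bool.not_true, cond_false]
    have hn : n ≤ 40 := Nat.le_of_ble_eq_true hn'
    have h1 := mt_ne hG hI hML h hn rem_subset (M := kms p L 0) (fun t ht hb => (h.kms_out hL hb).2) hz hb 40
    rw [hok n p φ ν h, cond_true, frc_eq, beq_false h1, cond_false]
    cases h2 : Nat.beq (mt ML p (kms p L 0) 40 z) 1
    swap
    · exact ⟨_, List.mem_cons_self, Ch.self h⟩
    rw [cond_false]
    match hR : branch d n p (Nat.pred (Nat.pred (mt ML p (kms p L 0) 40 z))) with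
    | none => exact ⟨_, List.mem_cons_self, Ch.self h⟩
    | some R =>
      obtain ⟨q, hq, hqn, φ', ν', he, hφ⟩ := branch_ch hG hI hd hR h
      have e1 : L.map φ' = L.map φ := List.map_congr_left fun x hx => hφ x (hL x hx)
      obtain ⟨q', hq', hqn', φ'', ν'', he', hφ'⟩ := ih q.1 q.2 φ' ν' he
        (fun x hx => (hL x hx).trans_le hqn) (hz.trans_le hqn) (by rw [e1, hφ z hz]; exact hb)
      exact ⟨q', mem_fmp hq hq', hqn.trans hqn', φ'', ν'', he', fun i hi => by
        rw [hφ' i (by omega), hφ i hi]⟩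

end EF18
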