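import Pool.Agent.Lib.MP_ef18bd_co.P.Wt

/-!
# Patterns: partial information on a residual set

A pattern is a number `n` of nodes and a natural number `p`, whose digit number `k = 3 * i + a`
(base 256) describes the port number `a` of the node `i`: `0` unknown, `1` a neighbour outside `U` with
no other neighbour in `U`, `2 + 2 * l` the node of the port `l`, `3 + 2 * l` a neighbour outside `U`
which is also the neighbour behind the port `l`.
-/

namespace EF18

open Finset

variable {V : Type} [Fintype V] [DecidableEq V] {G : SimpleGraph V} [DecidableRel G.Adj]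

/-- the `k`-th digit -/
def dg (p k : ℕ) : ℕ := p / 256 ^ k % 256

theorem dg_lt (p k : ℕ) : dg p k < 256 := Nat.mod_lt _ (by norm_num)

theorem dg_add {p k c : ℕ} (h : dg p k = 0) (hc : c < 256) (j : ℕ) :
    dg (p + c * 256 ^ k) j = if j = k then c else dg p j := by
  unfold dg at *
  rcases Nat.lt_trichotomy j k with h1 | h1 | h1
  · rw [if_neg h1.ne]
    obtain ⟨d, rfl⟩ : ∃ d, k = j + 1 + d := ⟨k - (j + 1), by omega⟩
    have e : c * 256 ^ (j + 1 + d) = 256 ^ j * (256 * (c * 256 ^ d)) := by ring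
    rw [e, Nat.add_mul_div_left _ _ (by positivity), Nat.add_mul_mod_self_left]
  · rw [if_pos h1, h1, mul_comm c, Nat.add_mul_div_left _ _ (by positivity), Nat.add_mod, h, zero_add,
      Nat.mod_mod, Nat.mod_eq_of_lt hc]
  · rw [if_neg h1.ne']
    obtain ⟨d, rfl⟩ : ∃ d, j = k + (1 + d) := ⟨j - (k + 1), by omega⟩
    obtain ⟨q, hq⟩ : ∃ q, p / 256 ^ k = 256 * q := ⟨p / 256 ^ k / 256, by omega⟩
    rw [pow_add, ← Nat.div_div_eq_div_mul, ← Nat.div_div_eq_div_mul, mul_comm c,
      Nat.add_mul_div_left _ _ (by positivity), hq, pow_add, pow_one, ← Nat.div_div_eq_div_mul,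
      ← Nat.div_div_eq_div_mul]
    have e : (256 * q + c) / 256 = 256 * q / 256 := by omega
    rw [e]

/-- an embedding of a pattern -/
structure Emb (G : SimpleGraph V) (U : Finset V) (n p : ℕ) (φ ν : ℕ → V) : Prop where
  mem : ∀ i < n, φ i ∈ U
  inj : ∀ i < n, ∀ j < n, φ i = φ j → i = j
  adj : ∀ k < 3 * n, G.Adj (φ (k / 3)) (ν k)
  pinj : ∀ k < 3 * n, ∀ l < 3 * n, k / 3 = l / 3 → ν k = ν l → k = l
  zero : ∀ k, 3 * n ≤ k → dg p k = 0
  dead : ∀ k < 3 * n, dg p k = 1 → ν k ∉ U ∧ ∀ y ∈ U, G.Adj (ν k) y → y = φ (k / 3)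
  dir : ∀ k < 3 * n, ∀ l, dg p k = 2 + 2 * l →
    l < 3 * n ∧ dg p l = 2 + 2 * k ∧ ν k = φ (l / 3) ∧ ν l = φ (k / 3)
  lnk : ∀ k < 3 * n, ∀ l, dg p k = 3 + 2 * l →
    l < 3 * n ∧ dg p l = 3 + 2 * k ∧ l / 3 ≠ k / 3 ∧ ν k ∉ U ∧ ν l = ν k

/-- every neighbour of a node is behind a port -/
theorem Emb.surj (hG : G.IsRegularOfDegree 3) {U : Finset V} {n p : ℕ} {φ ν : ℕ → V}
    (h : Emb G U n p φ ν) {i : ℕ} (hi : i < n) {y : V} (hy : G.Adj (φ i) y) :
    ∃ k, k / 3 = i ∧ k < 3 * n ∧ ν k = y := by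
  have h1 : (((range 3).image fun a => ν (3 * i + a))) ⊆ G.neighborFinset (φ i) := by
    intro z hz
    rw [mem_image] at hz
    obtain ⟨a, ha, rfl⟩ := hz
    rw [mem_range] at ha
    rw [SimpleGraph.mem_neighborFinset]
    have := h.adj (3 * i + a) (by omega)
    rwa [show (3 * i + a) / 3 = i by omega] at this
  have h2 : (((range 3).image fun a => ν (3 * i + a))).card = 3 := by
    rw [card_image_of_injOn, card_range]
    intro a ha b hb hab
    rw [coe_range, Set.mem_Iio] at ha hb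
    have := h.pinj (3 * i + a) (by omega) (3 * i + b) (by omega) (by omega) hab
    omega
  have h3 := eq_of_subset_of_card_le h1 (by rw [h2, nbr_card hG])
  have h4 : y ∈ G.neighborFinset (φ i) := by rwa [SimpleGraph.mem_neighborFinset]
  rw [← h3, mem_image] at h4
  obtain ⟨a, ha, hya⟩ := h4
  rw [mem_range] at ha
  exact ⟨3 * i + a, by omega, by omega, hya⟩

/-- two open ports of the same node may be exchanged -/
theorem Emb.swap {U : Finset V} {n p : ℕ} {φ ν : ℕ → V} (h : Emb G U n p φ ν) {b c : ℕ}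
    (hb : b < 3 * n) (hc : c < 3 * n) (hbc : b / 3 = c / 3) (h0b : dg p b = 0) (h0c : dg p c = 0) :
    Emb G U n p φ (fun k => ν (Equiv.swap b c k)) := by
  have hs : ∀ k, k < 3 * n → Equiv.swap b c k < 3 * n ∧ Equiv.swap b c k / 3 = k / 3 := by
    intro k hk
    rcases eq_or_ne k b with rfl | h1
    · rw [Equiv.swap_apply_left]; exact ⟨hc, hbc.symm⟩
    · rcases eq_or_ne k c with rfl | h2
      · rw [Equiv.swap_apply_right]; exact ⟨hb, hbc⟩
      · rw [Equiv.swap_apply_of_ne_of_ne h1 h2]; exact ⟨hk, rfl⟩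
  have hf : ∀ k, dg p k ≠ 0 → Equiv.swap b c k = k := fun k hk =>
    Equiv.swap_apply_of_ne_of_ne (fun e => hk (e ▸ h0b)) (fun e => hk (e ▸ h0c))
  refine ⟨h.mem, h.inj, fun k hk => ?_, fun k hk l hl e1 e2 => ?_, h.zero, fun k hk e => ?_,
    fun k hk l e => ?_, fun k hk l e => ?_⟩
  · have := h.adj _ (hs k hk).1
    rwa [(hs k hk).2] at this
  · have := h.pinj _ (hs k hk).1 _ (hs l hl).1 (by rw [(hs k hk).2, (hs l hl).2, e1]) e2
    exact (Equiv.swap b c).injective this
  · beta_reduce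
    rw [hf k (by omega)]
    exact h.dead k hk e
  · obtain ⟨a1, a2, a3, a4⟩ := h.dir k hk l e
    beta_reduce
    rw [hf k (by omega), hf l (by omega)]
    exact ⟨a1, a2, a3, a4⟩
  · obtain ⟨a1, a2, a3, a4, a5⟩ := h.lnk k hk l e
    beta_reduce
    rw [hf k (by omega), hf l (by omega)]
    exact ⟨a1, a2, a3, a4, a5⟩

theorem Emb.set_dead {U : Finset V} {n p : ℕ} {φ ν : ℕ → V} (h : Emb G U n p φ ν) {k : ℕ}
    (hk : k < 3 * n) (h0 : dg p k = 0) (h1 : ν k ∉ U) (h2 : ∀ y ∈ U, G.Adj (ν k) y → y = φ (k / 3)) :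
    Emb G U n (p + 1 * 256 ^ k) φ ν := by
  have hd := dg_add h0 (show 1 < 256 by norm_num)
  refine ⟨h.mem, h.inj, h.adj, h.pinj, fun j hj => ?_, fun j hj e => ?_, fun j hj l e => ?_,
    fun j hj l e => ?_⟩
  · rw [hd, if_neg (by omega)]
    exact h.zero j hj
  · rw [hd] at e
    by_cases hjk : j = k
    · subst hjk; exact ⟨h1, h2⟩
    · rw [if_neg hjk] at e; exact h.dead j hj e
  · rw [hd] at e
    by_cases hjk : j = k
    · rw [if_pos hjk] at e; omega
    · rw [if_neg hjk] at e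
      obtain ⟨a1, a2, a3, a4⟩ := h.dir j hj l e
      refine ⟨a1, ?_, a3, a4⟩
      rw [hd, if_neg (fun hl => ?_)]
      · exact a2
      · rw [hl, h0] at a2; omega
  · rw [hd] at e
    by_cases hjk : j = k
    · rw [if_pos hjk] at e; omega
    · rw [if_neg hjk] at e
      obtain ⟨a1, a2, a3, a4, a5⟩ := h.lnk j hj l e
      refine ⟨a1, ?_, a3, a4, a5⟩
      rw [hd, if_neg (fun hl => ?_)]
      · exact a2
      · rw [hl, h0] at a2; omega

/-- connecting two open ports -/
theorem dg_pair {p k l c d : ℕ} (hkl : k ≠ l) (h0k : dg p k = 0) (h0l : dg p l = 0) (hc : c < 256)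
    (hd : d < 256) (j : ℕ) :
    dg (p + c * 256 ^ k + d * 256 ^ l) j = if j = l then d else if j = k then c else dg p j := by
  have h1 : dg (p + c * 256 ^ k) l = 0 := by rw [dg_add h0k hc, if_neg hkl.symm, h0l]
  rw [dg_add h1 hd, dg_add h0k hc]

theorem Emb.set_dir {U : Finset V} {n p : ℕ} {φ ν : ℕ → V} (h : Emb G U n p φ ν) {k l : ℕ}
    (hn : n ≤ 40) (hk : k < 3 * n) (hl : l < 3 * n) (hkl : k ≠ l) (h0k : dg p k = 0) (h0l : dg p l = 0)
    (h1 : ν k = φ (l / 3)) (h2 : ν l = φ (k / 3)) :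
    Emb G U n (p + (2 + 2 * l) * 256 ^ k + (2 + 2 * k) * 256 ^ l) φ ν := by
  have hd := dg_pair (c := 2 + 2 * l) (d := 2 + 2 * k) hkl h0k h0l (by omega) (by omega)
  refine ⟨h.mem, h.inj, h.adj, h.pinj, fun j hj => ?_, fun j hj e => ?_, fun j hj q e => ?_,
    fun j hj q e => ?_⟩
  · rw [hd, if_neg (by omega), if_neg (by omega)]
    exact h.zero j hj
  · rw [hd] at e
    by_cases hjl : j = l
    · rw [if_pos hjl] at e; omega
    · rw [if_neg hjl] at e
      by_cases hjk : j = k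
      · rw [if_pos hjk] at e; omega
      · rw [if_neg hjk] at e; exact h.dead j hj e
  · rw [hd] at e
    by_cases hjl : j = l
    · rw [if_pos hjl] at e
      have hq : q = k := by omega
      subst hq; subst hjl
      refine ⟨hk, ?_, h2, h1⟩
      rw [hd, if_neg hkl, if_pos rfl]
    · rw [if_neg hjl] at e
      by_cases hjk : j = k
      · rw [if_pos hjk] at e
        have hq : q = l := by omega
        subst hq; subst hjk
        refine ⟨hl, ?_, h1, h2⟩
        rw [hd, if_pos rfl]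
      · rw [if_neg hjk] at e
        obtain ⟨a1, a2, a3, a4⟩ := h.dir j hj q e
        refine ⟨a1, ?_, a3, a4⟩
        rw [hd, if_neg (fun e1 => ?_), if_neg (fun e1 => ?_)]
        · exact a2
        · rw [e1, h0k] at a2; omega
        · rw [e1, h0l] at a2; omega
  · rw [hd] at e
    by_cases hjl : j = l
    · rw [if_pos hjl] at e; omega
    · rw [if_neg hjl] at e
      by_cases hjk : j = k
      · rw [if_pos hjk] at e; omega
      · rw [if_neg hjk] at e
        obtain ⟨a1, a2, a3, a4, a5⟩ := h.lnk j hj q e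
        refine ⟨a1, ?_, a3, a4, a5⟩
        rw [hd, if_neg (fun e1 => ?_), if_neg (fun e1 => ?_)]
        · exact a2
        · rw [e1, h0k] at a2; omega
        · rw [e1, h0l] at a2; omega

theorem Emb.set_lnk {U : Finset V} {n p : ℕ} {φ ν : ℕ → V} (h : Emb G U n p φ ν) {k l : ℕ}
    (hn : n ≤ 40) (hk : k < 3 * n) (hl : l < 3 * n) (hkl : k / 3 ≠ l / 3) (h0k : dg p k = 0)
    (h0l : dg p l = 0) (h1 : ν k ∉ U) (h2 : ν l = ν k) :
    Emb G U n (p + (3 + 2 * l) * 256 ^ k + (3 + 2 * k) * 256 ^ l) φ ν := by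
  have hkl' : k ≠ l := fun e => hkl (by rw [e])
  have hd := dg_pair (c := 3 + 2 * l) (d := 3 + 2 * k) hkl' h0k h0l (by omega) (by omega)
  refine ⟨h.mem, h.inj, h.adj, h.pinj, fun j hj => ?_, fun j hj e => ?_, fun j hj q e => ?_,
    fun j hj q e => ?_⟩
  · rw [hd, if_neg (by omega), if_neg (by omega)]
    exact h.zero j hj
  · rw [hd] at e
    by_cases hjl : j = l
    · rw [if_pos hjl] at e; omega
    · rw [if_neg hjl] at e
      by_cases hjk : j = k
      · rw [if_pos hjk] at e; omega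
      · rw [if_neg hjk] at e; exact h.dead j hj e
  · rw [hd] at e
    by_cases hjl : j = l
    · rw [if_pos hjl] at e; omega
    · rw [if_neg hjl] at e
      by_cases hjk : j = k
      · rw [if_pos hjk] at e; omega
      · rw [if_neg hjk] at e
        obtain ⟨a1, a2, a3, a4⟩ := h.dir j hj q e
        refine ⟨a1, ?_, a3, a4⟩
        rw [hd, if_neg (fun e1 => ?_), if_neg (fun e1 => ?_)]
        · exact a2
        · rw [e1, h0k] at a2; omega
        · rw [e1, h0l] at a2; omega
  · rw [hd] at e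
    by_cases hjl : j = l
    · rw [if_pos hjl] at e
      have hq : q = k := by omega
      subst hq; subst hjl
      refine ⟨hk, ?_, hkl, by rw [h2]; exact h1, h2.symm⟩
      rw [hd, if_neg hkl', if_pos rfl]
    · rw [if_neg hjl] at e
      by_cases hjk : j = k
      · rw [if_pos hjk] at e
        have hq : q = l := by omega
        subst hq; subst hjk
        refine ⟨hl, ?_, fun e => hkl e.symm, h1, h2⟩
        rw [hd, if_pos rfl]
      · rw [if_neg hjk] at e
        obtain ⟨a1, a2, a3, a4, a5⟩ := h.lnk j hj q e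
        refine ⟨a1, ?_, a3, a4, a5⟩
        rw [hd, if_neg (fun e1 => ?_), if_neg (fun e1 => ?_)]
        · exact a2
        · rw [e1, h0k] at a2; omega
        · rw [e1, h0l] at a2; omega

/-- the neighbours of a vertex, a given one first -/
theorem exists_nbrs (hG : G.IsRegularOfDegree 3) {x z : V} (hz : G.Adj x z) :
    ∃ y w : V, G.Adj x y ∧ G.Adj x w ∧ y ≠ w ∧ z ≠ y ∧ z ≠ w := by
  have h1 : ((G.neighborFinset x).erase z).card = 2 := by
    rw [card_erase_of_mem (by rwa [SimpleGraph.mem_neighborFinset]), nbr_card hG]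
  obtain ⟨y, w, hyw, he⟩ := card_eq_two.1 h1
  have hy : y ∈ (G.neighborFinset x).erase z := by rw [he]; simp
  have hw : w ∈ (G.neighborFinset x).erase z := by rw [he]; simp
  rw [mem_erase, SimpleGraph.mem_neighborFinset] at hy hw
  exact ⟨y, w, hy.2, hw.2, hyw, hy.1.symm, hw.1.symm⟩

/-- a new node -/
theorem Emb.extend (hG : G.IsRegularOfDegree 3) {U : Finset V} {n p : ℕ} {φ ν : ℕ → V}
    (h : Emb G U n p φ ν) {x z : V} (hx : x ∈ U) (hnew : ∀ i < n, φ i ≠ x) (hz : G.Adj x z) :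
    ∃ φ' ν' : ℕ → V, Emb G U (n + 1) p φ' ν' ∧ (∀ i < n, φ' i = φ i) ∧ (∀ k < 3 * n, ν' k = ν k) ∧
      φ' n = x ∧ ν' (3 * n) = z := by
  obtain ⟨y, w, hy, hw, hyw, hzy, hzw⟩ := exists_nbrs hG hz
  obtain ⟨φ', hφ⟩ : ∃ f : ℕ → V, f = fun i => if i = n then x else φ i := ⟨_, rfl⟩
  obtain ⟨ν', hν⟩ : ∃ f : ℕ → V, f = fun k => if k = 3 * n then z else if k = 3 * n + 1 then y else
    if k = 3 * n + 2 then w else ν k := ⟨_, rfl⟩
  have f1 : ∀ i < n, φ' i = φ i := fun i hi => by rw [hφ]; exact if_neg hi.ne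
  have f2 : ∀ k < 3 * n, ν' k = ν k := fun k hk => by
    rw [hν]
    beta_reduce
    rw [if_neg (by omega), if_neg (by omega), if_neg (by omega)]
  have f3 : φ' n = x := by rw [hφ]; exact if_pos rfl
  have f4 : ν' (3 * n) = z := by rw [hν]; exact if_pos rfl
  have f5 : ν' (3 * n + 1) = y := by
    rw [hν]; beta_reduce
    rw [if_neg (by omega), if_pos rfl]
  have f6 : ν' (3 * n + 2) = w := by
    rw [hν]; beta_reduce
    rw [if_neg (by omega), if_neg (by omega), if_pos rfl]
  refine ⟨φ', ν', ⟨fun i hi => ?_, fun i hi j hj e => ?_, fun k hk => ?_, fun k hk l hl e1 e2 => ?_,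
    fun k hk => h.zero k (by omega), fun k hk e => ?_, fun k hk l e => ?_, fun k hk l e => ?_⟩,
    f1, f2, f3, f4⟩
  · rcases Nat.lt_succ_iff_lt_or_eq.1 hi with h1 | rfl
    · rw [f1 i h1]; exact h.mem i h1
    · rw [f3]; exact hx
  · rcases Nat.lt_succ_iff_lt_or_eq.1 hi with h1 | rfl <;>
      rcases Nat.lt_succ_iff_lt_or_eq.1 hj with h2 | rfl
    · rw [f1 i h1, f1 j h2] at e; exact h.inj i h1 j h2 e
    · rw [f1 i h1, f3] at e; exact absurd e (hnew i h1)
    · rw [f1 j h2, f3] at e; exact absurd e.symm (hnew j h2)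
    · rfl
  · rcases Nat.lt_or_ge k (3 * n) with h1 | h1
    · rw [f1 _ (by omega), f2 k h1]; exact h.adj k h1
    · have h2 : k = 3 * n ∨ k = 3 * n + 1 ∨ k = 3 * n + 2 := by omega
      rcases h2 with rfl | rfl | rfl
      · rw [show 3 * n / 3 = n by omega, f3, f4]; exact hz
      · rw [show (3 * n + 1) / 3 = n by omega, f3, f5]; exact hy
      · rw [show (3 * n + 2) / 3 = n by omega, f3, f6]; exact hw
  · rcases Nat.lt_or_ge k (3 * n) with h1 | h1
    · have h2 : l < 3 * n := by omega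
      rw [f2 k h1, f2 l h2] at e2
      exact h.pinj k h1 l h2 e1 e2
    · have h2 : k = 3 * n ∨ k = 3 * n + 1 ∨ k = 3 * n + 2 := by omega
      have h3 : l = 3 * n ∨ l = 3 * n + 1 ∨ l = 3 * n + 2 := by omega
      rcases h2 with rfl | rfl | rfl <;> rcases h3 with rfl | rfl | rfl
      · rfl
      · rw [f4, f5] at e2; exact absurd e2 hzy
      · rw [f4, f6] at e2; exact absurd e2 hzw
      · rw [f4, f5] at e2; exact absurd e2.symm hzy
      · rfl
      · rw [f5, f6] at e2; exact absurd e2 hyw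
      · rw [f4, f6] at e2; exact absurd e2.symm hzw
      · rw [f5, f6] at e2; exact absurd e2.symm hyw
      · rfl
  · have h1 : k < 3 * n := by
      by_contra hc
      rw [h.zero k (by omega)] at e; omega
    rw [f2 k h1, f1 _ (by omega)]
    exact h.dead k h1 e
  · have h1 : k < 3 * n := by
      by_contra hc
      rw [h.zero k (by omega)] at e; omega
    obtain ⟨a1, a2, a3, a4⟩ := h.dir k h1 l e
    rw [f2 k h1, f2 l a1, f1 _ (by omega), f1 _ (by omega)]
    exact ⟨by omega, a2, a3, a4⟩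
  · have h1 : k < 3 * n := by
      by_contra hc
      rw [h.zero k (by omega)] at e; omega
    obtain ⟨a1, a2, a3, a4, a5⟩ := h.lnk k h1 l e
    rw [f2 k h1, f2 l a1]
    exact ⟨by omega, a2, a3, a4, a5⟩

end EF18
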