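import Pool.Agent.Lib.MP_ef18bd_co.P.StpV
import Pool.Agent.Lib.MP_ef18bd_co.P.FinX

/-!
# The chain of the phases

`Dn bo CL tf PL done`: every connected state without the pieces `PL` which contains a pattern of `done` is good.
`Dn.next`: one phase. `Dn.good`: the boundary patterns are in `done`. `compare_V`: the comparison.
-/

namespace EF18

open Finset

/-- every connected state without the pieces `PL` which contains a pattern of the list is good -/
def Dn (bo : Bool) (CL : List CPc) (tf : Bool) (PL dn : List (ℕ × ℕ)) : Prop :=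
  ∀ (V : Type) [Fintype V] [DecidableEq V] (G : SimpleGraph V) [DecidableRel G.Adj],
    G.IsRegularOfDegree 3 → G.Connected → (tf = true → TF3 G) → ∀ U : Finset V, Inv G U → U ≠ univ →
    U.Nonempty → iso G U = ∅ → NoP G PL U → (∃ q ∈ dn, ∃ φ ν : ℕ → V, Emb G U q.1 q.2 φ ν) →
    ∃ k, k ≠ 0 ∧ GoodE fw 12 84 (bnx bo) 6 (exv CL G) G U k

/-- the start -/
theorem dn_nil (bo : Bool) (CL : List CPc) (tf : Bool) (PL : List (ℕ × ℕ)) : Dn bo CL tf PL [] :=
  fun _ _ _ _ _ _ _ _ _ _ _ _ _ _ ⟨_, hq, _⟩ => absurd hq List.not_mem_nil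

/-- **one phase** -/
theorem Dn.next {bo : Bool} {CL : List CPc} (hCL : vok CL) {ML : List MPc} (hMC : ML = mcl CL)
    (hML : ML.all mkok = true) {tf : Bool} {PL dn : List (ℕ × ℕ)} (hPL : PL.all wfp = true)
    (h : Dn bo CL tf PL dn) {XL : List (ℕ × ℕ)} (hX : ∀ q ∈ XL, q ∈ dn) {D : ℕ}
    (hA : D ≤ 1 → (1, 257) ∈ dn) (hB : D = 0 → (1, 1) ∈ dn) {Ts : List (List ℕ)}
    (hTs : (Ts.all tok) = true) {Ks : List (List ℕ)} (hK : pcks XL Ts CL Ks = true)
    {R : List (ℕ × ℕ)} (hr : ∀ r ∈ R, ClO (okB D tf) (stV bo CL Ts tf ML PL D) r) :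
    Dn bo CL tf PL (R ++ dn) := by
  intro V _ _ G _ hG hc htf U hI hU hne hiso hcl hq
  by_cases hd : ∃ q ∈ dn, ∃ φ ν : ℕ → V, Emb G U q.1 q.2 φ ν
  · exact h V G hG hc htf U hI hU hne hiso hcl hd
  obtain ⟨q, hq, φ, ν, he⟩ := hq
  have hno : ∀ q ∈ dn, ∀ φ ν : ℕ → V, ¬ Emb G U q.1 q.2 φ ν := fun q hq φ ν he => hd ⟨q, hq, φ, ν, he⟩
  rcases List.mem_append.1 hq with hq | hq
  swap
  · exact absurd he (hno q hq φ ν)
  have h2 := n1_le_two hG hI hiso
  have hD : ∀ x ∈ U, n1 G U x ≤ D := by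
    by_cases hD2 : 2 ≤ D
    · exact fun x hx => (h2 x hx).trans hD2
    intro x hx
    by_contra hc
    push Not at hc
    by_cases hD1 : D = 1
    · obtain ⟨φ, ν, e⟩ := root2 hG hx (show 2 ≤ n1 G U x by omega)
      exact hno _ (hA (by omega)) φ ν e
    · obtain ⟨φ, ν, e⟩ := root1 hG hx (show 1 ≤ n1 G U x by omega)
      exact hno _ (hB (by omega)) φ ν e
  have hT : TabOK CL Ts G U := tabOK_of hG hI hCL.1 hTs hK fun q hq => hno q (hX q hq)
  exact hr q hq V G U _ (fun _ _ _ _ he => he.okB hG hD htf)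
    (snd_stV hG hc hI hU hCL hTs hMC hML hT hPL hD hiso htf hcl) φ ν he

/-- the patterns may be permuted -/
theorem Dn.mono {bo : Bool} {CL : List CPc} {tf : Bool} {PL dn dn' : List (ℕ × ℕ)}
    (h : Dn bo CL tf PL dn) (hs : ∀ q ∈ dn', q ∈ dn) : Dn bo CL tf PL dn' :=
  fun V _ _ G _ hG hc htf U hI hU hne hiso hcl ⟨q, hq, he⟩ =>
    h V G hG hc htf U hI hU hne hiso hcl ⟨q, hs q hq, he⟩

variable {V : Type} [Fintype V] [DecidableEq V] {G : SimpleGraph V} [DecidableRel G.Adj]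

/-- **every state is good** if the boundary patterns are in the list -/
theorem Dn.good {bo : Bool} {CL : List CPc} {tf : Bool} {PL dn : List (ℕ × ℕ)} (h : Dn bo CL tf PL dn)
    (hB : (1, 1) ∈ dn) (hC : (2, 9 + 3 * 256 ^ 3) ∈ dn) (hG : G.IsRegularOfDegree 3) (hc : G.Connected)
    (htf : tf = true → TF3 G) {U : Finset V} (hI : Inv G U) (hU : U ≠ univ) (hne : U.Nonempty)
    (hiso : iso G U = ∅) (hcl : NoP G PL U) :
    ∃ k, k ≠ 0 ∧ GoodE fw 12 84 (bnx bo) 6 (exv CL G) G U k := by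
  by_cases h1 : ∃ x ∈ U, 1 ≤ n1 G U x
  · obtain ⟨x, hx, hn⟩ := h1
    obtain ⟨φ, ν, e⟩ := root1 hG hx hn
    exact h V G hG hc htf U hI hU hne hiso hcl ⟨_, hB, φ, ν, e⟩
  · push Not at h1
    obtain ⟨φ, ν, e⟩ := root3 hG hc hU hne fun x hx => by
      have := h1 x hx
      omega
    exact h V G hG hc htf U hI hU hne hiso hcl ⟨_, hC, φ, ν, e⟩

/-- the bound for the states without the pieces `PL` -/
def Bnd (bo : Bool) (CL : List CPc) (PL : List (ℕ × ℕ)) (G : SimpleGraph V) [DecidableRel G.Adj] : Prop :=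
  ∀ U : Finset V, Inv G U → U ≠ univ → NoP G PL U →
    ∃ m, Has G U m ∧ 84 * m + Xs G (beT (bnx bo) G) U ≤ PsiT (fw.iso 12) G U + 6 * dpn G U + exv CL G U

/-- **the bound from the chain** -/
theorem Dn.bnd {bo : Bool} {CL : List CPc} {tf : Bool} {PL dn : List (ℕ × ℕ)} (h : Dn bo CL tf PL dn)
    (hB : (1, 1) ∈ dn) (hC : (2, 9 + 3 * 256 ^ 3) ∈ dn) (hG : G.IsRegularOfDegree 3) (hc : G.Connected)
    (htf : tf = true → TF3 G) : Bnd bo CL PL G :=
  frameX hG (exv CL G) (fun _ _ h => exv_sup h) (by decide) (NoP G PL) (fun _ => False)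
    (fun _ _ h hB => hB.mono h) (fun _ _ _ _ h => absurd h not_false)
    fun _ hI hU hne _ hi hcl _ => h.good hB hC hG hc htf hI hU hne hi hcl

/-- a weaker bound -/
theorem Bnd.mono {bo bo' : Bool} {CL CL' : List CPc} {PL : List (ℕ × ℕ)} (h : Bnd bo CL PL G)
    (hbo : bo' = true → bo = true)
    (hCL : ∀ e ∈ CL, ∃ e' ∈ CL', e'.1 = e.1 ∧ ∀ d, cfv e d ≤ cfv e' d) : Bnd bo' CL' PL G :=
  fun U h1 h2 h3 => by
  obtain ⟨k, a, b⟩ := h U h1 h2 h3
  have c1 := exv_mono (G := G) hCL U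
  have c2 : Xs G (beT (bnx bo') G) U ≤ Xs G (beT (bnx bo) G) U := by
    refine Xs_beT_mono ?_ U
    cases bo'
    · exact Nat.zero_le _
    · rw [hbo rfl]
  exact ⟨k, a, by omega⟩

/-- **a second chain for the states with a piece of `QL`** -/
theorem Dn.bnd2 {bo : Bool} {CL : List CPc} {tf : Bool} {PL PL' QL dn : List (ℕ × ℕ)}
    (h : Dn bo CL tf PL dn) (hQL : pcl QL) (hr : ∀ r ∈ rtu QL, r ∈ dn) (hb : Bnd bo CL PL' G)
    (hs : ∀ q ∈ PL', q ∈ PL ∨ q ∈ QL) (hG : G.IsRegularOfDegree 3) (hc : G.Connected)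
    (htf : tf = true → TF3 G) : Bnd bo CL PL G := by
  refine frameX hG (exv CL G) (fun _ _ h => exv_sup h) (by decide) (NoP G PL) (NoP G QL)
    (fun _ _ h hB => hB.mono h) (fun U h1 h2 h3 h4 => hb U h1 h2 fun q hq E hE => ?_)
    fun U hI hU hne _ hi hcl hno => ?_
  · rcases hs q hq with hq | hq
    · exact h3 q hq E hE
    · exact h4 q hq E hE
  · unfold NoP at hno
    push Not at hno
    obtain ⟨q, hq, E, hE, hp⟩ := hno
    obtain ⟨S, hS, φ, ν, h1⟩ := root4 hG hE (hQL q hq).1 (hQL q hq).2 hp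
    exact h V G hG hc htf U hI hU hne hi hcl
      ⟨rt q S, hr _ (List.mem_flatMap.2 ⟨q, hq, List.mem_map.2 ⟨S, hS, rfl⟩⟩), φ, ν, h1⟩

/-- the values are at most `9` for every dead link vertex -/
def f9 (CL : List CPc) : Bool := CL.all fun e => (List.range e.2.length).all fun d => Nat.ble (e.2.getD d 0) (9 * d)

theorem f9_of {CL : List CPc} (h : f9 CL = true) : ∀ e ∈ CL, ∀ d, cfv e d ≤ 9 * d := by
  intro e he d
  unfold cfv
  rcases Nat.lt_or_ge d e.2.length with h1 | h1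
  · exact Nat.le_of_ble_eq_true (List.all_eq_true.1 (List.all_eq_true.1 h e he) d (List.mem_range.2 h1))
  · rw [List.getD_eq_default _ _ h1]
    exact Nat.zero_le _

/-- **the comparison from the bound** -/
theorem compare_B {tf : Bool} {bo : Bool} {CL : List CPc} (h9 : f9 CL = true)
    (h : ∀ (W : Type) [Fintype W] [DecidableEq W] (H : SimpleGraph W) [DecidableRel H.Adj],
      H.IsRegularOfDegree 3 → H.Connected → (tf = true → TF3 H) → Bnd bo CL [] H)
    (V : Type) [Fintype V] [DecidableEq V] (G : SimpleGraph V) [DecidableRel G.Adj]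
    (hG : G.IsRegularOfDegree 3) (htf : tf = true → TF3 G) : upperMinus G ≤ upperSigned G := by
  refine compare_X (c := 6) (by norm_num) (fun W _ _ H _ h1 h2 _ h4 => ⟨exv CL H,
    fun U hI => exv_out (f9_of h9) hI, fun U a b => ?_⟩) V G hG htf
  obtain ⟨k, c1, c2⟩ := h W H h1 h2 h4 U a b fun q hq => absurd hq List.not_mem_nil
  exact ⟨k, c1, by omega⟩

/-- **the comparison from one chain**, `tf = false`: for all cubic graphs -/
theorem compare_V {tf : Bool} {bo : Bool} {CL : List CPc} (h9 : f9 CL = true) {dn : List (ℕ × ℕ)}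
    (h : Dn bo CL tf [] dn) (hB : (1, 1) ∈ dn) (hC : (2, 9 + 3 * 256 ^ 3) ∈ dn)
    (V : Type) [Fintype V] [DecidableEq V] (G : SimpleGraph V) [DecidableRel G.Adj]
    (hG : G.IsRegularOfDegree 3) (htf : tf = true → TF3 G) : upperMinus G ≤ upperSigned G :=
  compare_B h9 (fun _ _ _ _ _ h1 h2 h3 => h.bnd hB hC h1 h2 h3) V G hG htf

end EF18
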