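import Pool.Agent.Lib.MP_ef18bd_co.P.Step

/-!
# A checker for lists of patterns

An entry is a pattern, the token of a step and one token for each child; a child is closed by a step
without children or by a reference to a closed pattern. `ents`: the list of the entries is checked one after
the other, the closed patterns are collected. `Val st q`: the pattern `q` is closed in all situations in
which the step `st` is sound.
-/

namespace EF18

open Finset

variable {V : Type} [Fintype V] [DecidableEq V] {G : SimpleGraph V} [DecidableRel G.Adj]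

/-- a pattern, the token of a step, the tokens of the children -/
abbrev Ent := (ℕ × ℕ) × ℕ × List ℕ

/-- is the list empty? -/
def emp : Option (List (ℕ × ℕ)) → Bool
  | some [] => true
  | _ => false

/-- a reference: `x` contains the index and the two maps -/
def rfc (rs : List (ℕ × ℕ)) (q : ℕ × ℕ) (x : ℕ) : Bool :=
  Nat.ble (Nat.succ (Nat.mod x 4096)) rs.length &&
    rfok q.1 q.2 (rs.getD (Nat.mod x 4096) (0, 0)) (Nat.mod (Nat.div x 4096) (256 ^ 26))
      (Nat.div (Nat.div x 4096) (256 ^ 26))

/-- a child is closed -/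
def cls (st : Stp) (rs : List (ℕ × ℕ)) (q : ℕ × ℕ) (t : ℕ) : Bool :=
  bif Nat.beq (Nat.mod t 2) 0 then emp (st q.1 q.2 (Nat.div t 2)) else rfc rs q (Nat.div t 2)

/-- all children are closed -/
def clsL (st : Stp) (rs : List (ℕ × ℕ)) : List (ℕ × ℕ) → List ℕ → Bool
  | [], ts => ts.isEmpty
  | q :: L, ts => match ts with
    | [] => false
    | t :: ts => cls st rs q t && clsL st rs L ts

/-- an entry is closed -/
def entk (st : Stp) (rs : List (ℕ × ℕ)) (e : Ent) : Bool :=
  wfp e.1 && match st e.1.1 e.1.2 e.2.1 with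
    | none => false
    | some L => clsL st rs L e.2.2

/-- all entries are closed -/
def ents (st : Stp) : List (ℕ × ℕ) → List Ent → Bool
  | _, [] => true
  | rs, e :: es => entk st rs e && ents st (e.1 :: rs) es

/-- the pattern is closed in all situations in which the step is sound -/
def Val (st : Stp) (q : ℕ × ℕ) : Prop :=
  wfp q = true ∧ ∀ {V : Type} [Fintype V] [DecidableEq V] (G : SimpleGraph V) [DecidableRel G.Adj]
    (U : Finset V) (Q : Prop), Snd G U Q st → Cl G U Q q

theorem emp_of {o : Option (List (ℕ × ℕ))} (h : emp o = true) : o = some [] := by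
  match o, h with
  | some [], _ => rfl

theorem cls_sound {st : Stp} {rs : List (ℕ × ℕ)} (hrs : ∀ q ∈ rs, Val st q) {q : ℕ × ℕ} {t : ℕ}
    (h : cls st rs q t = true) {U : Finset V} {Q : Prop} (hst : Snd G U Q st) : Cl G U Q q := by
  unfold cls at h
  cases ht : Nat.beq (Nat.mod t 2) 0
  · rw [ht, cond_false] at h
    unfold rfc at h
    rw [Bool.and_eq_true] at h
    obtain ⟨h1, h2⟩ := h
    have hlt : Nat.mod (Nat.div t 2) 4096 < rs.length := Nat.le_of_ble_eq_true h1
    have hq : rs.getD (Nat.mod (Nat.div t 2) 4096) (0, 0) ∈ rs := by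
      rw [List.getD_eq_getElem _ _ hlt]
      exact List.getElem_mem hlt
    intro φ ν he
    obtain ⟨a1, a2⟩ := hrs _ hq
    exact a2 G U Q hst _ _ (rf_emb a1 h2 he)
  · rw [ht, cond_true] at h
    exact hst q.1 q.2 _ _ (emp_of h) fun r hr => absurd hr List.not_mem_nil

theorem clsL_sound {st : Stp} {rs : List (ℕ × ℕ)} (hrs : ∀ q ∈ rs, Val st q) {U : Finset V} {Q : Prop}
    (hst : Snd G U Q st) : ∀ {L : List (ℕ × ℕ)} {ts : List ℕ}, clsL st rs L ts = true →
      ∀ q ∈ L, Cl G U Q q := by
  intro L
  induction L with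
  | nil => intro ts _ q hq; exact absurd hq List.not_mem_nil
  | cons r L ih =>
    intro ts h q hq
    match ts with
    | [] => exact absurd h (by simp [clsL])
    | t :: ts =>
      rw [clsL, Bool.and_eq_true] at h
      rcases List.mem_cons.1 hq with rfl | hq
      · exact cls_sound hrs h.1 hst
      · exact ih h.2 q hq

theorem entk_sound {st : Stp} {rs : List (ℕ × ℕ)} (hrs : ∀ q ∈ rs, Val st q) {e : Ent}
    (h : entk st rs e = true) : Val st e.1 := by
  unfold entk at h
  rw [Bool.and_eq_true] at h
  obtain ⟨h1, h2⟩ := h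
  refine ⟨h1, fun G _ U Q hst => ?_⟩
  match hL : st e.1.1 e.1.2 e.2.1 with
  | none =>
    rw [hL] at h2
    exact absurd h2 (by simp)
  | some L =>
    rw [hL] at h2
    exact hst _ _ _ L hL (clsL_sound hrs hst h2)

/-- **the checker is sound** -/
theorem ents_sound {st : Stp} : ∀ {es : List Ent} {rs : List (ℕ × ℕ)}, (∀ q ∈ rs, Val st q) →
    ents st rs es = true → ∀ e ∈ es, Val st e.1 := by
  intro es
  induction es with
  | nil => intro rs _ _ e he; exact absurd he List.not_mem_nil
  | cons a es ih =>
    intro rs hrs h e he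
    rw [ents, Bool.and_eq_true] at h
    have h1 := entk_sound hrs h.1
    rcases List.mem_cons.1 he with rfl | he
    · exact h1
    · refine ih (rs := a.1 :: rs) (fun q hq => ?_) h.2 e he
      rcases List.mem_cons.1 hq with rfl | hq
      · exact h1
      · exact hrs q hq

/-- membership with a fast comparison -/
def mem2 (q : ℕ × ℕ) : List (ℕ × ℕ) → Bool
  | [] => false
  | r :: L => (Nat.beq q.2 r.2 && Nat.beq q.1 r.1) || mem2 q L

theorem mem2_of {q : ℕ × ℕ} : ∀ {L : List (ℕ × ℕ)}, mem2 q L = true → q ∈ L := by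
  intro L
  induction L with
  | nil => intro h; exact absurd h (by simp [mem2])
  | cons r L ih =>
    intro h
    rw [mem2, Bool.or_eq_true, Bool.and_eq_true] at h
    rcases h with ⟨h1, h2⟩ | h
    · rw [show q = r from Prod.ext (Nat.eq_of_beq_eq_true h2) (Nat.eq_of_beq_eq_true h1)]
      exact List.mem_cons_self
    · exact List.mem_cons_of_mem _ (ih h)

/-- the references of a module are closed patterns of earlier modules -/
def sub2 (rs L : List (ℕ × ℕ)) : Bool := rs.all fun q => mem2 q L

theorem sub2_val {st : Stp} {rs L : List (ℕ × ℕ)} (h : sub2 rs L = true) (hL : ∀ q ∈ L, Val st q) :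
    ∀ q ∈ rs, Val st q := fun q hq => hL q (mem2_of (List.all_eq_true.1 h q hq))

/-- the patterns of a list of entries -/
def pats (es : List Ent) : List (ℕ × ℕ) := es.map fun e => e.1

theorem pats_val {st : Stp} {es : List Ent} (h : ∀ e ∈ es, Val st e.1) : ∀ q ∈ pats es, Val st q := by
  intro q hq
  obtain ⟨e, he, rfl⟩ := List.mem_map.1 hq
  exact h e he

theorem append_val {st : Stp} {A B : List (ℕ × ℕ)} (hA : ∀ q ∈ A, Val st q) (hB : ∀ q ∈ B, Val st q) :
    ∀ q ∈ A ++ B, Val st q := fun q hq => (List.mem_append.1 hq).elim (hA q) (hB q)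

/-- a module: `rs` are closed patterns of the list `L` -/
theorem module_val {st : Stp} {L rs : List (ℕ × ℕ)} {es : List Ent} (hL : ∀ q ∈ L, Val st q)
    (h1 : sub2 rs L = true) (h2 : ents st rs es = true) : ∀ q ∈ L ++ pats es, Val st q :=
  append_val hL (pats_val (ents_sound (sub2_val h1 hL) h2))

end EF18
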