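import Pool.Agent.Lib.MP_ef18bd_co.P.Unv
import Pool.Agent.Lib.MP_ef18bd_co.P.Flat15

/-!
# The step of the clean phase for all cubic graphs

`stK D tf PL`: the step with the tokens `x % 4 = 0` (all cases for a port), `1` (picks with all completions), `2`
(picks with the worst case), `3` (a piece of the list `PL`, or with index `63` a component which is a diamond
pair, or with index `62` a pattern whose ports are all direct); in the tokens `1`, `2` the bits `20`, `21` of
`x / 4` are the flags (triangle children, diamond credit).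
-/

namespace EF18

open Finset

variable {V : Type} [Fintype V] [DecidableEq V] {G : SimpleGraph V} [DecidableRel G.Adj]

/-! ### a component which is a diamond pair -/

/-- all ports of `i` lead to the node `j` -/
def cd1 (p i j : ℕ) : Bool := !(anp p i fun d => !((isD d || isL d) && Nat.beq (tg d) j))

/-- the nodes `i`, `j` are a component -/
def cdp (n p i j : ℕ) : Bool :=
  Nat.ble (Nat.succ i) n && Nat.ble (Nat.succ j) n && adjd p i j && cd1 p i j && cd1 p j i

omit [Fintype V] [DecidableEq V] [DecidableRel G.Adj] in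
theorem Emb.cd1_nbr {U : Finset V} {n p : ℕ} {φ ν : ℕ → V} (h : Emb G U n p φ ν) {i j : ℕ}
    (hs : ∀ {y : V}, G.Adj (φ i) y → ∃ k, k / 3 = i ∧ k < 3 * n ∧ ν k = y) (hc : cd1 p i j = true) {z : V}
    (hz : G.Adj (φ i) z) : z = φ j ∨ (z ∉ U ∧ G.Adj (φ j) z) := by
  obtain ⟨k, hk1, hk2, hk3⟩ := hs hz
  unfold cd1 at hc
  rw [Bool.not_eq_true'] at hc
  have h1 : ((isD (dg p k) || isL (dg p k)) && Nat.beq (tg (dg p k)) j) = true := by
    by_contra hno
    rw [Bool.not_eq_true] at hno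
    refine absurd (anp_iff.2 ⟨k, hk1, ?_⟩) (by rw [hc]; simp)
    rw [hno]
    rfl
  rw [Bool.and_eq_true, Bool.or_eq_true] at h1
  obtain ⟨h1 | h1, h2⟩ := h1
  · obtain ⟨l, hl⟩ := isD_iff.1 h1
    rw [hl, tg_dir] at h2
    left
    rw [← hk3, (h.dir k hk2 l hl).2.2.1, Nat.eq_of_beq_eq_true h2]
  · obtain ⟨l, hl⟩ := isL_iff.1 h1
    rw [hl, tg_lnk] at h2
    right
    obtain ⟨a1, a2, a3, a4, a5⟩ := h.lnk k hk2 l hl
    have d1 := h.adj l a1
    rw [a5, Nat.eq_of_beq_eq_true h2, hk3] at d1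
    rw [hk3] at a4
    exact ⟨a4, d1⟩

theorem Emb.cdp_dpr (hG : G.IsRegularOfDegree 3) {U : Finset V} (hI : Inv G U) (hcon : Con G U) {n p : ℕ}
    {φ ν : ℕ → V} (h : Emb G U n p φ ν) {i j : ℕ} (hc : cdp n p i j = true) : DPr G U := by
  unfold cdp at hc
  simp only [Bool.and_eq_true] at hc
  obtain ⟨⟨⟨⟨c1, c2⟩, c3⟩, c4⟩, c5⟩ := hc
  have hi : i < n := Nat.le_of_ble_eq_true c1
  have hj : j < n := Nat.le_of_ble_eq_true c2
  have hadj : G.Adj (φ i) (φ j) := by
    obtain ⟨a, m, b1, b2, b3⟩ := adjd_iff c3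
    obtain ⟨e1, e2, e3, e4⟩ := h.dir a (by omega) m b2
    have d1 := h.adj a (by omega)
    rwa [b1, e3, b3] at d1
  have hne : φ i ≠ φ j := hadj.ne
  have ni : ∀ z, G.Adj (φ i) z → z = φ j ∨ (z ∉ U ∧ G.Adj (φ j) z) := fun z hz =>
    h.cd1_nbr (fun hy => h.surj hG hi hy) c4 hz
  have nj : ∀ z, G.Adj (φ j) z → z = φ i ∨ (z ∉ U ∧ G.Adj (φ i) z) := fun z hz =>
    h.cd1_nbr (fun hy => h.surj hG hj hy) c5 hz
  have key : ∀ a b : V, a ∈ U → b ∈ U → a ≠ b → (∀ z, G.Adj a z → z = b ∨ (z ∉ U ∧ G.Adj b z)) →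
      (∀ z, G.Adj b z → z = a ∨ (z ∉ U ∧ G.Adj a z)) → ∀ y ∈ U, y ∈ B2 G a → y = a ∨ y = b := by
    intro a b ha hb hab na nb y hy hyB
    obtain ⟨z, hz, hyz⟩ := mem_B2.1 hyB
    rw [mem_cn] at hz hyz
    rcases hz with rfl | hz
    · rcases hyz with e | e
      · exact Or.inl e
      · rcases na y e with e | ⟨e, -⟩
        · exact Or.inr e
        · exact absurd hy e
    · rcases na z hz with rfl | ⟨e, e2⟩
      · rcases hyz with e | e
        · exact Or.inr e
        · rcases nb y e with e | ⟨e, -⟩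
          · exact Or.inl e
          · exact absurd hy e
      · rcases hyz with e3 | e3
        · exact absurd (e3 ▸ hy) e
        · exact hI.two e ha hb hab hz.symm e2.symm hy e3
  have hU : ({φ i, φ j} : Finset V) = U := by
    refine hcon _ (fun y hy => ?_) ⟨φ i, mem_insert_self _ _⟩ fun a ha b hb hab => ?_
    · rw [mem_insert, mem_singleton] at hy
      rcases hy with rfl | rfl
      · exact h.mem i hi
      · exact h.mem j hj
    · obtain ⟨hb1, hb2⟩ := mem_sdiff.1 hb
      rw [mem_B2_comm] at hab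
      rw [mem_insert, mem_singleton] at ha hb2
      rcases ha with rfl | rfl
      · exact hb2 (key _ _ (h.mem i hi) (h.mem j hj) hne ni nj b hb1 hab)
      · exact hb2 ((key _ _ (h.mem j hj) (h.mem i hi) hne.symm nj ni b hb1 hab).symm)
  refine ⟨φ i, φ j, hadj, hU.symm, fun z hz hiz => ?_⟩
  rcases ni z hiz with e | ⟨-, e⟩
  · exact absurd e hz
  · exact e

/-! ### the step -/

/-- a piece, or (index `62`) the whole graph -/
def pstU (PL : List (ℕ × ℕ)) (n p y : ℕ) : Option (List (ℕ × ℕ)) :=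
  bif Nat.beq (Nat.mod y 64) 62 then (bif unv n p then some [] else none) else pst PL n p y

/-- a piece, or (index `63`) a component which is a diamond pair, or (index `62`) the whole graph -/
def pstK (PL : List (ℕ × ℕ)) (n p y : ℕ) : Option (List (ℕ × ℕ)) :=
  bif Nat.beq (Nat.mod y 64) 63 then frc (Nat.div y 64) fun z =>
    bif cdp n p (Nat.mod z 64) (Nat.mod (Nat.div z 64) 64) then some [] else none
  else pstU PL n p y

theorem pstU_no (hG : G.IsRegularOfDegree 3) (hc : G.Connected) {U : Finset V} (hI : Inv G U)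
    (hU : U ≠ univ) {PL : List (ℕ × ℕ)} (hPL : PL.all wfp = true) (hcl : NoP G PL U) {n p y : ℕ}
    {L : List (ℕ × ℕ)} (hL : pstU PL n p y = some L) {φ ν : ℕ → V} (h : Emb G U n p φ ν) : False := by
  unfold pstU at hL
  cases r3 : Nat.beq (Nat.mod y 64) 62
  · rw [r3, cond_false] at hL
    exact pst_no hG hI hPL hcl hL h
  rw [r3, cond_true] at hL
  cases r4 : unv n p
  · rw [r4, cond_false] at hL
    exact absurd hL (by simp)
  exact h.unv_no hG hc hU r4

/-- the step before the filter -/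
def rawK (D : ℕ) (PL : List (ℕ × ℕ)) (n p x : ℕ) : Option (List (ℕ × ℕ)) :=
  frc (Nat.mod x 4) fun r => frc (Nat.div x 4) fun y =>
    bif Nat.beq r 0 then branch (Nat.ble 1 D) n p y else
    bif Nat.beq r 1 then evbK (tb y 20) (tb y 21) 84 0 tK tI D 12 6 6 n p (pkl y) else
    bif Nat.beq r 2 then evlK (tb y 20) (tb y 21) 84 0 tK tI D 12 6 6 n p (pkl y) else pstK PL n p y

/-- the step -/
def stK (D : ℕ) (tf : Bool) (PL : List (ℕ × ℕ)) : Stp := flt (okB D tf) (rawK D PL)

/-- **the step is sound** -/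
theorem snd_stK (hG : G.IsRegularOfDegree 3) (hc : G.Connected) {U : Finset V} (hI : Inv G U)
    (hU : U ≠ univ) (hcon : Con G U) (hdp : ¬ DPr G U) {D : ℕ} {tf : Bool} {PL : List (ℕ × ℕ)} (hPL : PL.all wfp = true)
    (hD : ∀ x ∈ U, n1 G U x ≤ D) (hiso : iso G U = ∅)
    (htf : tf = true → ∀ a b c, G.Adj a b → G.Adj b c → ¬ G.Adj a c) (hcl : NoP G PL U) :
    Snd G U (∃ c, c ≠ 0 ∧ GoodU fw 12 84 6 6 G U c) (stK D tf PL) := by
  refine snd_flt (fun n p φ ν h => ?_) fun n p x L hL φ ν h => ?_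
  · unfold okB
    rw [h.okD hG hD, Bool.true_and]
    cases htf' : tf
    · rfl
    · rw [Bool.not_true, Bool.false_or]
      exact h.okT (htf htf')
  · unfold rawK at hL
    rw [frc_eq, frc_eq] at hL
    cases r0 : Nat.beq (Nat.mod x 4) 0
    swap
    · rw [r0, cond_true] at hL
      obtain ⟨q, hq, -, φ', ν', h1, -⟩ := branch_D hG hI hD hL h
      exact Or.inr ⟨q, hq, φ', ν', h1⟩
    rw [r0, cond_false] at hL
    cases r1 : Nat.beq (Nat.mod x 4) 1
    swap
    · rw [r1, cond_true] at hL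
      rcases evbK_ch hG pair_flat pos_flat tabK_flat tabKI_flat hI hD hiso hL h with
        h1 | ⟨q, hq, -, φ', ν', h1, -⟩
      · exact Or.inl ⟨_, pkl_ne _, h1⟩
      · exact Or.inr ⟨q, hq, φ', ν', h1⟩
    rw [r1, cond_false] at hL
    cases r2 : Nat.beq (Nat.mod x 4) 2
    swap
    · rw [r2, cond_true] at hL
      rcases evlK_ch hG pair_flat pos_flat tabK_flat tabKI_flat hI hD hiso hL h with
        h1 | ⟨q, hq, -, φ', ν', h1, -⟩
      · exact Or.inl ⟨_, pkl_ne _, h1⟩
      · exact Or.inr ⟨q, hq, φ', ν', h1⟩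
    rw [r2, cond_false] at hL
    exfalso
    unfold pstK at hL
    cases r3 : Nat.beq (Nat.mod (Nat.div x 4) 64) 63
    · rw [r3, cond_false] at hL
      exact pstU_no hG hc hI hU hPL hcl hL h
    rw [r3, cond_true, frc_eq] at hL
    cases r4 : cdp n p (Nat.mod (Nat.div (Nat.div x 4) 64) 64)
      (Nat.mod (Nat.div (Nat.div (Nat.div x 4) 64) 64) 64)
    · rw [r4, cond_false] at hL
      exact absurd hL (by simp)
    exact hdp (h.cdp_dpr hG hI hcon r4)

/-- **the clean states** -/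
theorem clean_phaseK (hG : G.IsRegularOfDegree 3) (hc : G.Connected) {tf : Bool} {PL : List (ℕ × ℕ)}
    (hPL : PL.all wfp = true) (htf : tf = true → ∀ a b c, G.Adj a b → G.Adj b c → ¬ G.Adj a c)
    (vA : Val (stK 2 tf PL) (1, 257)) (vB : Val (stK 1 tf PL) (1, 1))
    (vC : Val (stK 0 tf PL) (2, 9 + 3 * 256 ^ 3)) :
    ∀ U : Finset V, Inv G U → U ≠ univ → NoP G PL U →
      ∃ m, Has G U m ∧ 84 * m + Xs G (beT 6 G) U ≤ PsiT (fw.iso 12) G U + 6 * dpn G U :=
  frameU hG (by decide) (by decide) (NoP G PL) (fun _ _ h hB => hB.mono h)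
    fun _ hI hU hne hcon hiso hcl hdp => worlds hG hc hI hU hne hiso
      (fun hD => snd_stK hG hc hI hU hcon hdp hPL hD hiso htf hcl)
      (fun hD => snd_stK hG hc hI hU hcon hdp hPL hD hiso htf hcl)
      (fun hD => snd_stK hG hc hI hU hcon hdp hPL hD hiso htf hcl) vA vB vC

end EF18
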