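import Pool.Agent.Lib.MP_ef18bd_co.P.Hit
import Pool.Agent.Lib.MP_ef18bd_co.P.EvY

/-!
# The step with the charge of disjoint families of pieces

`stV bo CL Ts tf ML PL D`: the tokens of `stX`; without triangles (`tf = true`) and without the flag for the
triangles the tests `evbY`, `evlY`; the charge is `exv CL G`, the costs are the tables `Ts` (by the
number of the picks), the credit is the value of known pieces all nodes of which are killed.
-/

namespace EF18

open Finset

variable {V : Type} [Fintype V] [DecidableEq V] {G : SimpleGraph V} [DecidableRel G.Adj]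

/-- the pieces with all their link ports -/
def mcl (CL : List CPc) : List MPc :=
  CL.map fun e => (e.1, (List.range (3 * e.1.1)).filter fun k => isL (dg e.1.2 k))

theorem bz_of_bc (hG : G.IsRegularOfDegree 3) {CL : List CPc} (hCL : cok CL) {U : Finset V} {z : V}
    (hz : z ∉ U) (h : BC CL G U z) : BZ (mcl CL) G U z := by
  obtain ⟨e, he, E, hE, ⟨φ, ν, h1, h2⟩, h3⟩ := h
  obtain ⟨⟨n, p⟩, f⟩ := e
  obtain ⟨k, k1, k2⟩ := lk_ex hG h1 h2 (hCL _ he).1 (fun hc => hz (hE hc)) h3
  obtain ⟨k3, l, k4, -⟩ := mem_lkp.1 k1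
  refine ⟨hz, _, List.mem_map.2 ⟨_, he, rfl⟩, E, hE, φ, ν, h1, h2, k, ?_, k2⟩
  exact List.mem_filter.2 ⟨List.mem_range.2 k3, isL_iff.2 ⟨l, k4⟩⟩

/-! ### the credit -/

/-- the mask of the nodes of the image -/
def imk (m : ℕ) : ℕ → ℕ
  | 0 => 0
  | i + 1 => Nat.lor (Nat.pow 2 (Nat.div (dg m (Nat.mul 3 i)) 3)) (imk m i)

theorem imk_iff {m t : ℕ} : ∀ {n : ℕ}, (imk m n).testBit t = true ↔ ∃ i < n, dg m (3 * i) / 3 = t := by
  intro n
  induction n with
  | zero =>
    rw [imk, Nat.zero_testBit]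
    constructor
    · intro h; exact absurd h (by simp)
    · rintro ⟨i, hi, -⟩; omega
  | succ n ih =>
    have e : imk m (n + 1) = 2 ^ (dg m (3 * n) / 3) ||| imk m n := rfl
    rw [e, Nat.testBit_or, Bool.or_eq_true, Nat.testBit_two_pow, decide_eq_true_eq, ih]
    constructor
    · rintro (h | ⟨i, hi, h⟩)
      · exact ⟨n, by omega, h⟩
      · exact ⟨i, by omega, h⟩
    · rintro ⟨i, hi, h⟩
      rcases Nat.lt_succ_iff_lt_or_eq.1 hi with h1 | rfl
      · exact Or.inr ⟨i, h1, h⟩
      · exact Or.inl h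

/-- the number of the ports of the list which are shared in the pattern -/
def ndl (p m : ℕ) : List ℕ → ℕ
  | [] => 0
  | k :: ks => bif isl (dg p (dg m k)) then Nat.succ (ndl p m ks) else ndl p m ks

theorem ndl_le {p m : ℕ} {P : ℕ → Prop} [DecidablePred P] : ∀ {L : List ℕ},
    (∀ k ∈ L, isl (dg p (dg m k)) = true → P k) → ndl p m L ≤ (L.filter fun k => P k).length := by
  intro L
  induction L with
  | nil => intro _; exact le_rfl
  | cons a L ih =>
    intro h
    have h1 := ih fun k hk => h k (List.mem_cons_of_mem _ hk)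
    rw [ndl]
    cases hc : isl (dg p (dg m a))
    · rw [cond_false]
      refine h1.trans ?_
      rw [List.filter_cons]
      split_ifs
      · rw [List.length_cons]; omega
      · exact le_rfl
    · rw [cond_true, List.filter_cons_of_pos (by simpa using h a List.mem_cons_self hc), List.length_cons]
      omega

/-- the value of the pieces of the token `y` all nodes of which are in `M`, not in `A` -/
def crd (CL : List CPc) (n p M : ℕ) : ℕ → ℕ → ℕ → ℕ
  | 0, _, _ => 0
  | f + 1, y, A => bif Nat.beq y 0 then 0 else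
      frc (Nat.div y 64) fun x => frc (Nat.div x (256 ^ 26)) fun x' => frc (Nat.div x' (256 ^ 48)) fun y' =>
      frc (Nat.mod y 64) fun i => frc (Nat.mod x (256 ^ 26)) fun w => frc (Nat.mod x' (256 ^ 48)) fun m =>
      frc (imk m (CL.getD i ((0, 0), [])).1.1) fun B =>
      bif Nat.ble (Nat.succ i) CL.length && pcok n p (CL.getD i ((0, 0), [])).1 w m &&
        Nat.beq (Nat.land B M) B && Nat.beq (Nat.land B A) 0 && !Nat.beq B 0
      then Nat.add (cfv (CL.getD i ((0, 0), [])) (ndl p m (lkp (CL.getD i ((0, 0), [])).1)))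
        (crd CL n p M f y' (Nat.lor A B))
      else crd CL n p M f y' A

/-- the values are monotone -/
def fmo (e : CPc) : Bool := (List.range (lkp e.1).length).all fun d => Nat.ble (e.2.getD d 0) (e.2.getD (d + 1) 0)

theorem fmo_le {e : CPc} (h : fmo e = true) {a b : ℕ} (hab : a ≤ b) (hb : b ≤ (lkp e.1).length) :
    cfv e a ≤ cfv e b := by
  induction b with
  | zero => rw [show a = 0 by omega]
  | succ b ih =>
    rcases Nat.lt_or_ge b a with h1 | h1
    · rw [show a = b + 1 by omega]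
    · exact (ih h1 (by omega)).trans
        (Nat.le_of_ble_eq_true (List.all_eq_true.1 h b (List.mem_range.2 (by omega))))

/-- the list of the pieces is in order -/
def vok (CL : List CPc) : Prop := cok CL ∧ (CL.all fun e => wfp e.1 && fmo e) = true

instance (CL : List CPc) : Decidable (vok CL) := by unfold vok; infer_instance

/-- **the credit** -/
theorem crd_of (hG : G.IsRegularOfDegree 3) {CL : List CPc} (hCL : vok CL) {U U' : Finset V}
    (hI : Inv G U) {n p M : ℕ} {φ ν : ℕ → V} (h : Emb G U n p φ ν)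
    (hM : ∀ i < n, (M.testBit i = true ↔ φ i ∉ U')) : ∀ f y A : ℕ, ∃ K : Finset (Finset V),
      Fam (U \ U') K ∧ (∀ C ∈ K, ∀ x ∈ C, ∃ i < n, φ i = x ∧ A.testBit i = false) ∧
      crd CL n p M f y A ≤ ∑ C ∈ K, fE CL G U C := by
  classical
  intro f
  induction f with
  | zero => exact fun y A => ⟨∅, fam_empty _, fun _ h => absurd h (notMem_empty _), Nat.zero_le _⟩
  | succ f ih =>
    intro y A
    rw [crd]
    cases hy : Nat.beq y 0
    swap
    · rw [cond_true]
      exact ⟨∅, fam_empty _, fun _ h => absurd h (notMem_empty _), Nat.zero_le _⟩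
    rw [cond_false, frc_eq, frc_eq, frc_eq, frc_eq, frc_eq, frc_eq, frc_eq]
    obtain ⟨y', hy'⟩ : ∃ y', y' = Nat.div (Nat.div (Nat.div y 64) (256 ^ 26)) (256 ^ 48) := ⟨_, rfl⟩
    obtain ⟨m, hm⟩ : ∃ m, m = Nat.mod (Nat.div (Nat.div y 64) (256 ^ 26)) (256 ^ 48) := ⟨_, rfl⟩
    obtain ⟨w, hw⟩ : ∃ w, w = Nat.mod (Nat.div y 64) (256 ^ 26) := ⟨_, rfl⟩
    obtain ⟨e, he⟩ : ∃ e, e = CL.getD (Nat.mod y 64) ((0, 0), []) := ⟨_, rfl⟩
    obtain ⟨B, hB⟩ : ∃ B, B = imk m e.1.1 := ⟨_, rfl⟩
    rw [← hy', ← hm, ← hw, ← he, ← hB]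
    cases hc : Nat.ble (Nat.succ (Nat.mod y 64)) CL.length && pcok n p e.1 w m &&
        Nat.beq (Nat.land B M) B && Nat.beq (Nat.land B A) 0 && !Nat.beq B 0
    · rw [cond_false]
      exact ih y' A
    rw [cond_true]
    simp only [Bool.and_eq_true] at hc
    obtain ⟨⟨⟨⟨c1, c2⟩, c3⟩, c4⟩, c5⟩ := hc
    obtain ⟨K, a1, a2, a3⟩ := ih y' (Nat.lor A B)
    have hlt : Nat.mod y 64 < CL.length := Nat.le_of_ble_eq_true c1
    have hq : e ∈ CL := by
      rw [he, List.getD_eq_getElem _ _ hlt]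
      exact List.getElem_mem hlt
    have hok := List.all_eq_true.1 hCL.2 e hq
    rw [Bool.and_eq_true] at hok
    obtain ⟨g1, g2⟩ := hCL.1 e hq
    obtain ⟨d1, d2, d3, d4⟩ := pc_emb' hG hI hok.1 c2 h
    have hpc : Pc G (pim e.1 m φ) e.1.1 e.1.2 := ⟨_, _, d1, d2⟩
    have hbit : ∀ x ∈ pim e.1 m φ, ∃ i < n, φ i = x ∧ B.testBit i = true := by
      intro x hx
      obtain ⟨i, hi, rfl⟩ := d2 x hx
      have h4 := d4 (3 * i) (by omega)
      exact ⟨dg m (3 * i) / 3, by omega, rfl, by rw [hB]; exact imk_iff.2 ⟨i, hi, rfl⟩⟩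
    have hBM : ∀ i, B.testBit i = true → M.testBit i = true := by
      intro i hi
      have h5 : Nat.land B M = B := Nat.eq_of_beq_eq_true c3
      have h6 : (B &&& M).testBit i = true := by
        change (Nat.land B M).testBit i = true
        rw [h5]; exact hi
      rw [Nat.testBit_and, Bool.and_eq_true] at h6
      exact h6.2
    have hBA : ∀ i, B.testBit i = true → A.testBit i = false := by
      intro i hi
      by_contra hA
      rw [Bool.not_eq_false] at hA
      have h5 : Nat.land B A = 0 := Nat.eq_of_beq_eq_true c4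
      have h6 : (B &&& A).testBit i = true := by
        rw [Nat.testBit_and, hi, hA]; rfl
      change (Nat.land B A).testBit i = true at h6
      rw [h5, Nat.zero_testBit] at h6
      exact absurd h6 (by simp)
    have hor : ∀ i, (Nat.lor A B).testBit i = false → A.testBit i = false ∧ B.testBit i = false := by
      intro i hi
      change (A ||| B).testBit i = false at hi
      rwa [Nat.testBit_or, Bool.or_eq_false_iff] at hi
    have hne : (pim e.1 m φ).Nonempty := by
      by_contra hc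
      rw [not_nonempty_iff_eq_empty] at hc
      have h5 : B = 0 := by
        apply Nat.eq_of_testBit_eq
        intro i
        rw [Nat.zero_testBit]
        by_contra h6
        rw [Bool.not_eq_false, hB] at h6
        obtain ⟨j, hj, -⟩ := imk_iff.1 h6
        have h7 := d1.mem j hj
        rw [hc] at h7
        exact notMem_empty _ h7
      rw [h5] at c5
      exact absurd c5 (by simp)
    have hdis : ∀ C ∈ K, Disjoint (pim e.1 m φ) C := by
      intro C hC
      rw [disjoint_left]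
      intro x h1 h2
      obtain ⟨i, i1, i2, i3⟩ := hbit x h1
      obtain ⟨j, j1, j2, j3⟩ := a2 C hC x h2
      have h4 := h.inj i i1 j j1 (by rw [i2, j2])
      rw [h4, (hor j j3).2] at i3
      exact absurd i3 (by simp)
    have hnot : pim e.1 m φ ∉ K := by
      intro hC
      obtain ⟨x, hx⟩ := hne
      exact disjoint_left.1 (hdis _ hC) hx hx
    refine ⟨insert (pim e.1 m φ) K, ⟨fun E hE => ?_, fun E hE => ?_, fun E hE E' hE' hne' => ?_⟩,
      fun C hC x hx => ?_, ?_⟩
    · rcases mem_insert.1 hE with rfl | hE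
      · intro x hx
        obtain ⟨i, i1, i2, i3⟩ := hbit x hx
        exact mem_sdiff.2 ⟨d3 hx, by rw [← i2]; exact (hM i i1).1 (hBM i i3)⟩
      · exact a1.sub E hE
    · rcases mem_insert.1 hE with rfl | hE
      · exact hne
      · exact a1.ne E hE
    · rcases mem_insert.1 hE with rfl | hE <;> rcases mem_insert.1 hE' with rfl | hE'
      · exact absurd rfl hne'
      · exact hdis E' hE'
      · exact (hdis E hE).symm
      · exact a1.dj E hE E' hE' hne'
    · rcases mem_insert.1 hC with rfl | hC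
      · obtain ⟨i, i1, i2, i3⟩ := hbit x hx
        exact ⟨i, i1, i2, hBA i i3⟩
      · obtain ⟨i, i1, i2, i3⟩ := a2 C hC x hx
        exact ⟨i, i1, i2, (hor i i3).1⟩
    · rw [sum_insert hnot]
      have h5 : cfv e (ndl p m (lkp e.1)) ≤ cfv e (dds G U (pim e.1 m φ)).card := by
        have h6 := dds_card hG (U := U) d3 d1 d2 g1
        rw [h6]
        refine fmo_le hok.2 ?_ (List.length_filter_le _ _)
        refine ndl_le (P := fun k => ν (dg m k) ∉ U) fun k hk hi => ?_
        obtain ⟨l, hl⟩ := isl_of hi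
        obtain ⟨k3, -⟩ := mem_lkp.1 hk
        exact (h.lnk _ (d4 k k3) l hl).2.2.2.1
      have h6 := le_fE (U := U) hq hpc
      have h7 : Nat.add (cfv e (ndl p m (lkp e.1))) (crd CL n p M f y' (Nat.lor A B)) =
        cfv e (ndl p m (lkp e.1)) + crd CL n p M f y' (Nat.lor A B) := rfl
      rw [h7]
      omega

/-- the change of the charge -/
theorem exv_stepV (hG : G.IsRegularOfDegree 3) {ok : ℕ → ℕ → Bool} {d : Bool} {CL : List CPc}
    {Ts : List (List ℕ)} (hCL : vok CL) (hTs : (Ts.all tok) = true) (hML : (mcl CL).all mkok = true)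
    {U : Finset V} (hI : Inv G U) (hT : TabOK CL Ts G U)
    (hok : ∀ n p φ ν, Emb G U n p φ ν → ok n p = true)
    (hd : d = true ∨ ∀ y, y ∉ U → ∀ x ∈ U, G.Adj y x → ∃ x' ∈ U, x' ≠ x ∧ G.Adj y x') {n p : ℕ} {L : List ℕ}
    {φ ν : ℕ → V} (h : Emb G U n p φ ν) (hL : ∀ y ∈ L, y < n ∧ full p y = true)
    (hS : Stn G U (rem G U (L.map φ)) n p (kms p L 0) (ims p L 0) φ ν) (XM y : ℕ) :
    (∃ q ∈ ovm ok d (mcl CL) L XM n p n, Ch G U n φ q) ∨
      exv CL G (rem G U (L.map φ)) + crd CL n p (kms p L 0) 6 y 0 ≤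
        exv CL G U + ctf (Ts.getD (Nat.pred L.length) []) (outx n p (kms p L 0) (ims p L 0) XM) := by
  classical
  by_cases hX : ∃ i < n, XM.testBit i = true ∧ BZ (mcl CL) G (rem G U (L.map φ)) (φ i)
  · obtain ⟨i, hi, h1, h2⟩ := hX
    obtain ⟨q, h3, h4⟩ := ovs_ch hG hI hok hd hML 60 n p φ ν h (fun x hx => (hL x hx).1) hi h2
    exact Or.inl ⟨q, mem_ovm hi h1 h3, h4⟩
  right
  push Not at hX
  have hI' := hI.rem hG (L := L.map φ)
  have h3 := h.new_le hG hS hX
  obtain ⟨K, k1, -, k3⟩ := crd_of hG hCL hI h hS.msk 6 y 0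
  obtain ⟨T, hTd⟩ : ∃ T, T = Ts.getD (Nat.pred L.length) [] := ⟨_, rfl⟩
  have hTok : tok T = true := by
    rw [hTd]
    rcases Nat.lt_or_ge (Nat.pred L.length) Ts.length with h1 | h1
    · rw [List.getD_eq_getElem _ _ h1]
      exact List.all_eq_true.1 hTs _ (List.getElem_mem h1)
    · rw [List.getD_eq_default _ _ h1]
      rfl
  have key := exv_step (CL := CL) (rem_subset (G := G) (U := U) (L := L.map φ)) hI' (CT := ctf T)
    (o := outx n p (kms p L 0) (ims p L 0) XM) (fun s hs => ctf_mono hTok hs)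
    (fun e he E hE hp s _ => by
      have := hT (L.map φ) (fun x hx => by
        obtain ⟨i, hi, rfl⟩ := List.mem_map.1 hx
        exact h.mem i (hL i hi).1) e he E hE hp s
      rw [List.length_map] at this
      rw [hTd]
      exact this) (by
      refine le_trans (card_le_card fun z hz => ?_) h3
      rw [mem_filter] at hz ⊢
      refine ⟨hz.1, bz_of_bc hG hCL.1 ?_ hz.2⟩
      have := hz.1
      unfold cuts2 at this
      exact (mem_sdiff.1 (mem_filter.1 this).1).2) k1
  rw [← hTd]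
  omega

/-! ### the step -/

/-- the step before the filter -/
def rawV (bo : Bool) (CL : List CPc) (Ts : List (List ℕ)) (D : ℕ) (tf : Bool) (ML : List MPc)
    (PL : List (ℕ × ℕ)) (n p x : ℕ) : Option (List (ℕ × ℕ)) :=
  frc (Nat.mod x 4) fun r => frc (Nat.div x 4) fun y =>
    bif Nat.beq r 0 then branch (Nat.ble 1 D) n p y else
    bif Nat.beq r 1 then lfx (fun e x L XM z => evbV tf e x 84 (tKx bo) (tIx bo) D 12 (bnx bo) 6 n p L
      (fun M _ => crd CL n p M 6 z 0) (fun M IN => ctf (Ts.getD (Nat.pred L.length) []) (outx n p M IN XM))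
      (ovm (okB D tf) (Nat.ble 1 D) ML L XM n p n)) y else
    bif Nat.beq r 2 then lfx (fun e x L XM z => evlV tf e x 84 (tKx bo) (tIx bo) D 12 (bnx bo) 6 n p L
      (fun M _ => crd CL n p M 6 z 0) (fun M IN => ctf (Ts.getD (Nat.pred L.length) []) (outx n p M IN XM))
      (ovm (okB D tf) (Nat.ble 1 D) ML L XM n p n)) y else pstU PL n p y

/-- the step -/
def stV (bo : Bool) (CL : List CPc) (Ts : List (List ℕ)) (tf : Bool) (ML : List MPc) (PL : List (ℕ × ℕ))
    (D : ℕ) : Stp :=
  flt (okB D tf) (rawV bo CL Ts D tf ML PL)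

/-- **the step is sound** -/
theorem snd_stV (hG : G.IsRegularOfDegree 3) (hc : G.Connected) {U : Finset V} (hI : Inv G U)
    (hU : U ≠ univ) {bo : Bool} {D : ℕ} {tf : Bool} {CL : List CPc} {Ts : List (List ℕ)} (hCL : vok CL)
    (hTs : (Ts.all tok) = true) {ML : List MPc} (hMC : ML = mcl CL) (hML : ML.all mkok = true)
    (hT : TabOK CL Ts G U) {PL : List (ℕ × ℕ)} (hPL : PL.all wfp = true)
    (hD : ∀ x ∈ U, n1 G U x ≤ D) (hiso : iso G U = ∅) (htf : tf = true → TF3 G) (hcl : NoP G PL U) :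
    Snd G U (∃ k, k ≠ 0 ∧ GoodE fw 12 84 (bnx bo) 6 (exv CL G) G U k) (stV bo CL Ts tf ML PL D) := by
  have hok : ∀ n p φ ν, Emb G U n p φ ν → okB D tf n p = true := fun n p φ ν h => h.okB hG hD htf
  have hd : Nat.ble 1 D = true ∨ ∀ y, y ∉ U → ∀ x ∈ U, G.Adj y x → ∃ x' ∈ U, x' ≠ x ∧ G.Adj y x' := by
    by_cases hD1 : 1 ≤ D
    · exact Or.inl (Nat.ble_eq_true_of_le hD1)
    · right
      intro y hy z hz hyz
      by_contra hno
      push Not at hno
      have h1 : y ∈ (G.neighborFinset z \ U).filter fun y => nU G U y = 1 := by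
        rw [mem_filter, mem_sdiff, SimpleGraph.mem_neighborFinset]
        refine ⟨⟨hyz.symm, hy⟩, card_eq_one.2 ⟨z, ?_⟩⟩
        rw [eq_singleton_iff_unique_mem]
        refine ⟨mem_inter.2 ⟨(SimpleGraph.mem_neighborFinset _ _ _).2 hyz, hz⟩, fun z' hz' => ?_⟩
        rw [mem_inter, SimpleGraph.mem_neighborFinset] at hz'
        by_contra hne
        exact hno z' hz'.2 hne hz'.1
      have h2 : 0 < n1 G U z := card_pos.2 ⟨y, h1⟩
      have := hD z hz
      omega
  subst hMC
  refine snd_flt hok fun n p x L hL φ ν h => ?_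
  unfold rawV at hL
  rw [frc_eq, frc_eq] at hL
  cases r0 : Nat.beq (Nat.mod x 4) 0
  swap
  · rw [r0, cond_true] at hL
    obtain ⟨q, hq, -, φ', ν', h1, -⟩ := branch_D hG hI hD hL h
    exact Or.inr ⟨q, hq, φ', ν', h1⟩
  rw [r0, cond_false] at hL
  cases r1 : Nat.beq (Nat.mod x 4) 1
  swap
  · rw [r1, cond_true] at hL
    obtain ⟨e, x', L', XM, z, a1, a2⟩ := lfx_of hL
    rcases evbV_ch hG (pair_x bo) (pos_x bo) (tabK_x bo) (tabKI_x bo) hI hD hiso htf a2 h (Ex := exv CL G)
      (fun hL' hS' => exv_stepV hG hCL hTs hML hI hT hok hd h hL' hS' XM z) with h1 | ⟨q, hq, -, φ', ν', h1, -⟩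
    · exact Or.inl ⟨_, a1, h1⟩
    · exact Or.inr ⟨q, hq, φ', ν', h1⟩
  rw [r1, cond_false] at hL
  cases r2 : Nat.beq (Nat.mod x 4) 2
  swap
  · rw [r2, cond_true] at hL
    obtain ⟨e, x', L', XM, z, a1, a2⟩ := lfx_of hL
    rcases evlV_ch hG (pair_x bo) (pos_x bo) (tabK_x bo) (tabKI_x bo) hI hD hiso htf a2 h (Ex := exv CL G)
      (fun hL' hS' => exv_stepV hG hCL hTs hML hI hT hok hd h hL' hS' XM z) with h1 | ⟨q, hq, -, φ', ν', h1, -⟩
    · exact Or.inl ⟨_, a1, h1⟩
    · exact Or.inr ⟨q, hq, φ', ν', h1⟩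
  rw [r2, cond_false] at hL
  exact absurd (pstU_no hG hc hI hU hPL hcl hL h) not_false

end EF18
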