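import Pool.Agent.Lib.MP_ef18bd_co.P.CapG
import Pool.Agent.Lib.MP_ef18bd_co.P.Hit4
import Pool.Agent.Lib.MP_ef18bd_co.P.FinV

/-!
# The step for the reduced bonus

`stW ne CA CB TA TB`: the tokens of `stV`; `CA`, `CB` are the same pieces with two lists of values, the charge
`exv CA` and the charge `exv CB` which reduces the bonus; `TA`, `TB` are the tables. `Dw`: the chain of the phases.
-/

namespace EF18

open Finset

variable {V : Type} [Fintype V] [DecidableEq V] {G : SimpleGraph V} [DecidableRel G.Adj]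

/-- the step before the filter -/
def rawW (ne : Bool) (CA CB : List CPc) (TA TB : List (List ℕ)) (D : ℕ) (tf : Bool) (ML : List MPc)
    (PL : List (ℕ × ℕ)) (n p x : ℕ) : Option (List (ℕ × ℕ)) :=
  frc (Nat.mod x 4) fun r => frc (Nat.div x 4) fun y =>
    bif Nat.beq r 0 then branch (Nat.ble 1 D) n p y else
    bif Nat.beq r 1 then lfx (fun e x L XM z => evbW tf ne e x 84 tK tI D 12 6 6 n p L
      (fun M _ => crd CA n p M 6 z 0) (fun M IN => ctf (TA.getD (Nat.pred L.length) []) (outx n p M IN XM))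
      (fun M _ => crd CB n p M 6 z 0) (fun M IN => ctf (TB.getD (Nat.pred L.length) []) (outx n p M IN XM))
      (ovm (okB D tf) (Nat.ble 1 D) ML L XM n p n)) y else
    bif Nat.beq r 2 then lfx (fun e x L XM z => evlW tf ne e x 84 tK tI D 12 6 6 n p L
      (fun M _ => crd CA n p M 6 z 0) (fun M IN => ctf (TA.getD (Nat.pred L.length) []) (outx n p M IN XM))
      (fun M _ => crd CB n p M 6 z 0) (fun M IN => ctf (TB.getD (Nat.pred L.length) []) (outx n p M IN XM))
      (ovm (okB D tf) (Nat.ble 1 D) ML L XM n p n)) y else pstU PL n p y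

/-- the step -/
def stW (ne : Bool) (CA CB : List CPc) (TA TB : List (List ℕ)) (tf : Bool) (ML : List MPc)
    (PL : List (ℕ × ℕ)) (D : ℕ) : Stp :=
  flt (okB D tf) (rawW ne CA CB TA TB D tf ML PL)

/-- **the step is sound** -/
theorem snd_stW (hG : G.IsRegularOfDegree 3) (hc : G.Connected) {U : Finset V} (hI : Inv G U)
    (hU : U ≠ univ) {ne : Bool} {D : ℕ} {tf : Bool} {CA CB : List CPc} {TA TB : List (List ℕ)}
    (hCA : vok CA) (hCB : vok CB) (hTA : (TA.all tok) = true) (hTB : (TB.all tok) = true) {ML : List MPc}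
    (hMA : ML = mcl CA) (hMB : ML = mcl CB) (hML : ML.all mkok = true)
    (hA : TabOK CA TA G U) (hB : TabOK CB TB G U) (hne : ne = true → exv CB G U = 0)
    {PL : List (ℕ × ℕ)} (hPL : PL.all wfp = true)
    (hD : ∀ x ∈ U, n1 G U x ≤ D) (hiso : iso G U = ∅) (htf : tf = true → TF3 G) (hcl : NoP G PL U) :
    Snd G U (∃ k, k ≠ 0 ∧ GoodH fw 12 84 6 6 (exv CA G) (exv CB G) G U k) (stW ne CA CB TA TB tf ML PL D) := by
  have hok : ∀ n p φ ν, Emb G U n p φ ν → okB D tf n p = true := fun n p φ ν h => h.okB hG hD htf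
  have hd : Nat.ble 1 D = true ∨ ∀ y, y ∉ U → ∀ x ∈ U, G.Adj y x → ∃ x' ∈ U, x' ≠ x ∧ G.Adj y x' := by
    by_cases hD1 : 1 ≤ D
    · exact Or.inl (Nat.ble_eq_true_of_le hD1)
    · right
      intro y hy z hz hyz
      by_contra hno
      push Not at hno
      have h1 : y ∈ (G.neighborFinset z \ U).filter fun y => nU G U y = 1 := by
        rw [mem_filter, mem_sdiff, SimpleGraph.mem_neighborFinset]
        refine ⟨⟨hyz.symm, hy⟩, card_eq_one.2 ⟨z, ?_⟩⟩
        rw [eq_singleton_iff_unique_mem]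
        refine ⟨mem_inter.2 ⟨(SimpleGraph.mem_neighborFinset _ _ _).2 hyz, hz⟩, fun z' hz' => ?_⟩
        rw [mem_inter, SimpleGraph.mem_neighborFinset] at hz'
        by_contra hne
        exact hno z' hz'.2 hne hz'.1
      have h2 : 0 < n1 G U z := card_pos.2 ⟨y, h1⟩
      have := hD z hz
      omega
  have hex : ∀ {n p : ℕ} {φ ν : ℕ → V} {L : List ℕ}, Emb G U n p φ ν → (∀ y ∈ L, y < n ∧ full p y = true) →
      Stn G U (rem G U (L.map φ)) n p (kms p L 0) (ims p L 0) φ ν → ∀ XM z : ℕ,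
      (∃ q ∈ ovm (okB D tf) (Nat.ble 1 D) ML L XM n p n, Ch G U n φ q) ∨
        (exv CA G (rem G U (L.map φ)) + crd CA n p (kms p L 0) 6 z 0 ≤
          exv CA G U + ctf (TA.getD (Nat.pred L.length) []) (outx n p (kms p L 0) (ims p L 0) XM) ∧
        exv CB G (rem G U (L.map φ)) + crd CB n p (kms p L 0) 6 z 0 ≤
          exv CB G U + ctf (TB.getD (Nat.pred L.length) []) (outx n p (kms p L 0) (ims p L 0) XM)) := by
    intro n p φ ν L h hL hS XM z
    rcases exv_stepV hG hCA hTA (hMA ▸ hML) hI hA hok hd h hL hS XM z with h1 | h1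
    · left
      rw [hMA]
      exact h1
    · rcases exv_stepV hG hCB hTB (hMB ▸ hML) hI hB hok hd h hL hS XM z with h2 | h2
      · left
        rw [hMB]
        exact h2
      · exact Or.inr ⟨h1, h2⟩
  refine snd_flt hok fun n p x L hL φ ν h => ?_
  unfold rawW at hL
  rw [frc_eq, frc_eq] at hL
  cases r0 : Nat.beq (Nat.mod x 4) 0
  swap
  · rw [r0, cond_true] at hL
    obtain ⟨q, hq, -, φ', ν', h1, -⟩ := branch_D hG hI hD hL h
    exact Or.inr ⟨q, hq, φ', ν', h1⟩
  rw [r0, cond_false] at hL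
  cases r1 : Nat.beq (Nat.mod x 4) 1
  swap
  · rw [r1, cond_true] at hL
    obtain ⟨e, x', L', XM, z, a1, a2⟩ := lfx_of hL
    rcases evbW_ch hG pair_flat pos_flat tabK_flat tabKI_flat hI hD hiso htf a2 h (Ex := exv CA G)
      (ET := exv CB G) hne (fun hL' hS' => hex h hL' hS' XM z) with h1 | ⟨q, hq, -, φ', ν', h1, -⟩
    · exact Or.inl ⟨_, a1, h1⟩
    · exact Or.inr ⟨q, hq, φ', ν', h1⟩
  rw [r1, cond_false] at hL
  cases r2 : Nat.beq (Nat.mod x 4) 2
  swap
  · rw [r2, cond_true] at hL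
    obtain ⟨e, x', L', XM, z, a1, a2⟩ := lfx_of hL
    rcases evlW_ch hG pair_flat pos_flat tabK_flat tabKI_flat hI hD hiso htf a2 h (Ex := exv CA G)
      (ET := exv CB G) hne (fun hL' hS' => hex h hL' hS' XM z) with h1 | ⟨q, hq, -, φ', ν', h1, -⟩
    · exact Or.inl ⟨_, a1, h1⟩
    · exact Or.inr ⟨q, hq, φ', ν', h1⟩
  rw [r2, cond_false] at hL
  exact absurd (pstU_no hG hc hI hU hPL hcl hL h) not_false

/-! ### all states with a value are closed -/

/-- the roots at the states with a positive value are in the list -/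
def nzk (XL : List (ℕ × ℕ)) (CB : List CPc) : Bool := CB.all fun e =>
  (lkp e.1).sublists.all fun S => Nat.beq (cfv e ((lkp e.1).length - S.length)) 0 || mem2 (rt e.1 S) XL

theorem nzk_of (hG : G.IsRegularOfDegree 3) {U : Finset V} {CB : List CPc} (hCB : cok CB)
    {XL : List (ℕ × ℕ)} (hc : nzk XL CB = true) (hX : NoE G U XL) : exv CB G U = 0 := by
  classical
  obtain ⟨F, a1, a2⟩ := exv_eq (G := G) CB U
  rw [a2]
  refine sum_eq_zero fun E hE => ?_
  rcases fE_cases (G := G) CB U E with h | ⟨e, h2, h4, h3⟩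
  · exact h
  rw [h3]
  obtain ⟨f1, f2⟩ := hCB e h2
  have hEU : E ⊆ U := a1.sub E hE
  obtain ⟨φ, ν, h, hEs⟩ := h4
  obtain ⟨S, hS⟩ : ∃ S, S = (lkp e.1).filter fun k => ν k ∈ U := ⟨_, rfl⟩
  have hd : (dds G U E).card + S.length = (lkp e.1).length := by
    rw [dds_card hG hEU h hEs f1, hS, add_comm]
    exact length_split (lkp e.1) fun k => ν k ∈ U
  have hSs : S ∈ (lkp e.1).sublists := by
    rw [hS]
    exact List.mem_sublists.2 List.filter_sublist
  have k4 := List.all_eq_true.1 (List.all_eq_true.1 hc e h2) S hSs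
  rw [Bool.or_eq_true, show (lkp e.1).length - S.length = (dds G U E).card by omega] at k4
  rcases k4 with k4 | k4
  · exact Nat.eq_of_beq_eq_true k4
  · exfalso
    obtain ⟨φ', ν', e1, -, -⟩ := h.root4 hG hEU (q := e.1) f1 f2 hEs
    rw [← hS] at e1
    exact hX _ (mem2_of k4) φ' ν' e1

/-! ### the chain -/

/-- every connected state without the pieces `PL` which contains a pattern of the list is good -/
def Dw (CA CB : List CPc) (tf : Bool) (PL dn : List (ℕ × ℕ)) : Prop :=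
  ∀ (V : Type) [Fintype V] [DecidableEq V] (G : SimpleGraph V) [DecidableRel G.Adj],
    G.IsRegularOfDegree 3 → G.Connected → (tf = true → TF3 G) → ∀ U : Finset V, Inv G U → U ≠ univ →
    U.Nonempty → iso G U = ∅ → NoP G PL U → (∃ q ∈ dn, ∃ φ ν : ℕ → V, Emb G U q.1 q.2 φ ν) →
    ∃ k, k ≠ 0 ∧ GoodH fw 12 84 6 6 (exv CA G) (exv CB G) G U k

/-- the start -/
theorem dw_nil (CA CB : List CPc) (tf : Bool) (PL : List (ℕ × ℕ)) : Dw CA CB tf PL [] :=
  fun _ _ _ _ _ _ _ _ _ _ _ _ _ _ ⟨_, hq, _⟩ => absurd hq List.not_mem_nil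

/-- the patterns may be permuted -/
theorem Dw.mono {CA CB : List CPc} {tf : Bool} {PL dn dn' : List (ℕ × ℕ)}
    (h : Dw CA CB tf PL dn) (hs : ∀ q ∈ dn', q ∈ dn) : Dw CA CB tf PL dn' :=
  fun V _ _ G _ hG hc htf U hI hU hne hiso hcl ⟨q, hq, he⟩ =>
    h V G hG hc htf U hI hU hne hiso hcl ⟨q, hs q hq, he⟩

/-- **every state is good** if the boundary patterns are in the list -/
theorem Dw.good {CA CB : List CPc} {tf : Bool} {PL dn : List (ℕ × ℕ)} (h : Dw CA CB tf PL dn)
    (hB : (1, 1) ∈ dn) (hC : (2, 9 + 3 * 256 ^ 3) ∈ dn) (hG : G.IsRegularOfDegree 3) (hc : G.Connected)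
    (htf : tf = true → TF3 G) {U : Finset V} (hI : Inv G U) (hU : U ≠ univ) (hne : U.Nonempty)
    (hiso : iso G U = ∅) (hcl : NoP G PL U) :
    ∃ k, k ≠ 0 ∧ GoodH fw 12 84 6 6 (exv CA G) (exv CB G) G U k := by
  by_cases h1 : ∃ x ∈ U, 1 ≤ n1 G U x
  · obtain ⟨x, hx, hn⟩ := h1
    obtain ⟨φ, ν, e⟩ := root1 hG hx hn
    exact h V G hG hc htf U hI hU hne hiso hcl ⟨_, hB, φ, ν, e⟩
  · push Not at h1
    obtain ⟨φ, ν, e⟩ := root3 hG hc hU hne fun x hx => by
      have := h1 x hx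
      omega
    exact h V G hG hc htf U hI hU hne hiso hcl ⟨_, hC, φ, ν, e⟩

/-- the bound for the states without the pieces `PL` -/
def BndW (CA CB : List CPc) (PL : List (ℕ × ℕ)) (G : SimpleGraph V) [DecidableRel G.Adj] : Prop :=
  ∀ U : Finset V, Inv G U → U ≠ univ → NoP G PL U →
    ∃ m, Has G U m ∧ 84 * m + Xs G (beH 6 (exv CB G) G) U ≤ PsiT (fw.iso 12) G U + 6 * dpn G U + exv CA G U

/-- **the bound from the chain** -/
theorem Dw.bnd {CA CB : List CPc} {tf : Bool} {PL dn : List (ℕ × ℕ)} (h : Dw CA CB tf PL dn)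
    (hB : (1, 1) ∈ dn) (hC : (2, 9 + 3 * 256 ^ 3) ∈ dn) (hG : G.IsRegularOfDegree 3) (hc : G.Connected)
    (htf : tf = true → TF3 G) : BndW CA CB PL G :=
  frameC hG (exv CA G) (exv CB G) (fun _ _ h => exv_sup h) (fun _ _ h => exv_sup h) (by decide) (NoP G PL)
    (fun _ => False) (fun _ _ h hB => hB.mono h) (fun _ _ _ _ h => absurd h not_false)
    fun _ hI hU hne _ hi hcl _ => h.good hB hC hG hc htf hI hU hne hi hcl

/-- the bound without the bonus -/
theorem BndW.flat {CA CB : List CPc} {PL : List (ℕ × ℕ)} (h : BndW CA CB PL G) : Bnd false CA PL G := by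
  intro U h1 h2 h3
  obtain ⟨m, a, b⟩ := h U h1 h2 h3
  refine ⟨m, a, ?_⟩
  have e : Xs G (beT (bnx false) G) U = 0 := Xs_clean fun E _ => by
    unfold beT
    split_ifs
    · exact Nat.zero_mul _
    · rfl
  omega

/-- **the comparison from one chain**, `tf = false`: for all cubic graphs -/
theorem compare_Dw {tf : Bool} {CA CB : List CPc} (h9 : f13 CA = true) {dn : List (ℕ × ℕ)}
    (h : Dw CA CB tf [] dn) (hB : (1, 1) ∈ dn) (hC : (2, 9 + 3 * 256 ^ 3) ∈ dn)
    (V : Type) [Fintype V] [DecidableEq V] (G : SimpleGraph V) [DecidableRel G.Adj]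
    (hG : G.IsRegularOfDegree 3) (htf : tf = true → TF3 G) : upperMinus G ≤ upperSigned G :=
  compare_T (bo := false) h9 (fun _ _ _ _ _ h1 h2 h3 => (h.bnd hB hC h1 h2 h3).flat) V G hG htf

/-- the conditions on the chain: triangle-free if `tf = true` -/
def Chw (tf : Bool) : Prop :=
  ∃ (CA CB : List CPc) (dn : List (ℕ × ℕ)), f13 CA = true ∧ Dw CA CB tf [] dn ∧ (1, 1) ∈ dn ∧
    (2, 9 + 3 * 256 ^ 3) ∈ dn

/-- **triangle-free cubic graphs** -/
theorem finalW_tf (h : Chw true) (V : Type) [Fintype V] [DecidableEq V] (G : SimpleGraph V)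
    [DecidableRel G.Adj] (hG : G.IsRegularOfDegree 3) (ht : G.CliqueFree 3) :
    upperMinus G ≤ upperSigned G := by
  obtain ⟨CA, CB, dn, h1, h2, h3, h4⟩ := h
  exact compare_Dw h1 h2 h3 h4 V G hG fun _ => tf3_of ht

/-- **all cubic graphs** -/
theorem finalW_all (h : Chw false) :
    (∀ (V : Type) [Fintype V] [DecidableEq V] (G : SimpleGraph V) [DecidableRel G.Adj],
      G.IsRegularOfDegree 3 → upperMinus G ≤ upperSigned G) ∧
    (⊤ : SimpleGraph (Fin 4)).IsRegularOfDegree 3 ∧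
      upperMinus (⊤ : SimpleGraph (Fin 4)) < upperSigned (⊤ : SimpleGraph (Fin 4)) := by
  obtain ⟨CA, CB, dn, h1, h2, h3, h4⟩ := h
  exact ⟨fun V _ _ G _ hG => compare_Dw h1 h2 h3 h4 V G hG fun h => Bool.noConfusion h, k4_cubic, k4_lt⟩

end EF18
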