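import Pool.Agent.Lib.MP_ef18bd_co.P.EvX

/-!
# The step with the charge for the dead marked link vertices, the diamond pairs and the bonus

`stX bo m D tf ML PL`: tokens `x % 4 = 0` (all cases for a port), `1` (all completions), `2` (worst case), `3` (a
piece of the list `PL`, or with index `62` the whole graph); `bo = true`: with the bonus `6`, `bo = false`:
without; `m` for every dead marked link vertex of the pieces `ML`. `phaseX`: one phase.
-/

namespace EF18

open Finset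

variable {V : Type} [Fintype V] [DecidableEq V] {G : SimpleGraph V} [DecidableRel G.Adj]

/-- the bonus -/
def bnx (bo : Bool) : ℕ := bif bo then 6 else 0

/-- the tables -/
def tKx (bo : Bool) : ℕ := bif bo then tK else tKw

/-- the tables -/
def tIx (bo : Bool) : ℕ := bif bo then tI else tIw

/-- the second weights -/
def fvx (bo : Bool) : TF := bif bo then fv else fw

theorem pair_x (bo : Bool) : Pair fw (fvx bo) (bnx bo) := by
  cases bo
  · exact ⟨rfl, rfl, rfl, fun a c _ => by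
      show fw.F a c + 0 * c ≤ fw.F a c
      omega⟩
  · exact pair_flat

theorem pos_x (bo : Bool) : (fvx bo).Pos := by
  cases bo
  · exact pos_w
  · exact pos_flat

theorem tabK_x (bo : Bool) : TabK (fvx bo) 0 (tKx bo) := by
  cases bo
  · exact tabK_w
  · exact tabK_flat

theorem tabKI_x (bo : Bool) : TabKI (fvx bo) 0 (tIx bo) := by
  cases bo
  · exact tabKI_w
  · exact tabKI_flat

/-- the charge for the dead marked link vertices -/
noncomputable def exz (m : ℕ) (ML : List MPc) (G : SimpleGraph V) [DecidableRel G.Adj] (U : Finset V) : ℕ :=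
  m * (bz ML G U).card

/-- the change of the charge -/
theorem exz_step (hG : G.IsRegularOfDegree 3) {m : ℕ} {ok : ℕ → ℕ → Bool} {d : Bool} {ML : List MPc}
    (hML : ML.all mkok = true) {U : Finset V} (hI : Inv G U)
    (hok : ∀ n p φ ν, Emb G U n p φ ν → ok n p = true)
    (hd : d = true ∨ ∀ y, y ∉ U → ∀ x ∈ U, G.Adj y x → ∃ x' ∈ U, x' ≠ x ∧ G.Adj y x') {n p : ℕ} {L : List ℕ}
    {φ ν : ℕ → V} (h : Emb G U n p φ ν) (hL : ∀ y ∈ L, y < n ∧ full p y = true)
    (hS : Stn G U (rem G U (L.map φ)) n p (kms p L 0) (ims p L 0) φ ν) (XM y : ℕ) :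
    (∃ q ∈ ovm ok d ML L XM n p n, Ch G U n φ q) ∨
      exz m ML G (rem G U (L.map φ)) + Nat.mul m (dst n p (kms p L 0) (zms ML n p y 6)) ≤
        exz m ML G U + Nat.mul m (outx n p (kms p L 0) (ims p L 0) XM) := by
  by_cases hX : ∃ i < n, XM.testBit i = true ∧ BZ ML G (rem G U (L.map φ)) (φ i)
  · obtain ⟨i, hi, h1, h2⟩ := hX
    obtain ⟨q, h3, h4⟩ := ovs_ch hG hI hok hd hML 60 n p φ ν h (fun x hx => (hL x hx).1) hi h2
    exact Or.inl ⟨q, mem_ovm hi h1 h3, h4⟩
  right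
  push Not at hX
  have h2 := bz_step_card hML (rem_subset (G := G) (U := U) (L := L.map φ)) (hI.rem hG)
  have h3 := h.new_le hG hS hX
  have h4 := h.dst_le rem_subset hI hS.msk (zms_of hG hML hI h 6 y)
  have h5 := Nat.mul_le_mul_left m (show (bz ML G (rem G U (L.map φ))).card +
    dst n p (kms p L 0) (zms ML n p y 6) ≤ (bz ML G U).card + outx n p (kms p L 0) (ims p L 0) XM by omega)
  rw [mul_add, mul_add] at h5
  exact h5

/-- a leaf: `y % 8` the number of the picks (not `0`), `y / 8 % 8` the flags, then `6` bits for each pick (`42` in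
all), the mask `XM` (`40` bits) and the pieces -/
def lfx (f : Bool → Bool → List ℕ → ℕ → ℕ → Option (List (ℕ × ℕ))) (y : ℕ) : Option (List (ℕ × ℕ)) :=
  frc (Nat.mod y 8) fun c => frc (Nat.div y 64) fun z => frc (Nat.div z (2 ^ 42)) fun u =>
    bif Nat.beq c 0 then none else f (tb y 3) (tb y 4) (pkz c z) (Nat.mod u (2 ^ 40)) (Nat.div u (2 ^ 40))

theorem lfx_of {f : Bool → Bool → List ℕ → ℕ → ℕ → Option (List (ℕ × ℕ))} {y : ℕ} {R : List (ℕ × ℕ)}
    (h : lfx f y = some R) : ∃ e x L XM z, L.length ≠ 0 ∧ f e x L XM z = some R := by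
  unfold lfx at h
  rw [frc_eq, frc_eq, frc_eq] at h
  cases hc : Nat.beq (Nat.mod y 8) 0
  · rw [hc, cond_false] at h
    refine ⟨_, _, _, _, _, ?_, h⟩
    rw [pkz_length]
    intro e
    rw [e] at hc
    exact absurd hc (by simp)
  · rw [hc, cond_true] at h
    exact absurd h (by simp)

/-- the step before the filter -/
def rawX (bo : Bool) (m D : ℕ) (tf : Bool) (ML : List MPc) (PL : List (ℕ × ℕ)) (n p x : ℕ) :
    Option (List (ℕ × ℕ)) :=
  frc (Nat.mod x 4) fun r => frc (Nat.div x 4) fun y =>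
    bif Nat.beq r 0 then branch (Nat.ble 1 D) n p y else
    bif Nat.beq r 1 then lfx (fun e x L XM z => evbX e x 84 (tKx bo) (tIx bo) D 12 (bnx bo) 6 n p L
      (fun M _ => Nat.mul m (dst n p M (zms ML n p z 6))) (fun M IN => Nat.mul m (outx n p M IN XM))
      (ovm (okB D tf) (Nat.ble 1 D) ML L XM n p n)) y else
    bif Nat.beq r 2 then lfx (fun e x L XM z => evlX e x 84 (tKx bo) (tIx bo) D 12 (bnx bo) 6 n p L
      (fun M _ => Nat.mul m (dst n p M (zms ML n p z 6))) (fun M IN => Nat.mul m (outx n p M IN XM))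
      (ovm (okB D tf) (Nat.ble 1 D) ML L XM n p n)) y else pstU PL n p y

/-- the step -/
def stX (bo : Bool) (m : ℕ) (tf : Bool) (ML : List MPc) (PL : List (ℕ × ℕ)) (D : ℕ) : Stp :=
  flt (okB D tf) (rawX bo m D tf ML PL)

/-- **the step is sound** -/
theorem snd_stX (hG : G.IsRegularOfDegree 3) (hc : G.Connected) {U : Finset V} (hI : Inv G U)
    (hU : U ≠ univ) {bo : Bool} {m D : ℕ} {tf : Bool}
    {ML : List MPc} (hML : ML.all mkok = true) {PL : List (ℕ × ℕ)} (hPL : PL.all wfp = true)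
    (hD : ∀ x ∈ U, n1 G U x ≤ D) (hiso : iso G U = ∅) (htf : tf = true → TF3 G) (hcl : NoP G PL U) :
    Snd G U (∃ k, k ≠ 0 ∧ GoodE fw 12 84 (bnx bo) 6 (exz m ML G) G U k) (stX bo m tf ML PL D) := by
  have hok : ∀ n p φ ν, Emb G U n p φ ν → okB D tf n p = true := fun n p φ ν h => h.okB hG hD htf
  have hd : Nat.ble 1 D = true ∨ ∀ y, y ∉ U → ∀ x ∈ U, G.Adj y x → ∃ x' ∈ U, x' ≠ x ∧ G.Adj y x' := by
    by_cases hD1 : 1 ≤ D
    · exact Or.inl (Nat.ble_eq_true_of_le hD1)
    · right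
      intro y hy z hz hyz
      by_contra hno
      push Not at hno
      have h1 : y ∈ (G.neighborFinset z \ U).filter fun y => nU G U y = 1 := by
        rw [mem_filter, mem_sdiff, SimpleGraph.mem_neighborFinset]
        refine ⟨⟨hyz.symm, hy⟩, card_eq_one.2 ⟨z, ?_⟩⟩
        rw [eq_singleton_iff_unique_mem]
        refine ⟨mem_inter.2 ⟨(SimpleGraph.mem_neighborFinset _ _ _).2 hyz, hz⟩, fun z' hz' => ?_⟩
        rw [mem_inter, SimpleGraph.mem_neighborFinset] at hz'
        by_contra hne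
        exact hno z' hz'.2 hne hz'.1
      have h2 : 0 < n1 G U z := card_pos.2 ⟨y, h1⟩
      have := hD z hz
      omega
  refine snd_flt hok fun n p x L hL φ ν h => ?_
  unfold rawX at hL
  rw [frc_eq, frc_eq] at hL
  cases r0 : Nat.beq (Nat.mod x 4) 0
  swap
  · rw [r0, cond_true] at hL
    obtain ⟨q, hq, -, φ', ν', h1, -⟩ := branch_D hG hI hD hL h
    exact Or.inr ⟨q, hq, φ', ν', h1⟩
  rw [r0, cond_false] at hL
  cases r1 : Nat.beq (Nat.mod x 4) 1
  swap
  · rw [r1, cond_true] at hL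
    obtain ⟨e, x', L', XM, z, a1, a2⟩ := lfx_of hL
    rcases evbX_ch hG (pair_x bo) (pos_x bo) (tabK_x bo) (tabKI_x bo) hI hD hiso a2 h (Ex := exz m ML G)
      (fun hL' hS' => exz_step hG hML hI hok hd h hL' hS' XM z) with h1 | ⟨q, hq, -, φ', ν', h1, -⟩
    · exact Or.inl ⟨_, a1, h1⟩
    · exact Or.inr ⟨q, hq, φ', ν', h1⟩
  rw [r1, cond_false] at hL
  cases r2 : Nat.beq (Nat.mod x 4) 2
  swap
  · rw [r2, cond_true] at hL
    obtain ⟨e, x', L', XM, z, a1, a2⟩ := lfx_of hL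
    rcases evlX_ch hG (pair_x bo) (pos_x bo) (tabK_x bo) (tabKI_x bo) hI hD hiso a2 h (Ex := exz m ML G)
      (fun hL' hS' => exz_step hG hML hI hok hd h hL' hS' XM z) with h1 | ⟨q, hq, -, φ', ν', h1, -⟩
    · exact Or.inl ⟨_, a1, h1⟩
    · exact Or.inr ⟨q, hq, φ', ν', h1⟩
  rw [r2, cond_false] at hL
  exact absurd (pstU_no hG hc hI hU hPL hcl hL h) not_false

/-- **the conclusion at a state with a piece**: `D0 = 2`: only the roots at the pieces; `D0 = 1`: the root with
two lonely outer vertices is closed; `D0 = 0`: also the root with one -/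
theorem rootsX (hG : G.IsRegularOfDegree 3) {U E : Finset V} (hE : E ⊆ U) {Q : Prop} {tf : Bool}
    (htf : tf = true → TF3 G) {st : ℕ → Stp}
    (hsnd : ∀ D, (∀ x ∈ U, n1 G U x ≤ D) → Snd G U Q (st D)) (h2 : ∀ x ∈ U, n1 G U x ≤ 2) {D0 : ℕ}
    (hA : D0 ≤ 1 → Val (st 2) (1, 257)) (hB : D0 = 0 → Val (st 1) (1, 1)) {QL : List (ℕ × ℕ)}
    (hQL : pcl QL) {q : ℕ × ℕ} (hq : q ∈ QL) (hp : Pc G E q.1 q.2)
    (hr : ∀ r ∈ rtu QL, ClO (okB D0 tf) (st D0) r) : Q := by
  have key : (∀ x ∈ U, n1 G U x ≤ D0) → Q := fun hD => rtu_use hG hE hD htf hQL hq hp (hsnd D0 hD) hr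
  by_cases hD2 : 2 ≤ D0
  · exact key fun x hx => (h2 x hx).trans hD2
  by_cases h3 : ∃ x ∈ U, 2 ≤ n1 G U x
  · obtain ⟨x, hx, hn⟩ := h3
    obtain ⟨φ, ν, h⟩ := root2 hG hx hn
    exact (hA (by omega)).2 G U Q (hsnd 2 h2) φ ν h
  push Not at h3
  by_cases hD1 : D0 = 1
  · exact key fun x hx => by
      have := h3 x hx
      omega
  by_cases h4 : ∃ x ∈ U, 1 ≤ n1 G U x
  · obtain ⟨x, hx, hn⟩ := h4
    obtain ⟨φ, ν, h⟩ := root1 hG hx hn
    exact (hB (by omega)).2 G U Q (hsnd 1 fun x hx => by have := h3 x hx; omega) φ ν h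
  push Not at h4
  exact key fun x hx => by
    have := h4 x hx
    omega

/-- **one phase**: the pieces `PL` are excluded, the states without the pieces `QL` are given, the pieces `ML` are
charged -/
theorem phaseX (hG : G.IsRegularOfDegree 3) (hc : G.Connected) {bo : Bool} {m : ℕ} {tf : Bool} (htf : tf = true → TF3 G)
    {ML : List MPc} (hML : ML.all mkok = true) {PL : List (ℕ × ℕ)} (hPL : PL.all wfp = true)
    {QL : List (ℕ × ℕ)} (hQL : pcl QL)
    (hbs : ∀ U : Finset V, Inv G U → U ≠ univ → NoP G PL U → NoP G QL U →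
      ∃ k, Has G U k ∧ 84 * k + Xs G (beT (bnx bo) G) U ≤ PsiT (fw.iso 12) G U + 6 * dpn G U + exz m ML G U)
    {D0 : ℕ} (hA : D0 ≤ 1 → Val (stX bo m tf ML PL 2) (1, 257))
    (hB : D0 = 0 → Val (stX bo m tf ML PL 1) (1, 1))
    (hr : ∀ r ∈ rtu QL, ClO (okB D0 tf) (stX bo m tf ML PL D0) r) :
    ∀ U : Finset V, Inv G U → U ≠ univ → NoP G PL U →
      ∃ k, Has G U k ∧ 84 * k + Xs G (beT (bnx bo) G) U ≤
        PsiT (fw.iso 12) G U + 6 * dpn G U + exz m ML G U := by
  refine frameX hG (exz m ML G) (fun A B h => bz_sup hML h) (by decide) (NoP G PL) (NoP G QL)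
    (fun _ _ h hB => hB.mono h) hbs fun U hI hU _ _ hi hcl hno => ?_
  unfold NoP at hno
  push Not at hno
  obtain ⟨q, hq, E, hE, hp⟩ := hno
  exact rootsX hG hE htf (fun D hD => snd_stX hG hc hI hU hML hPL hD hi htf hcl) (n1_le_two hG hI hi) hA hB hQL hq
    hp hr

end EF18
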