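import Pool.Agent.Lib.MP_ef18bd_co.P.Leaf

/-!
# Potentials given by the types of the members

The type of a member `x` of `U`: the number of neighbours in `U` and the number of neighbours outside
`U` without another neighbour in `U`. `PsiT`: the sum of a function of the type. `drop_typ`: the drop
of such a potential, as a sum over the removed vertices and corrections at some survivors.
-/

namespace EF18

open Finset

variable {V : Type} [Fintype V] [DecidableEq V] {G : SimpleGraph V} [DecidableRel G.Adj]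

/-- the number of outside neighbours of `x` without another neighbour in `U` -/
def n1 (G : SimpleGraph V) [DecidableRel G.Adj] (U : Finset V) (x : V) : ℕ :=
  ((G.neighborFinset x \ U).filter fun y => nU G U y = 1).card

/-- a function of the type with bounds for the single steps -/
structure TF where
  F : ℕ → ℕ → ℕ
  (h2 h1 h0 : ℕ)
  s2 : ∀ a c, a + c ≤ 2 → F a c ≤ F (a + 1) c + h2
  s1 : ∀ a c, a + c ≤ 2 → F a (c + 1) ≤ F (a + 1) c + h1
  s0 : ∀ a c, a + c ≤ 2 → F a (c + 1) ≤ F a c + h0

/-- the potential -/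
def PsiT (w : TF) (G : SimpleGraph V) [DecidableRel G.Adj] (U : Finset V) : ℕ :=
  ∑ x ∈ U, w.F (nU G U x) (n1 G U x)

/-- the cost of a survivor next to a removed vertex with `s` surviving neighbours -/
def TF.hh (w : TF) (s : ℕ) : ℕ := if s = 2 then w.h2 else if s = 1 then w.h1 else 0

theorem TF.i2 (w : TF) : ∀ {i a c : ℕ}, a + i + c ≤ 3 → w.F a c ≤ w.F (a + i) c + i * w.h2 := by
  intro i
  induction i with
  | zero => intro a c _; simp
  | succ i ih =>
    intro a c h
    have h1 := ih (a := a) (c := c) (by omega)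
    have h2 := w.s2 (a + i) c (by omega)
    rw [← add_assoc, add_mul, one_mul]
    omega

theorem TF.i0 (w : TF) : ∀ {k a c : ℕ}, a + c + k ≤ 3 → w.F a (c + k) ≤ w.F a c + k * w.h0 := by
  intro k
  induction k with
  | zero => intro a c _; simp
  | succ k ih =>
    intro a c h
    have h1 := ih (a := a) (c := c) (by omega)
    have h2 := w.s0 a (c + k) (by omega)
    rw [← add_assoc, add_mul, one_mul]
    omega

theorem TF.i1 (w : TF) : ∀ {j a c : ℕ}, a + j + c ≤ 3 → w.F a (c + j) ≤ w.F (a + j) c + j * w.h1 := by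
  intro j
  induction j with
  | zero => intro a c _; simp
  | succ j ih =>
    intro a c h
    have h1 := ih (a := a) (c := c + 1) (by omega)
    have h2 := w.s1 (a + j) c (by omega)
    rw [show c + (j + 1) = c + 1 + j by omega, ← add_assoc, add_mul, one_mul]
    omega

theorem TF.steps (w : TF) {a c i j k : ℕ} (h : a + i + j + c + k ≤ 3) :
    w.F a (c + j + k) ≤ w.F (a + i + j) c + (i * w.h2 + j * w.h1) + k * w.h0 := by
  have h1 := w.i2 (i := i) (a := a) (c := c + j + k) (by omega)
  have h2 := w.i0 (k := k) (a := a + i) (c := c + j) (by omega)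
  have h3 := w.i1 (j := j) (a := a + i) (c := c) (by omega)
  omega

/-- the counts at a survivor -/
theorem typ_counts (hG : G.IsRegularOfDegree 3) {U' U : Finset V} (h : U' ⊆ U) (hI : Inv G U') {x : V}
    (hx : x ∈ U') :
    nU G U x = nU G U' x + ((G.neighborFinset x ∩ (U \ U')).filter fun y => nU G U' y = 2).card +
      ((G.neighborFinset x ∩ (U \ U')).filter fun y => nU G U' y = 1).card ∧
    n1 G U' x = n1 G U x + ((G.neighborFinset x ∩ (U \ U')).filter fun y => nU G U' y = 1).card +
      ((G.neighborFinset x \ U).filter fun y => nU G U y ≠ 1 ∧ nU G U' y = 1).card ∧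
    nU G U x + n1 G U x +
      ((G.neighborFinset x \ U).filter fun y => nU G U y ≠ 1 ∧ nU G U' y = 1).card ≤ 3 := by
  have hpos : ∀ y ∈ G.neighborFinset x, 1 ≤ nU G U' y := by
    intro y hy
    rw [SimpleGraph.mem_neighborFinset] at hy
    exact card_pos.2 ⟨x, mem_inter.2 ⟨by rw [SimpleGraph.mem_neighborFinset]; exact hy.symm, hx⟩⟩
  have hle : ∀ y, y ∉ U' → nU G U' y ≤ 2 := fun y hy =>
    (card_le_card (inter_subset_inter_right (fun z hz => mem_cn.2 (Or.inr
      ((SimpleGraph.mem_neighborFinset _ _ _).1 hz))))).trans (hI y hy)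
  refine ⟨?_, ?_, ?_⟩
  · have h1 : G.neighborFinset x ∩ U = (G.neighborFinset x ∩ U') ∪
        (((G.neighborFinset x ∩ (U \ U')).filter fun y => nU G U' y = 2) ∪
        ((G.neighborFinset x ∩ (U \ U')).filter fun y => nU G U' y = 1)) := by
      ext y
      simp only [mem_inter, mem_union, mem_filter, mem_sdiff]
      constructor
      · rintro ⟨h1, h2⟩
        by_cases h3 : y ∈ U'
        · exact Or.inl ⟨h1, h3⟩
        · have h4 := hpos y h1
          have h5 := hle y h3
          rcases (by omega : nU G U' y = 2 ∨ nU G U' y = 1) with h6 | h6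
          · exact Or.inr (Or.inl ⟨⟨h1, h2, h3⟩, h6⟩)
          · exact Or.inr (Or.inr ⟨⟨h1, h2, h3⟩, h6⟩)
      · rintro (⟨h1, h2⟩ | ⟨⟨h1, h2, -⟩, -⟩ | ⟨⟨h1, h2, -⟩, -⟩)
        · exact ⟨h1, h h2⟩
        · exact ⟨h1, h2⟩
        · exact ⟨h1, h2⟩
    unfold nU at h1 ⊢
    rw [h1, card_union_of_disjoint, card_union_of_disjoint, ← add_assoc]
    · rw [disjoint_left]
      intro y hy hy'
      rw [mem_filter] at hy hy'
      omega
    · rw [disjoint_left]
      intro y hy hy'
      simp only [mem_inter, mem_union, mem_filter, mem_sdiff] at hy hy'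
      rcases hy' with h2 | h2
      · exact h2.1.2.2 hy.2
      · exact h2.1.2.2 hy.2
  · have h1 : (G.neighborFinset x \ U').filter (fun y => nU G U' y = 1) =
        ((G.neighborFinset x \ U).filter fun y => nU G U y = 1) ∪
        (((G.neighborFinset x ∩ (U \ U')).filter fun y => nU G U' y = 1) ∪
        ((G.neighborFinset x \ U).filter fun y => nU G U y ≠ 1 ∧ nU G U' y = 1)) := by
      ext y
      simp only [mem_inter, mem_union, mem_filter, mem_sdiff]
      constructor
      · rintro ⟨⟨h1, h2⟩, h3⟩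
        by_cases h4 : y ∈ U
        · exact Or.inr (Or.inl ⟨⟨h1, h4, h2⟩, h3⟩)
        · by_cases h5 : nU G U y = 1
          · exact Or.inl ⟨⟨h1, h4⟩, h5⟩
          · exact Or.inr (Or.inr ⟨⟨h1, h4⟩, h5, h3⟩)
      · rintro (⟨⟨h1, h2⟩, h3⟩ | ⟨⟨h1, h2, h3⟩, h4⟩ | ⟨⟨h1, h2⟩, -, h3⟩)
        · refine ⟨⟨h1, fun h4 => h2 (h h4)⟩, ?_⟩
          have h4 := hpos y h1
          have h5 := nU_mono (G := G) h y
          omega
        · exact ⟨⟨h1, h3⟩, h4⟩
        · exact ⟨⟨h1, fun h4 => h2 (h h4)⟩, h3⟩
    unfold n1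
    rw [h1, card_union_of_disjoint, card_union_of_disjoint, ← add_assoc]
    · rw [disjoint_left]
      intro y hy hy'
      simp only [mem_inter, mem_filter, mem_sdiff] at hy hy'
      exact hy'.1.2 hy.1.2.1
    · rw [disjoint_left]
      intro y hy hy'
      simp only [mem_inter, mem_union, mem_filter, mem_sdiff] at hy hy'
      rcases hy' with h2 | h2
      · exact hy.1.2 h2.1.2.1
      · exact h2.2.1 hy.2
  · have h1 : (G.neighborFinset x ∩ U) ∪ (((G.neighborFinset x \ U).filter fun y => nU G U y = 1) ∪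
        ((G.neighborFinset x \ U).filter fun y => nU G U y ≠ 1 ∧ nU G U' y = 1)) ⊆
        G.neighborFinset x := by
      intro y hy
      simp only [mem_inter, mem_union, mem_filter, mem_sdiff] at hy
      rcases hy with h1 | h1 | h1
      · exact h1.1
      · exact h1.1.1
      · exact h1.1.1
    have h2 := card_le_card h1
    rw [nbr_card hG, card_union_of_disjoint, card_union_of_disjoint] at h2
    · have e : nU G U x = (G.neighborFinset x ∩ U).card := rfl
      rw [e]
      unfold n1
      omega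
    · rw [disjoint_left]
      intro y hy hy'
      rw [mem_filter] at hy hy'
      exact hy'.2.1 hy.2
    · rw [disjoint_left]
      intro y hy hy'
      simp only [mem_inter, mem_union, mem_filter, mem_sdiff] at hy hy'
      rcases hy' with h2 | h2
      · exact h2.1.2 hy.2
      · exact h2.1.2 hy.2

/-- the change at a survivor -/
theorem typ_one (w : TF) (hG : G.IsRegularOfDegree 3) {U' U : Finset V} (h : U' ⊆ U) (hI : Inv G U')
    {x : V} (hx : x ∈ U') :
    w.F (nU G U' x) (n1 G U' x) ≤ w.F (nU G U x) (n1 G U x) +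
      (∑ z ∈ G.neighborFinset x ∩ (U \ U'), w.hh (nU G U' z)) +
      ((G.neighborFinset x \ U).filter fun y => nU G U y ≠ 1 ∧ nU G U' y = 1).card * w.h0 := by
  obtain ⟨h1, h2, h3⟩ := typ_counts hG h hI hx
  have h4 := w.steps (a := nU G U' x) (c := n1 G U x)
    (i := ((G.neighborFinset x ∩ (U \ U')).filter fun y => nU G U' y = 2).card)
    (j := ((G.neighborFinset x ∩ (U \ U')).filter fun y => nU G U' y = 1).card)
    (k := ((G.neighborFinset x \ U).filter fun y => nU G U y ≠ 1 ∧ nU G U' y = 1).card) (by omega)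
  rw [← h1, ← h2] at h4
  have h5 : ∑ z ∈ G.neighborFinset x ∩ (U \ U'), w.hh (nU G U' z) =
      ((G.neighborFinset x ∩ (U \ U')).filter fun y => nU G U' y = 2).card * w.h2 +
      ((G.neighborFinset x ∩ (U \ U')).filter fun y => nU G U' y = 1).card * w.h1 := by
    rw [← sum_filter_add_sum_filter_not (G.neighborFinset x ∩ (U \ U')) (fun y => nU G U' y = 2)]
    congr 1
    · rw [sum_congr rfl (g := fun _ => w.h2), sum_const, smul_eq_mul]
      intro z hz
      unfold TF.hh
      rw [if_pos (mem_filter.1 hz).2]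
    · rw [← sum_filter_add_sum_filter_not _ (fun y => nU G U' y = 1), filter_filter, filter_filter,
        filter_congr (q := fun y => nU G U' y = 1) (fun z _ => by constructor <;> intro <;> omega),
        sum_congr rfl (g := fun _ => w.h1), sum_const, smul_eq_mul, sum_eq_zero, add_zero]
      · intro z hz
        rw [mem_filter] at hz
        unfold TF.hh
        rw [if_neg hz.2.1, if_neg hz.2.2]
      · intro z hz
        rw [mem_filter] at hz
        unfold TF.hh
        rw [if_neg (by omega), if_pos hz.2]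
  rw [h5]
  exact h4

/-- the D2's between removed and surviving vertices -/
theorem typ_links {U' U A : Finset V} (h : U' ⊆ U) (hA : A ⊆ U') :
    ∑ x ∈ A, ((G.neighborFinset x \ U).filter fun y => nU G U y ≠ 1 ∧ nU G U' y = 1).card ≤
      ∑ z ∈ U \ U', ((G.neighborFinset z \ U).filter fun p => (G.neighborFinset p ∩ A).Nonempty).card := by
  classical
  obtain ⟨P, hP⟩ : ∃ P : Finset V, P = univ.filter fun p => p ∉ U ∧ nU G U p ≠ 1 ∧ nU G U' p = 1 :=
    ⟨_, rfl⟩
  obtain ⟨Q, hQ⟩ : ∃ Q : Finset V, Q = P.filter fun p => (G.neighborFinset p ∩ A).Nonempty := ⟨_, rfl⟩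
  have e1 : ∑ x ∈ A, ((G.neighborFinset x \ U).filter fun y => nU G U y ≠ 1 ∧ nU G U' y = 1).card =
      ∑ x ∈ A, (Q.filter fun p => G.Adj x p).card := by
    refine sum_congr rfl fun x hx => ?_
    congr 1
    ext p
    simp only [hQ, hP, mem_filter, mem_sdiff, mem_univ, true_and, SimpleGraph.mem_neighborFinset]
    constructor
    · rintro ⟨⟨h1, h2⟩, h3, h4⟩
      exact ⟨⟨⟨h2, h3, h4⟩, x, mem_inter.2 ⟨(SimpleGraph.mem_neighborFinset _ _ _).2 h1.symm, hx⟩⟩, h1⟩
    · rintro ⟨⟨⟨h2, h3, h4⟩, -⟩, h1⟩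
      exact ⟨⟨h1, h2⟩, h3, h4⟩
  have e2 : ∑ x ∈ A, (Q.filter fun p => G.Adj x p).card = ∑ p ∈ Q, (A.filter fun x => G.Adj x p).card :=
    sum_card_bipartiteAbove_eq_sum_card_bipartiteBelow _
  have e3 : ∑ z ∈ U \ U', (Q.filter fun p => G.Adj z p).card =
      ∑ p ∈ Q, ((U \ U').filter fun z => G.Adj z p).card :=
    sum_card_bipartiteAbove_eq_sum_card_bipartiteBelow _
  have e4 : ∑ p ∈ Q, (A.filter fun x => G.Adj x p).card ≤
      ∑ p ∈ Q, ((U \ U').filter fun z => G.Adj z p).card := by
    refine sum_le_sum fun p hp => ?_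
    rw [hQ, hP] at hp
    simp only [mem_filter, mem_univ, true_and] at hp
    obtain ⟨⟨h1, h2, h3⟩, -⟩ := hp
    have h4 : (A.filter fun x => G.Adj x p).card ≤ 1 := by
      rw [← h3]
      unfold nU
      refine card_le_card fun x hx => ?_
      rw [mem_filter] at hx
      exact mem_inter.2 ⟨(SimpleGraph.mem_neighborFinset _ _ _).2 hx.2.symm, hA hx.1⟩
    have h5 : nU G U p ≤ nU G U' p + ((U \ U').filter fun z => G.Adj z p).card := by
      unfold nU
      rw [← card_union_of_disjoint]
      · refine card_le_card fun z hz => ?_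
        rw [mem_inter] at hz
        by_cases hz' : z ∈ U'
        · exact mem_union_left _ (mem_inter.2 ⟨hz.1, hz'⟩)
        · refine mem_union_right _ (mem_filter.2 ⟨mem_sdiff.2 ⟨hz.2, hz'⟩, ?_⟩)
          exact ((SimpleGraph.mem_neighborFinset _ _ _).1 hz.1).symm
      · rw [disjoint_left]
        intro z hz hz'
        rw [mem_filter, mem_sdiff] at hz'
        exact hz'.1.2 (mem_inter.1 hz).2
    have h6 := nU_mono (G := G) h p
    omega
  rw [e1, e2]
  refine e4.trans ?_
  rw [← e3]
  refine sum_le_sum fun z _ => card_le_card fun p hp => ?_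
  rw [hQ, hP] at hp
  simp only [mem_filter, mem_univ, true_and] at hp
  rw [mem_filter, mem_sdiff, SimpleGraph.mem_neighborFinset]
  exact ⟨⟨hp.2, hp.1.1.1⟩, hp.1.2⟩

/-- **the drop of the potential** -/
theorem drop_typ (w : TF) (hG : G.IsRegularOfDegree 3) {U' U : Finset V} (h : U' ⊆ U) (hI : Inv G U')
    {E : Finset V} (hE : E ⊆ U') (g m : V → ℕ)
    (hg : ∀ x ∈ E, w.F (nU G U' x) (n1 G U' x) + m x ≤ w.F (nU G U x) (n1 G U x) + g x) :
    PsiT w G U' + ∑ z ∈ U \ U', w.F (nU G U z) (n1 G U z) + ∑ x ∈ E, m x ≤ PsiT w G U +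
      ∑ z ∈ U \ U', ((G.neighborFinset z ∩ (U' \ E)).card * w.hh (nU G U' z) +
        ((G.neighborFinset z \ U).filter fun p => (G.neighborFinset p ∩ (U' \ E)).Nonempty).card * w.h0) +
      ∑ x ∈ E, g x := by
  classical
  have h1 := sum_le_sum hg
  rw [sum_add_distrib, sum_add_distrib] at h1
  have h2 := sum_le_sum (s := U' \ E) fun x hx => typ_one w hG h hI (mem_sdiff.1 hx).1
  rw [sum_add_distrib, sum_add_distrib, ← sum_mul] at h2
  have h3 : ∑ x ∈ U' \ E, ∑ z ∈ G.neighborFinset x ∩ (U \ U'), w.hh (nU G U' z) =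
      ∑ z ∈ U \ U', (G.neighborFinset z ∩ (U' \ E)).card * w.hh (nU G U' z) := by
    have e1 : ∀ x, ∑ z ∈ G.neighborFinset x ∩ (U \ U'), w.hh (nU G U' z) =
        ∑ z ∈ U \ U', if G.Adj x z then w.hh (nU G U' z) else 0 := by
      intro x
      rw [← sum_filter]
      refine sum_congr ?_ fun _ _ => rfl
      ext z
      simp only [mem_inter, mem_filter, SimpleGraph.mem_neighborFinset]
      tauto
    rw [sum_congr rfl fun x _ => e1 x, sum_comm]
    refine sum_congr rfl fun z _ => ?_
    rw [← sum_filter, sum_const, smul_eq_mul]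
    congr 2
    ext x
    simp only [mem_inter, mem_filter, SimpleGraph.mem_neighborFinset]
    constructor
    · rintro ⟨a1, a2⟩; exact ⟨a2.symm, a1⟩
    · rintro ⟨a1, a2⟩; exact ⟨a2, a1.symm⟩
  have h4 := typ_links (G := G) h (sdiff_subset (s := U') (t := E))
  have h5 := Nat.mul_le_mul_right w.h0 h4
  have h6 : PsiT w G U' = ∑ x ∈ E, w.F (nU G U' x) (n1 G U' x) +
      ∑ x ∈ U' \ E, w.F (nU G U' x) (n1 G U' x) := by
    unfold PsiT
    rw [add_comm]
    exact (sum_sdiff hE).symm
  have h7 : PsiT w G U = ∑ z ∈ U \ U', w.F (nU G U z) (n1 G U z) +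
      (∑ x ∈ E, w.F (nU G U x) (n1 G U x) + ∑ x ∈ U' \ E, w.F (nU G U x) (n1 G U x)) := by
    unfold PsiT
    rw [← sum_sdiff h, add_comm (∑ x ∈ E, _), sum_sdiff hE]
  have h8 : ∑ z ∈ U \ U', ((G.neighborFinset z ∩ (U' \ E)).card * w.hh (nU G U' z) +
        ((G.neighborFinset z \ U).filter fun p => (G.neighborFinset p ∩ (U' \ E)).Nonempty).card * w.h0) =
      ∑ z ∈ U \ U', (G.neighborFinset z ∩ (U' \ E)).card * w.hh (nU G U' z) +
      (∑ z ∈ U \ U', ((G.neighborFinset z \ U).filter
        fun p => (G.neighborFinset p ∩ (U' \ E)).Nonempty).card) * w.h0 := by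
    rw [sum_add_distrib, sum_mul]
  rw [h3] at h2
  rw [h6, h7, h8]
  omega

end EF18
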