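import Pool.Agent.Lib.MP_ef18bd_co.P.Typ

/-!
# The leaf test for potentials by types

A list `L` of closed nodes of a pattern, `M` the mask of the removed nodes, `E` a mask of surviving
nodes with three known ports. Every removed node gets a value from a table `T` (index: the codes of its
three ports), every node of `E` a value from a table `TE`.
-/

namespace EF18

open Finset

variable {V : Type} [Fintype V] [DecidableEq V] {G : SimpleGraph V} [DecidableRel G.Adj]

/-- `f n`, with `n` evaluated first -/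
def frc {α : Type} (n : ℕ) (f : ℕ → α) : α :=
  Nat.rec (motive := fun _ => α) (f 0) (fun k _ => f (Nat.succ k)) n

theorem frc_eq {α : Type} (n : ℕ) (f : ℕ → α) : frc n f = f n := by cases n <;> rfl

/-- the bit -/
def tb (M i : ℕ) : Bool := Nat.beq (Nat.mod (Nat.div M (Nat.pow 2 i)) 2) 1

theorem tb_eq (M i : ℕ) : tb M i = M.testBit i := by
  rw [Nat.testBit_eq_decide_div_mod_eq]
  show Nat.beq (M / 2 ^ i % 2) 1 = _
  cases h : Nat.beq (M / 2 ^ i % 2) 1
  · symm
    rw [decide_eq_false_iff_not]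
    intro e
    rw [e] at h
    exact absurd h (by decide)
  · symm
    rw [decide_eq_true_iff]
    exact Nat.eq_of_beq_eq_true h

/-- the table entry -/
def ent (T i : ℕ) : ℕ := Nat.mod (Nat.div T (Nat.pow 65536 i)) 65536

/-- the sum of the values below `n` -/
def sm (f : ℕ → ℕ) (n : ℕ) : ℕ :=
  Nat.rec (motive := fun _ => ℕ) 0 (fun i r => Nat.add (f i) r) n

theorem sm_eq (f : ℕ → ℕ) (n : ℕ) : sm f n = ∑ i ∈ range n, f i := by
  induction n with
  | zero => rfl
  | succ n ih =>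
    rw [sum_range_succ, ← ih]
    exact Nat.add_comm (f n) (sm f n)

/-! ### codes of the ports of a removed node -/

/-- the code of a port of a removed node -/
def kc (M E d : ℕ) : ℕ :=
  bif Nat.beq d 0 then 0 else bif Nat.beq d 1 then 1 else
    frc (Nat.div (Nat.sub d 2) 6) fun t =>
      bif Nat.beq (Nat.mod d 2) 0 then (bif tb M t then 2 else bif tb E t then 4 else 3)
      else (bif tb M t then 5 else bif tb E t then 5 else 6)

theorem kc_dir (M E l : ℕ) : kc M E (2 + 2 * l) =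
    bif M.testBit (l / 3) then 2 else bif E.testBit (l / 3) then 4 else 3 := by
  unfold kc
  have h1 : Nat.beq (2 + 2 * l) 0 = false := by rw [Bool.eq_false_iff, Ne, Nat.beq_eq]; omega
  have h2 : Nat.beq (2 + 2 * l) 1 = false := by rw [Bool.eq_false_iff, Ne, Nat.beq_eq]; omega
  have h3 : Nat.div (Nat.sub (2 + 2 * l) 2) 6 = l / 3 := by
    show (2 + 2 * l - 2) / 6 = l / 3
    omega
  have h4 : Nat.mod (2 + 2 * l) 2 = 0 := by
    show (2 + 2 * l) % 2 = 0
    omega
  rw [h1, h2, frc_eq, h3, h4, tb_eq, tb_eq]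
  rfl

theorem kc_lnk (M E l : ℕ) : kc M E (3 + 2 * l) =
    bif M.testBit (l / 3) then 5 else bif E.testBit (l / 3) then 5 else 6 := by
  unfold kc
  have h1 : Nat.beq (3 + 2 * l) 0 = false := by rw [Bool.eq_false_iff, Ne, Nat.beq_eq]; omega
  have h2 : Nat.beq (3 + 2 * l) 1 = false := by rw [Bool.eq_false_iff, Ne, Nat.beq_eq]; omega
  have h3 : Nat.div (Nat.sub (3 + 2 * l) 2) 6 = l / 3 := by
    show (3 + 2 * l - 2) / 6 = l / 3
    omega
  have h4 : Nat.mod (3 + 2 * l) 2 = 1 := by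
    show (3 + 2 * l) % 2 = 1
    omega
  rw [h1, h2, frc_eq, h3, h4, tb_eq, tb_eq]
  rfl

/-- live -/
def ca (x : ℕ) : ℕ := if x = 2 ∨ x = 3 ∨ x = 4 then 1 else 0
/-- without another neighbour -/
def cc (x : ℕ) : ℕ := if x = 1 then 1 else 0
/-- surviving -/
def cs (x : ℕ) : ℕ := if x = 3 ∨ x = 4 then 1 else 0
/-- surviving, not in `E` -/
def ce (x : ℕ) : ℕ := if x = 3 then 1 else 0
/-- next to a survivor not in `E` -/
def cq (x : ℕ) : ℕ := if x = 6 then 1 else 0
/-- the possible codes -/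
def opt (x : ℕ) : List ℕ := if x = 0 then [1, 2, 3, 6] else [x]

/-- the table of the removed nodes -/
def TabK (w : TF) (OFF T : ℕ) : Prop :=
  ∀ x < 7, ∀ y < 7, ∀ z < 7, ∀ x' ∈ opt x, ∀ y' ∈ opt y, ∀ z' ∈ opt z,
    ent T (x + 7 * y + 49 * z) + ((ce x' + ce y' + ce z') * w.hh (cs x' + cs y' + cs z') +
      (cq x' + cq y' + cq z') * w.h0) ≤ w.F (ca x' + ca y' + ca z') (cc x' + cc y' + cc z') + OFF

/-- the value of a removed node -/
def kval (T p M E i : ℕ) : ℕ :=
  frc (Nat.mul 3 i) fun k =>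
    ent T (Nat.add (Nat.add (kc M E (dg p k)) (Nat.mul 7 (kc M E (dg p (Nat.add k 1)))))
      (Nat.mul 49 (kc M E (dg p (Nat.add k 2)))))

theorem kval_eq (T p M E i : ℕ) : kval T p M E i =
    ent T (kc M E (dg p (3 * i)) + 7 * kc M E (dg p (3 * i + 1)) + 49 * kc M E (dg p (3 * i + 2))) := by
  unfold kval
  rw [frc_eq]
  rfl

theorem kc_lt (M E d : ℕ) : kc M E d < 7 := by
  rcases digit_cases d with rfl | rfl | ⟨l, rfl⟩ | ⟨l, rfl⟩
  · exact (by decide : (0 : ℕ) < 7)
  · exact (by decide : (1 : ℕ) < 7)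
  · rw [kc_dir]
    cases M.testBit (l / 3) <;> cases E.testBit (l / 3) <;> decide
  · rw [kc_lnk]
    cases M.testBit (l / 3) <;> cases E.testBit (l / 3) <;> decide

/-- the neighbours of a node, port by port -/
theorem Emb.card_filter (hG : G.IsRegularOfDegree 3) {U : Finset V} {n p : ℕ} {φ ν : ℕ → V}
    (h : Emb G U n p φ ν) {i : ℕ} (hi : i < n) (P : V → Prop) [DecidablePred P] :
    ((G.neighborFinset (φ i)).filter P).card = (if P (ν (3 * i)) then 1 else 0) +
      (if P (ν (3 * i + 1)) then 1 else 0) + (if P (ν (3 * i + 2)) then 1 else 0) := by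
  have h1 : G.neighborFinset (φ i) = ({3 * i, 3 * i + 1, 3 * i + 2} : Finset ℕ).image ν := by
    ext y
    rw [SimpleGraph.mem_neighborFinset, mem_image]
    constructor
    · intro hy
      obtain ⟨k, hk, hkn, hky⟩ := h.surj hG hi hy
      refine ⟨k, ?_, hky⟩
      simp only [mem_insert, mem_singleton]
      omega
    · rintro ⟨k, hk, rfl⟩
      simp only [mem_insert, mem_singleton] at hk
      have := h.adj k (by omega)
      rwa [show k / 3 = i by omega] at this
  have h2 : Set.InjOn ν (({3 * i, 3 * i + 1, 3 * i + 2} : Finset ℕ) : Set ℕ) := by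
    intro k hk l hl e
    rw [mem_coe] at hk hl
    simp only [mem_insert, mem_singleton] at hk hl
    exact h.pinj k (by omega) l (by omega) (by omega) e
  rw [h1, Finset.card_filter, sum_image (fun k hk l hl e => h2 hk hl e), sum_insert (by simp),
    sum_insert (by simp), sum_singleton]
  ring

omit [Fintype V] in
theorem inter_eq_filter' (A B : Finset V) : A ∩ B = A.filter (· ∈ B) := by
  ext y; simp

omit [Fintype V] in
theorem sdiff_eq_filter' (A B : Finset V) : A \ B = A.filter (· ∉ B) := by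
  ext y; simp

/-- the status of a port of a removed node -/
theorem Emb.kstat {U U' : Finset V} (hI : Inv G U) (hs : U' ⊆ U) {n p M E : ℕ} {φ ν : ℕ → V}
    (h : Emb G U n p φ ν) (hM : ∀ i < n, (M.testBit i = true ↔ φ i ∉ U')) {EE : Finset V}
    (hE : ∀ i < n, E.testBit i = true → M.testBit i = false → φ i ∈ EE) {k : ℕ} (hk : k < 3 * n)
    (hkM : φ (k / 3) ∉ U') :
    ∃ x ∈ opt (kc M E (dg p k)), (if ν k ∈ U then 1 else 0) = ca x ∧
      (if ν k ∉ U ∧ nU G U (ν k) = 1 then 1 else 0) = cc x ∧ (if ν k ∈ U' then 1 else 0) = cs x ∧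
      (if ν k ∈ U' \ EE then 1 else 0) ≤ ce x ∧
      (if ν k ∉ U ∧ (G.neighborFinset (ν k) ∩ (U' \ EE)).Nonempty then 1 else 0) ≤ cq x := by
  have hkn : k / 3 < n := by omega
  have had := (h.adj k hk).symm
  have hmem : φ (k / 3) ∈ G.neighborFinset (ν k) ∩ U :=
    mem_inter.2 ⟨(SimpleGraph.mem_neighborFinset _ _ _).2 had, h.mem _ hkn⟩
  -- one neighbour
  have hone : ν k ∉ U → nU G U (ν k) = 1 →
      ∃ x ∈ [1], (if ν k ∈ U then 1 else 0) = ca x ∧
      (if ν k ∉ U ∧ nU G U (ν k) = 1 then 1 else 0) = cc x ∧ (if ν k ∈ U' then 1 else 0) = cs x ∧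
      (if ν k ∈ U' \ EE then 1 else 0) ≤ ce x ∧
      (if ν k ∉ U ∧ (G.neighborFinset (ν k) ∩ (U' \ EE)).Nonempty then 1 else 0) ≤ cq x := by
    intro h1 h2
    have h3 : ν k ∉ U' := fun e => h1 (hs e)
    have h4 : ¬ (ν k ∉ U ∧ (G.neighborFinset (ν k) ∩ (U' \ EE)).Nonempty) := by
      rintro ⟨-, y, hy⟩
      rw [mem_inter, mem_sdiff] at hy
      obtain ⟨a, ha⟩ := card_eq_one.1 h2
      have h5 : y ∈ G.neighborFinset (ν k) ∩ U := mem_inter.2 ⟨hy.1, hs hy.2.1⟩
      rw [ha, mem_singleton] at h5 hmem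
      rw [h5, ← hmem] at hy
      exact hkM hy.2.1
    refine ⟨1, by simp, ?_, ?_, ?_, ?_, ?_⟩
    · rw [if_neg h1]; rfl
    · rw [if_pos ⟨h1, h2⟩]; rfl
    · rw [if_neg h3]; rfl
    · rw [if_neg (fun e => h3 (mem_sdiff.1 e).1)]; exact Nat.zero_le _
    · rw [if_neg h4]; exact Nat.zero_le _
  rcases digit_cases (dg p k) with h0 | h1 | ⟨l, hl⟩ | ⟨l, hl⟩
  · rw [h0, show kc M E 0 = 0 from rfl]
    by_cases hU : ν k ∈ U
    · by_cases hU' : ν k ∈ U'
      · refine ⟨3, by decide, ?_, ?_, ?_, ?_, ?_⟩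
        · rw [if_pos hU]; rfl
        · rw [if_neg (fun e => e.1 hU)]; rfl
        · rw [if_pos hU']; rfl
        · split_ifs
          · exact le_refl _
          · exact Nat.zero_le _
        · rw [if_neg (fun e => e.1 hU)]; exact Nat.zero_le _
      · refine ⟨2, by decide, ?_, ?_, ?_, ?_, ?_⟩
        · rw [if_pos hU]; rfl
        · rw [if_neg (fun e => e.1 hU)]; rfl
        · rw [if_neg hU']; rfl
        · rw [if_neg (fun e => hU' (mem_sdiff.1 e).1)]; exact Nat.zero_le _
        · rw [if_neg (fun e => e.1 hU)]; exact Nat.zero_le _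
    · by_cases h2 : nU G U (ν k) = 1
      · obtain ⟨x, hx, hr⟩ := hone hU h2
        rw [List.mem_singleton] at hx
        exact ⟨x, by rw [hx]; decide, hr⟩
      · refine ⟨6, by decide, ?_, ?_, ?_, ?_, ?_⟩
        · rw [if_neg hU]; rfl
        · rw [if_neg (fun e => h2 e.2)]; rfl
        · rw [if_neg (fun e => hU (hs e))]; rfl
        · rw [if_neg (fun e => hU (hs (mem_sdiff.1 e).1))]; exact Nat.zero_le _
        · split_ifs
          · exact le_refl _
          · exact Nat.zero_le _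
  · rw [h1, show kc M E 1 = 1 from rfl]
    obtain ⟨a1, a2⟩ := h.dead k hk h1
    refine hone a1 (card_eq_one.2 ⟨φ (k / 3), ?_⟩)
    rw [eq_singleton_iff_unique_mem]
    refine ⟨hmem, fun y hy => ?_⟩
    rw [mem_inter, SimpleGraph.mem_neighborFinset] at hy
    exact a2 y hy.2 hy.1
  · obtain ⟨a1, -, a3, -⟩ := h.dir k hk l hl
    have hln : l / 3 < n := by omega
    have hU : ν k ∈ U := a3 ▸ h.mem _ hln
    rw [hl, kc_dir]
    by_cases hb : M.testBit (l / 3) = true
    · have hU' : ν k ∉ U' := a3 ▸ (hM _ hln).1 hb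
      rw [hb, cond_true]
      refine ⟨2, by decide, ?_, ?_, ?_, ?_, ?_⟩
      · rw [if_pos hU]; rfl
      · rw [if_neg (fun e => e.1 hU)]; rfl
      · rw [if_neg hU']; rfl
      · rw [if_neg (fun e => hU' (mem_sdiff.1 e).1)]; exact Nat.zero_le _
      · rw [if_neg (fun e => e.1 hU)]; exact Nat.zero_le _
    · have hU' : ν k ∈ U' := by
        rw [a3]
        by_contra hc
        exact hb ((hM _ hln).2 hc)
      rw [Bool.not_eq_true] at hb
      rw [hb, cond_false]
      by_cases hc : E.testBit (l / 3) = true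
      · have hEE : ν k ∈ EE := a3 ▸ hE _ hln hc hb
        rw [hc, cond_true]
        refine ⟨4, by decide, ?_, ?_, ?_, ?_, ?_⟩
        · rw [if_pos hU]; rfl
        · rw [if_neg (fun e => e.1 hU)]; rfl
        · rw [if_pos hU']; rfl
        · rw [if_neg (fun e => (mem_sdiff.1 e).2 hEE)]; exact Nat.zero_le _
        · rw [if_neg (fun e => e.1 hU)]; exact Nat.zero_le _
      · rw [Bool.not_eq_true] at hc
        rw [hc, cond_false]
        refine ⟨3, by decide, ?_, ?_, ?_, ?_, ?_⟩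
        · rw [if_pos hU]; rfl
        · rw [if_neg (fun e => e.1 hU)]; rfl
        · rw [if_pos hU']; rfl
        · split_ifs
          · exact le_refl _
          · exact Nat.zero_le _
        · rw [if_neg (fun e => e.1 hU)]; exact Nat.zero_le _
  · obtain ⟨a1, a2, a3, a4, a5⟩ := h.lnk k hk l hl
    have hln : l / 3 < n := by omega
    have b1 := (h.adj l a1).symm
    rw [a5] at b1
    have b2 : φ (k / 3) ≠ φ (l / 3) := fun e => a3 (h.inj _ hkn _ hln e).symm
    have h2 : nU G U (ν k) ≠ 1 := by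
      intro e
      obtain ⟨a, ha⟩ := card_eq_one.1 e
      have h5 : φ (l / 3) ∈ G.neighborFinset (ν k) ∩ U :=
        mem_inter.2 ⟨(SimpleGraph.mem_neighborFinset _ _ _).2 b1, h.mem _ hln⟩
      rw [ha, mem_singleton] at h5 hmem
      exact b2 (hmem.trans h5.symm)
    have hno : φ (l / 3) ∉ U' \ EE → ¬ (ν k ∉ U ∧ (G.neighborFinset (ν k) ∩ (U' \ EE)).Nonempty) := by
      rintro hc ⟨-, y, hy⟩
      rw [mem_inter, SimpleGraph.mem_neighborFinset] at hy
      rcases hI.two a4 (h.mem (k / 3) hkn) (h.mem (l / 3) hln) b2 had b1 (hs (mem_sdiff.1 hy.2).1) hy.1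
        with e | e
      · rw [e] at hy; exact hkM (mem_sdiff.1 hy.2).1
      · rw [e] at hy; exact hc hy.2
    have h5 : φ (l / 3) ∉ U' \ EE → ∃ x ∈ opt 5, (if ν k ∈ U then 1 else 0) = ca x ∧
      (if ν k ∉ U ∧ nU G U (ν k) = 1 then 1 else 0) = cc x ∧ (if ν k ∈ U' then 1 else 0) = cs x ∧
      (if ν k ∈ U' \ EE then 1 else 0) ≤ ce x ∧
      (if ν k ∉ U ∧ (G.neighborFinset (ν k) ∩ (U' \ EE)).Nonempty then 1 else 0) ≤ cq x := by
      intro hc
      refine ⟨5, by decide, ?_, ?_, ?_, ?_, ?_⟩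
      · rw [if_neg a4]; rfl
      · rw [if_neg (fun e => h2 e.2)]; rfl
      · rw [if_neg (fun e => a4 (hs e))]; rfl
      · rw [if_neg (fun e => a4 (hs (mem_sdiff.1 e).1))]; exact Nat.zero_le _
      · rw [if_neg (hno hc)]; exact Nat.zero_le _
    rw [hl, kc_lnk]
    by_cases hb : M.testBit (l / 3) = true
    · rw [hb, cond_true]
      exact h5 fun e => (hM _ hln).1 hb (mem_sdiff.1 e).1
    · rw [Bool.not_eq_true] at hb
      rw [hb, cond_false]
      by_cases hc : E.testBit (l / 3) = true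
      · rw [hc, cond_true]
        exact h5 fun e => (mem_sdiff.1 e).2 (hE _ hln hc hb)
      · rw [Bool.not_eq_true] at hc
        rw [hc, cond_false]
        refine ⟨6, by decide, ?_, ?_, ?_, ?_, ?_⟩
        · rw [if_neg a4]; rfl
        · rw [if_neg (fun e => h2 e.2)]; rfl
        · rw [if_neg (fun e => a4 (hs e))]; rfl
        · rw [if_neg (fun e => a4 (hs (mem_sdiff.1 e).1))]; exact Nat.zero_le _
        · split_ifs
          · exact le_refl _
          · exact Nat.zero_le _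

theorem TF.hits_mono (w : TF) {e e' s q q' : ℕ} (h1 : e ≤ e') (h2 : q ≤ q') :
    e * w.hh s + q * w.h0 ≤ e' * w.hh s + q' * w.h0 :=
  Nat.add_le_add (Nat.mul_le_mul_right _ h1) (Nat.mul_le_mul_right _ h2)

/-- the value of a removed node is a lower bound -/
theorem Emb.kval_le (hG : G.IsRegularOfDegree 3) {w : TF} {OFF T : ℕ} (hT : TabK w OFF T)
    {U U' : Finset V} (hI : Inv G U) (hs : U' ⊆ U) {n p M E : ℕ} {φ ν : ℕ → V}
    (h : Emb G U n p φ ν) (hM : ∀ i < n, (M.testBit i = true ↔ φ i ∉ U')) {EE : Finset V}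
    (hE : ∀ i < n, E.testBit i = true → M.testBit i = false → φ i ∈ EE) {i : ℕ} (hi : i < n) (hiM : φ i ∉ U') :
    kval T p M E i + ((G.neighborFinset (φ i) ∩ (U' \ EE)).card * w.hh (nU G U' (φ i)) +
      ((G.neighborFinset (φ i) \ U).filter
        fun q => (G.neighborFinset q ∩ (U' \ EE)).Nonempty).card * w.h0) ≤
      w.F (nU G U (φ i)) (n1 G U (φ i)) + OFF := by
  classical
  have q0 : 3 * i / 3 = i := by omega
  have q1 : (3 * i + 1) / 3 = i := by omega
  have q2 : (3 * i + 2) / 3 = i := by omega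
  obtain ⟨x, hx, x1, x2, x3, x4, x5⟩ := h.kstat hI hs hM hE (k := 3 * i) (by omega) (by rw [q0]; exact hiM)
  obtain ⟨y, hy, y1, y2, y3, y4, y5⟩ := h.kstat hI hs hM hE (k := 3 * i + 1) (by omega)
    (by rw [q1]; exact hiM)
  obtain ⟨z, hz, z1, z2, z3, z4, z5⟩ := h.kstat hI hs hM hE (k := 3 * i + 2) (by omega)
    (by rw [q2]; exact hiM)
  have h1 := hT _ (kc_lt M E (dg p (3 * i))) _ (kc_lt M E (dg p (3 * i + 1))) _
    (kc_lt M E (dg p (3 * i + 2))) x hx y hy z hz
  have e1 : nU G U (φ i) = ca x + ca y + ca z := by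
    unfold nU
    rw [inter_eq_filter', h.card_filter hG hi, x1, y1, z1]
  have e2 : n1 G U (φ i) = cc x + cc y + cc z := by
    unfold n1
    rw [sdiff_eq_filter', filter_filter, h.card_filter hG hi, x2, y2, z2]
  have e3 : nU G U' (φ i) = cs x + cs y + cs z := by
    unfold nU
    rw [inter_eq_filter', h.card_filter hG hi, x3, y3, z3]
  have e4 : (G.neighborFinset (φ i) ∩ (U' \ EE)).card ≤ ce x + ce y + ce z := by
    rw [inter_eq_filter', h.card_filter hG hi]
    omega
  have e5 : ((G.neighborFinset (φ i) \ U).filter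
      fun q => (G.neighborFinset q ∩ (U' \ EE)).Nonempty).card ≤ cq x + cq y + cq z := by
    rw [sdiff_eq_filter' (G.neighborFinset (φ i)) U, filter_filter, h.card_filter hG hi]
    omega
  rw [kval_eq, e1, e2, e3]
  have h2 := w.hits_mono (s := cs x + cs y + cs z) e4 e5
  omega

/-! ### codes of the ports of a survivor -/

/-- open: 1, direct to a survivor: 4, else 0 -/
def os (M d : ℕ) : ℕ :=
  bif Nat.beq d 0 then 1 else bif isD d then (bif tb M (tg d) then 0 else 4) else 0

/-- the sum over the ports of the node `t` -/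
def osn (p M t : ℕ) : ℕ :=
  frc (Nat.mul 3 t) fun k => Nat.add (Nat.add (os M (dg p k)) (os M (dg p (Nat.add k 1))))
    (os M (dg p (Nat.add k 2)))

/-- the code of a port of a survivor -/
def ec (p M d : ℕ) : ℕ :=
  bif Nat.beq d 1 then 1 else
    frc (Nat.div (Nat.sub d 2) 6) fun t =>
      bif Nat.beq (Nat.mod d 2) 0 then
        (bif tb M t then frc (osn p M t) fun s => bif Nat.ble 8 s then 3 else bif Nat.beq s 4 then 4 else 5
          else 2)
      else (bif tb M t then 7 else 6)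

/-- live before -/
def ua (x : ℕ) : ℕ := if x = 2 ∨ x = 3 ∨ x = 4 then 1 else 0
/-- alone before -/
def uc (x : ℕ) : ℕ := if x = 1 then 1 else 0
/-- live after -/
def va (x : ℕ) : ℕ := if x = 2 then 1 else 0
/-- alone after -/
def vc (x : ℕ) : ℕ := if x = 1 ∨ x = 4 ∨ x = 7 then 1 else 0
/-- the possible codes -/
def oe (x : ℕ) : List ℕ := if x = 5 then [3, 4] else [x]

/-- the table of the survivors -/
def TabE (w : TF) (OFF T : ℕ) : Prop :=
  ∀ x < 8, ∀ y < 8, ∀ z < 8, x ≠ 0 → y ≠ 0 → z ≠ 0 → ∀ x' ∈ oe x, ∀ y' ∈ oe y, ∀ z' ∈ oe z,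
    w.F (va x' + va y' + va z') (vc x' + vc y' + vc z') + ent T (x + 8 * y + 64 * z) ≤
      w.F (ua x' + ua y' + ua z') (uc x' + uc y' + uc z') + OFF

/-- the value of a survivor -/
def eval' (T p M i : ℕ) : ℕ :=
  frc (Nat.mul 3 i) fun k =>
    ent T (Nat.add (Nat.add (ec p M (dg p k)) (Nat.mul 8 (ec p M (dg p (Nat.add k 1)))))
      (Nat.mul 64 (ec p M (dg p (Nat.add k 2)))))

theorem eval'_eq (T p M i : ℕ) : eval' T p M i =
    ent T (ec p M (dg p (3 * i)) + 8 * ec p M (dg p (3 * i + 1)) + 64 * ec p M (dg p (3 * i + 2))) := by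
  unfold eval'
  rw [frc_eq]
  rfl

theorem osn_eq (p M t : ℕ) : osn p M t = os M (dg p (3 * t)) + os M (dg p (3 * t + 1)) +
    os M (dg p (3 * t + 2)) := by
  unfold osn
  rw [frc_eq]
  rfl

theorem ec_dir (p M l : ℕ) : ec p M (2 + 2 * l) =
    bif M.testBit (l / 3) then (bif Nat.ble 8 (osn p M (l / 3)) then 3 else
      bif Nat.beq (osn p M (l / 3)) 4 then 4 else 5) else 2 := by
  unfold ec
  have h2 : Nat.beq (2 + 2 * l) 1 = false := by rw [Bool.eq_false_iff, Ne, Nat.beq_eq]; omega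
  have h3 : Nat.div (Nat.sub (2 + 2 * l) 2) 6 = l / 3 := by
    show (2 + 2 * l - 2) / 6 = l / 3
    omega
  have h4 : Nat.mod (2 + 2 * l) 2 = 0 := by
    show (2 + 2 * l) % 2 = 0
    omega
  rw [h2, frc_eq, h3, h4, tb_eq, frc_eq]
  rfl

theorem ec_lnk (p M l : ℕ) : ec p M (3 + 2 * l) = bif M.testBit (l / 3) then 7 else 6 := by
  unfold ec
  have h2 : Nat.beq (3 + 2 * l) 1 = false := by rw [Bool.eq_false_iff, Ne, Nat.beq_eq]; omega
  have h3 : Nat.div (Nat.sub (3 + 2 * l) 2) 6 = l / 3 := by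
    show (3 + 2 * l - 2) / 6 = l / 3
    omega
  have h4 : Nat.mod (3 + 2 * l) 2 = 1 := by
    show (3 + 2 * l) % 2 = 1
    omega
  rw [h2, frc_eq, h3, h4, tb_eq]
  rfl

theorem ec_ok {p M d : ℕ} (h : d ≠ 0) : ec p M d < 8 ∧ ec p M d ≠ 0 := by
  rcases digit_cases d with rfl | rfl | ⟨l, rfl⟩ | ⟨l, rfl⟩
  · exact absurd rfl h
  · exact ⟨(by decide : (1 : ℕ) < 8), (by decide : (1 : ℕ) ≠ 0)⟩
  · rw [ec_dir]
    cases M.testBit (l / 3) <;> cases Nat.ble 8 (osn p M (l / 3)) <;>
      cases Nat.beq (osn p M (l / 3)) 4 <;> decide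
  · rw [ec_lnk]
    cases M.testBit (l / 3) <;> decide

/-- the surviving neighbours of a removed node, by `osn` -/
theorem Emb.osn_le {U U' : Finset V} (hs : U' ⊆ U) {n p M : ℕ} {φ ν : ℕ → V}
    (h : Emb G U n p φ ν) (hM : ∀ i < n, (M.testBit i = true ↔ φ i ∉ U')) {k : ℕ} (hk : k < 3 * n) :
    4 * (if ν k ∈ U' then 1 else 0) ≤ os M (dg p k) + 3 * (if dg p k = 0 then 1 else 0) ∧
      os M (dg p k) ≤ 4 * (if ν k ∈ U' then 1 else 0) + (if dg p k = 0 then 1 else 0) := by
  rcases digit_cases (dg p k) with h0 | h1 | ⟨l, hl⟩ | ⟨l, hl⟩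
  · rw [h0]
    have : os M 0 = 1 := rfl
    rw [this]
    split_ifs <;> omega
  · rw [h1, if_neg (fun e => (h.dead k hk h1).1 (hs e))]
    have : os M 1 = 0 := rfl
    rw [this]
    omega
  · obtain ⟨a1, -, a3, -⟩ := h.dir k hk l hl
    have h3 : Nat.beq (dg p k) 0 = false := by rw [Bool.eq_false_iff, Ne, Nat.beq_eq]; omega
    have e : os M (dg p k) = bif M.testBit (l / 3) then 0 else 4 := by
      unfold os
      rw [h3, cond_false, isD_iff.2 ⟨l, hl⟩, cond_true, hl, tg_dir, tb_eq]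
    rw [e]
    by_cases hb : M.testBit (l / 3) = true
    · rw [hb, cond_true, if_neg (a3 ▸ (hM _ (by omega)).1 hb)]
      omega
    · have hU' : ν k ∈ U' := by
        rw [a3]
        by_contra hc
        exact hb ((hM _ (by omega)).2 hc)
      rw [Bool.not_eq_true] at hb
      rw [hb, cond_false, if_pos hU']
      omega
  · have h3 : Nat.beq (dg p k) 0 = false := by rw [Bool.eq_false_iff, Ne, Nat.beq_eq]; omega
    have h4 : isD (dg p k) = false := by
      rw [Bool.eq_false_iff]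
      intro e
      obtain ⟨l', h'⟩ := isD_iff.1 e
      omega
    have e : os M (dg p k) = 0 := by
      unfold os
      rw [h3, cond_false, h4, cond_false]
    rw [e, if_neg (fun e => (h.lnk k hk l hl).2.2.2.1 (hs e))]
    omega

theorem Emb.nU_node (hG : G.IsRegularOfDegree 3) {U : Finset V} (W : Finset V) {n p : ℕ} {φ ν : ℕ → V}
    (h : Emb G U n p φ ν) {i : ℕ} (hi : i < n) : nU G W (φ i) = (if ν (3 * i) ∈ W then 1 else 0) +
      (if ν (3 * i + 1) ∈ W then 1 else 0) + (if ν (3 * i + 2) ∈ W then 1 else 0) := by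
  unfold nU
  rw [inter_eq_filter', h.card_filter hG hi]

/-- the status of a port of a survivor -/
theorem Emb.estat (hG : G.IsRegularOfDegree 3) {U U' : Finset V} (hI : Inv G U) (hI' : Inv G U')
    (hs : U' ⊆ U) {n p M : ℕ} {φ ν : ℕ → V} (h : Emb G U n p φ ν)
    (hM : ∀ i < n, (M.testBit i = true ↔ φ i ∉ U')) {k : ℕ} (hk : k < 3 * n) (hd : dg p k ≠ 0)
    (hkM : φ (k / 3) ∈ U') :
    ∃ x ∈ oe (ec p M (dg p k)), (if ν k ∈ U then 1 else 0) = ua x ∧
      (if ν k ∉ U ∧ nU G U (ν k) = 1 then 1 else 0) = uc x ∧ (if ν k ∈ U' then 1 else 0) = va x ∧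
      (if ν k ∉ U' ∧ nU G U' (ν k) = 1 then 1 else 0) = vc x := by
  have hkn : k / 3 < n := by omega
  have had := (h.adj k hk).symm
  have hmem : φ (k / 3) ∈ G.neighborFinset (ν k) ∩ U :=
    mem_inter.2 ⟨(SimpleGraph.mem_neighborFinset _ _ _).2 had, h.mem _ hkn⟩
  have hmem' : φ (k / 3) ∈ G.neighborFinset (ν k) ∩ U' :=
    mem_inter.2 ⟨(SimpleGraph.mem_neighborFinset _ _ _).2 had, hkM⟩
  have hpos : 1 ≤ nU G U' (ν k) := card_pos.2 ⟨_, hmem'⟩
  rcases digit_cases (dg p k) with h0 | h1 | ⟨l, hl⟩ | ⟨l, hl⟩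
  · exact absurd h0 hd
  · rw [h1, show ec p M 1 = 1 from rfl]
    obtain ⟨a1, a2⟩ := h.dead k hk h1
    have h2 : nU G U (ν k) = 1 := by
      refine card_eq_one.2 ⟨φ (k / 3), ?_⟩
      rw [eq_singleton_iff_unique_mem]
      refine ⟨hmem, fun y hy => ?_⟩
      rw [mem_inter, SimpleGraph.mem_neighborFinset] at hy
      exact a2 y hy.2 hy.1
    have h3 := nU_mono (G := G) hs (ν k)
    refine ⟨1, by decide, ?_, ?_, ?_, ?_⟩
    · rw [if_neg a1]; rfl
    · rw [if_pos ⟨a1, h2⟩]; rfl
    · rw [if_neg (fun e => a1 (hs e))]; rfl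
    · rw [if_pos ⟨fun e => a1 (hs e), by omega⟩]; rfl
  · obtain ⟨a1, a2, a3, a4⟩ := h.dir k hk l hl
    have hln : l / 3 < n := by omega
    have hU : ν k ∈ U := a3 ▸ h.mem _ hln
    rw [hl, ec_dir]
    by_cases hb : M.testBit (l / 3) = true
    swap
    · have hU' : ν k ∈ U' := by
        rw [a3]
        by_contra hc
        exact hb ((hM _ hln).2 hc)
      rw [Bool.not_eq_true] at hb
      rw [hb, cond_false]
      refine ⟨2, by decide, ?_, ?_, ?_, ?_⟩
      · rw [if_pos hU]; rfl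
      · rw [if_neg (fun e => e.1 hU)]; rfl
      · rw [if_pos hU']; rfl
      · rw [if_neg (fun e => e.1 hU')]; rfl
    have hU' : ν k ∉ U' := a3 ▸ (hM _ hln).1 hb
    rw [hb, cond_true]
    have h3 : ∃ x ∈ [3], (if ν k ∈ U then 1 else 0) = ua x ∧
      (if ν k ∉ U ∧ nU G U (ν k) = 1 then 1 else 0) = uc x ∧ (if ν k ∈ U' then 1 else 0) = va x ∧
      (nU G U' (ν k) ≠ 1 → (if ν k ∉ U' ∧ nU G U' (ν k) = 1 then 1 else 0) = vc x) := by
      refine ⟨3, by decide, ?_, ?_, ?_, fun h4 => ?_⟩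
      · rw [if_pos hU]; rfl
      · rw [if_neg (fun e => e.1 hU)]; rfl
      · rw [if_neg hU']; rfl
      · rw [if_neg (fun e => h4 e.2)]; rfl
    have h4 : ∃ x ∈ [4], (if ν k ∈ U then 1 else 0) = ua x ∧
      (if ν k ∉ U ∧ nU G U (ν k) = 1 then 1 else 0) = uc x ∧ (if ν k ∈ U' then 1 else 0) = va x ∧
      (nU G U' (ν k) = 1 → (if ν k ∉ U' ∧ nU G U' (ν k) = 1 then 1 else 0) = vc x) := by
      refine ⟨4, by decide, ?_, ?_, ?_, fun h4 => ?_⟩
      · rw [if_pos hU]; rfl
      · rw [if_neg (fun e => e.1 hU)]; rfl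
      · rw [if_neg hU']; rfl
      · rw [if_pos ⟨hU', h4⟩]; rfl
    obtain ⟨x3, m3, r31, r32, r33, r34⟩ := h3
    obtain ⟨x4, m4, r41, r42, r43, r44⟩ := h4
    rw [List.mem_singleton] at m3 m4
    have hle : nU G U' (ν k) ≤ 2 :=
      (card_le_card (inter_subset_inter_right (fun z hz => mem_cn.2 (Or.inr
        ((SimpleGraph.mem_neighborFinset _ _ _).1 hz))))).trans (hI' _ hU')
    -- the number of surviving neighbours
    have hn := h.nU_node hG U' hln
    rw [← a3] at hn
    have b0 := h.osn_le hs hM (k := 3 * (l / 3)) (by omega)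
    have b1 := h.osn_le hs hM (k := 3 * (l / 3) + 1) (by omega)
    have b2 := h.osn_le hs hM (k := 3 * (l / 3) + 2) (by omega)
    have hos := osn_eq p M (l / 3)
    cases hc8 : Nat.ble 8 (osn p M (l / 3)) with
    | true =>
      rw [cond_true]
      rw [Nat.ble_eq] at hc8
      have h5 : nU G U' (ν k) ≠ 1 := by
        intro e
        rw [e] at hn
        have g0 : (if dg p (3 * (l / 3)) = 0 then 1 else 0) ≤ 1 := by split_ifs <;> omega
        have g1 : (if dg p (3 * (l / 3) + 1) = 0 then 1 else 0) ≤ 1 := by split_ifs <;> omega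
        have g2 : (if dg p (3 * (l / 3) + 2) = 0 then 1 else 0) ≤ 1 := by split_ifs <;> omega
        omega
      exact ⟨x3, by rw [m3]; decide, r31, r32, r33, r34 h5⟩
    | false =>
      rw [cond_false]
      cases hc4 : Nat.beq (osn p M (l / 3)) 4 with
      | true =>
        rw [cond_true]
        rw [Nat.beq_eq] at hc4
        have h5 : nU G U' (ν k) = 1 := by
          -- the port `l` is direct to a survivor
          have hl4 : os M (dg p l) = 4 := by
            have h6 : Nat.beq (dg p l) 0 = false := by rw [Bool.eq_false_iff, Ne, Nat.beq_eq]; omega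
            unfold os
            rw [h6, cond_false, isD_iff.2 ⟨k, a2⟩, cond_true, a2, tg_dir, tb_eq]
            have h7 : M.testBit (k / 3) = false := by
              rw [Bool.eq_false_iff]
              intro e
              exact (hM _ hkn).1 e hkM
            rw [h7, cond_false]
          have hz : ∀ j, j / 3 = l / 3 → dg p j ≠ 0 := by
            intro j hj e0
            have hne : l ≠ j := by
              rintro rfl
              rw [e0] at a2
              omega
            have g1 : os M (dg p j) = 1 := by rw [e0]; rfl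
            rcases port_cases (k := l) (i := l / 3) rfl with e | e | e <;>
            rcases port_cases (k := j) (i := l / 3) hj with e' | e' | e' <;>
            (rw [e] at hl4; rw [e'] at g1; omega)
          rw [if_neg (hz _ (by omega))] at b0 b1 b2
          omega
        exact ⟨x4, by rw [m4]; decide, r41, r42, r43, r44 h5⟩
      | false =>
        rw [cond_false]
        rcases (by omega : nU G U' (ν k) = 1 ∨ nU G U' (ν k) ≠ 1) with h5 | h5
        · exact ⟨x4, by rw [m4]; decide, r41, r42, r43, r44 h5⟩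
        · exact ⟨x3, by rw [m3]; decide, r31, r32, r33, r34 h5⟩
  · obtain ⟨a1, a2, a3, a4, a5⟩ := h.lnk k hk l hl
    have hln : l / 3 < n := by omega
    have b1 := (h.adj l a1).symm
    rw [a5] at b1
    have b2 : φ (k / 3) ≠ φ (l / 3) := fun e => a3 (h.inj _ hkn _ hln e).symm
    have h2 : nU G U (ν k) ≠ 1 := by
      intro e
      obtain ⟨a, ha⟩ := card_eq_one.1 e
      have h5 : φ (l / 3) ∈ G.neighborFinset (ν k) ∩ U :=
        mem_inter.2 ⟨(SimpleGraph.mem_neighborFinset _ _ _).2 b1, h.mem _ hln⟩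
      rw [ha, mem_singleton] at h5 hmem
      exact b2 (hmem.trans h5.symm)
    rw [hl, ec_lnk]
    by_cases hb : M.testBit (l / 3) = true
    · rw [hb, cond_true]
      have h3 : nU G U' (ν k) = 1 := by
        refine card_eq_one.2 ⟨φ (k / 3), ?_⟩
        rw [eq_singleton_iff_unique_mem]
        refine ⟨hmem', fun y hy => ?_⟩
        rw [mem_inter, SimpleGraph.mem_neighborFinset] at hy
        rcases hI.two a4 (h.mem (k / 3) hkn) (h.mem (l / 3) hln) b2 had b1 (hs hy.2) hy.1 with e | e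
        · exact e
        · exact absurd (e ▸ hy.2) ((hM _ hln).1 hb)
      refine ⟨7, by decide, ?_, ?_, ?_, ?_⟩
      · rw [if_neg a4]; rfl
      · rw [if_neg (fun e => h2 e.2)]; rfl
      · rw [if_neg (fun e => a4 (hs e))]; rfl
      · rw [if_pos ⟨fun e => a4 (hs e), h3⟩]; rfl
    · have hU' : φ (l / 3) ∈ U' := by
        by_contra hc
        exact hb ((hM _ hln).2 hc)
      have h3 : nU G U' (ν k) ≠ 1 := by
        intro e
        obtain ⟨a, ha⟩ := card_eq_one.1 e
        have h5 : φ (l / 3) ∈ G.neighborFinset (ν k) ∩ U' :=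
          mem_inter.2 ⟨(SimpleGraph.mem_neighborFinset _ _ _).2 b1, hU'⟩
        rw [ha, mem_singleton] at h5 hmem'
        exact b2 (hmem'.trans h5.symm)
      rw [Bool.not_eq_true] at hb
      rw [hb, cond_false]
      refine ⟨6, by decide, ?_, ?_, ?_, ?_⟩
      · rw [if_neg a4]; rfl
      · rw [if_neg (fun e => h2 e.2)]; rfl
      · rw [if_neg (fun e => a4 (hs e))]; rfl
      · rw [if_neg (fun e => h3 e.2)]; rfl

/-- the value of a survivor is a lower bound -/
theorem Emb.eval_le (hG : G.IsRegularOfDegree 3) {w : TF} {OFF T : ℕ} (hT : TabE w OFF T)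
    {U U' : Finset V} (hI : Inv G U) (hI' : Inv G U') (hs : U' ⊆ U) {n p M : ℕ} {φ ν : ℕ → V}
    (h : Emb G U n p φ ν) (hM : ∀ i < n, (M.testBit i = true ↔ φ i ∉ U')) {i : ℕ} (hi : i < n)
    (hf : full p i = true) (hiM : φ i ∈ U') :
    w.F (nU G U' (φ i)) (n1 G U' (φ i)) + eval' T p M i ≤ w.F (nU G U (φ i)) (n1 G U (φ i)) + OFF := by
  classical
  have q0 : 3 * i / 3 = i := by omega
  have q1 : (3 * i + 1) / 3 = i := by omega
  have q2 : (3 * i + 2) / 3 = i := by omega
  have f0 := full_iff.1 hf _ q0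
  have f1 := full_iff.1 hf _ q1
  have f2 := full_iff.1 hf _ q2
  obtain ⟨x, hx, x1, x2, x3, x4⟩ := h.estat hG hI hI' hs hM (k := 3 * i) (by omega) f0
    (by rw [q0]; exact hiM)
  obtain ⟨y, hy, y1, y2, y3, y4⟩ := h.estat hG hI hI' hs hM (k := 3 * i + 1) (by omega) f1
    (by rw [q1]; exact hiM)
  obtain ⟨z, hz, z1, z2, z3, z4⟩ := h.estat hG hI hI' hs hM (k := 3 * i + 2) (by omega) f2
    (by rw [q2]; exact hiM)
  have h1 := hT _ (ec_ok f0).1 _ (ec_ok f1).1 _ (ec_ok f2).1 (ec_ok f0).2 (ec_ok f1).2 (ec_ok f2).2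
    x hx y hy z hz
  have e1 : nU G U (φ i) = ua x + ua y + ua z := by
    rw [h.nU_node hG U hi, x1, y1, z1]
  have e2 : n1 G U (φ i) = uc x + uc y + uc z := by
    unfold n1
    rw [sdiff_eq_filter', filter_filter, h.card_filter hG hi, x2, y2, z2]
  have e3 : nU G U' (φ i) = va x + va y + va z := by
    rw [h.nU_node hG U' hi, x3, y3, z3]
  have e4 : n1 G U' (φ i) = vc x + vc y + vc z := by
    unfold n1
    rw [sdiff_eq_filter', filter_filter, h.card_filter hG hi, x4, y4, z4]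
  rw [eval'_eq, e1, e2, e3, e4]
  exact h1

end EF18
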