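import Pool.Agent.Lib.MP_ef18bd_co.P.TypB

/-!
# The leaf test for potentials by types, the theorem

`tlf`: a list of closed nodes, picked one after the other; the sum of the values of the removed nodes and
of the nodes of the mask `E` is compared with the price of the picks.
-/

namespace EF18

open Finset

variable {V : Type} [Fintype V] [DecidableEq V] {G : SimpleGraph V} [DecidableRel G.Adj]

/-- `f i` for all `i < n` -/
def al (f : ℕ → Bool) (n : ℕ) : Bool := Nat.rec (motive := fun _ => Bool) true (fun i r => f i && r) n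

theorem al_of {f : ℕ → Bool} : ∀ {n i : ℕ}, al f n = true → i < n → f i = true := by
  intro n
  induction n with
  | zero => intro i _ hi; omega
  | succ n ih =>
    intro i h hi
    have h' : (f n && al f n) = true := h
    rw [Bool.and_eq_true] at h'
    rcases Nat.lt_succ_iff_lt_or_eq.1 hi with h1 | rfl
    · exact ih h'.2 h1
    · exact h'.1

/-- the comparison -/
def fin' (P O T TE n p M E c : ℕ) : Bool :=
  al (fun i => bif tb E i then (tb M i || full p i) else true) n &&
    Nat.ble (Nat.add (Nat.mul P c) (Nat.mul O (frc (Nat.lor M E) fun Z =>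
      sm (fun i => bif tb Z i then 1 else 0) n)))
      (sm (fun i => bif tb M i then kval T p M E i else bif tb E i then eval' TE p M i else 0) n)

/-- the test: picks still to do, mask of the removed nodes, number of picks -/
def tlf (P O T TE n p E : ℕ) : List ℕ → ℕ → ℕ → Bool
  | [], M, c => fin' P O T TE n p M E c
  | x :: L, M, c => Nat.ble (Nat.succ x) n && closed p x && !tb M x &&
      frc (Nat.lor M (ball p x)) fun M' => tlf P O T TE n p E L M' (Nat.succ c)

theorem rem_append {A B : List V} : ∀ {U : Finset V}, rem G U (A ++ B) = rem G (rem G U A) B := by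
  induction A with
  | nil => intro U; rfl
  | cons v A ih => intro U; exact ih

theorem picks_append {A B : List V} : ∀ {U : Finset V}, Picks G U A → Picks G (rem G U A) B →
    Picks G U (A ++ B) := by
  induction A with
  | nil => intro U _ h; exact h
  | cons v A ih => intro U h1 h2; exact ⟨h1.1, ih h1.2 h2⟩

/-- a good list of picks -/
def GoodT (w : TF) (P : ℕ) (G : SimpleGraph V) [DecidableRel G.Adj] (U : Finset V) (c : ℕ) : Prop :=
  ∃ X : List V, X.length = c ∧ Picks G U X ∧ PsiT w G (rem G U X) + P * X.length ≤ PsiT w G U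

theorem Emb.fin_le (hG : G.IsRegularOfDegree 3) {w : TF} {P O T TE : ℕ} (hT : TabK w O T)
    (hTE : TabE w O TE) {U U' : Finset V} (hI : Inv G U) (hI' : Inv G U') (hs : U' ⊆ U) {n p M E c : ℕ}
    {φ ν : ℕ → V} (h : Emb G U n p φ ν) (hM : ∀ i < n, (M.testBit i = true ↔ φ i ∉ U'))
    (hK : ∀ y ∈ U, y ∉ U' → ∃ i < n, φ i = y) (ht : fin' P O T TE n p M E c = true) :
    PsiT w G U' + P * c ≤ PsiT w G U := by
  classical
  unfold fin' at ht
  rw [Bool.and_eq_true, Nat.ble_eq, frc_eq, sm_eq, sm_eq] at ht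
  obtain ⟨ht1, ht2⟩ := ht
  obtain ⟨A, hA⟩ : ∃ A, A = (range n).filter (fun i => M.testBit i = true) := ⟨_, rfl⟩
  obtain ⟨B, hB⟩ : ∃ B, B = (range n).filter (fun i => E.testBit i = true ∧ M.testBit i = false) :=
    ⟨_, rfl⟩
  have mA : ∀ i, i ∈ A ↔ i < n ∧ M.testBit i = true := fun i => by rw [hA, mem_filter, mem_range]
  have mB : ∀ i, i ∈ B ↔ i < n ∧ E.testBit i = true ∧ M.testBit i = false := fun i => by
    rw [hB, mem_filter, mem_range]
  -- the removed vertices
  have hKA : U \ U' = A.image φ := by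
    ext y
    rw [mem_sdiff, mem_image]
    constructor
    · rintro ⟨h1, h2⟩
      obtain ⟨i, hi, rfl⟩ := hK y h1 h2
      exact ⟨i, (mA i).2 ⟨hi, (hM i hi).2 h2⟩, rfl⟩
    · rintro ⟨i, hi, rfl⟩
      obtain ⟨h1, h2⟩ := (mA i).1 hi
      exact ⟨h.mem i h1, (hM i h1).1 h2⟩
  have hBU : B.image φ ⊆ U' := by
    intro y hy
    obtain ⟨i, hi, rfl⟩ := mem_image.1 hy
    obtain ⟨h1, h2, h3⟩ := (mB i).1 hi
    by_contra hc
    rw [(hM i h1).2 hc] at h3
    exact absurd h3 (by simp)
  have hEE : ∀ i < n, E.testBit i = true → M.testBit i = false → φ i ∈ B.image φ := fun i h1 h2 h3 =>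
    mem_image.2 ⟨i, (mB i).2 ⟨h1, h2, h3⟩, rfl⟩
  have injA : ∀ i ∈ A, ∀ j ∈ A, φ i = φ j → i = j := fun i hi j hj e =>
    h.inj i ((mA i).1 hi).1 j ((mA j).1 hj).1 e
  have injB : ∀ i ∈ B, ∀ j ∈ B, φ i = φ j → i = j := fun i hi j hj e =>
    h.inj i ((mB i).1 hi).1 j ((mB j).1 hj).1 e
  -- the inverse
  obtain ⟨iv, hiv⟩ : ∃ iv : V → ℕ, ∀ i < n, iv (φ i) = i := by
    refine ⟨fun x => if hx : ∃ i, i < n ∧ φ i = x then Classical.choose hx else 0, fun i hi => ?_⟩
    have hx : ∃ j, j < n ∧ φ j = φ i := ⟨i, hi, rfl⟩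
    beta_reduce
    rw [dif_pos hx]
    exact h.inj _ (Classical.choose_spec hx).1 _ hi (Classical.choose_spec hx).2
  have h1 := drop_typ w hG hs hI' hBU (fun _ => O) (fun x => eval' TE p M (iv x)) (fun x hx => by
    obtain ⟨i, hi, rfl⟩ := mem_image.1 hx
    obtain ⟨h1, h2, h3⟩ := (mB i).1 hi
    beta_reduce
    rw [hiv i h1]
    refine h.eval_le hG hTE hI hI' hs hM h1 ?_ (hBU hx)
    have h4 := al_of ht1 h1
    rw [tb_eq, tb_eq, h2, h3] at h4
    exact h4)
  rw [hKA, sum_image injA, sum_image injA, sum_image injB, sum_const, card_image_of_injOn injB] at h1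
  have h2 : ∑ i ∈ B, eval' TE p M (iv (φ i)) = ∑ i ∈ B, eval' TE p M i :=
    sum_congr rfl fun i hi => by rw [hiv i ((mB i).1 hi).1]
  rw [h2] at h1
  have h3 := sum_le_sum (s := A) fun i hi => h.kval_le hG hT hI hs hM hEE ((mA i).1 hi).1
    ((hM i ((mA i).1 hi).1).1 ((mA i).1 hi).2)
  have h4 : ∑ i ∈ range n, (bif tb M i then kval T p M E i else bif tb E i then eval' TE p M i else 0) =
      ∑ i ∈ A, kval T p M E i + ∑ i ∈ B, eval' TE p M i := by
    rw [hA, hB, sum_filter, sum_filter, ← sum_add_distrib]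
    refine sum_congr rfl fun i _ => ?_
    rw [tb_eq, tb_eq]
    cases M.testBit i <;> cases E.testBit i <;> simp
  have h5 : ∑ i ∈ range n, (bif tb (Nat.lor M E) i then 1 else 0) = A.card + B.card := by
    rw [hA, hB, Finset.card_filter, Finset.card_filter, ← sum_add_distrib]
    refine sum_congr rfl fun i _ => ?_
    rw [tb_eq, show Nat.lor M E = M ||| E from rfl, Nat.testBit_or]
    cases M.testBit i <;> cases E.testBit i <;> simp
  rw [h4, h5] at ht2
  have h6 : Nat.add (Nat.mul P c) (Nat.mul O (A.card + B.card)) = P * c + (A.card * O + B.card * O) := by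
    show P * c + O * (A.card + B.card) = _
    ring
  rw [h6] at ht2
  simp only [sum_add_distrib, sum_const, smul_eq_mul] at h1 h3
  omega

theorem Emb.tlf_good (hG : G.IsRegularOfDegree 3) {w : TF} {P O T TE : ℕ} (hT : TabK w O T)
    (hTE : TabE w O TE) {U : Finset V} (hI : Inv G U) {n p E : ℕ} {φ ν : ℕ → V} (h : Emb G U n p φ ν) :
    ∀ (L : List ℕ) (M : ℕ) (X : List V), Picks G U X →
      (∀ i < n, (M.testBit i = true ↔ φ i ∉ rem G U X)) →
      (∀ y ∈ U, y ∉ rem G U X → ∃ i < n, φ i = y) → tlf P O T TE n p E L M X.length = true →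
      GoodT w P G U (X.length + L.length) := by
  intro L
  induction L with
  | nil =>
    intro M X hP hM hK ht
    exact ⟨X, rfl, hP, h.fin_le hG hT hTE hI (hI.rem hG) rem_subset hM hK ht⟩
  | cons x L ih =>
    intro M X hP hM hK ht
    rw [tlf, frc_eq, Bool.and_eq_true, Bool.and_eq_true, Bool.and_eq_true, Nat.ble_eq, tb_eq,
      Bool.not_eq_true'] at ht
    obtain ⟨⟨⟨t1, t2⟩, t3⟩, t4⟩ := ht
    have hxn : x < n := t1
    have hxU : φ x ∈ rem G U X := by
      by_contra hc
      rw [(hM x hxn).2 hc] at t3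
      exact absurd t3 (by simp)
    have e0 : rem G U (X ++ [φ x]) = rem G U X \ B2 G (φ x) := by
      rw [rem_append]
      rfl
    have key : ∀ y ∈ U, y ∉ rem G U (X ++ [φ x]) ↔ y ∉ rem G U X ∨ y ∈ B2 G (φ x) := by
      intro y _
      rw [e0, mem_sdiff]
      tauto
    have e1 : X.length + (x :: L).length = (X ++ [φ x]).length + L.length := by
      simp only [List.length_cons, List.length_append, List.length_nil]
      omega
    rw [e1]
    refine ih (Nat.lor M (ball p x)) (X ++ [φ x]) (picks_append hP ⟨hxU, trivial⟩) ?_ ?_ ?_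
    · intro i hi
      rw [key _ (h.mem i hi), show Nat.lor M (ball p x) = M ||| ball p x from rfl, Nat.testBit_or,
        Bool.or_eq_true, hM i hi, h.mem_ball hG hI hxn t2 (h.mem i hi)]
      constructor
      · rintro (h1 | h1)
        · exact Or.inl h1
        · exact Or.inr ⟨i, hi, rfl, h1⟩
      · rintro (h1 | ⟨t, ht, he, hb⟩)
        · exact Or.inl h1
        · rw [h.inj t ht i hi he] at hb
          exact Or.inr hb
    · intro y hy hyn
      rcases (key y hy).1 hyn with h1 | h1
      · exact hK y hy h1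
      · obtain ⟨t, ht, he, -⟩ := (h.mem_ball hG hI hxn t2 hy).1 h1
        exact ⟨t, ht, he⟩
    · rw [List.length_append, List.length_singleton]
      exact t4

/-- **the leaf test** -/
theorem Emb.typ_leaf (hG : G.IsRegularOfDegree 3) {w : TF} {P O T TE : ℕ} (hT : TabK w O T)
    (hTE : TabE w O TE) {U : Finset V} (hI : Inv G U) {n p E : ℕ} {φ ν : ℕ → V} (h : Emb G U n p φ ν)
    {L : List ℕ} (ht : tlf P O T TE n p E L 0 0 = true) : GoodT w P G U L.length := by
  have h1 := h.tlf_good hG hT hTE hI (E := E) L 0 [] trivial (fun i hi => by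
    rw [Nat.zero_testBit]
    constructor
    · intro e; exact absurd e (by simp)
    · intro e; exact absurd (h.mem i hi) e) (fun y hy hyn => absurd hy hyn) ht
  rwa [List.length_nil, Nat.zero_add] at h1

end EF18
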