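import Pool.Agent.Lib.MP_ef18bd_co.P.TypC
import Pool.Agent.Lib.MP_ef18bd_co.P.Fr2

/-!
# The leaf test for potentials by types, with the charge for created exceptional components

The Boolean test is the one of `TypC.lean`; the table of the removed nodes contains the charge `e2` of
a removed node with two surviving neighbours and the charge `e1` of a removed node with one surviving
neighbour and of a link to a survivor (`TabKX`). `e1 = 0` if the exceptional components have no lonely
outer vertices.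
-/

namespace EF18

open Finset

variable {V : Type} [Fintype V] [DecidableEq V] {G : SimpleGraph V} [DecidableRel G.Adj]

/-- shared outside vertex, or unknown survivor there -/
def cl (x : ℕ) : ℕ := if x = 5 ∨ x = 6 then 1 else 0

/-- the table of the removed nodes, with the charges -/
def TabKX (w : TF) (e2 e1 OFF T : ℕ) : Prop :=
  ∀ x < 7, ∀ y < 7, ∀ z < 7, ∀ x' ∈ opt x, ∀ y' ∈ opt y, ∀ z' ∈ opt z,
    ent T (x + 7 * y + 49 * z) + ((ce x' + ce y' + ce z') * w.hh (cs x' + cs y' + cs z') +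
      (cq x' + cq y' + cq z') * w.h0) + (ch e2 e1 (cs x' + cs y' + cs z') + (cl x' + cl y' + cl z') * e1) ≤
        w.F (ca x' + ca y' + ca z') (cc x' + cc y' + cc z') + OFF

theorem cl_ge {c x : ℕ} (hc : c < 7) (hx : x ∈ opt c) (h1 : ca x = 0) (h2 : cc x = 0) : cl x = 1 := by
  have h3 : x = 1 ∨ x = 2 ∨ x = 3 ∨ x = 6 ∨ x = c ∧ c ≠ 0 := by
    unfold opt at hx
    split_ifs at hx with h
    · simp only [List.mem_cons, List.not_mem_nil, or_false] at hx
      omega
    · rw [List.mem_singleton] at hx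
      omega
  unfold ca at h1
  unfold cc at h2
  unfold cl
  split_ifs at h1 h2 ⊢ with a1 a2 a3
  · rfl
  · omega

/-- the conditions on the deficits -/
structure DefOK (G : SimpleGraph V) [DecidableRel G.Adj] (d : Finset V → ℕ) (e2 e1 : ℕ) : Prop where
  two : ∀ (C : Finset V) (p : V), p ∉ C → nU G C p = 2 → d C ≤ e2
  one : ∀ (C : Finset V) (p : V), p ∉ C → nU G C p = 1 → d C ≤ e1

/-- the value of a removed node is a lower bound -/
theorem Emb.kvalX_le (hG : G.IsRegularOfDegree 3) {w : TF} {q2 q1 OFF T : ℕ} (hT : TabKX w q2 q1 OFF T)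
    {U U' : Finset V} (hI : Inv G U) (hs : U' ⊆ U) {n p M E : ℕ} {φ ν : ℕ → V}
    (h : Emb G U n p φ ν) (hM : ∀ i < n, (M.testBit i = true ↔ φ i ∉ U')) {EE : Finset V}
    (hE : ∀ i < n, E.testBit i = true → M.testBit i = false → φ i ∈ EE) {i : ℕ} (hi : i < n) (hiM : φ i ∉ U') :
    kval T p M E i + ((G.neighborFinset (φ i) ∩ (U' \ EE)).card * w.hh (nU G U' (φ i)) +
      ((G.neighborFinset (φ i) \ U).filter
        fun q => (G.neighborFinset q ∩ (U' \ EE)).Nonempty).card * w.h0) + (ch q2 q1 (nU G U' (φ i)) +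
      ((G.neighborFinset (φ i) \ U).filter
        fun q => (G.neighborFinset q ∩ U').Nonempty).card * q1) ≤
      w.F (nU G U (φ i)) (n1 G U (φ i)) + OFF := by
  classical
  have q0 : 3 * i / 3 = i := by omega
  have q1' : (3 * i + 1) / 3 = i := by omega
  have q2' : (3 * i + 2) / 3 = i := by omega
  obtain ⟨x, hx, x1, x2, x3, x4, x5⟩ := h.kstat hI hs hM hE (k := 3 * i) (by omega) (by rw [q0]; exact hiM)
  obtain ⟨y, hy, y1, y2, y3, y4, y5⟩ := h.kstat hI hs hM hE (k := 3 * i + 1) (by omega)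
    (by rw [q1']; exact hiM)
  obtain ⟨z, hz, z1, z2, z3, z4, z5⟩ := h.kstat hI hs hM hE (k := 3 * i + 2) (by omega)
    (by rw [q2']; exact hiM)
  have h1 := hT _ (kc_lt M E (dg p (3 * i))) _ (kc_lt M E (dg p (3 * i + 1))) _
    (kc_lt M E (dg p (3 * i + 2))) x hx y hy z hz
  have e1 : nU G U (φ i) = ca x + ca y + ca z := by
    unfold nU
    rw [inter_eq_filter', h.card_filter hG hi, x1, y1, z1]
  have e2 : n1 G U (φ i) = cc x + cc y + cc z := by
    unfold n1
    rw [sdiff_eq_filter', filter_filter, h.card_filter hG hi, x2, y2, z2]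
  have e3 : nU G U' (φ i) = cs x + cs y + cs z := by
    unfold nU
    rw [inter_eq_filter', h.card_filter hG hi, x3, y3, z3]
  have e4 : (G.neighborFinset (φ i) ∩ (U' \ EE)).card ≤ ce x + ce y + ce z := by
    rw [inter_eq_filter', h.card_filter hG hi]
    omega
  have e5 : ((G.neighborFinset (φ i) \ U).filter
      fun q => (G.neighborFinset q ∩ (U' \ EE)).Nonempty).card ≤ cq x + cq y + cq z := by
    rw [sdiff_eq_filter' (G.neighborFinset (φ i)) U, filter_filter, h.card_filter hG hi]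
    omega
  have hcl : ∀ k, k / 3 = i → k < 3 * n → ∀ x ∈ opt (kc M E (dg p k)), (if ν k ∈ U then 1 else 0) = ca x →
      (if ν k ∉ U ∧ nU G U (ν k) = 1 then 1 else 0) = cc x →
      (if ν k ∉ U ∧ (G.neighborFinset (ν k) ∩ U').Nonempty then 1 else 0) ≤ cl x := by
    intro k hk hkn x hx x1 x2
    by_cases hc : ν k ∉ U ∧ (G.neighborFinset (ν k) ∩ U').Nonempty
    · rw [if_neg hc.1] at x1
      have h3 : ¬ (ν k ∉ U ∧ nU G U (ν k) = 1) := by
        rintro ⟨-, h4⟩
        obtain ⟨y, hy⟩ := hc.2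
        rw [mem_inter] at hy
        obtain ⟨a, ha⟩ := card_eq_one.1 h4
        have h5 : y ∈ G.neighborFinset (ν k) ∩ U := mem_inter.2 ⟨hy.1, hs hy.2⟩
        have h6 : φ i ∈ G.neighborFinset (ν k) ∩ U := by
          have := (h.adj k hkn).symm
          rw [hk] at this
          exact mem_inter.2 ⟨(SimpleGraph.mem_neighborFinset _ _ _).2 this, h.mem i hi⟩
        rw [ha, mem_singleton] at h5 h6
        rw [h5, ← h6] at hy
        exact hiM hy.2
      rw [if_neg h3] at x2
      rw [cl_ge (kc_lt M E (dg p k)) hx x1.symm x2.symm]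
      split_ifs <;> omega
    · rw [if_neg hc]
      exact Nat.zero_le _
  have e6 : ((G.neighborFinset (φ i) \ U).filter
      fun q => (G.neighborFinset q ∩ U').Nonempty).card ≤ cl x + cl y + cl z := by
    rw [sdiff_eq_filter' (G.neighborFinset (φ i)) U, filter_filter, h.card_filter hG hi]
    have f1 := hcl (3 * i) q0 (by omega) x hx x1 x2
    have f2 := hcl (3 * i + 1) q1' (by omega) y hy y1 y2
    have f3 := hcl (3 * i + 2) q2' (by omega) z hz z1 z2
    omega
  rw [kval_eq, e1, e2, e3]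
  have h2 := w.hits_mono (s := cs x + cs y + cs z) e4 e5
  have h3 := Nat.mul_le_mul_right q1 e6
  omega

/-- a good list of picks, with the surcharge -/
def GoodX (w : TF) (P : ℕ) (d : Finset V → ℕ) (G : SimpleGraph V) [DecidableRel G.Adj] (U : Finset V)
    (c : ℕ) : Prop :=
  ∃ X : List V, X.length = c ∧ Picks G U X ∧
    PsiT w G (rem G U X) + Xs G d (rem G U X) + P * X.length ≤ PsiT w G U + Xs G d U

theorem Emb.finX_le (hG : G.IsRegularOfDegree 3) {w : TF} {P O T TE e2 e1 : ℕ}
    (hT : TabKX w e2 e1 O T) (hTE : TabE w O TE) {d : Finset V → ℕ} (hd : DefOK G d e2 e1) {U U' : Finset V} (hI : Inv G U)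
    (hI' : Inv G U') (hs : U' ⊆ U) {n p M E c : ℕ}
    {φ ν : ℕ → V} (h : Emb G U n p φ ν) (hM : ∀ i < n, (M.testBit i = true ↔ φ i ∉ U'))
    (hK : ∀ y ∈ U, y ∉ U' → ∃ i < n, φ i = y) (ht : fin' P O T TE n p M E c = true) :
    PsiT w G U' + Xs G d U' + P * c ≤ PsiT w G U + Xs G d U := by
  classical
  unfold fin' at ht
  rw [Bool.and_eq_true, Nat.ble_eq, frc_eq, sm_eq, sm_eq] at ht
  obtain ⟨ht1, ht2⟩ := ht
  obtain ⟨A, hA⟩ : ∃ A, A = (range n).filter (fun i => M.testBit i = true) := ⟨_, rfl⟩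
  obtain ⟨B, hB⟩ : ∃ B, B = (range n).filter (fun i => E.testBit i = true ∧ M.testBit i = false) :=
    ⟨_, rfl⟩
  have mA : ∀ i, i ∈ A ↔ i < n ∧ M.testBit i = true := fun i => by rw [hA, mem_filter, mem_range]
  have mB : ∀ i, i ∈ B ↔ i < n ∧ E.testBit i = true ∧ M.testBit i = false := fun i => by
    rw [hB, mem_filter, mem_range]
  -- the removed vertices
  have hKA : U \ U' = A.image φ := by
    ext y
    rw [mem_sdiff, mem_image]
    constructor
    · rintro ⟨h1, h2⟩
      obtain ⟨i, hi, rfl⟩ := hK y h1 h2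
      exact ⟨i, (mA i).2 ⟨hi, (hM i hi).2 h2⟩, rfl⟩
    · rintro ⟨i, hi, rfl⟩
      obtain ⟨h1, h2⟩ := (mA i).1 hi
      exact ⟨h.mem i h1, (hM i h1).1 h2⟩
  have hBU : B.image φ ⊆ U' := by
    intro y hy
    obtain ⟨i, hi, rfl⟩ := mem_image.1 hy
    obtain ⟨h1, h2, h3⟩ := (mB i).1 hi
    by_contra hc
    rw [(hM i h1).2 hc] at h3
    exact absurd h3 (by simp)
  have hEE : ∀ i < n, E.testBit i = true → M.testBit i = false → φ i ∈ B.image φ := fun i h1 h2 h3 =>
    mem_image.2 ⟨i, (mB i).2 ⟨h1, h2, h3⟩, rfl⟩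
  have injA : ∀ i ∈ A, ∀ j ∈ A, φ i = φ j → i = j := fun i hi j hj e =>
    h.inj i ((mA i).1 hi).1 j ((mA j).1 hj).1 e
  have injB : ∀ i ∈ B, ∀ j ∈ B, φ i = φ j → i = j := fun i hi j hj e =>
    h.inj i ((mB i).1 hi).1 j ((mB j).1 hj).1 e
  -- the inverse
  obtain ⟨iv, hiv⟩ : ∃ iv : V → ℕ, ∀ i < n, iv (φ i) = i := by
    refine ⟨fun x => if hx : ∃ i, i < n ∧ φ i = x then Classical.choose hx else 0, fun i hi => ?_⟩
    have hx : ∃ j, j < n ∧ φ j = φ i := ⟨i, hi, rfl⟩
    beta_reduce
    rw [dif_pos hx]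
    exact h.inj _ (Classical.choose_spec hx).1 _ hi (Classical.choose_spec hx).2
  have h1 := drop_exc w hG d (e2 := e2) (e1 := e1) hs hI hI' (fun C _ p => hd.two C p)
    (fun C _ p => hd.one C p) hBU (fun _ => O) (fun x => eval' TE p M (iv x)) (fun x hx => by
    obtain ⟨i, hi, rfl⟩ := mem_image.1 hx
    obtain ⟨h1, h2, h3⟩ := (mB i).1 hi
    beta_reduce
    rw [hiv i h1]
    refine h.eval_le hG hTE hI hI' hs hM h1 ?_ (hBU hx)
    have h4 := al_of ht1 h1
    rw [tb_eq, tb_eq, h2, h3] at h4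
    exact h4)
  rw [hKA, sum_image injA, sum_image injA, sum_image injB, sum_const, card_image_of_injOn injB] at h1
  have h2 : ∑ i ∈ B, eval' TE p M (iv (φ i)) = ∑ i ∈ B, eval' TE p M i :=
    sum_congr rfl fun i hi => by rw [hiv i ((mB i).1 hi).1]
  rw [h2] at h1
  have h3 := sum_le_sum (s := A) fun i hi => h.kvalX_le hG hT hI hs hM hEE ((mA i).1 hi).1
    ((hM i ((mA i).1 hi).1).1 ((mA i).1 hi).2)
  have h4 : ∑ i ∈ range n, (bif tb M i then kval T p M E i else bif tb E i then eval' TE p M i else 0) =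
      ∑ i ∈ A, kval T p M E i + ∑ i ∈ B, eval' TE p M i := by
    rw [hA, hB, sum_filter, sum_filter, ← sum_add_distrib]
    refine sum_congr rfl fun i _ => ?_
    rw [tb_eq, tb_eq]
    cases M.testBit i <;> cases E.testBit i <;> simp
  have h5 : ∑ i ∈ range n, (bif tb (Nat.lor M E) i then 1 else 0) = A.card + B.card := by
    rw [hA, hB, Finset.card_filter, Finset.card_filter, ← sum_add_distrib]
    refine sum_congr rfl fun i _ => ?_
    rw [tb_eq, show Nat.lor M E = M ||| E from rfl, Nat.testBit_or]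
    cases M.testBit i <;> cases E.testBit i <;> simp
  rw [h4, h5] at ht2
  have h6 : Nat.add (Nat.mul P c) (Nat.mul O (A.card + B.card)) = P * c + (A.card * O + B.card * O) := by
    show P * c + O * (A.card + B.card) = _
    ring
  rw [h6] at ht2
  simp only [sum_add_distrib, sum_const, smul_eq_mul] at h1 h3
  omega

theorem Emb.tlf_goodX (hG : G.IsRegularOfDegree 3) {w : TF} {P O T TE e2 e1 : ℕ}
    (hT : TabKX w e2 e1 O T) (hTE : TabE w O TE) {d : Finset V → ℕ} (hd : DefOK G d e2 e1) {U : Finset V} (hI : Inv G U)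
    {n p E : ℕ} {φ ν : ℕ → V} (h : Emb G U n p φ ν) :
    ∀ (L : List ℕ) (M : ℕ) (X : List V), Picks G U X →
      (∀ i < n, (M.testBit i = true ↔ φ i ∉ rem G U X)) →
      (∀ y ∈ U, y ∉ rem G U X → ∃ i < n, φ i = y) → tlf P O T TE n p E L M X.length = true →
      GoodX w P d G U (X.length + L.length) := by
  intro L
  induction L with
  | nil =>
    intro M X hP hM hK ht
    exact ⟨X, rfl, hP, h.finX_le hG hT hTE hd hI (hI.rem hG) rem_subset hM hK ht⟩
  | cons x L ih =>
    intro M X hP hM hK ht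
    rw [tlf, frc_eq, Bool.and_eq_true, Bool.and_eq_true, Bool.and_eq_true, Nat.ble_eq, tb_eq,
      Bool.not_eq_true'] at ht
    obtain ⟨⟨⟨t1, t2⟩, t3⟩, t4⟩ := ht
    have hxn : x < n := t1
    have hxU : φ x ∈ rem G U X := by
      by_contra hc
      rw [(hM x hxn).2 hc] at t3
      exact absurd t3 (by simp)
    have e0 : rem G U (X ++ [φ x]) = rem G U X \ B2 G (φ x) := by
      rw [rem_append]
      rfl
    have key : ∀ y ∈ U, y ∉ rem G U (X ++ [φ x]) ↔ y ∉ rem G U X ∨ y ∈ B2 G (φ x) := by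
      intro y _
      rw [e0, mem_sdiff]
      tauto
    have e1 : X.length + (x :: L).length = (X ++ [φ x]).length + L.length := by
      simp only [List.length_cons, List.length_append, List.length_nil]
      omega
    rw [e1]
    refine ih (Nat.lor M (ball p x)) (X ++ [φ x]) (picks_append hP ⟨hxU, trivial⟩) ?_ ?_ ?_
    · intro i hi
      rw [key _ (h.mem i hi), show Nat.lor M (ball p x) = M ||| ball p x from rfl, Nat.testBit_or,
        Bool.or_eq_true, hM i hi, h.mem_ball hG hI hxn t2 (h.mem i hi)]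
      constructor
      · rintro (h1 | h1)
        · exact Or.inl h1
        · exact Or.inr ⟨i, hi, rfl, h1⟩
      · rintro (h1 | ⟨t, ht, he, hb⟩)
        · exact Or.inl h1
        · rw [h.inj t ht i hi he] at hb
          exact Or.inr hb
    · intro y hy hyn
      rcases (key y hy).1 hyn with h1 | h1
      · exact hK y hy h1
      · obtain ⟨t, ht, he, -⟩ := (h.mem_ball hG hI hxn t2 hy).1 h1
        exact ⟨t, ht, he⟩
    · rw [List.length_append, List.length_singleton]
      exact t4

/-- **the leaf test with the surcharge** -/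
theorem Emb.typ_leafX (hG : G.IsRegularOfDegree 3) {w : TF} {P O T TE e2 e1 : ℕ}
    (hT : TabKX w e2 e1 O T) (hTE : TabE w O TE) {d : Finset V → ℕ} (hd : DefOK G d e2 e1) {U : Finset V} (hI : Inv G U)
    {n p E : ℕ} {φ ν : ℕ → V} (h : Emb G U n p φ ν)
    {L : List ℕ} (ht : tlf P O T TE n p E L 0 0 = true) : GoodX w P d G U L.length := by
  have h1 := h.tlf_goodX hG hT hTE hd hI (E := E) L 0 [] trivial (fun i hi => by
    rw [Nat.zero_testBit]
    constructor
    · intro e; exact absurd e (by simp)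
    · intro e; exact absurd (h.mem i hi) e) (fun y hy hyn => absurd hy hyn) ht
  rwa [List.length_nil, Nat.zero_add] at h1

end EF18
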