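import Pool.Agent.Lib.MP_ef18bd_co.P.EvK
import Pool.Agent.Lib.MP_ef18bd_co.P.RootB

/-!
# A pattern whose ports are all direct

In a connected graph such a pattern is the whole graph.
-/

namespace EF18

open Finset

variable {V : Type} [Fintype V] [DecidableEq V] {G : SimpleGraph V} [DecidableRel G.Adj]

/-- all ports of the nodes below `m` are direct -/
def unr (p : ℕ) (m : ℕ) : Bool := Nat.rec true (fun i ih => bif anp p i fun d => !isD d then false else ih) m

/-- all ports are direct -/
def unv (n p : ℕ) : Bool := Nat.ble 1 n && unr p n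

theorem unr_spec {p : ℕ} : ∀ {m : ℕ}, unr p m = true → ∀ k, k / 3 < m → isD (dg p k) = true := by
  intro m
  induction m with
  | zero => exact fun _ k hk => absurd hk (Nat.not_lt_zero _)
  | succ m ih =>
    intro h k hk
    unfold unr at h
    change (bif anp p m fun d => !isD d then false else unr p m) = true at h
    cases ha : anp p m fun d => !isD d
    · rw [ha, cond_false] at h
      rcases Nat.lt_succ_iff_lt_or_eq.1 hk with h1 | h1
      · exact ih h k h1
      · by_contra hno
        rw [Bool.not_eq_true] at hno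
        refine absurd (anp_iff.2 ⟨k, h1, ?_⟩) (by rw [ha]; simp)
        rw [hno]
        rfl
    · rw [ha, cond_true] at h
      exact absurd h (by simp)

/-- **a pattern whose ports are all direct is the whole graph** -/
theorem Emb.unv_no (hG : G.IsRegularOfDegree 3) (hc : G.Connected) {U : Finset V} (hU : U ≠ univ) {n p : ℕ}
    {φ ν : ℕ → V} (h : Emb G U n p φ ν) : unv n p ≠ true := by
  intro hu
  unfold unv at hu
  rw [Bool.and_eq_true] at hu
  have hn : 0 < n := Nat.le_of_ble_eq_true hu.1
  have h1 : (range n).image φ = univ := by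
    by_contra hne
    obtain ⟨x, hx, y, hy, hxy⟩ := exists_out hc hne ⟨φ 0, mem_image_of_mem _ (mem_range.2 hn)⟩
    rw [mem_image] at hx
    obtain ⟨i, hi, rfl⟩ := hx
    rw [mem_range] at hi
    obtain ⟨k, hk1, hk2, hk3⟩ := h.surj hG hi hxy
    obtain ⟨l, hl⟩ := isD_iff.1 (unr_spec hu.2 k (by omega))
    obtain ⟨a1, a2, a3, a4⟩ := h.dir k hk2 l hl
    refine hy (mem_image.2 ⟨l / 3, mem_range.2 (by omega), ?_⟩)
    rw [← a3, hk3]
  refine hU (eq_univ_of_forall fun x => ?_)
  have h2 : x ∈ (range n).image φ := h1 ▸ mem_univ x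
  rw [mem_image] at h2
  obtain ⟨i, hi, rfl⟩ := h2
  exact h.mem i (mem_range.1 hi)

end EF18
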