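import Pool.Agent.Lib.MP_ef18bd_co.P.StpB

/-!
# Word arithmetic on patterns: definitions

The test of rule W for a leaf with operations on all digits at once. `wd`: the three digits of a node, `pf`:
the flags of the partner ports, `nzf`: the flags of the digits which are not zero, `nf`: from ports to nodes.
-/

namespace EF18

namespace W

/-- a case distinction on a number -/
def zc {α : Type} (n : ℕ) (a b : α) : α := Nat.rec (motive := fun _ => α) a (fun _ _ => b) n

/-- a case distinction on a Boolean -/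
def bc {α : Type} (c : Bool) (a b : α) : α := Bool.rec (motive := fun _ => α) a b c

/-- the value first -/
def fz {α : Type} (n : ℕ) (f : ℕ → α) : α :=
  Nat.rec (motive := fun _ => α) (f 0) (fun k _ => f k) (Nat.succ n)

/-- a loop -/
def lp (f : ℕ → ℕ → ℕ) (n : ℕ) : ℕ := Nat.rec (motive := fun _ => ℕ) 0 f n

/-- the word of the node `i` -/
def wd (p i : ℕ) : ℕ := Nat.mod (Nat.shiftRight p (Nat.mul 24 i)) 16777216

/-- the bit of the node `i` -/
def bt (m i : ℕ) : ℕ := Nat.mod (Nat.shiftRight m (Nat.mul 24 i)) 2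

/-- the partner flags of a word -/
def pf (w : ℕ) : ℕ :=
  Nat.lor (Nat.lor (Nat.pow 16 (Nat.mod w 256)) (Nat.pow 16 (Nat.mod (Nat.shiftRight w 8) 256)))
    (Nat.pow 16 (Nat.shiftRight w 16))

/-- flags of the digits which are not zero -/
def nzf (c x : ℕ) : ℕ :=
  Nat.shiftRight (Nat.land (Nat.lor (Nat.add (Nat.land x (Nat.mul c 127)) (Nat.mul c 127)) x) (Nat.mul c 128)) 7

/-- flags of the nodes with a flag -/
def nf (u x : ℕ) : ℕ := Nat.land (Nat.lor (Nat.lor x (Nat.shiftRight x 8)) (Nat.shiftRight x 16)) u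

/-- the number of flags -/
def ct (x : ℕ) : ℕ := Nat.mod x 255

/-- `x` without `y` -/
def wo (x y : ℕ) : ℕ := Nat.xor x (Nat.land x y)

/-- partner flags of the neighbour behind a digit, `0` for a link -/
def nb (p d : ℕ) : ℕ := zc (Nat.mod d 2) (pf (wd p (Nat.div (Nat.sub d 2) 6))) 0

/-- the partner flags of the direct neighbours of a word -/
def pn (p w : ℕ) : ℕ :=
  Nat.lor (Nat.lor (nb p (Nat.mod w 256)) (nb p (Nat.mod (Nat.shiftRight w 8) 256))) (nb p (Nat.shiftRight w 16))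

/-- the ball of a pick, from the partner flags -/
def bl (c u x a1 a2 : ℕ) : ℕ :=
  Nat.lor (Nat.shiftLeft 1 (Nat.mul 24 x))
    (nf u (Nat.land (Nat.lor (Nat.lor (Nat.shiftRight a1 8) (Nat.shiftRight a1 12)) (Nat.shiftRight a2 8)) c))

/-- the inner nodes of a pick -/
def inn (c u x a1 : ℕ) : ℕ :=
  Nat.lor (Nat.shiftLeft 1 (Nat.mul 24 x)) (nf u (Nat.land (Nat.shiftRight a1 8) c))

/-- the partner flags of all removed nodes -/
def tk (p m n : ℕ) : ℕ := lp (fun i r => zc (bt m i) r (Nat.lor (pf (wd p i)) r)) n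

/-- the part of `t2` of one removed node -/
def t2i (w s z : ℕ) : ℕ :=
  fz (pf (Nat.land w (Nat.mul s 255))) fun g => zc (Nat.sub (Nat.mod s 255) 1) (zc z g 0) (Nat.shiftLeft g 1)

/-- partner flags of the survivors next to removed nodes with surviving neighbours -/
def t2 (p s f0 n : ℕ) : ℕ :=
  lp (fun i r => zc (wd s i) r (Nat.lor (t2i (wd p i) (wd s i) (wd f0 i)) r)) n

/-- the sum of the three flags of every node -/
def q3 (u g : ℕ) : ℕ := Nat.land (Nat.add (Nat.add g (Nat.shiftRight g 8)) (Nat.shiftRight g 16)) (Nat.mul u 3)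

/-- the possibly isolated nodes which are not full, and the unknown ones -/
def nn (D u f0 f1 on att opm : ℕ) : ℕ :=
  zc D
    (fz (q3 u (Nat.lor f0 f1)) fun q => fz (ct (Nat.land att (wo q (Nat.shiftRight q 1)))) fun a1 =>
      fz (ct (Nat.land att (wo (Nat.shiftRight q 1) q))) fun a2 =>
      zc opm 0 (mn opm (mn (Nat.div (Nat.add opm a1) 2) (Nat.div (Nat.add (Nat.add opm (Nat.mul 2 a1)) a2) 3))))
    (zc (Nat.sub D 1)
      (fz (q3 u (Nat.lor f0 f1)) fun q => fz (Nat.shiftRight q 1) fun q1 =>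
        Nat.add (ct (Nat.land att (wo on q1))) (zc opm 0
          (mn opm (Nat.div (Nat.add opm (ct (Nat.land att (wo q1 q)))) 2))))
      (Nat.add (ct (Nat.land att on)) opm))

/-- the test of rule W for a leaf, the numbers -/
def tst (D l n0 N t1 dk lk ka m z : ℕ) : Bool :=
  fz (Nat.add t1 (Nat.mul D N)) fun kt =>
  Nat.ble (Nat.add (Nat.add (Nat.mul 84 l) (Nat.mul 12 (Nat.add n0 N))) (Nat.add (Nat.mul 6 (mn kt 2)) (Nat.mul 18 z)))
    (Nat.add (Nat.add (Nat.mul 18 m) (Nat.mul 9 lk)) (Nat.add (Nat.mul 18 dk) (Nat.mul 6 (bon D ka kt))))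

/-- the test of rule W for a leaf, after the removed nodes are known -/
def lf1 (D n p l c u M IN : ℕ) : Bool :=
  fz (tk p M n) fun A =>
  fz (Nat.land (Nat.shiftRight A 8) c) fun tkd => fz (Nat.land (Nat.shiftRight A 12) c) fun tkl =>
  fz (nzf c p) fun nz => fz (nzf c (Nat.xor p c)) fun n1 => fz (Nat.land p c) fun od =>
  fz (Nat.xor c nz) fun f0 => fz (Nat.xor c n1) fun f1 =>
  fz (wo (Nat.xor nz od) tkd) fun sd => fz (wo (Nat.xor od f1) tkl) fun sl =>
  fz (Nat.mul M 65793) fun mp => fz (wo u M) fun sv => fz (nf u f0) fun on =>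
  fz (Nat.land f0 (Nat.mul IN 65793)) fun f0i =>
  bc (Nat.beq f0i 0 || Nat.beq (Nat.land on sv) 0) false
  (fz (t2 p (Nat.land sd mp) f0 n) fun A2 =>
  fz (Nat.land (nf u (Nat.lor (Nat.lor sd sl) (Nat.land (Nat.shiftRight A2 9) c))) sv) fun sf =>
  fz (wo sv sf) fun ns =>
  fz (Nat.land (nf u (Nat.lor tkd tkl)) ns) fun att =>
  fz (Nat.add (ct (Nat.land f0 mp)) (ct f0i)) fun opm =>
  fz (nn D u f0 f1 on att opm) fun N =>
  tst D l (ct (wo ns on)) N (ct f1) (ct (Nat.land f1 mp)) (ct (Nat.land tkl mp))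
    (ct (Nat.land (Nat.lor (Nat.lor f1 tkl) (Nat.land (Nat.shiftRight A2 8) c)) (Nat.mul sf 65793))) (ct M)
    (ct (wo (nf u (Nat.land (Nat.lor sd f0) mp)) IN)))

/-- the picks: the removed nodes and the inner nodes -/
def pk (n p c u : ℕ) (k : ℕ → ℕ → Bool) (L : List ℕ) (M IN : ℕ) : Bool :=
  List.rec (motive := fun _ => ℕ → ℕ → Bool) k (fun x _ r M IN =>
    Nat.ble (Nat.succ x) n && fz (wd p x) fun w => Nat.beq (nzf 65793 w) 65793 && Nat.beq (bt M x) 0 &&
      fz (pf w) fun a1 => r (Nat.lor M (bl c u x a1 (pn p w))) (Nat.lor IN (inn c u x a1))) L M IN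

/-- **the test of rule W for a leaf** -/
def lfW (D n p : ℕ) (L : List ℕ) : Bool :=
  Nat.ble (Nat.succ n) 40 && fz (Nat.div (Nat.pow 16777216 n) 255) fun c =>
    fz (Nat.div (Nat.pow 16777216 n) 16777215) fun u =>
    pk n p c u (fun M IN => fz M fun M => fz IN fun IN => lf1 D n p L.length c u M IN) L 0 0

end W

end EF18
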