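import Pool.Agent.Lib.MP_ef18bd_co.P.WdA

/-!
# Word arithmetic on patterns: digits, words and partner flags
-/

namespace EF18

namespace W

theorem tb_dg' (p k r : ℕ) : (dg p k).testBit r = (decide (r < 8) && p.testBit (8 * k + r)) := by
  by_cases hr : r < 8
  · rw [tb_dg _ _ _ hr, decide_eq_true hr, Bool.true_and]
  · rw [decide_eq_false hr, Bool.false_and]
    refine Nat.testBit_lt_two_pow (lt_of_lt_of_le (dg_lt p k) ?_)
    rw [show 256 = 2 ^ 8 by norm_num]
    exact Nat.pow_le_pow_right (by norm_num) (by omega)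

theorem tb_wd (p i j : ℕ) : (wd p i).testBit j = (decide (j < 24) && p.testBit (24 * i + j)) := by
  show ((p >>> (24 * i)) % 16777216).testBit j = _
  rw [show 16777216 = 2 ^ 24 by norm_num, Nat.testBit_mod_two_pow, Nat.testBit_shiftRight]

theorem wd0 (p i : ℕ) : Nat.mod (wd p i) 256 = dg p (3 * i) := by
  apply Nat.eq_of_testBit_eq
  intro j
  show (wd p i % 256).testBit j = _
  rw [show 256 = 2 ^ 8 by norm_num, Nat.testBit_mod_two_pow, tb_wd, tb_dg', show 8 * (3 * i) = 24 * i by ring]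
  by_cases h : j < 8
  · simp [h, show j < 24 by omega]
  · simp [h]

theorem wd1 (p i : ℕ) : Nat.mod (Nat.shiftRight (wd p i) 8) 256 = dg p (3 * i + 1) := by
  apply Nat.eq_of_testBit_eq
  intro j
  show ((wd p i >>> 8) % 256).testBit j = _
  rw [show 256 = 2 ^ 8 by norm_num, Nat.testBit_mod_two_pow, Nat.testBit_shiftRight, tb_wd, tb_dg',
    show 24 * i + (8 + j) = 8 * (3 * i + 1) + j by ring]
  by_cases h : j < 8
  · simp [h, show 8 + j < 24 by omega]
  · simp [h]

theorem wd2 (p i : ℕ) : Nat.shiftRight (wd p i) 16 = dg p (3 * i + 2) := by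
  apply Nat.eq_of_testBit_eq
  intro j
  show (wd p i >>> 16).testBit j = _
  rw [Nat.testBit_shiftRight, tb_wd, tb_dg', show 24 * i + (16 + j) = 8 * (3 * i + 2) + j by ring]
  by_cases h : j < 8
  · simp [h, show 16 + j < 24 by omega]
  · simp [h, show ¬ 16 + j < 24 by omega]

theorem bt_nl {P : ℕ → Bool} {n i : ℕ} (hi : i < n) : bt (nl P n) i = (P i).toNat := by
  apply Nat.eq_of_testBit_eq
  intro j
  show ((nl P n >>> (24 * i)) % 2).testBit j = _
  rw [show (2 : ℕ) = 2 ^ 1 by norm_num, Nat.testBit_mod_two_pow, Nat.testBit_shiftRight, tb_nl]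
  by_cases h : j = 0
  · subst h
    have h1 : (24 * i + 0) % 24 = 0 := by omega
    have h2 : (24 * i + 0) / 24 = i := by omega
    rw [h1, h2, decide_eq_true hi]
    cases P i <;> simp
  · rw [decide_eq_false (by omega : ¬ j < 1), Bool.false_and]
    cases P i
    · simp
    · rw [Bool.toNat_true]
      refine (Nat.testBit_lt_two_pow ?_).symm
      calc 1 < 2 ^ 1 := by norm_num
        _ ≤ 2 ^ j := Nat.pow_le_pow_right (by norm_num) (by omega)

/-- the partner flags of a word -/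
theorem tb_pf (w j : ℕ) : (pf w).testBit j = (decide (4 * (Nat.mod w 256) = j) ||
    decide (4 * (Nat.mod (Nat.shiftRight w 8) 256) = j) || decide (4 * (Nat.shiftRight w 16) = j)) := by
  show ((16 ^ (Nat.mod w 256) ||| 16 ^ (Nat.mod (Nat.shiftRight w 8) 256)) |||
    16 ^ (Nat.shiftRight w 16)).testBit j = _
  rw [show (16 : ℕ) = 2 ^ 4 by norm_num, ← pow_mul, ← pow_mul, ← pow_mul, Nat.testBit_lor, Nat.testBit_lor,
    Nat.testBit_two_pow, Nat.testBit_two_pow, Nat.testBit_two_pow]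

theorem tb_pf_wd (p i j : ℕ) : (pf (wd p i)).testBit j = true ↔ ∃ a < 3, j = 4 * dg p (3 * i + a) := by
  rw [tb_pf, wd0, wd1, wd2]
  simp only [Bool.or_eq_true, decide_eq_true_eq]
  constructor
  · rintro ((h | h) | h)
    · exact ⟨0, by norm_num, h.symm⟩
    · exact ⟨1, by norm_num, h.symm⟩
    · exact ⟨2, by norm_num, h.symm⟩
  · rintro ⟨a, ha, h⟩
    have : a = 0 ∨ a = 1 ∨ a = 2 := by omega
    rcases this with rfl | rfl | rfl
    · exact Or.inl (Or.inl h.symm)
    · exact Or.inl (Or.inr h.symm)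
    · exact Or.inr h.symm

/-- a well formed pattern -/
structure Wf (n p : ℕ) : Prop where
  zero : ∀ k, 3 * n ≤ k → dg p k = 0
  dir : ∀ k < 3 * n, ∀ l, dg p k = 2 + 2 * l → l < 3 * n ∧ dg p l = 2 + 2 * k
  lnk : ∀ k < 3 * n, ∀ l, dg p k = 3 + 2 * l → l < 3 * n ∧ dg p l = 3 + 2 * k

/-- the partner flags of all removed nodes -/
theorem tb_tk {p n : ℕ} {M : ℕ → Bool} {m : ℕ} (hm : m ≤ n) (j : ℕ) :
    (tk p (nl M n) m).testBit j = true ↔ ∃ i < m, M i = true ∧ ∃ a < 3, j = 4 * dg p (3 * i + a) := by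
  induction m with
  | zero =>
    unfold tk
    rw [lp_zero, Nat.zero_testBit]
    simp
  | succ m ih =>
    have ih' := ih (by omega)
    unfold tk at ih' ⊢
    rw [lp_succ, bt_nl (by omega)]
    cases hM : M m
    · rw [Bool.toNat_false, zc_zero, ih']
      constructor
      · rintro ⟨i, hi, h⟩
        exact ⟨i, by omega, h⟩
      · rintro ⟨i, hi, h1, h2⟩
        rcases Nat.lt_succ_iff_lt_or_eq.1 hi with h3 | rfl
        · exact ⟨i, h3, h1, h2⟩
        · rw [hM] at h1
          exact absurd h1 (by simp)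
    · rw [Bool.toNat_true, show (1 : ℕ) = 0 + 1 from rfl, zc_succ]
      show ((pf (wd p m)) ||| _).testBit j = true ↔ _
      rw [Nat.testBit_lor, Bool.or_eq_true, ih', tb_pf_wd]
      constructor
      · rintro (h | ⟨i, hi, h⟩)
        · exact ⟨m, by omega, hM, h⟩
        · exact ⟨i, by omega, h⟩
      · rintro ⟨i, hi, h1, h2⟩
        rcases Nat.lt_succ_iff_lt_or_eq.1 hi with h3 | rfl
        · exact Or.inr ⟨i, h3, h1, h2⟩
        · exact Or.inl h2

theorem isD_iff {d : ℕ} : isD d = true ↔ ∃ l, d = 2 + 2 * l := by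
  unfold isD
  rw [Bool.and_eq_true]
  constructor
  · rintro ⟨h1, h2⟩
    have h3 : 2 ≤ d := Nat.le_of_ble_eq_true h1
    have h4 : d % 2 = 0 := Nat.eq_of_beq_eq_true h2
    exact ⟨d / 2 - 1, by omega⟩
  · rintro ⟨l, rfl⟩
    exact ⟨Nat.ble_eq_true_of_le (by omega), by
      rw [show (2 + 2 * l) % 2 = 0 by omega]; rfl⟩

theorem isL_iff {d : ℕ} : isL d = true ↔ ∃ l, d = 3 + 2 * l := by
  unfold isL
  rw [Bool.and_eq_true]
  constructor
  · rintro ⟨h1, h2⟩
    have h3 : 2 ≤ d := Nat.le_of_ble_eq_true h1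
    have h4 : d % 2 = 1 := Nat.eq_of_beq_eq_true h2
    exact ⟨d / 2 - 1, by omega⟩
  · rintro ⟨l, rfl⟩
    exact ⟨Nat.ble_eq_true_of_le (by omega), by
      rw [show (3 + 2 * l) % 2 = 1 by omega]; rfl⟩

theorem tg_two (l : ℕ) : tg (2 + 2 * l) = l / 3 := by
  unfold tg
  omega

theorem tg_three (l : ℕ) : tg (3 + 2 * l) = l / 3 := by
  unfold tg
  omega

/-- the direct ports to a removed node -/
theorem tkd_eq {p n : ℕ} (hw : Wf n p) (M : ℕ → Bool) :
    Nat.land (Nat.shiftRight (tk p (nl M n) n) 8) (fl (fun _ => true) (3 * n)) =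
      fl (fun k => isD (dg p k) && M (tg (dg p k))) (3 * n) := by
  apply Nat.eq_of_testBit_eq
  intro j
  show (((tk p (nl M n) n) >>> 8) &&& fl (fun _ => true) (3 * n)).testBit j = _
  rw [Nat.testBit_land, tb_fl, tb_fl, Nat.testBit_shiftRight, Bool.and_true]
  by_cases h : j % 8 = 0
  · by_cases h1 : j / 8 < 3 * n
    · rw [decide_eq_true h, decide_eq_true h1, Bool.and_true, Bool.and_true, Bool.true_and, Bool.eq_iff_iff,
        tb_tk le_rfl, Bool.and_eq_true, isD_iff]
      constructor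
      · rintro ⟨i, hi, h2, a, ha, h3⟩
        have h4 : dg p (3 * i + a) = 2 + 2 * (j / 8) := by omega
        obtain ⟨-, h5⟩ := hw.dir _ (by omega) _ h4
        refine ⟨⟨_, h5⟩, ?_⟩
        rw [h5, tg_two, show (3 * i + a) / 3 = i by omega]
        exact h2
      · rintro ⟨⟨l, h2⟩, h3⟩
        obtain ⟨h4, h5⟩ := hw.dir _ h1 _ h2
        rw [h2, tg_two] at h3
        refine ⟨l / 3, by omega, h3, l % 3, Nat.mod_lt _ (by norm_num), ?_⟩
        rw [Nat.div_add_mod, h5]
        omega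
    · rw [decide_eq_false h1]
      simp
  · rw [decide_eq_false h]
    simp

/-- the links to a removed node -/
theorem tkl_eq {p n : ℕ} (hw : Wf n p) (M : ℕ → Bool) :
    Nat.land (Nat.shiftRight (tk p (nl M n) n) 12) (fl (fun _ => true) (3 * n)) =
      fl (fun k => isL (dg p k) && M (tg (dg p k))) (3 * n) := by
  apply Nat.eq_of_testBit_eq
  intro j
  show (((tk p (nl M n) n) >>> 12) &&& fl (fun _ => true) (3 * n)).testBit j = _
  rw [Nat.testBit_land, tb_fl, tb_fl, Nat.testBit_shiftRight, Bool.and_true]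
  by_cases h : j % 8 = 0
  · by_cases h1 : j / 8 < 3 * n
    · rw [decide_eq_true h, decide_eq_true h1, Bool.and_true, Bool.and_true, Bool.true_and, Bool.eq_iff_iff,
        tb_tk le_rfl, Bool.and_eq_true, isL_iff]
      constructor
      · rintro ⟨i, hi, h2, a, ha, h3⟩
        have h4 : dg p (3 * i + a) = 3 + 2 * (j / 8) := by omega
        obtain ⟨-, h5⟩ := hw.lnk _ (by omega) _ h4
        refine ⟨⟨_, h5⟩, ?_⟩
        rw [h5, tg_three, show (3 * i + a) / 3 = i by omega]
        exact h2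
      · rintro ⟨⟨l, h2⟩, h3⟩
        obtain ⟨h4, h5⟩ := hw.lnk _ h1 _ h2
        rw [h2, tg_three] at h3
        refine ⟨l / 3, by omega, h3, l % 3, Nat.mod_lt _ (by norm_num), ?_⟩
        rw [Nat.div_add_mod, h5]
        omega
    · rw [decide_eq_false h1]
      simp
  · rw [decide_eq_false h]
    simp

end W

end EF18
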