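import Pool.Agent.Lib.MP_ef18bd_co.P.WdB

/-!
# Word arithmetic on patterns: the second partner flags
-/

namespace EF18

namespace W

theorem dg_land (x y k : ℕ) : dg (Nat.land x y) k = Nat.land (dg x k) (dg y k) := by
  apply Nat.eq_of_testBit_eq
  intro j
  show (dg (x &&& y) k).testBit j = (dg x k &&& dg y k).testBit j
  rw [Nat.testBit_land, tb_dg', tb_dg', tb_dg', Nat.testBit_land]
  cases decide (j < 8) <;> simp

theorem dg_wd (p i a : ℕ) (ha : a < 3) : dg (wd p i) a = dg p (3 * i + a) := by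
  apply Nat.eq_of_testBit_eq
  intro j
  rw [tb_dg', tb_dg', tb_wd, show 24 * i + (8 * a + j) = 8 * (3 * i + a) + j by ring]
  by_cases h : j < 8
  · simp [h, show 8 * a + j < 24 by omega]
  · simp [h]

theorem dg_ds {f : ℕ → ℕ} {K : ℕ} (h : ∀ k < K, f k < 256) {k : ℕ} (hk : k < K) : dg (ds f K) k = f k := by
  apply Nat.eq_of_testBit_eq
  intro j
  rw [tb_dg', tb_ds h]
  by_cases h1 : j < 8
  · have h2 : (8 * k + j) / 8 = k := by omega
    have h3 : (8 * k + j) % 8 = j := by omega
    rw [h2, h3]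
    simp [h1, hk]
  · rw [decide_eq_false h1, Bool.false_and]
    refine (Nat.testBit_lt_two_pow (lt_of_lt_of_le (h k hk) ?_)).symm
    rw [show 256 = 2 ^ 8 by norm_num]
    exact Nat.pow_le_pow_right (by norm_num) (by omega)

theorem dg_fl (P : ℕ → Bool) {K k : ℕ} (hk : k < K) : dg (fl P K) k = (P k).toNat := by
  rw [fl_ds, dg_ds _ hk]
  intro k _
  have := Bool.toNat_le (P k)
  omega

theorem wd_fl (P : ℕ → Bool) {n i : ℕ} (hi : i < n) : wd (fl P (3 * n)) i = fl (fun a => P (3 * i + a)) 3 := by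
  apply Nat.eq_of_testBit_eq
  intro j
  rw [tb_wd, tb_fl, tb_fl]
  by_cases h : j < 24
  · have h1 : (24 * i + j) % 8 = j % 8 := by omega
    have h2 : (24 * i + j) / 8 = 3 * i + j / 8 := by omega
    have h3 : 3 * i + j / 8 < 3 * n := by omega
    have h4 : j / 8 < 3 := by omega
    rw [h1, h2, decide_eq_true h, decide_eq_true h3, decide_eq_true h4]
    simp
  · have h4 : ¬ j / 8 < 3 := by omega
    rw [decide_eq_false h, decide_eq_false h4]
    simp

theorem pf_dg {w : ℕ} (hw : w < 2 ^ 24) (j : ℕ) : (pf w).testBit j = true ↔ ∃ a < 3, j = 4 * dg w a := by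
  have e0 : Nat.mod w 256 = dg w 0 := by
    unfold dg
    simp
    rfl
  have e1 : Nat.mod (Nat.shiftRight w 8) 256 = dg w 1 := by
    unfold dg
    show (w >>> 8) % 256 = _
    rw [Nat.shiftRight_eq_div_pow]
    norm_num
  have e2 : Nat.shiftRight w 16 = dg w 2 := by
    unfold dg
    show w >>> 16 = _
    rw [Nat.shiftRight_eq_div_pow, Nat.mod_eq_of_lt]
    · norm_num
    · rw [Nat.div_lt_iff_lt_mul (by norm_num)]
      omega
  rw [tb_pf, e0, e1, e2]
  simp only [Bool.or_eq_true, decide_eq_true_eq]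
  constructor
  · rintro ((h | h) | h)
    · exact ⟨0, by norm_num, h.symm⟩
    · exact ⟨1, by norm_num, h.symm⟩
    · exact ⟨2, by norm_num, h.symm⟩
  · rintro ⟨a, ha, h⟩
    have : a = 0 ∨ a = 1 ∨ a = 2 := by omega
    rcases this with rfl | rfl | rfl
    · exact Or.inl (Or.inl h.symm)
    · exact Or.inl (Or.inr h.symm)
    · exact Or.inr h.symm

theorem wd_lt (p i : ℕ) : wd p i < 2 ^ 24 := by
  show (p >>> (24 * i)) % 16777216 < _
  exact Nat.mod_lt _ (by norm_num)

/-- the partner flags of the marked ports of a word -/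
theorem tb_pfm (p i : ℕ) (Q : ℕ → Bool) (j : ℕ) :
    (pf (Nat.land (wd p i) (Nat.mul (fl Q 3) 255))).testBit j = true ↔
      ∃ a < 3, j = 4 * (if Q a = true then dg p (3 * i + a) else 0) := by
  have h1 : Nat.land (wd p i) (Nat.mul (fl Q 3) 255) < 2 ^ 24 :=
    lt_of_le_of_lt Nat.and_le_left (wd_lt p i)
  rw [pf_dg h1]
  have h2 : ∀ a < 3, dg (Nat.land (wd p i) (Nat.mul (fl Q 3) 255)) a =
      if Q a = true then dg p (3 * i + a) else 0 := by
    intro a ha
    have h3 : dg (Nat.mul (fl Q 3) 255) a = (Q a).toNat * 255 := by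
      show dg (fl Q 3 * 255) a = _
      rw [fl_ds, ds_mul, dg_ds _ ha]
      intro k _
      have := Bool.toNat_le (Q k)
      omega
    rw [dg_land, dg_wd _ _ _ ha, h3]
    have h4 := dg_lt p (3 * i + a)
    cases Q a
    · show dg p (3 * i + a) &&& 0 * 255 = _
      simp
    · show dg p (3 * i + a) &&& 1 * 255 = _
      rw [one_mul, show (255 : ℕ) = 2 ^ 8 - 1 by norm_num, Nat.and_two_pow_sub_one_eq_mod,
        Nat.mod_eq_of_lt (by omega), if_pos rfl]
  constructor
  · rintro ⟨a, ha, h⟩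
    exact ⟨a, ha, by rw [h, h2 a ha]⟩
  · rintro ⟨a, ha, h⟩
    exact ⟨a, ha, by rw [h, h2 a ha]⟩

theorem nbeq {a b : ℕ} : Nat.beq a b = true ↔ a = b :=
  ⟨Nat.eq_of_beq_eq_true, fun h => by rw [h]; exact Nat.beq_refl b⟩

theorem tb_lor (a b j : ℕ) : (Nat.lor a b).testBit j = (a.testBit j || b.testBit j) := Nat.testBit_lor a b j

/-- the number of flags at a node -/
def c3 (S : ℕ → Bool) (i : ℕ) : ℕ := (S (3 * i)).toNat + (S (3 * i + 1)).toNat + (S (3 * i + 2)).toNat

theorem ct_three (Q : ℕ → Bool) : Nat.mod (fl Q 3) 255 = (Q 0).toNat + (Q 1).toNat + (Q 2).toNat := by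
  have h := ct_fl (P := Q) (K := 3) (by norm_num)
  unfold ct at h
  rw [h, sm_succ, sm_succ, sm_succ, sm_zero]
  ring

theorem fl_three (Q : ℕ → Bool) : fl Q 3 = 0 ↔ (Q 0).toNat + (Q 1).toNat + (Q 2).toNat = 0 := by
  show fl Q 3 = 0 ↔ _
  rw [fl, fl, fl, fl]
  omega

/-- the second partner flags -/
theorem tb_t2 {p n : ℕ} {S Z : ℕ → Bool} {m : ℕ} (hm : m ≤ n) (j : ℕ) :
    (t2 p (fl S (3 * n)) (fl Z (3 * n)) m).testBit j = true ↔ ∃ i < m,
      (c3 S i = 1 ∧ c3 Z i = 0 ∧ ∃ a < 3, j = 4 * (if S (3 * i + a) = true then dg p (3 * i + a) else 0)) ∨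
      (2 ≤ c3 S i ∧ ∃ a < 3, j = 4 * (if S (3 * i + a) = true then dg p (3 * i + a) else 0) + 1) := by
  induction m with
  | zero =>
    unfold t2
    rw [lp_zero, Nat.zero_testBit]
    simp
  | succ m ih =>
    have ih' := ih (by omega)
    unfold t2 at ih' ⊢
    rw [lp_succ, wd_fl S (by omega), wd_fl Z (by omega)]
    have hc : c3 S m = (S (3 * m + 0)).toNat + (S (3 * m + 1)).toNat + (S (3 * m + 2)).toNat := rfl
    have hz : c3 Z m = (Z (3 * m + 0)).toNat + (Z (3 * m + 1)).toNat + (Z (3 * m + 2)).toNat := rfl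
    rw [zc_eq]
    split_ifs with h0
    · rw [fl_three] at h0
      rw [ih']
      constructor
      · rintro ⟨i, hi, h⟩
        exact ⟨i, by omega, h⟩
      · rintro ⟨i, hi, h⟩
        rcases Nat.lt_succ_iff_lt_or_eq.1 hi with h3 | h3
        · exact ⟨i, h3, h⟩
        · rw [h3] at h
          rcases h with h | h
          · omega
          · omega
    · rw [fl_three] at h0
      have key : (t2i (wd p m) (fl (fun a => S (3 * m + a)) 3) (fl (fun a => Z (3 * m + a)) 3)).testBit j = true ↔
          (c3 S m = 1 ∧ c3 Z m = 0 ∧ ∃ a < 3, j = 4 * (if S (3 * m + a) = true then dg p (3 * m + a) else 0)) ∨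
          (2 ≤ c3 S m ∧ ∃ a < 3, j = 4 * (if S (3 * m + a) = true then dg p (3 * m + a) else 0) + 1) := by
        unfold t2i
        rw [fz_eq, zc_eq, zc_eq, ct_three]
        have e : Nat.sub ((S (3 * m + 0)).toNat + (S (3 * m + 1)).toNat + (S (3 * m + 2)).toNat) 1 =
          (S (3 * m + 0)).toNat + (S (3 * m + 1)).toNat + (S (3 * m + 2)).toNat - 1 := rfl
        rw [e]
        split_ifs with h1 h2
        · rw [fl_three] at h2
          rw [tb_pfm p m (fun a => S (3 * m + a))]
          constructor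
          · intro h
            exact Or.inl ⟨by omega, by omega, h⟩
          · rintro (h | h)
            · exact h.2.2
            · omega
        · rw [fl_three] at h2
          rw [Nat.zero_testBit]
          constructor
          · intro h
            exact absurd h (by simp)
          · rintro (h | h)
            · omega
            · omega
        · show ((pf _) <<< 1).testBit j = true ↔ _
          rw [Nat.testBit_shiftLeft, Bool.and_eq_true, decide_eq_true_eq,
            tb_pfm p m (fun a => S (3 * m + a))]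
          constructor
          · rintro ⟨h3, a, ha, h⟩
            exact Or.inr ⟨by omega, a, ha, by omega⟩
          · rintro (h | ⟨-, a, ha, h⟩)
            · omega
            · exact ⟨by omega, a, ha, by omega⟩
      rw [tb_lor, Bool.or_eq_true, ih', key]
      constructor
      · rintro (h | ⟨i, hi, h⟩)
        · exact ⟨m, by omega, h⟩
        · exact ⟨i, by omega, h⟩
      · rintro ⟨i, hi, h⟩
        rcases Nat.lt_succ_iff_lt_or_eq.1 hi with h3 | rfl
        · exact Or.inr ⟨i, h3, h⟩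
        · exact Or.inl h

/-- the direct ports of removed nodes to survivors -/
def sdr (p : ℕ) (M : ℕ → Bool) (k : ℕ) : Bool := isD (dg p k) && !M (tg (dg p k)) && M (k / 3)

/-- the ports of survivors to a removed full node with one surviving neighbour -/
theorem e1_eq {p n : ℕ} (hw : Wf n p) (M : ℕ → Bool) :
    Nat.land (Nat.shiftRight (t2 p (fl (sdr p M) (3 * n)) (fl (fun k => Nat.beq (dg p k) 0) (3 * n)) n) 8)
      (fl (fun _ => true) (3 * n)) =
      fl (fun k => isD (dg p k) && M (tg (dg p k)) && !M (k / 3) &&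
        Nat.beq (c3 (sdr p M) (tg (dg p k))) 1 && Nat.beq (c3 (fun k => Nat.beq (dg p k) 0) (tg (dg p k))) 0)
        (3 * n) := by
  apply Nat.eq_of_testBit_eq
  intro j
  show (((t2 p (fl (sdr p M) (3 * n)) (fl (fun k => Nat.beq (dg p k) 0) (3 * n)) n) >>> 8) &&&
    fl (fun _ => true) (3 * n)).testBit j = _
  rw [Nat.testBit_land, tb_fl, tb_fl, Nat.testBit_shiftRight, Bool.and_true]
  by_cases h : j % 8 = 0
  · by_cases h1 : j / 8 < 3 * n
    · rw [decide_eq_true h, decide_eq_true h1, Bool.and_true, Bool.and_true, Bool.true_and, Bool.eq_iff_iff,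
        tb_t2 le_rfl, Bool.and_eq_true, Bool.and_eq_true, Bool.and_eq_true, Bool.and_eq_true, isD_iff,
        Bool.not_eq_true', nbeq, nbeq]
      constructor
      · rintro ⟨i, hi, ⟨c1, c2, a, ha, h3⟩ | ⟨c1, a, ha, h3⟩⟩
        · split_ifs at h3 with h4
          · have h5 : dg p (3 * i + a) = 2 + 2 * (j / 8) := by omega
            obtain ⟨-, h6⟩ := hw.dir _ (by omega) _ h5
            have h7 : (3 * i + a) / 3 = i := by omega
            rw [h6, tg_two, h7]
            unfold sdr at h4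
            rw [Bool.and_eq_true, Bool.and_eq_true, Bool.not_eq_true', h5, tg_two, h7] at h4
            exact ⟨⟨⟨⟨⟨_, rfl⟩, h4.2⟩, h4.1.2⟩, c1⟩, c2⟩
          · omega
        · split_ifs at h3 with h4
          · omega
          · omega
      · rintro ⟨⟨⟨⟨⟨l, h2⟩, h3⟩, h4⟩, c1⟩, c2⟩
        obtain ⟨h5, h6⟩ := hw.dir _ h1 _ h2
        rw [h2, tg_two] at h3 c1 c2
        refine ⟨l / 3, by omega, Or.inl ⟨c1, c2, l % 3, Nat.mod_lt _ (by norm_num), ?_⟩⟩
        rw [Nat.div_add_mod]
        have h7 : sdr p M l = true := by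
          unfold sdr
          rw [Bool.and_eq_true, Bool.and_eq_true, Bool.not_eq_true', h6, tg_two]
          exact ⟨⟨isD_iff.2 ⟨_, rfl⟩, h4⟩, h3⟩
        rw [if_pos h7, h6]
        omega
    · rw [decide_eq_false h1]
      simp
  · rw [decide_eq_false h]
    simp

/-- the ports of survivors to a removed node with two surviving neighbours -/
theorem sf2_eq {p n : ℕ} (hw : Wf n p) (M : ℕ → Bool) :
    Nat.land (Nat.shiftRight (t2 p (fl (sdr p M) (3 * n)) (fl (fun k => Nat.beq (dg p k) 0) (3 * n)) n) 9)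
      (fl (fun _ => true) (3 * n)) =
      fl (fun k => isD (dg p k) && M (tg (dg p k)) && !M (k / 3) &&
        Nat.ble 2 (c3 (sdr p M) (tg (dg p k)))) (3 * n) := by
  apply Nat.eq_of_testBit_eq
  intro j
  show (((t2 p (fl (sdr p M) (3 * n)) (fl (fun k => Nat.beq (dg p k) 0) (3 * n)) n) >>> 9) &&&
    fl (fun _ => true) (3 * n)).testBit j = _
  rw [Nat.testBit_land, tb_fl, tb_fl, Nat.testBit_shiftRight, Bool.and_true]
  by_cases h : j % 8 = 0
  · by_cases h1 : j / 8 < 3 * n
    · rw [decide_eq_true h, decide_eq_true h1, Bool.and_true, Bool.and_true, Bool.true_and, Bool.eq_iff_iff,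
        tb_t2 le_rfl, Bool.and_eq_true, Bool.and_eq_true, Bool.and_eq_true, isD_iff,
        Bool.not_eq_true', Nat.ble_eq]
      constructor
      · rintro ⟨i, hi, ⟨c1, c2, a, ha, h3⟩ | ⟨c1, a, ha, h3⟩⟩
        · split_ifs at h3 with h4
          · omega
          · omega
        · split_ifs at h3 with h4
          · have h5 : dg p (3 * i + a) = 2 + 2 * (j / 8) := by omega
            obtain ⟨-, h6⟩ := hw.dir _ (by omega) _ h5
            have h7 : (3 * i + a) / 3 = i := by omega
            rw [h6, tg_two, h7]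
            unfold sdr at h4
            rw [Bool.and_eq_true, Bool.and_eq_true, Bool.not_eq_true', h5, tg_two, h7] at h4
            exact ⟨⟨⟨⟨_, rfl⟩, h4.2⟩, h4.1.2⟩, c1⟩
          · omega
      · rintro ⟨⟨⟨⟨l, h2⟩, h3⟩, h4⟩, c1⟩
        obtain ⟨h5, h6⟩ := hw.dir _ h1 _ h2
        rw [h2, tg_two] at h3 c1
        refine ⟨l / 3, by omega, Or.inr ⟨c1, l % 3, Nat.mod_lt _ (by norm_num), ?_⟩⟩
        rw [Nat.div_add_mod]
        have h7 : sdr p M l = true := by
          unfold sdr
          rw [Bool.and_eq_true, Bool.and_eq_true, Bool.not_eq_true', h6, tg_two]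
          exact ⟨⟨isD_iff.2 ⟨_, rfl⟩, h4⟩, h3⟩
        rw [if_pos h7, h6]
        omega
    · rw [decide_eq_false h1]
      simp
  · rw [decide_eq_false h]
    simp

end W

end EF18
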