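import Pool.Agent.Lib.MP_ef18bd_co.P.WdC

/-!
# Word arithmetic on patterns: the balls of the picks
-/

namespace EF18

namespace W

theorem full_c3 {p i : ℕ} : full p i = true ↔ c3 (fun k => Nat.beq (dg p k) 0) i = 0 := by
  unfold full c3
  simp only [Bool.and_eq_true, Bool.not_eq_true']
  cases Nat.beq (dg p (3 * i)) 0 <;> cases Nat.beq (dg p (3 * i + 1)) 0 <;>
    cases Nat.beq (dg p (3 * i + 2)) 0 <;> simp

/-- the three digits of a node are not zero -/
theorem full_wd {p i : ℕ} : Nat.beq (nzf 65793 (wd p i)) 65793 = true ↔ full p i = true := by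
  have h := nzf_eq (wd p i) 3
  rw [show fl (fun _ => true) 3 = 65793 by decide] at h
  rw [h, nbeq, full_c3]
  unfold c3
  have h0 := dg_wd p i 0 (by norm_num)
  have h1 := dg_wd p i 1 (by norm_num)
  have h2 := dg_wd p i 2 (by norm_num)
  rw [add_zero] at h0
  rw [fl, fl, fl, fl]
  simp only [h0, h1, h2]
  cases Nat.beq (dg p (3 * i)) 0 <;> cases Nat.beq (dg p (3 * i + 1)) 0 <;>
    cases Nat.beq (dg p (3 * i + 2)) 0 <;> simp

theorem fl_of {K X : ℕ} {P : ℕ → Bool} (h : ∀ k < K, X.testBit (8 * k) = P k) :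
    Nat.land X (fl (fun _ => true) K) = fl P K := by
  apply Nat.eq_of_testBit_eq
  intro j
  show (X &&& fl (fun _ => true) K).testBit j = _
  rw [Nat.testBit_land, tb_fl, tb_fl]
  by_cases h1 : j % 8 = 0
  · by_cases h2 : j / 8 < K
    · have h3 := h _ h2
      rw [show 8 * (j / 8) = j by omega] at h3
      simp [h1, h2, h3]
    · simp [h2]
  · simp [h1]

theorem nl_one {n x : ℕ} (hx : x < n) : Nat.shiftLeft 1 (Nat.mul 24 x) = nl (fun i => decide (i = x)) n := by
  apply Nat.eq_of_testBit_eq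
  intro j
  show (1 <<< (24 * x)).testBit j = _
  rw [Nat.one_shiftLeft, Nat.testBit_two_pow, tb_nl]
  by_cases h : 24 * x = j
  · have h1 : j % 24 = 0 := by omega
    have h2 : j / 24 = x := by omega
    simp [h, h1, h2, hx]
  · have h1 : ¬ (j % 24 = 0 ∧ j / 24 = x) := by omega
    rw [decide_eq_false h]
    by_cases h2 : j % 24 = 0
    · have h3 : ¬ j / 24 = x := fun h3 => h1 ⟨h2, h3⟩
      simp [h3]
    · simp [h2]

theorem tb_nb {p d : ℕ} (j : ℕ) : (nb p d).testBit j = true ↔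
    d % 2 = 0 ∧ ∃ a < 3, j = 4 * dg p (3 * ((d - 2) / 6) + a) := by
  unfold nb
  rw [zc_eq]
  have e : Nat.mod d 2 = d % 2 := rfl
  rw [e]
  split_ifs with h
  · rw [tb_pf_wd]
    exact ⟨fun h1 => ⟨h, h1⟩, fun h1 => h1.2⟩
  · rw [Nat.zero_testBit]
    exact ⟨fun h1 => absurd h1 (by simp), fun h1 => absurd h1.1 h⟩

theorem tb_pn (p i j : ℕ) : (pn p (wd p i)).testBit j = true ↔ ∃ b < 3, dg p (3 * i + b) % 2 = 0 ∧
    ∃ a < 3, j = 4 * dg p (3 * ((dg p (3 * i + b) - 2) / 6) + a) := by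
  unfold pn
  rw [tb_lor, tb_lor, Bool.or_eq_true, Bool.or_eq_true, wd0, wd1, wd2, tb_nb, tb_nb, tb_nb]
  constructor
  · rintro ((h | h) | h)
    · exact ⟨0, by norm_num, h⟩
    · exact ⟨1, by norm_num, h⟩
    · exact ⟨2, by norm_num, h⟩
  · rintro ⟨a, ha, h⟩
    have : a = 0 ∨ a = 1 ∨ a = 2 := by omega
    rcases this with rfl | rfl | rfl
    · exact Or.inl (Or.inl h)
    · exact Or.inl (Or.inr h)
    · exact Or.inr h

theorem full_pos {p i : ℕ} (h : full p i = true) : ∀ a < 3, dg p (3 * i + a) ≠ 0 := by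
  unfold full at h
  simp only [Bool.and_eq_true, Bool.not_eq_true'] at h
  intro a ha e
  have : a = 0 ∨ a = 1 ∨ a = 2 := by omega
  rcases this with rfl | rfl | rfl
  · rw [add_zero] at e
    rw [e] at h
    exact absurd h.1.1 (by decide)
  · rw [e] at h
    exact absurd h.1.2 (by decide)
  · rw [e] at h
    exact absurd h.2 (by decide)

theorem or3 {P : ℕ → Bool} {i : ℕ} : (P (3 * i) || P (3 * i + 1) || P (3 * i + 2)) = true ↔
    ∃ k, k / 3 = i ∧ P k = true := by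
  rw [Bool.or_eq_true, Bool.or_eq_true]
  constructor
  · rintro ((h | h) | h)
    · exact ⟨_, by omega, h⟩
    · exact ⟨_, by omega, h⟩
    · exact ⟨_, by omega, h⟩
  · rintro ⟨k, hk, h⟩
    rcases port_cases hk with rfl | rfl | rfl
    · exact Or.inl (Or.inl h)
    · exact Or.inl (Or.inr h)
    · exact Or.inr h

/-- the inner nodes of a pick -/
theorem inn_eq {n p x : ℕ} (hx : x < n) :
    inn (fl (fun _ => true) (3 * n)) (nl (fun _ => true) n) x (pf (wd p x)) =
      nl (fun i => decide (i = x) || (dmask p x).testBit i) n := by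
  have h : Nat.land (Nat.shiftRight (pf (wd p x)) 8) (fl (fun _ => true) (3 * n)) =
      fl (fun k => (pf (wd p x)).testBit (8 + 8 * k)) (3 * n) := fl_of fun k _ => by
    show ((pf (wd p x)) >>> 8).testBit _ = _
    rw [Nat.testBit_shiftRight]
  unfold inn
  rw [h, nf_fl, nl_one hx, lor_nl]
  refine nl_congr fun i hi => ?_
  congr 1
  rw [Bool.eq_iff_iff, or3 (P := fun k => (pf (wd p x)).testBit (8 + 8 * k)), dmask_iff]
  constructor
  · rintro ⟨k, hk, h1⟩
    obtain ⟨a, ha, h2⟩ := (tb_pf_wd _ _ _).1 h1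
    exact ⟨3 * x + a, k, by omega, by omega, hk⟩
  · rintro ⟨k, l, hk, h1, h2⟩
    refine ⟨l, h2, (tb_pf_wd _ _ _).2 ⟨k % 3, Nat.mod_lt _ (by norm_num), ?_⟩⟩
    rw [show 3 * x + k % 3 = k by omega, h1]
    omega

/-- the ball of a pick -/
theorem bl_eq {n p x : ℕ} (hx : x < n) (hf : full p x = true) :
    bl (fl (fun _ => true) (3 * n)) (nl (fun _ => true) n) x (pf (wd p x)) (pn p (wd p x)) =
      nl (fun i => (ball p x).testBit i) n := by
  have h : Nat.land (Nat.lor (Nat.lor (Nat.shiftRight (pf (wd p x)) 8) (Nat.shiftRight (pf (wd p x)) 12))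
      (Nat.shiftRight (pn p (wd p x)) 8)) (fl (fun _ => true) (3 * n)) =
      fl (fun k => (pf (wd p x)).testBit (8 + 8 * k) || (pf (wd p x)).testBit (12 + 8 * k) ||
        (pn p (wd p x)).testBit (8 + 8 * k)) (3 * n) := fl_of fun k _ => by
    rw [tb_lor, tb_lor]
    show (((pf (wd p x)) >>> 8).testBit _ || ((pf (wd p x)) >>> 12).testBit _ ||
      ((pn p (wd p x)) >>> 8).testBit _) = _
    rw [Nat.testBit_shiftRight, Nat.testBit_shiftRight, Nat.testBit_shiftRight]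
  unfold bl
  rw [h, nf_fl, nl_one hx, lor_nl]
  refine nl_congr fun i hi => ?_
  rw [Bool.eq_iff_iff, Bool.or_eq_true, decide_eq_true_eq,
    or3 (P := fun k => (pf (wd p x)).testBit (8 + 8 * k) || (pf (wd p x)).testBit (12 + 8 * k) ||
      (pn p (wd p x)).testBit (8 + 8 * k)), ball_iff]
  refine or_congr Iff.rfl ?_
  have hz := full_pos hf
  constructor
  · rintro ⟨k, hk, h1⟩
    rw [Bool.or_eq_true, Bool.or_eq_true, tb_pf_wd, tb_pf_wd, tb_pn] at h1
    rcases h1 with (⟨a, ha, h2⟩ | ⟨a, ha, h2⟩) | ⟨b, hb, h2, a, ha, h3⟩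
    · exact ⟨3 * x + a, by omega, Or.inl ⟨k, by omega, Or.inl hk⟩⟩
    · exact ⟨3 * x + a, by omega, Or.inr ⟨k, by omega, hk⟩⟩
    · have h4 := hz b hb
      obtain ⟨l, h5⟩ : ∃ l, dg p (3 * x + b) = 2 + 2 * l := ⟨dg p (3 * x + b) / 2 - 1, by omega⟩
      refine ⟨3 * x + b, by omega, Or.inl ⟨l, h5, Or.inr ⟨3 * (l / 3) + a, k, by omega, ?_, hk⟩⟩⟩
      rw [h5, show (2 + 2 * l - 2) / 6 = l / 3 by omega] at h3
      omega
  · rintro ⟨k, hk, ⟨l, h1, h2 | ⟨k', l', h2, h3, h4⟩⟩ | ⟨l, h1, h2⟩⟩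
    · refine ⟨l, h2, ?_⟩
      rw [Bool.or_eq_true, Bool.or_eq_true, tb_pf_wd]
      refine Or.inl (Or.inl ⟨k % 3, Nat.mod_lt _ (by norm_num), ?_⟩)
      rw [show 3 * x + k % 3 = k by omega, h1]
      omega
    · refine ⟨l', h4, ?_⟩
      rw [Bool.or_eq_true, tb_pn]
      refine Or.inr ⟨k % 3, Nat.mod_lt _ (by norm_num), ?_⟩
      rw [show 3 * x + k % 3 = k by omega, h1]
      refine ⟨by omega, k' % 3, Nat.mod_lt _ (by norm_num), ?_⟩
      rw [show 3 * ((2 + 2 * l - 2) / 6) + k' % 3 = k' by omega, h3]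
      omega
    · refine ⟨l, h2, ?_⟩
      rw [Bool.or_eq_true, Bool.or_eq_true, tb_pf_wd _ _ (12 + 8 * l)]
      refine Or.inl (Or.inr ⟨k % 3, Nat.mod_lt _ (by norm_num), ?_⟩)
      rw [show 3 * x + k % 3 = k by omega, h1]
      omega

/-- the flags of a mask -/
abbrev nm (M n : ℕ) : ℕ := nl (fun i => M.testBit i) n

theorem pk_cons (n p c u : ℕ) (k : ℕ → ℕ → Bool) (x : ℕ) (L : List ℕ) (M IN : ℕ) :
    pk n p c u k (x :: L) M IN = (Nat.ble (Nat.succ x) n && (Nat.beq (nzf 65793 (wd p x)) 65793 &&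
      Nat.beq (bt M x) 0 && pk n p c u k L (Nat.lor M (bl c u x (pf (wd p x)) (pn p (wd p x))))
        (Nat.lor IN (inn c u x (pf (wd p x)))))) := rfl

/-- the picks -/
theorem pk_of {n p : ℕ} {k : ℕ → ℕ → Bool} : ∀ {L : List ℕ} {M IN : ℕ},
    pk n p (fl (fun _ => true) (3 * n)) (nl (fun _ => true) n) k L (nm M n) (nm IN n) = true →
    pks n p L M = true ∧ k (nm (kms p L M) n) (nm (ims p L IN) n) = true := by
  intro L
  induction L with
  | nil =>
    intro M IN h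
    exact ⟨rfl, h⟩
  | cons x L ih =>
    intro M IN h
    rw [pk_cons, Bool.and_eq_true, Bool.and_eq_true, Bool.and_eq_true, full_wd] at h
    obtain ⟨h1, ⟨h2, h3⟩, h4⟩ := h
    have hx : x < n := Nat.le_of_ble_eq_true h1
    rw [bl_eq hx h2, inn_eq hx, lor_nl, lor_nl] at h4
    have e1 : nl (fun i => M.testBit i || (ball p x).testBit i) n = nm (Nat.lor M (ball p x)) n :=
      nl_congr fun i _ => (tb_lor _ _ _).symm
    have e2 : nl (fun i => IN.testBit i || (decide (i = x) || (dmask p x).testBit i)) n =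
        nm (Nat.lor IN (Nat.lor (Nat.pow 2 x) (dmask p x))) n := nl_congr fun i _ => by
      rw [tb_lor, tb_lor, show Nat.pow 2 x = 2 ^ x from rfl, Nat.testBit_two_pow]
      congr 2
      rw [Bool.eq_iff_iff, decide_eq_true_eq, decide_eq_true_eq]
      exact eq_comm
    rw [e1, e2] at h4
    obtain ⟨a1, a2⟩ := ih h4
    rw [pks, kms, ims, frc_eq, frc_eq, frc_eq]
    refine ⟨?_, a2⟩
    rw [Bool.and_eq_true, Bool.and_eq_true, Bool.and_eq_true, Bool.not_eq_true', tb_eq]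
    refine ⟨⟨⟨h1, h2⟩, ?_⟩, a1⟩
    have h5 := bt_nl (P := fun i => M.testBit i) hx
    rw [h5, nbeq] at h3
    cases h6 : M.testBit x
    · rfl
    · rw [h6] at h3
      exact absurd h3 (by decide)

end W

end EF18
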