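import Pool.Agent.Lib.MP_ef18bd_co.P.WdD

/-!
# Word arithmetic on patterns: sums over the nodes
-/

namespace EF18

namespace W

/-- the number of flags of the ports as a sum over the nodes -/
theorem sm3 (P : ℕ → Bool) (n : ℕ) : sm (fun k => (P k).toNat) (3 * n) = sm (fun i => c3 P i) n := by
  induction n with
  | zero => rfl
  | succ n ih =>
    rw [show 3 * (n + 1) = 3 * n + 1 + 1 + 1 by ring, sm_succ, sm_succ, sm_succ, sm_succ, ih]
    unfold c3
    ring

theorem ct3 {P : ℕ → Bool} {n : ℕ} (hn : 3 * n < 255) : ct (fl P (3 * n)) = sm (fun i => c3 P i) n := by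
  rw [ct_fl hn, sm3]

theorem sm_cg {f g : ℕ → ℕ} {n : ℕ} (h : ∀ i < n, f i = g i) : sm f n = sm g n := by
  induction n with
  | zero => rfl
  | succ n ih => rw [sm_succ, sm_succ, ih fun i hi => h i (by omega), h n (by omega)]

theorem sm_le {f g : ℕ → ℕ} {n : ℕ} (h : ∀ i < n, f i ≤ g i) : sm f n ≤ sm g n := by
  induction n with
  | zero => exact le_rfl
  | succ n ih =>
    rw [sm_succ, sm_succ]
    exact Nat.add_le_add (h n (by omega)) (ih fun i hi => h i (by omega))

theorem sm_add (f g : ℕ → ℕ) (n : ℕ) : sm f n + sm g n = sm (fun i => f i + g i) n := by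
  induction n with
  | zero => rfl
  | succ n ih => rw [sm_succ, sm_succ, sm_succ, ← ih]; ring

theorem sm_mul (a : ℕ) (f : ℕ → ℕ) (n : ℕ) : a * sm f n = sm (fun i => a * f i) n := by
  induction n with
  | zero => rfl
  | succ n ih => rw [sm_succ, sm_succ, ← ih]; ring

/-! ### the inner nodes -/

theorem im_km {p : ℕ} {L : List ℕ} {i : ℕ} (h : (ims p L 0).testBit i = true) :
    (kms p L 0).testBit i = true := by
  rw [ims_iff] at h
  rw [kms_iff]
  rcases h with h | ⟨x, hx, h⟩
  · exact Or.inl h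
  · refine Or.inr ⟨x, hx, ?_⟩
    rw [ball_iff]
    rcases h with rfl | h
    · exact Or.inl rfl
    · obtain ⟨k, l, h1, h2, h3⟩ := dmask_iff.1 h
      exact Or.inr ⟨k, h1, Or.inl ⟨l, h2, Or.inl h3⟩⟩

theorem im_dir {p : ℕ} {L : List ℕ} {i : ℕ} (h : (ims p L 0).testBit i = true) {k l : ℕ} (hk : k / 3 = i)
    (hd : dg p k = 2 + 2 * l) : (kms p L 0).testBit (l / 3) = true := by
  rw [ims_iff] at h
  rw [kms_iff]
  rcases h with h | ⟨x, hx, h⟩
  · rw [Nat.zero_testBit] at h
    exact absurd h (by simp)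
  · refine Or.inr ⟨x, hx, ?_⟩
    rw [ball_iff]
    rcases h with rfl | h
    · exact Or.inr ⟨k, hk, Or.inl ⟨l, hd, Or.inl rfl⟩⟩
    · obtain ⟨k', l', h1, h2, h3⟩ := dmask_iff.1 h
      exact Or.inr ⟨k', h1, Or.inl ⟨l', h2, Or.inr ⟨k, l, by rw [hk, h3], hd, rfl⟩⟩⟩

/-! ### the flags of the digits -/

theorem f0_eq (n p : ℕ) : Nat.xor (fl (fun _ => true) (3 * n)) (nzf (fl (fun _ => true) (3 * n)) p) =
    fl (fun k => Nat.beq (dg p k) 0) (3 * n) := by
  rw [nzf_eq, xor_fl]
  refine fl_congr fun k _ => ?_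
  cases Nat.beq (dg p k) 0 <;> rfl

theorem dg_xor (x y k : ℕ) : dg (Nat.xor x y) k = Nat.xor (dg x k) (dg y k) := by
  apply Nat.eq_of_testBit_eq
  intro j
  show (dg (x ^^^ y) k).testBit j = (dg x k ^^^ dg y k).testBit j
  rw [Nat.testBit_xor, tb_dg', tb_dg', tb_dg', Nat.testBit_xor]
  cases decide (j < 8) <;> simp

theorem byte_x : ∀ b < 256, Nat.beq (Nat.xor b 1) 0 = Nat.beq b 1 := by decide +kernel

theorem f1_eq (n p : ℕ) : Nat.xor (fl (fun _ => true) (3 * n))
    (nzf (fl (fun _ => true) (3 * n)) (Nat.xor p (fl (fun _ => true) (3 * n)))) =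
    fl (fun k => Nat.beq (dg p k) 1) (3 * n) := by
  rw [nzf_eq, xor_fl]
  refine fl_congr fun k hk => ?_
  rw [dg_xor, dg_fl _ hk, Bool.toNat_true, byte_x _ (dg_lt p k)]
  cases Nat.beq (dg p k) 1 <;> rfl

theorem od_eq (n p : ℕ) : Nat.land p (fl (fun _ => true) (3 * n)) =
    fl (fun k => (dg p k).testBit 0) (3 * n) := fl_of fun k _ => by
  rw [tb_dg _ _ _ (by norm_num), add_zero]

theorem byte_d : ∀ b < 256, ((!Nat.beq b 0) ^^ b.testBit 0) = isD b := by decide +kernel

theorem byte_l : ∀ b < 256, (b.testBit 0 ^^ Nat.beq b 1) = isL b := by decide +kernel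

theorem fd_eq (n p : ℕ) : Nat.xor (nzf (fl (fun _ => true) (3 * n)) p)
    (Nat.land p (fl (fun _ => true) (3 * n))) = fl (fun k => isD (dg p k)) (3 * n) := by
  rw [nzf_eq, od_eq, xor_fl]
  exact fl_congr fun k _ => byte_d _ (dg_lt p k)

theorem fl_eq (n p : ℕ) : Nat.xor (Nat.land p (fl (fun _ => true) (3 * n)))
    (fl (fun k => Nat.beq (dg p k) 1) (3 * n)) = fl (fun k => isL (dg p k)) (3 * n) := by
  rw [od_eq, xor_fl]
  exact fl_congr fun k _ => byte_l _ (dg_lt p k)

/-! ### the number of flags at the nodes -/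

theorem c3_le (P : ℕ → Bool) (i : ℕ) : c3 P i ≤ 3 := by
  unfold c3
  have h1 := Bool.toNat_le (P (3 * i))
  have h2 := Bool.toNat_le (P (3 * i + 1))
  have h3 := Bool.toNat_le (P (3 * i + 2))
  omega

theorem tb_q3 {G : ℕ → Bool} {n j : ℕ} : (q3 (nl (fun _ => true) n) (fl G (3 * n))).testBit j =
    (decide (j / 24 < n) && decide (j % 24 < 2) && (c3 G (j / 24)).testBit (j % 24)) := by
  obtain ⟨G', hG'⟩ : ∃ G' : ℕ → Bool, G' = fun k => G k && decide (k < 3 * n) := ⟨_, rfl⟩
  have e0 : fl G (3 * n) = fl G' (3 * n) := fl_congr fun k hk => by rw [hG']; simp [hk]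
  have sh : ∀ s, Nat.shiftRight (fl G (3 * n)) (8 * s) = fl (fun k => G' (k + s)) (3 * n) := by
    intro s
    apply Nat.eq_of_testBit_eq
    intro j
    show ((fl G (3 * n)) >>> (8 * s)).testBit j = _
    rw [Nat.testBit_shiftRight, tb_fl, tb_fl, hG', show (8 * s + j) % 8 = j % 8 by omega,
      show (8 * s + j) / 8 = j / 8 + s by omega]
    by_cases h1 : j / 8 + s < 3 * n
    · have h2 : j / 8 < 3 * n := by omega
      simp [h1, h2]
    · simp [h1]
  have s1 := sh 1
  have s2 := sh 2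
  have e1 : Nat.add (Nat.add (fl G (3 * n)) (Nat.shiftRight (fl G (3 * n)) 8))
      (Nat.shiftRight (fl G (3 * n)) 16) =
      ds (fun k => (G' k).toNat + (G' (k + 1)).toNat + (G' (k + 2)).toNat) (3 * n) := by
    show fl G (3 * n) + Nat.shiftRight (fl G (3 * n)) 8 + Nat.shiftRight (fl G (3 * n)) 16 = _
    rw [show (8 : ℕ) = 8 * 1 from rfl, show (16 : ℕ) = 8 * 2 from rfl, s1, s2, e0, fl_ds, fl_ds, fl_ds,
      ds_add, ds_add]
  have e2 : Nat.mul (nl (fun _ => true) n) 3 = ds (fun k => (decide (k % 3 = 0)).toNat * 3) (3 * n) := by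
    show nl (fun _ => true) n * 3 = _
    unfold nl
    rw [fl_ds, ds_mul]
    simp
  unfold q3
  rw [e1, e2]
  show (_ &&& _ : ℕ).testBit j = _
  have b1 : ∀ k < 3 * n, (G' k).toNat + (G' (k + 1)).toNat + (G' (k + 2)).toNat < 256 := fun k _ => by
    have h1 := Bool.toNat_le (G' k)
    have h2 := Bool.toNat_le (G' (k + 1))
    have h3 := Bool.toNat_le (G' (k + 2))
    omega
  have b2 : ∀ k < 3 * n, (decide (k % 3 = 0)).toNat * 3 < 256 := fun k _ => by
    have h1 := Bool.toNat_le (decide (k % 3 = 0))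
    omega
  rw [Nat.testBit_land, tb_ds b1, tb_ds b2]
  by_cases h1 : j / 24 < n
  · by_cases h2 : j / 8 % 3 = 0
    · have h3 : j / 8 = 3 * (j / 24) := by omega
      have h4 : j % 24 = j % 8 := by omega
      have h5 : j / 8 < 3 * n := by omega
      have h6 : (G' (j / 8)).toNat + (G' (j / 8 + 1)).toNat + (G' (j / 8 + 2)).toNat = c3 G (j / 24) := by
        rw [h3]
        unfold c3
        rw [hG']
        simp only [decide_eq_true (show 3 * (j / 24) < 3 * n by omega),
          decide_eq_true (show 3 * (j / 24) + 1 < 3 * n by omega),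
          decide_eq_true (show 3 * (j / 24) + 2 < 3 * n by omega), Bool.and_true]
      rw [h6, h4]
      have h7 : ((decide (j / 8 % 3 = 0)).toNat * 3).testBit (j % 8) = decide (j % 8 < 2) := by
        rw [decide_eq_true h2, Bool.toNat_true, one_mul]
        have h8 : j % 8 < 8 := Nat.mod_lt _ (by norm_num)
        have : ∀ r < 8, (3 : ℕ).testBit r = decide (r < 2) := by decide
        exact this _ h8
      rw [h7, decide_eq_true h1, decide_eq_true h5]
      cases decide (j % 8 < 2) <;> simp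
    · have h7 : ((decide (j / 8 % 3 = 0)).toNat * 3).testBit (j % 8) = false := by
        rw [decide_eq_false h2]
        simp
      have h8 : ¬ j % 24 < 2 := by omega
      rw [h7, decide_eq_false h8]
      simp
  · have h5 : ¬ j / 8 < 3 * n := by omega
    rw [decide_eq_false h1, decide_eq_false h5]
    simp

theorem c3_cases (P : ℕ → Bool) (i : ℕ) : c3 P i = 0 ∨ c3 P i = 1 ∨ c3 P i = 2 ∨ c3 P i = 3 := by
  have := c3_le P i
  omega

theorem tb_shr (a s j : ℕ) : (Nat.shiftRight a s).testBit j = a.testBit (s + j) := Nat.testBit_shiftRight a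

theorem tb_wo (a b j : ℕ) : (wo a b).testBit j = (a.testBit j && !b.testBit j) := by
  unfold wo
  show (a ^^^ (a &&& b)).testBit j = _
  rw [Nat.testBit_xor, Nat.testBit_land]
  cases a.testBit j <;> cases b.testBit j <;> rfl

theorem tb_land (a b j : ℕ) : (Nat.land a b).testBit j = (a.testBit j && b.testBit j) := Nat.testBit_land a b j

theorem q_one {A G : ℕ → Bool} {n : ℕ} :
    Nat.land (nl A n) (wo (q3 (nl (fun _ => true) n) (fl G (3 * n)))
      (Nat.shiftRight (q3 (nl (fun _ => true) n) (fl G (3 * n))) 1)) =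
      nl (fun i => A i && Nat.beq (c3 G i) 1) n := by
  apply Nat.eq_of_testBit_eq
  intro j
  rw [tb_land, tb_nl, tb_wo, tb_shr, tb_q3, tb_q3, tb_nl]
  by_cases h : j % 24 = 0
  · by_cases h1 : j / 24 < n
    · have h2 : (1 + j) / 24 = j / 24 := by omega
      have h3 : (1 + j) % 24 = 1 := by omega
      rw [h2, h3, h]
      rcases c3_cases G (j / 24) with h4 | h4 | h4 | h4 <;> rw [h4, decide_eq_true h1] <;>
        cases A (j / 24) <;> decide
    · simp [h1]
  · simp [h]

theorem q_two {A G : ℕ → Bool} {n : ℕ} :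
    Nat.land (nl A n) (wo (Nat.shiftRight (q3 (nl (fun _ => true) n) (fl G (3 * n))) 1)
      (q3 (nl (fun _ => true) n) (fl G (3 * n)))) = nl (fun i => A i && Nat.beq (c3 G i) 2) n := by
  apply Nat.eq_of_testBit_eq
  intro j
  rw [tb_land, tb_nl, tb_wo, tb_shr, tb_q3, tb_q3, tb_nl]
  by_cases h : j % 24 = 0
  · by_cases h1 : j / 24 < n
    · have h2 : (1 + j) / 24 = j / 24 := by omega
      have h3 : (1 + j) % 24 = 1 := by omega
      rw [h2, h3, h]
      rcases c3_cases G (j / 24) with h4 | h4 | h4 | h4 <;> rw [h4, decide_eq_true h1] <;>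
        cases A (j / 24) <;> decide
    · simp [h1]
  · simp [h]

theorem q_lt {A B G : ℕ → Bool} {n : ℕ} :
    Nat.land (nl A n) (wo (nl B n) (Nat.shiftRight (q3 (nl (fun _ => true) n) (fl G (3 * n))) 1)) =
      nl (fun i => A i && (B i && Nat.ble (c3 G i) 1)) n := by
  apply Nat.eq_of_testBit_eq
  intro j
  rw [tb_land, tb_nl, tb_wo, tb_shr, tb_q3, tb_nl, tb_nl]
  by_cases h : j % 24 = 0
  · by_cases h1 : j / 24 < n
    · have h2 : (1 + j) / 24 = j / 24 := by omega
      have h3 : (1 + j) % 24 = 1 := by omega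
      rw [h2, h3, h]
      rcases c3_cases G (j / 24) with h4 | h4 | h4 | h4 <;> rw [h4, decide_eq_true h1] <;>
        cases A (j / 24) <;> cases B (j / 24) <;> decide
    · simp [h1]
  · simp [h]

end W

end EF18
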