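import Pool.Agent.Lib.MP_ef18bd_co.P.WdE

/-!
# Word arithmetic on patterns: the survivors
-/

namespace EF18

namespace W

/-- the port leads to a removed node -/
def tm (p M k : ℕ) : Bool := M.testBit (tg (dg p k))

def g0 (p k : ℕ) : Bool := Nat.beq (dg p k) 0

def g1 (p k : ℕ) : Bool := Nat.beq (dg p k) 1

/-- direct to a removed node -/
def gkd (p M k : ℕ) : Bool := isD (dg p k) && tm p M k

/-- linked to a removed node -/
def gkl (p M k : ℕ) : Bool := isL (dg p k) && tm p M k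

/-- direct to a survivor -/
def gsd (p M k : ℕ) : Bool := isD (dg p k) && !tm p M k

/-- linked to a survivor -/
def gsl (p M k : ℕ) : Bool := isL (dg p k) && !tm p M k

/-- a lonely outer vertex behind a removed full node -/
def ge1 (p M k : ℕ) : Bool := isD (dg p k) && tm p M k && !M.testBit (k / 3) &&
  Nat.beq (c3 (sdr p fun i => M.testBit i) (tg (dg p k))) 1 && Nat.beq (c3 (g0 p) (tg (dg p k))) 0

/-- a surviving vertex behind a removed node -/
def gs2 (p M k : ℕ) : Bool := isD (dg p k) && tm p M k && !M.testBit (k / 3) &&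
  Nat.ble 2 (c3 (sdr p fun i => M.testBit i) (tg (dg p k)))

/-- a sure neighbour after the step -/
def gsf (p M k : ℕ) : Bool := gsd p M k || gsl p M k || gs2 p M k

theorem sdn_c3 {p M j : ℕ} (h : M.testBit j = true) : sdn p M j = c3 (sdr p fun i => M.testBit i) j := by
  have key : ∀ k, k / 3 = j → sdp M (dg p k) = (sdr p (fun i => M.testBit i) k).toNat := by
    intro k hk
    unfold sdp sdr isD
    rw [tb_eq, hk]
    beta_reduce
    rw [h, Bool.and_true]
    show (bif Nat.ble 2 (dg p k) && Nat.beq (dg p k % 2) 0 && !M.testBit (tg (dg p k)) then 1 else 0) = _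
    cases (Nat.ble 2 (dg p k) && Nat.beq (dg p k % 2) 0 && !M.testBit (tg (dg p k))) <;> rfl
  unfold sdn c3
  rw [show Nat.mul 3 j = 3 * j from rfl, key _ (by omega), key _ (show (Nat.add (3 * j) 1) / 3 = j by
    show (3 * j + 1) / 3 = j; omega), key _ (show (Nat.add (3 * j) 2) / 3 = j by
    show (3 * j + 2) / 3 = j; omega)]
  rfl

/-- the five kinds of ports -/
def k0 : Fin 5 → Bool := ![true, false, false, false, false]
def k1 : Fin 5 → Bool := ![false, true, false, false, false]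
def ks : Fin 5 → Bool := ![false, false, true, true, false]
def kt : Fin 5 → Bool := ![false, false, false, true, true]
def kk : Fin 5 → ℕ := ![0, 1, 3, 3, 2]

theorem port_kind {p M k : ℕ} (hM : M.testBit (k / 3) = false) : ∃ t : Fin 5, g0 p k = k0 t ∧ g1 p k = k1 t ∧
    gsf p M k = ks t ∧ (gkd p M k || gkl p M k) = kt t ∧ pc p M (dg p k) = kk t := by
  unfold g0 g1 gsf gkd gkl gsd gsl gs2 pc
  rcases digit_cases (dg p k) with h | h | ⟨l, h⟩ | ⟨l, h⟩
  · rw [h]
    exact ⟨0, rfl, rfl, rfl, rfl, rfl⟩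
  · rw [h]
    exact ⟨1, rfl, rfl, rfl, rfl, rfl⟩
  · have e1 : Nat.beq (2 + 2 * l) 0 = false := by
      rw [← Bool.not_eq_true, nbeq]; omega
    have e2 : Nat.beq (2 + 2 * l) 1 = false := by
      rw [← Bool.not_eq_true, nbeq]; omega
    have e3 : isD (2 + 2 * l) = true := W.isD_iff.2 ⟨l, rfl⟩
    have e4 : isL (2 + 2 * l) = false := by
      rw [← Bool.not_eq_true, W.isL_iff]; rintro ⟨l', h'⟩; omega
    have e5 : Nat.beq (Nat.mod (2 + 2 * l) 2) 0 = true := nbeq.2 (by show (2 + 2 * l) % 2 = 0; omega)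
    have e6 : tm p M k = M.testBit (tg (2 + 2 * l)) := by unfold tm; rw [h]
    rw [e6, h, e1, e2, e3, e4, e5, tb_eq, hM]
    cases ht : M.testBit (tg (2 + 2 * l))
    · exact ⟨2, rfl, rfl, by simp [ks], by simp [kt], rfl⟩
    · rw [← sdn_c3 ht]
      cases hs : Nat.ble 2 (sdn p M (tg (2 + 2 * l)))
      · exact ⟨4, rfl, rfl, by simp [ks], by simp [kt], rfl⟩
      · exact ⟨3, rfl, rfl, by simp [ks], by simp [kt], rfl⟩
  · have e1 : Nat.beq (3 + 2 * l) 0 = false := by
      rw [← Bool.not_eq_true, nbeq]; omega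
    have e2 : Nat.beq (3 + 2 * l) 1 = false := by
      rw [← Bool.not_eq_true, nbeq]; omega
    have e4 : isL (3 + 2 * l) = true := W.isL_iff.2 ⟨l, rfl⟩
    have e3 : isD (3 + 2 * l) = false := by
      rw [← Bool.not_eq_true, W.isD_iff]; rintro ⟨l', h'⟩; omega
    have e5 : Nat.beq (Nat.mod (3 + 2 * l) 2) 0 = false := by
      rw [← Bool.not_eq_true, nbeq]; show ¬ (3 + 2 * l) % 2 = 0; omega
    have e6 : tm p M k = M.testBit (tg (3 + 2 * l)) := by unfold tm; rw [h]
    rw [e6, h, e1, e2, e3, e4, e5, tb_eq, hM]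
    cases ht : M.testBit (tg (3 + 2 * l))
    · exact ⟨2, rfl, rfl, by simp [ks], by simp [kt], rfl⟩
    · exact ⟨4, rfl, rfl, by simp [ks], by simp [kt], rfl⟩

/-- any flag at a node -/
def a3 (P : ℕ → Bool) (i : ℕ) : Bool := P (3 * i) || P (3 * i + 1) || P (3 * i + 2)

theorem full_a3 {p i : ℕ} : full p i = !a3 (g0 p) i := by
  unfold full a3 g0
  cases Nat.beq (dg p (3 * i)) 0 <;> cases Nat.beq (dg p (3 * i + 1)) 0 <;>
    cases Nat.beq (dg p (3 * i + 2)) 0 <;> rfl

/-- not a sure survivor -/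
def gns (p M i : ℕ) : Bool := !M.testBit i && !(a3 (gsf p M) i && !M.testBit i)

/-- next to a removed node only -/
def gat (p M i : ℕ) : Bool := a3 (fun k => gkd p M k || gkl p M k) i && gns p M i

/-- the ports with digit `0` or `1` -/
def g01 (p k : ℕ) : Bool := g0 p k || g1 p k

theorem loc : ∀ (D : Fin 3) (a b c : Fin 5),
    Nat.beq (ndc D (kk a) (kk b) (kk c)) 9 = (ks a || ks b || ks c) ∧
    ((k0 a || k0 b || k0 c) && Nat.beq (ndc D (kk a) (kk b) (kk c)) 0) =
      ((kt a || kt b || kt c) && !(ks a || ks b || ks c) && ((k0 a || k0 b || k0 c) &&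
        (Nat.beq D 2 || (Nat.beq D 1 && Nat.ble ((k0 a || k1 a).toNat + (k0 b || k1 b).toNat +
          (k0 c || k1 c).toNat) 1)))) ∧
    (Nat.beq D 0 = true → Nat.beq (ndc D (kk a) (kk b) (kk c)) 1 =
      ((kt a || kt b || kt c) && !(ks a || ks b || ks c) && Nat.beq ((k0 a || k1 a).toNat +
        (k0 b || k1 b).toNat + (k0 c || k1 c).toNat) 1)) ∧
    (Nat.beq D 0 = true → Nat.beq (ndc D (kk a) (kk b) (kk c)) 2 =
      ((kt a || kt b || kt c) && !(ks a || ks b || ks c) && Nat.beq ((k0 a || k1 a).toNat +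
        (k0 b || k1 b).toNat + (k0 c || k1 c).toNat) 2)) ∧
    (Nat.beq D 1 = true → Nat.beq (ndc D (kk a) (kk b) (kk c)) 1 =
      ((kt a || kt b || kt c) && !(ks a || ks b || ks c) && Nat.beq ((k0 a || k1 a).toNat +
        (k0 b || k1 b).toNat + (k0 c || k1 c).toNat) 2)) := by decide +kernel

/-- the survivors, all facts -/
theorem surv {D p M i : ℕ} (hD : D < 3) (hM : M.testBit i = false) :
    Nat.beq (nd D p M i) 9 = a3 (gsf p M) i ∧
    (a3 (g0 p) i && Nat.beq (nd D p M i) 0) = (gat p M i && (a3 (g0 p) i &&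
      (Nat.beq D 2 || (Nat.beq D 1 && Nat.ble (c3 (g01 p) i) 1)))) ∧
    (D = 0 → Nat.beq (nd D p M i) 1 = (gat p M i && Nat.beq (c3 (g01 p) i) 1)) ∧
    (D = 0 → Nat.beq (nd D p M i) 2 = (gat p M i && Nat.beq (c3 (g01 p) i) 2)) ∧
    (D = 1 → Nat.beq (nd D p M i) 1 = (gat p M i && Nat.beq (c3 (g01 p) i) 2)) := by
  obtain ⟨a, a1, a2, a4, a5, a6⟩ := port_kind (p := p) (M := M) (k := 3 * i) (by
    rw [show 3 * i / 3 = i by omega]; exact hM)
  obtain ⟨b, b1, b2, b4, b5, b6⟩ := port_kind (p := p) (M := M) (k := 3 * i + 1) (by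
    rw [show (3 * i + 1) / 3 = i by omega]; exact hM)
  obtain ⟨c, c1, c2, c4, c5, c6⟩ := port_kind (p := p) (M := M) (k := 3 * i + 2) (by
    rw [show (3 * i + 2) / 3 = i by omega]; exact hM)
  have e1 : nd D p M i = ndc D (kk a) (kk b) (kk c) := by
    unfold nd
    rw [frc_eq, ← a6, ← b6, ← c6]
    rfl
  have e2 : a3 (gsf p M) i = (ks a || ks b || ks c) := by unfold a3; rw [a4, b4, c4]
  have e3 : a3 (g0 p) i = (k0 a || k0 b || k0 c) := by unfold a3; rw [a1, b1, c1]
  have e4 : gat p M i = ((kt a || kt b || kt c) && !(ks a || ks b || ks c)) := by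
    unfold gat gns
    rw [e2, hM]
    unfold a3
    beta_reduce
    rw [a5, b5, c5]
    cases (ks a || ks b || ks c) <;> simp
  have e5 : c3 (g01 p) i = (k0 a || k1 a).toNat + (k0 b || k1 b).toNat + (k0 c || k1 c).toNat := by
    unfold c3 g01
    rw [a1, a2, b1, b2, c1, c2]
  rw [e1, e2, e3, e4, e5]
  obtain ⟨h1, h2, h3, h4, h5⟩ := loc ⟨D, hD⟩ a b c
  exact ⟨h1, h2, fun h => h3 (by rw [nbeq]; exact h), fun h => h4 (by rw [nbeq]; exact h),
    fun h => h5 (by rw [nbeq]; exact h)⟩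

theorem bif_toNat (c : Bool) : (bif c then 0 else 1) = (!c).toNat := by cases c <;> rfl

theorem n00_W {D p M n : ℕ} (hD : D < 3) :
    n00 D n p M = sm (fun i => (gns p M i && !a3 (g0 p) i).toNat) n := by
  unfold n00
  refine sm_cg fun i _ => ?_
  rw [bif_toNat, tb_eq]
  congr 1
  cases hM : M.testBit i
  · rw [(surv hD hM).1, full_a3]
    unfold gns
    rw [hM]
    cases a3 (g0 p) i <;> cases a3 (gsf p M) i <;> rfl
  · unfold gns
    rw [hM]
    rfl

theorem ndr_W {D p M n : ℕ} (hD : D < 3) : ndr D n p M = sm (fun i => (gat p M i && (a3 (g0 p) i &&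
    (Nat.beq D 2 || (Nat.beq D 1 && Nat.ble (c3 (g01 p) i) 1)))).toNat) n := by
  unfold ndr
  refine sm_cg fun i _ => ?_
  rw [bif_toNat, tb_eq]
  congr 1
  cases hM : M.testBit i
  · rw [← (surv hD hM).2.1, full_a3]
    cases a3 (g0 p) i <;> cases Nat.beq (nd D p M i) 0 <;> rfl
  · unfold gat gns
    rw [hM]
    simp

theorem ndn_W {D p M n j : ℕ} {Q : ℕ → Bool} (h : ∀ i, M.testBit i = false →
    Nat.beq (nd D p M i) j = (gat p M i && Q i)) : ndn D n p M j = sm (fun i => (gat p M i && Q i).toNat) n := by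
  unfold ndn
  refine sm_cg fun i _ => ?_
  rw [tb_eq]
  cases hM : M.testBit i
  · rw [cond_false, h i hM]
    cases (gat p M i && Q i) <;> rfl
  · unfold gat gns
    rw [hM]
    simp

/-- the new lonely outer vertices at a survivor -/
theorem exd_W {p M k : ℕ} (hM : M.testBit (k / 3) = false) :
    (bif Nat.beq (dg p k) 1 then 1 else 0) + exd p M (dg p k) =
      (g1 p k || gkl p M k || ge1 p M k).toNat := by
  unfold g1 gkl ge1 exd
  rcases digit_cases (dg p k) with h | h | ⟨l, h⟩ | ⟨l, h⟩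
  · rw [h]; rfl
  · rw [h]; rfl
  · have e2 : Nat.beq (2 + 2 * l) 1 = false := by
      rw [← Bool.not_eq_true, nbeq]; omega
    have e3 : isD (2 + 2 * l) = true := W.isD_iff.2 ⟨l, rfl⟩
    have e4 : isL (2 + 2 * l) = false := by
      rw [← Bool.not_eq_true, W.isL_iff]; rintro ⟨l', h'⟩; omega
    have e5 : Nat.beq (Nat.mod (2 + 2 * l) 2) 1 = false := by
      rw [← Bool.not_eq_true, nbeq]; show ¬ (2 + 2 * l) % 2 = 1; omega
    have e6 : tm p M k = M.testBit (tg (2 + 2 * l)) := by unfold tm; rw [h]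
    have e7 : Nat.ble 2 (2 + 2 * l) = true := Nat.ble_eq_true_of_le (by omega)
    rw [e6, h, e2, e3, e4, e5, e7, tb_eq, hM]
    cases ht : M.testBit (tg (2 + 2 * l))
    · simp
    · rw [← sdn_c3 ht, full_a3]
      have e8 : Nat.beq (c3 (g0 p) (tg (2 + 2 * l))) 0 = !a3 (g0 p) (tg (2 + 2 * l)) := by
        unfold c3 a3
        cases g0 p (3 * tg (2 + 2 * l)) <;> cases g0 p (3 * tg (2 + 2 * l) + 1) <;>
          cases g0 p (3 * tg (2 + 2 * l) + 2) <;> rfl
      rw [e8]
      cases Nat.beq (sdn p M (tg (2 + 2 * l))) 1 <;> cases a3 (g0 p) (tg (2 + 2 * l)) <;> rfl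
  · have e2 : Nat.beq (3 + 2 * l) 1 = false := by
      rw [← Bool.not_eq_true, nbeq]; omega
    have e4 : isL (3 + 2 * l) = true := W.isL_iff.2 ⟨l, rfl⟩
    have e3 : isD (3 + 2 * l) = false := by
      rw [← Bool.not_eq_true, W.isD_iff]; rintro ⟨l', h'⟩; omega
    have e5 : Nat.beq (Nat.mod (3 + 2 * l) 2) 1 = true := nbeq.2 (by show (3 + 2 * l) % 2 = 1; omega)
    have e6 : tm p M k = M.testBit (tg (3 + 2 * l)) := by unfold tm; rw [h]
    have e7 : Nat.ble 2 (3 + 2 * l) = true := Nat.ble_eq_true_of_le (by omega)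
    rw [e6, h, e2, e3, e4, e5, e7, tb_eq]
    cases ht : M.testBit (tg (3 + 2 * l)) <;> rfl

/-- the ports of sure survivors which count -/
def gka (p M k : ℕ) : Bool := (g1 p k || gkl p M k || ge1 p M k) &&
  (a3 (gsf p M) (k / 3) && !M.testBit (k / 3))

theorem kaW_W {D p M n : ℕ} (hD : D < 3) : kaW D n p M = sm (fun i => c3 (gka p M) i) n := by
  unfold kaW
  refine sm_cg fun i _ => ?_
  have d0 : 3 * i / 3 = i := by omega
  have d1 : (3 * i + 1) / 3 = i := by omega
  have d2 : (3 * i + 2) / 3 = i := by omega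
  unfold c3 gka
  rw [tb_eq, d0, d1, d2]
  cases hM : M.testBit i
  · rw [(surv hD hM).1]
    cases hs : a3 (gsf p M) i
    · simp
    · have h0 := exd_W (p := p) (M := M) (k := 3 * i) (by rw [d0]; exact hM)
      have h1 := exd_W (p := p) (M := M) (k := 3 * i + 1) (by rw [d1]; exact hM)
      have h2 := exd_W (p := p) (M := M) (k := 3 * i + 2) (by rw [d2]; exact hM)
      simp only [Bool.false_or, Bool.not_true, cond_false, Bool.not_false, Bool.and_true]
      rw [← h0, ← h1, ← h2]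
      have e1 : dn p i = (bif Nat.beq (dg p (3 * i)) 1 then 1 else 0) +
        (bif Nat.beq (dg p (3 * i + 1)) 1 then 1 else 0) + (bif Nat.beq (dg p (3 * i + 2)) 1 then 1 else 0) :=
        EF18.dn_eq p i
      have e2 : exn p M i = exd p M (dg p (3 * i)) + exd p M (dg p (3 * i + 1)) +
          exd p M (dg p (3 * i + 2)) := by
        unfold exn
        rw [frc_eq]
        rfl
      show dn p i + exn p M i = _
      rw [e1, e2]
      ring
  · simp

end W

end EF18
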