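import Pool.Agent.Lib.MP_ef18bd_co.P.WdF

/-!
# Word arithmetic on patterns: the test of rule W

`lfW_leaf`: for a well formed pattern the fast test gives the leaf of rule W.
-/

namespace EF18

namespace W

/-! ### removed nodes -/

def r0 : Fin 6 → Bool := ![true, false, false, false, false, false]
def r1 : Fin 6 → Bool := ![false, true, false, false, false, false]
def r3 : Fin 6 → Bool := ![false, false, false, true, false, false]
def r5 : Fin 6 → Bool := ![false, false, false, false, true, false]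
def rc : Fin 6 → ℕ := ![0, 1, 2, 3, 5, 6]

theorem rem_kind {p M k : ℕ} : ∃ t : Fin 6, g0 p k = r0 t ∧ g1 p k = r1 t ∧ gsd p M k = r3 t ∧
    gkl p M k = r5 t ∧ kc M 0 (dg p k) = rc t := by
  unfold g0 g1 gsd gkl
  rcases digit_cases (dg p k) with h | h | ⟨l, h⟩ | ⟨l, h⟩
  · rw [h]
    exact ⟨0, rfl, rfl, rfl, rfl, rfl⟩
  · rw [h]
    exact ⟨1, rfl, rfl, rfl, rfl, rfl⟩
  · have e1 : Nat.beq (2 + 2 * l) 0 = false := by
      rw [← Bool.not_eq_true, nbeq]; omega
    have e2 : Nat.beq (2 + 2 * l) 1 = false := by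
      rw [← Bool.not_eq_true, nbeq]; omega
    have e3 : isD (2 + 2 * l) = true := W.isD_iff.2 ⟨l, rfl⟩
    have e4 : isL (2 + 2 * l) = false := by
      rw [← Bool.not_eq_true, W.isL_iff]; rintro ⟨l', h'⟩; omega
    have e6 : tm p M k = M.testBit (l / 3) := by unfold tm; rw [h, W.tg_two]
    rw [e6, h, e1, e2, e3, e4, kc_dir, Nat.zero_testBit]
    cases M.testBit (l / 3)
    · exact ⟨3, rfl, rfl, rfl, rfl, rfl⟩
    · exact ⟨2, rfl, rfl, rfl, rfl, rfl⟩
  · have e1 : Nat.beq (3 + 2 * l) 0 = false := by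
      rw [← Bool.not_eq_true, nbeq]; omega
    have e2 : Nat.beq (3 + 2 * l) 1 = false := by
      rw [← Bool.not_eq_true, nbeq]; omega
    have e4 : isL (3 + 2 * l) = true := W.isL_iff.2 ⟨l, rfl⟩
    have e3 : isD (3 + 2 * l) = false := by
      rw [← Bool.not_eq_true, W.isD_iff]; rintro ⟨l', h'⟩; omega
    have e6 : tm p M k = M.testBit (l / 3) := by unfold tm; rw [h, W.tg_three]
    rw [e6, h, e1, e2, e3, e4, kc_lnk, Nat.zero_testBit]
    cases M.testBit (l / 3)
    · exact ⟨5, rfl, rfl, rfl, rfl, rfl⟩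
    · exact ⟨4, rfl, rfl, rfl, rfl, rfl⟩

theorem tabK_val : ∀ a b c : Fin 6, 18 + 12 * ((r1 a).toNat + (r1 b).toNat + (r1 c).toNat) +
    9 * ((r5 a).toNat + (r5 b).toNat + (r5 c).toNat) ≤ ent tK (rc a + 7 * rc b + 49 * rc c) +
      18 * ((r3 a || r0 a) || (r3 b || r0 b) || (r3 c || r0 c)).toNat := by decide +kernel

theorem tabI_val : ∀ a b c : Fin 6, (r3 a || r3 b || r3 c) = false →
    18 + 12 * ((r1 a).toNat + (r1 b).toNat + (r1 c).toNat) +
    9 * ((r5 a).toNat + (r5 b).toNat + (r5 c).toNat) ≤ ent tI (rc a + 7 * rc b + 49 * rc c) := by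
  decide +kernel

/-- the value of a removed node -/
theorem val_W {p : ℕ} {L : List ℕ} {i : ℕ} : 18 + 12 * c3 (g1 p) i + 9 * c3 (gkl p (kms p L 0)) i ≤
    (bif tb (ims p L 0) i then kval tI p (kms p L 0) 0 i else kval tK p (kms p L 0) 0 i) +
      18 * (a3 (fun k => gsd p (kms p L 0) k || g0 p k) i && !(ims p L 0).testBit i).toNat := by
  obtain ⟨a, a1, a2, a4, a5, a6⟩ := rem_kind (p := p) (M := kms p L 0) (k := 3 * i)
  obtain ⟨b, b1, b2, b4, b5, b6⟩ := rem_kind (p := p) (M := kms p L 0) (k := 3 * i + 1)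
  obtain ⟨c, c1, c2, c4, c5, c6⟩ := rem_kind (p := p) (M := kms p L 0) (k := 3 * i + 2)
  rw [tb_eq, EF18.kval_eq, EF18.kval_eq, a6, b6, c6]
  unfold c3 a3
  beta_reduce
  rw [a2, b2, c2, a5, b5, c5, a4, b4, c4, a1, b1, c1]
  cases hI : (ims p L 0).testBit i
  · have := tabK_val a b c
    rw [cond_false, Bool.not_false, Bool.and_true]
    exact this
  · have key : ∀ k, k / 3 = i → gsd p (kms p L 0) k = false := by
      intro k hk
      rw [← Bool.not_eq_true]
      intro h
      unfold gsd tm at h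
      rw [Bool.and_eq_true, W.isD_iff, Bool.not_eq_true'] at h
      obtain ⟨⟨l, h1⟩, h2⟩ := h
      rw [h1, W.tg_two, im_dir hI hk h1] at h2
      exact absurd h2 (by simp)
    have h3 := tabI_val a b c (by
      rw [← a4, ← b4, ← c4, key _ (by omega), key _ (by omega), key _ (by omega)]; rfl)
    rw [cond_true, Bool.not_true, Bool.and_false]
    exact le_trans h3 (Nat.le_add_right _ _)

theorem dn_c3 (p i : ℕ) : dn p i = c3 (g1 p) i := by
  rw [EF18.dn_eq]
  unfold c3 g1
  cases Nat.beq (dg p (3 * i)) 1 <;> cases Nat.beq (dg p (3 * i + 1)) 1 <;>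
    cases Nat.beq (dg p (3 * i + 2)) 1 <;> rfl

theorem opn_c3 (p i : ℕ) : opn p i = c3 (g0 p) i := by
  unfold opn
  rw [frc_eq]
  unfold c3 g0
  show Nat.add (Nat.add (bif Nat.beq (dg p (3 * i)) 0 then 1 else 0)
    (bif Nat.beq (dg p (3 * i + 1)) 0 then 1 else 0)) (bif Nat.beq (dg p (3 * i + 2)) 0 then 1 else 0) = _
  cases Nat.beq (dg p (3 * i)) 0 <;> cases Nat.beq (dg p (3 * i + 1)) 0 <;>
    cases Nat.beq (dg p (3 * i + 2)) 0 <;> rfl

theorem c3_mask (P : ℕ → Bool) (M i : ℕ) : c3 (fun k => P k && M.testBit (k / 3)) i =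
    bif M.testBit i then c3 P i else 0 := by
  have d0 : 3 * i / 3 = i := by omega
  have d1 : (3 * i + 1) / 3 = i := by omega
  have d2 : (3 * i + 2) / 3 = i := by omega
  unfold c3
  beta_reduce
  rw [d0, d1, d2]
  cases M.testBit i <;> simp

theorem a3_mask (P : ℕ → Bool) (M i : ℕ) : a3 (fun k => P k && M.testBit (k / 3)) i =
    (a3 P i && M.testBit i) := by
  have d0 : 3 * i / 3 = i := by omega
  have d1 : (3 * i + 1) / 3 = i := by omega
  have d2 : (3 * i + 2) / 3 = i := by omega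
  unfold a3
  beta_reduce
  rw [d0, d1, d2]
  cases M.testBit i <;> simp

theorem dnt_W (n p : ℕ) : dnt n p = sm (fun i => c3 (g1 p) i) n := sm_cg fun i _ => dn_c3 p i

theorem dnk_W (n p M : ℕ) : dnk n p M = sm (fun i => c3 (fun k => g1 p k && M.testBit (k / 3)) i) n :=
  sm_cg fun i _ => by rw [c3_mask, tb_eq, dn_c3]

theorem opm2_W (n p : ℕ) (L : List ℕ) : opm2 n p (kms p L 0) (ims p L 0) =
    sm (fun i => c3 (fun k => g0 p k && (kms p L 0).testBit (k / 3)) i) n +
      sm (fun i => c3 (fun k => g0 p k && (ims p L 0).testBit (k / 3)) i) n := by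
  rw [sm_add]
  refine sm_cg fun i _ => ?_
  rw [c3_mask, c3_mask, tb_eq, tb_eq, opn_c3]
  cases hI : (ims p L 0).testBit i
  · cases (kms p L 0).testBit i <;> rfl
  · rw [im_km hI]
    show 2 * c3 (g0 p) i = c3 (g0 p) i + c3 (g0 p) i
    ring

theorem evs_W (n p : ℕ) (L : List ℕ) : 18 * sm (fun i => ((kms p L 0).testBit i).toNat) n +
    12 * sm (fun i => c3 (fun k => g1 p k && (kms p L 0).testBit (k / 3)) i) n +
    9 * sm (fun i => c3 (fun k => gkl p (kms p L 0) k && (kms p L 0).testBit (k / 3)) i) n ≤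
    evs tK tI n p (kms p L 0) (ims p L 0) + 18 * sm (fun i => ((a3 (fun k => gsd p (kms p L 0) k || g0 p k) i &&
      (kms p L 0).testBit i) && !(ims p L 0).testBit i).toNat) n := by
  unfold evs
  rw [sm_mul, sm_mul, sm_mul, sm_mul, sm_add, sm_add, sm_add]
  refine sm_le fun i _ => ?_
  rw [c3_mask, c3_mask, tb_eq (kms p L 0)]
  have h := val_W (p := p) (L := L) (i := i)
  cases (kms p L 0).testBit i
  · simp
  · simp only [cond_true, Bool.toNat_true, Bool.and_true]
    rw [mul_one]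
    exact h

/-! ### no inner open ports -/

theorem fo_zero {p j : ℕ} (h : a3 (g0 p) j = false) : Nat.beq (dg p (fo p j)) 0 = false := by
  rw [← Bool.not_eq_true] at h ⊢
  intro h1
  refine h ?_
  unfold a3
  rw [or3]
  exact ⟨fo p j, fo_div p j, h1⟩

theorem kin_nil {n p M IN : ℕ} (h : (∀ i < n, IN.testBit i = true → a3 (g0 p) i = false) ∨
    ∀ i < n, M.testBit i = false → a3 (g0 p) i = false) : ∀ m ≤ n, kin n p M IN m = [] := by
  intro m
  induction m with
  | zero => intro _; rfl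
  | succ t ih =>
    intro hm
    rw [kin, ih (by omega), tb_eq]
    cases hI : IN.testBit t
    · rfl
    · rcases h with h | h
      · rw [fo_zero (h t (by omega) hI)]
        rfl
      · have key : ∀ m ≤ n, kia n p M t m = [] := by
          intro m
          induction m with
          | zero => intro _; rfl
          | succ s ih2 =>
            intro hs
            rw [kia, ih2 (by omega), tb_eq]
            cases hM : M.testBit s
            · rw [fo_zero (h s (by omega) hM)]
              rfl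
            · rfl
        rw [key n le_rfl]
        cases Nat.beq (dg p (fo p t)) 0 <;> rfl

theorem fl_zero {P : ℕ → Bool} {K : ℕ} (h : fl P K = 0) {k : ℕ} (hk : k < K) : P k = false := by
  have h1 := dg_fl P hk
  rw [h] at h1
  have h2 : dg 0 k = 0 := by unfold dg; simp
  rw [h2] at h1
  cases hP : P k
  · rfl
  · rw [hP] at h1
    exact absurd h1 (by decide)

theorem nl_zero {P : ℕ → Bool} {n : ℕ} (h : nl P n = 0) {i : ℕ} (hi : i < n) : P i = false := by
  have h1 := bt_nl (P := P) hi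
  rw [h] at h1
  have h2 : bt 0 i = 0 := by
    show (0 >>> (24 * i)) % 2 = 0
    simp
  rw [h2] at h1
  cases hP : P i
  · rfl
  · rw [hP] at h1
    exact absurd h1 (by decide)

/-! ### the numbers -/

theorem nn_W {D n p M A : ℕ} (hD : D < 3) (hn : 3 * n < 255) :
    nn D (nl (fun _ => true) n) (fl (g0 p) (3 * n)) (fl (g1 p) (3 * n)) (nl (a3 (g0 p)) n) (nl (gat p M) n) A =
      ndr D n p M + xN D n p M A := by
  have e1 : Nat.lor (fl (g0 p) (3 * n)) (fl (g1 p) (3 * n)) = fl (g01 p) (3 * n) := lor_fl _ _ _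
  unfold nn
  have hD3 : D = 0 ∨ D = 1 ∨ D = 2 := by omega
  rcases hD3 with rfl | rfl | rfl
  · rw [zc_zero, fz_eq, fz_eq, fz_eq, e1, q_one, q_two, ct_nl hn, ct_nl hn, ndr_W hD,
      ← ndn_W (j := 1) fun i hi => (surv hD hi).2.2.1 rfl,
      ← ndn_W (j := 2) fun i hi => (surv hD hi).2.2.2.1 rfl, zc_eq]
    have e2 : sm (fun i => (gat p M i && (a3 (g0 p) i && (Nat.beq 0 2 || (Nat.beq 0 1 &&
        Nat.ble (c3 (g01 p) i) 1)))).toNat) n = 0 := by
      have : ∀ m, sm (fun i => (gat p M i && (a3 (g0 p) i && (Nat.beq 0 2 || (Nat.beq 0 1 &&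
        Nat.ble (c3 (g01 p) i) 1)))).toNat) m = 0 := by
        intro m
        induction m with
        | zero => rfl
        | succ m ih =>
          rw [sm_succ, ih]
          cases gat p M m <;> cases a3 (g0 p) m <;> rfl
      exact this n
    rw [e2, zero_add]
    unfold xN
    split_ifs with h
    · rw [h]; rfl
    · rw [show Nat.beq A 0 = false by rw [← Bool.not_eq_true, nbeq]; exact h, frc_eq]
      rfl
  · rw [show (1 : ℕ) = 0 + 1 from rfl, zc_succ, show Nat.sub (0 + 1) 1 = 0 from rfl, zc_zero, fz_eq, fz_eq,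
      e1, q_lt, q_two, ct_nl hn, ct_nl hn, ndr_W hD,
      ← ndn_W (j := 1) fun i hi => (surv hD hi).2.2.2.2 rfl, zc_eq]
    have e2 : sm (fun i => (gat p M i && (a3 (g0 p) i && (Nat.beq (0 + 1) 2 || (Nat.beq (0 + 1) 1 &&
        Nat.ble (c3 (g01 p) i) 1)))).toNat) n =
        sm (fun i => (gat p M i && (a3 (g0 p) i && Nat.ble (c3 (g01 p) i) 1)).toNat) n :=
      sm_cg fun i _ => by
        rw [show Nat.beq (0 + 1) 2 = false from rfl, show Nat.beq (0 + 1) 1 = true from rfl]
        rfl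
    rw [e2]
    refine congr_arg₂ (fun a b : ℕ => a + b) rfl ?_
    unfold xN
    split_ifs with h
    · rw [h]; rfl
    · rw [show Nat.beq A 0 = false by rw [← Bool.not_eq_true, nbeq]; exact h, frc_eq]
      rfl
  · rw [show (2 : ℕ) = 1 + 1 from rfl, zc_succ, show Nat.sub (1 + 1) 1 = 0 + 1 from rfl, zc_succ, land_nl,
      ct_nl hn, ndr_W hD]
    have e2 : sm (fun i => (gat p M i && (a3 (g0 p) i && (Nat.beq (1 + 1) 2 || (Nat.beq (1 + 1) 1 &&
        Nat.ble (c3 (g01 p) i) 1)))).toNat) n = sm (fun i => (gat p M i && a3 (g0 p) i).toNat) n :=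
      sm_cg fun i _ => by
        rw [show Nat.beq (1 + 1) 2 = true from rfl]
        cases gat p M i <;> cases a3 (g0 p) i <;> rfl
    rw [e2]
    refine congr_arg₂ (fun a b : ℕ => a + b) rfl ?_
    unfold xN
    by_cases h : A = 0
    · rw [h]; rfl
    · rw [show Nat.beq A 0 = false by rw [← Bool.not_eq_true, nbeq]; exact h]
      rfl

end W

end EF18
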