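import Pool.Agent.Lib.MP_ef18bd_co.P.WdG

/-!
# The fast test of rule W for a leaf

`lfW_leaf`: for a well formed pattern the test `lfW` gives the leaf of rule W.
-/

namespace EF18

namespace W

theorem fz_val {α : Type} (n : ℕ) (f : ℕ → α) : fz n f = f n := by cases n <;> rfl

theorem gs_d (p M k : ℕ) : (isD (dg p k) && !gkd p M k) = gsd p M k := by
  unfold gkd gsd
  cases isD (dg p k) <;> cases tm p M k <;> rfl

theorem gs_l (p M k : ℕ) : (isL (dg p k) && !gkl p M k) = gsl p M k := by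
  unfold gkl gsl
  cases isL (dg p k) <;> cases tm p M k <;> rfl

/-- the numbers of the test -/
theorem lf1_of {D n p l Km Im : ℕ} (hw : Wf n p) (hD : D < 3) (hn : 3 * n < 255)
    (h : lf1 D n p l (fl (fun _ => true) (3 * n)) (nl (fun _ => true) n) (nm Km n) (nm Im n) = true) :
    ((∀ i < n, Im.testBit i = true → a3 (g0 p) i = false) ∨
      ∀ i < n, Km.testBit i = false → a3 (g0 p) i = false) ∧
    ∀ A, A = sm (fun i => c3 (fun k => g0 p k && Km.testBit (k / 3)) i) n +
      sm (fun i => c3 (fun k => g0 p k && Im.testBit (k / 3)) i) n →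
    tst D l (n00 D n p Km) (ndr D n p Km + xN D n p Km A) (dnt n p) (dnk n p Km)
      (sm (fun i => c3 (fun k => gkl p Km k && Km.testBit (k / 3)) i) n) (kaW D n p Km)
      (sm (fun i => (Km.testBit i).toNat) n)
      (sm (fun i => ((a3 (fun k => gsd p Km k || g0 p k) i && Km.testBit i) && !Im.testBit i).toNat) n) =
        true := by
  have d0 : ∀ i, 3 * i / 3 = i := fun i => by omega
  have d1 : ∀ i, (3 * i + 1) / 3 = i := fun i => by omega
  have d2 : ∀ i, (3 * i + 2) / 3 = i := fun i => by omega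
  -- the words
  have e1 : Nat.land (Nat.shiftRight (tk p (nm Km n) n) 8) (fl (fun _ => true) (3 * n)) =
    fl (gkd p Km) (3 * n) := tkd_eq hw fun i => Km.testBit i
  have e2 : Nat.land (Nat.shiftRight (tk p (nm Km n) n) 12) (fl (fun _ => true) (3 * n)) =
    fl (gkl p Km) (3 * n) := tkl_eq hw fun i => Km.testBit i
  have e3 : Nat.xor (fl (fun _ => true) (3 * n)) (nzf (fl (fun _ => true) (3 * n)) p) =
    fl (g0 p) (3 * n) := f0_eq n p
  have e4 : Nat.xor (fl (fun _ => true) (3 * n))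
      (nzf (fl (fun _ => true) (3 * n)) (Nat.xor p (fl (fun _ => true) (3 * n)))) =
    fl (g1 p) (3 * n) := f1_eq n p
  have e5 : wo (Nat.xor (nzf (fl (fun _ => true) (3 * n)) p)
      (Nat.land p (fl (fun _ => true) (3 * n)))) (fl (gkd p Km) (3 * n)) = fl (gsd p Km) (3 * n) := by
    rw [fd_eq, wo_fl]
    exact fl_congr fun k _ => gs_d p Km k
  have e6 : wo (Nat.xor (Nat.land p (fl (fun _ => true) (3 * n))) (fl (g1 p) (3 * n)))
      (fl (gkl p Km) (3 * n)) = fl (gsl p Km) (3 * n) := by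
    rw [show fl (g1 p) (3 * n) = fl (fun k => Nat.beq (dg p k) 1) (3 * n) from rfl, fl_eq, wo_fl]
    exact fl_congr fun k _ => gs_l p Km k
  have e7 : Nat.mul (nm Km n) 65793 = fl (fun k => Km.testBit (k / 3)) (3 * n) := nl_mul _ n
  have e8 : wo (nl (fun _ => true) n) (nm Km n) = nl (fun i => !Km.testBit i) n := by
    rw [wo_nl]
    exact nl_congr fun i _ => Bool.true_and _
  have e9 : nf (nl (fun _ => true) n) (fl (g0 p) (3 * n)) = nl (a3 (g0 p)) n := nf_fl _ n
  have e10 : Nat.land (fl (g0 p) (3 * n)) (Nat.mul (nm Im n) 65793) =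
      fl (fun k => g0 p k && Im.testBit (k / 3)) (3 * n) := by
    rw [show Nat.mul (nm Im n) 65793 = fl (fun k => Im.testBit (k / 3)) (3 * n) from nl_mul _ n, land_fl]
  have e11 : Nat.land (fl (gsd p Km) (3 * n)) (fl (fun k => Km.testBit (k / 3)) (3 * n)) =
      fl (sdr p fun i => Km.testBit i) (3 * n) := land_fl _ _ _
  have e12 : Nat.land (Nat.shiftRight (t2 p (fl (sdr p fun i => Km.testBit i) (3 * n))
      (fl (g0 p) (3 * n)) n) 9) (fl (fun _ => true) (3 * n)) = fl (gs2 p Km) (3 * n) :=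
    sf2_eq hw fun i => Km.testBit i
  have e13 : Nat.land (Nat.shiftRight (t2 p (fl (sdr p fun i => Km.testBit i) (3 * n))
      (fl (g0 p) (3 * n)) n) 8) (fl (fun _ => true) (3 * n)) = fl (ge1 p Km) (3 * n) :=
    e1_eq hw fun i => Km.testBit i
  have e14 : Nat.land (nf (nl (fun _ => true) n) (Nat.lor (Nat.lor (fl (gsd p Km) (3 * n))
      (fl (gsl p Km) (3 * n))) (fl (gs2 p Km) (3 * n)))) (nl (fun i => !Km.testBit i) n) =
      nl (fun i => a3 (gsf p Km) i && !Km.testBit i) n := by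
    rw [lor_fl, lor_fl, nf_fl, land_nl]
    rfl
  have e15 : wo (nl (fun i => !Km.testBit i) n) (nl (fun i => a3 (gsf p Km) i && !Km.testBit i) n) =
      nl (gns p Km) n := wo_nl _ _ _
  have e16 : Nat.land (nf (nl (fun _ => true) n) (Nat.lor (fl (gkd p Km) (3 * n)) (fl (gkl p Km) (3 * n))))
      (nl (gns p Km) n) = nl (gat p Km) n := by
    rw [lor_fl, nf_fl, land_nl]
    rfl
  have e17 : ct (Nat.land (fl (g0 p) (3 * n)) (fl (fun k => Km.testBit (k / 3)) (3 * n))) =
      sm (fun i => c3 (fun k => g0 p k && Km.testBit (k / 3)) i) n := by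
    rw [land_fl, ct3 hn]
  have e18 : ct (wo (nl (gns p Km) n) (nl (a3 (g0 p)) n)) = n00 D n p Km := by
    rw [wo_nl, ct_nl hn, n00_W hD]
  have e19 : ct (fl (g1 p) (3 * n)) = dnt n p := by rw [ct3 hn, dnt_W]
  have e20 : ct (Nat.land (fl (g1 p) (3 * n)) (fl (fun k => Km.testBit (k / 3)) (3 * n))) =
      dnk n p Km := by
    rw [land_fl, ct3 hn, dnk_W]
  have e21 : ct (Nat.land (fl (gkl p Km) (3 * n)) (fl (fun k => Km.testBit (k / 3)) (3 * n))) =
      sm (fun i => c3 (fun k => gkl p Km k && Km.testBit (k / 3)) i) n := by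
    rw [land_fl, ct3 hn]
  have e22 : ct (Nat.land (Nat.lor (Nat.lor (fl (g1 p) (3 * n)) (fl (gkl p Km) (3 * n)))
      (fl (ge1 p Km) (3 * n))) (Nat.mul (nl (fun i => a3 (gsf p Km) i && !Km.testBit i) n) 65793)) =
      kaW D n p Km := by
    rw [nl_mul, lor_fl, lor_fl, land_fl, ct3 hn, kaW_W hD]
    rfl
  have e23 : ct (nm Km n) = sm (fun i => (Km.testBit i).toNat) n := ct_nl hn
  have e24 : ct (wo (nf (nl (fun _ => true) n) (Nat.land (Nat.lor (fl (gsd p Km) (3 * n))
      (fl (g0 p) (3 * n))) (fl (fun k => Km.testBit (k / 3)) (3 * n)))) (nm Im n)) =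
      sm (fun i => ((a3 (fun k => gsd p Km k || g0 p k) i && Km.testBit i) && !Im.testBit i).toNat) n := by
    rw [lor_fl, land_fl, nf_fl, wo_nl, ct_nl hn]
    refine sm_cg fun i _ => ?_
    rw [← a3_mask]
    rfl
  have e25 : ct (fl (fun k => g0 p k && Im.testBit (k / 3)) (3 * n)) =
      sm (fun i => c3 (fun k => g0 p k && Im.testBit (k / 3)) i) n := ct3 hn
  unfold lf1 at h
  simp only [fz_val] at h
  rw [e1, e2, e3, e4, e5, e6, e7, e8, e9, e10, e11, e12, e13, e14, e15, e16, e17, e18, e19, e20, e21, e22,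
    e23, e24, e25, bc_eq] at h
  split_ifs at h with hc
  rw [Bool.or_eq_true, nbeq, nbeq, land_nl] at hc
  refine ⟨?_, ?_⟩
  · rcases hc with hc | hc
    · refine Or.inl fun i hi hI => ?_
      have key : ∀ k, k < 3 * n → k / 3 = i → g0 p k = false := by
        intro k hk hki
        have h1 := fl_zero hc hk
        beta_reduce at h1
        rw [hki, hI, Bool.and_true] at h1
        exact h1
      unfold a3
      rw [key _ (by omega) (d0 i), key _ (by omega) (d1 i), key _ (by omega) (d2 i)]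
      rfl
    · refine Or.inr fun i hi hM => ?_
      have h1 := nl_zero hc hi
      beta_reduce at h1
      rw [hM, Bool.not_false, Bool.and_true] at h1
      exact h1
  · intro A hA
    rw [nn_W hD hn] at h
    rw [hA]
    exact h

theorem tst_W {D l n0 N t1 dk lk ka m z : ℕ} (h : tst D l n0 N t1 dk lk ka m z = true) :
    84 * l + 12 * (n0 + N) + (6 * mn (Nat.add t1 (Nat.mul D N)) 2 + 18 * z) ≤
      18 * m + 9 * lk + (18 * dk + 6 * bon D ka (Nat.add t1 (Nat.mul D N))) := by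
  unfold tst at h
  rw [fz_eq] at h
  exact Nat.le_of_ble_eq_true h

theorem evlB_W {T TI D n p : ℕ} {L : List ℕ} {N z m lk : ℕ}
    (hN : N = ndr D n p (kms p L 0) + xN D n p (kms p L 0) (opm2 n p (kms p L 0) (ims p L 0)))
    (h1 : Nat.ble (Nat.succ n) 40 = true) (h2 : pks n p L 0 = true)
    (h7 : 84 * L.length + 12 * (n00 D n p (kms p L 0) + N) +
      (6 * mn (Nat.add (dnt n p) (Nat.mul D N)) 2 + 18 * z) ≤ 18 * m + 9 * lk + (18 * dnk n p (kms p L 0) +
        6 * bon D (kaW D n p (kms p L 0)) (Nat.add (dnt n p) (Nat.mul D N))))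
    (h8 : 18 * m + 12 * dnk n p (kms p L 0) + 9 * lk ≤ evs T TI n p (kms p L 0) (ims p L 0) + 18 * z)
    (h4 : kin n p (kms p L 0) (ims p L 0) n = []) : evlB 84 0 T TI D 12 6 n p L = some [] := by
  change N = Nat.add (ndr D n p (kms p L 0))
    (xN D n p (kms p L 0) (opm2 n p (kms p L 0) (ims p L 0))) at hN
  unfold evlB
  rw [frc_eq, frc_eq, frc_eq, frc_eq, ← hN, h1, h2, h4]
  generalize mn (Nat.add (dnt n p) (Nat.mul D N)) 2 = k2 at *
  generalize bon D (kaW D n p (kms p L 0)) (Nat.add (dnt n p) (Nat.mul D N)) = bo at *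
  generalize n00 D n p (kms p L 0) = n0 at *
  generalize dnk n p (kms p L 0) = dk at *
  generalize evs T TI n p (kms p L 0) (ims p L 0) = ev at *
  generalize cnt n (kms p L 0) = c at *
  have h9 : Nat.ble (Nat.add (Nat.add (Nat.add (Nat.mul 84 L.length) (Nat.mul 0 c)) (Nat.mul 12 (Nat.add n0 N)))
      (Nat.mul 6 k2)) (Nat.add ev (Nat.mul 6 (Nat.add dk bo))) = true := by
    refine Nat.ble_eq_true_of_le ?_
    show 84 * L.length + 0 * c + 12 * (n0 + N) + 6 * k2 ≤ ev + 6 * (dk + bo)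
    omega
  rw [h9]
  rfl

theorem nm_zero (n : ℕ) : nm 0 n = 0 := by
  apply Nat.eq_of_testBit_eq
  intro j
  rw [tb_nl]
  simp

theorem lfW_eq (D n p : ℕ) (L : List ℕ) : lfW D n p L = (Nat.ble (Nat.succ n) 40 &&
    pk n p (fl (fun _ => true) (3 * n)) (nl (fun _ => true) n) (fun M IN =>
      lf1 D n p L.length (fl (fun _ => true) (3 * n)) (nl (fun _ => true) n) M IN) L (nm 0 n) (nm 0 n)) := by
  unfold lfW
  simp only [fz_val]
  rw [nm_zero, ones_eq, nodes_eq]

theorem lfW_of {D n p : ℕ} {L : List ℕ} (hw : Wf n p) (hD : D < 3) (h : lfW D n p L = true) :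
    Nat.ble (Nat.succ n) 40 = true ∧ pks n p L 0 = true ∧ kin n p (kms p L 0) (ims p L 0) n = [] ∧
    ∀ A, A = sm (fun i => c3 (fun k => g0 p k && (kms p L 0).testBit (k / 3)) i) n +
      sm (fun i => c3 (fun k => g0 p k && (ims p L 0).testBit (k / 3)) i) n →
    tst D L.length (n00 D n p (kms p L 0)) (ndr D n p (kms p L 0) + xN D n p (kms p L 0) A) (dnt n p)
      (dnk n p (kms p L 0)) (sm (fun i => c3 (fun k => gkl p (kms p L 0) k && (kms p L 0).testBit (k / 3)) i) n)
      (kaW D n p (kms p L 0)) (sm (fun i => ((kms p L 0).testBit i).toNat) n)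
      (sm (fun i => ((a3 (fun k => gsd p (kms p L 0) k || g0 p k) i && (kms p L 0).testBit i) &&
        !(ims p L 0).testBit i).toNat) n) = true := by
  rw [lfW_eq, Bool.and_eq_true] at h
  obtain ⟨h1, h2⟩ := h
  have hn : n < 40 := Nat.le_of_ble_eq_true h1
  obtain ⟨h3, h4⟩ := pk_of h2
  obtain ⟨h5, h6⟩ := lf1_of hw hD (by omega) h4
  exact ⟨h1, h3, kin_nil h5 n le_rfl, h6⟩

/-- **the test `lfW` gives a leaf of rule W** -/
theorem lfW_leaf {D n p : ℕ} {L : List ℕ} (hw : Wf n p) (hD : D < 3) (h : lfW D n p L = true) :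
    evlB 84 0 tK tI D 12 6 n p L = some [] := by
  obtain ⟨h1, h2, h3, h4⟩ := lfW_of hw hD h
  have h7 := tst_W (h4 (opm2 n p (kms p L 0) (ims p L 0)) (opm2_W n p L))
  have h8 := evs_W n p L
  rw [← dnk_W] at h8
  exact evlB_W rfl h1 h2 h7 h8 h3

end W

variable {V : Type} [Fintype V] [DecidableEq V] {G : SimpleGraph V} [DecidableRel G.Adj]

omit [Fintype V] [DecidableEq V] [DecidableRel G.Adj] in
theorem Emb.wf {U : Finset V} {n p : ℕ} {φ ν : ℕ → V} (h : Emb G U n p φ ν) : W.Wf n p :=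
  ⟨h.zero, fun k hk l hl => ⟨(h.dir k hk l hl).1, (h.dir k hk l hl).2.1⟩,
    fun k hk l hl => ⟨(h.lnk k hk l hl).1, (h.lnk k hk l hl).2.1⟩⟩

omit [Fintype V] [DecidableEq V] [DecidableRel G.Adj] in
/-- **a pattern of a state with the test `lfW` is a leaf of rule W** -/
theorem Emb.lfW {U : Finset V} {D n p : ℕ} {L : List ℕ} {φ ν : ℕ → V} (h : Emb G U n p φ ν) (hD : D < 3)
    (hc : W.lfW D n p L = true) : evlB 84 0 tK tI D 12 6 n p L = some [] := W.lfW_leaf h.wf hD hc

end EF18
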