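import Pool.Agent.Lib.MP_ef18bd_co.P.WdO
import Pool.Agent.Lib.MP_ef18bd_co.P.EvK

/-!
# Word arithmetic on patterns: nodes which are certainly in no triangle

`ntw`: the predicate `ntr false` with masks of nodes.
-/

namespace EF18

namespace W

theorem beq_nl {P : ℕ → Bool} {n : ℕ} : Nat.beq (nl P n) 0 = true ↔ ∀ j < n, P j = false := by
  rw [Nat.beq_eq]
  constructor
  · intro h j hj
    have h1 := bt_nl (P := P) hj
    rw [h] at h1
    have h2 : bt 0 j = 0 := by
      show (0 >>> (24 * j)) % 2 = 0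
      rw [Nat.zero_shiftRight]
    rw [h2] at h1
    cases hP : P j
    · rfl
    · rw [hP] at h1
      exact absurd h1 (by decide)
  · intro h
    have h1 := nl_congr (Q := fun _ => false) h
    rw [h1]
    apply Nat.eq_of_testBit_eq
    intro j
    rw [tb_nl, Nat.zero_testBit]
    simp

/-- from the flags of ports to the flags of nodes -/
theorem msk_eq {n x s : ℕ} {P : ℕ → Bool}
    (hP : ∀ j < n, P j = true ↔ ∃ k, k / 3 = j ∧ x.testBit (s + 8 * k) = true) :
    nf (nl (fun _ => true) n) (Nat.land (Nat.shiftRight x s) (fl (fun _ => true) (3 * n))) = nl P n := by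
  have e : Nat.land (Nat.shiftRight x s) (fl (fun _ => true) (3 * n)) =
      fl (fun k => x.testBit (s + 8 * k)) (3 * n) := by
    apply Nat.eq_of_testBit_eq
    intro j
    show ((x >>> s) &&& fl (fun _ => true) (3 * n)).testBit j = _
    rw [Nat.testBit_land, Nat.testBit_shiftRight, tb_fl, tb_fl, Bool.and_true]
    by_cases h : j % 8 = 0
    · have h1 : 8 * (j / 8) = j := by omega
      rw [h1, decide_eq_true h, Bool.true_and, Bool.and_comm]
    · rw [decide_eq_false h]
      simp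
  rw [e, nf_fl]
  refine nl_congr fun j hj => ?_
  rw [Bool.eq_iff_iff, hP j hj]
  simp only [Bool.or_eq_true]
  constructor
  · rintro ((h | h) | h)
    · exact ⟨3 * j, by omega, h⟩
    · exact ⟨3 * j + 1, by omega, h⟩
    · exact ⟨3 * j + 2, by omega, h⟩
  · rintro ⟨k, hk, h⟩
    rcases port_cases hk with rfl | rfl | rfl
    · exact Or.inl (Or.inl h)
    · exact Or.inl (Or.inr h)
    · exact Or.inr h

theorem adjd_iff' {p i j : ℕ} : adjd p i j = true ↔ ∃ a l, a / 3 = i ∧ dg p a = 2 + 2 * l ∧ l / 3 = j := by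
  constructor
  · exact adjd_iff
  · rintro ⟨a, l, h1, h2, h3⟩
    have := EF18.adjd_of h2
    rwa [h1, h3] at this

/-- linked nodes -/
def lkd (p i j : ℕ) : Bool := anp p i fun d => isL d && Nat.beq (tg d) j

theorem lkd_iff {p i j : ℕ} : lkd p i j = true ↔ ∃ a l, a / 3 = i ∧ dg p a = 3 + 2 * l ∧ l / 3 = j := by
  unfold lkd
  rw [anp_iff]
  constructor
  · rintro ⟨k, hk, h⟩
    rw [Bool.and_eq_true, Nat.beq_eq] at h
    obtain ⟨l, hl⟩ := EF18.isL_iff.1 h.1
    rw [hl, tg_lnk] at h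
    exact ⟨k, l, hk, hl, h.2⟩
  · rintro ⟨a, l, h1, h2, h3⟩
    refine ⟨a, h1, ?_⟩
    rw [Bool.and_eq_true, Nat.beq_eq, h2, tg_lnk]
    exact ⟨EF18.isL_iff.2 ⟨l, rfl⟩, h3⟩

/-- the direct neighbours of a node -/
theorem dm_eq (p n i : ℕ) : nf (nl (fun _ => true) n)
    (Nat.land (Nat.shiftRight (pf (wd p i)) 8) (fl (fun _ => true) (3 * n))) = nl (adjd p i) n := by
  refine msk_eq fun j _ => ?_
  rw [adjd_iff']
  constructor
  · rintro ⟨a, l, h1, h2, h3⟩
    refine ⟨l, h3, tb_pf_wd _ _ _ |>.2 ⟨a % 3, Nat.mod_lt _ (by norm_num), ?_⟩⟩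
    rw [show 3 * i + a % 3 = a by omega, h2]
    omega
  · rintro ⟨k, h1, h2⟩
    obtain ⟨a, ha, h3⟩ := (tb_pf_wd _ _ _).1 h2
    exact ⟨3 * i + a, k, by omega, by omega, h1⟩

/-- the linked nodes of a node -/
theorem lm_eq (p n i : ℕ) : nf (nl (fun _ => true) n)
    (Nat.land (Nat.shiftRight (pf (wd p i)) 12) (fl (fun _ => true) (3 * n))) = nl (lkd p i) n := by
  refine msk_eq fun j _ => ?_
  rw [lkd_iff]
  constructor
  · rintro ⟨a, l, h1, h2, h3⟩
    refine ⟨l, h3, tb_pf_wd _ _ _ |>.2 ⟨a % 3, Nat.mod_lt _ (by norm_num), ?_⟩⟩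
    rw [show 3 * i + a % 3 = a by omega, h2]
    omega
  · rintro ⟨k, h1, h2⟩
    obtain ⟨a, ha, h3⟩ := (tb_pf_wd _ _ _).1 h2
    exact ⟨3 * i + a, k, by omega, by omega, h1⟩

/-- the partner flags of the node behind a direct digit, if it is (`b = 0`: not) removed -/
def nbm (p M b d : ℕ) : ℕ :=
  zc (Nat.mod d 2) (zc d 0 (fz (Nat.div (Nat.sub d 2) 6) fun t =>
    bc (Nat.beq (bt M t) b) 0 (pf (wd p t)))) 0

/-- the partner flags of the direct neighbours which are (`b = 0`: not) removed -/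
def n2m (p M b w : ℕ) : ℕ :=
  Nat.lor (Nat.lor (nbm p M b (Nat.mod w 256)) (nbm p M b (Nat.mod (Nat.shiftRight w 8) 256)))
    (nbm p M b (Nat.shiftRight w 16))

theorem tb_nbm {p n b : ℕ} {M : ℕ → Bool} (hw : Wf n p) {k : ℕ} (hk : k < 3 * n) (j : ℕ) :
    (nbm p (nl M n) b (dg p k)).testBit j = true ↔
      ∃ l, dg p k = 2 + 2 * l ∧ (M (l / 3)).toNat = b ∧ (pf (wd p (l / 3))).testBit j = true := by
  unfold nbm
  rcases digit_cases (dg p k) with h | h | ⟨l, h⟩ | ⟨l, h⟩
  · rw [h]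
    change (Nat.testBit 0 j) = true ↔ _
    rw [Nat.zero_testBit]
    constructor
    · exact fun hh => absurd hh (by simp)
    · rintro ⟨l, h1, -⟩
      omega
  · rw [h]
    change (Nat.testBit 0 j) = true ↔ _
    rw [Nat.zero_testBit]
    constructor
    · exact fun hh => absurd hh (by simp)
    · rintro ⟨l, h1, -⟩
      omega
  · rw [h]
    have h1 : Nat.mod (2 + 2 * l) 2 = 0 := by show (2 + 2 * l) % 2 = 0; omega
    have h2 : Nat.div (Nat.sub (2 + 2 * l) 2) 6 = l / 3 := by show (2 + 2 * l - 2) / 6 = _; omega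
    obtain ⟨h3, -⟩ := hw.dir k hk l h
    rw [h1, zc_zero, show 2 + 2 * l = 2 * l + 1 + 1 by ring, zc_succ, fz_eq,
      show 2 * l + 1 + 1 = 2 + 2 * l by ring, h2, bt_nl (by omega), bc_eq]
    constructor
    · intro hh
      by_cases h4 : Nat.beq (M (l / 3)).toNat b = true
      · rw [if_pos h4] at hh
        exact ⟨l, rfl, Nat.eq_of_beq_eq_true h4, hh⟩
      · rw [if_neg h4, Nat.zero_testBit] at hh
        exact absurd hh (by simp)
    · rintro ⟨l', h4, h5, h6⟩
      obtain rfl : l = l' := by omega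
      rw [h5, if_pos (Nat.beq_refl b)]
      exact h6
  · rw [h]
    have h1 : Nat.mod (3 + 2 * l) 2 = 0 + 1 := by show (3 + 2 * l) % 2 = 1; omega
    rw [h1, zc_succ, Nat.zero_testBit]
    constructor
    · exact fun hh => absurd hh (by simp)
    · rintro ⟨l', h1, -⟩
      omega

/-- the nodes behind the direct neighbours -/
def s2p (p : ℕ) (M : ℕ → Bool) (b i j : ℕ) : Bool :=
  anp p i fun d => isD d && Nat.beq (M (tg d)).toNat b && adjd p (tg d) j

theorem s2p_iff {p b i j : ℕ} {M : ℕ → Bool} : s2p p M b i j = true ↔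
    ∃ w, adjd p i w = true ∧ (M w).toNat = b ∧ adjd p w j = true := by
  unfold s2p
  rw [anp_iff]
  constructor
  · rintro ⟨k, hk, h⟩
    rw [Bool.and_eq_true, Bool.and_eq_true, Nat.beq_eq] at h
    obtain ⟨⟨h1, h2⟩, h3⟩ := h
    obtain ⟨l, hl⟩ := EF18.isD_iff.1 h1
    rw [hl, tg_dir] at h2 h3
    exact ⟨l / 3, adjd_iff'.2 ⟨k, l, hk, hl, rfl⟩, h2, h3⟩
  · rintro ⟨w, h1, h2, h3⟩
    obtain ⟨k, l, h4, h5, h6⟩ := adjd_iff'.1 h1
    refine ⟨k, h4, ?_⟩
    rw [Bool.and_eq_true, Bool.and_eq_true, Nat.beq_eq, h5, tg_dir, h6]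
    exact ⟨⟨EF18.isD_iff.2 ⟨l, rfl⟩, h2⟩, h3⟩

theorem s2_eq {p n : ℕ} (hw : Wf n p) (M : ℕ → Bool) (b : ℕ) {i : ℕ} (hi : i < n) :
    nf (nl (fun _ => true) n)
      (Nat.land (Nat.shiftRight (n2m p (nl M n) b (wd p i)) 8) (fl (fun _ => true) (3 * n))) =
      nl (s2p p M b i) n := by
  refine msk_eq fun j _ => ?_
  rw [s2p_iff]
  unfold n2m
  rw [wd0, wd1, wd2]
  have key : ∀ t, ((nbm p (nl M n) b (dg p (3 * i)) ||| nbm p (nl M n) b (dg p (3 * i + 1))) |||
      nbm p (nl M n) b (dg p (3 * i + 2))).testBit t = true ↔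
      ∃ k l, k / 3 = i ∧ dg p k = 2 + 2 * l ∧ (M (l / 3)).toNat = b ∧ (pf (wd p (l / 3))).testBit t = true := by
    intro t
    rw [Nat.testBit_lor, Nat.testBit_lor, Bool.or_eq_true, Bool.or_eq_true, tb_nbm hw (by omega),
      tb_nbm hw (by omega), tb_nbm hw (by omega)]
    constructor
    · rintro ((⟨l, h⟩ | ⟨l, h⟩) | ⟨l, h⟩)
      · exact ⟨3 * i, l, by omega, h⟩
      · exact ⟨3 * i + 1, l, by omega, h⟩
      · exact ⟨3 * i + 2, l, by omega, h⟩
    · rintro ⟨k, l, hk, h⟩
      rcases port_cases hk with rfl | rfl | rfl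
      · exact Or.inl (Or.inl ⟨l, h⟩)
      · exact Or.inl (Or.inr ⟨l, h⟩)
      · exact Or.inr ⟨l, h⟩
  constructor
  · rintro ⟨w, h1, h2, h3⟩
    obtain ⟨k, l, a1, a2, a3⟩ := adjd_iff'.1 h1
    obtain ⟨k', l', b1, b2, b3⟩ := adjd_iff'.1 h3
    refine ⟨l', b3, (key _).2 ⟨k, l, a1, a2, by rw [a3]; exact h2, ?_⟩⟩
    rw [tb_pf_wd]
    refine ⟨k' % 3, Nat.mod_lt _ (by norm_num), ?_⟩
    rw [show 3 * (l / 3) + k' % 3 = k' by omega, b2]
    omega
  · rintro ⟨k, h1, h2⟩
    obtain ⟨k', l, a1, a2, a3, a4⟩ := (key _).1 h2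
    obtain ⟨a, ha, h3⟩ := (tb_pf_wd _ _ _).1 a4
    exact ⟨l / 3, adjd_iff'.2 ⟨k', l, a1, a2, rfl⟩, a3, adjd_iff'.2 ⟨3 * (l / 3) + a, k, by omega, by omega, h1⟩⟩

/-- **`ntr false` with masks**: `c` all ports, `u` all nodes, `on` the open nodes, `M` the removed nodes -/
def ntw (p c u on M i : ℕ) : Bool :=
  fz (wd p i) fun w => fz (pf w) fun a1 =>
  fz (nf u (Nat.land (Nat.shiftRight a1 8) c)) fun dm => fz (nf u (Nat.land (Nat.shiftRight a1 12) c)) fun lm =>
  fz (nf u (Nat.land (Nat.shiftRight (n2m p M 0 w) 8) c)) fun s2 => fz (Nat.land dm on) fun od =>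
  Nat.beq (Nat.lor (Nat.land lm (wo dm M)) (Nat.land s2 dm)) 0 &&
  (Nat.beq (wo od M) 0 || Nat.ble (ct od) 1) &&
  (Nat.beq (bt on i) 0 || (Nat.beq (ct (nzf 65793 w)) 2 && Nat.beq od 0 && Nat.beq (wo (Nat.land lm on) M) 0 &&
    fz (Nat.shiftLeft 1 (Nat.mul 24 i)) fun b => fz (wo on (Nat.lor b dm)) fun on' =>
    Nat.beq (Nat.land s2 on') 0 &&
      Nat.beq (wo (Nat.land (nf u (Nat.land (Nat.shiftRight (n2m p M 1 w) 8) c)) on') M) 0))

theorem adjd_lt {p n i w : ℕ} (hw : Wf n p) (hi : i < n) (h : adjd p i w = true) : w < n := by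
  obtain ⟨a, l, h1, h2, h3⟩ := adjd_iff h
  have := (hw.dir a (by omega) l h2).1
  omega

theorem lkd_lt {p n i w : ℕ} (hw : Wf n p) (hi : i < n) (h : lkd p i w = true) : w < n := by
  obtain ⟨a, l, h1, h2, h3⟩ := lkd_iff.1 h
  have := (hw.lnk a (by omega) l h2).1
  omega

/-- quantifiers over direct ports -/
theorem exD {p i : ℕ} {Q : ℕ → Prop} :
    (∃ k, k / 3 = i ∧ isD (dg p k) = true ∧ Q (tg (dg p k))) ↔ ∃ w, adjd p i w = true ∧ Q w := by
  constructor
  · rintro ⟨k, hk, h1, h2⟩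
    obtain ⟨l, hl⟩ := EF18.isD_iff.1 h1
    rw [hl, tg_dir] at h2
    exact ⟨l / 3, adjd_iff'.2 ⟨k, l, hk, hl, rfl⟩, h2⟩
  · rintro ⟨w, h1, h2⟩
    obtain ⟨k, l, h4, h5, h6⟩ := adjd_iff'.1 h1
    refine ⟨k, h4, EF18.isD_iff.2 ⟨l, h5⟩, ?_⟩
    rw [h5, tg_dir, h6]
    exact h2

/-- quantifiers over links -/
theorem exL {p i : ℕ} {Q : ℕ → Prop} :
    (∃ k, k / 3 = i ∧ isL (dg p k) = true ∧ Q (tg (dg p k))) ↔ ∃ w, lkd p i w = true ∧ Q w := by
  constructor
  · rintro ⟨k, hk, h1, h2⟩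
    obtain ⟨l, hl⟩ := EF18.isL_iff.1 h1
    rw [hl, tg_lnk] at h2
    exact ⟨l / 3, lkd_iff.2 ⟨k, l, hk, hl, rfl⟩, h2⟩
  · rintro ⟨w, h1, h2⟩
    obtain ⟨k, l, h4, h5, h6⟩ := lkd_iff.1 h1
    refine ⟨k, h4, EF18.isL_iff.2 ⟨l, h5⟩, ?_⟩
    rw [h5, tg_lnk, h6]
    exact h2

theorem ct_le_one {P : ℕ → Bool} {n : ℕ} (hn : 3 * n < 255) :
    Nat.ble (ct (nl P n)) 1 = true ↔ ∀ j < n, ∀ j' < n, P j = true → P j' = true → j = j' := by
  rw [Nat.ble_eq, ct_nl hn, sm_eq]
  have h : ∑ i ∈ Finset.range n, (P i).toNat = ((Finset.range n).filter fun i => P i = true).card := by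
    rw [Finset.card_filter]
    refine Finset.sum_congr rfl fun i _ => ?_
    cases P i <;> rfl
  rw [h, Finset.card_le_one]
  constructor
  · intro h1 j hj j' hj' a b
    exact h1 j (Finset.mem_filter.2 ⟨Finset.mem_range.2 hj, a⟩) j' (Finset.mem_filter.2 ⟨Finset.mem_range.2 hj', b⟩)
  · intro h1 a ha b hb
    rw [Finset.mem_filter, Finset.mem_range] at ha hb
    exact h1 a ha.1 b hb.1 ha.2 hb.2

theorem shl_eq {i n : ℕ} (hi : i < n) : Nat.shiftLeft 1 (Nat.mul 24 i) = nl (fun j => Nat.beq j i) n := by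
  apply Nat.eq_of_testBit_eq
  intro j
  show (1 <<< (24 * i)).testBit j = _
  rw [Nat.one_shiftLeft, Nat.testBit_two_pow, tb_nl, Bool.eq_iff_iff, decide_eq_true_iff, Bool.and_eq_true,
    Bool.and_eq_true, decide_eq_true_iff, decide_eq_true_iff, Nat.beq_eq]
  omega

theorem op1_eq (p i : ℕ) : Nat.beq (ct (nzf 65793 (wd p i))) 2 = op1 p i := by
  have h0 : fl (fun _ => true) 3 = 65793 := by norm_num [fl]
  have h1 : ∀ a < 3, dg (wd p i) a = dg p (3 * i + a) := by
    intro a ha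
    apply Nat.eq_of_testBit_eq
    intro j
    rw [tb_dg', tb_dg', tb_wd]
    by_cases hj : j < 8
    · rw [decide_eq_true hj, decide_eq_true (show 8 * a + j < 24 by omega),
        show 24 * i + (8 * a + j) = 8 * (3 * i + a) + j by ring]
      rfl
    · rw [decide_eq_false hj]
      simp
  have h2 := nzf_eq (wd p i) 3
  rw [h0] at h2
  rw [h2, ct_fl (by norm_num)]
  rw [show (3 : ℕ) = 0 + 1 + 1 + 1 from rfl, sm_succ, sm_succ, sm_succ, sm_zero, h1 0 (by norm_num),
    h1 (0 + 1) (by norm_num), h1 (0 + 1 + 1) (by norm_num)]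
  unfold op1
  rw [frc_eq, frc_eq, frc_eq, frc_eq]
  show Nat.beq ((!Nat.beq (dg p (3 * i + 2)) 0).toNat + ((!Nat.beq (dg p (3 * i + 1)) 0).toNat +
    ((!Nat.beq (dg p (3 * i)) 0).toNat + 0))) 2 =
    (bif Nat.beq (dg p (3 * i)) 0 then !Nat.beq (dg p (3 * i + 1)) 0 && !Nat.beq (dg p (3 * i + 2)) 0 else
      bif Nat.beq (dg p (3 * i + 1)) 0 then !Nat.beq (dg p (3 * i + 2)) 0 else Nat.beq (dg p (3 * i + 2)) 0)
  cases Nat.beq (dg p (3 * i)) 0 <;> cases Nat.beq (dg p (3 * i + 1)) 0 <;>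
    cases Nat.beq (dg p (3 * i + 2)) 0 <;> rfl

/-- **`ntr false` with masks** -/
theorem ntw_imp {p n M' : ℕ} (hn : 3 * n < 255) (hw : Wf n p) {M : ℕ → Bool}
    (hM : ∀ i < n, M'.testBit i = M i) {i : ℕ} (hi : i < n) :
    (ntw p (fl (fun _ => true) (3 * n)) (nl (fun _ => true) n) (nl (fun j => !full p j) n) (nl M n) i = true →
      ntr false p M' i = true) ∧ ((∀ w, adjd p i w = true → adjd p w w = false) → ntr false p M' i = true →
      ntw p (fl (fun _ => true) (3 * n)) (nl (fun _ => true) n) (nl (fun j => !full p j) n) (nl M n) i = true) := by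
  have hb1 : ∀ b : Bool, b.toNat = 0 ↔ b = false := by decide
  have hb2 : ∀ b : Bool, b.toNat = 1 ↔ b = true := by decide
  have hA : (anp p i fun d => isD d && !tb M' (tg d) && anp p i fun d' =>
      (isL d' && Nat.beq (tg d') (tg d)) ||
      (isD d' && !Nat.beq (tg d') (tg d) && (adjd p (tg d) (tg d') ||
        (!(false && full p i) && !full p (tg d) && !full p (tg d'))))) = true ↔
      ∃ w, adjd p i w = true ∧ M w = false ∧ (lkd p i w = true ∨ ∃ w', adjd p i w' = true ∧ w' ≠ w ∧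
        (adjd p w w' = true ∨ (full p w = false ∧ full p w' = false))) := by
    rw [anp_iff]
    have e1 : ∀ d, (isD d && !tb M' (tg d) && anp p i fun d' =>
      (isL d' && Nat.beq (tg d') (tg d)) ||
      (isD d' && !Nat.beq (tg d') (tg d) && (adjd p (tg d) (tg d') ||
        (!(false && full p i) && !full p (tg d) && !full p (tg d'))))) = true ↔ isD d = true ∧
        (M'.testBit (tg d) = false ∧ (lkd p i (tg d) = true ∨ ∃ w', adjd p i w' = true ∧ w' ≠ tg d ∧
        (adjd p (tg d) w' = true ∨ (full p (tg d) = false ∧ full p w' = false)))) := by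
      intro d
      rw [Bool.and_eq_true, Bool.and_eq_true, Bool.not_eq_true', tb_eq, and_assoc]
      refine and_congr_right fun _ => and_congr_right fun _ => ?_
      rw [anp_iff]
      constructor
      · rintro ⟨k, hk, h⟩
        rw [Bool.or_eq_true] at h
        rcases h with h | h
        · left
          unfold lkd
          exact anp_iff.2 ⟨k, hk, h⟩
        · right
          rw [Bool.and_eq_true, Bool.and_eq_true] at h
          obtain ⟨⟨h1, h2⟩, h3⟩ := h
          refine exD.1 ⟨k, hk, h1, ?_, ?_⟩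
          · rw [Bool.not_eq_true', Bool.eq_false_iff, Ne, Nat.beq_eq] at h2
            exact h2
          · rw [Bool.or_eq_true] at h3
            refine h3.imp id fun h4 => ?_
            simp only [Bool.and_eq_true, Bool.not_eq_true'] at h4
            exact ⟨h4.1.2, h4.2⟩
      · rintro (h | h)
        · unfold lkd at h
          obtain ⟨k, hk, h⟩ := anp_iff.1 h
          exact ⟨k, hk, by rw [h, Bool.true_or]⟩
        · obtain ⟨k, hk, h1, h2, h3⟩ := exD.2 h
          refine ⟨k, hk, ?_⟩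
          rw [Bool.or_eq_true]
          right
          rw [Bool.and_eq_true, Bool.and_eq_true, Bool.or_eq_true, Bool.not_eq_true', Bool.eq_false_iff, Ne,
            Nat.beq_eq]
          refine ⟨⟨h1, h2⟩, h3.imp id fun h4 => ?_⟩
          rw [h4.1, h4.2]
          rfl
    simp only [e1]
    rw [exD (Q := fun t => M'.testBit t = false ∧ (lkd p i t = true ∨ ∃ w', adjd p i w' = true ∧ w' ≠ t ∧
        (adjd p t w' = true ∨ (full p t = false ∧ full p w' = false))))]
    refine exists_congr fun w => and_congr_right fun h => ?_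
    rw [hM w (adjd_lt hw hi h)]
  have hB : (anp p i fun d =>
    (isD d && (!full p (tg d) || anp p (tg d) fun d' => isD d' && !Nat.beq (tg d') i && !adjd p i (tg d') &&
      !full p (tg d') && !(tb M' (tg d) && tb M' (tg d')))) ||
    (isL d && !tb M' (tg d) && !full p (tg d))) = true ↔
      (∃ w, adjd p i w = true ∧ (full p w = false ∨ ∃ w', adjd p w w' = true ∧ w' ≠ i ∧ adjd p i w' = false ∧
        full p w' = false ∧ ¬ (M w = true ∧ M w' = true))) ∨
      ∃ w, lkd p i w = true ∧ M w = false ∧ full p w = false := by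
    rw [anp_iff]
    have e1 : ∀ d, ((isD d && (!full p (tg d) || anp p (tg d) fun d' => isD d' && !Nat.beq (tg d') i &&
      !adjd p i (tg d') && !full p (tg d') && !(tb M' (tg d) && tb M' (tg d')))) ||
      (isL d && !tb M' (tg d) && !full p (tg d))) = true ↔
      (isD d = true ∧ (full p (tg d) = false ∨ ∃ w', adjd p (tg d) w' = true ∧ w' ≠ i ∧ adjd p i w' = false ∧
        full p w' = false ∧ ¬ (M'.testBit (tg d) = true ∧ M'.testBit w' = true))) ∨
      (isL d = true ∧ M'.testBit (tg d) = false ∧ full p (tg d) = false) := by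
      intro d
      rw [Bool.or_eq_true, Bool.and_eq_true, Bool.and_eq_true, Bool.and_eq_true, Bool.or_eq_true,
        Bool.not_eq_true', Bool.not_eq_true', tb_eq, and_assoc (a := isL d = true)]
      refine or_congr (and_congr_right fun _ => or_congr_right ?_) Iff.rfl
      rw [anp_iff]
      constructor
      · rintro ⟨k, hk, h⟩
        simp only [Bool.and_eq_true, Bool.not_eq_true', tb_eq] at h
        obtain ⟨⟨⟨⟨h1, h2⟩, h3⟩, h4⟩, h5⟩ := h
        refine exD.1 ⟨k, hk, h1, ?_, h3, h4, ?_⟩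
        · rw [Bool.eq_false_iff, Ne, Nat.beq_eq] at h2
          exact h2
        · rintro ⟨h6, h7⟩
          rw [h6, h7] at h5
          exact absurd h5 (by decide)
      · intro h
        obtain ⟨k, hk, h1, h2, h3, h4, h5⟩ := exD.2 h
        refine ⟨k, hk, ?_⟩
        simp only [Bool.and_eq_true, Bool.not_eq_true', tb_eq]
        refine ⟨⟨⟨⟨h1, ?_⟩, h3⟩, h4⟩, ?_⟩
        · rw [Bool.eq_false_iff, Ne, Nat.beq_eq]
          exact h2
        · rw [Bool.eq_false_iff, Ne, Bool.and_eq_true]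
          exact h5
    have eM : ∀ {w w' : ℕ}, adjd p i w = true → adjd p w w' = true →
        ((M'.testBit w = true ∧ M'.testBit w' = true) ↔ (M w = true ∧ M w' = true)) := by
      intro w w' h1 h2
      rw [hM w (adjd_lt hw hi h1), hM w' (adjd_lt hw (adjd_lt hw hi h1) h2)]
    constructor
    · rintro ⟨k, hk, h⟩
      rcases (e1 _).1 h with ⟨h1, h2⟩ | ⟨h1, h2, h3⟩
      · left
        obtain ⟨w, a, b⟩ := (exD (Q := fun t => full p t = false ∨ ∃ w', adjd p t w' = true ∧ w' ≠ i ∧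
          adjd p i w' = false ∧ full p w' = false ∧ ¬ (M'.testBit t = true ∧ M'.testBit w' = true))).1
          ⟨k, hk, h1, h2⟩
        refine ⟨w, a, b.imp id ?_⟩
        rintro ⟨w', c1, c2, c3, c4, c5⟩
        exact ⟨w', c1, c2, c3, c4, fun hh => c5 ((eM a c1).2 hh)⟩
      · right
        obtain ⟨w, a, b, c⟩ := (exL (Q := fun t => M'.testBit t = false ∧ full p t = false)).1
          ⟨k, hk, h1, h2, h3⟩
        exact ⟨w, a, by rw [← hM w (lkd_lt hw hi a)]; exact b, c⟩
    · rintro (⟨w, a, b⟩ | ⟨w, a, b, c⟩)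
      · obtain ⟨k, hk, h1, h2⟩ := exD.2 (⟨w, a, b.imp id (by
          rintro ⟨w', c1, c2, c3, c4, c5⟩
          exact ⟨w', c1, c2, c3, c4, fun hh => c5 ((eM a c1).1 hh)⟩)⟩ : ∃ w, adjd p i w = true ∧
            (full p w = false ∨ ∃ w', adjd p w w' = true ∧ w' ≠ i ∧ adjd p i w' = false ∧
              full p w' = false ∧ ¬ (M'.testBit w = true ∧ M'.testBit w' = true)))
        exact ⟨k, hk, (e1 _).2 (Or.inl ⟨h1, h2⟩)⟩
      · obtain ⟨k, hk, h1, h2, h3⟩ := exL.2 (⟨w, a, by rw [hM w (lkd_lt hw hi a)]; exact b, c⟩ :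
          ∃ w, lkd p i w = true ∧ M'.testBit w = false ∧ full p w = false)
        exact ⟨k, hk, (e1 _).2 (Or.inr ⟨h1, h2, h3⟩)⟩
  unfold ntw
  simp only [fz_eq]
  rw [dm_eq, lm_eq, s2_eq hw M 0 hi, s2_eq hw M 1 hi, shl_eq hi]
  simp only [land_nl, wo_nl, lor_nl]
  rw [bt_nl hi, op1_eq]
  have hlt : ∀ {w : ℕ}, adjd p i w = true → w < n := fun h => adjd_lt hw hi h
  have p1 : Nat.beq (nl (fun j => lkd p i j && (adjd p i j && !M j) || s2p p M 0 i j && adjd p i j) n) 0 = true ↔
      ∀ w, adjd p i w = true → M w = false → lkd p i w = false ∧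
        ∀ w', adjd p i w' = true → adjd p w w' = false := by
    rw [beq_nl]
    constructor
    · intro h w h1 h2
      refine ⟨?_, fun w' h3 => ?_⟩
      · have h4 := h w (hlt h1)
        rw [h1, h2] at h4
        cases hl : lkd p i w
        · rfl
        · rw [hl] at h4
          exact absurd h4 (by simp)
      · by_contra hc
        rw [Bool.not_eq_false] at hc
        have h4 := h w' (hlt h3)
        rw [h3, s2p_iff.2 ⟨w, h1, (hb1 _).2 h2, hc⟩] at h4
        exact absurd h4 (by simp)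
    · intro h j hj
      rw [Bool.or_eq_false_iff]
      constructor
      · by_contra hc
        rw [Bool.not_eq_false, Bool.and_eq_true, Bool.and_eq_true, Bool.not_eq_true'] at hc
        rw [(h j hc.2.1 hc.2.2).1] at hc
        exact absurd hc.1 (by simp)
      · by_contra hc
        rw [Bool.not_eq_false, Bool.and_eq_true, s2p_iff] at hc
        obtain ⟨⟨w, h1, h2, h3⟩, h4⟩ := hc
        rw [(h w h1 ((hb1 _).1 h2)).2 j h4] at h3
        exact absurd h3 (by simp)
  have p2 : (Nat.beq (nl (fun j => adjd p i j && !full p j && !M j) n) 0 ||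
      Nat.ble (ct (nl (fun j => adjd p i j && !full p j) n)) 1) = true ↔
      ∀ w w', adjd p i w = true → M w = false → full p w = false → adjd p i w' = true →
        full p w' = false → w = w' := by
    rw [Bool.or_eq_true, beq_nl, ct_le_one hn]
    constructor
    · rintro (h | h) w w' h1 h2 h3 h4 h5
      · have h6 := h w (hlt h1)
        rw [h1, h2, h3] at h6
        exact absurd h6 (by simp)
      · exact h w (hlt h1) w' (hlt h4) (by rw [h1, h3]; rfl) (by rw [h4, h5]; rfl)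
    · intro h
      by_cases hc : ∀ j < n, (adjd p i j && !full p j && !M j) = false
      · exact Or.inl hc
      · right
        push Not at hc
        obtain ⟨w, hw1, hw2⟩ := hc
        rw [Ne, Bool.not_eq_false, Bool.and_eq_true, Bool.and_eq_true, Bool.not_eq_true',
          Bool.not_eq_true'] at hw2
        intro j hj j' hj' h1 h2
        rw [Bool.and_eq_true, Bool.not_eq_true'] at h1 h2
        rw [← h w j hw2.1.1 hw2.2 hw2.1.2 h1.1 h1.2, ← h w j' hw2.1.1 hw2.2 hw2.1.2 h2.1 h2.2]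
  have p3 : Nat.beq (nl (fun j => adjd p i j && !full p j) n) 0 = true ↔
      ∀ w, adjd p i w = true → full p w = true := by
    rw [beq_nl]
    constructor
    · intro h w h1
      have h2 := h w (hlt h1)
      rw [h1] at h2
      cases hf : full p w
      · rw [hf] at h2
        exact absurd h2 (by simp)
      · rfl
    · intro h j _
      by_contra hc
      rw [Bool.not_eq_false, Bool.and_eq_true, Bool.not_eq_true'] at hc
      rw [h j hc.1] at hc
      exact absurd hc.2 (by simp)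
  have p4 : Nat.beq (nl (fun j => lkd p i j && !full p j && !M j) n) 0 = true ↔
      ∀ w, lkd p i w = true → M w = false → full p w = true := by
    rw [beq_nl]
    constructor
    · intro h w h1 h2
      have h3 := h w (lkd_lt hw hi h1)
      rw [h1, h2] at h3
      cases hf : full p w
      · rw [hf] at h3
        exact absurd h3 (by simp)
      · rfl
    · intro h j _
      by_contra hc
      rw [Bool.not_eq_false, Bool.and_eq_true, Bool.and_eq_true, Bool.not_eq_true', Bool.not_eq_true'] at hc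
      rw [h j hc.1.1 hc.2] at hc
      exact absurd hc.1.2 (by simp)
  have hon : ∀ j, (!full p j && !(Nat.beq j i || adjd p i j)) = true ↔
      full p j = false ∧ j ≠ i ∧ adjd p i j = false := by
    intro j
    rw [Bool.and_eq_true, Bool.not_eq_true', Bool.not_eq_true', Bool.or_eq_false_iff,
      Bool.eq_false_iff (b := Nat.beq j i), Ne, Nat.beq_eq]
  have hlt2 : ∀ {b j : ℕ}, s2p p M b i j = true → j < n := by
    intro b j h
    obtain ⟨w, h1, -, h3⟩ := s2p_iff.1 h
    exact adjd_lt hw (hlt h1) h3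
  have p5 : Nat.beq (nl (fun j => s2p p M 0 i j && (!full p j && !(Nat.beq j i || adjd p i j))) n) 0 = true ↔
      ∀ w, adjd p i w = true → M w = false → ∀ w', adjd p w w' = true → w' ≠ i → adjd p i w' = false →
        full p w' = true := by
    rw [beq_nl]
    constructor
    · intro h w h1 h2 w' h3 h4 h5
      have h6 : s2p p M 0 i w' = true := s2p_iff.2 ⟨w, h1, (hb1 _).2 h2, h3⟩
      have h7 := h w' (hlt2 h6)
      rw [h6, Bool.true_and] at h7
      by_contra hc
      rw [Bool.not_eq_true] at hc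
      rw [(hon w').2 ⟨hc, h4, h5⟩] at h7
      exact absurd h7 (by simp)
    · intro h j _
      by_contra hc
      rw [Bool.not_eq_false, Bool.and_eq_true, hon, s2p_iff] at hc
      obtain ⟨⟨w, h1, h2, h3⟩, h4, h5, h6⟩ := hc
      rw [h w h1 ((hb1 _).1 h2) j h3 h5 h6] at h4
      exact absurd h4 (by simp)
  have p6 : Nat.beq (nl (fun j => s2p p M 1 i j && (!full p j && !(Nat.beq j i || adjd p i j)) && !M j) n) 0 =
      true ↔ ∀ w, adjd p i w = true → M w = true → ∀ w', adjd p w w' = true → w' ≠ i →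
        adjd p i w' = false → M w' = false → full p w' = true := by
    rw [beq_nl]
    constructor
    · intro h w h1 h2 w' h3 h4 h5 h8
      have h6 : s2p p M 1 i w' = true := s2p_iff.2 ⟨w, h1, (hb2 _).2 h2, h3⟩
      have h7 := h w' (hlt2 h6)
      rw [h6, Bool.true_and, h8] at h7
      by_contra hc
      rw [Bool.not_eq_true] at hc
      rw [(hon w').2 ⟨hc, h4, h5⟩] at h7
      exact absurd h7 (by simp)
    · intro h j _
      by_contra hc
      rw [Bool.not_eq_false, Bool.and_eq_true, Bool.and_eq_true, hon, s2p_iff, Bool.not_eq_true'] at hc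
      obtain ⟨⟨⟨w, h1, h2, h3⟩, h4, h5, h6⟩, h7⟩ := hc
      rw [h w h1 ((hb2 _).1 h2) j h3 h5 h6 h7] at h4
      exact absurd h4 (by simp)
  have p7 : Nat.beq (!full p i).toNat 0 = full p i := by cases full p i <;> rfl
  unfold ntr
  constructor
  · intro hh
    rw [p7, Bool.and_eq_true, Bool.and_eq_true, p1, p2, Bool.or_eq_true, Bool.and_eq_true, Bool.and_eq_true,
      Bool.and_eq_true, Bool.and_eq_true, p3, p4, p5, p6] at hh
    rw [Bool.and_eq_true, Bool.not_eq_true',
      Bool.or_eq_true, Bool.and_eq_true, Bool.not_eq_true', ← Bool.not_eq_true, ← Bool.not_eq_true, hA, hB]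
    obtain ⟨⟨c1, c2⟩, c3⟩ := hh
    refine ⟨?_, c3.imp id ?_⟩
    · rintro ⟨w, h1, h2, h3⟩
      rcases h3 with h3 | ⟨w', h4, h5, h6 | ⟨h6, h7⟩⟩
      · rw [(c1 w h1 h2).1] at h3
        exact absurd h3 (by simp)
      · rw [(c1 w h1 h2).2 w' h4] at h6
        exact absurd h6 (by simp)
      · exact h5 (c2 w w' h1 h2 h6 h4 h7).symm
    · rintro ⟨⟨⟨d1, d2⟩, d3⟩, d4, d5⟩
      refine ⟨d1, ?_⟩
      rintro (⟨w, h1, h2 | ⟨w', h2, h3, h4, h5, h6⟩⟩ | ⟨w, h1, h2, h3⟩)
      · rw [d2 w h1] at h2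
        exact absurd h2 (by simp)
      · cases hm : M w
        · rw [d4 w h1 hm w' h2 h3 h4] at h5
          exact absurd h5 (by simp)
        · cases hm' : M w'
          · rw [d5 w h1 hm w' h2 h3 h4 hm'] at h5
            exact absurd h5 (by simp)
          · exact h6 ⟨hm, hm'⟩
      · rw [d3 w h1 h2] at h3
        exact absurd h3 (by simp)
  · intro hirr hh
    rw [Bool.and_eq_true, Bool.not_eq_true',
      Bool.or_eq_true, Bool.and_eq_true, Bool.not_eq_true', ← Bool.not_eq_true, ← Bool.not_eq_true, hA, hB] at hh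
    rw [p7, Bool.and_eq_true, Bool.and_eq_true, p1, p2, Bool.or_eq_true, Bool.and_eq_true, Bool.and_eq_true,
      Bool.and_eq_true, Bool.and_eq_true, p3, p4, p5, p6]
    obtain ⟨c1, c3⟩ := hh
    push Not at c1
    refine ⟨⟨fun w h1 h2 => ⟨?_, fun w' h3 => ?_⟩, fun w w' h1 h2 h3 h4 h5 => ?_⟩, c3.imp id ?_⟩
    · exact Bool.eq_false_iff.2 (c1 w h1 h2).1
    · by_cases e : w' = w
      · rw [e]
        exact hirr w h1
      · exact Bool.eq_false_iff.2 ((c1 w h1 h2).2 w' h3 e).1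
    · by_contra hc
      exact ((c1 w h1 h2).2 w' h4 fun e => hc e.symm).2 h3 h5
    · rintro ⟨d1, d2⟩
      push Not at d2
      refine ⟨⟨⟨d1, fun w h1 => ?_⟩, fun w h1 h2 => ?_⟩, fun w h1 h2 w' h3 h4 h5 => ?_,
        fun w h1 h2 w' h3 h4 h5 h6 => ?_⟩
      · rw [← Bool.not_eq_false]
        exact (d2.1 w h1).1
      · rw [← Bool.not_eq_false]
        exact d2.2 w h1 h2
      · by_contra hc
        rw [Bool.not_eq_true] at hc
        have := (d2.1 w h1).2 w' h3 h4 h5 hc
        rw [h2] at this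
        exact absurd this.1 (by simp)
      · by_contra hc
        rw [Bool.not_eq_true] at hc
        have := (d2.1 w h1).2 w' h3 h4 h5 hc
        rw [h6] at this
        exact absurd this.2 (by simp)

/-- **`ntr false` with masks** -/
theorem ntw_eq {p n M' : ℕ} (hn : 3 * n < 255) (hw : Wf n p) {M : ℕ → Bool}
    (hM : ∀ i < n, M'.testBit i = M i) {i : ℕ} (hirr : ∀ w, adjd p i w = true → adjd p w w = false) (hi : i < n) :
    ntw p (fl (fun _ => true) (3 * n)) (nl (fun _ => true) n) (nl (fun j => !full p j) n) (nl M n) i =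
      ntr false p M' i :=
  Bool.eq_iff_iff.2 ⟨(ntw_imp hn hw hM hi).1, (ntw_imp hn hw hM hi).2 hirr⟩

end W

end EF18
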