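import Pool.Agent.Lib.MP_ef18bd_co.P.WdV
import Pool.Agent.Lib.MP_ef18bd_co.P.WdK

/-!
# Word arithmetic on patterns: the fast tests for all cubic graphs

`ntv`: the predicate `ntr false`; `tpw`: the predicate `tpc`; `kbK_le`, `kaWK_ge`, `kaEK_ge`: the counts `kbK`,
`kaWK`, `kaEK`; `tEk`, `tWk`, `lwk`: the tests of `TokV` for all cubic graphs, `tokVk`: they are correct.
-/

namespace EF18

namespace W

/-- the direct neighbours of a node -/
def dmw (p c u i : ℕ) : ℕ := nf u (Nat.land (Nat.shiftRight (pf (wd p i)) 8) c)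

/-- the linked nodes of a node -/
def lmw (p c u i : ℕ) : ℕ := nf u (Nat.land (Nat.shiftRight (pf (wd p i)) 12) c)

/-- the nodes behind the direct neighbours which are (not) removed -/
def s2w (p c u M b i : ℕ) : ℕ := nf u (Nat.land (Nat.shiftRight (n2m p M b (wd p i)) 8) c)

/-- the part of `ntw` for an open node -/
def ntv1 (p c u on M i : ℕ) : Bool :=
  bc (Nat.beq (ct (nzf 65793 (wd p i))) 2) false (bc (Nat.beq (Nat.land (dmw p c u i) on) 0) false
    (bc (Nat.beq (wo (Nat.land (lmw p c u i) on) M) 0) false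
      (bc (Nat.beq (Nat.land (s2w p c u M 0 i) (wo on (Nat.lor (Nat.shiftLeft 1 (Nat.mul 24 i))
        (dmw p c u i)))) 0) false
        (Nat.beq (wo (Nat.land (s2w p c u M 1 i)
          (wo on (Nat.lor (Nat.shiftLeft 1 (Nat.mul 24 i)) (dmw p c u i)))) M) 0))))

/-- **`ntr false` with masks** -/
def ntv (p c u on M i : ℕ) : Bool :=
  bc (bc (Nat.beq (wo (Nat.land (dmw p c u i) on) M) 0)
      (Nat.ble (ct (Nat.land (dmw p c u i) on)) 1) true) false
    (bc (zc (bt on i) true (ntv1 p c u on M i)) false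
      (bc (Nat.beq (Nat.land (lmw p c u i) (wo (dmw p c u i) M)) 0) false
        (Nat.beq (Nat.land (s2w p c u M 0 i) (dmw p c u i)) 0)))

theorem nl_false (n : ℕ) : nl (fun _ => false) n = 0 := by
  apply Nat.eq_of_testBit_eq
  intro j
  rw [tb_nl]
  simp

theorem or_beq (a b : ℕ) : Nat.beq (Nat.lor a b) 0 = (Nat.beq a 0 && Nat.beq b 0) := by
  rw [Bool.eq_iff_iff, Bool.and_eq_true, nbeq, nbeq, nbeq]
  constructor
  · intro h
    refine ⟨?_, ?_⟩
    · apply Nat.eq_of_testBit_eq
      intro j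
      have h1 := congr_arg (fun x => x.testBit j) h
      beta_reduce at h1
      rw [tb_lor] at h1
      rw [Nat.zero_testBit] at h1 ⊢
      exact (Bool.or_eq_false_iff.1 h1).1
    · apply Nat.eq_of_testBit_eq
      intro j
      have h1 := congr_arg (fun x => x.testBit j) h
      beta_reduce at h1
      rw [tb_lor] at h1
      rw [Nat.zero_testBit] at h1 ⊢
      exact (Bool.or_eq_false_iff.1 h1).2
  · rintro ⟨h1, h2⟩
    rw [h1, h2]
    rfl

theorem ntv_eq (p c u on M i : ℕ) : ntv p c u on M i = ntw p c u on M i := by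
  unfold ntv ntv1 ntw
  simp only [fz_val, or_beq]
  have e : zc (bt on i) true (bc (Nat.beq (ct (nzf 65793 (wd p i))) 2) false
      (bc (Nat.beq (Nat.land (dmw p c u i) on) 0) false
      (bc (Nat.beq (wo (Nat.land (lmw p c u i) on) M) 0) false
      (bc (Nat.beq (Nat.land (s2w p c u M 0 i) (wo on (Nat.lor (Nat.shiftLeft 1 (Nat.mul 24 i))
        (dmw p c u i)))) 0) false
        (Nat.beq (wo (Nat.land (s2w p c u M 1 i)
          (wo on (Nat.lor (Nat.shiftLeft 1 (Nat.mul 24 i)) (dmw p c u i)))) M) 0))))) =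
      (Nat.beq (bt on i) 0 || (bc (Nat.beq (ct (nzf 65793 (wd p i))) 2) false
      (bc (Nat.beq (Nat.land (dmw p c u i) on) 0) false
      (bc (Nat.beq (wo (Nat.land (lmw p c u i) on) M) 0) false
      (bc (Nat.beq (Nat.land (s2w p c u M 0 i) (wo on (Nat.lor (Nat.shiftLeft 1 (Nat.mul 24 i))
        (dmw p c u i)))) 0) false
        (Nat.beq (wo (Nat.land (s2w p c u M 1 i)
          (wo on (Nat.lor (Nat.shiftLeft 1 (Nat.mul 24 i)) (dmw p c u i)))) M) 0)))))) := by
    rw [zc_eq]
    by_cases h : bt on i = 0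
    · rw [if_pos h, h]
      rfl
    · rw [if_neg h]
      have : Nat.beq (bt on i) 0 = false := by
        rw [← Bool.not_eq_true, nbeq]
        exact h
      rw [this, Bool.false_or]
  rw [e]
  unfold s2w lmw dmw
  have hb : ∀ a b : Bool, bc a false b = (a && b) := by decide
  have ho : ∀ a b : Bool, bc a b true = (a || b) := by decide
  rw [hb, hb, hb, hb, hb, hb, hb, ho]
  generalize Nat.beq (bt on i) 0 = x1
  generalize Nat.beq (ct (nzf 65793 (wd p i))) 2 = x2
  generalize Nat.beq (Nat.land (nf u (Nat.land (Nat.shiftRight (pf (wd p i)) 8) c)) on) 0 = x3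
  generalize Nat.beq (wo (Nat.land (nf u (Nat.land (Nat.shiftRight (pf (wd p i)) 12) c)) on) M) 0 = x4
  generalize Nat.beq (wo (Nat.land (nf u (Nat.land (Nat.shiftRight (pf (wd p i)) 8) c)) on) M) 0 = x5
  generalize Nat.ble (ct (Nat.land (nf u (Nat.land (Nat.shiftRight (pf (wd p i)) 8) c)) on)) 1 = x6
  generalize Nat.beq (Nat.land (nf u (Nat.land (Nat.shiftRight (pf (wd p i)) 12) c))
    (wo (nf u (Nat.land (Nat.shiftRight (pf (wd p i)) 8) c)) M)) 0 = x7
  generalize Nat.beq (Nat.land (nf u (Nat.land (Nat.shiftRight (n2m p M 0 (wd p i)) 8) c))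
    (nf u (Nat.land (Nat.shiftRight (pf (wd p i)) 8) c))) 0 = x8
  generalize Nat.beq (Nat.land (nf u (Nat.land (Nat.shiftRight (n2m p M 0 (wd p i)) 8) c))
    (wo on (Nat.lor (Nat.shiftLeft 1 (Nat.mul 24 i))
      (nf u (Nat.land (Nat.shiftRight (pf (wd p i)) 8) c))))) 0 = x9
  generalize Nat.beq (wo (Nat.land (nf u (Nat.land (Nat.shiftRight (n2m p M 1 (wd p i)) 8) c))
    (wo on (Nat.lor (Nat.shiftLeft 1 (Nat.mul 24 i))
      (nf u (Nat.land (Nat.shiftRight (pf (wd p i)) 8) c))))) M) 0 = x10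
  revert x1 x2 x3 x4 x5 x6 x7 x8 x9 x10
  decide

/-- the nodes of `F` with a property -/
def lpm (F : ℕ) (q : ℕ → Bool) (n : ℕ) : ℕ :=
  lp (fun i r => zc (bt F i) r (bc (q i) r (Nat.lor (Nat.shiftLeft 1 (Nat.mul 24 i)) r))) n

theorem tb_lpm {P q : ℕ → Bool} {n : ℕ} {m : ℕ} (hm : m ≤ n) (j : ℕ) : (lpm (nl P n) q m).testBit j =
    (decide (j % 24 = 0) && decide (j / 24 < m) && (P (j / 24) && q (j / 24))) := by
  induction m with
  | zero =>
    unfold lpm
    rw [lp_zero, Nat.zero_testBit]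
    simp
  | succ m ih =>
    have ih := ih (by omega)
    unfold lpm at ih ⊢
    rw [lp_succ, bt_nl (by omega), zc_eq, bc_eq]
    by_cases h1 : P m = true
    · by_cases h2 : q m = true
      · rw [h1, if_neg (by decide), if_pos h2, tb_lor, ih]
        show ((1 <<< (24 * m)).testBit j || _) = _
        rw [Nat.one_shiftLeft, Nat.testBit_two_pow]
        by_cases h3 : 24 * m = j
        · have h4 : j % 24 = 0 := by omega
          have h5 : j / 24 = m := by omega
          rw [h5, h1, h2]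
          simp [h3, h4]
        · rw [decide_eq_false h3, Bool.false_or]
          by_cases h4 : j % 24 = 0
          · have h5 : (j / 24 < m + 1) ↔ (j / 24 < m) := by omega
            rw [decide_eq_decide.2 h5]
          · rw [decide_eq_false h4]
            simp
      · rw [h1, if_neg (by decide), if_neg h2, ih]
        by_cases h4 : j / 24 = m
        · rw [h4]
          rw [Bool.not_eq_true] at h2
          rw [h2]
          simp
        · have h5 : (j / 24 < m + 1) ↔ (j / 24 < m) := by omega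
          rw [decide_eq_decide.2 h5]
    · rw [Bool.not_eq_true] at h1
      rw [h1, if_pos (by decide), ih]
      by_cases h4 : j / 24 = m
      · rw [h4, h1]
        simp
      · have h5 : (j / 24 < m + 1) ↔ (j / 24 < m) := by omega
        rw [decide_eq_decide.2 h5]

theorem lpm_eq (P q : ℕ → Bool) (n : ℕ) : lpm (nl P n) q n = nl (fun i => P i && q i) n := by
  apply Nat.eq_of_testBit_eq
  intro j
  rw [tb_lpm le_rfl, tb_nl]

/-- **`tpc` with masks** -/
def tpw (p c u i : ℕ) : Bool :=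
  bc (Nat.beq (Nat.land (Nat.lor (lmw p c u i) (s2w p c u 0 0 i)) (dmw p c u i)) 0) true false

theorem tpc_iff {p i : ℕ} : tpc p i = true ↔ ∃ w, adjd p i w = true ∧ (lkd p i w = true ∨
    ∃ w', adjd p i w' = true ∧ adjd p w w' = true) := by
  unfold tpc
  rw [anp_iff]
  constructor
  · rintro ⟨k, hk, h⟩
    rw [Bool.and_eq_true] at h
    obtain ⟨h1, h2⟩ := h
    refine (exD (Q := fun t => lkd p i t = true ∨ ∃ w', adjd p i w' = true ∧ adjd p t w' = true)).1
      ⟨k, hk, h1, ?_⟩
    obtain ⟨k', hk', h3⟩ := anp_iff.1 h2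
    rw [Bool.or_eq_true] at h3
    rcases h3 with h3 | h3
    · left
      unfold lkd
      exact anp_iff.2 ⟨k', hk', h3⟩
    · right
      rw [Bool.and_eq_true] at h3
      exact exD.1 ⟨k', hk', h3.1, h3.2⟩
  · intro h
    obtain ⟨k, hk, h1, h2⟩ := exD.2 h
    refine ⟨k, hk, ?_⟩
    rw [Bool.and_eq_true]
    refine ⟨h1, ?_⟩
    rcases h2 with h2 | h2
    · unfold lkd at h2
      obtain ⟨k', hk', h3⟩ := anp_iff.1 h2
      exact anp_iff.2 ⟨k', hk', by rw [h3, Bool.true_or]⟩
    · obtain ⟨k', hk', h3, h4⟩ := exD.2 h2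
      exact anp_iff.2 ⟨k', hk', by rw [h3, h4, Bool.true_and, Bool.or_true]⟩

theorem tpw_eq {p n : ℕ} (hw : Wf n p) {i : ℕ} (hi : i < n) :
    tpw p (fl (fun _ => true) (3 * n)) (nl (fun _ => true) n) i = tpc p i := by
  unfold tpw s2w lmw dmw
  have e := s2_eq hw (fun _ => false) 0 hi
  rw [nl_false] at e
  rw [e, dm_eq, lm_eq, lor_nl, land_nl]
  have hb : ∀ a : Bool, bc a true false = !a := by decide
  rw [hb, Bool.eq_iff_iff, Bool.not_eq_true', ← Bool.not_eq_true, beq_nl, tpc_iff]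
  constructor
  · intro h
    push Not at h
    obtain ⟨j, hj, h1⟩ := h
    rw [Ne, Bool.not_eq_false, Bool.and_eq_true, Bool.or_eq_true, s2p_iff] at h1
    obtain ⟨h2 | ⟨w, h3, -, h4⟩, h5⟩ := h1
    · exact ⟨j, h5, Or.inl h2⟩
    · exact ⟨w, h3, Or.inr ⟨j, h5, h4⟩⟩
  · rintro ⟨w, h1, h2⟩ h
    rcases h2 with h2 | ⟨w', h2, h3⟩
    · have h4 := h w (adjd_lt hw hi h1)
      rw [h1, h2] at h4
      exact absurd h4 (by simp)
    · have h4 := h w' (adjd_lt hw hi h2)
      have h5 : s2p p (fun _ => false) 0 i w' = true := s2p_iff.2 ⟨w, h1, rfl, h3⟩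
      rw [h2, h5] at h4
      exact absurd h4 (by simp)

theorem c3_and (S P : ℕ → Bool) (i : ℕ) : c3 (fun k => S k && P (k / 3)) i = bif P i then c3 S i else 0 := by
  have d0 : 3 * i / 3 = i := by omega
  have d1 : (3 * i + 1) / 3 = i := by omega
  have d2 : (3 * i + 2) / 3 = i := by omega
  unfold c3
  beta_reduce
  rw [d0, d1, d2]
  cases P i <;> simp

/-- **the lonely outer vertices before the step which count** -/
theorem kbK_le {n p M : ℕ} {B : ℕ → Bool} (hB : ∀ i < n, c3 (g1 p) i ≠ 0 → tpc p i = false →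
    (M.testBit i = true ∨ ntr false p M i = true) → B i = true) :
    kbK false n p M ≤ sm (fun i => c3 (fun k => g1 p k && B (k / 3)) i) n := by
  unfold kbK
  refine sm_le fun i hi => ?_
  rw [c3_and, frc_eq, tb_eq, dn_c3]
  by_cases h0 : c3 (g1 p) i = 0
  · rw [h0]
    exact Nat.zero_le _
  · have h1 : Nat.beq (c3 (g1 p) i) 0 = false := by
      rw [← Bool.not_eq_true, nbeq]
      exact h0
    rw [h1]
    have h2 := hB i hi h0
    cases ht : tpc p i
    · have h3 := h2 ht
      cases hM : M.testBit i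
      · cases hr : ntr false p M i
        · exact Nat.zero_le _
        · rw [h3 (Or.inr hr)]
          exact le_rfl
      · rw [h3 (Or.inl hM)]
        exact le_rfl
    · exact Nat.zero_le _

theorem kbK_dnt (n p M : ℕ) : kbK false n p M ≤ dnt n p := by
  rw [dnt_W]
  refine le_trans (kbK_le (B := fun _ => true) fun _ _ _ _ _ => rfl) (sm_le fun i _ => ?_)
  have h := c3_and (g1 p) (fun _ => true) i
  beta_reduce at h
  rw [h]
  exact le_rfl

/-- the counts of a sure survivor -/
theorem cnt_W {p M i : ℕ} (hM : M.testBit i = false) :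
    dn p i + exn p M i = c3 (fun k => g1 p k || gkl p M k || ge1 p M k) i := by
  have d0 : 3 * i / 3 = i := by omega
  have d1 : (3 * i + 1) / 3 = i := by omega
  have d2 : (3 * i + 2) / 3 = i := by omega
  have h0 := exd_W (p := p) (M := M) (k := 3 * i) (by rw [d0]; exact hM)
  have h1 := exd_W (p := p) (M := M) (k := 3 * i + 1) (by rw [d1]; exact hM)
  have h2 := exd_W (p := p) (M := M) (k := 3 * i + 2) (by rw [d2]; exact hM)
  unfold c3
  beta_reduce
  rw [← h0, ← h1, ← h2]
  have e1 : dn p i = (bif Nat.beq (dg p (3 * i)) 1 then 1 else 0) +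
    (bif Nat.beq (dg p (3 * i + 1)) 1 then 1 else 0) + (bif Nat.beq (dg p (3 * i + 2)) 1 then 1 else 0) :=
    EF18.dn_eq p i
  have e2 : exn p M i = exd p M (dg p (3 * i)) + exd p M (dg p (3 * i + 1)) +
      exd p M (dg p (3 * i + 2)) := by
    unfold exn
    rw [frc_eq]
    rfl
  rw [e1, e2]
  ring

/-- **the lonely outer vertices after the step which count** -/
theorem kaWK_ge {D n p M : ℕ} {Q : ℕ → Bool} (hD : D < 3) (hQ : ∀ i < n, Q i = true → M.testBit i = false ∧
    a3 (gsf p M) i = true ∧ ntr false p M i = true) :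
    sm (fun i => c3 (fun k => (g1 p k || gkl p M k || ge1 p M k) && Q (k / 3)) i) n ≤ kaWK false D n p M := by
  unfold kaWK
  refine sm_le fun i hi => ?_
  rw [c3_and (fun k => g1 p k || gkl p M k || ge1 p M k), frc_eq, tb_eq]
  cases hq : Q i
  · exact Nat.zero_le _
  · obtain ⟨hM, hs, hr⟩ := hQ i hi hq
    rw [(surv hD hM).1, hM, hs, hr]
    show _ ≤ (bif Nat.beq (dn p i + exn p M i) 0 || _ || _ || _ then 0 else dn p i + exn p M i)
    rw [cnt_W hM]
    by_cases h0 : c3 (fun k => g1 p k || gkl p M k || ge1 p M k) i = 0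
    · rw [h0]
      exact Nat.zero_le _
    · have h1 : Nat.beq (c3 (fun k => g1 p k || gkl p M k || ge1 p M k) i) 0 = false := by
        rw [← Bool.not_eq_true, nbeq]
        exact h0
      rw [h1]
      exact le_rfl

/-- the lonely outer vertices after the step which count, all completions -/
theorem kaEK_ge {D n p M : ℕ} {Q : ℕ → Bool} (hD : D < 3) (hQ : ∀ i < n, Q i = true → M.testBit i = false ∧
    (gns p M i && !a3 (g0 p) i) = false ∧ ntr false p M i = true) :
    sm (fun i => c3 (fun k => (g1 p k || gkl p M k || ge1 p M k) && Q (k / 3)) i) n ≤ kaEK false D n p M := by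
  unfold kaEK
  refine sm_le fun i hi => ?_
  rw [c3_and (fun k => g1 p k || gkl p M k || ge1 p M k), frc_eq, tb_eq]
  cases hq : Q i
  · exact Nat.zero_le _
  · obtain ⟨hM, hs, hr⟩ := hQ i hi hq
    have e4 : gns p M i = !a3 (gsf p M) i := by
      unfold gns
      rw [hM]
      cases a3 (gsf p M) i <;> rfl
    have e5 : (full p i && !a3 (gsf p M) i) = false := by
      rw [full_a3, Bool.and_comm, ← e4]
      exact hs
    rw [(surv hD hM).1, hM, hr, e5]
    show _ ≤ (bif Nat.beq (dn p i + exn p M i) 0 || _ || _ || _ then 0 else dn p i + exn p M i)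
    rw [cnt_W hM]
    by_cases h0 : c3 (fun k => g1 p k || gkl p M k || ge1 p M k) i = 0
    · rw [h0]
      exact Nat.zero_le _
    · have h1 : Nat.beq (c3 (fun k => g1 p k || gkl p M k || ge1 p M k) i) 0 = false := by
        rw [← Bool.not_eq_true, nbeq]
        exact h0
      rw [h1]
      exact le_rfl

/-- `ntv` gives `ntr false`; for a node which is certainly in no triangle they are equal -/
theorem ntv_imp {p n K : ℕ} (hn : 3 * n < 255) (hw : Wf n p) {i : ℕ} (hi : i < n) :
    (ntv p (fl (fun _ => true) (3 * n)) (nl (fun _ => true) n) (nl (a3 (g0 p)) n) (nm K n) i = true →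
      ntr false p K i = true) ∧ (tpc p i = false → ntr false p K i = true →
      ntv p (fl (fun _ => true) (3 * n)) (nl (fun _ => true) n) (nl (a3 (g0 p)) n) (nm K n) i = true) := by
  have e : nl (a3 (g0 p)) n = nl (fun j => !full p j) n := nl_congr fun j _ => by
    rw [full_a3, Bool.not_not]
  rw [e, ntv_eq]
  have h := ntw_imp (M := fun j => K.testBit j) hn hw (fun _ _ => rfl) hi
  refine ⟨h.1, fun h1 => h.2 fun w hw1 => ?_⟩
  cases h2 : adjd p w w
  · rfl
  · rw [tpc_iff.2 ⟨w, hw1, Or.inr ⟨w, hw1, h2⟩⟩] at h1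
    exact absurd h1 (by simp)

/-! ### the test -/

theorem tsv_mono {cc D l n0 N t1 t2 dk lk ka kb m z : ℕ} (h1 : t2 ≤ t1) (h2 : ka ≤ kb)
    (h : tsv cc D l n0 N t1 dk lk ka m z = true) : tsv cc D l n0 N t2 dk lk kb m z = true := by
  have h3 := tsv_W h
  unfold tsv
  rw [fz_val]
  refine Nat.ble_eq_true_of_le ?_
  change _ ≤ 18 * m + 9 * lk + (18 * dk + 6 * bon D kb (t2 + D * N))
  change 84 * l + cc + 12 * (n0 + N) + (6 * mn (t2 + D * N) 2 + 18 * z) ≤ _
  change 84 * l + cc + 12 * (n0 + N) + (6 * mn (t1 + D * N) 2 + 18 * z) ≤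
    18 * m + 9 * lk + (18 * dk + 6 * bon D ka (t1 + D * N)) at h3
  rw [mn_eq, bon_eq] at h3 ⊢
  generalize D * N = x at *
  by_cases hD : D = 0
  · rw [if_pos hD] at h3 ⊢
    omega
  · rw [if_neg hD] at h3 ⊢
    omega

/-- the test with the triangles; `S` the survivors which count -/
def kk2 (cc D l n0 N dk lk m z n p c u on M S f1 g sv : ℕ) : Bool :=
  fz (Nat.land (nf u (Nat.lor f1 (Nat.land g (Nat.mul S 65793)))) sv) fun F =>
  fz (lpm F (ntv p c u on M) n) fun NT =>
  fz (ct (Nat.land g (Nat.mul (Nat.land S NT) 65793))) fun ka => fz (Nat.lor M NT) fun MN =>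
  bc (tsv cc D l n0 N (ct (Nat.land f1 (Nat.mul MN 65793))) dk lk ka m z)
    (tsv cc D l n0 N (ct (Nat.land f1 (Nat.mul (wo MN (lpm (Nat.land (nf u f1) MN) (tpw p c u) n)) 65793)))
      dk lk ka m z) true

/-- the survivors with ports which count -/
def fkk (p K : ℕ) (S : ℕ → Bool) (i : ℕ) : Bool :=
  a3 (fun k => g1 p k || ((g1 p k || gkl p K k || ge1 p K k) && S (k / 3))) i && !K.testBit i

theorem kk2_of {cc D l n0 N dk lk m z n p K : ℕ} (hw : Wf n p) (hn : 3 * n < 255) {S : ℕ → Bool}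
    (hS : ∀ i < n, S i = true → K.testBit i = false)
    (h : kk2 cc D l n0 N dk lk m z n p (fl (fun _ => true) (3 * n)) (nl (fun _ => true) n) (nl (a3 (g0 p)) n)
      (nm K n) (nl S n) (fl (g1 p) (3 * n)) (Nat.lor (Nat.lor (fl (g1 p) (3 * n)) (fl (gkl p K) (3 * n)))
        (fl (ge1 p K) (3 * n))) (nl (fun i => !K.testBit i) n) = true) :
    ∃ Q : ℕ → Bool, (∀ i < n, Q i = true → K.testBit i = false ∧ S i = true ∧ ntr false p K i = true) ∧
      tsv cc D l n0 N (kbK false n p K) dk lk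
        (sm (fun i => c3 (fun k => (g1 p k || gkl p K k || ge1 p K k) && Q (k / 3)) i) n) m z = true := by
  obtain ⟨nt, hnt⟩ : ∃ nt : ℕ → Bool, nt = ntv p (fl (fun _ => true) (3 * n)) (nl (fun _ => true) n)
    (nl (a3 (g0 p)) n) (nm K n) := ⟨_, rfl⟩
  have h1 : ∀ i < n, (nt i = true → ntr false p K i = true) ∧ (tpc p i = false → ntr false p K i = true →
      nt i = true) := fun i hi => by
    rw [hnt]
    exact ntv_imp hn hw hi
  have e1 : Nat.land (nf (nl (fun _ => true) n) (Nat.lor (fl (g1 p) (3 * n)) (Nat.land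
      (Nat.lor (Nat.lor (fl (g1 p) (3 * n)) (fl (gkl p K) (3 * n))) (fl (ge1 p K) (3 * n)))
      (Nat.mul (nl S n) 65793)))) (nl (fun i => !K.testBit i) n) = nl (fkk p K S) n := by
    rw [lor_fl, lor_fl, nl_mul, land_fl, lor_fl, nf_fl, land_nl]
    rfl
  unfold kk2 at h
  simp only [fz_val] at h
  rw [e1, ← hnt, lpm_eq, land_nl, lor_nl, nl_mul, lor_fl, lor_fl, land_fl, nl_mul, land_fl, nf_fl, land_nl,
    lpm_eq, wo_nl, nl_mul, land_fl, ct3 hn, ct3 hn, ct3 hn, bc_eq] at h
  refine ⟨fun i => S i && (fkk p K S i && nt i), fun i hi hq => ?_, ?_⟩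
  · rw [Bool.and_eq_true, Bool.and_eq_true] at hq
    exact ⟨hS i hi hq.1, hq.1, (h1 i hi).1 hq.2.2⟩
  · have hB : ∀ i < n, c3 (g1 p) i ≠ 0 → tpc p i = false → (K.testBit i = true ∨ ntr false p K i = true) →
        (K.testBit i || (fkk p K S i && nt i)) = true := by
      intro i hi h0 ht hor
      cases hK : K.testBit i
      · rw [hK] at hor
        have h3 : fkk p K S i = true := by
          unfold fkk a3
          rw [hK]
          unfold c3 at h0
          cases x1 : g1 p (3 * i)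
          · cases x2 : g1 p (3 * i + 1)
            · cases x3 : g1 p (3 * i + 2)
              · rw [x1, x2, x3] at h0
                exact absurd rfl h0
              · simp [x3]
            · simp [x2]
          · simp [x1]
        rcases hor with h4 | h4
        · exact absurd h4 (by simp)
        · rw [h3, (h1 i hi).2 ht h4]
          rfl
      · rfl
    split_ifs at h with hc
    · exact tsv_mono (kbK_le hB) le_rfl hc
    · refine tsv_mono ?_ le_rfl h
      have h4 := kbK_le (n := n) (p := p) (M := K) (B := fun i => (K.testBit i || (fkk p K S i && nt i)) &&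
        !(((g1 p (3 * i) || g1 p (3 * i + 1) || g1 p (3 * i + 2)) &&
          (K.testBit i || (fkk p K S i && nt i))) &&
          tpw p (fl (fun _ => true) (3 * n)) (nl (fun _ => true) n) i)) fun i hi h0 ht hor => by
        rw [tpw_eq hw hi, ht, Bool.and_false, Bool.not_false, Bool.and_true]
        exact hB i hi h0 ht hor
      exact h4

/-! ### the test with the words -/

/-- the worst case -/
def kwk (C : ℕ → ℕ) (lf : Bool) (D l n p c u M IN f0 f1 tkl sd mp sv on f0i e1 sf ns att : ℕ) : Bool :=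
  bc lf true (Nat.beq f0i 0 || Nat.beq (Nat.land on sv) 0) &&
  fz (Nat.add (ct (Nat.land f0 mp)) (ct f0i)) fun opm =>
  fz (nn D u f0 f1 on att opm) fun N =>
  fz (C (outw u f0 sd M IN)) fun cc =>
  bc (tsv cc D l (ct (wo ns on)) N (ct f1) (ct (Nat.land f1 mp)) (ct (Nat.land tkl mp)) 0 (ct M)
    (ct (wo (nf u (Nat.land (Nat.lor sd f0) mp)) IN)))
  (kk2 cc D l (ct (wo ns on)) N (ct (Nat.land f1 mp)) (ct (Nat.land tkl mp)) (ct M)
    (ct (wo (nf u (Nat.land (Nat.lor sd f0) mp)) IN)) n p c u on M sf f1 (Nat.lor (Nat.lor f1 tkl) e1) sv) true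

/-- all completions -/
def kek (C : ℕ → ℕ) (D l n p c u M IN f0 f1 tkl sd mp sv on _f0i e1 _sf ns _att : ℕ) : Bool :=
  fz (C (outw u f0 sd M IN)) fun cc => fz (wo ns on) fun nf0 =>
  bc (tsv cc D l (ct nf0) 0 (ct f1) (ct (Nat.land f1 mp)) (ct (Nat.land tkl mp)) 0 (ct M)
    (ct (wo (nf u (Nat.land (Nat.lor sd f0) mp)) IN)))
  (kk2 cc D l (ct nf0) 0 (ct (Nat.land f1 mp)) (ct (Nat.land tkl mp)) (ct M)
    (ct (wo (nf u (Nat.land (Nat.lor sd f0) mp)) IN)) n p c u on M (wo sv nf0) f1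
    (Nat.lor (Nat.lor f1 tkl) e1) sv) true

section

variable {C : ℕ → ℕ} {D n p l Km Im : ℕ}

theorem kwk_of (hw : Wf n p) (hD : D < 3) (hn : 3 * n < 255) {lf : Bool}
    (h : wds n p (fl (fun _ => true) (3 * n)) (nl (fun _ => true) n) (nm Km n) (nm Im n)
      (kwk C lf D l n p (fl (fun _ => true) (3 * n)) (nl (fun _ => true) n) (nm Km n) (nm Im n)) = true) :
    (lf = true → ((∀ i < n, Im.testBit i = true → a3 (g0 p) i = false) ∨
      ∀ i < n, Km.testBit i = false → a3 (g0 p) i = false)) ∧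
    ∀ A, A = sm (fun i => c3 (fun k => g0 p k && Km.testBit (k / 3)) i) n +
      sm (fun i => c3 (fun k => g0 p k && Im.testBit (k / 3)) i) n →
    tsv (C (outx n p Km Im 0)) D l (n00 D n p Km) (ndr D n p Km + xN D n p Km A) (kbK false n p Km)
      (dnk n p Km) (sm (fun i => c3 (fun k => gkl p Km k && Km.testBit (k / 3)) i) n) (kaWK false D n p Km)
      (sm (fun i => (Km.testBit i).toNat) n)
      (sm (fun i => ((a3 (fun k => gsd p Km k || g0 p k) i && Km.testBit i) && !Im.testBit i).toNat) n) =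
        true := by
  have d0 : ∀ i, 3 * i / 3 = i := fun i => by omega
  have d1 : ∀ i, (3 * i + 1) / 3 = i := fun i => by omega
  have d2 : ∀ i, (3 * i + 2) / 3 = i := fun i => by omega
  have e17 : ct (Nat.land (fl (g0 p) (3 * n)) (fl (fun k => Km.testBit (k / 3)) (3 * n))) =
      sm (fun i => c3 (fun k => g0 p k && Km.testBit (k / 3)) i) n := by
    rw [land_fl, ct3 hn]
  have e18 : ct (wo (nl (gns p Km) n) (nl (a3 (g0 p)) n)) = n00 D n p Km := by
    rw [wo_nl, ct_nl hn, n00_W hD]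
  have e19 : ct (fl (g1 p) (3 * n)) = dnt n p := by rw [ct3 hn, dnt_W]
  have e20 : ct (Nat.land (fl (g1 p) (3 * n)) (fl (fun k => Km.testBit (k / 3)) (3 * n))) =
      dnk n p Km := by
    rw [land_fl, ct3 hn, dnk_W]
  have e21 : ct (Nat.land (fl (gkl p Km) (3 * n)) (fl (fun k => Km.testBit (k / 3)) (3 * n))) =
      sm (fun i => c3 (fun k => gkl p Km k && Km.testBit (k / 3)) i) n := by
    rw [land_fl, ct3 hn]
  have e23 : ct (nm Km n) = sm (fun i => (Km.testBit i).toNat) n := ct_nl hn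
  have e24 : ct (wo (nf (nl (fun _ => true) n) (Nat.land (Nat.lor (fl (gsd p Km) (3 * n))
      (fl (g0 p) (3 * n))) (fl (fun k => Km.testBit (k / 3)) (3 * n)))) (nm Im n)) =
      sm (fun i => ((a3 (fun k => gsd p Km k || g0 p k) i && Km.testBit i) && !Im.testBit i).toNat) n := by
    rw [lor_fl, land_fl, nf_fl, wo_nl, ct_nl hn]
    refine sm_cg fun i _ => ?_
    rw [← a3_mask]
    rfl
  have e25 : ct (fl (fun k => g0 p k && Im.testBit (k / 3)) (3 * n)) =
      sm (fun i => c3 (fun k => g0 p k && Im.testBit (k / 3)) i) n := ct3 hn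
  have e26 : outw (nl (fun _ => true) n) (fl (g0 p) (3 * n)) (fl (gsd p Km) (3 * n)) (nm Km n) (nm Im n) =
      outx n p Km Im 0 := outw_eq hn hw (fun _ _ => rfl) (fun _ _ => rfl)
  rw [wds_eq hw] at h
  unfold kwk at h
  simp only [fz_val] at h
  rw [e17, e18, e19, e20, e21, e23, e24, e25, e26, Bool.and_eq_true] at h
  refine ⟨fun hlf => ?_, fun A hA => ?_⟩
  · have hc := h.1
    rw [bc_eq, if_pos hlf, Bool.or_eq_true, nbeq, nbeq, land_nl] at hc
    rcases hc with hc | hc
    · refine Or.inl fun i hi hI => ?_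
      have key : ∀ k, k < 3 * n → k / 3 = i → g0 p k = false := by
        intro k hk hki
        have h1 := fl_zero hc hk
        beta_reduce at h1
        rw [hki, hI, Bool.and_true] at h1
        exact h1
      unfold a3
      rw [key _ (by omega) (d0 i), key _ (by omega) (d1 i), key _ (by omega) (d2 i)]
      rfl
    · refine Or.inr fun i hi hM => ?_
      have h1 := nl_zero hc hi
      beta_reduce at h1
      rw [hM, Bool.not_false, Bool.and_true] at h1
      exact h1
  · have h2 := h.2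
    subst hA
    rw [nn_W hD hn, bc_eq] at h2
    split_ifs at h2 with hc
    · exact tsv_mono (kbK_dnt n p Km) (Nat.zero_le _) hc
    · obtain ⟨Q, hQ, h3⟩ := kk2_of hw hn (fun i _ hs => by
        rw [Bool.and_eq_true, Bool.not_eq_true'] at hs
        exact hs.2) h2
      refine tsv_mono le_rfl (kaWK_ge hD fun i hi hq => ?_) h3
      obtain ⟨q1, q2, q3⟩ := hQ i hi hq
      rw [Bool.and_eq_true] at q2
      exact ⟨q1, q2.1, q3⟩

theorem kek_of (hw : Wf n p) (hD : D < 3) (hn : 3 * n < 255)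
    (h : wds n p (fl (fun _ => true) (3 * n)) (nl (fun _ => true) n) (nm Km n) (nm Im n)
      (kek C D l n p (fl (fun _ => true) (3 * n)) (nl (fun _ => true) n) (nm Km n) (nm Im n)) = true) :
    tsv (C (outx n p Km Im 0)) D l (n00 D n p Km) 0 (kbK false n p Km) (dnk n p Km)
      (sm (fun i => c3 (fun k => gkl p Km k && Km.testBit (k / 3)) i) n) (kaEK false D n p Km)
      (sm (fun i => (Km.testBit i).toNat) n)
      (sm (fun i => ((a3 (fun k => gsd p Km k || g0 p k) i && Km.testBit i) && !Im.testBit i).toNat) n) =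
        true := by
  have e18 : ct (wo (nl (gns p Km) n) (nl (a3 (g0 p)) n)) = n00 D n p Km := by
    rw [wo_nl, ct_nl hn, n00_W hD]
  have e19 : ct (fl (g1 p) (3 * n)) = dnt n p := by rw [ct3 hn, dnt_W]
  have e20 : ct (Nat.land (fl (g1 p) (3 * n)) (fl (fun k => Km.testBit (k / 3)) (3 * n))) =
      dnk n p Km := by
    rw [land_fl, ct3 hn, dnk_W]
  have e21 : ct (Nat.land (fl (gkl p Km) (3 * n)) (fl (fun k => Km.testBit (k / 3)) (3 * n))) =
      sm (fun i => c3 (fun k => gkl p Km k && Km.testBit (k / 3)) i) n := by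
    rw [land_fl, ct3 hn]
  have e23 : ct (nm Km n) = sm (fun i => (Km.testBit i).toNat) n := ct_nl hn
  have e24 : ct (wo (nf (nl (fun _ => true) n) (Nat.land (Nat.lor (fl (gsd p Km) (3 * n))
      (fl (g0 p) (3 * n))) (fl (fun k => Km.testBit (k / 3)) (3 * n)))) (nm Im n)) =
      sm (fun i => ((a3 (fun k => gsd p Km k || g0 p k) i && Km.testBit i) && !Im.testBit i).toNat) n := by
    rw [lor_fl, land_fl, nf_fl, wo_nl, ct_nl hn]
    refine sm_cg fun i _ => ?_
    rw [← a3_mask]
    rfl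
  have e26 : outw (nl (fun _ => true) n) (fl (g0 p) (3 * n)) (fl (gsd p Km) (3 * n)) (nm Km n) (nm Im n) =
      outx n p Km Im 0 := outw_eq hn hw (fun _ _ => rfl) (fun _ _ => rfl)
  have e27 : wo (nl (fun i => !Km.testBit i) n) (wo (nl (gns p Km) n) (nl (a3 (g0 p)) n)) =
      nl (fun i => !Km.testBit i && !(gns p Km i && !a3 (g0 p) i)) n := by
    rw [wo_nl, wo_nl]
  rw [wds_eq hw] at h
  unfold kek at h
  simp only [fz_val] at h
  rw [e27, e18, e19, e20, e21, e23, e24, e26, bc_eq] at h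
  split_ifs at h with hc
  · exact tsv_mono (kbK_dnt n p Km) (Nat.zero_le _) hc
  · obtain ⟨Q, hQ, h3⟩ := kk2_of hw hn (fun i _ hs => by
      rw [Bool.and_eq_true, Bool.not_eq_true'] at hs
      exact hs.1) h
    refine tsv_mono le_rfl (kaEK_ge hD fun i hi hq => ?_) h3
    obtain ⟨q1, q2, q3⟩ := hQ i hi hq
    rw [Bool.and_eq_true, Bool.not_eq_true'] at q2
    exact ⟨q1, by rw [← Bool.not_eq_true', q2.2], q3⟩

end

/-! ### the picks -/

/-- the worst case, with the picks -/
def lwK (C : ℕ → ℕ) (lf : Bool) (D n p : ℕ) (L : List ℕ) : Bool :=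
  Nat.ble (Nat.succ n) 40 && fz (Nat.div (Nat.pow 16777216 n) 255) fun c =>
    fz (Nat.div (Nat.pow 16777216 n) 16777215) fun u =>
    pk n p c u (fun M IN => fz M fun M => fz IN fun IN => wds n p c u M IN
      (kwk C lf D L.length n p c u M IN)) L 0 0

/-- all completions, with the picks -/
def leK (C : ℕ → ℕ) (D n p : ℕ) (L : List ℕ) : Bool :=
  Nat.ble (Nat.add n 5) 40 && fz (Nat.div (Nat.pow 16777216 n) 255) fun c =>
    fz (Nat.div (Nat.pow 16777216 n) 16777215) fun u =>
    pk n p c u (fun M IN => fz M fun M => fz IN fun IN => wds n p c u M IN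
      (kek C D L.length n p c u M IN)) L 0 0

theorem lwK_eq (C : ℕ → ℕ) (lf : Bool) (D n p : ℕ) (L : List ℕ) : lwK C lf D n p L =
    (Nat.ble (Nat.succ n) 40 && pk n p (fl (fun _ => true) (3 * n)) (nl (fun _ => true) n) (fun M IN =>
      wds n p (fl (fun _ => true) (3 * n)) (nl (fun _ => true) n) M IN
        (kwk C lf D L.length n p (fl (fun _ => true) (3 * n)) (nl (fun _ => true) n) M IN)) L (nm 0 n)
        (nm 0 n)) := by
  unfold lwK
  simp only [fz_val]
  rw [nm_zero, ones_eq, nodes_eq]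

theorem leK_eq (C : ℕ → ℕ) (D n p : ℕ) (L : List ℕ) : leK C D n p L =
    (Nat.ble (Nat.add n 5) 40 && pk n p (fl (fun _ => true) (3 * n)) (nl (fun _ => true) n) (fun M IN =>
      wds n p (fl (fun _ => true) (3 * n)) (nl (fun _ => true) n) M IN
        (kek C D L.length n p (fl (fun _ => true) (3 * n)) (nl (fun _ => true) n) M IN)) L (nm 0 n)
        (nm 0 n)) := by
  unfold leK
  simp only [fz_val]
  rw [nm_zero, ones_eq, nodes_eq]

theorem tpl_false (n p M : ℕ) : ∀ m, tpl false n p M m = [] := by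
  intro m
  induction m with
  | zero => rfl
  | succ m ih =>
    rw [tpl, ih]
    rfl

theorem evlX_W {x : Bool} {T TI D n p : ℕ} {L : List ℕ} {cr ct : ℕ → ℕ → ℕ} {xs : List (ℕ × ℕ)}
    {N z m lk : ℕ}
    (hN : N = ndr D n p (kms p L 0) + xN D n p (kms p L 0) (opm2 n p (kms p L 0) (ims p L 0)))
    (h1 : Nat.ble (Nat.succ n) 40 = true) (h2 : pks n p L 0 = true)
    (h7 : 84 * L.length + ct (kms p L 0) (ims p L 0) + 12 * (n00 D n p (kms p L 0) + N) +
      (6 * mn (Nat.add (kbK false n p (kms p L 0)) (Nat.mul D N)) 2 + 18 * z) ≤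
        18 * m + 9 * lk + (18 * dnk n p (kms p L 0) +
        6 * bon D (kaWK false D n p (kms p L 0)) (Nat.add (kbK false n p (kms p L 0)) (Nat.mul D N))))
    (h8 : 18 * m + 12 * dnk n p (kms p L 0) + 9 * lk ≤ evs T TI n p (kms p L 0) (ims p L 0) + 18 * z) :
    evlX false x 84 T TI D 12 6 6 n p L cr ct xs = some (xs ++ kin n p (kms p L 0) (ims p L 0) n) := by
  change N = Nat.add (ndr D n p (kms p L 0))
    (xN D n p (kms p L 0) (opm2 n p (kms p L 0) (ims p L 0))) at hN
  unfold evlX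
  rw [frc_eq, frc_eq, frc_eq, frc_eq, ← hN, h1, h2, tpl_false, List.append_nil]
  have h9 := ble_Y (cr := Nat.add (xdc x 6 n p (kms p L 0)) (cr (kms p L 0) (ims p L 0))) h7 h8
  have h10 : (bif Nat.beq 6 0 then 0 else Nat.add (kbK false n p (kms p L 0)) (Nat.mul D N)) =
    Nat.add (kbK false n p (kms p L 0)) (Nat.mul D N) := rfl
  rw [h10, h9]
  rfl

theorem evbX_W {x : Bool} {T TI D n p : ℕ} {L : List ℕ} {cr ct : ℕ → ℕ → ℕ} {xs : List (ℕ × ℕ)} {z m lk : ℕ}
    (h1 : Nat.ble (Nat.add n 5) 40 = true) (h2 : pks n p L 0 = true)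
    (h7 : 84 * L.length + ct (kms p L 0) (ims p L 0) + 12 * (n00 D n p (kms p L 0) + 0) +
      (6 * mn (Nat.add (kbK false n p (kms p L 0)) (Nat.mul D 0)) 2 + 18 * z) ≤
        18 * m + 9 * lk + (18 * dnk n p (kms p L 0) +
        6 * bon D (kaEK false D n p (kms p L 0)) (Nat.add (kbK false n p (kms p L 0)) (Nat.mul D 0))))
    (h8 : 18 * m + 12 * dnk n p (kms p L 0) + 9 * lk ≤ evs T TI n p (kms p L 0) (ims p L 0) + 18 * z) :
    iss (evbX false x 84 T TI D 12 6 6 n p L cr ct xs) = true := by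
  unfold evbX
  rw [frc_eq, frc_eq, frc_eq, h1, h2]
  have h9 := ble_Y (cr := Nat.add (xdc x 6 n p (kms p L 0)) (cr (kms p L 0) (ims p L 0))) h7 h8
  have h10 : (bif Nat.beq 6 0 then 0 else kbK false n p (kms p L 0)) = kbK false n p (kms p L 0) := rfl
  change Nat.ble (Nat.add (Nat.add (Nat.add (Nat.mul 84 L.length) (ct (kms p L 0) (ims p L 0)))
      (Nat.mul 12 (n00 D n p (kms p L 0)))) (bx 6 (mn (kbK false n p (kms p L 0)) 2)))
      (Nat.add (Nat.add (evs T TI n p (kms p L 0) (ims p L 0)) (Nat.add (xdc x 6 n p (kms p L 0))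
        (cr (kms p L 0) (ims p L 0))))
        (bx 6 (Nat.add (dnk n p (kms p L 0)) (bon D (kaEK false D n p (kms p L 0))
          (kbK false n p (kms p L 0)))))) = true at h9
  rw [h10, h9]
  rfl

theorem lwK_of {C : ℕ → ℕ} {lf x : Bool} {D n p : ℕ} {L : List ℕ} (hw : Wf n p) (hD : D < 3)
    (h : lwK C lf D n p L = true) {cr ct : ℕ → ℕ → ℕ} {xs : List (ℕ × ℕ)}
    (hct : ct (kms p L 0) (ims p L 0) = C (outx n p (kms p L 0) (ims p L 0) 0)) :
    evlX false x 84 tK tI D 12 6 6 n p L cr ct xs = some (xs ++ kin n p (kms p L 0) (ims p L 0) n) ∧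
      (lf = true → kin n p (kms p L 0) (ims p L 0) n = []) := by
  rw [lwK_eq, Bool.and_eq_true] at h
  obtain ⟨h1, h2⟩ := h
  have hn : n < 40 := Nat.le_of_ble_eq_true h1
  obtain ⟨h3, h4⟩ := pk_of h2
  obtain ⟨h5, h6⟩ := kwk_of hw hD (by omega) h4
  have h7 := tsv_W (h6 (opm2 n p (kms p L 0) (ims p L 0)) (opm2_W n p L))
  have h8 := evs_W n p L
  rw [← dnk_W] at h8
  rw [← hct] at h7
  exact ⟨evlX_W rfl h1 h3 h7 h8, fun hlf => kin_nil (h5 hlf) n le_rfl⟩

theorem leK_of {C : ℕ → ℕ} {x : Bool} {D n p : ℕ} {L : List ℕ} (hw : Wf n p) (hD : D < 3)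
    (h : leK C D n p L = true) {cr ct : ℕ → ℕ → ℕ} {xs : List (ℕ × ℕ)}
    (hct : ct (kms p L 0) (ims p L 0) = C (outx n p (kms p L 0) (ims p L 0) 0)) :
    iss (evbX false x 84 tK tI D 12 6 6 n p L cr ct xs) = true := by
  rw [leK_eq, Bool.and_eq_true] at h
  obtain ⟨h1, h2⟩ := h
  have hn : n + 5 ≤ 40 := Nat.le_of_ble_eq_true h1
  obtain ⟨h3, h4⟩ := pk_of h2
  have h7 := tsv_W (kek_of hw hD (by omega) h4)
  have h8 := evs_W n p L
  rw [← dnk_W] at h8
  rw [← hct] at h7
  exact evbX_W h1 h3 h7 h8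

/-- a token without flags, matched nodes and credit: `k` of the picks, else `s` -/
def tkk (y : ℕ) (k : List ℕ → Bool) (s : Bool) : Bool := bc (tkw y k s) s true

theorem tkk_of {y : ℕ} {k : List ℕ → Bool} {s : Bool} (h : tkk y k s = true) : s = true ∨
    (k (pkz (Nat.mod y 8) (Nat.div y 64)) = true ∧
      ∀ f : Bool → Bool → List ℕ → ℕ → ℕ → Option (List (ℕ × ℕ)), lfx f y =
        f false (tb y 4) (pkz (Nat.mod y 8) (Nat.div y 64)) 0 0) := by
  unfold tkk at h
  rw [bc_eq] at h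
  split_ifs at h with hc
  · exact tkw_of hc
  · exact Or.inl h

end W

theorem evbV_ntf (e x : Bool) (P T TI D dl b c n p : ℕ) (L : List ℕ) (cr ct : ℕ → ℕ → ℕ) (xs : List (ℕ × ℕ)) :
    evbV false e x P T TI D dl b c n p L cr ct xs = evbX e x P T TI D dl b c n p L cr ct xs := rfl

theorem evlV_ntf (e x : Bool) (P T TI D dl b c n p : ℕ) (L : List ℕ) (cr ct : ℕ → ℕ → ℕ) (xs : List (ℕ × ℕ)) :
    evlV false e x P T TI D dl b c n p L cr ct xs = evlX e x P T TI D dl b c n p L cr ct xs := rfl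

/-- the fast test of an event with all completions -/
def tEk (Ts : List (List ℕ)) (D : ℕ) (CL : List CPc) (ML : List MPc) (n p y : ℕ) : Bool :=
  W.tkk y (fun L => W.leK (W.cst Ts L) D n p L) (iss (oE true CL Ts D false ML n p y))

/-- the fast test of an event in the worst case -/
def tWk (Ts : List (List ℕ)) (D : ℕ) (CL : List CPc) (ML : List MPc) (n p y : ℕ) : Bool :=
  W.tkk y (fun L => W.lwK (W.cst Ts L) false D n p L) (iss (oW true CL Ts D false ML n p y))

/-- the fast test of a leaf -/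
def lwk (Ts : List (List ℕ)) (D : ℕ) (CL : List CPc) (ML : List MPc) (n p y : ℕ) : Bool :=
  W.tkk y (fun L => W.lwK (W.cst Ts L) true D n p L) (isn (oW true CL Ts D false ML n p y))

/-- **the fast tests are correct**, all cubic graphs -/
theorem tokVk (CL : List CPc) (Ts : List (List ℕ)) {D : ℕ} (hD : D < 3) (ML : List MPc) :
    TokV true CL Ts D false ML (tEk Ts D CL ML) (tWk Ts D CL ML) (lwk Ts D CL ML) := by
  refine ⟨fun n p y hp h => ?_, fun n p y hp h => ?_, ?_⟩
  · rcases W.tkk_of h with h | ⟨h, h1⟩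
    · exact h
    · unfold oE
      rw [h1, evbV_ntf, tKx_tf, tIx_tf, bnx_tf]
      exact W.leK_of (wf_wfp hp) hD h (cr := fun M _ => crd CL n p M 6 0 0)
        (ct := fun M IN => ctf (Ts.getD (Nat.pred (pkz (Nat.mod y 8) (Nat.div y 64)).length) [])
          (outx n p M IN 0)) rfl
  · rcases W.tkk_of h with h | ⟨h, h1⟩
    · exact h
    · unfold oW
      rw [h1, evlV_ntf, tKx_tf, tIx_tf, bnx_tf]
      have h2 := (W.lwK_of (x := tb y 4) (wf_wfp hp) hD h (cr := fun M _ => crd CL n p M 6 0 0)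
        (ct := fun M IN => ctf (Ts.getD (Nat.pred (pkz (Nat.mod y 8) (Nat.div y 64)).length) [])
          (outx n p M IN 0))
        (xs := ovm (okB D false) (Nat.ble 1 D) ML (pkz (Nat.mod y 8) (Nat.div y 64)) 0 n p n) rfl).1
      rw [h2]
      rfl
  · intro V _ _ G _ U n p φ ν y he h
    rcases W.tkk_of h with h | ⟨h, h1⟩
    · exact isn_iff h
    · unfold oW
      rw [h1, evlV_ntf, tKx_tf, tIx_tf, bnx_tf]
      obtain ⟨h2, h3⟩ := W.lwK_of (x := tb y 4) he.wf hD h (cr := fun M _ => crd CL n p M 6 0 0)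
        (ct := fun M IN => ctf (Ts.getD (Nat.pred (pkz (Nat.mod y 8) (Nat.div y 64)).length) [])
          (outx n p M IN 0))
        (xs := ovm (okB D false) (Nat.ble 1 D) ML (pkz (Nat.mod y 8) (Nat.div y 64)) 0 n p n) rfl
      rw [h2, h3 rfl, ovm_zero]
      rfl

end EF18
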