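import Pool.Agent.Lib.MP_ef18bd_co.P.WdB
import Pool.Agent.Lib.MP_ef18bd_co.P.StpZ

/-!
# Word arithmetic on patterns: sums of the three flags of a node, the possibly marked new link vertices
-/

namespace EF18

namespace W

theorem ds_congr {f g : ℕ → ℕ} {K : ℕ} (h : ∀ k < K, f k = g k) : ds f K = ds g K := by
  induction K with
  | zero => rfl
  | succ K ih => rw [ds, ds, ih fun k hk => h k (by omega), h K (by omega)]

theorem land_ds {f g : ℕ → ℕ} {K : ℕ} (hf : ∀ k < K, f k < 256) (hg : ∀ k < K, g k < 256) :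
    Nat.land (ds f K) (ds g K) = ds (fun k => f k &&& g k) K := by
  apply Nat.eq_of_testBit_eq
  intro j
  show (ds f K &&& ds g K).testBit j = _
  rw [Nat.testBit_land, tb_ds hf, tb_ds hg, tb_ds, Nat.testBit_land]
  · cases decide (j / 8 < K) <;> simp
  · exact fun k hk => lt_of_le_of_lt Nat.and_le_left (hf k hk)

theorem shr_fl (P : ℕ → Bool) (K a : ℕ) :
    Nat.shiftRight (fl P K) (8 * a) = fl (fun k => decide (k + a < K) && P (k + a)) K := by
  apply Nat.eq_of_testBit_eq
  intro j
  show (fl P K >>> (8 * a)).testBit j = _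
  rw [Nat.testBit_shiftRight, tb_fl, tb_fl]
  have h1 : (8 * a + j) / 8 = j / 8 + a := by omega
  have h2 : (8 * a + j) % 8 = j % 8 := by omega
  rw [h1, h2]
  by_cases h3 : j / 8 < K
  · rw [decide_eq_true h3]
    cases decide (j % 8 = 0) <;> simp
  · have h4 : ¬ j / 8 + a < K := by omega
    simp [h3, h4]

/-- the sum of the three flags of every node -/
theorem q3_eq (P : ℕ → Bool) (n : ℕ) : q3 (nl (fun _ => true) n) (fl P (3 * n)) =
    ds (fun k => if k % 3 = 0 then (P k).toNat + (P (k + 1)).toNat + (P (k + 2)).toNat else 0) (3 * n) := by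
  have hb : ∀ b : Bool, b.toNat ≤ 1 := Bool.toNat_le
  have e1 := shr_fl P (3 * n) 1
  have e2 := shr_fl P (3 * n) 2
  norm_num only at e1 e2
  have e3 : Nat.mul (nl (fun _ => true) n) 3 = ds (fun k => if k % 3 = 0 then 3 else 0) (3 * n) := by
    show nl (fun _ => true) n * 3 = _
    unfold nl
    rw [fl_ds, ds_mul]
    refine ds_congr fun k _ => ?_
    by_cases h : k % 3 = 0
    · rw [if_pos h, decide_eq_true h]
      rfl
    · rw [if_neg h, decide_eq_false h]
      rfl
  unfold q3
  rw [e1, e2, e3]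
  change Nat.land (fl P (3 * n) + fl _ (3 * n) + fl _ (3 * n)) _ = _
  rw [fl_ds, fl_ds, fl_ds, ds_add, ds_add, land_ds]
  · refine ds_congr fun k hk => ?_
    by_cases h : k % 3 = 0
    · have h1 : k + 1 < 3 * n := by omega
      have h2 : k + 2 < 3 * n := by omega
      simp only [h, h1, h2, if_true, decide_true, Bool.true_and]
      cases P k <;> cases P (k + 1) <;> cases P (k + 2) <;> rfl
    · simp only [h, if_false]
      exact Nat.and_zero _
  · intro k _
    have h1 := hb (P k)
    have h2 := hb (decide (k + 1 < 3 * n) && P (k + 1))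
    have h3 := hb (decide (k + 2 < 3 * n) && P (k + 2))
    show (P k).toNat + (decide (k + 1 < 3 * n) && P (k + 1)).toNat +
      (decide (k + 2 < 3 * n) && P (k + 2)).toNat < 256
    omega
  · intro k _
    show (if k % 3 = 0 then 3 else 0) < 256
    split_ifs <;> norm_num

/-- the second bit of the sums: at least two flags -/
theorem q3_two (P Q : ℕ → Bool) (n : ℕ) :
    Nat.land (Nat.shiftRight (q3 (nl (fun _ => true) n) (fl P (3 * n))) 1) (nl Q n) =
      nl (fun i => Nat.ble 2 ((P (3 * i)).toNat + (P (3 * i + 1)).toNat + (P (3 * i + 2)).toNat) && Q i) n := by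
  apply Nat.eq_of_testBit_eq
  intro j
  show ((q3 (nl (fun _ => true) n) (fl P (3 * n)) >>> 1) &&& nl Q n).testBit j = _
  rw [Nat.testBit_land, Nat.testBit_shiftRight, q3_eq, tb_nl, tb_nl, tb_ds]
  · by_cases h : j % 24 = 0
    · have h1 : (1 + j) / 8 = 3 * (j / 24) := by omega
      have h2 : (1 + j) % 8 = 1 := by omega
      have h3 : 3 * (j / 24) % 3 = 0 := by omega
      rw [h1, h2, h3, decide_eq_true h]
      by_cases h4 : j / 24 < n
      · rw [decide_eq_true h4, decide_eq_true (show 3 * (j / 24) < 3 * n by omega)]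
        cases P (3 * (j / 24)) <;> cases P (3 * (j / 24) + 1) <;> cases P (3 * (j / 24) + 2) <;>
          cases Q (j / 24) <;> rfl
      · rw [decide_eq_false h4]
        simp
    · rw [decide_eq_false h]
      simp
  · intro k _
    have h1 := Bool.toNat_le (P k)
    have h2 := Bool.toNat_le (P (k + 1))
    have h3 := Bool.toNat_le (P (k + 2))
    show (if k % 3 = 0 then (P k).toNat + (P (k + 1)).toNat + (P (k + 2)).toNat else 0) < 256
    split_ifs <;> omega

theorem sm_congr {f g : ℕ → ℕ} {n : ℕ} (h : ∀ i < n, f i = g i) : sm f n = sm g n := by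
  induction n with
  | zero => rfl
  | succ n ih => rw [sm_succ, sm_succ, ih fun i hi => h i (by omega), h n (by omega)]

/-- a sum over the ports -/
theorem sm_three (f : ℕ → ℕ) (n : ℕ) :
    sm f (3 * n) = sm (fun i => f (3 * i) + f (3 * i + 1) + f (3 * i + 2)) n := by
  induction n with
  | zero => rfl
  | succ n ih =>
    rw [show 3 * (n + 1) = 3 * n + 1 + 1 + 1 by ring, sm_succ, sm_succ, sm_succ, sm_succ, ih]
    ring

/-- the possibly marked new link vertices -/
def outw (u f0 sd M IN : ℕ) : ℕ :=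
  Nat.add (ct (Nat.land (Nat.shiftRight (q3 u (Nat.lor f0 sd)) 1) (wo M IN)))
    (ct (Nat.land f0 (Nat.mul IN 65793)))

/-- **`outx` with word arithmetic** -/
theorem outw_eq {p n M' IN' : ℕ} (hn : 3 * n < 255) (hw : Wf n p) {M IN : ℕ → Bool}
    (hM : ∀ i < n, M'.testBit i = M i) (hIN : ∀ i < n, IN'.testBit i = IN i) :
    outw (nl (fun _ => true) n) (fl (fun k => Nat.beq (dg p k) 0) (3 * n))
      (fl (fun k => isD (dg p k) && !M (tg (dg p k))) (3 * n)) (nl M n) (nl IN n) = outx n p M' IN' 0 := by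
  unfold outw outx
  rw [lor_fl, wo_nl, q3_two, ct_nl hn, nl_mul, land_fl, ct_fl hn, sm_three]
  have hport : ∀ k < 3 * n, (Nat.beq (dg p k) 0 || (isD (dg p k) && !M (tg (dg p k)))).toNat =
      sdp M' (dg p k) + (bif Nat.beq (dg p k) 0 then 1 else 0) := by
    intro k hk
    have h1 : sdp M' (dg p k) = bif isD (dg p k) && !tb M' (tg (dg p k)) then 1 else 0 := rfl
    rw [h1, tb_eq]
    cases hd : isD (dg p k)
    · rw [Bool.false_and, Bool.false_and, Bool.or_false, cond_false, zero_add]
      cases Nat.beq (dg p k) 0 <;> rfl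
    · obtain ⟨l, hl⟩ := W.isD_iff.1 hd
      obtain ⟨h2, -⟩ := hw.dir k hk l hl
      have h3 : tg (dg p k) < n := by
        rw [hl, tg_dir]
        omega
      rw [hM _ h3]
      have h4 : Nat.beq (dg p k) 0 = false := by
        rw [hl, Bool.eq_false_iff, Ne, Nat.beq_eq]
        omega
      rw [h4]
      cases M (tg (dg p k)) <;> rfl
  have e1 : sm (fun i => ((Nat.ble 2
      ((Nat.beq (dg p (3 * i)) 0 || (isD (dg p (3 * i)) && !M (tg (dg p (3 * i))))).toNat +
        (Nat.beq (dg p (3 * i + 1)) 0 || (isD (dg p (3 * i + 1)) && !M (tg (dg p (3 * i + 1))))).toNat +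
        (Nat.beq (dg p (3 * i + 2)) 0 || (isD (dg p (3 * i + 2)) && !M (tg (dg p (3 * i + 2))))).toNat)) &&
          (M i && !IN i)).toNat) n =
      sm (fun i => bif tb M' i && !tb IN' i && !tb 0 i && Nat.ble 2 (Nat.add (sdn p M' i) (opn p i))
        then 1 else 0) n := by
    refine sm_congr fun i hi => ?_
    rw [hport _ (by omega), hport _ (by omega), hport _ (by omega), tb_eq, tb_eq, tb_eq, hM i hi, hIN i hi,
      Nat.zero_testBit]
    have h5 : sdp M' (dg p (3 * i)) + (bif Nat.beq (dg p (3 * i)) 0 then 1 else 0) +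
        (sdp M' (dg p (3 * i + 1)) + (bif Nat.beq (dg p (3 * i + 1)) 0 then 1 else 0)) +
        (sdp M' (dg p (3 * i + 2)) + (bif Nat.beq (dg p (3 * i + 2)) 0 then 1 else 0)) =
        Nat.add (sdn p M' i) (opn p i) := by
      unfold sdn opn
      rw [frc_eq]
      show _ = sdp M' (dg p (3 * i)) + sdp M' (dg p (3 * i + 1)) + sdp M' (dg p (3 * i + 2)) +
        ((bif Nat.beq (dg p (3 * i)) 0 then 1 else 0) + (bif Nat.beq (dg p (3 * i + 1)) 0 then 1 else 0) +
          (bif Nat.beq (dg p (3 * i + 2)) 0 then 1 else 0))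
      ring
    rw [h5]
    cases Nat.ble 2 (Nat.add (sdn p M' i) (opn p i)) <;> cases M i <;> cases IN i <;> rfl
  have e2 : sm (fun i => (Nat.beq (dg p (3 * i)) 0 && IN (3 * i / 3)).toNat +
      (Nat.beq (dg p (3 * i + 1)) 0 && IN ((3 * i + 1) / 3)).toNat +
      (Nat.beq (dg p (3 * i + 2)) 0 && IN ((3 * i + 2) / 3)).toNat) n = opm n p IN' := by
    unfold opm
    refine sm_congr fun i hi => ?_
    rw [show 3 * i / 3 = i by omega, show (3 * i + 1) / 3 = i by omega, show (3 * i + 2) / 3 = i by omega,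
      tb_eq, hIN i hi]
    unfold opn
    rw [frc_eq]
    show _ = bif IN i then ((bif Nat.beq (dg p (3 * i)) 0 then 1 else 0) +
      (bif Nat.beq (dg p (3 * i + 1)) 0 then 1 else 0) + (bif Nat.beq (dg p (3 * i + 2)) 0 then 1 else 0)) else 0
    cases IN i <;> cases Nat.beq (dg p (3 * i)) 0 <;> cases Nat.beq (dg p (3 * i + 1)) 0 <;>
      cases Nat.beq (dg p (3 * i + 2)) 0 <;> rfl
  rw [e1, e2]

end W

end EF18
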