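import Pool.Agent.Lib.MP_ef18bd_co.P.WdH
import Pool.Agent.Lib.MP_ef18bd_co.P.WdO
import Pool.Agent.Lib.MP_ef18bd_co.P.RawV

/-!
# The fast tests of the step `stV` without triangles

`wds`: all words of a pattern with the removed and the inner nodes; `tEw`, `tWw`, `lww`: the tests of `TokV`
for graphs without triangles, `tokVw`: they are correct.
-/

namespace EF18

namespace W

/-- all words: open ports, ports to single outer vertices, links to removed nodes, direct ports to survivors,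
ports of removed nodes, survivors, open nodes, inner open ports, new single ports, sure survivors, the other
survivors, those next to a removed node -/
def wds (n p c u M IN : ℕ) (k : ℕ → ℕ → ℕ → ℕ → ℕ → ℕ → ℕ → ℕ → ℕ → ℕ → ℕ → ℕ → Bool) : Bool :=
  fz (tk p M n) fun A =>
  fz (Nat.land (Nat.shiftRight A 8) c) fun tkd => fz (Nat.land (Nat.shiftRight A 12) c) fun tkl =>
  fz (nzf c p) fun nz => fz (nzf c (Nat.xor p c)) fun n1 => fz (Nat.land p c) fun od =>
  fz (Nat.xor c nz) fun f0 => fz (Nat.xor c n1) fun f1 =>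
  fz (wo (Nat.xor nz od) tkd) fun sd => fz (wo (Nat.xor od f1) tkl) fun sl =>
  fz (Nat.mul M 65793) fun mp => fz (wo u M) fun sv => fz (nf u f0) fun on =>
  fz (Nat.land f0 (Nat.mul IN 65793)) fun f0i =>
  fz (t2 p (Nat.land sd mp) f0 n) fun A2 =>
  fz (Nat.land (nf u (Nat.lor (Nat.lor sd sl) (Nat.land (Nat.shiftRight A2 9) c))) sv) fun sf =>
  fz (wo sv sf) fun ns =>
  fz (Nat.land (nf u (Nat.lor tkd tkl)) ns) fun att =>
  k f0 f1 tkl sd mp sv on f0i (Nat.land (Nat.shiftRight A2 8) c) sf ns att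

/-- **all words** -/
theorem wds_eq {n p Km Im : ℕ} (hw : Wf n p)
    (k : ℕ → ℕ → ℕ → ℕ → ℕ → ℕ → ℕ → ℕ → ℕ → ℕ → ℕ → ℕ → Bool) :
    wds n p (fl (fun _ => true) (3 * n)) (nl (fun _ => true) n) (nm Km n) (nm Im n) k =
      k (fl (g0 p) (3 * n)) (fl (g1 p) (3 * n)) (fl (gkl p Km) (3 * n)) (fl (gsd p Km) (3 * n))
        (fl (fun k => Km.testBit (k / 3)) (3 * n)) (nl (fun i => !Km.testBit i) n) (nl (a3 (g0 p)) n)
        (fl (fun k => g0 p k && Im.testBit (k / 3)) (3 * n)) (fl (ge1 p Km) (3 * n))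
        (nl (fun i => a3 (gsf p Km) i && !Km.testBit i) n) (nl (gns p Km) n) (nl (gat p Km) n) := by
  have e1 : Nat.land (Nat.shiftRight (tk p (nm Km n) n) 8) (fl (fun _ => true) (3 * n)) =
    fl (gkd p Km) (3 * n) := tkd_eq hw fun i => Km.testBit i
  have e2 : Nat.land (Nat.shiftRight (tk p (nm Km n) n) 12) (fl (fun _ => true) (3 * n)) =
    fl (gkl p Km) (3 * n) := tkl_eq hw fun i => Km.testBit i
  have e3 : Nat.xor (fl (fun _ => true) (3 * n)) (nzf (fl (fun _ => true) (3 * n)) p) =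
    fl (g0 p) (3 * n) := f0_eq n p
  have e4 : Nat.xor (fl (fun _ => true) (3 * n))
      (nzf (fl (fun _ => true) (3 * n)) (Nat.xor p (fl (fun _ => true) (3 * n)))) =
    fl (g1 p) (3 * n) := f1_eq n p
  have e5 : wo (Nat.xor (nzf (fl (fun _ => true) (3 * n)) p)
      (Nat.land p (fl (fun _ => true) (3 * n)))) (fl (gkd p Km) (3 * n)) = fl (gsd p Km) (3 * n) := by
    rw [fd_eq, wo_fl]
    exact fl_congr fun k _ => gs_d p Km k
  have e6 : wo (Nat.xor (Nat.land p (fl (fun _ => true) (3 * n))) (fl (g1 p) (3 * n)))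
      (fl (gkl p Km) (3 * n)) = fl (gsl p Km) (3 * n) := by
    rw [show fl (g1 p) (3 * n) = fl (fun k => Nat.beq (dg p k) 1) (3 * n) from rfl, fl_eq, wo_fl]
    exact fl_congr fun k _ => gs_l p Km k
  have e7 : Nat.mul (nm Km n) 65793 = fl (fun k => Km.testBit (k / 3)) (3 * n) := nl_mul _ n
  have e8 : wo (nl (fun _ => true) n) (nm Km n) = nl (fun i => !Km.testBit i) n := by
    rw [wo_nl]
    exact nl_congr fun i _ => Bool.true_and _
  have e9 : nf (nl (fun _ => true) n) (fl (g0 p) (3 * n)) = nl (a3 (g0 p)) n := nf_fl _ n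
  have e10 : Nat.land (fl (g0 p) (3 * n)) (Nat.mul (nm Im n) 65793) =
      fl (fun k => g0 p k && Im.testBit (k / 3)) (3 * n) := by
    rw [show Nat.mul (nm Im n) 65793 = fl (fun k => Im.testBit (k / 3)) (3 * n) from nl_mul _ n, land_fl]
  have e11 : Nat.land (fl (gsd p Km) (3 * n)) (fl (fun k => Km.testBit (k / 3)) (3 * n)) =
      fl (sdr p fun i => Km.testBit i) (3 * n) := land_fl _ _ _
  have e12 : Nat.land (Nat.shiftRight (t2 p (fl (sdr p fun i => Km.testBit i) (3 * n))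
      (fl (g0 p) (3 * n)) n) 9) (fl (fun _ => true) (3 * n)) = fl (gs2 p Km) (3 * n) :=
    sf2_eq hw fun i => Km.testBit i
  have e13 : Nat.land (Nat.shiftRight (t2 p (fl (sdr p fun i => Km.testBit i) (3 * n))
      (fl (g0 p) (3 * n)) n) 8) (fl (fun _ => true) (3 * n)) = fl (ge1 p Km) (3 * n) :=
    e1_eq hw fun i => Km.testBit i
  have e14 : Nat.land (nf (nl (fun _ => true) n) (Nat.lor (Nat.lor (fl (gsd p Km) (3 * n))
      (fl (gsl p Km) (3 * n))) (fl (gs2 p Km) (3 * n)))) (nl (fun i => !Km.testBit i) n) =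
      nl (fun i => a3 (gsf p Km) i && !Km.testBit i) n := by
    rw [lor_fl, lor_fl, nf_fl, land_nl]
    rfl
  have e15 : wo (nl (fun i => !Km.testBit i) n) (nl (fun i => a3 (gsf p Km) i && !Km.testBit i) n) =
      nl (gns p Km) n := wo_nl _ _ _
  have e16 : Nat.land (nf (nl (fun _ => true) n) (Nat.lor (fl (gkd p Km) (3 * n)) (fl (gkl p Km) (3 * n))))
      (nl (gns p Km) n) = nl (gat p Km) n := by
    rw [lor_fl, nf_fl, land_nl]
    rfl
  unfold wds
  simp only [fz_val]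
  rw [e1, e2, e3, e4, e5, e6, e7, e8, e9, e10, e11, e12, e13, e14, e15, e16]

/-! ### the numbers -/

/-- the test -/
def tsv (cc D l n0 N t1 dk lk ka m z : ℕ) : Bool :=
  fz (Nat.add t1 (Nat.mul D N)) fun kt =>
  Nat.ble (Nat.add (Nat.add (Nat.add (Nat.mul 84 l) cc) (Nat.mul 12 (Nat.add n0 N)))
      (Nat.add (Nat.mul 6 (mn kt 2)) (Nat.mul 18 z)))
    (Nat.add (Nat.add (Nat.mul 18 m) (Nat.mul 9 lk)) (Nat.add (Nat.mul 18 dk) (Nat.mul 6 (bon D ka kt))))

theorem tsv_W {cc D l n0 N t1 dk lk ka m z : ℕ} (h : tsv cc D l n0 N t1 dk lk ka m z = true) :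
    84 * l + cc + 12 * (n0 + N) + (6 * mn (Nat.add t1 (Nat.mul D N)) 2 + 18 * z) ≤
      18 * m + 9 * lk + (18 * dk + 6 * bon D ka (Nat.add t1 (Nat.mul D N))) := by
  unfold tsv at h
  rw [fz_val] at h
  exact Nat.le_of_ble_eq_true h

/-- the worst case -/
def kwc (C : ℕ → ℕ) (lf : Bool) (D l u M IN f0 f1 tkl sd mp sv on f0i e1 sf ns att : ℕ) : Bool :=
  bc lf true (Nat.beq f0i 0 || Nat.beq (Nat.land on sv) 0) &&
  fz (Nat.add (ct (Nat.land f0 mp)) (ct f0i)) fun opm =>
  fz (nn D u f0 f1 on att opm) fun N =>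
  fz (C (outw u f0 sd M IN)) fun cc =>
  tsv cc D l (ct (wo ns on)) N (ct f1) (ct (Nat.land f1 mp)) (ct (Nat.land tkl mp))
    (ct (Nat.land (Nat.lor (Nat.lor f1 tkl) e1) (Nat.mul sf 65793))) (ct M)
    (ct (wo (nf u (Nat.land (Nat.lor sd f0) mp)) IN))

/-- all completions -/
def kec (C : ℕ → ℕ) (D l u M IN f0 f1 tkl sd mp sv on _f0i e1 _sf ns _att : ℕ) : Bool :=
  fz (C (outw u f0 sd M IN)) fun cc => fz (wo ns on) fun nf0 =>
  tsv cc D l (ct nf0) 0 (ct f1) (ct (Nat.land f1 mp)) (ct (Nat.land tkl mp))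
    (ct (Nat.land (Nat.lor (Nat.lor f1 tkl) e1) (Nat.mul (wo sv nf0) 65793))) (ct M)
    (ct (wo (nf u (Nat.land (Nat.lor sd f0) mp)) IN))

/-- the ports which count for all completions -/
def gkb (p M k : ℕ) : Bool := (g1 p k || gkl p M k || ge1 p M k) &&
  (!M.testBit (k / 3) && !(gns p M (k / 3) && !a3 (g0 p) (k / 3)))

theorem kaE_W {D p M n : ℕ} (hD : D < 3) : kaE D n p M = sm (fun i => c3 (gkb p M) i) n := by
  unfold kaE
  refine sm_cg fun i _ => ?_
  have d0 : 3 * i / 3 = i := by omega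
  have d1 : (3 * i + 1) / 3 = i := by omega
  have d2 : (3 * i + 2) / 3 = i := by omega
  unfold c3 gkb
  rw [tb_eq, d0, d1, d2]
  cases hM : M.testBit i
  · rw [(surv hD hM).1, full_a3]
    have e4 : gns p M i = !a3 (gsf p M) i := by
      unfold gns
      rw [hM]
      cases a3 (gsf p M) i <;> rfl
    rw [e4]
    cases hs : (!a3 (g0 p) i && !a3 (gsf p M) i)
    · have h0 := exd_W (p := p) (M := M) (k := 3 * i) (by rw [d0]; exact hM)
      have h1 := exd_W (p := p) (M := M) (k := 3 * i + 1) (by rw [d1]; exact hM)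
      have h2 := exd_W (p := p) (M := M) (k := 3 * i + 2) (by rw [d2]; exact hM)
      rw [show (!a3 (gsf p M) i && !a3 (g0 p) i) = false by
        rw [Bool.and_comm]; exact hs]
      simp only [Bool.false_or, cond_false, Bool.not_false, Bool.and_true]
      rw [← h0, ← h1, ← h2]
      have e1 : dn p i = (bif Nat.beq (dg p (3 * i)) 1 then 1 else 0) +
        (bif Nat.beq (dg p (3 * i + 1)) 1 then 1 else 0) + (bif Nat.beq (dg p (3 * i + 2)) 1 then 1 else 0) :=
        EF18.dn_eq p i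
      have e2 : exn p M i = exd p M (dg p (3 * i)) + exd p M (dg p (3 * i + 1)) +
          exd p M (dg p (3 * i + 2)) := by
        unfold exn
        rw [frc_eq]
        rfl
      show dn p i + exn p M i = _
      rw [e1, e2]
      ring
    · rw [show (!a3 (gsf p M) i && !a3 (g0 p) i) = true by
        rw [Bool.and_comm]; exact hs]
      simp
  · simp

section

variable {C : ℕ → ℕ} {D n p l Km Im : ℕ}

theorem kwc_of (hw : Wf n p) (hD : D < 3) (hn : 3 * n < 255) {lf : Bool}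
    (h : wds n p (fl (fun _ => true) (3 * n)) (nl (fun _ => true) n) (nm Km n) (nm Im n)
      (kwc C lf D l (nl (fun _ => true) n) (nm Km n) (nm Im n)) = true) :
    (lf = true → ((∀ i < n, Im.testBit i = true → a3 (g0 p) i = false) ∨
      ∀ i < n, Km.testBit i = false → a3 (g0 p) i = false)) ∧
    ∀ A, A = sm (fun i => c3 (fun k => g0 p k && Km.testBit (k / 3)) i) n +
      sm (fun i => c3 (fun k => g0 p k && Im.testBit (k / 3)) i) n →
    tsv (C (outx n p Km Im 0)) D l (n00 D n p Km) (ndr D n p Km + xN D n p Km A) (dnt n p) (dnk n p Km)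
      (sm (fun i => c3 (fun k => gkl p Km k && Km.testBit (k / 3)) i) n) (kaW D n p Km)
      (sm (fun i => (Km.testBit i).toNat) n)
      (sm (fun i => ((a3 (fun k => gsd p Km k || g0 p k) i && Km.testBit i) && !Im.testBit i).toNat) n) =
        true := by
  have d0 : ∀ i, 3 * i / 3 = i := fun i => by omega
  have d1 : ∀ i, (3 * i + 1) / 3 = i := fun i => by omega
  have d2 : ∀ i, (3 * i + 2) / 3 = i := fun i => by omega
  have e17 : ct (Nat.land (fl (g0 p) (3 * n)) (fl (fun k => Km.testBit (k / 3)) (3 * n))) =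
      sm (fun i => c3 (fun k => g0 p k && Km.testBit (k / 3)) i) n := by
    rw [land_fl, ct3 hn]
  have e18 : ct (wo (nl (gns p Km) n) (nl (a3 (g0 p)) n)) = n00 D n p Km := by
    rw [wo_nl, ct_nl hn, n00_W hD]
  have e19 : ct (fl (g1 p) (3 * n)) = dnt n p := by rw [ct3 hn, dnt_W]
  have e20 : ct (Nat.land (fl (g1 p) (3 * n)) (fl (fun k => Km.testBit (k / 3)) (3 * n))) =
      dnk n p Km := by
    rw [land_fl, ct3 hn, dnk_W]
  have e21 : ct (Nat.land (fl (gkl p Km) (3 * n)) (fl (fun k => Km.testBit (k / 3)) (3 * n))) =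
      sm (fun i => c3 (fun k => gkl p Km k && Km.testBit (k / 3)) i) n := by
    rw [land_fl, ct3 hn]
  have e22 : ct (Nat.land (Nat.lor (Nat.lor (fl (g1 p) (3 * n)) (fl (gkl p Km) (3 * n)))
      (fl (ge1 p Km) (3 * n))) (Nat.mul (nl (fun i => a3 (gsf p Km) i && !Km.testBit i) n) 65793)) =
      kaW D n p Km := by
    rw [nl_mul, lor_fl, lor_fl, land_fl, ct3 hn, kaW_W hD]
    rfl
  have e23 : ct (nm Km n) = sm (fun i => (Km.testBit i).toNat) n := ct_nl hn
  have e24 : ct (wo (nf (nl (fun _ => true) n) (Nat.land (Nat.lor (fl (gsd p Km) (3 * n))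
      (fl (g0 p) (3 * n))) (fl (fun k => Km.testBit (k / 3)) (3 * n)))) (nm Im n)) =
      sm (fun i => ((a3 (fun k => gsd p Km k || g0 p k) i && Km.testBit i) && !Im.testBit i).toNat) n := by
    rw [lor_fl, land_fl, nf_fl, wo_nl, ct_nl hn]
    refine sm_cg fun i _ => ?_
    rw [← a3_mask]
    rfl
  have e25 : ct (fl (fun k => g0 p k && Im.testBit (k / 3)) (3 * n)) =
      sm (fun i => c3 (fun k => g0 p k && Im.testBit (k / 3)) i) n := ct3 hn
  have e26 : outw (nl (fun _ => true) n) (fl (g0 p) (3 * n)) (fl (gsd p Km) (3 * n)) (nm Km n) (nm Im n) =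
      outx n p Km Im 0 := outw_eq hn hw (fun _ _ => rfl) (fun _ _ => rfl)
  rw [wds_eq hw] at h
  unfold kwc at h
  simp only [fz_val] at h
  rw [e17, e18, e19, e20, e21, e22, e23, e24, e25, e26, Bool.and_eq_true, bc_eq] at h
  refine ⟨fun hlf => ?_, fun A hA => ?_⟩
  · have hc := h.1
    rw [if_pos hlf, Bool.or_eq_true, nbeq, nbeq, land_nl] at hc
    rcases hc with hc | hc
    · refine Or.inl fun i hi hI => ?_
      have key : ∀ k, k < 3 * n → k / 3 = i → g0 p k = false := by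
        intro k hk hki
        have h1 := fl_zero hc hk
        beta_reduce at h1
        rw [hki, hI, Bool.and_true] at h1
        exact h1
      unfold a3
      rw [key _ (by omega) (d0 i), key _ (by omega) (d1 i), key _ (by omega) (d2 i)]
      rfl
    · refine Or.inr fun i hi hM => ?_
      have h1 := nl_zero hc hi
      beta_reduce at h1
      rw [hM, Bool.not_false, Bool.and_true] at h1
      exact h1
  · have h2 := h.2
    rw [nn_W hD hn] at h2
    rw [hA]
    exact h2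

theorem kec_of (hw : Wf n p) (hD : D < 3) (hn : 3 * n < 255)
    (h : wds n p (fl (fun _ => true) (3 * n)) (nl (fun _ => true) n) (nm Km n) (nm Im n)
      (kec C D l (nl (fun _ => true) n) (nm Km n) (nm Im n)) = true) :
    tsv (C (outx n p Km Im 0)) D l (n00 D n p Km) 0 (dnt n p) (dnk n p Km)
      (sm (fun i => c3 (fun k => gkl p Km k && Km.testBit (k / 3)) i) n) (kaE D n p Km)
      (sm (fun i => (Km.testBit i).toNat) n)
      (sm (fun i => ((a3 (fun k => gsd p Km k || g0 p k) i && Km.testBit i) && !Im.testBit i).toNat) n) =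
        true := by
  have e18 : ct (wo (nl (gns p Km) n) (nl (a3 (g0 p)) n)) = n00 D n p Km := by
    rw [wo_nl, ct_nl hn, n00_W hD]
  have e19 : ct (fl (g1 p) (3 * n)) = dnt n p := by rw [ct3 hn, dnt_W]
  have e20 : ct (Nat.land (fl (g1 p) (3 * n)) (fl (fun k => Km.testBit (k / 3)) (3 * n))) =
      dnk n p Km := by
    rw [land_fl, ct3 hn, dnk_W]
  have e21 : ct (Nat.land (fl (gkl p Km) (3 * n)) (fl (fun k => Km.testBit (k / 3)) (3 * n))) =
      sm (fun i => c3 (fun k => gkl p Km k && Km.testBit (k / 3)) i) n := by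
    rw [land_fl, ct3 hn]
  have e22 : ct (Nat.land (Nat.lor (Nat.lor (fl (g1 p) (3 * n)) (fl (gkl p Km) (3 * n)))
      (fl (ge1 p Km) (3 * n))) (Nat.mul (wo (nl (fun i => !Km.testBit i) n)
        (wo (nl (gns p Km) n) (nl (a3 (g0 p)) n))) 65793)) = kaE D n p Km := by
    rw [wo_nl, wo_nl, nl_mul, lor_fl, lor_fl, land_fl, ct3 hn, kaE_W hD]
    rfl
  have e23 : ct (nm Km n) = sm (fun i => (Km.testBit i).toNat) n := ct_nl hn
  have e24 : ct (wo (nf (nl (fun _ => true) n) (Nat.land (Nat.lor (fl (gsd p Km) (3 * n))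
      (fl (g0 p) (3 * n))) (fl (fun k => Km.testBit (k / 3)) (3 * n)))) (nm Im n)) =
      sm (fun i => ((a3 (fun k => gsd p Km k || g0 p k) i && Km.testBit i) && !Im.testBit i).toNat) n := by
    rw [lor_fl, land_fl, nf_fl, wo_nl, ct_nl hn]
    refine sm_cg fun i _ => ?_
    rw [← a3_mask]
    rfl
  have e26 : outw (nl (fun _ => true) n) (fl (g0 p) (3 * n)) (fl (gsd p Km) (3 * n)) (nm Km n) (nm Im n) =
      outx n p Km Im 0 := outw_eq hn hw (fun _ _ => rfl) (fun _ _ => rfl)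
  rw [wds_eq hw] at h
  unfold kec at h
  simp only [fz_val] at h
  rw [e22, e18, e19, e20, e21, e23, e24, e26] at h
  exact h

end

/-! ### the picks -/

/-- the worst case, with the picks -/
def lwW (C : ℕ → ℕ) (lf : Bool) (D n p : ℕ) (L : List ℕ) : Bool :=
  Nat.ble (Nat.succ n) 40 && fz (Nat.div (Nat.pow 16777216 n) 255) fun c =>
    fz (Nat.div (Nat.pow 16777216 n) 16777215) fun u =>
    pk n p c u (fun M IN => fz M fun M => fz IN fun IN => wds n p c u M IN (kwc C lf D L.length u M IN)) L 0 0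

/-- all completions, with the picks -/
def leW (C : ℕ → ℕ) (D n p : ℕ) (L : List ℕ) : Bool :=
  Nat.ble (Nat.add n 5) 40 && fz (Nat.div (Nat.pow 16777216 n) 255) fun c =>
    fz (Nat.div (Nat.pow 16777216 n) 16777215) fun u =>
    pk n p c u (fun M IN => fz M fun M => fz IN fun IN => wds n p c u M IN (kec C D L.length u M IN)) L 0 0

theorem lwW_eq (C : ℕ → ℕ) (lf : Bool) (D n p : ℕ) (L : List ℕ) : lwW C lf D n p L =
    (Nat.ble (Nat.succ n) 40 && pk n p (fl (fun _ => true) (3 * n)) (nl (fun _ => true) n) (fun M IN =>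
      wds n p (fl (fun _ => true) (3 * n)) (nl (fun _ => true) n) M IN
        (kwc C lf D L.length (nl (fun _ => true) n) M IN)) L (nm 0 n) (nm 0 n)) := by
  unfold lwW
  simp only [fz_val]
  rw [nm_zero, ones_eq, nodes_eq]

theorem leW_eq (C : ℕ → ℕ) (D n p : ℕ) (L : List ℕ) : leW C D n p L =
    (Nat.ble (Nat.add n 5) 40 && pk n p (fl (fun _ => true) (3 * n)) (nl (fun _ => true) n) (fun M IN =>
      wds n p (fl (fun _ => true) (3 * n)) (nl (fun _ => true) n) M IN
        (kec C D L.length (nl (fun _ => true) n) M IN)) L (nm 0 n) (nm 0 n)) := by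
  unfold leW
  simp only [fz_val]
  rw [nm_zero, ones_eq, nodes_eq]

/-- the inequality of the test -/
theorem ble_Y {l cc n0 N k2 z m lk dk bo ev cr : ℕ}
    (h : 84 * l + cc + 12 * (n0 + N) + (6 * k2 + 18 * z) ≤ 18 * m + 9 * lk + (18 * dk + 6 * bo))
    (h2 : 18 * m + 12 * dk + 9 * lk ≤ ev + 18 * z) :
    Nat.ble (Nat.add (Nat.add (Nat.add (Nat.mul 84 l) cc) (Nat.mul 12 (Nat.add n0 N))) (bx 6 k2))
      (Nat.add (Nat.add ev cr) (bx 6 (Nat.add dk bo))) = true := by
  rw [bx_eq, bx_eq]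
  refine Nat.ble_eq_true_of_le ?_
  show 84 * l + cc + 12 * (n0 + N) + 6 * k2 ≤ ev + cr + 6 * (dk + bo)
  omega

theorem evlY_W {T TI D n p : ℕ} {L : List ℕ} {cr ct : ℕ → ℕ → ℕ} {xs : List (ℕ × ℕ)} {N z m lk : ℕ}
    (hN : N = ndr D n p (kms p L 0) + xN D n p (kms p L 0) (opm2 n p (kms p L 0) (ims p L 0)))
    (h1 : Nat.ble (Nat.succ n) 40 = true) (h2 : pks n p L 0 = true)
    (h7 : 84 * L.length + ct (kms p L 0) (ims p L 0) + 12 * (n00 D n p (kms p L 0) + N) +
      (6 * mn (Nat.add (dnt n p) (Nat.mul D N)) 2 + 18 * z) ≤ 18 * m + 9 * lk + (18 * dnk n p (kms p L 0) +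
        6 * bon D (kaW D n p (kms p L 0)) (Nat.add (dnt n p) (Nat.mul D N))))
    (h8 : 18 * m + 12 * dnk n p (kms p L 0) + 9 * lk ≤ evs T TI n p (kms p L 0) (ims p L 0) + 18 * z) :
    evlY 84 T TI D 12 6 n p L cr ct xs = some (xs ++ kin n p (kms p L 0) (ims p L 0) n) := by
  change N = Nat.add (ndr D n p (kms p L 0))
    (xN D n p (kms p L 0) (opm2 n p (kms p L 0) (ims p L 0))) at hN
  unfold evlY
  rw [frc_eq, frc_eq, frc_eq, frc_eq, ← hN, h1, h2]
  have h9 := ble_Y (cr := cr (kms p L 0) (ims p L 0)) h7 h8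
  rw [h9]
  rfl

theorem evbY_W {T TI D n p : ℕ} {L : List ℕ} {cr ct : ℕ → ℕ → ℕ} {xs : List (ℕ × ℕ)} {z m lk : ℕ}
    (h1 : Nat.ble (Nat.add n 5) 40 = true) (h2 : pks n p L 0 = true)
    (h7 : 84 * L.length + ct (kms p L 0) (ims p L 0) + 12 * (n00 D n p (kms p L 0) + 0) +
      (6 * mn (Nat.add (dnt n p) (Nat.mul D 0)) 2 + 18 * z) ≤ 18 * m + 9 * lk + (18 * dnk n p (kms p L 0) +
        6 * bon D (kaE D n p (kms p L 0)) (Nat.add (dnt n p) (Nat.mul D 0))))
    (h8 : 18 * m + 12 * dnk n p (kms p L 0) + 9 * lk ≤ evs T TI n p (kms p L 0) (ims p L 0) + 18 * z) :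
    iss (evbY 84 T TI D 12 6 n p L cr ct xs) = true := by
  unfold evbY
  rw [frc_eq, frc_eq, frc_eq, h1, h2]
  have h9 := ble_Y (cr := cr (kms p L 0) (ims p L 0)) h7 h8
  change Nat.ble (Nat.add (Nat.add (Nat.add (Nat.mul 84 L.length) (ct (kms p L 0) (ims p L 0)))
      (Nat.mul 12 (n00 D n p (kms p L 0)))) (bx 6 (mn (dnt n p) 2)))
      (Nat.add (Nat.add (evs T TI n p (kms p L 0) (ims p L 0)) (cr (kms p L 0) (ims p L 0)))
        (bx 6 (Nat.add (dnk n p (kms p L 0)) (bon D (kaE D n p (kms p L 0)) (dnt n p))))) = true at h9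
  rw [h9]
  rfl

theorem lwW_of {C : ℕ → ℕ} {lf : Bool} {D n p : ℕ} {L : List ℕ} (hw : Wf n p) (hD : D < 3)
    (h : lwW C lf D n p L = true) {cr ct : ℕ → ℕ → ℕ} {xs : List (ℕ × ℕ)}
    (hct : ct (kms p L 0) (ims p L 0) = C (outx n p (kms p L 0) (ims p L 0) 0)) :
    evlY 84 tK tI D 12 6 n p L cr ct xs = some (xs ++ kin n p (kms p L 0) (ims p L 0) n) ∧
      (lf = true → kin n p (kms p L 0) (ims p L 0) n = []) := by
  rw [lwW_eq, Bool.and_eq_true] at h
  obtain ⟨h1, h2⟩ := h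
  have hn : n < 40 := Nat.le_of_ble_eq_true h1
  obtain ⟨h3, h4⟩ := pk_of h2
  obtain ⟨h5, h6⟩ := kwc_of hw hD (by omega) h4
  have h7 := tsv_W (h6 (opm2 n p (kms p L 0) (ims p L 0)) (opm2_W n p L))
  have h8 := evs_W n p L
  rw [← dnk_W] at h8
  rw [← hct] at h7
  exact ⟨evlY_W rfl h1 h3 h7 h8, fun hlf => kin_nil (h5 hlf) n le_rfl⟩

theorem leW_of {C : ℕ → ℕ} {D n p : ℕ} {L : List ℕ} (hw : Wf n p) (hD : D < 3)
    (h : leW C D n p L = true) {cr ct : ℕ → ℕ → ℕ} {xs : List (ℕ × ℕ)}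
    (hct : ct (kms p L 0) (ims p L 0) = C (outx n p (kms p L 0) (ims p L 0) 0)) :
    iss (evbY 84 tK tI D 12 6 n p L cr ct xs) = true := by
  rw [leW_eq, Bool.and_eq_true] at h
  obtain ⟨h1, h2⟩ := h
  have hn : n + 5 ≤ 40 := Nat.le_of_ble_eq_true h1
  obtain ⟨h3, h4⟩ := pk_of h2
  have h7 := tsv_W (kec_of hw hD (by omega) h4)
  have h8 := evs_W n p L
  rw [← dnk_W] at h8
  rw [← hct] at h7
  exact evbY_W h1 h3 h7 h8

/-! ### the tokens -/

/-- a token without flags, matched nodes and credit: `k` of the picks, else `s` -/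
def tkw (y : ℕ) (k : List ℕ → Bool) (s : Bool) : Bool :=
  bc (Nat.beq (Nat.mod y 8) 0 || Nat.ble (Nat.pow 2 48) y || Nat.beq (Nat.mod (Nat.div y 8) 2) 1)
    (k (pkz (Nat.mod y 8) (Nat.div y 64))) s

/-- the costs -/
def cst (Ts : List (List ℕ)) (L : List ℕ) : ℕ → ℕ := fun o => ctf (Ts.getD (Nat.pred L.length) []) o

theorem tkw_of {y : ℕ} {k : List ℕ → Bool} {s : Bool} (h : tkw y k s = true) : s = true ∨
    (k (pkz (Nat.mod y 8) (Nat.div y 64)) = true ∧
      ∀ f : Bool → Bool → List ℕ → ℕ → ℕ → Option (List (ℕ × ℕ)), lfx f y =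
        f false (tb y 4) (pkz (Nat.mod y 8) (Nat.div y 64)) 0 0) := by
  unfold tkw at h
  rw [bc_eq] at h
  split_ifs at h with hc
  · exact Or.inl h
  · refine Or.inr ⟨h, fun f => ?_⟩
    rw [Bool.or_eq_true, Bool.or_eq_true, not_or, not_or] at hc
    obtain ⟨⟨c1, c2⟩, c3⟩ := hc
    have h1 : y < 2 ^ 48 := by
      by_contra h1
      refine c2 (Nat.ble_eq_true_of_le ?_)
      change 2 ^ 48 ≤ y
      omega
    have h2 : tb y 3 = false := by
      rw [tb_eq, Nat.testBit_eq_decide_div_mod_eq]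
      rw [nbeq] at c3
      change ¬ y / 8 % 2 = 1 at c3
      rw [decide_eq_false]
      norm_num
      omega
    have h3 : Nat.div (Nat.div y 64) (2 ^ 42) = 0 := by
      change y / 64 / 2 ^ 42 = 0
      rw [Nat.div_div_eq_div_mul]
      exact Nat.div_eq_of_lt (by norm_num; omega)
    unfold lfx
    rw [frc_eq, frc_eq, frc_eq, h2, h3, show Nat.beq (Nat.mod y 8) 0 = false by
      rw [← Bool.not_eq_true]; exact c1]
    rfl

end W

theorem evbV_tf (x : Bool) (P T TI D dl b c n p : ℕ) (L : List ℕ) (cr ct : ℕ → ℕ → ℕ) (xs : List (ℕ × ℕ)) :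
    evbV true false x P T TI D dl b c n p L cr ct xs = evbY P T TI D dl b n p L cr ct xs := rfl

theorem evlV_tf (x : Bool) (P T TI D dl b c n p : ℕ) (L : List ℕ) (cr ct : ℕ → ℕ → ℕ) (xs : List (ℕ × ℕ)) :
    evlV true false x P T TI D dl b c n p L cr ct xs = evlY P T TI D dl b n p L cr ct xs := rfl

theorem tKx_tf : tKx true = tK := by unfold tKx; rw [cond_true]

theorem tIx_tf : tIx true = tI := by unfold tIx; rw [cond_true]

theorem bnx_tf : bnx true = 6 := rfl

/-- the fast test of an event with all completions -/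
def tEw (Ts : List (List ℕ)) (D : ℕ) (CL : List CPc) (ML : List MPc) (n p y : ℕ) : Bool :=
  W.tkw y (fun L => W.leW (W.cst Ts L) D n p L) (iss (oE true CL Ts D true ML n p y))

/-- the fast test of an event in the worst case -/
def tWw (Ts : List (List ℕ)) (D : ℕ) (CL : List CPc) (ML : List MPc) (n p y : ℕ) : Bool :=
  W.tkw y (fun L => W.lwW (W.cst Ts L) false D n p L) (iss (oW true CL Ts D true ML n p y))

/-- the fast test of a leaf -/
def lww (Ts : List (List ℕ)) (D : ℕ) (CL : List CPc) (ML : List MPc) (n p y : ℕ) : Bool :=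
  W.tkw y (fun L => W.lwW (W.cst Ts L) true D n p L) (isn (oW true CL Ts D true ML n p y))

theorem wf_wfp {n p : ℕ} (h : wfp (n, p) = true) : W.Wf n p := by
  unfold wfp at h
  rw [Bool.and_eq_true] at h
  have h1 : p < 256 ^ (3 * n) := Nat.le_of_ble_eq_true h.1
  refine ⟨fun k hk => ?_, fun k hk l hl => ?_, fun k hk l hl => ?_⟩
  · unfold dg
    rw [Nat.div_eq_of_lt (lt_of_lt_of_le h1 (Nat.pow_le_pow_right (by norm_num) hk))]
  · have := wfd_of h.2 hk (c := 0) (by norm_num) hl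
    exact this
  · have := wfd_of h.2 hk (c := 1) (by norm_num) hl
    exact this

/-- **the fast tests are correct** -/
theorem tokVw (CL : List CPc) (Ts : List (List ℕ)) {D : ℕ} (hD : D < 3) (ML : List MPc) :
    TokV true CL Ts D true ML (tEw Ts D CL ML) (tWw Ts D CL ML) (lww Ts D CL ML) := by
  refine ⟨fun n p y hp h => ?_, fun n p y hp h => ?_, ?_⟩
  · rcases W.tkw_of h with h | ⟨h, h1⟩
    · exact h
    · unfold oE
      rw [h1, evbV_tf, tKx_tf, tIx_tf, bnx_tf]
      exact W.leW_of (wf_wfp hp) hD h (cr := fun M _ => crd CL n p M 6 0 0)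
        (ct := fun M IN => ctf (Ts.getD (Nat.pred (pkz (Nat.mod y 8) (Nat.div y 64)).length) [])
          (outx n p M IN 0)) rfl
  · rcases W.tkw_of h with h | ⟨h, h1⟩
    · exact h
    · unfold oW
      rw [h1, evlV_tf, tKx_tf, tIx_tf, bnx_tf]
      have h2 := (W.lwW_of (wf_wfp hp) hD h (cr := fun M _ => crd CL n p M 6 0 0)
        (ct := fun M IN => ctf (Ts.getD (Nat.pred (pkz (Nat.mod y 8) (Nat.div y 64)).length) [])
          (outx n p M IN 0))
        (xs := ovm (okB D true) (Nat.ble 1 D) ML (pkz (Nat.mod y 8) (Nat.div y 64)) 0 n p n) rfl).1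
      rw [h2]
      rfl
  · intro V _ _ G _ U n p φ ν y he h
    rcases W.tkw_of h with h | ⟨h, h1⟩
    · exact isn_iff h
    · unfold oW
      rw [h1, evlV_tf, tKx_tf, tIx_tf, bnx_tf]
      obtain ⟨h2, h3⟩ := W.lwW_of he.wf hD h (cr := fun M _ => crd CL n p M 6 0 0)
        (ct := fun M IN => ctf (Ts.getD (Nat.pred (pkz (Nat.mod y 8) (Nat.div y 64)).length) [])
          (outx n p M IN 0))
        (xs := ovm (okB D true) (Nat.ble 1 D) ML (pkz (Nat.mod y 8) (Nat.div y 64)) 0 n p n) rfl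
      rw [h2, h3 rfl, ovm_zero]
      rfl

end EF18
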