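import Pool.Agent.Lib.MP_ef18bd_co.P.Wk

/-!
# The search for a piece at a removed node, in small steps

`mtF`: the function `mt` with words and with a mask of the nodes which are images.
-/

namespace EF18

namespace W

/-! ### the images -/

/-- the digit -/
def dgq (p k : ℕ) : ℕ := Nat.mod (Nat.shiftRight p (Nat.mul 8 k)) 256

theorem dgq_eq (p k : ℕ) : dgq p k = dg p k := by
  show (p >>> (8 * k)) % 256 = p / 256 ^ k % 256
  rw [Nat.shiftRight_eq_div_pow, pow256]

theorem ble_false {a b : ℕ} (h : Nat.ble a b = false) : b < a := by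
  rw [← Bool.not_eq_true, Nat.ble_eq] at h
  omega

/-- one more than the node of the port `a - 1` -/
def ndd (a : ℕ) : ℕ := Nat.succ (Nat.div (Nat.pred a) 3)

/-- one more than the node of a word of images, or `0` -/
def ndw (w : ℕ) : ℕ :=
  zc (Nat.mod w 256) (zc (Nat.mod (Nat.shiftRight w 8) 256) (zc (Nat.shiftRight w 16) 0
    (ndd (Nat.shiftRight w 16))) (ndd (Nat.mod (Nat.shiftRight w 8) 256))) (ndd (Nat.mod w 256))

theorem ndw_eq (m i : ℕ) : ndw (wd m i) = nod m i := by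
  rw [nod_eq]
  unfold ndw ndd
  rw [wd0, wd1, wd2, zc_eq, zc_eq, zc_eq]
  rfl

/-- a digit of the word is `a` -/
def sibw (w a : ℕ) : Bool :=
  bc (Nat.beq (Nat.mod w 256) a) (bc (Nat.beq (Nat.mod (Nat.shiftRight w 8) 256) a)
    (Nat.beq (Nat.shiftRight w 16) a) true) true

theorem sibw_eq (m k t : ℕ) : sibw (wd m (Nat.div k 3)) (Nat.succ t) = sib m k t := by
  unfold sibw sib
  rw [wd0, wd1, wd2, frc_eq]
  change _ = (Nat.beq (dg m (3 * (k / 3))) (t + 1) || Nat.beq (dg m (3 * (k / 3) + 1)) (t + 1) ||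
    Nat.beq (dg m (3 * (k / 3) + 2)) (t + 1))
  change bc (Nat.beq (dg m (3 * (k / 3))) (t + 1)) (bc (Nat.beq (dg m (3 * (k / 3) + 1)) (t + 1))
    (Nat.beq (dg m (3 * (k / 3) + 2)) (t + 1)) true) true = _
  cases Nat.beq (dg m (3 * (k / 3))) (t + 1) <;> cases Nat.beq (dg m (3 * (k / 3) + 1)) (t + 1) <;> rfl

/-- the bit -/
def bq (B x : ℕ) : ℕ := Nat.land (Nat.shiftRight B x) 1

theorem bq_eq (B x : ℕ) : bq B x = (B.testBit x).toNat := by
  show (B >>> x) &&& 1 = _
  rw [Nat.and_one_is_mod, Nat.shiftRight_eq_div_pow]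
  have h := tb_eq B x
  unfold tb at h
  cases hb : B.testBit x
  · rw [hb] at h
    have h1 : ¬ (B / 2 ^ x % 2 = 1) := fun e => by
      rw [show Nat.mod (Nat.div B (Nat.pow 2 x)) 2 = 1 from e] at h
      exact absurd h (by decide)
    show B / 2 ^ x % 2 = 0
    omega
  · rw [hb] at h
    exact Nat.eq_of_beq_eq_true h

theorem zc_bq {α : Type} (B x : ℕ) (a b : α) : zc (bq B x) a b = if B.testBit x = true then b else a := by
  rw [bq_eq]
  cases B.testBit x <;> rfl

def asg3 (m B k t : ℕ) (g : ℕ → ℕ → ℕ) (w : ℕ) : ℕ :=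
  zc w (zc (bq B (Nat.div t 3))
      (g (Nat.add m (Nat.shiftLeft (Nat.succ t) (Nat.mul 8 k))) (Nat.lor B (Nat.shiftLeft 1 (Nat.div t 3)))) 0)
    (bc (Nat.beq (ndw w) (Nat.succ (Nat.div t 3))) 0
      (bc (sibw w (Nat.succ t)) (g (Nat.add m (Nat.shiftLeft (Nat.succ t) (Nat.mul 8 k))) B) 0))

def asg2 (m B k t : ℕ) (g : ℕ → ℕ → ℕ) (a : ℕ) : ℕ :=
  zc a (asg3 m B k t g (wd m (Nat.div k 3))) (bc (Nat.beq a (Nat.succ t)) 0 (g m B))

/-- the value for the new images, `0` if this is impossible; `B`: the mask of the nodes which are images -/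
def asgF (M m B k t : ℕ) (g : ℕ → ℕ → ℕ) : ℕ := zc (bq M (Nat.div t 3)) (asg2 m B k t g (dgq m k)) 0

/-- the mask is right -/
def Im (N m B : ℕ) : Prop := ∀ y, nin m y N = !B.testBit y

theorem nin_congr {m m' : ℕ} : ∀ {N : ℕ}, (∀ i < N, nod m i = nod m' i) → ∀ y, nin m y N = nin m' y N := by
  intro N
  induction N with
  | zero => intro _ _; rfl
  | succ N ih =>
    intro h y
    rw [nin, nin, h N (Nat.lt_succ_self N), ih (fun i hi => h i (by omega))]

theorem nod_congr {m m' i : ℕ} (h : ∀ k, k / 3 = i → dg m k = dg m' k) : nod m i = nod m' i := by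
  rw [nod_eq, nod_eq, h _ (show 3 * i / 3 = i by omega), h _ (show (3 * i + 1) / 3 = i by omega),
    h _ (show (3 * i + 2) / 3 = i by omega)]

theorem nin_true {m y : ℕ} : ∀ {N : ℕ}, nin m y N = true ↔ ∀ i < N, nod m i ≠ y + 1 := by
  intro N
  induction N with
  | zero => exact ⟨fun _ i hi => by omega, fun _ => rfl⟩
  | succ N ih =>
    rw [nin, Bool.and_eq_true, ih, Bool.not_eq_true', ← Bool.not_eq_true, Nat.beq_eq]
    constructor
    · rintro ⟨h1, h2⟩ i hi
      rcases Nat.lt_succ_iff_lt_or_eq.1 hi with h | rfl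
      · exact h2 i h
      · exact h1
    · intro h
      exact ⟨h N (Nat.lt_succ_self N), fun i hi => h i (by omega)⟩

theorem wd_zero {m i : ℕ} : wd m i = 0 ↔ nod m i = 0 := by
  constructor
  · intro h
    rw [← ndw_eq, h]
    rfl
  · intro h
    have h1 := nod_zero h (k := 3 * i) (by omega)
    have h2 := nod_zero h (k := 3 * i + 1) (by omega)
    have h3 := nod_zero h (k := 3 * i + 2) (by omega)
    have h4 := wd0 m i
    have h5 := wd1 m i
    have h6 := wd2 m i
    rw [h1] at h4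
    rw [h2] at h5
    rw [h3] at h6
    change wd m i % 256 = 0 at h4
    change (wd m i >>> 8) % 256 = 0 at h5
    change wd m i >>> 16 = 0 at h6
    rw [Nat.shiftRight_eq_div_pow] at h5 h6
    omega

theorem add_eq (m k t : ℕ) : Nat.add m (Nat.shiftLeft (Nat.succ t) (Nat.mul 8 k)) = m + (t + 1) * 256 ^ k := by
  show m + ((t + 1) <<< (8 * k)) = _
  rw [Nat.shiftLeft_eq, pow256]

/-- the new node is an image -/
theorem Im.set {N m B k t : ℕ} (h : Im N m B) (hk : k < 3 * N) (ht : t + 1 < 256) (h0 : nod m (k / 3) = 0) :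
    Im N (m + (t + 1) * 256 ^ k) (Nat.lor B (Nat.shiftLeft 1 (Nat.div t 3))) := by
  have hd : dg m k = 0 := nod_zero h0 rfl
  have e1 : ∀ i, i ≠ k / 3 → nod (m + (t + 1) * 256 ^ k) i = nod m i := fun i hi => nod_congr fun j hj => by
    rw [dg_add hd ht, if_neg (fun e => hi (by rw [← hj, e]))]
  have e2 : nod (m + (t + 1) * 256 ^ k) (k / 3) = t / 3 + 1 := by
    have hz : ∀ j, j / 3 = k / 3 → dg (m + (t + 1) * 256 ^ k) j = if j = k then t + 1 else 0 := fun j hj => by
      rw [dg_add hd ht, nod_zero h0 hj]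
    rw [nod_eq, hz _ (by omega), hz _ (by omega), hz _ (by omega)]
    rcases port_cases (show k / 3 = k / 3 from rfl) with hk' | hk' | hk'
    · rw [if_pos hk'.symm, if_neg (by omega)]
      omega
    · have a1 : 3 * (k / 3) ≠ k := by omega
      rw [if_neg a1, if_pos rfl, if_pos hk'.symm, if_neg (by omega)]
      omega
    · have a1 : 3 * (k / 3) ≠ k := by omega
      have a2 : 3 * (k / 3) + 1 ≠ k := by omega
      rw [if_neg a1, if_pos rfl, if_neg a2, if_pos rfl, if_pos hk'.symm, if_neg (by omega)]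
      omega
  intro y
  have e3 : (Nat.lor B (Nat.shiftLeft 1 (Nat.div t 3))).testBit y = (B.testBit y || decide (t / 3 = y)) := by
    show (B ||| (1 <<< (t / 3))).testBit y = _
    rw [Nat.testBit_lor, Nat.one_shiftLeft, Nat.testBit_two_pow]
  rw [e3, Bool.eq_iff_iff, nin_true, Bool.not_eq_true', Bool.or_eq_false_iff]
  have h1 := h y
  rw [Bool.eq_iff_iff, nin_true, Bool.not_eq_true'] at h1
  constructor
  · intro h2
    refine ⟨h1.1 fun i hi => ?_, ?_⟩
    · by_cases hik : i = k / 3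
      · rw [hik, h0]
        omega
      · rw [← e1 i hik]
        exact h2 i hi
    · have := h2 (k / 3) (by omega)
      rw [e2] at this
      exact decide_eq_false fun e => this (by omega)
  · rintro ⟨h2, h3⟩ i hi
    by_cases hik : i = k / 3
    · rw [hik, e2]
      have := of_decide_eq_false h3
      omega
    · rw [e1 i hik]
      exact h1.2 h2 i hi

/-- a further port of an image -/
theorem Im.add {N m B k t : ℕ} (h : Im N m B) (ht : t + 1 < 256) (h0 : dg m k = 0)
    (h1 : nod m (k / 3) = t / 3 + 1) : Im N (m + (t + 1) * 256 ^ k) B := by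
  have e : ∀ i, nod (m + (t + 1) * 256 ^ k) i = nod m i := by
    intro i
    by_cases hi : i = k / 3
    · rw [hi, h1]
      have hz : ∀ j, dg (m + (t + 1) * 256 ^ k) j = if j = k then t + 1 else dg m j := dg_add h0 ht
      rw [nod_eq] at h1 ⊢
      rw [hz, hz, hz]
      rcases port_cases (show k / 3 = k / 3 from rfl) with hk' | hk' | hk'
      · rw [if_pos hk'.symm, if_neg (by omega)]
        omega
      · have a1 : 3 * (k / 3) ≠ k := by omega
        rw [if_neg a1, if_pos hk'.symm]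
        by_cases a2 : dg m (3 * (k / 3)) = 0
        · rw [if_pos a2, if_neg (by omega)]
          omega
        · rw [if_neg a2] at h1 ⊢
          exact h1
      · have a1 : 3 * (k / 3) ≠ k := by omega
        have a2 : 3 * (k / 3) + 1 ≠ k := by omega
        rw [if_neg a1, if_neg a2, if_pos hk'.symm]
        by_cases a3 : dg m (3 * (k / 3)) = 0
        · rw [if_pos a3] at h1 ⊢
          by_cases a4 : dg m (3 * (k / 3) + 1) = 0
          · rw [if_pos a4, if_neg (by omega)]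
            omega
          · rw [if_neg a4] at h1 ⊢
            exact h1
        · rw [if_neg a3] at h1 ⊢
          exact h1
    · exact nod_congr fun j hj => by rw [dg_add h0 ht, if_neg (fun e => hi (by rw [← hj, e]))]
  intro y
  rw [← h y]
  exact nin_congr (fun i _ => e i) y

theorem asgF_eq {N M m B k t : ℕ} (hI : Im N m B) (hk : k < 3 * N) (ht : t + 1 < 256) {g : ℕ → ℕ → ℕ}
    {g0 : ℕ → ℕ} (hg : ∀ m' B', Im N m' B' → g m' B' = g0 m') :
    asgF M m B k t g = if asg N M m k t = 0 then 0 else g0 (asg N M m k t) := by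
  have hm : asg N M m k t = bif tb M (t / 3) then 0 else
    bif Nat.beq (dg m k) 0 then
      bif (Nat.beq (nod m (k / 3)) 0 && nin m (t / 3) N) ||
        (Nat.beq (nod m (k / 3)) (t / 3 + 1) && !sib m k t) then m + (t + 1) * 256 ^ k else 0
    else bif Nat.beq (dg m k) (t + 1) then m else 0 := by
    unfold asg
    simp only [frc_eq]
    rfl
  have hpos : m + (t + 1) * 256 ^ k ≠ 0 := by
    have : 0 < (t + 1) * 256 ^ k := by positivity
    omega
  unfold asgF asg2 asg3
  rw [zc_bq, zc_bq, dgq_eq, hm, tb_eq, sibw_eq, ndw_eq, add_eq]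
  show (if M.testBit (t / 3) = true then 0 else _) = _
  cases hM : M.testBit (t / 3)
  swap
  · simp
  rw [if_neg (by simp), cond_false]
  by_cases h0 : dg m k = 0
  · rw [h0, zc_zero, show Nat.beq 0 0 = true from rfl, cond_true]
    by_cases hw : nod m (k / 3) = 0
    · have hw1 : wd m (Nat.div k 3) = 0 := wd_zero.2 hw
      rw [hw1, zc_zero, hw, show Nat.beq 0 0 = true from rfl, Bool.true_and, hI (t / 3)]
      have e1 : Nat.beq 0 (t / 3 + 1) = false := rfl
      rw [e1, Bool.false_and, Bool.or_false]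
      change (if B.testBit (t / 3) = true then 0 else _) = _
      cases hB : B.testBit (t / 3)
      · rw [if_neg (by simp), Bool.not_false, cond_true, if_neg hpos]
        exact hg _ _ (hI.set hk ht hw)
      · rw [if_pos rfl]
        rfl
    · have hw' : wd m (Nat.div k 3) ≠ 0 := fun e => hw (wd_zero.1 e)
      rw [zc_eq, if_neg hw', beq_false hw, Bool.false_and, Bool.false_or]
      change bc (Nat.beq (nod m (k / 3)) (t / 3 + 1)) 0 (bc (sib m k t) _ 0) = _
      cases h1 : Nat.beq (nod m (k / 3)) (t / 3 + 1)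
      · rfl
      · rw [Bool.true_and]
        cases h2 : sib m k t
        · rw [Bool.not_false, cond_true, if_neg hpos]
          exact hg _ _ (hI.add ht h0 (Nat.eq_of_beq_eq_true h1))
        · rfl
  · rw [zc_eq, if_neg h0, beq_false h0, cond_false]
    change bc (Nat.beq (dg m k) (t + 1)) 0 (g m B) = _
    cases h1 : Nat.beq (dg m k) (t + 1)
    · rfl
    · have hmz : m ≠ 0 := fun e => h0 (by rw [e]; unfold dg; simp)
      rw [cond_true, if_neg hmz]
      exact hg _ _ hI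

/-! ### the search -/

/-- the smaller one of two numbers which are not `0` -/
def mzF (a b : ℕ) : ℕ := zc a b (zc b a (bc (Nat.ble a b) b a))

theorem mzF_eq (a b : ℕ) : mzF a b = mz a b := by
  unfold mzF mz
  rw [zc_eq, zc_eq]
  by_cases ha : a = 0
  · rw [if_pos ha, beq_t ha, cond_true]
  · rw [if_neg ha, beq_false ha, cond_false]
    by_cases hb : b = 0
    · rw [if_pos hb, beq_t hb, cond_true]
    · rw [if_neg hb, beq_false hb, cond_false]
      cases Nat.ble a b <;> rfl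

def m3a (a b c : ℕ) : ℕ := bc (Nat.beq a 1) (bc (Nat.beq b 1) (mzF a (mzF b c)) 1) 1

/-- the best value for the three ports -/
def m3F (f : ℕ → ℕ) (k : ℕ) : ℕ := m3a (f k) (f (Nat.add k 1)) (f (Nat.add k 2))

theorem m3F_eq {f f0 : ℕ → ℕ} {k : ℕ} (h0 : f k = f0 k) (h1 : f (k + 1) = f0 (k + 1))
    (h2 : f (k + 2) = f0 (k + 2)) : m3F f k = m3 f0 k := by
  unfold m3F m3a m3
  rw [frc_eq, frc_eq, frc_eq, mzF_eq, mzF_eq]
  change bc (Nat.beq (f k) 1) (bc (Nat.beq (f (k + 1)) 1) (mz (f k) (mz (f (k + 1)) (f (k + 2)))) 1) 1 =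
    bif Nat.beq (f0 k) 1 then 1 else bif Nat.beq (f0 (k + 1)) 1 then 1 else
      mz (f0 k) (mz (f0 (k + 1)) (f0 (k + 2)))
  rw [h0, h1, h2]
  cases Nat.beq (f0 k) 1 <;> cases Nat.beq (f0 (k + 1)) 1 <;> rfl

def nx2F (g : ℕ → ℕ → ℕ) (M m B l e : ℕ) : ℕ := asgF M m B l (Nat.pred (Nat.div e 2)) g

theorem nx2F_eq {N M m B l e : ℕ} (hI : Im N m B) (hl : l < 3 * N) (he : e < 256) {g : ℕ → ℕ → ℕ}
    {g0 : ℕ → ℕ} (hg : ∀ m' B', Im N m' B' → g m' B' = g0 m') : nx2F g M m B l e = nx2 g0 N M m l e := by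
  unfold nx2F nx2
  rw [frc_eq, asgF_eq hI hl (by show e / 2 - 1 + 1 < 256; omega) hg]
  by_cases h : asg N M m l (Nat.pred (Nat.div e 2)) = 0
  · rw [if_pos h, beq_t h]
    rfl
  · rw [if_neg h, beq_false h]
    rfl

def lvp2 (g : ℕ → ℕ → ℕ) (M m B l s e : ℕ) : ℕ :=
  zc e (zc (g m B) 0 (Nat.add s 2)) (zc (Nat.mod e 2) (nx2F g M m B l e) 0)

def lvpF (g : ℕ → ℕ → ℕ) (p M m B l s : ℕ) : ℕ := lvp2 g M m B l s (dgq p s)

theorem lvpF_eq {N p M m B l s : ℕ} (hI : Im N m B) (hl : l < 3 * N) {g : ℕ → ℕ → ℕ}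
    {g0 : ℕ → ℕ} (hg : ∀ m' B', Im N m' B' → g m' B' = g0 m') : lvpF g p M m B l s = lvp g0 N p M m l s := by
  unfold lvpF lvp2 lvp
  rw [frc_eq, dgq_eq, dgf_eq, nx2F_eq hI hl (dg_lt p s) hg, hg m B hI, zc_eq, zc_eq, zc_eq]
  by_cases h0 : dg p s = 0
  · rw [if_pos h0, beq_t h0, cond_true]
    by_cases h1 : g0 m = 0
    · rw [if_pos h1, beq_t h1]
      rfl
    · rw [if_neg h1, beq_false h1]
      rfl
  · rw [if_neg h0, beq_false h0, cond_false]
    change (if dg p s % 2 = 0 then _ else _) = bif Nat.beq (dg p s % 2) 1 then 0 else _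
    by_cases h1 : dg p s % 2 = 0
    · rw [if_pos h1, h1]
      rfl
    · have h2 : dg p s % 2 = 1 := by omega
      rw [if_neg h1, h2]
      rfl

/-- the member behind the digit `d` is `x` or not in the image -/
def d1y (B x d : ℕ) : Bool :=
  bc (Nat.ble d 1) (zc (Nat.mod d 2) (bc (Nat.beq (Nat.div (Nat.sub d 2) 6) x)
    (zc (bq B (Nat.div (Nat.sub d 2) 6)) true false) true) true) true

theorem d1y_eq {N m B : ℕ} (hI : Im N m B) (x d : ℕ) : d1y B x d = d1x N m x d := by
  unfold d1y d1x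
  rw [frc_eq, zc_bq, zc_eq, hI]
  change bc (Nat.ble d 1) (if d % 2 = 0 then bc (Nat.beq ((d - 2) / 6) x) (if B.testBit ((d - 2) / 6) = true then
    false else true) true else true) true = bif (Nat.ble d 1 || Nat.beq (d % 2) 1) then true else
      (Nat.beq ((d - 2) / 6) x || !B.testBit ((d - 2) / 6))
  cases Nat.ble d 1
  · by_cases h : d % 2 = 0
    · rw [if_pos h, h]
      cases Nat.beq ((d - 2) / 6) x
      · cases B.testBit ((d - 2) / 6) <;> rfl
      · rfl
    · have h2 : d % 2 = 1 := by omega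
      rw [if_neg h, h2]
      rfl
  · rfl

def d1z (B x w : ℕ) : Bool :=
  bc (d1y B x (Nat.mod w 256)) false (bc (d1y B x (Nat.mod (Nat.shiftRight w 8) 256)) false
    (d1y B x (Nat.shiftRight w 16)))

/-- the outer vertex behind a lonely port of the piece -/
def d1F (p B t e : ℕ) : Bool :=
  bc (Nat.ble e 1) (zc (bq B (Nat.div (Nat.sub e 2) 6)) (zc (Nat.mod e 2)
    (d1z B (Nat.div t 3) (wd p (Nat.div (Nat.sub e 2) 6))) true) false) true

theorem d1F_eq {N m B : ℕ} (hI : Im N m B) (p t e : ℕ) : d1F p B t e = d1ok N p m t e := by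
  unfold d1F d1z d1ok
  simp only [frc_eq]
  rw [d1y_eq hI, d1y_eq hI, d1y_eq hI, wd0, wd1, wd2, zc_bq, zc_eq]
  have e1 : tg e = Nat.div (Nat.sub e 2) 6 := rfl
  rw [e1, hI]
  have e2 : ∀ a b c : Bool, bc a false (bc b false c) = (a && b && c) := by decide
  rw [e2]
  change bc (Nat.ble e 1) (if B.testBit ((e - 2) / 6) = true then false else if e % 2 = 0 then
    (d1x N m (t / 3) (dg p (3 * ((e - 2) / 6))) && d1x N m (t / 3) (dg p (3 * ((e - 2) / 6) + 1)) &&
      d1x N m (t / 3) (dg p (3 * ((e - 2) / 6) + 2))) else true) true = bif Nat.ble e 1 then true else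
    (!B.testBit ((e - 2) / 6) && (Nat.beq (e % 2) 1 ||
    (d1x N m (t / 3) (dg p (3 * ((e - 2) / 6))) && d1x N m (t / 3) (dg p (3 * ((e - 2) / 6) + 1)) &&
      d1x N m (t / 3) (dg p (3 * ((e - 2) / 6) + 2)))))
  generalize (d1x N m (t / 3) (dg p (3 * ((e - 2) / 6))) && d1x N m (t / 3) (dg p (3 * ((e - 2) / 6) + 1)) &&
      d1x N m (t / 3) (dg p (3 * ((e - 2) / 6) + 2))) = b
  cases Nat.ble e 1
  · cases B.testBit ((e - 2) / 6)
    · by_cases h : e % 2 = 0
      · rw [if_neg (by simp), if_pos h, h]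
        cases b <;> rfl
      · have h2 : e % 2 = 1 := by omega
        rw [if_neg (by simp), if_neg h, h2]
        cases b <;> rfl
    · rfl
  · rfl

def vlp4 (g : ℕ → ℕ → ℕ) (p M m1 B1 d e l : ℕ) : ℕ :=
  bc (Nat.beq (Nat.mod d 2) (Nat.mod e 2)) (zc (Nat.mod d 2) 0 (zc (bq B1 (Nat.div (Nat.sub e 2) 6))
    (m3F (fun s => lvpF g p M m1 B1 l s) (Nat.mul 3 (Nat.div (Nat.sub e 2) 6))) 0)) (nx2F g M m1 B1 l e)

def vlp3 (g : ℕ → ℕ → ℕ) (p M t m1 B1 d e : ℕ) : ℕ :=
  bc (Nat.ble d 1) (zc e (zc (g m1 B1) 0 (Nat.add t 2)) (bc (Nat.beq e 1)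
    (vlp4 g p M m1 B1 d e (Nat.pred (Nat.div d 2))) 0)) (zc d (g m1 B1) (bc (d1F p B1 t e) 0 (g m1 B1)))

/-- the port `k` has the image `t` -/
def vlpF (g : ℕ → ℕ → ℕ) (r p M m B k t : ℕ) : ℕ :=
  asgF M m B k t fun m1 B1 => vlp3 g p M t m1 B1 (dgq r k) (dgq p t)

theorem vlpF_eq {N r p M m B k t : ℕ} (hw : wfp (N, r) = true) (hI : Im N m B) (hk : k < 3 * N)
    (ht : t + 1 < 256) {g : ℕ → ℕ → ℕ}
    {g0 : ℕ → ℕ} (hg : ∀ m' B', Im N m' B' → g m' B' = g0 m') : vlpF g r p M m B k t = vlp g0 N r p M m k t := by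
  unfold vlpF vlp
  rw [frc_eq, asgF_eq (g0 := fun m1 => bif Nat.ble (dg r k) 1 then (bif Nat.beq (dg r k) 0 ||
    d1ok N p m1 t (dg p t) then g0 m1 else 0) else
    bif Nat.beq (dg p t) 0 then (bif Nat.beq (g0 m1) 0 then 0 else Nat.add t 2) else
    bif Nat.beq (dg p t) 1 then 0 else
    bif Nat.beq (Nat.mod (dg r k) 2) (Nat.mod (dg p t) 2) then nx2 g0 N M m1 (Nat.pred (Nat.div (dg r k) 2)) (dg p t)
    else bif Nat.beq (Nat.mod (dg r k) 2) 0 then 0 else
    bif nin m1 (tg (dg p t)) N then m3 (fun s => lvp g0 N p M m1 (Nat.pred (Nat.div (dg r k) 2)) s)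
      (Nat.mul 3 (tg (dg p t))) else 0) hI hk ht]
  · simp only [frc_eq, dgf_eq]
    by_cases h : asg N M m k t = 0
    · rw [if_pos h, beq_t h]
      rfl
    · rw [if_neg h, beq_false h]
      rfl
  · intro m1 B1 hI1
    unfold vlp3 vlp4
    have hl : 2 ≤ dg r k → Nat.pred (Nat.div (dg r k) 2) < 3 * N := fun h2 => by
      have h3 := (wf_wfp hw)
      rcases digit_cases (dg r k) with g1 | g1 | ⟨l, g1⟩ | ⟨l, g1⟩
      · omega
      · omega
      · have := (h3.dir k hk l g1).1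
        rw [g1]
        show (2 + 2 * l) / 2 - 1 < 3 * N
        omega
      · have := (h3.lnk k hk l g1).1
        rw [g1]
        show (3 + 2 * l) / 2 - 1 < 3 * N
        omega
    rw [dgq_eq, dgq_eq, hg m1 B1 hI1, d1F_eq hI1]
    cases hd : Nat.ble (dg r k) 1
    · have hd' : 2 ≤ dg r k := by
        have := (W.ble_false hd)
        omega
      have hl' := hl hd'
      rw [nx2F_eq hI1 hl' (dg_lt p t) hg, zc_bq, zc_eq, zc_eq, zc_eq]
      have e4 : m3F (fun s => lvpF g p M m1 B1 (Nat.pred (Nat.div (dg r k) 2)) s)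
          (Nat.mul 3 (Nat.div (Nat.sub (dg p t) 2) 6)) =
          m3 (fun s => lvp g0 N p M m1 (Nat.pred (Nat.div (dg r k) 2)) s) (Nat.mul 3 (tg (dg p t))) :=
        m3F_eq (lvpF_eq hI1 hl' hg) (lvpF_eq hI1 hl' hg) (lvpF_eq hI1 hl' hg)
      rw [e4, hI1]
      rw [cond_false]
      by_cases h0 : dg p t = 0
      · rw [beq_t h0, cond_true, if_pos h0]
        by_cases h1 : g0 m1 = 0
        · rw [if_pos h1, beq_t h1]
          rfl
        · rw [if_neg h1, beq_false h1]
          rfl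
      · rw [beq_false h0, cond_false, if_neg h0]
        cases h1 : Nat.beq (dg p t) 1
        · rw [cond_false]
          change bc (Nat.beq (Nat.mod (dg r k) 2) (Nat.mod (dg p t) 2)) _ _ = _
          cases h2 : Nat.beq (Nat.mod (dg r k) 2) (Nat.mod (dg p t) 2)
          · rw [cond_false]
            by_cases h3 : Nat.mod (dg r k) 2 = 0
            · rw [if_pos h3, beq_t h3]
              rfl
            · rw [if_neg h3, beq_false h3, cond_false]
              have e5 : tg (dg p t) = Nat.div (Nat.sub (dg p t) 2) 6 := rfl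
              rw [e5]
              cases B1.testBit (Nat.div (Nat.sub (dg p t) 2) 6) <;> rfl
          · rfl
        · rfl
    · rw [cond_true]
      change zc (dg r k) (g0 m1) (bc (d1ok N p m1 t (dg p t)) 0 (g0 m1)) = _
      rw [zc_eq]
      by_cases h0 : dg r k = 0
      · rw [if_pos h0, beq_t h0]
        rfl
      · rw [if_neg h0, beq_false h0, Bool.false_or]
        cases d1ok N p m1 t (dg p t) <;> rfl

def mtc3 (r p M : ℕ) (g : ℕ → ℕ → ℕ) (m B k : ℕ) : ℕ :=
  m3F (fun t => vlpF g r p M m B k t) (Nat.mul 3 (Nat.pred (ndw (wd m (Nat.div k 3)))))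

def mtc2 (N r p M : ℕ) (g : ℕ → ℕ → ℕ) (m B F : ℕ) : ℕ :=
  zc F (bc (fin1 N r p m (Nat.mul 3 N)) 0 1) (mtc3 r p M g m B (Nat.div (Nat.log2 (Nat.xor F (Nat.pred F))) 8))

def mtc1 (N r p M u : ℕ) (g : ℕ → ℕ → ℕ) (m B z : ℕ) : ℕ :=
  mtc2 N r p M g m B (wo (Nat.mul (nf u z) 65793) z)

/-- the search -/
def mtcF (N r p M c u : ℕ) (f : ℕ) : ℕ → ℕ → ℕ :=
  Nat.rec (motive := fun _ => ℕ → ℕ → ℕ) (fun _ _ => 1)
    (fun _ g m B => mtc1 N r p M u g m B (nzf c m)) f

theorem nod_ne {m i : ℕ} : nod m i ≠ 0 ↔ (!Nat.beq (dg m (3 * i)) 0 || !Nat.beq (dg m (3 * i + 1)) 0 ||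
    !Nat.beq (dg m (3 * i + 2)) 0) = true := by
  rw [nod_eq]
  by_cases h1 : dg m (3 * i) = 0
  · rw [if_pos h1, beq_t h1]
    by_cases h2 : dg m (3 * i + 1) = 0
    · rw [if_pos h2, beq_t h2]
      by_cases h3 : dg m (3 * i + 2) = 0
      · rw [if_pos h3, beq_t h3]
        simp
      · rw [if_neg h3, beq_false h3]
        simp
    · rw [if_neg h2, beq_false h2]
      simp
  · rw [if_neg h1, beq_false h1]
    simp

/-- the ports without image at the nodes with an image -/
theorem nxf_eq (N m : ℕ) : wo (Nat.mul (nf (nl (fun _ => true) N) (nzf (fl (fun _ => true) (3 * N)) m)) 65793)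
    (nzf (fl (fun _ => true) (3 * N)) m) =
    fl (fun k => Nat.beq (dg m k) 0 && !Nat.beq (nod m (k / 3)) 0) (3 * N) := by
  rw [nzf_eq, nf_fl, nl_mul, wo_fl]
  refine fl_congr fun k _ => ?_
  rw [Bool.not_not, Bool.and_comm]
  congr 1
  have h := @nod_ne m (k / 3)
  rw [Bool.eq_iff_iff, Bool.not_eq_true', ← Bool.not_eq_true, Nat.beq_eq]
  exact h.symm

theorem log_low {F b : ℕ} (h : F.testBit b = true) (h1 : ∀ j < b, F.testBit j = false) :
    Nat.log2 (Nat.xor F (Nat.pred F)) = b := by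
  have e : Nat.xor F (Nat.pred F) = 2 ^ (b + 1) - 1 := by
    obtain ⟨q, hq⟩ : ∃ q, F = 2 ^ b * (2 * q + 1) := by
      have h2 : F % 2 ^ b = 0 := by
        apply Nat.eq_of_testBit_eq
        intro j
        rw [Nat.testBit_mod_two_pow, Nat.zero_testBit]
        by_cases hj : j < b
        · rw [h1 j hj, Bool.and_false]
        · rw [decide_eq_false hj, Bool.false_and]
      have h3 : F / 2 ^ b % 2 = 1 := by
        rw [Nat.testBit_eq_decide_div_mod_eq] at h
        exact of_decide_eq_true h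
      refine ⟨F / 2 ^ b / 2, ?_⟩
      have h4 := Nat.div_add_mod F (2 ^ b)
      have h5 := Nat.div_add_mod (F / 2 ^ b) 2
      rw [h3] at h5
      rw [h5, ← Nat.add_zero (2 ^ b * (F / 2 ^ b)), ← h2]
      exact h4.symm
    have hp : 0 < 2 ^ b := by positivity
    have e1 : Nat.pred F = 2 ^ b * (2 * q) + (2 ^ b - 1) := by
      rw [hq]
      show 2 ^ b * (2 * q + 1) - 1 = _
      have : 2 ^ b * (2 * q + 1) = 2 ^ b * (2 * q) + 2 ^ b := by ring
      omega
    have e2 : F = 2 ^ (b + 1) * q + 2 ^ b := by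
      rw [hq]
      ring
    have e3 : Nat.pred F = 2 ^ (b + 1) * q + (2 ^ b - 1) := by
      rw [e1]
      ring_nf
    apply Nat.eq_of_testBit_eq
    intro j
    show (F ^^^ Nat.pred F).testBit j = _
    rw [Nat.testBit_xor, Nat.testBit_two_pow_sub_one]
    have l1 : 2 ^ b < 2 ^ (b + 1) := Nat.pow_lt_pow_right (by norm_num) (Nat.lt_succ_self b)
    rw [e3]
    conv_lhs => rw [e2]
    rw [Nat.testBit_two_pow_mul_add _ l1, Nat.testBit_two_pow_mul_add _ (show 2 ^ b - 1 < 2 ^ (b + 1) by omega)]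
    by_cases hj : j < b + 1
    · rw [if_pos hj, if_pos hj, Nat.testBit_two_pow, Nat.testBit_two_pow_sub_one, decide_eq_true hj]
      by_cases hb : b = j
      · rw [decide_eq_true hb, decide_eq_false (by omega)]
        rfl
      · rw [decide_eq_false hb, decide_eq_true (show j < b by omega)]
        rfl
    · rw [if_neg hj, if_neg hj, decide_eq_false hj, Bool.xor_self]
  rw [e]
  have h2 : 2 ^ (b + 1) - 1 ≠ 0 := by
    have : 2 ^ 1 ≤ 2 ^ (b + 1) := Nat.pow_le_pow_right (by norm_num) (by omega)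
    omega
  rw [Nat.log2_eq_iff h2]
  have : 2 ^ (b + 1) = 2 * 2 ^ b := by ring
  have hp : 0 < 2 ^ b := by positivity
  constructor <;> omega

/-- the first port without image at a node with an image -/
theorem nxt_eq (m K : ℕ) : nxt m K =
    if fl (fun k => Nat.beq (dg m k) 0 && !Nat.beq (nod m (k / 3)) 0) K = 0 then 0 else
      Nat.log2 (Nat.xor (fl (fun k => Nat.beq (dg m k) 0 && !Nat.beq (nod m (k / 3)) 0) K)
        (Nat.pred (fl (fun k => Nat.beq (dg m k) 0 && !Nat.beq (nod m (k / 3)) 0) K))) / 8 + 1 := by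
  obtain ⟨P, hP⟩ : ∃ P : ℕ → Bool, P = fun k => Nat.beq (dg m k) 0 && !Nat.beq (nod m (k / 3)) 0 := ⟨_, rfl⟩
  rw [← hP]
  have key : ∀ K, (nxt m K = 0 ∧ ∀ k < K, P k = false) ∨
      ∃ k < K, nxt m K = k + 1 ∧ P k = true ∧ ∀ j < k, P j = false := by
    intro K
    induction K with
    | zero => exact Or.inl ⟨rfl, fun k hk => by omega⟩
    | succ K ih =>
      have e : nxt m (K + 1) = bif Nat.beq (nxt m K) 0 then (bif P K then K + 1 else 0) else nxt m K := by
        rw [nxt, frc_eq, hP]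
        rfl
      rw [e]
      rcases ih with ⟨h1, h2⟩ | ⟨k, hk, h1, h2, h3⟩
      · rw [h1]
        cases hK : P K
        · refine Or.inl ⟨rfl, fun k hk => ?_⟩
          rcases Nat.lt_succ_iff_lt_or_eq.1 hk with h | rfl
          · exact h2 k h
          · exact hK
        · exact Or.inr ⟨K, Nat.lt_succ_self K, rfl, hK, h2⟩
      · rw [h1]
        exact Or.inr ⟨k, by omega, rfl, h2, h3⟩
  rcases key K with ⟨h1, h2⟩ | ⟨k, hk, h1, h2, h3⟩
  · have h4 : fl P K = 0 := by
      rw [fl_congr (Q := fun _ => false) h2]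
      apply Nat.eq_of_testBit_eq
      intro j
      rw [tb_fl, Nat.zero_testBit]
      simp
    rw [if_pos h4, h1]
  · have h4 : (fl P K).testBit (8 * k) = true := by
      rw [tb_fl]
      have a1 : 8 * k % 8 = 0 := by omega
      have a2 : 8 * k / 8 = k := by omega
      rw [a1, a2, h2]
      simp [hk]
    have h5 : ∀ j < 8 * k, (fl P K).testBit j = false := by
      intro j hj
      rw [tb_fl]
      by_cases h6 : j % 8 = 0
      · rw [h3 (j / 8) (by omega)]
        simp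
      · rw [decide_eq_false h6]
        simp
    have h6 : fl P K ≠ 0 := fun e => by
      rw [e, Nat.zero_testBit] at h4
      exact absurd h4 (by simp)
    rw [if_neg h6, h1, log_low h4 h5]
    omega

theorem mtcF_eq {N r p M : ℕ} (hw : wfp (N, r) = true) : ∀ (f m B : ℕ), Im N m B →
    mtcF N r p M (fl (fun _ => true) (3 * N)) (nl (fun _ => true) N) f m B = mtc N r p M f m := by
  intro f
  induction f with
  | zero => intro m B _; rfl
  | succ f ih =>
    intro m B hI
    have e : mtcF N r p M (fl (fun _ => true) (3 * N)) (nl (fun _ => true) N) (f + 1) m B =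
        mtc1 N r p M (nl (fun _ => true) N)
          (mtcF N r p M (fl (fun _ => true) (3 * N)) (nl (fun _ => true) N) f) m B
          (nzf (fl (fun _ => true) (3 * N)) m) := rfl
    rw [e, mtc, frc_eq]
    unfold mtc1 mtc2 mtc3
    rw [nxf_eq, show Nat.mul 3 N = 3 * N from rfl, nxt_eq]
    obtain ⟨F, hF⟩ : ∃ F, F = fl (fun k => Nat.beq (dg m k) 0 && !Nat.beq (nod m (k / 3)) 0) (3 * N) := ⟨_, rfl⟩
    have hk := nxt_eq m (3 * N)
    rw [← hF] at hk ⊢
    rw [zc_eq]
    by_cases h0 : F = 0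
    · rw [if_pos h0, if_pos h0, show Nat.beq 0 0 = true from rfl, cond_true]
      cases fin1 N r p m (3 * N) <;> rfl
    · rw [if_neg h0] at hk ⊢
      rw [if_neg h0, beq_false (Nat.succ_ne_zero _), cond_false, frc_eq]
      obtain ⟨k, hk'⟩ : ∃ k, k = Nat.log2 (Nat.xor F (Nat.pred F)) / 8 := ⟨_, rfl⟩
      rw [← hk'] at hk ⊢
      obtain ⟨a1, a2, a3⟩ := nxt_of hk
      change m3F (fun t => vlpF _ r p M m B (Nat.log2 (Nat.xor F (Nat.pred F)) / 8) t)
        (3 * (Nat.pred (ndw (wd m ((Nat.log2 (Nat.xor F (Nat.pred F)) / 8) / 3))))) =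
        m3 (fun t => vlp (mtc N r p M f) N r p M m k t) (3 * Nat.pred (nod m (k / 3)))
      rw [← hk', ndw_eq]
      obtain ⟨x, hx⟩ : ∃ x, nod m (k / 3) = x + 1 := ⟨nod m (k / 3) - 1, by omega⟩
      have hx1 : x ≤ 84 := by
        obtain ⟨k1, t1, -, b2, b3⟩ := nod_succ hx
        have := dg_lt m k1
        omega
      rw [hx]
      change m3F _ (3 * x) = m3 _ (3 * x)
      exact m3F_eq (vlpF_eq hw hI a1 (by omega) ih) (vlpF_eq hw hI a1 (by omega) ih)
        (vlpF_eq hw hI a1 (by omega) ih)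

/-! ### all pieces at a removed node -/

theorem asg_kill {N M m k t : ℕ} (h : M.testBit (t / 3) = true) : asg N M m k t = 0 := by
  have hm : asg N M m k t = bif tb M (t / 3) then 0 else
    bif Nat.beq (dg m k) 0 then
      bif (Nat.beq (nod m (k / 3)) 0 && nin m (t / 3) N) ||
        (Nat.beq (nod m (k / 3)) (t / 3 + 1) && !sib m k t) then m + (t + 1) * 256 ^ k else 0
    else bif Nat.beq (dg m k) (t + 1) then m else 0 := by
    unfold asg
    simp only [frc_eq]
    rfl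
  rw [hm, tb_eq, h]
  rfl

theorem nx2_kill {g : ℕ → ℕ} {N M m l e : ℕ} (h : M.testBit (Nat.pred (Nat.div e 2) / 3) = true) :
    nx2 g N M m l e = 0 := by
  unfold nx2
  rw [frc_eq, asg_kill h]
  rfl

theorem nx2_zero {g : ℕ → ℕ} {N M m l e : ℕ} (h : ∀ m, g m = 0) : nx2 g N M m l e = 0 := by
  unfold nx2
  rw [frc_eq, h]
  cases Nat.beq (asg N M m l (Nat.pred (Nat.div e 2))) 0 <;> rfl

theorem mk1_kill {N r p M F a b : ℕ} (h : M.testBit (Nat.pred (Nat.div a 2) / 3) = true ∨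
    M.testBit (Nat.pred (Nat.div b 2) / 3) = true) : ∀ ks, mk1 N r p M F a b ks = 0 := by
  intro ks
  induction ks with
  | nil => rfl
  | cons k ks ih =>
    rw [mk1, frc_eq]
    have e : nx2 (fun m => nx2 (mtc N r p M F) N M m (Nat.pred (Nat.div (dgf r k) 2)) b) N M 0 k a = 0 := by
      rcases h with h | h
      · exact nx2_kill h
      · exact nx2_zero fun m => nx2_kill h
    rw [e, ih]
    rfl

theorem mk2_kill {p M F a b : ℕ} (h : M.testBit (Nat.pred (Nat.div a 2) / 3) = true ∨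
    M.testBit (Nat.pred (Nat.div b 2) / 3) = true) : ∀ ML, mk2 p M F a b ML = 0 := by
  intro ML
  induction ML with
  | nil => rfl
  | cons e ML ih =>
    rw [mk2, frc_eq, mk1_kill h, ih]
    rfl

def mk1a (x y : ℕ) : ℕ := bc (Nat.beq x 1) (mzF x y) 1

theorem mk1a_eq (x y : ℕ) : mk1a x y = bif Nat.beq x 1 then 1 else mz x y := by
  unfold mk1a
  rw [mzF_eq]
  cases Nat.beq x 1 <;> rfl

def mk0F (N r p M c u F a b k : ℕ) : ℕ :=
  nx2F (fun m B => nx2F (mtcF N r p M c u F) M m B (Nat.pred (Nat.div (dgq r k) 2)) b) M 0 0 k a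

/-- the search for the ports `ks` -/
def mk1F (N r p M c u F a b : ℕ) (ks : List ℕ) : ℕ :=
  List.rec (motive := fun _ => ℕ) 0 (fun k _ y => mk1a (mk0F N r p M c u F a b k) y) ks

/-- the search for all pieces -/
def mk2F (p M F a b : ℕ) (ML : List MPc) : ℕ :=
  List.rec (motive := fun _ => ℕ) 0 (fun e _ y => mk1a (mk1F e.1.1 e.1.2 p M
    (Nat.div (Nat.pow 16777216 e.1.1) 255) (Nat.div (Nat.pow 16777216 e.1.1) 16777215) F a b e.2) y) ML

def mk4F (ML : List MPc) (p M F a b : ℕ) : ℕ :=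
  zc (bq M (Nat.div (Nat.sub a 2) 6)) (zc (bq M (Nat.div (Nat.sub b 2) 6)) (mk2F p M F a b ML) 0) 0

/-- two direct ports -/
def mk3F (ML : List MPc) (p M F a b : ℕ) : ℕ :=
  bc (Nat.ble 2 a) 0 (zc (Nat.mod a 2) (bc (Nat.ble 2 b) 0 (zc (Nat.mod b 2) (mk4F ML p M F a b) 0)) 0)

def mt3F (ML : List MPc) (p M F w : ℕ) : ℕ :=
  mzF (mk3F ML p M F (Nat.mod w 256) (Nat.mod (Nat.shiftRight w 8) 256))
    (mzF (mk3F ML p M F (Nat.mod w 256) (Nat.shiftRight w 16))
      (mk3F ML p M F (Nat.mod (Nat.shiftRight w 8) 256) (Nat.shiftRight w 16)))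

def mt2F (ML : List MPc) (p M F z w : ℕ) : ℕ :=
  zc (Nat.mod w 256) (Nat.add (Nat.mul 3 z) 2) (zc (Nat.mod (Nat.shiftRight w 8) 256) (Nat.add (Nat.mul 3 z) 3)
    (zc (Nat.shiftRight w 16) (Nat.add (Nat.mul 3 z) 4) (mt3F ML p M F w)))

/-- the search at the removed node `z` -/
def mtF (ML : List MPc) (p M F z : ℕ) : ℕ := fz (wd p z) fun w => mt2F ML p M F z w

theorem im_zero (N : ℕ) : Im N 0 0 := by
  intro y
  rw [Nat.zero_testBit, Bool.not_false, nin_true]
  intro i _
  have : nod 0 i = 0 := by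
    rw [nod_eq]
    have h : ∀ k, dg 0 k = 0 := fun k => by unfold dg; simp
    rw [h, h, h]
    rfl
  omega

theorem mk1F_eq {N r p M F a b : ℕ} (hw : wfp (N, r) = true) (ha : a < 256) (hb : b < 256) :
    ∀ {ks : List ℕ}, (∀ k ∈ ks, k < 3 * N ∧ ∃ l, dg r k = 3 + 2 * l) →
      mk1F N r p M (fl (fun _ => true) (3 * N)) (nl (fun _ => true) N) F a b ks = mk1 N r p M F a b ks := by
  intro ks
  induction ks with
  | nil => intro _; rfl
  | cons k ks ih =>
    intro h
    have e : mk1F N r p M (fl (fun _ => true) (3 * N)) (nl (fun _ => true) N) F a b (k :: ks) =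
      mk1a (mk0F N r p M (fl (fun _ => true) (3 * N)) (nl (fun _ => true) N) F a b k)
        (mk1F N r p M (fl (fun _ => true) (3 * N)) (nl (fun _ => true) N) F a b ks) := rfl
    rw [e, mk1a_eq, ih fun k hk => h k (List.mem_cons_of_mem _ hk), mk1, frc_eq]
    obtain ⟨h1, l, h2⟩ := h k List.mem_cons_self
    have h3 := ((wf_wfp hw).lnk k h1 l h2).1
    have e1 : mk0F N r p M (fl (fun _ => true) (3 * N)) (nl (fun _ => true) N) F a b k =
        nx2 (fun m => nx2 (mtc N r p M F) N M m (Nat.pred (Nat.div (dgf r k) 2)) b) N M 0 k a := by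
      unfold mk0F
      refine nx2F_eq (im_zero N) h1 ha fun m' B' hI' => ?_
      rw [dgq_eq, dgf_eq]
      refine nx2F_eq hI' ?_ hb fun m'' B'' hI'' => mtcF_eq hw F m'' B'' hI''
      rw [h2]
      show (3 + 2 * l) / 2 - 1 < 3 * N
      omega
    rw [e1]

theorem mk2F_eq {p M F a b : ℕ} (ha : a < 256) (hb : b < 256) : ∀ {ML : List MPc}, ML.all mkok = true →
    mk2F p M F a b ML = mk2 p M F a b ML := by
  intro ML
  induction ML with
  | nil => intro _; rfl
  | cons e ML ih =>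
    intro h
    have e1 : mk2F p M F a b (e :: ML) = mk1a (mk1F e.1.1 e.1.2 p M
      (Nat.div (Nat.pow 16777216 e.1.1) 255) (Nat.div (Nat.pow 16777216 e.1.1) 16777215) F a b e.2)
        (mk2F p M F a b ML) := rfl
    rw [List.all_cons, Bool.and_eq_true] at h
    rw [e1, mk1a_eq, ih h.2, mk2, frc_eq, ones_eq, nodes_eq, mk1F_eq (mkok_wfp h.1) ha hb]
    intro k hk
    obtain ⟨a1, l, -, a2⟩ := mkok_of h.1 hk
    exact ⟨a1, l, a2⟩

theorem mk3F_eq {ML : List MPc} (hML : ML.all mkok = true) {p M F a b : ℕ} (ha : a < 256) (hb : b < 256) :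
    mk3F ML p M F a b = mk3 ML p M F a b := by
  have e4 : 2 ≤ a → a % 2 = 0 → 2 ≤ b → b % 2 = 0 → mk4F ML p M F a b = mk2 p M F a b ML := by
    intro a1 a2 b1 b2
    unfold mk4F
    have ea : Nat.div (Nat.sub a 2) 6 = Nat.pred (Nat.div a 2) / 3 := by
      show (a - 2) / 6 = (a / 2 - 1) / 3
      omega
    have eb : Nat.div (Nat.sub b 2) 6 = Nat.pred (Nat.div b 2) / 3 := by
      show (b - 2) / 6 = (b / 2 - 1) / 3
      omega
    rw [zc_bq, zc_bq, mk2F_eq ha hb hML, ea, eb]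
    by_cases h1 : M.testBit (Nat.pred (Nat.div a 2) / 3) = true
    · rw [if_pos h1, mk2_kill (Or.inl h1)]
    · rw [if_neg h1]
      by_cases h2 : M.testBit (Nat.pred (Nat.div b 2) / 3) = true
      · rw [if_pos h2, mk2_kill (Or.inr h2)]
      · rw [if_neg h2]
  unfold mk3F mk3
  rw [zc_eq, zc_eq]
  change bc (Nat.ble 2 a) 0 (if a % 2 = 0 then bc (Nat.ble 2 b) 0 (if b % 2 = 0 then mk4F ML p M F a b else 0)
    else 0) = bif Nat.ble 2 a && Nat.beq (a % 2) 0 && (Nat.ble 2 b && Nat.beq (b % 2) 0) then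
      mk2 p M F a b ML else 0
  cases h1 : Nat.ble 2 a
  · rfl
  · by_cases h2 : a % 2 = 0
    · rw [if_pos h2, h2]
      cases h3 : Nat.ble 2 b
      · rfl
      · by_cases h4 : b % 2 = 0
        · rw [if_pos h4, h4]
          exact e4 (Nat.le_of_ble_eq_true h1) h2 (Nat.le_of_ble_eq_true h3) h4
        · rw [if_neg h4, beq_false h4]
          rfl
    · rw [if_neg h2, beq_false h2]
      rfl

/-- **the fast search is the search** -/
theorem mtF_eq {ML : List MPc} (hML : ML.all mkok = true) (p M F z : ℕ) :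
    mtF ML p M F z = mt ML p M F z := by
  unfold mtF mt2F mt3F mt
  simp only [frc_eq]
  rw [fz_val, wd0, wd1, wd2, mk3F_eq hML (dg_lt _ _) (dg_lt _ _), mk3F_eq hML (dg_lt _ _) (dg_lt _ _),
    mk3F_eq hML (dg_lt _ _) (dg_lt _ _), mzF_eq, mzF_eq, zc_eq, zc_eq, zc_eq]
  change (if dg p (3 * z) = 0 then 3 * z + 2 else if dg p (3 * z + 1) = 0 then 3 * z + 3 else
    if dg p (3 * z + 2) = 0 then 3 * z + 4 else mz (mk3 ML p M F (dg p (3 * z)) (dg p (3 * z + 1)))
      (mz (mk3 ML p M F (dg p (3 * z)) (dg p (3 * z + 2))) (mk3 ML p M F (dg p (3 * z + 1)) (dg p (3 * z + 2))))) =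
    bif Nat.beq (dg p (fo p z)) 0 then fo p z + 2 else mz (mk3 ML p M F (dg p (3 * z)) (dg p (3 * z + 1)))
      (mz (mk3 ML p M F (dg p (3 * z)) (dg p (3 * z + 2))) (mk3 ML p M F (dg p (3 * z + 1)) (dg p (3 * z + 2))))
  unfold fo
  by_cases h0 : dg p (3 * z) = 0
  · rw [if_pos h0, beq_t h0, cond_true, beq_t h0, cond_true]
  · rw [if_neg h0, beq_false h0, cond_false]
    by_cases h1 : dg p (3 * z + 1) = 0
    · rw [if_pos h1, beq_t h1, cond_true, beq_t h1, cond_true]
    · rw [if_neg h1, beq_false h1, cond_false]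
      by_cases h2 : dg p (3 * z + 2) = 0
      · rw [if_pos h2, beq_t h2, cond_true]
      · rw [if_neg h2, beq_false h2, cond_false]

end W

end EF18
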