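import Pool.Agent.Lib.MP_ef18bd_co.P.Conn

/-!
# Weights of a residual set, separated unions, components
-/

namespace EF18

open Finset

variable {V : Type} [Fintype V] [DecidableEq V] {G : SimpleGraph V} [DecidableRel G.Adj]

/-- the number of neighbours in `U` -/
def nU (G : SimpleGraph V) [DecidableRel G.Adj] (U : Finset V) (x : V) : ℕ :=
  (G.neighborFinset x ∩ U).card

/-- three weights -/
structure Wts where
  (u b c : ℕ)
  (hbu : b ≤ u)
  (hcb : c ≤ b)

/-- the weight of a vertex with `k` neighbours in the set, outside the set -/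
def Wts.out (p : Wts) (k : ℕ) : ℕ := if k = 0 then 0 else if k = 1 then p.c else p.b

/-- the weight of a vertex -/
def wt (p : Wts) (G : SimpleGraph V) [DecidableRel G.Adj] (U : Finset V) (x : V) : ℕ :=
  if x ∈ U then p.u else p.out (nU G U x)

/-- the potential -/
def Psi (p : Wts) (G : SimpleGraph V) [DecidableRel G.Adj] (U : Finset V) : ℕ := ∑ x, wt p G U x

theorem Wts.out_mono (p : Wts) {k l : ℕ} (h : k ≤ l) : p.out k ≤ p.out l := by
  have := p.hcb
  unfold Wts.out
  split_ifs <;> omega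

theorem Wts.out_le (p : Wts) (k : ℕ) : p.out k ≤ p.u := by
  have h1 := p.hcb
  have h2 := p.hbu
  unfold Wts.out
  split_ifs <;> omega

theorem nU_mono {U' U : Finset V} (h : U' ⊆ U) (x : V) : nU G U' x ≤ nU G U x :=
  card_le_card (inter_subset_inter_left h)

theorem nU_le (hG : G.IsRegularOfDegree 3) (U : Finset V) (x : V) : nU G U x ≤ 3 := by
  unfold nU
  rw [← nbr_card hG x]
  exact card_le_card inter_subset_left

theorem wt_mem {p : Wts} {U : Finset V} {x : V} (h : x ∈ U) : wt p G U x = p.u := if_pos h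

theorem wt_notMem {p : Wts} {U : Finset V} {x : V} (h : x ∉ U) : wt p G U x = p.out (nU G U x) := if_neg h

theorem wt_mono (p : Wts) {U' U : Finset V} (h : U' ⊆ U) (x : V) : wt p G U' x ≤ wt p G U x := by
  by_cases h1 : x ∈ U
  · rw [wt_mem h1]
    by_cases h2 : x ∈ U'
    · rw [wt_mem h2]
    · rw [wt_notMem h2]; exact p.out_le _
  · rw [wt_notMem h1, wt_notMem (fun h2 => h1 (h h2))]
    exact p.out_mono (nU_mono h x)

/-- any partial list of losses bounds the drop -/
theorem drop_ge (p : Wts) {U' U : Finset V} (h : U' ⊆ U) (T : Finset V) :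
    Psi p G U' + ∑ x ∈ T, wt p G U x ≤ Psi p G U + ∑ x ∈ T, wt p G U' x := by
  unfold Psi
  rw [← sum_add_sum_compl T (fun x => wt p G U' x), ← sum_add_sum_compl T (fun x => wt p G U x)]
  have := sum_le_sum (s := Tᶜ) (fun x _ => wt_mono (G := G) p h x)
  omega

theorem Psi_mono (p : Wts) {U' U : Finset V} (h : U' ⊆ U) : Psi p G U' ≤ Psi p G U :=
  sum_le_sum fun x _ => wt_mono p h x

theorem Psi_empty (p : Wts) : Psi p G (∅ : Finset V) = 0 := by
  unfold Psi
  refine sum_eq_zero fun x _ => ?_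
  rw [wt_notMem (notMem_empty x)]
  simp [nU, Wts.out]

/-- every loss `f x`, for `x` in a set, is part of the drop -/
theorem drop_ge_of (p : Wts) {U' U : Finset V} (h : U' ⊆ U) (T : Finset V) (f : V → ℕ)
    (hf : ∀ x ∈ T, wt p G U' x + f x ≤ wt p G U x) : Psi p G U' + ∑ x ∈ T, f x ≤ Psi p G U := by
  have h1 := drop_ge (G := G) p h T
  have h2 := sum_le_sum hf
  rw [sum_add_distrib] at h2
  omega

/-! ### separated unions -/

/-- no vertex of `A` is within distance two of a vertex of `B` -/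
def Sep (G : SimpleGraph V) [DecidableRel G.Adj] (A B : Finset V) : Prop := ∀ a ∈ A, ∀ b ∈ B, a ∉ B2 G b

theorem Sep.symm {A B : Finset V} (h : Sep G A B) : Sep G B A := fun b hb a ha hab =>
  h a ha b hb (mem_B2_comm.1 hab)

theorem Sep.mono {A B A' B' : Finset V} (h : Sep G A B) (hA : A' ⊆ A) (hB : B' ⊆ B) : Sep G A' B' :=
  fun a ha b hb => h a (hA ha) b (hB hb)

theorem Sep.disjoint {A B : Finset V} (h : Sep G A B) : Disjoint A B := by
  rw [disjoint_left]
  intro a ha hb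
  exact h a ha a hb self_mem_B2

theorem mem_B2_of_adj {a b : V} (h : G.Adj a b) : a ∈ B2 G b :=
  mem_B2.2 ⟨a, mem_cn.2 (Or.inr h.symm), self_mem_cn⟩

theorem mem_B2_of_common {a b x : V} (h1 : G.Adj x a) (h2 : G.Adj x b) : a ∈ B2 G b :=
  mem_B2.2 ⟨x, mem_cn.2 (Or.inr h2.symm), mem_cn.2 (Or.inr h1)⟩

theorem nU_union {A B : Finset V} (h : Disjoint A B) (x : V) : nU G (A ∪ B) x = nU G A x + nU G B x := by
  unfold nU
  rw [inter_union_distrib_left, card_union_of_disjoint]
  exact h.mono inter_subset_right inter_subset_right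

theorem nU_eq_zero_of_mem {A B : Finset V} (h : Sep G A B) {x : V} (hx : x ∈ A) : nU G B x = 0 := by
  unfold nU
  rw [card_eq_zero, eq_empty_iff_forall_notMem]
  intro y hy
  rw [mem_inter, SimpleGraph.mem_neighborFinset] at hy
  exact h x hx y hy.2 (mem_B2_of_adj hy.1)

theorem Sep.nU_zero {A B : Finset V} (h : Sep G A B) (x : V) : nU G A x = 0 ∨ nU G B x = 0 := by
  by_contra hcon
  push Not at hcon
  unfold nU at hcon
  obtain ⟨a, ha⟩ := card_pos.1 (Nat.pos_of_ne_zero hcon.1)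
  obtain ⟨b, hb⟩ := card_pos.1 (Nat.pos_of_ne_zero hcon.2)
  rw [mem_inter, SimpleGraph.mem_neighborFinset] at ha hb
  exact h a ha.2 b hb.2 (mem_B2_of_common ha.1 hb.1)

theorem wt_union (p : Wts) {A B : Finset V} (h : Sep G A B) (x : V) :
    wt p G (A ∪ B) x = wt p G A x + wt p G B x := by
  by_cases hA : x ∈ A
  · have hB : x ∉ B := disjoint_left.1 h.disjoint hA
    rw [wt_mem (mem_union_left _ hA), wt_mem hA, wt_notMem hB, nU_eq_zero_of_mem h hA]
    simp [Wts.out]
  · by_cases hB : x ∈ B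
    · rw [wt_mem (mem_union_right _ hB), wt_mem hB, wt_notMem hA, nU_eq_zero_of_mem h.symm hB]
      simp [Wts.out]
    · rw [wt_notMem hA, wt_notMem hB, wt_notMem (by simp [hA, hB]), nU_union h.disjoint]
      rcases h.nU_zero x with h0 | h0 <;> rw [h0] <;> simp [Wts.out]

theorem Psi_union (p : Wts) {A B : Finset V} (h : Sep G A B) : Psi p G (A ∪ B) = Psi p G A + Psi p G B := by
  unfold Psi
  rw [← sum_add_distrib]
  exact sum_congr rfl fun x _ => wt_union p h x

theorem Inv.of_sep {A B : Finset V} (h : Sep G A B) (hI : Inv G (A ∪ B)) : Inv G A := by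
  intro x hx
  by_cases hxB : x ∈ B
  · have : cn G x ∩ A = ∅ := by
      rw [eq_empty_iff_forall_notMem]
      intro y hy
      rw [mem_inter, mem_cn] at hy
      rcases hy.1 with rfl | h1
      · exact h y hy.2 y hxB self_mem_B2
      · exact h y hy.2 x hxB (mem_B2_of_adj h1.symm)
    rw [this]
    simp
  · exact (card_le_card (inter_subset_inter_left subset_union_left)).trans (hI x (by simp [hx, hxB]))

/-! ### clearing a set -/

/-- `U` is cleared by at most `m` picks -/
def Has (G : SimpleGraph V) [DecidableRel G.Adj] (U : Finset V) (m : ℕ) : Prop :=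
  ∃ S ⊆ U, (∀ s ∈ S, ∀ t ∈ S, s ∈ B2 G t → s = t) ∧ (∀ x ∈ U, ∃ s ∈ S, x ∈ B2 G s) ∧ S.card ≤ m

theorem Has.mono {U : Finset V} {m n : ℕ} (h : Has G U m) (hmn : m ≤ n) : Has G U n := by
  obtain ⟨S, h1, h2, h3, h4⟩ := h
  exact ⟨S, h1, h2, h3, h4.trans hmn⟩

theorem Has.empty : Has G (∅ : Finset V) 0 :=
  ⟨∅, empty_subset _, by simp, fun x hx => absurd hx (notMem_empty x), by simp⟩

theorem Has.pick {U : Finset V} {v : V} {m : ℕ} (hv : v ∈ U) (h : Has G (U \ B2 G v) m) :
    Has G U (m + 1) := by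
  obtain ⟨S, h1, h2, h3, h4⟩ := h
  have hvS : v ∉ S := fun h => (mem_sdiff.1 (h1 h)).2 self_mem_B2
  refine ⟨insert v S, insert_subset hv (h1.trans sdiff_subset), ?_, ?_, ?_⟩
  · intro s hs t ht hst
    rw [mem_insert] at hs ht
    rcases hs with rfl | hs <;> rcases ht with rfl | ht
    · rfl
    · exact absurd (mem_B2_comm.1 hst) (mem_sdiff.1 (h1 ht)).2
    · exact absurd hst (mem_sdiff.1 (h1 hs)).2
    · exact h2 s hs t ht hst
  · intro x hx
    by_cases hxv : x ∈ B2 G v
    · exact ⟨v, mem_insert_self _ _, hxv⟩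
    · obtain ⟨s, hs, hxs⟩ := h3 x (mem_sdiff.2 ⟨hx, hxv⟩)
      exact ⟨s, mem_insert_of_mem hs, hxs⟩
  · rw [card_insert_of_notMem hvS]
    omega

theorem Has.sep {A B : Finset V} {m n : ℕ} (h : Sep G A B) (hA : Has G A m) (hB : Has G B n) :
    Has G (A ∪ B) (m + n) := by
  obtain ⟨S, a1, a2, a3, a4⟩ := hA
  obtain ⟨T, b1, b2, b3, b4⟩ := hB
  refine ⟨S ∪ T, union_subset_union a1 b1, ?_, ?_, ?_⟩
  · intro s hs t ht hst
    rw [mem_union] at hs ht
    rcases hs with hs | hs <;> rcases ht with ht | ht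
    · exact a2 s hs t ht hst
    · exact absurd hst (h s (a1 hs) t (b1 ht))
    · exact absurd (mem_B2_comm.1 hst) (h t (a1 ht) s (b1 hs))
    · exact b2 s hs t ht hst
  · intro x hx
    rcases mem_union.1 hx with hx | hx
    · obtain ⟨s, hs, hxs⟩ := a3 x hx
      exact ⟨s, mem_union_left _ hs, hxs⟩
    · obtain ⟨s, hs, hxs⟩ := b3 x hx
      exact ⟨s, mem_union_right _ hs, hxs⟩
  · exact (card_union_le _ _).trans (by omega)

/-- one vertex near all the others -/
theorem Has.one {U : Finset V} {v : V} (hv : v ∈ U) (h : U ⊆ B2 G v) : Has G U 1 := by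
  refine Has.pick hv ?_
  rw [sdiff_eq_empty_iff_subset.2 h]
  exact Has.empty

theorem Has.exists (U : Finset V) : ∃ m, Has G U m := by
  induction U using Finset.strongInduction with
  | H U ih =>
    rcases U.eq_empty_or_nonempty with rfl | ⟨v, hv⟩
    · exact ⟨0, Has.empty⟩
    · obtain ⟨m, hm⟩ := ih (U \ B2 G v)
        ⟨sdiff_subset, fun h => (mem_sdiff.1 (h hv)).2 self_mem_B2⟩
      exact ⟨m + 1, Has.pick hv hm⟩

/-- a cleared graph has a maximal packing -/
theorem Has.packing {m : ℕ} (h : Has G (univ : Finset V) m) :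
    ∃ S : Finset V, Pk G S ∧ Mx G univ S ∧ S.card ≤ m := by
  obtain ⟨S, -, h2, h3, h4⟩ := h
  exact ⟨S, pk_of_scattered h2, mx_of_dominating (fun x => h3 x (mem_univ x)), h4⟩

/-! ### components -/

/-- `U` is connected by steps of length at most two between its members -/
def Con (G : SimpleGraph V) [DecidableRel G.Adj] (U : Finset V) : Prop :=
  ∀ A ⊆ U, A.Nonempty → Sep G A (U \ A) → A = U

open scoped Classical in
/-- the component of a member -/
noncomputable def cmp (G : SimpleGraph V) [DecidableRel G.Adj] (U : Finset V) (v : V) : Finset V :=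
  U.filter (fun x => ∀ A ⊆ U, v ∈ A → Sep G A (U \ A) → x ∈ A)

theorem mem_cmp {U : Finset V} {v x : V} :
    x ∈ cmp G U v ↔ x ∈ U ∧ ∀ A ⊆ U, v ∈ A → Sep G A (U \ A) → x ∈ A := by
  simp only [cmp, mem_filter]

theorem cmp_subset {U : Finset V} {v : V} : cmp G U v ⊆ U := fun _ hx => (mem_cmp.1 hx).1

theorem mem_cmp_self {U : Finset V} {v : V} (hv : v ∈ U) : v ∈ cmp G U v :=
  mem_cmp.2 ⟨hv, fun _ _ h _ => h⟩

theorem cmp_min {U A : Finset V} {v : V} (hA : A ⊆ U) (hv : v ∈ A) (hs : Sep G A (U \ A)) :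
    cmp G U v ⊆ A := by
  intro x hx
  exact (mem_cmp.1 hx).2 A hA hv hs

theorem cmp_sep {U : Finset V} {v : V} : Sep G (cmp G U v) (U \ cmp G U v) := by
  intro a ha b hb hab
  rw [mem_sdiff] at hb
  have h1 : ¬ ∀ A ⊆ U, v ∈ A → Sep G A (U \ A) → b ∈ A := fun h => hb.2 (mem_cmp.2 ⟨hb.1, h⟩)
  push Not at h1
  obtain ⟨A, hA, hv, hs, hbA⟩ := h1
  exact hs a (cmp_min hA hv hs ha) b (mem_sdiff.2 ⟨hb.1, hbA⟩) hab

theorem cmp_con {U : Finset V} {v : V} (hv : v ∈ U) : Con G (cmp G U v) := by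
  intro A hA hne hs
  have key : ∀ B ⊆ cmp G U v, v ∈ B → Sep G B (cmp G U v \ B) → B = cmp G U v := by
    intro B hB hvB hsB
    refine Subset.antisymm hB (cmp_min (hB.trans cmp_subset) hvB ?_)
    intro a ha b hb
    rw [mem_sdiff] at hb
    by_cases hbc : b ∈ cmp G U v
    · exact hsB a ha b (mem_sdiff.2 ⟨hbc, hb.2⟩)
    · exact cmp_sep a (hB ha) b (mem_sdiff.2 ⟨hb.1, hbc⟩)
  by_cases hvA : v ∈ A
  · exact key A hA hvA hs
  · exfalso
    have h1 := key (cmp G U v \ A) sdiff_subset (mem_sdiff.2 ⟨mem_cmp_self hv, hvA⟩) (by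
      rw [Finset.sdiff_sdiff_eq_self hA]
      exact hs.symm)
    obtain ⟨a, ha⟩ := hne
    have h2 := hA ha
    rw [← h1, mem_sdiff] at h2
    exact h2.2 ha

theorem cmp_union {U : Finset V} {v : V} : cmp G U v ∪ (U \ cmp G U v) = U :=
  union_sdiff_of_subset cmp_subset

/-- the constant paid once: the induction -/
theorem once (p : Wts) (K e : ℕ)
    (hstep : ∀ U : Finset V, Inv G U → U.Nonempty → Con G U →
      (∀ L : Finset V, L ⊂ U → Inv G L → L.Nonempty → Con G L → ∃ m, Has G L m ∧ 42 * K * m ≤ Psi p G L + e) →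
      ∃ m, Has G U m ∧ 42 * K * m ≤ Psi p G U + e) :
    ∀ U : Finset V, Inv G U → U.Nonempty → Con G U → ∃ m, Has G U m ∧ 42 * K * m ≤ Psi p G U + e := by
  intro U
  induction U using Finset.strongInduction with
  | H U ih =>
    intro h1 h2 h3
    exact hstep U h1 h2 h3 (fun L hL a1 a2 a3 => ih L hL a1 a2 a3)

/-- the step: some picks, one large component, the rest exactly -/
theorem step_of (hG : G.IsRegularOfDegree 3) (p : Wts) (K e : ℕ) {U : Finset V} {v : V} (hv : v ∈ U)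
    (ih : ∀ L : Finset V, L ⊂ U → Inv G L → L.Nonempty → Con G L →
      ∃ m, Has G L m ∧ 42 * K * m ≤ Psi p G L + e) (hI : Inv G U)
    {L Q : Finset V} (hs : Sep G L Q) (hLQ : L ∪ Q = U \ B2 G v) (hL : L.Nonempty) (hc : Con G L)
    {q : ℕ} (hq : Has G Q q) (hd : Psi p G L + 42 * K * (1 + q) ≤ Psi p G U) :
    ∃ m, Has G U m ∧ 42 * K * m ≤ Psi p G U + e := by
  have hLU : L ⊂ U := by
    refine ⟨fun x hx => (mem_sdiff.1 (hLQ ▸ mem_union_left Q hx)).1, fun h => ?_⟩
    have := h hv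
    exact (mem_sdiff.1 (hLQ ▸ mem_union_left Q this)).2 self_mem_B2
  obtain ⟨m, hm, hm2⟩ := ih L hLU (Inv.of_sep hs (hLQ ▸ hI.pick hG v)) hL hc
  refine ⟨m + q + 1, Has.pick hv (hLQ ▸ Has.sep hs hm hq), ?_⟩
  calc 42 * K * (m + q + 1) = 42 * K * m + 42 * K * (1 + q) := by ring
    _ ≤ Psi p G U + e := by omega

end EF18
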